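import Pool.Agent.P.MP_8b7eba_nt.R2.BasicP

/-! Norms. -/

namespace Pool.Agent.P.MP_8b7eba_nt.R2

open scoped NNReal

variable {H H' H'' : Subgroup GQ} {x y : Om} {w : Pl}

namespace Nrm

/-- the chosen representative -/
noncomputable def ro (H H' : Subgroup GQ) (q : H ⧸ H'.subgroupOf H) : GQ := ((q.out : H) : GQ)

theorem def' : nrm H H' x = ∏ᶠ q, ro H H' q x := rfl

theorem ro_mem (q : H ⧸ H'.subgroupOf H) : ro H H' q ∈ H := q.out.2

theorem mk_eq {a b : H} : (a : H ⧸ H'.subgroupOf H) = b ↔ (a : GQ)⁻¹ * b ∈ H' := QuotientGroup.eq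

theorem ro_inj {q q' : H ⧸ H'.subgroupOf H} (h : (ro H H' q)⁻¹ * ro H H' q' ∈ H') : q = q' := by
  rw [← q.out_eq', ← q'.out_eq']
  exact mk_eq.2 h

theorem ro_surj {g : GQ} (hg : g ∈ H) : ∃ q, (ro H H' q)⁻¹ * g ∈ H' :=
  ⟨((⟨g, hg⟩ : H) : H ⧸ H'.subgroupOf H), mk_eq.1 (QuotientGroup.out_eq' _)⟩

theorem core {ι : Type} (r : ι → GQ) (hx : Fix H' x) (h1 : ∀ i, r i ∈ H)
    (hb : Function.Bijective fun i => ((⟨r i, h1 i⟩ : H) : H ⧸ H'.subgroupOf H)) :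
    nrm H H' x = ∏ᶠ i, r i x := by
  refine (finprod_eq_of_bijective _ hb fun i => ?_).symm
  have := hx _ (mk_eq.1 (QuotientGroup.out_eq' ((⟨r i, h1 i⟩ : H) : H ⧸ H'.subgroupOf H)))
  rw [AlgEquiv.mul_apply] at this
  exact (AlgEquiv.symm_apply_eq _).1 this

theorem gen {ι : Type} (r : ι → GQ) (hx : Fix H' x) (h1 : ∀ i, r i ∈ H)
    (h2 : ∀ i j, (r i)⁻¹ * r j ∈ H' → i = j) (h3 : ∀ g ∈ H, ∃ i, (r i)⁻¹ * g ∈ H') :
    nrm H H' x = ∏ᶠ i, r i x := by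
  refine core r hx h1 ⟨fun i j h => h2 i j ?_, fun q => ?_⟩
  · exact (mk_eq (a := ⟨r i, h1 i⟩) (b := ⟨r j, h1 j⟩)).1 h
  · obtain ⟨i, hi⟩ := h3 _ (ro_mem q)
    exact ⟨i, ((mk_eq (a := ⟨r i, h1 i⟩) (b := q.out)).2 hi).trans q.out_eq'⟩

theorem map (σ : GQ) {ι : Type} (f : ι → Om) : σ (∏ᶠ i, f i) = ∏ᶠ i, σ (f i) :=
  MulEquiv.map_finprod (σ : Om ≃* Om) f

@[implicit_reducible] noncomputable def ft (h : H'.relIndex H ≠ 0) :
    Fintype (H ⧸ H'.subgroupOf H) := Subgroup.fintypeOfIndexNeZero h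

theorem prod [Fintype (H ⧸ H'.subgroupOf H)] : nrm H H' x = ∏ q, ro H H' q x :=
  finprod_eq_prod_of_fintype _

theorem card [Fintype (H ⧸ H'.subgroupOf H)] :
    Fintype.card (H ⧸ H'.subgroupOf H) = H'.relIndex H := Fintype.card_eq_nat_card

end Nrm

open Nrm

/-- the norm can be computed with any system of representatives -/
theorem nrm_eq_prod {ι : Type} (s : Finset ι) (r : ι → GQ) (hx : Fix H' x) (h1 : ∀ i ∈ s, r i ∈ H)
    (h2 : ∀ i ∈ s, ∀ j ∈ s, (r i)⁻¹ * r j ∈ H' → i = j)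
    (h3 : ∀ g ∈ H, ∃ i ∈ s, (r i)⁻¹ * g ∈ H') : nrm H H' x = ∏ i ∈ s, r i x := by
  rw [gen (fun i : s => r i) hx (fun i => h1 i i.2)
    (fun i j h => Subtype.ext (h2 i i.2 j j.2 h))
    (fun g hg => let ⟨i, hi, h⟩ := h3 g hg; ⟨⟨i, hi⟩, h⟩), finprod_eq_prod_of_fintype]
  exact Finset.prod_coe_sort s fun i => r i x

theorem exists_reps (h : H'.relIndex H ≠ 0) : ∃ s : Finset GQ, s.card = H'.relIndex H ∧
    (∀ i ∈ s, i ∈ H) ∧ (∀ i ∈ s, ∀ j ∈ s, i⁻¹ * j ∈ H' → i = j) ∧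
    ∀ g ∈ H, ∃ i ∈ s, i⁻¹ * g ∈ H' := by
  classical
  have := ft h
  refine ⟨Finset.univ.image (ro H H'), ?_, ?_, ?_, fun g hg => ?_⟩
  · rw [Finset.card_image_of_injective _ fun a b e => ro_inj (by rw [e]; simp), Finset.card_univ,
      card]
  · simp only [Finset.forall_mem_image]
    exact fun q _ => ro_mem q
  · simp only [Finset.forall_mem_image]
    exact fun q _ q' _ e => by rw [ro_inj e]
  · obtain ⟨q, hq⟩ := ro_surj (H' := H') hg
    exact ⟨_, Finset.mem_image_of_mem _ (Finset.mem_univ q), hq⟩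

theorem nrm_mul (h : H'.relIndex H ≠ 0) (x y : Om) : nrm H H' (x * y) = nrm H H' x * nrm H H' y := by
  have := ft h
  simp only [prod, map_mul, Finset.prod_mul_distrib]

theorem nrm_one : nrm H H' 1 = 1 := by
  simp [def']

theorem nrm_pow (h : H'.relIndex H ≠ 0) (x : Om) (n : ℕ) : nrm H H' (x ^ n) = nrm H H' x ^ n := by
  have := ft h
  simp only [prod, map_pow, Finset.prod_pow]

theorem nrm_inv (x : Om) : nrm H H' x⁻¹ = (nrm H H' x)⁻¹ := by
  simp only [def', map_inv₀, finprod_inv_distrib]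

theorem nrm_div (h : H'.relIndex H ≠ 0) (x y : Om) : nrm H H' (x / y) = nrm H H' x / nrm H H' y := by
  rw [div_eq_mul_inv, nrm_mul h, nrm_inv, div_eq_mul_inv]

theorem nrm_eq_zero (h : H'.relIndex H ≠ 0) : nrm H H' x = 0 ↔ x = 0 := by
  have := ft h
  simp [prod, Finset.prod_eq_zero_iff]

theorem Fix.nrm (h : H'.relIndex H ≠ 0) (hx : Fix H' x) : Fix H (nrm H H' x) := fun σ hσ => by
  rw [def', Nrm.map]
  refine (gen (fun q => σ * ro H H' q) hx (fun q => H.mul_mem hσ (ro_mem q))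
    (fun q q' e => ro_inj (by simpa [mul_assoc] using e)) fun g hg => ?_).symm
  obtain ⟨q, hq⟩ := ro_surj (H' := H') (H.mul_mem (H.inv_mem hσ) hg)
  exact ⟨q, by simpa [mul_assoc] using hq⟩

theorem nrm_of_fix (h : H'.relIndex H ≠ 0) (hx : Fix H x) : nrm H H' x = x ^ H'.relIndex H := by
  have := ft h
  rw [prod, Finset.prod_congr rfl fun q _ => hx _ (ro_mem q), Finset.prod_const, Finset.card_univ,
    card]

theorem nrm_self (hx : Fix H x) : nrm H H x = x := by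
  rw [nrm_of_fix (by simp) hx, Subgroup.relIndex_self, pow_one]

theorem nrm_trans (h1 : H' ≤ H) (h2 : H'' ≤ H') (h : H''.relIndex H ≠ 0) (hx : Fix H'' x) :
    nrm H H' (nrm H' H'' x) = nrm H H'' x := by
  rw [← Subgroup.relIndex_mul_relIndex H'' H' H h2 h1] at h
  have := ft (left_ne_zero_of_mul h)
  have := ft (right_ne_zero_of_mul h)
  rw [gen (H := H) (fun q : (H ⧸ H'.subgroupOf H) × (H' ⧸ H''.subgroupOf H') =>
    ro H H' q.1 * ro H' H'' q.2) hx (fun q => H.mul_mem (ro_mem _) (h1 (ro_mem _))) ?_ ?_,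
    finprod_eq_prod_of_fintype, Fintype.prod_prod_type]
  · simp only [prod, map_prod, AlgEquiv.mul_apply]
  · rintro ⟨a, b⟩ ⟨a', b'⟩ e
    obtain rfl : a = a' := ro_inj (by
      have := H'.mul_mem (H'.mul_mem (ro_mem b) (h2 e)) (H'.inv_mem (ro_mem b'))
      simpa [mul_assoc] using this)
    rw [ro_inj (q := b) (q' := b') (by simpa [mul_assoc] using e)]
  · intro g hg
    obtain ⟨a, ha⟩ := ro_surj (H' := H') hg
    obtain ⟨b, hb⟩ := ro_surj (H' := H'') ha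
    exact ⟨(a, b), by simpa [mul_assoc] using hb⟩

theorem nrm_two (h : H'.relIndex H = 2) (hx : Fix H' x) {σ : GQ} (h1 : σ ∈ H) (h2 : σ ∉ H') :
    nrm H H' x = x * σ x := by
  rw [gen ![1, σ] hx (fun i => by fin_cases i <;> simp [h1]) ?_ ?_, finprod_eq_prod_of_fintype,
    Fin.prod_univ_two]
  · rfl
  · intro i j
    fin_cases i <;> fin_cases j <;> simp [h2]
  · intro g hg
    by_cases k : g ∈ H'
    · exact ⟨0, by simpa using k⟩
    · refine ⟨1, ?_⟩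
      have := (Subgroup.mul_mem_iff_of_index_two h (a := (⟨σ, h1⟩ : H)⁻¹) (b := ⟨g, hg⟩)).2
        (by simp [Subgroup.mem_subgroupOf, h2, k])
      exact this

theorem nrm_cyclic {e : ℕ} (he : H'.relIndex H = e) (h0 : e ≠ 0) (hx : Fix H' x) {σ : GQ} (h1 : σ ∈ H)
    (h2 : ∀ g ∈ H, ∃ i : ℕ, (σ ^ i)⁻¹ * g ∈ H') (h3 : ∀ g ∈ H', σ * g * σ⁻¹ ∈ H') (h4 : H' ≤ H) :
    nrm H H' x = ∏ i ∈ Finset.range e, (σ ^ i) x := by
  have c : ∀ (i : ℕ), ∀ g ∈ H', σ ^ i * g * (σ ^ i)⁻¹ ∈ H' := fun i g hg => by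
    induction i with
    | zero => simpa using hg
    | succ i ih => simpa [pow_succ', mul_assoc] using h3 _ ih
  have : (H'.subgroupOf H).Normal := ⟨fun n hn g => by
    obtain ⟨i, hi⟩ := h2 g g.2
    have := c i _ (H'.mul_mem (H'.mul_mem hi hn) (H'.inv_mem hi))
    simpa [Subgroup.mem_subgroupOf, mul_assoc] using this⟩
  have p : σ ^ e ∈ H' := he ▸ Subgroup.pow_index_mem (G := H) (H := H'.subgroupOf H) ⟨σ, h1⟩
  rw [core (fun i : Fin e => σ ^ (i : ℕ)) hx (fun i => H.pow_mem h1 i) ?_,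
    finprod_eq_prod_of_fintype]
  · exact Fin.prod_univ_eq_prod_range (fun i => (σ ^ i) x) e
  refine Function.Surjective.bijective_of_nat_card_le (fun q => ?_) (by rw [Nat.card_fin, ← he]; rfl)
  obtain ⟨i, hi⟩ := h2 _ (ro_mem q)
  refine ⟨⟨i % e, Nat.mod_lt _ (Nat.pos_of_ne_zero h0)⟩, (mk_eq.2 ?_).trans q.out_eq'⟩
  have := H'.mul_mem (H'.pow_mem p (i / e)) hi
  nth_rw 2 [← Nat.mod_add_div i e] at this
  rw [pow_add, pow_mul, mul_inv_rev, ← mul_assoc, mul_inv_cancel_left] at this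
  exact this

theorem nrm_conj {K K' : Subgroup GQ} (σ : GQ) (h1 : ∀ g, g ∈ K ↔ σ⁻¹ * g * σ ∈ H)
    (h2 : ∀ g, g ∈ K' ↔ σ⁻¹ * g * σ ∈ H') (hx : Fix H' x) : nrm K K' (σ x) = σ (nrm H H' x) := by
  rw [gen (fun q => σ * ro H H' q * σ⁻¹) (fun g hg => ?_)
    (fun q => (h1 _).2 (by simpa [mul_assoc] using ro_mem q))
    (fun q q' e => ro_inj (by simpa [mul_assoc] using (h2 _).1 e)) fun g hg => ?_, def', Nrm.map]
  · simp [AlgEquiv.mul_apply]
  · have := hx _ ((h2 g).1 hg)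
    rw [AlgEquiv.mul_apply, AlgEquiv.mul_apply] at this
    exact (AlgEquiv.symm_apply_eq _).1 this
  · obtain ⟨q, hq⟩ := ro_surj (H' := H') ((h1 g).1 hg)
    exact ⟨q, (h2 _).2 (by simpa [mul_assoc] using hq)⟩

theorem nrm_inf (H H' : Subgroup GQ) (x : Om) : nrm H (H ⊓ H') x = nrm H H' x := 
  congrArg (fun L : Subgroup H => ∏ᶠ q : H ⧸ L, ((q.out : H) : GQ) x)
    (Subgroup.inf_subgroupOf_left H' H)

/-- translation: the norm does not change in a smaller group with the same cosets -/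
theorem nrm_eq_of_surj (h1 : H'' ≤ H) (h : ∀ g ∈ H, ∃ k ∈ H'', k⁻¹ * g ∈ H') (hx : Fix H' x) :
    nrm H'' (H'' ⊓ H') x = nrm H H' x := by
  rw [nrm_inf, def']
  refine (gen _ hx (fun q => h1 (ro_mem q)) (fun _ _ => ro_inj) fun g hg => ?_).symm
  obtain ⟨k, hk, e⟩ := h g hg
  obtain ⟨q, hq⟩ := ro_surj (H' := H') hk
  exact ⟨q, by simpa [mul_assoc] using H'.mul_mem hq e⟩

theorem v_nrm (h : H'.relIndex H ≠ 0) (hD : H ≤ w.D) : w.v (nrm H H' x) = w.v x ^ H'.relIndex H := by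
  have := ft h
  rw [prod, map_prod, Finset.prod_congr rfl fun q _ => Pl.mem_D.1 (hD (ro_mem q)) x,
    Finset.prod_const, Finset.card_univ, card]

theorem v_nrm_sub_one (hD : H ≤ w.D) (h1 : w.v (x - 1) < 1) : w.v (nrm H H' x - 1) ≤ w.v (x - 1) := by
  refine finprod_induction (fun z => w.v (z - 1) ≤ w.v (x - 1)) (by simp) (fun a b ha hb => ?_)
    fun q => ?_
  · rw [show a * b - 1 = (a - 1) * (b - 1) + ((a - 1) + (b - 1)) by ring]
    refine w.v.map_add_le ?_ (w.v.map_add_le ha hb)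
    rw [map_mul]
    exact (mul_le_of_le_one_right' (hb.trans h1.le)).trans ha
  · have := Pl.mem_D.1 (hD (ro_mem (H' := H') q)) (x - 1)
    rw [map_sub, map_one] at this
    exact this.le

end Pool.Agent.P.MP_8b7eba_nt.R2
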