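import Pool.Agent.P.MP_8b7eba_nt.R2.IfA
import Pool.Agent.P.MP_8b7eba_nt.R2.Nrm

/-! Proof of FROB. -/

namespace Pool.Agent.P.MP_8b7eba_nt.R2

open scoped NNReal ComplexConjugate Pointwise

namespace TFROB

theorem fin_pow {k : Type} [CommRing k] [IsDomain k] (p : ℕ) [Fact p.Prime] [CharP k p]
    (R : Subring k) [Finite R] (σ : k →+* k) (h : ∀ x ∈ R, σ x ∈ R) :
    ∃ m : ℕ, ∀ x ∈ R, σ x = x ^ p ^ m := by
  let := (Finite.isField_of_domain R).toField
  let : Algebra (ZMod p) R := ZMod.algebra R p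
  let s : R →ₐ[ZMod p] R :=
    { σ.restrict R R h with
      commutes' := fun c => RingHom.congr_fun (RingHom.ext_zmod
        ((σ.restrict R R h).comp (algebraMap (ZMod p) R)) (algebraMap (ZMod p) R)) c }
  obtain ⟨m, hm⟩ := (FiniteField.bijective_frobeniusAlgHom_pow (ZMod p) R).2 s
  refine ⟨m, fun x hx => ?_⟩
  have h1 := DFunLike.congr_fun hm ⟨x, hx⟩
  simp only [AlgHom.coe_pow, FiniteField.coe_frobeniusAlgHom, pow_iterate, ZMod.card] at h1
  exact (congrArg Subtype.val h1).symm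

theorem rel_eq {G : Type} [Group G] (H K : Subgroup G) :
    H.relIndex K = ((QuotientGroup.mk : G → G ⧸ H) '' K).ncard := by
  have h1 : MulAction.stabilizer K ((1 : G) : G ⧸ H) = H.subgroupOf K := by
    ext g
    rw [MulAction.mem_stabilizer_iff, Subgroup.mem_subgroupOf]
    change (((g : G) * 1 : G) : G ⧸ H) = (1 : G) ↔ _
    rw [eq_comm, QuotientGroup.eq]
    simp
  rw [Subgroup.relIndex, ← h1, MulAction.index_stabilizer]
  congr 1
  ext q
  constructor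
  · rintro ⟨g, rfl⟩
    exact ⟨g, g.2, congrArg QuotientGroup.mk (mul_one (g : G)).symm⟩
  · rintro ⟨g, hg, rfl⟩
    exact ⟨⟨g, hg⟩, congrArg QuotientGroup.mk (mul_one g)⟩

/-- the algebraic integers -/
abbrev B : Type := integralClosure ℤ Om

/-- the prime ideal of a place -/
def pr (hPL : PL) (w : Pl) : Ideal B where
  carrier := {x | w.v x < 1}
  add_mem' := fun ha hb => w.v.map_add_lt ha hb
  zero_mem' := by simp
  smul_mem' := fun c x hx => by
    change w.v ((c : Om) * x) < 1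
    rw [map_mul]
    exact mul_lt_one_of_nonneg_of_lt_one_right (hPL.2.2.2.1 w c c.2) zero_le hx

variable (hPL : PL) (w : Pl)

theorem mem_pr {x : B} : x ∈ pr hPL w ↔ w.v x < 1 := Iff.rfl

instance : (pr hPL w).IsPrime where
  ne_top' := by rw [Ideal.ne_top_iff_one, mem_pr]; simp
  mem_or_mem' := fun {x y} h => by
    by_contra hc
    rw [not_or, mem_pr, mem_pr, not_lt, not_lt] at hc
    change w.v ((x : Om) * y) < 1 at h
    rw [map_mul] at h
    exact (one_le_mul hc.1 hc.2).not_gt h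

theorem mk_eq {x y : B} :
    Ideal.Quotient.mk (pr hPL w) x = Ideal.Quotient.mk _ y ↔ w.v ((x : Om) - y) < 1 :=
  Ideal.Quotient.eq

theorem charP : CharP (B ⧸ pr hPL w) w.p := by
  have : Fact w.p.Prime := ⟨w.prime⟩
  rw [CharP.charP_iff_prime_eq_zero w.prime, ← map_natCast (Ideal.Quotient.mk (pr hPL w)),
    Ideal.Quotient.eq_zero_iff_mem, mem_pr]
  simpa using w.v_p_lt

theorem smul_pr {g : GQ} (hg : g ∈ w.D) : g • pr hPL w = pr hPL w := by
  ext x
  rw [Ideal.mem_pointwise_smul_iff_inv_smul_mem, mem_pr, mem_pr]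
  exact iff_of_eq (congrArg (· < 1) (Pl.mem_D.1 (w.D.inv_mem hg) x))

include hPL in
theorem mem_D {g : GQ} (hg : ∀ x : B, w.v x < 1 → w.v (g x) < 1) : g ∈ w.D := by
  refine mem_of_forall_ON w.closed_D fun N hN => ?_
  obtain ⟨u, hu, e⟩ := hPL.2.2.1 N w (g⁻¹ • w) hN.2 fun x _ hx h1 => hg ⟨x, hx⟩ h1
  refine ⟨(g * u), ?_, ?_⟩
  · change (g * u) • w = w
    rw [mul_smul, e, smul_inv_smul]
  · simpa using hu

include hPL in
theorem frob_of {g : GQ} (hg : g ∈ w.D) (k : ℕ)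
    (h : ∀ y : B, w.v (g y - y ^ w.p ^ k) < 1) : w.IsFrob k g := by
  refine ⟨hg, fun x hx => ?_⟩
  obtain ⟨y, z, hy, hz, z1, e⟩ := hPL.2.2.2.2.2.2 w x hx
  have a1 := h ⟨y, hy⟩; have a2 := h ⟨z, hz⟩
  simp only at a1 a2
  generalize w.p ^ k = q at *
  have e2 : (g x - x ^ q) * (g z * z ^ q) = (g y - y ^ q) * z ^ q - y ^ q * (g z - z ^ q) := by
    rw [← e, map_mul, mul_pow]; ring
  have a3 : w.v ((g x - x ^ q) * (g z * z ^ q)) < 1 := by
    rw [e2]
    refine (w.v.map_sub _ _).trans_lt (max_lt ?_ ?_)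
    · rwa [map_mul, map_pow, z1, one_pow, mul_one]
    · rw [map_mul, map_pow]
      exact mul_lt_one_of_nonneg_of_lt_one_right
        (pow_le_one₀ zero_le (hPL.2.2.2.1 w y hy)) zero_le a2
  rwa [map_mul, map_mul, map_pow, Pl.mem_D.1 hg, z1, one_pow, mul_one, mul_one] at a3

theorem lift {N : Subgroup GQ} (hN : IsOpen (N : Set GQ)) (τ : (B ⧸ pr hPL w) ≃+* (B ⧸ pr hPL w))
    (h : ∀ x : B, Fix N x → τ (Ideal.Quotient.mk _ x) = Ideal.Quotient.mk _ x) :
    ∃ n ∈ N, n ∈ w.D ∧ ∀ x : B, Ideal.Quotient.mk _ (n • x) = τ (Ideal.Quotient.mk _ x) := by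
  let : TopologicalSpace B := ⊥
  have : DiscreteTopology B := ⟨rfl⟩
  have : CompactSpace N := isCompact_iff_compactSpace.1 (closed_of_open hN).isCompact
  have : ContinuousSMul N B := by
    rw [continuousSMul_iff_stabilizer_isOpen]
    intro x
    have h1 := (isOpen_stab (x : Om)).preimage (continuous_subtype_val (p := fun g => g ∈ N))
    refine (congrArg IsOpen ?_).mp h1
    ext g
    exact ⟨fun h => Subtype.ext h, fun h => congrArg Subtype.val h⟩
  let A := FixedPoints.subring B N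
  have : Algebra.IsInvariant A B N := ⟨fun b hb => ⟨⟨b, hb⟩, rfl⟩⟩
  obtain ⟨n, hn⟩ := Ideal.Quotient.stabilizerHom_surjective_of_profinite (G := N)
    ((pr hPL w).under A) (pr hPL w) (AlgEquiv.ofRingEquiv (f := τ) fun x => by
      obtain ⟨x, rfl⟩ := Ideal.Quotient.mk_surjective x
      exact h x fun σ hσ => congrArg Subtype.val (x.2 ⟨σ, hσ⟩))
  have key : ∀ x : B, Ideal.Quotient.mk _ ((n.1 : GQ) • x) = τ (Ideal.Quotient.mk _ x) :=
    fun x => DFunLike.congr_fun hn (Ideal.Quotient.mk _ x)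
  refine ⟨n.1, n.1.2, mem_D hPL w fun x hx => ?_, key⟩
  have h1 := key x
  rw [Ideal.Quotient.eq_zero_iff_mem.2 ((mem_pr hPL w).2 hx), map_zero,
    Ideal.Quotient.eq_zero_iff_mem] at h1
  exact h1

include hPL in
theorem frob0 : ∃ φ, w.IsFrob 1 φ := by
  have : Fact w.p.Prime := ⟨w.prime⟩
  have := charP hPL w
  have hb : Function.Bijective (frobenius (B ⧸ pr hPL w) w.p) := by
    refine ⟨frobenius_inj _ _, fun x => ?_⟩
    obtain ⟨x, rfl⟩ := Ideal.Quotient.mk_surjective x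
    obtain ⟨y, hy⟩ := exists_root (x : Om) w.prime.ne_zero
    refine ⟨Ideal.Quotient.mk _ ⟨y, IsIntegral.of_pow w.prime.pos (hy ▸ x.2)⟩, ?_⟩
    rw [frobenius_def, ← map_pow]
    congr 1
    exact Subtype.ext hy
  obtain ⟨φ, -, h1, h2⟩ := lift hPL w (N := ⊤) isOpen_univ (RingEquiv.ofBijective _ hb) (by
    intro x hx
    obtain ⟨q, hq⟩ := hx.rat
    have h3 : IsIntegral ℤ q := by
      have := x.2
      rw [mem_integralClosure_iff, hq, ← eq_ratCast (algebraMap ℚ Om)] at this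
      exact (isIntegral_algebraMap_iff (algebraMap ℚ Om).injective).1 this
    obtain ⟨m, rfl⟩ := IsIntegrallyClosed.isIntegral_iff.1 h3
    obtain rfl : x = (m : B) := Subtype.ext (by simpa using hq)
    rw [map_intCast, map_intCast])
  refine ⟨φ, frob_of hPL w h1 1 fun y => ?_⟩
  have h3 := h2 y
  rw [RingEquiv.ofBijective_apply, frobenius_def, ← map_pow, mk_eq] at h3
  simpa using h3

include hPL in
theorem dec {φ : GQ} (hφ : w.IsFrob 1 φ) {N : Subgroup GQ} (hN : ON N) {g : GQ} (hg : g ∈ w.D) :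
    ∃ m : ℕ, ∃ i ∈ w.I, ∃ n ∈ N, n ∈ w.D ∧ g = φ ^ m * i * n := by
  have : Fact w.p.Prime := ⟨w.prime⟩
  have := charP hPL w
  have := numberField hN.2
  let F := IntermediateField.fixedField N
  let ι : NumberField.RingOfIntegers F →+* B :=
    ((algebraMap F Om).comp (algebraMap _ F)).codRestrict (integralClosure ℤ Om) fun x =>
      x.isIntegral_coe.map (algebraMap F Om).toIntAlgHom
  let ρ := (Ideal.Quotient.mk (pr hPL w)).comp ι
  have mem : ∀ y, y ∈ ρ.range ↔ ∃ x : B, Fix N x ∧ Ideal.Quotient.mk _ x = y := by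
    intro y
    constructor
    · rintro ⟨x, rfl⟩
      exact ⟨ι x, fix_iff.2 (x : F).2, rfl⟩
    · rintro ⟨x, hx, rfl⟩
      refine ⟨⟨⟨x, fix_iff.1 hx⟩, ?_⟩, rfl⟩
      exact (isIntegral_algHom_iff (algebraMap F Om).toIntAlgHom (algebraMap F Om).injective).1 x.2
  have : Finite ρ.range := by
    have : Module.Finite ℤ ρ.range := Module.Finite.of_surjective
      ρ.rangeRestrict.toAddMonoidHom.toIntLinearMap ρ.rangeRestrict_surjective
    refine Module.finite_of_fg_torsion _ fun x => ⟨⟨w.p, mem_nonZeroDivisors_of_ne_zero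
      (by exact_mod_cast w.prime.ne_zero)⟩, Subtype.ext ?_⟩
    simp [Submonoid.smul_def]
  let act : ∀ g ∈ w.D, (B ⧸ pr hPL w) ≃+* (B ⧸ pr hPL w) := fun g hg =>
    (Ideal.Quotient.stabilizerHom (pr hPL w) ((pr hPL w).under ℤ) GQ
      ⟨g, smul_pr hPL w hg⟩).toRingEquiv
  have ae : ∀ g hg (x : B), act g hg (Ideal.Quotient.mk _ x) = Ideal.Quotient.mk _ (g • x) :=
    fun _ _ _ => rfl
  obtain ⟨m, hm⟩ := fin_pow w.p ρ.range (act g hg).toRingHom (by
    intro y hy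
    obtain ⟨x, hx, rfl⟩ := (mem y).1 hy
    refine (mem _).2 ⟨g • x, fun σ hσ => ?_, rfl⟩
    have h1 := hx _ (hN.1.conj_mem' σ hσ g)
    change σ (g x) = g x
    rw [← BasicP.apply_inv g (σ (g x))]
    exact congrArg g h1)
  have hm1 := hφ.pow m
  rw [one_mul] at hm1
  have hh : (φ ^ m)⁻¹ * g ∈ w.D := w.D.mul_mem (w.D.inv_mem hm1.1) hg
  obtain ⟨n, n1, n2, n3⟩ := lift hPL w hN.2 (act _ hh) (by
    intro x hx
    have h1 := hm _ ((mem _).2 ⟨x, hx, rfl⟩)
    change Ideal.Quotient.mk _ (g • x) = _ at h1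
    rw [← map_pow, mk_eq] at h1
    have h2 := hm1.2 x (hPL.2.2.2.1 w x x.2)
    rw [ae _ hh, mk_eq, ← Pl.mem_D.1 hm1.1, map_sub]
    change w.v ((φ ^ m) ((φ ^ m)⁻¹ (g x)) - _) < 1
    rw [BasicP.apply_inv, ← sub_sub_sub_cancel_right _ _ ((x : Om) ^ w.p ^ m)]
    exact (w.v.map_sub _ _).trans_lt (max_lt h1 h2))
  refine ⟨m, (φ ^ m)⁻¹ * g * n⁻¹, Pl.isFrob_zero.1 (frob_of hPL w
    (w.D.mul_mem hh (w.D.inv_mem n2)) 0 fun y => ?_), n, n1, n2, by group⟩
  have h1 := (n3 (n⁻¹ • y)).symm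
  rw [ae _ hh, smul_inv_smul, smul_smul, mk_eq] at h1
  simpa using h1

/-- the product of a subgroup of the decomposition group with the inertia group -/
def J (H : Subgroup GQ) (hH : H ≤ w.D) : Subgroup GQ where
  carrier := {g | ∃ h ∈ H, ∃ i ∈ w.I, g = h * i}
  one_mem' := ⟨1, H.one_mem, 1, w.I.one_mem, by simp⟩
  mul_mem' := by
    rintro _ _ ⟨h, h1, i, i1, rfl⟩ ⟨h', h1', i', i1', rfl⟩
    exact ⟨h * h', H.mul_mem h1 h1', h'⁻¹ * i * h'⁻¹⁻¹ * i',
      w.I.mul_mem (Pl.conj_mem_I (w.D.inv_mem (hH h1')) i1) i1', by group⟩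
  inv_mem' := by
    rintro _ ⟨h, h1, i, i1, rfl⟩
    exact ⟨h⁻¹, H.inv_mem h1, h * i⁻¹ * h⁻¹, Pl.conj_mem_I (hH h1) (w.I.inv_mem i1), by group⟩

end TFROB

open TFROB in
theorem t_FROB (hPL : PL) (_hGAL : GAL) : FROB := by
  classical
  intro w H hH
  have hD := hH.le
  obtain ⟨U, hU, eH⟩ := hH
  obtain ⟨N₀, hN₀, N0U⟩ := exists_ON_le hU
  obtain ⟨φ₀, hφ₀⟩ := frob0 hPL w
  have HJ : H ≤ J w H hD := fun h hh => ⟨h, hh, 1, w.I.one_mem, by simp⟩
  have IJ : w.I ≤ J w H hD := fun i hi => ⟨1, H.one_mem, i, hi, by simp⟩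
  have JD : J w H hD ≤ w.D := by
    rintro _ ⟨h, h1, i, i1, rfl⟩; exact w.D.mul_mem (hD h1) (w.I_le_D i1)
  have NH : ∀ n ∈ N₀, n ∈ w.D → n ∈ H := fun n a b => eH ▸ ⟨b, N0U a⟩
  have hex : ∃ f, 0 < f ∧ φ₀ ^ f ∈ J w H hD := by
    obtain ⟨m, m0, hm⟩ := hN₀.exists_pow φ₀
    exact ⟨m, m0, HJ (NH _ hm (w.D.pow_mem hφ₀.1 m))⟩
  obtain ⟨f0, φ, hφ, i₀, hi₀, e₀⟩ := Nat.find_spec hex
  set f := Nat.find hex with hf
  have fJ : φ₀ ^ f ∈ J w H hD := ⟨φ, hφ, i₀, hi₀, e₀⟩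
  have small : ∀ r, r < f → φ₀ ^ r ∈ J w H hD → r = 0 := fun r hr h => by
    by_contra h0
    exact Nat.find_min hex hr ⟨by omega, h⟩
  have split : ∀ m, φ₀ ^ m = φ₀ ^ (m % f) * (φ₀ ^ f) ^ (m / f) := fun m => by
    rw [← pow_mul, ← pow_add, Nat.mod_add_div]
  have fr : w.IsFrob f φ := by
    have := (hφ₀.pow f).mul (Pl.isFrob_zero.2 (w.I.inv_mem hi₀))
    rwa [e₀, mul_inv_cancel_right, one_mul, add_zero] at this
  refine ⟨f, φ, f0, hφ, fr, fun e => ?_, ?_, fun N hN g hg => ?_⟩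
  · by_contra h1
    exact one_ne_zero (small 1 (by omega) (HJ (by rw [e, pow_one]; exact hφ₀.1)))
  · have a1 : H.relIndex w.I = H.relIndex (J w H hD) := by
      rw [rel_eq, rel_eq]
      congr 1
      refine Set.Subset.antisymm (Set.image_mono IJ) ?_
      rintro _ ⟨_, ⟨h, h1, i, i1, rfl⟩, rfl⟩
      exact ⟨h * i * h⁻¹, Pl.conj_mem_I (hD h1) i1, QuotientGroup.eq.2
        ((show h = (h * i * h⁻¹)⁻¹ * (h * i) by group) ▸ h1)⟩
    have a2 : (J w H hD).relIndex w.D = f := by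
      have inj : Set.InjOn (fun r : ℕ => ((φ₀ ^ r : GQ) : GQ ⧸ J w H hD)) (Finset.range f) := by
        have key : ∀ r s, r ≤ s → s < f → ((φ₀ ^ r : GQ) : GQ ⧸ J w H hD) = (φ₀ ^ s : GQ) →
            r = s := by
          intro r s hrs hs e
          obtain ⟨t, rfl⟩ := Nat.exists_eq_add_of_le hrs
          have := QuotientGroup.eq.1 e
          rw [pow_add, inv_mul_cancel_left] at this
          have := small t (by omega) this
          omega
        intro r hr s hs e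
        simp only [Finset.coe_range, Set.mem_Iio] at hr hs
        rcases le_total r s with h | h
        · exact key r s h hs e
        · exact (key s r h hr e.symm).symm
      rw [rel_eq, ← Finset.card_range f, ← Set.ncard_coe_finset, ← inj.ncard_image]
      congr 1
      refine Set.Subset.antisymm ?_ ?_
      · rintro _ ⟨g, hg, rfl⟩
        obtain ⟨m, i, hi, n, n1, n2, rfl⟩ := dec hPL w hφ₀ hN₀ hg
        refine ⟨m % f, by simpa using Nat.mod_lt m f0, QuotientGroup.eq.2 ?_⟩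
        rw [split m, mul_assoc, mul_assoc, inv_mul_cancel_left]
        exact mul_mem (pow_mem fJ _) (mul_mem (IJ hi) (HJ (NH n n1 n2)))
      · rintro _ ⟨r, -, rfl⟩
        exact ⟨_, w.D.pow_mem hφ₀.1 r, rfl⟩
    rw [a1, ← a2, mul_comm]
    exact Subgroup.relIndex_mul_relIndex _ _ _ HJ JD
  · obtain ⟨m, i, hi, n, n1, n2, e⟩ := dec hPL w hφ₀ (hN.inf hN₀) (hD hg)
    have nH := NH n n1.2 n2
    have a1 : φ₀ ^ m ∈ J w H hD := by
      rw [show φ₀ ^ m = g * n⁻¹ * i⁻¹ by rw [e]; group]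
      exact mul_mem (mul_mem (HJ hg) (inv_mem (HJ nH))) (inv_mem (IJ hi))
    have a2 : m % f = 0 := small _ (Nat.mod_lt m f0) (by
      rw [split m] at a1
      exact (Subgroup.mul_mem_cancel_right _ (pow_mem fJ _)).1 a1)
    obtain ⟨q, rfl⟩ := Nat.dvd_of_mod_eq_zero a2
    have a3 := hφ₀.pow (f * q)
    rw [one_mul] at a3
    refine ⟨q, (φ ^ q)⁻¹ * φ₀ ^ (f * q) * i, ⟨mul_mem ((fr.pow q).inv_mul a3) hi, ?_⟩, n,
      ⟨n1.1, nH⟩, by rw [e]; group⟩
    rw [show (φ ^ q)⁻¹ * φ₀ ^ (f * q) * i = (φ ^ q)⁻¹ * g * n⁻¹ by rw [e]; group]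
    exact H.mul_mem (H.mul_mem (H.inv_mem (H.pow_mem hφ q)) hg) (H.inv_mem nH)

end Pool.Agent.P.MP_8b7eba_nt.R2
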