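import Pool.Agent.P.MP_8b7eba_nt.R2.IfA
import Pool.Agent.P.MP_8b7eba_nt.R2.Nrm

/-! Proof of GAL. -/

namespace Pool.Agent.P.MP_8b7eba_nt.R2

open scoped NNReal ComplexConjugate

namespace TGAL

variable {H U : Subgroup GQ}

theorem mem (hH : IsClosed (H : Set GQ)) (σ : GQ) (h : ∀ x, Fix H x → σ x = x) : σ ∈ H := by
  have e : (IntermediateField.fixedField H).fixingSubgroup = H :=
    InfiniteGalois.fixingSubgroup_fixedField ⟨H, hH⟩
  rw [← e, IntermediateField.mem_fixingSubgroup_iff]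
  exact fun x hx => h x (fix_iff.2 hx)

theorem h90 (hH : IsClosed (H : Set GQ)) (b : GQ → Om) (hs : Sm H b) (h0 : ∀ g ∈ H, b g ≠ 0)
    (hb : ∀ g ∈ H, ∀ h ∈ H, b (g * h) = b g * g (b h)) :
    ∃ y : Om, y ≠ 0 ∧ ∀ g ∈ H, b g * y = g y := by
  obtain ⟨N, hN, hs⟩ := hs
  have : Fintype (H ⧸ N.subgroupOf H) := Subgroup.fintypeOfIndexNeZero (relIndex_ne_zero hN.2 H)
  let φ : H ⧸ N.subgroupOf H → IntermediateField.fixedField (H ⊓ N) →* Om := fun q =>
    ⟨⟨fun x => (q.out : GQ) x, by simp⟩, by simp⟩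
  have hφ : Function.Injective φ := fun q q' e => by
    rw [← q.out_eq, ← q'.out_eq]
    refine QuotientGroup.eq.2 (mem (H := H ⊓ N) (hH.inter (closed_of_open hN.2)) _ fun x hx => ?_).2
    have e' : (q.out : GQ) x = (q'.out : GQ) x := DFunLike.congr_fun e ⟨x, fix_iff.1 hx⟩
    exact (congrArg (q.out : GQ).symm e'.symm).trans ((q.out : GQ).symm_apply_apply x)
  obtain ⟨c, hc⟩ : ∃ c, ∑ q, b q.out * φ q c ≠ 0 := by
    by_contra! hc
    exact h0 _ (Quotient.out ((1 : H) : H ⧸ N.subgroupOf H)).2 (Fintype.linearIndependent_iff.1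
      ((linearIndependent_monoidHom _ Om).comp φ hφ) (fun q => b q.out)
      (funext fun c => by simpa using hc c) _)
  refine ⟨_, inv_ne_zero hc, fun g hg => ?_⟩
  have key : b g * g (∑ q, b q.out * φ q c) = ∑ q, b q.out * φ q c := by
    rw [map_sum, Finset.mul_sum]
    refine Fintype.sum_equiv (MulAction.toPerm (⟨g, hg⟩ : H)) _ _ fun q => ?_
    obtain ⟨n, e⟩ := QuotientGroup.mk_out_eq_mul (N.subgroupOf H) (⟨g, hg⟩ * q.out)
    have e' : ((MulAction.toPerm (⟨g, hg⟩ : H) q).out : GQ) = g * q.out * n.1 := by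
      rw [MulAction.toPerm_apply, ← MulAction.Quotient.mk_smul_out]
      exact congrArg Subtype.val e
    change b g * g (b q.out * (q.out : GQ) c) = b _ * (Quotient.out _ : H).1 c.1
    rw [e', hs _ (mul_mem hg q.out.2) _ n.1.2 n.2, hb g hg _ q.out.2, map_mul, AlgEquiv.mul_apply,
      AlgEquiv.mul_apply, fix_iff.2 c.2 _ ⟨n.1.2, n.2⟩, mul_assoc]
  rw [map_inv₀, eq_comm, inv_eq_iff_eq_inv, mul_inv, inv_inv, eq_inv_mul_iff_mul_eq₀ (h0 g hg), key]

theorem artin (hU : IsOpen (U : Set GQ)) (ι : Type) [Fintype ι] (x : ι → Om)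
    (hx : ∀ i, Fix (H ⊓ U) (x i)) (h : U.relIndex H < Fintype.card ι) :
    ∃ c : ι → Om, (∀ i, Fix H (c i)) ∧ (∃ i, c i ≠ 0) ∧ ∑ i, c i * x i = 0 := by
  classical
  by_contra hc
  have h1 : LinearIndependent (FixedPoints.subfield H Om) x := by
    rw [Fintype.linearIndependent_iff]
    intro c e i
    by_contra hi
    exact hc ⟨fun i => c i, fun i σ hσ => (c i).2 ⟨σ, hσ⟩, ⟨i, fun h => hi (Subtype.ext h)⟩, e⟩
  have h2 := FixedPoints.linearIndependent_smul_of_linearIndependent H Om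
    (s := Finset.univ.image x) (by simpa using h1.linearIndepOn_id)
  have h3 : LinearIndependent Om fun i (g : H) => (g : GQ) (x i) :=
    h2.comp (fun i => ⟨x i, by simp⟩) fun i j e => h1.injective (congrArg Subtype.val e)
  have : Fintype (H ⧸ U.subgroupOf H) := Subgroup.fintypeOfIndexNeZero (relIndex_ne_zero hU H)
  have h4 : LinearIndependent Om fun i (q : H ⧸ U.subgroupOf H) => (q.out : GQ) (x i) := by
    refine .of_comp (LinearMap.funLeft Om Om QuotientGroup.mk) ?_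
    convert h3 with i g
    obtain ⟨n, e⟩ := QuotientGroup.mk_out_eq_mul (U.subgroupOf H) g
    change ((QuotientGroup.mk g : H ⧸ U.subgroupOf H).out : GQ) (x i) = _
    rw [e, Subgroup.coe_mul, AlgEquiv.mul_apply, hx i _ ⟨n.1.2, n.2⟩]
  have h5 := h4.fintype_card_le_finrank
  rw [Module.finrank_fintype_fun_eq_card, ← Nat.card_eq_fintype_card (α := _ ⧸ _)] at h5
  exact h.not_ge h5

theorem two (hH : IsClosed (H : Set GQ)) (hU : IsOpen (U : Set GQ)) (h : U.relIndex H = 2) :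
    ∃ β : Om, β ≠ 0 ∧ Fix H (β ^ 2) ∧ ∀ g ∈ H, (g ∈ U → g β = β) ∧ (g ∉ U → g β = -β) := by
  classical
  obtain ⟨N, hN, e⟩ := exists_ON_le hU
  obtain ⟨y, h0, hy⟩ := h90 hH (fun g => if g ∈ U then 1 else -1)
    ⟨N, hN, fun g _ n _ m => by simp only [U.mul_mem_cancel_right (e m)]⟩
    (fun g _ => by split_ifs <;> simp) fun g hg k hk => by
      have : g * k ∈ U ↔ (g ∈ U ↔ k ∈ U) :=
        Subgroup.mul_mem_iff_of_index_two (H := U.subgroupOf H) h (a := ⟨g, hg⟩) (b := ⟨k, hk⟩)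
      by_cases a : g ∈ U <;> by_cases b : k ∈ U <;> simp [this, a, b]
  refine ⟨y, h0, fun g hg => ?_, fun g hg => ⟨fun a => ?_, fun a => ?_⟩⟩
  · rw [map_pow, ← hy g hg]
    split_ifs <;> simp
  all_goals simp [← hy g hg, a]

theorem kummer {k : ℕ} {f : GQ → GQ → Om} (hf : Co2 H f) (ht : Triv H (f ^ k)) (hk : k ≠ 0) :
    ∃ f', Co2 H f' ∧ (∀ g ∈ H, ∀ h ∈ H, f' g h ^ k = 1) ∧ Triv H (f / f') := by
  obtain ⟨b, h1, h2, h3⟩ := ht
  choose r hr using fun x => exists_root x hk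
  have n : ∀ g ∈ H, r (b g) ≠ 0 := fun g hg e => h2 g hg (by rw [← hr (b g), e, zero_pow hk])
  have ht : Triv H fun g h => r (b g) * g (r (b h)) / r (b (g * h)) :=
    ⟨fun g => r (b g), h1.comp r, n, fun g hg h hh => div_mul_cancel₀ _ (n _ (mul_mem hg hh))⟩
  refine ⟨_, hf.div ht.co2, fun g hg h hh => ?_,
    ht.congr fun g hg h hh => div_div_cancel₀ (hf.ne g hg h hh)⟩
  simp only [Pi.div_apply, div_pow, mul_pow, ← map_pow, hr, ← h3 g hg h hh, Pi.pow_apply]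
  rw [mul_div_cancel_right₀ _ (h2 _ (mul_mem hg hh)), div_self (pow_ne_zero _ (hf.ne g hg h hh))]

theorem kummer' (hH : IsClosed (H : Set GQ)) {k : ℕ} {f : GQ → GQ → Om} (hk : k ≠ 0)
    (hf : ∀ g ∈ H, ∀ h ∈ H, f g h ^ k = 1) (ht : Triv H f) : ∃ b : GQ → Om, Sm H b ∧
      (∀ g ∈ H, b g ^ k = 1) ∧ ∀ g ∈ H, ∀ h ∈ H, f g h * b (g * h) = b g * g (b h) := by
  obtain ⟨b, h1, h2, h3⟩ := ht
  obtain ⟨y, h0, hy⟩ := h90 hH (fun g => b g ^ k) (h1.comp (· ^ k))
    (fun g hg => pow_ne_zero _ (h2 g hg)) fun g hg h hh => by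
      simp only [map_pow, ← mul_pow, ← h3 g hg h hh]
      rw [mul_pow, hf g hg h hh, one_mul]
  obtain ⟨x, rfl⟩ := exists_root y hk
  refine ⟨fun g => b g * x / g x, h1.comp₂ (sm_apply x) fun s t => s * x / t, fun g hg => ?_,
    fun g hg h hh => ?_⟩
  · rw [div_pow, mul_pow, hy g hg, map_pow, div_self]
    exact map_pow g x k ▸ (map_ne_zero g).2 h0
  · have : g x ≠ 0 := (map_ne_zero g).2 fun e => h0 (by rw [e, zero_pow hk])
    simp only [map_div₀, map_mul, AlgEquiv.mul_apply]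
    rw [← mul_div_assoc, ← mul_assoc, h3 g hg h hh]
    field_simp

end TGAL

theorem t_GAL : GAL := fun _ hH =>
  ⟨TGAL.mem hH, TGAL.h90 hH, fun _ hU ι _ => TGAL.artin hU ι, fun _ => TGAL.two hH,
    fun _ _ hf ht hk => ⟨TGAL.kummer hf ht hk, TGAL.kummer' hH hk⟩⟩

end Pool.Agent.P.MP_8b7eba_nt.R2
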