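import Pool.Agent.P.MP_8b7eba_nt.R2.Defs

/-! Basic facts on open subgroups, cochains and places. -/

namespace Pool.Agent.P.MP_8b7eba_nt.R2

open scoped NNReal

variable {H H' U N N' : Subgroup GQ} {A B C : Type} {x y : Om} {w : Pl}

/-! ### Open normal subgroups -/

theorem Basic.fi (hU : IsOpen (U : Set GQ)) : U.FiniteIndex :=
  have := U.quotient_finite_of_isOpen hU
  Subgroup.finiteIndex_of_finite_quotient

theorem Basic.le (hU : IsOpen (U : Set GQ)) : ∃ N, ON N ∧ N ≤ U :=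
  have := Basic.fi hU
  ⟨U.normalCore, ⟨inferInstance, Subgroup.isOpen_of_isClosed_of_finiteIndex _
    (U.normalCore_isClosed (U.isClosed_of_isOpen hU))⟩, U.normalCore_le⟩

theorem Basic.forall {ι : Type} [Finite ι] {M : ι → Subgroup GQ}
    (h : ∀ i, IsOpen (M i : Set GQ)) : ∃ N, ON N ∧ ∀ i, N ≤ M i := by
  obtain ⟨N, h1, h2⟩ := Basic.le (U := ⨅ i, M i)
    (by rw [Subgroup.coe_iInf]; exact isOpen_iInter_of_finite h)
  exact ⟨N, h1, le_iInf_iff.1 h2⟩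

theorem Basic.fs (hU : IsOpen (U : Set GQ)) :
    (IntermediateField.fixedField U).fixingSubgroup = U :=
  InfiniteGalois.fixingSubgroup_fixedField ⟨U, U.isClosed_of_isOpen hU⟩

theorem ON.top : ON ⊤ := ⟨inferInstance, isOpen_univ⟩

theorem ON.inf (h : ON N) (h' : ON N') : ON (N ⊓ N') :=
  ⟨have := h.1; have := h'.1; inferInstance, h.2.inter h'.2⟩

theorem exists_ON_fix (S : Finset Om) : ∃ N, ON N ∧ ∀ x ∈ S, Fix N x := by
  obtain ⟨N, h1, h2⟩ := Basic.forall (M := fun x : S => MulAction.stabilizer GQ (x : Om))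
    fun x => stabilizer_isOpen_of_isIntegral (K := ℚ) (x : Om)
  exact ⟨N, h1, fun x hx σ hσ => h2 ⟨x, hx⟩ hσ⟩

theorem exists_ON_le (hU : IsOpen (U : Set GQ)) : ∃ N, ON N ∧ N ≤ U := Basic.le hU

theorem exists_ON_forall {ι : Type} [Finite ι] {M : ι → Subgroup GQ} (h : ∀ i, ON (M i)) :
    ∃ N, ON N ∧ ∀ i, N ≤ M i :=
  Basic.forall fun i => (h i).2

theorem relIndex_ne_zero (hU : IsOpen (U : Set GQ)) (H : Subgroup GQ) : U.relIndex H ≠ 0 :=
  have := Basic.fi hU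
  Subgroup.FiniteIndex.index_ne_zero

theorem closed_of_open (hU : IsOpen (U : Set GQ)) : IsClosed (U : Set GQ) := U.isClosed_of_isOpen hU

theorem open_of_le (hN : IsOpen (N : Set GQ)) (h : N ≤ U) : IsOpen (U : Set GQ) :=
  Subgroup.isOpen_mono h hN

theorem isOpen_stab (x : Om) : IsOpen (MulAction.stabilizer GQ x : Set GQ) :=
  stabilizer_isOpen_of_isIntegral (K := ℚ) x

theorem ON.exists_pow (h : ON N) (g : GQ) : ∃ m : ℕ, 0 < m ∧ g ^ m ∈ N := by
  obtain ⟨m, h1, -, h2⟩ := Subgroup.exists_pow_mem_of_index_ne_zero (Basic.fi h.2).index_ne_zero g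
  exact ⟨m, h1, h2⟩

/-- an element that lies in `H N` for all open normal `N` lies in the closed subgroup `H` -/
theorem mem_of_forall_ON (hH : IsClosed (H : Set GQ)) {g : GQ}
    (h : ∀ N, ON N → ∃ x ∈ H, x⁻¹ * g ∈ N) : g ∈ H := by
  by_contra hg
  have h1 : (fun n : GQ => g * n) ⁻¹' (H : Set GQ)ᶜ ∈ nhds (1 : GQ) :=
    (hH.isOpen_compl.preimage (continuous_const.mul continuous_id)).mem_nhds (by simpa using hg)
  obtain ⟨E, hE, h2⟩ := (krullTopology_mem_nhds_one_iff ℚ Om _).1 h1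
  obtain ⟨N, h3, h4⟩ := exists_ON_le E.fixingSubgroup_isOpen
  obtain ⟨x, hx, h5⟩ := h N h3
  exact h2 (h4 (N.inv_mem h5)) (by simpa using hx)

/-- subgroups between `N ⊓ H` and `H` are relatively open -/
theorem eq_inf_sup (hN : N.Normal) (h1 : N ⊓ H ≤ H') (h2 : H' ≤ H) : H' = H ⊓ (H' ⊔ N) := by
  refine le_antisymm (le_inf h2 le_sup_left) fun g hg => ?_
  have h3 : g ∈ ((H' ⊔ N : Subgroup GQ) : Set GQ) := hg.2
  rw [Subgroup.mul_normal] at h3
  obtain ⟨a, ha, n, hn, rfl⟩ := h3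
  exact H'.mul_mem ha (h1 ⟨hn, (H.mul_mem_cancel_left (h2 ha)).1 hg.1⟩)

theorem Ch2.le {P Q : Subgroup GQ} (h : Ch2 P Q) : Q ≤ P := by
  induction h with
  | refl => exact le_rfl
  | step h1 _ _ ih => exact ih.trans h1

/-! ### Fixed elements -/

theorem fix_iff : Fix H x ↔ x ∈ IntermediateField.fixedField H :=
  (IntermediateField.mem_fixedField_iff H x).symm

theorem Fix.mono (h : Fix H x) (h' : H' ≤ H) : Fix H' x := fun σ hσ => h σ (h' hσ)

theorem Fix.add (hx : Fix H x) (hy : Fix H y) : Fix H (x + y) :=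
  fun σ h => by rw [map_add, hx σ h, hy σ h]

theorem Fix.sub (hx : Fix H x) (hy : Fix H y) : Fix H (x - y) :=
  fun σ h => by rw [map_sub, hx σ h, hy σ h]

theorem Fix.neg (hx : Fix H x) : Fix H (-x) := fun σ h => by rw [map_neg, hx σ h]

theorem Fix.mul (hx : Fix H x) (hy : Fix H y) : Fix H (x * y) :=
  fun σ h => by rw [map_mul, hx σ h, hy σ h]

theorem Fix.inv (hx : Fix H x) : Fix H x⁻¹ := fun σ h => by rw [map_inv₀, hx σ h]

theorem Fix.div (hx : Fix H x) (hy : Fix H y) : Fix H (x / y) :=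
  fun σ h => by rw [map_div₀, hx σ h, hy σ h]

theorem Fix.pow (hx : Fix H x) (n : ℕ) : Fix H (x ^ n) := fun σ h => by rw [map_pow, hx σ h]

theorem Fix.zpow (hx : Fix H x) (n : ℤ) : Fix H (x ^ n) := fun σ h => by rw [map_zpow₀, hx σ h]

theorem fix_nat (n : ℕ) : Fix H n := fun σ _ => map_natCast σ n

theorem fix_ofNat (n : ℕ) [n.AtLeastTwo] : Fix H (OfNat.ofNat n) := fun σ _ => map_ofNat σ n

theorem fix_zero : Fix H 0 := fun σ _ => map_zero σ

theorem fix_one : Fix H 1 := fun σ _ => map_one σ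

theorem fix_int (n : ℤ) : Fix H n := fun σ _ => map_intCast σ n

theorem fix_rat (q : ℚ) : Fix H q := fun σ _ => map_ratCast σ q

theorem Fix.sum {ι : Type} {s : Finset ι} {f : ι → Om} (h : ∀ i ∈ s, Fix H (f i)) :
    Fix H (∑ i ∈ s, f i) :=
  fun σ hσ => by rw [map_sum]; exact Finset.sum_congr rfl fun i hi => h i hi σ hσ

theorem Fix.prod {ι : Type} {s : Finset ι} {f : ι → Om} (h : ∀ i ∈ s, Fix H (f i)) :
    Fix H (∏ i ∈ s, f i) :=
  fun σ hσ => by rw [map_prod]; exact Finset.prod_congr rfl fun i hi => h i hi σ hσ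

theorem Fix.rat (h : Fix ⊤ x) : ∃ q : ℚ, x = q := by
  obtain ⟨q, hq⟩ := MP_9c97e9_nt.of_fixed (k := ℚ) fun σ => h σ trivial
  exact ⟨q, by rw [← hq, eq_ratCast]⟩

theorem numberField (hU : IsOpen (U : Set GQ)) : NumberField (IntermediateField.fixedField U) :=
  have : FiniteDimensional ℚ (IntermediateField.fixedField U) :=
    (InfiniteGalois.isOpen_iff_finite _).1 (by rw [Basic.fs hU]; exact hU)
  NumberField.of_module_finite ℚ _

theorem finrank_fixedField (hU : IsOpen (U : Set GQ)) :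
    Module.finrank ℚ (IntermediateField.fixedField U) = U.index := by
  rw [IntermediateField.finrank_eq_fixingSubgroup_index, Basic.fs hU]

theorem exists_root (x : Om) {n : ℕ} (hn : n ≠ 0) : ∃ y : Om, y ^ n = x :=
  IsAlgClosed.exists_pow_nat_eq x (Nat.pos_of_ne_zero hn)

theorem sq_iff {β : Om} (h : Fix H (β ^ 2)) : Sq H (β ^ 2) ↔ Fix H β := by
  refine ⟨fun ⟨x, hx, e⟩ => ?_, fun h => ⟨β, h, rfl⟩⟩
  rcases sq_eq_sq_iff_eq_or_eq_neg.1 e with rfl | rfl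
  exacts [hx, hx.neg]

theorem Sq.mul (hx : Sq H x) (hy : Sq H y) : Sq H (x * y) := by
  obtain ⟨a, ha, rfl⟩ := hx
  obtain ⟨b, hb, rfl⟩ := hy
  exact ⟨a * b, ha.mul hb, by ring⟩

theorem Sq.mono (hx : Sq H x) (h : H' ≤ H) : Sq H' x := by
  obtain ⟨a, ha, e⟩ := hx
  exact ⟨a, ha.mono h, e⟩

theorem Nm.mono {a b : Om} (h : Nm H b a) (h' : H' ≤ H) : Nm H' b a := by
  obtain ⟨x, y, hx, hy, e⟩ := h
  exact ⟨x, y, hx.mono h', hy.mono h', e⟩

theorem Nm.fix {a b : Om} (hb : Fix H b) (h : Nm H b a) : Fix H a := by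
  obtain ⟨x, y, hx, hy, rfl⟩ := h
  exact (hx.pow 2).sub (hb.mul (hy.pow 2))

theorem Nm.mul {a a' b : Om} (hb : Fix H b) (h : Nm H b a) (h' : Nm H b a') : Nm H b (a * a') := by
  obtain ⟨x, y, hx, hy, rfl⟩ := h
  obtain ⟨z, t, hz, ht, rfl⟩ := h'
  exact ⟨x * z + b * y * t, x * t + y * z, (hx.mul hz).add ((hb.mul hy).mul ht),
    (hx.mul ht).add (hy.mul hz), by ring⟩

theorem Nm.inv {a b : Om} (hb : Fix H b) (h : Nm H b a) : Nm H b a⁻¹ := by
  have ha := h.fix hb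
  obtain ⟨x, y, hx, hy, e⟩ := h
  refine ⟨x / a, y / a, hx.div ha, hy.div ha, ?_⟩
  rw [div_pow, div_pow, ← mul_div_assoc, ← sub_div, ← e, sq, div_self_mul_self']

theorem Nm.of_sq {a b : Om} (h : Sq H a) : Nm H b a := by
  obtain ⟨x, hx, e⟩ := h
  exact ⟨x, 0, hx, fix_zero, by rw [e]; ring⟩

theorem Nm.of_sq_left {a b : Om} (hb : b ≠ 0) (h : Sq H b) (ha : Fix H a) : Nm H b a := by
  obtain ⟨c, hc, rfl⟩ := h
  have h0 : c ≠ 0 := fun h => hb (by rw [h]; ring)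
  refine ⟨(a + 1) / 2, (a - 1) / (2 * c), (ha.add fix_one).div (fix_ofNat 2),
    (ha.sub fix_one).div ((fix_ofNat 2).mul hc), ?_⟩
  field_simp
  ring

theorem Nm.symm {a b : Om} (ha : a ≠ 0) (hb : Fix H b) (h : Nm H b a) : Nm H a b := by
  obtain ⟨x, y, hx, hy, e⟩ := h
  by_cases h0 : y = 0
  · exact Nm.of_sq_left ha ⟨x, hx, by rw [e, h0]; ring⟩ hb
  · refine ⟨x / y, y⁻¹, hx.div hy, hy.inv, ?_⟩
    rw [e]
    field_simp
    ring

theorem Nm.congr_left {a b c : Om} (hc : Fix H c) (h0 : c ≠ 0) : Nm H (b * c ^ 2) a ↔ Nm H b a := by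
  refine ⟨fun ⟨x, y, hx, hy, e⟩ => ⟨x, c * y, hx, hc.mul hy, by rw [e]; ring⟩,
    fun ⟨x, y, hx, hy, e⟩ => ⟨x, y / c, hx, hy.div hc, ?_⟩⟩
  rw [e]
  field_simp

theorem nm_neg_self (b : Om) : Nm H b (-b) := ⟨0, 1, fix_zero, fix_one, by ring⟩

theorem mem_NmS {b : Om} (hb : Fix U b) {u : Omˣ} : u ∈ NmS U b ↔ Nm U b u := by
  refine ⟨fun h => ?_, fun h => Subgroup.subset_closure h⟩
  induction h using Subgroup.closure_induction with
  | mem x hx => exact hx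
  | one => exact Nm.of_sq ⟨1, fix_one, by simp⟩
  | mul x y _ _ hx hy => exact Units.val_mul x y ▸ hx.mul hb hy
  | inv x _ hx => exact Units.val_inv_eq_inv_val x ▸ hx.inv hb

end Pool.Agent.P.MP_8b7eba_nt.R2
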