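import Pool.Agent.P.MP_8b7eba_nt.R2.PatA

/-! Patched cocycles. -/

namespace Pool.Agent.P.MP_8b7eba_nt.R2

open scoped NNReal Matrix
open Filter Topology

variable {H H' : ℕ → Subgroup GQ} {G G' : Subgroup GQ}
  {W W' : Type} [NormedAddCommGroup W] [NormedSpace ℚ_[2] W] [NormedAddCommGroup W']
  [NormedSpace ℚ_[2] W'] {r : GQ → W →ₗ[ℚ_[2]] W} {r' : GQ → W' →ₗ[ℚ_[2]] W'}
  {c c' : ℕ → GQ → W} {x y : GS → W}

namespace PatB

omit [NormedSpace ℚ_[2] W] in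
theorem small {f : ℕ → W} (h : Tendsto f UF (𝓝 0)) {ε : ℝ} (hε : 0 < ε) :
    ∀ᶠ k in UF, ‖f k‖ ≤ ε := by
  have := h.norm
  rw [norm_zero] at this
  exact this.eventually (eventually_le_nhds hε)

omit [NormedSpace ℚ_[2] W] in
theorem zero_of {f : ℕ → W} {a : W} (h : Tendsto f UF (𝓝 a))
    (e : ∀ ε : ℝ, 0 < ε → ∀ᶠ k in UF, ‖f k‖ ≤ ε) : a = 0 :=
  norm_le_zero_iff.1 (le_of_forall_pos_le_add fun ε hε => by
    simpa using le_of_tendsto h.norm (e ε hε))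

omit [NormedSpace ℚ_[2] W] in
theorem uc_const (v : W) : Uc G fun _ => v := fun ε hε =>
  ⟨⊤, ON.top, fun _ _ _ _ _ => by simpa using hε.le⟩

omit [NormedSpace ℚ_[2] W] in
theorem ap_const (v : W) : Ap H (fun _ _ => v) fun _ => v :=
  ⟨⟨‖v‖, fun _ _ => le_rfl⟩, fun _ => uc_const v, fun _ _ => tendsto_const_nhds⟩

omit [NormedSpace ℚ_[2] W] in
theorem ap_left {b : ℕ → GQ → GQ → W} {B : GS → GS → W} (h : Ap2 H b B) :
    Ap H (fun k g => b k g 1) fun g => B g 1 := by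
  obtain ⟨C, hC⟩ := h.bd
  refine ⟨⟨C, fun k g => hC k g 1⟩, fun k ε hε => ?_, fun g hg => h.lim g hg 1 (one_mem _)⟩
  obtain ⟨N, hN, e⟩ := h.uc k ε hε
  exact ⟨N, hN, fun g hg n hn hn' => (e g hg 1 (one_mem _) n hn hn').1⟩

theorem st_le (hH : ∀ k, H k ≤ G) : St H ≤ S1 G := St_mono (Eventually.of_forall hH)

theorem t0 [FiniteDimensional ℚ_[2] W] (h : Rep G r) (g : GS) (v : W) :
    Tendsto (fun k => r (g k) v) UF (𝓝 (rS r g v)) :=
  tendsto_ul (Eventually.of_forall fun k => h.le (g k) v)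

theorem bil [FiniteDimensional ℚ_[2] W] [FiniteDimensional ℚ_[2] W']
    (β : W →ₗ[ℚ_[2]] W' →ₗ[ℚ_[2]] ℚ_[2]) : (∃ C : ℝ, 0 ≤ C ∧ ∀ v v', ‖β v v'‖ ≤ C * ‖v‖ * ‖v'‖) ∧
      ∀ {f : ℕ → W} {f' : ℕ → W'} {a : W} {a' : W'}, Tendsto f UF (𝓝 a) → Tendsto f' UF (𝓝 a') →
        Tendsto (fun k => β (f k) (f' k)) UF (𝓝 (β a a')) := by
  let b : W →L[ℚ_[2]] W' →L[ℚ_[2]] ℚ_[2] := LinearMap.toContinuousLinearMap
    ((LinearMap.toContinuousLinearMap : (W' →ₗ[ℚ_[2]] ℚ_[2]) ≃ₗ[ℚ_[2]] _).toLinearMap ∘ₗ β)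
  refine ⟨⟨‖b‖, b.opNorm_nonneg, fun v v' => b.le_opNorm₂ v v'⟩, fun {f f' a a'} hf hf' => ?_⟩
  exact (b.continuous₂.tendsto (a, a')).comp (hf.prodMk_nhds hf')

end PatB

open PatB

/-! ### The action of sequences -/

variable [FiniteDimensional ℚ_[2] W]

theorem Rep.tendsto (h : Rep G r) (g : GS) {v : ℕ → W} {a : W} (hv : Tendsto v UF (𝓝 a)) :
    Tendsto (fun k => r (g k) (v k)) UF (𝓝 (rS r g a)) := by
  have h1 : Tendsto (fun k => r (g k) (v k - a)) UF (𝓝 0) :=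
    squeeze_zero_norm (fun k => h.le _ _) (tendsto_iff_norm_sub_tendsto_zero.1 hv)
  simpa using h1.add (t0 h g a)

theorem Rep.rS_add (h : Rep G r) (g : GS) (v v' : W) : rS r g (v + v') = rS r g v + rS r g v' := by
  exact tendsto_nhds_unique (t0 h g _) (by simpa using (t0 h g v).add (t0 h g v'))

theorem Rep.rS_smul (h : Rep G r) (g : GS) (a : ℚ_[2]) (v : W) : rS r g (a • v) = a • rS r g v := by
  exact tendsto_nhds_unique (t0 h g _) (by simpa using (t0 h g v).const_smul a)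

theorem Rep.rS_sub (h : Rep G r) (g : GS) (v v' : W) : rS r g (v - v') = rS r g v - rS r g v' := by
  exact tendsto_nhds_unique (t0 h g _) (by simpa using (t0 h g v).sub (t0 h g v'))

theorem Rep.rS_neg (h : Rep G r) (g : GS) (v : W) : rS r g (-v) = -rS r g v := by
  exact tendsto_nhds_unique (t0 h g _) (by simpa using (t0 h g v).neg)

omit [FiniteDimensional ℚ_[2] W] in
theorem rS_zero (g : GS) : rS r g 0 = 0 := by
  exact ul_eq (by simp)

omit [FiniteDimensional ℚ_[2] W] in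
theorem rS_cs (g : GQ) (v : W) : rS r (cs g) v = r g v := by
  exact ul_eq tendsto_const_nhds

omit [FiniteDimensional ℚ_[2] W] in
theorem rS_id (g : GS) (v : W) : rS (fun _ => (LinearMap.id : W →ₗ[ℚ_[2]] W)) g v = v := by
  exact ul_eq tendsto_const_nhds

omit [FiniteDimensional ℚ_[2] W] in
theorem rS_congr {s : GQ → W →ₗ[ℚ_[2]] W} {g g' : GS} {v : W}
    (e : ∀ᶠ k in UF, r (g k) v = s (g' k) v) : rS r g v = rS s g' v := by
  exact ul_congr e

theorem Rep.rS_mul (h : Rep G r) {g g' : GS} (hg : g ∈ S1 G) (hg' : g' ∈ S1 G) (v : W) :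
    rS r (g * g') v = rS r g (rS r g' v) := by
  refine ul_eq ((h.tendsto g (t0 h g' v)).congr' ?_)
  filter_upwards [mem_St.1 hg, mem_St.1 hg'] with k h1 h2
  exact (h.mul _ h1 _ h2 v).symm

theorem Rep.rS_one (h : Rep G r) (v : W) : rS r 1 v = v := by
  exact (rS_cs 1 v).trans (h.one v)

theorem Rep.rS_norm (h : Rep G r) {g : GS} (hg : g ∈ S1 G) (v : W) : ‖rS r g v‖ = ‖v‖ := by
  refine tendsto_nhds_unique (t0 h g v).norm (tendsto_const_nhds.congr' ?_)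
  filter_upwards [mem_St.1 hg] with k h1
  exact (h.norm h1 v).symm

theorem Rep.rS_map [FiniteDimensional ℚ_[2] W'] (h : Rep G r) (L : W →ₗ[ℚ_[2]] W') {g g' : GS}
    {v : W} (e : ∀ᶠ k in UF, L (r (g k) v) = r' (g' k) (L v)) :
    L (rS r g v) = rS r' g' (L v) := by
  exact (ul_eq (((L.continuous_of_finiteDimensional.tendsto _).comp (t0 h g v)).congr' e)).symm

theorem Rep.rS_mem (h : Rep G r) (V : Submodule ℚ_[2] W) {g : GS} {v : W}
    (e : ∀ᶠ k in UF, r (g k) v ∈ V) : rS r g v ∈ V := by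
  exact V.closed_of_finiteDimensional.mem_of_tendsto (t0 h g v) e

/-! ### Cocycles -/

theorem PZ.ac (hr : Rep G r) (h : PZ H r x) (hc : Ap H c x) {ε : ℝ} (hε : 0 < ε) :
    ∀ᶠ k in UF, ∀ g ∈ H k, ∀ g' ∈ H k, ‖c k (g * g') - c k g - r g (c k g')‖ ≤ ε := by
  refine ev_forall₂ (p := fun k g g' => ‖c k (g * g') - c k g - r g (c k g')‖ ≤ ε)
    fun g hg g' hg' => small ?_ hε
  have := ((hc.lim _ (mul_mem hg hg')).sub (hc.lim g hg)).sub (hr.tendsto g (hc.lim g' hg'))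
  rwa [h.2 g hg g' hg', add_sub_cancel_left, sub_self] at this

theorem pz_of_ac (hr : Rep G r) (hc : Ap H c x) (h : ∀ ε : ℝ, 0 < ε → ∀ᶠ k in UF, ∀ g ∈ H k,
    ∀ g' ∈ H k, ‖c k (g * g') - c k g - r g (c k g')‖ ≤ ε) : PZ H r x := by
  refine ⟨⟨c, hc⟩, fun g hg g' hg' => ?_⟩
  have := zero_of (((hc.lim _ (mul_mem hg hg')).sub (hc.lim g hg)).sub
    (hr.tendsto g (hc.lim g' hg'))) fun ε hε => by
      filter_upwards [h ε hε, mem_St.1 hg, mem_St.1 hg'] with k e h1 h2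
      exact e _ h1 _ h2
  rwa [sub_sub, sub_eq_zero] at this

theorem pz_const (hr : Rep G r) {a : GQ → W} (hu : Uc G a)
    (hc : ∀ g ∈ G, ∀ g' ∈ G, a (g * g') = a g + r g (a g')) :
    PZ (fun _ => G) r (fun g => ul fun k => a (g k)) ∧
      ∀ g ∈ S1 G, Tendsto (fun k => a (g k)) UF (𝓝 (ul fun k => a (g k))) := by
  classical
  obtain ⟨B, hB⟩ := hu.bdd
  have ht : ∀ g ∈ S1 G, Tendsto (fun k => a (g k)) UF (𝓝 (ul fun k => a (g k))) := fun g hg =>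
    tendsto_ul ((mem_St.1 hg).mono fun k h => hB _ h)
  refine ⟨⟨⟨fun _ g => if g ∈ G then a g else 0, ⟨max B 0, fun _ g => ?_⟩,
    fun _ => hu.congr fun g hg => if_pos hg, fun g hg => (ht g hg).congr' ?_⟩,
    fun g hg g' hg' => ul_eq (((ht g hg).add (hr.tendsto g (ht g' hg'))).congr' ?_)⟩, ht⟩
  · split_ifs with h
    · exact (hB g h).trans (le_max_left _ _)
    · simp
  · filter_upwards [mem_St.1 hg] with k h
    exact (if_pos h).symm
  · filter_upwards [mem_St.1 hg, mem_St.1 hg'] with k h1 h2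
    exact (hc _ h1 _ h2).symm

omit [FiniteDimensional ℚ_[2] W] in
theorem PZ.mono (h : PZ H r x) (h' : ∀ k, H' k ≤ H k) : PZ H' r x := by
  obtain ⟨⟨c, hc⟩, e⟩ := h
  have m := St_mono (Eventually.of_forall h')
  exact ⟨⟨c, hc.mono h'⟩, fun g hg g' hg' => e g (m hg) g' (m hg')⟩

omit [FiniteDimensional ℚ_[2] W] in
theorem PZ.congr (h : PZ H r x) (e : ∀ g ∈ St H, y g = x g) : PZ H r y := by
  obtain ⟨⟨c, hc⟩, e'⟩ := h
  refine ⟨⟨c, hc.congr e⟩, fun g hg g' hg' => ?_⟩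
  rw [e _ (mul_mem hg hg'), e g hg, e g' hg', e' g hg g' hg']

omit [FiniteDimensional ℚ_[2] W] in
theorem PZ.congr_rep {s : GQ → W →ₗ[ℚ_[2]] W} (h : PZ H r x)
    (e : ∀ g ∈ St H, ∀ g' ∈ St H, rS s g (x g') = rS r g (x g')) : PZ H s x := by
  exact ⟨h.1, fun g hg g' hg' => by rw [e g hg g' hg', h.2 g hg g' hg']⟩

omit [FiniteDimensional ℚ_[2] W] in
theorem PZ.germ (h : PZ H r x) {g g' : GS} (hg : g ∈ St H) (e : ∀ᶠ k in UF, g' k = g k) :
    x g' = x g := by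
  obtain ⟨c, hc⟩ := h.1
  exact hc.germ hg e

omit [FiniteDimensional ℚ_[2] W] in
theorem pz_zero : PZ H r 0 := by
  exact ⟨⟨_, ap_const 0⟩, fun g _ g' _ => by simp [rS_zero]⟩

theorem PZ.add (hr : Rep G r) (h : PZ H r x) (h' : PZ H r y) : PZ H r (x + y) := by
  obtain ⟨⟨c, hc⟩, e⟩ := h
  obtain ⟨⟨c', hc'⟩, e'⟩ := h'
  refine ⟨⟨_, hc.add hc'⟩, fun g hg g' hg' => ?_⟩
  simp only [Pi.add_apply, e g hg g' hg', e' g hg g' hg', hr.rS_add]
  abel

theorem PZ.smul (hr : Rep G r) (h : PZ H r x) (a : ℚ_[2]) : PZ H r (a • x) := by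
  obtain ⟨⟨c, hc⟩, e⟩ := h
  refine ⟨⟨_, hc.map (a • LinearMap.id)⟩, fun g hg g' hg' => ?_⟩
  simp only [Pi.smul_apply, e g hg g' hg', hr.rS_smul, smul_add]

theorem PZ.sub (hr : Rep G r) (h : PZ H r x) (h' : PZ H r y) : PZ H r (x - y) := by
  exact (h.add hr (h'.smul hr (-1))).congr fun g _ => by simp [sub_eq_add_neg]

theorem pz_cob (hr : Rep G r) (hH : ∀ k, H k ≤ G) (v : W) : PZ H r fun g => rS r g v - v := by
  refine ⟨⟨fun _ g => r g v - v, ⟨‖v‖ + ‖v‖, fun _ g => ?_⟩, fun k => ?_,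
    fun g _ => (t0 hr g v).sub_const v⟩, fun g hg g' hg' => ?_⟩
  · exact (norm_sub_le _ _).trans (add_le_add (hr.le g v) le_rfl)
  · exact (((hr.mono (hH k)).uc (uc_const v)).add (uc_const (-v))).congr fun g _ => by
      simp [sub_eq_add_neg]
  · simp only [hr.rS_mul (st_le hH hg) (st_le hH hg'), hr.rS_sub]
    abel

theorem PZ.map (h : PZ H r x) (L : W →ₗ[ℚ_[2]] W')
    (e : ∀ g ∈ St H, ∀ g' ∈ St H, L (rS r g (x g')) = rS r' g (L (x g'))) :
    PZ H r' fun g => L (x g) := by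
  obtain ⟨⟨c, hc⟩, e'⟩ := h
  exact ⟨⟨_, hc.map L⟩, fun g hg g' hg' => by simp only [e' g hg g' hg', map_add, e g hg g' hg']⟩

theorem PZ.one (hr : Rep G r) (h : PZ H r x) : x 1 = 0 := by
  have := h.2 1 (one_mem _) 1 (one_mem _)
  rw [mul_one, hr.rS_one] at this
  simpa using this

theorem PZ.inv (hr : Rep G r) (hH : ∀ k, H k ≤ G) (h : PZ H r x) {g : GS} (hg : g ∈ St H) :
    x g⁻¹ = -rS r g⁻¹ (x g) := by
  have := h.2 g⁻¹ (inv_mem hg) g hg
  rw [inv_mul_cancel, h.one hr] at this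
  exact eq_neg_of_add_eq_zero_left this.symm

theorem PZ.conj (hr : Rep G r) (hH : ∀ k, H k ≤ G) (h : PZ H r x) {g g' : GS} (hg : g ∈ St H)
    (hg' : g' ∈ St H) : x (g * g' * g⁻¹) = x g + rS r g (x g') - rS r (g * g' * g⁻¹) (x g) := by
  rw [h.2 _ (mul_mem hg hg') _ (inv_mem hg), h.2 g hg g' hg', h.inv hr hH hg, hr.rS_neg,
    hr.rS_mul (st_le hH (mul_mem hg hg')) (st_le hH (inv_mem hg)), sub_eq_add_neg]

theorem PZ.comm (hr : Rep G r) (hH : ∀ k, H k ≤ G) (h : PZ H r x) {g z : GS} (hg : g ∈ St H)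
    (hz : z ∈ St H) (h0 : x z = 0) :
    x (g * z * g⁻¹ * z⁻¹) = x g - rS r (g * z * g⁻¹) (x g) := by
  rw [h.2 _ (mul_mem (mul_mem hg hz) (inv_mem hg)) _ (inv_mem hz), h.conj hr hH hg hz,
    h.inv hr hH hz, h0]
  simp only [rS_zero, neg_zero, add_zero]

/-- powers with varying exponents of a sequence which acts trivially -/
theorem PZ.pow [IsUltrametricDist W] (hr : Rep G r) (hH : ∀ k, H k ≤ G) (h : PZ H r x) {g : GS}
    (hg : g ∈ St H) (h1 : ∀ v, rS r g v = v) (m : ℕ → ℕ) :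
    x (fun k => g k ^ m k) = (ul fun k => (m k : ℚ_[2])) • x g := by
  obtain ⟨c, hc⟩ := h.1
  obtain ⟨B, hB⟩ := hc.bd
  have hm : (fun k => g k ^ m k) ∈ St H := (mem_St.1 hg).mono fun k e => pow_mem e _
  have hu : Tendsto (fun k => (m k : ℚ_[2])) UF (𝓝 (ul fun k => (m k : ℚ_[2]))) :=
    tendsto_ul (B := 1) (Eventually.of_forall fun k => IsUltrametricDist.norm_natCast_le_one _ _)
  refine sub_eq_zero.1 (zero_of ((hc.lim _ hm).sub (hu.smul (hc.lim g hg))) fun ε hε => ?_)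
  have h2 : ∀ᶠ k in UF, ∀ v : W, ‖v‖ ≤ B → ‖r (g k) v - v‖ ≤ ε := by
    refine ev_choice (p := fun k v => ‖v‖ ≤ B → ‖r (g k) v - v‖ ≤ ε) fun f => ?_
    by_cases hf : ∀ᶠ k in UF, ‖f k‖ ≤ B
    · have := (hr.tendsto g (tendsto_ul hf)).sub (tendsto_ul hf)
      rw [h1, sub_self] at this
      exact (small this hε).mono fun k e _ => e
    · exact (ev_not.1 hf).mono fun k e e' => absurd e' e
  filter_upwards [h.ac hr hc hε, h2, mem_St.1 hg] with k e1 e2 e3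
  generalize m k = n
  induction n with
  | zero => simpa [hr.one] using e1 1 (one_mem _) 1 (one_mem _)
  | succ n ih =>
    have : c k (g k ^ (n + 1)) - ((n + 1 : ℕ) : ℚ_[2]) • c k (g k) =
        (c k (g k * g k ^ n) - c k (g k) - r (g k) (c k (g k ^ n))) +
          ((r (g k) (c k (g k ^ n)) - c k (g k ^ n)) + (c k (g k ^ n) - (n : ℚ_[2]) • c k (g k))) := by
      rw [pow_succ', Nat.cast_succ, add_smul, one_smul]
      abel
    rw [this]
    exact (IsUltrametricDist.norm_add_le_max _ _).trans (max_le (e1 _ e3 _ (pow_mem e3 n))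
      ((IsUltrametricDist.norm_add_le_max _ _).trans (max_le (e2 _ (hB _ _)) ih)))

theorem Cob.add {S : Subgroup GS} (hr : Rep G r) (h : Cob S r x) (h' : Cob S r y) :
    Cob S r (x + y) := by
  obtain ⟨v, hv⟩ := h
  obtain ⟨v', hv'⟩ := h'
  refine ⟨v + v', fun g hg => ?_⟩
  rw [Pi.add_apply, hv g hg, hv' g hg, hr.rS_add]
  abel

theorem Cob.smul {S : Subgroup GS} (hr : Rep G r) (h : Cob S r x) (a : ℚ_[2]) : Cob S r (a • x) := by
  obtain ⟨v, hv⟩ := h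
  exact ⟨a • v, fun g hg => by rw [Pi.smul_apply, hv g hg, hr.rS_smul, smul_sub]⟩

theorem Cob.near (hr : Rep G r) (hc : Ap H c x) (h' : ∀ᶠ k in UF, H' k ≤ H k) {v : W}
    (h : ∀ g ∈ St H', x g = rS r g v - v) {ε : ℝ} (hε : 0 < ε) :
    ∀ᶠ k in UF, ∀ g ∈ H' k, ‖c k g - (r g v - v)‖ ≤ ε := by
  refine ev_forall (p := fun k g => ‖c k g - (r g v - v)‖ ≤ ε) fun g hg => small ?_ hε
  have := (hc.lim g (St_mono h' hg)).sub ((t0 hr g v).sub_const v)
  rwa [h g hg, sub_self] at this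

/-! ### Cup products -/

variable [FiniteDimensional ℚ_[2] W'] {β : W →ₗ[ℚ_[2]] W' →ₗ[ℚ_[2]] ℚ_[2]} {z : GS → W'}

theorem cup_equiv (hr : Rep G r) (hr' : Rep G r')
    (hβ : ∀ g ∈ G, ∀ v v', β (r g v) (r' g v') = cq g * β v v') {g : GS} (hg : g ∈ S1 G) (v : W)
    (v' : W') : β (rS r g v) (rS r' g v') = cS g * β v v' := by
  refine tendsto_nhds_unique ((bil β).2 (t0 hr g v) (t0 hr' g v'))
    (((tendsto_cS g).mul_const _).congr' ?_)
  filter_upwards [mem_St.1 hg] with k h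
  exact (hβ _ h v v').symm

theorem ap2_cup (hr' : Rep G r') (hH : ∀ k, H k ≤ G) {d : ℕ → GQ → W'} (hc : Ap H c x)
    (hd : Ap H d z) : Ap2 H (fun k g g' => β (c k g) (r' g (d k g'))) (cupS β r' x z) := by
  obtain ⟨C, hC, hb⟩ := (bil β).1
  obtain ⟨B, hB⟩ := hc.bd
  obtain ⟨B', hB'⟩ := hd.bd
  have B0 : 0 ≤ B := (norm_nonneg _).trans (hB 0 1)
  have B1 : 0 ≤ B' := (norm_nonneg _).trans (hB' 0 1)
  have key : ∀ {v : W} {v' : W'} {s t : ℝ}, ‖v‖ ≤ s → ‖v'‖ ≤ t → ‖β v v'‖ ≤ C * s * t :=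
    fun {v v' s t} h1 h2 => (hb v v').trans (by
      have := (norm_nonneg _).trans h1
      gcongr)
  refine ⟨⟨C * B * B', fun k g g' => key (hB k g) ((hr'.le _ _).trans (hB' k g'))⟩,
    fun k ε hε => ?_, fun g hg g' hg' => (bil β).2 (hc.lim g hg) (hr'.tendsto g (hd.lim g' hg'))⟩
  obtain ⟨δ, hδ, hK⟩ : ∃ δ : ℝ, 0 < δ ∧ δ * (C * B' + C * B * B' + C * B) ≤ ε := by
    have h0 : 0 ≤ C * B' + C * B * B' + C * B := by positivity
    refine ⟨ε / (C * B' + C * B * B' + C * B + 1), by positivity, ?_⟩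
    rw [div_mul_eq_mul_div, div_le_iff₀ (by positivity)]
    exact mul_le_mul_of_nonneg_left (le_add_of_nonneg_right zero_le_one) hε.le
  obtain ⟨N1, o1, e1⟩ := hc.uc k δ hδ
  obtain ⟨N2, o2, e2⟩ := hd.uc k δ hδ
  obtain ⟨N3, o3, e3⟩ := hr'.sm δ hδ
  have p1 : 0 ≤ δ * (C * B') := by positivity
  have p2 : 0 ≤ δ * (C * B * B') := by positivity
  have p3 : 0 ≤ δ * (C * B) := by positivity
  refine ⟨N1 ⊓ (N2 ⊓ N3), o1.inf (o2.inf o3), fun g hg g' hg' n hn hN => ⟨?_, ?_⟩⟩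
  · have : β (c k (g * n)) (r' (g * n) (d k g')) - β (c k g) (r' g (d k g')) =
        β (c k (g * n) - c k g) (r' (g * n) (d k g')) + β (c k g) (r' g (r' n (d k g') - d k g')) := by
      simp only [hr'.mul g (hH k hg) n (hH k hn), map_sub, LinearMap.sub_apply]
      abel
    rw [this]
    have q1 := key (e1 g hg n hn hN.1) ((hr'.le (g * n) _).trans (hB' k g'))
    have q2 := key (hB k g) ((hr'.le g _).trans ((e3 n (hH k hn) hN.2.2 (d k g')).trans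
      (mul_le_mul_of_nonneg_left (hB' k g') hδ.le)))
    refine (norm_add_le _ _).trans ?_
    linarith
  · rw [← map_sub, ← map_sub]
    have q := key (hB k g) ((hr'.le g _).trans (e2 g' hg' n hn hN.2.1))
    linarith

theorem pz2_cup (hr : Rep G r) (hr' : Rep G r') (hH : ∀ k, H k ≤ G)
    (hβ : ∀ g ∈ G, ∀ v v', β (r g v) (r' g v') = cq g * β v v') (hx : PZ H r x) (hz : PZ H r' z) :
    PZ2 H (cupS β r' x z) := by
  obtain ⟨c, hc⟩ := hx.1
  obtain ⟨d, hd⟩ := hz.1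
  refine ⟨⟨_, ap2_cup hr' hH hc hd⟩, fun g hg h hh l hl => ?_⟩
  simp only [cupS, hx.2 g hg h hh, hz.2 h hh l hl, hr'.rS_mul (st_le hH hg) (st_le hH hh),
    hr'.rS_add, map_add, LinearMap.add_apply, cup_equiv hr hr' hβ (st_le hH hg)]
  ring

theorem cob2_cup_left (hr : Rep G r) (hr' : Rep G r') (hH : ∀ k, H k ≤ G)
    (hβ : ∀ g ∈ G, ∀ v v', β (r g v) (r' g v') = cq g * β v v') (hx : Cob (St H) r x)
    (hz : PZ H r' z) : Cob2 H (cupS β r' x z) := by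
  obtain ⟨v, hv⟩ := hx
  obtain ⟨d, hd⟩ := hz.1
  refine ⟨fun g => β v (z g), ⟨_, hd.map (β v)⟩, fun g hg h hh => ?_⟩
  simp only [cupS, hv g hg, hz.2 g hg h hh, map_add, map_sub, LinearMap.sub_apply,
    cup_equiv hr hr' hβ (st_le hH hg)]
  ring

theorem cob2_cup_right (hr : Rep G r) (hr' : Rep G r') (hH : ∀ k, H k ≤ G)
    (hβ : ∀ g ∈ G, ∀ v v', β (r g v) (r' g v') = cq g * β v v') (hx : PZ H r x)
    (hz : Cob (St H) r' z) : Cob2 H (cupS β r' x z) := by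
  obtain ⟨v, hv⟩ := hz
  obtain ⟨c, hc⟩ := hx.1
  refine ⟨fun g => -β (x g) (rS r' g v),
    ⟨_, (ap_left (ap2_cup (β := β) hr' hH hc (ap_const v))).map (-LinearMap.id)⟩,
    fun g hg h hh => ?_⟩
  simp only [cupS, hv h hh, hx.2 g hg h hh, hr'.rS_mul (st_le hH hg) (st_le hH hh), hr'.rS_sub,
    map_add, map_sub, LinearMap.add_apply, cup_equiv hr hr' hβ (st_le hH hg)]
  ring

/-- changing both factors by coboundaries changes the cup product by a coboundary -/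
theorem cob2_cup_sub (hr : Rep G r) (hr' : Rep G r') (hH : ∀ k, H k ≤ G)
    (hβ : ∀ g ∈ G, ∀ v v', β (r g v) (r' g v') = cq g * β v v') {z' : GS → W'} (hx : PZ H r x)
    (hz : PZ H r' z) (h : Cob (St H) r (x - y)) (h' : Cob (St H) r' (z - z')) :
    PZ H r y ∧ PZ H r' z' ∧ Cob2 H (cupS β r' x z - cupS β r' y z') := by
  have hy : PZ H r y := by
    obtain ⟨v, hv⟩ := h
    exact (hx.sub hr (pz_cob hr hH v)).congr fun g hg => by simp [← hv g hg]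
  have hz' : PZ H r' z' := by
    obtain ⟨v, hv⟩ := h'
    exact (hz.sub hr' (pz_cob hr' hH v)).congr fun g hg => by simp [← hv g hg]
  refine ⟨hy, hz', ((cob2_cup_left hr hr' hH hβ h hz).add
    (cob2_cup_right hr hr' hH hβ hy h')).congr fun g _ g' _ => ?_⟩
  simp only [cupS, Pi.sub_apply, Pi.add_apply, hr'.rS_sub, map_sub, LinearMap.sub_apply]
  ring

end Pool.Agent.P.MP_8b7eba_nt.R2
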