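import Pool.Agent.P.MP_8b7eba_nt.R2.GrpA
import Pool.Agent.P.MP_8b7eba_nt.R2.PatB

/-! The representations. -/

namespace Pool.Agent.P.MP_8b7eba_nt.R2

open scoped NNReal Matrix
open Filter Topology

/-! ### Representations -/

theorem Tate.rd_mul {w : Pl} (T : Tate w) {δ : Om} (hδ : Fix ⊤ (δ ^ 2)) (g h : GQ) :
    T.rd δ (g * h) = T.rd δ g * T.rd δ h := by
  rw [Tate.rd, Tate.rd, Tate.rd, sd_mul hδ, map_mul, Int.cast_mul, smul_mul_smul_comm]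

theorem SelA.two : ‖(2 : ℚ_[2])‖ = 2⁻¹ := by simpa using Padic.norm_p (p := 2)

theorem SelA.add {E : Type} [NormedAddCommGroup E] [IsUltrametricDist E] {a b : E} {ε : ℝ}
    (ha : ‖a‖ ≤ ε) (hb : ‖b‖ ≤ ε) : ‖a + b‖ ≤ ε :=
  (IsUltrametricDist.norm_add_le_max a b).trans (max_le ha hb)

theorem SelA.rd_le {w : Pl} (T : Tate w) (δ : Om) (g : GQ) (i j : Fin 2) : ‖T.rd δ g i j‖ ≤ 1 := by
  rcases sd_cases δ g with h | h <;> simpa [Tate.rd, h] using T.int g i j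

theorem SelA.rd_fix {w : Pl} (T : Tate w) {δ : Om} {g : GQ} (h : g δ = δ) : T.rd δ g = T.rho g := by
  simp [Tate.rd, sd_eq_one.2 h]

theorem SelA.rd_up {w : Pl} (T : Tate w) (δ : Om) {g : GQ} (h : g ∈ w.D) : T.rd δ g 1 0 = 0 := by
  simp [Tate.rd, T.up g h]

theorem SelA.sq {B : Mt} {ε : ℝ} (hε : ε ≤ 2⁻¹) (h : ∀ i j, ‖(B - 1) i j‖ ≤ ε) (i j : Fin 2) :
    ‖(B ^ 2 - 1 : Mt) i j‖ ≤ 2⁻¹ * ε := by
  have h0 : 0 ≤ ε := (norm_nonneg _).trans (h 0 0)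
  have h1 : ∀ i j k, ‖(B - 1) i j * (B - 1) j k‖ ≤ 2⁻¹ * ε := fun i j k => by
    rw [norm_mul]
    exact mul_le_mul ((h _ _).trans hε) (h _ _) (norm_nonneg _) (by norm_num)
  rw [show B ^ 2 - 1 = (2 : ℚ_[2]) • (B - 1) + (B - 1) * (B - 1) by
    rw [two_smul]; noncomm_ring, Matrix.add_apply, Matrix.mul_apply, Fin.sum_univ_two]
  refine SelA.add ?_ (SelA.add (h1 _ _ _) (h1 _ _ _))
  rw [Matrix.smul_apply, norm_smul, SelA.two]
  exact mul_le_mul_of_nonneg_left (h i j) (by norm_num)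

theorem SelA.pow {B : Mt} (h : ∀ i j, ‖(B - 1) i j‖ ≤ 2⁻¹) (k : ℕ) :
    ∀ i j, ‖(B ^ 2 ^ k - 1 : Mt) i j‖ ≤ 2⁻¹ ^ (k + 1) := by
  induction k with
  | zero => simpa using h
  | succ k ih =>
    rw [pow_succ 2 k, pow_mul, pow_succ' _ (k + 1)]
    refine SelA.sq ?_ ih
    rw [pow_succ]
    exact mul_le_of_le_one_left (by norm_num) (pow_le_one₀ (by norm_num) (by norm_num))

theorem SelA.rd_sm {w : Pl} (T : Tate w) (δ : Om) {ε : ℝ} (hε : 0 < ε) :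
    ∃ N, ON N ∧ ∀ g ∈ N, ∀ i j, ‖(T.rd δ g - 1) i j‖ ≤ ε := by
  obtain ⟨N, h1, h2⟩ := T.sm ε hε
  obtain ⟨N', h3, h4⟩ := exists_ON_fix {δ}
  exact ⟨_, h1.inf h3, fun g hg => SelA.rd_fix T (h4 δ (by simp) g hg.2) ▸ h2 g hg.1⟩

theorem SelA.rd_pow {w : Pl} (T : Tate w) {δ : Om} (hδ : Fix ⊤ (δ ^ 2)) (g : GQ) {ε : ℝ}
    (hε : 0 < ε) : ∀ᶠ k in atTop, ∀ i j, ‖(T.rd δ (g ^ 2 ^ k) - 1) i j‖ ≤ ε := by
  obtain ⟨m, hm⟩ := exists_pow_lt_of_lt_one hε (show (2⁻¹ : ℝ) < 1 by norm_num)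
  filter_upwards [eventually_ge_atTop (m + 1)] with k hk i j
  obtain ⟨k, rfl⟩ := Nat.exists_eq_add_one.2 (show 0 < k by omega)
  rw [SelA.rd_fix T (sd_eq_one.1 (by rw [pow_succ, pow_mul, pow_two, sd_mul hδ, sd_sq])), map_pow]
  exact (SelA.pow (T.two g) _ i j).trans
    ((pow_le_pow_of_le_one (by norm_num) (by norm_num) (by omega)).trans hm.le)

theorem Tate.rq_apply {w : Pl} (T : Tate w) (δ : Om) (g : GQ) (v : V2) :
    T.rq δ g v = T.rd δ g *ᵥ v := rfl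

theorem Tate.det_ne {w : Pl} (T : Tate w) {δ : Om} {φ : GQ} (h1 : φ δ ≠ δ)
    (h2 : 4 ∣ (cyc φ : ℤ_[2]) - 1) : (T.rd δ φ - 1).det ≠ 0 ∧
      (∀ i j, ‖(T.rd δ φ - 1)⁻¹ i j‖ ≤ 2) ∧ ∀ i, T.rd δ φ i i ≠ 1 := by
  have e : T.rd δ φ = -T.rho φ := by simp [Tate.rd, sd_eq_neg.2 h1]
  have h3 : ‖cq φ - 1‖ ≤ 4⁻¹ := by
    obtain ⟨c, hc⟩ := h2
    have : cq φ - 1 = 2 * 2 * (c : ℚ_[2]) := by
      have := congrArg (fun x : ℤ_[2] => (x : ℚ_[2])) hc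
      push_cast at this
      rw [cq, this, show (4 : ℤ_[2]) = (4 : ℕ) by simp, PadicInt.coe_natCast]; norm_num
    rw [this, norm_mul, norm_mul, SelA.two]
    have := c.2
    linarith
  have h4 : ∀ i, ‖T.rho φ i i - 1‖ ≤ 4⁻¹ := Fin.forall_fin_two.2
    ⟨by simpa using SelA.add (T.four φ 0 0) h3, by simpa using T.four φ 1 1⟩
  have h5 : ∀ i, ‖(T.rd δ φ - 1) i i‖ = 2⁻¹ := fun i => by
    rw [e, Matrix.sub_apply, Matrix.one_apply_eq, Matrix.neg_apply, ← norm_neg,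
      show -(-T.rho φ i i - 1) = 2 + (T.rho φ i i - 1) by ring,
      IsUltrametricDist.norm_add_eq_max_of_norm_ne_norm, SelA.two, max_eq_left]
    · linarith [h4 i]
    · rw [SelA.two]; linarith [h4 i]
  have h6 : ‖(T.rd δ φ - 1) 0 1‖ ≤ 4⁻¹ := by simpa [e] using T.four φ 0 1
  have h7 : ‖(T.rd δ φ - 1) 1 0‖ ≤ 4⁻¹ := by simpa [e] using T.four φ 1 0
  have h8 : ‖(T.rd δ φ - 1).det‖ = 4⁻¹ := by
    have : ‖-((T.rd δ φ - 1) 0 1 * (T.rd δ φ - 1) 1 0)‖ ≤ 4⁻¹ * 4⁻¹ := by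
      rw [norm_neg, norm_mul]
      exact mul_le_mul h6 h7 (norm_nonneg _) (by norm_num)
    rw [Matrix.det_fin_two, sub_eq_add_neg, IsUltrametricDist.norm_add_eq_max_of_norm_ne_norm,
      norm_mul, h5, h5, max_eq_left (by linarith)]
    · norm_num
    · rw [norm_mul, h5, h5]; linarith
  refine ⟨fun h => by rw [h, norm_zero] at h8; norm_num at h8, fun i j => ?_, fun i h => ?_⟩
  · rw [Matrix.inv_def, Ring.inverse_eq_inv', Matrix.smul_apply, norm_smul, norm_inv, h8,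
      Matrix.adjugate_fin_two]
    have := h5 0
    have := h5 1
    fin_cases i <;> fin_cases j <;> simp only [Fin.zero_eta, Fin.mk_one, Matrix.of_apply,
      Matrix.cons_val', Matrix.cons_val_zero, Matrix.cons_val_one, Matrix.cons_val_fin_one,
      norm_neg] <;> linarith
  · have := h5 i
    rw [Matrix.sub_apply, h, Matrix.one_apply_eq, sub_self, norm_zero] at this
    norm_num at this

theorem Tate.tau (hT : TAU) (hE : EC) {w : Pl} (T : Tate w) : T.rho tau * T.rho tau = 1 ∧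
    (T.rho tau).det = -1 ∧ (T.rho tau).trace = 0 := by
  have h1 : T.rho R2.tau * T.rho R2.tau = 1 := by rw [← map_mul, hT.2.1, map_one]
  have h2 : (T.rho R2.tau).det = -1 := by simp [T.det, cq, hE.2.2.2.2.2.2.2]
  refine ⟨h1, h2, ?_⟩
  have h3 := congrFun (congrFun h1 0) 0
  have h4 := congrFun (congrFun h1 0) 1
  rw [Matrix.det_fin_two] at h2
  simp only [Matrix.mul_apply, Fin.sum_univ_two, Matrix.one_apply_eq, Matrix.one_apply_ne
    (show (0 : Fin 2) ≠ 1 by decide)] at h3 h4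
  rw [Matrix.trace_fin_two]
  linear_combination (T.rho R2.tau 0 0) * h2 - T.rho R2.tau 1 1 * h3 + T.rho R2.tau 1 0 * h4

variable {A A' : Type} [NormedCommRing A] [NormedAlgebra ℚ_[2] A] [NormedCommRing A']
  [NormedAlgebra ℚ_[2] A'] {ψ : ℤ_[2] → A} {ψ' : ℤ_[2] → A'} {D : Dat} {n : List (Kp D)}
  {x y : GS → Fin 2 → A}

theorem IsPsi.bar (h : IsPsi ψ) : IsPsi (bar ψ) :=
  ⟨by simp [R2.bar, h.zero], fun a b => by simp only [R2.bar, neg_add, h.add],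
    h.cont.comp continuous_neg, fun _ => h.le _⟩

theorem bar_bar (ψ : ℤ_[2] → A) : bar (bar ψ) = ψ := by
  funext a; simp [bar]

theorem IsPsi.nat (h : IsPsi ψ) (m : ℕ) : ψ m = ψ 1 ^ m := by
  induction m with
  | zero => simp [h.zero]
  | succ m ih => rw [Nat.cast_succ, h.add, ih, pow_succ]

theorem IsPsi.isUnit (h : IsPsi ψ) (a : ℤ_[2]) : IsUnit (ψ a) :=
  .of_mul_eq_one (ψ (-a)) (by rw [← h.add, add_neg_cancel, h.zero])

theorem IsPsi.near (h : IsPsi ψ) {ε : ℝ} (hε : 0 < ε) :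
    ∃ k : ℕ, ∀ a b, 2 ^ k ∣ a - b → ‖ψ a - ψ b‖ ≤ ε := by
  obtain ⟨δ, h1, h2⟩ := Metric.uniformContinuous_iff.1
    (CompactSpace.uniformContinuous_of_continuous h.cont) ε hε
  obtain ⟨m, hm⟩ := exists_pow_lt_of_lt_one h1 (show (2⁻¹ : ℝ) < 1 by norm_num)
  refine ⟨m, fun a b ⟨c, hc⟩ => ?_⟩
  rw [← dist_eq_norm]
  refine (h2 (lt_of_le_of_lt ?_ hm)).le
  have h3 : ‖(2 : ℤ_[2])‖ = 2⁻¹ := by simpa using PadicInt.norm_p (p := 2)
  rw [dist_eq_norm, hc, norm_mul, norm_pow, h3]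
  exact mul_le_of_le_one_right (by positivity) c.norm_le_one

theorem isPsi_one : IsPsi fun _ => (1 : ℚ_[2]) :=
  ⟨rfl, by simp, continuous_const, by simp⟩

theorem mv_apply (B : Mt) (v : Fin 2 → A) (i : Fin 2) : mv B v i = B i 0 • v 0 + B i 1 • v 1 := by
  simp [mv, Matrix.mulVec, dotProduct, Algebra.smul_def]

theorem mv_mul (B B' : Mt) (v : Fin 2 → A) : mv (B * B') v = mv B (mv B' v) := by
  simp [mv, Matrix.map_mul]

theorem mv_one (v : Fin 2 → A) : mv 1 v = v := by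
  simp [mv]

theorem mv_add (B B' : Mt) (v : Fin 2 → A) : mv (B + B') v = mv B v + mv B' v := by
  funext i; simp only [mv_apply, Matrix.add_apply, Pi.add_apply]; module

theorem mv_smul (c : ℚ_[2]) (B : Mt) (v : Fin 2 → A) : mv (c • B) v = c • mv B v := by
  funext i; simp only [mv_apply, Matrix.smul_apply, Pi.smul_apply, smul_eq_mul]; module

theorem mv_rat (B : Mt) (v : V2) : mv B v = B *ᵥ v := by
  simp [mv]

theorem mv_det (B : Mt) (v v' : Fin 2 → A) :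
    mv B v 0 * mv B v' 1 - mv B v 1 * mv B v' 0 = B.det • (v 0 * v' 1 - v 1 * v' 0) := by
  simp only [mv_apply, Matrix.det_fin_two, Algebra.smul_def, map_sub, map_mul]; ring

theorem mv_map (ν : A →ₗ[ℚ_[2]] A') (B : Mt) (v : Fin 2 → A) :
    (fun i => ν (mv B v i)) = mv B fun i => ν (v i) := by
  funext i; simp only [mv_apply, map_add, map_smul]

theorem Dat.r_apply (g : GQ) (v : Fin 2 → A) : D.r ψ g v = ψ (D.a g) • mv (D.T.rd D.dl g) v := rfl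

theorem Dat.r_one (D : Dat) : D.r (fun _ => (1 : ℚ_[2])) = D.T.rq D.dl := by
  funext g
  exact LinearMap.ext fun v => by rw [Dat.r_apply, one_smul, mv_rat, Tate.rq_apply]

theorem Dat.xt_add (x y : GS → Fin 2 → A) : D.xt (x + y) = D.xt x + D.xt y :=
  funext fun _ => map_add (mv _) _ _

theorem Dat.xt_smul (a : A) (x : GS → Fin 2 → A) : D.xt (a • x) = a • D.xt x :=
  funext fun _ => map_smul (mv _) _ _

theorem Dat.xt_xt (hA : CA) (x : GS → Fin 2 → A) : D.xt (D.xt x) = x := by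
  funext g
  rw [Dat.xt, Dat.xt, ← mv_mul, (D.T.tau hA.tau hA.ec).1, mv_one]
  congr 1
  funext k
  change tau * (tau * g k * tau) * tau = g k
  rw [← mul_assoc, ← mul_assoc, hA.tau.2.1, one_mul, mul_assoc, hA.tau.2.1, mul_one]

theorem SelA.th_apply (i : Fin 2) (g : GQ) (a : A) :
    D.th ψ i g a = (D.T.rd D.dl g i i • ψ (D.a g)) * a := rfl

theorem SelA.psi_sm (D : Dat) (h : IsPsi ψ) {ε : ℝ} (hε : 0 < ε) : ∃ N, ON N ∧ ∀ g ∈ D.GK, g ∈ N →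
    ‖ψ (D.a g) - 1‖ ≤ ε ∧ ∀ i j, ‖(D.T.rd D.dl g - 1) i j‖ ≤ ε := by
  obtain ⟨k, hk⟩ := h.near hε
  obtain ⟨N, h1, h2⟩ := D.an.sm k
  obtain ⟨N', h3, h4⟩ := SelA.rd_sm D.T D.dl hε
  exact ⟨_, h1.inf h3, fun g hg m =>
    ⟨h.zero ▸ hk _ _ (by simpa using h2 g hg m.1), h4 g m.2⟩⟩

theorem SelA.psi_pow (D : Dat) (h : IsPsi ψ) {g : GQ} (hg : g ∈ D.GK) {ε : ℝ} (hε : 0 < ε) :
    ∃ k : ℕ, ‖ψ (D.a (g ^ 2 ^ k)) - 1‖ ≤ ε ∧ ∀ i j, ‖(D.T.rd D.dl (g ^ 2 ^ k) - 1) i j‖ ≤ ε := by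
  obtain ⟨k, hk⟩ := h.near hε
  obtain ⟨m, h1, h2⟩ := ((eventually_ge_atTop k).and (SelA.rd_pow D.T D.fix_dl g hε)).exists
  refine ⟨m, h.zero ▸ hk _ _ ?_, h2⟩
  rw [D.an.pow hg, sub_zero]
  push_cast
  exact (pow_dvd_pow _ h1).mul_right _

section

variable [IsUltrametricDist A]

theorem SelA.mv_le {B : Mt} {ε : ℝ} (h : ∀ i j, ‖B i j‖ ≤ ε) (v : Fin 2 → A) :
    ‖mv B v‖ ≤ ε * ‖v‖ := by
  have h0 : 0 ≤ ε := (norm_nonneg _).trans (h 0 0)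
  have h1 : ∀ i j, ‖B i j • v j‖ ≤ ε * ‖v‖ := fun i j => by
    rw [norm_smul]
    exact mul_le_mul (h i j) (norm_le_pi_norm v j) (norm_nonneg _) h0
  exact (pi_norm_le_iff_of_nonneg (by positivity)).2 fun i =>
    mv_apply B v i ▸ SelA.add (h1 _ _) (h1 _ _)

theorem SelA.near {B : Mt} {c : A} {ε : ℝ} (hc : ‖c‖ ≤ 1) (h1 : ‖c - 1‖ ≤ ε)
    (h : ∀ i j, ‖(B - 1) i j‖ ≤ ε) (v : Fin 2 → A) : ‖c • mv B v - v‖ ≤ ε * ‖v‖ := by
  have e : mv B v = mv (B - 1) v + v := by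
    conv_lhs => rw [← sub_add_cancel B 1, mv_add, mv_one]
  rw [e, show c • (mv (B - 1) v + v) - v = c • mv (B - 1) v + (c - 1) • v by module]
  exact SelA.add ((norm_smul_le _ _).trans ((mul_le_of_le_one_left (norm_nonneg _) hc).trans
    (SelA.mv_le h v))) ((norm_smul_le _ _).trans (mul_le_mul_of_nonneg_right h1 (norm_nonneg _)))

theorem SelA.near' {b : ℚ_[2]} {c : A} {ε : ℝ} (hc : ‖c‖ ≤ 1) (h1 : ‖c - 1‖ ≤ ε)
    (h : ‖b - 1‖ ≤ ε) (v : A) : ‖(b • c) * v - v‖ ≤ ε * ‖v‖ := by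
  rw [← sub_one_mul, show b • c - 1 = (b - 1) • c + (c - 1) by module]
  refine (norm_mul_le _ _).trans (mul_le_mul_of_nonneg_right (SelA.add ?_ h1) (norm_nonneg _))
  rw [norm_smul]
  exact (mul_le_of_le_one_right (norm_nonneg _) hc).trans h

end

theorem Tate.rep {w : Pl} (T : Tate w) {δ : Om} (hδ : Fix ⊤ (δ ^ 2)) : Rep ⊤ (T.rq δ) := by
  simp only [Tate.rq_apply, ← mv_rat, (⟨fun h => ⟨h.1, h.2, h.3, h.4, h.5⟩,
    fun h => ⟨h.1, h.2.1, h.2.2.1, h.2.2.2.1, h.2.2.2.2⟩⟩ : Rep ⊤ (T.rq δ) ↔ _ ∧ _ ∧ _ ∧ _ ∧ _)]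
  refine ⟨fun v => by rw [SelA.rd_fix T rfl, map_one, mv_one],
    fun g _ h _ v => by rw [T.rd_mul hδ, mv_mul],
    fun g v => by simpa using SelA.mv_le (SelA.rd_le T δ g) v, fun ε hε => ?_, fun g _ ε hε => ?_⟩
  · obtain ⟨N, h1, h2⟩ := SelA.rd_sm T δ hε
    exact ⟨N, h1, fun n _ m v => by
      simpa using SelA.near (c := 1) (by simp) (by simp [hε.le]) (h2 n m) v⟩
  · obtain ⟨k, hk⟩ := (SelA.rd_pow T hδ g hε).exists
    exact ⟨k, fun v => by simpa using SelA.near (c := 1) (by simp) (by simp [hε.le]) hk v⟩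

variable [IsUltrametricDist A] [FiniteDimensional ℚ_[2] A] [IsUltrametricDist A']
  [FiniteDimensional ℚ_[2] A']

theorem Dat.rep (D : Dat) (h : IsPsi ψ) : Rep D.GK (D.r ψ) := by
  refine ⟨fun v => by rw [Dat.r_apply, SelA.rd_fix D.T rfl, map_one, mv_one, D.an.one, h.zero,
    one_smul], fun g hg g' hg' v => ?_, fun g v => ?_, fun ε hε => ?_, fun g hg ε hε => ?_⟩
  · simp only [Dat.r_apply, D.T.rd_mul D.fix_dl, mv_mul, D.an.add g hg g' hg', h.add, map_smul,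
      mul_smul]
  · exact (norm_smul_le _ _).trans ((mul_le_of_le_one_left (norm_nonneg _) (h.le _)).trans
      (by simpa using SelA.mv_le (SelA.rd_le D.T D.dl g) v))
  · obtain ⟨N, h1, h2⟩ := SelA.psi_sm D h hε
    exact ⟨N, h1, fun n hn m => SelA.near (h.le _) (h2 n hn m).1 (h2 n hn m).2⟩
  · obtain ⟨k, h1, h2⟩ := SelA.psi_pow D h hg hε
    exact ⟨k, SelA.near (h.le _) h1 h2⟩

theorem Dat.rep_th (D : Dat) (h : IsPsi ψ) (i : Fin 2) : Rep D.w2.D (D.th ψ i) := by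
  refine ⟨fun v => by simp [SelA.th_apply, SelA.rd_fix D.T (g := 1) rfl, D.an.one, h.zero],
    fun g hg g' hg' v => ?_, fun g v => ?_, fun ε hε => ?_, fun g hg ε hε => ?_⟩
  · have : D.T.rd D.dl (g * g') i i = D.T.rd D.dl g i i * D.T.rd D.dl g' i i := by
      rw [D.T.rd_mul D.fix_dl, Matrix.mul_apply, Fin.sum_univ_two]
      fin_cases i <;> simp [SelA.rd_up D.T D.dl hg, SelA.rd_up D.T D.dl hg']
    simp only [SelA.th_apply, this, D.an.add g (D.D_le hg) g' (D.D_le hg'), h.add, ← mul_assoc,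
      smul_mul_smul_comm]
  · refine (norm_mul_le _ _).trans (mul_le_of_le_one_left (norm_nonneg _) ?_)
    rw [norm_smul]
    exact mul_le_one₀ (SelA.rd_le _ _ _ _ _) (norm_nonneg _) (h.le _)
  · obtain ⟨N, h1, h2⟩ := SelA.psi_sm D h hε
    exact ⟨N, h1, fun n hn m => SelA.near' (h.le _) (h2 n (D.D_le hn) m).1
      (by simpa using (h2 n (D.D_le hn) m).2 i i)⟩
  · obtain ⟨k, h1, h2⟩ := SelA.psi_pow D h (D.D_le hg) hε
    exact ⟨k, SelA.near' (h.le _) h1 (by simpa using h2 i i)⟩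

theorem Dat.th_equiv (D : Dat) (h : IsPsi ψ) {g : GQ} (hg : g ∈ D.w2.D) (a b : A) :
    D.th (bar ψ) 1 g a * D.th ψ 0 g b = cq g • (a * b) := by
  have h1 : D.T.rd D.dl g 1 1 * D.T.rd D.dl g 0 0 = cq g := by
    rw [← D.T.det, Matrix.det_fin_two, D.T.up g hg]
    rcases sd_cases D.dl g with e | e <;> simp [Tate.rd, e, mul_comm]
  rw [SelA.th_apply, SelA.th_apply, mul_mul_mul_comm, smul_mul_smul_comm, h1, bar, ← h.add,
    neg_add_cancel, h.zero, smul_mul_assoc, one_mul]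

theorem Dat.rS_smul (h : IsPsi ψ) (g : GS) (a : A) (v : Fin 2 → A) :
    rS (D.r ψ) g (a • v) = a • rS (D.r ψ) g v :=
  ((D.rep h).rS_map ((a • LinearMap.id (R := A)).restrictScalars ℚ_[2]) (.of_forall fun k => by
    simp only [LinearMap.restrictScalars_apply, LinearMap.smul_apply, LinearMap.id_apply,
      Dat.r_apply, map_smul])).symm

theorem Dat.rS_z (h : IsPsi ψ) (v : Fin 2 → A) : rS (D.r ψ) (cs D.z) v = -v := by
  rw [rS_cs, Dat.r_apply, D.za, h.zero, one_smul, Tate.rd, sd_eq_neg.2 D.zd, D.zr, mv_smul, mv_one]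
  simp

theorem Dat.rS_f2 (h : IsPsi ψ) (v : Fin 2 → A) :
    rS (D.r ψ) (cs D.f2) v = mv (D.T.rd D.dl D.f2) v := by
  rw [rS_cs, Dat.r_apply, D.fa, h.zero, one_smul]

/-- sequences which act trivially in the limit -/
theorem Dat.rS_triv (h : IsPsi ψ) {g : GS}
    (h1 : ∀ i j, Tendsto (fun k => D.T.rho (g k) i j) UF (𝓝 ((1 : Mt) i j)))
    (h2 : Tendsto (fun k => D.a (g k)) UF (𝓝 0)) (h3 : ∀ᶠ k in UF, g k D.dl = D.dl)
    (v : Fin 2 → A) : rS (D.r ψ) g v = v := by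
  refine ul_eq (tendsto_pi_nhds.2 fun i => ?_)
  have := ((h.cont.tendsto 0).comp h2).mul (((h1 i 0).smul_const (v 0)).add
    ((h1 i 1).smul_const (v 1)))
  rw [← mv_apply, mv_one, h.zero, one_mul] at this
  refine this.congr' (h3.mono fun k hk => ?_)
  simp only [Dat.r_apply, SelA.rd_fix D.T hk, Pi.smul_apply, mv_apply, smul_eq_mul,
    Function.comp_apply]

theorem Dat.rS_Z (h : IsPsi ψ) {g : GS} (hg : ∀ᶠ k in UF, D.Z (g k)) (v : Fin 2 → A) :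
    rS (D.r ψ) g v = v :=
  Dat.rS_triv h (fun _ _ => tendsto_const_nhds.congr' (hg.mono fun k hk => by simp only [hk.2.1]))
    (tendsto_const_nhds.congr' (hg.mono fun _ hk => hk.2.2.1.symm)) (hg.mono fun _ hk => hk.2.2.2) v

theorem Dat.rS_one (h : IsPsi ψ) {g : GS} (hg : g ∈ S1 D.w2.D) (v : Fin 2 → A) :
    rS (D.r ψ) g v 1 = rS (D.th ψ 1) g (v 1) :=
  (D.rep h).rS_map (LinearMap.proj 1) (Eventually.mono hg fun k hk => by
    simp [Dat.r_apply, SelA.th_apply, mv_apply, SelA.rd_up D.T D.dl hk])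

theorem Dat.rS_zero (h : IsPsi ψ) {g : GS} {v : Fin 2 → A} (hv : v 1 = 0) :
    rS (D.r ψ) g v 0 = rS (D.th ψ 0) g (v 0) :=
  (D.rep h).rS_map (LinearMap.proj 0) (.of_forall fun k => by
    simp [Dat.r_apply, SelA.th_apply, mv_apply, hv])

theorem Dat.rS_tau (hA : CB) (h : IsPsi ψ) {g : GS} (hg : g ∈ S1 D.GK) (v : Fin 2 → A) :
    mv (D.T.rho tau) (rS (D.r ψ) (cs tau * g * cs tau) v) =
      rS (D.r (bar ψ)) g (mv (D.T.rho tau) v) := by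
  refine (D.rep h).rS_map ((mv (D.T.rho tau)).restrictScalars ℚ_[2])
    (Eventually.mono hg fun k hk => ?_)
  have h1 : tau⁻¹ = tau := inv_eq_of_mul_eq_one_right hA.tau.2.1
  have h2 := D.an.dih tau (hA.karith D.toPre).2.1 _ hk
  have h3 : sd D.dl (tau * g k * tau) = sd D.dl (g k) := by
    rw [sd_mul D.fix_dl, sd_mul D.fix_dl, mul_right_comm, sd_sq, one_mul]
  rw [h1] at h2
  change mv _ (D.r ψ (tau * g k * tau) v) = D.r (bar ψ) (g k) (mv _ v)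
  rw [Dat.r_apply, Dat.r_apply, h2, map_smul, ← mv_mul, ← mv_mul, Tate.rd, Tate.rd, h3,
    mul_smul_comm, smul_mul_assoc, ← map_mul, ← map_mul, ← mul_assoc, ← mul_assoc, hA.tau.2.1,
    one_mul, bar]

theorem Dat.rS_map (h : IsPsi ψ) (ν : A →ₗ[ℚ_[2]] A') (V : Ideal A)
    (hν : ∀ a, ∀ y ∈ V, ν (ψ a * y) = ψ' a * ν y) (g : GS) {v : Fin 2 → A} (hv : ∀ i, v i ∈ V) :
    (fun i => ν (rS (D.r ψ) g v i)) = rS (D.r ψ') g (fun i => ν (v i)) ∧
      ∀ i, rS (D.r ψ) g v i ∈ V := by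
  have h1 : ∀ B i, mv B v i ∈ V := fun B i => mv_apply B v i ▸
    V.add_mem (V.smul_of_tower_mem _ (hv _)) (V.smul_of_tower_mem _ (hv _))
  refine ⟨(D.rep h).rS_map (ν.compLeft (Fin 2)) (.of_forall fun k => funext fun i => ?_),
    fun i => (D.rep h).rS_mem (Submodule.pi Set.univ fun _ => V.restrictScalars ℚ_[2])
      (.of_forall fun k i _ => V.mul_mem_left _ (h1 _ i)) i trivial⟩
  exact (hν _ _ (h1 _ i)).trans (congrArg _ (congrFun (mv_map ν _ v) i))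

theorem PZ.smulA {H : ℕ → Subgroup GQ} (h : IsPsi ψ) (hx : PZ H (D.r ψ) x) (a : A) :
    PZ H (D.r ψ) (a • x) :=
  hx.map ((a • LinearMap.id (R := A)).restrictScalars ℚ_[2]) fun g _ _ _ =>
    (Dat.rS_smul h g a _).symm

end Pool.Agent.P.MP_8b7eba_nt.R2
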