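import Pool.Agent.P.MP_8b7eba_nt.R2.LA
import Pool.Agent.P.MP_8b7eba_nt.R2.SelA

/-! Cochains with values in signs, and cocycles modulo powers of two. -/

namespace Pool.Agent.P.MP_8b7eba_nt.R2

open scoped NNReal Matrix

variable {H H' : Subgroup GQ} {w w' : Pl} {κ κ' : GQ → GQ → ZMod 2} {α β θ : GQ → ZMod 2}
  {T : Tate w} {δ : Om} {c c' : GQ → V2} {x y : X2} {i : ℕ}

theorem LC.cases (s : ZMod 2) : s = 0 ∨ s = 1 := by revert s; decide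

theorem LC.v1 : (1 : ZMod 2).val = 1 := rfl

theorem LC.two (s : ZMod 2) : s + s = 0 := by revert s; decide

theorem LC.e_add {R : Type} [CommRing R] (a b : ZMod 2) :
    (-1 : R) ^ (a + b).val = (-1) ^ a.val * (-1) ^ b.val := by
  rcases LC.cases a with rfl | rfl <;> rcases LC.cases b with rfl | rfl <;>
    simp [LC.v1, LC.two]

theorem LC.e_mul {R : Type} [CommRing R] (a b : ZMod 2) :
    (-1 : R) ^ (a * b).val = ((-1) ^ a.val) ^ b.val := by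
  rcases LC.cases a with rfl | rfl <;> rcases LC.cases b with rfl | rfl <;> simp [LC.v1]

theorem LC.e_sq {R : Type} [CommRing R] (n : ℕ) : ((-1 : R) ^ n) ^ 2 = 1 := by
  rw [← pow_mul, mul_comm, pow_mul]; simp

theorem LC.e_inj {a b : ZMod 2} : (-1 : Om) ^ a.val = (-1) ^ b.val ↔ a = b := by
  have h : (1 : Om) ≠ -1 := by norm_num
  rcases LC.cases a with rfl | rfl <;> rcases LC.cases b with rfl | rfl <;>
    simp [LC.v1, h, h.symm]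

theorem LC.e_ne (n : ℕ) : (-1 : Om) ^ n ≠ 0 := pow_ne_zero _ (by simp)

theorem LC.e_gal (g : GQ) (n : ℕ) : g ((-1) ^ n) = (-1) ^ n := by simp

theorem sgn_add (κ κ' : GQ → GQ → ZMod 2) : sgn (κ + κ') = sgn κ * sgn κ' := by
  funext g h
  exact LC.e_add _ _

theorem sgn_sq (κ : GQ → GQ → ZMod 2) : sgn κ ^ 2 = 1 := by
  funext g h
  exact LC.e_sq _

theorem sgn_inj {g h : GQ} : sgn κ g h = sgn κ' g h ↔ κ g h = κ' g h := LC.e_inj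

theorem LC.inv (κ : GQ → GQ → ZMod 2) : (sgn κ)⁻¹ = sgn κ := by
  funext g h
  exact inv_eq_of_mul_eq_one_left ((sq _).symm.trans (LC.e_sq _))

theorem LC.div (κ κ' : GQ → GQ → ZMod 2) : sgn κ / sgn κ' = sgn (κ + κ') := by
  rw [div_eq_mul_inv, LC.inv, sgn_add]

theorem co2_sgn : Co2 H (sgn κ) ↔ Sm2 H κ ∧ ∀ g ∈ H, ∀ h ∈ H, ∀ k ∈ H,
    κ h k + κ g (h * k) = κ (g * h) k + κ g h := by
  constructor
  · intro h
    obtain ⟨N, hN, e⟩ := h.sm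
    refine ⟨⟨N, hN, fun g hg k hk n hn m => ⟨LC.e_inj.1 (e g hg k hk n hn m).1,
      LC.e_inj.1 (e g hg k hk n hn m).2⟩⟩, fun g hg k hk l hl => ?_⟩
    have := h.co g hg k hk l hl
    simp only [sgn, LC.e_gal, ← LC.e_add] at this
    exact LC.e_inj.1 this
  · rintro ⟨h1, h2⟩
    refine ⟨fun g _ k _ => LC.e_ne _, h1.comp fun s => (-1 : Om) ^ s.val, fun g hg k hk l hl => ?_⟩
    simp only [sgn, LC.e_gal, ← LC.e_add]
    rw [h2 g hg k hk l hl]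

theorem Co2.sgnT (h : Co2 H (sgn κ)) : Co2T H (sgn κ) :=
  ⟨h, 1, by rw [pow_one, sgn_sq]; exact Triv.one⟩

theorem Bd.triv (h : Bd H κ θ) : Triv H (sgn κ) := by
  refine ⟨fun g => (-1) ^ (θ g).val, h.1.comp fun s => (-1 : Om) ^ s.val, fun g _ => LC.e_ne _,
    fun g hg k hk => ?_⟩
  simp only [sgn, LC.e_gal, ← LC.e_add]
  rw [h.2 g hg k hk, add_comm, add_assoc, LC.two, add_zero]

theorem exists_bd (hG : GAL) (hH : IsClosed (H : Set GQ)) (h : Triv H (sgn κ)) : ∃ θ, Bd H κ θ := by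
  obtain ⟨b, h1, h2, h3⟩ := ((hG H hH).2.2.2.2 2 _ h.co2 (by rw [sgn_sq]; exact Triv.one)
    two_ne_zero).2 (fun g _ k _ => LC.e_sq _) h
  have e : ∀ g ∈ H, b g = (-1) ^ (if b g = 1 then 0 else 1 : ZMod 2).val := fun g hg => by
    split_ifs with t
    · simp [t]
    · simpa [LC.v1, t] using sq_eq_one_iff.1 (h2 g hg)
  refine ⟨fun g => if b g = 1 then 0 else 1,
    h1.comp fun z => (if z = 1 then 0 else 1 : ZMod 2), fun g hg k hk => ?_⟩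
  have := h3 g hg k hk
  rw [e g hg, e k hk, e _ (H.mul_mem hg hk), LC.e_gal, sgn, ← LC.e_add, ← LC.e_add,
    LC.e_inj] at this
  rw [← this, add_comm (κ g k), add_assoc, LC.two, add_zero]

theorem LC.ch (hx : IsCh H x) (j : Fin 2) : IsCh H fun g => x g j :=
  ⟨hx.1.comp fun v => v j, fun g hg k hk => congrFun (hx.2 g hg k hk) j⟩

theorem co2_cup (ha : IsCh H α) (hb : IsCh H β) : Co2 H (sgn fun g h => α g * β h) :=
  co2_sgn.2 ⟨ha.1.fst.comp₂ hb.1.snd (· * ·), fun g hg k hk l hl => by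
    rw [ha.2 g hg k hk, hb.2 k hk l hl]; ring⟩

theorem co2_d2 (hx : IsCh H x) (hy : IsCh H y) : Co2 H (sgn (d2 x y)) := by
  have := (co2_cup (LC.ch hx 0) (LC.ch hy 1)).mul (co2_cup (LC.ch hx 1) (LC.ch hy 0))
  rwa [← sgn_add] at this

theorem triv_swap (ha : IsCh H α) (hb : IsCh H β) :
    Triv H ((sgn fun g h => α g * β h) / sgn fun g h => β g * α h) := by
  rw [LC.div]
  refine Bd.triv (θ := fun g => α g * β g) ⟨ha.1.comp₂ hb.1 (· * ·), fun g hg k hk => ?_⟩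
  simp only [Pi.add_apply]
  rw [ha.2 g hg k hk, hb.2 g hg k hk]; ring

theorem triv_d2_swap (hx : IsCh H x) (hy : IsCh H y) : Triv H (sgn (d2 x y) / sgn (d2 y x)) := by
  rw [LC.div]
  refine Bd.triv (θ := fun g => d2 x y g g)
    ⟨hx.1.comp₂ hy.1 fun a b => a 0 * b 1 + a 1 * b 0, fun g hg k hk => ?_⟩
  simp only [Pi.add_apply, d2]
  rw [hx.2 g hg k hk, hy.2 g hg k hk]
  simp only [Pi.add_apply]
  ring

theorem LC.rt_ne {m : ℤ} (hm : m ≠ 0) : rt m ≠ 0 := fun h => by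
  have := rt_sq m
  rw [h, zero_pow two_ne_zero] at this
  exact hm (Int.cast_eq_zero.1 this.symm)

/-- the product of a Kummer character with any character is a cyclic algebra -/
theorem triv_cup_qz (hA : CA) {m : ℤ} (hm : m ≠ 0) (hb : IsCh H β) :
    Triv H (cup β m / sgn fun g h => qz m g * β h) := by
  have h := (((hA.cup H m (fix_int m) (Int.cast_ne_zero.2 hm) 2 β two_ne_zero hb).2.2.2.2.2.2 _
    (rt_sq m))).1
  rw [div_eq_mul_inv, LC.inv]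
  refine h.congr fun g _ k _ => ?_
  have e := sd_apply (δ := rt m) (by rw [rt_sq]; exact fix_int m) g
  simp only [Pi.mul_apply, sgn]
  rw [e, mul_div_cancel_right₀ _ (LC.rt_ne hm), sd_eq_qz (rt_sq m), LC.e_mul]
  simp

/-- Hilbert symbols -/
theorem triv_qz_iff (hA : CA) (hH : IsClosed (H : Set GQ)) {m n : ℤ} (hm : m ≠ 0) (hn : n ≠ 0) :
    Triv H (sgn fun g h => qz m g * qz n h) ↔ Nm H n m := by
  rw [← (triv_cup_qz hA hm (isCh_qz n)).iff, ← rt_sq n]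
  exact (hA.sym H _ (rt n) hH (LC.rt_ne hn) (by rw [rt_sq]; exact fix_int n)
    (isKer_qc H _)).2.2.1 m (fix_int m) (Int.cast_ne_zero.2 hm)

theorem nv_sgn (hA : CA) (h : Co2 w.D (sgn κ)) :
    (nv w w.D (sgn κ) = 1 ∨ nv w w.D (sgn κ) = -1) ∧ (nv w w.D (sgn κ) = 1 ↔ Triv w.D (sgn κ)) := by
  have h1 := hA.inv2.2.1 w w.D _ 1 w.loc_D h (by rw [pow_one, sgn_sq]; exact Triv.one)
  rw [pow_one] at h1
  exact ⟨sq_eq_one_iff.1 h1, (hA.inv w _ w.loc_D).inj rfl _ h.sgnT,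
    (hA.inv w _ w.loc_D).triv _ h⟩

theorem nv_congr (hA : CA) {f f' : GQ → GQ → Om} (h : Co2T w.D f)
    (e : ∀ g ∈ w.D, ∀ k ∈ w.D, f' g k = f g k) : nv w w.D f' = nv w w.D f :=
  (hA.inv2.1 w w.D f f' w.loc_D h (h.1.congr e) (Triv.one.congr fun g hg k hk => by
    simp only [Pi.div_apply, Pi.one_apply]
    rw [e g hg k hk, div_self (h.1.ne g hg k hk)])).symm

/-! Norms. -/

theorem LC.int_le (k : ℤ) (n : ℕ) : ‖(k : ℚ_[2])‖ ≤ (2 ^ n)⁻¹ ↔ (2 ^ n : ℤ) ∣ k := by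
  simpa using Padic.norm_int_le_pow_iff_dvd (p := 2) k n

theorem LC.int2 (k : ℤ) : ‖(k : ℚ_[2])‖ ≤ 2⁻¹ ↔ 2 ∣ k := by simpa using LC.int_le k 1

theorem LC.int4 (k : ℤ) : ‖(k : ℚ_[2])‖ ≤ 4⁻¹ ↔ 4 ∣ k := by
  have := LC.int_le k 2
  norm_num at this ⊢
  exact this

theorem LC.nat_le (n : ℕ) : ‖(n : ℚ_[2])‖ ≤ 1 := by simpa using Padic.norm_int_le_one (p := 2) n

theorem LC.sub {E : Type} [NormedAddCommGroup E] [IsUltrametricDist E] {a b : E} {ε : ℝ}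
    (ha : ‖a‖ ≤ ε) (hb : ‖b‖ ≤ ε) : ‖a - b‖ ≤ ε := by
  rw [sub_eq_add_neg]
  exact SelA.add ha (by rwa [norm_neg])

theorem LC.mul {a b : ℚ_[2]} {ε η : ℝ} (ha : ‖a‖ ≤ ε) (hb : ‖b‖ ≤ η) : ‖a * b‖ ≤ ε * η := by
  rw [norm_mul]
  exact mul_le_mul ha hb (norm_nonneg _) ((norm_nonneg _).trans ha)

theorem LC.mul_l {a b : ℚ_[2]} {η : ℝ} (ha : ‖a‖ ≤ 1) (hb : ‖b‖ ≤ η) : ‖a * b‖ ≤ η := by
  simpa using LC.mul ha hb

theorem LC.mul_r {a b : ℚ_[2]} {η : ℝ} (ha : ‖a‖ ≤ η) (hb : ‖b‖ ≤ 1) : ‖a * b‖ ≤ η := by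
  simpa using LC.mul ha hb

theorem LC.half (a : ℚ_[2]) : ‖a / 2‖ = 2 * ‖a‖ := by
  rw [norm_div, SelA.two]; ring

theorem LC.four (a : ℚ_[2]) : ‖a / 4‖ = 4 * ‖a‖ := by
  rw [show a / 4 = a / 2 / 2 by ring, LC.half, LC.half]; ring

theorem LC.lt_one {a : ℚ_[2]} (h : ‖a‖ < 1) : ‖a‖ ≤ 2⁻¹ := by
  simpa using (Padic.norm_le_pow_iff_norm_lt_pow_add_one a (-1)).2 (by simpa using h)

theorem LC.ex {a : ℚ_[2]} (h : ‖a‖ ≤ 1) : ∃ s : ZMod 2, ‖a - s.val‖ ≤ 2⁻¹ := by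
  obtain ⟨n, hn, e⟩ := PadicInt.exists_mem_range (⟨a, h⟩ : ℤ_[2])
  have e' : ‖a - n‖ < 1 := by
    have := PadicInt.mem_nonunits.1 ((IsLocalRing.mem_maximalIdeal _).1 e)
    rw [← PadicInt.coe_natCast]
    exact this
  exact ⟨n, by rw [ZMod.val_cast_of_lt hn]; exact LC.lt_one e'⟩

theorem LC.uniq {a : ℚ_[2]} {s t : ZMod 2} (h : ‖a - s.val‖ ≤ 2⁻¹) (h' : ‖a - t.val‖ ≤ 2⁻¹) :
    s = t := by
  have := LC.sub h' h
  rw [show a - t.val - (a - s.val) = ((s.val - t.val : ℤ) : ℚ_[2]) by push_cast; ring,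
    LC.int2] at this
  clear h h'
  revert s t
  decide

theorem LC.le {a : ℚ_[2]} {s : ZMod 2} (h : ‖a - s.val‖ ≤ 2⁻¹) : ‖a‖ ≤ 1 := by
  simpa using SelA.add (h.trans (by norm_num)) (LC.nat_le s.val)

theorem LC.r_add {a b : ℚ_[2]} {s t : ZMod 2} (h : ‖a - s.val‖ ≤ 2⁻¹) (h' : ‖b - t.val‖ ≤ 2⁻¹) :
    ‖a + b - (s + t).val‖ ≤ 2⁻¹ := by
  have e : ‖((s.val + t.val - (s + t).val : ℤ) : ℚ_[2])‖ ≤ 2⁻¹ := by
    rw [LC.int2]; clear h h'; revert s t; decide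
  have := SelA.add (SelA.add h h') e
  push_cast at this
  rwa [show a - s.val + (b - t.val) + (s.val + t.val - (s + t).val) = a + b - (s + t).val by
    ring] at this

theorem LC.r_mul {a b : ℚ_[2]} {s t : ZMod 2} (h : ‖a - s.val‖ ≤ 2⁻¹) (h' : ‖b - t.val‖ ≤ 2⁻¹) :
    ‖a * b - (s * t).val‖ ≤ 2⁻¹ := by
  have e : ((s * t).val : ℚ_[2]) = s.val * t.val := by
    rw [← Nat.cast_mul]; congr 1; clear h h'; revert s t; decide
  rw [e, show a * b - s.val * t.val = (a - s.val) * b + s.val * (b - t.val) by ring]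
  exact SelA.add (LC.mul_r h (LC.le h')) (LC.mul_l (LC.nat_le _) h')

theorem LC.r_neg {a : ℚ_[2]} {s : ZMod 2} (h : ‖a - s.val‖ ≤ 2⁻¹) : ‖-a - s.val‖ ≤ 2⁻¹ := by
  rw [show -a - s.val = -(2 * s.val) - (a - s.val) by ring]
  exact LC.sub (by rw [norm_neg]; exact LC.mul_r SelA.two.le (LC.nat_le _)) h

theorem ec_congr (hE : EC) {a b : ℚ_[2]} (h : ‖a - b‖ ≤ 1) : ec a = ec b := by
  rw [← add_sub_cancel b a, hE.1.add, (hE.1.eq_one _).2 h, mul_one]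

theorem ec_half (hE : EC) {a : ℚ_[2]} {s : ZMod 2} (h : ‖a - s.val‖ ≤ 2⁻¹) :
    ec (a / 2) = (-1) ^ s.val := by
  rw [ec_congr hE (b := s.val / 2) (by rw [← sub_div, LC.half]; linarith)]
  rcases LC.cases s with rfl | rfl
  · simpa using (hE.1.eq_one 0).2 (by simp)
  · have h1 : ec (1 / 2) ^ 2 = 1 := by
      rw [sq, ← hE.1.add, hE.1.eq_one]; norm_num
    have h2 : ec (1 / 2) ≠ 1 := by
      rw [Ne, hE.1.eq_one, LC.half]; norm_num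
    simpa [LC.v1] using (sq_eq_one_iff.1 h1).resolve_left h2

/-- a ramified character against an unramified one -/
theorem nv_ram (hA : CB) {m : ℤ} {φ : GQ} (h2 : w.p ≠ 2) (hm : ¬ (w.p : ℤ) ∣ m) (h : IsCh w.D θ)
    (hI : ∀ g ∈ w.I, θ g = 0) (hφ : w.IsFrob 1 φ) :
    nv w w.D (sgn fun g h => qz (w.p * m) g * θ h) = (-1) ^ (θ φ).val := by
  have h0 : (w.p * m : ℤ) ≠ 0 :=
    mul_ne_zero (Int.natCast_ne_zero.2 w.prime.ne_zero) fun e => hm (e ▸ dvd_zero _)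
  have h1 := co2_cup (isCh_qz (w.p * m)) h
  have h3 := hA.cup w.D _ (fix_int (w.p * m)) (Int.cast_ne_zero.2 h0) 2 θ two_ne_zero h
  rw [← hA.inv2.1 w w.D _ _ w.loc_D ⟨h3.1, 1, h3.2.1⟩ h1 (triv_cup_qz hA.toCA h0 h)]
  have := hA.locv w w.D 1 1 θ φ w.p ((w.p * m : ℤ) : Om) 1 h2 w.loc_D h (fun g hg => hI g hg.1)
    hφ.1 hφ (by rw [Subgroup.relIndex_eq_one.2 w.I_le_D, Subgroup.relIndex_self])
    (hA.res w _ w.loc_D).2.2.2.1 (fix_int _) (Int.cast_ne_zero.2 h0)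
    (by rw [Int.cast_mul, map_mul, Pl.v_int_eq_one.2 hm]; simp)
  refine this.trans (Eq.trans ?_ (ec_half hA.ec (a := (θ φ).val) (by simp)))
  simp

/-- the reduction modulo two -/
theorem exists_red : ∃ r : ℚ_[2] → ZMod 2, (∀ a, ‖a‖ ≤ 1 → ‖a - (r a).val‖ ≤ 2⁻¹) ∧
    (∀ (a : ℚ_[2]) (s : ZMod 2), ‖a - s.val‖ ≤ 2⁻¹ → r a = s) ∧
    ∀ a b, ‖a‖ ≤ 1 → ‖b‖ ≤ 1 → r (a + b) = r a + r b ∧ r (a * b) = r a * r b ∧ r (-a) = r a := by
  choose! r hr using fun (a : ℚ_[2]) (h : ‖a‖ ≤ 1) => LC.ex h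
  have h : ∀ (a : ℚ_[2]) (s : ZMod 2), ‖a - s.val‖ ≤ 2⁻¹ → r a = s :=
    fun a s e => LC.uniq (hr a (LC.le e)) e
  exact ⟨r, hr, h, fun a b ha hb => ⟨h _ _ (LC.r_add (hr a ha) (hr b hb)),
    h _ _ (LC.r_mul (hr a ha) (hr b hb)), h _ _ (LC.r_neg (hr a ha))⟩⟩

theorem dt_norm (u v : V2) : ‖dt u v‖ ≤ ‖u‖ * ‖v‖ :=
  LC.sub (LC.mul (norm_le_pi_norm u 0) (norm_le_pi_norm v 1))
    (LC.mul (norm_le_pi_norm u 1) (norm_le_pi_norm v 0))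

theorem dt_add_left (u u' v : V2) : dt (u + u') v = dt u v + dt u' v := by
  simp only [dt, Pi.add_apply]; ring

theorem dt_add_right (u v v' : V2) : dt u (v + v') = dt u v + dt u v' := by
  simp only [dt, Pi.add_apply]; ring

theorem dt_sub_left (u u' v : V2) : dt (u - u') v = dt u v - dt u' v := by
  simp only [dt, Pi.sub_apply]; ring

theorem dt_sub_right (u v v' : V2) : dt u (v - v') = dt u v - dt u v' := by
  simp only [dt, Pi.sub_apply]; ring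

theorem LC.mv (B : Mt) (v : V2) (j : Fin 2) : (B *ᵥ v) j = B j 0 * v 0 + B j 1 * v 1 := by
  simp [Matrix.mulVec, dotProduct, Fin.sum_univ_two]

theorem LC.mv_le {B : Mt} {ε : ℝ} (h : ∀ i j, ‖B i j‖ ≤ ε) (v : V2) : ‖B *ᵥ v‖ ≤ ε * ‖v‖ :=
  mv_rat B v ▸ SelA.mv_le h v

theorem Tate.dt_rd (T : Tate w) (δ : Om) (g : GQ) (u v : V2) :
    dt (T.rd δ g *ᵥ u) (T.rd δ g *ᵥ v) = cq g * dt u v := by
  rw [← T.det g, Matrix.det_fin_two]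
  rcases sd_cases δ g with h | h <;> simp only [dt, LC.mv, Tate.rd, h, Matrix.smul_apply,
    smul_eq_mul] <;> push_cast <;> ring

theorem LC.cq1 (g : GQ) : ‖cq g - 1‖ ≤ 2⁻¹ := by
  have h : ‖cq g‖ = 1 := (PadicInt.isUnit_iff (p := 2)).1 (cyc g).isUnit
  obtain ⟨s, e⟩ := LC.ex h.le
  rcases LC.cases s with rfl | rfl
  · norm_num [h] at e
  · simpa [LC.v1] using e

theorem LC.dec (T : Tate w) (δ : Om) (g : GQ) (v : V2) :
    ‖T.rd δ g *ᵥ v - ![sd δ g * cq g * v 0, sd δ g * v 1]‖ ≤ 4⁻¹ * ‖v‖ := by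
  have e : T.rd δ g *ᵥ v - ![sd δ g * cq g * v 0, sd δ g * v 1] =
      (sd δ g : ℚ_[2]) • ((T.rho g - !![cq g, 0; 0, 1]) *ᵥ v) := by
    funext j
    fin_cases j <;> simp [Tate.rd] <;> ring
  rw [e, norm_smul]
  exact (mul_le_of_le_one_left (norm_nonneg _) (Padic.norm_int_le_one _)).trans
    (LC.mv_le (T.four g) v)

theorem LC.pi {a b : ℚ_[2]} {ε : ℝ} (ha : ‖a‖ ≤ ε) (hb : ‖b‖ ≤ ε) {v : V2} (h0 : v 0 = a)
    (h1 : v 1 = b) : ‖v‖ ≤ ε :=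
  (pi_norm_le_iff_of_nonneg ((norm_nonneg _).trans ha)).2 fun j => by
    fin_cases j
    exacts [h0 ▸ ha, h1 ▸ hb]

theorem Tate.rd_norm (T : Tate w) (δ : Om) (g : GQ) (v : V2) :
    ‖T.rd δ g *ᵥ v‖ ≤ ‖v‖ ∧ ‖T.rd δ g *ᵥ v - v‖ ≤ 2⁻¹ * ‖v‖ := by
  refine ⟨by simpa using LC.mv_le (SelA.rd_le T δ g) v, ?_⟩
  have h1 : ‖(sd δ g : ℚ_[2]) - 1‖ ≤ 2⁻¹ := by
    rcases sd_cases δ g with h | h <;> rw [h]
    · simp
    · rw [show ((-1 : ℤ) : ℚ_[2]) - 1 = -2 by norm_num, norm_neg, SelA.two]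
  have h2 : ‖(sd δ g : ℚ_[2]) * cq g - 1‖ ≤ 2⁻¹ := by
    rw [show (sd δ g : ℚ_[2]) * cq g - 1 = sd δ g * (cq g - 1) + (sd δ g - 1) by ring]
    exact SelA.add (LC.mul_l (Padic.norm_int_le_one _) (LC.cq1 g)) h1
  rw [← sub_add_sub_cancel _ ![sd δ g * cq g * v 0, sd δ g * v 1]]
  refine SelA.add ((LC.dec T δ g v).trans (by gcongr; norm_num))
    (LC.pi (LC.mul h2 (norm_le_pi_norm v 0)) (LC.mul h1 (norm_le_pi_norm v 1)) ?_ ?_) <;>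
    simp [sub_mul]

/-- the twisted representation modulo four -/
theorem Tate.rd_four (hE : EC) (T : Tate w) {m : ℤ} (h : δ ^ 2 = m) (hm : m ≠ 0) (g : GQ) (v : V2) :
    ‖T.rd δ g *ᵥ v - ![(-1) ^ (qz (-m) g).val * v 0, (-1) ^ (qz m g).val * v 1]‖ ≤ 4⁻¹ * ‖v‖ := by
  rw [← sub_add_sub_cancel _ ![sd δ g * cq g * v 0, sd δ g * v 1]]
  refine SelA.add (LC.dec T δ g v) (LC.pi (LC.mul (LC.mul_l (Padic.norm_int_le_one (sd δ g))
    (cq_qz hE g)) (norm_le_pi_norm v 0)) (b := 0) (by rw [norm_zero]; positivity) ?_ ?_)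
  · rw [← neg_one_mul m, qz_mul (by simp) hm, sd_eq_qz h, Pi.add_apply, LC.e_add]
    simp only [Pi.sub_apply, Matrix.cons_val_zero]
    push_cast
    ring
  · simp [sd_eq_qz h]

theorem Tate.bd_mul (T : Tate w) (hδ : Fix ⊤ (δ ^ 2)) (u : V2) (g h : GQ) :
    T.bd δ u (g * h) = T.bd δ u g + T.rd δ g *ᵥ T.bd δ u h := by
  simp only [Tate.bd, T.rd_mul hδ, Matrix.mulVec_sub, Matrix.mulVec_mulVec]
  abel

theorem LC.rd {v : V2} {ε : ℝ} (T : Tate w) (δ : Om) (g : GQ) (h : ‖v‖ ≤ ε) :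
    ‖T.rd δ g *ᵥ v‖ ≤ ε := (T.rd_norm δ g v).1.trans h

theorem LC.sm (T : Tate w) (δ : Om) {ε : ℝ} (hε : 0 < ε) (B : ℝ) :
    ∃ N, ON N ∧ ∀ n ∈ N, ∀ v : V2, ‖v‖ ≤ B → ‖T.rd δ n *ᵥ v - v‖ ≤ ε := by
  obtain ⟨N, hN, e⟩ := SelA.rd_sm T δ (ε := ε / (|B| + 1)) (by positivity)
  refine ⟨N, hN, fun n hn v hv => ?_⟩
  have := LC.mv_le (e n hn) v
  rw [Matrix.sub_mulVec, Matrix.one_mulVec] at this
  refine this.trans ?_
  rw [div_mul_eq_mul_div, div_le_iff₀ (by positivity)]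
  gcongr
  linarith [le_abs_self B]

theorem Tate.zc_bd (T : Tate w) (hδ : Fix ⊤ (δ ^ 2)) {u : V2} (h : ∀ g ∈ H, ‖T.bd δ u g‖ ≤ 1)
    (i : ℕ) : T.Zc δ H i (T.bd δ u) := by
  obtain ⟨N, hN, e⟩ := LC.sm T δ (ε := (2 ^ i)⁻¹) (by positivity) ‖u‖
  refine ⟨⟨N, hN, fun g _ n _ m => ?_⟩, h, fun g _ k _ => ?_⟩
  · rw [T.bd_mul hδ, add_sub_cancel_left]
    exact LC.rd T δ g (e n m u le_rfl)
  · rw [T.bd_mul hδ, add_sub_cancel_left, sub_self, norm_zero]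
    positivity

theorem LC.anti {i j : ℕ} (h : j ≤ i) : ((2 : ℝ) ^ i)⁻¹ ≤ (2 ^ j)⁻¹ := by
  gcongr
  norm_num

theorem Tate.Zc.mono (h : T.Zc δ H i c) (h' : H' ≤ H) {j : ℕ} (hj : j ≤ i) : T.Zc δ H' j c := by
  obtain ⟨N, hN, e⟩ := h.sm
  exact ⟨⟨N, hN, fun g hg n hn m => (e g (h' hg) n (h' hn) m).trans (LC.anti hj)⟩,
    fun g hg => h.int g (h' hg), fun g hg k hk => (h.co g (h' hg) k (h' hk)).trans (LC.anti hj)⟩

theorem Tate.Zc.congr (h : T.Zc δ H i c) (e : ∀ g ∈ H, ‖c' g - c g‖ ≤ (2 ^ i)⁻¹) :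
    T.Zc δ H i c' := by
  obtain ⟨N, hN, e'⟩ := h.sm
  refine ⟨⟨N, hN, fun g hg n hn m => ?_⟩, fun g hg => ?_, fun g hg k hk => ?_⟩
  · rw [show c' (g * n) - c' g = c' (g * n) - c (g * n) + (c (g * n) - c g) - (c' g - c g) by abel]
    exact LC.sub (SelA.add (e _ (H.mul_mem hg hn)) (e' g hg n hn m)) (e g hg)
  · rw [← sub_add_cancel (c' g) (c g)]
    exact SelA.add ((e g hg).trans (by simpa using LC.anti i.zero_le)) (h.int g hg)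
  · rw [show c' (g * k) - c' g - T.rd δ g *ᵥ c' k = c' (g * k) - c (g * k) - (c' g - c g) -
      T.rd δ g *ᵥ (c' k - c k) + (c (g * k) - c g - T.rd δ g *ᵥ c k) by
        rw [Matrix.mulVec_sub]; abel]
    exact SelA.add (LC.sub (LC.sub (e _ (H.mul_mem hg hk)) (e g hg)) (LC.rd T δ g (e k hk)))
      (h.co g hg k hk)

theorem Tate.Zc.add (h : T.Zc δ H i c) (h' : T.Zc δ H i c') : T.Zc δ H i (c + c') := by
  obtain ⟨N, hN, e⟩ := h.sm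
  obtain ⟨N', hN', e'⟩ := h'.sm
  refine ⟨⟨_, hN.inf hN', fun g hg n hn m => ?_⟩, fun g hg => SelA.add (h.int g hg) (h'.int g hg),
    fun g hg k hk => ?_⟩
  · rw [Pi.add_apply, Pi.add_apply, add_sub_add_comm]
    exact SelA.add (e g hg n hn m.1) (e' g hg n hn m.2)
  · rw [Pi.add_apply, Pi.add_apply, Pi.add_apply, Matrix.mulVec_add, add_sub_add_comm,
      add_sub_add_comm]
    exact SelA.add (h.co g hg k hk) (h'.co g hg k hk)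

theorem LC.smul (h : T.Zc δ H i c) (a : ℚ_[2]) {j : ℕ} (ha : ‖a‖ * (2 ^ i)⁻¹ ≤ (2 ^ j)⁻¹)
    (hc : ∀ g ∈ H, ‖a • c g‖ ≤ 1) : T.Zc δ H j fun g => a • c g := by
  obtain ⟨N, hN, e⟩ := h.sm
  refine ⟨⟨N, hN, fun g hg n hn m => ?_⟩, hc, fun g hg k hk => ?_⟩
  · rw [← smul_sub, norm_smul]
    exact le_trans (by gcongr; exact e g hg n hn m) ha
  · rw [Matrix.mulVec_smul, ← smul_sub, ← smul_sub, norm_smul]
    exact le_trans (by gcongr; exact h.co g hg k hk) ha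

theorem Tate.Zc.sub (h : T.Zc δ H i c) (h' : T.Zc δ H i c') : T.Zc δ H i (c - c') := by
  have := h.add (LC.smul h' (-1) (j := i) (by simp) fun g hg => by simpa using h'.int g hg)
  refine this.congr fun g _ => ?_
  simp [sub_eq_add_neg]

theorem Tate.Zc.one (h : T.Zc δ H i c) : ‖c 1‖ ≤ (2 ^ i)⁻¹ := by
  simpa [SelA.rd_fix T (show (1 : GQ) δ = δ from rfl)] using h.co 1 H.one_mem 1 H.one_mem

theorem LC.near {a b : ℚ_[2]} {s : ZMod 2} (h : ‖a - b‖ ≤ 2⁻¹) (h' : ‖b - s.val‖ ≤ 2⁻¹) :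
    ‖a - s.val‖ ≤ 2⁻¹ := by simpa using SelA.add h h'

theorem Tate.Zc.exists_lf (h : T.Zc δ H 1 c) : ∃ x, IsCh H x ∧ Lf H x c := by
  obtain ⟨r, h1, h2, -⟩ := exists_red
  obtain ⟨N, hN, e⟩ := h.sm
  have l : Lf H (fun g j => r (c g j)) c := fun g hg j =>
    h1 _ ((norm_le_pi_norm _ j).trans (h.int g hg))
  refine ⟨_, ⟨⟨N, hN, fun g hg n hn m => funext fun j => h2 _ _ (LC.near ?_ (l g hg j))⟩,
    fun g hg k hk => funext fun j => h2 _ _ (LC.near ?_ (LC.r_add (l g hg j) (l k hk j)))⟩, l⟩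
  · simpa using (norm_le_pi_norm _ j).trans (e g hg n hn m)
  · have h3 := SelA.add ((h.co g hg k hk).trans (by norm_num)) ((T.rd_norm δ g (c k)).2.trans
      (mul_le_of_le_one_right (by norm_num) (h.int k hk)))
    rw [sub_add_sub_cancel, sub_sub] at h3
    exact (norm_le_pi_norm _ j).trans h3

/-- the difference of two lifts -/
theorem Tate.Zc.half (h : T.Zc δ H 2 c) (h' : T.Zc δ H 2 c') (e : Lf H x c) (e' : Lf H x c') :
    ∃ z, IsCh H z ∧ Lf H z fun g => (2⁻¹ : ℚ_[2]) • (c g - c' g) := by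
  have n : ‖(2⁻¹ : ℚ_[2])‖ = 2 := by rw [norm_inv, SelA.two, inv_inv]
  refine (LC.smul (h.sub h') 2⁻¹ (by rw [n]; norm_num) fun g hg => ?_).exists_lf
  have : ‖(c - c') g‖ ≤ 2⁻¹ := (pi_norm_le_iff_of_nonneg (by norm_num)).2 fun j => by
    simpa using LC.sub (e g hg j) (e' g hg j)
  rw [norm_smul, n]
  linarith

theorem Lf.unique (h : Lf H x c) (h' : Lf H y c) {g : GQ} (hg : g ∈ H) : x g = y g :=
  funext fun j => LC.uniq (h g hg j) (h' g hg j)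

theorem Lf.zero_iff (h : Lf H x c) {g : GQ} (hg : g ∈ H) (j : Fin 2) :
    x g j = 0 ↔ ‖c g j‖ ≤ 2⁻¹ :=
  ⟨fun e => by simpa [e] using h g hg j, fun e => LC.uniq (h g hg j) (by simpa using e)⟩

theorem ec_dt (hE : EC) {u v : V2} {a b : Fin 2 → ZMod 2} (hu : ∀ j, ‖u j - (a j).val‖ ≤ 2⁻¹)
    (hv : ∀ j, ‖v j - (b j).val‖ ≤ 2⁻¹) : ec (dt u v / 2) = (-1) ^ (a 0 * b 1 + a 1 * b 0).val := by
  refine ec_half hE ?_
  rw [dt, sub_eq_add_neg (u 0 * v 1)]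
  exact LC.r_add (LC.r_mul (hu 0) (hv 1)) (LC.r_neg (LC.r_mul (hu 1) (hv 0)))

theorem LC.ec4 (hE : EC) {a b : ℚ_[2]} (h : ‖a - b‖ ≤ 4⁻¹) : ec (a / 4) = ec (b / 4) :=
  ec_congr hE (by rw [← sub_div, LC.four]; linarith)

theorem LC.dt_l {u v : V2} {ε : ℝ} (hu : ‖u‖ ≤ ε) (hv : ‖v‖ ≤ 1) : ‖dt u v‖ ≤ ε :=
  (dt_norm u v).trans ((mul_le_of_le_one_right (norm_nonneg _) hv).trans hu)

theorem LC.dt_r {u v : V2} {ε : ℝ} (hu : ‖u‖ ≤ 1) (hv : ‖v‖ ≤ ε) : ‖dt u v‖ ≤ ε :=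
  (dt_norm u v).trans ((mul_le_of_le_one_left (norm_nonneg _) hu).trans hv)

theorem Tate.co2_wp (hE : EC) (hδ : Fix ⊤ (δ ^ 2)) (h : T.Zc δ H 2 c) (h' : T.Zc δ H 2 c') :
    Co2T H (T.wp δ c c') := by
  have q : ((2 : ℝ) ^ 2)⁻¹ = 4⁻¹ := by norm_num
  have p : ∀ g ∈ H, ∀ k ∈ H, T.wp δ c c' g k ^ 2 ^ 2 = 1 := fun g hg k hk => by
    rw [Tate.wp, sq, pow_mul, sq, sq, ← hE.1.add, ← hE.1.add, hE.1.eq_one]
    rw [show ∀ a : ℚ_[2], a / 4 + a / 4 + (a / 4 + a / 4) = a from fun a => by ring]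
    exact LC.dt_l (h.int g hg) (LC.rd T δ g (h'.int k hk))
  refine Co2T.of_pow ⟨fun g hg k hk e => by simpa [e] using p g hg k hk, ?_,
    fun g hg k hk l hl => ?_⟩ p
  · obtain ⟨N, hN, e⟩ := h.sm
    obtain ⟨N', hN', e'⟩ := h'.sm
    obtain ⟨M, hM, e''⟩ := LC.sm T δ (ε := 4⁻¹) (by norm_num) 1
    refine ⟨_, hM.inf (hN.inf hN'), fun g hg k hk n hn m => ⟨LC.ec4 hE ?_, LC.ec4 hE ?_⟩⟩
    · rw [← sub_add_sub_cancel _ (dt (c (g * n)) (T.rd δ g *ᵥ c' k)), ← dt_sub_right,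
        ← dt_sub_left, T.rd_mul hδ, ← Matrix.mulVec_mulVec, ← Matrix.mulVec_sub]
      exact SelA.add (LC.dt_r (h.int _ (H.mul_mem hg hn)) (LC.rd T δ g (e'' n m.1 _ (h'.int k hk))))
        (LC.dt_l (q ▸ e g hg n hn m.2.1) (LC.rd T δ g (h'.int k hk)))
    · rw [← dt_sub_right, ← Matrix.mulVec_sub]
      exact LC.dt_r (h.int g hg) (LC.rd T δ g (q ▸ e' k hk n hn m.2.2))
  · simp only [Tate.wp]
    rw [hE.1.gal, ← hE.1.add, ← hE.1.add, ← mul_div_assoc, ← add_div, ← add_div]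
    refine LC.ec4 hE ?_
    have h1 := LC.sub (LC.dt_r (h.int g hg) (LC.rd T δ g (q ▸ h'.co k hk l hl)))
      (LC.dt_l (q ▸ h.co g hg k hk) (LC.rd T δ g (LC.rd T δ k (h'.int l hl))))
    rw [Matrix.mulVec_sub, Matrix.mulVec_sub, dt_sub_right, dt_sub_right, dt_sub_left, dt_sub_left,
      T.dt_rd] at h1
    rw [T.rd_mul hδ, ← Matrix.mulVec_mulVec]
    refine le_of_eq_of_le (congrArg _ ?_) h1
    rw [cq]
    ring

/-- addition modulo four -/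
theorem LC.key (a b e s t u v : ZMod 2) : ‖((e.val + 2 * v.val : ℚ_[2]) - (a.val + 2 * t.val)) -
    (-1) ^ s.val * (b.val + 2 * u.val)‖ ≤ 4⁻¹ ↔ e = a + b ∧ v = t + u + (a + s) * b := by
  have := LC.int4 (((e.val + 2 * v.val) - (a.val + 2 * t.val)) - (-1) ^ s.val * (b.val + 2 * u.val))
  push_cast at this
  rw [this]
  clear this
  revert a b e s t u v
  decide

theorem LC.bd {a : GQ → ℚ_[2]} {s : GQ → ZMod 2}
    (h1 : ∃ N, ON N ∧ ∀ g ∈ H, ∀ n ∈ H, n ∈ N → ‖a (g * n) - a g‖ ≤ 4⁻¹)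
    (h2 : ∀ g ∈ H, ∀ k ∈ H, ‖a (g * k) - a g - (-1) ^ (s g).val * a k‖ ≤ 4⁻¹)
    (h3 : ∀ g ∈ H, ‖a g - (α g).val‖ ≤ 2⁻¹) : ∃ θ, Bd H (fun g k => (α g + s g) * α k) θ := by
  have e : ∀ g ∈ H, ∃ t : ZMod 2, ‖a g - ((α g).val + 2 * t.val)‖ ≤ 4⁻¹ := fun g hg => by
    obtain ⟨t, ht⟩ := LC.ex (a := (a g - (α g).val) / 2) (by rw [LC.half]; linarith [h3 g hg])
    have := LC.mul SelA.two.le ht
    refine ⟨t, le_of_eq_of_le (congrArg _ (by ring)) (this.trans (by norm_num))⟩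
  choose! θ e using e
  obtain ⟨N, hN, h1⟩ := h1
  refine ⟨θ, ⟨N, hN, fun g hg n hn m => ?_⟩, fun g hg k hk => ((LC.key _ _ (α (g * k)) _ _ _ _).1 ?_).2⟩
  · have := ((LC.key (α g) 0 (α (g * n)) 0 (θ g) 0 (θ (g * n))).1 ?_).2
    · simpa using this
    refine le_of_eq_of_le (congrArg _ ?_)
      (SelA.add (LC.sub (h1 g hg n hn m) (e _ (H.mul_mem hg hn))) (e g hg))
    simp only [ZMod.val_zero]
    push_cast
    ring
  · refine le_of_eq_of_le (congrArg _ ?_) (SelA.add (SelA.add (LC.sub (h2 g hg k hk)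
      (e _ (H.mul_mem hg hk))) (e g hg)) (LC.mul_l (a := (-1) ^ (s g).val) (by simp) (e k hk)))
    ring

theorem LC.four' (hE : EC) (T : Tate w) {m : ℤ} (h : δ ^ 2 = m) (hm : m ≠ 0) (g : GQ) {v : V2}
    (hv : ‖v‖ ≤ 1) :
    ‖T.rd δ g *ᵥ v - ![(-1) ^ (qz (-m) g).val * v 0, (-1) ^ (qz m g).val * v 1]‖ ≤ 4⁻¹ :=
  (T.rd_four hE h hm g v).trans (mul_le_of_le_one_right (by norm_num) hv)

/-- the obstruction to lifting a pair of characters -/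
theorem Tate.Zc.bd_of (hE : EC) {m : ℤ} (hδ : δ ^ 2 = m) (hm : m ≠ 0) (h : T.Zc δ H 2 c)
    (e : Lf H x c) : (∃ θ, Bd H (fun g k => (x g 0 + qz (-m) g) * x k 0) θ) ∧
      ∃ θ, Bd H (fun g k => (x g 1 + qz m g) * x k 1) θ := by
  have q : ((2 : ℝ) ^ 2)⁻¹ = 4⁻¹ := by norm_num
  obtain ⟨N, hN, h1⟩ := h.sm
  have h2 := fun g hg k hk j => (norm_le_pi_norm _ j).trans ((congrArg _ (sub_add_sub_cancel _ _ _)
    ).symm.trans_le (SelA.add (q ▸ h.co g hg k hk) (LC.four' hE T hδ hm g (h.int k hk))))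
  have h3 := fun g hg n hn m j => (norm_le_pi_norm _ j).trans (q ▸ h1 g hg n hn m)
  exact ⟨LC.bd (a := fun g => c g 0) ⟨N, hN, fun g hg n hn m => h3 g hg n hn m 0⟩
      (fun g hg k hk => h2 g hg k hk 0) fun g hg => e g hg 0,
    LC.bd (a := fun g => c g 1) ⟨N, hN, fun g hg n hn m => h3 g hg n hn m 1⟩
      (fun g hg k hk => h2 g hg k hk 1) fun g hg => e g hg 1⟩

theorem Tate.zc_of_bd (hE : EC) (T : Tate w) {m : ℤ} (hδ : δ ^ 2 = m) (hm : m ≠ 0) (hx : IsCh H x)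
    {θ' : GQ → ZMod 2} (h : Bd H (fun g k => (x g 0 + qz (-m) g) * x k 0) θ)
    (h' : Bd H (fun g k => (x g 1 + qz m g) * x k 1) θ') : T.Zc δ H 2 fun g =>
      ![((x g 0).val : ℚ_[2]) + 2 * (θ g).val, ((x g 1).val : ℚ_[2]) + 2 * (θ' g).val] := by
  have n : ∀ a b : ℕ, ‖(a : ℚ_[2]) + 2 * b‖ ≤ 1 := fun a b => by exact_mod_cast LC.nat_le (a + 2 * b)
  have n' : ∀ g, ‖(![((x g 0).val : ℚ_[2]) + 2 * (θ g).val,
      ((x g 1).val : ℚ_[2]) + 2 * (θ' g).val] : V2)‖ ≤ 1 := fun g => LC.pi (n _ _) (n _ _) rfl rfl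
  obtain ⟨N, hN, e⟩ := (hx.1.comp₂ (h.1.comp₂ h'.1 Prod.mk) fun a b =>
    (![((a 0).val : ℚ_[2]) + 2 * b.1.val, ((a 1).val : ℚ_[2]) + 2 * b.2.val] : V2))
  refine ⟨⟨N, hN, fun g hg k hk m => ?_⟩, fun g _ => n' g, fun g hg k hk => ?_⟩
  · rw [sub_eq_zero.2 (e g hg k hk m), norm_zero]
    positivity
  · rw [show ((2 : ℝ) ^ 2)⁻¹ = 4⁻¹ by norm_num]
    have h1 := LC.four' hE T hδ hm g (n' k)
    rw [norm_sub_rev] at h1
    rw [← sub_add_sub_cancel]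
    exact SelA.add (LC.pi ((LC.key _ _ _ _ _ _ _).2 ⟨congrFun (hx.2 g hg k hk) 0, h.2 g hg k hk⟩)
      ((LC.key _ _ _ _ _ _ _).2 ⟨congrFun (hx.2 g hg k hk) 1, h'.2 g hg k hk⟩) rfl rfl) h1

/-- the local terms of the pairing -/
theorem pr_term (hE : EC) {b : GQ → V2} {z : X2} (e : Lf H z fun g => (2⁻¹ : ℚ_[2]) • (c g - b g))
    (y : X2) {g : GQ} (hg : g ∈ H) (h : GQ) :
    ec (dt (c g - b g) (fun j => ((y h j).val : ℚ_[2])) / 4) = sgn (d2 z y) g h := by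
  refine Eq.trans (congrArg _ ?_) (ec_dt hE (e g hg) (v := fun j => ((y h j).val : ℚ_[2]))
    (b := y h) fun j => by simp)
  simp only [dt, Pi.smul_apply, smul_eq_mul]
  ring

end Pool.Agent.P.MP_8b7eba_nt.R2
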