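import Pool.Agent.P.MP_8b7eba_nt.R2.IfA
import Pool.Agent.P.MP_8b7eba_nt.R2.Nrm

/-! Proof of ABHN. -/

namespace Pool.Agent.P.MP_8b7eba_nt.R2

open scoped NNReal ComplexConjugate

namespace TABHN

theorem chain (hGAL : GAL) (hSYM : SYM) (hHASSE : HASSE) {U : Subgroup GQ} {f : GQ → GQ → Om}
    (hT : TC U) (hf : Co2 U f) (hl : ∀ w : Pl, Triv (w.D ⊓ U) f) {P Q : Subgroup GQ}
    (h : Ch2 P Q) (hP : P ≤ U) (hQ : IsOpen (Q : Set GQ)) (hq : Triv Q f) : Triv P f := by
  induction h with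
  | refl P => exact hq
  | @step P P' Q h1 h2 h3 ih =>
    have hP' : Triv P' f := ih (h1.trans hP) hQ hq
    have o1 : IsOpen (P' : Set GQ) := open_of_le hQ h3.le
    have o2 : IsOpen (P : Set GQ) := open_of_le o1 h1
    have c2 := closed_of_open o2
    obtain ⟨β, hβ0, hβ, hg⟩ := (hGAL P c2).2.2.2.1 P' o1 h2
    have hk : IsKer P P' (qc β) := fun g => by
      constructor
      · intro hg'
        exact ⟨h1 hg', by unfold qc; rw [if_pos ((hg g (h1 hg')).1 hg')]⟩
      · rintro ⟨hgP, h0⟩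
        by_contra hn
        have e := (hg g hgP).2 hn
        have hne : g β ≠ β := by
          rw [e]
          intro h'
          apply hβ0
          linear_combination (-1 / 2 : Om) * h'
        unfold qc at h0
        rw [if_neg hne] at h0
        exact one_ne_zero h0
    obtain ⟨a, ha, ha0, -, hiff⟩ := (hSYM P P' β c2 hβ0 hβ hk).2.2.2.2 f (hf.mono hP) hP'
    refine (hiff P le_rfl c2).2 (hHASSE P a (β ^ 2) o2 (hT.mono hP) ha hβ ha0 (pow_ne_zero 2 hβ0)
      fun w => (hiff _ inf_le_right ?_).1 ((hl w).mono (inf_le_inf_left _ hP)))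
    exact (w.loc_inf o2).closed

theorem lg_one (h : IsLg lg) : lg 1 = 0 := by
  have := h.mul 1 1
  rw [one_mul] at this
  linear_combination -this

theorem lg_neg_one (h : IsLg lg) : lg (-1) = 0 := by
  have := h.mul (-1) (-1)
  rw [neg_mul_neg, one_mul, lg_one h] at this
  have h2 : (2 : ℤ_[2]) * lg (-1) = 0 := by linear_combination -this
  exact (mul_eq_zero.1 h2).resolve_left two_ne_zero

theorem ec_zero (h : IsEc ec) : ec 0 = 1 := (h.eq_one 0).2 (by simp)

theorem ec_prod (h : IsEc ec) (hl : IsLg lg) {ι : Type} (s : Finset ι) (F : ι → ℤ_[2]ˣ) (n : ℕ) :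
    ∏ i ∈ s, ec ((lg (F i) : ℚ_[2]) / 2 ^ n) = ec ((lg (∏ i ∈ s, F i) : ℚ_[2]) / 2 ^ n) := by
  classical
  induction s using Finset.induction_on with
  | empty => simp [lg_one hl, ec_zero h]
  | insert i s hi ih =>
    rw [Finset.prod_insert hi, Finset.prod_insert hi, ih, hl.mul, ← h.add, PadicInt.coe_add,
      add_div]

theorem art_prod {w : Pl} (h : IsArt w (art w)) {ι : Type} (s : Finset ι) (x : ι → Om)
    (hx : ∀ i ∈ s, Fix w.D (x i) ∧ x i ≠ 0) : art w (∏ i ∈ s, x i) = ∏ i ∈ s, art w (x i) := by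
  classical
  induction s using Finset.induction_on with
  | empty =>
    have := h.mul 1 1 fix_one fix_one one_ne_zero one_ne_zero
    rw [one_mul] at this
    simpa using this
  | insert i s hi ih =>
    have h1 : ∀ j ∈ s, Fix w.D (x j) ∧ x j ≠ 0 := fun j hj => hx j (Finset.mem_insert_of_mem hj)
    have h2 := hx i (Finset.mem_insert_self i s)
    rw [Finset.prod_insert hi, Finset.prod_insert hi, ← ih h1]
    exact h.mul _ _ h2.1 (Fix.prod fun j hj => (h1 j hj).1) h2.2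
      (Finset.prod_ne_zero_iff.2 fun j hj => (h1 j hj).2)

theorem fix_smul {w : Pl} {x : Om} (hx : Fix w.D x) (σ : GQ) : Fix (σ • w).D (σ x) := by
  intro g hg
  have h1 := hx _ (Pl.mem_D_smul.1 hg)
  have h2 : g (σ x) = σ ((σ⁻¹ * g * σ) x) := (σ.apply_symm_apply _).symm
  rw [h2, h1]

/-- extension of a system of representatives -/
theorem extend (hORB : ORB) {U : Subgroup GQ} (hU : IsOpen (U : Set GQ)) {R : Finset Pl}
    (hR : Sep U R) (P : Finset ℕ) (hP : ∀ w ∈ R, w.p ∈ P) :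
    ∃ R' : Finset Pl, R ⊆ R' ∧ Sep U R' ∧ (∀ w ∈ R', w ∉ R → Out U R w) ∧
      ∀ w, Out U R' w ↔ w.p ∉ P := by
  classical
  obtain ⟨R₁, h1, h2⟩ := (hORB U hU).2.1 P
  refine ⟨R ∪ R₁.filter (Out U R), Finset.subset_union_left, ?_, ?_, ?_⟩
  · intro w hw u hu huw
    rw [Finset.mem_coe, Finset.mem_union, Finset.mem_filter] at hw huw
    rcases hw with hw | hw <;> rcases huw with huw | huw
    · exact hR w hw u hu huw
    · exact absurd (show u⁻¹ • u • w ∈ (R : Set Pl) by rw [inv_smul_smul]; exact hw)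
        (huw.2 _ (U.inv_mem hu))
    · exact absurd huw (hw.2 u hu)
    · exact h1 w hw.1 u hu huw.1
  · intro w hw hn
    rw [Finset.mem_union, Finset.mem_filter] at hw
    exact (hw.resolve_left hn).2
  · intro w
    constructor
    · intro ho hp
      have h3 : ¬ Out U R₁ w := fun h => (h2 w).1 h hp
      unfold Out at h3
      push Not at h3
      obtain ⟨u, hu, huw⟩ := h3
      by_cases h4 : Out U R (u • w)
      · exact ho u hu (Finset.mem_union_right _ (Finset.mem_filter.2 ⟨huw, h4⟩))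
      · unfold Out at h4
        push Not at h4
        obtain ⟨u', hu', h5⟩ := h4
        rw [smul_smul] at h5
        exact ho _ (U.mul_mem hu' hu) (Finset.mem_union_left _ h5)
    · intro hp u hu huw
      rw [Finset.mem_coe, Finset.mem_union, Finset.mem_filter] at huw
      rcases huw with huw | huw
      · exact hp (hP (u • w) huw)
      · exact (h2 w).2 hp u hu huw.1

/-- the product formula for the Artin maps over a number field -/
theorem art_formula (hPL : PL) (hART : ART) (hORB : ORB) {U : Subgroup GQ}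
    (hU : IsOpen (U : Set GQ)) {a : Om} (ha : Fix U a) (ha0 : a ≠ 0) (P : Finset ℕ) (h2 : 2 ∈ P)
    (hP : ∀ w : Pl, w.p ∉ P → w.v a = 1) {R : Finset Pl} (hR : Sep U R)
    (hO : ∀ w, Out U R w ↔ w.p ∉ P) :
    ∏ w ∈ R, art w (nrm w.D (w.D ⊓ U) a) = 1 ∨ ∏ w ∈ R, art w (nrm w.D (w.D ⊓ U) a) = -1 := by
  classical
  have hi : U.relIndex ⊤ ≠ 0 := relIndex_ne_zero hU ⊤
  obtain ⟨q, hq⟩ := (Fix.nrm hi ha).rat
  have hq0 : q ≠ 0 := by
    rintro rfl
    exact ha0 ((nrm_eq_zero hi).1 (by rw [hq, Rat.cast_zero]))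
  obtain ⟨R₀, hs, ho⟩ := (hORB ⊤ (by simp)).2.1 P
  have hex : ∀ w : Pl, w.p ∈ P → ∃ w₀ ∈ R₀, w₀.p = w.p := fun w hw => by
    have h3 : ¬ Out ⊤ R₀ w := fun h => (ho w).1 h hw
    unfold Out at h3
    push Not at h3
    obtain ⟨u, -, hu⟩ := h3
    exact ⟨u • w, hu, rfl⟩
  have hmem : ∀ w ∈ R₀, w.p ∈ P := fun w hw => by
    by_contra hn
    exact (ho w).2 hn 1 (Subgroup.mem_top _) (by rw [one_smul]; exact hw)
  have hA := hART.2.2.2 q R₀ hq0 hs (by
    obtain ⟨w, hw⟩ := hPL.1 2 Nat.prime_two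
    obtain ⟨w₀, h1, h3⟩ := hex w (hw ▸ h2)
    exact ⟨w₀, h1, h3.trans hw⟩) (fun w hw => by
    obtain ⟨s, -, s1, s2, s3⟩ := exists_reps hi
    rw [← hq, nrm_eq_prod s id ha s1 s2 s3, map_prod]
    refine Finset.prod_eq_one fun σ _ => ?_
    have h3 := hP (σ⁻¹ • w) ((ho w).1 hw)
    rw [Pl.smul_v, inv_inv] at h3
    exact h3)
  have hx : ∀ w : Pl, Fix w.D (nrm w.D (w.D ⊓ U) a) ∧ nrm w.D (w.D ⊓ U) a ≠ 0 := fun w =>
    have h3 : (w.D ⊓ U).relIndex w.D ≠ 0 := (w.loc_inf hU).relIndex_ne le_rfl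
    ⟨Fix.nrm h3 (ha.mono inf_le_right), fun h => ha0 ((nrm_eq_zero h3).1 h)⟩
  have key : ∀ w₀ ∈ R₀, art w₀ q =
      ∏ w ∈ R, if w.p = w₀.p then art w (nrm w.D (w.D ⊓ U) a) else 1 := by
    intro w₀ hw₀
    have hs' : ∀ w : Pl, ∃ σ : GQ, w.p = w₀.p → σ • w = w₀ := fun w => by
      by_cases h : w.p = w₀.p
      · obtain ⟨σ, hσ⟩ := hPL.2.1 w w₀ h
        exact ⟨σ, fun _ => hσ⟩
      · exact ⟨1, fun h' => absurd h' h⟩
    choose s hs' using hs'
    have hm : ∀ w ∈ R.filter fun w => w.p = w₀.p, s w • w = w₀ := fun w hw =>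
      hs' w (Finset.mem_filter.1 hw).2
    have h3 := ((hORB U hU).2.2 w₀ (R.filter fun w => w.p = w₀.p) s
      (fun w hw u hu huw => hR w (Finset.mem_filter.1 hw).1 u hu (Finset.mem_filter.1 huw).1)
      (fun w => by
        constructor
        · intro h hp
          have h4 : ¬ Out U R w := fun h' => (hO w).1 h' (hp ▸ hmem w₀ hw₀)
          unfold Out at h4
          push Not at h4
          obtain ⟨u, hu, huw⟩ := h4
          exact h u hu (Finset.mem_filter.2 ⟨huw, hp⟩)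
        · intro hp u _ huw
          exact hp (Finset.mem_filter.1 huw).2) hm).2 a ha
    rw [← hq, h3, art_prod (hART.1 w₀) _ _ (fun w hw => ⟨by
      have := fix_smul (hx w).1 (s w)
      rwa [hm w hw] at this, (map_ne_zero _).2 (hx w).2⟩), ← Finset.prod_filter]
    refine Finset.prod_congr rfl fun w hw => ?_
    have := hART.2.1 w (s w) _ (hx w).1 (hx w).2
    rwa [hm w hw] at this
  have h5 : ∏ w₀ ∈ R₀, art w₀ q = ∏ w ∈ R, art w (nrm w.D (w.D ⊓ U) a) := by
    rw [Finset.prod_congr rfl key, Finset.prod_comm]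
    refine Finset.prod_congr rfl fun w hw => ?_
    have hp : w.p ∈ P := by
      by_contra hn
      exact (hO w).2 hn 1 U.one_mem (by rw [one_smul]; exact hw)
    obtain ⟨w₀, h6, h7⟩ := hex w hp
    rw [Finset.prod_eq_single w₀, if_pos h7.symm]
    · intro w₁ h8 hne
      rw [if_neg]
      intro h9
      obtain ⟨σ, hσ⟩ := hPL.2.1 w₀ w₁ (h7.trans h9)
      exact hne (hσ.symm.trans (hs w₀ h6 σ (Subgroup.mem_top _) (by rw [hσ]; exact h8)))
    · intro h
      exact absurd h6 h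
  rw [← h5, hA]
  split_ifs
  · exact Or.inl rfl
  · exact Or.inr rfl

end TABHN

open TABHN

theorem t_ABHN (hGAL : GAL) (hSYL : SYL) (hGAS : GAS) (hSYM : SYM) (hHASSE : HASSE) : ABHN := by
  intro U f hU hT hf hl
  obtain ⟨N, hN, hNf⟩ := hf.1.exists_triv
  obtain ⟨P, hP, hodd, hch⟩ := hSYL U N hN
  have o1 : IsOpen ((N ⊓ U : Subgroup GQ) : Set GQ) := hN.2.inter hU
  have h1 := chain hGAL hSYM hHASSE hT hf.1 hl hch hP o1 hNf
  exact hGAS U P f (open_of_le o1 hch.le) hodd hf (h1.mono inf_le_right)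

theorem t_REC (hPL : PL) (hEC : EC) (hLG : LG) (hART : ART) (hORB : ORB) (hCYC1 : CYC1) (hCUP : CUP)
    (hDIEK : DIEK) (hINV : INV) (hINV2 : INV2) (hABHN : ABHN) : REC := by
  intro U f R hU hT hf hR hO
  classical
  choose n₀ hn₀ using fun w : Pl =>
    hDIEK w (w.D ⊓ U) f (w.loc_inf hU) (hf.mono inf_le_right)
  obtain ⟨n, hn⟩ : ∃ n, ∀ w ∈ R, n₀ w ≤ n := ⟨R.sup n₀, fun w hw => Finset.le_sup hw⟩
  obtain ⟨hc, -, hk, hKP, -⟩ := hLG.2.2.2.1 n
  have o1 : IsOpen ((U ⊓ KP n : Subgroup GQ) : Set GQ) := hU.inter hKP.2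
  have h1 : Triv (U ⊓ KP n) f := by
    refine hABHN _ f o1 (hT.mono inf_le_left) (hf.mono inf_le_left) fun w => ?_
    by_cases h : Out U R w
    · exact (hO w h).mono (inf_le_inf_left _ inf_le_left)
    · unfold Out at h
      push Not at h
      obtain ⟨u, hu, huw⟩ := h
      have h2 := hn₀ (u • w) n (hn _ huw)
      rw [inf_assoc] at h2
      have h3 := Triv.smul_place hf.1 (V := U ⊓ KP n) inf_le_left (U.inv_mem hu)
        (fun g hg => ⟨U.mul_mem (U.mul_mem (U.inv_mem (U.inv_mem hu)) hg.1) (U.inv_mem hu), by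
          have := hKP.1.conj_mem g hg.2 u
          rwa [inv_inv]⟩) h2
      rwa [inv_smul_smul] at h3
  have hcU : IsCh U (Ps n) := hc.mono le_top
  have hm : 2 ^ n ≠ 0 := pow_ne_zero n two_ne_zero
  obtain ⟨a, ha, ha0, hfa⟩ := hCYC1 U (U ⊓ KP n) (2 ^ n) (Ps n) (closed_of_open hU) hm hcU
    (fun g => ⟨fun h => ⟨h.1, ((hk g).1 h.2).2⟩,
      fun h => ⟨h.1, (hk g).2 ⟨Subgroup.mem_top g, h.2⟩⟩⟩) f hf.1 h1
  have hco : Co2 U (cup (Ps n) a) := (hCUP U a ha ha0 _ _ hm hcU).1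
  have hsv : ∀ w : Pl, nv w (w.D ⊓ U) f = sv w (w.D ⊓ U) n a := fun w => by
    rw [hINV2.1 w _ f _ (w.loc_inf hU) (hf.mono inf_le_right) (hco.mono inf_le_right)
      (hfa.mono inf_le_right), (hINV w _ (w.loc_inf hU)).cup n a (ha.mono inf_le_right) ha0]
  obtain ⟨B, hB⟩ := hPL.2.2.2.2.2.1 a ha0
  obtain ⟨R', hsub, hR', hout, hO'⟩ := extend hORB hU hR
    (Finset.range (B + 2 + R.sup (fun w => w.p) + 1)) (fun w hw => by
      have : w.p ≤ R.sup fun w => w.p := Finset.le_sup (f := fun w : Pl => w.p) hw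
      rw [Finset.mem_range]; omega)
  have h2 := art_formula hPL hART hORB hU ha ha0 _ (by rw [Finset.mem_range]; omega)
    (fun w hw => hB w (by rw [Finset.mem_range] at hw; omega)) hR' hO'
  rw [Finset.prod_subset hsub fun w hw hn =>
    (hINV w _ (w.loc_inf hU)).triv f (hf.1.mono inf_le_right) (hO w (hout w hw hn))]
  simp only [hsv, sv]
  rw [ec_prod hEC.1 hLG.1]
  rcases h2 with h2 | h2
  · rw [h2, lg_one hLG.1]; simp [ec_zero hEC.1]
  · rw [h2, lg_neg_one hLG.1]; simp [ec_zero hEC.1]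

end Pool.Agent.P.MP_8b7eba_nt.R2
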