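import Pool.Agent.P.MP_8b7eba_nt.R2.IfA
import Pool.Agent.P.MP_8b7eba_nt.R2.Nrm

/-! Proof of CLS. -/

namespace Pool.Agent.P.MP_8b7eba_nt.R2

open scoped NNReal ComplexConjugate NumberField nonZeroDivisors
open IsDedekindDomain

namespace TCLS

/-- the ring of integers of the fixed field -/
abbrev OO (U : Subgroup GQ) : Type := 𝓞 (IntermediateField.fixedField U)

/-- its embedding in the algebraic numbers -/
noncomputable def em (U : Subgroup GQ) : OO U →+* Om :=
  (algebraMap (IntermediateField.fixedField U) Om).comp (algebraMap (OO U) _)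

variable {U : Subgroup GQ}

theorem em_fix (z : OO U) : Fix U (em U z) := fix_iff.2 (z : IntermediateField.fixedField U).2

theorem em_le (hPL : PL) (w : Pl) (z : OO U) : w.v (em U z) ≤ 1 :=
  hPL.2.2.2.1 w _ (z.isIntegral_coe.map
    (algebraMap (IntermediateField.fixedField U) Om).toIntAlgHom)

/-- the elements of value less than one -/
noncomputable def PP (hPL : PL) (U : Subgroup GQ) (w : Pl) : HeightOneSpectrum (OO U) where
  asIdeal :=
    { carrier := {x | w.v (em U x) < 1}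
      zero_mem' := by simp
      add_mem' := fun {x y} hx hy => by
        show w.v (em U (x + y)) < 1
        rw [map_add]; exact w.v.map_add_lt hx hy
      smul_mem' := fun c x hx => by
        show w.v (em U (c * x)) < 1
        rw [map_mul, map_mul]
        exact mul_lt_one_of_nonneg_of_lt_one_right (em_le hPL w c) zero_le hx }
  isPrime :=
    { ne_top' := (Ideal.ne_top_iff_one _).2 fun h => by
        have : w.v (em U 1) < 1 := h
        simp at this
      mem_or_mem' := fun {x y} h => by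
        by_contra h1
        push Not at h1
        have h2 : w.v (em U (x * y)) < 1 := h
        rw [map_mul, map_mul] at h2
        exact h2.not_ge (one_le_mul (not_lt.1 h1.1) (not_lt.1 h1.2)) }
  ne_bot := fun h => by
    have h1 : ((w.p : ℕ) : OO U) ∈ (⊥ : Ideal (OO U)) := by
      rw [← h]
      show w.v (em U _) < 1
      rw [map_natCast]; exact w.v_p_lt
    exact w.prime.ne_zero (Nat.cast_eq_zero.1 ((Submodule.mem_bot _).1 h1))

theorem one_of (hPL : PL) {w : Pl} {z : OO U} (h : z ∉ (PP hPL U w).asIdeal) :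
    w.v (em U z) = 1 := le_antisymm (em_le hPL w z) (not_lt.1 h)

theorem conj_of (hPL : PL) (hU : IsOpen (U : Set GQ)) {w w' : Pl}
    (h : (PP hPL U w).asIdeal ≤ (PP hPL U w').asIdeal) : ∃ u ∈ U, u • w = w' :=
  hPL.2.2.1 U w w' hU fun x hx hi h1 =>
    h (x := ⟨⟨x, fix_iff.1 hx⟩, (isIntegral_algHom_iff
      (algebraMap (IntermediateField.fixedField U) Om).toIntAlgHom
      (algebraMap (IntermediateField.fixedField U) Om).injective).1 hi⟩) h1

theorem mem_PP (hPL : PL) {w : Pl} {z : OO U} :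
    z ∈ (PP hPL U w).asIdeal ↔ w.v (em U z) < 1 := Iff.rfl

theorem exa (hPL : PL) (hUNIF : UNIF) (hU : IsOpen (U : Set GQ)) {w : Pl} {π : Om}
    (hπ : w.Unif (w.D ⊓ U) π) : ∃ a : OO U, w.v (em U a) = w.v π := by
  have := numberField hU
  obtain ⟨π', h1, h2, -⟩ := hUNIF w U hU
  obtain ⟨n, ⟨d, hd⟩, h | h⟩ := (PP hPL U w).exists_primeCompl_mul_eq_or_mul_eq
    (⟨π', fix_iff.1 h1⟩ : IntermediateField.fixedField U)
  · have h3 : π' * em U d = em U n := by
      have := congrArg (algebraMap (IntermediateField.fixedField U) Om) h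
      rwa [map_mul] at this
    exact ⟨n, by rw [← h3, map_mul, one_of hPL hd, mul_one, h2.v_eq hπ]⟩
  · have h3 : π' * em U n = em U d := by
      have := congrArg (algebraMap (IntermediateField.fixedField U) Om) h
      rwa [map_mul] at this
    have h4 := one_of hPL hd
    rw [← h3, map_mul] at h4
    exact absurd h4
      (mul_lt_one_of_nonneg_of_lt_one_left zero_le h2.2.2.1 (em_le hPL w n)).ne

theorem hle (hPL : PL) {w : Pl} {π : Om} (hπ : w.Unif (w.D ⊓ U) π) (k : ℕ) :
    ∀ y ∈ (PP hPL U w).asIdeal ^ k, w.v (em U y) ≤ w.v π ^ k := by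
  induction k with
  | zero => intro y _; rw [pow_zero]; exact em_le hPL w y
  | succ k ih =>
    intro y hy
    rw [pow_succ] at hy
    refine Submodule.mul_induction_on hy (fun b hb c hc => ?_) fun b c hb hc => ?_
    · rw [map_mul, map_mul, pow_succ]
      exact mul_le_mul' (ih b hb) (hπ.le ((em_fix c).mono inf_le_right) ((mem_PP hPL).1 hc))
    · rw [map_add]; exact w.v.map_add_le hb hc

theorem aux {O : Type} [CommRing O] {P J : Ideal O} {k : ℕ} {x a : O} (hJ : ¬ J ≤ P) (ha : a ∈ P)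
    (hx : P ^ k * J = Ideal.span {x}) : x ∈ P ^ k ∧ ∃ j c, j ∉ P ∧ a ^ k * j = x * c := by
  obtain ⟨j, hj, hj'⟩ := SetLike.not_le_iff_exists.1 hJ
  obtain ⟨c, hc⟩ := Ideal.mem_span_singleton.1
    (hx ▸ Ideal.mul_mem_mul (Ideal.pow_mem_pow ha k) hj)
  exact ⟨Ideal.mul_le_left (hx ▸ Ideal.mem_span_singleton_self x), j, c, hj', hc⟩

theorem val (hPL : PL) (hUNIF : UNIF) (hU : IsOpen (U : Set GQ)) {w : Pl} {π : Om}
    (hπ : w.Unif (w.D ⊓ U) π) (k : ℕ) (J : Ideal (OO U)) (hJ : ¬ J ≤ (PP hPL U w).asIdeal)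
    (x : OO U) (hx : (PP hPL U w).asIdeal ^ k * J = Ideal.span {x}) :
    w.v (em U x) = w.v π ^ k := by
  obtain ⟨a, ha⟩ := exa hPL hUNIF hU hπ
  obtain ⟨h1, j, c, hj, hc⟩ := aux hJ ((mem_PP hPL).2 (ha.trans_lt hπ.2.2.1)) hx
  refine le_antisymm (hle hPL hπ k x h1) ?_
  have h6 : em U a ^ k * em U j = em U x * em U c := by
    rw [← map_pow, ← map_mul, hc, map_mul]
  have h7 := congrArg w.v h6
  rw [map_mul, map_mul, map_pow, ha, one_of hPL hj, mul_one] at h7
  rw [h7]
  exact mul_le_of_le_one_right zero_le (em_le hPL w c)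

theorem out (hPL : PL) (hU : IsOpen (U : Set GQ)) {w w' : Pl} {R : Set Pl} (hw : w ∈ R)
    (h : Out U R w') : ¬ (PP hPL U w).asIdeal ≤ (PP hPL U w').asIdeal := fun h1 => by
  obtain ⟨u, hu, rfl⟩ := conj_of hPL hU h1
  exact h u⁻¹ (U.inv_mem hu) (by simpa using hw)

end TCLS

open TCLS in
theorem t_CLS (hPL : PL) (hUNIF : UNIF) : CLS := by
  intro U hU
  have := numberField hU
  have h0 : ∀ w, (PP hPL U w).asIdeal ∈ (Ideal (OO U))⁰ := fun w =>
    mem_nonZeroDivisors_of_ne_zero (PP hPL U w).ne_bot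
  constructor
  · refine ⟨Fintype.card (ClassGroup (OO U)), Fintype.card_pos, fun w π hπ => ?_⟩
    obtain ⟨x, hx⟩ := (ClassGroup.mk0_eq_one_iff (pow_mem (h0 w)
      (Fintype.card (ClassGroup (OO U))))).1 (by
        rw [← pow_card_eq_one (x := ClassGroup.mk0 ⟨_, h0 w⟩), ← map_pow]; rfl)
    refine ⟨em U x, em_fix x, val hPL hUNIF hU hπ _ ⊤
      (fun h => (PP hPL U w).isPrime.ne_top (top_le_iff.1 h)) x (by rw [Ideal.mul_top]; exact hx),
      fun w' hw' => one_of hPL fun h => out hPL hU (Set.mem_singleton w) hw' ?_⟩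
    refine (PP hPL U w').isPrime.le_of_pow_le (n := Fintype.card (ClassGroup (OO U))) ?_
    rw [hx]; exact (Ideal.span_singleton_le_iff_mem _).2 h
  · choose J hJ using ClassGroup.mk0_surjective (R := OO U)
    obtain ⟨w₀, -⟩ := hPL.1 2 Nat.prime_two
    have : Nonempty Pl := ⟨w₀⟩
    have hS : (⋃ c, {v : HeightOneSpectrum (OO U) | v.asIdeal ∣ (J c : Ideal (OO U))}).Finite :=
      Set.finite_iUnion fun c => Ideal.finite_factors (nonZeroDivisors.ne_zero (J c).2)
    have key : ∀ c w, Out U (Function.invFun (PP hPL U) ''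
        ⋃ c, {v : HeightOneSpectrum (OO U) | v.asIdeal ∣ (J c : Ideal (OO U))}) w →
        ¬ (J c : Ideal (OO U)) ≤ (PP hPL U w).asIdeal := fun c w hw h =>
      out hPL hU (Set.mem_image_of_mem _ (Set.mem_iUnion.2 ⟨c, Ideal.dvd_iff_le.2 h⟩)) hw
        (by rw [Function.invFun_eq (f := PP hPL U) ⟨w, rfl⟩])
    refine ⟨_, hS.image (Function.invFun (PP hPL U)), fun w π hw hπ => ?_⟩
    obtain ⟨x, -, hx⟩ := (ClassGroup.mk0_eq_mk0_inv_iff (I := ⟨_, h0 w⟩)
      (J := J (ClassGroup.mk0 ⟨_, h0 w⟩)⁻¹)).1 (by rw [hJ, inv_inv])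
    refine ⟨em U x, em_fix x, ?_, fun w' hw' => one_of hPL fun h => ?_⟩
    · simpa using val hPL hUNIF hU hπ 1 _ (key _ w hw) x (by rw [pow_one]; exact hx)
    · have h1 := (Ideal.span_singleton_le_iff_mem _).2 h
      rw [← hx, (PP hPL U w').isPrime.mul_le] at h1
      exact h1.elim (out hPL hU (Set.mem_insert _ _) hw')
        (key _ w' (hw'.mono (Set.subset_insert _ _)))

end Pool.Agent.P.MP_8b7eba_nt.R2
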