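import Pool.Agent.P.MP_8b7eba_nt.R2.IfA
import Pool.Agent.P.MP_8b7eba_nt.R2.Nrm

/-! Proof of CUP. -/

namespace Pool.Agent.P.MP_8b7eba_nt.R2

open scoped NNReal ComplexConjugate

namespace TCUP

variable {H H' : Subgroup GQ} {a β : Om} {m : ℕ}

/-- the carry -/
def d (x y : ZMod m) : ℤ := if m ≤ x.val + y.val then 1 else 0

theorem cup_eq (χ : GQ → ZMod m) (a : Om) (g h : GQ) : cup χ a g h = a ^ d (χ g) (χ h) := by
  unfold cup d; split_ifs <;> simp

theorem mul_d (hm : m ≠ 0) (x y : ZMod m) : m * d x y = x.val + y.val - (x + y).val := by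
  have := NeZero.mk hm
  unfold d
  split_ifs with h
  · have := ZMod.val_add_val_of_le h; omega
  · have := ZMod.val_add_of_lt (not_le.1 h); omega

theorem triv (ha : Fix H a) (a0 : a ≠ 0) {n : ℤ} (hn : n ≠ 0) {R : GQ → ℤ} (hR : Sm H R)
    (h1 : ∀ g ∈ H, n ∣ R g) {f : GQ → GQ → Om}
    (h2 : ∀ g ∈ H, ∀ h ∈ H, ∃ E : ℤ, f g h = a ^ E ∧ n * E = R g + R h - R (g * h)) :
    Triv H f := by
  refine ⟨fun g => a ^ (R g / n), hR.comp fun x => a ^ (x / n), fun g _ => zpow_ne_zero _ a0,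
    fun g hg h hh => ?_⟩
  obtain ⟨E, e1, e2⟩ := h2 g hg h hh
  rw [e1, map_zpow₀, ha g hg, ← zpow_add₀ a0, ← zpow_add₀ a0]
  congr 1
  refine mul_left_cancel₀ hn ?_
  rw [mul_add, mul_add, e2, Int.mul_ediv_cancel' (h1 g hg), Int.mul_ediv_cancel' (h1 h hh),
    Int.mul_ediv_cancel' (h1 _ (H.mul_mem hg hh)), sub_add_cancel]

theorem pm (hβ : Fix H (β ^ 2)) {g : GQ} (hg : g ∈ H) : g β = β ∨ g β = -β :=
  sq_eq_sq_iff_eq_or_eq_neg.1 ((map_pow g β 2).symm.trans (hβ g hg))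

theorem qc_zero {g : GQ} : qc β g = 0 ↔ g β = β := by
  unfold qc; split_ifs with h <;> simp [h]

theorem isCh (h0 : β ≠ 0) (hβ : Fix H (β ^ 2)) : IsCh H (qc β) := by
  classical
  refine ⟨(sm_apply β).comp fun x => if x = β then (0 : ZMod 2) else 1, fun g hg h hh => ?_⟩
  have h1 : -β ≠ β := fun e => h0 (neg_eq_self.1 e)
  unfold qc
  rcases pm hβ hg with e | e <;> rcases pm hβ hh with e' | e' <;> simp [e, e', h1]
  rfl

theorem nm_iff (h0 : β ≠ 0) (hβ : Fix H (β ^ 2)) (hk : IsKer H H' (qc β))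
    (h : ∃ g ∈ H, g β ≠ β) (a : Om) : (∃ b, Fix H' b ∧ nrm H H' b = a) ↔ Nm H (β ^ 2) a := by
  obtain ⟨σ, hσ, h1⟩ := h
  have h2 := (pm hβ hσ).resolve_left h1
  have h3 : σ ∉ H' := fun e => h1 (qc_zero.1 ((hk σ).1 e).2)
  have h4 : H'.relIndex H = 2 := by
    rw [hk.relIndex (isCh h0 hβ), show qc β '' H = {0, 1} from ?_, Set.ncard_pair zero_ne_one]
    refine Set.Subset.antisymm (fun x _ => (by decide : ∀ x : ZMod 2, x = 0 ∨ x = 1) x)
      (Set.pair_subset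
      ⟨1, H.one_mem, qc_zero.2 rfl⟩ ⟨σ, hσ, if_neg h1⟩)
  constructor
  · rintro ⟨b, hb, rfl⟩
    have p : ∀ g ∈ H, g β = β → g b = b := fun g hg e => hb g ((hk g).2 ⟨hg, qc_zero.2 e⟩)
    have q : ∀ g ∈ H, g β = -β → g b = σ b := fun g hg e => by
      rw [← mul_inv_cancel_left σ g, AlgEquiv.mul_apply, p _ (H.mul_mem (H.inv_mem hσ) hg)]
      rw [AlgEquiv.mul_apply, e, ← h2, BasicP.inv_apply]
    have r : ∀ g ∈ H, (g β = β ∧ g b = b ∧ g (σ b) = σ b) ∨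
        (g β = -β ∧ g b = σ b ∧ g (σ b) = b) := fun g hg =>
      (pm hβ hg).imp (fun e => ⟨e, p g hg e, q _ (H.mul_mem hg hσ) (by simp [h2, e])⟩)
        fun e => ⟨e, q g hg e, p _ (H.mul_mem hg hσ) (by simp [h2, e])⟩
    refine ⟨(b + σ b) / 2, (b - σ b) / (2 * β), fun g hg => ?_, fun g hg => ?_, ?_⟩
    · rcases r g hg with e | e <;> simp [e, map_ofNat, add_comm]
    · rcases r g hg with e | e <;> simp [e, map_ofNat, div_neg, ← neg_div]
    · rw [nrm_two h4 hb hσ h3]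
      field_simp
      ring
  · rintro ⟨x, y, hx, hy, rfl⟩
    have hb : Fix H' (x + y * β) := fun g hg => by
      rw [map_add, map_mul, hx g ((hk g).1 hg).1, hy g ((hk g).1 hg).1, qc_zero.1 ((hk g).1 hg).2]
    refine ⟨_, hb, ?_⟩
    rw [nrm_two h4 hb hσ h3, map_add, map_mul, hx σ hσ, hy σ hσ, h2]
    ring

theorem triv_iff (hCYC2 : CYC2) (hH : IsClosed (H : Set GQ)) (h0 : β ≠ 0) (hβ : Fix H (β ^ 2))
    (ha : Fix H a) (a0 : a ≠ 0) : Triv H (cup (qc β) a) ↔ Nm H (β ^ 2) a := by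
  by_cases h : ∃ g ∈ H, g β ≠ β
  · exact (hCYC2 H _ 2 _ hH two_ne_zero (isCh h0 hβ) (isKer_qc H β) a ha a0).trans
      (nm_iff h0 hβ (isKer_qc H β) h a)
  · push Not at h
    refine iff_of_true (Triv.one.congr fun g hg k hk => ?_)
      (Nm.of_sq_left (pow_ne_zero 2 h0) ⟨β, h, rfl⟩ ha)
    simp [cup, qc_zero.2 (h g hg), qc_zero.2 (h k hk)]

end TCUP

open TCUP in
theorem t_CUP : CUP := by
  intro H a ha a0 m χ hm hχ
  have := NeZero.mk hm
  have hm' : (m : ℤ) ≠ 0 := Nat.cast_ne_zero.2 hm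
  refine ⟨⟨fun g _ h _ => by rw [cup_eq]; exact zpow_ne_zero _ a0,
    hχ.1.fst.comp₂ hχ.1.snd fun x y => if m ≤ x.val + y.val then a else 1,
    fun g hg h hh k hk => ?_⟩, ?_, fun b => ?_, fun χ' hχ' => ?_, fun k => ?_,
    fun m' k χ' e hk => ⟨fun h1 g hg h hh => ?_, fun hχ' h1 => ?_⟩, fun β hβ => ?_⟩
  · simp only [cup_eq]
    rw [map_zpow₀, ha g hg, ← zpow_add₀ a0, ← zpow_add₀ a0, hχ.2 g hg h hh, hχ.2 h hh k hk]
    congr 1
    refine mul_left_cancel₀ hm' ?_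
    simp only [mul_add, mul_d hm, add_assoc]
    ring
  · refine triv ha a0 one_ne_zero (hχ.1.comp fun x => (x.val : ℤ)) (fun _ _ => one_dvd _)
      fun g hg h hh => ⟨d (χ g) (χ h) * m, ?_, ?_⟩
    · rw [zpow_mul, zpow_natCast, ← cup_eq]; rfl
    · rw [one_mul, mul_comm, mul_d hm, hχ.2 g hg h hh]
  · funext g h
    simp only [Pi.mul_apply, cup_eq, mul_zpow]
  · refine triv ha a0 hm' (hχ.1.comp₂ hχ'.1 fun x y => ((x + y).val - x.val - y.val : ℤ))
      (fun g _ => ⟨-d (χ g) (χ' g), by rw [mul_neg, mul_d hm]; ring⟩) fun g hg h hh =>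
        ⟨d (χ g + χ' g) (χ h + χ' h) - (d (χ g) (χ h) + d (χ' g) (χ' h)), ?_, ?_⟩
    · simp only [Pi.div_apply, Pi.mul_apply, Pi.add_apply, cup_eq, zpow_sub₀ a0, zpow_add₀ a0]
    · simp only [mul_sub, mul_add, mul_d hm, hχ.2 g hg h hh, hχ'.2 g hg h hh,
        add_add_add_comm (χ g) (χ h)]
      ring
  · refine triv ha a0 hm' (hχ.1.comp fun x => ((k • x).val - k * x.val : ℤ))
      (fun g _ => (ZMod.intCast_zmod_eq_zero_iff_dvd _ m).1 (by simp)) fun g hg h hh =>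
        ⟨d (k • χ g) (k • χ h) - k * d (χ g) (χ h), ?_, ?_⟩
    · simp only [Pi.div_apply, Pi.smul_apply, cup_eq, zpow_sub₀ a0, zpow_mul, zpow_natCast]
    · simp only [mul_sub, mul_left_comm (m : ℤ), mul_d hm, hχ.2 g hg h hh, smul_add]
      ring
  · subst e
    unfold cup
    rw [h1 g hg, h1 h hh, ← mul_add]
    simp only [Nat.mul_le_mul_left_iff (Nat.pos_of_ne_zero hk)]
  · refine triv ha a0 hm' (hχ.1.comp₂ hχ'.1 fun x y => (x.val - y.val : ℤ))
      (fun g hg => (ZMod.intCast_zmod_eq_zero_iff_dvd _ m).1 (by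
        rw [Int.cast_sub, Int.cast_natCast, Int.cast_natCast, h1 g hg, ZMod.natCast_zmod_val,
          sub_self])) fun g hg h hh => ⟨d (χ g) (χ h) - k * d (χ' g) (χ' h), ?_, ?_⟩
    · simp only [Pi.div_apply, cup_eq, zpow_sub₀ a0, zpow_mul, zpow_natCast]
    · have := mul_d (e ▸ mul_ne_zero hk hm : m' ≠ 0) (χ' g) (χ' h)
      rw [show (m' : ℤ) = m * k by rw [e]; push_cast; ring] at this
      rw [mul_sub, ← mul_assoc, this, mul_d hm, hχ.2 g hg h hh, hχ'.2 g hg h hh]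
      ring
  have h0 : β ≠ 0 := fun e => a0 (by rw [← hβ, e, zero_pow hm])
  have h1 : ∀ (g : GQ) (x : Om), x ≠ 0 → g x ≠ 0 := fun g x => (map_ne_zero g).2
  have key : ∀ x y : ZMod m, a ^ d x y * β ^ (x + y).val = β ^ x.val * β ^ y.val := fun x y => by
    rw [← hβ, ← zpow_natCast, ← zpow_mul, mul_d hm, zpow_sub₀ h0, zpow_add₀ h0]
    simp only [zpow_natCast]
    exact div_mul_cancel₀ _ (pow_ne_zero _ h0)
  have h2 : Triv H (cup χ a * fun g h => (g β / β) ^ (χ h).val) := by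
    refine ⟨fun g => β ^ (χ g).val, hχ.1.comp fun x => β ^ x.val, fun g _ => pow_ne_zero _ h0,
      fun g hg h hh => ?_⟩
    simp only [Pi.mul_apply, cup_eq, hχ.2 g hg h hh, map_pow, div_pow]
    rw [mul_right_comm, key, mul_assoc, mul_div_cancel₀ _ (pow_ne_zero _ h0)]
  have h3 : Triv H fun g h => ((g β / β) ^ (χ h).val * g (h β / β) ^ (χ g).val)⁻¹ := by
    refine ⟨fun g => (g β / β) ^ (χ g).val, (sm_apply β).comp₂ hχ.1 fun x y => (x / β) ^ y.val,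
      fun g _ => pow_ne_zero _ (div_ne_zero (h1 g β h0) h0), fun g hg h hh => ?_⟩
    have e1 : ((g * h) β / β) ^ m = 1 := by
      rw [div_pow, ← map_pow, hβ, ha _ (H.mul_mem hg hh), div_self a0]
    have e2 : (g * h) β / β = g β / β * g (h β / β) := by
      have := h1 g β h0
      rw [map_div₀, AlgEquiv.mul_apply]
      field_simp
    have e3 := div_ne_zero (h1 g β h0) h0
    have e4 := h1 g _ (div_ne_zero (h1 h β h0) h0)
    simp only [hχ.2 g hg h hh, ZMod.val_add, ← pow_eq_pow_mod _ e1]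
    rw [e2, map_pow, mul_pow, pow_add, pow_add]
    generalize g (h β / β) = y at e4
    generalize g β / β = x at e3
    field_simp
  refine ⟨h2, (h2.mul h3).congr fun g _ h _ => ?_⟩
  simp only [Pi.mul_apply, Pi.div_apply]
  rw [mul_inv, ← mul_assoc, mul_inv_cancel_right₀ (pow_ne_zero _ (div_ne_zero (h1 g β h0) h0)),
    div_eq_mul_inv]

open TCUP in
theorem t_SYM (hCYC1 : CYC1) (hCYC2 : CYC2) : SYM := by
  intro H H' β hH h0 hβ hk
  refine ⟨isCh h0 hβ, fun g hg => ?_, fun a => triv_iff hCYC2 hH h0 hβ, nm_iff h0 hβ hk,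
    fun f hf ht => ?_⟩
  · unfold qc
    split_ifs with h
    · simpa using h
    · rw [(pm hβ hg).resolve_left h, ZMod.val_one, pow_one, neg_one_mul]
  · obtain ⟨a, ha, a0, h⟩ := hCYC1 H H' 2 _ hH two_ne_zero (isCh h0 hβ) hk f hf ht
    exact ⟨a, ha, a0, h, fun H'' hle hc =>
      (h.mono hle).iff.trans (triv_iff hCYC2 hc h0 (hβ.mono hle) (ha.mono hle) a0)⟩

end Pool.Agent.P.MP_8b7eba_nt.R2
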