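import Pool.Agent.P.MP_8b7eba_nt.R2.IfA
import Pool.Agent.P.MP_8b7eba_nt.R2.Nrm

/-! Proof of CYC1. -/

namespace Pool.Agent.P.MP_8b7eba_nt.R2

open scoped NNReal ComplexConjugate

namespace TCYC1

variable {H H' : Subgroup GQ} {f : GQ → GQ → Om}

theorem f_one_left (hf : Co2 H f) {k : GQ} (hk : k ∈ H) : f 1 k = f 1 1 := by
  have h := hf.co 1 H.one_mem 1 H.one_mem k hk
  simp only [one_mul, AlgEquiv.one_apply] at h
  exact mul_left_cancel₀ (hf.ne 1 H.one_mem k hk) h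

theorem f_one_right (hf : Co2 H f) {g : GQ} (hg : g ∈ H) : f g 1 = g (f 1 1) := by
  have h := hf.co g hg 1 H.one_mem 1 H.one_mem
  simp only [mul_one] at h
  exact (mul_right_cancel₀ (hf.ne g hg 1 H.one_mem) h).symm

/-- the group extension attached to a cocycle -/
@[ext] structure E (hf : Co2 H f) where
  x : Om
  g : GQ
  hx : x ≠ 0
  hg : g ∈ H

variable {hf : Co2 H f}

noncomputable instance : Mul (E hf) :=
  ⟨fun a b => ⟨a.x * a.g b.x * f a.g b.g, a.g * b.g,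
    mul_ne_zero (mul_ne_zero a.hx ((map_ne_zero a.g).2 b.hx)) (hf.ne _ a.hg _ b.hg),
    mul_mem a.hg b.hg⟩⟩

noncomputable instance : One (E hf) :=
  ⟨⟨(f 1 1)⁻¹, 1, inv_ne_zero (hf.ne 1 H.one_mem 1 H.one_mem), H.one_mem⟩⟩

noncomputable instance : Inv (E hf) :=
  ⟨fun a => ⟨(f 1 1)⁻¹ / (a.g⁻¹ a.x * f a.g⁻¹ a.g), a.g⁻¹,
    div_ne_zero (inv_ne_zero (hf.ne 1 H.one_mem 1 H.one_mem))
      (mul_ne_zero ((map_ne_zero a.g⁻¹).2 a.hx) (hf.ne _ (inv_mem a.hg) _ a.hg)), inv_mem a.hg⟩⟩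

theorem mul_x (a b : E hf) : (a * b).x = a.x * a.g b.x * f a.g b.g := rfl

theorem mul_g (a b : E hf) : (a * b).g = a.g * b.g := rfl

theorem one_x : (1 : E hf).x = (f 1 1)⁻¹ := rfl

theorem one_g : (1 : E hf).g = 1 := rfl

noncomputable instance : Group (E hf) :=
  Group.ofLeftAxioms
    (fun a b c => E.ext (by
      simp only [mul_x, mul_g, map_mul, AlgEquiv.mul_apply]
      linear_combination (-(a.x * a.g b.x * a.g (b.g c.x))) * hf.co _ a.hg _ b.hg _ c.hg)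
      (mul_assoc _ _ _))
    (fun a => E.ext (by
      have := hf.ne 1 H.one_mem 1 H.one_mem
      simp only [mul_x, one_x, one_g, AlgEquiv.one_apply, f_one_left hf a.hg]
      field_simp) (one_mul _))
    (fun a => E.ext (by
      have h1 : a.g⁻¹ a.x ≠ 0 := (map_ne_zero a.g⁻¹).2 a.hx
      have h2 := hf.ne _ (inv_mem a.hg) _ a.hg
      change (f 1 1)⁻¹ / (a.g⁻¹ a.x * f a.g⁻¹ a.g) * a.g⁻¹ a.x * f a.g⁻¹ a.g = (f 1 1)⁻¹
      field_simp) (inv_mul_cancel _))

theorem pow_g (a : E hf) (n : ℕ) : (a ^ n).g = a.g ^ n := by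
  induction n with
  | zero => rw [pow_zero, pow_zero]; rfl
  | succ n ih => rw [pow_succ, pow_succ, mul_g, ih]

/-- the kernel of the extension -/
noncomputable def ker (hf : Co2 H f) (a : Om) (ha : a ≠ 0) : E hf :=
  ⟨a / f 1 1, 1, div_ne_zero ha (hf.ne 1 H.one_mem 1 H.one_mem), H.one_mem⟩

theorem io_mul_x {a : Om} (ha : a ≠ 0) (X : E hf) : (ker hf a ha * X).x = a * X.x := by
  have := hf.ne 1 H.one_mem 1 H.one_mem
  change a / f 1 1 * (1 : GQ) X.x * f 1 X.g = _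
  rw [f_one_left hf X.hg, AlgEquiv.one_apply]
  field_simp

theorem io_mul_g {a : Om} (ha : a ≠ 0) (X : E hf) : (ker hf a ha * X).g = X.g := one_mul _

theorem mul_io {a : Om} (ha : a ≠ 0) (X : E hf) :
    X * ker hf a ha = ker hf (X.g a) ((map_ne_zero X.g).2 ha) * X := by
  refine E.ext ?_ ((mul_one _).trans (one_mul _).symm)
  have := (map_ne_zero X.g).2 (hf.ne 1 H.one_mem 1 H.one_mem)
  rw [io_mul_x]
  change X.x * X.g (a / f 1 1) * f X.g 1 = _
  rw [f_one_right hf X.hg, map_div₀]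
  field_simp

theorem io_cancel {a a' : Om} {ha : a ≠ 0} {ha' : a' ≠ 0} {X : E hf}
    (h : ker hf a ha * X = ker hf a' ha' * X) : a = a' := by
  have := congrArg E.x h
  rw [io_mul_x, io_mul_x] at this
  exact mul_right_cancel₀ X.hx this

theorem io_io {a a' : Om} (ha : a ≠ 0) (ha' : a' ≠ 0) (X : E hf) :
    ker hf a ha * (ker hf a' ha' * X) = ker hf (a * a') (mul_ne_zero ha ha') * X :=
  E.ext (by rw [io_mul_x, io_mul_x, io_mul_x, mul_assoc]) (by rw [io_mul_g, io_mul_g, io_mul_g])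

open Classical in
/-- the section on the subgroup where the cocycle splits -/
noncomputable def sec (hf : Co2 H f) (le : H' ≤ H) (b : GQ → Om) (hb : ∀ g ∈ H', b g ≠ 0)
    (p : GQ) : E hf :=
  if h : p ∈ H' then ⟨(b p)⁻¹, p, inv_ne_zero (hb p h), le h⟩ else 1

variable {le : H' ≤ H} {b : GQ → Om} {hb : ∀ g ∈ H', b g ≠ 0}

theorem sec_x {p : GQ} (h : p ∈ H') : (sec hf le b hb p).x = (b p)⁻¹ := by
  rw [sec, dif_pos h]

theorem sec_g {p : GQ} (h : p ∈ H') : (sec hf le b hb p).g = p := by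
  rw [sec, dif_pos h]

theorem sec_mul (e : ∀ g ∈ H', ∀ h ∈ H', f g h * b (g * h) = b g * g (b h)) {p q : GQ}
    (hp : p ∈ H') (hq : q ∈ H') :
    sec hf le b hb (p * q) = sec hf le b hb p * sec hf le b hb q := by
  refine E.ext ?_ (by rw [mul_g, sec_g hp, sec_g hq, sec_g (mul_mem hp hq)])
  have h1 := hb p hp
  have h2 := (map_ne_zero p).2 (hb q hq)
  have h3 := hb _ (mul_mem hp hq)
  rw [mul_x, sec_x hp, sec_x hq, sec_x (mul_mem hp hq), sec_g hp, sec_g hq, map_inv₀]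
  field_simp
  linear_combination -e p hp q hq

/-- a lift of `u` that normalises the section -/
theorem exists_lift (hGAL : GAL) (hc : IsClosed (H' : Set GQ)) (hs : Sm H' b)
    (e : ∀ g ∈ H', ∀ h ∈ H', f g h * b (g * h) = b g * g (b h)) {u : GQ} (hu : u ∈ H)
    (nm : ∀ q ∈ H', u⁻¹ * q * u ∈ H') : ∃ G : E hf, G.g = u ∧
      ∀ q ∈ H', G * sec hf le b hb (u⁻¹ * q * u) = sec hf le b hb q * G := by
  let G : E hf := ⟨1, u, one_ne_zero, hu⟩
  let z : GQ → Om := fun q => u (b (u⁻¹ * q * u))⁻¹ * f u (u⁻¹ * q * u) * b q / f q u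
  have z0 : ∀ q ∈ H', z q ≠ 0 := fun q hq =>
    div_ne_zero (mul_ne_zero (mul_ne_zero ((map_ne_zero u).2 (inv_ne_zero (hb _ (nm q hq))))
      (hf.ne _ hu _ (le (nm q hq)))) (hb q hq)) (hf.ne _ (le hq) _ hu)
  have k : ∀ q (hq : q ∈ H'), G * sec hf le b hb (u⁻¹ * q * u) =
      ker hf (z q) (z0 q hq) * (sec hf le b hb q * G) := fun q hq => by
    refine E.ext ?_ ?_
    · have h1 := hb q hq
      have h2 := hf.ne _ (le hq) _ hu
      rw [io_mul_x, mul_x, mul_x, sec_x hq, sec_x (nm q hq), sec_g hq, sec_g (nm q hq)]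
      simp only [G, z, map_one]
      field_simp
    · rw [io_mul_g, mul_g, mul_g, sec_g hq, sec_g (nm q hq)]
      simp only [G]
      group
  have sm : Sm H' z :=
    (((((hs.conj u nm).comp fun t => u t⁻¹).comp₂ ((hf.sm.right hu).conj u fun g hg => le (nm g hg))
      (· * ·)).comp₂ hs (· * ·)).comp₂ ((hf.sm.left hu).mono le) (· / ·))
  obtain ⟨y, y0, hy⟩ := (hGAL H' hc).2.1 z sm z0 fun p hp q hq => by
    have h := k _ (mul_mem hp hq)
    rw [show u⁻¹ * (p * q) * u = u⁻¹ * p * u * (u⁻¹ * q * u) by group, sec_mul e (nm p hp) (nm q hq),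
      ← mul_assoc, k p hp, mul_assoc, mul_assoc, k q hq, ← mul_assoc (sec hf le b hb p), mul_io,
      mul_assoc, io_io, ← mul_assoc (sec hf le b hb p), ← sec_mul e hp hq] at h
    rw [← io_cancel h, sec_g hp]
  refine ⟨ker hf y y0 * G, io_mul_g _ _, fun q hq => ?_⟩
  rw [mul_assoc, k q hq, io_io, ← mul_assoc (sec hf le b hb q), mul_io, mul_assoc]
  congr 2
  rw [sec_g hq, ← hy q hq, mul_comm]

/-- a generator of the image of a character -/
theorem exists_gen {m : ℕ} {χ : GQ → ZMod m} (hm : m ≠ 0) (hχ : IsCh H χ) :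
    ∃ (c e : ℕ) (u : GQ), 0 < c ∧ m = c * e ∧ u ∈ H ∧ χ u = c ∧ ∀ g ∈ H, c ∣ (χ g).val := by
  classical
  have : NeZero m := ⟨hm⟩
  have ex : ∃ n : ℕ, 0 < n ∧ ∃ g ∈ H, χ g = n :=
    ⟨m, Nat.pos_of_ne_zero hm, 1, H.one_mem, by rw [hχ.one, ZMod.natCast_self]⟩
  obtain ⟨c0, u, hu, e⟩ := Nat.find_spec ex
  have k : ∀ n : ℕ, (∃ g ∈ H, χ g = n) → Nat.find ex ∣ n := by
    rintro n ⟨g, hg, hn⟩
    by_contra h
    refine Nat.find_min ex (Nat.mod_lt n c0) ⟨Nat.pos_of_ne_zero fun h' =>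
      h (Nat.dvd_of_mod_eq_zero h'), g * (u ^ (n / Nat.find ex))⁻¹,
      mul_mem hg (inv_mem (pow_mem hu _)), ?_⟩
    rw [hχ.2 _ hg _ (inv_mem (pow_mem hu _)), hχ.inv (pow_mem hu _), hχ.pow hu, e, hn, nsmul_eq_mul,
      ← sub_eq_add_neg, sub_eq_iff_eq_add, ← Nat.cast_mul, ← Nat.cast_add, Nat.mod_add_div']
  obtain ⟨d, hd⟩ := k m ⟨1, H.one_mem, by rw [hχ.one, ZMod.natCast_self]⟩
  exact ⟨_, d, u, c0, hd, hu, e, fun g hg => k _ ⟨g, hg, (ZMod.natCast_zmod_val _).symm⟩⟩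

end TCYC1

open TCYC1 in
theorem t_CYC1 (hGAL : GAL) : CYC1 := by
  classical
  intro H H' m χ hH hm hχ hk f hf ⟨b, hs, hb, e⟩
  have : NeZero m := ⟨hm⟩
  have le : H' ≤ H := fun g hg => ((hk g).1 hg).1
  have hc : IsClosed (H' : Set GQ) := by
    obtain ⟨U, hU, rfl⟩ := hk.eq_inf hχ
    exact hH.inter (U.isClosed_of_isOpen hU)
  have nm : ∀ v ∈ H, ∀ q ∈ H', v * q * v⁻¹ ∈ H' := fun v hv q hq => by
    refine (hk _).2 ⟨mul_mem (mul_mem hv (le hq)) (inv_mem hv), ?_⟩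
    rw [hχ.2 _ (mul_mem hv (le hq)) _ (inv_mem hv), hχ.2 _ hv _ (le hq), hχ.inv hv,
      ((hk q).1 hq).2, add_zero, add_neg_cancel]
  obtain ⟨c, d, u, c0, hcd, hu, hχu, dv⟩ := exists_gen hm hχ
  obtain ⟨G, Gg, hG⟩ := exists_lift (hf := hf) (le := le) (hb := hb) hGAL hc hs e hu
    fun q hq => by simpa using nm _ (inv_mem hu) q hq
  set s := sec hf le b hb with hs'
  have hG' : ∀ (i : ℕ), ∀ p ∈ H', G ^ i * s p = s (u ^ i * p * (u ^ i)⁻¹) * G ^ i := by
    intro i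
    induction i with
    | zero => intro p _; simp
    | succ i ih =>
      intro p hp
      have h := hG _ (nm u hu _ (nm _ (pow_mem hu i) p hp))
      rw [show u⁻¹ * (u * (u ^ i * p * (u ^ i)⁻¹) * u⁻¹) * u = u ^ i * p * (u ^ i)⁻¹ by group] at h
      rw [pow_succ', mul_assoc, ih p hp, ← mul_assoc, h, mul_assoc]
      congr 2
      group
  have ud : u ^ d ∈ H' := (hk _).2 ⟨pow_mem hu d, by
    rw [hχ.pow hu, hχu, nsmul_eq_mul, ← Nat.cast_mul, mul_comm, ← hcd, ZMod.natCast_self]⟩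
  have a0 : (G ^ d).x * b (u ^ d) ≠ 0 := mul_ne_zero (G ^ d).hx (hb _ ud)
  set a := (G ^ d).x * b (u ^ d) with ha
  have hGd : G ^ d = ker hf a a0 * s (u ^ d) := by
    refine E.ext ?_ (by rw [io_mul_g, pow_g, Gg, sec_g ud])
    rw [io_mul_x, sec_x ud, ha, mul_inv_cancel_right₀ (hb _ ud)]
  have au : u a = a := by
    have h := hG _ ud
    rw [show u⁻¹ * u ^ d * u = u ^ d by group] at h
    have h' : G * G ^ d = G ^ d * G := (Commute.self_pow G d).eq
    rw [hGd, ← mul_assoc, mul_io, mul_assoc, h, mul_assoc] at h'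
    rw [← Gg]
    exact io_cancel h'
  have aH' : ∀ q ∈ H', q a = a := fun q hq => by
    have hp : (u ^ d)⁻¹ * q * u ^ d ∈ H' := mul_mem (mul_mem (inv_mem ud) hq) ud
    have h := hG' d _ hp
    rw [show u ^ d * ((u ^ d)⁻¹ * q * u ^ d) * (u ^ d)⁻¹ = q by group, hGd, mul_assoc,
      ← sec_mul e ud hp, ← mul_assoc (s q), mul_io, mul_assoc _ (s q), ← sec_mul e hq ud,
      show u ^ d * ((u ^ d)⁻¹ * q * u ^ d) = q * u ^ d by group] at h
    have h' := io_cancel h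
    rw [sec_g hq] at h'
    exact h'.symm
  let i : GQ → ℕ := fun g => (χ g).val / c
  have hi : ∀ g ∈ H, (χ g).val = c * i g := fun g hg => (Nat.mul_div_cancel' (dv g hg)).symm
  have hp : ∀ g ∈ H, g * (u ^ i g)⁻¹ ∈ H' := fun g hg => by
    refine (hk _).2 ⟨mul_mem hg (inv_mem (pow_mem hu _)), ?_⟩
    rw [hχ.2 _ hg _ (inv_mem (pow_mem hu _)), hχ.inv (pow_mem hu _), hχ.pow hu, hχu, nsmul_eq_mul,
      ← Nat.cast_mul, mul_comm, ← hi g hg, ZMod.natCast_zmod_val, add_neg_cancel]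
  have aH : Fix H a := fun g hg => by
    have h : ∀ n : ℕ, (u ^ n) a = a := fun n => by
      induction n with
      | zero => rfl
      | succ n ih => rw [pow_succ, AlgEquiv.mul_apply, au, ih]
    have h' := aH' _ (hp g hg)
    rw [← h (i g), ← AlgEquiv.mul_apply, inv_mul_cancel_right, h] at h'
    exact h'
  let S : GQ → E hf := fun g => s (g * (u ^ i g)⁻¹) * G ^ i g
  have Sg : ∀ g ∈ H, (S g).g = g := fun g hg => by
    rw [mul_g, sec_g (hp g hg), pow_g, Gg, inv_mul_cancel_right]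
  have c0' : ∀ g h, cup χ a g h ≠ 0 := fun g h => by
    unfold cup
    split_ifs
    exacts [a0, one_ne_zero]
  have hS : ∀ g ∈ H, ∀ h ∈ H, S g * S h = ker hf (cup χ a g h) (c0' g h) * S (g * h) := by
    intro g hg h hh
    have hr := nm _ (pow_mem hu (i g)) _ (hp h hh)
    have h1 : S g * S h = s (g * h * (u ^ (i g + i h))⁻¹) * G ^ (i g + i h) := by
      simp only [S]
      rw [mul_assoc, ← mul_assoc (G ^ i g), hG' _ _ (hp h hh), mul_assoc, ← pow_add, ← mul_assoc,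
        ← sec_mul e (hp g hg) hr]
      congr 2
      group
    have hr' : g * h * (u ^ (i g + i h))⁻¹ ∈ H' := by
      convert mul_mem (hp g hg) hr using 1
      group
    have v := hi _ (mul_mem hg hh)
    rw [hχ.2 g hg h hh] at v
    by_cases hm' : m ≤ (χ g).val + (χ h).val
    · have h2 : i g + i h = d + i (g * h) := by
        rw [ZMod.val_add_of_le hm'] at v
        refine Nat.eq_of_mul_eq_mul_left c0 ?_
        rw [mul_add, mul_add, ← hi g hg, ← hi h hh, ← hcd, ← v]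
        omega
      have h3 : cup χ a g h = a := if_pos hm'
      simp only [h3]
      rw [h1]
      rw [h2] at hr' ⊢
      rw [pow_add G, hGd, ← mul_assoc, ← mul_assoc, mul_io, mul_assoc, mul_assoc, ← mul_assoc (s _),
        ← sec_mul e hr' ud]
      congr 2
      · rw [sec_g hr', aH' _ hr']
      · congr 1
        group
    · have h2 : i g + i h = i (g * h) := by
        rw [ZMod.val_add_of_lt (not_le.1 hm')] at v
        refine Nat.eq_of_mul_eq_mul_left c0 ?_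
        rw [mul_add, ← hi g hg, ← hi h hh, ← v]
      have h3 : cup χ a g h = 1 := if_neg hm'
      rw [h1, h2]
      exact E.ext (by rw [io_mul_x, h3, one_mul]) (by rw [io_mul_g])
  refine ⟨a, aH, a0, fun g => (S g).x⁻¹, Sm.comp ?_ (·⁻¹), fun g _ => inv_ne_zero (S g).hx,
    fun g hg h hh => ?_⟩
  · obtain ⟨N1, n1, e1⟩ := hχ.1
    obtain ⟨N2, n2, e2⟩ := hs
    obtain ⟨N3, n3, e3⟩ := hf.sm
    obtain ⟨N4, n4, e4⟩ := exists_ON_fix ((Finset.range m).image fun j => (G ^ j).x)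
    refine ⟨_, (n1.inf n2).inf (n3.inf n4), fun g hg n hn hN => ?_⟩
    have h1 : i (g * n) = i g := by simp only [i, e1 g hg n hn hN.1.1]
    have h2 : n ∈ H' := (hk n).2 ⟨hn, by
      have := e1 1 H.one_mem n hn hN.1.1
      rwa [one_mul, hχ.one] at this⟩
    have h3 := nm _ (pow_mem hu (i g)) n h2
    have h4 := ((n1.inf n2).inf (n3.inf n4)).1.conj_mem n hN (u ^ i g)
    have h5 : i g < m := (Nat.div_le_self _ _).trans_lt (ZMod.val_lt _)
    simp only [S, h1]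
    rw [show g * n * (u ^ i g)⁻¹ = g * (u ^ i g)⁻¹ * (u ^ i g * n * (u ^ i g)⁻¹) by group, mul_x,
      mul_x, sec_x (hp g hg), sec_g (hp g hg), sec_x (mul_mem (hp g hg) h3),
      sec_g (mul_mem (hp g hg) h3), e2 _ (hp g hg) _ h3 h4.1.2, AlgEquiv.mul_apply,
      e4 _ (Finset.mem_image.2 ⟨_, Finset.mem_range.2 h5, rfl⟩) _ h4.2.2,
      (e3 _ (le (hp g hg)) _ (G ^ i g).hg _ (le h3) h4.2.1).1]
  · have h1 := congrArg E.x (hS g hg h hh)
    rw [io_mul_x, mul_x, Sg g hg, Sg h hh] at h1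
    have h2 := (S g).hx
    have h3 := (map_ne_zero g).2 (S h).hx
    have h4 := (S (g * h)).hx
    have h5 := c0' g h
    simp only [Pi.div_apply, map_inv₀]
    field_simp
    linear_combination h1

end Pool.Agent.P.MP_8b7eba_nt.R2
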