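import Pool.Agent.P.MP_8b7eba_nt.R2.IfA
import Pool.Agent.P.MP_8b7eba_nt.R2.Nrm

/-! Proof of CYC2. -/

namespace Pool.Agent.P.MP_8b7eba_nt.R2

open scoped NNReal ComplexConjugate

/-- a generator of the image of a character -/
theorem TCYC2.gen {H : Subgroup GQ} {m : ℕ} {χ : GQ → ZMod m} (hm : m ≠ 0) (h : IsCh H χ) :
    ∃ (d e : ℕ), ∃ σ ∈ H, 0 < d ∧ 0 < e ∧ m = e * d ∧ χ (σ ^ e) = 0 ∧
      (∀ i < e, (χ (σ ^ i)).val = i * d) ∧ ∀ g ∈ H, ∃ i < e, (χ g).val = i * d := by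
  classical
  have : NeZero m := ⟨hm⟩
  have ex : ∃ d : ℕ, 0 < d ∧ ∃ g ∈ H, χ g = d :=
    ⟨m, Nat.pos_of_ne_zero hm, 1, H.one_mem, by simp [h.one]⟩
  obtain ⟨h1, σ, h2, h3⟩ := Nat.find_spec ex
  have h4 := fun n => Nat.find_min ex (m := n)
  generalize Nat.find ex = d at *
  have h5 : ∀ i : ℕ, χ (σ ^ i) = (i * d : ℕ) := fun i => by simp [h.pow h2, h3]
  have key : ∀ n : ℕ, ∀ g ∈ H, χ g = n → d ∣ n := fun n g hg e => by
    refine Nat.dvd_of_mod_eq_zero (by_contra fun k => h4 _ (Nat.mod_lt n h1)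
      ⟨Nat.pos_of_ne_zero k, g * (σ ^ (n / d))⁻¹, mul_mem hg (inv_mem (pow_mem h2 _)), ?_⟩)
    rw [h.2 _ hg _ (inv_mem (pow_mem h2 _)), h.inv (pow_mem h2 _), h5, e, ← sub_eq_add_neg,
      sub_eq_iff_eq_add, ← Nat.cast_add, Nat.mod_add_div']
  obtain ⟨e, he⟩ := key m 1 H.one_mem (by simp [h.one])
  rw [mul_comm] at he
  refine ⟨d, e, σ, h2, h1, Nat.pos_of_ne_zero fun k => hm (by simp [he, k]), he,
    by rw [h5, ← he, ZMod.natCast_self], fun i hi => ?_, fun g hg => ?_⟩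
  · rw [h5, ZMod.val_cast_of_lt (he ▸ Nat.mul_lt_mul_of_pos_right hi h1)]
  · obtain ⟨i, hi⟩ := key (χ g).val g hg (by simp)
    exact ⟨i, Nat.lt_of_mul_lt_mul_left (a := d) (by
      rw [← hi, mul_comm, ← he]; exact ZMod.val_lt _), by rw [hi, mul_comm]⟩

theorem t_CYC2 (hGAL : GAL) : CYC2 := by
  intro H H' m χ hH hm hc hk a ha h0
  have : NeZero m := ⟨hm⟩
  obtain ⟨d, e, σ, hσ, hd, he, hme, h1, h2, h3⟩ := TCYC2.gen hm hc
  have hp := fun i : ℕ => H.pow_mem hσ i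
  have k1 : ∀ g ∈ H, ∀ h ∈ H, g⁻¹ * h ∈ H' ↔ (χ g).val = (χ h).val := fun g hg h hh => by
    rw [hk, and_iff_right (mul_mem (inv_mem hg) hh), hc.2 _ (inv_mem hg) _ hh, hc.inv hg,
      neg_add_eq_zero, (ZMod.val_injective m).eq_iff]
  have k2 : ∀ g ∈ H, ∀ p ∈ H', g⁻¹ * (p * g) ∈ H' := fun g hg p hp => by
    rw [k1 g hg _ (mul_mem ((hk p).1 hp).1 hg), hc.2 _ ((hk p).1 hp).1 _ hg, ((hk p).1 hp).2,
      zero_add]
  have k3 : ∀ b, Fix H' b → nrm H H' b = ∏ i ∈ Finset.range e, (σ ^ i) b := fun b hb =>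
    nrm_eq_prod _ _ hb (fun i _ => hp i) (fun i hi j hj e => Nat.eq_of_mul_eq_mul_right hd (by
      rwa [k1 _ (hp i) _ (hp j), h2 i (Finset.mem_range.1 hi), h2 j (Finset.mem_range.1 hj)] at e))
      fun g hg => (h3 g hg).imp fun i hi =>
        ⟨Finset.mem_range.2 hi.1, (k1 _ (hp i) g hg).2 (by rw [h2 i hi.1, hi.2])⟩
  have k4 : σ ^ e ∈ H' := (hk _).2 ⟨hp e, h1⟩
  constructor
  · rintro ⟨b, b1, b2, b3⟩
    obtain rfl | he1 := (show 1 ≤ e from he).eq_or_lt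
    · have := ha.mono fun g hg => ((hk g).1 hg).1
      exact ⟨a, this, by simp [k3 a this]⟩
    have c1 : ∀ p ∈ H', ∀ g, cup χ a p g = 1 ∧ cup χ a g p = 1 := fun p hp g => by
      simp [cup, ((hk p).1 hp).2, ZMod.val_lt]
    have le : H' ≤ H := fun g hg => ((hk g).1 hg).1
    obtain ⟨y, hy, e1⟩ := (hGAL H' (by
      obtain ⟨U, hU, rfl⟩ := hk.eq_inf hc
      exact hH.inter (closed_of_open hU))).2.1 b (b1.mono le) (fun g hg => b2 g (le hg))
      fun g hg h hh => by rw [← b3 g (le hg) h (le hh), (c1 g hg h).1, one_mul]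
    have n0 : ∀ g : GQ, g y ≠ 0 := fun g => (map_ne_zero g).2 hy
    obtain ⟨c, c2, c3⟩ : ∃ c : GQ → Om, (∀ p ∈ H', c p = 1) ∧
        ∀ g ∈ H, ∀ h ∈ H, cup χ a g h * c (g * h) = c g * g (c h) :=
      ⟨fun g => b g * y / g y, fun p hp => by simp only [e1 p hp, div_self (n0 p)],
        fun g hg h hh => by
          have := n0 g
          simp only [map_div₀, map_mul, AlgEquiv.mul_apply]
          rw [← mul_div_assoc, ← mul_assoc, b3 g hg h hh]
          field_simp⟩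
    have c4 : ∀ i < e, c (σ ^ i) = ∏ j ∈ Finset.range i, (σ ^ j) (c σ) := fun i hi => by
      induction i with
      | zero => simpa using c2 1 H'.one_mem
      | succ i ih =>
        have := c3 _ (hp i) _ (hp 1)
        rw [cup, h2 i (by omega), h2 1 he1, if_neg (by rw [hme]; nlinarith), one_mul, pow_one,
          ih (by omega)] at this
        rw [pow_succ, this, Finset.prod_range_succ]
    have c5 : Fix H' (c σ) := fun p hp => by
      have e2 := c3 p (le hp) σ hσ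
      have e3 := c3 σ hσ _ (le (k2 σ hσ p hp))
      rw [(c1 _ (k2 σ hσ p hp) σ).2, c2 _ (k2 σ hσ p hp), mul_inv_cancel_left, map_one] at e3
      rw [(c1 p hp σ).1, e3, c2 p hp] at e2
      simpa using e2.symm
    obtain ⟨i, rfl⟩ := Nat.exists_eq_succ_of_ne_zero he.ne'
    have := c3 _ (hp i) _ (hp 1)
    rw [cup, h2 i (by omega), h2 1 he1, if_pos (by rw [hme]; nlinarith), pow_one,
      c4 i (by omega), ← pow_succ, c2 _ k4, mul_one] at this
    exact ⟨c σ, c5, by rw [k3 _ c5, Finset.prod_range_succ, this]⟩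
  · rintro ⟨b, hb, e1⟩
    rw [k3 b hb] at e1
    set P : ℕ → Om := fun i => ∏ j ∈ Finset.range i, (σ ^ j) b with hP
    have p1 : ∀ i k, P (i + k) = P i * (σ ^ i) (P k) := fun i k => by
      simp only [hP, Finset.prod_range_add, map_prod, pow_add, AlgEquiv.mul_apply]
    have p2 : ∀ i, Fix H' (P i) := fun i => Fix.prod fun j _ p hp' => by
      have := congrArg (σ ^ j) (hb _ (k2 _ (hp j) p hp'))
      rwa [← AlgEquiv.mul_apply, mul_inv_cancel_left] at this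
    have b0 : b ≠ 0 := by
      rintro rfl
      exact h0 (e1 ▸ Finset.prod_eq_zero (Finset.mem_range.2 he) (map_zero _))
    refine ⟨fun g => P ((χ g).val / d), hc.1.comp fun x => P (x.val / d),
      fun g _ => Finset.prod_ne_zero_iff.2 fun j _ => (map_ne_zero _).2 b0, fun g hg h hh => ?_⟩
    obtain ⟨i, hi, e2⟩ := h3 g hg
    obtain ⟨k, hk', e3⟩ := h3 h hh
    have p3 := congrArg (σ ^ i) (p2 k _ ((k1 _ (hp i) g hg).2 (by rw [h2 i hi, e2])))
    rw [← AlgEquiv.mul_apply, mul_inv_cancel_left] at p3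
    simp only [cup, hc.2 g hg h hh, ZMod.val_add, e2, e3, Nat.mul_div_cancel _ hd, p3, ← p1,
      ← add_mul, hme, Nat.mul_mod_mul_right, Nat.mul_le_mul_right_iff hd]
    split_ifs with k4
    · obtain ⟨l, hl⟩ := Nat.exists_eq_add_of_le k4
      rw [hl, p1, p2 l _ ‹_›, Nat.add_mod_left, Nat.mod_eq_of_lt (by omega), ← e1]
    · rw [one_mul, Nat.mod_eq_of_lt (by omega)]

end Pool.Agent.P.MP_8b7eba_nt.R2
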