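import Pool.Agent.P.MP_8b7eba_nt.R2.IfA
import Pool.Agent.P.MP_8b7eba_nt.R2.Nrm

/-! Proof of DENS, WA. -/

namespace Pool.Agent.P.MP_8b7eba_nt.R2

open scoped NNReal ComplexConjugate
open Filter

theorem TDENS.small (c : ℝ≥0) {t ε : ℝ≥0} (ht : t < 1) (hε : 0 < ε) :
    ∀ᶠ m : ℕ in atTop, c * t ^ m < ε := by
  have := (NNReal.tendsto_pow_atTop_nhds_zero_of_lt_one ht).const_mul c
  rw [mul_zero] at this
  exact this.eventually_lt_const hε

/-- separation of a place from finitely many places that are not conjugate to it -/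
theorem TDENS.sep (hPL : PL) {V : Subgroup GQ} (hV : IsOpen (V : Set GQ)) (w : Pl) (T : Finset Pl)
    (hT : ∀ w' ∈ T, ∀ u ∈ V, u • w' ≠ w) (a : Om) {ε : ℝ≥0} (hε : 0 < ε) :
    ∃ e, Fix V e ∧ w.v (a - a * e) < ε ∧ ∀ w' ∈ T, w'.v (a * e) < ε := by
  classical
  have h1 : ∀ w' : Pl, ∃ x, w' ∈ T → Fix V x ∧ IsIntegral ℤ x ∧ w'.v x < 1 ∧ w.v x = 1 := by
    intro w'
    by_contra h
    push Not at h
    obtain ⟨u, hu, e⟩ := hPL.2.2.1 V w' w hV fun x h1 h2 h3 =>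
      lt_of_le_of_ne (hPL.2.2.2.1 w x h2) ((h x).2 h1 h2 h3)
    exact hT w' (h 0).1 u hu e
  choose x hx using h1
  have h2 : w.v (∏ i ∈ T, x i) = 1 := by
    rw [map_prod]; exact Finset.prod_eq_one fun i hi => (hx i hi).2.2.2
  have h3 : ∀ w' ∈ T, w'.v (∏ i ∈ T, x i) < 1 := by
    intro w' h
    rw [map_prod, ← Finset.mul_prod_erase T _ h]
    exact mul_lt_one_of_nonneg_of_lt_one_left zero_le (hx w' h).2.2.1 (Finset.prod_le_one'
      fun i hi => hPL.2.2.2.1 w' _ (hx i (Finset.mem_of_mem_erase hi)).2.1)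
  have h4 : Fix V (∏ i ∈ T, x i) := Fix.prod fun i hi => (hx i hi).1
  generalize ∏ i ∈ T, x i = z at h2 h3 h4
  obtain ⟨k, k1, k2⟩ := ((TDENS.small (w.v a) w.v_p_lt hε).and
    (TDENS.small 1 w.v_p_lt one_pos)).exists
  have hp : ∀ w' : Pl, 0 < w'.v (w.p ^ k) := fun w' =>
    w'.v.pos_iff.2 (pow_ne_zero k (Nat.cast_ne_zero.2 w.prime.ne_zero))
  obtain ⟨m, hm⟩ := ((eventually_all_finset T).2 fun w' h =>
    (TDENS.small (w'.v a) (h3 w' h) (mul_pos hε (hp w'))).and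
      (TDENS.small 1 (h3 w' h) (hp w'))).exists
  have h5 : w.v (z ^ m + w.p ^ k) = 1 := by
    rw [w.v.map_add_eq_of_lt_left (by simpa [h2] using k2), map_pow, h2, one_pow]
  have h6 : z ^ m + (w.p : Om) ^ k ≠ 0 := fun e => by simp [e] at h5
  refine ⟨z ^ m / (z ^ m + w.p ^ k), (h4.pow m).div ((h4.pow m).add ((fix_nat _).pow k)), ?_,
    fun w' h => ?_⟩
  · rw [← mul_one_sub, one_sub_div h6, add_sub_cancel_left, map_mul, map_div₀, h5, div_one, map_pow]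
    exact k1
  · rw [map_mul, map_div₀, w'.v.map_add_eq_of_lt_right (by simpa using (hm w' h).2),
      ← mul_div_assoc, div_lt_iff₀ (hp w'), map_pow]
    exact (hm w' h).1

theorem t_DENS (hPL : PL) : DENS := by
  classical
  intro w U hU x hx ε hε
  have hV : IsOpen ((U ⊓ MulAction.stabilizer GQ x : Subgroup GQ) : Set GQ) :=
    hU.inter (isOpen_stab x)
  have h1 : w.D ⊓ U ≤ U ⊓ MulAction.stabilizer GQ x := fun g hg => ⟨hg.2, hx g hg⟩
  have h2 : Fix (U ⊓ MulAction.stabilizer GQ x) x := fun g hg => hg.2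
  have h0 : U ⊓ MulAction.stabilizer GQ x ≤ U := inf_le_left
  generalize U ⊓ MulAction.stabilizer GQ x = V at hV h0 h1 h2
  obtain ⟨s, -, s1, -, s2⟩ := exists_reps (relIndex_ne_zero hV U)
  obtain ⟨e, e1, e2, e3⟩ := TDENS.sep hPL hV w ((s.filter (· ∉ V)).image (·⁻¹ • w)) (by
    simp only [Finset.mem_image, Finset.mem_filter]
    rintro _ ⟨u, ⟨h3, h4⟩, rfl⟩ v hv h5
    have h6 : v * u⁻¹ ∈ V :=
      h1 ⟨(mul_smul v u⁻¹ w).trans h5, U.mul_mem (h0 hv) (U.inv_mem (s1 u h3))⟩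
    exact h4 (V.inv_mem_iff.1 ((V.mul_mem_cancel_left hv).1 h6))) x hε
  have ha := h2.mul e1
  generalize x * e = a at e2 e3 ha
  have hO : ∀ z, z ∈ s.image (fun u : GQ => u a) ↔ ∃ u ∈ U, u a = z := by
    intro z
    rw [Finset.mem_image]
    refine ⟨fun ⟨u, hu, e⟩ => ⟨u, s1 u hu, e⟩, fun ⟨u, hu, e⟩ => ?_⟩
    obtain ⟨i, hi, h3⟩ := s2 u hu
    refine ⟨i, hi, ?_⟩
    rw [← e, ← mul_inv_cancel_left i u, AlgEquiv.mul_apply, ha _ h3]
  refine ⟨∑ z ∈ s.image (fun u : GQ => u a), z, fun g hg => ?_, ?_⟩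
  · rw [map_sum]
    refine Finset.sum_equiv g.toEquiv (fun z => ?_) fun _ _ => rfl
    rw [hO, hO]
    refine ⟨fun ⟨u, hu, e⟩ => ⟨g * u, U.mul_mem hg hu, congrArg g e⟩, fun ⟨u, hu, e⟩ =>
      ⟨g⁻¹ * u, U.mul_mem (U.inv_mem hg) hu, (congrArg g.symm e).trans (g.symm_apply_apply z)⟩⟩
  · rw [← Finset.add_sum_erase _ _ ((hO a).2 ⟨1, U.one_mem, rfl⟩), ← sub_sub]
    refine (w.v.map_sub _ _).trans_lt (max_lt e2 (w.v.map_sum_lt hε.ne' fun z hz => ?_))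
    obtain ⟨h3, h4⟩ := Finset.mem_erase.1 hz
    obtain ⟨u, hu, rfl⟩ := Finset.mem_image.1 h4
    exact e3 (u⁻¹ • w)
      (Finset.mem_image_of_mem _ (Finset.mem_filter.2 ⟨hu, fun h => h3 (ha u h)⟩))

theorem t_WA (hPL : PL) : WA := by
  classical
  intro U hU R hR x hx ε hε
  have h1 : ∀ w : Pl, ∃ a, w ∈ R → Fix U a ∧ w.v (x w - a) < ε ∧
      ∀ w' ∈ R.erase w, w'.v a < ε := by
    intro w
    by_cases h : w ∈ R
    · obtain ⟨y, h1, h2⟩ := t_DENS hPL w U hU (x w) (hx w h) ε hε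
      obtain ⟨e, e1, e2, e3⟩ := TDENS.sep hPL hU w (R.erase w) (fun w' h' u hu e =>
        (Finset.mem_erase.1 h').1
          ((hR w' (Finset.mem_erase.1 h').2 u hu (e ▸ h)).symm.trans e)) y hε
      refine ⟨y * e, fun _ => ⟨h1.mul e1, ?_, e3⟩⟩
      rw [← sub_add_sub_cancel _ y]
      exact w.v.map_add_lt h2 e2
    · exact ⟨0, fun h' => absurd h' h⟩
  choose a ha using h1
  refine ⟨∑ w ∈ R, a w, Fix.sum fun w h => (ha w h).1, fun w h => ?_⟩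
  rw [← Finset.add_sum_erase _ _ h, ← sub_sub]
  refine (w.v.map_sub _ _).trans_lt (max_lt (ha w h).2.1 (w.v.map_sum_lt hε.ne' fun w' h' => ?_))
  obtain ⟨h1, h2⟩ := Finset.mem_erase.1 h'
  exact (ha w' h2).2.2 w (Finset.mem_erase.2 ⟨h1.symm, h⟩)

end Pool.Agent.P.MP_8b7eba_nt.R2
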