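import Pool.Agent.P.MP_8b7eba_nt.R2.IfA
import Pool.Agent.P.MP_8b7eba_nt.R2.Nrm

/-! Proof of DIE. -/

namespace Pool.Agent.P.MP_8b7eba_nt.R2

open scoped NNReal ComplexConjugate

namespace TDIE

variable {w : Pl} {H H₁ A B P : Subgroup GQ} {f : GQ → GQ → Om}

theorem idx (h : A.relIndex P = 2) (hB : B ≤ P) (hn : ¬ B ≤ A) : A.relIndex B = 2 := by
  have h1 := Subgroup.relIndex_le_of_le_right (H := A) hB (by omega)
  have h2 := mt (Subgroup.relIndex_eq_zero_of_le_right (H := A) hB) (by omega)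
  have h3 := mt Subgroup.relIndex_eq_one.1 hn
  omega

theorem ge_of_le (h : A.relIndex P = 2) (h' : B.relIndex P = 2) (hB : B ≤ P) (hl : A ≤ B) :
    B ≤ A := by
  have := Subgroup.relIndex_mul_relIndex A B P hl hB
  rw [h, h'] at this
  exact Subgroup.relIndex_eq_one.1 (by omega)

theorem loc_eq (h : w.Loc H) (h₁ : w.Loc H₁) (hl : H₁ ≤ H) :
    ∃ U : Subgroup GQ, IsOpen (U : Set GQ) ∧ H₁ = H ⊓ U := by
  obtain ⟨U, hU, rfl⟩ := h₁
  exact ⟨U, hU, le_antisymm (le_inf hl inf_le_right) (inf_le_inf_right _ h.le)⟩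

theorem loc_inf (h : w.Loc A) (h' : w.Loc B) : w.Loc (A ⊓ B) := by
  obtain ⟨U, hU, rfl⟩ := h'
  rw [← inf_assoc, inf_of_le_left h.le]
  exact h.inf hU

theorem root (hGAL : GAL) (h : w.Loc H) (h₁ : w.Loc H₁) (hl : H₁ ≤ H) (hi : H₁.relIndex H = 2) :
    ∃ β : Om, β ≠ 0 ∧ Fix H (β ^ 2) ∧ IsKer H H₁ (qc β) ∧ ¬ Sq H (β ^ 2) := by
  obtain ⟨U, hU, rfl⟩ := loc_eq h h₁ hl
  rw [Subgroup.inf_relIndex_left] at hi
  obtain ⟨β, b0, b1, b2⟩ := (hGAL H h.closed).2.2.2.1 U hU hi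
  have e : ∀ g ∈ H, g β = β → g ∈ U := fun g hg e => by
    by_contra hn
    exact b0 (self_eq_neg.1 (e.symm.trans ((b2 g hg).2 hn)))
  refine ⟨β, b0, b1, fun g => and_congr_right fun hg => ?_, fun hs => ?_⟩
  · simpa [qc] using ⟨(b2 g hg).1, e g hg⟩
  · have := Subgroup.relIndex_eq_one.2 fun g hg => e g hg ((sq_iff b1).1 hs g hg)
    omega

theorem lemS (hGAL : GAL) (hSYM : SYM) (hSERRE : SERRE) (h : w.Loc H) (h₁ : w.Loc H₁) (hl : H₁ ≤ H)
    (hi : H₁.relIndex H = 2) (hf : Co2 H f) (ht : Triv H₁ f) :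
    ∀ H', w.Loc H' → H' ≤ H → H'.relIndex H = 2 → Triv H' f := fun H' a b c => by
  obtain ⟨β, b0, b1, b2, -⟩ := root hGAL h h₁ hl hi
  obtain ⟨x, x1, x0, -, x2⟩ := (hSYM H H₁ β h.closed b0 b1 b2).2.2.2.2 f hf ht
  exact (x2 H' b a.closed).2 (hSERRE w H H' x _ h a b c x1 b1 x0 (pow_ne_zero 2 b0))

theorem ker_idx {m : ℕ} {χ : GQ → ZMod m} (hc : IsCh P χ) (hk : IsKer P A χ) (hm : m ≠ 0)
    (h1 : ∃ g ∈ P, χ g = 1) : A.relIndex P = m := by
  obtain ⟨g, hg, e⟩ := h1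
  have : NeZero m := ⟨hm⟩
  rw [hk.relIndex hc, Set.eq_univ_of_forall (s := χ '' P) fun x =>
    ⟨g ^ x.val, pow_mem hg _, by simp [hc.pow hg, e]⟩, Set.ncard_univ, Nat.card_zmod]

theorem unr (hCYC1 : CYC1) (hCYC2 : CYC2) (hCUP : CUP) (hUCH : UCH) (hUNIF : UNIF) (hUNIT : UNIT)
    (h : w.Loc P) : ∃ M₁ M, w.Loc M₁ ∧ w.Loc M ∧ M₁ ≤ P ∧ M ≤ M₁ ∧ M₁.relIndex P = 2 ∧
      M.relIndex M₁ = 2 ∧ ∀ f, Co2 P f → Triv P (f ^ 2) → Triv M f → Triv M₁ f := by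
  obtain ⟨χ, c1, c2, c3⟩ : ∃ χ : GQ → ZMod 4, IsCh P χ ∧ (∀ g ∈ w.I ⊓ P, χ g = 0) ∧
    ∃ g ∈ P, χ g = 1 := (hUCH w 2).2 P h
  obtain ⟨χ', e'⟩ : ∃ χ' : GQ → ZMod 2, ∀ g, χ' g = ZMod.castHom (by decide : 2 ∣ 4) (ZMod 2) (χ g) :=
    ⟨_, fun _ => rfl⟩
  have d1 : IsCh P χ' := ⟨(c1.1.comp _).congr fun g _ => e' g, fun g hg k hk => by
    simp only [e', c1.2 g hg k hk, map_add]⟩
  obtain ⟨V, -, k⟩ := c1.exists_ker
  obtain ⟨V', -, k'⟩ := d1.exists_ker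
  have i4 := ker_idx c1 k (by decide) c3
  have i2 := ker_idx d1 k' (by decide) (c3.imp fun g hg => ⟨hg.1, by rw [e', hg.2, map_one]⟩)
  have le : P ⊓ V ≤ P ⊓ V' := fun g hg => (k' g).2 ⟨hg.1, by rw [e', ((k g).1 hg).2, map_zero]⟩
  have := Subgroup.relIndex_mul_relIndex _ _ P le inf_le_left
  refine ⟨_, _, h.ker d1 k', h.ker c1 k, inf_le_left, le, i2, by rw [i2, i4] at this; omega,
    fun f hf h2 ht => ?_⟩
  obtain ⟨a, a1, a0, a2⟩ := hCYC1 P _ 4 χ h.closed (by decide) c1 k f hf ht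
  obtain ⟨U, hU, eP⟩ := id h
  obtain ⟨π, -, p1, p2, -⟩ := hUNIF w U hU
  rw [← eP] at p1
  obtain ⟨j, hj⟩ := p1.2.2.2 a a1 a0
  have q0 : π ^ j ≠ 0 := zpow_ne_zero j p1.2.1
  have q1 : Fix P (π ^ j) := p1.1.zpow j
  have cy := hCYC2 P _ 4 χ h.closed (by decide) c1 k
  have t1 : Triv P (cup χ (a / π ^ j)) := (cy _ (a1.div q1) (div_ne_zero a0 q0)).2
    ((hUNIT w P _ 4 2 χ rfl h c1 k).1 c2 _ (a1.div q1) (by
      rw [map_div₀, map_zpow₀, hj, div_self (zpow_ne_zero j ((map_ne_zero _).2 p1.2.1))]))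
  obtain ⟨u1, -, u3, -⟩ := hCUP P _ q1 q0 4 χ (by decide) c1
  have t2 : Triv P (f / cup χ (π ^ j)) := by
    refine a2.trans (t1.congr fun g hg l hl => ?_)
    conv_lhs => rw [← mul_div_cancel₀ a q0, u3]
    exact mul_div_cancel_left₀ _ (u1.ne g hg l hl)
  obtain ⟨b, b1, b2⟩ := (cy _ (q1.mul q1) (mul_ne_zero q0 q0)).1 (by
    rw [u3, ← sq]
    exact (Triv.iff (div_pow f _ 2 ▸ t2.pow 2)).1 h2)
  have b0 : b ≠ 0 := fun e => mul_ne_zero q0 q0 (b2 ▸ (nrm_eq_zero (by omega)).2 e)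
  obtain ⟨i, hi⟩ := p2.2.2.2 b (b1.mono fun g hg =>
    have m : g ∈ P := eP ▸ ⟨w.I_le_D hg.1, hg.2⟩
    (k g).2 ⟨m, c2 g ⟨hg.1, m⟩⟩) b0
  have ej : j = i * 2 := by
    have := congrArg w.v b2
    rw [v_nrm (by omega) h.le, i4, hi, ← zpow_add₀ p1.2.1, map_zpow₀, ← zpow_natCast,
      ← zpow_mul] at this
    have := p1.zpow_inj this
    omega
  have t3 := ((hCUP P _ (p1.1.zpow i) (zpow_ne_zero i p1.2.1) 2 χ' (by decide) d1).2.2.2.2.2.1
    4 2 χ rfl (by decide)).2 c1 fun g _ => by rw [e', ZMod.castHom_apply, ZMod.natCast_val]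
  rw [ej, zpow_mul, zpow_ofNat] at t2
  refine ((t2.trans t3.symm).mono inf_le_left).iff.2 (Triv.one.congr fun g hg l hl => ?_)
  simp [cup, ((k' g).1 hg).2, ((k' l).1 hl).2]

theorem two_dvd {x y : ℤ_[2]} (hx : ¬ 2 ∣ x) (hy : ¬ 2 ∣ y) : 2 ∣ x + y := by
  have k : ∀ z : ℤ_[2], 2 ∣ z ↔ PadicInt.toZMod z = 0 := fun z => by
    rw [← RingHom.mem_ker, PadicInt.ker_toZMod, PadicInt.maximalIdeal_eq_span_p,
      Ideal.mem_span_singleton, Nat.cast_ofNat]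
  rw [k] at hx hy ⊢
  rw [map_add]
  revert hx hy
  generalize PadicInt.toZMod x = a
  generalize PadicInt.toZMod y = b
  revert a b
  decide

end TDIE

open TDIE in
theorem t_DIE (hGAL : GAL) (hSYL : SYL) (hGAS : GAS) (hCYC1 : CYC1) (hCYC2 : CYC2) (hCUP : CUP)
    (hSYM : SYM) (hUCH : UCH) (hUNIF : UNIF) (hNI : NI) (hSERRE : SERRE) (hUNIT : UNIT) : DIE := by
  have un := fun {w P} (h : Pl.Loc w P) => unr hCYC1 hCYC2 hCUP hUCH hUNIF hUNIT h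
  have p1 : ∀ (w : Pl) (H : Subgroup GQ) (f : GQ → GQ → Om), w.Loc H → Co2 H f → Triv H (f ^ 2) →
      ∀ H', w.Loc H' → H' ≤ H → H'.relIndex H = 2 → Triv H' f := by
    intro w H f h hf h2 H' l1 l2 l3
    obtain ⟨N, hN, tN⟩ := hf.exists_triv
    have main : ∀ P Q, Ch2 P Q → P ≤ H → Q = N ⊓ H →
        ∀ H', w.Loc H' → H' ≤ P → H'.relIndex P = 2 → Triv H' f := by
      intro P Q hc
      induction hc with
      | refl P => exact fun _ e H' _ b _ => tN.mono (e ▸ b)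
      | @step P P₁ Q s1 s2 s3 ih =>
        intro hP e
        have ih := ih (s1.trans hP) e
        have lP₁ := h.of_le hN (e ▸ s3.le) (s1.trans hP)
        have lP := h.of_le hN ((e ▸ s3.le : N ⊓ H ≤ P₁).trans s1) hP
        obtain ⟨M₁, M, m1, m2, m3, m4, m5, m6, m7⟩ := un lP
        refine lemS hGAL hSYM hSERRE lP m1 m3 m5 (hf.mono hP)
          (m7 f (hf.mono hP) (h2.mono hP) ?_)
        by_cases c : M₁ ≤ P₁
        · obtain rfl := le_antisymm c (ge_of_le m5 s2 s1 c)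
          exact ih M m2 m4 m6
        · have li := loc_inf m1 lP₁
          exact lemS hGAL hSYM hSERRE m1 li inf_le_left
            (by rw [Subgroup.inf_relIndex_left]; exact idx s2 m3 c) (hf.mono (m3.trans hP))
            (ih _ li inf_le_right (by
              rw [Subgroup.inf_relIndex_right]
              exact idx m5 s1 fun c' => c (ge_of_le s2 m5 m3 c'))) M m2 m4 m6
    obtain ⟨P, s1, s2, s3⟩ := hSYL H N hN
    have lP := h.of_le hN s3.le s1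
    have i2 : (H' ⊓ P).relIndex P = 2 := by
      rw [Subgroup.inf_relIndex_right]
      refine idx l3 s1 fun c => ?_
      rw [← Subgroup.relIndex_mul_relIndex P H' H c l2, l3] at s2
      exact (Nat.not_odd_iff_even.2 (even_two.mul_left _)) s2
    have t := main P _ s3 s1 rfl _ (loc_inf l1 lP) inf_le_right i2
    have e1 := Subgroup.relIndex_mul_relIndex (H' ⊓ P) H' H inf_le_left l2
    rw [← Subgroup.relIndex_mul_relIndex (H' ⊓ P) P H inf_le_right s1, i2, l3] at e1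
    obtain ⟨U, hU, eU⟩ := loc_eq l1 (loc_inf l1 lP) inf_le_left
    rw [eU] at t e1
    rw [Subgroup.inf_relIndex_left] at e1
    exact hGAS H' U f hU (by rwa [show U.relIndex H' = P.relIndex H by omega])
      ⟨hf.mono l2, 1, by simpa using h2.mono l2⟩ t
  refine fun w H f h hf h2 => ⟨p1 w H f h hf h2, fun f' hf' h2' n n' => ?_⟩
  obtain ⟨M₁, -, m1, -, m3, -, m5, -⟩ := un h
  obtain ⟨β, b0, b1, b2, b3⟩ := root hGAL h m1 m3 m5
  obtain ⟨y1, -, y3, -, y5⟩ := hSYM H M₁ β h.closed b0 b1 b2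
  obtain ⟨a, a1, a0, a2, a3⟩ := y5 f hf (p1 w H f h hf h2 M₁ m1 m3 m5)
  obtain ⟨a', a1', a0', a2', a3'⟩ := y5 f' hf' (p1 w H f' h hf' h2' M₁ m1 m3 m5)
  have := (y3 _ (a1.mul a1') (mul_ne_zero a0 a0')).2 ((hNI w H _ h b1 (pow_ne_zero 2 b0) b3).2
    a a' a1 a1' (mt (a3 H le_rfl h.closed).2 n) (mt (a3' H le_rfl h.closed).2 n'))
  rw [(hCUP H a a1 a0 2 _ (by decide) y1).2.2.1] at this
  exact (Triv.iff (mul_div_mul_comm f f' _ _ ▸ a2.mul a2')).2 this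

theorem t_DIEK (hLG : LG) (hDIE : DIE) : DIEK := by
  rintro w H f h ⟨hf, k, hk⟩
  obtain ⟨g1, -, -, g4, g5⟩ := hLG
  have mem : ∀ n σ, σ ∈ KP n ↔ 2 ^ n ∣ lg (cyc σ) := fun n => (g4 n).2.2.2.2.1
  have anti : ∀ {m n}, m ≤ n → KP n ≤ KP m := fun hmn σ hσ =>
    (mem _ σ).2 ((pow_dvd_pow 2 hmn).trans ((mem _ σ).1 hσ))
  induction k generalizing f with
  | zero => exact ⟨0, fun n _ => (by simpa using hk : Triv H f).mono inf_le_left⟩
  | succ k ih =>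
    classical
    obtain ⟨n₀, h₀⟩ := ih (f ^ 2) (hf.pow 2) (by rwa [← pow_mul, ← pow_succ'])
    have l₀ := h.inf (g4 n₀).2.2.2.1.2
    obtain ⟨g, hg, g0⟩ := g5 w _ l₀
    have ex : ∃ n, ¬ H ⊓ KP n₀ ≤ KP (n + 1) :=
      (FiniteMultiplicity.of_not_isUnit (a := 2) PadicInt.prime_p.not_isUnit g0).imp
        fun n hn c => hn ((mem _ g).1 (c hg))
    have sp := Nat.find_spec ex
    have le : H ⊓ KP n₀ ≤ KP (Nat.find ex) := by
      rcases e : Nat.find ex with _ | n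
      · exact fun σ _ => (mem _ σ).2 (by simp)
      · exact not_not.1 (Nat.find_min ex (by omega))
    generalize Nat.find ex = n at sp le
    have t := (hDIE w _ f l₀ (hf.mono inf_le_left) (h₀ n₀ le_rfl)).1 _
      (l₀.inf (g4 (n + 1)).2.2.2.1.2) inf_le_left (by
        obtain ⟨a, ha, na⟩ := SetLike.not_le_iff_exists.1 sp
        rw [Subgroup.inf_relIndex_left, Subgroup.relIndex_eq_two_iff_exists_notMem_and]
        refine ⟨a, ha, na, fun b hb => or_iff_not_imp_right.2 fun nb => ?_⟩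
        obtain ⟨x, hx⟩ := (mem _ a).1 (le ha)
        obtain ⟨y, hy⟩ := (mem _ b).1 (le hb)
        rw [mem, pow_succ] at na nb ⊢
        rw [show cyc (b * a) = cyc b * cyc a from
          map_mul (cyclotomicCharacter Om 2) b.toRingEquiv a.toRingEquiv, g1.mul, hx, hy, ← mul_add]
        exact mul_dvd_mul_left _ (TDIE.two_dvd (fun c => nb (hy ▸ mul_dvd_mul_left _ c))
          fun c => na (hx ▸ mul_dvd_mul_left _ c)))
    exact ⟨max n₀ (n + 1), fun m hm => t.mono (le_inf (inf_le_inf_left _ (anti (le_of_max_le_left hm)))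
      (inf_le_right.trans (anti (le_of_max_le_right hm))))⟩

end Pool.Agent.P.MP_8b7eba_nt.R2
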