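import Pool.Agent.P.MP_8b7eba_nt.R2.IfA
import Pool.Agent.P.MP_8b7eba_nt.R2.Nrm

/-! Proof of EC. -/

namespace Pool.Agent.P.MP_8b7eba_nt.R2

open scoped NNReal ComplexConjugate

namespace TEC

theorem dvd_iff (k : ℕ) (a b : ℤ_[2]) :
    2 ^ k ∣ a - b ↔ PadicInt.toZModPow k a = PadicInt.toZModPow k b := by
  rw [← sub_eq_zero, ← map_sub, ← RingHom.mem_ker, PadicInt.ker_toZModPow,
    Ideal.mem_span_singleton]
  norm_num

theorem spec (σ : GQ) (k : ℕ) (z : Om) (h : z ^ 2 ^ k = 1) :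
    σ z = z ^ (PadicInt.toZModPow k (cyc σ : ℤ_[2])).val :=
  cyclotomicCharacter.spec 2 σ.toRingEquiv z h

theorem act (σ : GQ) (k m : ℕ) (z : Om) (h : z ^ 2 ^ k = 1) (hd : 2 ^ k ∣ (cyc σ : ℤ_[2]) - m) :
    σ z = z ^ m := by
  rw [spec σ k z h, (dvd_iff k _ _).1 hd, map_natCast, ZMod.val_natCast, ← pow_eq_pow_mod m h]

theorem act' (σ : GQ) (k m : ℕ) (z : Om) (h : IsPrimitiveRoot z (2 ^ k)) (e : σ z = z ^ m) :
    2 ^ k ∣ (cyc σ : ℤ_[2]) - m := by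
  rw [dvd_iff, map_natCast]
  rw [spec σ k z h.pow_eq_one, pow_eq_pow_mod m h.pow_eq_one] at e
  have := h.pow_inj (ZMod.val_lt _) (Nat.mod_lt _ (by positivity)) e
  rw [← ZMod.natCast_zmod_val (PadicInt.toZModPow k _), this, ZMod.natCast_mod]

theorem eq_of {a b : ℤ_[2]} (h : ∀ k : ℕ, 2 ^ k ∣ a - b) : a = b :=
  PadicInt.ext_of_toZModPow.1 fun k => (dvd_iff k a b).1 (h k)

theorem roots : ∃ z : ℕ → Om, (∀ k, IsPrimitiveRoot (z k) (2 ^ k)) ∧
    ∀ k j, z (k + j) ^ 2 ^ j = z k := by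
  choose s hs using fun x : Om => exists_root x two_ne_zero
  let w : ℕ → Om := fun k => s^[k] (-1)
  have h1 : ∀ k, w (k + 1) ^ 2 = w k := fun k => by
    simp only [w, Function.iterate_succ_apply', hs]
  have h2 : ∀ k, w k ^ 2 ^ k = -1 := fun k => by
    induction k with
    | zero => simp [w]
    | succ k ih => rw [pow_succ', pow_mul, h1, ih]
  refine ⟨fun k => w k ^ 2, fun k => ?_, fun k j => ?_⟩
  · cases k with
    | zero => simp [w]
    | succ k =>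
      simp only [h1]
      rw [IsPrimitiveRoot.iff_orderOf]
      exact orderOf_eq_prime_pow (by rw [h2]; norm_num) (by rw [pow_succ, pow_mul, h2]; norm_num)
  · induction j with
    | zero => simp
    | succ j ih =>
      rw [← ih, ← add_assoc]
      simp only [h1]
      rw [pow_succ', pow_mul]

theorem norm2 (k : ℕ) : ‖(2 : ℚ_[2]) ^ k‖ = (2 : ℝ) ^ (-(k : ℤ)) := by
  simpa using Padic.norm_p_pow (p := 2) k

theorem rep (x : ℚ_[2]) : ∃ (k : ℕ) (m : ℤ), ‖x - m / 2 ^ k‖ ≤ 1 := by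
  obtain ⟨k, hk⟩ := pow_unbounded_of_one_lt ‖x‖ (one_lt_two : (1 : ℝ) < 2)
  have h0 : (0 : ℝ) < 2 ^ k := by positivity
  have h1 : ‖2 ^ k * x‖ ≤ 1 := by
    rw [norm_mul, norm2, zpow_neg, zpow_natCast, inv_mul_le_iff₀ h0, mul_one]; exact hk.le
  obtain ⟨c, hc⟩ := Ideal.mem_span_singleton.1 (PadicInt.appr_spec k (⟨_, h1⟩ : ℤ_[2]))
  refine ⟨k, (PadicInt.appr (⟨_, h1⟩ : ℤ_[2]) k : ℕ), ?_⟩
  have h2 := congrArg (fun t : ℤ_[2] => (t : ℚ_[2])) hc
  simp only [PadicInt.coe_sub, PadicInt.coe_natCast, PadicInt.coe_mul, PadicInt.coe_pow,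
    Nat.cast_ofNat] at h2
  have h3 : x - (((PadicInt.appr (⟨_, h1⟩ : ℤ_[2]) k : ℕ) : ℤ) : ℚ_[2]) / 2 ^ k = c := by
    have h4 : ((2 : ℤ_[2]) : ℚ_[2]) = 2 := rfl
    rw [h4, sub_eq_iff_eq_add', ← sub_eq_iff_eq_add] at h2
    rw [Int.cast_natCast, ← h2]
    field_simp
    ring
  rw [h3]; exact c.2

theorem norm_iff (k : ℕ) (m : ℤ) : ‖(m : ℚ_[2]) / 2 ^ k‖ ≤ 1 ↔ ((2 ^ k : ℕ) : ℤ) ∣ m := by
  have := Padic.norm_int_le_pow_iff_dvd (p := 2) m k
  push_cast at this ⊢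
  rw [← this, norm_div, norm2, div_le_one (by positivity)]

theorem exists_ec : ∃ e, IsEc e := by
  obtain ⟨z, h1, h2⟩ := roots
  have hz : ∀ k, z k ≠ 0 := fun k => (h1 k).ne_zero (by positivity)
  have up : ∀ (k j : ℕ) (m : ℤ), z k ^ m = z (k + j) ^ (2 ^ j * m) := fun k j m => by
    rw [← h2 k j, zpow_mul]; norm_cast
  have key : ∀ (k k' : ℕ) (m m' : ℤ), ‖(m : ℚ_[2]) / 2 ^ k - m' / 2 ^ k'‖ ≤ 1 ↔
      z k ^ m = z k' ^ m' := fun k k' m m' => by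
    have e : (m : ℚ_[2]) / 2 ^ k - m' / 2 ^ k' =
        ((2 ^ k' * m - 2 ^ k * m' : ℤ) : ℚ_[2]) / 2 ^ (k + k') := by
      push_cast; field_simp; ring
    rw [e, norm_iff, ← (h1 _).zpow_eq_one_iff_dvd, zpow_sub₀ (hz _), div_eq_one_iff_eq
      (zpow_ne_zero _ (hz _)), up k k', up k' k, add_comm k' k]
  choose k m hm using rep
  have sp : ∀ (x : ℚ_[2]) (k' : ℕ) (m' : ℤ), ‖x - m' / 2 ^ k'‖ ≤ 1 → z (k x) ^ m x = z k' ^ m' :=
    fun x k' m' h => by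
      rw [← key, show (m x : ℚ_[2]) / 2 ^ k x - m' / 2 ^ k' =
        (x - m' / 2 ^ k') + -(x - m x / 2 ^ k x) by ring]
      exact (Padic.nonarchimedean _ _).trans (max_le h (by rw [norm_neg]; exact hm x))
  refine ⟨fun x => z (k x) ^ m x, fun x y => ?_, fun x => ?_, fun σ x => ?_, fun n y hy => ?_⟩
  · rw [sp (x + y) (k x + k y) (2 ^ k y * m x + 2 ^ k x * m y), zpow_add₀ (hz _), ← up,
      add_comm (k x), ← up]
    rw [show x + y - ((2 ^ k y * m x + 2 ^ k x * m y : ℤ) : ℚ_[2]) / 2 ^ (k x + k y) =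
      (x - m x / 2 ^ k x) + (y - m y / 2 ^ k y) by push_cast; field_simp; ring]
    exact (Padic.nonarchimedean _ _).trans (max_le (hm x) (hm y))
  · refine ⟨fun h => ?_, fun h => by simpa using sp x 0 0 (by simpa using h)⟩
    have h3 := (key (k x) 0 (m x) 0).2 (by simpa using h)
    rw [show x = (x - m x / 2 ^ k x) + ((m x : ℚ_[2]) / 2 ^ k x - (0 : ℤ) / 2 ^ 0) by simp]
    exact (Padic.nonarchimedean _ _).trans (max_le (hm x) h3)
  · obtain ⟨c, hc⟩ := (dvd_iff (k x) (cyc σ : ℤ_[2])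
      ((PadicInt.toZModPow (k x) (cyc σ : ℤ_[2])).val : ℕ)).2 (by simp)
    rw [map_zpow₀, spec σ _ _ (h1 _).pow_eq_one, ← zpow_natCast, ← zpow_mul]
    refine (sp _ _ _ ?_).symm
    have h3 := congrArg (fun t : ℤ_[2] => (t : ℚ_[2])) hc
    simp only [PadicInt.coe_sub, PadicInt.coe_natCast, PadicInt.coe_mul, PadicInt.coe_pow] at h3
    have h4 : ((2 : ℤ_[2]) : ℚ_[2]) = 2 := rfl
    rw [h4, sub_eq_iff_eq_add', ← sub_eq_iff_eq_add] at h3
    rw [Int.cast_mul, Int.cast_natCast, ← h3, show ((cyc σ : ℤ_[2]) : ℚ_[2]) * x -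
      (((cyc σ : ℤ_[2]) : ℚ_[2]) - 2 ^ k x * c) * m x / 2 ^ k x =
      ((cyc σ : ℤ_[2]) : ℚ_[2]) * (x - m x / 2 ^ k x) + c * m x by field_simp; ring]
    refine (Padic.nonarchimedean _ _).trans (max_le ?_ ?_) <;> rw [norm_mul]
    · exact mul_le_one₀ (cyc σ : ℤ_[2]).2 (norm_nonneg _) (hm x)
    · exact mul_le_one₀ c.2 (norm_nonneg _) (Padic.norm_int_le_one _)
  · obtain ⟨i, -, hi⟩ := (h1 n).eq_pow_of_pow_eq_one hy
    exact ⟨i, by rw [sp _ n i (by simp), zpow_natCast, hi]⟩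

end TEC

theorem t_EC (hTAU : TAU) : EC := by
  obtain ⟨z, h1, -⟩ := TEC.roots
  have hm : ∀ σ τ : GQ, cyc (σ * τ) = cyc σ * cyc τ := fun σ τ =>
    map_mul (cyclotomicCharacter Om 2) σ.toRingEquiv τ.toRingEquiv
  have hF : ∀ (w : Pl) (f : ℕ) (φ : GQ), w.p ≠ 2 → w.IsFrob f φ →
      (cyc φ : ℤ_[2]) = w.p ^ f := fun w f φ hp h => TEC.eq_of fun k => by
    have h2 := (h1 k).pow_eq_one
    have h3 := Pl.root_eq (w := w) (n := 2 ^ k) (x := φ (z k)) (y := z k ^ w.p ^ f)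
      (fun h => hp ((Nat.prime_dvd_prime_iff_eq w.prime Nat.prime_two).1
        (w.prime.dvd_of_dvd_pow h))) (by rw [← map_pow, h2, map_one])
      (by rw [← pow_mul, mul_comm, pow_mul, h2, one_pow])
      (h.2 _ (Pl.v_root (by positivity) h2).le)
    exact_mod_cast TEC.act' φ k _ _ (h1 k) h3
  refine ⟨Classical.epsilon_spec TEC.exists_ec, hm, TEC.act, TEC.act', fun k => ?_, hF,
    fun w hp g hg => Units.ext (by simpa using hF w 0 g hp (Pl.isFrob_zero.2 hg)), ?_⟩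
  · have h2 : ∀ σ : GQ, σ ∈ MulAction.stabilizer GQ (z k) ↔ 2 ^ k ∣ (cyc σ : ℤ_[2]) - 1 :=
      fun σ => ⟨fun h => by simpa using TEC.act' σ k 1 _ (h1 k) (by simpa using h),
        fun h => by simpa using TEC.act σ k 1 _ (h1 k).pow_eq_one (by simpa using h)⟩
    refine ⟨_, ⟨⟨fun n hn g => ?_⟩, isOpen_stab _⟩, h2⟩
    rw [h2] at hn ⊢
    have h3 : cyc (g * n * g⁻¹) = cyc n := by
      have h4 := hm (g * n * g⁻¹) g
      rw [inv_mul_cancel_right, hm g n, mul_comm (cyc g)] at h4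
      exact (mul_right_cancel h4).symm
    rwa [h3]
  · refine Units.ext (TEC.eq_of fun k => ?_)
    have h2 := (h1 k).pow_eq_one
    have h0 : 0 < 2 ^ k := by positivity
    have h3 : tau (z k) = z k ^ (2 ^ k - 1) := by
      apply io.injective
      have h4 : io (z k) ^ 2 ^ k = 1 := by rw [← map_pow, h2, map_one]
      rw [hTAU.1, ← Complex.inv_eq_conj (Complex.norm_eq_one_of_pow_eq_one h4 h0.ne'), map_pow]
      refine inv_eq_of_mul_eq_one_right ?_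
      rw [← pow_succ', Nat.sub_add_cancel h0, h4]
    have h5 := TEC.act' tau k _ _ (h1 k) h3
    rw [Nat.cast_sub h0] at h5
    have h6 := dvd_add h5 (dvd_refl ((2 : ℤ_[2]) ^ k))
    convert h6 using 1
    push_cast; ring

end Pool.Agent.P.MP_8b7eba_nt.R2
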