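import Pool.Agent.P.MP_8b7eba_nt.R2.IfA
import Pool.Agent.P.MP_8b7eba_nt.R2.Nrm

/-! Proof of EC2. -/

namespace Pool.Agent.P.MP_8b7eba_nt.R2

open scoped NNReal ComplexConjugate

namespace TEC2

theorem ker {n : ℕ} {x : ℤ_[2]} : PadicInt.toZModPow n x = 0 ↔ 2 ^ n ∣ x := by
  rw [← RingHom.mem_ker, PadicInt.ker_toZModPow, Ideal.mem_span_singleton, Nat.cast_ofNat]

theorem nrm {n : ℕ} {x : ℤ_[2]} : 2 ^ n ∣ x ↔ ‖x‖ ≤ ((2 : ℕ) : ℝ) ^ (-n : ℤ) := by
  rw [PadicInt.norm_le_pow_iff_mem_span_pow, Ideal.mem_span_singleton, Nat.cast_ofNat]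

theorem zero {x : ℤ_[2]} (h : ∀ n, 2 ^ n ∣ x) : x = 0 :=
  PadicInt.ext_of_toZModPow.1 fun n => by rw [ker.2 (h n), map_zero]

theorem lim {X : Type} [TopologicalSpace X] {K : Set X} (hK : IsCompact K) {f : X → ℤ_[2]}
    (hf : Continuous f) {x : ℤ_[2]} (h : ∀ n, ∃ a ∈ K, 2 ^ n ∣ f a - x) : ∃ a ∈ K, f a = x := by
  refine (hK.image hf).isClosed.closure_subset (Metric.mem_closure_iff.2 fun ε hε => ?_)
  obtain ⟨n, hn⟩ := PadicInt.exists_pow_neg_lt 2 hε
  obtain ⟨a, ha, e⟩ := h n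
  exact ⟨_, ⟨a, ha, rfl⟩, by rw [dist_comm, dist_eq_norm]; exact (nrm.1 e).trans_lt hn⟩

theorem two : ¬ IsUnit (2 : ℤ_[2]) := PadicInt.irreducible_p.not_isUnit

theorem ndvd (n : ℕ) : ¬ (2 : ℤ_[2]) ^ (n + 1) ∣ 2 ^ n := fun h => two (isUnit_of_dvd_one
  ((mul_dvd_mul_iff_left (pow_ne_zero n two_ne_zero)).1 (by rwa [mul_one, ← pow_succ])))

theorem par (a : ℤ_[2]) : (∃ b, a = 2 * b) ∨ ∃ b, a = 1 + 2 * b := by
  obtain ⟨n, h, e⟩ := PadicInt.exists_mem_range a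
  rw [PadicInt.maximalIdeal_eq_span_p, Ideal.mem_span_singleton] at e
  obtain ⟨b, e⟩ := e
  interval_cases n
  · exact .inl ⟨b, by simpa using e⟩
  · exact .inr ⟨b, by push_cast at e; linear_combination e⟩

theorem odd (b : ℤ_[2]) : ¬ 2 ∣ 1 + 2 * b := fun h =>
  two (isUnit_of_dvd_one ((dvd_add_left (dvd_mul_right 2 b)).1 h))

theorem unit (b : ℤ_[2]) : IsUnit (1 + 2 * b) := by
  by_contra h
  have : 1 + 2 * b ∈ IsLocalRing.maximalIdeal ℤ_[2] := h
  rw [PadicInt.maximalIdeal_eq_span_p, Ideal.mem_span_singleton] at this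
  exact odd b this

theorem four (u : ℤ_[2]ˣ) : 4 ∣ (u : ℤ_[2]) - 1 ∨ 4 ∣ (u : ℤ_[2]) + 1 := by
  obtain ⟨b, e⟩ | ⟨b, e⟩ := par u
  · exact (two (isUnit_of_mul_isUnit_left (e ▸ u.isUnit))).elim
  · obtain ⟨c, rfl⟩ | ⟨c, rfl⟩ := par b
    · exact .inl ⟨c, by rw [e]; ring⟩
    · exact .inr ⟨c + 1, by rw [e]; ring⟩

theorem nboth {x : ℤ_[2]} (h : 4 ∣ x - 1) (h' : 4 ∣ x + 1) : False :=
  ndvd 1 (by have := dvd_sub h' h; ring_nf at this ⊢; exact this)

theorem four_dvd (n : ℕ) : (4 : ℤ_[2]) ∣ 2 ^ (n + 2) := ⟨2 ^ n, by ring⟩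

/-- the powers of five -/
noncomputable def ka : AddChar ℤ_[2] ℤ_[2] := PadicInt.addChar_of_value_at_one 4
  (tendsto_pow_atTop_nhds_zero_iff_norm_lt_one.2 ((PadicInt.norm_lt_one_iff_dvd _).2 ⟨2, by
    norm_num⟩))

theorem ka_cont : Continuous ka := PadicInt.continuous_addChar_of_value_at_one _

theorem ka_one : ka 1 = 5 := (PadicInt.addChar_of_value_at_one_def _).trans (by norm_num)

theorem ka_four (a : ℤ_[2]) : 4 ∣ ka a - 1 := by
  rw [show (4 : ℤ_[2]) = 2 ^ 2 by norm_num]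
  refine PadicInt.denseRange_natCast.induction_on a ?_ fun m => ?_
  · simp only [nrm]
    exact isClosed_le (ka_cont.sub continuous_const).norm continuous_const
  · rw [← nsmul_one, ka.map_nsmul_eq_pow, ka_one]
    simpa only [one_pow, show (5 : ℤ_[2]) - 1 = 2 ^ 2 by norm_num] using
      sub_dvd_pow_sub_pow (5 : ℤ_[2]) 1 m

theorem ka_dvd (n : ℕ) (a : ℤ_[2]) : 2 ^ n ∣ a ↔ 2 ^ (n + 2) ∣ ka a - 1 := by
  induction n generalizing a with
  | zero => simpa [show (2 : ℤ_[2]) ^ 2 = 4 by norm_num] using ka_four a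
  | succ n ih =>
    obtain ⟨b, rfl⟩ | ⟨b, rfl⟩ := par a <;> obtain ⟨c, hc⟩ := ka_four b
    · rw [pow_succ', mul_dvd_mul_iff_left two_ne_zero, ih, two_mul, ka.map_add_eq_mul,
        show ka b * ka b - 1 = 2 * ((ka b - 1) * (1 + 2 * c)) by linear_combination (ka b - 1) * hc,
        show n + 1 + 2 = (n + 2) + 1 by ring, pow_succ' _ (n + 2), mul_dvd_mul_iff_left two_ne_zero,
        (unit c).dvd_mul_right]
    · refine iff_of_false (fun h => odd b ((dvd_pow_self 2 n.succ_ne_zero).trans h)) fun h => ?_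
      rw [two_mul, ka.map_add_eq_mul, ka.map_add_eq_mul, ka_one,
        show 5 * (ka b * ka b) - 1 = 4 * (1 + 2 * (5 * c + 10 * c ^ 2)) by
          linear_combination (5 * ka b + 5 + 20 * c) * hc,
        show (2 : ℤ_[2]) ^ (n + 1 + 2) = 4 * (2 * 2 ^ n) by ring,
        mul_dvd_mul_iff_left (by norm_num)] at h
      exact odd _ ((dvd_mul_right _ _).trans h)

theorem ka_inj {a b : ℤ_[2]} (h : ka a = ka b) : a = b :=
  sub_eq_zero.1 (zero fun n => (ka_dvd n _).2 (by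
    rw [sub_eq_add_neg a, ka.map_add_eq_mul, h, ← ka.map_add_eq_mul]; simp))

theorem ka_surj {x : ℤ_[2]} (h : 4 ∣ x - 1) : ∃ a, ka a = x := by
  have key : ∀ n, ∃ a, 2 ^ (n + 2) ∣ ka a - x := fun n => by
    induction n with
    | zero => exact ⟨0, by simpa [show (2 : ℤ_[2]) ^ 2 = 4 by norm_num] using dvd_sub_comm.1 h⟩
    | succ n ih =>
      obtain ⟨a, c, hc⟩ := ih
      obtain ⟨c, rfl⟩ | ⟨c, rfl⟩ := par c
      · exact ⟨a, c, by rw [hc]; ring⟩
      obtain ⟨d, hd⟩ := (ka_dvd n _).1 dvd_rfl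
      obtain ⟨d, rfl⟩ | ⟨d, rfl⟩ := par d
      · exact (ndvd n ((ka_dvd (n + 1) _).2 ⟨d, by rw [hd]; ring⟩)).elim
      obtain ⟨e, he⟩ := ka_four a
      exact ⟨a + 2 ^ n, 1 + c + d + 2 * e + 4 * d * e, by
        rw [ka.map_add_eq_mul]
        linear_combination hc + ka a * hd + 2 ^ (n + 2) * (1 + 2 * d) * he⟩
  obtain ⟨a, -, e⟩ := lim isCompact_univ ka_cont (x := x) fun n =>
    (key n).imp fun a ha => ⟨trivial, (pow_dvd_pow 2 (by omega)).trans ha⟩
  exact ⟨a, e⟩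

theorem isLg : IsLg lg := by
  have : ∀ u : ℤ_[2]ˣ, ∃ a, ka a = u ∨ ka a = -u := fun u => (four u).elim
    (fun h => (ka_surj h).imp fun _ => .inl) fun h => (ka_surj (x := -u)
      (by rw [← dvd_neg]; simpa [add_comm] using h)).imp fun _ => .inr
  choose l hl using this
  have sq : ∀ u, ka (2 * l u) = u * u := fun u => by
    rw [two_mul, ka.map_add_eq_mul]
    rcases hl u with e | e <;> simp [e]
  refine Classical.epsilon_spec (p := IsLg) ⟨l, fun u v => ?_, fun n u => ?_, fun u hu => ?_⟩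
  · refine mul_left_cancel₀ two_ne_zero (ka_inj ?_)
    rw [mul_add, ka.map_add_eq_mul, sq, sq, sq, Units.val_mul]; ring
  · have := ka_four (l u)
    rw [ka_dvd]
    rcases hl u with e | e <;> rw [e] at this ⊢
    · exact ⟨.inl, fun h => h.elim id fun h => (nboth this ((four_dvd n).trans h)).elim⟩
    · rw [← neg_add', dvd_neg] at this ⊢
      exact ⟨.inr, fun h => h.elim (fun h => (nboth ((four_dvd n).trans h) this).elim) id⟩
  · refine mul_left_cancel₀ two_ne_zero (ka_inj ?_)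
    rw [sq, hu, two_mul, ka.map_add_eq_mul, ka_one]

theorem lg_one : lg 1 = 0 := by simpa using isLg.mul 1 1

theorem lg_pow (u : ℤ_[2]ˣ) (m : ℕ) : lg (u ^ m) = m * lg u := by
  induction m with
  | zero => simp [lg_one]
  | succ m ih => rw [pow_succ, isLg.mul, ih]; push_cast; ring

/-- the powers of five as units -/
noncomputable def ku (a : ℤ_[2]) : ℤ_[2]ˣ :=
  ⟨ka a, ka (-a), by simp [← ka.map_add_eq_mul], by simp [← ka.map_add_eq_mul]⟩

theorem lg_ku (a : ℤ_[2]) : lg (ku a) = a := by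
  refine sub_eq_zero.1 (zero fun n => ?_)
  have h := PadicInt.appr_spec n a
  rw [Ideal.mem_span_singleton, Nat.cast_ofNat] at h
  have e : ku a = ku (a - a.appr n) * ku 1 ^ a.appr n := Units.ext (by
    rw [Units.val_mul, Units.val_pow_eq_pow_val]
    simp only [ku]
    rw [← ka.map_nsmul_eq_pow, ← ka.map_add_eq_mul, nsmul_one, sub_add_cancel])
  rw [e, isLg.mul, lg_pow, isLg.five (ku 1) ka_one, mul_one, add_sub_assoc]
  exact dvd_add ((isLg.dvd n _).2 (.inl ((ka_dvd n _).1 h))) (dvd_sub_comm.1 h)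

theorem ep_zero {u : ℤ_[2]ˣ} (h : 4 ∣ (u : ℤ_[2]) - 1) : ep u = 0 := if_pos h

theorem ep_one {u : ℤ_[2]ˣ} (h : 4 ∣ (u : ℤ_[2]) + 1) : ep u = 1 := if_neg (nboth · h)

theorem ep_mul (u v : ℤ_[2]ˣ) : 2 ∣ ep (u * v) - ep u - ep v := by
  have e := Units.val_mul u v
  obtain ⟨a, ha⟩ | ⟨a, ha⟩ := four u <;> obtain ⟨b, hb⟩ | ⟨b, hb⟩ := four v
  · rw [ep_zero ⟨a * v + b, by linear_combination e + v * ha + hb⟩, ep_zero ⟨a, ha⟩,
      ep_zero ⟨b, hb⟩]
    simp
  · rw [ep_one ⟨a * v + b, by linear_combination e + v * ha + hb⟩, ep_zero ⟨a, ha⟩, ep_one ⟨b, hb⟩]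
    simp
  · rw [ep_one ⟨a * v - b, by linear_combination e + v * ha - hb⟩, ep_one ⟨a, ha⟩, ep_zero ⟨b, hb⟩]
    simp
  · rw [ep_zero ⟨a * v - b, by linear_combination e + v * ha - hb⟩, ep_one ⟨a, ha⟩, ep_one ⟨b, hb⟩]
    exact ⟨-1, by ring⟩

theorem val {w : Pl} (hw : w.p = 2) (k : ℕ) (z : Om) (h : z ^ 2 ^ k = -1) :
    w.v (1 - z) ^ 2 ^ k = 2⁻¹ := by
  induction k generalizing z with
  | zero => rw [pow_zero, pow_one] at h ⊢; rw [h, ← Pl.v_two' hw]; norm_num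
  | succ k ih =>
    have h1 := ih (z ^ 2) (by rw [← pow_mul, ← pow_succ', h])
    have h2 : w.v z = 1 := Pl.v_root (n := 2 ^ (k + 1) * 2) (by positivity) (by simp [pow_mul, h])
    have h3 : w.v (1 + z) = w.v (1 - z) := by
      by_contra e
      have h4 := w.v.map_add_of_distinct_val (x := 1 + z) (y := -(1 - z)) (by rwa [w.v.map_neg])
      rw [show 1 + z + -(1 - z) = 2 * z by ring, map_mul, h2, Pl.v_two' hw, mul_one,
        w.v.map_neg] at h4
      have h5 : w.v (1 - z ^ 2) ≤ 2⁻¹ * 2⁻¹ := by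
        rw [show 1 - z ^ 2 = (1 + z) * (1 - z) by ring, map_mul]
        exact mul_le_mul' ((le_max_left _ _).trans h4.ge) ((le_max_right _ _).trans h4.ge)
      have h6 := h1.ge.trans ((pow_le_of_le_one zero_le (h5.trans (by
        rw [← NNReal.coe_le_coe]; norm_num)) (by positivity)).trans h5)
      rw [← NNReal.coe_le_coe] at h6
      norm_num at h6
    rw [pow_succ', pow_mul, ← h1, show 1 - z ^ 2 = (1 + z) * (1 - z) by ring, map_mul, h3, sq]

end TEC2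

open TEC2

theorem t_EC2 (hUNIF : UNIF) (hEC : EC) : EC2 := by
  intro w hw u
  obtain ⟨-, h2, h3, -, h5, -⟩ := hEC
  obtain ⟨g, hg, e⟩ := lim w.closed_I.isCompact (f := fun g => (cyc g : ℤ_[2]))
    (Units.continuous_val.comp (cyclotomicCharacter.continuous 2 ℚ Om)) (x := u) fun k => by
      obtain ⟨N, hN, h6⟩ := h5 (k + 1)
      obtain ⟨z, hz⟩ := exists_root (-1) (n := 2 ^ k) (by positivity)
      have h7 := val hw k z hz
      obtain ⟨π, -, -, h8, h9, -⟩ := hUNIF w N hN.2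
      obtain ⟨a, ha⟩ := h8.2.2.2 (1 - z) (fix_one.sub fun σ hσ => (h3 σ (k + 1) 1 z
        (by simp [pow_succ, pow_mul, hz]) (by simpa using (h6 σ).1 hσ.2)).trans (pow_one z))
        fun e => by simp [e, eq_comm] at h7
      have h10 := h8.zpow_inj (a := a * 2 ^ k) (b := N.relIndex w.I) (by
        rw [zpow_natCast, h9, hw, zpow_mul, ← ha]; exact_mod_cast h7)
      have h11 : 2 ^ k ≤ N.relIndex w.I := Nat.le_of_dvd
        (Nat.pos_of_ne_zero (relIndex_ne_zero hN.2 _)) (by exact_mod_cast Dvd.intro_left a h10)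
      set f := (Units.map (PadicInt.toZModPow (p := 2) (k + 1)).toMonoidHom).comp
        (MonoidHom.mk' cyc h2)
      have h12 : f.ker = N := Subgroup.ext fun σ => by
        rw [h6, ← ker, map_sub, map_one, sub_eq_zero, MonoidHom.mem_ker, Units.ext_iff]; rfl
      rw [← h12, Subgroup.relIndex_ker] at h11
      have h13 := Subgroup.eq_top_of_le_card (w.I.map f) (by
        rwa [Nat.card_eq_fintype_card, ZMod.card_units_eq_totient,
          Nat.totient_prime_pow_succ Nat.prime_two, Nat.add_one_sub_one, mul_one])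
      obtain ⟨g, hg, e⟩ : Units.map (PadicInt.toZModPow (p := 2) (k + 1)).toMonoidHom u ∈
        w.I.map f := h13 ▸ trivial
      refine ⟨g, hg, (pow_dvd_pow 2 k.le_succ).trans (ker.1 ?_)⟩
      rw [map_sub, sub_eq_zero]
      exact congrArg Units.val e
  exact ⟨g, hg, Units.ext e⟩

theorem t_LG (hFROB : FROB) (hEC : EC) (hEC2 : EC2) : LG := by
  obtain ⟨-, h2, -, -, h5, h6, -, h8⟩ := hEC
  refine ⟨isLg, ep_mul, fun a => ⟨ku a, lg_ku a, ep_zero (ka_four a)⟩, fun n => ?_, ?_⟩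
  · obtain ⟨N, hN, h9⟩ := h5 (n + 1 + 2)
    have k1 : ∀ σ ∈ N, 2 ^ (n + 1) ∣ lg (cyc σ) := fun σ hσ =>
      (isLg.dvd _ _).2 (.inl ((h9 σ).1 hσ))
    have m1 : ∀ g h, Ps n (g * h) = Ps n g + Ps n h := fun g h => by
      simp only [Ps, h2, isLg.mul, map_add]
    have m2 : ∀ g h, Ps' n (g * h) = Ps' n g + Ps' n h := fun g h => by
      obtain ⟨c, hc⟩ := ep_mul (cyc g) (cyc h)
      simp only [Ps', h2, isLg.mul]
      rw [← map_add, ← sub_eq_zero, ← map_sub, ker]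
      exact ⟨c, by linear_combination 2 ^ n * hc⟩
    have c1 : IsCh ⊤ (Ps n) := ⟨⟨N, hN, fun g _ m _ hm => by
      rw [m1, show Ps n m = 0 from ker.2 ((pow_dvd_pow 2 n.le_succ).trans (k1 m hm)), add_zero]⟩,
      fun g _ h _ => m1 g h⟩
    obtain ⟨U, hU, hk⟩ := c1.exists_ker
    have e : KP n = ⊤ ⊓ U := by
      rw [KP, ← Subgroup.closure_eq (⊤ ⊓ U)]
      exact congrArg _ (Set.ext fun g => ((hk g).trans (and_iff_right trivial)).symm)
    rw [← e] at hk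
    have k2 : ∀ g, g ∈ KP n ↔ Ps n g = 0 := fun g => (hk g).trans (and_iff_right trivial)
    refine ⟨c1, ⟨⟨N, hN, fun g _ m _ hm => ?_⟩, fun g _ h _ => m2 g h⟩, hk,
      ⟨⟨fun m hm g => (k2 _).2 ?_⟩, by rwa [e, top_inf_eq]⟩, fun σ => (k2 σ).trans ker,
      fun σ h => ker.2 ?_, fun h => ?_⟩
    · rw [m2, show Ps' n m = 0 from ker.2 ?_, add_zero]
      rw [ep_zero ((four_dvd _).trans ((h9 m).1 hm)), mul_zero, add_zero]
      exact k1 m hm
    · rw [m1, m1, (k2 m).1 hm, c1.inv trivial, add_zero, add_neg_cancel]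
    · exact (dvd_add_left (dvd_mul_right _ _)).1 ((pow_dvd_pow 2 n.le_succ).trans (ker.1 h))
    · have := ker.1 h
      rw [h8, ep_one (by simp), mul_one,
        show lg (-1) = 0 from zero fun n => (isLg.dvd n _).2 (.inr (by simp)), zero_add] at this
      exact ndvd n this
  · intro w H hH
    by_cases hw : w.p = 2
    · obtain ⟨U, hU, rfl⟩ := hH
      obtain ⟨N, hN, e⟩ := exists_ON_le hU
      obtain ⟨g, hg, e'⟩ := hEC2 w hw (ku 1)
      obtain ⟨m, hm, e''⟩ := hN.exists_pow g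
      refine ⟨g ^ m, ⟨w.D.pow_mem hg.1 m, e e''⟩, ?_⟩
      rw [show cyc (g ^ m) = cyc g ^ m from (MonoidHom.mk' cyc h2).map_pow g m, lg_pow, e', lg_ku]
      simpa using hm.ne'
    · obtain ⟨f, φ, hf, h1, h3, -⟩ := hFROB w H hH
      refine ⟨φ, h1, fun h => ?_⟩
      have := zero (x := (cyc φ - 1) * (cyc φ + 1)) fun n => (pow_dvd_pow 2 (by omega)).trans
        (((isLg.dvd n _).1 (by simp [h])).elim (·.mul_right _) (·.mul_left _))
      rw [h6 w f φ hw h3, mul_eq_zero, sub_eq_zero] at this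
      have h4 := Nat.one_lt_pow hf.ne' w.prime.one_lt
      rcases this with e | e
      · exact h4.ne' (by exact_mod_cast e)
      · exact (w.p ^ f).succ_ne_zero (by exact_mod_cast e)

end Pool.Agent.P.MP_8b7eba_nt.R2
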