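import Pool.Agent.P.MP_8b7eba_nt.R2.TLD

/-! Proof of EP. -/

namespace Pool.Agent.P.MP_8b7eba_nt.R2

open scoped NNReal ComplexConjugate

namespace TEP

open TLD

variable {H : Subgroup GQ} {M : Type} [AddCommGroup M] {ρ : GQ → M →+ M} {w : Pl}

theorem card_hom (G : Type) [CommGroup G] [Finite G] :
    Finite (G →* Omˣ) ∧ Nat.card (G →* Omˣ) = Nat.card G := by
  have : NeZero ((Monoid.exponent G : ℕ) : Om) :=
    ⟨Nat.cast_ne_zero.2 Monoid.exponent_ne_zero_of_finite⟩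
  have h := CommGroup.card_monoidHom_of_hasEnoughRootsOfUnity G Om
  exact ⟨Nat.finite_of_card_ne_zero (h ▸ Nat.card_pos.ne'), h⟩

theorem fin_char (M : Type) [AddCommGroup M] [Finite M] : Finite (AddChar M Om) :=
  have := (card_hom (Multiplicative M)).1
  Finite.of_equiv _ (AddChar.toMonoidHomEquiv.trans MonoidHom.toHomUnitsMulEquiv.toEquiv).symm

theorem sgn_inj {a b : ZMod 2} (h : sgn a = sgn b) : a = b := by
  rcases z2 a with rfl | rfl <;> rcases z2 b with rfl | rfl <;>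
    simp [sgn_apply, ZMod.val_one] at h ⊢ <;> norm_num at h

/-- the quadratic characters, extended by zero -/
def V (H : Subgroup GQ) : Set (GQ → ZMod 2) := {χ | IsCh H χ ∧ ∀ g, g ∉ H → χ g = 0}

theorem kummer (hGAL : GAL) (hH : IsClosed (H : Set GQ)) {χ : GQ → ZMod 2} (hχ : IsCh H χ) :
    ∃ β : Omˣ, Fix H ((β : Om) ^ 2) ∧ ∀ g ∈ H, qc β g = χ g := by
  obtain ⟨β, h0, hβ⟩ := (hGAL H hH).2.1 (fun g => sgn (χ g)) (hχ.1.comp _)
    (fun _ _ => ne _ _) fun g hg k hk => by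
      rw [hχ.2 g hg k hk, AddChar.map_add_eq_mul, gal_sgn]
  refine ⟨Units.mk0 β h0, fun g hg => ?_, fun g hg => ?_⟩
  · rw [Units.val_mk0, map_pow, ← hβ g hg, mul_pow, sgn_apply, ← pow_mul, mul_comm _ 2, pow_mul]
    simp
  · rw [Units.val_mk0, qc, ← hβ g hg]
    rcases z2 (χ g) with e | e <;> rw [e]
    · simp
    · rw [if_neg]
      rw [sgn_apply, ZMod.val_one, pow_one, neg_one_mul, neg_eq_iff_add_eq_zero, ← two_mul]
      exact mul_ne_zero two_ne_zero h0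

theorem qc_eq {β γ : Om} (h0 : γ ≠ 0) (h : Fix H (β / γ)) (h1 : β ≠ 0) {g : GQ} (hg : g ∈ H) :
    qc β g = qc γ g := by
  have e : β = β / γ * γ := (div_mul_cancel₀ _ h0).symm
  have : g β = β ↔ g γ = γ := by
    rw [e, map_mul, h g hg, mul_right_inj' (div_ne_zero h1 h0)]
  by_cases k : g γ = γ
  · rw [qc, qc, if_pos k, if_pos (this.2 k)]
  · rw [qc, qc, if_neg k, if_neg (mt this.1 k)]

theorem exists_sym (hNI : NI) (hH : w.Loc H) {b : Om} (hb : Fix H b) (h0 : b ≠ 0) :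
    ∃ s : FU H →* Omˣ, ∀ a, s a = 1 ↔ Nm H b ((a : Omˣ) : Om) := by
  classical
  have hn : (-1 : Omˣ) ≠ 1 := fun h => by
    have := congrArg Units.val h
    norm_num at this
  have k : ∀ a a' : Om, a ≠ 0 → Nm H b a → Nm H b (a * a') → Nm H b a' := fun a a' h h1 h2 => by
    have := (h1.inv hb).mul hb h2
    rwa [inv_mul_cancel_left₀ h] at this
  refine ⟨MonoidHom.mk' (fun a => if Nm H b ((a : Omˣ) : Om) then 1 else -1) fun a a' => ?_,
    fun a => ?_⟩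
  · simp only [Subgroup.coe_mul, Units.val_mul]
    by_cases h1 : Nm H b ((a : Omˣ) : Om) <;> by_cases h2 : Nm H b ((a' : Omˣ) : Om)
    · rw [if_pos h1, if_pos h2, if_pos (h1.mul hb h2), mul_one]
    · rw [if_pos h1, if_neg h2, if_neg fun h => h2 (k _ _ (Units.ne_zero _) h1 h), one_mul]
    · rw [if_neg h1, if_pos h2, if_neg fun h => h1 (k _ _ (Units.ne_zero _) h2
        (by rwa [mul_comm])), mul_one]
    · rw [if_neg h1, if_neg h2, if_pos ((hNI w H b hH hb h0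
        fun h => h1 (Nm.of_sq_left h0 h a.2)).2 _ _ a.2 a'.2 h1 h2)]
      simp
  · simp [hn]

theorem nondeg (hNI : NI) (hH : w.Loc H) {β γ : Om} (hβ : Fix H (β ^ 2)) (hγ : Fix H (γ ^ 2))
    (b0 : β ≠ 0) (g0 : γ ≠ 0) (h : ∀ a, Fix H a → a ≠ 0 → (Nm H (β ^ 2) a ↔ Nm H (γ ^ 2) a)) :
    Fix H (β / γ) := by
  have b2 := pow_ne_zero 2 b0
  have g2 := pow_ne_zero 2 g0
  have h1 : Fix H ((β * γ) ^ 2) := by rw [mul_pow]; exact hβ.mul hγ
  have h2 : Fix H (β * γ) := by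
    rw [← sq_iff h1]
    by_contra hn
    obtain ⟨a, ha, a0, hm⟩ := (hNI w H _ hH h1 (pow_ne_zero 2 (mul_ne_zero b0 g0)) hn).1
    refine hm (Nm.symm (pow_ne_zero 2 (mul_ne_zero b0 g0)) ha ?_)
    by_cases hs : Sq H a
    · exact Nm.of_sq_left a0 hs h1
    rw [mul_pow]
    by_cases hc : Nm H (β ^ 2) a
    · exact (hc.symm a0 hβ).mul ha (((h a ha a0).1 hc).symm a0 hγ)
    · exact (hNI w H a hH ha a0 hs).2 _ _ hβ hγ (fun e => hc (e.symm b2 ha))
        fun e => hc ((h a ha a0).2 (e.symm g2 ha))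
  have e : β / γ = β * γ / γ ^ 2 := by field_simp
  rw [e]
  exact h2.div hγ

theorem pairing (hGAL : GAL) (hCUP : CUP) (hSYM : SYM) (hNI : NI) (hH : w.Loc H)
    (hq : sqI (FU H) ≠ 0) {X Y : Set (GQ → ZMod 2)} (hX : X ⊆ V H) (hY : Y ⊆ V H)
    (h : ∀ y ∈ Y, ∀ x ∈ X, Triv H fun g k => sgn (y g * x k)) :
    X.Finite ∧ Y.Finite ∧ X.ncard * Y.ncard ≤ sqI (FU H) := by
  have k1 : ∀ χ ∈ V H, ∃ β : Omˣ, Fix H ((β : Om) ^ 2) ∧ ∀ g ∈ H, qc β g = χ g :=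
    fun χ hχ => kummer hGAL hH.closed hχ.1
  choose! β b1 b2 using k1
  have inj : ∀ χ ∈ V H, ∀ χ' ∈ V H, Fix H ((β χ : Om) / β χ') → χ = χ' := fun χ hχ χ' hχ' e => by
    funext g
    by_cases hg : g ∈ H
    · rw [← b2 χ hχ g hg, ← b2 χ' hχ' g hg, qc_eq (Units.ne_zero _) e (Units.ne_zero _) hg]
    · rw [hχ.2 g hg, hχ'.2 g hg]
  have k2 : ∀ χ ∈ V H, ∃ s : FU H →* Omˣ, ∀ a, s a = 1 ↔ Nm H ((β χ : Om) ^ 2) ((a : Omˣ) : Om) :=
    fun χ hχ => exists_sym hNI hH (b1 χ hχ) (pow_ne_zero 2 (Units.ne_zero _))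
  choose! s hs using k2
  set S : Subgroup (FU H) := ((FU H).map (powMonoidHom 2)).subgroupOf (FU H) with hS
  set P : Subgroup (FU H) := ⨅ y : Y, (s y).ker with hP
  have mP : ∀ a, a ∈ P ↔ ∀ y ∈ Y, Nm H ((β y : Om) ^ 2) ((a : Omˣ) : Om) := fun a => by
    simp only [hP, Subgroup.mem_iInf, MonoidHom.mem_ker, Subtype.forall]
    exact forall₂_congr fun y hy => hs y (hY hy) a
  have SP : S ≤ P := fun a ha => (mP a).2 fun y _ => by
    obtain ⟨t, ht, e⟩ := Subgroup.mem_map.1 (Subgroup.mem_subgroupOf.1 ha)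
    exact Nm.of_sq ⟨t, ht, by rw [← e]; simp⟩
  have hm : S.relIndex P * P.index = sqI (FU H) := Subgroup.relIndex_mul_index SP
  have f1 : Finite (P ⧸ S.subgroupOf P) :=
    Nat.finite_of_card_ne_zero (left_ne_zero_of_mul (hm ▸ hq))
  have f2 : Finite (FU H ⧸ P) := Nat.finite_of_card_ne_zero (right_ne_zero_of_mul (hm ▸ hq))
  have xP : ∀ x : X, (⟨β x ^ 2, b1 x (hX x.2)⟩ : FU H) ∈ P := fun x => (mP _).2 fun y hy => by
    have ha := b1 x (hX x.2)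
    have a0 : (β x : Om) ^ 2 ≠ 0 := pow_ne_zero 2 (Units.ne_zero _)
    obtain ⟨s1, -, s3, -⟩ := hSYM H _ (β y) hH.closed (Units.ne_zero _) (b1 y (hY hy))
      (isKer_qc H _)
    obtain ⟨-, t2, -⟩ := hSYM H _ (β x) hH.closed (Units.ne_zero _) ha (isKer_qc H _)
    refine (s3 _ ha a0).1 (((hCUP H _ ha a0 2 _ two_ne_zero s1).2.2.2.2.2.2 (β x) rfl).2.iff.2
      ((h y hy x x.2).congr fun g hg k hk => ?_))
    rw [t2 k hk, mul_div_cancel_right₀ _ (Units.ne_zero _), ← sgn_apply, gal_sgn,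
      b2 _ (hY hy) g hg, b2 _ (hX x.2) k hk]
    rcases z2 (y g) with e | e <;> rw [e] <;> simp [ZMod.val_one]
  have i1 : Function.Injective fun x : X => ((⟨_, xP x⟩ : P) : P ⧸ S.subgroupOf P) := by
    intro x x' e
    obtain ⟨t, ht, e'⟩ := Subgroup.mem_map.1 (Subgroup.mem_subgroupOf.1
      (Subgroup.mem_subgroupOf.1 (QuotientGroup.eq.1 e)))
    refine (Subtype.ext (inj _ (hX x'.2) _ (hX x.2) ?_)).symm
    have e2 : (t : Om) ^ 2 = ((β x' : Om) / β x) ^ 2 := by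
      have := congrArg Units.val e'
      simpa [mul_pow, div_eq_inv_mul] using this
    have ht' : Fix H (t : Om) := ht
    rcases sq_eq_sq_iff_eq_or_eq_neg.1 e2.symm with e3 | e3 <;> rw [e3]
    exacts [ht', ht'.neg]
  have yP : ∀ y : Y, P ≤ (s y).ker := fun y => iInf_le (fun y : Y => (s y).ker) y
  have i2 : Function.Injective fun y : Y => QuotientGroup.lift P (s y) (yP y) := by
    intro y y' e
    refine Subtype.ext (inj _ (hY y.2) _ (hY y'.2) (nondeg hNI hH (b1 _ (hY y.2))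
      (b1 _ (hY y'.2)) (Units.ne_zero _) (Units.ne_zero _) fun a ha a0 => ?_))
    have e1 : s y ⟨Units.mk0 a a0, ha⟩ = s y' ⟨Units.mk0 a a0, ha⟩ :=
      DFunLike.congr_fun e ((⟨Units.mk0 a a0, ha⟩ : FU H) : FU H ⧸ P)
    have e2 := hs _ (hY y.2) ⟨Units.mk0 a a0, ha⟩
    rw [e1, hs _ (hY y'.2)] at e2
    exact e2.symm
  obtain ⟨f3, c3⟩ := card_hom (FU H ⧸ P)
  refine ⟨Finite.of_injective _ i1, Finite.of_injective _ i2, ?_⟩
  rw [← hm]
  exact Nat.mul_le_mul (Nat.card_le_card_of_injective _ i1)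
    ((Nat.card_le_card_of_injective _ i2).trans c3.le)

/-- the cocycles, extended by zero -/
def Z (H : Subgroup GQ) (ρ : GQ → M →+ M) : Set (GQ → M) :=
  {c | Co1 H ρ c ∧ ∀ g, g ∉ H → c g = 0}

/-- the invariant characters -/
def H0 (H : Subgroup GQ) (ρ : GQ → M →+ M) : Set (AddChar M Om) :=
  {f | ∀ g ∈ H, ∀ m, g (f m) = f (ρ g m)}

open Classical in
/-- the obstruction to invariance -/
noncomputable def ka (H : Subgroup GQ) (ρ : GQ → M →+ M) (m₀ : M) (F : AddChar M Om) (g : GQ) :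
    ZMod 2 :=
  if g ∈ H ∧ g (F m₀) ≠ F (ρ g m₀) then 1 else 0

section

variable {l : M →+ ZMod 2} {m₀ : M} {F : AddChar M Om}

theorem ka_spec (h0 : l m₀ = 1) (hF : ∀ g ∈ H, ∀ m, l m = 0 → g (F m) = F (ρ g m))
    {g : GQ} (hg : g ∈ H) (m : M) : g (F m) = sgn (ka H ρ m₀ F g * l m) * F (ρ g m) := by
  have h1 : g (F m₀) = sgn (ka H ρ m₀ F g) * F (ρ g m₀) := by
    have := hF g hg (m₀ + m₀) (by rw [map_add, h0]; rfl)
    simp only [map_add, AddChar.map_add_eq_mul, map_mul] at this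
    rw [← sq, ← sq] at this
    rw [ka]
    split_ifs with h
    · rw [(sq_eq_sq_iff_eq_or_eq_neg.1 this).resolve_left h.2, sgn_apply, ZMod.val_one]
      ring
    · rw [not_not.1 (not_and.1 h hg)]
      simp
  rcases z2 (l m) with e | e <;> rw [e]
  · rw [hF g hg m e]; simp
  · have h2 := hF g hg (m - m₀) (by rw [map_sub, e, h0, sub_self])
    have h3 : m = m - m₀ + m₀ := (sub_add_cancel _ _).symm
    rw [h3, map_add (ρ g), AddChar.map_add_eq_mul, AddChar.map_add_eq_mul, map_mul, h1, h2, mul_one]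
    ring

theorem ka_mem (hρ : Uni H ρ) (hl : ∀ g ∈ H, ∀ m, l (ρ g m) = l m) (h0 : l m₀ = 1)
    (hF : ∀ g ∈ H, ∀ m, l m = 0 → g (F m) = F (ρ g m)) : ka H ρ m₀ F ∈ V H := by
  classical
  refine ⟨⟨((sm_apply (F m₀)).comp₂ hρ.sm fun a b => if a ≠ F (b m₀) then (1 : ZMod 2)
    else 0).congr fun g hg => by simp [ka, hg], fun g hg k hk => sgn_inj ?_⟩,
    fun g hg => by simp [ka, hg]⟩
  have e1 := ka_spec h0 hF (mul_mem hg hk) m₀
  rw [AlgEquiv.mul_apply, ka_spec h0 hF hk, map_mul, gal_sgn, ka_spec h0 hF hg, hl k hk, h0,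
    hρ.mul g hg k hk] at e1
  simp only [mul_one] at e1
  rw [AddChar.map_add_eq_mul]
  apply mul_right_cancel₀ (ne F (ρ g (ρ k m₀)))
  rw [← e1]
  ring

theorem ka_triv (h0 : l m₀ = 1)
    (hF : ∀ g ∈ H, ∀ m, l m = 0 → g (F m) = F (ρ g m)) {c : GQ → M} (hc : Co1 H ρ c) :
    Triv H fun g k => sgn (ka H ρ m₀ F g * l (c k)) := by
  refine ⟨fun g => F (c g), hc.1.comp _, fun _ _ => ne _ _, fun g hg k hk => ?_⟩
  beta_reduce
  rw [hc.2 g hg k hk, ka_spec h0 hF hg, AddChar.map_add_eq_mul]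
  ring

end

theorem step (hGAL : GAL) (hCUP : CUP) (hSYM : SYM) (hNI : NI) (hH : w.Loc H)
    (hq : sqI (FU H) ≠ 0) (hρ : Uni H ρ) {l : M →+ ZMod 2} {ρ' : GQ → l.ker →+ l.ker}
    (hs : Function.Surjective l) (hl : ∀ g ∈ H, ∀ m, l (ρ g m) = l m)
    (e : ∀ g ∈ H, ∀ m, (ρ' g m : M) = ρ g m)
    (hx : ∀ f : AddChar l.ker Om, ∃ f' : AddChar M Om, ∀ m : l.ker, f' m = f m)
    (hZ : (Z H ρ').Finite) :
    (Z H ρ).Finite ∧ (Z H ρ).ncard * (2 * (H0 H ρ').ncard) ≤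
      sqI (FU H) * ((Z H ρ').ncard * (H0 H ρ).ncard) := by
  classical
  have := hρ.fin
  have := fin_char M
  obtain ⟨m₀, h0⟩ := hs 1
  choose ext hext using hx
  have hF : ∀ f ∈ H0 H ρ', ∀ g ∈ H, ∀ m, l m = 0 → g (ext f m) = ext f (ρ g m) :=
    fun f hf g hg m hm => by
      have := hf g hg ⟨m, hm⟩
      rwa [← hext, ← hext, e g hg] at this
  set π : (GQ → M) → GQ → ZMod 2 := fun c g => l (c g) with hπ
  set κ : AddChar l.ker Om → GQ → ZMod 2 := fun f => ka H ρ m₀ (ext f) with hκ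
  obtain ⟨fX, fY, hXY⟩ := pairing hGAL hCUP hSYM hNI hH hq (X := π '' Z H ρ) (Y := κ '' H0 H ρ')
    (by
      rintro _ ⟨c, hc, rfl⟩
      exact ⟨⟨hc.1.1.comp l, fun g hg k hk => by
        simp only [hπ]; rw [hc.1.2 g hg k hk, map_add, hl g hg]⟩,
        fun g hg => by simp only [hπ]; rw [hc.2 g hg, map_zero]⟩)
    (by
      rintro _ ⟨f, hf, rfl⟩
      exact ka_mem hρ hl h0 (hF f hf))
    (by
      rintro _ ⟨f, hf, rfl⟩ _ ⟨c, hc, rfl⟩
      exact ka_triv h0 (hF f hf) hc.1)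
  have k1 : ∀ x ∈ π '' Z H ρ, ∃ c ∈ Z H ρ, π c = x := fun x hx => hx
  choose! s s1 s2 using k1
  have k2 : ∀ c ∈ Z H ρ, ∃ c' ∈ Z H ρ', ∀ g, (c' g : M) = c g - s (π c) g := fun c hc => by
    have hc' := s1 _ ⟨c, hc, rfl⟩
    have h1 := co1_sub hc.1 hc'.1
    have h2 : ∀ g, c g - s (π c) g ∈ l.ker := fun g => by
      rw [AddMonoidHom.mem_ker, map_sub, sub_eq_zero]
      exact (congrFun (s2 _ ⟨c, hc, rfl⟩) g).symm
    refine ⟨fun g => ⟨_, h2 g⟩, ⟨⟨?_, fun g hg k hk => Subtype.ext ?_⟩,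
      fun g hg => Subtype.ext ?_⟩, fun _ => rfl⟩
    · obtain ⟨N, a, b⟩ := h1.1
      exact ⟨N, a, fun g hg n hn m => Subtype.ext (b g hg n hn m)⟩
    · rw [AddSubgroup.coe_add, e g hg]
      exact h1.2 g hg k hk
    · change c g - s (π c) g = 0
      rw [hc.2 g hg, hc'.2 g hg, sub_self]
  choose! r r1 r2 using k2
  have m1 : Set.MapsTo (fun c => (π c, r c)) (Z H ρ) ((π '' Z H ρ) ×ˢ Z H ρ') :=
    fun c hc => ⟨⟨c, hc, rfl⟩, r1 c hc⟩
  have i1 : Set.InjOn (fun c => (π c, r c)) (Z H ρ) := fun c hc c' hc' h => by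
    obtain ⟨h1, h2⟩ := Prod.mk.inj h
    funext g
    have := r2 c hc g
    rw [h2, r2 c' hc', h1] at this
    exact (sub_left_inj.1 this).symm
  have c1 := Set.ncard_le_ncard_of_injOn _ m1 i1 (fX.prod hZ)
  have k3 : ∀ y ∈ κ '' H0 H ρ', ∃ f ∈ H0 H ρ', κ f = y := fun y hy => hy
  choose! t t1 t2 using k3
  have m2 : Set.MapsTo (fun p : ZMod 2 × AddChar l.ker Om =>
      (κ p.2, ext p.2 / ext (t (κ p.2)) * tw l p.1)) (Set.univ ×ˢ H0 H ρ')
      ((κ '' H0 H ρ') ×ˢ H0 H ρ) := fun p hp => by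
    have hy : κ p.2 ∈ κ '' H0 H ρ' := ⟨_, hp.2, rfl⟩
    refine ⟨hy, fun g hg m => ?_⟩
    have a1 := ka_spec h0 (hF _ hp.2) hg m
    have a2 := ka_spec h0 (hF _ (t1 _ hy)) hg m
    have a3 : ka H ρ m₀ (ext (t (κ p.2))) = ka H ρ m₀ (ext p.2) := t2 _ hy
    simp only [AddChar.mul_apply, AddChar.div_apply', tw_apply, map_mul, map_div₀, gal_sgn]
    rw [a1, a2, a3, hl g hg, mul_div_mul_left _ _ (ne _ _)]
  have i2 : Set.InjOn (fun p : ZMod 2 × AddChar l.ker Om =>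
      (κ p.2, ext p.2 / ext (t (κ p.2)) * tw l p.1)) (Set.univ ×ˢ H0 H ρ') :=
    fun p _ p' _ h => by
    obtain ⟨h1, h2⟩ := Prod.mk.inj h
    rw [h1] at h2
    have h3 : p.2 = p'.2 := by
      ext m
      have := DFunLike.congr_fun h2 (m : M)
      simp only [AddChar.mul_apply, AddChar.div_apply', tw_apply, hext,
        show l m = 0 from m.2, mul_zero] at this
      exact (div_left_inj' (ne _ _)).1 (mul_right_cancel₀ (ne _ _) this)
    rw [h3] at h2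
    have h4 := DFunLike.congr_fun (mul_left_cancel h2) m₀
    rw [tw_apply, tw_apply, h0, mul_one, mul_one] at h4
    exact Prod.ext (sgn_inj h4) h3
  have c2 := Set.ncard_le_ncard_of_injOn _ m2 i2 (fY.prod (Set.toFinite _))
  rw [Set.ncard_prod] at c1
  rw [Set.ncard_prod, Set.ncard_prod, Set.ncard_univ, Nat.card_zmod] at c2
  refine ⟨Set.Finite.of_injOn m1 i1 (fX.prod hZ), ?_⟩
  calc _ ≤ ((π '' Z H ρ).ncard * (Z H ρ').ncard) * ((κ '' H0 H ρ').ncard * (H0 H ρ).ncard) :=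
        Nat.mul_le_mul c1 c2
    _ = ((π '' Z H ρ).ncard * (κ '' H0 H ρ').ncard) * ((Z H ρ').ncard * (H0 H ρ).ncard) := by ring
    _ ≤ _ := Nat.mul_le_mul_right _ hXY

theorem H0_pos (hρ : Uni H ρ) : 0 < (H0 H ρ).ncard := by
  have := hρ.fin
  have := fin_char M
  exact (Set.ncard_pos (Set.toFinite _)).2 ⟨1, fun g _ m => by simp⟩

end TEP

open TEP in
theorem t_EP (hGAL : GAL) (hCUP : CUP) (hSYM : SYM) (hNI : NI) (hSQ1 : SQ1) (hFILT : FILT) : EP := by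
  intro w M _ ρ hw hρ
  obtain ⟨hq, h8⟩ := hSQ1 w w.D w.loc_D
  rw [if_pos hw, Subgroup.relIndex_self] at h8
  change (Z w.D ρ).Finite ∧ (Z w.D ρ).ncard ≤ Nat.card M ^ 2 * (H0 w.D ρ).ncard
  induction hn : Nat.card M using Nat.strong_induction_on generalizing M with
  | _ n ih =>
    have := hρ.fin
    rcases subsingleton_or_nontrivial M with hM | hM
    · have h1 : (Z w.D ρ).Subsingleton := Set.subsingleton_of_subsingleton
      refine ⟨h1.finite, ?_⟩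
      rw [← hn, Nat.card_of_subsingleton (0 : M), one_pow, one_mul]
      exact ((Set.ncard_le_one h1.finite).2 fun a ha b hb => h1 ha hb).trans (H0_pos hρ)
    · obtain ⟨l, ρ', hs, hl, hρ', e, hc, hx⟩ := hFILT w.D M ρ hρ hM
      have hp : 0 < Nat.card l.ker := Nat.card_pos
      obtain ⟨f1, c1⟩ := ih (Nat.card l.ker) (by omega) l.ker ρ' hρ' rfl
      obtain ⟨f2, c2⟩ := step hGAL hCUP hSYM hNI w.loc_D hq hρ hs hl e hx f1
      refine ⟨f2, Nat.le_of_mul_le_mul_right (c := 2 * (H0 w.D ρ').ncard) (c2.trans ?_)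
        (Nat.mul_pos two_pos (H0_pos hρ'))⟩
      rw [← hn, hc]
      calc _ ≤ (4 * 2 ^ 1) * ((Nat.card l.ker ^ 2 * (H0 w.D ρ').ncard) * (H0 w.D ρ).ncard) :=
            Nat.mul_le_mul h8 (Nat.mul_le_mul_right _ c1)
        _ = _ := by ring

end Pool.Agent.P.MP_8b7eba_nt.R2
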