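import Pool.Agent.P.MP_8b7eba_nt.R2.IfA
import Pool.Agent.P.MP_8b7eba_nt.R2.Nrm

/-! Proof of FILT, HQ, HQ2. -/

namespace Pool.Agent.P.MP_8b7eba_nt.R2

open scoped NNReal ComplexConjugate

namespace TFILT

theorem exists_fun {M : Type} [AddCommGroup M] [Nontrivial M] {k : ℕ} (hk : ∀ m : M, 2 ^ k • m = 0) :
    ∃ l : M →+ ZMod 2, l ≠ 0 := by
  obtain ⟨x, hx⟩ : ∃ x : M, x ∉ (nsmulAddMonoidHom (α := M) 2).range := by
    by_contra h
    push Not at h
    have h1 : ∀ (j : ℕ) (x : M), ∃ y, 2 ^ j • y = x := fun j => by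
      induction j with
      | zero => exact fun x => ⟨x, by simp⟩
      | succ j ih =>
        intro x
        obtain ⟨y, rfl⟩ := ih x
        obtain ⟨z, rfl⟩ := h y
        exact ⟨z, by rw [pow_succ, mul_smul]; rfl⟩
    obtain ⟨x, hx⟩ := exists_ne (0 : M)
    obtain ⟨y, rfl⟩ := h1 k x
    exact hx (hk y)
  letI : Module (ZMod 2) (M ⧸ (nsmulAddMonoidHom (α := M) 2).range) :=
    QuotientAddGroup.zmodModule fun x => ⟨x, rfl⟩
  have h2 : (x : M ⧸ (nsmulAddMonoidHom (α := M) 2).range) ≠ 0 := by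
    rwa [Ne, QuotientAddGroup.eq_zero_iff]
  rw [Ne, ← Module.forall_dual_apply_eq_zero_iff (ZMod 2)] at h2
  push Not at h2
  obtain ⟨φ, hφ⟩ := h2
  exact ⟨φ.toAddMonoidHom.comp (QuotientAddGroup.mk' _), fun h => hφ (DFunLike.congr_fun h x)⟩

theorem exists_fixed {H : Subgroup GQ} {M : Type} [AddCommGroup M] {ρ : GQ → M →+ M}
    (h : Uni H ρ) [Nontrivial M] : ∃ l : M →+ ZMod 2, l ≠ 0 ∧ ∀ g ∈ H, ∀ m, l (ρ g m) = l m := by
  have := h.fin
  have : Finite (M →+ ZMod 2) := DFunLike.finite _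
  obtain ⟨k, hk⟩ := h.tor
  obtain ⟨l₀, hl₀⟩ := exists_fun hk
  letI : MulAction H (M →+ ZMod 2) :=
    { smul := fun g l => l.comp (ρ (g⁻¹ : H))
      one_smul := fun l => AddMonoidHom.ext fun m => congrArg l (by simpa using h.one m)
      mul_smul := fun g g' l => AddMonoidHom.ext fun m => congrArg l (by
        rw [mul_inv_rev]
        exact h.mul _ (g'⁻¹).2 _ (g⁻¹).2 m) }
  have hs : ∀ (g : H) (l : M →+ ZMod 2) m, (g • l) m = l (ρ (g⁻¹ : H) m) := fun _ _ _ => rfl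
  have hP : IsPGroup 2 (MulAction.toPermHom H (M →+ ZMod 2)).range := by
    rintro ⟨_, g, rfl⟩
    obtain ⟨j, hj⟩ := h.pow _ (g⁻¹).2
    refine ⟨j, Subtype.ext ?_⟩
    change MulAction.toPermHom H _ g ^ 2 ^ j = 1
    rw [← map_pow]
    ext l m
    rw [MulAction.toPermHom_apply, MulAction.toPerm_apply, hs, ← inv_pow, SubgroupClass.coe_pow, hj]
    rfl
  have h2 : 2 ∣ Nat.card (M →+ ZMod 2) := by
    have h3 : addOrderOf l₀ = 2 := addOrderOf_eq_prime (by
      ext m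
      rw [two_nsmul, AddMonoidHom.add_apply, CharTwo.add_self_eq_zero]
      rfl) hl₀
    have h4 := addOrderOf_dvd_natCard l₀
    rwa [h3] at h4
  obtain ⟨l, hl, hne⟩ := hP.exists_fixed_point_of_prime_dvd_card_of_fixed_point (M →+ ZMod 2) h2
    (a := 0) (by
      rintro ⟨_, g, rfl⟩
      ext m
      exact hs g 0 m)
  refine ⟨l, hne.symm, fun g hg m => ?_⟩
  have h4 := (hs (⟨g, hg⟩ : H)⁻¹ l m).symm.trans
    (DFunLike.congr_fun (hl ⟨_, (⟨g, hg⟩ : H)⁻¹, rfl⟩) m)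
  rwa [inv_inv] at h4

theorem ext_char {M : Type} [AddCommGroup M] (l : M →+ ZMod 2) {m₀ : M} (h : l m₀ = 1)
    (f : AddChar l.ker Om) : ∃ f' : AddChar M Om, ∀ m : l.ker, f' m = f m := by
  have h1 : ∀ m, m - (l m).val • m₀ ∈ l.ker := fun m => by simp [h]
  have h2 : 2 • m₀ ∈ l.ker := by
    rw [AddMonoidHom.mem_ker, map_nsmul, two_nsmul, CharTwo.add_self_eq_zero]
  obtain ⟨r, hr⟩ := IsAlgClosed.exists_pow_nat_eq (f ⟨_, h2⟩) two_pos
  refine ⟨⟨fun m => f ⟨_, h1 m⟩ * r ^ (l m).val, by simp [← ZeroMemClass.zero_def], fun m m' => ?_⟩,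
    fun m => ?_⟩
  · have h3 : (l m).val + (l m').val = (l (m + m')).val + 2 * (((l m).val + (l m').val) / 2) := by
      rw [map_add, ZMod.val_add, Nat.mod_add_div]
    have h4 : (⟨_, h1 (m + m')⟩ : l.ker) = ⟨_, h1 m⟩ + ⟨_, h1 m'⟩ +
        (((l m).val + (l m').val) / 2) • ⟨_, h2⟩ := by
      apply Subtype.ext
      simp only [AddSubgroup.coe_add, AddSubgroup.coe_nsmul]
      rw [sub_add_sub_comm, ← add_nsmul, h3, add_nsmul, mul_nsmul, ← h3]
      abel
    rw [h4, AddChar.map_add_eq_mul, AddChar.map_add_eq_mul, AddChar.map_nsmul_eq_pow, ← hr,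
      ← pow_mul, mul_mul_mul_comm, ← pow_add r (l m).val, h3, pow_add, ← h3]
    ring
  · have h3 : l m = 0 := m.2
    simp [h3]

variable {A : Type} [AddCommGroup A]

theorem idx (f : A →+ A) (B : AddSubgroup A) :
    (B.map f).relIndex f.range * B.relIndex f.ker = B.index := by
  rw [← AddSubgroup.index_comap, AddSubgroup.comap_map_eq, ← AddSubgroup.relIndex_sup_left,
    mul_comm, AddSubgroup.relIndex_mul_index le_sup_left]

theorem chain {f g : A →+ A} {B : AddSubgroup A} (h : f.range ≤ g.ker) (hB : B.map f ≤ B) :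
    (B.map f).relIndex f.range * f.range.relIndex g.ker =
      (B.map f).relIndex (B ⊓ g.ker) * B.relIndex g.ker := by
  rw [AddSubgroup.relIndex_mul_relIndex _ _ _ (AddSubgroup.map_le_range f B) h,
    ← AddSubgroup.inf_relIndex_right B, AddSubgroup.relIndex_mul_relIndex _ _ _
      (le_inf hB ((AddSubgroup.map_le_range f B).trans h)) inf_le_right]

theorem rk [Module.Finite ℤ A] {S S' : AddSubgroup A} (h : S ≤ S') {m : ℕ} (hm : m ≠ 0)
    (h' : ∀ x ∈ S', m • x ∈ S) : Module.finrank ℤ S = Module.finrank ℤ S' := by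
  have : Module.Finite ℤ S' := Module.Finite.of_injective S'.subtype.toIntLinearMap
    S'.subtype_injective
  have h1 := (S.addSubgroupOf S').toIntSubmodule.finrank_quotient_add_finrank
  rw [Module.finrank_eq_zero_iff.2 fun x => ?_, zero_add] at h1
  · rw [← h1]
    exact (AddSubgroup.addSubgroupOfEquivOfLe h).symm.toIntLinearEquiv.finrank_eq
  · obtain ⟨x, rfl⟩ := Submodule.Quotient.mk_surjective _ x
    refine ⟨(m : ℤ), by exact_mod_cast hm, ?_⟩
    rw [← Submodule.Quotient.mk_smul, Submodule.Quotient.mk_eq_zero, natCast_zsmul]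
    exact h' x x.2

theorem kill [Module.Finite ℤ A] :
    ∃ m : ℕ, m ≠ 0 ∧ ∀ (x : A) (k : ℤ), k • m • x = 0 → k = 0 ∨ m • x = 0 := by
  have : Finite (Submodule.torsion ℤ A) :=
    Module.finite_of_fg_torsion _ Submodule.torsion_isTorsion
  have hm : Nat.card (Submodule.torsion ℤ A) ≠ 0 := Nat.card_pos.ne'
  refine ⟨_, hm, fun x k hk => or_iff_not_imp_left.2 fun h0 => ?_⟩
  have hx : x ∈ Submodule.torsion ℤ A :=
    ⟨⟨k * Nat.card (Submodule.torsion ℤ A), mem_nonZeroDivisors_of_ne_zero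
      (mul_ne_zero h0 (by exact_mod_cast hm))⟩, by
        rw [Submonoid.mk_smul, mul_smul, natCast_zsmul, hk]⟩
  exact congrArg Subtype.val (card_nsmul_eq_zero' (x := (⟨x, hx⟩ : Submodule.torsion ℤ A)))

theorem half [Module.Finite ℤ A] {f g : A →+ A} (h1 : ∀ x, f x + g x = 2 • x) {m : ℕ} (hm : m ≠ 0)
    (hk : ∀ (x : A) (k : ℤ), k • m • x = 0 → k = 0 ∨ m • x = 0) {B : AddSubgroup A}
    (hB : B = ((nsmulAddMonoidHom m).range ⊓ g.ker) ⊔ ((nsmulAddMonoidHom m).range ⊓ f.ker)) :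
    (B.map f).relIndex (B ⊓ g.ker) = 2 ^ Module.finrank ℤ g.ker := by
  set P := (nsmulAddMonoidHom (α := A) m).range ⊓ g.ker with hP
  have e1 : B ⊓ g.ker = P := by
    refine le_antisymm ?_ (le_inf (hB ▸ le_sup_left) inf_le_right)
    rintro x ⟨hx, hx'⟩
    obtain ⟨a, ha, b, ⟨⟨c, rfl⟩, hb⟩, rfl⟩ := AddSubgroup.mem_sup.1 (hB ▸ hx)
    have h2 : g a = 0 := ha.2
    have h3 : f (m • c) = 0 := hb
    have h4 : g (a + m • c) = 0 := hx'
    have h5 := h1 (m • c)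
    rw [map_add, h2, zero_add] at h4
    rw [h3, h4, add_zero] at h5
    have h6 : m • c = 0 := (hk c 2 (by rw [two_zsmul, ← two_nsmul, ← h5])).resolve_left two_ne_zero
    change a + m • c ∈ P
    rwa [h6, add_zero]
  have e2 : B.map f = P.map (nsmulAddMonoidHom 2) := by
    have h2 : ∀ a ∈ P, f a = 2 • a := fun a ha => by
      rw [← h1, show g a = 0 from ha.2, add_zero]
    apply le_antisymm
    · rintro _ ⟨x, hx, rfl⟩
      obtain ⟨a, ha, b, hb, rfl⟩ := AddSubgroup.mem_sup.1 (hB ▸ hx)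
      exact ⟨a, ha, by rw [map_add, show f b = 0 from hb.2, add_zero, h2 a ha]; rfl⟩
    · rintro _ ⟨a, ha, rfl⟩
      exact ⟨a, hB ▸ AddSubgroup.mem_sup_left ha, h2 a ha⟩
  have : Module.IsTorsionFree ℤ P.toIntSubmodule := Module.IsTorsionFree.of_smul_eq_zero (by
    rintro k ⟨_, ⟨c, rfl⟩, hc⟩ h
    exact (hk c k (congrArg Subtype.val h)).imp_right fun h0 => Subtype.ext h0)
  rw [e1, e2, AddSubgroup.relIndex_map_nsmul, rk (S := P) inf_le_right hm fun x hx =>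
    ⟨⟨x, rfl⟩, g.ker.nsmul_mem hx m⟩]

end TFILT

open Classical in
theorem t_FILT : FILT := by
  intro H M _ ρ h _
  have := h.fin
  obtain ⟨l, hl, hfix⟩ := TFILT.exists_fixed h
  have hs : Function.Surjective l := by
    obtain ⟨m, hm⟩ := DFunLike.ne_iff.1 hl
    intro y
    refine ⟨y.val • m, ?_⟩
    have h1 : ∀ z : ZMod 2, z ≠ 0 → z = 1 := by decide
    simp [h1 _ hm]
  let ρ' : GQ → l.ker →+ l.ker := fun g => if hg : g ∈ H then
    ((ρ g).comp l.ker.subtype).codRestrict l.ker (fun m => (hfix g hg m).trans m.2)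
    else AddMonoidHom.id _
  have hρ : ∀ g ∈ H, ∀ m, (ρ' g m : M) = ρ g m := fun g hg m => by
    simp only [ρ', dif_pos hg]
    rfl
  refine ⟨l, ρ', hs, hfix, ⟨inferInstance, ?_, fun m => ?_, fun g hg g' hg' m => ?_, ?_,
    fun g hg => ?_⟩, hρ, ?_, fun f => ?_⟩
  · exact h.tor.imp fun k hk m => Subtype.ext (hk m)
  · exact Subtype.ext ((hρ 1 H.one_mem m).trans (h.one m))
  · apply Subtype.ext
    rw [hρ _ (H.mul_mem hg hg'), hρ _ hg, hρ _ hg', h.mul g hg g' hg']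
  · obtain ⟨N, hN, e⟩ := h.sm
    refine ⟨N, hN, fun g hg n hn hn' => AddMonoidHom.ext fun m => Subtype.ext ?_⟩
    rw [hρ _ (H.mul_mem hg hn), hρ _ hg, e g hg n hn hn']
  · exact (h.pow g hg).imp fun k hk m => Subtype.ext ((hρ _ (H.pow_mem hg _) m).trans (hk m))
  · rw [← l.ker.index_mul_card, AddSubgroup.index_ker, AddMonoidHom.range_eq_top.2 hs]
    simp
  · obtain ⟨m₀, h₀⟩ := hs 1
    exact TFILT.ext_char l h₀ f

theorem t_HQ : HQ := by
  intro A _ σ B hσ hB hfin b₀ b₁ h₀ h₁ e₀ e₁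
  have i₀ := TFILT.idx (AddMonoidHom.id A + σ) B
  have i₁ := TFILT.idx (AddMonoidHom.id A - σ) B
  have c₀ := TFILT.chain (f := AddMonoidHom.id A + σ) (g := AddMonoidHom.id A - σ) (B := B)
    (by rintro _ ⟨x, rfl⟩; simp [hσ, add_comm]) (by rintro _ ⟨x, hx, rfl⟩; exact B.add_mem hx (hB x hx))
  have c₁ := TFILT.chain (f := AddMonoidHom.id A - σ) (g := AddMonoidHom.id A + σ) (B := B)
    (by rintro _ ⟨x, rfl⟩; simp [hσ]) (by rintro _ ⟨x, hx, rfl⟩; exact B.sub_mem hx (hB x hx))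
  rw [e₀] at c₀
  rw [e₁] at c₁
  have hn := hfin.index_ne_zero
  have n₀ := mul_ne_zero_iff.1 (i₀ ▸ hn)
  have n₁ := mul_ne_zero_iff.1 (i₁ ▸ hn)
  refine ⟨right_ne_zero_of_mul (c₀ ▸ mul_ne_zero h₀ n₁.2),
    right_ne_zero_of_mul (c₁ ▸ mul_ne_zero h₁ n₀.2), mul_right_cancel₀ hn ?_⟩
  generalize (AddMonoidHom.id A + σ).range.relIndex (AddMonoidHom.id A - σ).ker = a₀ at *
  generalize (AddMonoidHom.id A - σ).range.relIndex (AddMonoidHom.id A + σ).ker = a₁ at *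
  generalize (B.map (AddMonoidHom.id A + σ)).relIndex (AddMonoidHom.id A + σ).range = u at *
  generalize (B.map (AddMonoidHom.id A - σ)).relIndex (AddMonoidHom.id A - σ).range = v at *
  generalize B.relIndex (AddMonoidHom.id A + σ).ker = x at *
  generalize B.relIndex (AddMonoidHom.id A - σ).ker = y at *
  calc a₀ * b₁ * B.index = (u * a₀) * (b₁ * x) := by rw [← i₀]; ring
    _ = (b₀ * y) * (v * a₁) := by rw [c₀, c₁]
    _ = a₁ * b₀ * B.index := by rw [← i₁]; ring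

theorem t_HQ2 : HQ2 := by
  intro A _ _ σ hσ
  obtain ⟨m, hm, hk⟩ := TFILT.kill (A := A)
  set f := AddMonoidHom.id A + σ with hf
  set g := AddMonoidHom.id A - σ with hg
  have h1 : ∀ x, f x + g x = 2 • x := fun x => by simp [hf, hg, two_nsmul]
  have h2 : ∀ x, g (f x) = 0 := fun x => by simp [hf, hg, hσ, add_comm]
  have h3 : ∀ x, f (g x) = 0 := fun x => by simp [hf, hg, hσ]
  set B := ((nsmulAddMonoidHom (α := A) m).range ⊓ g.ker) ⊔ ((nsmulAddMonoidHom m).range ⊓ f.ker)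
    with hB
  have : AddGroup.FG A := Module.Finite.iff_addGroup_fg.1 inferInstance
  have := AddSubgroup.finiteIndex_range_nsmulAddMonoidHom_of_fg A (mul_ne_zero hm two_ne_zero)
  obtain ⟨a₀, -, a₁⟩ := t_HQ A σ B hσ (fun x hx => by
      obtain ⟨a, ha, b, hb, rfl⟩ := AddSubgroup.mem_sup.1 hx
      have h4 : a - σ a = 0 := ha.2
      have h5 : b + σ b = 0 := hb.2
      rw [map_add, ← sub_eq_zero.1 h4, eq_neg_of_add_eq_zero_right h5]
      exact B.add_mem (AddSubgroup.mem_sup_left ha) (B.neg_mem (AddSubgroup.mem_sup_right hb)))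
    (AddSubgroup.finiteIndex_of_le (H := (nsmulAddMonoidHom (m * 2)).range) (by
      rintro _ ⟨x, rfl⟩
      change (m * 2) • x ∈ B
      rw [mul_smul, ← h1, smul_add]
      exact B.add_mem (AddSubgroup.mem_sup_left ⟨⟨_, rfl⟩, g.ker.nsmul_mem (h2 x) m⟩)
        (AddSubgroup.mem_sup_right ⟨⟨_, rfl⟩, f.ker.nsmul_mem (h3 x) m⟩)))
    _ _ (pow_ne_zero _ two_ne_zero) (pow_ne_zero _ two_ne_zero) (TFILT.half h1 hm hk hB)
    (TFILT.half (fun x => (add_comm _ _).trans (h1 x)) hm hk (hB.trans (sup_comm _ _)))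
  have r1 : Module.finrank ℤ f.range = Module.finrank ℤ g.ker :=
    TFILT.rk (by rintro _ ⟨x, rfl⟩; exact h2 x) two_ne_zero fun x hx =>
      ⟨x, by rw [← h1, show g x = 0 from hx, add_zero]⟩
  have r2 : Module.finrank ℤ f.range + Module.finrank ℤ f.ker = Module.finrank ℤ A := by
    rw [← f.ker.toIntSubmodule.finrank_quotient_add_finrank]
    congr 1
    exact (QuotientAddGroup.quotientKerEquivRange f).symm.toIntLinearEquiv.finrank_eq
  refine ⟨a₀, ?_⟩
  rw [← r2, r1, pow_add, mul_left_comm, a₁, show 4 = 2 * 2 from rfl, mul_pow]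
  ring

end Pool.Agent.P.MP_8b7eba_nt.R2
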