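import Pool.Agent.P.MP_8b7eba_nt.R2.THASSE

/-! Proof of KEY. -/

namespace Pool.Agent.P.MP_8b7eba_nt.R2

open scoped NNReal ComplexConjugate

namespace TKEY

open THASSE

variable {U : Subgroup GQ}

/-- a global element with prescribed valuations at finitely many places -/
theorem exists_val (hUNIF : UNIF) (hU : IsOpen (U : Set GQ)) {R : Set Pl} (hK : Kill U R)
    {W : Finset Pl} (hW : Sep U W) (hO : ∀ w ∈ W, Out U R w) (x : W → Om)
    (hx : ∀ w : W, Fix (w.1.D ⊓ U) (x w) ∧ x w ≠ 0) :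
    ∃ u ∈ SU U (R ∪ W), ∀ w : W, w.1.v u = w.1.v (x w) := by
  classical
  have h1 : ∀ w : W, ∃ k : Omˣ, Fix U k ∧ w.1.v k = w.1.v (x w) ∧
      ∀ w', Out U (insert w.1 R) w' → w'.v k = 1 := fun w => by
    obtain ⟨π, -, hπ, -⟩ := hUNIF w U hU
    obtain ⟨k, hk, hv, ho⟩ := hK w π (hO w w.2) hπ
    obtain ⟨n, hn⟩ := hπ.2.2.2 (x w) (hx w).1 (hx w).2
    have h0 : k ≠ 0 := by
      rintro rfl
      rw [map_zero] at hv
      exact hπ.2.1 ((Valuation.zero_iff _).1 hv.symm)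
    refine ⟨Units.mk0 k h0 ^ n, ?_, ?_, fun w' hw' => ?_⟩
    · rw [Units.val_zpow_eq_zpow_val]; exact hk.zpow n
    · rw [Units.val_zpow_eq_zpow_val, map_zpow₀, Units.val_mk0, hv, hn]
    · rw [Units.val_zpow_eq_zpow_val, map_zpow₀, Units.val_mk0, ho w' hw', one_zpow]
  choose k hk hv ho using h1
  refine ⟨∏ w, k w, Subgroup.prod_mem _ fun w _ => ⟨hk w, fun w' hw' => ho w w' (hw'.mono ?_)⟩,
    fun w => ?_⟩
  · rintro z (rfl | hz)
    · exact Or.inr w.2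
    · exact Or.inl hz
  · rw [Units.coe_prod, map_prod, Finset.prod_eq_single w, hv]
    · intro w' _ hne
      refine ho w' w fun u hu h => ?_
      rcases h with h | h
      · exact hne (Subtype.ext (h.symm.trans (hW w w.2 u hu (by rw [h]; exact w'.2))))
      · exact hO w w.2 u hu h
    · intro h
      exact absurd (Finset.mem_univ w) h

end TKEY

open THASSE TKEY

theorem t_KEY (hUNIF : UNIF) (hORB : ORB) (hSQ2 : SQ2) (hNI : NI) (hNU : NU) (hFIRST : FIRST) : KEY := by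
  intro U R T hU hT hR hK h2 hAux y hy hsq
  classical
  by_contra hn
  have hyU : Fix U y := hy.1
  obtain ⟨R₁, hR₁, hF⟩ := hFIRST U y hU hT hyU y.ne_zero hn
  have hfin : (R ∪ T ∪ R₁).Finite := (hR.union T.finite_toSet).union hR₁
  obtain ⟨hF0, hF1⟩ := hF _ hfin Set.subset_union_right
  obtain ⟨W, hsub, hW, -, hcard⟩ := (hORB U hU).1 {w ∈ R ∪ T ∪ R₁ | ¬ Sq (w.D ⊓ U) y}
    (hfin.subset fun w hw => hw.1)
  have hO : ∀ w ∈ W, Out U R w := fun w hw u hu h =>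
    (hsub hw).2 ((sq_smul hu hyU).1 (hsq _ h))
  let Δ : SU U (R ∪ T ∪ R₁) →* ∀ w : W, FU (w.1.D ⊓ U) :=
    MonoidHom.pi fun w => Subgroup.inclusion fun y hy => Fix.mono hy.1 inf_le_right
  let N : Subgroup (∀ w : W, FU (w.1.D ⊓ U)) := Subgroup.pi Set.univ fun w =>
    (NmS (w.1.D ⊓ U) y).subgroupOf (FU (w.1.D ⊓ U))
  have h1 : Δ.range ⊔ N = ⊤ := by
    rw [eq_top_iff]
    intro x _
    obtain ⟨u₁, hu₁, hv⟩ := exists_val hUNIF hU hK hW hO (fun w => ((x w : Omˣ) : Om))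
      fun w => ⟨(x w).2, Units.ne_zero _⟩
    obtain ⟨u₂, hu₂, hs⟩ := hAux.2.2 (T.filter fun t => ∀ w : W, ∀ g ∈ U, g • w.1 = t →
      Sq (w.1.D ⊓ U) ((x w : Omˣ) * (u₁ : Om)⁻¹)) (Finset.filter_subset _ _)
    have hu : u₁ * u₂⁻¹ ∈ SU U (R ∪ T ∪ R₁) := by
      refine Subgroup.mul_mem _ (SU.mono ?_ hu₁) (Subgroup.inv_mem _ (SU.mono ?_ hu₂))
      · rintro z (hz | hz)
        · exact Or.inl (Or.inl hz)
        · exact (hsub hz).1
      · exact fun z hz => Or.inl (Or.inl hz)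
    rw [← mul_inv_cancel_left (Δ ⟨_, hu⟩) x]
    refine Subgroup.mul_mem_sup ⟨_, rfl⟩ fun w _ => (mem_NmS (hyU.mono inf_le_right)).2 ?_
    have e : ((((Δ ⟨_, hu⟩)⁻¹ * x) w : Omˣ) : Om) = (x w : Omˣ) * (u₁ : Om)⁻¹ * u₂ := by
      show (((u₁ * u₂⁻¹)⁻¹ * (x w : Omˣ) : Omˣ) : Om) = _
      simp only [mul_inv_rev, inv_inv, Units.val_mul, Units.val_inv_eq_inv_val]
      ring
    show Nm _ _ ((((Δ ⟨_, hu⟩)⁻¹ * x) w : Omˣ) : Om)
    rw [e]
    have hl := w.1.loc_inf hU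
    have hp := h2 w (hO w w.2)
    have f1 : Fix (w.1.D ⊓ U) ((x w : Omˣ) * (u₁ : Om)⁻¹) :=
      Fix.mul (x w).2 (Fix.mono hu₁.1 inf_le_right).inv
    have f2 : Fix (w.1.D ⊓ U) u₂ := Fix.mono hu₂.1 inf_le_right
    have v1 : w.1.v ((x w : Omˣ) * (u₁ : Om)⁻¹) = 1 := by
      rw [map_mul, map_inv₀, hv w, mul_inv_cancel₀ ((Valuation.ne_zero_iff _).2 (Units.ne_zero _))]
    have v2 : w.1.v u₂ = 1 := hu₂.2 w (hO w w.2)
    by_cases ht : Out U T w
    · refine (hNU w _ y hl hp (hyU.mono inf_le_right) (hy.2 w ?_)).1 _ (f1.mul f2) ?_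
        ⟨1, fix_one, by rw [map_mul, v1, v2]; simp⟩
      · rintro u hu (h | h)
        · exact hO w w.2 u hu h
        · exact ht u hu h
      · exact mul_ne_zero (mul_ne_zero (Units.ne_zero _) (inv_ne_zero (Units.ne_zero _)))
          (Units.ne_zero _)
    · obtain ⟨g, hg, hgw⟩ := not_out.1 ht
      have h3 : Sq (w.1.D ⊓ U) u₂ ↔ Sq (w.1.D ⊓ U) ((x w : Omˣ) * (u₁ : Om)⁻¹) := by
        rw [← sq_smul hg hu₂.1, hs _ hgw, Finset.mem_filter]
        refine ⟨fun h => h.2 w g hg rfl, fun h => ⟨hgw, fun w' g' hg' h4 => ?_⟩⟩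
        have h5 : (g⁻¹ * g') • w'.1 = w.1 := by rw [mul_smul, h4, inv_smul_smul]
        have h6 : w = w' := Subtype.ext (h5.symm.trans
          (hW w' w'.2 _ (U.mul_mem (U.inv_mem hg) hg') (by rw [h5]; exact w.2)))
        exact h6 ▸ h
      refine Nm.of_sq ?_
      by_cases h4 : Sq (w.1.D ⊓ U) u₂
      · exact (h3.1 h4).mul h4
      · exact (hSQ2 w).1 _ hl hp _ _ f1 f2 v1 v2 (fun h => h4 (h3.2 h)) h4
  have h3 : (N.comap Δ).index = N.index := by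
    rw [Subgroup.index_comap, ← Subgroup.relIndex_sup_right, h1, Subgroup.relIndex_top_right]
  have h5 : (NmS U y).subgroupOf (SU U (R ∪ T ∪ R₁)) ≤ N.comap Δ := fun z hz w _ =>
    (mem_NmS (hyU.mono inf_le_right)).2 (((mem_NmS hyU).1 hz).mono inf_le_right)
  have h6 : N.index ∣ (NmS U y).relIndex (SU U (R ∪ T ∪ R₁)) := h3 ▸ Subgroup.index_dvd_of_le h5
  have h7 : N.index ≠ 0 := fun h => hF0 (Nat.eq_zero_of_zero_dvd (h ▸ h6))
  have h8 : 2 ^ W.card ≤ N.index := by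
    rw [index_pi'] at h7 ⊢
    rw [← Finset.prod_const, ← Finset.prod_coe_sort W]
    refine Finset.prod_le_prod' fun w _ => ?_
    have h9 := Finset.prod_ne_zero_iff.1 h7 w (Finset.mem_univ w)
    obtain ⟨x, hx, hx0, hn⟩ := (hNI w _ y (w.1.loc_inf hU) (hyU.mono inf_le_right) y.ne_zero
      (hsub w.2).2).1
    have h4 : ((NmS (w.1.D ⊓ U) y).subgroupOf (FU (w.1.D ⊓ U))).index ≠ 1 := fun h5 =>
      hn ((mem_NmS (hyU.mono inf_le_right)).1
        (Subgroup.relIndex_eq_one.1 h5 (show Units.mk0 x hx0 ∈ FU _ from hx)))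
    omega
  have h9 := Nat.le_of_dvd (Nat.pos_of_ne_zero hF0) h6
  have h10 : nNs U (R ∪ T ∪ R₁) y = W.card := hcard.symm
  rw [h10] at hF1
  omega

end Pool.Agent.P.MP_8b7eba_nt.R2
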