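import Pool.Agent.P.MP_8b7eba_nt.R2.TTEX
import Pool.Agent.P.MP_8b7eba_nt.R2.TKEY

/-! Proof of FIRST. -/

namespace Pool.Agent.P.MP_8b7eba_nt.R2

open scoped NNReal ComplexConjugate

namespace TFIRST

open THASSE TTEX TKEY

/-- a quadratic extension with its automorphism -/
structure Quad (U U' : Subgroup GQ) (β : Om) (s : GQ) : Prop where
  ne : β ≠ 0
  fix : Fix U (β ^ 2)
  mem : ∀ g, g ∈ U' ↔ g ∈ U ∧ g β = β
  hs : s ∈ U
  sβ : s β = -β

variable {U U' : Subgroup GQ} {β : Om} {s : GQ}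

theorem Quad.le (h : Quad U U' β s) : U' ≤ U := fun g hg => ((h.mem g).1 hg).1

theorem Quad.neg_ne (h : Quad U U' β s) : -β ≠ β := fun e =>
  h.ne (by linear_combination (-1 / 2 : Om) * e)

theorem Quad.inv (h : Quad U U' β s) : s⁻¹ β = -β := by
  have e : s⁻¹ (s β) = β := s.symm_apply_apply β
  rw [h.sβ, map_neg] at e
  rw [← neg_neg (s⁻¹ β), e]

theorem Quad.mul (h : Quad U U' β s) {g k : GQ} (hg : g ∈ U) (hk : k ∈ U) (e1 : g β = -β)
    (e2 : k β = -β) : g * k ∈ U' :=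
  (h.mem _).2 ⟨U.mul_mem hg hk, by
    show g (k β) = β
    rw [e2, map_neg, e1, neg_neg]⟩

theorem Quad.conj (h : Quad U U' β s) {g : GQ} (hg : g ∈ U') : s⁻¹ * g * s ∈ U' :=
  h.mul (U.mul_mem (U.inv_mem h.hs) (h.le hg)) h.hs (by
    show s⁻¹ (g β) = -β
    rw [((h.mem g).1 hg).2, h.inv]) h.sβ

theorem Quad.fix_s (h : Quad U U' β s) {z : Om} (hz : Fix U' z) : Fix U' (s z) := fun g hg => by
  have e : g (s z) = s ((s⁻¹ * g * s) z) := (s.apply_symm_apply _).symm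
  rw [e, hz _ (h.conj hg)]

theorem Quad.cases (h : Quad U U' β s) {g : GQ} (hg : g ∈ U) :
    g ∈ U' ∨ g β = -β ∧ ∀ z, Fix U' z → g z = s z ∧ g (s z) = z := by
  rcases pm h.fix hg with e | e
  · exact Or.inl ((h.mem g).2 ⟨hg, e⟩)
  · refine Or.inr ⟨e, fun z hz => ⟨?_, hz _ (h.mul hg h.hs e h.sβ)⟩⟩
    have e1 : g z = s ((s⁻¹ * g) z) := (s.apply_symm_apply _).symm
    rw [e1, hz _ (h.mul (U.inv_mem h.hs) hg h.inv e)]

theorem Quad.fix_of (h : Quad U U' β s) {z : Om} (hz : Fix U' z) (e : s z = z) : Fix U z :=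
  fun g hg => by
    rcases h.cases hg with h1 | h1
    · exact hz g h1
    · rw [(h1.2 z hz).1, e]

theorem Quad.ss (h : Quad U U' β s) {z : Om} (hz : Fix U' z) : s (s z) = z :=
  hz _ (h.mul h.hs h.hs h.sβ h.sβ)

theorem Quad.fixβ (h : Quad U U' β s) : Fix U' β := fun g hg => ((h.mem g).1 hg).2

theorem Quad.nm (h : Quad U U' β s) {z : Om} (hz : Fix U' z) : Nm U (β ^ 2) (z * s z) := by
  have h2 : Fix U' 2 := fix_ofNat 2
  have h0 := h.ne
  refine ⟨(z + s z) / 2, (z - s z) / (2 * β), h.fix_of ((hz.add (h.fix_s hz)).div h2) ?_,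
    h.fix_of ((hz.sub (h.fix_s hz)).div (h2.mul h.fixβ)) ?_, ?_⟩
  · rw [map_div₀, map_add, h.ss hz, map_ofNat, add_comm]
  · rw [map_div₀, map_sub, map_mul, h.ss hz, map_ofNat, h.sβ]
    field_simp
    ring
  · field_simp
    ring

theorem Quad.index (h : Quad U U' β s) : U'.index = 2 * U.index := by
  rw [← Subgroup.relIndex_mul_index h.le]
  congr 1
  refine Subgroup.index_eq_two_iff.2 ⟨⟨s, h.hs⟩, fun g => ?_⟩
  rcases pm h.fix g.2 with e | e
  · refine Or.inr ⟨(h.mem _).2 ⟨g.2, e⟩, fun h1 => h.neg_ne ?_⟩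
    have h2 : g.1 (s β) = β := ((h.mem _).1 h1).2
    rwa [h.sβ, map_neg, e] at h2
  · exact Or.inl ⟨h.mul g.2 h.hs e h.sβ, fun h1 => h.neg_ne (e.symm.trans ((h.mem _).1 h1).2)⟩

theorem Quad.out (h : Quad U U' β s) {R : Set Pl} {w : Pl} :
    Out U' (R ∪ (fun r => s • r) '' R) w ↔ Out U R w := by
  constructor
  · intro h1 g hg hgw
    rcases pm h.fix hg with e | e
    · exact h1 g ((h.mem g).2 ⟨hg, e⟩) (Or.inl hgw)
    · exact h1 _ (h.mul h.hs hg h.sβ e) (Or.inr ⟨_, hgw, (mul_smul _ _ _).symm⟩)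
  · rintro h1 g hg (hgw | ⟨r, hr, e⟩)
    · exact h1 g (h.le hg) hgw
    · refine h1 _ (U.mul_mem (U.inv_mem h.hs) (h.le hg)) ?_
      rw [mul_smul, ← e]
      simpa using hr

theorem card_le_nOrb {S : Set Pl} (hS : S.Finite) {X : Finset Pl} (h1 : ↑X ⊆ S) (h2 : Sep U X) :
    X.card ≤ nOrb U S := by
  unfold nOrb
  rw [← Set.ncard_coe_finset, ← Set.InjOn.ncard_image (f := fun w => MulAction.orbit U w)]
  · exact Set.ncard_le_ncard (Set.image_mono h1) (hS.image _)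
  · intro w hw w' hw' h
    obtain ⟨u, hu⟩ := MulAction.orbit_eq_iff.1 h
    exact hu.symm.trans (h2 w' hw' u u.2 (by rw [show (u : GQ) • w' = w from hu]; exact hw))

theorem Quad.count (h : Quad U U' β s) (hORB : ORB) (hU : IsOpen (U : Set GQ)) {R : Set Pl}
    (hR : R.Finite) :
    2 * nOrb U R ≤ nOrb U' (R ∪ (fun r => s • r) '' R) + nNs U R (β ^ 2) := by
  classical
  obtain ⟨X, hsub, hX, -, hc⟩ := (hORB U hU).1 R hR
  have key : ∀ r ∈ X, Sq (r.D ⊓ U) (β ^ 2) → ∀ g ∈ U, g β = -β → g • r ∉ X :=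
    fun r hr hq g hg e hgr => h.neg_ne (e.symm.trans
      ((sq_iff (h.fix.mono inf_le_right)).1 hq g ⟨hX r hr g hg hgr, hg⟩))
  have h1 := card_le_nOrb (U := U) (S := {w ∈ R | ¬ Sq (w.D ⊓ U) (β ^ 2)})
    (hR.subset fun w hw => hw.1) (X := X.filter fun w => ¬ Sq (w.D ⊓ U) (β ^ 2))
    (fun w hw => ⟨hsub (Finset.mem_filter.1 hw).1, (Finset.mem_filter.1 hw).2⟩)
    (fun w hw u hu huw => hX w (Finset.mem_filter.1 hw).1 u hu (Finset.mem_filter.1 huw).1)
  have h2 := card_le_nOrb (U := U') (hR.union (hR.image fun r => s • r))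
    (X := X ∪ (X.filter fun w => Sq (w.D ⊓ U) (β ^ 2)).image fun r => s • r)
    (fun w hw => by
      rw [Finset.mem_coe, Finset.mem_union, Finset.mem_image] at hw
      rcases hw with hw | ⟨r, hr, rfl⟩
      · exact Or.inl (hsub hw)
      · exact Or.inr ⟨r, hsub (Finset.mem_filter.1 hr).1, rfl⟩)
    (fun w hw g hg hgw => by
      rw [Finset.mem_coe, Finset.mem_union, Finset.mem_image] at hw hgw
      have g1 := h.le hg
      have g2 := h.fixβ g hg
      rcases hw with hw | ⟨r, hr, rfl⟩ <;> rcases hgw with hgw | ⟨r', hr', e⟩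
      · exact hX w hw g g1 hgw
      · refine absurd (show (g⁻¹ * s) • r' ∈ X by rw [mul_smul, e, inv_smul_smul]; exact hw)
          (key r' (Finset.mem_filter.1 hr').1 (Finset.mem_filter.1 hr').2 _
            (U.mul_mem (U.inv_mem g1) h.hs) ?_)
        show g⁻¹ (s β) = -β
        rw [h.sβ, map_neg, h.fixβ _ (U'.inv_mem hg)]
      · refine absurd (show (g * s) • r ∈ X by rw [mul_smul]; exact hgw)
          (key r (Finset.mem_filter.1 hr).1 (Finset.mem_filter.1 hr).2 _ (U.mul_mem g1 h.hs) ?_)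
        show g (s β) = -β
        rw [h.sβ, map_neg, g2]
      · have e1 : (s⁻¹ * g * s) • r = r' := by rw [mul_smul, mul_smul, ← e, inv_smul_smul]
        have e2 := hX r (Finset.mem_filter.1 hr).1 _ (h.le (h.conj hg))
          (by rw [e1]; exact (Finset.mem_filter.1 hr').1)
        rw [← e, ← e1, e2])
  rw [Finset.card_union_of_disjoint (by
      rw [Finset.disjoint_right]
      intro w hw
      obtain ⟨r, hr, rfl⟩ := Finset.mem_image.1 hw
      exact key r (Finset.mem_filter.1 hr).1 (Finset.mem_filter.1 hr).2 s h.hs h.sβ),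
    Finset.card_image_of_injective _ (MulAction.injective s)] at h2
  have h3 := Finset.card_filter_add_card_filter_not (s := X) fun w => Sq (w.D ⊓ U) (β ^ 2)
  unfold nNs
  omega

/-- Hilbert's theorem 90 for `S`-units -/
theorem Quad.h90 (h : Quad U U' β s) (hPL : PL) (hUNIF : UNIF) (hORB : ORB) (hSQ2 : SQ2)
    (hU : IsOpen (U : Set GQ)) {R : Set Pl} (hK : Kill U R)
    (hO : ∀ w, Out U R w → w.p ≠ 2 ∧ w.v (β ^ 2) = 1) {u : Om} (hu : Fix U' u)
    (hv : ∀ w, Out U R w → w.v u = 1) (e : u * s u = 1) :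
    ∃ y : Omˣ, Fix U' y ∧ (∀ w, Out U R w → w.v y = 1) ∧ u * s y = y := by
  classical
  obtain ⟨y, hy0, hy, hys⟩ : ∃ y : Om, y ≠ 0 ∧ Fix U' y ∧ u * s y = y := by
    by_cases h1 : 1 + u = 0
    · refine ⟨β, h.ne, h.fixβ, ?_⟩
      rw [h.sβ]
      linear_combination (-β) * h1
    · refine ⟨1 + u, h1, fix_one.add hu, ?_⟩
      rw [map_add, map_one]
      linear_combination e
  have hg : ∀ w, Out U R w → ∀ g ∈ U, w.v (g y) = w.v y := fun w hw g hg => by
    rcases h.cases hg with h1 | h1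
    · rw [hy g h1]
    · rw [(h1.2 y hy).1]
      conv_rhs => rw [← hys, map_mul, hv w hw, one_mul]
  obtain ⟨B, hB⟩ := hPL.2.2.2.2.2.1 y hy0
  obtain ⟨X, hX, hXO⟩ := (hORB U hU).2.1 (Finset.range (B + 1))
  have h1 : ∀ w : X.filter (Out U R), ∃ x : Om, (Fix (w.1.D ⊓ U) x ∧ x ≠ 0) ∧
      w.1.v x = w.1.v y := fun w => by
    obtain ⟨π, hπ, -, hI, -⟩ := hUNIF w U hU
    have h2 := hO w (Finset.mem_filter.1 w.2).2
    have f1 : Fix (w.1.I ⊓ U) (β ^ 2) := h.fix.mono inf_le_right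
    have h3 : Fix (w.1.I ⊓ U) β := (sq_iff f1).1
      ((hSQ2 w).2.1 _ inf_le_left h2.1 _ f1 ⟨1, fix_one, by rw [h2.2]; simp⟩)
    obtain ⟨k, hk⟩ := hI.2.2.2 y (hy.mono fun g hg => (h.mem g).2 ⟨hg.2, h3 g hg⟩) hy0
    exact ⟨π ^ k, ⟨(hπ.zpow k).mono inf_le_right, zpow_ne_zero k hI.2.1⟩, by rw [map_zpow₀, hk]⟩
  choose x hx hxv using h1
  obtain ⟨c, hc, hcv⟩ := exists_val hUNIF hU hK (W := X.filter (Out U R))
    (fun w hw g hg hgw => hX w (Finset.mem_filter.1 hw).1 g hg (Finset.mem_filter.1 hgw).1)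
    (fun w hw => (Finset.mem_filter.1 hw).2) x hx
  have hc0 : (c : Om) ≠ 0 := c.ne_zero
  refine ⟨Units.mk0 y hy0 / c, ?_, fun w hw => ?_, ?_⟩
  · rw [Units.val_div_eq_div_val]
    exact hy.div (Fix.mono hc.1 h.le)
  · rw [Units.val_div_eq_div_val, Units.val_mk0, map_div₀,
      div_eq_one_iff_eq ((Valuation.ne_zero_iff _).2 hc0)]
    by_cases h2 : Out U X w
    · rw [hB w (by have := (hXO w).1 h2; rw [Finset.mem_range] at this; omega), hc.2 w]
      rintro g hg (h3 | h3)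
      · exact hw g hg h3
      · exact h2 g hg (Finset.mem_filter.1 h3).1
    · obtain ⟨g, hg', hgw⟩ := not_out.1 h2
      have h3 := (hcv ⟨g • w, Finset.mem_filter.2 ⟨hgw, (Out.smul hg').2 hw⟩⟩).trans (hxv _)
      simp only [Pl.smul_v] at h3
      rw [hc.1 _ (U.inv_mem hg'), hg w hw _ (U.inv_mem hg')] at h3
      exact h3.symm
  · rw [Units.val_div_eq_div_val, Units.val_mk0, map_div₀, hc.1 s h.hs, ← mul_div_assoc, hys]

/-- the underlying algebraic number -/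
def val {H : Subgroup Omˣ} (x : Additive H) : Om := ((x.toMul : H) : Omˣ)

theorem val_inj {H : Subgroup Omˣ} {x y : Additive H} (h : val x = val y) : x = y :=
  Additive.toMul.injective (Subtype.ext (Units.ext h))

theorem val_add {H : Subgroup Omˣ} (x y : Additive H) : val (x + y) = val x * val y := rfl

theorem val_zero {H : Subgroup Omˣ} : val (0 : Additive H) = 1 := rfl

theorem val_ne {H : Subgroup Omˣ} (x : Additive H) : val x ≠ 0 := Units.ne_zero _

end TFIRST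

open THASSE TTEX TFIRST

theorem t_FIRST (hGAL : GAL) (hPL : PL) (hUNIF : UNIF) (hORB : ORB) (hCLS : CLS) (hSUN : SUN) (hTAU : TAU) (hHQ2 : HQ2) (hSQ2 : SQ2) : FIRST := by
  intro U b hU hT hb hb0 hn
  obtain ⟨β, rfl⟩ := exists_root b two_ne_zero
  obtain ⟨U', s, hU', h⟩ : ∃ (U' : Subgroup GQ) (s : GQ), IsOpen (U' : Set GQ) ∧ Quad U U' β s := by
    have h1 : ¬ Fix U β := fun h => hn ((sq_iff hb).2 h)
    unfold Fix at h1
    push Not at h1
    obtain ⟨s, hs, h2⟩ := h1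
    exact ⟨U ⊓ MulAction.stabilizer GQ β, s, hU.inter (isOpen_stab β),
      fun h0 => hb0 (by rw [h0]; simp), hb, fun g => Iff.rfl, hs, (pm hb hs).resolve_left h2⟩
  obtain ⟨R₂, hR₂, hK⟩ := (hCLS U hU).2
  obtain ⟨B, hB⟩ := hPL.2.2.2.2.2.1 _ hb0
  obtain ⟨R₃, -, hR₃⟩ := (hORB U hU).2.1 (Finset.range (B + 3))
  refine ⟨R₂ ∪ R₃, hR₂.union R₃.finite_toSet, fun R hR hsub => ?_⟩
  have hO : ∀ w, Out U R w → w.p ≠ 2 ∧ w.v (β ^ 2) = 1 := fun w hw => by
    have h1 := (hR₃ w).1 (hw.mono (Set.subset_union_right.trans hsub))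
    rw [Finset.mem_range] at h1
    exact ⟨by omega, hB w (by omega)⟩
  have hcount := h.count hORB hU hR
  have hout : ∀ w, Out U' (R ∪ (fun r => s • r) '' R) w ↔ Out U R w := fun w => h.out
  have hR' : (R ∪ (fun r => s • r) '' R).Finite := hR.union (hR.image _)
  generalize R ∪ (fun r => s • r) '' R = R' at hcount hout hR'
  obtain ⟨fin', rk', -⟩ := hSUN U' R' hU' (hT.mono h.le) hR'
  obtain ⟨-, rk, -⟩ := hSUN U R hU hT hR
  obtain ⟨k, hk⟩ := (hTAU.2.2.2.2.2 U hU hT).1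
  obtain ⟨σ, hσ⟩ : ∃ σ : Additive (SU U' R') →+ Additive (SU U' R'), ∀ x, val (σ x) = s (val x) :=
    ⟨MonoidHom.toAdditive (((Units.map (s : Om →* Om)).comp (SU U' R').subtype).codRestrict _
      fun x => ⟨h.fix_s x.2.1, fun w hw => by
        have h1 := x.2.2 (s⁻¹ • w) ((hout _).2 ((Out.smul (U.inv_mem h.hs)).2 ((hout w).1 hw)))
        rw [Pl.smul_v, inv_inv] at h1
        exact h1⟩), fun _ => rfl⟩
  have hfx : ∀ x : Additive (SU U' R'), Fix U' (val x) := fun x => x.toMul.2.1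
  have hvx : ∀ x : Additive (SU U' R'), ∀ w, Out U R w → w.v (val x) = 1 := fun x w hw =>
    x.toMul.2.2 w ((hout w).2 hw)
  obtain ⟨q0, q1⟩ := hHQ2 _ σ fun x => val_inj (by rw [hσ, hσ, h.ss (hfx x)])
  have hker : ∀ x, x ∈ (AddMonoidHom.id _ - σ).ker ↔ s (val x) = val x := fun x => by
    rw [AddMonoidHom.mem_ker, AddMonoidHom.sub_apply, AddMonoidHom.id_apply, sub_eq_zero, ← hσ]
    exact ⟨fun e => by rw [← e], fun e => val_inj e.symm⟩
  have h1 : (AddMonoidHom.id _ - σ).range.relIndex (AddMonoidHom.id _ + σ).ker = 1 := by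
    rw [AddSubgroup.relIndex_eq_one]
    intro x hx
    have e : x + σ x = 0 := hx
    obtain ⟨y, hy, hyv, hys⟩ := h.h90 hPL hUNIF hORB hSQ2 hU
      (hK.mono (Set.subset_union_left.trans hsub)) hO (hfx x) (hvx x)
      (by rw [← hσ, ← val_add, e, val_zero])
    refine ⟨Additive.ofMul ⟨y, hy, fun w hw => hyv w ((hout w).1 hw)⟩, ?_⟩
    rw [AddMonoidHom.sub_apply, AddMonoidHom.id_apply, sub_eq_iff_eq_add]
    apply val_inj
    rw [val_add, hσ]
    exact hys.symm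
  let e : (AddMonoidHom.id _ - σ).ker ≃+ Additive (SU U R) :=
    { toFun := fun x => Additive.ofMul ⟨x.1.toMul.1, h.fix_of (hfx x) ((hker x).1 x.2), hvx x⟩
      invFun := fun y => ⟨Additive.ofMul ⟨y.toMul.1, Fix.mono y.toMul.2.1 h.le,
        fun w hw => y.toMul.2.2 w ((hout w).1 hw)⟩, (hker _).2 (y.toMul.2.1 s h.hs)⟩
      left_inv := fun _ => rfl
      right_inv := fun _ => rfl
      map_add' := fun _ _ => rfl }
  have h2 : (NmS U (β ^ 2)).relIndex (SU U R) ∣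
      (AddMonoidHom.id _ + σ).range.relIndex (AddMonoidHom.id _ - σ).ker := by
    have h3 := AddSubgroup.index_comap_of_surjective
      (H := Subgroup.toAddSubgroup ((NmS U (β ^ 2)).subgroupOf (SU U R)))
      (f := e.toAddMonoidHom) e.surjective
    rw [Subgroup.index_toAddSubgroup] at h3
    rw [Subgroup.relIndex, ← h3]
    refine AddSubgroup.index_dvd_of_le ?_
    rintro x ⟨z, hz⟩
    refine (mem_NmS hb).2 ?_
    show Nm U (β ^ 2) (val x.1)
    rw [show x.1 = z + σ z from hz.symm, val_add, hσ]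
    exact h.nm (hfx z)
  rw [h1, one_mul, e.toIntLinearEquiv.finrank_eq] at q1
  refine ⟨fun h3 => q0 (Nat.eq_zero_of_zero_dvd (h3 ▸ h2)), ?_⟩
  refine (Nat.mul_le_mul_left 2 (Nat.le_of_dvd (Nat.pos_of_ne_zero q0) h2)).trans ?_
  refine Nat.le_of_mul_le_mul_right (c := 2 ^ Module.finrank ℤ (Additive (SU U' R'))) ?_
    (by positivity)
  rw [mul_assoc, q1, ← pow_add, show 4 = 2 ^ 2 from rfl, ← pow_mul, ← pow_succ']
  refine Nat.pow_le_pow_right two_pos ?_
  have h4 := h.index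
  omega

end Pool.Agent.P.MP_8b7eba_nt.R2
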