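import Pool.Agent.P.MP_8b7eba_nt.R2.TPL
import Pool.Agent.P.MP_29cb78_nt.C.Gen
import Pool.Agent.P.MP_29cb78_nt.C.Dens
import Pool.Agent.P.MP_29cb78_nt.Euler
import Pool.Agent.P.MP_29cb78_nt.Diri

/-! Proof of GENP. -/

namespace Pool.Agent.P.MP_8b7eba_nt.R2

open scoped NNReal ComplexConjugate
open NumberField

namespace TGENP

theorem sep (hPL : PL) (hGAL : GAL) {N : Subgroup GQ} (hN : ON N) : ∃ B : ℕ, ∀ w : Pl, B < w.p →
    ∀ s : GQ, (∀ y, Fix N y → IsIntegral ℤ y → w.v (s y - y) < 1) → s ∈ N := by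
  have := N.quotient_finite_of_isOpen hN.2
  have h : ∀ q : GQ ⧸ N, ∃ B : ℕ, ∀ w : Pl, B < w.p → ∀ s : GQ, (s : GQ ⧸ N) = q →
      (∀ y, Fix N y → IsIntegral ℤ y → w.v (s y - y) < 1) → s ∈ N := by
    intro q
    obtain ⟨t, rfl⟩ := QuotientGroup.mk_surjective q
    by_cases ht : t ∈ N
    · exact ⟨0, fun w _ s hs _ => by simpa using N.mul_mem ht (QuotientGroup.eq.1 hs.symm)⟩
    obtain ⟨x, hx, h1⟩ : ∃ x, Fix N x ∧ t x ≠ x := by
      by_contra k
      push Not at k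
      exact ht ((hGAL N (closed_of_open hN.2)).1 t k)
    obtain ⟨n, hn, h2⟩ := (TPL.alg x).exists_integral_multiple
    rw [zsmul_eq_mul] at h2
    have h3 : Fix N (n * x) := (fix_int n).mul hx
    have h4 : t (n * x) - n * x ≠ 0 := by
      rw [map_mul, map_intCast, ← mul_sub]
      exact mul_ne_zero (Int.cast_ne_zero.2 hn) (sub_ne_zero.2 h1)
    obtain ⟨B, hB⟩ := hPL.2.2.2.2.2.1 _ h4
    refine ⟨B, fun w hw s hs k => absurd (hB w hw) ?_⟩
    have e : s (n * x) = t (n * x) := by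
      conv_lhs => rw [← h3 _ (QuotientGroup.eq.1 hs), ← AlgEquiv.mul_apply, mul_inv_cancel_left]
    rw [← e]
    exact (k _ h3 h2).ne
  choose B hB using h
  obtain ⟨M, hM⟩ := (Set.finite_range B).bddAbove
  exact ⟨M, fun w hw s => hB s w ((hM (Set.mem_range_self _)).trans_lt hw) s rfl⟩

/-- integers of a subfield as algebraic integers -/
noncomputable def hom (L : IntermediateField ℚ Om) : 𝓞 L →+* TPL.Zb :=
  (L.val.toRingHom.comp (algebraMap (𝓞 L) L)).codRestrict (integralClosure ℤ Om).toSubring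
    fun z => (RingOfIntegers.isIntegral_coe z).map (L.val.toRingHom.toIntAlgHom)

theorem abv (L : IntermediateField ℚ Om) (Q : Ideal (𝓞 L)) (hQ : Q.IsMaximal) {p : ℕ}
    (hp : p.Prime) (h : (p : 𝓞 L) ∈ Q) :
    ∃ w : Pl, w.p = p ∧ ∀ z ∈ Q, w.v ((z : L) : Om) < 1 := by
  let : Algebra (𝓞 L) TPL.Zb := (hom L).toAlgebra
  have : Algebra.IsIntegral (𝓞 L) TPL.Zb := Algebra.IsIntegral.tower_top (R := ℤ)
  have hk : RingHom.ker (algebraMap (𝓞 L) TPL.Zb) ≤ Q := by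
    intro z hz
    have h1 : ((z : L) : Om) = 0 := congrArg Subtype.val (show hom L z = 0 from hz)
    have h2 : z = 0 := by
      apply RingOfIntegers.ext
      exact_mod_cast h1
    rw [h2]
    exact Q.zero_mem
  obtain ⟨P, hP, hPQ⟩ := Ideal.exists_ideal_over_maximal_of_isIntegral (S := TPL.Zb) Q hk
  obtain ⟨w, rfl⟩ := TPL.ex p hp
  rw [← hPQ] at h
  obtain ⟨u, rfl⟩ := TPL.core_top w P (by simpa using Ideal.mem_comap.1 h)
  exact ⟨u • w, rfl, fun z hz => by rw [← hPQ] at hz; exact hz⟩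

theorem gen (hPL : PL) (hGAL : GAL) (hFROB : FROB) (U U' : Subgroup GQ) (B : ℕ)
    (hU : IsOpen (U : Set GQ)) (hU' : IsOpen (U' : Set GQ))
    (h : ∀ (w : Pl) (φ : GQ), B < w.p → φ ∈ U → w.IsFrob 1 φ → φ ∈ U') : U ≤ U' := by
  obtain ⟨N, hN, hle⟩ := exists_ON_le (U := U ⊓ U') (hU.inter hU')
  obtain ⟨B', hB'⟩ := sep hPL hGAL hN
  let L := IntermediateField.fixedField N
  have := numberField hN.2
  have : IsGalois ℚ L := (InfiniteGalois.normal_iff_isGalois L).1 (by rw [Basic.fs hN.2]; exact hN.1)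
  let G1 : Subgroup Gal(L/ℚ) :=
    { carrier := {g | ∀ y : L, Fix U y → g y = y}
      mul_mem' := fun {a b} ha hb y hy => by rw [AlgEquiv.mul_apply, hb y hy, ha y hy]
      one_mem' := fun _ _ => rfl
      inv_mem' := fun {a} ha y hy => by
        conv_lhs => rw [← ha y hy]
        exact a.symm_apply_apply y }
  let K := IntermediateField.fixedField G1
  have hK : ∀ (g : Gal(L/K)) (y : L), Fix U y → g y = y := fun g y hy =>
    g.commutes ⟨y, fun a => a.2 y hy⟩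
  let H1 : Subgroup Gal(L/K) :=
    { carrier := {g | ∃ τ ∈ U', ∀ x : L, τ x = g x}
      mul_mem' := fun {a b} ⟨τ, h1, h2⟩ ⟨τ', h3, h4⟩ =>
        ⟨τ * τ', U'.mul_mem h1 h3, fun x => by
          rw [AlgEquiv.mul_apply, h4, h2, AlgEquiv.mul_apply]⟩
      one_mem' := ⟨1, U'.one_mem, fun _ => rfl⟩
      inv_mem' := fun {a} ⟨τ, h1, h2⟩ => ⟨τ⁻¹, U'.inv_mem h1, fun x => by
        have h3 := h2 (a⁻¹ x)
        rw [show a (a⁻¹ x) = x from a.apply_symm_apply x] at h3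
        rw [← h3]
        exact τ.symm_apply_apply _⟩ }
  have hint : ∀ x : L, IsIntegral ℤ (x : Om) → IsIntegral ℤ x := fun x hx =>
    (isIntegral_algHom_iff (L.val.toRingHom.toIntAlgHom) Subtype.val_injective).1 hx
  have htop : H1 = ⊤ := by
    refine MP_29cb78_nt.C.gen (MP_29cb78_nt.C.dens (MP_29cb78_nt.euler MP_29cb78_nt.diri)) K L H1
      (max B B').factorial (Nat.factorial_ne_zero _) fun Q hQ hn hp g hg => ?_
    set p := Ideal.absNorm (Q.under (𝓞 K)) with hpdef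
    have hpQ : (p : 𝓞 L) ∈ Q := by
      have h1 : (p : 𝓞 K) ∈ Q.under (𝓞 K) := Ideal.absNorm_mem _
      rw [Ideal.mem_under] at h1
      simpa using h1
    have hlt : max B B' < p := by
      by_contra hle
      obtain ⟨k, hk⟩ := Nat.dvd_factorial hp.pos (not_lt.1 hle)
      refine hn ?_
      rw [hk, Nat.cast_mul]
      exact Q.mul_mem_right _ hpQ
    obtain ⟨w, hw, hwQ⟩ := abv L Q hQ hp hpQ
    rw [← hw, max_lt_iff] at hlt
    obtain ⟨f, φ, -, -, hφ, hf, -⟩ := hFROB w w.D w.loc_D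
    obtain rfl := hf rfl
    let s : GQ := (g.restrictScalars ℚ).liftNormal Om
    have hs : ∀ x : L, s x = g x := fun x => (g.restrictScalars ℚ).liftNormal_commutes Om x
    have sU : s ∈ U := (hGAL U (closed_of_open hU)).1 s fun x hx => by
      have hx' : x ∈ L := fix_iff.1 (hx.mono (hle.trans inf_le_left))
      rw [hs ⟨x, hx'⟩, hK g _ hx]
    have hn : φ⁻¹ * s ∈ N := hB' w hlt.2 _ fun y hy hi => by
      obtain ⟨z, rfl⟩ : ∃ z : 𝓞 L, ((z : L) : Om) = y :=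
        ⟨⟨⟨y, fix_iff.1 hy⟩, hint ⟨y, _⟩ hi⟩, rfl⟩
      have a : w.v (s (z : L) - ((z : L) : Om) ^ w.p) < 1 := by
        have := hwQ _ (hg z)
        rw [hs, hw]
        exact this
      have b := hφ.2 _ (hPL.2.2.2.1 w _ hi)
      rw [pow_one, Valuation.map_sub_swap] at b
      rw [← Pl.mem_D.1 hφ.1, map_sub, AlgEquiv.mul_apply, BasicP.apply_inv,
        ← sub_add_sub_cancel _ (((z : L) : Om) ^ w.p)]
      exact w.v.map_add_lt a b
    have φU : φ ∈ U := by simpa using U.mul_mem sU (U.inv_mem (hle hn).1)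
    exact ⟨s, by simpa using U'.mul_mem (h w φ hlt.1 φU hφ) (hle hn).2, hs⟩
  intro σ hσ
  let g0 : Gal(L/ℚ) := σ.restrictNormal L
  have hg0 : ∀ x : L, σ x = g0 x := fun x => (σ.restrictNormal_commutes L x).symm
  have hg1 : g0 ∈ G1 := fun y hy => Subtype.ext (by rw [← hg0, hy _ hσ])
  let g : Gal(L/K) := { g0.toRingEquiv with commutes' := fun c => c.2 ⟨g0, hg1⟩ }
  obtain ⟨τ, h1, h2⟩ : g ∈ H1 := htop ▸ Subgroup.mem_top g
  have h3 : τ⁻¹ * σ ∈ N := (hGAL N (closed_of_open hN.2)).1 _ fun x hx => by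
    have hx' : x ∈ L := fix_iff.1 hx
    have h4 : σ x = τ x := (hg0 ⟨x, hx'⟩).trans (h2 ⟨x, hx'⟩).symm
    rw [AlgEquiv.mul_apply, h4]
    exact τ.symm_apply_apply x
  simpa using U'.mul_mem h1 (hle h3).2

end TGENP

theorem t_GENP (hPL : PL) (hGAL : GAL) (hFROB : FROB) : GENP := by
  refine ⟨TGENP.gen hPL hGAL hFROB, fun N hN => ?_, fun N g s B hN h1 h2 => ?_⟩
  · obtain ⟨B, hB⟩ := TGENP.sep hPL hGAL hN
    exact ⟨B, fun w hw i hi => hB w hw i fun y _ hy => hi.2 y (hPL.2.2.2.1 w y hy)⟩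
  have := hN.1
  have := N.quotient_finite_of_isOpen hN.2
  have op : ∀ A : Subgroup (GQ ⧸ N), IsOpen (A.comap (QuotientGroup.mk' N) : Set GQ) := fun A =>
    open_of_le hN.2 fun n hn => by
      rw [Subgroup.mem_comap, QuotientGroup.mk'_apply, (QuotientGroup.eq_one_iff n).2 hn]
      exact A.one_mem
  by_contra hc
  have le := TGENP.gen hPL hGAL hFROB _ _ B (op (Subgroup.zpowers (g : GQ ⧸ N)))
    (op (Subgroup.zpowers ((g : GQ ⧸ N) ^ 2))) fun w φ hw hφ fr => by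
      obtain ⟨k, hk⟩ := mem_powers_iff_mem_zpowers.2 (Subgroup.mem_comap.1 hφ)
      rcases Nat.even_or_odd k with ⟨j, rfl⟩ | ho
      · rw [Subgroup.mem_comap, ← hk]
        exact ⟨j, by simp [← two_mul, pow_mul]⟩
      · exact (hc ⟨w, φ, k, hw, fr, ho, QuotientGroup.eq.1 hk⟩).elim
  obtain ⟨j, hj⟩ := mem_powers_iff_mem_zpowers.2
    (Subgroup.mem_comap.1 (le (Subgroup.mem_comap.2 (Subgroup.mem_zpowers _))))
  have e : (g : GQ ⧸ N) ^ (2 * j) = (g : GQ ⧸ N) ^ 1 := by rw [pow_mul, pow_one]; exact hj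
  have d : orderOf (g : GQ ⧸ N) ∣ 2 ^ s :=
    orderOf_dvd_of_pow_eq_one ((QuotientGroup.eq_one_iff (g ^ 2 ^ s)).2 h2)
  obtain ⟨i, -, hi⟩ := (Nat.dvd_prime_pow Nat.prime_two).1 d
  rw [pow_eq_pow_iff_modEq, hi] at e
  cases i with
  | zero => exact h1 ((QuotientGroup.eq_one_iff g).1 (orderOf_eq_one_iff.1 hi))
  | succ i =>
    have := e.of_dvd (dvd_pow_self 2 i.succ_ne_zero)
    simp [Nat.ModEq] at this

end Pool.Agent.P.MP_8b7eba_nt.R2
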