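import Pool.Agent.P.MP_8b7eba_nt.R2.IfA
import Pool.Agent.P.MP_8b7eba_nt.R2.Nrm

/-! Proof of HENS, TAU. -/

namespace Pool.Agent.P.MP_8b7eba_nt.R2

open scoped NNReal ComplexConjugate

namespace THENS

theorem add_one {w : Pl} {y : Om} (h : w.v (y - 1) < w.v 2) : w.v (y + 1) = w.v 2 := by
  rw [show y + 1 = y - 1 + 2 by ring, w.v.map_add_eq_of_lt_right h]

theorem one {w : Pl} {H : Subgroup GQ} (hH : H ≤ w.D) (x : Om) (hx : Fix H x)
    (h : w.v (x - 1) < w.v 4) : ∃ y, Fix H y ∧ x = y ^ 2 ∧ w.v (y - 1) < w.v 2 ∧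
      w.v (y - 1) * w.v 2 = w.v (x - 1) := by
  obtain ⟨y, rfl, h1⟩ : ∃ y, x = y ^ 2 ∧ w.v (y - 1) < w.v 2 := by
    obtain ⟨y, rfl⟩ := exists_root x two_ne_zero
    by_contra h1
    push Not at h1
    have h2 := mul_le_mul' (h1 y rfl) (h1 (-y) (by ring))
    rw [← map_mul, ← map_mul, show (y - 1) * (-y - 1) = -(y ^ 2 - 1) by ring, Valuation.map_neg,
      show (2 : Om) * 2 = 4 by norm_num] at h2
    exact h.not_ge h2
  refine ⟨y, fun σ hσ => ?_, rfl, h1, by rw [← add_one h1, ← map_mul]; congr 1; ring⟩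
  refine (sq_eq_sq_iff_eq_or_eq_neg.1 ((map_pow σ y 2).symm.trans (hx σ hσ))).resolve_right
    fun e => h1.ne ?_
  rw [← Pl.mem_D.1 (hH hσ), map_sub, map_one, e, ← neg_add', Valuation.map_neg, add_one h1]

theorem surj (z : ℂ) (h : IsAlgebraic ℚ z) : ∃ x, io x = z := by
  obtain ⟨P, h0, h1⟩ := h
  refine (IsAlgClosed.splits (P.map (algebraMap ℚ Om))).mem_range_of_isRoot
    (Polynomial.map_ne_zero h0) (i := io) ?_
  rw [Polynomial.map_map, Subsingleton.elim (io.comp _) (algebraMap ℚ ℂ), Polynomial.IsRoot,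
    Polynomial.eval_map_algebraMap, h1]

theorem emb (f : Om →+* ℂ) : ∃ g : GQ, ∀ x, f x = io (g x) := by
  let _ := io.toAlgebra
  have : IsScalarTower ℚ Om ℂ := IsScalarTower.of_algebraMap_eq' (Subsingleton.elim _ _)
  exact ⟨f.toRatAlgHom.restrictNormal' Om, fun x =>
    (f.toRatAlgHom.restrictNormal_commutes Om x).symm⟩

theorem spec : ∀ x, io (tau x) = conj (io x) :=
  Classical.epsilon_spec (p := fun σ : GQ => ∀ x, io (σ x) = conj (io x))
    ((emb ((starRingEnd ℂ).comp io)).imp fun _ h x => (h x).symm)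

theorem sq : tau * tau = 1 :=
  AlgEquiv.ext fun x => io.injective (by rw [AlgEquiv.mul_apply, spec, spec, Complex.conj_conj]; rfl)

end THENS

theorem t_HENS : HENS := by
  refine fun w H hH => ⟨THENS.one hH, fun a b c x ha hb hc hx h1 _ h2 h3 => ?_⟩
  have hB := (((fix_ofNat 2).mul ha).mul hx).add hb
  have hC := ((ha.mul (hx.pow 2)).add (hb.mul hx)).add hc
  have key : ∀ t, a * (x + t) ^ 2 + b * (x + t) + c =
      a * t ^ 2 + (2 * a * x + b) * t + (a * x ^ 2 + b * x + c) := fun t => by ring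
  generalize 2 * a * x + b = B at *
  generalize a * x ^ 2 + b * x + c = C at *
  have h0 : B ≠ 0 := fun e => by simp [e] at h2
  obtain ⟨y, y1, y2, y3, -⟩ := THENS.one hH (1 - 4 * a * C / B ^ 2)
    (fix_one.sub ((((fix_ofNat 4).mul ha).mul hC).div (hB.pow 2))) (by
      rw [sub_sub_cancel_left, Valuation.map_neg, map_div₀, map_pow, h2, one_pow, div_one, mul_assoc,
        map_mul, map_mul]
      exact mul_lt_of_lt_one_right (w.v.pos_iff.2 (by norm_num))
        (mul_lt_one_of_nonneg_of_lt_one_right h1 zero_le h3))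
  have y4 := THENS.add_one y3
  have h4 : w.v 2 ≠ 0 := w.v.ne_zero_iff.2 two_ne_zero
  have y5 : y + 1 ≠ 0 := w.v.ne_zero_iff.1 (y4 ▸ h4)
  refine ⟨x + -(2 * C / (B * (y + 1))), hx.add (((fix_ofNat 2).mul hC).div
    (hB.mul (y1.add fix_one))).neg, ?_, ?_⟩
  · rw [key]
    field_simp at y2 ⊢
    linear_combination (-C) * y2
  · rw [add_sub_cancel_left, Valuation.map_neg, map_div₀, map_mul, map_mul, h2, y4, one_mul,
      mul_div_cancel_left₀ _ h4]

theorem t_TAU : TAU := by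
  classical
  refine ⟨THENS.spec, THENS.sq, fun h => ?_, THENS.surj, THENS.emb, fun U hU hT => ?_⟩
  · obtain ⟨x, hx⟩ := exists_root (-1) two_ne_zero
    have h1 := THENS.spec x
    have h2 := congrArg io hx
    rw [h] at h1
    obtain ⟨r, hr⟩ := Complex.conj_eq_iff_real.1 h1.symm
    rw [map_pow, hr, map_neg, map_one] at h2
    have h3 : r ^ 2 = -1 := by exact_mod_cast h2
    nlinarith
  obtain ⟨s, s0, s1, s2, s3⟩ := exists_reps (relIndex_ne_zero hU ⊤)
  choose φ p1 p2 using fun i => s3 (tau * i) trivial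
  have p3 : ∀ i, φ i ≠ i := fun i e => hT i⁻¹ (by simpa [e, mul_assoc] using p2 i)
  have p4 : ∀ i ∈ s, φ (φ i) = i := fun i hi => s2 _ (p1 _) i hi (by
    have := U.mul_mem (p2 (φ i)) (p2 i)
    rwa [mul_assoc, mul_assoc, mul_inv_cancel_left, ← mul_assoc tau, THENS.sq, one_mul] at this)
  refine ⟨?_, fun x hx h0 => ?_⟩
  · have := Finset.sum_involution (s := s) (f := fun _ => (1 : ZMod 2)) (fun i _ => φ i)
      (fun _ _ => rfl) (fun i _ _ => p3 i) (fun i _ => p1 i) p4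
    rw [← Subgroup.relIndex_top_right, ← s0, ← ZMod.natCast_eq_zero_iff_even]
    simpa using this
  obtain ⟨q, hq⟩ := (hx.nrm (relIndex_ne_zero hU ⊤)).rat
  refine ⟨q, ?_, hq⟩
  have h1 : ∀ i : GQ, 0 < ‖io (i x)‖ := fun i => by simpa using h0
  have h2 := Finset.prod_involution (s := s) (f := fun i => io (i x) / ‖io (i x)‖)
    (fun i _ => φ i) (fun i _ => by
      have e : φ i x = tau (i x) := by
        rw [← AlgEquiv.mul_apply, ← mul_inv_cancel_left (φ i) (tau * i), AlgEquiv.mul_apply,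
          hx _ (p2 i)]
      rw [e, THENS.spec, Complex.norm_conj, div_mul_div_comm, Complex.mul_conj', sq,
        div_self (mul_self_ne_zero.2 (Complex.ofReal_ne_zero.2 (h1 i).ne'))])
    (fun i _ _ => p3 i) (fun i _ => p1 i) p4
  rw [Finset.prod_div_distrib, ← map_prod, ← nrm_eq_prod s (fun i => i) hx s1 s2 s3, hq,
    map_ratCast, ← Complex.ofReal_prod] at h2
  have h3 : (q : ℝ) = ∏ i ∈ s, ‖io (i x)‖ := by exact_mod_cast eq_of_div_eq_one h2
  exact_mod_cast h3 ▸ Finset.prod_pos fun i _ => h1 i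

end Pool.Agent.P.MP_8b7eba_nt.R2
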