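import Pool.Agent.P.MP_8b7eba_nt.R2.IfA
import Pool.Agent.P.MP_8b7eba_nt.R2.Nrm

/-! Proof of INV. -/

namespace Pool.Agent.P.MP_8b7eba_nt.R2

open scoped NNReal ComplexConjugate

namespace TINV

/-- `f` is cohomologous to a cyclotomic cyclic algebra -/
def Rep (H : Subgroup GQ) (f : GQ → GQ → Om) (n : ℕ) (a : Om) : Prop :=
  Fix H a ∧ a ≠ 0 ∧ Triv H (f / cup (Ps n) a)

theorem norm_iff (x : ℤ_[2]) (n : ℕ) : ‖(x : ℚ_[2]) / 2 ^ n‖ ≤ 1 ↔ 2 ^ n ∣ x := by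
  refine ⟨fun h => ⟨⟨_, h⟩, Subtype.ext ?_⟩, ?_⟩
  · push_cast
    exact (mul_div_cancel₀ _ (by simp)).symm
  · rintro ⟨y, rfl⟩
    push_cast
    exact (congrArg _ (mul_div_cancel_left₀ _ (by simp))).trans_le y.2

end TINV

open TINV in
theorem t_INV (hEC : EC) (hLG : LG) (hART : ART) (hCYC1 : CYC1) (hCYC2 : CYC2) (hCUP : CUP) (hDIEK : DIEK) (hNRMK : NRMK) : INV := by
  intro w H h
  obtain ⟨g1, -, -, g4, -⟩ := hLG
  have ri := h.relIndex_ne le_rfl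
  have m0 : ∀ n : ℕ, 2 ^ n ≠ 0 := fun n => by positivity
  have ch : ∀ n, IsCh H (Ps n) := fun n => (g4 n).1.mono le_top
  have ke : ∀ n, IsKer H (H ⊓ KP n) (Ps n) := fun n g =>
    and_congr_right fun _ => ((g4 n).2.2.1 g).trans (and_iff_right trivial)
  have cy := fun n => hCYC2 H _ _ _ h.closed (m0 n) (ch n) (ke n)
  have cu := fun n a ha a0 => hCUP H a ha a0 _ _ (m0 n) (ch n)
  have lm : ∀ a b, Fix H a → Fix H b → a ≠ 0 → b ≠ 0 → lg (art w (nrm w.D H (a * b))) =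
      lg (art w (nrm w.D H a)) + lg (art w (nrm w.D H b)) := fun a b ha hb a0 b0 => by
    rw [nrm_mul ri, (hART.1 w).mul _ _ (ha.nrm ri) (hb.nrm ri) (mt (nrm_eq_zero ri).1 a0)
      (mt (nrm_eq_zero ri).1 b0), g1.mul]
  have sm : ∀ n a b, Fix H a → Fix H b → a ≠ 0 → b ≠ 0 →
      sv w H n (a * b) = sv w H n a * sv w H n b := fun n a b ha hb a0 b0 => by
    rw [sv, sv, sv, lm a b ha hb a0 b0, ← hEC.1.add, PadicInt.coe_add, add_div]
  have s1 : ∀ n a, sv w H n a = 1 ↔ 2 ^ n ∣ lg (art w (nrm w.D H a)) := fun n a => by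
    rw [sv, hEC.1.eq_one, norm_iff]
  have so : ∀ n a, Fix H a → a ≠ 0 → Triv H (cup (Ps n) a) → sv w H n a = 1 := fun n a ha a0 t => by
    obtain ⟨b, b1, b2⟩ := (cy n a ha a0).1 t
    have l := h.inf (g4 n).2.2.2.1.2
    refine (s1 n a).2 ((hNRMK w n _ (ha.nrm ri) (mt (nrm_eq_zero ri).1 a0)).1
      ⟨_, b1.nrm (l.relIndex_ne inf_le_left), ?_⟩)
    rw [nrm_trans inf_le_left (inf_le_inf_right _ h.le) (l.relIndex_ne le_rfl) b1, ← b2,
      nrm_trans h.le inf_le_left (l.relIndex_ne le_rfl) b1]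
  have up : ∀ f n a, Rep H f n a → ∀ m, n ≤ m → ∃ b, Rep H f m b ∧ sv w H m b = sv w H n a := by
    intro f n a r m hm
    induction hm with
    | refl => exact ⟨a, r, rfl⟩
    | @step m _ ih =>
      obtain ⟨b, ⟨b1, b0, b2⟩, e⟩ := ih
      refine ⟨b ^ 2, ⟨b1.pow 2, pow_ne_zero 2 b0, b2.trans (((cu m b b1 b0).2.2.2.2.2.1 _ 2
        (Ps (m + 1)) (pow_succ' 2 m) two_ne_zero).2 (ch _) fun g _ => ?_)⟩, ?_⟩
      · rw [ZMod.natCast_val]
        exact PadicInt.cast_toZModPow m (m + 1) m.le_succ _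
      · rw [← e, sv, sv, sq, lm b b b1 b1 b0 b0, PadicInt.coe_add, Nat.succ_eq_add_one, pow_succ]
        congr 1
        field_simp
        ring
  have uq : ∀ f n a n' a', Rep H f n a → Rep H f n' a' → sv w H n a = sv w H n' a' := by
    intro f n a n' a' r r'
    obtain ⟨b, ⟨b1, b0, b2⟩, e⟩ := up f n a r (n + n') (by omega)
    obtain ⟨c, ⟨c1, c0, c2⟩, e'⟩ := up f n' a' r' (n + n') (by omega)
    obtain ⟨u1, -, u3, -⟩ := cu (n + n') c c1 c0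
    rw [← e, ← e', ← mul_div_cancel₀ b c0, sm _ _ _ c1 (b1.div c1) c0 (div_ne_zero b0 c0),
      so _ _ (b1.div c1) (div_ne_zero b0 c0) ((b2.symm.trans c2).congr fun g hg l hl => ?_), mul_one]
    conv_rhs => rw [← mul_div_cancel₀ b c0, u3]
    exact (mul_div_cancel_left₀ _ (u1.ne g hg l hl)).symm
  have ex : ∀ f, Co2T H f → ∃ n a, Rep H f n a := fun f hf =>
    let ⟨n, hn⟩ := hDIEK w H f h hf
    ⟨n, hCYC1 H _ _ _ h.closed (m0 n) (ch n) (ke n) f hf.1 (hn n le_rfl)⟩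
  obtain ⟨ν, hν⟩ : ∃ ν : (GQ → GQ → Om) → Om, ∀ f n a, Rep H f n a → ν f = sv w H n a :=
    ⟨fun f => Classical.epsilon fun z => ∃ n a, Rep H f n a ∧ z = sv w H n a, fun f n a r => by
      obtain ⟨n', a', r', e⟩ := Classical.epsilon_spec
        (p := fun z => ∃ n a, Rep H f n a ∧ z = sv w H n a) ⟨_, n, a, r, rfl⟩
      exact e.trans (uq f _ _ _ _ r' r)⟩
  refine Classical.epsilon_spec (p := IsNv w H) ⟨ν, fun f f' hf hf' => ?_, fun f _ t => ?_,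
    fun n a ha a0 => hν _ n a ⟨ha, a0, Triv.one.congr fun g hg l hl =>
      div_self ((cu n a ha a0).1.ne g hg l hl)⟩, fun e f hf h1 => ?_⟩
  · obtain ⟨n, a, r⟩ := ex f hf
    obtain ⟨n', a', r'⟩ := ex f' hf'
    obtain ⟨b, s, -⟩ := up f n a r (n + n') (by omega)
    obtain ⟨c, s', -⟩ := up f' n' a' r' (n + n') (by omega)
    rw [hν f _ b s, hν f' _ c s', ← sm _ _ _ s.1 s'.1 s.2.1 s'.2.1]
    refine hν _ _ _ ⟨s.1.mul s'.1, mul_ne_zero s.2.1 s'.2.1, ?_⟩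
    rw [(cu _ b s.1 s.2.1).2.2.1, mul_div_mul_comm]
    exact s.2.2.mul s'.2.2
  · have t1 : Triv H (cup (Ps 0) 1) := Triv.one.congr fun _ _ _ _ => ite_self _
    rw [hν f 0 1 ⟨fix_one, one_ne_zero, t.div t1⟩, so 0 1 fix_one one_ne_zero t1]
  · obtain ⟨n, a, r⟩ := ex f hf
    rw [hν f n a r, s1] at h1
    subst e
    rw [nrm_self r.1] at h1
    exact r.2.2.iff.2 ((cy n a r.1 r.2.1).2 ((hNRMK w n a r.1 r.2.1).2 h1))

end Pool.Agent.P.MP_8b7eba_nt.R2
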