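import Pool.Agent.P.MP_8b7eba_nt.R2.TRECQ

/-! Proof of INV2. -/

namespace Pool.Agent.P.MP_8b7eba_nt.R2

open scoped NNReal ComplexConjugate

namespace TINV2

variable {w : Pl} {H : Subgroup GQ} {ν : (GQ → GQ → Om) → Om} {f f' : GQ → GQ → Om}

theorem nv_congr (h : IsNv w H ν) (hf : Co2T H f) (hf' : Co2 H f') (ht : Triv H (f / f')) :
    ν f = ν f' := by
  have h1 : Co2T H f' := by
    obtain ⟨k, hk⟩ := hf.2
    have h2 := ht.pow (2 ^ k)
    have e : (f / f') ^ 2 ^ k = f ^ 2 ^ k / f' ^ 2 ^ k := by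
      funext g h; simp [div_pow]
    rw [e] at h2
    exact ⟨hf', k, h2.iff.1 hk⟩
  have h2 : ν f * ν f'⁻¹ = 1 := by
    rw [← h.mul _ _ hf h1.inv, ← div_eq_mul_inv]
    exact h.triv _ ht.co2 ht
  have h3 : ν f' * ν f'⁻¹ = 1 := by
    rw [← h.mul _ _ h1 h1.inv]
    exact h.triv _ (hf'.mul hf'.inv)
      (Triv.one.congr fun g hg k hk => mul_inv_cancel₀ (hf'.ne g hg k hk))
  exact mul_right_cancel₀ (right_ne_zero_of_mul_eq_one h2) (h2.trans h3.symm)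

theorem nv_pow (h : IsNv w H ν) (hf : Co2T H f) (n : ℕ) : ν (f ^ n) = ν f ^ n := by
  induction n with
  | zero => rw [pow_zero, pow_zero]; exact h.triv _ Co2.one Triv.one
  | succ n ih => rw [pow_succ, pow_succ, h.mul _ _ (hf.pow n) hf, ih]

theorem nv_tor (h : IsNv w H ν) (hf : Co2 H f) {k : ℕ} (ht : Triv H (f ^ 2 ^ k)) :
    ν f ^ 2 ^ k = 1 := by
  rw [← nv_pow h ⟨hf, k, ht⟩]
  exact h.triv _ ht.co2 ht

theorem nv_sym (hCUP : CUP) (hSYM : SYM) (hINV : INV) (w : Pl) (a β : Om) (ha : Fix w.D a)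
    (ha0 : a ≠ 0) (hβ0 : β ≠ 0) (hβ : Fix w.D (β ^ 2)) :
    (Nm w.D (β ^ 2) a → nv w w.D (cup (qc β) a) = 1) ∧
    (¬ Nm w.D (β ^ 2) a → nv w w.D (cup (qc β) a) = -1) := by
  obtain ⟨hc, -, h1, -⟩ := hSYM w.D _ β w.closed_D hβ0 hβ (isKer_qc w.D β)
  obtain ⟨h2, h3, -⟩ := hCUP w.D a ha ha0 2 (qc β) two_ne_zero hc
  have hI := hINV w _ w.loc_D
  refine ⟨fun h => hI.triv _ h2 ((h1 a ha ha0).2 h), fun h => ?_⟩
  have h4 := nv_tor hI h2 (k := 1) h3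
  rw [pow_one, sq, mul_self_eq_one_iff] at h4
  exact h4.resolve_left fun h5 => h ((h1 a ha ha0).1 (hI.inj rfl _ ⟨h2, 1, h3⟩ h5))

/-- reduction modulo four -/
noncomputable def ps : ℤ_[2] →+* ZMod 4 := PadicInt.toZModPow 2

theorem ps_iff (x : ℤ_[2]) : 2 ^ 2 ∣ x - 1 ↔ ps x = 1 := by
  rw [← sub_eq_zero, ← map_one ps, ← map_sub, ← RingHom.mem_ker,
    show RingHom.ker ps = _ from PadicInt.ker_toZModPow 2, Ideal.mem_span_singleton]
  rfl

theorem ps_unit (u : ℤ_[2]ˣ) : ps u = 1 ∨ ps u = -1 := by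
  have h : ps u * ps (u⁻¹ : ℤ_[2]ˣ) = 1 := by rw [← map_mul, Units.mul_inv, map_one]
  generalize ps u = x, ps (u⁻¹ : ℤ_[2]ˣ) = y at h
  revert x y
  decide

theorem ep_cases (u : ℤ_[2]ˣ) : ps u = 1 ∧ ep u = 0 ∨ ps u ≠ 1 ∧ ep u = 1 := by
  have e : (4 : ℤ_[2]) = 2 ^ 2 := by norm_num
  unfold ep
  rw [e, ps_iff]
  by_cases h : ps u = 1
  · exact Or.inl ⟨h, if_pos h⟩
  · exact Or.inr ⟨h, if_neg h⟩

theorem ps_mul (hA : IsArt w (art w)) {x y : Om} (hx : Fix w.D x) (hy : Fix w.D y) (hx0 : x ≠ 0)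
    (hy0 : y ≠ 0) : ps (art w (x * y)) = ps (art w x) * ps (art w y) := by
  rw [hA.mul x y hx hy hx0 hy0, Units.val_mul, map_mul]

theorem ps_sq (hA : IsArt w (art w)) {x y : Om} (hx : Fix w.D x) (hy : Fix w.D y) (hx0 : x ≠ 0)
    (hy0 : y ≠ 0) : ps (art w (x ^ 2 * y)) = ps (art w y) := by
  rw [ps_mul hA (hx.pow 2) hy (pow_ne_zero 2 hx0) hy0, sq, ps_mul hA hx hx hx0 hx0]
  rcases ps_unit (art w x) with h | h <;> rw [h] <;> simp

theorem ps_ev (hA : IsArt w (art w)) (hp : w.p ≠ 2) {a : Om} (ha : Fix w.D a) (ha0 : a ≠ 0)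
    (h : w.Ev w.D a) : ps (art w a) = 1 := by
  obtain ⟨y, hy, e⟩ := h
  have hy0 : y ≠ 0 := by
    rintro rfl
    rw [map_zero, zero_pow two_ne_zero, Valuation.zero_iff] at e
    exact ha0 e
  have h1 : a = y ^ 2 * (a / y ^ 2) := by field_simp
  have h2 : w.v (a / y ^ 2) = 1 := by
    rw [map_div₀, map_pow, ← e, div_self ((Valuation.ne_zero_iff _).2 ha0)]
  rw [h1, ps_sq hA hy (ha.div (hy.pow 2)) hy0 (div_ne_zero ha0 (pow_ne_zero 2 hy0)),
    (hA.odd hp).2 _ (ha.div (hy.pow 2)) h2, Units.val_one, map_one]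

theorem ps_two (hA : IsArt w (art w)) (hp : w.p = 2) {x : Om} (hx : Fix w.D x) {m : ℤ}
    (hm : Odd m) (h : w.v (x - m) ≤ (2 ^ 2)⁻¹) : (m : ZMod 4) * ps (art w x) = 1 := by
  have h1 := (ps_iff _).1 ((hA.two hp).2 x hx m 2 hm h two_pos)
  rwa [map_mul, map_intCast] at h1

theorem ps_one_add (hA : IsArt w (art w)) (hRES : RES) (hp : w.p = 2) {t : Om} (ht : Fix w.D t)
    (h1 : w.v t ≤ 1) (h0 : 1 + t ^ 2 ≠ 0) : ps (art w (1 + t ^ 2)) = 1 := by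
  obtain ⟨m, hm⟩ := (hRES w _ w.loc_D).2.2.2.2.2 t ht h1 3
  rw [hp] at hm
  have h2 : w.v ((t - m) * (t + m)) ≤ (2 ^ 3)⁻¹ := by
    rw [map_mul]
    exact (mul_le_of_le_one_right' (w.v.map_add_le h1 (w.v_nat_le m))).trans (by exact_mod_cast hm)
  have f1 : Fix w.D (1 + t ^ 2) := fix_one.add (ht.pow 2)
  rcases Nat.even_or_odd' m with ⟨k, rfl | rfl⟩
  · have h3 := ps_two hA hp f1 (m := 2 * (2 * k ^ 2) + 1) (odd_two_mul_add_one _) (by
      refine le_trans (le_of_eq ?_) (h2.trans (by rw [← NNReal.coe_le_coe]; norm_num))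
      congr 1
      push_cast
      ring)
    have h4 : ((2 * (2 * k ^ 2) + 1 : ℤ) : ZMod 4) = 1 := by
      push_cast
      generalize (k : ZMod 4) = x
      revert x
      decide
    rwa [h4, one_mul] at h3
  · have f2 : Fix w.D 2 := fix_ofNat 2
    have h3 := ps_two hA hp (f1.div f2) (m := 2 * (k ^ 2 + k) + 1) (odd_two_mul_add_one _) (by
      have e : (1 + t ^ 2) / 2 - ((2 * (k ^ 2 + k) + 1 : ℤ) : Om) =
          (t - (2 * k + 1 : ℕ)) * (t + (2 * k + 1 : ℕ)) / 2 := by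
        push_cast
        ring
      rw [e, map_div₀, Pl.v_two' hp, div_inv_eq_mul]
      exact (mul_le_mul_left h2 2).trans (by norm_num))
    have h4 : ((2 * (k ^ 2 + k) + 1 : ℤ) : ZMod 4) = 1 := by
      push_cast
      generalize (k : ZMod 4) = x
      revert x
      decide
    rw [h4, one_mul] at h3
    have e : 1 + t ^ 2 = 2 * ((1 + t ^ 2) / 2) := by ring
    rw [e, ps_mul hA f2 (f1.div f2) two_ne_zero (div_ne_zero h0 two_ne_zero), h3, (hA.two hp).1]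
    simp

theorem ps_sum (hA : IsArt w (art w)) (hRES : RES) (hp : w.p = 2) {x y : Om} (hx : Fix w.D x)
    (hy : Fix w.D y) (h : w.v y ≤ w.v x) (h0 : x ^ 2 + y ^ 2 ≠ 0) :
    ps (art w (x ^ 2 + y ^ 2)) = 1 := by
  have hx0 : x ≠ 0 := by
    rintro rfl
    rw [map_zero, nonpos_iff_eq_zero, Valuation.zero_iff] at h
    exact h0 (by simp [h])
  have e : x ^ 2 + y ^ 2 = x ^ 2 * (1 + (y / x) ^ 2) := by field_simp
  rw [e] at h0 ⊢
  rw [ps_sq hA hx (fix_one.add ((hy.div hx).pow 2)) hx0 (right_ne_zero_of_mul h0)]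
  exact ps_one_add hA hRES hp (hy.div hx) (by rw [map_div₀]; exact div_le_one_of_le₀ h zero_le)
    (right_ne_zero_of_mul h0)

theorem nm_iff (hA : IsArt w (art w)) (hNI : NI) (hRES : RES) (hSQ2 : SQ2) (hNU : NU) {a : Om}
    (ha : Fix w.D a) (ha0 : a ≠ 0) : Nm w.D (-1) a ↔ ps (art w a) = 1 := by
  have f1 : Fix w.D (-1) := fix_one.neg
  have n1 : (-1 : Om) ≠ 0 := neg_ne_zero.2 one_ne_zero
  have key : (∀ x, x ≠ 0 → Nm w.D (-1) x → ps (art w x) = 1) → ∀ c, Fix w.D c → c ≠ 0 →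
      ps (art w c) = -1 → (Nm w.D (-1) a ↔ ps (art w a) = 1) := fun h1 c hc hc0 e => by
    refine ⟨h1 a ha0, fun h2 => by_contra fun h3 => ?_⟩
    have h4 : ¬ Nm w.D (-1) c := fun h => by
      rw [h1 c hc0 h] at e
      exact absurd e (by decide)
    have h5 := h1 _ (mul_ne_zero ha0 hc0) ((hNI w _ _ w.loc_D f1 n1 fun h =>
      h4 (Nm.of_sq_left n1 h hc)).2 a c ha hc h3 h4)
    rw [ps_mul hA ha hc ha0 hc0, h2, e] at h5
    exact absurd h5 (by decide)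
  by_cases hp : w.p = 2
  · refine key ?_ (-1) f1 n1 ?_
    · rintro _ h0 ⟨x, y, hx, hy, rfl⟩
      rw [neg_one_mul, sub_neg_eq_add] at h0 ⊢
      rcases le_total (w.v y) (w.v x) with h | h
      · exact ps_sum hA hRES hp hx hy h h0
      · rw [add_comm] at h0 ⊢
        exact ps_sum hA hRES hp hy hx h h0
    · have h1 := ps_two hA hp f1 (m := -1) odd_neg_one (by simp)
      rw [Int.cast_neg, Int.cast_one, neg_one_mul] at h1
      exact neg_eq_iff_eq_neg.1 h1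
  have hodd : Odd w.p := w.prime.odd_of_ne_two hp
  have hp0 : (w.p : Om) ≠ 0 := Nat.cast_ne_zero.2 w.prime.ne_zero
  have hpp : ps (art w w.p) = w.p := by rw [(hA.odd hp).1, map_natCast]
  have hs := ((hSQ2 w).2.2.2.2.2 hp (-1) (by
    rw [Int.dvd_neg]
    exact_mod_cast w.prime.not_dvd_one)).1
  rw [jacobiSym.at_neg_one hodd, Int.cast_neg, Int.cast_one] at hs
  rcases Nat.odd_mod_four_iff.1 (Nat.odd_iff.1 hodd) with h | h
  · rw [ZMod.χ₄_nat_one_mod_four h] at hs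
    refine ⟨fun _ => ?_, fun _ => Nm.of_sq_left n1 (hs.2 rfl) ha⟩
    obtain ⟨j, hj⟩ := (hRES w _ w.loc_D).2.2.2.1.2.2.2 a ha ha0
    have hv : w.v w.p ≠ 0 := (Valuation.ne_zero_iff _).2 hp0
    rcases Int.even_or_odd' j with ⟨m, rfl | rfl⟩
    · exact ps_ev hA hp ha ha0 ⟨(w.p : Om) ^ m, (fix_nat _).zpow m, by
        rw [hj, map_zpow₀, mul_comm, zpow_mul, zpow_two, sq]⟩
    · have h1 := ps_ev hA hp (ha.mul (fix_nat w.p)) (mul_ne_zero ha0 hp0)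
        ⟨(w.p : Om) ^ (m + 1), (fix_nat _).zpow _, by
          rw [map_mul, hj, map_zpow₀, ← zpow_add_one₀ hv, sq, ← zpow_add₀ hv]
          congr 1
          ring⟩
      rwa [ps_mul hA ha (fix_nat _) ha0 hp0, hpp, ← ZMod.natCast_mod, h, Nat.cast_one,
        mul_one] at h1
  · rw [ZMod.χ₄_nat_three_mod_four h] at hs
    refine key (fun x h0 hx => ps_ev hA hp (hx.fix f1) h0
      ((hNU w _ _ w.loc_D hp f1 (by simp)).2 (fun h1 => absurd (hs.1 h1) (by decide)) x hx))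
      w.p (fix_nat _) hp0 ?_
    rw [hpp, ← ZMod.natCast_mod, h]
    decide

end TINV2

open TINV2 TABHN TRECQ

theorem t_INV2 (hEC : EC) (hLG : LG) (hART : ART) (hCUP : CUP) (hSYM : SYM) (hINV : INV) (hNI : NI) (hRES : RES) (hSQ2 : SQ2) (hNU : NU) : INV2 := by
  refine ⟨fun w H f f' hl => nv_congr (hINV w H hl), fun w H f k hl hf => nv_tor (hINV w H hl) hf,
    fun w n a ha ha0 => ?_, nv_sym hCUP hSYM hINV⟩
  have hI := hINV w _ w.loc_D
  obtain ⟨i, hi⟩ := exists_root (-1 : Om) two_ne_zero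
  have hi0 : i ≠ 0 := by
    rintro rfl
    simp at hi
  have hif : Fix w.D (i ^ 2) := hi ▸ fix_one.neg
  have hi4 : i ^ 2 ^ 2 = 1 := by rw [sq 2, pow_mul, hi]; simp
  have hip : IsPrimitiveRoot i (2 ^ 2) := by
    have := IsPrimitiveRoot.orderOf i
    rwa [orderOf_eq_prime_pow (p := 2) (n := 1) (by rw [pow_one, hi]; norm_num) hi4] at this
  obtain ⟨χ, hχ⟩ : ∃ χ : GQ → ZMod (2 ^ (n + 1)), ∀ g, χ g =
    PadicInt.toZModPow (n + 1) (2 ^ n * ep (cyc g)) := ⟨_, fun _ => rfl⟩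
  have e1 : Ps' n = Ps (n + 1) + χ := funext fun g => by
    rw [Pi.add_apply, hχ, Ps, Ps', map_add]
  have c1 : IsCh w.D (Ps (n + 1)) := (hLG.2.2.2.1 (n + 1)).1.mono le_top
  have c2 : IsCh w.D (Ps' n) := (hLG.2.2.2.1 n).2.1.mono le_top
  have c3 : IsCh w.D χ := by
    have e2 : χ = fun g => Ps' n g - Ps (n + 1) g := funext fun g => by rw [e1]; simp
    rw [e2]
    exact ⟨c2.1.comp₂ c1.1 (· - ·), fun g hg h hh => by
      simp only [c1.2 g hg h hh, c2.2 g hg h hh]; ring⟩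
  have c4 : IsCh w.D (qc i) := (hSYM w.D _ i w.closed_D hi0 hif (isKer_qc w.D i)).1
  have hm : 2 ^ (n + 1) ≠ 0 := pow_ne_zero _ two_ne_zero
  have u1 := hCUP w.D a ha ha0 _ _ hm c1
  have u2 := hCUP w.D a ha ha0 _ _ hm c2
  have u3 := hCUP w.D a ha ha0 _ _ hm c3
  have u4 := hCUP w.D a ha ha0 _ _ two_ne_zero c4
  have h1 : ∀ g ∈ w.D, ∀ h ∈ w.D, cup χ a g h = cup (qc i) a g h := by
    refine (u4.2.2.2.2.2.1 _ (2 ^ n) χ (pow_succ 2 n) (pow_ne_zero _ two_ne_zero)).1 fun g _ => ?_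
    rw [hχ]
    unfold qc
    rcases ep_cases (cyc g) with h | h
    · rw [h.2, if_pos (by
        have := hEC.2.2.1 g 2 1 i hi4 (by rw [Nat.cast_one]; exact (ps_iff _).2 h.1)
        rwa [pow_one] at this)]
      simp
    · rw [h.2, if_neg (fun h' => h.1 ((ps_iff _).1 (by
        have := hEC.2.2.2.1 g 2 1 i hip (by rw [pow_one]; exact h')
        rwa [Nat.cast_one] at this))), mul_one, ZMod.val_one, mul_one]
      have e : (2 : ℤ_[2]) ^ n = ((2 ^ n : ℕ) : ℤ_[2]) := by push_cast; rfl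
      rw [e, map_natCast, ZMod.val_natCast_of_lt (Nat.pow_lt_pow_right one_lt_two n.lt_succ_self)]
  have h2 : nv w w.D (cup (Ps' n) a) =
      nv w w.D (cup (Ps (n + 1)) a) * nv w w.D (cup (qc i) a) := by
    rw [nv_congr hI ⟨u2.1, n + 1, u2.2.1⟩ (u1.1.mul u3.1) (by rw [e1]; exact u1.2.2.2.1 χ c3),
      hI.mul _ _ ⟨u1.1, n + 1, u1.2.1⟩ ⟨u3.1, n + 1, u3.2.1⟩,
      nv_congr hI ⟨u3.1, n + 1, u3.2.1⟩ u4.1 (Triv.one.congr fun g hg k hk => by
        rw [Pi.div_apply, Pi.div_apply, h1 g hg k hk]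
        exact div_self (u4.1.ne g hg k hk))]
  have h3 := nv_sym hCUP hSYM hINV w a i ha ha0 hi0 hif
  rw [hi, nm_iff (hART.1 w) hNI hRES hSQ2 hNU ha ha0] at h3
  rw [h2, hI.cup _ a ha ha0, sv, nrm_self ha, PadicInt.coe_add, add_div, hEC.1.add]
  congr 1
  rcases ep_cases (art w a) with h | h
  · rw [h3.1 h.1, h.2]
    simp [ec_zero hEC.1]
  · have e : (((2 ^ n * 1 : ℤ_[2]) : ℚ_[2]) / 2 ^ (n + 1)) = 1 / 2 := by
      push_cast
      rw [coe_two]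
      field_simp
      ring
    rw [h3.2 h.1, h.2, e, ec_half hEC.1]

end Pool.Agent.P.MP_8b7eba_nt.R2
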