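import Pool.Agent.P.MP_8b7eba_nt.R2.IfA
import Pool.Agent.P.MP_8b7eba_nt.R2.Nrm

/-! Proof of LD. -/

namespace Pool.Agent.P.MP_8b7eba_nt.R2

open scoped NNReal ComplexConjugate

namespace TLD

variable {H : Subgroup GQ} {M : Type} [AddCommGroup M] {ρ : GQ → M →+ M} {x x' : GQ → M}
  {y y' : GQ → AddChar M Om}

theorem ne (f : AddChar M Om) (m : M) : f m ≠ 0 := fun h => by
  have := f.map_add_eq_mul m (-m)
  rw [add_neg_cancel, f.map_zero_eq_one, h, zero_mul] at this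
  exact one_ne_zero this

theorem inv_apply (hρ : Uni H ρ) {g : GQ} (hg : g ∈ H) (m : M) : ρ g⁻¹ (ρ g m) = m := by
  rw [← hρ.mul _ (inv_mem hg) _ hg, inv_mul_cancel, hρ.one]

theorem co2 (hρ : Uni H ρ) (hx : Co1 H ρ x) (hy : CoD H ρ y) : Co2 H (prD ρ x y) := by
  refine ⟨fun g _ h _ => (map_ne_zero g).2 (ne _ _),
    ((hρ.sm.inv.comp₂ hx.1 fun a b => a b).fst.comp₂ hy.1.snd fun a b => b a).gal,
    fun g hg h hh k hk => ?_⟩
  simp only [prD]
  rw [hy.2 h hh k hk, hx.2 g hg h hh, mul_inv_rev, hρ.mul _ (inv_mem hh) _ (inv_mem hg), map_add,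
    map_add, inv_apply hρ hg, AddChar.map_add_eq_mul]
  simp only [map_mul, AlgEquiv.mul_apply]
  ring

theorem cod_mul (hy : CoD H ρ y) (hy' : CoD H ρ y') : CoD H ρ (y * y') :=
  ⟨hy.1.comp₂ hy'.1 (· * ·), fun g hg h hh m => by
    simp only [Pi.mul_apply, AddChar.mul_apply, map_mul, hy.2 g hg h hh, hy'.2 g hg h hh]; ring⟩

theorem prD_mul : prD ρ x (y * y') = prD ρ x y * prD ρ x y' := by
  funext g h; simp [prD]

theorem prD_sub : prD ρ (x - x') y = prD ρ x y / prD ρ x' y := by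
  funext g h; simp [prD, AddChar.map_sub_eq_div]

theorem co1_sub (hx : Co1 H ρ x) (hx' : Co1 H ρ x') : Co1 H ρ (x - x') :=
  ⟨hx.1.comp₂ hx'.1 (· - ·), fun g hg h hh => by
    simp only [Pi.sub_apply, map_sub, hx.2 g hg h hh, hx'.2 g hg h hh]; abel⟩

/-- the sign character -/
noncomputable def sgn : AddChar (ZMod 2) Om := AddChar.zmodChar 2 (ζ := -1) (by norm_num)

theorem sgn_apply (a : ZMod 2) : sgn a = (-1) ^ a.val := rfl

theorem gal_sgn (g : GQ) (a : ZMod 2) : g (sgn a) = sgn a := by simp [sgn_apply]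

theorem z2 (a : ZMod 2) : a = 0 ∨ a = 1 := by revert a; decide

/-- the character `m ↦ (-1) ^ (e * l m)` -/
noncomputable def tw (l : M →+ ZMod 2) (e : ZMod 2) : AddChar M Om :=
  sgn.compAddMonoidHom ((AddMonoidHom.mulLeft e).comp l)

theorem tw_apply (l : M →+ ZMod 2) (e : ZMod 2) (m : M) : tw l e m = sgn (e * l m) := rfl

/-- the image of the cocycle in the quotient of order two vanishes -/
theorem step1 (hGAL : GAL) (hCUP : CUP) (hSYM : SYM) (hNI : NI) {w : Pl} (hH : w.Loc H)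
    (hx : Co1 H ρ x) (h : ∀ y, CoD H ρ y → Triv H (prD ρ x y)) (l : M →+ ZMod 2)
    (hl : ∀ g ∈ H, ∀ m, l (ρ g m) = l m) : ∀ g ∈ H, l (x g) = 0 := by
  obtain ⟨β, h0, hβ⟩ := (hGAL H hH.closed).2.1 (fun g => sgn (l (x g)))
    (hx.1.comp fun m => sgn (l m))
    (fun _ _ => ne _ _) fun g hg k hk => by
      rw [hx.2 g hg k hk, map_add, hl g hg, AddChar.map_add_eq_mul, gal_sgn]
  have h1 : Fix H (β ^ 2) := fun g hg => by
    rw [map_pow, ← hβ g hg, mul_pow, sgn_apply, ← pow_mul, mul_comm _ 2, pow_mul]; simp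
  have h2 : ∀ g ∈ H, qc β g = l (x g) := fun g hg => by
    rw [qc, ← hβ g hg]
    rcases z2 (l (x g)) with e | e <;> rw [e]
    · simp
    · rw [if_neg]
      rw [sgn_apply, ZMod.val_one, pow_one, neg_one_mul, neg_eq_iff_add_eq_zero, ← two_mul]
      exact mul_ne_zero two_ne_zero h0
  obtain ⟨s1, -, s3, -⟩ := hSYM H _ β hH.closed h0 h1 (isKer_qc H β)
  have h3 : Sq H (β ^ 2) := by
    by_contra hn
    obtain ⟨a, ha, a0, hm⟩ := (hNI w H _ hH h1 (pow_ne_zero 2 h0) hn).1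
    obtain ⟨γ, rfl⟩ := exists_root a two_ne_zero
    have g0 : γ ≠ 0 := fun e => a0 (by simp [e])
    obtain ⟨t1, t2, -⟩ := hSYM H _ γ hH.closed g0 ha (isKer_qc H γ)
    have := h (fun g => tw l (qc γ g)) ⟨t1.1.comp _, fun g hg k hk m => by
      simp only [tw_apply]
      rw [t1.2 g hg k hk, hl _ (inv_mem hg), add_mul, AddChar.map_add_eq_mul, gal_sgn]⟩
    refine hm ((s3 _ ha a0).1 (((hCUP H _ ha a0 2 _ two_ne_zero s1).2.2.2.2.2.2 γ rfl).2.iff.2
      (this.congr fun g hg k hk => ?_)))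
    simp only [prD, tw_apply]
    rw [hl _ (inv_mem hg), gal_sgn, t2 k hk, mul_div_cancel_right₀ _ g0, ← sgn_apply, gal_sgn,
      h2 g hg]
    rcases z2 (l (x g)) with e | e <;> rw [e] <;> simp [ZMod.val_one]
  intro g hg
  rw [← h2 g hg, qc, if_pos ((sq_iff h1).1 h3 g hg)]

/-- the obstruction to extending a dual cocycle -/
theorem step2 (hGAL : GAL) (hH : IsClosed (H : Set GQ)) (hρ : Uni H ρ) {l : M →+ ZMod 2}
    {ρ' : GQ → l.ker →+ l.ker} (hl : ∀ g ∈ H, ∀ m, l (ρ g m) = l m)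
    (e : ∀ g ∈ H, ∀ m, (ρ' g m : M) = ρ g m) (ext : AddChar l.ker Om → AddChar M Om)
    (hext : ∀ f (m : l.ker), ext f m = f m) {m₀ : M} (h0 : l m₀ = 1) {c : GQ → l.ker}
    (hc' : ∀ g ∈ H, (c g : M) = ρ g m₀ - m₀) {y : GQ → AddChar l.ker Om}
    (hy : CoD H ρ' y) : Triv H (prD ρ' c y ^ 2) ∧ (Triv H (prD ρ' c y) →
      ∃ Y, CoD H ρ Y ∧ ∀ g (m : l.ker), Y g m = y g m) := by
  have k1 : ∀ g ∈ H, ∀ h ∈ H, ∀ m : l.ker,
      ext (y (g * h)) m = ext (y g) m * g (ext (y h) (ρ g⁻¹ m)) := fun g hg h hh m => by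
    rw [← e _ (inv_mem hg), hext, hext, hext, hy.2 g hg h hh]
  set δ : GQ → GQ → Om := fun g h =>
    ext (y (g * h)) m₀ / (ext (y g) m₀ * g (ext (y h) (ρ g⁻¹ m₀))) with hδ
  have k2 : ∀ g ∈ H, ∀ h ∈ H, δ g h ^ 2 = 1 := fun g hg h hh => by
    have := k1 g hg h hh ⟨m₀ + m₀, by rw [AddMonoidHom.mem_ker, map_add, h0]; rfl⟩
    simp only [map_add, AddChar.map_add_eq_mul, map_mul] at this
    rw [hδ, div_pow, sq, this, sq, mul_mul_mul_comm, div_self]
    exact mul_ne_zero (mul_ne_zero (ne _ _) ((map_ne_zero g).2 (ne _ _)))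
      (mul_ne_zero (ne _ _) ((map_ne_zero g).2 (ne _ _)))
  have k3 : Triv H (prD ρ' c y / δ) := by
    refine ⟨fun g => ext (y g) m₀, hy.1.comp fun f => ext f m₀, fun _ _ => ne _ _,
      fun g hg h hh => ?_⟩
    have a : ext (y h) m₀ = y h (ρ' g⁻¹ (c g)) * ext (y h) (ρ g⁻¹ m₀) := by
      rw [← hext, e _ (inv_mem hg), hc' g hg, map_sub, inv_apply hρ hg, ← AddChar.map_add_eq_mul,
        sub_add_cancel]
    have := ne (ext (y (g * h))) m₀
    simp only [Pi.div_apply, hδ, prD]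
    rw [a, map_mul]
    field_simp
  have k4 : Triv H (δ ^ 2) := Triv.one.congr k2
  refine ⟨?_, fun h => ?_⟩
  · have := k3.pow 2
    rw [div_pow] at this
    exact this.iff.2 k4
  have k5 := k3.iff.1 h
  obtain ⟨b, b1, b2, b3⟩ := ((hGAL H hH).2.2.2.2 2 δ k5.co2 k4 two_ne_zero).2 k2 k5
  classical
  have b4 : ∀ g ∈ H, sgn (if b g = 1 then 0 else 1) = b g := fun g hg => by
    split_ifs with a
    · rw [a, AddChar.map_zero_eq_one]
    · rw [(sq_eq_one_iff.1 (b2 g hg)).resolve_left a, sgn_apply, ZMod.val_one, pow_one]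
  refine ⟨fun g => ext (y g) * tw l (if b g = 1 then 0 else 1), ⟨hy.1.comp₂ b1
    fun f z => ext f * tw l (if z = 1 then 0 else 1),
    fun g hg h hh m => ?_⟩, fun g m => by simp [tw_apply, hext, show l m = 0 from m.2]⟩
  simp only [AddChar.mul_apply, tw_apply, hl _ (inv_mem hg), map_mul, gal_sgn]
  rcases z2 (l m) with a | a
  · have := k1 g hg h hh ⟨m, a⟩
    simp only at this
    simp [a, this]
  · have a1 := k1 g hg h hh ⟨m - m₀, by rw [AddMonoidHom.mem_ker, map_sub, a, h0, sub_self]⟩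
    have a2 := b3 g hg h hh
    have a3 : g (b h) = b h := by rw [← b4 h hh, gal_sgn]
    simp only [map_sub, AddChar.map_sub_eq_div, map_div₀] at a1
    simp only [hδ] at a2
    rw [a, mul_one, mul_one, mul_one, b4 g hg, b4 h hh, b4 _ (mul_mem hg hh)]
    have n1 := ne (ext (y (g * h))) m₀
    have n2 := ne (ext (y g)) m₀
    have n3 := (map_ne_zero g).2 (ne (ext (y h)) (ρ g⁻¹ m₀))
    rw [a3] at a2
    field_simp at a1 a2
    apply mul_left_cancel₀ (mul_ne_zero n2 n3)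
    linear_combination b (g * h) * a1 + ext (y g) m * g (ext (y h) (ρ g⁻¹ m)) * a2

end TLD

open TLD in
theorem t_LD (hGAL : GAL) (hCUP : CUP) (hSYM : SYM) (hNI : NI) (hDIE : DIE) (hFILT : FILT) : LD := by
  intro w H M _ ρ hH
  induction hn : Nat.card M using Nat.strong_induction_on generalizing M with
  | _ n ih =>
  intro hρ x hx h
  rcases subsingleton_or_nontrivial M with hM | hM
  · exact ⟨0, fun _ _ => Subsingleton.elim _ _⟩
  obtain ⟨l, ρ', hs, hl, hρ', e, hc, hext⟩ := hFILT H M ρ hρ hM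
  choose ext hext using hext
  obtain ⟨m₀, h0⟩ := hs 1
  have := hρ'.fin
  have hlt : Nat.card l.ker < n := by have := Nat.card_pos (α := l.ker); omega
  have lift : ∀ z : GQ → M, Co1 H ρ z → (∀ g ∈ H, l (z g) = 0) →
      ∃ z' : GQ → l.ker, Co1 H ρ' z' ∧ ∀ g ∈ H, (z' g : M) = z g := fun z hz hz' => by
    have a : ∀ g ∈ H, ((if h : l (z g) = 0 then ⟨z g, h⟩ else 0 : l.ker) : M) = z g :=
      fun g hg => by rw [dif_pos (hz' g hg)]
    refine ⟨_, ⟨hz.1.comp fun m => (if h : l m = 0 then ⟨m, h⟩ else 0 : l.ker),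
      fun g hg k hk => Subtype.ext ?_⟩, a⟩
    rw [AddSubgroup.coe_add, e g hg, a g hg, a k hk, a _ (mul_mem hg hk), hz.2 g hg k hk]
  obtain ⟨x', hx', ex⟩ := lift x hx (step1 hGAL hCUP hSYM hNI hH hx h l hl)
  obtain ⟨c, hc, ec⟩ := lift (fun g => ρ g m₀ - m₀) ⟨hρ.sm.comp fun r => r m₀ - m₀,
    fun g hg k hk => by
    simp only [hρ.mul g hg k hk, map_sub]; abel⟩ fun g hg => by rw [map_sub, hl g hg, sub_self]
  have A := fun y hy => (step2 hGAL hH.closed hρ hl e ext hext h0 ec (y := y) hy).1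
  have B : ∀ y, CoD H ρ' y → Triv H (prD ρ' c y) → Triv H (prD ρ' x' y) := fun y hy a => by
    obtain ⟨Y, h1, h2⟩ := (step2 hGAL hH.closed hρ hl e ext hext h0 ec hy).2 a
    refine (h Y h1).congr fun g hg k _ => ?_
    rw [prD, prD, ← h2, e _ (inv_mem hg), ex g hg]
  by_cases h1 : ∀ y, CoD H ρ' y → Triv H (prD ρ' x' y)
  · obtain ⟨m, hm⟩ := ih _ hlt _ ρ' rfl hρ' x' hx' h1
    exact ⟨m, fun g hg => by rw [← ex g hg, hm g hg, AddSubgroup.coe_sub, e g hg]⟩
  push Not at h1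
  obtain ⟨y₀, hy₀, n₀⟩ := h1
  obtain ⟨m, hm⟩ := ih _ hlt _ ρ' rfl hρ' (x' - c) (co1_sub hx' hc) fun y hy => by
    rw [prD_sub]
    by_cases a : Triv H (prD ρ' c y)
    · exact (B y hy a).div a
    have a1 := B _ (cod_mul hy hy₀) (by
      rw [prD_mul]
      exact (hDIE w H _ hH (co2 hρ' hc hy) (A y hy)).2 _ (co2 hρ' hc hy₀) (A y₀ hy₀) a
        fun b => n₀ (B _ hy₀ b))
    have a2 := B _ (cod_mul hy hy) (by rw [prD_mul, ← sq]; exact A y hy)
    rw [prD_mul] at a1 a2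
    rw [← sq] at a2
    have a3 := (hDIE w H _ hH (co2 hρ' hx' hy) a2).2 _ (co2 hρ' hc hy) (A y hy) (fun b =>
      n₀ ((a1.div b).congr fun g hg k hk =>
        (mul_div_cancel_left₀ _ (b.co2.ne g hg k hk)).symm)) a
    refine (a3.div (A y hy)).congr fun g hg k hk => ?_
    have := (co2 hρ' hc hy).ne g hg k hk
    simp only [Pi.div_apply, Pi.mul_apply, Pi.pow_apply]
    field_simp
  refine ⟨m + m₀, fun g hg => ?_⟩
  have := congrArg Subtype.val (hm g hg)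
  rw [Pi.sub_apply, AddSubgroup.coe_sub, AddSubgroup.coe_sub, e g hg, ex g hg, ec g hg] at this
  rw [map_add, eq_add_of_sub_eq this]
  abel

end Pool.Agent.P.MP_8b7eba_nt.R2
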