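import Pool.Agent.P.MP_8b7eba_nt.R2.IfA
import Pool.Agent.P.MP_8b7eba_nt.R2.Nrm

/-! Proof of NRMK1. -/

namespace Pool.Agent.P.MP_8b7eba_nt.R2

open scoped NNReal ComplexConjugate

namespace TNRMK1

variable {w : Pl} {x y : Om} {n : ℕ}

/-- the logarithm as a homomorphism -/
noncomputable def lgH (hLG : LG) : ℤ_[2]ˣ →* Multiplicative ℤ_[2] :=
  MonoidHom.mk' (fun u => Multiplicative.ofAdd (lg u)) hLG.1.mul

theorem lg_one (hLG : LG) : lg 1 = 0 := map_one (lgH hLG)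

theorem lg_zpow (hLG : LG) (u : ℤ_[2]ˣ) (k : ℤ) : lg (u ^ k) = k * lg u := by
  have : lg (u ^ k) = k • lg u := map_zpow (lgH hLG) u k
  rw [this, zsmul_eq_mul]

theorem lg_neg_one (hLG : LG) : lg (-1) = 0 := by
  have := hLG.1.mul (-1) (-1)
  rw [neg_one_mul, neg_neg, lg_one hLG, ← two_mul] at this
  exact (mul_eq_zero.1 this.symm).resolve_left two_ne_zero

/-- the local Artin map as a homomorphism -/
noncomputable def artH (hART : ART) (w : Pl) : FU w.D →* ℤ_[2]ˣ :=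
  MonoidHom.mk' (fun u => art w (u : Omˣ)) fun a b =>
    (hART.1 w).mul _ _ a.2 b.2 (Units.ne_zero _) (Units.ne_zero _)

theorem art_zpow (hART : ART) (hx : Fix w.D x) (h0 : x ≠ 0) (k : ℤ) :
    art w (x ^ k) = art w x ^ k := by
  have := map_zpow (artH hART w) ⟨Units.mk0 x h0, hx⟩ k
  simpa [artH] using this

theorem L_mul (hLG : LG) (hART : ART) (hx : Fix w.D x) (hy : Fix w.D y) (x0 : x ≠ 0) (y0 : y ≠ 0) :
    lg (art w (x * y)) = lg (art w x) + lg (art w y) := by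
  rw [(hART.1 w).mul _ _ hx hy x0 y0, hLG.1.mul]

theorem L_pow (hLG : LG) (hART : ART) (hx : Fix w.D x) (x0 : x ≠ 0) (k : ℕ) :
    lg (art w (x ^ k)) = k * lg (art w x) := by
  rw [← zpow_natCast, art_zpow hART hx x0, lg_zpow hLG, Int.cast_natCast]

theorem L_div (hLG : LG) (hART : ART) (hx : Fix w.D x) (hy : Fix w.D y) (x0 : x ≠ 0) (y0 : y ≠ 0) :
    lg (art w (x / y)) = lg (art w x) - lg (art w y) := by
  rw [eq_sub_iff_add_eq, ← L_mul hLG hART (hx.div hy) hy (div_ne_zero x0 y0) y0,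
    div_mul_cancel₀ _ y0]

theorem cyc_pow (hEC : EC) (g : GQ) (k : ℕ) : cyc (g ^ k) = cyc g ^ k :=
  map_pow (MonoidHom.mk' cyc hEC.2.1) g k

theorem pow_mem (hEC : EC) (hLG : LG) (g : GQ) (k : ℕ) :
    g ^ k ∈ KP n ↔ 2 ^ n ∣ k * lg (cyc g) := by
  rw [(hLG.2.2.2.1 n).2.2.2.2.1, cyc_pow hEC, ← zpow_natCast, lg_zpow hLG, Int.cast_natCast]

theorem I_le (hEC : EC) (hLG : LG) (hp : w.p ≠ 2) : w.I ≤ KP n := fun g hg => by
  rw [(hLG.2.2.2.1 n).2.2.2.2.1, hEC.2.2.2.2.2.2.1 w hp g hg, lg_one hLG]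
  exact dvd_zero _

theorem rel (hLG : LG) (w : Pl) (n : ℕ) : (w.D ⊓ KP n).relIndex w.D ≠ 0 :=
  (w.loc_inf (hLG.2.2.2.1 n).2.2.2.1.2).relIndex_ne le_rfl

theorem art_p (hEC : EC) (hART : ART) (hp : w.p ≠ 2) {φ : GQ} (h : w.IsFrob 1 φ) :
    art w w.p = cyc φ :=
  Units.ext (by rw [((hART.1 w).odd hp).1, hEC.2.2.2.2.2.1 w 1 φ hp h, pow_one])

theorem p_ne (w : Pl) : (w.p : Om) ≠ 0 := Nat.cast_ne_zero.2 w.prime.ne_zero

theorem odd (hFROB : FROB) (hRES : RES) (hEC : EC) (hLG : LG) (hART : ART) (hp : w.p ≠ 2)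
    (hx : Fix (w.D ⊓ KP n) x) (x0 : x ≠ 0) : 2 ^ n ∣ lg (art w (nrm w.D (w.D ⊓ KP n) x)) := by
  obtain ⟨f, φ, -, h1, h2, h3, -⟩ := hFROB w w.D w.loc_D
  obtain rfl := h3 rfl
  obtain ⟨j, hj⟩ := (hRES w w.D w.loc_D).2.2.2.2.1.2.2.2 x
    (hx.mono (le_inf w.I_le_D (I_le hEC hLG hp))) x0
  have e0 := rel hLG w n
  have hv := v_nrm (w := w) (x := x) e0 le_rfl
  have hf := hx.nrm e0
  have n0 := (nrm_eq_zero e0).not.2 x0
  have hm : φ ^ (w.D ⊓ KP n).relIndex w.D ∈ KP n := by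
    have := (hLG.2.2.2.1 n).2.2.2.1.1
    rw [Subgroup.inf_relIndex_left]
    exact Subgroup.pow_relIndex_mem _ h1
  rw [pow_mem hEC hLG] at hm
  generalize nrm w.D (w.D ⊓ KP n) x = z at *
  generalize (w.D ⊓ KP n).relIndex w.D = e at *
  have fp : Fix w.D (((w.p : Om) ^ j) ^ e) := ((fix_nat _).zpow j).pow e
  have p0 : ((w.p : Om) ^ j) ^ e ≠ 0 := pow_ne_zero _ (zpow_ne_zero _ (p_ne w))
  have h4 := L_div hLG hART hf fp n0 p0
  rw [((hART.1 w).odd hp).2 _ (hf.div fp) (by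
    rw [map_div₀, hv, hj, map_pow, map_zpow₀, div_self]
    rw [← map_zpow₀, ← map_pow]; exact w.v.ne_zero_iff.2 p0), lg_one hLG, eq_comm, sub_eq_zero,
    L_pow hLG hART ((fix_nat _).zpow j) (zpow_ne_zero _ (p_ne w)),
    art_zpow hART (fix_nat _) (p_ne w), lg_zpow hLG, art_p hEC hART hp h2, mul_left_comm] at h4
  rw [h4]
  exact hm.mul_left _

theorem odd' (hPL : PL) (hFROB : FROB) (hRES : RES) (hEC : EC) (hLG : LG) (hART : ART) (hORB : ORB)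
    (hp : w.p ≠ 2) (hx : Fix (KP n) x) (x0 : x ≠ 0) : 2 ^ n ∣ lg (art w (nrm ⊤ (KP n) x)) := by
  classical
  have hU := (hLG.2.2.2.1 n).2.2.2.1.2
  obtain ⟨R, h1, h2⟩ := (hORB _ hU).2.1 {w.p}
  have h3 : ∀ w' ∈ R, w'.p = w.p := fun w' h => by
    by_contra h'
    exact (h2 w').2 (by simpa using h') 1 (one_mem _) (by simpa using h)
  have h4 : ∀ w' : Pl, ∃ σ : GQ, w' ∈ R → σ • w' = w := fun w' => by
    by_cases h : w' ∈ R
    · exact (hPL.2.1 w' w (h3 w' h)).imp fun _ a _ => a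
    · exact ⟨1, fun a => (h a).elim⟩
  choose s hs using h4
  rw [((hORB _ hU).2.2 w R s h1 (by simpa using h2) hs).2 x hx]
  refine (Finset.prod_induction _ (fun z => Fix w.D z ∧ z ≠ 0 ∧ 2 ^ n ∣ lg (art w z))
    (fun a b ha hb => ⟨ha.1.mul hb.1, mul_ne_zero ha.2.1 hb.2.1, ?_⟩) ⟨fix_one, one_ne_zero, ?_⟩
    fun w' hw => ?_).2.2
  · rw [L_mul hLG hART ha.1 hb.1 ha.2.1 hb.2.1]
    exact dvd_add ha.2.2 hb.2.2
  · rw [((hART.1 w).odd hp).2 1 fix_one (map_one _), lg_one hLG]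
    exact dvd_zero _
  · have hx' : Fix (w'.D ⊓ KP n) x := hx.mono inf_le_right
    have hf := hx'.nrm (rel hLG w' n)
    have n0 := (nrm_eq_zero (rel hLG w' n)).not.2 x0
    refine ⟨fun g hg => ?_, by simpa using n0, ?_⟩
    · rw [← hs w' hw, Pl.mem_D_smul] at hg
      rw [← BasicP.apply_inv (s w') (g _)]
      exact congrArg (s w') (hf _ hg)
    · rw [← congrArg (fun u => art u (s w' (nrm w'.D (w'.D ⊓ KP n) x))) (hs w' hw),
        hART.2.1 w' _ _ hf n0]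
      exact odd hFROB hRES hEC hLG hART (h3 w' hw ▸ hp) hx' x0

theorem two (hPL : PL) (hFROB : FROB) (hRES : RES) (hEC : EC) (hEC2 : EC2) (hLG : LG) (hART : ART)
    (hORB : ORB) (hp : w.p = 2) (hx : Fix (KP n) x) (x0 : x ≠ 0) :
    2 ^ n ∣ lg (art w (nrm w.D (w.D ⊓ KP n) x)) := by
  classical
  have hU := (hLG.2.2.2.1 n).2.2.2.1.2
  rw [nrm_eq_of_surj (H := ⊤) le_top (fun g _ => ?_) hx]
  swap
  · obtain ⟨k, hk, e⟩ := hEC2 w hp (cyc g)
    refine ⟨k, w.I_le_D hk, ?_⟩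
    have h1 := hEC.2.1 k (k⁻¹ * g)
    rw [mul_inv_cancel_left, e, left_eq_mul] at h1
    rw [(hLG.2.2.2.1 n).2.2.2.2.1, h1, lg_one hLG]
    exact dvd_zero _
  have e0 := relIndex_ne_zero hU ⊤
  have hf := hx.nrm e0
  have n0 := (nrm_eq_zero e0).not.2 x0
  have ho := fun (w' : Pl) hw => odd' (w := w') hPL hFROB hRES hEC hLG hART hORB hw hx x0
  obtain ⟨q, hq⟩ := hf.rat
  rw [hq] at n0 ho ⊢
  obtain ⟨B, hB⟩ := hPL.2.2.2.2.2.1 q n0
  obtain ⟨R, h1, h2⟩ := (hORB ⊤ isOpen_univ).2.1 (insert 2 (Finset.range (B + 1)))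
  have h3 := (h2 w).not.2 (by simp [hp])
  rw [Out] at h3
  push Not at h3
  obtain ⟨u, -, hu⟩ := h3
  have h4 := hART.2.2.2 q R (by simpa using n0) h1 ⟨_, hu, hp⟩ fun w' hw => hB w' (by
    have := (h2 w').1 hw
    simp only [Finset.mem_insert, Finset.mem_range, not_or] at this
    omega)
  have h5 : ∑ w' ∈ R, lg (art w' q) = 0 := by
    have h6 : lg (∏ w' ∈ R, art w' q) = ∑ w' ∈ R, lg (art w' q) := map_prod (lgH hLG) _ R
    rw [← h6, h4]
    split_ifs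
    exacts [lg_one hLG, lg_neg_one hLG]
  rw [← Finset.add_sum_erase R _ hu, add_eq_zero_iff_eq_neg] at h5
  rw [← hART.2.1 w u q (fix_rat q) n0, map_ratCast, h5, dvd_neg]
  refine Finset.dvd_sum fun w' hw => ho w' fun h => ?_
  obtain ⟨σ, e⟩ := hPL.2.1 w' (u • w) (h.trans hp.symm)
  rw [Finset.mem_erase] at hw
  exact hw.1 (by rw [← e, h1 w' hw.2 σ trivial (e ▸ hu)])

theorem key (hFROB : FROB) (hEC : EC) (hLG : LG) (hART : ART) (w : Pl) (n : ℕ) :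
    ∃ a : ℕ, a ≠ 0 ∧ ∀ i : ℕ, 2 ^ n ∣ i * lg (art w a) → i < (Ps n '' w.D).ncard → i = 0 := by
  by_cases hp : w.p = 2
  · refine ⟨5, by norm_num, fun i h1 h2 => ?_⟩
    have a1 : 5 * (art w 5 : ℤ_[2]) - 1 = 0 := by
      by_contra h0
      obtain ⟨k, hk⟩ := FiniteMultiplicity.of_not_isUnit (PadicInt.prime_p (p := 2)).not_isUnit h0
      have := ((hART.1 w).two hp).2 5 (fix_ofNat 5) 5 (k + 1) (by decide) (by simp) k.succ_pos
      exact hk (by exact_mod_cast this)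
    have a2 := hLG.1.five (art w 5 ^ (-1 : ℤ)) (by
      rw [zpow_neg_one]
      exact Units.inv_eq_of_mul_eq_one_left (sub_eq_zero.1 a1))
    rw [lg_zpow hLG] at a2
    have a3 : lg (art w ((5 : ℕ) : Om)) = -1 := by
      rw [← a2]; simp
    rw [a3, mul_neg_one, dvd_neg] at h1
    have a4 : ((2 : ℕ) : ℤ) ^ n ∣ (i : ℤ) := by
      rw [← PadicInt.pow_p_dvd_int_iff]; exact_mod_cast h1
    have a5 : (Ps n '' w.D).ncard ≤ 2 ^ n := (Set.ncard_le_card _).trans_eq (Nat.card_zmod _)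
    exact Nat.eq_zero_of_dvd_of_lt (by exact_mod_cast a4) (h2.trans_le a5)
  · refine ⟨w.p, w.prime.ne_zero, fun i h1 h2 => ?_⟩
    obtain ⟨f, φ, -, -, a2, a3, -, a4⟩ := hFROB w w.D w.loc_D
    obtain rfl := a3 rfl
    obtain ⟨c1, -, c2, c3, -⟩ := hLG.2.2.2.1 n
    rw [art_p hEC hART hp a2, ← pow_mem hEC hLG] at h1
    by_contra i0
    refine h2.not_ge ((Set.ncard_le_ncard (t := (fun r => Ps n (φ ^ r)) '' (Finset.range i)) ?_).trans
      ((Set.ncard_image_le).trans_eq (by simp)))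
    rintro _ ⟨g, hg, rfl⟩
    obtain ⟨m, j, hj, k, hk, rfl⟩ := a4 _ c3 g hg
    refine ⟨m % i, by simpa using Nat.mod_lt m (Nat.pos_of_ne_zero i0), ?_⟩
    have e : φ ^ m * j * k = φ ^ (m % i) * ((φ ^ i) ^ (m / i) * j * k) := by
      rw [← mul_assoc, ← mul_assoc, ← pow_mul, ← pow_add, Nat.mod_add_div]
    rw [e, c1.2 _ trivial _ trivial, ((c2 _).1 (mul_mem (mul_mem (Subgroup.pow_mem _ h1 _)
      (I_le hEC hLG hp hj.1)) hk.1)).2, add_zero]

end TNRMK1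

open TNRMK1

theorem t_NRMK1 (hPL : PL) (hFROB : FROB) (hDENS : DENS) (hRES : RES) (hEC : EC) (hEC2 : EC2)
    (hLG : LG) (hART : ART) (hORB : ORB) : NRMK1 := by
  intro w n b hb b0
  by_cases hp : w.p = 2
  swap
  · exact odd hFROB hRES hEC hLG hART hp hb b0
  obtain ⟨ε, ε0, hε⟩ := hART.2.2.1 w (n + 2)
  have v0 : 0 < w.v b := by simpa [pos_iff_ne_zero] using b0
  obtain ⟨y, hy, h1⟩ := hDENS w _ (hLG.2.2.2.1 n).2.2.2.1.2 b hb (min ε 1 * w.v b)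
    (mul_pos (lt_min ε0 one_pos) v0)
  have h2 : w.v (y / b - 1) < min ε 1 := by
    rw [div_sub_one b0, map_div₀, div_lt_iff₀ v0, Valuation.map_sub_swap]
    exact h1
  have y0 : y ≠ 0 := by
    rintro rfl
    simp at h2
  have e0 := rel hLG w n
  have hy' : Fix (w.D ⊓ KP n) y := hy.mono inf_le_right
  have h3 := (hLG.1.dvd n _).2 (Or.inl (hε _ ((hy'.div hb).nrm e0)
    ((v_nrm_sub_one le_rfl (h2.trans_le (min_le_right _ _))).trans_lt
      (h2.trans_le (min_le_left _ _)))))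
  rw [nrm_div e0, L_div hLG hART (hy'.nrm e0) (hb.nrm e0) ((nrm_eq_zero e0).not.2 y0)
    ((nrm_eq_zero e0).not.2 b0)] at h3
  exact (dvd_sub_right (two hPL hFROB hRES hEC hEC2 hLG hART hORB hp hy y0)).1 h3

theorem t_NRMK (hFROB : FROB) (hEC : EC) (hLG : LG) (hART : ART) (hUNIT : UNIT) (hNRMK1 : NRMK1) :
    NRMK := by
  intro w n x hx x0
  have e0 := rel hLG w n
  have nm : ∀ b, Fix (w.D ⊓ KP n) b → ∀ z, z ≠ 0 → nrm w.D (w.D ⊓ KP n) b = z →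
      2 ^ n ∣ lg (art w z) := by
    rintro b hb _ z0 rfl
    exact hNRMK1 w n b hb ((nrm_eq_zero e0).not.1 z0)
  refine ⟨fun ⟨b, hb, e⟩ => nm b hb x x0 e, fun h => ?_⟩
  obtain ⟨a, a0, ha⟩ := key hFROB hEC hLG hART w n
  obtain ⟨c1, -, c2, -⟩ := hLG.2.2.2.1 n
  have c3 : IsCh w.D (Ps n) := c1.mono le_top
  have c4 : IsKer w.D (w.D ⊓ KP n) (Ps n) := fun g => and_congr_right fun _ => (c2 g).trans (by simp)
  rw [← c4.relIndex c3] at ha
  have fa : ∀ i : ℕ, Fix w.D ((a : Om) ^ i) := fun i => (fix_nat a).pow i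
  have a0' : (a : Om) ≠ 0 := Nat.cast_ne_zero.2 a0
  have na : ∀ i : ℕ, (a : Om) ^ i ≠ 0 := fun i => pow_ne_zero i a0'
  have la := L_pow hLG hART (w := w) (fix_nat a) a0'
  obtain ⟨i, j, hij, b, hb, e⟩ := (hUNIT w w.D _ _ n (Ps n) rfl w.loc_D c3 c4).2
    (Option (Fin ((w.D ⊓ KP n).relIndex w.D))) (fun o => o.elim x fun i => (a : Om) ^ (i : ℕ))
    (by rintro (_ | i); exacts [⟨hx, x0⟩, ⟨fa i, na i⟩]) (by simp)
  rcases i with _ | i <;> rcases j with _ | j <;> simp only [Option.elim] at e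
  · exact (hij rfl).elim
  · have h1 := nm b hb _ (div_ne_zero x0 (na j)) e
    rw [L_div hLG hART hx (fa j) x0 (na j), la, dvd_sub_right h] at h1
    rw [ha j h1 j.2, pow_zero, div_one] at e
    exact ⟨b, hb, e⟩
  · have h1 := nm b hb _ (div_ne_zero (na i) x0) e
    rw [L_div hLG hART (fa i) hx (na i) x0, la, dvd_sub_left h] at h1
    rw [ha i h1 i.2, pow_zero, one_div] at e
    exact ⟨b⁻¹, hb.inv, by rw [nrm_inv, e, inv_inv]⟩
  · have h1 := nm b hb _ (div_ne_zero (na i) (na j)) e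
    rw [L_div hLG hART (fa i) (fa j) (na i) (na j), la, la, ← sub_mul] at h1
    refine (hij (congrArg some (Fin.ext ?_))).elim
    rcases le_total (i : ℕ) j with c | c
    · rw [← dvd_neg, ← neg_mul, neg_sub, ← Nat.cast_sub c] at h1
      have := ha _ h1 (by omega)
      omega
    · rw [← Nat.cast_sub c] at h1
      have := ha _ h1 (by omega)
      omega

end Pool.Agent.P.MP_8b7eba_nt.R2
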