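import Pool.Agent.P.MP_8b7eba_nt.R2.IfA
import Pool.Agent.P.MP_8b7eba_nt.R2.Nrm

/-! Proof of ORB. -/

namespace Pool.Agent.P.MP_8b7eba_nt.R2

open scoped NNReal ComplexConjugate

namespace TORB

variable {U : Subgroup GQ}

theorem orb {u : GQ} (hu : u ∈ U) (w : Pl) : MulAction.orbit U (u • w) = MulAction.orbit U w :=
  MulAction.orbit_smul (⟨u, hu⟩ : U) w

theorem rep {R : Set Pl} (h : ((fun w => MulAction.orbit U w) '' R).Finite) :
    ∃ R' : Finset Pl, (R' : Set Pl) ⊆ R ∧ Sep U R' ∧ (∀ w, Out U R' w ↔ Out U R w) ∧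
      R'.card = nOrb U R := by
  obtain ⟨S, h1, h2⟩ := Set.exists_subset_bijOn R fun w => MulAction.orbit U w
  lift S to Finset Pl using h2.finite_iff_finite.2 h
  refine ⟨S, h1, fun w hw u hu m => h2.injOn m hw (orb hu w),
    fun w => ⟨fun a u hu m => ?_, fun a => a.mono h1⟩, ?_⟩
  · obtain ⟨w', b, e⟩ := h2.surjOn ⟨_, m, rfl⟩
    obtain ⟨v, rfl⟩ := MulAction.orbit_eq_iff.1 (e.trans (orb hu w))
    exact a v v.2 b
  · rw [nOrb, ← h2.image_eq, h2.injOn.ncard_image, Set.ncard_coe_finset]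

theorem fin (hPL : PL) (hU : IsOpen (U : Set GQ)) (p : ℕ) :
    ((fun w => MulAction.orbit U w) '' {w : Pl | w.p = p}).Finite := by
  rcases Set.eq_empty_or_nonempty {w : Pl | w.p = p} with h | ⟨w₀, rfl⟩
  · simp [h]
  have := U.quotient_finite_of_isOpen hU
  refine (Set.finite_range fun q : GQ ⧸ U => MulAction.orbit U (q.out⁻¹ • w₀)).subset ?_
  rintro _ ⟨w, hw, rfl⟩
  obtain ⟨σ, rfl⟩ := hPL.2.1 w w₀ hw
  obtain ⟨u, e⟩ := QuotientGroup.mk_out_eq_mul U σ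
  exact ⟨σ, by simp only [e, mul_inv_rev, mul_smul, inv_smul_smul, orb (inv_mem u.2)]⟩

theorem card {ι : Type} (s : Finset ι) (r : ι → GQ)
    (h2 : ∀ i ∈ s, ∀ j ∈ s, (r i)⁻¹ * r j ∈ U → i = j) (h3 : ∀ g, ∃ i ∈ s, (r i)⁻¹ * g ∈ U) :
    s.card = U.index := by
  rw [← Nat.card_eq_finsetCard]
  refine Nat.card_eq_of_bijective (fun i : s => (r i : GQ ⧸ U))
    ⟨fun i j e => Subtype.ext (h2 _ i.2 _ j.2 (QuotientGroup.eq.1 e)), fun q => ?_⟩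
  obtain ⟨i, a, b⟩ := h3 q.out
  exact ⟨⟨i, a⟩, (QuotientGroup.eq.2 b).trans q.out_eq⟩

end TORB

theorem t_ORB (hPL : PL) : ORB := by
  refine fun U hU => ⟨fun R hR => TORB.rep (hR.image _), fun P => ?_, fun w₀ R s h1 h2 h3 => ?_⟩
  · obtain ⟨R, -, a, b, -⟩ := TORB.rep (U := U) (R := {w | w.p ∈ P})
      ((P.finite_toSet.biUnion fun p _ => TORB.fin hPL hU p).subset (by
        rintro _ ⟨w, hw, rfl⟩
        exact Set.mem_biUnion hw ⟨w, rfl, rfl⟩))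
    exact ⟨R, a, fun w => (b w).trans ⟨fun h => h 1 U.one_mem, fun h _ _ => h⟩⟩
  choose t t1 t2 t3 t4 using fun w : Pl => exists_reps (relIndex_ne_zero hU w.D)
  have a : ∀ i ∈ R.sigma t, ∀ j ∈ R.sigma t, (s i.1 * i.2)⁻¹ * (s j.1 * j.2) ∈ U → i = j := by
    rintro ⟨w, d⟩ hi ⟨w', d'⟩ hj m
    rw [Finset.mem_sigma] at hi hj
    have e : ((s w * d)⁻¹ * (s w' * d')) • w' = w := by
      rw [mul_smul, mul_smul, show d' • w' = w' from t2 _ _ hj.2, h3 _ hj.1, inv_smul_eq_iff,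
        mul_smul, show d • w = w from t2 _ _ hi.2, h3 _ hi.1]
    obtain rfl : w = w' := e.symm.trans (h1 w' hj.1 _ m (e.symm ▸ hi.1))
    rw [t3 w d hi.2 d' hj.2 (by simpa [mul_assoc] using m)]
  have b : ∀ g, ∃ i ∈ R.sigma t, (s i.1 * i.2)⁻¹ * g ∈ U := fun g => by
    obtain ⟨u, hu, m⟩ : ∃ u ∈ U, u • g⁻¹ • w₀ ∈ R := by
      by_contra! h
      exact (h2 _).1 h rfl
    obtain ⟨d, hd, e⟩ := t4 (u • g⁻¹ • w₀) ((s (u • g⁻¹ • w₀))⁻¹ * g * u⁻¹) (by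
      rw [Pl.D, MulAction.mem_stabilizer_iff, mul_smul, mul_smul, inv_smul_smul, smul_inv_smul,
        inv_smul_eq_iff, h3 _ m])
    exact ⟨⟨_, d⟩, Finset.mem_sigma.2 ⟨m, hd⟩, by simpa [mul_assoc] using U.mul_mem e hu⟩
  refine ⟨by simpa [t1] using TORB.card _ _ a b, fun x hx => ?_⟩
  rw [nrm_eq_prod (H := ⊤) _ (fun i : Σ _ : Pl, GQ => s i.1 * i.2) hx (fun _ _ => trivial) a
    fun g _ => b g, Finset.prod_sigma]
  refine Finset.prod_congr rfl fun w _ => ?_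
  rw [nrm_inf, nrm_eq_prod (t w) id hx (t2 w) (t3 w) (t4 w), map_prod]
  rfl

end Pool.Agent.P.MP_8b7eba_nt.R2
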