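import Pool.Agent.P.MP_8b7eba_nt.R2.IfA
import Pool.Agent.P.MP_8b7eba_nt.R2.Nrm

/-! Proof of PL. -/

namespace Pool.Agent.P.MP_8b7eba_nt.R2

open scoped NNReal ComplexConjugate Pointwise
open Polynomial

namespace TPL

/-- the algebraic integers -/
abbrev Zb : Type := integralClosure ℤ Om

theorem ex (p : ℕ) (hp : p.Prime) : ∃ w : Pl, w.p = p := by
  have := Fact.mk hp
  refine ⟨⟨p, hp, (PadicAlgCl.valued p).v.comap (MP_9c97e9_nt.emb ℚ ℚ_[p]), ?_⟩, rfl⟩
  rw [Valuation.comap_apply, map_natCast, ← one_div]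
  exact PadicAlgCl.valuation_p p

theorem le_one (w : Pl) (x : Om) (h : IsIntegral ℤ x) : w.v x ≤ 1 :=
  (Valuation.integer.integers w.v).mem_of_integral h.tower_top

theorem alg (x : Om) : IsAlgebraic ℤ x :=
  (IsFractionRing.isAlgebraic_iff ℤ ℚ Om).2 (Algebra.IsAlgebraic.isAlgebraic x)

theorem bound (x : Om) : ∃ B : ℕ, ∀ w : Pl, B < w.p → w.v x ≤ 1 := by
  obtain ⟨n, hn, h⟩ := (alg x).exists_integral_multiple
  refine ⟨n.natAbs, fun w hw => ?_⟩
  have h1 := le_one w _ h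
  rwa [zsmul_eq_mul, map_mul, Pl.v_int_eq_one.2 fun h2 => hw.not_ge
    (Nat.le_of_dvd (Int.natAbs_pos.2 hn) (Int.natCast_dvd.1 h2)), one_mul] at h1

theorem frac (w : Pl) (x : Om) (hx : w.v x ≤ 1) :
    ∃ y z : Om, IsIntegral ℤ y ∧ IsIntegral ℤ z ∧ w.v z = 1 ∧ x * z = y := by
  obtain ⟨f₀, h0, h1⟩ := alg x
  have h2 := aeval_primPart_eq_zero h0 h1
  have h3 := f₀.isPrimitive_primPart
  generalize f₀.primPart = f at h2 h3
  have hc : ∀ j n, (divX^[j] f).coeff n = f.coeff (n + j) := by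
    intro j
    induction j with
    | zero => simp
    | succ j ih => intro n; rw [Function.iterate_succ_apply', coeff_divX, ih]; congr 1; omega
  have hrec : ∀ j, aeval x (divX^[j + 1] f) * x + (f.coeff j : ℤ) = aeval x (divX^[j] f) := by
    intro j
    conv_rhs => rw [← divX_mul_X_add (divX^[j] f)]
    rw [Function.iterate_succ_apply', hc, zero_add]
    simp
  have hint : ∀ j, IsIntegral ℤ (aeval x (divX^[j] f)) := by
    intro j
    by_contra h
    obtain ⟨V, -, hV⟩ := Subring.exists_le_valuationSubring_of_isIntegrallyClosedIn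
      (R := (integralClosure ℤ Om).toSubring) h
    apply hV
    by_cases hxV : x ∈ V
    · induction divX^[j] f using Polynomial.induction_on' with
      | add p q hp hq => rw [map_add]; exact add_mem hp hq
      | monomial n a => rw [aeval_monomial]; exact mul_mem (intCast_mem V a) (pow_mem hxV n)
    · have hx0 : x ≠ 0 := fun e => hxV (e ▸ zero_mem V)
      clear h hV
      induction j with
      | zero => exact h2 ▸ zero_mem V
      | succ j ih =>
        rw [(eq_mul_inv_iff_mul_eq₀ hx0).2 (eq_sub_of_add_eq (hrec j))]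
        exact mul_mem (sub_mem ih (intCast_mem V _)) ((V.mem_or_inv_mem x).resolve_left hxV)
  obtain ⟨j, hj⟩ : ∃ j, ¬ w.v (aeval x (divX^[j] f)) < 1 := by
    by_contra h
    push Not at h
    refine (Nat.prime_iff_prime_int.1 w.prime).not_isUnit
      (h3 _ ((C_dvd_iff_dvd_coeff _ _).2 fun j => not_not.1 fun h4 => ?_))
    refine (show w.v (f.coeff j : ℤ) < 1 from ?_).ne (Pl.v_int_eq_one.2 h4)
    rw [eq_sub_of_add_eq' (hrec j)]
    refine (w.v.map_sub _ _).trans_lt (max_lt (h j) ?_)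
    rw [map_mul]
    exact mul_lt_one_of_nonneg_of_lt_one_left zero_le (h _) hx
  cases j with
  | zero => exact absurd (by simp [h2]) hj
  | succ j =>
    refine ⟨_, _, (hint j).sub (isIntegral_algebraMap (x := f.coeff j)), hint (j + 1),
      le_antisymm (le_one w _ (hint _)) (not_lt.1 hj), ?_⟩
    rw [← hrec j, mul_comm]
    simp

/-- the prime ideal of a place -/
def PP (w : Pl) : Ideal Zb where
  carrier := {x | w.v x < 1}
  zero_mem' := by simp
  add_mem' := fun hx hy => w.v.map_add_lt hx hy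
  smul_mem' := fun c x hx => by
    show w.v (c * x) < 1
    rw [map_mul]
    exact mul_lt_one_of_nonneg_of_lt_one_right (le_one w _ c.2) zero_le hx

instance (w : Pl) : (PP w).IsPrime where
  ne_top' := (Ideal.ne_top_iff_one _).2 fun h => by
    have : w.v 1 < 1 := h
    simp at this
  mem_or_mem' := fun {x y} h => by
    by_contra h1
    push Not at h1
    have h2 : w.v (x * y) < 1 := h
    rw [map_mul] at h2
    exact h2.not_ge (one_le_mul (not_lt.1 h1.1) (not_lt.1 h1.2))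

theorem eq_of_PP {w w' : Pl} (h : PP w = PP w') : w = w' := by
  have key : ∀ {w w' : Pl}, PP w = PP w' → ∀ x, w.v x ≤ 1 → w'.v x ≤ 1 := by
    intro w w' h x hx
    obtain ⟨y, z, hy, hz, h1, h2⟩ := frac w x hx
    have h3 : (⟨z, hz⟩ : Zb) ∉ PP w' := h ▸ h1.not_lt
    have h4 := le_one w' y hy
    rwa [← h2, map_mul, le_antisymm (le_one w' z hz) (not_lt.1 h3), mul_one] at h4
  have hp : w.p = w'.p := by
    have h1 : ((w.p : ℕ) : Zb) ∈ PP w' := h ▸ w.v_p_lt
    have h2 : w'.v (w.p : ℤ) < 1 := h1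
    exact ((Nat.prime_dvd_prime_iff_eq w'.prime w.prime).1
      (Int.natCast_dvd_natCast.1 (not_not.1 fun h3 => h2.ne (Pl.v_int_eq_one.2 h3)))).symm
  have key2 : ∀ {w w' : Pl}, w.p = w'.p → (∀ x, w.v x ≤ 1 → w'.v x ≤ 1) →
      ∀ x, w'.v x ≤ w.v x := by
    intro w w' hp h x
    by_contra h1
    push Not at h1
    have hx : w.v x ≠ 0 := fun e => by simp [w.v.zero_iff.1 e] at h1
    have h2 : (1 : ℝ≥0) < w.p := Nat.one_lt_cast.2 w.prime.one_lt
    have h0 : (0 : ℝ≥0) < w.p := zero_lt_one.trans h2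
    obtain ⟨n, hn⟩ := pow_unbounded_of_one_lt (w.p : ℝ≥0) ((one_lt_div₀ (pos_of_ne_zero hx)).2 h1)
    obtain ⟨m, h3, h4⟩ := NNReal.exists_mem_Ioc_zpow (pow_ne_zero n hx) h2
    have h5 := h (x ^ n * w.p ^ (m + 1)) (by
      rw [map_mul, map_pow, map_zpow₀, w.vp, inv_zpow, mul_inv_le_iff₀ (zpow_pos h0 _), one_mul]
      exact h4)
    rw [map_mul, map_pow, map_zpow₀, hp, w'.vp, ← hp, inv_zpow, mul_inv_le_iff₀ (zpow_pos h0 _),
      one_mul, zpow_add_one₀ h0.ne', mul_comm] at h5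
    rw [div_pow, lt_div_iff₀ (pow_pos (pos_of_ne_zero hx) n)] at hn
    exact (hn.trans_le h5).not_gt (mul_lt_mul_of_pos_left h3 h0)
  exact Pl.ext hp (Valuation.ext fun x =>
    le_antisymm (key2 hp.symm (key h.symm) x) (key2 hp (key h) x))

theorem core {U : Subgroup GQ} (hU : IsClosed (U : Set GQ)) (w : Pl) (Q : Ideal Zb) [Q.IsPrime]
    (h : ∀ x : Zb, Fix U x → x ∈ PP w → x ∈ Q) : ∃ u ∈ U, Q = PP (u • w) := by
  let _ : TopologicalSpace Zb := ⊥
  have : DiscreteTopology Zb := ⟨rfl⟩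
  have : CompactSpace U := isCompact_iff_compactSpace.1 hU.isCompact
  have : ContinuousSMul U Zb := continuousSMul_iff_stabilizer_isOpen.2 fun x => by
    have e : (MulAction.stabilizer U x : Set U) =
        Subtype.val ⁻¹' (MulAction.stabilizer GQ (x : Om) : Set GQ) :=
      Set.ext fun u => Subtype.ext_iff
    rw [e]
    exact (isOpen_stab _).preimage continuous_subtype_val
  have : Algebra.IsInvariant (FixedPoints.subring Zb U) Zb U := ⟨fun b hb => ⟨⟨b, hb⟩, rfl⟩⟩
  have : Algebra.IsIntegral ℤ (FixedPoints.subring Zb U) := ⟨fun x =>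
    (isIntegral_algHom_iff (FixedPoints.subring Zb U).subtype.toIntAlgHom
      Subtype.val_injective).1 (integralClosure.isIntegral (x : Zb))⟩
  have : SMulCommClass U (FixedPoints.subring Zb U) Zb :=
    ⟨fun u a b => (smul_mul' u (a : Zb) b).trans (congrArg (· * u • b) (a.2 u))⟩
  have := Ring.DimensionLEOne.of_isIntegral ℤ (FixedPoints.subring Zb U)
  have h1 : ((PP w).under (FixedPoints.subring Zb U)).IsMaximal :=
    Ideal.IsPrime.isMaximal inferInstance fun e => by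
      have h2 : ((w.p : ℕ) : FixedPoints.subring Zb U) ∈ (PP w).under _ := w.v_p_lt
      rw [e, Ideal.mem_bot, Nat.cast_eq_zero] at h2
      exact w.prime.ne_zero h2
  obtain ⟨u, hu⟩ := Algebra.IsInvariant.exists_smul_of_under_eq_of_profinite
    (A := FixedPoints.subring Zb U) (G := U) (PP w) Q
    (h1.eq_of_le (Ideal.IsPrime.ne_top inferInstance) fun x hx =>
      h x (fun σ hσ => congrArg Subtype.val (x.2 ⟨σ, hσ⟩)) hx)
  refine ⟨u, u.2, hu.trans (Ideal.ext fun x => ?_)⟩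
  rw [Ideal.mem_pointwise_smul_iff_inv_smul_mem]
  rfl

theorem core_top (w : Pl) (Q : Ideal Zb) [Q.IsPrime] (h : ((w.p : ℕ) : Zb) ∈ Q) :
    ∃ u : GQ, Q = PP (u • w) := by
  obtain ⟨u, -, hu⟩ := core (U := ⊤) isClosed_univ w Q fun x hx h1 => by
    obtain ⟨q, hq⟩ := hx.rat
    have h2 : IsIntegral ℤ q := (isIntegral_algHom_iff (algebraMap ℚ Om).toIntAlgHom
      (algebraMap ℚ Om).injective).1 (show IsIntegral ℤ (q : Om) from hq ▸ x.2)
    obtain ⟨n, rfl⟩ := IsIntegrallyClosed.isIntegral_iff.1 h2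
    obtain rfl : x = n := Subtype.ext (by simpa using hq)
    obtain ⟨m, rfl⟩ : (w.p : ℤ) ∣ n :=
      not_not.1 fun h3 => (show w.v n < 1 from h1).ne (Pl.v_int_eq_one.2 h3)
    rw [Int.cast_mul, Int.cast_natCast]
    exact Q.mul_mem_right _ h
  exact ⟨u, hu⟩

theorem integral (x : Om) (h : ∀ w : Pl, w.v x ≤ 1) : IsIntegral ℤ x := by
  let D : Ideal Zb :=
    { carrier := {z | IsIntegral ℤ (x * z)}
      zero_mem' := by simpa using isIntegral_zero
      add_mem' := fun {a b} ha hb => by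
        show IsIntegral ℤ (x * (a + b))
        rw [mul_add]; exact ha.add hb
      smul_mem' := fun c a ha => by
        show IsIntegral ℤ (x * (c * a))
        rw [mul_left_comm]; exact IsIntegral.mul c.2 ha }
  by_contra hx
  obtain ⟨M, hM, h1⟩ := D.exists_le_maximal ((Ideal.ne_top_iff_one _).2 fun h2 =>
    hx (by simpa using (show IsIntegral ℤ (x * 1) from h2)))
  obtain ⟨n, hn, h2⟩ := (alg x).exists_integral_multiple
  have h3 : n ∈ M.under ℤ := h1 (show IsIntegral ℤ (x * n) by rwa [mul_comm, ← zsmul_eq_mul])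
  rcases Ideal.isPrime_int_iff.1 (inferInstance : (M.under ℤ).IsPrime) with e | ⟨p, hp, e⟩
  · exact hn (by simpa [e] using h3)
  obtain ⟨w, rfl⟩ := ex p hp
  have h4 : ((w.p : ℕ) : ℤ) ∈ M.under ℤ := e ▸ Ideal.mem_span_singleton_self _
  obtain ⟨u, rfl⟩ := core_top w M h4
  obtain ⟨y, z, hy, hz, h5, h6⟩ := frac (u • w) x (h _)
  exact h5.not_lt (h1 (show (⟨z, hz⟩ : Zb) ∈ D from (h6 ▸ hy : IsIntegral ℤ (x * z))))

end TPL

theorem t_PL : PL := by
  refine ⟨TPL.ex, fun w w' h => ?_, fun U w w' hU h => ?_, TPL.le_one, TPL.integral,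
    fun x hx => ?_, TPL.frac⟩
  · obtain ⟨u, hu⟩ := TPL.core_top w (TPL.PP w') (h ▸ w'.v_p_lt)
    exact ⟨u, (TPL.eq_of_PP hu).symm⟩
  · obtain ⟨u, h1, hu⟩ := TPL.core (closed_of_open hU) w (TPL.PP w') fun x hx => h x hx x.2
    exact ⟨u, h1, (TPL.eq_of_PP hu).symm⟩
  · obtain ⟨B, hB⟩ := TPL.bound x
    obtain ⟨B', hB'⟩ := TPL.bound x⁻¹
    refine ⟨max B B', fun w hw => le_antisymm (hB w (max_lt_iff.1 hw).1) ?_⟩
    have := hB' w (max_lt_iff.1 hw).2
    rwa [map_inv₀, inv_le_one₀ (w.v.pos_iff.2 hx)] at this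

end Pool.Agent.P.MP_8b7eba_nt.R2
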