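import Pool.Agent.P.MP_8b7eba_nt.R2.TABHN

/-! Proof of RECQ. -/

namespace Pool.Agent.P.MP_8b7eba_nt.R2

open scoped NNReal ComplexConjugate

namespace TRECQ

open TABHN

theorem mem_zp (hTAU : TAU) {g : GQ} (hg : g ∈ Subgroup.zpowers tau) : g = 1 ∨ g = tau := by
  obtain ⟨k, rfl⟩ := Subgroup.mem_zpowers_iff.1 hg
  have h2 : tau ^ (2 : ℤ) = 1 := by rw [zpow_two, hTAU.2.1]
  rcases Int.even_or_odd' k with ⟨m, rfl | rfl⟩
  · left; rw [zpow_mul, h2, one_zpow]
  · right; rw [zpow_add, zpow_mul, h2, one_zpow, one_mul, zpow_one]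

theorem closed_zp (hTAU : TAU) : IsClosed (Subgroup.zpowers tau : Set GQ) := by
  have h : (Subgroup.zpowers tau : Set GQ) ⊆ {1, tau} := fun g hg => mem_zp hTAU hg
  exact ((Set.toFinite _).subset h).isClosed

theorem real_place (hTAU : TAU) (hCYC2 : CYC2) {m : ℕ} (hm : m ≠ 0) {χ : GQ → ZMod m}
    (hc : IsCh ⊤ χ) (ht : χ tau ≠ 0) {q : ℚ} (hq : q ≠ 0) :
    Triv (Subgroup.zpowers tau) (cup χ q) ↔ 0 < q := by
  classical
  have hk : IsKer (Subgroup.zpowers tau) ⊥ χ := fun g => by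
    rw [Subgroup.mem_bot]
    constructor
    · rintro rfl
      exact ⟨Subgroup.one_mem _, hc.one⟩
    · rintro ⟨h1, h2⟩
      refine (mem_zp hTAU h1).resolve_right ?_
      rintro rfl
      exact ht h2
  have hb : ∀ b : Om, Fix ⊥ b := fun b σ hσ => by rw [Subgroup.mem_bot.1 hσ]; rfl
  have hn : ∀ b : Om, nrm (Subgroup.zpowers tau) ⊥ b = b * tau b := fun b => by
    rw [nrm_eq_prod ({1, tau} : Finset GQ) id (hb b), Finset.prod_pair hTAU.2.2.1.symm]
    · rfl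
    · intro i hi
      rcases Finset.mem_insert.1 hi with rfl | hi
      · exact Subgroup.one_mem _
      · rw [Finset.mem_singleton.1 hi]; exact Subgroup.mem_zpowers _
    · intro i _ j _ h
      exact inv_mul_eq_one.1 (Subgroup.mem_bot.1 h)
    · intro g hg
      refine ⟨g, ?_, by simp⟩
      rcases mem_zp hTAU hg with rfl | rfl <;> simp
  rw [hCYC2 _ ⊥ m χ (closed_zp hTAU) hm (hc.mono le_top) hk q (fix_rat q) (by exact_mod_cast hq)]
  constructor
  · rintro ⟨b, -, h⟩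
    rw [hn] at h
    have h1 := congrArg io h
    rw [map_mul, hTAU.1, map_ratCast, Complex.mul_conj] at h1
    have h2 : Complex.normSq (io b) = (q : ℝ) := by exact_mod_cast h1
    have h3 : (0 : ℝ) ≤ q := h2 ▸ Complex.normSq_nonneg _
    exact lt_of_le_of_ne (by exact_mod_cast h3) hq.symm
  · intro h
    obtain ⟨b, hb2⟩ := exists_root (q : Om) two_ne_zero
    refine ⟨b, hb b, ?_⟩
    have h1 := congrArg io hb2
    rw [map_pow, map_ratCast] at h1
    have h2 : ((√(q : ℝ) : ℝ) : ℂ) ^ 2 = q := by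
      rw [← Complex.ofReal_pow, Real.sq_sqrt (by exact_mod_cast h.le), Complex.ofReal_ratCast]
    have h3 : tau b = b := by
      apply io.injective
      rw [hTAU.1]
      rcases sq_eq_sq_iff_eq_or_eq_neg.1 (h1.trans h2.symm) with h4 | h4
      · rw [h4, Complex.conj_ofReal]
      · rw [h4, map_neg, Complex.conj_ofReal]
    rw [hn, h3, ← hb2, sq]

theorem coe_two : ((2 : ℤ_[2]) : ℚ_[2]) = 2 := rfl

theorem ep_one : ep 1 = 0 := by
  unfold ep
  rw [if_pos]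
  simp

theorem ep_neg_one : ep (-1) = 1 := by
  unfold ep
  rw [if_neg]
  intro h
  have h1 : (((-1 : ℤ_[2]ˣ) : ℤ_[2]) - 1) = ((-2 : ℤ) : ℤ_[2]) := by simp; norm_num
  have h2 : (4 : ℤ_[2]) = ((2 : ℕ) : ℤ_[2]) ^ 2 := by norm_num
  rw [h1, h2, PadicInt.pow_p_dvd_int_iff] at h
  norm_num at h

theorem ec_half (h : IsEc ec) : ec (1 / 2) = -1 := by
  have h1 : ec (1 / 2) * ec (1 / 2) = 1 := by
    rw [← h.add, add_halves, h.eq_one, norm_one]
  rcases mul_self_eq_one_iff.1 h1 with h2 | h2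
  · rw [h.eq_one, norm_div, norm_one] at h2
    have h3 : ‖(2 : ℚ_[2])‖ = 2⁻¹ := by simpa using Padic.norm_p (p := 2)
    rw [h3] at h2
    norm_num at h2
  · exact h2

theorem ec_prod' (h : IsEc ec) (hLG : LG) {ι : Type} (s : Finset ι) (F : ι → ℤ_[2]ˣ) (n : ℕ) :
    ∏ i ∈ s, ec ((lg (F i) + 2 ^ n * ep (F i) : ℤ_[2]) / 2 ^ (n + 1)) =
      ec ((lg (∏ i ∈ s, F i) + 2 ^ n * ep (∏ i ∈ s, F i) : ℤ_[2]) / 2 ^ (n + 1)) := by
  classical
  induction s using Finset.induction_on with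
  | empty => simp [lg_one hLG.1, ep_one, ec_zero h]
  | insert i s hi ih =>
    rw [Finset.prod_insert hi, Finset.prod_insert hi, ih, hLG.1.mul, ← h.add]
    obtain ⟨c, hc⟩ := hLG.2.1 (F i) (∏ i ∈ s, F i)
    have h1 : ec (c : ℚ_[2]) = 1 := (h.eq_one _).2 c.2
    have h2 : ep (F i * ∏ i ∈ s, F i) = ep (F i) + ep (∏ i ∈ s, F i) + 2 * c := by
      linear_combination hc
    rw [← mul_one (ec (_ + _)), ← h1, ← h.add, h2]
    congr 1
    push_cast
    rw [coe_two]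
    field_simp
    ring

end TRECQ

open TABHN TRECQ

theorem t_RECQ (hPL : PL) (hEC : EC) (hLG : LG) (hTAU : TAU) (hART : ART) (hORB : ORB) (hCYC1 : CYC1) (hCYC2 : CYC2) (hCUP : CUP) (hDIEK : DIEK) (hINV : INV) (hINV2 : INV2) (hABHN : ABHN) : RECQ := by
  intro f R hf hR hO
  classical
  choose n₀ hn₀ using fun w : Pl => hDIEK w w.D f w.loc_D (hf.mono le_top)
  obtain ⟨n, hn⟩ : ∃ n, ∀ w ∈ R, n₀ w ≤ n := ⟨R.sup n₀, fun w hw => Finset.le_sup hw⟩
  obtain ⟨-, hc, hk, hKP, -, hz, ht⟩ := hLG.2.2.2.1 n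
  obtain ⟨V, hV, hkV⟩ := hc.exists_ker
  rw [top_inf_eq] at hkV
  have hle : V ≤ KP n := fun g hg => (hk g).2 ⟨Subgroup.mem_top g, hz g ((hkV g).1 hg).2⟩
  have hT : TC V := fun g hg => ht (by
    have h1 := ((hkV _).1 hg).2
    rw [hc.2 _ (Subgroup.mem_top _) _ (Subgroup.mem_top _),
      hc.2 _ (Subgroup.mem_top _) _ (Subgroup.mem_top _), hc.inv (Subgroup.mem_top _)] at h1
    linear_combination h1)
  have h1 : Triv V f := by
    refine hABHN _ f hV hT (hf.mono le_top) fun w => Triv.mono ?_ (inf_le_inf_left _ hle)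
    by_cases h : Out ⊤ R w
    · exact (hO w h).mono inf_le_left
    · unfold Out at h
      push Not at h
      obtain ⟨u, hu, huw⟩ := h
      have h3 := Triv.smul_place hf.1 (V := KP n) le_top (Subgroup.mem_top u⁻¹)
        (fun g hg => by
          have := hKP.1.conj_mem g hg u
          rwa [inv_inv]) (hn₀ (u • w) n (hn _ huw))
      rwa [inv_smul_smul] at h3
  have hm : 2 ^ (n + 1) ≠ 0 := pow_ne_zero _ two_ne_zero
  obtain ⟨a, ha, ha0, hfa⟩ := hCYC1 ⊤ V (2 ^ (n + 1)) (Ps' n) (by simp) hm hc hkV f hf.1 h1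
  obtain ⟨q, rfl⟩ := ha.rat
  have hq : q ≠ 0 := by exact_mod_cast ha0
  have hco : Co2 ⊤ (cup (Ps' n) q) := (hCUP ⊤ q ha ha0 _ _ hm hc).1
  have hsv : ∀ w : Pl, nv w w.D f =
      ec ((lg (art w q) + 2 ^ n * ep (art w q) : ℤ_[2]) / 2 ^ (n + 1)) := fun w => by
    rw [hINV2.1 w _ f _ w.loc_D (hf.mono le_top) (hco.mono le_top) (hfa.mono le_top),
      hINV2.2.2.1 w n q (fix_rat q) ha0]
  have hR0 : Triv (Subgroup.zpowers tau) f ↔ 0 < q :=
    (hfa.mono le_top).iff.trans (real_place hTAU hCYC2 hm hc ht hq)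
  obtain ⟨B, hB⟩ := hPL.2.2.2.2.2.1 q ha0
  obtain ⟨R', hsub, hR', hout, hO'⟩ := extend hORB (U := ⊤) (by simp) hR
    (Finset.range (B + 2 + R.sup (fun w => w.p) + 1)) (fun w hw => by
      have : w.p ≤ R.sup fun w => w.p := Finset.le_sup (f := fun w : Pl => w.p) hw
      rw [Finset.mem_range]; omega)
  have h2 := hART.2.2.2 q R' hq hR' (by
    obtain ⟨w, hw⟩ := hPL.1 2 Nat.prime_two
    have h3 : ¬ Out ⊤ R' w := fun h => (hO' w).1 h (by rw [Finset.mem_range]; omega)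
    unfold Out at h3
    push Not at h3
    obtain ⟨u, -, hu⟩ := h3
    exact ⟨u • w, hu, hw⟩)
    (fun w hw => hB w (by have := (hO' w).1 hw; rw [Finset.mem_range] at this; omega))
  rw [Finset.prod_subset hsub fun w hw hn =>
    (hINV w _ w.loc_D).triv f (hf.1.mono le_top) (hO w (hout w hw hn))]
  simp only [hsv]
  rw [ec_prod' hEC.1 hLG, h2]
  unfold nvR
  by_cases h : 0 < q
  · rw [if_pos (hR0.2 h), if_pos h, lg_one hLG.1, ep_one]
    simp [ec_zero hEC.1]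
  · rw [if_neg fun h' => h (hR0.1 h'), if_neg h, lg_neg_one hLG.1, ep_neg_one]
    have e : (((0 + 2 ^ n * 1 : ℤ_[2]) : ℚ_[2]) / 2 ^ (n + 1)) = 1 / 2 := by
      push_cast
      rw [coe_two]
      field_simp
      ring
    rw [e, ec_half hEC.1]
    ring

end Pool.Agent.P.MP_8b7eba_nt.R2
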