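import Pool.Agent.P.MP_8b7eba_nt.R2.IfA
import Pool.Agent.P.MP_8b7eba_nt.R2.Nrm

/-! Proof of RES. -/

namespace Pool.Agent.P.MP_8b7eba_nt.R2

open scoped NNReal ComplexConjugate

theorem TRES.expand {w : Pl} {H : Subgroup GQ} {π : Om} (h : w.Unif H π) {r : Finset Om}
    (h1 : ∀ y ∈ r, Fix H y) (h2 : ∀ x, Fix H x → w.v x ≤ 1 → ∃ y ∈ r, w.v (x - y) < 1)
    {P : Om → Prop} (h0 : P 0) (hP : ∀ a ∈ r, ∀ b, P b → P (a + π * b)) (k : ℕ) :
    ∃ s : Finset Om, s.card ≤ r.card ^ k ∧ (∀ y ∈ s, P y) ∧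
      ∀ x, Fix H x → w.v x ≤ 1 → ∃ y ∈ s, w.v (x - y) ≤ w.v π ^ k := by
  classical
  induction k with
  | zero => exact ⟨{0}, by simp, by simpa using h0, fun x _ hx => ⟨0, by simp, by simpa using hx⟩⟩
  | succ k ih =>
    obtain ⟨s, a, b, c⟩ := ih
    refine ⟨Finset.image₂ (fun a b => a + π * b) r s, (Finset.card_image₂_le _ _ _).trans
      (by rw [pow_succ']; exact Nat.mul_le_mul_left _ a), fun y hy => ?_, fun x hx hv => ?_⟩
    · obtain ⟨u, hu, v, hv, rfl⟩ := Finset.mem_image₂.1 hy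
      exact hP u hu v (b v hv)
    · obtain ⟨y, hy, e⟩ := h2 x hx hv
      have hf := hx.sub (h1 y hy)
      obtain ⟨z, hz, e'⟩ := c ((x - y) / π) (hf.div h.1)
        (by rw [map_div₀]; exact div_le_one_of_le₀ (h.le hf e) zero_le)
      refine ⟨_, Finset.mem_image₂_of_mem hy hz, ?_⟩
      rw [show x - (y + π * z) = π * ((x - y) / π - z) by field_simp [h.2.1]; ring, map_mul,
        pow_succ']
      exact mul_le_mul_right e' _

theorem t_RES (hUNIF : UNIF) (_hDENS : DENS) : RES := by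
  rintro w _ ⟨U, hU, rfl⟩
  obtain ⟨π, hπ, h1, -, h2, r, h3, h4, h5⟩ := hUNIF w U hU
  have h6 := TRES.expand h1 (fun y hy => (h3 y hy).1.mono inf_le_right) h5
    (P := fun y => Fix (w.D ⊓ U) y ∧ w.v y ≤ 1) ⟨fix_zero, by simp⟩ fun a ha b hb =>
      ⟨((h3 a ha).1.mono inf_le_right).add (h1.1.mul hb.1), w.v.map_add_le (h3 a ha).2
        (by rw [map_mul]; exact mul_le_one' h1.2.2.1.le hb.2)⟩
  have h7 : ∀ ε : ℝ≥0, 0 < ε → ∃ r : Finset Om, (∀ y ∈ r, Fix (w.D ⊓ U) y ∧ w.v y ≤ 1) ∧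
      ∀ x, Fix (w.D ⊓ U) x → w.v x ≤ 1 → ∃ y ∈ r, w.v (x - y) < ε := fun ε hε => by
    obtain ⟨k, hk⟩ := NNReal.exists_pow_lt_of_lt_one hε h1.2.2.1
    obtain ⟨s, -, b, c⟩ := h6 k
    exact ⟨s, b, fun x hx hv => (c x hx hv).imp fun y hy => ⟨hy.1, hy.2.trans_lt hk⟩⟩
  refine ⟨h7, ?_, fun π ε B hπ hε ⟨u, hu, e⟩ hB => ?_, ?_⟩
  · obtain ⟨s, a, -, c⟩ := h6 (U.relIndex w.I)
    exact ⟨s, by rw [Subgroup.inf_relIndex_left]; exact a.trans h4, by rwa [h2] at c⟩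
  · classical
    obtain ⟨s, b, c⟩ := h7 (min ε 1) (lt_min hε one_pos)
    have : Finite (FU (w.D ⊓ U) ⧸ B.subgroupOf (FU (w.D ⊓ U))) := by
      have : Finite {y // y ∈ s ∧ y ≠ 0} := (s.finite_toSet.subset fun _ h => h.1).to_subtype
      refine Finite.of_surjective (fun y : {y // y ∈ s ∧ y ≠ 0} =>
        ((⟨Units.mk0 y.1 y.2.2, (b y.1 y.2.1).1⟩ : FU (w.D ⊓ U)) :
          FU (w.D ⊓ U) ⧸ B.subgroupOf (FU (w.D ⊓ U)))) fun q => ?_
      obtain ⟨⟨x, hx⟩, rfl⟩ := QuotientGroup.mk_surjective q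
      obtain ⟨k, hk⟩ := hπ.2.2.2 x hx x.ne_zero
      have h8 : w.v (x / π ^ k) = 1 := by
        rw [map_div₀, map_zpow₀, hk, div_self (zpow_ne_zero _ (w.v.pos_iff.2 hπ.2.1).ne')]
      obtain ⟨y, hy, e'⟩ := c _ (Fix.div hx (hπ.1.zpow k)) h8.le
      have h9 : w.v y = 1 := by
        rw [← h8]
        exact w.v.map_eq_of_sub_lt (by
          rw [Valuation.map_sub_swap, h8]; exact e'.trans_le (min_le_right _ _))
      have h0 : y ≠ 0 := by rintro rfl; simp at h9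
      refine ⟨⟨y, hy, h0⟩, QuotientGroup.eq.2 (Subgroup.mem_subgroupOf.2 ?_)⟩
      have hv : (((Units.mk0 y h0)⁻¹ * x * (u ^ k)⁻¹ : Omˣ) : Om) = x / π ^ k / y := by
        simp [e, div_eq_mul_inv, mul_comm, mul_left_comm]
      have := B.mul_mem (hB ((Units.mk0 y h0)⁻¹ * x * (u ^ k)⁻¹)
        (by change Fix _ _; rw [hv]; exact (Fix.div hx (hπ.1.zpow k)).div (b y hy).1)
        (by rw [hv, div_sub_one h0, map_div₀, h9, div_one]; exact e'.trans_le (min_le_left _ _)))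
        (B.zpow_mem hu k)
      simpa using this
    exact Subgroup.index_ne_zero_of_finite
  · classical
    obtain ⟨π, -, h1, h1', h2, r, h3, h4, h5⟩ := hUNIF w ⊤ isOpen_univ
    simp only [inf_top_eq, Subgroup.relIndex_top_left, pow_one] at h1 h1' h2 h4 h5
    have key : ∀ {H}, w.Unif H π → w.Unif H w.p := fun h =>
      ⟨fix_nat _, Nat.cast_ne_zero.2 w.prime.ne_zero, w.v_p_lt, by rw [w.vp, ← h2]; exact h.2.2.2⟩
    refine ⟨key h1, key h1', fun x hx hv n => ?_⟩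
    choose f f1 f2 using fun i : ℕ => h5 i (fix_nat i) (w.v_nat_le i)
    have h8 := Finset.surj_on_of_inj_on_of_card_le (s := Finset.range w.p) (fun i _ => f i)
      (fun i _ => f1 i) (fun i j hi hj e => by
        have h9 : w.v ((i - j : ℤ) : Om) < 1 := by
          rw [show ((i - j : ℤ) : Om) = (i - f i) - (j - f j) by rw [e]; push_cast; ring]
          exact (w.v.map_sub _ _).trans_lt (max_lt (f2 i) (f2 j))
        have := Int.eq_zero_of_abs_lt_dvd (not_not.1 fun k => h9.ne (Pl.v_int_eq_one.2 k))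
          (by rw [Finset.mem_range] at hi hj; rw [abs_lt]; omega)
        omega) (by simpa using h4)
    obtain ⟨s, -, b, c⟩ := TRES.expand (key h1) (r := (Finset.range w.p).image Nat.cast)
      (fun y hy => by obtain ⟨i, -, rfl⟩ := Finset.mem_image.1 hy; exact fix_nat i)
      (fun x hx hv => by
        obtain ⟨y, hy, e⟩ := h5 x hx hv
        obtain ⟨i, hi, rfl⟩ := h8 y hy
        refine ⟨i, Finset.mem_image_of_mem _ hi, ?_⟩
        rw [← sub_sub_sub_cancel_right _ _ (f i)]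
        exact (w.v.map_sub _ _).trans_lt (max_lt e (f2 i)))
      (P := fun y => ∃ m : ℕ, y = m) ⟨0, by simp⟩ (fun a ha b ⟨m, hm⟩ => by
        obtain ⟨i, -, rfl⟩ := Finset.mem_image.1 ha
        exact ⟨i + w.p * m, by rw [hm]; push_cast; rfl⟩) n
    obtain ⟨y, hy, e⟩ := c x hx hv
    obtain ⟨m, rfl⟩ := b y hy
    exact ⟨m, by rwa [w.vp, inv_pow] at e⟩

end Pool.Agent.P.MP_8b7eba_nt.R2
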