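import Pool.Agent.P.MP_8b7eba_nt.R2.IfA
import Pool.Agent.P.MP_8b7eba_nt.R2.Nrm

/-! Proof of SERRE, NU. -/

namespace Pool.Agent.P.MP_8b7eba_nt.R2

open scoped NNReal ComplexConjugate

namespace TSERRE

variable {w : Pl} {H : Subgroup GQ} {a a' b : Om}

theorem cancel (hb : Fix H b) (h0 : a ≠ 0) (h : Nm H b a) (h' : Nm H b (a * a')) : Nm H b a' := by
  simpa [h0] using (h.inv hb).mul hb h'

theorem mul (hNI : NI) (hl : w.Loc H) (hb : Fix H b) (b0 : b ≠ 0) (ha : Fix H a) (a0 : a ≠ 0)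
    (ha' : Fix H a') (a0' : a' ≠ 0) : Nm H b (a * a') ↔ (Nm H b a ↔ Nm H b a') := by
  refine ⟨fun h => ⟨fun h1 => cancel hb a0 h1 h, fun h1 => cancel hb a0' h1 (mul_comm a a' ▸ h)⟩,
    fun h => ?_⟩
  by_cases h1 : Nm H b a
  · exact h1.mul hb (h.1 h1)
  · exact (hNI w H b hl hb b0 fun hs => h1 (Nm.of_sq_left b0 hs ha)).2 a a' ha ha' h1
      fun h2 => h1 (h.2 h2)

theorem ev (hHENS : HENS) (hl : w.Loc H) (hp : w.p ≠ 2) (hb : Fix H b) (hv : w.v b = 1)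
    (hn : ¬ Sq H b) (h : Nm H b a) : w.Ev H a := by
  obtain ⟨x, y, hx, hy, rfl⟩ := h
  have e : w.v (b * y ^ 2) = w.v y ^ 2 := by rw [map_mul, hv, one_mul, map_pow]
  rcases lt_trichotomy (w.v x) (w.v y) with h | h | h
  · refine ⟨y, hy, ?_⟩
    rw [w.v.map_sub_eq_of_lt_right (by rw [e, map_pow]; gcongr), e]
  · refine ⟨y, hy, le_antisymm (w.v.map_sub_le (by rw [map_pow, h]) e.le) (not_lt.1 fun h1 => ?_)⟩
    have y0 : y ≠ 0 := fun e => by simp [e] at h1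
    have b0 : b ≠ 0 := fun e => by simp [e] at hv
    have v4 : w.v 4 = 1 := by
      rw [show (4 : Om) = 2 * 2 by norm_num, map_mul, Pl.v_two hp, one_mul]
    obtain ⟨r, r1, r2, r3, -⟩ := (hHENS w H hl.le).1 (x ^ 2 / (b * y ^ 2))
      ((hx.pow 2).div (hb.mul (hy.pow 2))) (by
        rw [div_sub_one (mul_ne_zero b0 (pow_ne_zero 2 y0)), map_div₀, e, v4]
        exact (div_lt_one₀ (pow_pos (w.v.pos_iff.2 y0) 2)).2 h1)
    have r0 : r ≠ 0 := fun e => by simp [e, Pl.v_two hp] at r3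
    refine hn ⟨x / (y * r), hx.div (hy.mul r1), ?_⟩
    rw [div_eq_iff (mul_ne_zero b0 (pow_ne_zero 2 y0))] at r2
    rw [div_pow, r2]
    field_simp
  · refine ⟨x, hx, ?_⟩
    rw [w.v.map_sub_eq_of_lt_left (by rw [e, map_pow]; gcongr), map_pow]

theorem lg1 {p q r p' q' r' : Prop} (k : r' ↔ ¬ r) (a1 : ¬ ((p ↔ p) ∧ (p' ↔ q')))
    (a2 : ¬ ((q ↔ p) ∧ (q' ↔ q'))) (a3 : ¬ (((p ↔ r) ↔ p) ∧ ((p' ↔ r') ↔ q')))
    (a4 : ¬ (((q ↔ r) ↔ p) ∧ ((q' ↔ r') ↔ q'))) : False := by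
  tauto

theorem lg2 {p q r p' q' : Prop} (h : p ↔ (q ↔ r)) (h1 : p ↔ p') (h2 : q ↔ q') (h3 : ¬ r) :
    p' ↔ ¬ q' := by
  tauto

end TSERRE

open TSERRE

theorem t_SERRE (hGAL : GAL) (hNI : NI) (_hHENS : HENS) (_hUNIF : UNIF) : SERRE := by
  intro w H H' a b hl hl' hle hi ha hb a0 b0
  obtain ⟨U, hU, rfl⟩ := hl'
  have e : w.D ⊓ U = H ⊓ U := le_antisymm (le_inf hle inf_le_right) (inf_le_inf_right U hl.le)
  rw [e] at hi ⊢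
  rw [Subgroup.inf_relIndex_left] at hi
  obtain ⟨γ, γ0, hc, hγ⟩ := (hGAL H hl.closed).2.2.2.1 U hU hi
  have c0 : γ ^ 2 ≠ 0 := pow_ne_zero 2 γ0
  have f : Fix (H ⊓ U) γ := fun g hg => (hγ g hg.1).1 hg.2
  have ns : ¬ Sq H (γ ^ 2) := fun hs => by
    obtain ⟨g, hg, hn, -⟩ := Subgroup.relIndex_eq_two_iff_exists_notMem_and.1 hi
    exact γ0 (self_eq_neg.1 (((sq_iff hc).1 hs g hg).symm.trans ((hγ g hg).2 hn)))
  obtain ⟨r, hr, r0, rn⟩ := (hNI w H _ hl hc c0 ns).1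
  have d1 : Fix H (-(a * b)) := (ha.mul hb).neg
  have n1 : -(a * b) ≠ 0 := neg_ne_zero.2 (mul_ne_zero a0 b0)
  have d2 := d1.mul hc
  have n2 := mul_ne_zero n1 c0
  have k : Nm H (-(a * b) * γ ^ 2) r ↔ ¬ Nm H (-(a * b)) r :=
    lg2 (mul hNI hl hr r0 d1 n1 hc c0) ⟨Nm.symm n2 hr, Nm.symm r0 d2⟩
      ⟨Nm.symm n1 hr, Nm.symm r0 d1⟩ fun h => rn (h.symm c0 hr)
  obtain ⟨t, ht, t0, t1, t2⟩ : ∃ t, Fix H t ∧ t ≠ 0 ∧ Nm H (-(a * b)) (t * a) ∧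
      Nm H (-(a * b) * γ ^ 2) (t * γ ^ 2) := by
    have m1 := fun x y => mul (a := x) (a' := y) hNI hl d1 n1
    have m2 := fun x y => mul (a := x) (a' := y) hNI hl d2 n2
    by_contra hc'
    have a1 := fun h => hc' ⟨a, ha, a0, h⟩
    have a2 := fun h => hc' ⟨_, hc, c0, h⟩
    have a3 := fun h => hc' ⟨_, ha.mul hr, mul_ne_zero a0 r0, h⟩
    have a4 := fun h => hc' ⟨_, hc.mul hr, mul_ne_zero c0 r0, h⟩
    rw [m1 _ _ ha a0 ha a0, m2 _ _ ha a0 hc c0] at a1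
    rw [m1 _ _ hc c0 ha a0, m2 _ _ hc c0 hc c0] at a2
    rw [m1 _ _ (ha.mul hr) (mul_ne_zero a0 r0) ha a0, m2 _ _ (ha.mul hr) (mul_ne_zero a0 r0) hc c0,
      m1 _ _ ha a0 hr r0, m2 _ _ ha a0 hr r0] at a3
    rw [m1 _ _ (hc.mul hr) (mul_ne_zero c0 r0) ha a0, m2 _ _ (hc.mul hr) (mul_ne_zero c0 r0) hc c0,
      m1 _ _ hc c0 hr r0, m2 _ _ hc c0 hr r0] at a4
    exact lg1 k a1 a2 a3 a4
  obtain ⟨x, y, hx, hy, e1⟩ := t1
  obtain ⟨u, z, hu, hz, e2⟩ := t2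
  have ha' : Fix (H ⊓ U) a := ha.mono inf_le_left
  have hb' : Fix (H ⊓ U) b := hb.mono inf_le_left
  by_cases hs : Sq (H ⊓ U) b
  · exact Nm.of_sq_left b0 hs ha'
  have e3 : ((x / a) ^ 2 - b * z ^ 2) * a = (u / γ) ^ 2 - b * y ^ 2 := by
    field_simp
    linear_combination a * e2 - γ ^ 2 * e1
  have s : ∀ p q : Om, Fix (H ⊓ U) p → Fix (H ⊓ U) q → p ^ 2 - b * q ^ 2 = 0 → q = 0 :=
    fun p q hp hq h => by_contra fun q0 => hs ⟨p / q, hp.div hq, by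
      field_simp
      linear_combination -h⟩
  have f1 : Fix (H ⊓ U) (x / a) := (hx.div ha).mono inf_le_left
  have f2 : Fix (H ⊓ U) (u / γ) := (hu.mono inf_le_left).div f
  refine cancel hb' (fun h => ?_) ⟨_, _, f1, hz.mono inf_le_left, rfl⟩
    ⟨_, _, f2, hy.mono inf_le_left, e3⟩
  have z0 := s _ _ f1 (hz.mono inf_le_left) h
  have y0 := s _ _ f2 (hy.mono inf_le_left) (by rw [← e3, h, zero_mul])
  have x0 : x = 0 := by simpa [z0, a0] using h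
  simp [x0, y0, t0, a0] at e1

theorem t_NU (_hGAL : GAL) (hNI : NI) (hHENS : HENS) (hUNIF : UNIF) : NU := by
  intro w H b hl hp hb hv
  refine ⟨fun a ha a0 ⟨y, hy, e⟩ => ?_, fun hn a => ev hHENS hl hp hb hv hn⟩
  have b0 : b ≠ 0 := fun e => by simp [e] at hv
  by_cases hs : Sq H b
  · exact Nm.of_sq_left b0 hs ha
  obtain ⟨π, hπ⟩ : ∃ π, w.Unif H π := by
    obtain ⟨U, hU, e⟩ := hl
    obtain ⟨π, -, h1, -⟩ := hUNIF w U hU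
    exact ⟨π, e ▸ h1⟩
  by_contra hn
  obtain ⟨z, hz, e'⟩ := ev hHENS hl hp hb hv hs ((hNI w H b hl hb b0 hs).2 a π ha hπ.1 hn
    fun h => hπ.not_ev (ev hHENS hl hp hb hv hs h))
  have y0 : w.v y ^ 2 ≠ 0 := e ▸ (w.v.pos_iff.2 a0).ne'
  refine hπ.not_ev ⟨z / y, hz.div hy, ?_⟩
  rw [map_div₀, div_pow, ← e', map_mul, e, mul_div_cancel_left₀ _ y0]

end Pool.Agent.P.MP_8b7eba_nt.R2
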