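import Pool.Agent.P.MP_8b7eba_nt.R2.IfA
import Pool.Agent.P.MP_8b7eba_nt.R2.Nrm

/-! Proof of SQ1. -/

namespace Pool.Agent.P.MP_8b7eba_nt.R2

open scoped NNReal ComplexConjugate

namespace TSQ1

theorem idx_le {G ι : Type} [CommGroup G] [Fintype ι] {B C : Subgroup G} (φ : B → ι)
    (h : ∀ a b : B, φ a = φ b → (a : G)⁻¹ * b ∈ C) :
    C.relIndex B ≠ 0 ∧ C.relIndex B ≤ Fintype.card ι := by
  have hi : Function.Injective fun q : B ⧸ C.subgroupOf B => φ q.out := fun q q' e => by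
    rw [← q.out_eq', ← q'.out_eq']
    exact QuotientGroup.eq.2 (h _ _ e)
  have : Finite (B ⧸ C.subgroupOf B) := Finite.of_injective _ hi
  refine ⟨Nat.card_pos.ne', ?_⟩
  rw [← Nat.card_eq_fintype_card]
  exact Nat.card_le_card_of_injective _ hi

theorem herb {A B : Subgroup Omˣ} (hB : B ≤ A) (h : B.relIndex A ≠ 0) (hA : -1 ∈ A)
    (h2 : sqI B ≠ 0) : sqI A ≠ 0 ∧ sqI A ≤ 2 * sqI B := by
  set s : Omˣ →* Omˣ := powMonoidHom 2
  have hk : ∀ x ∈ s.ker, x = 1 ∨ x = -1 := fun x hx => by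
    have : (x : Om) ^ 2 = 1 := by
      rw [← Units.val_pow_eq_pow_val, show x ^ 2 = 1 from hx, Units.val_one]
    rcases mul_self_eq_one_iff.1 ((sq _).symm.trans this) with h | h
    · exact Or.inl (Units.ext h)
    · exact Or.inr (Units.ext (by simpa using h))
  have hkA : s.ker ≤ A := fun x hx => by
    rcases hk x hx with rfl | rfl
    · exact A.one_mem
    · exact hA
  have m : ∀ C : Subgroup Omˣ, C.map s ≤ C := fun C => by
    rintro _ ⟨x, hx, rfl⟩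
    exact C.pow_mem hx 2
  have e1 : sqI B * B.relIndex A = (B.map s).relIndex A := Subgroup.relIndex_mul_relIndex _ _ _ (m B) hB
  have e2 : (B.map s).relIndex (A.map s) * sqI A = (B.map s).relIndex A :=
    Subgroup.relIndex_mul_relIndex _ _ _ (Subgroup.map_mono hB) (m A)
  have e3 : (B.map s).relIndex (A.map s) = (B ⊔ s.ker).relIndex A := by
    rw [Subgroup.relIndex_map_map, sup_of_le_left hkA]
  have e4 : B.relIndex (B ⊔ s.ker) * (B ⊔ s.ker).relIndex A = B.relIndex A :=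
    Subgroup.relIndex_mul_relIndex _ _ _ le_sup_left (sup_le hB hkA)
  have e5 : B.relIndex (B ⊔ s.ker) ≤ 2 := by
    rw [sup_comm, Subgroup.relIndex_sup_right]
    classical
    refine (idx_le (fun x : s.ker => decide ((x : Omˣ) = 1)) fun a b e => ?_).2.trans
      (by simp)
    have : (a : Omˣ) = b := by
      rcases hk a a.2 with ha | ha <;> rcases hk b b.2 with hb | hb <;> simp_all
    rw [this, inv_mul_cancel]
    exact B.one_mem
  have h0 : (B ⊔ s.ker).relIndex A ≠ 0 := fun e => h (by rw [← e4, e, mul_zero])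
  have e6 : sqI A = B.relIndex (B ⊔ s.ker) * sqI B :=
    Nat.eq_of_mul_eq_mul_left (Nat.pos_of_ne_zero h0) (by rw [← e3, e2, ← e1, ← e4, e3]; ring)
  refine ⟨?_, e6 ▸ Nat.mul_le_mul_right _ e5⟩
  rw [e6]
  exact mul_ne_zero (fun e => h (by rw [← e4, e, zero_mul])) h2

/-- the principal units of a given level -/
def VV (w : Pl) (H : Subgroup GQ) (c : ℝ≥0) (hc : c < 1) : Subgroup Omˣ where
  carrier := {u | u ∈ FU H ∧ w.v (u - 1) ≤ c}
  one_mem' := ⟨(FU H).one_mem, by simp⟩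
  mul_mem' := fun {x y} hx hy => ⟨(FU H).mul_mem hx.1 hy.1, by
    have h1 : w.v y = 1 := by
      simpa using w.v.map_one_add_of_lt (hy.2.trans_lt hc)
    rw [show ((x * y : Omˣ) : Om) - 1 = (x - 1) * y + (y - 1) by rw [Units.val_mul]; ring]
    exact w.v.map_add_le (by rw [map_mul, h1, mul_one]; exact hx.2) hy.2⟩
  inv_mem' := fun {x} hx => ⟨(FU H).inv_mem hx.1, by
    have h1 : w.v x = 1 := by
      simpa using w.v.map_one_add_of_lt (hx.2.trans_lt hc)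
    rw [show ((x⁻¹ : Omˣ) : Om) - 1 = (1 - x) * (x : Om)⁻¹ by
      rw [Units.val_inv_eq_inv_val]; field_simp, map_mul, map_inv₀, h1, inv_one, mul_one,
      Valuation.map_sub_swap]
    exact hx.2⟩

theorem VV_le {w : Pl} {H : Subgroup GQ} {c : ℝ≥0} {hc : c < 1} : VV w H c hc ≤ FU H := fun _ h => h.1

theorem main {ι : Type} [Fintype ι] {A V : Subgroup Omˣ} {π : Omˣ} (hπ : π ∈ A) (hV : V ≤ A)
    (hA : -1 ∈ A) (h : (Subgroup.zpowers π ⊔ V).relIndex A ≠ 0) (ψ : Omˣ → ι)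
    (hψ : ∀ a ∈ V, ∀ b ∈ V, ψ a = ψ b → ∃ y ∈ V, a⁻¹ * b = y ^ 2) :
    sqI A ≠ 0 ∧ sqI A ≤ 4 * Fintype.card ι := by
  have d : ∀ b : (Subgroup.zpowers π ⊔ V : Subgroup Omˣ), ∃ k : ℤ, ∃ u ∈ V, (b : Omˣ) = π ^ k * u :=
    fun b => by
      obtain ⟨_, ⟨k, rfl⟩, u, hu, e⟩ := Subgroup.mem_sup.1 b.2
      exact ⟨k, u, hu, e.symm⟩
  choose k u hu e using d
  have := idx_le (C := (Subgroup.zpowers π ⊔ V).map (powMonoidHom 2))
    (fun b => ((k b : ZMod 2), ψ (u b))) fun a b hab => by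
      obtain ⟨y, hy, ey⟩ := hψ _ (hu a) _ (hu b) (congrArg Prod.snd hab)
      obtain ⟨m, hm⟩ := (ZMod.intCast_eq_intCast_iff_dvd_sub _ _ _).1 (congrArg Prod.fst hab)
      refine ⟨π ^ m * y, Subgroup.mul_mem_sup ⟨m, rfl⟩ hy, ?_⟩
      rw [e a, e b, show k b = k a + (m + m) by push_cast at hm; linarith, zpow_add, zpow_add,
        powMonoidHom_apply, mul_pow, ← ey, sq]
      exact Units.ext (by simp only [Units.val_mul, Units.val_inv_eq_inv_val]; field_simp)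
  have h' := herb (sup_le ((Subgroup.zpowers_le).2 hπ) hV) h hA this.1
  refine ⟨h'.1, h'.2.trans ?_⟩
  have := this.2
  rw [Fintype.card_prod, ZMod.card] at this
  unfold sqI
  omega

end TSQ1

theorem t_SQ1 (hUNIF : UNIF) (hRES : RES) (hHENS : HENS) (hHQ : HQ) : SQ1 := by
  intro w H hH
  obtain ⟨π, hp⟩ : ∃ π, w.Unif H π := by
    obtain ⟨U, hU, rfl⟩ := hH
    obtain ⟨π, -, h, -⟩ := hUNIF w U hU
    exact ⟨π, h⟩
  obtain ⟨-, ⟨r, hr, hr'⟩, h3, -⟩ := hRES w H hH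
  have hm : -1 ∈ FU H := fun σ _ => by simp
  have fi : ∀ (c : ℝ≥0) (hc : c < 1), 0 < c →
      (Subgroup.zpowers (Units.mk0 π hp.2.1) ⊔ TSQ1.VV w H c hc).relIndex (FU H) ≠ 0 :=
    fun c hc h0 => h3 π c _ hp h0 ⟨_, Subgroup.mem_sup_left (Subgroup.mem_zpowers _), rfl⟩
      fun u hu h => Subgroup.mem_sup_right ⟨hu, h.le⟩
  have sq : ∀ (c : ℝ≥0) (hc : c < 1) (x : Omˣ), x ∈ FU H → w.v (x - 1) < w.v 4 →
      w.v (x - 1) ≤ c * w.v 2 → ∃ y ∈ TSQ1.VV w H c hc, x = y ^ 2 := fun c hc x hx h1 h2 => by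
    obtain ⟨y, hy, e, -, e'⟩ := (hHENS w H hH.le).1 x hx h1
    have y0 : y ≠ 0 := fun h => x.ne_zero (by rw [e, h]; simp)
    refine ⟨Units.mk0 y y0, ⟨hy, ?_⟩, Units.ext e⟩
    exact le_of_mul_le_mul_right (e'.trans_le h2)
      (pos_iff_ne_zero.2 ((map_ne_zero w.v).2 two_ne_zero))
  have h4 : w.v 4 = w.v 2 * w.v 2 := by rw [← map_mul]; norm_num
  split_ifs with h
  · classical
    have v2 := Pl.v_two' h
    have v8 : w.v 8 = 8⁻¹ := by
      rw [show (8 : Om) = 2 ^ 3 by norm_num, map_pow, v2, inv_pow]; norm_num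
    have hc : (8⁻¹ : ℝ≥0) < 1 := by norm_num
    have d : ∀ x : Omˣ, ∃ y : r, x ∈ TSQ1.VV w H _ hc → w.v ((x - 1) / 8 - y) ≤ 2⁻¹ := fun x => by
      by_cases hx : x ∈ TSQ1.VV w H _ hc
      · obtain ⟨y, hy, e⟩ := hr' ((x - 1) / 8) ((Fix.sub hx.1 fix_one).div (fix_ofNat 8)) (by
          rw [map_div₀, v8]; exact div_le_one_of_le₀ hx.2 zero_le)
        exact ⟨⟨y, hy⟩, fun _ => by simpa [h] using e⟩
      · obtain ⟨y, hy, -⟩ := hr' 0 fix_zero (by simp)
        exact ⟨⟨y, hy⟩, fun h => absurd h hx⟩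
    choose ψ hψ using d
    have := TSQ1.main (π := Units.mk0 π hp.2.1) hp.1 TSQ1.VV_le hm (fi _ hc (by norm_num)) ψ
      fun a ha b hb e => by
        have h1 : w.v a = 1 := by
          simpa using w.v.map_one_add_of_lt (ha.2.trans_lt hc)
        have : w.v ((a⁻¹ * b : Omˣ) - 1) ≤ 8⁻¹ * 2⁻¹ := by
          rw [show ((a⁻¹ * b : Omˣ) : Om) - 1 =
            (a : Om)⁻¹ * (8 * (((b - 1) / 8 - ψ b) - ((a - 1) / 8 - ψ a))) by
              rw [e, Units.val_mul, Units.val_inv_eq_inv_val]; field_simp; ring,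
            map_mul, map_mul, map_inv₀, h1, v8, inv_one, one_mul]
          exact mul_le_mul_right (w.v.map_sub_le (hψ b hb) (hψ a ha)) _
        refine sq _ hc _ ((FU H).mul_mem ((FU H).inv_mem ha.1) hb.1) (this.trans_lt ?_) (v2 ▸ this)
        rw [h4, v2]
        exact mul_lt_mul_of_pos_right (by norm_num) (by norm_num)
    refine ⟨this.1, this.2.trans (Nat.mul_le_mul_left _ ?_)⟩
    rw [Fintype.card_coe, ← h]
    exact hr
  · have v2 := Pl.v_two h
    exact TSQ1.main (ι := Unit) (π := Units.mk0 π hp.2.1) hp.1 TSQ1.VV_le hm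
      (fi _ hp.2.2.1 (pos_iff_ne_zero.2 ((map_ne_zero w.v).2 hp.2.1))) (fun _ => ())
      fun a ha b hb _ => by
        have hab := (TSQ1.VV w H _ hp.2.2.1).mul_mem ((TSQ1.VV w H _ hp.2.2.1).inv_mem ha) hb
        exact sq _ _ _ hab.1 (by rw [h4, v2, mul_one]; exact hab.2.trans_lt hp.2.2.1)
          (by rw [v2, mul_one]; exact hab.2)

end Pool.Agent.P.MP_8b7eba_nt.R2
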