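import Pool.Agent.P.MP_8b7eba_nt.R2.IfA
import Pool.Agent.P.MP_8b7eba_nt.R2.Nrm

/-! Proof of SQ2. -/

namespace Pool.Agent.P.MP_8b7eba_nt.R2

open scoped NNReal ComplexConjugate

namespace TSQ2

variable {w : Pl} {H : Subgroup GQ} {β x : Om} {g : GQ}

theorem pm (h : g (β ^ 2) = β ^ 2) : g β = β ∨ g β = -β :=
  sq_eq_sq_iff_eq_or_eq_neg.1 ((map_pow g β 2).symm.trans h)

theorem unit (hp : w.p ≠ 2) (hg : g ∈ w.I) (h1 : w.v (β ^ 2) = 1) (h : g (β ^ 2) = β ^ 2) :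
    g β = β := by
  rw [map_pow, pow_eq_one_iff_of_nonneg zero_le two_ne_zero] at h1
  refine (pm h).resolve_right fun e => (hg.2 β h1.le).ne ?_
  rw [e, ← neg_add', Valuation.map_neg, ← two_mul, map_mul, h1, Pl.v_two hp, one_mul]

theorem v_one {m : ℤ} (h : w.v m = 1) (e : (m : Om) = x ^ 2) : w.v x = 1 := by
  rwa [e, map_pow, pow_eq_one_iff_of_nonneg zero_le two_ne_zero] at h

theorem approx (hRES : RES) {m : ℤ} (h : w.v m = 1) (hm : Sq w.D m) (n : ℕ) :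
    ∃ a : ℤ, (w.p : ℤ) ^ n ∣ m - a ^ 2 := by
  obtain ⟨y, hy, e⟩ := hm
  obtain ⟨a, ha⟩ := (hRES w w.D w.loc_D).2.2.2.2.2 y hy (v_one h e).le n
  refine ⟨a, Pl.v_int_le_iff.1 (le_trans ?_ ha)⟩
  rw [Int.cast_sub, e, Int.cast_pow, Int.cast_natCast]
  exact Pl.v_pow_sub (v_one h e).le (w.v_nat_le a) 2

theorem not_sq (hRES : RES) {m : ℤ} (h : w.v m = 1) : ¬ Sq w.D (w.p * m) := fun ⟨y, hy, e⟩ =>
  (hRES w w.D w.loc_D).2.2.2.1.not_ev ⟨y, hy, by rw [← map_pow, ← e, map_mul, h, mul_one]⟩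

theorem sq_of (hHENS : HENS) (hp : w.p = 2) (hx : Fix w.D x) {m : ℤ}
    (h : w.v (x - m) ≤ ((w.p : ℝ≥0) ^ 3)⁻¹) (hm : m % 8 = 1) : Sq w.D x := by
  have h1 : w.v (m - 1 : ℤ) ≤ ((w.p : ℝ≥0) ^ 3)⁻¹ := Pl.v_int_le_iff.2 (by rw [hp]; omega)
  obtain ⟨y, hy, e, -⟩ := (hHENS w w.D le_rfl).1 x hx (by
    rw [← sub_add_sub_cancel _ (m : Om), show (4 : Om) = 2 ^ 2 by norm_num, map_pow, Pl.v_two' hp]
    refine (w.v.map_add_le h (by exact_mod_cast h1)).trans_lt ?_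
    rw [hp, ← NNReal.coe_lt_coe]
    norm_num)
  exact ⟨y, hy, e⟩

end TSQ2

open TSQ2 in
theorem t_SQ2 (hPL : PL) (hFROB : FROB) (hRES : RES) (hHENS : HENS) : SQ2 := by
  have _ := hPL
  refine fun w => ⟨fun H hH hp x y hx hy vx vy nx ny => ?_, fun H hH hp x hx ⟨y, hy, e⟩ => ?_,
    fun H φ β hH h1 h2 h3 h4 g hg => ?_, fun hp x hx x0 => ?_, fun hp m hm => ?_, fun hp m hm => ?_⟩
  · obtain ⟨f, φ, -, h1, -, -, -, h2⟩ := hFROB w H hH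
    have key : ∀ β : Om, (∀ g ∈ w.I ⊓ H, g β = β) → φ β = β → Fix H β := fun β h3 h4 g hg => by
      obtain ⟨N, hN, h5⟩ := exists_ON_le (isOpen_stab β)
      obtain ⟨m, i, hi, n, hn, rfl⟩ := h2 N hN g hg
      rw [AlgEquiv.mul_apply, AlgEquiv.mul_apply, show n β = β from h5 hn.1, h3 i hi]
      exact (MulAction.stabilizer GQ β).pow_mem h4 m
    obtain ⟨β, rfl⟩ := exists_root x two_ne_zero
    obtain ⟨γ, rfl⟩ := exists_root y two_ne_zero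
    have b1 : ∀ g ∈ w.I ⊓ H, g β = β := fun g hg => unit hp hg.1 vx (hx g hg.2)
    have c1 : ∀ g ∈ w.I ⊓ H, g γ = γ := fun g hg => unit hp hg.1 vy (hy g hg.2)
    refine ⟨β * γ, key _ (fun g hg => by rw [map_mul, b1 g hg, c1 g hg]) ?_, (mul_pow _ _ _).symm⟩
    rw [map_mul, (pm (hx φ h1)).resolve_left fun e => nx ⟨β, key β b1 e, rfl⟩,
      (pm (hy φ h1)).resolve_left fun e => ny ⟨γ, key γ c1 e, rfl⟩, neg_mul_neg]
  · by_cases h0 : y = 0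
    · exact ⟨0, fix_zero, by simpa [h0] using e⟩
    obtain ⟨β, hβ⟩ := exists_root (x / y ^ 2) two_ne_zero
    refine ⟨β * y, Fix.mul (fun g hg => unit hp (hH hg) ?_ ?_) hy, ?_⟩
    · rw [hβ, map_div₀, map_pow, e, div_self (pow_ne_zero 2 (w.v.ne_zero_iff.2 h0))]
    · rw [hβ]; exact hx.div (hy.pow 2) g hg
    · rw [mul_pow, hβ, div_mul_cancel₀ _ (pow_ne_zero 2 h0)]
  · obtain ⟨U, hU, rfl⟩ := hH
    obtain ⟨f, ψ, -, -, h5, h6, -, h7⟩ := hFROB w w.D w.loc_D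
    obtain rfl := h6 rfl
    obtain ⟨N, hN, h8⟩ := exists_ON_le (U := U ⊓ MulAction.stabilizer GQ β)
      (hU.inter (isOpen_stab β))
    obtain ⟨m, i, hi, n, hn, e⟩ := h7 N hN g hg.1
    have e' : (φ ^ m)⁻¹ * ψ ^ m * i = (φ ^ m)⁻¹ * g * n⁻¹ := by rw [e]; group
    have h9 := h3 ((φ ^ m)⁻¹ * g * n⁻¹) ⟨e' ▸ w.I.mul_mem ((h2.pow m).inv_mul (h5.pow m)) hi.1,
      (w.D ⊓ U).mul_mem ((w.D ⊓ U).mul_mem ((w.D ⊓ U).inv_mem (pow_mem h1 m)) hg)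
        ((w.D ⊓ U).inv_mem ⟨hn.2, (h8 hn.1).1⟩)⟩
    rw [show g = φ ^ m * ((φ ^ m)⁻¹ * g * n⁻¹) * n by group, AlgEquiv.mul_apply,
      AlgEquiv.mul_apply, show n β = β from (h8 hn.1).2, h9]
    exact (MulAction.stabilizer GQ β).pow_mem h4 m
  · obtain ⟨-, -, -, hu, -, hr⟩ := hRES w w.D w.loc_D
    obtain ⟨k, hk⟩ := hu.2.2.2 x hx x0
    have h1 := hx.div (hu.1.zpow k)
    have h2 : w.v (x / w.p ^ k) = 1 := by
      rw [map_div₀, map_zpow₀, hk, div_self (zpow_ne_zero _ (w.v.ne_zero_iff.2 hu.2.1))]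
    obtain ⟨m, hm⟩ := hr _ h1 h2.le 3
    have h3 : Odd (m : ℤ) := by
      have h4 : w.v (m : ℤ) = 1 := by
        rw [Int.cast_natCast, ← sub_sub_cancel (x / w.p ^ k) m, w.v.map_sub_eq_of_lt_left, h2]
        exact h2 ▸ hm.trans_lt (inv_lt_one_of_one_lt₀
          (one_lt_pow₀ (Nat.one_lt_cast.2 w.prime.one_lt) three_ne_zero))
      rwa [Pl.v_int_eq_one, hp, Nat.cast_two, ← even_iff_two_dvd, Int.not_even_iff_odd] at h4
    obtain ⟨a, c, h4⟩ : ∃ a c : ℕ, (m * ((-1) ^ a * 5 ^ c) : ℤ) % 8 = 1 := by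
      obtain ⟨j, hj⟩ := h3
      have : (m : ℤ) % 8 = 1 ∨ (m : ℤ) % 8 = 3 ∨ (m : ℤ) % 8 = 5 ∨ (m : ℤ) % 8 = 7 := by omega
      rcases this with h | h | h | h
      exacts [⟨0, 0, by omega⟩, ⟨1, 1, by omega⟩, ⟨0, 1, by omega⟩, ⟨1, 0, by omega⟩]
    have h5 := sq_of hHENS hp (h1.mul (fix_int ((-1) ^ a * 5 ^ c))) (by
      rw [Int.cast_mul (m : ℤ), ← sub_mul, map_mul, Int.cast_natCast]
      exact (mul_le_of_le_one_right zero_le (w.v_int_le _)).trans hm) h4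
    obtain ⟨j, b, h6⟩ : ∃ (j : ℤ) (b : ℕ), k + b = j * 2 := by
      rcases Int.even_or_odd' k with ⟨j, h | h⟩
      exacts [⟨j, 0, by omega⟩, ⟨j + 1, 1, by omega⟩]
    refine ⟨a, b, c, ?_⟩
    have h7 : x * (-1) ^ a * 2 ^ b * 5 ^ c =
        x / w.p ^ k * ((-1) ^ a * 5 ^ c : ℤ) * ((2 : Om) ^ j) ^ 2 := by
      rw [← zpow_ofNat, ← zpow_mul, ← h6, zpow_add₀ two_ne_zero, hp]
      push_cast
      field_simp
      simp
    exact h7 ▸ h5.mul ⟨_, (fix_ofNat 2).zpow j, rfl⟩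
  · have h1 : w.v m = 1 := by
      rwa [Pl.v_int_eq_one, hp, Nat.cast_two, ← even_iff_two_dvd, Int.not_even_iff_odd]
    refine ⟨⟨fun h => ?_, sq_of hHENS hp (fix_int m) (by simp)⟩, by simpa [hp] using not_sq hRES h1⟩
    obtain ⟨a, ha⟩ := approx hRES h1 h 3
    rw [hp] at ha
    rcases Int.even_or_odd a with h2 | h2
    · obtain ⟨j, hj⟩ := h2.pow_of_ne_zero two_ne_zero
      obtain ⟨i, hi⟩ := hm
      omega
    · have := Int.eight_dvd_sq_sub_one_of_odd h2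
      omega
  · have h1 := Pl.v_int_eq_one.2 hm
    have := Fact.mk w.prime
    refine ⟨?_, not_sq hRES h1⟩
    rw [← jacobiSym.legendreSym.to_jacobiSym,
      legendreSym.eq_one_iff _ (mt (ZMod.intCast_zmod_eq_zero_iff_dvd _ _).1 hm)]
    refine ⟨fun h => ?_, fun ⟨r, hr⟩ => ?_⟩
    · obtain ⟨a, ha⟩ := approx hRES h1 h 1
      rw [pow_one, ← ZMod.intCast_zmod_eq_zero_iff_dvd, Int.cast_sub, sub_eq_zero] at ha
      exact ⟨a, by rw [ha, Int.cast_pow, sq]⟩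
    · obtain ⟨a, rfl⟩ := ZMod.intCast_surjective r
      have h2 : (w.p : ℤ) ∣ a ^ 2 - m :=
        (ZMod.intCast_zmod_eq_zero_iff_dvd _ _).1 (by rw [Int.cast_sub, hr, Int.cast_pow, sq, sub_self])
      have h3 : w.v a = 1 := Pl.v_int_eq_one.2 fun h =>
        hm (by simpa using (dvd_pow h two_ne_zero).sub h2)
      obtain ⟨y, hy, e, -⟩ := (hHENS w w.D le_rfl).2 1 0 (-m) a fix_one fix_zero (fix_int m).neg
        (fix_int a) (by simp) h3.le (by simp [h3, Pl.v_two hp]) (by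
          have := (w.v_int_le (a ^ 2 - m)).lt_of_ne fun h => Pl.v_int_eq_one.1 h h2
          simpa [sub_eq_add_neg] using this)
      exact ⟨y, hy, by linear_combination -e⟩

end Pool.Agent.P.MP_8b7eba_nt.R2
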