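import Pool.Agent.P.MP_8b7eba_nt.R2.IfA
import Pool.Agent.P.MP_8b7eba_nt.R2.Nrm

/-! Proof of SUN. -/

namespace Pool.Agent.P.MP_8b7eba_nt.R2

open scoped NNReal ComplexConjugate NumberField

namespace TSUN

/-- the index of `n A` in a finitely generated abelian group -/
theorem idx (A : Type) [AddCommGroup A] [Module.Finite ℤ A] {n : ℕ} (hn : n ≠ 0) :
    (nsmulAddMonoidHom (α := A) n).range.index =
      n ^ Module.finrank ℤ A * Nat.card (nsmulAddMonoidHom (α := A) n).ker := by
  let T := Submodule.torsion ℤ A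
  have : Finite T := Module.finite_of_fg_torsion _ (Submodule.torsion_isTorsion)
  have h1 : ((nsmulAddMonoidHom (α := A) n).range ⊔ T.toAddSubgroup).index =
      n ^ Module.finrank ℤ A := by
    have h2 := AddSubgroup.index_range_nsmul (A ⧸ T) n
    have h3 := AddSubgroup.index_map (nsmulAddMonoidHom (α := A) n).range T.mkQ.toAddMonoidHom
    have h4 : T.mkQ.toAddMonoidHom.ker = T.toAddSubgroup := by
      ext x; exact Submodule.Quotient.mk_eq_zero T
    have h5 : (nsmulAddMonoidHom (α := A) n).range.map T.mkQ.toAddMonoidHom =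
        (nsmulAddMonoidHom (α := A ⧸ T) n).range := by
      ext x
      constructor
      · rintro ⟨_, ⟨y, rfl⟩, rfl⟩
        exact ⟨T.mkQ y, (map_nsmul T.mkQ n y).symm⟩
      · rintro ⟨y, rfl⟩
        obtain ⟨y, rfl⟩ := T.mkQ_surjective y
        exact ⟨_, ⟨y, rfl⟩, map_nsmul T.mkQ n y⟩
    rw [h4, h5, h2, T.mkQ.toAddMonoidHom.range_eq_top_of_surjective T.mkQ_surjective,
      AddSubgroup.index_top, mul_one] at h3
    rw [← h3, finrank_quotient_eq_of_le_torsion le_rfl]
  have tor : ∀ y : A, n • y ∈ T → y ∈ T := by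
    rintro y ⟨a, ha⟩
    refine ⟨a * ⟨n, mem_nonZeroDivisors_of_ne_zero (by exact_mod_cast hn)⟩, ?_⟩
    rw [mul_smul]
    simpa [Submonoid.smul_def] using ha
  have h6 : (nsmulAddMonoidHom (α := A) n).range.addSubgroupOf T.toAddSubgroup =
      (nsmulAddMonoidHom (α := T.toAddSubgroup) n).range := by
    ext x
    constructor
    · rintro ⟨y, hy⟩
      have hy' : n • y = x := hy
      exact ⟨⟨y, tor y (hy' ▸ x.2)⟩, Subtype.ext hy⟩
    · rintro ⟨y, rfl⟩
      exact ⟨y, rfl⟩
  have : Finite T.toAddSubgroup := this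
  rw [← AddSubgroup.relIndex_mul_index (le_sup_left (b := T.toAddSubgroup)), h1,
    AddSubgroup.relIndex_sup_left, AddSubgroup.relIndex, h6, AddSubgroup.index_range, mul_comm]
  congr 1
  refine Nat.card_congr ⟨fun x => ⟨x.1.1, congrArg Subtype.val x.2⟩,
    fun x => ⟨⟨x.1, tor x.1 ((show n • x.1 = 0 from x.2) ▸ T.zero_mem)⟩, Subtype.ext x.2⟩,
    fun _ => rfl, fun _ => rfl⟩

theorem sq_idx (A : Subgroup Omˣ) [Module.Finite ℤ (Additive A)] (h : -1 ∈ A) :
    sqI A = 2 ^ (Module.finrank ℤ (Additive A) + 1) := by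
  have h1 := idx (Additive A) two_ne_zero
  have h2 : Nat.card (nsmulAddMonoidHom (α := Additive A) 2).ker = 2 := by
    rw [Nat.card_eq_two_iff]
    refine ⟨0, ⟨Additive.ofMul ⟨-1, h⟩, Subtype.ext (neg_one_sq (R := Omˣ))⟩, fun e => ?_, ?_⟩
    · have e1 : ((1 : Omˣ) : Om) = ((-1 : Omˣ) : Om) :=
        congrArg (fun x : (nsmulAddMonoidHom (α := Additive A) 2).ker => ((x.1.toMul : Omˣ) : Om)) e
      norm_num at e1
    · refine Set.eq_univ_of_forall fun x => ?_
      have e1 : (x.1.toMul : Omˣ) ^ 2 = 1 := congrArg Subtype.val x.2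
      have e2 : ((x.1.toMul : Omˣ) : Om) ^ 2 = 1 := by
        rw [← Units.val_pow_eq_pow_val, e1, Units.val_one]
      rcases sq_eq_one_iff.1 e2 with e | e
      · exact Or.inl (Subtype.ext (Subtype.ext (Units.ext e)))
      · exact Or.inr (Subtype.ext (Subtype.ext (Units.ext e)))
  rw [h2, ← pow_succ] at h1
  rw [sqI, Subgroup.relIndex, Subgroup.subgroupOf_map_powMonoidHom_eq_range, ← h1]
  rfl

theorem rank_eq (hTAU : TAU) {U : Subgroup GQ} (hU : IsOpen (U : Set GQ)) (hT : TC U) :
    Module.Finite ℤ (Additive (𝓞 (IntermediateField.fixedField U))ˣ) ∧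
    Module.finrank ℤ (Additive (𝓞 (IntermediateField.fixedField U))ˣ) + 1 = U.index / 2 := by
  have := numberField hU
  have : NumberField.IsTotallyComplex (IntermediateField.fixedField U) := by
    refine ⟨fun v => NumberField.InfinitePlace.isComplex_iff.2 fun h => ?_⟩
    obtain ⟨g, hg⟩ := hTAU.2.2.2.2.1 (NumberField.ComplexEmbedding.lift Om v.embedding)
    refine hT g⁻¹ ?_
    rw [← Basic.fs hU, IntermediateField.mem_fixingSubgroup_iff]
    intro x hx
    have h1 := RingHom.congr_fun (NumberField.ComplexEmbedding.isReal_iff.1 h) ⟨x, hx⟩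
    have h2 := NumberField.ComplexEmbedding.lift_algebraMap_apply Om v.embedding ⟨x, hx⟩
    rw [NumberField.ComplexEmbedding.conjugate_coe_eq, ← h2, hg, ← hTAU.1] at h1
    change g⁻¹ (tau (g x)) = x
    exact (congrArg (g⁻¹ : GQ) (io.injective h1)).trans (BasicP.inv_apply g x)
  refine ⟨inferInstance, ?_⟩
  have h1 := NumberField.IsTotallyComplex.finrank (IntermediateField.fixedField U)
  have h2 := NumberField.InfinitePlace.card_eq_nrRealPlaces_add_nrComplexPlaces
    (IntermediateField.fixedField U)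
  have h3 : 0 < Fintype.card (NumberField.InfinitePlace (IntermediateField.fixedField U)) :=
    Fintype.card_pos
  rw [finrank_fixedField hU] at h1
  rw [NumberField.IsTotallyComplex.nrRealPlaces_eq_zero] at h2
  rw [NumberField.Units.finrank_eq, NumberField.Units.rank]
  omega

end TSUN

open TSUN in
theorem t_SUN (hPL : PL) (hUNIF : UNIF) (hCLS : CLS) (hORB : ORB) (hTAU : TAU) : SUN := by
  classical
  intro U R hU hT hR
  obtain ⟨R', -, sep, out, card⟩ := (hORB U hU).1 R hR
  obtain ⟨h, h0, hc⟩ := (hCLS U hU).1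
  choose π hπ using fun w => hUNIF w U hU
  have un : ∀ w : Pl, w.Unif (w.D ⊓ U) (π w) := fun w => (hπ w).2.1
  choose k hk using fun (x : SU U R) (w : Pl) =>
    (un w).2.2.2 (x : Omˣ) (x.2.1.mono inf_le_right) (Units.ne_zero _)
  have v0 : ∀ w : Pl, w.v (π w) ≠ 0 := fun w => by simpa using (un w).2.1
  let ord : Additive (SU U R) →ₗ[ℤ] (R' → ℤ) := (AddMonoidHom.mk'
    (fun (x : Additive (SU U R)) (w : R') => k x.toMul w) fun x y => funext fun w => (un w).zpow_inj (by
      rw [Pi.add_apply, zpow_add₀ (v0 w), ← hk, ← hk, ← hk, ← map_mul]; rfl)).toIntLinearMap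
  let F := IntermediateField.fixedField U
  let ι : 𝓞 F →+* Om := (algebraMap F Om).comp (algebraMap _ F)
  have ιi : ∀ x, IsIntegral ℤ (ι x) := fun x => x.isIntegral_coe.map (algebraMap F Om).toIntAlgHom
  have ιv : ∀ (w : Pl) (x : (𝓞 F)ˣ), w.v (ι x) = 1 := fun w x => by
    refine eq_one_of_one_le_mul_left (hPL.2.2.2.1 w _ (ιi x)) (hPL.2.2.2.1 w _ (ιi ↑x⁻¹))
      (Eq.ge ?_)
    rw [← map_mul, ← map_mul, Units.mul_inv, map_one, map_one]
  let j : Additive (𝓞 F)ˣ →ₗ[ℤ] Additive (SU U R) := (MonoidHom.toAdditive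
    ((Units.map ι.toMonoidHom).codRestrict (SU U R) fun x =>
      ⟨fix_iff.2 ((x : 𝓞 F) : F).2, fun w _ => ιv w x⟩)).toIntLinearMap
  have jinj : Function.Injective j := fun x y e => by
    have e1 : ι x.toMul = ι y.toMul :=
      congrArg (fun z : Additive (SU U R) => ((z.toMul : Omˣ) : Om)) e
    exact Units.ext (NumberField.RingOfIntegers.ext (Subtype.ext e1))
  have ex : LinearMap.ker ord = LinearMap.range j := by
    ext x
    constructor
    · intro hx
      have h1 : ∀ w : Pl, w.v (x.toMul : Omˣ) = 1 := fun w => by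
        by_cases hw : Out U R w
        · exact x.toMul.2.2 w hw
        · rw [← out, Out] at hw
          push Not at hw
          obtain ⟨u, hu, hw⟩ := hw
          have h2 : k x.toMul (u • w) = 0 := congrFun hx ⟨_, hw⟩
          rw [← Pl.smul_v_apply u, x.toMul.2.1 u hu, hk, h2, zpow_zero]
      have mk : ∀ y : Om, Fix U y → (∀ w : Pl, w.v y = 1) → ∃ z : 𝓞 F, ι z = y := fun y hy hv =>
        ⟨⟨⟨y, fix_iff.1 hy⟩, (isIntegral_algHom_iff (algebraMap F Om).toIntAlgHom
          (algebraMap F Om).injective).1 (hPL.2.2.2.2.1 y fun w => (hv w).le)⟩, rfl⟩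
      obtain ⟨a, ha⟩ := mk _ x.toMul.2.1 h1
      obtain ⟨b, hb⟩ := mk _ x.toMul.2.1.inv fun w => by rw [map_inv₀, h1, inv_one]
      have hab : a * b = 1 := NumberField.RingOfIntegers.ext (Subtype.ext (by
        change ι (a * b) = 1
        rw [map_mul, ha, hb, mul_inv_cancel₀ (Units.ne_zero _)]))
      exact ⟨Additive.ofMul (Units.mkOfMulEqOne a b hab), Subtype.ext (Units.ext ha)⟩
    · rintro ⟨x, rfl⟩
      funext w
      refine (un w).zpow_inj ?_
      change w.1.v (π w) ^ k (j x).toMul w = _ ^ (0 : ℤ)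
      rw [← hk, zpow_zero]
      exact ιv w x.toMul
  have big : ∀ w : R', Pi.single w (h : ℤ) ∈ LinearMap.range ord := fun w => by
    obtain ⟨x, x1, x2, x3⟩ := hc w (π w) (un w)
    have x0 : x ≠ 0 := fun e => pow_ne_zero h (v0 w) (by rw [← x2, e, map_zero])
    refine ⟨Additive.ofMul ⟨Units.mk0 x x0, x1, fun w' hw' => x3 w' (((out w').2 hw').mono
      (Set.singleton_subset_iff.2 w.2))⟩, funext fun w' => (un w').zpow_inj ?_⟩
    change w'.1.v (π w') ^ k _ w' = _
    rw [← hk]
    change w'.1.v x = _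
    by_cases e : w' = w
    · rw [e, Pi.single_eq_same, x2, zpow_natCast]
    · rw [Pi.single_eq_of_ne e, zpow_zero]
      refine x3 w' fun u hu hw => e (Subtype.ext ?_)
      have hw' : u • w'.1 = w := hw
      rw [← hw', sep w' w'.2 u hu (hw' ▸ w.2)]
  obtain ⟨fin, rk⟩ := rank_eq hTAU hU hT
  have fin' : Module.Finite ℤ (Additive (SU U R)) := by
    refine ⟨(⊤ : Submodule ℤ _).fg_of_fg_map_of_fg_inf_ker ord (IsNoetherian.noetherian _) ?_⟩
    rw [top_inf_eq, ex, ← Submodule.map_top]
    exact fin.fg_top.map j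
  have r1 : Module.finrank ℤ (LinearMap.range ord) = R'.card := by
    refine le_antisymm ((Submodule.finrank_le _).trans (by simp)) ?_
    have h1 := (DistribSMul.toLinearMap ℤ (R' → ℤ) h).finrank_range_of_inj
      (AddSubgroup.distribSMulToLinearMap_injective_of_isTorsionFree h0.ne')
    rw [Module.finrank_fintype_fun_eq_card, Fintype.card_coe] at h1
    rw [← h1]
    refine Submodule.finrank_mono ?_
    rintro _ ⟨y, rfl⟩
    have : DistribSMul.toLinearMap ℤ (R' → ℤ) h y = ∑ w, y w • Pi.single w (h : ℤ) := by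
      funext w; simp [Finset.sum_apply, Pi.single_apply, mul_comm]
    rw [this]
    exact Submodule.sum_mem _ fun w _ => Submodule.smul_mem _ _ (big w)
  have r2 := (LinearMap.ker ord).finrank_quotient_add_finrank
  rw [ord.quotKerEquivRange.finrank_eq, r1, ex, LinearMap.finrank_range_of_inj jinj, card] at r2
  have r3 : Module.finrank ℤ (Additive (SU U R)) + 1 = U.index / 2 + nOrb U R := by
    rw [← r2, ← rk]; ring
  refine ⟨fin', r3, ?_⟩
  rw [← r3]
  exact sq_idx _ ⟨fun σ _ => by simp, fun w _ => by simp⟩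

end Pool.Agent.P.MP_8b7eba_nt.R2
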