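import Pool.Agent.P.MP_8b7eba_nt.R2.IfA
import Pool.Agent.P.MP_8b7eba_nt.R2.Nrm

/-! Proof of SYL, GAS. -/

namespace Pool.Agent.P.MP_8b7eba_nt.R2

open scoped NNReal ComplexConjugate

theorem t_SYL : SYL := by
  intro H N hN
  have := hN.1
  have : (N.subgroupOf H).FiniteIndex := ⟨relIndex_ne_zero hN.2 H⟩
  have s := QuotientGroup.mk'_surjective (N.subgroupOf H)
  have key : ∀ (n : ℕ) (K : Subgroup (H ⧸ N.subgroupOf H)), Nat.card K = 2 ^ n →
      Ch2 ((K.comap (QuotientGroup.mk' _)).map H.subtype) (N ⊓ H) := fun n => by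
    induction n with
    | zero =>
      intro K h
      rw [Subgroup.card_eq_one.1 h, MonoidHom.comap_bot, QuotientGroup.ker_mk',
        Subgroup.subgroupOf_map_subtype]
      exact .refl _
    | succ n ih =>
      intro K h
      obtain ⟨L, e⟩ := Sylow.exists_subgroup_card_pow_prime 2 (G := K) (n := n)
        (h ▸ pow_dvd_pow 2 n.le_succ)
      refine .step (Subgroup.map_mono (Subgroup.comap_mono (Subgroup.map_subtype_le L))) ?_
        (ih _ ((Subgroup.card_map_of_injective K.subtype_injective).trans e))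
      rw [Subgroup.relIndex_map_map_of_injective _ _ H.subtype_injective, Subgroup.relIndex_comap,
        Subgroup.map_comap_eq_self_of_surjective s]
      change ((L.map K.subtype).comap K.subtype).index = 2
      rw [Subgroup.comap_map_eq_self_of_injective K.subtype_injective]
      have := L.card_mul_index
      rw [e, h, pow_succ] at this
      exact Nat.eq_of_mul_eq_mul_left (by positivity) this
  obtain ⟨S⟩ : Nonempty (Sylow 2 (H ⧸ N.subgroupOf H)) := inferInstance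
  obtain ⟨n, e⟩ := S.isPGroup'.exists_card_eq
  refine ⟨_, Subgroup.map_subtype_le _, ?_, key n S e⟩
  rw [Subgroup.relIndex, Subgroup.subgroupOf,
    Subgroup.comap_map_eq_self_of_injective H.subtype_injective,
    Subgroup.index_comap_of_surjective _ s, ← Nat.not_even_iff_odd, even_iff_two_dvd]
  exact S.not_dvd_index

namespace TSYL

variable {H U : Subgroup GQ} {f : GQ → GQ → Om}

theorem ext (hf : Co2 H f) {b : GQ → Om} (h0 : ∀ g ∈ H ⊓ U, b g ≠ 0)
    (hb : ∀ g ∈ H ⊓ U, ∀ h ∈ H ⊓ U, f g h * b (g * h) = b g * g (b h)) :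
    ∃ e : GQ → Om, ∀ x ∈ H, e x ≠ 0 ∧ ∀ v ∈ H ⊓ U, e (x * v) * f x v = e x * x (b v) := by
  let t : GQ → GQ := fun x => Classical.epsilon fun y => y ∈ H ∧ y⁻¹ * x ∈ U
  refine ⟨fun x => t x (b ((t x)⁻¹ * x)) / f (t x) ((t x)⁻¹ * x), fun x hx => ?_⟩
  obtain ⟨h1, h2⟩ : t x ∈ H ∧ (t x)⁻¹ * x ∈ U :=
    Classical.epsilon_spec (p := fun y => y ∈ H ∧ y⁻¹ * x ∈ U) ⟨x, hx, by simp⟩
  have h3 : (t x)⁻¹ * x ∈ H ⊓ U := ⟨H.mul_mem (H.inv_mem h1) hx, h2⟩
  have n := hf.ne _ h1 _ h3.1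
  refine ⟨div_ne_zero ((map_ne_zero _).2 (h0 _ h3)) n, fun v hv => ?_⟩
  have e : t (x * v) = t x := by
    simp only [t, ← mul_assoc, U.mul_mem_cancel_right hv.2]
  have e1 := congrArg (t x) (hb _ h3 v hv)
  have e2 := hf.co _ h1 _ h3.1 v hv.1
  have := hf.ne _ h1 _ (H.mul_mem h3.1 hv.1)
  have := (map_ne_zero (t x)).2 (hf.ne _ h3.1 v hv.1)
  rw [map_mul, map_mul, ← AlgEquiv.mul_apply (t x) (_ * x)] at e1
  rw [mul_inv_cancel_left] at e1 e2
  simp only [e, ← mul_assoc]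
  field_simp
  linear_combination (exp := 1) -(t x (b ((t x)⁻¹ * x * v))) * e2 + f (t x) ((t x)⁻¹ * x * v) * e1

theorem pow (hU : IsOpen (U : Set GQ)) (hf : Co2 H f) (ht : Triv (H ⊓ U) f) :
    Triv H (f ^ U.relIndex H) := by
  obtain ⟨b, ⟨N, hN, hs⟩, h0, hb⟩ := ht
  obtain ⟨e, he⟩ := ext hf h0 hb
  have se : Sm H e := by
    obtain ⟨M, hM, h1⟩ := hf.sm
    obtain ⟨L, hL, h2⟩ := exists_ON_le hU
    refine ⟨_, (hN.inf hM).inf hL, fun x hx n hn m => mul_right_cancel₀ (hf.ne x hx n hn) ?_⟩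
    have a := (h1 x hx 1 H.one_mem n hn m.1.2).2
    have c := hs 1 (one_mem _) n ⟨hn, h2 m.2⟩ m.1.1
    have d := (he x hx).2 1 (one_mem _)
    rw [one_mul] at a c
    rw [(he x hx).2 n ⟨hn, h2 m.2⟩, a, c, ← d, mul_one]
  let F : GQ → GQ → Om := fun g x => f g x * e (g * x) / g (e x)
  have n : ∀ g : GQ, ∀ x ∈ H, g (e x) ≠ 0 := fun g x hx => (map_ne_zero g).2 (he x hx).1
  have F1 : ∀ g ∈ H, ∀ x ∈ H, ∀ v ∈ H ⊓ U, F g (x * v) = F g x := fun g hg x hx v hv => by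
    have e1 := (he _ (mul_mem hg hx)).2 v hv
    have e2 := congrArg g ((he x hx).2 v hv)
    have e3 := hf.co g hg x hx v hv.1
    rw [map_mul, map_mul] at e2
    rw [AlgEquiv.mul_apply] at e1
    rw [div_eq_div_iff (n g _ (mul_mem hx hv.1)) (n g x hx), ← mul_assoc g]
    refine mul_right_cancel₀ (hf.ne _ (mul_mem hg hx) v hv.1) ?_
    linear_combination f g (x * v) * g (e x) * e1 - f g (x * v) * e (g * x) * e2 +
      e (g * x) * g (e (x * v)) * e3
  have : Fintype (H ⧸ U.subgroupOf H) := Subgroup.fintypeOfIndexNeZero (relIndex_ne_zero hU H)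
  have sF : ∀ x ∈ H, Sm H fun g => F g x := fun x hx =>
    ((hf.sm.left hx).comp₂ (se.mul2.left hx) (· * ·)).comp₂ (sm_apply (e x)) (· / ·)
  have nF : ∀ g ∈ H, ∀ x ∈ H, F g x ≠ 0 := fun g hg x hx =>
    div_ne_zero (mul_ne_zero (hf.ne g hg x hx) (he _ (mul_mem hg hx)).1) (n g x hx)
  refine ⟨fun g => ∏ q : H ⧸ U.subgroupOf H, F g q.out,
    (Sm.pi (c := fun g (q : H ⧸ U.subgroupOf H) => F g q.out) fun q => sF _ q.out.2).comp
      fun c => ∏ q, c q, fun g hg => Finset.prod_ne_zero_iff.2 fun q _ => nF g hg _ q.out.2,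
    fun g hg k hk => ?_⟩
  have r : ∏ q : H ⧸ U.subgroupOf H, F g (k * q.out) = ∏ q : H ⧸ U.subgroupOf H, F g q.out := by
    refine Fintype.prod_equiv (MulAction.toPerm (⟨k, hk⟩ : H)) _ _ fun q => ?_
    obtain ⟨v, e⟩ := QuotientGroup.mk_out_eq_mul (U.subgroupOf H) (⟨k, hk⟩ * q.out)
    have e' : ((MulAction.toPerm (⟨k, hk⟩ : H) q).out : GQ) = k * q.out * v.1 := by
      rw [MulAction.toPerm_apply, ← MulAction.Quotient.mk_smul_out]
      exact congrArg Subtype.val e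
    rw [e', F1 g hg _ (mul_mem hk q.out.2) _ ⟨v.1.2, v.2⟩]
  simp only [Pi.pow_apply]
  rw [← r, ← Nrm.card, ← Finset.card_univ, ← Finset.prod_const, map_prod,
    ← Finset.prod_mul_distrib, ← Finset.prod_mul_distrib]
  refine Finset.prod_congr rfl fun q _ => ?_
  have := n g _ (mul_mem hk q.out.2)
  have := n (g * k) _ q.out.2
  simp only [F, map_div₀, map_mul, AlgEquiv.mul_apply, mul_assoc g] at this ⊢
  field_simp
  linear_combination (exp := 1) -e (g * (k * q.out)) * hf.co g hg k hk _ q.out.2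

end TSYL

theorem t_GAS : GAS := fun _ _ _ hU ho ⟨hf, k, h⟩ ht =>
  Triv.of_coprime hf (ho.coprime_two_right.pow_right k) (TSYL.pow hU hf ht) h

end Pool.Agent.P.MP_8b7eba_nt.R2
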