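import Pool.Agent.P.MP_8b7eba_nt.R2.IfA
import Pool.Agent.P.MP_8b7eba_nt.R2.Nrm

/-! Proof of TAME, TAME2. -/

namespace Pool.Agent.P.MP_8b7eba_nt.R2

open scoped NNReal ComplexConjugate

namespace TTAME

variable {w : Pl} {H N : Subgroup GQ} {π β : Om}

theorem ndvd (hp : w.p ≠ 2) (k : ℕ) : ¬ w.p ∣ 2 ^ k := fun h =>
  hp ((Nat.prime_dvd_prime_iff_eq w.prime Nat.prime_two).1 (w.prime.dvd_of_dvd_pow h))

/-- the ratio `g β / β` is a root of unity -/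
theorem ratio {g : GQ} {n : ℕ} (h0 : β ≠ 0) (h : g (β ^ n) = β ^ n) :
    ∃ c : Om, c ^ n = 1 ∧ g β = c * β :=
  ⟨g β / β, by rw [div_pow, ← map_pow, h, div_self (pow_ne_zero n h0)],
    (div_mul_cancel₀ _ h0).symm⟩

theorem frob (hp : w.p ≠ 2) {f k : ℕ} {φ : GQ} (h : w.IsFrob f φ) {c : Om} (hc : c ^ 2 ^ k = 1) :
    φ c = c ^ w.p ^ f :=
  Pl.root_eq (ndvd hp k) (by rw [← map_pow, hc, map_one]) (by rw [pow_right_comm, hc, one_pow])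
    (h.2 c (Pl.v_root (pow_ne_zero k two_ne_zero) hc).le)

theorem fix (hp : w.p ≠ 2) {k : ℕ} {c : Om} (hc : c ^ 2 ^ k = 1) : Fix w.I c := fun g hg => by
  simpa using frob hp (Pl.isFrob_zero.2 hg) hc

theorem key (hGAL : GAL) (hp : w.p ≠ 2) (hπ : w.Unif (w.I ⊓ H) π) (hN : ON N) {k r : ℕ}
    (hr : Odd r) (hJ : N.relIndex (w.I ⊓ H) = 2 ^ k * r) (hβ : β ^ 2 ^ k = π) {j : GQ}
    (hj : j ∈ w.I) (h1 : j β = β) (h2 : j ^ 2 ∈ N) : j ∈ N := by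
  refine (hGAL N (closed_of_open hN.2)).1 j fun y hy => ?_
  by_contra h3
  have h4 : Fix N (j y) := fun n hn => by
    have := congrArg j (hy _ (hN.1.conj_mem' n hn j))
    rwa [mul_assoc, AlgEquiv.mul_apply, BasicP.apply_inv] at this
  have h5 : j (y - j y) = -(y - j y) := by
    rw [map_sub, neg_sub, ← AlgEquiv.mul_apply j j, ← sq, hy _ h2]
  have h6 : y - j y ≠ 0 := sub_ne_zero.2 (Ne.symm h3)
  have h7 := hy.sub h4
  generalize y - j y = x at h5 h6 h7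
  have hi := relIndex_ne_zero hN.2 (w.I ⊓ H)
  obtain ⟨a, ha⟩ := hπ.2.2.2 _ (h7.nrm hi) (mt (nrm_eq_zero hi).1 h6)
  rw [v_nrm hi (inf_le_left.trans w.I_le_D), hJ, ← hβ, map_pow, mul_comm, pow_mul,
    ← zpow_natCast (w.v β), ← zpow_mul, mul_comm, zpow_mul, zpow_natCast] at ha
  replace ha := (pow_left_inj₀ zero_le zero_le (pow_ne_zero k two_ne_zero)).1 ha
  have h0 : β ≠ 0 := fun e => hπ.2.1 (by rw [← hβ, e, zero_pow (pow_ne_zero k two_ne_zero)])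
  have h8 : w.v (x ^ r / β ^ a) = 1 := by
    rw [map_div₀, map_pow, map_zpow₀, ha, div_self (zpow_ne_zero a (w.v.ne_zero_iff.2 h0))]
  have h9 := hj.2 _ h8.le
  rw [map_div₀, map_pow, map_zpow₀, h1, h5, hr.neg_pow, neg_div, ← neg_add', Valuation.map_neg,
    ← two_mul, map_mul, h8, Pl.v_two hp, one_mul] at h9
  exact h9.ne rfl

theorem three (hGAL : GAL) (hp : w.p ≠ 2) (hπ : w.Unif (w.I ⊓ H) π) (hN : ON N) :
    ∃ k : ℕ, ∀ g ∈ w.I, ∀ β : Om, β ^ 2 ^ k = π → g β = β → ∃ r : ℕ, Odd r ∧ g ^ r ∈ N := by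
  obtain ⟨k, r, hr, hJ⟩ := Nat.exists_eq_two_pow_mul_odd (relIndex_ne_zero hN.2 (w.I ⊓ H))
  refine ⟨k, fun g hg β hβ h1 => ?_⟩
  obtain ⟨m, h0, hm⟩ := hN.exists_pow g
  obtain ⟨s, r', hr', rfl⟩ := Nat.exists_eq_two_pow_mul_odd h0.ne'
  refine ⟨r', hr', ?_⟩
  clear h0
  induction s with
  | zero => simpa using hm
  | succ s ih =>
    refine ih (key hGAL hp hπ hN hr hJ hβ (w.I.pow_mem hg _)
      ((MulAction.stabilizer GQ β).pow_mem h1 _) ?_)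
    rwa [← pow_mul, mul_right_comm, ← pow_succ]

theorem cancel {a b : GQ} {c : Om} (hc : Fix w.I c) (h0 : c ≠ 0) (ha : a ∈ w.I) (hb : b ∈ w.I)
    (h1 : a β = c * β) (h2 : b β = c * β) : (a * b⁻¹) β = β := by
  have := congrArg (a * b⁻¹) h2
  rw [map_mul, hc _ (w.I.mul_mem ha (w.I.inv_mem hb)), AlgEquiv.mul_apply, BasicP.inv_apply,
    h1] at this
  exact (mul_left_cancel₀ h0 this).symm

theorem pow {t : GQ} {c : Om} (hc : t c = c) (h : t β = c * β) (m : ℕ) : (t ^ m) β = c ^ m * β := by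
  induction m with
  | zero => simp
  | succ m ih => rw [pow_succ', AlgEquiv.mul_apply, ih, map_mul, map_pow, hc, h]; ring

end TTAME

theorem t_TAME (hGAL : GAL) : TAME := by
  intro w H π hp _ hπ
  refine ⟨?_, fun g hg k u hu h => ?_, fun N hN => ?_⟩
  · obtain ⟨β₀, rfl⟩ := exists_root π two_ne_zero
    obtain ⟨t, ht, h⟩ : ∃ t ∈ w.I ⊓ H, t β₀ ≠ β₀ := by
      by_contra h
      push Not at h
      exact hπ.not_ev ⟨β₀, h, map_pow _ _ _⟩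
    have h1 := (sq_eq_sq_iff_eq_or_eq_neg.1
      ((map_pow t β₀ 2).symm.trans (hπ.1 t ht))).resolve_left h
    refine ⟨t, ht, fun β hβ => ?_⟩
    rcases sq_eq_sq_iff_eq_or_eq_neg.1 hβ with rfl | rfl
    · exact h1
    · rw [map_neg, h1]
  · have h0 : u ≠ 0 := fun e => by simp [e] at hu
    obtain ⟨c, h1, h2⟩ := TTAME.ratio h0 (h g (Subgroup.mem_zpowers g))
    have h3 := hg.2 u hu.le
    rw [h2, ← sub_one_mul, map_mul, hu, mul_one] at h3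
    rw [h2, Pl.root_eq (TTAME.ndvd hp k) h1 (one_pow _) h3, one_mul]
  · obtain ⟨k, hk⟩ := TTAME.three hGAL hp hπ hN
    exact ⟨k, fun g hg => hk g hg.1⟩

theorem t_TAME2 (hGAL : GAL) : TAME2 := by
  intro w H π t hp _ hπ ht h1 N hN
  obtain ⟨k, hk⟩ := TTAME.three hGAL hp hπ hN
  obtain ⟨β, hβ⟩ := exists_root π (pow_ne_zero (k + 1) two_ne_zero)
  have h0 : β ≠ 0 := fun e => hπ.2.1 (by rw [← hβ, e, zero_pow (pow_ne_zero _ two_ne_zero)])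
  obtain ⟨ζ, z1, z2⟩ := TTAME.ratio (g := t) (n := 2 ^ (k + 1)) h0 (hβ ▸ hπ.1 t ht)
  have hz := TTAME.fix hp z1
  have main : ∀ g ∈ w.I, ∀ m : ℕ, g β = ζ ^ m * β → ∃ r : ℕ, Odd r ∧ (g * (t ^ m)⁻¹) ^ r ∈ N := by
    intro g hg m h
    have h2 := w.I.pow_mem ht.1 m
    refine hk _ (w.I.mul_mem hg (w.I.inv_mem h2)) (β ^ 2) (by rw [← pow_mul, ← pow_succ', hβ]) ?_
    rw [map_pow, TTAME.cancel (hz.pow m) (pow_ne_zero m fun e => by simp [e] at z1) hg h2 h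
      (TTAME.pow (hz t ht.1) z2 m)]
  refine ⟨fun g hg => ?_, fun f φ hφ h2 _ => main _ (Pl.conj_mem_I hφ.1 ht.1) _ ?_⟩
  · have h2 : ¬ ζ ^ 2 ^ k = 1 := fun e => by
      have := h1 (β ^ 2 ^ k) (by rw [← pow_mul, ← pow_succ, hβ])
      rw [map_pow, z2, mul_pow, e, one_mul, self_eq_neg] at this
      exact pow_ne_zero _ h0 this
    have h3 := IsPrimitiveRoot.orderOf ζ
    rw [orderOf_eq_prime_pow h2 z1] at h3
    obtain ⟨c, c1, c2⟩ := TTAME.ratio (g := g) (n := 2 ^ (k + 1)) h0 (hβ ▸ hπ.1 g hg)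
    obtain ⟨m, -, rfl⟩ := h3.eq_pow_of_pow_eq_one c1
    exact ⟨m, main g hg.1 m c2⟩
  · obtain ⟨c, c1, c2⟩ := TTAME.ratio (g := φ⁻¹) (n := 2 ^ (k + 1)) h0 (by
      rw [hβ]; nth_rw 1 [← h2]; exact BasicP.inv_apply φ π)
    rw [AlgEquiv.mul_apply, AlgEquiv.mul_apply, c2, map_mul, TTAME.fix hp c1 t ht.1, z2,
      mul_left_comm, ← c2, map_mul, BasicP.apply_inv, TTAME.frob hp hφ z1]

end Pool.Agent.P.MP_8b7eba_nt.R2
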