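import Pool.Agent.P.MP_8b7eba_nt.R2.THASSE

/-! Proof of TEX. -/

namespace Pool.Agent.P.MP_8b7eba_nt.R2

open scoped NNReal ComplexConjugate

namespace TTEX

open THASSE

variable {U : Subgroup GQ}

theorem sq_inv {H : Subgroup GQ} {x : Om} (h : Sq H x) : Sq H x⁻¹ := by
  obtain ⟨y, hy, rfl⟩ := h
  exact ⟨y⁻¹, hy.inv, by rw [inv_pow]⟩

theorem sq_mul_iff {H : Subgroup GQ} {x y : Om} (h0 : y ≠ 0) (h : Sq H y) :
    Sq H (x * y) ↔ Sq H x :=
  ⟨fun h' => by simpa [h0] using h'.mul (sq_inv h), fun h' => h'.mul h⟩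

theorem pm {H : Subgroup GQ} {β : Om} (h : Fix H (β ^ 2)) {g : GQ} (hg : g ∈ H) :
    g β = β ∨ g β = -β := by
  have := h g hg
  rw [map_pow] at this
  exact sq_eq_sq_iff_eq_or_eq_neg.1 this

/-- a unit that is a square wherever `b` is lies in the group generated by `b` and the squares -/
theorem claim (hGENP : GENP) (hSQ2 : SQ2) (hU : IsOpen (U : Set GQ)) {R : Set Pl} (hR : R.Finite)
    {b u : Omˣ} (hb : b ∈ SU U R) (hu : u ∈ SU U R)
    (h : ∀ w : Pl, w.p ≠ 2 → Out U R w → Sq (w.D ⊓ U) b → Sq (w.D ⊓ U) u) :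
    Sq U u ∨ Sq U (u * b) := by
  obtain ⟨β, hβ⟩ := exists_root (b : Om) two_ne_zero
  obtain ⟨γ, hγ⟩ := exists_root (u : Om) two_ne_zero
  have fβ : Fix U (β ^ 2) := hβ ▸ hb.1
  have fγ : Fix U (γ ^ 2) := hγ ▸ hu.1
  obtain ⟨B, hB⟩ := (hR.image fun w => w.p).bddAbove
  have h1 : U ⊓ MulAction.stabilizer GQ β ≤ MulAction.stabilizer GQ γ := by
    refine hGENP.1 _ _ (B + 2) (hU.inter (isOpen_stab β)) (isOpen_stab γ) fun w φ hw hφ hF => ?_
    have hp : w.p ≠ 2 := by omega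
    have hO : Out U R w := fun g _ hg => by
      have : w.p ≤ B := hB ⟨g • w, hg, rfl⟩
      omega
    have hφ' : φ ∈ w.D ⊓ U := ⟨hF.1, hφ.1⟩
    have f1 : Fix (w.I ⊓ (w.D ⊓ U)) (β ^ 2) := fβ.mono (inf_le_right.trans inf_le_right)
    have h2 : Fix (w.I ⊓ (w.D ⊓ U)) β := (sq_iff f1).1
      ((hSQ2 w).2.1 _ inf_le_left hp _ f1 ⟨1, fix_one, by rw [hβ, hb.2 w hO]; simp⟩)
    have h3 : Fix (w.D ⊓ U) β := (hSQ2 w).2.2.1 _ φ β (w.loc_inf hU) hφ' hF h2 hφ.2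
    have h4 := h w hp hO ⟨β, h3, hβ.symm⟩
    rw [← hγ] at h4
    exact (sq_iff (fγ.mono inf_le_right)).1 h4 φ hφ'
  by_cases h2 : Fix U γ
  · exact Or.inl ⟨γ, h2, hγ.symm⟩
  right
  unfold Fix at h2
  push Not at h2
  obtain ⟨s, hs, hsγ⟩ := h2
  have s1 : s γ = -γ := (pm fγ hs).resolve_left hsγ
  have s2 : s β = -β := (pm fβ hs).resolve_left fun h => hsγ (h1 ⟨hs, h⟩)
  refine ⟨γ * β, fun g hg => ?_, by rw [mul_pow, hβ, hγ]⟩
  rw [map_mul]
  rcases pm fβ hg with h3 | h3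
  · rw [h3, show g γ = γ from h1 ⟨hg, h3⟩]
  · have h4 : (s⁻¹ * g) β = β := by
      show s⁻¹ (g β) = β
      rw [h3, ← s2]
      exact s.symm_apply_apply β
    have h5 : s⁻¹ (g γ) = γ := h1 ⟨U.mul_mem (U.inv_mem hs) hg, h4⟩
    have h6 : g γ = -γ := by
      rw [← s1, ← h5]
      rw [h5]
      exact (s.apply_symm_apply _).symm.trans (congrArg s h5)
    rw [h3, h6, neg_mul_neg]

theorem exists_hom (hSQ2 : SQ2) (hU : IsOpen (U : Set GQ)) {R : Set Pl} {T : Finset Pl}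
    (h : Aux U R T) : ∃ K : Subgroup (SU U R), K.index = 2 ^ T.card ∧
      ∀ u, u ∈ K ↔ ∀ w ∈ T, Sq (w.D ⊓ U) ((u : Omˣ) : Om) := by
  classical
  let χ : SU U R →* (T → ℤˣ) := MonoidHom.mk'
    (fun u w => if Sq (w.1.D ⊓ U) ((u : Omˣ) : Om) then 1 else -1) (fun u v => by
      funext w
      have e : (((u * v : SU U R) : Omˣ) : Om) = ((u : Omˣ) : Om) * ((v : Omˣ) : Om) := rfl
      simp only [Pi.mul_apply, e]
      by_cases h1 : Sq (w.1.D ⊓ U) ((v : Omˣ) : Om)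
      · simp only [sq_mul_iff (Units.ne_zero _) h1, if_pos h1, mul_one]
      · by_cases h2 : Sq (w.1.D ⊓ U) ((u : Omˣ) : Om)
        · rw [mul_comm]
          simp only [sq_mul_iff (Units.ne_zero _) h2, if_pos h2, one_mul]
        · have h3 := h.2.1 w w.2
          rw [if_neg h1, if_neg h2, if_pos ((hSQ2 w).1 _ (w.1.loc_inf hU) h3.1 _ _
            (Fix.mono u.2.1 inf_le_right) (Fix.mono v.2.1 inf_le_right) (u.2.2 w h3.2)
            (v.2.2 w h3.2) h2 h1)]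
          simp)
  have hs : χ.range = ⊤ := by
    rw [MonoidHom.range_eq_top]
    intro c
    obtain ⟨u, hu, h1⟩ := h.2.2 (T.filter fun w => ∀ hw : w ∈ T, c ⟨w, hw⟩ = 1)
      (Finset.filter_subset _ _)
    refine ⟨⟨u, hu⟩, funext fun w => ?_⟩
    show (if Sq (w.1.D ⊓ U) (u : Om) then 1 else -1) = c w
    have h2 : Sq (w.1.D ⊓ U) (u : Om) ↔ c w = 1 := by
      rw [h1 w w.2, Finset.mem_filter]
      exact ⟨fun h => h.2 w.2, fun h => ⟨w.2, fun _ => h⟩⟩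
    rcases Int.units_eq_one_or (c w) with h3 | h3
    · rw [if_pos (h2.2 h3), h3]
    · rw [if_neg fun h4 => by rw [h2.1 h4] at h3; exact absurd h3 (by decide), h3]
  refine ⟨χ.ker, ?_, fun u => ?_⟩
  · rw [Subgroup.index_ker, hs, Subgroup.card_top, Nat.card_fun]
    simp
  · rw [MonoidHom.mem_ker, funext_iff]
    constructor
    · intro h1 w hw
      by_contra h2
      have h3 : (if Sq (w.D ⊓ U) ((u : Omˣ) : Om) then (1 : ℤˣ) else -1) = 1 := h1 ⟨w, hw⟩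
      rw [if_neg h2] at h3
      exact absurd h3 (by decide)
    · intro h1 w
      exact if_pos (h1 w w.2)

theorem aux_insert (hSQ2 : SQ2) (hU : IsOpen (U : Set GQ)) {R : Set Pl} {T : Finset Pl}
    (h : Aux U R T) {w : Pl} (hp : w.p ≠ 2) (hO : Out U R w) {u₀ : Omˣ} (hu₀ : u₀ ∈ SU U R)
    (h1 : ∀ t ∈ T, Sq (t.D ⊓ U) u₀) (h2 : ¬ Sq (w.D ⊓ U) u₀) (hw : w ∉ T) :
    Aux U R (T.cons w hw) := by
  classical
  have hc : ∀ g ∈ U, g • w ∉ T := fun g hg hgw => h2 ((sq_smul hg hu₀.1).1 (h1 _ hgw))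
  refine ⟨?_, ?_, fun T' hT' => ?_⟩
  · intro x hx g hg hgx
    rw [Finset.mem_coe, Finset.mem_cons] at hx hgx
    rcases hx with rfl | hx <;> rcases hgx with hgx | hgx
    · exact hgx
    · exact absurd hgx (hc g hg)
    · exact absurd (show g⁻¹ • w ∈ T by rw [← hgx, inv_smul_smul]; exact hx) (hc _ (U.inv_mem hg))
    · exact h.1 x hx g hg hgx
  · intro x hx
    rcases Finset.mem_cons.1 hx with rfl | hx
    · exact ⟨hp, hO⟩
    · exact h.2.1 x hx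
  · obtain ⟨u, hu, h3⟩ := h.2.2 (T.filter (· ∈ T')) (Finset.filter_subset _ _)
    have h4 : ∀ t ∈ T, Sq (t.D ⊓ U) u ↔ t ∈ T' := fun t ht => by
      rw [h3 t ht, Finset.mem_filter, and_iff_right ht]
    by_cases h5 : Sq (w.D ⊓ U) u ↔ w ∈ T'
    · refine ⟨u, hu, fun t ht => ?_⟩
      rcases Finset.mem_cons.1 ht with rfl | ht
      · exact h5
      · exact h4 t ht
    · refine ⟨u * u₀, Subgroup.mul_mem _ hu hu₀, fun t ht => ?_⟩
      rw [Units.val_mul]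
      rcases Finset.mem_cons.1 ht with rfl | ht
      · by_cases h6 : Sq (t.D ⊓ U) u
        · rw [mul_comm, sq_mul_iff u.ne_zero h6]
          tauto
        · have h7 := (hSQ2 t).1 _ (t.loc_inf hU) hp _ _ (Fix.mono hu.1 inf_le_right)
            (Fix.mono hu₀.1 inf_le_right) (hu.2 t hO) (hu₀.2 t hO) h6 h2
          tauto
      · rw [sq_mul_iff u₀.ne_zero (h1 t ht), h4 t ht]

end TTEX

open THASSE TTEX

theorem t_TEX (hSUN : SUN) (hGENP : GENP) (hSQ2 : SQ2) (hFROB : FROB) : TEX := by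
  intro U R b hU hT hR hb hn
  classical
  have hA := (hSUN U R hU hT hR).2.2
  generalize U.index / 2 + nOrb U R = s at hA
  let Q : Subgroup (SU U R) := ((SU U R).map (powMonoidHom 2)).subgroupOf (SU U R)
  have hQ : Q.index = 2 ^ s := hA
  have hQm : ∀ u : SU U R, u ∈ Q ↔ Sq U ((u : Omˣ) : Om) := fun u =>
    ⟨fun ⟨x, hx, h⟩ => mem_sq.1 ⟨x, hx.1, h⟩, fun h => mem_sq_SU u.2 h⟩
  let P : ℕ → Prop := fun n => ∃ T : Finset Pl, Aux U R T ∧ T.card = n ∧ ∀ w ∈ T, Sq (w.D ⊓ U) b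
  have P0 : P 0 := ⟨∅, ⟨fun w hw => by simp at hw, fun w hw => by simp at hw,
    fun _ _ => ⟨1, Subgroup.one_mem _, fun w hw => by simp at hw⟩⟩, rfl, fun w hw => by simp at hw⟩
  have Pb : ∀ n, P n → n ≤ s := by
    rintro n ⟨T, h, rfl, -⟩
    obtain ⟨K, hK, hm⟩ := exists_hom hSQ2 hU h
    have h1 : Q ≤ K := fun u hu => (hm u).2 fun w _ => ((hQm u).1 hu).mono inf_le_right
    have h2 := Subgroup.index_dvd_of_le h1
    rw [hK, hQ] at h2
    exact (Nat.pow_dvd_pow_iff_le_right one_lt_two).1 h2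
  obtain ⟨T, h, hc, hs⟩ := Nat.findGreatest_spec (P := P) (Nat.zero_le s) P0
  have hmax : ¬ P (T.card + 1) := fun h' => by
    have := Nat.le_findGreatest (Pb _ h') h'
    omega
  refine ⟨T, h, ?_, hs⟩
  obtain ⟨K, hK, hm⟩ := exists_hom hSQ2 hU h
  have h1 : Q ≤ K := fun u hu => (hm u).2 fun w _ => ((hQm u).1 hu).mono inf_le_right
  have h2 : Q.relIndex K = 2 := by
    refine Subgroup.index_eq_two_iff.2 ⟨⟨⟨b, hb⟩, (hm _).2 hs⟩, fun u => ?_⟩
    have h3 := claim hGENP hSQ2 hU hR hb u.1.2 fun w hp hO hw => by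
      by_contra h4
      have h5 : w ∉ T := fun h6 => h4 ((hm _).1 u.2 w h6)
      refine hmax ⟨T.cons w h5, aux_insert hSQ2 hU h hp hO u.1.2 ((hm _).1 u.2) h4 h5,
        Finset.card_cons h5, fun t ht => ?_⟩
      rcases Finset.mem_cons.1 ht with rfl | ht
      · exact hw
      · exact hs t ht
    have e1 : u * ⟨⟨b, hb⟩, (hm _).2 hs⟩ ∈ Q.subgroupOf K ↔ Sq U ((u.1.1 : Om) * b) := hQm _
    have e2 : u ∈ Q.subgroupOf K ↔ Sq U (u.1.1 : Om) := hQm _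
    rw [e1, e2]
    rcases h3 with h3 | h3
    · refine Or.inr ⟨h3, fun h4 => hn ?_⟩
      rwa [mul_comm, sq_mul_iff (Units.ne_zero _) h3] at h4
    · refine Or.inl ⟨h3, fun h4 => hn ?_⟩
      rwa [mul_comm, sq_mul_iff (Units.ne_zero _) h4] at h3
  have h3 := Subgroup.relIndex_mul_index h1
  rw [h2, hK, hQ, ← pow_succ'] at h3
  exact Nat.pow_right_injective le_rfl h3

end Pool.Agent.P.MP_8b7eba_nt.R2
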