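import Pool.Agent.P.MP_8b7eba_nt.R2.IfA
import Pool.Agent.P.MP_8b7eba_nt.R2.Nrm

/-! Proof of UNIF. -/

namespace Pool.Agent.P.MP_8b7eba_nt.R2

open scoped NNReal ComplexConjugate

namespace TUNIF

variable {H U : Subgroup GQ} {w : Pl} {f : ℕ} {φ : GQ} {x : Om}

theorem prim {m : ℕ} (hm : 0 < m) : ∃ ζ : Om, IsPrimitiveRoot ζ m :=
  have : NeZero m := ⟨hm.ne'⟩
  HasEnoughRootsOfUnity.exists_primitiveRoot Om m

theorem pos (w : Pl) (hf : 0 < f) : 0 < w.p ^ f - 1 :=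
  Nat.sub_pos_of_lt (Nat.one_lt_pow hf.ne' w.prime.one_lt)

theorem ndvd (w : Pl) (hf : 0 < f) : ¬ w.p ∣ w.p ^ f - 1 := fun h =>
  w.prime.one_lt.ne' (Nat.dvd_one.1 ((Nat.dvd_sub_iff_right (Nat.one_le_pow _ _ w.prime.pos)
    (dvd_pow_self _ hf.ne')).1 h))

theorem pow_q {c : Om} (hc : c ^ (w.p ^ f - 1) = 1) : c ^ w.p ^ f = c := by
  rw [← Nat.sub_add_cancel (Nat.one_le_pow f _ w.prime.pos), pow_succ, hc, one_mul]

theorem frob_root (h : w.IsFrob f φ) {m : ℕ} (hm : ¬ w.p ∣ m) {c : Om} (hc : c ^ m = 1) :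
    φ c = c ^ w.p ^ f :=
  Pl.root_eq hm (by rw [← map_pow, hc, map_one]) (by rw [pow_right_comm, hc, one_pow])
    (h.2 c (w.v_root (fun e : m = 0 => hm (e ▸ dvd_zero _)) hc).le)

theorem fix_root {m : ℕ} (hm : ¬ w.p ∣ m) {c : Om} (hc : c ^ m = 1) : Fix w.I c :=
  fun _ hg => by simpa using frob_root (Pl.isFrob_zero.2 hg) hm hc

theorem gen (h : ∀ N, ON N → ∀ g ∈ H, ∃ m : ℕ, ∃ i ∈ w.I ⊓ H, ∃ n ∈ N ⊓ H, g = φ ^ m * i * n)
    (h1 : φ x = x) (h2 : Fix (w.I ⊓ H) x) : Fix H x := fun g hg => by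
  obtain ⟨N, hN, e⟩ := exists_ON_le (isOpen_stab x)
  obtain ⟨m, i, hi, n, hn, rfl⟩ := h N hN g hg
  exact mul_mem (mul_mem (pow_mem (show φ ∈ MulAction.stabilizer GQ x from h1) m)
    (show i ∈ MulAction.stabilizer GQ x from h2 i hi)) (e hn.1)

/-- the residue classes are represented by roots of unity -/
theorem resid (h : w.IsFrob f φ) (hf : 0 < f) (h1 : φ x = x) (hx : w.v x ≤ 1) :
    ∃ c ∈ Finset.cons 0 (Polynomial.nthRootsFinset (w.p ^ f - 1) (1 : Om)) (by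
      simp [Polynomial.mem_nthRootsFinset (pos w hf), (pos w hf).ne']), w.v (x - c) < 1 := by
  rcases hx.lt_or_eq with h2 | h2
  · exact ⟨0, by simp, by simpa using h2⟩
  obtain ⟨ζ, hζ⟩ := prim (pos w hf)
  have h3 := h.2 x hx
  rw [h1, ← Nat.sub_add_cancel (Nat.one_le_pow f _ w.prime.pos), pow_succ, Valuation.map_sub_swap,
    ← sub_one_mul, map_mul, h2, mul_one, ← one_pow (M := Om) (w.p ^ f - 1),
    hζ.pow_sub_pow_eq_prod_sub_mul x 1 (pos w hf), map_prod] at h3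
  by_contra! hc
  exact h3.not_ge (Finset.one_le_prod' fun c m => by simpa using hc c (by simp [m]))

theorem resid_I (hF : FROB) (hx : w.v x ≤ 1) : ∃ c, Fix w.I c ∧ w.v (x - c) < 1 := by
  obtain ⟨f, φ, hf, h1, h2, -⟩ := hF w _ (w.loc_inf (isOpen_stab x))
  obtain ⟨c, m, e⟩ := resid h2 hf h1.2 hx
  refine ⟨c, ?_, e⟩
  rcases Finset.mem_cons.1 m with rfl | m
  exacts [fix_zero, fix_root (ndvd w hf) ((Polynomial.mem_nthRootsFinset (pos w hf) _).1 m)]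

/-- unramified extensions do not change the value group -/
theorem unr (hF : FROB) (hH : w.Loc H) (hx : Fix (w.I ⊓ H) x) :
    ∃ y, Fix H y ∧ w.v y = w.v x := by
  by_cases h0 : x = 0
  · exact ⟨0, fix_zero, by rw [h0]⟩
  obtain ⟨f, φ, hf, h1, h2, -, -, h3⟩ := hF w H hH
  obtain ⟨N, hN, e⟩ := exists_ON_le (isOpen_stab x)
  obtain ⟨n, hn, en⟩ := hN.exists_pow φ
  have hp := Nat.mul_pos hf hn
  obtain ⟨ζ, hζ⟩ := prim (pos w hp)
  have r : ∀ k, (ζ ^ k) ^ (w.p ^ (f * n) - 1) = 1 := fun k => by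
    rw [pow_right_comm, hζ.pow_eq_one, one_pow]
  let T : ℕ → Om := fun k => ∑ i ∈ Finset.range n, (φ ^ i) (ζ ^ k * x)
  have t1 : ∀ k, Fix H (T k) := fun k => gen h3 (by
    have := (Finset.sum_range_succ' (fun i => (φ ^ i) (ζ ^ k * x)) n).symm.trans
      (Finset.sum_range_succ _ n)
    rw [map_mul (φ ^ n), frob_root (h2.pow n) (ndvd w hp) (r k), pow_q (r k),
      show (φ ^ n) x = x from e en] at this
    simpa only [T, map_sum, pow_succ', AlgEquiv.mul_apply] using add_right_cancel this)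
    (Fix.sum fun i _ g hg => by
      have m := H.pow_mem h1 i
      rw [← AlgEquiv.mul_apply, show g * φ ^ i = φ ^ i * ((φ ^ i)⁻¹ * g * (φ ^ i)⁻¹⁻¹) by group,
        AlgEquiv.mul_apply, (((fix_root (ndvd w hp) (r k)).mono inf_le_left).mul hx) _
          ⟨Pl.conj_mem_I (inv_mem (hH.le m)) hg.1,
            H.mul_mem (H.mul_mem (H.inv_mem m) hg.2) (H.inv_mem (H.inv_mem m))⟩])
  have v1 : ∀ k, w.v (ζ ^ k) = 1 := fun k => w.v_root (pos w hp).ne' (r k)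
  have t2 : ∀ k, w.v (T k) ≤ w.v x := fun k => w.v.map_sum_le fun i _ => by
    rw [Pl.mem_D.1 (pow_mem h2.1 i), map_mul, v1, one_mul]
  have t3 : ∑ k ∈ Finset.range (w.p ^ (f * n) - 1), (ζ ^ k)⁻¹ * T k =
      (w.p ^ (f * n) - 1 : ℕ) * x := by
    have a : ∀ k i, (ζ ^ k)⁻¹ * (φ ^ i) (ζ ^ k * x) = (ζ ^ (w.p ^ (f * i) - 1)) ^ k * (φ ^ i) x :=
      fun k i => by
        rw [map_mul, frob_root (h2.pow i) (ndvd w hp) (r k), pow_right_comm ζ _ k, ← mul_assoc,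
          pow_sub₀ _ (pow_ne_zero k (hζ.ne_zero (pos w hp).ne')) (Nat.one_le_pow _ _ w.prime.pos),
          pow_one, mul_comm (ζ ^ k)⁻¹]
    simp only [T, Finset.mul_sum, a]
    rw [Finset.sum_comm, Finset.sum_eq_single 0 (fun i hi i0 => ?_) (by simp [hn.ne'])]
    · simp
    have b := Nat.mul_pos hf (Nat.pos_of_ne_zero i0)
    rw [← Finset.sum_mul, geom_sum_eq (hζ.pow_ne_one_of_pos_of_lt (pos w b).ne'
      (Nat.sub_lt_sub_right (Nat.one_le_pow _ _ w.prime.pos) (Nat.pow_lt_pow_right w.prime.one_lt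
        (Nat.mul_lt_mul_of_pos_left (Finset.mem_range.1 hi) hf)))), r, sub_self, zero_div, zero_mul]
  by_contra! hc
  have t4 := w.v.map_sum_lt (s := Finset.range (w.p ^ (f * n) - 1)) (f := fun k => (ζ ^ k)⁻¹ * T k)
    (w.v.ne_zero_iff.2 h0) fun k _ => by
      rw [map_mul, map_inv₀, v1, inv_one, one_mul]
      exact (t2 k).lt_of_ne (hc _ (t1 k))
  rw [t3, map_mul, ← Int.cast_natCast, Pl.v_int_eq_one.2 (mt Int.natCast_dvd_natCast.1 (ndvd w hp)),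
    one_mul] at t4
  exact t4.false

theorem dens (hD : DENS) (hU : IsOpen (U : Set GQ)) (hx : Fix (w.D ⊓ U) x) (h0 : x ≠ 0) :
    ∃ y, Fix U y ∧ w.v y = w.v x :=
  let ⟨y, a, b⟩ := hD w U hU x hx _ (w.v.pos_iff.2 h0)
  ⟨y, a, w.v.map_eq_of_sub_lt (by rwa [Valuation.map_sub_swap])⟩

theorem v_int (w : Pl) {n : ℤ} (hn : n ≠ 0) : ∃ k : ℕ, w.v n = w.v w.p ^ k := by
  obtain ⟨k, m, h1, rfl⟩ := WfDvdMonoid.max_power_factor hn
    (Nat.prime_iff_prime_int.1 w.prime).irreducible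
  exact ⟨k, by simp [Pl.v_int_eq_one.2 h1]⟩

theorem val_I (hF : FROB) (hD : DENS) (hx : Fix w.I x) (h0 : x ≠ 0) :
    ∃ k : ℤ, w.v x = w.v w.p ^ k := by
  obtain ⟨y, a, b⟩ := unr hF w.loc_D (hx.mono inf_le_left)
  have h1 : y ≠ 0 := w.v.ne_zero_iff.1 (b ▸ w.v.ne_zero_iff.2 h0)
  obtain ⟨z, c, d⟩ := dens hD isOpen_univ (U := ⊤) (a.mono inf_le_left) h1
  have h2 : z ≠ 0 := w.v.ne_zero_iff.1 (d ▸ w.v.ne_zero_iff.2 h1)
  obtain ⟨q, rfl⟩ := c.rat
  obtain ⟨k, hk⟩ := v_int w (Rat.num_ne_zero.2 (Rat.cast_ne_zero.1 h2))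
  obtain ⟨l, hl⟩ := v_int w (Int.natCast_ne_zero.2 q.den_nz)
  refine ⟨k - l, ?_⟩
  rw [← b, ← d, Rat.cast_def, map_div₀, ← Int.cast_natCast q.den, hk, hl,
    zpow_sub₀ (w.v.ne_zero_iff.2 (Nat.cast_ne_zero.2 w.prime.ne_zero)), zpow_natCast, zpow_natCast]

theorem disc (hF : FROB) (hD : DENS) (w : Pl) (hU : IsOpen (U : Set GQ)) :
    ∃ π, w.Unif (w.I ⊓ U) π ∧ ∃ e, 0 < e ∧ e ≤ U.relIndex w.I ∧ w.v π ^ e = w.v w.p := by
  have he := relIndex_ne_zero hU w.I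
  have p0 : (w.p : Om) ≠ 0 := Nat.cast_ne_zero.2 w.prime.ne_zero
  have p1 := w.v.ne_zero_iff.2 p0
  let G : AddSubgroup ℤ :=
    { carrier := {k | ∃ x, Fix (w.I ⊓ U) x ∧ x ≠ 0 ∧ w.v x ^ U.relIndex w.I = w.v w.p ^ k}
      zero_mem' := ⟨1, fix_one, one_ne_zero, by simp⟩
      add_mem' := fun ⟨x, a, b, c⟩ ⟨y, a', b', c'⟩ => ⟨x * y, a.mul a', mul_ne_zero b b', by
        rw [map_mul, mul_pow, c, c', zpow_add₀ p1]⟩
      neg_mem' := fun ⟨x, a, b, c⟩ => ⟨x⁻¹, a.inv, inv_ne_zero b, by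
        rw [map_inv₀, inv_pow, c, zpow_neg]⟩ }
  obtain ⟨a, ha⟩ := Int.subgroup_cyclic G
  have h1 : ∀ k ∈ G, (a.natAbs : ℤ) ∣ k := fun k hk => by
    obtain ⟨n, rfl⟩ := AddSubgroup.mem_closure_singleton.1 (ha ▸ hk)
    simp
  obtain ⟨π, b, c, d⟩ : (a.natAbs : ℤ) ∈ G := by
    rw [Int.natCast_natAbs, abs_mem_iff, ha]; exact AddSubgroup.mem_closure_singleton_self a
  obtain ⟨e, e1⟩ := Int.natCast_dvd_natCast.1 (h1 (U.relIndex w.I) ⟨_, fix_nat _, p0, by simp⟩)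
  obtain ⟨a0, e0⟩ := mul_ne_zero_iff.1 (e1 ▸ he)
  have e2 : w.v π ^ e = w.v w.p := (pow_left_inj₀ zero_le zero_le a0).1 (by
    rw [← pow_mul, mul_comm, ← e1, d, zpow_natCast])
  refine ⟨π, ⟨b, c, (pow_lt_one_iff_of_nonneg zero_le e0).1 (e2 ▸ w.v_p_lt), fun x hx h0 => ?_⟩,
    e, Nat.pos_of_ne_zero e0, Nat.le_of_dvd (Nat.pos_of_ne_zero he) (Dvd.intro_left _ e1.symm), e2⟩
  have i := Subgroup.inf_relIndex_left w.I U
  obtain ⟨k, hk⟩ := val_I hF hD (hx.nrm (H := w.I) (i ▸ he)) (mt (nrm_eq_zero (i ▸ he)).1 h0)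
  rw [v_nrm (i ▸ he) w.I_le_D, i] at hk
  obtain ⟨j, rfl⟩ := h1 k ⟨x, hx, h0, hk⟩
  refine ⟨j, (pow_left_inj₀ zero_le zero_le he).1 ?_⟩
  rw [hk, zpow_mul, ← d, ← zpow_natCast, ← zpow_natCast, ← zpow_mul, ← zpow_mul, mul_comm]

theorem ded (hG : GAL) (hH : IsClosed (H : Set GQ)) (hU : IsOpen (U : Set GQ))
    [Fintype (H ⧸ U.subgroupOf H)] (c : H ⧸ U.subgroupOf H → Om)
    (h : ∀ x, Fix (H ⊓ U) x → ∑ q, c q * (q.out : GQ) x = 0) (q : H ⧸ U.subgroupOf H) :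
    c q = 0 := by
  let φ : H ⧸ U.subgroupOf H → IntermediateField.fixedField (H ⊓ U) →* Om := fun q =>
    ⟨⟨fun x => (q.out : GQ) x, by simp⟩, by simp⟩
  have hφ : Function.Injective φ := fun q q' e => by
    rw [← q.out_eq, ← q'.out_eq]
    refine QuotientGroup.eq.2 ((hG (H ⊓ U) (hH.inter (closed_of_open hU))).1 _ fun x hx => ?_).2
    have e' : (q.out : GQ) x = (q'.out : GQ) x := DFunLike.congr_fun e ⟨x, fix_iff.1 hx⟩
    exact (congrArg (q.out : GQ).symm e'.symm).trans ((q.out : GQ).symm_apply_apply x)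
  exact Fintype.linearIndependent_iff.1 ((linearIndependent_monoidHom _ Om).comp φ hφ) c
    (funext fun x => by simpa [φ] using h x (fix_iff.2 x.2)) q

/-- total ramification -/
theorem tot (hG : GAL) (hF : FROB) (hU : IsOpen (U : Set GQ)) {π : Om} (hπ : w.Unif (w.I ⊓ U) π)
    {e : ℕ} (he : 0 < e) (hp : w.v π ^ e = w.v w.p) : U.relIndex w.I ≤ e := by
  have : Fintype (w.I ⧸ U.subgroupOf w.I) :=
    Subgroup.fintypeOfIndexNeZero (relIndex_ne_zero hU w.I)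
  have p0 : (w.p : Om) ≠ 0 := Nat.cast_ne_zero.2 w.prime.ne_zero
  have h4 : LinearIndependent Om fun (q : w.I ⧸ U.subgroupOf w.I) (i : Fin e) =>
      (q.out : GQ) (π ^ (i : ℕ)) := by
    refine Fintype.linearIndependent_iff.2 fun c hc => ded hG w.closed_I hU c fun x hx => ?_
    let l : Om → Om := fun x => ∑ q, c q * (q.out : GQ) x
    have l1 : ∀ a b x, Fix w.I a → l (x - a * b) = l x - a * l b := fun a b x ha => by
      simp only [l, map_sub, map_mul, ha _ (Subtype.prop _), Finset.mul_sum, mul_sub,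
        Finset.sum_sub_distrib, mul_left_comm]
    have l2 : ∀ i < e, l (π ^ i) = 0 := fun i hi => by simpa [l] using congrFun hc ⟨i, hi⟩
    have key : ∀ n : ℕ, ∀ x, Fix (w.I ⊓ U) x →
        w.v (l x) ≤ (∑ q, w.v (c q)) * w.v x * w.v π ^ n := fun n => by
      induction n with
      | zero =>
        refine fun x _ => w.v.map_sum_le fun q _ => ?_
        rw [map_mul, Pl.mem_D.1 (w.I_le_D q.out.2), pow_zero, mul_one]
        exact mul_le_mul_left (Finset.single_le_sum (f := fun q => w.v (c q))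
          (fun _ _ => zero_le) (Finset.mem_univ q)) _
      | succ n ih =>
        intro x hx
        by_cases h0 : x = 0
        · simp [l, h0]
        obtain ⟨j, hj⟩ := hπ.2.2.2 x hx h0
        have e0 : (0 : ℤ) < e := Int.natCast_pos.2 he
        obtain ⟨i, hi⟩ := Int.eq_ofNat_of_zero_le (Int.emod_nonneg j e0.ne')
        have hb : w.v ((w.p : Om) ^ (j / e) * π ^ i) = w.v x := by
          rw [map_mul, map_zpow₀, map_pow, ← hp, ← zpow_natCast, ← zpow_natCast, ← zpow_mul,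
            ← zpow_add₀ (w.v.ne_zero_iff.2 hπ.2.1), ← hi, Int.mul_ediv_add_emod, hj]
        have x0 := w.v.pos_iff.2 h0
        obtain ⟨z, hz, h1⟩ := resid_I hF (x := x / (w.p ^ (j / e) * π ^ i)) (w := w) (by
          rw [map_div₀, hb, div_self x0.ne'])
        have a := hz.mul ((fix_nat w.p).zpow (j / e))
        have b := hx.sub ((a.mono inf_le_left).mul (hπ.1.pow i))
        have h2 := ih _ b
        rw [l1 _ _ _ a, l2 i (by have := Int.emod_lt_of_pos j e0; omega), mul_zero, sub_zero] at h2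
        have h3 := hπ.le (b.div hx) (by
          rwa [div_sub' (mul_ne_zero (zpow_ne_zero _ p0) (pow_ne_zero _ hπ.2.1)), map_div₀, hb,
            mul_comm, ← mul_assoc, ← map_div₀] at h1)
        rw [map_div₀, div_le_iff₀ x0] at h3
        refine h2.trans ?_
        rw [pow_succ', ← mul_assoc, mul_assoc _ (w.v x), mul_comm (w.v x)]
        gcongr
    have := ge_of_tendsto' ((NNReal.tendsto_pow_atTop_nhds_zero_of_lt_one hπ.2.2.1).const_mul _)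
      fun n => key n x hx
    simpa using this
  have h5 := h4.fintype_card_le_finrank
  rwa [Module.finrank_fin_fun, ← Nat.card_eq_fintype_card] at h5

end TUNIF

theorem t_UNIF (hPL : PL) (hGAL : GAL) (hFROB : FROB) (hDENS : DENS) : UNIF := by
  classical
  intro w U hU
  have i : w.I ⊓ (w.D ⊓ U) = w.I ⊓ U := by rw [← inf_assoc, inf_of_le_left w.I_le_D]
  obtain ⟨π, hπ, e, h0, h1, h2⟩ := TUNIF.disc hFROB hDENS w hU
  obtain rfl := le_antisymm h1 (TUNIF.tot hGAL hFROB hU hπ h0 h2)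
  obtain ⟨y, a, b⟩ := TUNIF.unr hFROB (w.loc_inf hU) (i ▸ hπ.1)
  have y0 : y ≠ 0 := w.v.ne_zero_iff.1 (b ▸ w.v.ne_zero_iff.2 hπ.2.1)
  obtain ⟨z, c, d⟩ := TUNIF.dens hDENS hU a y0
  have z0 : z ≠ 0 := w.v.ne_zero_iff.1 (d ▸ w.v.ne_zero_iff.2 y0)
  rw [b] at d
  refine ⟨z, c, ⟨c.mono inf_le_right, z0, d ▸ hπ.2.2.1, fun x hx => d ▸ hπ.2.2.2 x
    (hx.mono (inf_le_inf_right U w.I_le_D))⟩, ⟨c.mono inf_le_right, z0, d ▸ hπ.2.2.1,
      d ▸ hπ.2.2.2⟩, by rw [d, h2, w.vp], ?_⟩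
  obtain ⟨f, φ, hf, m, h3, -, h4, h5⟩ := hFROB w _ (w.loc_inf hU)
  obtain ⟨ζ, hζ⟩ := TUNIF.prim (TUNIF.pos w hf)
  have k : ∀ c : Om, ∃ y, c = 0 ∨ c ^ (w.p ^ f - 1) = 1 →
      Fix U y ∧ w.v y ≤ 1 ∧ w.v (c - y) < 1 := fun c => by
    by_cases h : c ^ (w.p ^ f - 1) = 1
    · obtain ⟨y, a, b⟩ := hDENS w U hU c (TUNIF.gen h5 ((TUNIF.frob_root h3 (TUNIF.ndvd w hf)
        h).trans (TUNIF.pow_q h)) ((TUNIF.fix_root (TUNIF.ndvd w hf) h).mono inf_le_left)) 1 one_pos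
      have := w.v_root (TUNIF.pos w hf).ne' h
      exact ⟨y, fun _ => ⟨a, ((w.v.map_eq_of_sub_lt (by rwa [Valuation.map_sub_swap, this])).trans
        this).le, b⟩⟩
    · exact ⟨0, fun e => ⟨fix_zero, by simp, by simp [e.resolve_right h]⟩⟩
  choose Y hY using k
  have k : ∀ c ∈ Finset.cons 0 (Polynomial.nthRootsFinset (w.p ^ f - 1) (1 : Om)) (by
      simp [Polynomial.mem_nthRootsFinset (TUNIF.pos w hf), (TUNIF.pos w hf).ne']), _ :=
    fun c hc => hY c ((Finset.mem_cons.1 hc).imp_right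
      (Polynomial.mem_nthRootsFinset (TUNIF.pos w hf) _).1)
  refine ⟨Finset.image Y _, Finset.forall_mem_image.2 fun c hc => ⟨(k c hc).1, (k c hc).2.1⟩, ?_,
    fun x hx h => ?_⟩
  · rw [Subgroup.inf_relIndex_left, ← Subgroup.inf_relIndex_left, i,
      Subgroup.inf_relIndex_left] at h4
    rw [← h4, pow_mul]
    refine Nat.pow_le_pow_left (Finset.card_image_le.trans_eq ?_) _
    rw [Finset.card_cons, hζ.card_nthRootsFinset,
      Nat.sub_add_cancel (Nat.one_le_pow f _ w.prime.pos)]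
  · obtain ⟨c, hc, e⟩ := TUNIF.resid h3 hf (hx φ m) h
    exact ⟨_, Finset.mem_image_of_mem Y hc,
      sub_add_sub_cancel x c (Y c) ▸ w.v.map_add_lt e (k c hc).2.2⟩

end Pool.Agent.P.MP_8b7eba_nt.R2
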