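import Pool.Agent.P.MP_8b7eba_nt.R2.IfA
import Pool.Agent.P.MP_8b7eba_nt.R2.Nrm

/-! Proof of UNIT. -/

namespace Pool.Agent.P.MP_8b7eba_nt.R2

open scoped NNReal ComplexConjugate

namespace TUNIT

theorem two (hGAL : GAL) (hNI : NI) (hSYM : SYM) {w : Pl} {H U : Subgroup GQ} (hH : w.Loc H)
    (hU : IsOpen (U : Set GQ)) (h2 : U.relIndex H = 2) (a a' : Om) (ha : Fix H a) (ha' : Fix H a')
    (n : ¬ ∃ b, Fix (H ⊓ U) b ∧ nrm H (H ⊓ U) b = a)
    (n' : ¬ ∃ b, Fix (H ⊓ U) b ∧ nrm H (H ⊓ U) b = a') :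
    ∃ b, Fix (H ⊓ U) b ∧ nrm H (H ⊓ U) b = a * a' := by
  obtain ⟨β, h0, h1, h3⟩ := (hGAL H hH.closed).2.2.2.1 U hU h2
  have hne : -β ≠ β := fun e => h0 (by linear_combination (-1 / 2 : Om) * e)
  have hk : IsKer H (H ⊓ U) (qc β) := fun g => by
    rw [Subgroup.mem_inf]
    refine and_congr_right fun hg => ⟨fun h => by simp [qc, (h3 g hg).1 h], fun h => ?_⟩
    by_contra h4
    simp [qc, (h3 g hg).2 h4, hne] at h
  have hg : ∃ g ∈ H, g β ≠ β := by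
    by_contra h
    have : H ≤ U := fun g hg => by_contra fun h4 => h ⟨g, hg, (h3 g hg).2 h4 ▸ hne⟩
    rw [Subgroup.relIndex_eq_one.2 this] at h2
    omega
  have e := (hSYM H (H ⊓ U) β hH.closed h0 h1 hk).2.2.2.1 hg
  have hs : ¬ Sq H (β ^ 2) := fun h => by
    obtain ⟨g, h4, h5⟩ := hg
    exact h5 ((sq_iff h1).1 h g h4)
  rw [e] at n n' ⊢
  exact (hNI w H _ hH h1 (pow_ne_zero 2 h0) hs).2 a a' ha ha' n n'

theorem unit (hGAL : GAL) (hNI : NI) (hUNIF : UNIF) (hSYM : SYM) {w : Pl} {H U : Subgroup GQ}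
    (hH : w.Loc H) (hU : IsOpen (U : Set GQ)) (h2 : U.relIndex H = 2) (hI : w.I ⊓ H ≤ H ⊓ U)
    (u : Om) (hu : Fix H u) (h1 : w.v u = 1) :
    ∃ b, Fix (H ⊓ U) b ∧ w.v b = 1 ∧ nrm H (H ⊓ U) b = u := by
  have h2' : (H ⊓ U).relIndex H = 2 := by rw [Subgroup.inf_relIndex_left, h2]
  have h0 : (H ⊓ U).relIndex H ≠ 0 := by omega
  obtain ⟨V, hV, hHV⟩ := id hH
  obtain ⟨π, -, p1, p2, -⟩ := hUNIF w V hV
  rw [← hHV] at p1
  have hI' : w.I ⊓ V ≤ H ⊓ U := le_trans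
    (le_inf inf_le_left (hHV ▸ inf_le_inf_right V w.I_le_D)) hI
  have key : ∀ a, w.v a = w.v π → ¬ ∃ b, Fix (H ⊓ U) b ∧ nrm H (H ⊓ U) b = a := by
    rintro _ e ⟨b, hb, rfl⟩
    rw [v_nrm h0 hH.le, h2'] at e
    exact p2.not_ev ⟨b, hb.mono hI', e.symm⟩
  obtain ⟨b, hb, e⟩ := two hGAL hNI hSYM hH hU h2 (u * π) π (hu.mul p1.1) p1.1
    (key _ (by rw [map_mul, h1, one_mul])) (key _ rfl)
  have e2 : nrm H (H ⊓ U) (b / π) = u := by
    have := p1.2.1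
    rw [nrm_div h0, e, nrm_of_fix h0 p1.1, h2']
    field_simp
  refine ⟨b / π, hb.div (p1.1.mono inf_le_left), ?_, e2⟩
  have e3 := congrArg w.v e2
  rw [v_nrm h0 hH.le, h2', h1] at e3
  exact (pow_eq_one_iff_of_nonneg zero_le two_ne_zero).1 e3

theorem half (hGAL : GAL) (hNI : NI) (hSYM : SYM) {w : Pl} {H U : Subgroup GQ} (hH : w.Loc H)
    (hU : IsOpen (U : Set GQ)) (h2 : U.relIndex H = 2) {ι : Type} [Fintype ι] (a : ι → Om)
    (ha : ∀ i, Fix H (a i) ∧ a i ≠ 0) {e : ℕ} (he : e * 2 < Fintype.card ι) :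
    ∃ (s : Finset ι) (c : Om), e < s.card ∧ c ≠ 0 ∧
      ∀ i ∈ s, ∃ b, Fix (H ⊓ U) b ∧ nrm H (H ⊓ U) b = a i * c := by
  classical
  have h := Finset.card_filter_add_card_filter_not (s := Finset.univ)
    fun i => ∃ b, Fix (H ⊓ U) b ∧ nrm H (H ⊓ U) b = a i
  rw [Finset.card_univ] at h
  by_cases h1 : e < (Finset.univ.filter
      fun i => ∃ b, Fix (H ⊓ U) b ∧ nrm H (H ⊓ U) b = a i).card
  · exact ⟨_, 1, h1, one_ne_zero, fun i hi => by simpa using hi⟩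
  · have h3 : e < (Finset.univ.filter
      fun i => ¬ ∃ b, Fix (H ⊓ U) b ∧ nrm H (H ⊓ U) b = a i).card := by omega
    obtain ⟨j, hj⟩ := Finset.card_pos.1 (lt_of_le_of_lt (Nat.zero_le e) h3)
    exact ⟨_, a j, h3, (ha j).2, fun i hi => two hGAL hNI hSYM hH hU h2 _ _ (ha i).1 (ha j).1
      (Finset.mem_filter.1 hi).2 (Finset.mem_filter.1 hj).2⟩

theorem main (hGAL : GAL) (hNI : NI) (hUNIF : UNIF) (hSYM : SYM) (w : Pl) (H' : Subgroup GQ)
    (m : ℕ) (hm : m ≠ 0) (χ : GQ → ZMod m) (n : ℕ) : ∀ H : Subgroup GQ, w.Loc H → IsCh H χ →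
    IsKer H H' χ → (∀ g ∈ H, 2 ^ n • χ g = 0) →
    ((∀ g ∈ w.I ⊓ H, χ g = 0) → ∀ u, Fix H u → w.v u = 1 → ∃ b, Fix H' b ∧ nrm H H' b = u) ∧
    ∀ (ι : Type) [Fintype ι] (a : ι → Om), (∀ i, Fix H (a i) ∧ a i ≠ 0) →
      H'.relIndex H < Fintype.card ι → ∃ i j, i ≠ j ∧ ∃ b, Fix H' b ∧ nrm H H' b = a i / a j := by
  induction n with
  | zero =>
    intro H hH hc hk h0
    obtain rfl : H' = H := Subgroup.ext fun g =>
      (hk g).trans ⟨fun h => h.1, fun h => ⟨h, by simpa using h0 g h⟩⟩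
    refine ⟨fun _ u hu _ => ⟨u, hu, nrm_self hu⟩, fun ι _ a ha h1 => ?_⟩
    rw [Subgroup.relIndex_self] at h1
    obtain ⟨i, j, h2⟩ := Fintype.exists_pair_of_one_lt_card h1
    exact ⟨i, j, h2, _, (ha i).1.div (ha j).1, nrm_self ((ha i).1.div (ha j).1)⟩
  | succ n ih =>
    intro H hH hc hk h0
    by_cases h1 : ∀ g ∈ H, 2 ^ n • χ g = 0
    · exact ih H hH hc hk h1
    have hc1 : IsCh H fun g => 2 ^ n • χ g :=
      ⟨hc.1.comp (2 ^ n • ·), fun g hg h hh => by simp only [hc.2 g hg h hh, smul_add]⟩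
    obtain ⟨U, hU, hk1⟩ := hc1.exists_ker
    have : NeZero m := ⟨hm⟩
    have t : ∀ g ∈ H, 2 ^ n • χ g = 0 ∨ 2 * (2 ^ n • χ g).val = m := fun g hg =>
      (ZMod.neg_eq_self_iff _).1 (by
        rw [neg_eq_iff_add_eq_zero, ← two_nsmul, ← mul_nsmul', ← pow_succ']
        exact h0 g hg)
    have h2 : U.relIndex H = 2 := by
      push Not at h1
      obtain ⟨g, hg, h1⟩ := h1
      rw [← Subgroup.inf_relIndex_left, hk1.relIndex hc1, Set.ncard_eq_two]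
      refine ⟨0, _, h1.symm, Set.Subset.antisymm ?_ ?_⟩
      · rintro _ ⟨h, hh, rfl⟩
        rcases t h hh with e | e
        · exact Or.inl e
        · refine Or.inr (ZMod.val_injective m ?_)
          have := (t g hg).resolve_left h1
          simp only at this e ⊢
          omega
      · rintro _ (rfl | rfl)
        · exact ⟨1, H.one_mem, hc1.one⟩
        · exact ⟨g, hg, rfl⟩
    have hle : H' ≤ H ⊓ U := fun g hg =>
      (hk1 g).2 ⟨((hk g).1 hg).1, by simp only [((hk g).1 hg).2, smul_zero]⟩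
    have hk2 : IsKer (H ⊓ U) H' χ := fun g =>
      ⟨fun h => ⟨hle h, ((hk g).1 h).2⟩, fun h => (hk g).2 ⟨h.1.1, h.2⟩⟩
    obtain ⟨i1, i2⟩ := ih (H ⊓ U) (hH.inf hU) (hc.mono inf_le_left) hk2
      fun g hg => ((hk1 g).1 hg).2
    have h3 : H'.relIndex H ≠ 0 := (hH.ker hc hk).relIndex_ne hH.le
    have h2' : (H ⊓ U).relIndex H = 2 := by rw [Subgroup.inf_relIndex_left, h2]
    have h4 : (H ⊓ U).relIndex H ≠ 0 := by omega
    refine ⟨fun hI u hu h5 => ?_, fun ι _ a ha h5 => ?_⟩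
    · obtain ⟨b, b1, b2, rfl⟩ := unit hGAL hNI hUNIF hSYM hH hU h2
        (fun g hg => (hk1 g).2 ⟨hg.2, by simp only [hI g hg, smul_zero]⟩) u hu h5
      obtain ⟨c, c1, rfl⟩ := i1 (fun g hg => hI g ⟨hg.1, hg.2.1⟩) b b1 b2
      exact ⟨c, c1, (nrm_trans inf_le_left hle h3 c1).symm⟩
    · rw [← Subgroup.relIndex_mul_relIndex H' (H ⊓ U) H hle inf_le_left, h2'] at h5
      obtain ⟨s, c, s1, s2, s3⟩ := half hGAL hNI hSYM hH hU h2 a ha h5
      choose b b1 b2 using s3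
      obtain ⟨i, j, e, d, d1, d2⟩ := i2 s (fun i => b i i.2) (fun i => ⟨b1 i i.2, fun h => by
        have := (nrm_eq_zero h4).2 h
        rw [b2] at this
        exact mul_ne_zero (ha i).2 s2 this⟩) (by simpa using s1)
      refine ⟨i, j, fun h => e (Subtype.ext h), d, d1, ?_⟩
      rw [← nrm_trans inf_le_left hle h3 d1, d2, nrm_div h4, b2, b2, mul_div_mul_right _ _ s2]

end TUNIT

theorem t_UNIT (hGAL : GAL) (hNI : NI) (hUNIF : UNIF) (hSYM : SYM) : UNIT := by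
  intro w H H' m n χ hm hH hc hk
  subst hm
  refine TUNIT.main hGAL hNI hUNIF hSYM w H' _ (pow_ne_zero n two_ne_zero) χ n H hH hc hk
    fun g _ => ?_
  rw [nsmul_eq_mul, ZMod.natCast_self, zero_mul]

end Pool.Agent.P.MP_8b7eba_nt.R2
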