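import Pool.Agent.P.MP_8b7eba_nt.R2.IfA
import Pool.Agent.P.MP_8b7eba_nt.R2.Nrm

/-! Proof of UCH, UNR. -/

namespace Pool.Agent.P.MP_8b7eba_nt.R2

open scoped NNReal ComplexConjugate

namespace TUNR

theorem modEq {p M a b : ℕ} (hp : p.Prime) (hM : M ≠ 0) (h : p ^ a ≡ p ^ b [MOD p ^ M - 1]) :
    a ≡ b [MOD M] := by
  wlog hab : a ≤ b generalizing a b
  · exact (this h.symm (by omega)).symm
  obtain ⟨c, rfl⟩ := Nat.exists_eq_add_of_le hab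
  have h1 : 1 ≤ p ^ M := Nat.one_le_pow _ _ hp.pos
  have hc : Nat.Coprime (p ^ M - 1) (p ^ a) := by
    refine Nat.Coprime.pow_right _ (Nat.Coprime.symm ((Nat.Prime.coprime_iff_not_dvd hp).2 ?_))
    intro h2
    have h3 : p ∣ p ^ M - (p ^ M - 1) := Nat.dvd_sub (dvd_pow_self p hM) h2
    rw [show p ^ M - (p ^ M - 1) = 1 by omega] at h3
    exact hp.one_lt.ne' (Nat.dvd_one.1 h3)
  rw [pow_add] at h
  have h2 : 1 ≡ p ^ c [MOD p ^ M - 1] :=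
    Nat.ModEq.cancel_left_of_coprime (c := p ^ a) hc (by simpa using h)
  have h3 : p ^ M - 1 ∣ p ^ c - 1 := (Nat.modEq_iff_dvd' (Nat.one_le_pow _ _ hp.pos)).1 h2
  have h4 := Nat.pow_sub_one_gcd_pow_sub_one p M c
  rw [Nat.gcd_eq_left h3] at h4
  have h5 : 1 ≤ p ^ M.gcd c := Nat.one_le_pow _ _ hp.pos
  have h6 : M = M.gcd c := Nat.pow_right_injective hp.two_le (by simp only; omega)
  have h7 : M ∣ c := h6 ▸ Nat.gcd_dvd_right M c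
  exact (Nat.modEq_iff_dvd' (Nat.le_add_right _ _)).2 (by simpa using h7)

theorem chi (hFROB : FROB) (w : Pl) {M : ℕ} (hM : M ≠ 0) :
    ∃ χ : GQ → ZMod M, IsCh w.D χ ∧ ∀ f φ, w.IsFrob f φ → χ φ = f := by
  classical
  have h1 : 1 < w.p ^ M := Nat.one_lt_pow hM w.prime.one_lt
  have hQ : w.p ^ M - 1 ≠ 0 := by omega
  have : NeZero (w.p ^ M - 1) := ⟨hQ⟩
  obtain ⟨z, hz⟩ := HasEnoughRootsOfUnity.exists_primitiveRoot Om (w.p ^ M - 1)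
  have hp : ¬ w.p ∣ w.p ^ M - 1 := fun h2 => by
    have h3 : w.p ∣ w.p ^ M - (w.p ^ M - 1) := Nat.dvd_sub (dvd_pow_self _ hM) h2
    rw [show w.p ^ M - (w.p ^ M - 1) = 1 by omega] at h3
    exact w.prime.one_lt.ne' (Nat.dvd_one.1 h3)
  have hF : ∀ f φ, w.IsFrob f φ → φ z = z ^ w.p ^ f := fun f φ h =>
    Pl.root_eq hp (by rw [← map_pow, hz.pow_eq_one, map_one])
      (by rw [← pow_mul, mul_comm, pow_mul, hz.pow_eq_one, one_pow])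
      (h.2 z (Pl.v_root hQ hz.pow_eq_one).le)
  let F : Om → ZMod M := fun y => if h : ∃ m : ℕ, y = z ^ w.p ^ m then (h.choose : ZMod M) else 0
  have hs : ∀ m : ℕ, F (z ^ w.p ^ m) = m := by
    intro m
    have h : ∃ m' : ℕ, z ^ w.p ^ m = z ^ w.p ^ m' := ⟨m, rfl⟩
    simp only [F, dif_pos h]
    rw [ZMod.natCast_eq_natCast_iff]
    refine (modEq w.prime hM ?_).symm
    have h2 := h.choose_spec
    rw [hz.eq_orderOf]
    exact (hz.isOfFinOrder hQ).pow_eq_pow_iff_modEq.1 h2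
  have he : ∀ g ∈ w.D, ∃ m : ℕ, g z = z ^ w.p ^ m := by
    intro g hg
    obtain ⟨f, φ, -, -, h3, -, -, h4⟩ := hFROB w w.D w.loc_D
    obtain ⟨N, hN, h5⟩ := exists_ON_fix {z}
    obtain ⟨m, i, hi, n, hn, rfl⟩ := h4 N hN g hg
    refine ⟨f * m, ?_⟩
    rw [AlgEquiv.mul_apply, AlgEquiv.mul_apply, h5 z (by simp) n hn.1,
      hF 0 i (Pl.isFrob_zero.2 hi.1), pow_zero, pow_one, hF _ _ (h3.pow m)]
  refine ⟨fun g => F (g z), ⟨(sm_apply z).comp F, fun g hg h hh => ?_⟩, fun f φ h => ?_⟩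
  · obtain ⟨a, ha⟩ := he g hg
    obtain ⟨b, hb⟩ := he h hh
    have e : (g * h) z = z ^ w.p ^ (a + b) := by
      rw [AlgEquiv.mul_apply, hb, map_pow, ha, ← pow_mul, ← pow_add]
    simp only [e, ha, hb, hs, Nat.cast_add]
  · simp only [hF f φ h, hs]

theorem deg (hFROB : FROB) {w : Pl} {H : Subgroup GQ} (hH : w.Loc H) :
    ∃ φ ∈ H, ∀ L : ℕ, L ≠ 0 → ∃ χ : GQ → ZMod L, IsCh H χ ∧ (∀ g ∈ w.I ⊓ H, χ g = 0) ∧ χ φ = 1 ∧
      ∀ N, ON N → ∀ g ∈ H, ∃ m : ℕ, ∃ i ∈ w.I ⊓ H, ∃ n ∈ N ⊓ H, g = φ ^ m * i * n ∧ χ g = m := by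
  obtain ⟨f, φ, h1, h2, h3, -, -, h4⟩ := hFROB w H hH
  refine ⟨φ, h2, fun L hL => ?_⟩
  obtain ⟨χ, hc, hf⟩ := chi hFROB w (mul_ne_zero h1.ne' hL)
  have hc' := hc.mono hH.le
  let F : ZMod (f * L) → ZMod L := fun c => ((c.val / f : ℕ) : ZMod L)
  have hs : ∀ m : ℕ, F ((f * m : ℕ) : ZMod (f * L)) = m := fun m => by
    simp only [F]
    rw [ZMod.val_natCast, Nat.mul_mod_mul_left, Nat.mul_div_cancel_left _ h1, ZMod.natCast_mod]
  have he : ∀ N, ON N → ∀ g ∈ H, ∃ m : ℕ, ∃ i ∈ w.I ⊓ H, ∃ n ∈ N ⊓ H, g = φ ^ m * i * n ∧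
      χ g = (f * m : ℕ) := by
    intro N hN g hg
    obtain ⟨N', hN', h5⟩ := hc'.1
    obtain ⟨m, i, hi, n, hn, rfl⟩ := h4 _ (hN.inf hN') g hg
    refine ⟨m, i, hi, n, ⟨hn.1.1, hn.2⟩, rfl, ?_⟩
    rw [h5 _ (H.mul_mem (H.pow_mem h2 m) hi.2) n hn.2 hn.1.2,
      hf _ _ ((h3.pow m).mul (Pl.isFrob_zero.2 hi.1)), add_zero]
  refine ⟨fun g => F (χ g), ⟨hc'.1.comp F, fun g hg h hh => ?_⟩, fun g hg => ?_, ?_,
    fun N hN g hg => ?_⟩
  · obtain ⟨a, -, -, -, -, -, ha⟩ := he ⊤ ON.top g hg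
    obtain ⟨b, -, -, -, -, -, hb⟩ := he ⊤ ON.top h hh
    have e : χ (g * h) = (f * (a + b) : ℕ) := by
      rw [hc'.2 g hg h hh, ha, hb, mul_add, Nat.cast_add]
    simp only [e, ha, hb, hs, Nat.cast_add]
  · have := hs 0
    simp only [hf 0 g (Pl.isFrob_zero.2 hg.1)]
    simpa using this
  · have := hs 1
    simp only [hf f φ h3]
    simpa using this
  · obtain ⟨m, i, hi, n, hn, e, e'⟩ := he N hN g hg
    exact ⟨m, i, hi, n, hn, e, by simp only [e', hs]⟩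

/-- the trivialising cochain on the powers of one element -/
noncomputable def B (f : GQ → GQ → Om) (φ : GQ) : ℕ → Om
  | 0 => f 1 1
  | m + 1 => B f φ m / f (φ ^ m) φ

theorem B_ind {H : Subgroup GQ} {f : GQ → GQ → Om} {φ : GQ} (hφ : φ ∈ H) (P : Om → Prop)
    (h1 : ∀ g ∈ H, ∀ h ∈ H, P (f g h)) (h2 : ∀ x y, P x → P y → P (x / y)) (m : ℕ) :
    P (B f φ m) := by
  induction m with
  | zero => exact h1 1 H.one_mem 1 H.one_mem
  | succ m ih => exact h2 _ _ ih (h1 _ (H.pow_mem hφ m) _ hφ)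

theorem B_co {H : Subgroup GQ} {f : GQ → GQ → Om} (hf : Co2 H f) {φ : GQ} (hφ : φ ∈ H) (i j : ℕ) :
    f (φ ^ i) (φ ^ j) * B f φ (i + j) = B f φ i * (φ ^ i) (B f φ j) := by
  have o := H.one_mem
  have hi := H.pow_mem hφ i
  induction j with
  | zero =>
    have := hf.co _ hi 1 o 1 o
    simp only [mul_one] at this
    rw [pow_zero, add_zero, B, mul_right_cancel₀ (hf.ne _ hi 1 o) this, mul_comm]
  | succ j ih =>
    have hj := H.pow_mem hφ j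
    have := hf.co _ hi _ hj _ hφ
    rw [← pow_succ, ← pow_add] at this
    have n1 := hf.ne _ (H.pow_mem hφ (i + j)) _ hφ
    have n2 : (φ ^ i) (f (φ ^ j) φ) ≠ 0 := (map_ne_zero _).2 (hf.ne _ hj _ hφ)
    rw [← add_assoc, B, B, map_div₀]
    field_simp
    linear_combination (B f φ (i + j)) * this + f (φ ^ (i + j)) φ * ih

end TUNR

theorem t_UCH (hFROB : FROB) : UCH := by
  intro w n
  have hn : 2 ^ n ≠ 0 := pow_ne_zero n two_ne_zero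
  refine ⟨?_, fun H hH => ?_⟩
  · obtain ⟨χ, h1, h2⟩ := TUNR.chi hFROB w hn
    exact ⟨χ, h1, fun g hg => by simpa using h2 0 g (Pl.isFrob_zero.2 hg), h2⟩
  · obtain ⟨φ, h1, h2⟩ := TUNR.deg hFROB hH
    obtain ⟨χ, h3, h4, h5, -⟩ := h2 _ hn
    exact ⟨χ, h3, h4, φ, h1, h5⟩

theorem t_UNR (hFROB : FROB) : UNR := by
  intro w H hH k f hf hk hI
  obtain ⟨φ, h1, h2⟩ := TUNR.deg hFROB hH
  obtain ⟨N, hN, hs⟩ := hf.sm.strong
  obtain ⟨M, hM, hφ⟩ := hN.exists_pow φ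
  have hL : M * 2 ^ k ≠ 0 := mul_ne_zero hM.ne' (pow_ne_zero k two_ne_zero)
  obtain ⟨χ, h3, -, -, h4⟩ := h2 _ hL
  have b0 : ∀ m, TUNR.B f φ m ≠ 0 := TUNR.B_ind h1 (· ≠ 0) hf.ne fun _ _ => div_ne_zero
  have b1 : ∀ m, TUNR.B f φ m ^ 2 ^ k = 1 := TUNR.B_ind h1 (· ^ 2 ^ k = 1) hk fun x y hx hy => by
    simp only [div_pow, hx, hy, div_one]
  have b2 : ∀ m, Fix N (TUNR.B f φ m) :=
    TUNR.B_ind h1 (Fix N) (fun g hg h hh => (hs g hg h hh).1) fun _ _ => Fix.div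
  have b3 : ∀ m, Fix (w.I ⊓ H) (TUNR.B f φ m) :=
    TUNR.B_ind h1 (Fix (w.I ⊓ H)) (fun g hg h hh i hi => (hI g hg h hh i hi).2.2) fun _ _ => Fix.div
  have p1 : ∀ m, TUNR.B f φ (m + M) = TUNR.B f φ m * (TUNR.B f φ M / TUNR.B f φ 0) := by
    intro m
    induction m with
    | zero => rw [zero_add, mul_div_cancel₀ _ (b0 0)]
    | succ m ih =>
      have e : ∀ j, TUNR.B f φ (j + 1) = TUNR.B f φ j / f (φ ^ j) φ := fun _ => rfl
      rw [add_right_comm, e, e, ih, pow_add,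
        ((hs _ (H.pow_mem h1 m) _ h1).2 _ (H.pow_mem h1 M) hφ).1]
      ring
  have p2 : ∀ t m, TUNR.B f φ (m + M * t) = TUNR.B f φ m * (TUNR.B f φ M / TUNR.B f φ 0) ^ t := by
    intro t m
    induction t with
    | zero => simp
    | succ t ih => rw [mul_add, mul_one, ← add_assoc, p1, ih, pow_succ, mul_assoc]
  have p3 : Function.Periodic (TUNR.B f φ) (M * 2 ^ k) := fun m => by
    rw [p2, div_pow, b1, b1, div_one, mul_one]
  have p4 : ∀ m : ℕ, TUNR.B f φ (m : ZMod (M * 2 ^ k)).val = TUNR.B f φ m := fun m => by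
    rw [ZMod.val_natCast, p3.map_mod_nat]
  refine ⟨fun g => TUNR.B f φ (χ g).val, h3.1.comp fun c => TUNR.B f φ c.val, fun g _ => b0 _,
    fun g hg h hh => ?_⟩
  obtain ⟨a, i, hi, n, hn, rfl, ea⟩ := h4 N hN g hg
  obtain ⟨b, i', hi', n', hn', rfl, eb⟩ := h4 N hN h hh
  have ha := H.pow_mem h1 a
  have hb := H.pow_mem h1 b
  simp only [h3.2 _ hg _ hh, ea, eb, ← Nat.cast_add, p4]
  rw [((hs _ (H.mul_mem ha hi.2) _ hh).2 n hn.2 hn.1).1, (hI _ ha _ hh i hi).1,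
    ((hs _ ha _ (H.mul_mem hb hi'.2)).2 n' hn'.2 hn'.1).2.1, (hI _ ha _ hb i' hi').2.1,
    AlgEquiv.mul_apply, AlgEquiv.mul_apply, b2 b n hn.1, b3 b i hi]
  exact TUNR.B_co hf h1 a b

end Pool.Agent.P.MP_8b7eba_nt.R2
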