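import Pool.Agent.P.MP_8b7eba_nt.R2.LC

/-! Proof of ABHNQ, GTH. -/

namespace Pool.Agent.P.MP_8b7eba_nt.R2

open scoped NNReal Matrix

namespace TABHNQ

theorem closed_zp (hTAU : TAU) : IsClosed (Subgroup.zpowers tau : Set GQ) := by
  have h : (Subgroup.zpowers tau : Set GQ) ⊆ {1, tau} := fun g hg => by
    obtain ⟨k, rfl⟩ := Subgroup.mem_zpowers_iff.1 hg
    have h2 : tau ^ (2 : ℤ) = 1 := by rw [zpow_two, hTAU.2.1]
    rcases Int.even_or_odd' k with ⟨m, rfl | rfl⟩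
    · left; rw [zpow_mul, h2, one_zpow]
    · right; rw [zpow_add, zpow_mul, h2, one_zpow, one_mul, zpow_one]; rfl
  exact ((Set.toFinite _).subset h).isClosed

theorem nonneg (hTAU : TAU) {q : ℚ} (h : Nm (Subgroup.zpowers tau) (-1 : ℤ) q) : 0 ≤ q := by
  obtain ⟨x, y, hx, hy, e⟩ := h
  have key : ∀ z : Om, Fix (Subgroup.zpowers tau) z → ∃ r : ℝ, io z = r := fun z hz =>
    Complex.conj_eq_iff_real.1 (by rw [← hTAU.1, hz _ (Subgroup.mem_zpowers _)])
  obtain ⟨r, hr⟩ := key x hx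
  obtain ⟨s, hs⟩ := key y hy
  have h1 := congrArg io e
  rw [map_ratCast, map_sub, map_mul, map_pow, map_pow, hr, hs, map_intCast] at h1
  have h2 : (q : ℝ) = r ^ 2 - (-1 : ℤ) * s ^ 2 := by exact_mod_cast h1
  have h3 : (0 : ℝ) ≤ q := by
    rw [h2]
    push_cast
    nlinarith [sq_nonneg r, sq_nonneg s]
  exact_mod_cast h3

theorem even_val (hA : CA) {n : ℕ} (hn : n ≠ 0) {w : Pl} (h4 : w.p % 4 = 3)
    (h : Nm w.D (-1 : ℤ) n) : Even (padicValNat w.p n) := by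
  have h2 : w.p ≠ 2 := by omega
  have h1 : ¬ (w.p : ℤ) ∣ -1 := fun e =>
    w.prime.ne_one (Nat.dvd_one.1 (by exact_mod_cast dvd_neg.1 e))
  have hs : ¬ Sq w.D (-1 : ℤ) := fun e => by
    have := ((hA.sq2 w).2.2.2.2.2 h2 (-1) h1).1.1 e
    rw [jacobiSym.at_neg_one (Nat.odd_iff.2 (by omega)), ZMod.χ₄_nat_three_mod_four h4] at this
    exact absurd this (by decide)
  obtain ⟨y, hy, e⟩ := (hA.nu w w.D _ w.loc_D h2 (fix_int _) (Pl.v_int_eq_one.2 h1)).2 hs _ h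
  have hu := (hA.res w w.D w.loc_D).2.2.2.1
  have hy0 : y ≠ 0 := fun e0 => by
    rw [e0, map_zero, zero_pow two_ne_zero, map_eq_zero, Nat.cast_eq_zero] at e
    exact hn e
  obtain ⟨k, hk⟩ := hu.2.2.2 y hy hy0
  have h5 : w.v (n / w.p ^ n.factorization w.p : ℕ) = 1 := by
    rw [← Int.cast_natCast]
    exact Pl.v_int_eq_one.2 fun e' => Nat.not_dvd_ordCompl w.prime hn (Int.natCast_dvd_natCast.1 e')
  have h6 : w.v n = w.v w.p ^ n.factorization w.p := by
    conv_lhs => rw [← Nat.ordProj_mul_ordCompl_eq_self n w.p]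
    rw [Nat.cast_mul, map_mul, h5, mul_one, Nat.cast_pow, map_pow]
  have h7 := hu.zpow_inj (a := (n.factorization w.p : ℕ)) (b := k * 2) (by
    rw [zpow_natCast, ← h6, e, zpow_mul, ← hk]; rfl)
  rw [← Nat.factorization_def n w.prime, ← Int.even_coe_nat, h7]
  exact even_two.mul_left k

theorem isCh_sum (P : Finset ℕ) (c : ℕ → ZMod 2) : IsCh ⊤ fun g => ∑ p ∈ P, c p * qz p g := by
  refine ⟨?_, fun g hg h hh => ?_⟩
  · induction P using Finset.induction_on with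
    | empty => exact Sm.const 0
    | insert p P hp ih =>
      simp only [Finset.sum_insert hp]
      exact (isCh_qz (p : ℤ)).1.comp₂ ih fun a b => c p * a + b
  · rw [← Finset.sum_add_distrib]
    exact Finset.sum_congr rfl fun p _ => by rw [(isCh_qz (p : ℤ)).2 g hg h hh, mul_add]

end TABHNQ

open TABHNQ

theorem t_ABHNQ (hA : CA) : ABHNQ := by
  intro f hf hr hp
  have hβ := rt_sq (-1)
  have hall : ∀ w : Pl, Triv w.D f := fun w => by
    obtain ⟨w0, e, h⟩ := hp w.p w.prime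
    obtain ⟨σ, rfl⟩ := hA.pl.2.1 w0 w e
    exact (Triv.smul_place hf.1 le_rfl (Subgroup.mem_top σ) (fun _ _ => trivial)
      (h.mono inf_le_left)).mono (le_inf le_rfl le_top)
  have hU : Triv (⊤ ⊓ MulAction.stabilizer GQ (rt (-1))) f :=
    hA.abhn _ f (isOpen_univ.inter (isOpen_stab _)) (fun g hg => by
      have h1 := (qz_eq_zero hβ).2 hg.2
      rw [qz_conj, qz_tau hA.tau (by decide)] at h1
      exact absurd h1 (by decide)) (hf.mono le_top) fun w => (hall w).mono inf_le_left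
  obtain ⟨a, ha, h0, -, key⟩ := (hA.sym ⊤ _ (rt (-1)) isClosed_univ
    (fun e => by rw [e] at hβ; simp at hβ) (hβ ▸ fix_int _) (isKer_qc ⊤ _)).2.2.2.2 f hf.1 hU
  rw [hβ] at key
  obtain ⟨q, rfl⟩ := ha.rat
  have hq : 0 ≤ q := nonneg hA.tau ((key _ le_top (closed_zp hA.tau)).1 hr)
  have hd : (q.den : Om) ≠ 0 := Nat.cast_ne_zero.2 q.den_nz
  have hn : ((q.num.natAbs * q.den : ℕ) : Om) = q * q.den ^ 2 := by
    rw [Nat.cast_mul, ← Int.cast_natCast q.num.natAbs, Int.natAbs_of_nonneg (Rat.num_nonneg.2 hq),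
      Rat.cast_def q]
    field_simp
  have hn0 : q.num.natAbs * q.den ≠ 0 := by
    rw [← Nat.cast_ne_zero (R := Om), hn]
    exact mul_ne_zero h0 (pow_ne_zero _ hd)
  obtain ⟨x, y, e⟩ := (Nat.eq_sq_add_sq_iff (n := q.num.natAbs * q.den)).2 fun p hp' h4 => by
    obtain ⟨w, rfl⟩ := hA.pl.1 p (Nat.prime_of_mem_primeFactors hp')
    refine even_val hA hn0 h4 ?_
    rw [hn]
    exact ((key _ le_top w.closed_D).1 (hall w)).mul (fix_int _) (Nm.of_sq ⟨_, fix_nat _, rfl⟩)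
  refine (key ⊤ le_rfl isClosed_univ).2 ⟨x / q.den, y / q.den, (fix_nat _).div (fix_nat _),
    (fix_nat _).div (fix_nat _), ?_⟩
  rw [e] at hn
  push_cast at hn ⊢
  field_simp
  linear_combination -hn

theorem t_GTH (hA : CA) (hABHNQ : ABHNQ) : GTH := by
  classical
  intro n κ _ h2 hκ hI hb hr
  have co := fun g h k => (co2_sgn.1 hκ).2 g trivial h trivial k trivial
  have r1 : ∀ w : Pl, ¬ (w.p : ℤ) ∣ n → ∀ i ∈ w.I, ∀ g h, κ g (h * i) = κ g h :=
    fun w hw i hi g h => by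
      have := co g h i
      rwa [(hI w hw i hi h).1, (hI w hw i hi _).1, zero_add, zero_add] at this
  have hu : ∀ w : Pl, ¬ (w.p : ℤ) ∣ n → Triv w.D (sgn κ) := fun w hw => by
    refine hA.unr w w.D w.loc_D 1 _ (hκ.mono le_top)
      (fun g _ h _ => congrFun (congrFun (sgn_sq κ) g) h) fun g _ h hh i hi => ⟨?_, ?_, ?_⟩
    · have h1 := co g i h
      have h3 := r1 w hw _ (Pl.conj_mem_I (inv_mem hh) hi.1) g h
      rw [show h * (h⁻¹ * i * h⁻¹⁻¹) = i * h by group] at h3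
      rw [(hI w hw i hi.1 h).2, (hI w hw i hi.1 g).1, zero_add, add_zero, h3] at h1
      rw [sgn, ← h1, sgn]
    · rw [sgn, r1 w hw i hi.1, sgn]
    · rw [sgn, map_pow, map_neg, map_one]
  obtain ⟨θ, hs, hθ⟩ := exists_bd hA.gal isClosed_univ (hABHNQ _ hκ.sgnT
    (Triv.one.congr fun g hg h hh => by rw [sgn, hr g hg h hh]; rfl) fun p hp => by
      by_cases e : (p : ℤ) ∣ n
      · exact hb p hp e
      · obtain ⟨w, rfl⟩ := hA.pl.1 p hp
        exact ⟨w, rfl, hu w e⟩)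
  have hc : ∀ w : Pl, ¬ (w.p : ℤ) ∣ n → IsCh w.I θ := fun w hw =>
    ⟨hs.mono le_top, fun g _ h hh => by rw [hθ g trivial h trivial, (hI w hw h hh g).1, add_zero]⟩
  have ho : ∀ w : Pl, ¬ (w.p : ℤ) ∣ n → w.p ≠ 2 := fun w hw e => hw (by rw [e]; exact h2)
  have key : ∀ p : ℕ, ∃ c : ZMod 2, ∀ w : Pl, w.p = p → ¬ (w.p : ℤ) ∣ n → ∀ i ∈ w.I,
      θ i = c * qz p i := fun p => by
    by_cases e : ∃ w0 : Pl, w0.p = p ∧ ¬ (w0.p : ℤ) ∣ n
    · obtain ⟨w0, rfl, h0⟩ := e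
      obtain ⟨t, ht, hβ⟩ := Pl.exists_gen hA.tame hA.res (ho w0 h0)
      refine ⟨θ t, fun w e hw i hi => ?_⟩
      obtain ⟨σ, rfl⟩ := hA.pl.2.1 w w0 e
      have hj : σ * i * σ⁻¹ ∈ (σ • w).I := Pl.mem_I_smul.2 (by simpa [mul_assoc] using hi)
      have h1 := hθ σ trivial i trivial
      have h3 := hθ (σ * i * σ⁻¹) trivial σ trivial
      rw [inv_mul_cancel_right, h1, (hI w hw i hi σ).1, (hI _ h0 _ hj σ).2, add_zero, add_zero,
        add_comm, add_left_inj] at h3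
      rw [h3, ch_tame hA (ho _ h0) (hc _ h0) ht hβ _ hj, qz_conj]
    · exact ⟨0, fun w e' hw => absurd ⟨w, e', hw⟩ e⟩
  choose c hcc using key
  obtain ⟨N, hN, hN'⟩ := id hs
  obtain ⟨B, hB⟩ := hA.genp.2.1 N hN
  have hσ := isCh_sum ((Finset.range (B + 1)).filter Nat.Prime) c
  refine ⟨fun g => θ g + ∑ p ∈ (Finset.range (B + 1)).filter Nat.Prime, c p * qz p g,
    ⟨hs.comp₂ hσ.1 (· + ·), fun g hg h hh => ?_⟩, fun w hw i hi => ?_⟩
  · have := hσ.2 g hg h hh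
    beta_reduce at this ⊢
    rw [this, hθ g hg h hh]
    ring
  · have hz : ∀ p ∈ (Finset.range (B + 1)).filter Nat.Prime, p ≠ w.p → c p * qz p i = 0 :=
      fun p hp e => by
        rw [qz_I hA (fun e' => ?_) hi, mul_zero]
        rcases (Nat.Prime.dvd_mul w.prime).1 (show w.p ∣ 2 * p by exact_mod_cast e') with h | h
        · exact ho w hw ((Nat.prime_dvd_prime_iff_eq w.prime Nat.prime_two).1 h)
        · exact e ((Nat.prime_dvd_prime_iff_eq w.prime (Finset.mem_filter.1 hp).2).1 h).symm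
    beta_reduce
    rcases lt_or_ge B w.p with h | h
    · have h1 := hN' 1 trivial i trivial (hB w h hi)
      rw [one_mul, (hc w hw).one] at h1
      rw [h1, zero_add]
      refine Finset.sum_eq_zero fun p hp => hz p hp fun e => ?_
      have := Finset.mem_range.1 (Finset.mem_filter.1 hp).1
      omega
    · rw [Finset.sum_eq_single_of_mem w.p (Finset.mem_filter.2
        ⟨Finset.mem_range.2 (Nat.lt_succ_of_le h), w.prime⟩) hz, ← hcc _ w rfl hw i hi]
      exact CharTwo.add_self_eq_zero _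

end Pool.Agent.P.MP_8b7eba_nt.R2
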