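import Pool.Agent.P.MP_8b7eba_nt.R2.GrpA
import Pool.Agent.P.MP_9c97e9_nt.Sha

/-! Proof of SHA. -/

namespace Pool.Agent.P.MP_8b7eba_nt.R2

open scoped NNReal Matrix
open MP_9c97e9_nt (Pt pm Is ap Sha Split)
open Filter Topology Polynomial Module

namespace TSHA

open MP_9c97e9_nt

open Classical in
theorem exists_iso {F : Type} [Field F] {W W' : WeierstrassCurve ℤ} {e₁ e₂ e₃ u r : F}
    (h : Split W e₁ e₂ e₃) (h' : Split W' (u ^ 2 * e₁ + r) (u ^ 2 * e₂ + r) (u ^ 2 * e₃ + r))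
    (hu : u ≠ 0) : ∃ ι : Pt W F →+ Pt W' F, Function.Bijective ι ∧
      ∀ P x η, Is P x η → Is (ι P) (u ^ 2 * x + r) (u ^ 3 * η) := by
  have key : ∀ P : Pt W F, ∃ Q : Pt W' F, (P = 0 → Q = 0) ∧
      ∀ x η, Is P x η → Is Q (u ^ 2 * x + r) (u ^ 3 * η) := fun P => by
    rcases zero_or_is P with rfl | ⟨x, η, hP⟩
    · exact ⟨0, fun _ => rfl, fun x η e => absurd rfl e.ne_zero⟩
    obtain ⟨Q, hQ⟩ := h'.exists_is (x := u ^ 2 * x + r) (η := u ^ 3 * η)
      (by linear_combination u ^ 6 * hP.eq h)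
    refine ⟨Q, fun e => absurd e hP.ne_zero, fun x' η' e => ?_⟩
    obtain ⟨rfl, rfl⟩ := hP.inj e
    exact hQ
  choose f f0 f1 using key
  have h4 := h.four
  have hc : ∀ m x₁ x₂ : F, ∃ x₃, 4 * (x₁ + x₂ + x₃) = m ^ 2 + 4 * (e₁ + e₂ + e₃) :=
    fun m x₁ x₂ => ⟨m ^ 2 / 4 + (e₁ + e₂ + e₃) - x₁ - x₂, by field_simp; ring⟩
  have hadd : ∀ P Q, f (P + Q) = f P + f Q := fun P Q => by
    rcases zero_or_is P with rfl | ⟨x₁, η₁, hP⟩
    · rw [zero_add, f0 0 rfl, zero_add]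
    rcases zero_or_is Q with rfl | ⟨x₂, η₂, hQ⟩
    · rw [add_zero, f0 0 rfl, add_zero]
    by_cases hx : x₁ = x₂
    · subst hx
      by_cases h5 : η₂ = -η₁
      · subst h5
        rw [hP.add_eq_zero h hQ, f0 0 rfl, (f1 _ _ _ hP).add_eq_zero h' (by simpa using f1 _ _ _ hQ)]
      obtain rfl : η₂ = η₁ :=
        (sq_eq_sq_iff_eq_or_eq_neg.1 ((hQ.eq h).trans (hP.eq h).symm)).resolve_right h5
      obtain rfl := hP.unique h hQ
      have h6 : η₂ ≠ 0 := fun e => h5 (by simp [e])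
      have hm := div_mul_cancel₀
        (2 * ((x₁ - e₁) * (x₁ - e₂) + (x₁ - e₁) * (x₁ - e₃) + (x₁ - e₂) * (x₁ - e₃))) h6
      generalize _ / η₂ = m at hm
      obtain ⟨x₃, h3⟩ := hc m x₁ x₁
      have := (f1 _ _ _ hP).add_self h' (by positivity) (m := u * m) (x₃ := u ^ 2 * x₃ + r)
        (by linear_combination u ^ 4 * hm) (by linear_combination u ^ 2 * h3)
      refine (f1 _ _ _ (hP.add_self h h6 hm h3)).unique h' ?_
      convert this using 1
      ring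
    · have hm := div_mul_cancel₀ (η₁ - η₂) (sub_ne_zero.2 hx)
      generalize _ / (x₁ - x₂) = m at hm
      obtain ⟨x₃, h3⟩ := hc m x₁ x₂
      have := (f1 _ _ _ hP).add_ne h' (f1 _ _ _ hQ)
        (fun e => hx (mul_left_cancel₀ (pow_ne_zero 2 hu) (add_right_cancel e))) (m := u * m)
        (x₃ := u ^ 2 * x₃ + r) (by linear_combination u ^ 3 * hm) (by linear_combination u ^ 2 * h3)
      refine (f1 _ _ _ (hP.add_ne h hQ hx hm h3)).unique h' ?_
      convert this using 1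
      ring
  refine ⟨AddMonoidHom.mk' f hadd, ⟨(injective_iff_map_eq_zero _).2 fun P e => ?_, fun R => ?_⟩, f1⟩
  · exact (zero_or_is P).resolve_right fun ⟨x, η, hP⟩ => (f1 _ _ _ hP).ne_zero e
  rcases zero_or_is R with rfl | ⟨X, H, hR⟩
  · exact ⟨0, map_zero _⟩
  obtain ⟨x, rfl⟩ : ∃ x, X = u ^ 2 * x + r := ⟨(X - r) / u ^ 2, by field_simp; ring⟩
  obtain ⟨η, rfl⟩ : ∃ η, H = u ^ 3 * η := ⟨H / u ^ 3, by field_simp⟩
  obtain ⟨P, hP⟩ := h.exists_is (x := x) (η := η)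
    (mul_left_cancel₀ (pow_ne_zero 6 hu) (by linear_combination hR.eq h'))
  exact ⟨P, (f1 _ _ _ hP).unique h' hR⟩

theorem exists_odd {A : Type} [AddCommGroup A] {k i : ℕ}
    (h : ∀ f : ZMod (2 ^ k) × ZMod (2 ^ k) →+ A, ¬ Function.Injective f) {s s' : A}
    (hs : 2 ^ i • s = 0) (hs' : 2 ^ i • s' = 0) :
    ∃ a b : ℤ, (Odd a ∨ Odd b) ∧ 2 ^ k • (a • s + b • s') = 0 := by
  by_contra hc
  push Not at hc
  let φ : ℤ × ℤ →ₗ[ℤ] A := (LinearMap.toSpanSingleton ℤ A s).coprod (LinearMap.toSpanSingleton ℤ A s')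
  have hφ : ∀ v, φ v = v.1 • s + v.2 • s' := fun v => rfl
  have h1 : ∀ j ≤ k, ∀ v, φ v = 0 → ∃ w, v = 2 ^ j • w := fun j hj v hv => by
    induction j with
    | zero => exact ⟨v, by simp⟩
    | succ j ih =>
      obtain ⟨⟨a, b⟩, rfl⟩ := ih (by omega)
      have h2 : ¬ (Odd a ∨ Odd b) := fun e => hc a b e (by
        obtain ⟨l, rfl⟩ := Nat.exists_eq_add_of_le' (show j ≤ k by omega)
        rw [map_nsmul] at hv
        rw [pow_add, mul_smul, ← hφ (a, b), hv, smul_zero])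
      rw [not_or, Int.not_odd_iff_even, Int.not_odd_iff_even] at h2
      obtain ⟨⟨a, rfl⟩, b, rfl⟩ := h2
      exact ⟨(a, b), by rw [pow_succ, mul_smul, two_smul]; rfl⟩
  let L : Submodule ℤ (ℤ × ℤ) := LinearMap.ker (2 ^ k • φ)
  have hL : ∀ v, v ∈ L ↔ 2 ^ k • φ v = 0 := fun v => Iff.rfl
  have h3 : finrank ℤ (ℤ × ℤ) = finrank ℤ L := by
    refine le_antisymm (LinearMap.finrank_le_finrank_of_injective
      (f := LinearMap.codRestrict L (2 ^ i • LinearMap.id) fun v => ?_) fun v w e => ?_)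
      L.finrank_le
    · rw [hL, LinearMap.smul_apply, map_nsmul, hφ, smul_add (2 ^ i), smul_comm (2 ^ i), hs,
        smul_comm (2 ^ i), hs']
      simp
    · exact nsmul_right_injective (n := 2 ^ i) (by positivity) (congrArg Subtype.val e)
  let e := LinearEquiv.ofFinrankEq (ℤ × ℤ) L h3
  have h4 : ∀ v, (zmultiplesHom A (φ (e v))) (2 ^ k : ℕ) = 0 := fun v => by
    rw [zmultiplesHom_apply, natCast_zsmul]
    exact (e v).2
  refine h ((ZMod.lift _ ⟨_, h4 (1, 0)⟩).coprod (ZMod.lift _ ⟨_, h4 (0, 1)⟩))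
    ((injective_iff_map_eq_zero _).2 fun ⟨x, y⟩ e0 => ?_)
  obtain ⟨x, rfl⟩ := ZMod.intCast_surjective x
  obtain ⟨y, rfl⟩ := ZMod.intCast_surjective y
  rw [AddMonoidHom.coprod_apply, ZMod.lift_coe, ZMod.lift_coe, zmultiplesHom_apply,
    zmultiplesHom_apply, ← map_zsmul, ← map_zsmul, ← map_add, ← Submodule.coe_smul,
    ← Submodule.coe_smul, ← Submodule.coe_add, ← map_smul, ← map_smul, ← map_add] at e0
  obtain ⟨w, hw⟩ := h1 k le_rfl _ e0
  have h5 : w ∈ L := by rw [hL, ← map_nsmul, ← hw, e0]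
  have h6 : x • ((1, 0) : ℤ × ℤ) + y • ((0, 1) : ℤ × ℤ) = 2 ^ k • e.symm ⟨w, h5⟩ := by
    apply e.injective
    rw [map_nsmul, e.apply_symm_apply]
    exact Subtype.ext hw
  have h7 := congrArg Prod.fst h6
  have h8 := congrArg Prod.snd h6
  simp only [Prod.fst_add, Prod.snd_add, Prod.smul_fst, Prod.smul_snd, smul_eq_mul, mul_one,
    mul_zero, add_zero, zero_add, nsmul_eq_mul] at h7 h8
  exact Prod.ext ((ZMod.intCast_zmod_eq_zero_iff_dvd _ _).2 ⟨_, h7⟩)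
    ((ZMod.intCast_zmod_eq_zero_iff_dvd _ _).2 ⟨_, h8⟩)

theorem real_two : ∃ σ₀ : Gal ℝ, σ₀ * σ₀ = 1 ∧ ∀ σ : Gal ℝ, σ = 1 ∨ σ = σ₀ := by
  have : IsAlgClosure ℝ ℂ := ⟨inferInstance, inferInstance⟩
  let e : AlgebraicClosure ℝ ≃ₐ[ℝ] ℂ := IsAlgClosure.equiv ℝ _ _
  refine ⟨(e.trans Complex.conjAe).trans e.symm, by ext x; simp, fun σ => ?_⟩
  refine (Complex.real_algHom_eq_id_or_conj ((e.symm.trans σ).trans e : ℂ ≃ₐ[ℝ] ℂ)).imp
    (fun h => ?_) fun h => ?_ <;> ext x <;> have := DFunLike.congr_fun h (e x)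
  · simpa using this
  · simpa [AlgEquiv.eq_symm_apply] using this

open Classical in
theorem loc_two {W : WeierstrassCurve ℤ} {K : Type} [Field K] [CharZero K] {σ₀ : Gal K}
    (h0 : σ₀ * σ₀ = 1) (h1 : ∀ σ : Gal K, σ = 1 ∨ σ = σ₀) {c : GQ → Pt W Om}
    (hc : ∀ σ τ, c (σ * τ) = c σ + pm W σ (c τ)) : LocTriv W K fun g => 2 • c g := by
  have c1 : c 1 = 0 := by simpa [pm_one] using hc 1 1
  obtain ⟨τ₀, h2⟩ := exists_restrict (k := ℚ) σ₀
  have h3 : τ₀ * τ₀ = 1 := AlgEquiv.ext fun x => (emb ℚ K).injective (by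
    rw [AlgEquiv.mul_apply, h2, h2, ← AlgEquiv.mul_apply, h0]; rfl)
  have h4 := hc τ₀ τ₀
  rw [h3, c1] at h4
  refine ⟨-pm W (emb ℚ K) (c τ₀), fun σ τ h => ?_⟩
  rcases h1 σ with rfl | rfl
  · obtain rfl : τ = 1 := AlgEquiv.ext fun x => (emb ℚ K).injective (h x)
    simp [c1, pm_one]
  · obtain rfl : τ = τ₀ := AlgEquiv.ext fun x => (emb ℚ K).injective ((h x).trans (h2 x).symm)
    rw [map_neg, ← pm_compat h, eq_neg_of_add_eq_zero_right h4.symm, map_nsmul, map_neg]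
    abel

theorem place (p : ℕ) [hp : Fact p.Prime] (f : Om →+* AlgebraicClosure ℚ_[p]) :
    ∃ w : Pl, ∀ (σ : Gal ℚ_[p]) (τ : GQ), (∀ x, f (τ x) = σ (f x)) → τ ∈ w.D := by
  refine ⟨⟨p, hp.out, (PadicAlgCl.valued p).v.comap f, ?_⟩, fun σ τ h => Pl.mem_D.2 fun x => ?_⟩
  · rw [Valuation.comap_apply, map_natCast, ← one_div]
    exact PadicAlgCl.valuation_p p
  · refine NNReal.eq ?_
    change spectralNorm ℚ_[p] (AlgebraicClosure ℚ_[p]) (f (τ x)) = spectralNorm ℚ_[p] _ (f x)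
    rw [h, ← spectralNorm_eq_of_equiv]

end TSHA

open TSHA MP_9c97e9_nt Classical in
theorem t_SHA (hCA : CA) : SHA := by
  intro d δ hd hδ
  have hd' : (d : Om) ≠ 0 := Int.cast_ne_zero.2 hd
  have h0 : δ ≠ 0 := fun e => hd' (by rw [← hδ, e]; simp)
  have hF : Fix ⊤ (δ ^ 2) := fun g _ => by rw [hδ, map_intCast]
  have hu : (3 * δ) ^ 2 = 9 * d := by rw [← hδ]; ring
  have hs : Split (Wd d) ((3 * δ) ^ 2 * 0 + -21 * d) ((3 * δ) ^ 2 * -9 + -21 * d)
      ((3 * δ) ^ 2 * 16 + -21 * (d : Om)) := by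
    rw [hu]
    refine ⟨two_ne_zero, fun e => hd' ?_, fun e => hd' ?_, fun e => hd' ?_, ?_, ?_, ?_⟩
    · linear_combination e / 81
    · linear_combination -e / 144
    · linear_combination -e / 225
    all_goals simp only [Wd]; push_cast; ring
  obtain ⟨ι, ⟨inj, sur⟩, hι⟩ := exists_iso split15 hs (mul_ne_zero three_ne_zero h0)
  have eqv : ∀ (g : GQ) (P : EO), pm (Wd d) g (ι P) = ι (tac δ g P) := fun g P => by
    rcases zero_or_is P with rfl | ⟨x, η, hP⟩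
    · simp
    have h1 := (hι _ _ _ hP).map (K := Om) g
    have h2 := sd_apply hF g
    have h3 := is_ac g hP
    refine h1.unique hs ?_
    rw [tac_apply]
    rcases sd_cases δ g with e | e <;> rw [e] at h2 ⊢
    · convert hι _ _ _ h3 using 1 <;> simp [h2, map_ofNat]
    · rw [neg_smul, one_smul]
      convert hι _ _ _ h3.neg using 1 <;> simp [h2, map_ofNat]
      ring
  refine ⟨fun h => ?_, fun hf ⟨k, hk⟩ => ⟨k + 1, fun c c' hc hc' => ?_⟩⟩
  · have key : ∀ P : EO, ∃ q : ℚ × ℚ, P ∈ RatP δ \ {0} → Is (ι P) q.1 (2 * q.2) := fun P => by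
      by_cases hP : P ∈ RatP δ \ {0}
      · obtain ⟨X, H, h1⟩ := (zero_or_is (ι P)).resolve_left
          fun e => hP.2 ((map_eq_zero_iff _ inj).1 e)
        have h2 : ∀ g : GQ, g X = X ∧ g H = H := fun g => by
          have := h1.map (K := Om) g
          rw [eqv, hP.1 g] at this
          exact this.inj h1
        obtain ⟨a, rfl⟩ := of_fixed fun g => (h2 g).1
        obtain ⟨b, rfl⟩ := of_fixed fun g => (h2 g).2
        refine ⟨(a, b / 2), fun _ => ?_⟩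
        rw [eq_ratCast, eq_ratCast] at h1
        convert h1 using 1
        push_cast
        ring
      · exact ⟨0, fun e => absurd e hP⟩
    choose q hq using key
    refine Set.infinite_of_injOn_mapsTo (f := q) (fun P hP Q hQ e => inj ?_) (fun P hP => ?_)
      (h.sdiff (Set.finite_singleton 0))
    · exact (hq P hP).unique hs (e ▸ hq Q hQ)
    · have := (hq P hP).eq hs
      rw [hu] at this
      apply Rat.cast_injective (α := Om)
      push_cast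
      linear_combination this / 4
  have mem : ∀ {c}, SelC δ c → (fun g => 2 • ι (c g)) ∈ shaCocycles (Wd d) := fun {c} hc => by
    have co : ∀ σ τ : GQ, ι (c (σ * τ)) = ι (c σ) + pm (Wd d) σ (ι (c τ)) := fun σ τ => by
      rw [hc.co, map_add, eqv]
    obtain ⟨σ₀, h1, h2⟩ := real_two
    refine ⟨(sm_top_iff.1 hc.sm).comp fun P => 2 • ι P, fun σ τ => ?_, loc_two h1 h2 co,
      fun p _ => ?_⟩
    · simp only [co, smul_add, map_nsmul]
    obtain ⟨w, hw⟩ := place p (emb ℚ ℚ_[p])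
    obtain ⟨P, hP⟩ := hc.loc w
    refine ⟨pm _ (emb ℚ ℚ_[p]) (2 • ι P), fun σ τ h => ?_⟩
    beta_reduce
    rw [← pm_compat h, hP τ (hw σ τ h), map_sub, ← eqv, smul_sub, map_sub,
      map_nsmul (pm (Wd d) (τ : Om →+* Om))]
  obtain ⟨i, hi⟩ := hc.tor
  obtain ⟨i', hi'⟩ := hc'.tor
  have tor : ∀ {c} (hc : SelC δ c), (∀ g, 2 ^ (i + i') • c g = 0) →
      2 ^ (i + i') • (QuotientAddGroup.mk ⟨_, mem hc⟩ : Sha (Wd d)) = 0 := fun {c} hc h => by
    have : 2 ^ (i + i') • (⟨_, mem hc⟩ : shaCocycles (Wd d)) = 0 :=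
      Subtype.ext (funext fun g => by
        change 2 ^ (i + i') • 2 • ι (c g) = 0
        rw [smul_comm, ← map_nsmul, h, map_zero, smul_zero])
    exact (QuotientAddGroup.mk_nsmul _ _ _).symm.trans (by rw [this]; rfl)
  have t1 : ∀ g, 2 ^ (i + i') • c g = 0 := fun g => by rw [pow_add, mul_comm, mul_smul, hi, smul_zero]
  have t2 : ∀ g, 2 ^ (i + i') • c' g = 0 := fun g => by rw [pow_add, mul_smul, hi', smul_zero]
  obtain ⟨a, b, hab, h1⟩ := exists_odd hk (tor hc t1) (tor hc' t2)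
  obtain ⟨R, hR⟩ := (QuotientAddGroup.eq_zero_iff
    (N := (coboundaries (Wd d)).addSubgroupOf (shaCocycles (Wd d))) (2 ^ k •
      (a • (⟨_, mem hc⟩ : shaCocycles (Wd d)) + b • (⟨_, mem hc'⟩ : shaCocycles (Wd d))))).1 h1
  obtain ⟨P, rfl⟩ := sur R
  have h2 : ∀ g, 2 ^ (k + 1) • (a • c g + b • c' g) = tac δ g P - P := fun g => inj (by
    have : pm (Wd d) g (ι P) - ι P = 2 ^ k • (a • 2 • ι (c g) + b • 2 • ι (c' g)) := congrFun hR g
    rw [map_sub, ← eqv, this, map_nsmul, map_add, map_zsmul, map_zsmul]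
    module)
  refine ⟨a, b, hab, P, by_contra fun h3 => hf.not_infinite ?_, h2⟩
  refine Set.infinite_of_injective_forall_mem (f := fun n : ℕ => (n * 2 ^ (i + i')) • P)
    (fun m n e => ?_) fun n g => ?_
  · exact mul_right_cancel₀ (by positivity) (injective_nsmul_iff_not_isOfFinAddOrder.2 h3 e)
  · rw [map_nsmul, ← sub_eq_zero, ← smul_sub, ← h2, mul_smul, smul_comm (2 ^ (i + i')), smul_add,
      smul_comm (2 ^ (i + i')), t1, smul_comm (2 ^ (i + i')), t2]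
    simp

end Pool.Agent.P.MP_8b7eba_nt.R2
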