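import Pool.Agent.P.MP_8b7eba_nt.R2.SelB

/-! Proof of KLOC. -/

namespace Pool.Agent.P.MP_8b7eba_nt.R2

open scoped NNReal Matrix
open MP_9c97e9_nt (Pt pm Is ap Sha Split)
open Filter Topology Polynomial Module

namespace TKLOC

variable {A : Type} [NormedCommRing A] [NormedAlgebra ℚ_[2] A] {ψ : ℤ_[2] → A}

/-- the sum attached to a family of vectors -/
noncomputable def sm (ψ : ℤ_[2] → A) (k : ℕ) (u : ℕ → V2) : Fin 2 → A :=
  fun i => ∑ j ∈ Finset.range (2 ^ k), u j i • ψ j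

theorem mv_sm (B : Mt) (k : ℕ) (u : ℕ → V2) : mv B (sm ψ k u) = sm ψ k fun j => B *ᵥ u j := by
  funext i
  simp only [mv_apply, sm, Finset.smul_sum, ← Finset.sum_add_distrib, smul_smul, ← add_smul,
    Matrix.mulVec, dotProduct, Fin.sum_univ_two]

theorem sm_sub (k : ℕ) (u u' : ℕ → V2) : sm ψ k u - sm ψ k u' = sm ψ k fun j => u j - u' j := by
  funext i
  simp only [sm, Pi.sub_apply, ← Finset.sum_sub_distrib, sub_smul]

theorem cont (B : Mt) (i : Fin 2) : Continuous fun x : Fin 2 → A => mv B x i := by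
  simp only [mv_apply]
  fun_prop

theorem lim0 {W : Type} [NormedAddCommGroup W] {f : ℕ → W} (h : ∀ᶠ k in UF, ‖f k‖ ≤ (2 ^ k)⁻¹) :
    Tendsto f UF (𝓝 0) :=
  squeeze_zero_norm' h ((tendsto_inv_atTop_zero.comp
    (tendsto_pow_atTop_atTop_of_one_lt one_lt_two)).mono_left UF_le)

theorem norm_inv_pow (k : ℕ) : ‖(2 ^ k : ℚ_[2])⁻¹‖ = 2 ^ k := by
  rw [norm_inv, norm_pow, Csum.norm_two, inv_pow, inv_inv]

theorem le_of {W : Type} [NormedAddCommGroup W] [NormedSpace ℚ_[2] W] {k : ℕ} {x : W}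
    (h : ‖(2 ^ k : ℚ_[2])⁻¹ • x‖ ≤ 1) : ‖x‖ ≤ (2 ^ k)⁻¹ := by
  rw [norm_smul, norm_inv_pow] at h
  rwa [← one_div, le_div_iff₀' (by positivity)]

variable [IsUltrametricDist A]

theorem norm_sm (h : IsPsi ψ) {k : ℕ} {u : ℕ → V2} {C : ℝ} (hC : 0 ≤ C) {i : Fin 2}
    (hu : ∀ j < 2 ^ k, ‖u j i‖ ≤ C) : ‖sm ψ k u i‖ ≤ C :=
  IsUltrametricDist.norm_sum_le_of_forall_le_of_nonneg hC fun j hj =>
    (norm_smul_le _ _).trans ((mul_le_of_le_one_right (norm_nonneg _) (h.le _)).trans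
      (hu j (Finset.mem_range.1 hj)))

theorem norm_sm' (h : IsPsi ψ) {k : ℕ} {u : ℕ → V2} {C : ℝ} (hC : 0 ≤ C)
    (hu : ∀ j < 2 ^ k, ‖u j‖ ≤ C) : ‖sm ψ k u‖ ≤ C :=
  (pi_norm_le_iff_of_nonneg hC).2 fun i =>
    norm_sm h hC fun j hj => (norm_le_pi_norm _ i).trans (hu j hj)

variable [FiniteDimensional ℚ_[2] A]

theorem zero (h : IsPsi ψ) {v : KA} (hv : ∀ k g j, ‖v k g j‖ ≤ 1) (B : Mt) (i : Fin 2) {g : GS}
    (e : ∀ᶠ k in UF, ∀ j < 2 ^ k, ‖(B *ᵥ v k (g k) j) i‖ ≤ (2 ^ k)⁻¹) :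
    mv B (raw ψ v g) i = 0 := by
  refine tendsto_nhds_unique (((cont B i).tendsto _).comp (tendsto_raw h hv g)) (lim0 ?_)
  filter_upwards [e] with k hk
  exact (congrArg norm (congrFun (mv_sm B k (v k (g k))) i)).trans_le
    (norm_sm h (by positivity) hk)

variable {D : Dat} {H : Heeg D.toPre D.a} {n : List (Kp D)} {v : KA}

theorem key (hI : INVP) (hn : Ok n) (hv : D.KD H n v) (k : ℕ) : ∃ Q : ℕ → EO, ∀ j < 2 ^ k,
    (∀ g ∈ H.N (D.ck n k), ac g (2 ^ k • Q j) = 2 ^ k • Q j) ∧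
      ∀ g ∈ H.N (D.ck n k), D.T.pt ((2 ^ k : ℚ_[2])⁻¹ • v k g j) = ac g (Q j) - Q j := by
  obtain ⟨-, -, Q, R, h⟩ := hv k
  obtain ⟨⟨-, -, h1⟩, h2, -⟩ := hI D H n k hn
  refine ⟨fun j => Q j, fun j hj => ⟨fun g hg => ?_, fun g hg => ?_⟩⟩
  · rw [(h j).1, h2 _ g hg]
  · obtain ⟨-, h3, h4⟩ := (h j).2 g (H.le _ hg)
    simp only [(h1 g hg).1, sub_zero, tac_apply, sd_eq_one.2 (h1 g hg).2, one_smul] at h3 h4
    rwa [h3 (h2 _ g hg), sub_zero, ZMod.val_cast_of_lt hj] at h4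

theorem not_dvd {k : ℕ} {w : Pl} (h1 : ¬ (w.p : ℤ) ∣ 30 * D.d) (h2 : ∀ l ∈ n, w.p ≠ (l.w k).p) :
    w.p ≠ 2 ∧ ¬ w.p ∣ 15 ∧ ¬ w.p ∣ D.ck n k := by
  have h3 : w.p ≠ 2 := fun e => h1 (by rw [e]; exact Dvd.intro (15 * D.d) (by push_cast; ring))
  refine ⟨h3, fun e => h1 ((Int.natCast_dvd_natCast.2 (e.mul_left 2)).mul_right _), fun e => ?_⟩
  rcases (Nat.Prime.dvd_mul w.prime).1 e with e | e
  · rcases (Nat.Prime.dvd_mul w.prime).1 e with e | e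
    · exact h3 ((Nat.prime_dvd_prime_iff_eq w.prime Nat.prime_two).1 (w.prime.dvd_of_dvd_pow e))
    · exact h1 ((Int.natCast_dvd.2 e).mul_left _)
  · obtain ⟨q, hq, e⟩ := (Prime.dvd_prod_iff w.prime.prime).1 e
    obtain ⟨l, hl, rfl⟩ := List.mem_map.1 hq
    exact h2 l hl ((Nat.prime_dvd_prime_iff_eq w.prime (l.w k).prime).1 e)

theorem bad (hCF : CF) (hI : INVP) (hn : Ok n) (hv : D.KD H n v) {w : Pl} (hw : w.p ∣ 15) (k : ℕ) :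
    ∃ u : ℕ → V2, ∀ j < 2 ^ k, ‖u j‖ ≤ 4 ∧
      ∀ g ∈ w.I, ‖v k g j - (D.T.rho g *ᵥ u j - u j)‖ ≤ (2 ^ k)⁻¹ := by
  obtain ⟨Q, hQ⟩ := key hI hn hv k
  have h1 : w.I ≤ H.N (D.ck n k) := fun g hg => H.unr _ w (fun e => by rw [e] at hw; omega)
    (fun e => w.prime.one_lt.ne' (Nat.eq_one_of_dvd_coprimes (hI D H n k hn).1.1 e (hw.mul_right _)))
    ⟨hg, D.spD w ((Int.natCast_dvd_natCast.2 (hw.mul_left 2)).mul_right _) (w.I_le_D hg)⟩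
  have : ∀ j, ∃ u : V2, j < 2 ^ k → ‖u‖ ≤ 4 ∧
      ∀ g ∈ w.I, ‖v k g j - (D.T.rho g *ᵥ u - u)‖ ≤ (2 ^ k)⁻¹ := fun j => by
    by_cases hj : j < 2 ^ k
    swap
    · exact ⟨0, fun h => (hj h).elim⟩
    obtain ⟨P', S, h2, h3, h4⟩ := hCF.half w hw _ (fun g hg => (hQ j hj).1 g (h1 hg)) k
    have h5 : 2 ^ (k + 2) • (Q j - P') = 0 := by
      rw [pow_add, mul_nsmul, nsmul_sub, h4, add_sub_cancel_left]
      exact h3
    obtain ⟨x, hx⟩ := D.T.surj _ _ h5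
    rw [← hx, D.T.pt_pow] at h5
    have h6 : (2 ^ k : ℚ_[2]) ≠ 0 := pow_ne_zero k two_ne_zero
    refine ⟨(2 ^ k : ℚ_[2]) • x, fun _ => ⟨?_, fun g hg => le_of ?_⟩⟩
    · rw [norm_smul, norm_pow, Csum.norm_two, inv_pow, inv_mul_le_iff₀ (by positivity)]
      exact h5.trans_eq (by ring)
    · rw [Matrix.mulVec_smul, ← smul_sub, smul_sub, inv_smul_smul₀ h6, ← D.T.pt_eq,
        (hQ j hj).2 g (h1 hg), map_sub, ← D.T.gal, hx, map_sub, h2 g hg, sub_sub_sub_cancel_right]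
  choose u hu using this
  exact ⟨u, hu⟩

theorem ord (hCF : CF) (hI : INVP) (hn : Ok n) (hv : D.KD H n v) (s : GQ) {k : ℕ} {g : GQ}
    (hg : g ∈ D.w2.D) {j : ℕ} (hj : j < 2 ^ k) :
    ‖(D.T.rho s *ᵥ v k (s⁻¹ * (g * D.f2 * g⁻¹ * D.f2⁻¹) * s) j) 1‖ ≤ (2 ^ k)⁻¹ := by
  obtain ⟨Q, hQ⟩ := key hI hn hv k
  have h1 := (H.on _).1.conj_mem' _ (H.ab (D.ck n k) g (D.D_le hg) _ (D.D_le D.fD)) s
  have h2 := (hCF.cong (s⁻¹ • D.w2) (by rw [Pl.smul_p, D.hw2]; norm_num)).2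
    (s⁻¹ * (g * D.f2 * g⁻¹ * D.f2⁻¹) * s)
    (Pl.mem_I_smul.2 (by simpa [mul_assoc] using Pl.comm_mem hCF.frob hg D.fD)) (Q j)
  rw [← (hQ j hj).2 _ h1, ← (hCF.e1g _).2.2.2.1 s, smul_inv_smul, D.T.gal, D.T.e1,
    Matrix.mulVec_smul] at h2
  exact le_of h2

end TKLOC

open TKLOC in
theorem t_KLOC (hCF : CF) (hINVP : INVP) (hKPZ : KPZ) : KLOC := by
  intro D H n v hn hv A _ _ _ _ ψ h
  have hb : ∀ k g j, ‖v k g j‖ ≤ 1 := fun k => (hv k).2.1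
  have hz := ((hKPZ D H n v hn hv).2 A ψ h).2
  refine ⟨fun w g hg => ?_, fun w hw => ?_, Dat.ord_of_comm h (hz.mono fun _ => D.D_le) ?_,
    Dat.ord_of_comm h.bar ((hz.xt hCF.toCB h).mono fun _ => D.D_le) ?_⟩
  · funext i
    rw [← mv_one (raw ψ v g)]
    refine zero h hb 1 i (hg.mono fun k hk j hj => ?_)
    obtain ⟨Q, hQ⟩ := key hINVP hn hv k
    obtain ⟨h1, h2, h3⟩ := not_dvd hk.2.1 hk.2.2
    have h4 := (hCF.cong _ h2).2 _ hk.1.1 (Q j)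
    rw [← (hQ j hj).2 _ (H.unr _ _ h1 h3 hk.1)] at h4
    obtain ⟨m, hm⟩ := D.T.tors ((2 ^ k : ℚ_[2])⁻¹ • v k (g k) j)
    rw [Matrix.one_mulVec]
    exact (norm_le_pi_norm _ i).trans
      (le_of ((D.T.ker _).1 ((hCF.e1g _).2.2.2.2.2 h1 _ m h4 hm)))
  · choose u hu using bad hCF hINVP hn hv hw
    have h1 := tendsto_ul (f := fun k => sm ψ k (u k)) (B := 4)
      (.of_forall fun k => norm_sm' h (by norm_num) fun j hj => (hu k j hj).1)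
    refine ⟨_, fun g hg => eq_of_sub_eq_zero (tendsto_nhds_unique ((tendsto_raw h hb g).sub
      (((D.rep h).tendsto g h1).sub h1)) (lim0 (Eventually.mono hg fun k hk => ?_)))⟩
    rw [Dat.r_bad hCF.toCA h hw hk, mv_sm, sm_sub]
    exact (congrArg norm (sm_sub k (v k (g k)) _)).trans_le
      (norm_sm' h (by positivity) fun j hj => (hu k j hj).2 _ hk)
  · intro g hg
    rw [← mv_one (raw ψ v _)]
    refine zero h hb 1 1 (Eventually.mono hg fun k hk j hj => ?_)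
    simpa [cs] using ord hCF hINVP hn hv 1 hk hj
  · intro g hg
    refine zero h hb _ 1 (Eventually.mono hg fun k hk j hj => ?_)
    have := ord hCF hINVP hn hv tau hk hj
    rwa [inv_eq_of_mul_eq_one_right hCF.tau.2.1] at this

end Pool.Agent.P.MP_8b7eba_nt.R2
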