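import Pool.Agent.P.MP_8b7eba_nt.R2.DefsB
import Pool.Agent.P.MP_8b7eba_nt.R2.Nrm

/-! Sums over cosets, the action on points, and the predicate `Kq`. -/

namespace Pool.Agent.P.MP_8b7eba_nt.R2

open scoped NNReal Matrix
open MP_9c97e9_nt (Pt pm Is Split)

variable {M M' : Type} [AddCommGroup M] [AddCommGroup M'] {H H' H'' : Subgroup GQ} {f f' : GQ → M}

/-- `f` is invariant under right multiplication by `H'` on `H` -/
def RI (H H' : Subgroup GQ) (f : GQ → M) : Prop := ∀ s ∈ H, ∀ g ∈ H, g ∈ H' → f (s * g) = f s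

namespace Csum

open Nrm

theorem def' : csum H H' f = ∑ᶠ q, f (ro H H' q) := rfl

omit [AddCommGroup M] in
theorem RI.eq (hf : RI H H' f) {a b : GQ} (ha : a ∈ H) (hb : b ∈ H) (h : a⁻¹ * b ∈ H') :
    f a = f b := by
  rw [← hf a ha _ (H.mul_mem (H.inv_mem ha) hb) h, mul_inv_cancel_left]

theorem gen {ι : Type} (r : ι → GQ) (hf : RI H H' f) (h1 : ∀ i, r i ∈ H)
    (h2 : ∀ i j, (r i)⁻¹ * r j ∈ H' → i = j) (h3 : ∀ g ∈ H, ∃ i, (r i)⁻¹ * g ∈ H') :
    csum H H' f = ∑ᶠ i, f (r i) := by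
  refine (finsum_eq_of_bijective (fun i => ((⟨r i, h1 i⟩ : H) : H ⧸ H'.subgroupOf H))
    ⟨fun i j h => h2 i j ?_, fun q => ?_⟩ fun i => ?_).symm
  · exact (mk_eq (a := ⟨r i, h1 i⟩) (b := ⟨r j, h1 j⟩)).1 h
  · obtain ⟨i, hi⟩ := h3 _ (ro_mem q)
    exact ⟨i, ((mk_eq (a := ⟨r i, h1 i⟩) (b := q.out)).2 hi).trans q.out_eq'⟩
  · exact (RI.eq hf (ro_mem _) (h1 i)
      (mk_eq.1 (QuotientGroup.out_eq' ((⟨r i, h1 i⟩ : H) : H ⧸ H'.subgroupOf H)))).symm

theorem sum [Fintype (H ⧸ H'.subgroupOf H)] : csum H H' f = ∑ q, f (ro H H' q) :=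
  finsum_eq_sum_of_fintype _

end Csum

open Nrm Csum

theorem csum_eq_sum {ι : Type} (s : Finset ι) (r : ι → GQ) (hf : RI H H' f) (h1 : ∀ i ∈ s, r i ∈ H)
    (h2 : ∀ i ∈ s, ∀ j ∈ s, (r i)⁻¹ * r j ∈ H' → i = j) (h3 : ∀ g ∈ H, ∃ i ∈ s, (r i)⁻¹ * g ∈ H') :
    csum H H' f = ∑ i ∈ s, f (r i) := by
  rw [Csum.gen (fun i : s => r i) hf (fun i => h1 i i.2)
    (fun i j h => Subtype.ext (h2 i i.2 j j.2 h))
    (fun g hg => let ⟨i, hi, h⟩ := h3 g hg; ⟨⟨i, hi⟩, h⟩), finsum_eq_sum_of_fintype]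
  exact Finset.sum_coe_sort s fun i => f (r i)

theorem csum_congr (e : ∀ s ∈ H, f s = f' s) : csum H H' f = csum H H' f' :=
  finsum_congr fun q => e _ (ro_mem q)

theorem csum_add (h : H'.relIndex H ≠ 0) (f f' : GQ → M) :
    csum H H' (fun s => f s + f' s) = csum H H' f + csum H H' f' := by
  have := ft h
  simp only [Csum.sum, Finset.sum_add_distrib]

theorem csum_sub (h : H'.relIndex H ≠ 0) (f f' : GQ → M) :
    csum H H' (fun s => f s - f' s) = csum H H' f - csum H H' f' := by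
  have := ft h
  simp only [Csum.sum, Finset.sum_sub_distrib]

theorem csum_sum (h : H'.relIndex H ≠ 0) {ι : Type} (t : Finset ι) (F : ι → GQ → M) :
    csum H H' (fun s => ∑ i ∈ t, F i s) = ∑ i ∈ t, csum H H' (F i) := by
  have := ft h
  simp only [Csum.sum]
  exact Finset.sum_comm

theorem map_csum (h : H'.relIndex H ≠ 0) (L : M →+ M') (f : GQ → M) :
    L (csum H H' f) = csum H H' fun s => L (f s) := by
  have := ft h
  simp only [Csum.sum, map_sum]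

theorem csum_mem (A : AddSubgroup M) (e : ∀ s ∈ H, f s ∈ A) : csum H H' f ∈ A :=
  finsum_induction (· ∈ A) A.zero_mem (fun _ _ => A.add_mem) fun q => e _ (ro_mem q)

theorem csum_left (hf : RI H H' f) {g : GQ} (hg : g ∈ H) :
    csum H H' (fun s => f (g * s)) = csum H H' f := by
  refine (Csum.gen (fun q => g * ro H H' q) hf (fun q => H.mul_mem hg (ro_mem q))
    (fun q q' e => ro_inj (by simpa [mul_assoc] using e)) fun k hk => ?_).symm
  obtain ⟨q, hq⟩ := ro_surj (H' := H') (H.mul_mem (H.inv_mem hg) hk)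
  exact ⟨q, by simpa [mul_assoc] using hq⟩

theorem csum_right (hf : RI H H' f) {g : GQ} (hg : g ∈ H)
    (hn : ∀ s ∈ H, ∀ n ∈ H', s * n * s⁻¹ ∈ H') : csum H H' (fun s => f (s * g)) = csum H H' f := by
  refine (Csum.gen (fun q => ro H H' q * g) hf (fun q => H.mul_mem (ro_mem q) hg)
    (fun q q' e => ro_inj (by simpa [mul_assoc] using hn g hg _ e)) fun k hk => ?_).symm
  obtain ⟨q, hq⟩ := ro_surj (H' := H') (H.mul_mem hk (H.inv_mem hg))
  exact ⟨q, by simpa [mul_assoc] using hn _ (H.inv_mem hg) _ hq⟩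

theorem csum_trans (h1 : H' ≤ H) (h2 : H'' ≤ H') (h : H''.relIndex H ≠ 0) (hf : RI H H'' f) :
    csum H H'' f = csum H H' fun s => csum H' H'' fun t => f (s * t) := by
  rw [← Subgroup.relIndex_mul_relIndex H'' H' H h2 h1] at h
  have := ft (left_ne_zero_of_mul h)
  have := ft (right_ne_zero_of_mul h)
  rw [Csum.gen (H := H) (fun q : (H ⧸ H'.subgroupOf H) × (H' ⧸ H''.subgroupOf H') =>
    ro H H' q.1 * ro H' H'' q.2) hf (fun q => H.mul_mem (ro_mem _) (h1 (ro_mem _))) ?_ ?_,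
    finsum_eq_sum_of_fintype, Fintype.sum_prod_type]
  · simp only [Csum.sum]
  · rintro ⟨a, b⟩ ⟨a', b'⟩ e
    obtain rfl : a = a' := ro_inj (by
      have := H'.mul_mem (H'.mul_mem (ro_mem b) (h2 e)) (H'.inv_mem (ro_mem b'))
      simpa [mul_assoc] using this)
    rw [ro_inj (q := b) (q' := b') (by simpa [mul_assoc] using e)]
  · intro g hg
    obtain ⟨a, ha⟩ := ro_surj (H' := H') hg
    obtain ⟨b, hb⟩ := ro_surj (H' := H'') ha
    exact ⟨(a, b), by simpa [mul_assoc] using hb⟩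

theorem csum_self (hf : RI H H f) : csum H H f = f 1 := by
  rw [Csum.gen (fun _ : Unit => 1) hf (fun _ => H.one_mem) (fun _ _ _ => rfl)
    fun g hg => ⟨(), by simpa using hg⟩, finsum_unique]

theorem csum_const (h : H'.relIndex H ≠ 0) (m : M) :
    csum H H' (fun _ => m) = H'.relIndex H • m := by
  have := ft h
  rw [Csum.sum, Finset.sum_const, Finset.card_univ, card]

theorem csum_of_surj (h1 : H'' ≤ H) (h : ∀ g ∈ H, ∃ k ∈ H'', k⁻¹ * g ∈ H') (hf : RI H H' f) :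
    csum H'' (H'' ⊓ H') f = csum H H' f := by
  have e : csum H'' (H'' ⊓ H') f = csum H'' H' f :=
    congrArg (fun L : Subgroup H'' => ∑ᶠ q : H'' ⧸ L, f ((q.out : H'') : GQ))
      (Subgroup.inf_subgroupOf_left H' H'')
  rw [e, Csum.def']
  refine (Csum.gen _ hf (fun q => h1 (ro_mem q)) (fun _ _ => ro_inj) fun g hg => ?_).symm
  obtain ⟨k, hk, e⟩ := h g hg
  obtain ⟨q, hq⟩ := ro_surj (H' := H') hk
  exact ⟨q, by simpa [mul_assoc] using H'.mul_mem hq e⟩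

open Classical in
theorem csum_ite (h1 : H' ≤ H) (h2 : H'' ≤ H') (h : H''.relIndex H ≠ 0) (hf : RI H' H'' f) :
    csum H H'' (fun s => if s ∈ H' then f s else 0) = csum H' H'' f := by
  have := ft h
  rw [Csum.sum, ← Finset.sum_filter]
  refine (csum_eq_sum _ _ hf (fun q hq => (Finset.mem_filter.1 hq).2)
    (fun _ _ _ _ => ro_inj) fun g hg => ?_).symm
  obtain ⟨q, hq⟩ := ro_surj (H' := H'') (h1 hg)
  refine ⟨q, Finset.mem_filter.2 ⟨Finset.mem_univ _, ?_⟩, hq⟩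
  simpa using H'.mul_mem hg (H'.inv_mem (h2 hq))

theorem csum_two (h : H'.relIndex H = 2) (hf : RI H H' f) {σ : GQ} (h1 : σ ∈ H) (h2 : σ ∉ H') :
    csum H H' f = f 1 + f σ := by
  rw [Csum.gen ![1, σ] hf (fun i => by fin_cases i <;> simp [h1]) ?_ ?_, finsum_eq_sum_of_fintype,
    Fin.sum_univ_two]
  · rfl
  · intro i j
    fin_cases i <;> fin_cases j <;> simp [h2]
  · intro g hg
    by_cases k : g ∈ H'
    · exact ⟨0, by simpa using k⟩
    · refine ⟨1, ?_⟩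
      have := (Subgroup.mul_mem_iff_of_index_two h (a := (⟨σ, h1⟩ : H)⁻¹) (b := ⟨g, hg⟩)).2
        (by simp [Subgroup.mem_subgroupOf, h2, k])
      exact this

/-! ### Points -/

theorem split15 : Split W15 (0 : Om) (-9) 16 :=
  ⟨two_ne_zero, by norm_num, by norm_num, by norm_num, by norm_num [W15], by norm_num [W15],
    by norm_num [W15]⟩

theorem ac_mul (g h : GQ) (P : EO) : ac (g * h) P = ac g (ac h P) := MP_9c97e9_nt.pm_mul g h P

theorem ac_one (P : EO) : ac 1 P = P := MP_9c97e9_nt.pm_one P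

theorem is_ac (g : GQ) {P : EO} {x η : Om} (h : Is P x η) : Is (ac g P) (g x) (g η) :=
  h.map (g : Om →+* Om)

theorem ac_two (g : GQ) {P : EO} (h : 2 • P = 0) : ac g P = P := by
  rw [two_nsmul] at h
  rcases MP_9c97e9_nt.two_torsion split15 h with rfl | h1 | h1 | h1
  · exact map_zero _
  all_goals exact Is.unique split15 (by simpa [map_ofNat] using is_ac g h1) h1

theorem exists_div (P : EO) (k : ℕ) : ∃ Q : EO, 2 ^ k • Q = P := by
  induction k generalizing P with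
  | zero => exact ⟨P, by simp⟩
  | succ k ih =>
    obtain ⟨R, rfl⟩ := MP_9c97e9_nt.exists_half split15 P
    obtain ⟨Q, rfl⟩ := ih R
    exact ⟨Q, by rw [pow_succ', mul_nsmul', two_nsmul]⟩

theorem exists_ON_ac (S : Finset EO) : ∃ N, ON N ∧ ∀ P ∈ S, ∀ g ∈ N, ac g P = P := by
  have h : ∀ P : S, ∃ N, ON N ∧ ∀ g ∈ N, ac g P = P := fun P => by
    rcases MP_9c97e9_nt.zero_or_is (P : EO) with h | ⟨x, η, h⟩
    · exact ⟨⊤, ON.top, fun g _ => by rw [h, map_zero]⟩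
    · obtain ⟨N, hN, e⟩ := exists_ON_fix {x, η}
      refine ⟨N, hN, fun g hg => Is.unique split15 ?_ h⟩
      have := is_ac g h
      rwa [e x (by simp) g hg, e η (by simp) g hg] at this
  choose M h1 h2 using h
  obtain ⟨N, hN, e⟩ := exists_ON_forall h1
  exact ⟨N, hN, fun P hP g hg => h2 ⟨P, hP⟩ g (e _ hg)⟩

theorem sm_ac (P : EO) : Sm H fun g => ac g P := by
  obtain ⟨N, hN, e⟩ := exists_ON_ac {P}
  exact ⟨N, hN, fun g _ n _ hn => (ac_mul g n P).trans (congrArg (ac g) (e P (by simp) n hn))⟩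

theorem sd_cases (δ : Om) (g : GQ) : sd δ g = 1 ∨ sd δ g = -1 := by
  unfold sd; split_ifs <;> simp

theorem sd_eq_one {δ : Om} {g : GQ} : sd δ g = 1 ↔ g δ = δ := by
  unfold sd; split_ifs with h <;> simp [h]

theorem sd_eq_neg {δ : Om} {g : GQ} : sd δ g = -1 ↔ g δ ≠ δ := by
  unfold sd; split_ifs with h <;> simp [h]

theorem sd_sq (δ : Om) (g : GQ) : sd δ g * sd δ g = 1 := by
  rcases sd_cases δ g with h | h <;> simp [h]

theorem sd_apply {δ : Om} (hδ : Fix ⊤ (δ ^ 2)) (g : GQ) : g δ = sd δ g * δ := by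
  have h := hδ g trivial
  rw [map_pow, sq_eq_sq_iff_eq_or_eq_neg] at h
  unfold sd
  split_ifs with e
  · simp [e]
  · simp [h.resolve_left e]

theorem sd_mul {δ : Om} (hδ : Fix ⊤ (δ ^ 2)) (g h : GQ) : sd δ (g * h) = sd δ g * sd δ h := by
  by_cases h0 : δ = 0
  · simp [sd, h0]
  have e := sd_apply hδ (g * h)
  rw [AlgEquiv.mul_apply, sd_apply hδ h, map_mul, map_intCast, sd_apply hδ g, ← mul_assoc] at e
  have := mul_right_cancel₀ h0 e
  rw [mul_comm]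
  exact_mod_cast this.symm

theorem sd_inv (δ : Om) (g : GQ) : sd δ g⁻¹ = sd δ g := by
  have : g⁻¹ δ = δ ↔ g δ = δ := (AlgEquiv.symm_apply_eq g).trans eq_comm
  simp only [sd, this]

theorem sd_mul_left {δ δ' : Om} (hδ : Fix ⊤ (δ ^ 2)) (hδ' : Fix ⊤ (δ' ^ 2)) (h0 : δ ≠ 0)
    (h0' : δ' ≠ 0) (g : GQ) : sd (δ * δ') g = sd δ g * sd δ' g := by
  have e := sd_apply (δ := δ * δ') (mul_pow δ δ' 2 ▸ hδ.mul hδ') g
  rw [map_mul, sd_apply hδ g, sd_apply hδ' g, mul_mul_mul_comm] at e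
  have := mul_right_cancel₀ (mul_ne_zero h0 h0') e
  exact_mod_cast this.symm

theorem sm_sd (δ : Om) : Sm H (sd δ) :=
  (sm_apply δ).comp fun y => if y = δ then (1 : ℤ) else -1

theorem tac_apply (δ : Om) (g : GQ) (P : EO) : tac δ g P = sd δ g • ac g P := rfl

theorem tac_mul {δ : Om} (hδ : Fix ⊤ (δ ^ 2)) (g h : GQ) (P : EO) :
    tac δ (g * h) P = tac δ g (tac δ h P) := by
  rw [tac_apply, tac_apply, tac_apply, map_zsmul, smul_smul, ac_mul, sd_mul hδ]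

theorem tac_one (δ : Om) (P : EO) : tac δ 1 P = P := by
  rw [tac_apply, sd_eq_one.2 rfl, one_smul, ac_one]

theorem Tate.tgal {w : Pl} (T : Tate w) (δ : Om) (g : GQ) (v : V2) :
    tac δ g (T.pt v) = T.pt (T.rd δ g *ᵥ v) := by
  rw [tac_apply, T.gal, ← map_zsmul, Tate.rd, Matrix.smul_mulVec, Int.cast_smul_eq_zsmul]

theorem Tate.pt_eq {w : Pl} (T : Tate w) {v v' : V2} : T.pt v = T.pt v' ↔ ‖v - v'‖ ≤ 1 := by
  rw [← T.ker, map_sub, sub_eq_zero]

namespace Csum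

theorem norm_two : ‖(2 : ℚ_[2])‖ = 2⁻¹ := by
  simpa using @Padic.norm_p 2 _

theorem half {a : ℚ_[2]} (h : ‖a‖ ≤ 1) : ‖a‖ ≤ 2⁻¹ ∨ ‖a - 1‖ ≤ 2⁻¹ := by
  have k : ∀ z : ℤ_[2], PadicInt.toZMod z = 0 → ‖(z : ℚ_[2])‖ ≤ 2⁻¹ := fun z hz => by
    have h1 : z ∈ RingHom.ker (PadicInt.toZMod (p := 2)) := hz
    rw [PadicInt.ker_toZMod, PadicInt.maximalIdeal_eq_span_p] at h1
    simpa using (PadicInt.norm_le_pow_iff_mem_span_pow z 1).2 (by simpa using h1)
  have e : ∀ t : ZMod 2, t = 0 ∨ t - 1 = 0 := by decide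
  obtain ⟨z, rfl⟩ : ∃ z : ℤ_[2], (z : ℚ_[2]) = a := ⟨⟨a, h⟩, rfl⟩
  rcases e (PadicInt.toZMod z) with e | e
  · exact .inl (k _ e)
  · exact .inr (k (z - 1) (by rw [map_sub, map_one, e]))

theorem add_le {a b : ℚ_[2]} {r : ℝ} (ha : ‖a‖ ≤ r) (hb : ‖b‖ ≤ r) : ‖a + b‖ ≤ r :=
  (Padic.nonarchimedean a b).trans (max_le ha hb)

theorem not_lt {a : ℚ_[2]} (h : ‖a - 1‖ ≤ 2⁻¹) : ¬ ‖a‖ < 1 := fun h' => by
  have := Padic.nonarchimedean a (-(a - 1))
  rw [norm_neg, neg_sub, add_sub_cancel, norm_one] at this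
  exact this.not_gt (max_lt h' (h.trans_lt (by norm_num)))

theorem half_le {a : ℚ_[2]} (h : ‖a‖ ≤ 2⁻¹) : ‖2⁻¹ * a‖ ≤ 1 := by
  rw [norm_mul, norm_inv, norm_two, inv_inv]
  linarith

theorem sg_iff {T : EO} : MP_9c97e9_nt.sg 0 T = 1 ↔ T = 0 ∨ Is T 0 0 := by
  unfold MP_9c97e9_nt.sg
  split_ifs with h <;> simp [h]

theorem tor {T : EO} {e : Om} (h : Is T e 0) : T + T = 0 :=
  h.add_eq_zero split15 (neg_zero (G := Om) ▸ h)

/-- the group generated by the point `(0, 0)` -/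
noncomputable def G0 : AddSubgroup EO where
  carrier := {T | T = 0 ∨ Is T 0 0}
  zero_mem' := .inl rfl
  add_mem' := by
    rintro a b (rfl | ha) (rfl | hb)
    · exact .inl (add_zero _)
    · exact .inr (by rwa [zero_add])
    · exact .inr (by rwa [add_zero])
    · exact .inl (ha.unique split15 hb ▸ tor ha)
  neg_mem' := by
    rintro a (rfl | ha)
    · exact .inl neg_zero
    · exact .inr (neg_zero (G := Om) ▸ ha.neg)

theorem sg_sum {ι : Type} (s : Finset ι) (T : ι → EO) (h : ∀ i, T i + T i = 0) :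
    MP_9c97e9_nt.sg 0 (∑ i ∈ s, T i) = ∏ i ∈ s, MP_9c97e9_nt.sg 0 (T i) := by
  induction s using Finset.cons_induction with
  | empty => exact MP_9c97e9_nt.sg_zero _
  | cons a s ha ih =>
    rw [Finset.sum_cons, Finset.prod_cons, MP_9c97e9_nt.sg_add split15 (h a), ih]
    rw [← Finset.sum_add_distrib]
    exact Finset.sum_eq_zero fun i _ => h i

end Csum

theorem Tate.tors {w : Pl} (T : Tate w) (v : V2) : ∃ k : ℕ, 2 ^ k • T.pt v = 0 := by
  obtain ⟨k, hk⟩ := pow_unbounded_of_one_lt ‖v‖ (one_lt_two (α := ℝ))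
  refine ⟨k, ?_⟩
  rw [← map_nsmul, T.ker, ← Nat.cast_smul_eq_nsmul ℚ_[2], norm_smul, Nat.cast_pow, norm_pow,
    Nat.cast_ofNat, norm_two, inv_pow, inv_mul_le_one₀ (by positivity)]
  exact hk.le

theorem Tate.pt_pow {w : Pl} (T : Tate w) {v : V2} {k : ℕ} :
    2 ^ k • T.pt v = 0 ↔ ‖v‖ ≤ 2 ^ k := by
  rw [← map_nsmul, T.ker, ← Nat.cast_smul_eq_nsmul ℚ_[2], norm_smul, Nat.cast_pow, norm_pow,
    Nat.cast_ofNat, norm_two, inv_pow, inv_mul_le_one₀ (by positivity)]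

theorem Tate.two {w : Pl} (T : Tate w) (g : GQ) (i j : Fin 2) : ‖(T.rho g - 1) i j‖ ≤ 2⁻¹ := by
  have h1 : ‖cq g‖ = 1 := PadicInt.norm_units (cyc g)
  have h2 : ‖cq g - 1‖ ≤ 2⁻¹ := (half h1.le).resolve_left (by rw [h1]; norm_num)
  rw [← sub_add_sub_cancel (T.rho g) !![cq g, 0; 0, 1] 1, Matrix.add_apply]
  refine add_le ((T.four g i j).trans (by norm_num)) ?_
  fin_cases i <;> fin_cases j <;> simp [h2]

theorem Tate.kq {w : Pl} (T : Tate w) {v : V2} (hv : ‖v‖ ≤ 1) :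
    (T.pt ((2⁻¹ : ℚ_[2]) • v) = 0 ∨ Is (T.pt ((2⁻¹ : ℚ_[2]) • v)) 0 0) ↔ ‖v 0 + v 1‖ < 1 := by
  have n : ∀ a b : ℚ_[2], ‖a‖ ≤ 1 → ‖b‖ ≤ 1 → ‖![a, b]‖ ≤ 1 := fun a b ha hb =>
    (pi_norm_le_iff_of_nonneg zero_le_one).2 fun i => by fin_cases i <;> assumption
  have e : ∀ a b : ℚ_[2], ‖v 0 - a‖ ≤ 2⁻¹ → ‖v 1 - b‖ ≤ 2⁻¹ →
      T.pt ((2⁻¹ : ℚ_[2]) • v) = T.pt ![2⁻¹ * a, 0] + T.pt ![0, 2⁻¹ * b] := fun a b ha hb => by
    rw [← map_add, T.pt_eq]
    refine (congrArg norm ?_).trans_le (n _ _ (half_le ha) (half_le hb))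
    funext i
    fin_cases i <;> simp <;> ring
  have z : T.pt ![0, 0] = 0 := (T.ker _).2 (n _ _ (by simp) (by simp))
  have s0 := T.t0.sg_ne (e₂ := 0) (by norm_num)
  have s1 := T.t1.sg_ne (e₂ := 0) (by norm_num)
  rw [← sg_iff]
  rcases half ((norm_le_pi_norm v 0).trans hv) with a | a <;>
    rcases half ((norm_le_pi_norm v 1).trans hv) with b | b
  · rw [e 0 0 (by rwa [sub_zero]) (by rwa [sub_zero]), mul_zero, z, add_zero]
    exact iff_of_true (MP_9c97e9_nt.sg_zero _) ((add_le a b).trans_lt (by norm_num))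
  · rw [e 0 1 (by rwa [sub_zero]) b, mul_zero, mul_one, z, zero_add, s1]
    exact iff_of_false (by norm_num) (Csum.not_lt (by rw [add_sub_assoc]; exact add_le a b))
  · rw [e 1 0 a (by rwa [sub_zero]), mul_zero, mul_one, z, add_zero, s0]
    exact iff_of_false (by norm_num)
      (Csum.not_lt (by rw [add_sub_right_comm]; exact add_le a b))
  · rw [e 1 1 a b, mul_one, MP_9c97e9_nt.sg_add split15 (tor T.t0) (tor T.t1), s0, s1]
    refine iff_of_true (by norm_num) ?_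
    rw [show v 0 + v 1 = (v 0 - 1 + (v 1 - 1)) + 2 by ring]
    exact (add_le (add_le a b) norm_two.le).trans_lt (by norm_num)

/-- a point of finite order is the sum of a point of 2-power order and a point of odd order -/
theorem exists_split {Q : EO} (h : IsOfFinAddOrder Q) : ∃ (Q₁ Q₂ : EO) (k m : ℕ), Odd m ∧
    2 ^ k • Q₁ = 0 ∧ m • Q₂ = 0 ∧ Q = Q₁ + Q₂ := by
  obtain ⟨n, hn, h0⟩ := h.exists_nsmul_eq_zero
  obtain ⟨k, m, hm, rfl⟩ := Nat.exists_eq_two_pow_mul_odd hn.ne'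
  obtain ⟨a, b, e⟩ : IsCoprime ((2 ^ k : ℕ) : ℤ) (m : ℤ) :=
    Nat.isCoprime_iff_coprime.2 (Nat.Coprime.pow_left k (Nat.coprime_two_left.2 hm))
  refine ⟨b • m • Q, a • 2 ^ k • Q, k, m, hm, ?_, ?_, ?_⟩
  · rw [smul_comm, ← mul_nsmul', h0, smul_zero]
  · rw [smul_comm, ← mul_nsmul, h0, smul_zero]
  · rw [← natCast_zsmul, ← natCast_zsmul Q (2 ^ k), smul_smul, smul_smul, ← add_smul, add_comm, e,
      one_smul]

variable {S : Set GQ} {P Q : EO}

theorem Kq.add (h : Kq S P) (h' : Kq S Q) : Kq S (P + Q) := by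
  obtain ⟨R, rfl, h⟩ := h
  obtain ⟨R', rfl, h'⟩ := h'
  refine ⟨R + R', nsmul_add _ _ _, fun g hg => ?_⟩
  rw [map_add, add_sub_add_comm]
  exact G0.add_mem (h g hg) (h' g hg)

theorem Kq.zsmul (h : Kq S P) (m : ℤ) : Kq S (m • P) := by
  obtain ⟨R, rfl, h⟩ := h
  refine ⟨m • R, smul_comm _ _ _, fun g hg => ?_⟩
  rw [map_zsmul, ← smul_sub]
  exact G0.zsmul_mem (h g hg) m

theorem kq_two (h : ∀ g ∈ S, ac g P = P) : Kq S (2 • P) :=
  ⟨P, rfl, fun g hg => .inl (sub_eq_zero.2 (h g hg))⟩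

theorem Kq.ac (h : Kq S P) {u : GQ} (hu : ∀ g ∈ S, u⁻¹ * g * u ∈ S) : Kq S (ac u P) := by
  obtain ⟨R, rfl, h⟩ := h
  refine ⟨R2.ac u R, (map_nsmul _ _ _).symm, fun g hg => ?_⟩
  have e : R2.ac g (R2.ac u R) - R2.ac u R = R2.ac u (R2.ac (u⁻¹ * g * u) R - R) := by
    rw [map_sub, ← ac_mul, ← ac_mul, mul_assoc, mul_inv_cancel_left]
  rw [e]
  rcases h _ (hu g hg) with h | h
  · exact .inl (by rw [h, map_zero])
  · exact .inr (by simpa only [map_zero] using is_ac u h)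

theorem Kq.all (h : Kq S P) (hQ : 2 • Q = P) {g : GQ} (hg : g ∈ S) :
    R2.ac g Q - Q = 0 ∨ Is (R2.ac g Q - Q) 0 0 := by
  obtain ⟨R, hR, h⟩ := h
  have e := ac_two g (P := Q - R) (by rw [nsmul_sub, hQ, hR, sub_self])
  rw [map_sub, sub_eq_sub_iff_sub_eq_sub] at e
  rw [e]
  exact h g hg

theorem Csum.kq_sum {ι : Type} [Fintype ι] (P : ι → EO) (x η : ι → Om)
    (h : ∀ i, Is (P i) (x i) (η i)) (h0 : ∀ i, x i ≠ 0) {β : Om} (hβ : β ^ 2 = ∏ i, x i)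
    (hS : ∀ g ∈ S, ∃ e : ι ≃ ι, ∀ i, R2.ac g (P i) = P (e i)) :
    Kq S (∑ i, P i) ↔ ∀ g ∈ S, g β = β := by
  choose R hR using fun i => MP_9c97e9_nt.exists_half split15 (P i)
  let u : EO → Om := MP_9c97e9_nt.UU 0 (-9) 16
  have h1 : ∀ i, x i = u (R i) ^ 2 := fun i =>
    (sub_zero _).symm.trans (MP_9c97e9_nt.UU_sq split15 (hR i ▸ h i))
  have h2 : β ^ 2 = (∏ i, u (R i)) ^ 2 := by rw [hβ, ← Finset.prod_pow]; simp only [h1]
  have h3 : ∏ i, u (R i) ≠ 0 := Finset.prod_ne_zero_iff.2 fun i _ e => h0 i (by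
    rw [h1, e, zero_pow two_ne_zero])
  have h4 : 2 • ∑ i, R i = ∑ i, P i := by
    rw [two_nsmul, ← Finset.sum_add_distrib]; simp only [hR]
  have key : ∀ g ∈ S, (R2.ac g (∑ i, R i) - ∑ i, R i = 0 ∨
      Is (R2.ac g (∑ i, R i) - ∑ i, R i) 0 0) ↔ g β = β := fun g hg => by
    obtain ⟨e, he⟩ := hS g hg
    have t : ∀ i, (R2.ac g (R i) - R (e i)) + (R2.ac g (R i) - R (e i)) = 0 := fun i => by
      rw [← add_sub_add_comm, ← map_add, hR, hR, he, sub_self]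
    have a : ∀ i, g (u (R i)) = MP_9c97e9_nt.sg 0 (R2.ac g (R i) - R (e i)) * u (R (e i)) :=
      fun i => by
        have b := MP_9c97e9_nt.UU_add split15 (P := R (e i)) (t i) (hR _ ▸ (h (e i)).ne_zero)
        rw [add_sub_cancel] at b
        refine Eq.trans ?_ b
        have c := MP_9c97e9_nt.UU_map (e₁ := 0) (e₂ := -9) (e₃ := 16) (g : Om →+* Om) (R i)
        rw [map_zero, map_neg, map_ofNat, map_ofNat] at c
        exact c.symm
    have c : g (∏ i, u (R i)) =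
        MP_9c97e9_nt.sg 0 (R2.ac g (∑ i, R i) - ∑ i, R i) * ∏ i, u (R i) := by
      rw [map_prod, map_sum, ← e.sum_comp R, ← Finset.sum_sub_distrib, sg_sum _ _ t,
        ← e.prod_comp fun i => u (R i), Int.cast_prod, ← Finset.prod_mul_distrib]
      exact Finset.prod_congr rfl fun i _ => a i
    have d : g β = β ↔ g (∏ i, u (R i)) = ∏ i, u (R i) := by
      rcases sq_eq_sq_iff_eq_or_eq_neg.1 h2 with e | e <;> simp only [e, map_neg, neg_inj]
    rw [d, c, ← sg_iff, mul_eq_right₀ h3, Int.cast_eq_one]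
  exact ⟨fun k g hg => (key g hg).1 (k.all h4 hg), fun k => ⟨_, h4, fun g hg =>
    (key g hg).2 (k g hg)⟩⟩

/-- the Kummer description for a point with non-zero first coordinate -/
theorem kq_iff {x η β : Om} (h : Is P x η) (h0 : x ≠ 0) (hβ : β ^ 2 = x)
    (hS : ∀ g ∈ S, R2.ac g P = P) : Kq S P ↔ ∀ g ∈ S, g β = β := by
  simpa using Csum.kq_sum (S := S) (fun _ : Unit => P) (fun _ => x) (fun _ => η) (fun _ => h)
    (fun _ => h0) (β := β) (by simpa using hβ) fun g hg => ⟨Equiv.refl _, fun _ => hS g hg⟩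

/-- the Kummer description for a sum of points which are permuted -/
theorem kq_sum_iff {ι : Type} [Fintype ι] (P : ι → EO) (x η : ι → Om) (h : ∀ i, Is (P i) (x i) (η i))
    (h0 : ∀ i, x i ≠ 0) {β : Om} (hβ : β ^ 2 = ∏ i, x i)
    (hS : ∀ g ∈ S, ∃ e : ι ≃ ι, ∀ i, R2.ac g (P i) = P (e i)) :
    Kq S (∑ i, P i) ↔ ∀ g ∈ S, g β = β :=
  Csum.kq_sum P x η h h0 hβ hS

end Pool.Agent.P.MP_8b7eba_nt.R2
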