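import Pool.Agent.P.MP_8b7eba_nt.R2.IfB
import Pool.Agent.P.MP_8b7eba_nt.R2.Csum

/-! Elements of decomposition groups. -/

namespace Pool.Agent.P.MP_8b7eba_nt.R2

open scoped NNReal Matrix
open Filter Topology

/-! ### Groups -/

theorem GrpA.tame (hT : TAME) (hR : RES) {w : Pl} (h2 : w.p ≠ 2) :
    (∃ t ∈ w.I ⊓ w.D, ∀ β : Om, β ^ 2 = w.p → t β = -β) ∧
    (∀ g ∈ w.I, ∀ (k : ℕ) (u : Om), w.v u = 1 → Fix (Subgroup.zpowers g) (u ^ 2 ^ k) → g u = u) ∧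
    ∀ N, ON N → ∃ k : ℕ, ∀ g ∈ w.I ⊓ w.D, ∀ β : Om, β ^ 2 ^ k = w.p → g β = β →
      ∃ r : ℕ, Odd r ∧ g ^ r ∈ N :=
  hT w w.D w.p h2 w.loc_D (by
    rw [inf_eq_left.2 w.I_le_D]
    exact (hR w w.D w.loc_D).2.2.2.2.1)

theorem GrpA.v_eq {w : Pl} {δ : Om} {m : ℤ} (hδ : δ ^ 2 = m) (hm : ¬ (w.p : ℤ) ∣ m) :
    w.v δ = 1 := by
  have := Pl.v_int_eq_one.2 hm
  rw [← hδ, map_pow] at this
  exact (pow_eq_one_iff_of_nonneg zero_le two_ne_zero).1 this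

theorem GrpA.pm {δ : Om} {m : ℤ} (hδ : δ ^ 2 = m) (g : GQ) : g δ = δ ∨ g δ = -δ :=
  sq_eq_sq_iff_eq_or_eq_neg.1 (by rw [← map_pow, hδ, map_intCast])

theorem GrpA.sk (P : Pre) (g : GQ) : g P.sk = P.sk ∨ g P.sk = -P.sk :=
  GrpA.pm (m := -P.l) (by rw [P.hsk]; push_cast; rfl) g

theorem Pl.comm_mem (hF : FROB) {w : Pl} {g h : GQ} (hg : g ∈ w.D) (hh : h ∈ w.D) :
    g * h * g⁻¹ * h⁻¹ ∈ w.I := by
  obtain ⟨f, φ, -, -, hφ, -, -, hd⟩ := hF w w.D w.loc_D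
  refine mem_of_forall_ON w.closed_I fun N hN => ?_
  obtain ⟨a, i, hi, n, hn, rfl⟩ := hd N hN g hg
  obtain ⟨b, j, hj, n', hn', rfl⟩ := hd N hN h hh
  have h1 := (hφ.pow a).mul (Pl.isFrob_zero.2 hi.1)
  have h2 := (hφ.pow b).mul (Pl.isFrob_zero.2 hj.1)
  have h3 := h2.mul h1
  have h4 := h1.mul h2
  rw [add_comm] at h4
  refine ⟨_, Pl.conj_mem_I h3.1 (h3.inv_mul h4), ?_⟩
  have := hN.1
  rw [← QuotientGroup.eq]
  simp only [QuotientGroup.mk_mul, QuotientGroup.mk_inv, (QuotientGroup.eq_one_iff n).2 hn.1,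
    (QuotientGroup.eq_one_iff n').2 hn'.1]
  group

theorem Pl.I_fix (hT : TAME) (hR : RES) {w : Pl} (h2 : w.p ≠ 2) {δ : Om} {m : ℤ} (hδ : δ ^ 2 = m)
    (hm : ¬ (w.p : ℤ) ∣ m) {g : GQ} (hg : g ∈ w.I) : g δ = δ := by
  refine (GrpA.tame hT hR h2).2.1 g hg 1 δ (GrpA.v_eq hδ hm) ?_
  rw [pow_one, hδ]
  exact fix_int m

theorem Pl.I_fix_two {w : Pl} (h2 : w.p = 2) {δ : Om} {m : ℤ} (hδ : δ ^ 2 = m) (hm : m % 4 = 1)
    {g : GQ} (hg : g ∈ w.I) : g δ = δ := by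
  refine (GrpA.pm hδ g).resolve_right fun h => ?_
  obtain ⟨k, hk⟩ : ∃ k : ℤ, m = 4 * k + 1 := ⟨m / 4, by omega⟩
  have e : (1 + δ) / 2 * ((1 + δ) / 2 - 1) = k := by
    rw [hk] at hδ
    push_cast at hδ
    linear_combination (1 / 4 : Om) * hδ
  have h1 : w.v ((1 + δ) / 2) ≤ 1 := by
    by_contra h1
    rw [not_le] at h1
    have h3 := w.v_int_le k
    rw [← e, map_mul, Valuation.map_sub_eq_of_lt_left _ (by rwa [map_one])] at h3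
    exact absurd h3 (not_le.2 (one_lt_mul'' h1 h1))
  have h4 := hg.2 _ h1
  have e2 : g ((1 + δ) / 2) - (1 + δ) / 2 = -δ := by
    rw [map_div₀, map_add, map_one, h, map_ofNat]
    ring
  rw [e2, Valuation.map_neg, GrpA.v_eq hδ (by rw [h2]; omega)] at h4
  exact lt_irrefl _ h4

theorem Pl.exists_gen (hT : TAME) (hR : RES) {w : Pl} (h2 : w.p ≠ 2) :
    ∃ t ∈ w.I, ∀ β : Om, β ^ 2 = w.p → t β = -β := by
  obtain ⟨t, ht, h⟩ := (GrpA.tame hT hR h2).1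
  exact ⟨t, ht.1, h⟩

theorem Pl.gen_move (hT : TAME) (hR : RES) {w : Pl} (h2 : w.p ≠ 2) {t : GQ} (ht : t ∈ w.I)
    (hβ : ∀ β : Om, β ^ 2 = w.p → t β = -β) {δ : Om} {m : ℤ} (hδ : δ ^ 2 = w.p * m)
    (hm : ¬ (w.p : ℤ) ∣ m) : t δ = -δ := by
  obtain ⟨β, hb⟩ := exists_root (w.p : Om) two_ne_zero
  have hp : (w.p : Om) ≠ 0 := Nat.cast_ne_zero.2 w.prime.ne_zero
  have h0 : β ≠ 0 := fun h => hp (by rw [← hb, h, zero_pow two_ne_zero])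
  have h1 : t (δ / β) = δ / β :=
    Pl.I_fix hT hR h2 (by rw [div_pow, hδ, hb, mul_div_cancel_left₀ _ hp]) hm ht
  rw [← div_mul_cancel₀ δ h0, map_mul, h1, hβ β hb, mul_neg]

theorem Pl.exists_frob (hF : FROB) (w : Pl) : ∃ φ, w.IsFrob 1 φ := by
  obtain ⟨f, φ, -, -, hφ, h, -⟩ := hF w w.D w.loc_D
  exact ⟨φ, h rfl ▸ hφ⟩

/-- an element of the decomposition group at two which acts by scalars different from one -/
theorem Pl.exists_f2 (hA : CA) {w : Pl} (h2 : w.p = 2) {δ : Om} {m : ℤ} (hδ : δ ^ 2 = m)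
    (hm : m % 8 = 5) : ∃ φ ∈ w.D, φ δ ≠ δ ∧ 4 ∣ (cyc φ : ℤ_[2]) - 1 := by
  have h1 := ((hA.sq2 w).2.2.2.2.1 h2 m (Int.odd_iff.2 (by omega))).1
  have h3 : ¬ Fix w.D δ := fun h => by
    have := h1.1 ⟨δ, h, hδ.symm⟩
    omega
  simp only [Fix, not_forall] at h3
  obtain ⟨g, hg, hgδ⟩ := h3
  rcases (hA.lg.1.dvd 0 (cyc g)).1 (by simp) with h | h
  · exact ⟨g, hg, hgδ, by norm_num at h; exact h⟩
  · obtain ⟨s, hs, hc⟩ := hA.ec2 w h2 (-1)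
    refine ⟨g * s, w.D.mul_mem hg hs.1, ?_, ?_⟩
    · rwa [AlgEquiv.mul_apply, Pl.I_fix_two h2 hδ (by omega) hs]
    · have e : ((cyc g * -1 : ℤ_[2]ˣ) : ℤ_[2]) - 1 = -(cyc g + 1) := by
        push_cast
        ring
      rw [hA.ec.2.1, hc, e, dvd_neg]
      norm_num at h
      exact h

theorem Pre.on (P : Pre) : ON P.GK := by
  refine ⟨⟨fun h hh g => ?_⟩, isOpen_stab _⟩
  have hh' : h P.sk = P.sk := hh
  show g (h (g⁻¹ P.sk)) = P.sk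
  have e : h (g⁻¹ P.sk) = g⁻¹ P.sk := by
    rcases GrpA.sk P g⁻¹ with e | e
    · rw [e, hh']
    · rw [e, map_neg, hh']
  rw [e, BasicP.apply_inv]

theorem Pre.mul_mem (P : Pre) {g h : GQ} (hg : g ∉ P.GK) (hh : h ∉ P.GK) : g * h ∈ P.GK := by
  show g (h P.sk) = P.sk
  rw [(GrpA.sk P h).resolve_left hh, map_neg, (GrpA.sk P g).resolve_left hg, neg_neg]

theorem Pre.fix_dl (P : Pre) : Fix ⊤ (P.dl ^ 2) := by
  rw [P.hdl]
  exact fix_int _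

theorem Pre.dl_ne (P : Pre) : P.dl ≠ 0 ∧ P.sk ≠ 0 ∧ P.d ≠ 0 := by
  have hd : P.d ≠ 0 := P.sq.ne_zero
  refine ⟨fun h => hd ?_, fun h => P.lp.ne_zero ?_, hd⟩
  · have := P.hdl
    rw [h, zero_pow two_ne_zero] at this
    exact_mod_cast this.symm
  · have := P.hsk
    rw [h, zero_pow two_ne_zero, zero_eq_neg] at this
    exact_mod_cast this

theorem Anti.conj {P : Pre} {a : GQ → ℤ_[2]} (h : Anti P a) {g s : GQ} (hg : g ∈ P.GK)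
    (hs : s ∈ P.GK) : a (g * s * g⁻¹) = a s := by
  rw [h.add _ (P.GK.mul_mem hg hs) _ (P.GK.inv_mem hg), h.add _ hg _ hs, h.inv hg]
  ring

theorem Anti.pow {P : Pre} {a : GQ → ℤ_[2]} (h : Anti P a) {g : GQ} (hg : g ∈ P.GK) (m : ℕ) :
    a (g ^ m) = m * a g := by
  induction m with
  | zero => rw [pow_zero, h.one, Nat.cast_zero, zero_mul]
  | succ m ih =>
    rw [pow_succ, h.add _ (P.GK.pow_mem hg m) _ hg, ih]
    push_cast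
    ring

theorem Anti.sq {P : Pre} {a : GQ → ℤ_[2]} (h : Anti P a) {g : GQ} (hg : g ∉ P.GK) :
    a (g * g) = 0 := by
  have e := h.dih g hg _ (P.mul_mem hg hg)
  rw [show g * (g * g) * g⁻¹ = g * g by group] at e
  exact self_eq_neg.1 e

theorem Anti.surj (hA : CA) {P : Pre} {a : GQ → ℤ_[2]} (h : Anti P a) (b : ℤ_[2]) (u : ℤ_[2]ˣ)
    (hu : u = 1 ∨ u = -1) : ∃ s ∈ P.w2.I, a s = b ∧ 4 ∣ (cyc s : ℤ_[2]) - u := by
  obtain ⟨u0, h0⟩ := h.two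
  obtain ⟨v, hv, he⟩ := hA.lg.2.2.1 ((u0⁻¹ : ℤ_[2]ˣ) * b)
  obtain ⟨s, hs, hc⟩ := hA.ec2 P.w2 P.hw2 (v * u)
  have l1 : lg 1 = 0 := by
    have := hA.lg.1.mul 1 1
    rw [one_mul] at this
    exact left_eq_add.1 this
  have lu : lg u = 0 := by
    rcases hu with rfl | rfl
    · exact l1
    · have := hA.lg.1.mul (-1) (-1)
      rw [neg_mul_neg, one_mul, l1] at this
      exact add_self_eq_zero.1 this.symm
  refine ⟨s, hs, ?_, ?_⟩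
  · rw [h0 s hs, hc, hA.lg.1.mul, hv, lu, add_zero, Units.mul_inv_cancel_left]
  · have h4 : 4 ∣ (v : ℤ_[2]) - 1 := by
      by_contra h4
      rw [ep, if_neg h4] at he
      exact one_ne_zero he
    rw [hc, Units.val_mul, ← sub_one_mul]
    exact h4.mul_right _

theorem Dat.mem_Gd {D : Dat} {m : ℤ_[2]} {g : GQ} : g ∈ D.Gd m ↔ g ∈ D.GK ∧ m ∣ D.a g := Iff.rfl

theorem Dat.D_le (D : Dat) : D.w2.D ≤ D.GK := by
  refine D.spD _ ?_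
  rw [D.hw2]
  exact Dvd.dvd.mul_right (by norm_num) _

theorem Dat.ak_mul (D : Dat) (k : ℕ) {g h : GQ} (hg : g ∈ D.GK) (hh : h ∈ D.GK) :
    D.ak k (g * h) = D.ak k g + D.ak k h := by
  rw [Dat.ak, D.an.add g hg h hh, map_add]
  rfl

theorem Dat.ak_eq_zero (D : Dat) {k : ℕ} {g : GQ} : D.ak k g = 0 ↔ 2 ^ k ∣ D.a g := by
  rw [Dat.ak, ← RingHom.mem_ker, PadicInt.ker_toZModPow, Ideal.mem_span_singleton]
  rfl

end Pool.Agent.P.MP_8b7eba_nt.R2
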