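import Pool.Agent.P.MP_8b7eba_nt.R2.IfL
import Pool.Agent.P.MP_8b7eba_nt.R2.GrpA

/-! Quadratic characters of integers. -/

namespace Pool.Agent.P.MP_8b7eba_nt.R2

open scoped NNReal Matrix

variable {H : Subgroup GQ} {w : Pl} {m n : ℤ} {g t φ : GQ} {δ β : Om}

theorem LA.add : ∀ {a b c : ZMod 2}, (-1 : ℤ) ^ a.val = (-1) ^ b.val * (-1) ^ c.val → a = b + c := by
  decide

theorem LA.ext : ∀ {a b : ZMod 2}, (a = 0 ↔ b = 0) → a = b := by
  decide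

theorem LA.cases : ∀ a : ZMod 2, a = 0 ∨ a = 1 := by
  decide

theorem LA.fix (h : δ ^ 2 = m) : Fix ⊤ (δ ^ 2) := h ▸ fix_int m

theorem LA.ne (h : δ ^ 2 = m) (hm : m ≠ 0) : δ ≠ 0 := fun e => hm (by
  rw [e] at h
  exact_mod_cast (by simpa using h.symm : (m : Om) = 0))

theorem LA.c4 : (2 : ℤ_[2]) ^ 2 = 4 := by norm_num

theorem LA.c8 : (2 : ℤ_[2]) ^ 3 = 8 := by norm_num

theorem LA.prim {k : ℕ} (h : δ ^ 2 ^ k = -1) : IsPrimitiveRoot δ (2 ^ (k + 1)) := by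
  rw [← orderOf_eq_prime_pow (x := δ) (p := 2) (n := k) (by rw [h]; norm_num)
    (by rw [pow_succ, pow_mul, h]; norm_num)]
  exact IsPrimitiveRoot.orderOf δ

theorem LA.two (h : ¬ (w.p : ℤ) ∣ 2 * m) : w.p ≠ 2 ∧ ¬ (w.p : ℤ) ∣ m :=
  ⟨fun e => h (by rw [e]; exact dvd_mul_right _ _), fun e => h (e.mul_left _)⟩

theorem rt_sq (m : ℤ) : rt m ^ 2 = m := by
  exact Classical.epsilon_spec (p := fun β : Om => β ^ 2 = m) (exists_root _ two_ne_zero)

theorem qc_eq_qz (h : δ ^ 2 = m) : qc δ = qz m := by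
  funext g
  rcases sq_eq_sq_iff_eq_or_eq_neg.1 (h.trans (rt_sq m).symm) with e | e
  · rw [e, qz]
  · simp [e, qz, qc]

theorem qz_eq_zero (h : δ ^ 2 = m) : qz m g = 0 ↔ g δ = δ := by
  rw [← qc_eq_qz h]
  simp [qc]

theorem qz_eq_one (h : δ ^ 2 = m) : qz m g = 1 ↔ g δ ≠ δ := by
  rw [← qc_eq_qz h]
  simp [qc]

theorem sd_eq_qz (h : δ ^ 2 = m) (g : GQ) : sd δ g = (-1) ^ (qz m g).val := by
  rw [← qc_eq_qz h]
  by_cases e : g δ = δ
  · simp [sd, qc, e]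
  · simp [sd, qc, e, ZMod.val_one]

theorem isCh_qz (m : ℤ) : IsCh H (qz m) := by
  refine ⟨(sm_sd (rt m)).comp (fun y => if y = 1 then (0 : ZMod 2) else 1) |>.congr fun g _ => ?_,
    fun g _ k _ => LA.add ?_⟩
  · by_cases e : g (rt m) = rt m <;> simp [sd, qz, qc, e]
  · rw [← sd_eq_qz (rt_sq m), ← sd_eq_qz (rt_sq m), ← sd_eq_qz (rt_sq m),
      sd_mul (LA.fix (rt_sq m))]

theorem qz_mul (hm : m ≠ 0) (hn : n ≠ 0) : qz (m * n) = qz m + qz n := by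
  funext g
  refine LA.add ?_
  have e : (rt m * rt n) ^ 2 = ((m * n : ℤ) : Om) := by rw [mul_pow, rt_sq, rt_sq, Int.cast_mul]
  rw [← sd_eq_qz e, ← sd_eq_qz (rt_sq m), ← sd_eq_qz (rt_sq n), sd_mul_left (LA.fix (rt_sq m))
    (LA.fix (rt_sq n)) (LA.ne (rt_sq m) hm) (LA.ne (rt_sq n) hn)]

theorem qz_sq (m : ℤ) : qz (m ^ 2) = 0 := by
  funext g
  exact (qz_eq_zero (δ := m) (by push_cast; rfl)).2 (map_intCast g m)

theorem qz_one : qz 1 = 0 := by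
  simpa using qz_sq 1

theorem qz_prod {ι : Type} (s : Finset ι) (f : ι → ℤ) (h : ∀ i ∈ s, f i ≠ 0) :
    qz (∏ i ∈ s, f i) = ∑ i ∈ s, qz (f i) := by
  classical
  induction s using Finset.induction_on with
  | empty => simpa using qz_one
  | insert a s ha ih =>
    rw [Finset.prod_insert ha, Finset.sum_insert ha, qz_mul (h a (by simp))
      (Finset.prod_ne_zero_iff.2 fun i hi => h i (by simp [hi])),
      ih fun i hi => h i (by simp [hi])]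

theorem qz_conj (m : ℤ) (u g : GQ) : qz m (u * g * u⁻¹) = qz m g := by
  have h := isCh_qz (H := ⊤) m
  rw [h.2 _ trivial _ trivial, h.2 _ trivial _ trivial, h.inv trivial]
  ring

theorem qz_neg_one (hE : EC) : qz (-1) g = 0 ↔ 4 ∣ (cyc g : ℤ_[2]) - 1 := by
  have h1 : rt (-1) ^ 2 = -1 := by simpa using rt_sq (-1)
  have h2 : IsPrimitiveRoot (rt (-1)) (2 ^ 2) := LA.prim (k := 1) (by simpa using h1)
  rw [qz_eq_zero (rt_sq _)]
  constructor
  · intro h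
    simpa using LA.c4 ▸ hE.2.2.2.1 g 2 1 _ h2 (by simpa using h)
  · intro h
    simpa using hE.2.2.1 g 2 1 _ h2.pow_eq_one (by simpa [LA.c4] using h)

theorem qz_two (hE : EC) : qz 2 g = 0 ↔ 8 ∣ (cyc g : ℤ_[2]) - 1 ∨ 8 ∣ (cyc g : ℤ_[2]) + 1 := by
  obtain ⟨z, hz⟩ := exists_root (-1 : Om) (n := 4) (by norm_num)
  have h2 : IsPrimitiveRoot z (2 ^ 3) := LA.prim (k := 2) (by simpa using hz)
  have h3 : (z - z ^ 3) ^ 2 = ((2 : ℤ) : Om) := by
    push_cast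
    linear_combination (z ^ 2 - 2) * hz
  have h7 : ∀ c : ℤ_[2], (8 ∣ c + 1 ↔ 2 ^ 3 ∣ c - (7 : ℕ)) := fun c => by
    rw [LA.c8, show c - ((7 : ℕ) : ℤ_[2]) = c + 1 - 8 by push_cast; ring]
    exact (dvd_sub_self_right).symm
  rw [qz_eq_zero h3, map_sub, map_pow, h7]
  constructor
  · intro h
    have h4 : g z ^ 4 = -1 := by rw [← map_pow, hz, map_neg, map_one]
    have h5 : (g z - z) * (g z - z ^ 7) = 0 := by
      linear_combination g z * h + (-g z * z ^ 3 + z ^ 4 - 1) * hz + h4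
    rcases mul_eq_zero.1 h5 with e | e
    · left
      simpa using LA.c8 ▸ hE.2.2.2.1 g 3 1 _ h2 (by simpa [sub_eq_zero] using e)
    · exact Or.inr (hE.2.2.2.1 g 3 7 _ h2 (sub_eq_zero.1 e))
  · rintro (h | h)
    · rw [hE.2.2.1 g 3 1 _ h2.pow_eq_one (by simpa [LA.c8] using h), pow_one]
    · rw [hE.2.2.1 g 3 7 _ h2.pow_eq_one h]
      linear_combination (z ^ 3 - z ^ 17 + z ^ 13 - z ^ 9 + z ^ 5 - z) * hz

theorem cq_qz (hE : EC) (g : GQ) : ‖cq g - (-1) ^ (qz (-1) g).val‖ ≤ 4⁻¹ := by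
  have key : ∀ c : ℤ_[2], 4 ∣ c → ‖(c : ℚ_[2])‖ ≤ 4⁻¹ := fun c h => by
    have := (PadicInt.norm_le_pow_iff_mem_span_pow c 2).2
      (Ideal.mem_span_singleton.2 (by simpa [LA.c4] using h))
    rw [PadicInt.padic_norm_e_of_padicInt]
    exact this.trans (by norm_num)
  have h1 : rt (-1) ^ 2 = -1 := by simpa using rt_sq (-1)
  by_cases e : g (rt (-1)) = rt (-1)
  · have e' := (qz_eq_zero (rt_sq _)).2 e
    rw [e']
    simpa [cq] using key _ ((qz_neg_one hE).1 e')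
  · rw [(qz_eq_one (rt_sq _)).2 e]
    have h2 : IsPrimitiveRoot (rt (-1)) (2 ^ 2) := LA.prim (k := 1) (by simpa using h1)
    have h3 := hE.2.2.2.1 g 2 3 _ h2 (by
      rw [(GrpA.pm (rt_sq _) g).resolve_left e]
      linear_combination (-rt (-1)) * h1)
    rw [LA.c4, show (cyc g : ℤ_[2]) - ((3 : ℕ) : ℤ_[2]) = cyc g + 1 - 4 by push_cast; ring,
      dvd_sub_self_right] at h3
    simpa [cq, ZMod.val_one] using key _ h3

theorem qz_tau (hT : TAU) (hm : m ≠ 0) : qz m tau = 0 ↔ 0 < m := by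
  have h1 : io (rt m) ^ 2 = m := by rw [← map_pow, rt_sq, map_intCast]
  have h2 := congrArg Complex.re h1
  have h3 := congrArg Complex.im h1
  simp only [pow_two, Complex.mul_re, Complex.mul_im, Complex.intCast_re,
    Complex.intCast_im] at h2 h3
  rw [qz_eq_zero (rt_sq m), ← io.injective.eq_iff, hT.1, Complex.conj_eq_iff_im]
  constructor
  · intro h
    rw [h] at h2
    have h4 : (0 : ℝ) ≤ m := by nlinarith [mul_self_nonneg (io (rt m)).re]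
    exact lt_of_le_of_ne (by exact_mod_cast h4) hm.symm
  · intro h
    have h4 : (0 : ℝ) < m := by exact_mod_cast h
    by_contra h5
    have h6 : (io (rt m)).re = 0 := by
      have : (io (rt m)).re * (io (rt m)).im = 0 := by linarith
      exact (mul_eq_zero.1 this).resolve_right h5
    rw [h6] at h2
    nlinarith [mul_self_nonneg (io (rt m)).im]

theorem qz_I (hA : CA) (h : ¬ (w.p : ℤ) ∣ 2 * m) (hg : g ∈ w.I) : qz m g = 0 := by
  exact (qz_eq_zero (rt_sq m)).2 (Pl.I_fix hA.tame hA.res (LA.two h).1 (rt_sq m) (LA.two h).2 hg)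

theorem qz_I_two (h2 : w.p = 2) (h : m % 4 = 1) (hg : g ∈ w.I) : qz m g = 0 := by
  exact (qz_eq_zero (rt_sq m)).2 (Pl.I_fix_two h2 (rt_sq m) h hg)

theorem qz_I_two_iff (hA : CA) (h2 : w.p = 2) (hm : Squarefree m) :
    (∀ g ∈ w.I, qz m g = 0) ↔ m % 4 = 1 := by
  refine ⟨fun h => ?_, fun h g hg => qz_I_two h2 h hg⟩
  have h4 : m % 4 ≠ 0 := fun e => by
    have := hm 2 (by omega)
    rcases Int.isUnit_iff.1 this with e | e <;> omega
  have hn : ∀ k : ℤ, k % 4 = 3 → ∀ g ∈ w.I, qz k g = qz (-1) g := fun k hk g hg => by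
    have e : k = -1 * -k := by ring
    rw [e, qz_mul (by norm_num) (by omega), Pi.add_apply, qz_I_two h2 (m := -k) (by omega) hg,
      add_zero]
  by_contra h1
  rcases (show m % 4 = 3 ∨ m % 2 = 0 by omega) with h3 | h3
  · obtain ⟨g, hg, hc⟩ := hA.ec2 w h2 (-1)
    have := (qz_neg_one hA.ec).1 ((hn m h3 g hg).symm.trans (h g hg))
    rw [hc, ← LA.c4] at this
    have := (PadicInt.pow_p_dvd_int_iff (p := 2) 2 (-2)).1 (by
      refine (dvd_iff_dvd_of_dvd_sub ?_).1 this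
      push_cast
      norm_num)
    norm_num at this
  · obtain ⟨k, rfl⟩ : ∃ k, m = 2 * k := ⟨m / 2, by omega⟩
    have h5 : IsUnit (5 : ℤ_[2]) := by
      rw [PadicInt.isUnit_iff]
      refine le_antisymm (PadicInt.norm_le_one _) (not_lt.1 fun e => ?_)
      have := (PadicInt.norm_int_lt_one_iff_dvd (p := 2) 5).1 (by simpa using e)
      norm_num at this
    obtain ⟨u, hu⟩ := h5
    obtain ⟨g, hg, hc⟩ := hA.ec2 w h2 u
    have e1 : qz (-1) g = 0 := (qz_neg_one hA.ec).2 (by rw [hc, hu]; norm_num)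
    have e2 : qz k g = 0 := by
      rcases (show k % 4 = 1 ∨ k % 4 = 3 by omega) with e | e
      · exact qz_I_two h2 e hg
      · rw [hn k e g hg, e1]
    have e3 := h g hg
    rw [qz_mul (by norm_num) (by omega), Pi.add_apply, e2, add_zero, qz_two hA.ec, hc, hu,
      ← LA.c8] at e3
    rcases e3 with e | e
    · have := (PadicInt.pow_p_dvd_int_iff (p := 2) 3 4).1 (by
        refine (dvd_iff_dvd_of_dvd_sub ?_).1 e
        push_cast
        norm_num)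
      norm_num at this
    · have := (PadicInt.pow_p_dvd_int_iff (p := 2) 3 6).1 (by
        refine (dvd_iff_dvd_of_dvd_sub ?_).1 e
        push_cast
        norm_num)
      norm_num at this

theorem qz_gen (hA : CA) (h2 : w.p ≠ 2) (ht : t ∈ w.I) (hβ : ∀ β : Om, β ^ 2 = w.p → t β = -β)
    (hm : Squarefree m) : qz m t = 0 ↔ ¬ (w.p : ℤ) ∣ m := by
  have hp := Nat.prime_iff_prime_int.1 w.prime
  refine ⟨?_, fun h => qz_I hA (fun e => (hp.dvd_or_dvd e).elim (fun e => h2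
    ((Nat.prime_dvd_prime_iff_eq w.prime Nat.prime_two).1 (by exact_mod_cast e))) h) ht⟩
  rintro h ⟨k, rfl⟩
  have hk : ¬ (w.p : ℤ) ∣ k := fun e => hp.not_isUnit (hm _ (mul_dvd_mul_left _ e))
  have e := Pl.gen_move hA.tame hA.res h2 ht hβ (δ := rt (w.p * k)) (m := k)
    (by rw [rt_sq]; push_cast; rfl) hk
  rw [(qz_eq_zero (rt_sq _)).1 h] at e
  exact LA.ne (rt_sq _) hm.ne_zero (self_eq_neg.1 e)

theorem qz_D_iff (hm : m ≠ 0) : (∀ g ∈ H, qz m g = 0) ↔ Sq H m := by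
  rw [← rt_sq m, sq_iff ((LA.fix (rt_sq m)).mono le_top)]
  exact forall₂_congr fun g _ => qz_eq_zero (rt_sq m)

theorem qz_frob (hA : CA) (h : ¬ (w.p : ℤ) ∣ 2 * m) (hφ : w.IsFrob 1 φ) :
    (qz m φ = 0 ↔ jacobiSym m w.p = 1) ∧ (qz m φ = 0 ↔ ∀ g ∈ w.D, qz m g = 0) := by
  have e : qz m φ = 0 ↔ ∀ g ∈ w.D, qz m g = 0 := ⟨fun h0 g hg => (qz_eq_zero (rt_sq m)).2
    ((hA.sq2 w).2.2.1 w.D φ (rt m) w.loc_D hφ.1 hφ
      (fun i hi => (qz_eq_zero (rt_sq m)).1 (qz_I hA h hi.1)) ((qz_eq_zero (rt_sq m)).1 h0) g hg),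
    fun h0 => h0 φ hφ.1⟩
  refine ⟨?_, e⟩
  rw [e, qz_D_iff fun e => h (by simp [e])]
  exact ((hA.sq2 w).2.2.2.2.2 (LA.two h).1 m (LA.two h).2).1

theorem qz_D_two (hA : CA) (h2 : w.p = 2) (h : m % 8 = 1) (hg : g ∈ w.D) : qz m g = 0 := by
  exact (qz_D_iff (by omega)).2
    (((hA.sq2 w).2.2.2.2.1 h2 m (Int.odd_iff.2 (by omega))).1.2 h) g hg

theorem qz_inj (hA : CA) (hm : Squarefree m) (hn : Squarefree n) (h : qz m = qz n) : m = n := by
  obtain ⟨x, hx, e⟩ : Sq ⊤ ((m * n : ℤ) : Om) :=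
    (qz_D_iff (mul_ne_zero hm.ne_zero hn.ne_zero)).1 fun g _ => by
      rw [qz_mul hm.ne_zero hn.ne_zero, h, Pi.add_apply, CharTwo.add_self_eq_zero]
  obtain ⟨q, rfl⟩ := hx.rat
  obtain ⟨r, hr⟩ : IsSquare (m * n) := Rat.isSquare_intCast_iff.1 ⟨q, by
    have : ((m * n : ℤ) : ℚ) = q ^ 2 := by exact_mod_cast e
    rw [this, pow_two]⟩
  obtain ⟨s, rfl⟩ : m ∣ r := (hm.dvd_pow_iff_dvd two_ne_zero).1 ⟨n, by rw [hr, pow_two]⟩
  have e1 : n = m * (s * s) := mul_left_cancel₀ hm.ne_zero (by rw [hr]; ring)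
  have e2 := hn s ⟨m, by rw [e1]; ring⟩
  rw [e1, Int.isUnit_mul_self e2, mul_one]

/-- an unramified character is determined by its value at a Frobenius element -/
theorem ch_unr (hF : FROB) {A : Type} [AddCommGroup A] {χ : GQ → A} (h : IsCh w.D χ)
    (hI : ∀ g ∈ w.I, χ g = 0) (hφ : w.IsFrob 1 φ) (h0 : χ φ = 0) : ∀ g ∈ w.D, χ g = 0 := by
  intro g hg
  obtain ⟨N, hN, hs⟩ := h.1
  obtain ⟨f, ψ, -, hψ, hf, h1, -, hd⟩ := hF w w.D w.loc_D
  obtain ⟨k, i, hi, u, hu, rfl⟩ := hd N hN g hg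
  have e : χ ψ = 0 := by
    have h2 := hφ.inv_mul (h1 rfl ▸ hf)
    rw [← mul_inv_cancel_left φ ψ, h.2 _ hφ.1 _ h2.1, h0, hI _ h2, add_zero]
  rw [hs _ (mul_mem (pow_mem hψ k) hi.2) u hu.2 hu.1, h.2 _ (pow_mem hψ k) _ hi.2, h.pow hψ, e,
    hI i hi.1, smul_zero, add_zero]

/-- a quadratic character of inertia is determined by its value at a generator -/
theorem ch_tame (hA : CA) (h2 : w.p ≠ 2) {χ : GQ → ZMod 2} (h : IsCh w.I χ) (ht : t ∈ w.I)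
    (hβ : ∀ β : Om, β ^ 2 = w.p → t β = -β) : ∀ g ∈ w.I, χ g = χ t * qz w.p g := by
  intro g hg
  have hq := isCh_qz (H := w.I) w.p
  obtain ⟨N, hN, hs⟩ := h.1
  obtain ⟨N', hN', hs'⟩ := hq.1
  have hU : w.Unif (w.I ⊓ w.D) w.p := by
    rw [inf_of_le_left w.I_le_D]
    exact (hA.res w w.D w.loc_D).2.2.2.2.1
  obtain ⟨k, r, hr, hm⟩ := (hA.tame2 w w.D w.p t h2 w.loc_D hU ⟨ht, ht.1⟩ hβ _ (hN.inf hN')).1 g
    ⟨hg, hg.1⟩
  have hu : g * (t ^ k)⁻¹ ∈ w.I := mul_mem hg (inv_mem (pow_mem ht k))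
  have key : ∀ ψ : GQ → ZMod 2, IsCh w.I ψ → ψ (1 * (g * (t ^ k)⁻¹) ^ r) = ψ 1 →
      ψ g = k • ψ t := fun ψ hψ e => by
    obtain ⟨j, rfl⟩ := hr
    rw [one_mul, hψ.one, hψ.pow hu, succ_nsmul, mul_nsmul, two_nsmul, CharTwo.add_self_eq_zero,
      smul_zero, zero_add, hψ.2 _ hg _ (inv_mem (pow_mem ht k)), hψ.inv (pow_mem ht k),
      hψ.pow ht] at e
    exact add_neg_eq_zero.1 e
  have e1 : qz w.p t = 1 := (qz_eq_one (rt_sq _)).2 fun e => by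
    rw [hβ _ (by rw [rt_sq]; push_cast; rfl)] at e
    exact LA.ne (rt_sq _) (by exact_mod_cast w.prime.ne_zero) (neg_eq_self.1 e)
  rw [key χ h (hs 1 (one_mem _) _ (pow_mem hu r) hm.1),
    key _ hq (hs' 1 (one_mem _) _ (pow_mem hu r) hm.2), e1, mul_smul_comm, mul_one]

/-- the classification of quadratic characters -/
theorem exists_qz (hA : CA) {α : GQ → ZMod 2} (h : IsCh ⊤ α) : ∃ m : ℤ, Squarefree m ∧ α = qz m := by
  by_cases h0 : ∀ g, α g = 0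
  · exact ⟨1, squarefree_one, by rw [qz_one]; exact funext h0⟩
  obtain ⟨t, ht⟩ := not_forall.1 h0
  obtain ⟨U, hU, hk⟩ := h.exists_ker
  have h2 : U.relIndex ⊤ = 2 := by
    have e : α '' (⊤ : Subgroup GQ) = Set.univ := Set.eq_univ_of_forall fun a => by
      rcases LA.cases a with rfl | rfl
      exacts [⟨1, trivial, h.one⟩, ⟨t, trivial, (LA.cases _).resolve_left ht⟩]
    rw [← top_inf_eq U, hk.relIndex h, e, Set.ncard_univ, Nat.card_zmod]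
  obtain ⟨β, hb, hf, hm⟩ := (hA.gal ⊤ isClosed_univ).2.2.2.1 U hU h2
  obtain ⟨q, hq⟩ := hf.rat
  have hd : (q.den : Om) ≠ 0 := Nat.cast_ne_zero.2 q.den_nz
  have e1 : (β * q.den) ^ 2 = ((q.num * q.den : ℤ) : Om) := by
    rw [mul_pow, hq, Rat.cast_def]
    push_cast
    field_simp
  have e2 : q.num * q.den ≠ 0 := fun e => by
    rw [e] at e1
    exact mul_ne_zero hb hd (by simpa using e1)
  obtain ⟨a, b, hab, ha⟩ : ∃ a b : ℤ, b ^ 2 * a = q.num * q.den ∧ Squarefree a := by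
    obtain ⟨a, b, hab, ha⟩ := Nat.sq_mul_squarefree (q.num * q.den).natAbs
    rcases Int.natAbs_eq (q.num * q.den) with e | e
    · exact ⟨a, b, by rw [e, ← hab]; push_cast; ring, Int.squarefree_natCast.2 ha⟩
    · exact ⟨-a, b, by rw [e, ← hab]; push_cast; ring, Int.squarefree_natAbs.1 (by simpa using ha)⟩
  refine ⟨a, ha, funext fun g => LA.ext ?_⟩
  have e3 : qz (q.num * q.den) = qz a := by
    rw [← hab, qz_mul (fun e => e2 (by rw [← hab, e, zero_mul])) ha.ne_zero, qz_sq, zero_add]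
  rw [← e3, qz_eq_zero e1, map_mul, map_natCast, mul_left_inj' hd]
  have e4 : α g = 0 ↔ g ∈ U := by simpa using (hk g).symm
  rw [e4]
  refine ⟨(hm g trivial).1, fun e => by_contra fun e' => ?_⟩
  rw [(hm g trivial).2 e'] at e
  exact hb (neg_eq_self.1 e)

theorem jac_swap {l p : ℕ} (hl : l.Prime) (h4 : l % 4 = 3) (hp : p.Prime) (h2 : p ≠ 2) :
    jacobiSym p l = jacobiSym (-l) p := by
  have ho := hp.odd_of_ne_two h2
  rw [jacobiSym.neg _ ho]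
  rcases (show p % 4 = 1 ∨ p % 4 = 3 by have := Nat.odd_iff.1 ho; omega) with e | e
  · rw [jacobiSym.quadratic_reciprocity_one_mod_four e (Nat.odd_iff.2 (by omega)),
      ZMod.χ₄_nat_one_mod_four e, one_mul]
  · rw [jacobiSym.quadratic_reciprocity_three_mod_four e h4, ZMod.χ₄_nat_three_mod_four e,
      neg_one_mul]

namespace LS

variable {S : LS} {l : ℕ} {x : X2}

theorem d_ne (S : LS) : S.d ≠ 0 ∧ Odd S.d ∧ ¬ (3 : ℤ) ∣ S.d ∧ ¬ (5 : ℤ) ∣ S.d ∧ Squarefree (3 * S.d) := by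
  have h8 := S.d8
  obtain ⟨a, b, hab⟩ := S.cop
  have h3 : ¬ (3 : ℤ) ∣ S.d := by
    rintro ⟨k, hk⟩
    rw [hk, show a * (3 * k) = 3 * (a * k) by ring] at hab
    omega
  refine ⟨S.sq.ne_zero, Int.odd_iff.2 (by omega), h3, ?_, squarefree_mul_iff.2
    ⟨((Prime.coprime_iff_not_dvd Int.prime_three).2 h3).isRelPrime, Int.prime_three.squarefree,
      S.sq⟩⟩
  rintro ⟨k, hk⟩
  rw [hk, show a * (5 * k) = 5 * (a * k) by ring] at hab
  omega

theorem exists_mem (S : LS) {p : ℕ} (hP : PL) (hp : p.Prime) (h : (p : ℤ) ∣ 30 * S.d) :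
    ∃ w ∈ S.R, w.p = p := by
  obtain ⟨w, rfl⟩ := hP.1 p hp
  by_contra e
  exact (S.out w).1 (fun u _ hu => e ⟨_, hu, rfl⟩) h

theorem dvd (S : LS) (h : w ∈ S.R) : (w.p : ℤ) ∣ 30 * S.d := by
  by_contra e
  exact (S.out w).2 e 1 trivial (by simpa using h)

theorem eq_w (S : LS) (hP : PL) (h : w ∈ S.R) : w.p = 2 ↔ w = S.w := by
  refine ⟨fun e => ?_, fun e => e ▸ S.w2⟩
  obtain ⟨σ, hσ⟩ := hP.2.1 w S.w (e.trans S.w2.symm)
  exact (S.sep w h σ trivial (hσ ▸ S.wR)).symm.trans hσ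

theorem Gl.fix (h : S.Gl l δ) : Fix ⊤ (δ ^ 2) ∧ δ ≠ 0 ∧ (-l * S.d) % 8 = 5 ∧
    Squarefree (-l * S.d) ∧ ¬ (l : ℤ) ∣ 30 * S.d := by
  have hp := Nat.prime_iff_prime_int.1 h.lp
  have h1 : IsCoprime (l : ℤ) S.d := h.cop.of_mul_right_right.symm
  have h16 := h.l16
  have h8 := S.d8
  refine ⟨LA.fix h.hd, LA.ne h.hd (mul_ne_zero (neg_ne_zero.2 hp.ne_zero) S.sq.ne_zero), ?_,
    squarefree_mul_iff.2 ⟨h1.neg_left.isRelPrime, hp.neg.squarefree, S.sq⟩, fun e => ?_⟩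
  · rw [Int.mul_emod, h8, show (-l : ℤ) % 8 = 1 by omega]
    rfl
  · rcases hp.dvd_or_dvd e with e | e
    · have e' : l ∣ 30 := by exact_mod_cast e
      have := Nat.le_of_dvd (by norm_num) e'
      rcases (show l = 7 ∨ l = 23 by omega) with rfl | rfl <;> omega
    · exact hp.not_isUnit (h1.isUnit_of_dvd' dvd_rfl e)

/-- `-l` is a local square at the primes of `30 d` -/
theorem Gl.loc (hA : CA) (h : S.Gl l δ) (hw : (w.p : ℤ) ∣ 30 * S.d) (hg : g ∈ w.D) :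
    qz (-l) g = 0 ∧ qz (-l * S.d) g = qz S.d g ∧ qz (l * S.d) g = qz (-S.d) g ∧
      sd δ g = sd (rt S.d) g := by
  have hl : (-l : ℤ) ≠ 0 := neg_ne_zero.2 (Nat.cast_ne_zero.2 h.lp.ne_zero)
  have h16 := h.l16
  have e : qz (-l) g = 0 := by
    by_cases h2 : w.p = 2
    · exact qz_D_two hA h2 (by omega) hg
    have h3 : ¬ (w.p : ℤ) ∣ -l := fun e => h.fix.2.2.2.2 (by
      rwa [← (Nat.prime_dvd_prime_iff_eq w.prime h.lp).1 (by exact_mod_cast dvd_neg.1 e)])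
    refine (qz_D_iff hl).2 (((hA.sq2 w).2.2.2.2.2 h2 _ h3).1.2 (h.spl _ w.prime ?_)) g hg
    rw [show 30 * S.d = 2 * (15 * S.d) by ring] at hw
    exact ((Nat.prime_iff_prime_int.1 w.prime).dvd_or_dvd hw).resolve_left fun e => h2
      ((Nat.prime_dvd_prime_iff_eq w.prime Nat.prime_two).1 (by exact_mod_cast e))
  have e1 : qz (-l * S.d) g = qz S.d g := by
    rw [qz_mul hl S.sq.ne_zero, Pi.add_apply, e, zero_add]
  refine ⟨e, e1, ?_, by rw [sd_eq_qz h.hd, sd_eq_qz (rt_sq _), e1]⟩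
  rw [← neg_mul_neg, qz_mul hl (neg_ne_zero.2 S.sq.ne_zero), Pi.add_apply, e, zero_add]

/-- the primes of `30 d` are local squares at `l` -/
theorem Gl.at (hA : CA) (h : S.Gl l δ) (hw : w.p = l) {a : ℕ} (ha : (a : ℤ) ∣ 30 * S.d)
    (hg : g ∈ w.D) : qz a g = 0 := by
  have h16 := h.l16
  have key : ∀ a : ℕ, (a : ℤ) ∣ 30 * S.d → jacobiSym a l = 1 := fun a => by
    induction a using Nat.recOnMul with
    | zero => exact fun e => absurd (zero_dvd_iff.1 e) (mul_ne_zero (by norm_num) S.sq.ne_zero)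
    | one => exact fun _ => jacobiSym.one_left l
    | prime p hp =>
      intro e
      by_cases h2 : p = 2
      · subst h2
        rw [Nat.cast_ofNat, jacobiSym.at_two (Nat.odd_iff.2 (by omega)), ZMod.χ₈_nat_eq_if_mod_eight,
          if_neg (by omega), if_pos (by omega)]
      rw [jac_swap h.lp (by omega) hp h2]
      refine h.spl p hp ?_
      rw [show 30 * S.d = 2 * (15 * S.d) by ring] at e
      exact ((Nat.prime_iff_prime_int.1 hp).dvd_or_dvd e).resolve_left fun e => h2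
        ((Nat.prime_dvd_prime_iff_eq hp Nat.prime_two).1 (by exact_mod_cast e))
    | mul a b iha ihb =>
      intro e
      rw [Nat.cast_mul] at e ⊢
      rw [jacobiSym.mul_left, iha (dvd_of_mul_right_dvd e), ihb (dvd_of_mul_left_dvd e), mul_one]
  have h3 : ¬ (w.p : ℤ) ∣ a := fun e => h.fix.2.2.2.2 (hw ▸ e.trans ha)
  exact (qz_D_iff fun e => h3 (by simp [e])).2
    (((hA.sq2 w).2.2.2.2.2 (by omega) _ h3).1.2 (hw ▸ key a ha)) g hg

theorem GX.ex (h : S.GX x) (i : Fin 2) :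
    ∃ a : ℕ, (a : ℤ) ∣ 3 * S.d ∧ Squarefree a ∧ Odd a ∧ ∀ g, x g i = qz a g := by
  have key : ∀ a : ℕ, (a : ℤ) ∣ 3 * S.d → Squarefree a ∧ Odd a := fun a e =>
    ⟨Int.squarefree_natCast.1 (S.d_ne.2.2.2.2.squarefree_of_dvd e), (Int.odd_coe_nat a).1
      (Int.odd_mul.1 (e.choose_spec ▸ Odd.mul (by decide) S.d_ne.2.1)).1⟩
  obtain ⟨⟨a, ha, e, -⟩, b, hb, -, -, e', -⟩ := h
  fin_cases i
  · exact ⟨a, ha.mul_left 3, (key a (ha.mul_left 3)).1, (key a (ha.mul_left 3)).2, congrFun e⟩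
  · exact ⟨b, hb, (key b hb).1, (key b hb).2, congrFun e'⟩

theorem GX.ch (h : S.GX x) : IsCh H x ∧ ∀ i, IsCh H fun g => x g i := by
  have key : ∀ i, IsCh H fun g => x g i := fun i => by
    obtain ⟨a, -, -, -, e⟩ := h.ex i
    rw [funext e]
    exact isCh_qz a
  exact ⟨⟨Sm.pi fun i => (key i).1, fun g hg k hk => funext fun i => (key i).2 g hg k hk⟩, key⟩

theorem GX.unr (hA : CA) (h : S.GX x) (hw : ¬ (w.p : ℤ) ∣ 6 * S.d) (hg : g ∈ w.I) : x g = 0 := by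
  funext i
  obtain ⟨a, ha, -, -, e⟩ := h.ex i
  rw [e]
  refine qz_I hA (fun e => hw (e.trans ?_)) hg
  rw [show 6 * S.d = 2 * (3 * S.d) by ring]
  exact mul_dvd_mul_left _ ha

theorem GX.tau (hA : CA) (h : S.GX x) (hg : g ∈ Subgroup.zpowers tau) : x g = 0 := by
  funext i
  obtain ⟨a, -, ha, -, e⟩ := h.ex i
  have h0 : (0 : ℤ) < a := by exact_mod_cast Nat.pos_of_ne_zero ha.ne_zero
  have h1 : R2.tau ∈ MulAction.stabilizer GQ (rt a) :=
    (qz_eq_zero (rt_sq _)).1 ((qz_tau hA.tau h0.ne').2 h0)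
  rw [e]
  exact (qz_eq_zero (rt_sq _)).2 (Subgroup.zpowers_le.2 h1 hg)

theorem GX.at (hA : CA) (h : S.GX x) (hl : S.Gl l δ) (hw : w.p = l) (hg : g ∈ w.D) : x g = 0 := by
  funext i
  obtain ⟨a, ha, -, -, e⟩ := h.ex i
  rw [e]
  exact hl.at hA hw (ha.trans ⟨10, by ring⟩) hg

theorem j3 (S : LS) : jacobiSym S.d 3 = -1 ∨ jacobiSym S.d 3 = 1 :=
  (jacobiSym.eq_one_or_neg_one (Int.isCoprime_iff_gcd_eq_one.1
    (S.cop.of_isCoprime_of_dvd_right (by norm_num)))).symm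

theorem sep_ch (hA : CA) {α : GQ → ZMod 2} (h : S.GA α ∨ S.GB α) :
    IsCh ⊤ α ∧ (α ≠ 0 → ∃ g, cyc g = 1 ∧ α g ≠ 0) := by
  obtain ⟨a, ha, rfl⟩ : ∃ a : ℕ, (a : ℤ) ∣ 3 * S.d ∧ α = qz a := by
    rcases h with ⟨a, ha, e, -⟩ | ⟨a, ha, -, -, e, -⟩
    exacts [⟨a, ha.mul_left 3, e⟩, ⟨a, ha, e⟩]
  refine ⟨isCh_qz _, fun h0 => ?_⟩
  obtain ⟨p, hp, hpa⟩ := Nat.exists_prime_and_dvd (n := a) (by
    rintro rfl
    exact h0 (by simpa using qz_one))
  obtain ⟨w, rfl⟩ := hA.pl.1 p hp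
  have hd : (w.p : ℤ) ∣ a := by exact_mod_cast hpa
  have h2 : w.p ≠ 2 := fun e => by
    have := hd.trans ha
    have := Int.odd_iff.1 S.d_ne.2.1
    rw [e] at *
    omega
  obtain ⟨t, ht, hβ⟩ := Pl.exists_gen hA.tame hA.res h2
  exact ⟨t, hA.ec.2.2.2.2.2.2.1 w h2 t ht, fun e =>
    (qz_gen hA h2 ht hβ (S.d_ne.2.2.2.2.squarefree_of_dvd ha)).1 e hd⟩

end LS

theorem exists_LS (hP : PL) (d : ℤ) (w : Pl) (T : Tate w) (h1 : Squarefree d) (h2 : d % 8 = 5)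
    (h3 : IsCoprime d 15) (h4 : jacobiSym d 5 = -1) (h6 : w.p = 2) : ∃ S : LS, S.d = d ∧ S.w = w ∧ HEq S.T T := by
  classical
  have h0 : (30 * d).natAbs ≠ 0 := Int.natAbs_ne_zero.2 (mul_ne_zero (by norm_num) h1.ne_zero)
  obtain ⟨f, hf, f2⟩ : ∃ f : ℕ → Pl, (∀ p, p.Prime → (f p).p = p) ∧ f 2 = w := by
    choose f hf using hP.1
    refine ⟨fun p => if p = 2 then w else if h : p.Prime then f p h else w, fun p hp => ?_,
      if_pos rfl⟩
    by_cases e : p = 2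
    · simp only [e, if_true, h6]
    · simp only [e, if_false, dif_pos hp, hf]
  have hm : ∀ v, v ∈ (30 * d).natAbs.primeFactors.image f ↔
      f v.p = v ∧ (v.p : ℤ) ∣ 30 * d := fun v => by
    simp only [Finset.mem_image, Nat.mem_primeFactors_of_ne_zero h0, ← Int.natCast_dvd]
    constructor
    · rintro ⟨p, ⟨hp, e⟩, rfl⟩
      rw [hf p hp]
      exact ⟨rfl, e⟩
    · exact fun e => ⟨v.p, ⟨v.prime, e.2⟩, e.1⟩
  refine ⟨⟨d, w, T, (30 * d).natAbs.primeFactors.image f, h1, h2, h3, h4, h6,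
    (hm w).2 (by rw [h6]; exact ⟨f2, Dvd.dvd.mul_right (by norm_num) _⟩), fun v hv u _ hu => ?_,
    fun v => ⟨fun e hv => ?_, fun e u _ hu => e ((hm _).1 hu).2⟩⟩, rfl, rfl, HEq.rfl⟩
  · exact ((hm _).1 hu).1.symm.trans ((hm _).1 hv).1
  · obtain ⟨σ, hσ⟩ := hP.2.1 v (f v.p) (hf _ v.prime).symm
    exact e σ trivial ((hm _).2 ⟨hσ.symm, hv⟩)

end Pool.Agent.P.MP_8b7eba_nt.R2
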