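import Pool.Agent.P.MP_8b7eba_nt.R2.SelB

/-! Proof of SPLIT. -/

namespace Pool.Agent.P.MP_8b7eba_nt.R2

open scoped NNReal Matrix
open MP_9c97e9_nt (Pt pm Is ap Sha Split)
open Filter Topology Polynomial Module

namespace TSPLIT

/-- the trivial character -/
noncomputable abbrev p1 : ℤ_[2] → ℚ_[2] := fun _ => 1

section ext

variable {W : Type} [NormedAddCommGroup W] [NormedSpace ℚ_[2] W] [FiniteDimensional ℚ_[2] W]
  {R : GQ → W →ₗ[ℚ_[2]] W} {P : Pre}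

theorem tt (hA : CB) : cs tau * cs tau = 1 := by
  rw [← cs_mul, hA.tau.2.1, cs_one]

theorem inv_tau (hA : CB) : tau⁻¹ = tau := inv_eq_of_mul_eq_one_right hA.tau.2.1

theorem conj (hA : CB) {N : Subgroup GQ} (hN : N.Normal) {g : GQ} (hg : g ∈ N) :
    tau * g * tau ∈ N := by
  have := hN.conj_mem g hg tau
  rwa [inv_tau hA] at this

theorem conjS (hA : CB) {g : GS} (hg : g ∈ S1 P.GK) : cs tau * g * cs tau ∈ S1 P.GK :=
  Eventually.mono hg fun _ h => conj hA P.on.1 h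

theorem mul_tau (hA : CB) {g : GS} (hg : g ∉ S1 P.GK) : g * cs tau ∈ S1 P.GK :=
  (ev_not.1 hg).mono fun _ h => P.mul_mem h (hA.karith P).2.1

theorem not_mul_tau (hA : CB) {g : GS} (hg : g ∈ S1 P.GK) : g * cs tau ∉ S1 P.GK := fun h =>
  (hA.karith P).2.1 (cs_mem.1 ((Subgroup.mul_mem_cancel_left _ hg).1 h))

open Classical in
omit [NormedSpace ℚ_[2] W] [FiniteDimensional ℚ_[2] W] in
theorem uc_ite (hA : CB) {a b : GQ → W} (ha : Uc P.GK a) (hb : Uc P.GK b) :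
    Uc ⊤ fun g => if g ∈ P.GK then a g else b (g * tau) := by
  intro ε hε
  obtain ⟨N, hN, e⟩ := ha ε hε
  obtain ⟨N', hN', e'⟩ := hb ε hε
  refine ⟨_, (hN.inf hN').inf P.on, fun g _ n _ hn => ?_⟩
  by_cases hg : g ∈ P.GK
  · simp only [if_pos hg, if_pos (P.GK.mul_mem hg hn.2)]
    exact e g hg n hn.2 hn.1.1
  · have h1 : g * n ∉ P.GK := fun h => hg ((Subgroup.mul_mem_cancel_right _ hn.2).1 h)
    have h2 : g * n * tau = g * tau * (tau * n * tau) := by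
      rw [← mul_assoc, ← mul_assoc, mul_assoc g tau tau, hA.tau.2.1, mul_one]
    simp only [if_neg hg, if_neg h1, h2]
    exact e' _ (P.mul_mem hg (hA.karith P).2.1) _ (conj hA P.on.1 hn.2) (conj hA hN'.1 hn.1.2)

/-- extension of an invariant cocycle to the whole Galois group -/
theorem ext (hA : CB) (hR : Rep ⊤ R) {y : GS → W} (hy : PZ (fun _ => P.GK) R y) {w : W}
    (hw : rS R (cs tau) w = -w) (h : ∀ g ∈ S1 P.GK, y (cs tau * g * cs tau) =
      w + rS R (cs tau) (y g) + rS R (cs tau) (rS R g w)) :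
    ∃ Y, PZ (fun _ => ⊤) R Y ∧ ∀ g ∈ S1 P.GK, Y g = y g := by
  classical
  obtain ⟨⟨c, ⟨B, hB⟩, hu, hl⟩, hc⟩ := hy
  have m : ∀ g g' : GS, ∀ v, rS R (g * g') v = rS R g (rS R g' v) := fun g g' v =>
    hR.rS_mul (by rw [S1_top]; trivial) (by rw [S1_top]; trivial) v
  refine ⟨fun g => if g ∈ S1 P.GK then y g else y (g * cs tau) + rS R (g * cs tau) w,
    ⟨⟨fun k g => if g ∈ P.GK then c k g else (c k + fun g => R g w) (g * tau),
      ⟨B + ‖w‖, fun k g => ?_⟩, fun k => uc_ite hA (hu k) ((hu k).add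
        ((hR.mono le_top).uc (Sm.const w).uc)), fun g _ => ?_⟩, ?_⟩, fun g hg => if_pos hg⟩
  · split_ifs
    · exact (hB k g).trans (le_add_of_nonneg_right (norm_nonneg _))
    · exact (norm_add_le _ _).trans (add_le_add (hB _ _) (hR.le _ _))
  · by_cases hg : g ∈ S1 P.GK
    · rw [if_pos hg]
      exact (hl g hg).congr' (Eventually.mono hg fun k h => (if_pos h).symm)
    · rw [if_neg hg]
      exact ((hl _ (mul_tau hA hg)).add (hR.tendsto (g * cs tau) tendsto_const_nhds)).congr'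
        ((ev_not.1 hg).mono fun k h => (if_neg h).symm)
  · have key : ∀ g : GS, ∃ a ∈ S1 P.GK, g = a ∨ g = a * cs tau := fun g => by
      by_cases hg : g ∈ S1 P.GK
      · exact ⟨g, hg, Or.inl rfl⟩
      · exact ⟨_, mul_tau hA hg, Or.inr (by rw [mul_assoc, tt hA, mul_one])⟩
    have e : ∀ a : GS, a * cs tau * cs tau = a := fun a => by rw [mul_assoc, tt hA, mul_one]
    intro g _ g' _
    obtain ⟨a, ha, rfl | rfl⟩ := key g <;> obtain ⟨b, hb, rfl | rfl⟩ := key g'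
    · simp only [if_pos ha, if_pos hb, if_pos (mul_mem ha hb)]
      exact hc _ ha _ hb
    · rw [← mul_assoc]
      simp only [if_pos ha, if_neg (not_mul_tau hA hb), if_neg (not_mul_tau hA (mul_mem ha hb)), e]
      rw [hc _ ha _ hb, m, hR.rS_add, add_assoc]
    · have e1 : a * cs tau * g' = a * (cs tau * g' * cs tau) * cs tau := by
        rw [mul_assoc a _ (cs tau), e, mul_assoc]
      have h1 := conjS hA hb
      have h2 := not_mul_tau hA (mul_mem ha h1)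
      simp only [if_pos hb, if_neg (not_mul_tau hA ha), e]
      rw [e1, if_neg h2, e, hc _ ha _ h1, h _ hb]
      simp only [m, hw, hR.rS_add, hR.rS_neg]
      abel
    · have e1 : a * cs tau * (b * cs tau) = a * (cs tau * b * cs tau) := by
        simp only [mul_assoc]
      have h1 := conjS hA hb
      simp only [if_neg (not_mul_tau hA hb), if_neg (not_mul_tau hA ha), e]
      rw [e1, if_pos (mul_mem ha h1), hc _ ha _ h1, h _ hb]
      simp only [m, hR.rS_add]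
      abel

end ext

theorem rep (D : Dat) : Rep ⊤ (D.r p1) := by
  rw [D.r_one]
  exact D.T.rep D.fix_dl

theorem rS_mul {R : GQ → V2 →ₗ[ℚ_[2]] V2} (hR : Rep ⊤ R) (g g' : GS) (v : V2) :
    rS R (g * g') v = rS R g (rS R g' v) :=
  hR.rS_mul (by rw [S1_top]; trivial) (by rw [S1_top]; trivial) v

/-- at the bad primes an unramified class is trivial -/
theorem bad (hP : CP) {D : Dat} {y : GS → V2} (hy : PZ (fun _ => D.GK) (D.r p1) y) {w : Pl}
    (hw : w.p ∣ 15) (h : Cob (S1 w.I) (D.r p1) y) : Cob (S1 w.D) (D.r p1) y := by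
  have hR := rep D
  have hD : w.D ≤ D.GK := D.spD w
    (((Int.natCast_dvd_natCast.2 hw).trans (by norm_num : ((15 : ℕ) : ℤ) ∣ 30)).mul_right _)
  have h2 : w.p ≠ 2 := fun e => by rw [e] at hw; omega
  have h1 : (w.p : ℚ_[2]) ≠ 1 := by exact_mod_cast w.prime.one_lt.ne'
  have h1' : -(w.p : ℚ_[2]) ≠ 1 := by
    have : -(w.p : ℤ) ≠ 1 := by omega
    exact_mod_cast this
  obtain ⟨v, hv⟩ := h
  obtain ⟨e, -, -, -, hI, ht, hφ⟩ := hP.unip _ D.T w hw
  obtain ⟨t, tI, tβ⟩ := Pl.exists_gen hP.tame hP.res h2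
  obtain ⟨φ, fr⟩ := Pl.exists_frob hP.frob w
  have z1 : PZ (fun _ => w.D) (D.r p1) (y - fun g => rS (D.r p1) g v - v) :=
    (hy.mono fun _ => hD).sub hR (pz_cob hR (fun _ => le_top) v)
  set y1 := y - fun g => rS (D.r p1) g v - v with hy1
  have z2 : ∀ g ∈ S1 w.I, y1 g = 0 := fun g hg => sub_eq_zero.2 (hv g hg)
  have rI : ∀ g ∈ w.I, ∀ u, D.r p1 g u = D.T.rho g *ᵥ u := fun g hg u => by
    rw [Dat.r_bad hP.toCA isPsi_one hw hg, mv_rat]
  obtain ⟨s, hs⟩ : ∃ s : ℚ_[2], y1 (cs φ) = s • e := by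
    refine (ht t tI tβ).2 _ ?_
    have a1 := z1.2 _ (cs_mem.2 (w.I_le_D tI)) _ (cs_mem.2 fr.1)
    have b : φ⁻¹ * t * φ ∈ w.I := by simpa using Pl.conj_mem_I (w.D.inv_mem fr.1) tI
    have a2 := z1.2 _ (cs_mem.2 fr.1) _ (cs_mem.2 (w.I_le_D b))
    rw [z2 _ (cs_mem.2 tI), zero_add, rS_cs, rI t tI, ← cs_mul] at a1
    rw [z2 _ (cs_mem.2 b), rS_zero, add_zero, ← cs_mul, show φ * (φ⁻¹ * t * φ) = t * φ by group]
      at a2
    rw [← a1, a2]
  obtain ⟨l, l1, hl⟩ : ∃ l : ℚ_[2], l ≠ 1 ∧ D.r p1 φ e = l • e := by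
    rw [D.r_one, Tate.rq_apply, Tate.rd, Matrix.smul_mulVec]
    rcases hφ φ fr with a | a <;> rcases sd_cases D.dl φ with b | b <;> rw [a, b]
    · exact ⟨_, h1, by simp⟩
    · exact ⟨_, h1', by simp⟩
    · exact ⟨_, h1', by simp⟩
    · exact ⟨_, h1, by simp⟩
  have z3 : PZ (fun _ => w.D ⊓ ⊤) (D.r p1)
      (y1 - fun g => rS (D.r p1) g ((s / (l - 1)) • e) - (s / (l - 1)) • e) :=
    (z1.mono fun _ => inf_le_left).sub hR (pz_cob hR (fun _ => le_top) _)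
  have z4 := hP.pfrob V2 ⊤ _ (fun _ => w) (cs φ) (fun _ => 1) _ isOpen_univ
    ⟨⊤, hR, fun _ => le_top⟩ (Eventually.of_forall fun _ => ⟨trivial, fr, by simp⟩) z3 ?_ ?_
  · refine ⟨v + (s / (l - 1)) • e, fun g hg => ?_⟩
    have := z4 g (Eventually.mono hg fun _ h => ⟨h, trivial⟩)
    simp only [hy1, Pi.sub_apply] at this
    rw [hR.rS_add]
    linear_combination (exp := 1) this
  · have : l - 1 ≠ 0 := sub_ne_zero.2 l1
    simp only [Pi.sub_apply (f := y1), hs, rS_cs, map_smul, hl, smul_smul, ← sub_smul]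
    rw [show s - (s / (l - 1) * l - s / (l - 1)) = 0 by field_simp; ring, zero_smul]
  · intro g hg
    have hg' : g ∈ S1 w.I := Eventually.mono hg fun _ h => h.1
    have : rS (D.r p1) g ((s / (l - 1)) • e) = (s / (l - 1)) • e := by
      rw [← rS_id g ((s / (l - 1)) • e), rS_id g ((s / (l - 1)) • e)]
      refine (rS_congr (s := fun _ => LinearMap.id) (g' := g) ?_).trans (rS_id _ _)
      refine Eventually.mono hg' fun k h => ?_
      rw [map_smul, rI _ h, (hI _ h).1]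
      rfl
    simp only [Pi.sub_apply (f := y1), z2 g hg', this, sub_self]

/-- an invariant Selmer class descends to the rationals -/
theorem selq (hP : CP) {D : Dat} {y : GS → V2} (hy : D.Sel p1 [] y) {δ : Om} {m : ℤ}
    (hδ : δ ^ 2 = m) (hm : Squarefree m) (hm2 : ¬ 2 ∣ m) (hd : D.d ∣ m)
    (hr : ∀ g ∈ D.GK, D.T.rq δ g = D.r p1 g) {w : V2} (hw : rS (D.T.rq δ) (cs tau) w = -w)
    (h : ∀ g ∈ S1 D.GK, y (cs tau * g * cs tau) = w + rS (D.T.rq δ) (cs tau) (y g) +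
      rS (D.T.rq δ) (cs tau) (rS (D.T.rq δ) g w)) :
    ∃ Y, SelQ D.T δ m Y ∧ ∀ g ∈ S1 D.GK, Y g = y g := by
  have hR : Rep ⊤ (D.T.rq δ) := D.T.rep (by rw [hδ]; exact fix_int m)
  have e : ∀ g ∈ S1 D.GK, ∀ v, rS (D.T.rq δ) g v = rS (D.r p1) g v := fun g hg v =>
    rS_congr (Eventually.mono hg fun k h => by rw [hr _ h])
  obtain ⟨Y, hY, eY⟩ := ext hP.toCB hR (hy.1.pz.congr_rep fun g hg _ _ => e g hg _) hw h
  have n30 : ∀ w : Pl, ¬ (w.p : ℤ) ∣ 30 * m → ¬ w.p ∣ 30 ∧ w.p ≠ 2 ∧ ¬ (w.p : ℤ) ∣ m ∧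
      ¬ (w.p : ℤ) ∣ 30 * D.d := fun w h =>
    ⟨fun a => h (Dvd.dvd.mul_right (by exact_mod_cast a) _),
      fun a => h (Dvd.dvd.mul_right (by rw [a]; norm_num) _), fun a => h (a.mul_left _),
      fun a => h (a.trans (mul_dvd_mul_left _ hd))⟩
  refine ⟨Y, ⟨hY, fun w g hg => ?_, fun w hw => ?_, ?_⟩, eY⟩
  · have k : ∀ g : GS, (∀ᶠ k in UF, g k ∈ (w k).I) → g ∈ S1 D.GK → Y g = 0 := fun g a b => by
      rw [eY g b]
      refine hy.1.unr w g ?_
      filter_upwards [a, b, hg] with k a b c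
      exact ⟨⟨a, b⟩, (n30 _ c.2).2.2.2, by simp⟩
    by_cases hK : g ∈ S1 D.GK
    · exact k g (hg.mono fun _ h => h.1) hK
    · have a1 := k (g * g) (hg.mono fun k h => mul_mem h.1 h.1)
        ((ev_not.1 hK).mono fun k h => D.mul_mem h h)
      have a2 : rS (D.T.rq δ) g (Y g) = Y g := by
        refine (rS_congr (s := fun _ => LinearMap.id) (g' := g) ?_).trans (rS_id _ _)
        refine hg.mono fun k h => ?_
        obtain ⟨b1, b2, b3, -⟩ := n30 _ h.2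
        rw [Tate.rq_apply, Tate.rd, (hP.tr _ D.T _ b1).1 _ h.1,
          sd_eq_one.2 (Pl.I_fix hP.tame hP.res b2 hδ b3 h.1)]
        simp
      have t : g ∈ S1 ⊤ := by rw [S1_top]; trivial
      rw [hY.2 g t g t, a2, ← two_smul ℚ_[2]] at a1
      exact (smul_eq_zero.1 a1).resolve_left two_ne_zero
  · by_cases h15 : w.p ∣ 15
    · have hD : w.D ≤ D.GK := D.spD w (((Int.natCast_dvd_natCast.2 h15).trans
        (by norm_num : ((15 : ℕ) : ℤ) ∣ 30)).mul_right _)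
      obtain ⟨v, hv⟩ := bad hP hy.1.pz h15 (hy.1.bad w h15)
      exact ⟨v, fun g hg => by rw [eY g (S1_mono hD hg), e g (S1_mono hD hg), hv g hg]⟩
    · have hp : Prime (w.p : ℤ) := Nat.prime_iff_prime_int.1 w.prime
      obtain ⟨m', rfl⟩ := (hp.dvd_or_dvd hw).resolve_left fun a => h15 (by exact_mod_cast a)
      have h2 : w.p ≠ 2 := fun a => hm2 (Dvd.dvd.mul_right (by rw [a]; norm_num) _)
      have h30 : ¬ w.p ∣ 30 := fun a => by
        rcases (Nat.Prime.dvd_mul w.prime).1 (show w.p ∣ 2 * 15 from a) with a | a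
        · exact h2 ((Nat.prime_dvd_prime_iff_eq w.prime Nat.prime_two).1 a)
        · exact h15 a
      obtain ⟨t, tI, tβ⟩ := Pl.exists_gen hP.tame hP.res h2
      have h3 : t δ = -δ := Pl.gen_move hP.tame hP.res h2 tI tβ (m := m')
        (by rw [hδ]; push_cast; rfl) fun a => hp.not_isUnit (hm _ (mul_dvd_mul_left _ a))
      have h4 : t δ ≠ δ := fun a => by
        have h0 : δ = 0 := by linear_combination (h3 - a) / 2
        rw [h0] at hδ
        exact hm.ne_zero (Int.cast_eq_zero.1 (hδ.symm.trans (zero_pow two_ne_zero)))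
      refine hP.sah V2 _ w t Y h2 (hR.mono le_top) tI tβ (fun v => ?_) (hY.mono fun _ => le_top)
      rw [Tate.rq_apply, Tate.rd, (hP.tr _ D.T _ h30).1 _ tI, sd_eq_neg.2 h4]
      simp [Matrix.neg_mulVec]
  · obtain ⟨v, hv⟩ := (Dat.ord_iff isPsi_one).1 hy.2.1
    exact ⟨v, fun g hg => by
      rw [eY g (S1_mono D.D_le hg), e g (S1_mono D.D_le hg), hv g hg]⟩

theorem xt_eq (D : Dat) (x : GS → V2) (g : GS) : ((sd D.dl tau : ℚ_[2]) • D.xt x) g =
    rS (D.r p1) (cs tau) (x (cs tau * g * cs tau)) := by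
  rw [rS_cs, D.r_one, Tate.rq_apply, Tate.rd, Matrix.smul_mulVec, Pi.smul_apply, Dat.xt, mv_rat]

theorem half (hP : CP) {D : Dat} {x : GS → V2} (hx : D.Sel p1 [] x) {δ : Om} {m : ℤ}
    (hδ : δ ^ 2 = m) (hm : Squarefree m) (hm2 : ¬ 2 ∣ m) (hd : D.d ∣ m)
    (hr : ∀ g ∈ D.GK, D.T.rq δ g = D.r p1 g) {ε : ℚ_[2]} (hε : ε * ε = 1)
    (ht : ∀ v, D.T.rq δ tau v = ε • D.r p1 tau v) :
    ∃ Y, SelQ D.T δ m Y ∧ ∀ g ∈ S1 D.GK,
      Y g = x g + ε • D.nz p1 ((sd D.dl tau : ℚ_[2]) • D.xt x) g := by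
  have hR := rep D
  obtain ⟨M, hM⟩ := Dat.exists_sel (D := D) isPsi_one []
  have h1 : D.nz p1 ((sd D.dl tau : ℚ_[2]) • D.xt x) ∈ M := by
    rw [Dat.nz_smul isPsi_one]
    exact M.smul_mem _ ((hM _).2 (hx.xt hP.toCF isPsi_one))
  obtain ⟨u, hu⟩ := Dat.nz_eq (D := D) ((sd D.dl tau : ℚ_[2]) • D.xt x) isPsi_one
  have e : ∀ g ∈ S1 D.GK, ∀ v, rS (D.T.rq δ) g v = rS (D.r p1) g v := fun g hg v =>
    rS_congr (Eventually.mono hg fun k h => by rw [hr _ h])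
  have e1 : ∀ v, rS (D.T.rq δ) (cs tau) v = ε • rS (D.r p1) (cs tau) v := fun v => by
    rw [rS_cs, rS_cs, ht]
  have e2 : ∀ v, rS (D.r p1) (cs tau) (rS (D.r p1) (cs tau) v) = v := fun v => by
    rw [← rS_mul hR, tt hP.toCB, hR.rS_one]
  refine selq hP ((hM _).1 (M.add_mem ((hM _).2 hx) (M.smul_mem ε h1))) hδ hm hm2 hd hr
    (w := rS (D.r p1) (cs tau) u - ε • u) ?_ fun g hg => ?_
  · rw [e1, hR.rS_sub, hR.rS_smul, e2, smul_sub, smul_smul, hε, one_smul, neg_sub]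
  · have e3 : cs tau * (cs tau * g * cs tau) * cs tau = g := by
      rw [← mul_assoc, ← mul_assoc, tt hP.toCB, one_mul, mul_assoc, tt hP.toCB, mul_one]
    simp only [Pi.add_apply (f := x), Pi.smul_apply (a := ε), hu _ hg, hu _ (conjS hP.toCB hg),
      xt_eq, e3, e1, e g hg, rS_mul hR, hR.rS_add, hR.rS_sub, hR.rS_smul, e2, smul_add, smul_sub,
      smul_smul, hε, one_smul]
    abel

theorem sd_sk (D : Dat) (g : GQ) : sd (D.dl * D.sk) g = sd D.dl g * sd D.sk g :=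
  sd_mul_left D.fix_dl (by rw [D.hsk]; exact (fix_nat _).neg) D.dl_ne.1 D.dl_ne.2.1 g

theorem rq_sk (D : Dat) {g : GQ} (hg : g ∈ D.GK) : D.T.rq (D.dl * D.sk) g = D.r p1 g := by
  rw [D.r_one, Tate.rq, Tate.rq, Tate.rd, Tate.rd, sd_sk, sd_eq_one.2 (show g D.sk = D.sk from hg),
    mul_one]

/-- a coboundary which vanishes at an element acting by minus one is zero -/
theorem cob_zero {D : Dat} {R : GQ → V2 →ₗ[ℚ_[2]] V2} (hr : R D.z = D.r p1 D.z) {x : GS → V2}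
    (h : Cob ⊤ R x) (h0 : x (cs D.z) = 0) (g : GS) : x g = 0 := by
  obtain ⟨v, hv⟩ := h
  have h1 := hv (cs D.z) trivial
  rw [h0, rS_cs, hr, ← rS_cs, Dat.rS_z isPsi_one, ← neg_add', ← two_smul ℚ_[2]] at h1
  rw [hv g trivial, (smul_eq_zero.1 (neg_eq_zero.1 h1.symm)).resolve_left two_ne_zero, rS_zero,
    sub_zero]

/-- the rational points are killed by one integer -/
theorem ratp {δ : Om} (h : (RatP δ).Finite) : ∃ n : ℕ, n ≠ 0 ∧ ∀ P ∈ RatP δ, n • P = 0 := by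
  let G : AddSubgroup EO := ⨅ g : GQ, (tac δ g).eqLocus (AddMonoidHom.id _)
  have e : ∀ P, P ∈ G ↔ P ∈ RatP δ := fun P => AddSubgroup.mem_iInf
  have : Finite G := h.subset fun P hP => (e P).1 hP
  exact ⟨Nat.card G, Nat.card_pos.ne', fun P hP =>
    congrArg Subtype.val (card_nsmul_eq_zero' (x := (⟨P, (e P).2 hP⟩ : G)))⟩

theorem sum_val {M : Type} [AddCommMonoid M] (k : ℕ) (f : ℕ → M) :
    ∑ j ∈ Finset.range (2 ^ k), f j = ∑ j : ZMod (2 ^ k), f j.val :=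
  (Finset.sum_nbij (fun j : ZMod (2 ^ k) => j.val) (fun j _ => Finset.mem_range.2 j.val_lt)
    (fun _ _ _ _ h => ZMod.val_injective _ h)
    (fun j hj => ⟨j, by simp, ZMod.val_natCast_of_lt (by simpa using hj)⟩) fun _ _ => rfl).symm

/-- the Heegner cocycle at one level -/
theorem level (hI : INVP) {D : Dat} {H : Heeg D.toPre D.a} {v : KA} (hv : D.KD H [] v) (k : ℕ) :
    ∃ Q : EO, ∀ g ∈ D.GK, tac D.dl g (2 ^ k • Q) = 2 ^ k • Q ∧
      D.T.pt ((2 ^ k : ℚ_[2])⁻¹ • ∑ j ∈ Finset.range (2 ^ k), v k g j) = tac D.dl g Q - Q := by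
  obtain ⟨-, -, Q, R, h⟩ := hv k
  have h4 := (hI D H [] k List.Pairwise.nil).2.2.2.1 rfl
  refine ⟨∑ j, Q j, fun g hg => ⟨?_, ?_⟩⟩
  · rw [Finset.smul_sum, Finset.sum_congr rfl fun j _ => (h j).1,
      ← Equiv.sum_comp (Equiv.subRight (D.ak k g)), map_sum]
    rw [Equiv.sum_comp (Equiv.subRight (D.ak k g))]
    exact Finset.sum_congr rfl fun j _ => h4 g hg j
  · rw [sum_val, Finset.smul_sum, map_sum, Finset.sum_congr rfl fun j _ => ((h j).2 g hg).2.2,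
      Finset.sum_sub_distrib, Finset.sum_sub_distrib, ← map_sum,
      Finset.sum_eq_zero fun j _ => ((h j).2 g hg).2.1 (h4 g hg j), sub_zero]
    exact congrArg (fun P => tac D.dl g P - ∑ j, Q j)
      (Equiv.sum_comp (Equiv.subRight (D.ak k g)) Q)

theorem level2 (hA : CB) (hI : INVP) {D : Dat} {H : Heeg D.toPre D.a} {v : KA} (hv : D.KD H [] v)
    {n : ℕ} (hn : ∀ P ∈ RatP D.dl, n • P = 0) (k : ℕ) : ∃ u : V2, ‖u‖ ≤ 1 ∧ ∀ g ∈ D.GK,
      ‖(n : ℚ_[2]) • (∑ j ∈ Finset.range (2 ^ k), v k g j + D.r p1 tau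
        (∑ j ∈ Finset.range (2 ^ k), v k (tau * g * tau) j)) - (D.r p1 g u - u)‖ ≤ (2 ^ k)⁻¹ := by
  obtain ⟨Q, hQ⟩ := level hI hv k
  have m := tac_mul D.fix_dl
  have t2 : ∀ g, tau * (tau * g * tau) = g * tau := fun g => by
    rw [← mul_assoc, ← mul_assoc, hA.tau.2.1, one_mul]
  have h1 : ∀ g ∈ D.GK, tac D.dl g (2 ^ k • (Q + tac D.dl tau Q)) = 2 ^ k • (Q + tac D.dl tau Q) :=
    fun g hg => by
      rw [smul_add, ← map_nsmul, map_add, (hQ g hg).1, ← m, ← t2, m,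
        (hQ _ (conj hA D.on.1 hg)).1]
  have h2 : 2 ^ k • (Q + tac D.dl tau Q) ∈ RatP D.dl := fun g => by
    by_cases hg : g ∈ D.GK
    · exact h1 g hg
    · have : tac D.dl tau (Q + tac D.dl tau Q) = Q + tac D.dl tau Q := by
        rw [map_add, ← m, hA.tau.2.1, tac_one, add_comm]
      have a := h1 _ (D.mul_mem hg (hA.karith _).2.1)
      rwa [m, map_nsmul (tac D.dl tau), this] at a
  obtain ⟨u, hu⟩ := D.T.surj (n • (Q + tac D.dl tau Q)) k (by rw [smul_comm, hn _ h2])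
  have n2 : ‖(2 ^ k : ℚ_[2])‖ = (2 ^ k)⁻¹ := by
    rw [norm_pow, ← inv_pow]
    congr 1
    exact_mod_cast Padic.norm_p (p := 2)
  have hu1 : ‖u‖ ≤ 2 ^ k := D.T.pt_pow.1 (by rw [hu, smul_comm, hn _ h2])
  refine ⟨(2 ^ k : ℚ_[2]) • u, ?_, fun g hg => ?_⟩
  · rw [norm_smul, n2, inv_mul_le_iff₀ (by positivity), mul_one]
    exact hu1
  · have h3 : D.T.pt ((2 ^ k : ℚ_[2])⁻¹ • (n : ℚ_[2]) • (∑ j ∈ Finset.range (2 ^ k), v k g j +
        D.r p1 tau (∑ j ∈ Finset.range (2 ^ k), v k (tau * g * tau) j))) =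
        D.T.pt (D.r p1 g u - u) := by
      rw [smul_comm, Nat.cast_smul_eq_nsmul, map_nsmul, smul_add, ← map_smul (D.r p1 tau),
        map_add, map_sub,
        D.r_one, Tate.rq_apply, Tate.rq_apply, ← Tate.tgal, ← Tate.tgal, hu, (hQ g hg).2,
        (hQ _ (conj hA D.on.1 hg)).2, map_sub, ← m, t2, m, map_nsmul, ← smul_sub, map_add]
      congr 1
      abel
    have h4 := D.T.pt_eq.1 h3
    have h0 : (2 ^ k : ℚ_[2]) ≠ 0 := pow_ne_zero _ two_ne_zero
    rw [map_smul, ← smul_sub, ← smul_inv_smul₀ h0 ((n : ℚ_[2]) • _), ← smul_sub, norm_smul, n2]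
    exact mul_le_of_le_one_right (by positivity) h4

theorem cob_raw (hA : CB) (hI : INVP) {D : Dat} {H : Heeg D.toPre D.a} {v : KA}
    (hv : D.KD H [] v) (hf : (RatP D.dl).Finite) :
    Cob (S1 D.GK) (D.r p1) (raw p1 v + (sd D.dl tau : ℚ_[2]) • D.xt (raw p1 v)) := by
  have hR := rep D
  obtain ⟨n, n0, hn⟩ := ratp hf
  choose u hu h using level2 hA hI hv hn
  have l1 : ∀ g : GS, Tendsto (fun k => ∑ j ∈ Finset.range (2 ^ k), v k (g k) j) UF
      (𝓝 (raw p1 v g)) := fun g =>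
    (tendsto_raw isPsi_one (fun k => (hv k).2.1) g).congr fun k => by
      ext i
      simp
  have l2 := tendsto_ul (Eventually.of_forall hu)
  have h1 : Cob (S1 D.GK) (D.r p1)
      ((n : ℚ_[2]) • (raw p1 v + (sd D.dl tau : ℚ_[2]) • D.xt (raw p1 v))) := by
    refine ⟨ul u, fun g hg => ?_⟩
    have a1 := ((((l1 g).add (hR.tendsto (cs tau) (l1 (cs tau * g * cs tau)))).const_smul
      (n : ℚ_[2])).sub ((hR.tendsto g l2).sub l2)).norm
    have a2 : Tendsto (fun k : ℕ => ((2 : ℝ) ^ k)⁻¹) UF (𝓝 0) :=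
      (tendsto_inv_atTop_zero.comp (tendsto_pow_atTop_atTop_of_one_lt one_lt_two)).mono_left UF_le
    have a3 := le_of_tendsto_of_tendsto a1 a2 (Eventually.mono hg fun k hk => h k _ hk)
    rw [Pi.smul_apply, Pi.add_apply, xt_eq]
    exact sub_eq_zero.1 (norm_le_zero_iff.1 a3)
  have := h1.smul hR (n : ℚ_[2])⁻¹
  rwa [inv_smul_smul₀ (Nat.cast_ne_zero.2 n0)] at this

end TSPLIT

open TSPLIT

theorem t_SPLIT (hP : CP) : SPLIT := by
  intro D x hx
  have d2 : ¬ 2 ∣ D.d := by have := D.d8; omega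
  have hl : Prime (D.l : ℤ) := Nat.prime_iff_prime_int.1 D.lp
  obtain ⟨xp, h1, e1⟩ := half hP hx D.hdl D.sq d2 dvd_rfl (fun g _ => by rw [D.r_one])
    (one_mul 1) fun v => by rw [D.r_one, one_smul]
  obtain ⟨xm, h2, e2⟩ := half hP hx (δ := D.dl * D.sk) (m := -D.l * D.d)
    (by rw [mul_pow, D.hdl, D.hsk]; push_cast; ring)
    (squarefree_mul_iff.2 ⟨(D.cop.of_mul_right_right.symm.neg_left).isRelPrime,
      hl.neg.squarefree, D.sq⟩)
    (fun a => by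
      have := D.l16
      rcases Int.prime_two.dvd_or_dvd a with a | a
      · omega
      · exact d2 a)
    (dvd_mul_left _ _) (fun g => rq_sk D) (ε := -1) (by simp) fun v => by
      rw [D.r_one, Tate.rq_apply, Tate.rq_apply, Tate.rd, Tate.rd, sd_sk,
        sd_eq_neg.2 (show tau D.sk ≠ D.sk from (hP.karith _).2.1)]
      simp [Matrix.neg_mulVec]
  exact ⟨xp, xm, h1, h2, fun g hg => ⟨by rw [e1 g hg, one_smul],
    by rw [e2 g hg, neg_one_smul, sub_eq_add_neg]⟩⟩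

theorem t_RKT (hP : CP) (hINVP : INVP) (hSPLIT : SPLIT) : RKT := by
  intro D h0
  have zK : cs D.z ∈ S1 D.GK := cs_mem.2 D.zK
  have key : ∀ x, D.Sel p1 [] x → ∃ xp, SelQ D.T D.dl D.d xp ∧ ∀ g ∈ S1 D.GK,
      xp g = x g + x g ∧ x g = D.nz p1 ((sd D.dl tau : ℚ_[2]) • D.xt x) g := fun x hx => by
    obtain ⟨xp, xm, h1, h2, e⟩ := hSPLIT D x hx
    have := cob_zero (rq_sk D D.zK) (h0 xm h2)
      (by rw [(e _ zK).2, hx.1.nz, Dat.nz_z isPsi_one, sub_zero])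
    refine ⟨xp, h1, fun g hg => ?_⟩
    have a := sub_eq_zero.1 ((e g hg).2.symm.trans (this g))
    exact ⟨by rw [(e g hg).1, ← a], a⟩
  have two : ∀ x : GS → V2, (∀ g ∈ S1 D.GK, x g + x g = 0) → (∀ g, g ∉ S1 D.GK → x g = 0) →
      x = 0 := fun x h h' => funext fun g => by
    by_cases hg : g ∈ S1 D.GK
    · exact (smul_eq_zero.1 ((two_smul ℚ_[2] _).trans (h g hg))).resolve_left two_ne_zero
    · exact h' g hg
  refine ⟨fun h1 x y hx hy => ?_, fun H v hf hv hs => ?_⟩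
  · obtain ⟨xp, a1, e1⟩ := key x hx
    obtain ⟨yp, a2, e2⟩ := key y hy
    obtain ⟨a, b, hab, hc⟩ := h1 xp yp a1 a2
    have := cob_zero (by rw [D.r_one]) hc
      (by simp [(e1 _ zK).1, (e2 _ zK).1, hx.1.nz, hy.1.nz])
    refine ⟨a, b, hab, two _ (fun g hg => ?_) fun g hg => by simp [hx.1.off g hg, hy.1.off g hg]⟩
    have a3 := this g
    simp only [Pi.add_apply (f := a • xp), Pi.add_apply (f := a • x), Pi.smul_apply (a := a),
      Pi.smul_apply (a := b), (e1 g hg).1, (e2 g hg).1, smul_add] at a3 ⊢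
    rw [← a3]
    abel
  · obtain ⟨xp, -, e⟩ := key _ hs
    have hR := rep D
    have c1 : Cob (S1 D.GK) (D.r p1) (D.kap p1 v - raw p1 v) := by
      obtain ⟨u, hu⟩ := Dat.nz_eq (D := D) (raw p1 v) isPsi_one
      exact ⟨u, fun g hg => by rw [Pi.sub_apply, Dat.kap, hu g hg, add_sub_cancel_left]⟩
    have c2 := (c1.xt hP.toCB isPsi_one le_rfl fun g => conjS hP.toCB).smul hR
      (sd D.dl tau : ℚ_[2])
    have c3 : D.nz p1 ((sd D.dl tau : ℚ_[2]) • D.xt (D.kap p1 v)) =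
        D.nz p1 ((sd D.dl tau : ℚ_[2]) • D.xt (raw p1 v)) := by
      refine Dat.nz_congr isPsi_one ?_
      rw [← smul_sub, sub_eq_add_neg, ← neg_one_smul ℚ_[2], ← Dat.xt_smul, ← Dat.xt_add,
        neg_one_smul, ← sub_eq_add_neg]
      exact c2
    have c4 : D.nz p1 (raw p1 v + (sd D.dl tau : ℚ_[2]) • D.xt (raw p1 v)) = D.nz p1 0 :=
      Dat.nz_congr isPsi_one (by rw [sub_zero]; exact cob_raw hP.toCB hINVP hv hf)
    rw [Dat.nz_add isPsi_one, ← c3, Dat.nz_self (x := 0) rfl fun _ _ => rfl] at c4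
    refine two _ (fun g hg => ?_) hs.1.off
    have a := congrFun c4 g
    rwa [Pi.add_apply, ← (e g hg).2] at a

end Pool.Agent.P.MP_8b7eba_nt.R2
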