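import Pool.Agent.P.MP_8b7eba_nt.R2.LC

/-! Proof of AUX2. -/

namespace Pool.Agent.P.MP_8b7eba_nt.R2

open scoped NNReal Matrix

namespace TAUXL

theorem pr_self (hA : CA) (S : LS) (c : GQ → V2) (y : X2) : S.pr c (fun _ => c) y = 1 := by
  refine Finset.prod_eq_one fun w _ => ?_
  have e : (fun g h => ec (dt (c g - c g) (fun i => ((y h i).val : ℚ_[2])) / 4)) =
      (1 : GQ → GQ → Om) := by
    funext g h
    refine (hA.ec.1.eq_one _).2 ?_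
    simp [dt]
  rw [e]
  exact (hA.inv w w.D w.loc_D).triv 1 Triv.one.co2 Triv.one

theorem sign_add (a b : ZMod 2) (h : (1 : Om) = (-1) ^ a.val * (-1) ^ b.val) : a + b = 0 := by
  have h2 : (1 : Om) ≠ -1 := by norm_num
  have v1 : (1 : ZMod 2).val = 1 := rfl
  have k : ∀ a : ZMod 2, a = 0 ∨ a = 1 := by decide
  rcases k a with rfl | rfl <;> rcases k b with rfl | rfl
  · rfl
  · exact absurd (by simpa [v1] using h) h2
  · exact absurd (by simpa [v1] using h) h2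
  · rfl

theorem finite_GX (S : LS) (A B : Submodule (ZMod 2) (GQ → ZMod 2)) (hA : ∀ α, α ∈ A ↔ S.GA α)
    (hB : ∀ β, β ∈ B ↔ S.GB β) [Finite A] [Finite B] : Finite {x : X2 // S.GX x} := by
  refine Finite.of_injective (β := A × B)
    (fun x => (⟨fun g => x.1 g 0, (hA _).2 x.2.1⟩, ⟨fun g => x.1 g 1, (hB _).2 x.2.2⟩)) ?_
  intro x y h
  have h0 := congrArg (fun p : A × B => (p.1 : GQ → ZMod 2)) h
  have h1 := congrArg (fun p : A × B => (p.2 : GQ → ZMod 2)) h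
  refine Subtype.ext (funext fun g => funext fun i => ?_)
  fin_cases i
  · exact congrFun h0 g
  · exact congrFun h1 g

end TAUXL

open TAUXL in
theorem t_AUX2 (hCF : CF) (hNEC : NEC) (hRED : RED) (hRED2 : RED2) (hCTP : CTP) (hVAR : VAR)
    (hCNT : CNT) (hLIN2 : LIN2) (hCHL : CHL) (hGLIFT : GLIFT) (hTHX : THX) : AUX2 := by
  intro d w T Bd h1 h2 h3 h4 h6
  have hA : CA := hCF.toCB.toCA
  obtain ⟨S, rfl, rfl, hT⟩ := exists_LS hA.pl d w T h1 h2 h3 h4 h6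
  obtain rfl := eq_of_heq hT
  obtain ⟨⟨l0, hl0⟩, hch⟩ := hCHL S
  obtain ⟨w0, hw0⟩ := hA.pl.1 l0 hl0.lp
  obtain ⟨φ0, hφ0⟩ := w0.exists_frob hA.frob
  obtain ⟨C0, hC0⟩ := hCTP S l0 _ hl0
  obtain ⟨A, B, hAA, hBB, fA, fB, hcard, c1, c2⟩ := hCNT S
  have hadd : ∀ y y', S.GX y → S.GX y' → S.GX (y + y') := fun y y' hy hy' =>
    ⟨(hAA _).1 (A.add_mem ((hAA _).2 hy.1) ((hAA _).2 hy'.1)),
      (hBB _).1 (B.add_mem ((hBB _).2 hy.2) ((hBB _).2 hy'.2))⟩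
  obtain ⟨s, hs, hnd⟩ := hLIN2 GQ (fun g => cyc g = 1) A B C0 S.GX
    (fun g h hg hh => by simp only [hA.ec.2.1, hg, hh, mul_one]) fA fB c1 c2
    (fun α hα => by
      have := LS.sep_ch hA (hα.imp (hAA α).1 (hBB α).1)
      exact ⟨fun g h => this.1.2 g trivial h trivial, this.2⟩)
    (fun x => by rw [hAA, hBB]; rfl)
    (fun x y hx hy => ⟨(hC0 x y hx hy).1, fun y' hy' =>
      (hC0 x y hx hy).2.1 y' hy' (hadd y y' hy hy')⟩)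
  have := finite_GX S A B hAA hBB
  choose θ hθ hθu using fun p : {x : X2 // S.GX x} × {x : X2 // S.GX x} =>
    hTHX S l0 _ hl0 p.1.1 p.2.1 p.1.2 p.2.2
  obtain ⟨l, w', φ, hl, hne, hB, hw', hφ, hθφ⟩ := hch ({x : X2 // S.GX x} × {x : X2 // S.GX x})
    (fun p => p.1.1) (fun p => p.2.1) θ l0 _ w0 φ0 s hl0 (fun p => ⟨p.1.2, p.2.2, hθ p⟩) hw0 hφ0 hs
    Bd
  refine ⟨l, hl.lp, hB, hl.l16, hl.cop, hl.spl, fun δ hδ => ?_⟩
  have hG : S.Gl l δ := ⟨hl.lp, hl.l16, hl.cop, hl.spl, hδ⟩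
  have key : ∀ c, S.T.Zc δ ⊤ 3 c ∧ (∃ g, ‖c g‖ = 1) ∧
      (∀ w : Pl, ¬ (w.p : ℤ) ∣ 30 * S.d * l → ∀ g ∈ w.I, ‖c g‖ ≤ 4⁻¹) ∧
      (∀ w : Pl, w.p = l → ∀ g ∈ w.D, ‖c g‖ ≤ 2⁻¹) ∧ (∀ w ∈ S.R, S.T.Adm δ w c) →
      ∃ x, S.GX x ∧ Lf ⊤ x c ∧ x ≠ 0 ∧ ∀ y, S.GX y →
        C0 x y + (s.map fun g => x g 0 * y g 1 + x g 1 * y g 0).sum = 0 := by
    rintro c ⟨hz, ⟨g, hg⟩, hu, hat, hadm⟩
    have hz2 : S.T.Zc δ ⊤ 2 c := hz.mono le_rfl (by norm_num)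
    obtain ⟨x, hx, hlf⟩ := hNEC S l δ hG c hz2
      (fun v hv i hi => (hu v hv i hi).trans (by norm_num)) hat hadm
    have hld : S.Ld l δ x c fun _ => c :=
      ⟨hz2, hlf, hu, fun v hv => ⟨hadm v hv, fun k _ => hlf k trivial⟩⟩
    obtain ⟨hv1, hv2⟩ := hVAR S l l0 δ _ hG hl0 hne
    obtain ⟨c0, hc0⟩ := hGLIFT S l0 _ hl0 x (fun _ => c) hx
      fun v hv => ⟨hv1 v hv c (hadm v hv), fun k _ => hlf k trivial⟩
    refine ⟨x, hx, hlf, fun hx0 => ?_, fun y hy => ?_⟩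
    · have : ‖c g‖ ≤ 2⁻¹ := (pi_norm_le_iff_of_nonneg (by norm_num)).2 fun j =>
        (hlf.zero_iff (Subgroup.mem_top g) j).1 (by rw [hx0]; rfl)
      rw [hg] at this
      norm_num at this
    have e := hv2 x y c c0 (fun _ => c) (θ (⟨x, hx⟩, ⟨y, hy⟩)) hx hy hld hc0 (hθ (⟨x, hx⟩, ⟨y, hy⟩))
      (hθu (⟨x, hx⟩, ⟨y, hy⟩)) w' w0 φ φ0 hw' hw0 hφ hφ0
    rw [pr_self hA, (hC0 x y hx hy).2.2 c0 _ hc0, hθφ] at e
    have e2 := sign_add _ _ e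
    have k : ∀ a b t : ZMod 2, a + (t + b + t) = 0 → a + b = 0 := by decide
    exact k _ _ _ e2
  refine ⟨by_contra fun hR => ?_, fun hj => by_contra fun hR => ?_⟩
  · obtain ⟨c, ⟨g, hg⟩, hc⟩ := hRED2 S l δ hG hR
    obtain ⟨x, hx, a1, a2, a3⟩ := key _ (hc true)
    obtain ⟨x', hx', b1, b2, b3⟩ := key _ (hc false)
    obtain rfl := ((hnd x x' hx hx' a3 b3).2.resolve_left a2).resolve_left b2
    have : ‖c true g - c false g‖ ≤ 2⁻¹ := (pi_norm_le_iff_of_nonneg (by norm_num)).2 fun j => by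
      simpa using LC.sub (a1 g trivial j) (b1 g trivial j)
    rw [hg] at this
    norm_num at this
  · obtain ⟨c, hc⟩ := hRED S l δ hG hR
    obtain ⟨x, hx, -, a2, a3⟩ := key _ hc
    exact a2 ((hnd x x hx hx a3 a3).1 (hcard hj))

end Pool.Agent.P.MP_8b7eba_nt.R2
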