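import Pool.Agent.P.MP_8b7eba_nt.R2.LC

/-! Proof of CHL. -/

namespace Pool.Agent.P.MP_8b7eba_nt.R2

open scoped NNReal Matrix

namespace TCHL

/-- the elements fixing the square roots of the primes of `15 d` -/
def G1 (d : ℤ) : Subgroup GQ where
  carrier := {g | ∀ p : ℕ, p.Prime → (p : ℤ) ∣ 15 * d → qz p g = 0}
  one_mem' := fun p _ _ => (isCh_qz (H := ⊤) p).one
  mul_mem' := fun {g h} hg hh p hp e => by
    rw [(isCh_qz (H := ⊤) p).2 g trivial h trivial, hg p hp e, hh p hp e, add_zero]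
  inv_mem' := fun {g} hg p hp e => by
    rw [(isCh_qz (H := ⊤) p).inv (Subgroup.mem_top g), hg p hp e, neg_zero]

theorem G1_conj {d : ℤ} {g : GQ} (hg : g ∈ G1 d) (u : GQ) : u * g * u⁻¹ ∈ G1 d :=
  fun p hp e => (qz_conj p u g).trans (hg p hp e)

theorem G1_sq (d : ℤ) (g : GQ) : g * g ∈ G1 d := fun p _ _ => by
  rw [(isCh_qz (H := ⊤) p).2 g trivial g trivial]
  exact CharTwo.add_self_eq_zero _

theorem G1_nat {d : ℤ} {g : GQ} (hg : g ∈ G1 d) (a : ℕ) :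
    a ≠ 0 → (a : ℤ) ∣ 15 * d → qz a g = 0 := by
  induction a using induction_on_primes with
  | zero => exact fun h => absurd rfl h
  | one => intro _ _; rw [Nat.cast_one, qz_one]; rfl
  | prime_mul p a hp ih =>
    intro h0 h
    have ha : a ≠ 0 := fun e => h0 (by rw [e, mul_zero])
    rw [Nat.cast_mul] at h ⊢
    rw [qz_mul (Nat.cast_ne_zero.2 hp.ne_zero) (Nat.cast_ne_zero.2 ha), Pi.add_apply,
      hg p hp (dvd_of_mul_right_dvd h), ih ha (dvd_of_mul_left_dvd h), add_zero]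

theorem G1_x {S : LS} {x : X2} (h : S.GX x) {g : GQ} (hg : g ∈ G1 S.d) (i : Fin 2) :
    x g i = 0 := by
  obtain ⟨a, h1, h2, -, h3⟩ := h.ex i
  rw [h3]
  exact G1_nat hg a h2.ne_zero (h1.trans ⟨5, by ring⟩)

theorem G1_open {d : ℤ} (hd : d ≠ 0) : ∃ N, ON N ∧ N ≤ G1 d := by
  have h : ∀ p : (15 * d).natAbs.primeFactors, ∃ N, ON N ∧ ∀ n ∈ N, qz (p : ℕ) n = 0 := fun p => by
    obtain ⟨N, a, b⟩ := (isCh_qz (H := ⊤) (p : ℕ)).1
    exact ⟨N, a, fun n hn => by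
      rw [← one_mul n, b 1 trivial n trivial hn, (isCh_qz (H := ⊤) _).one]⟩
  choose M a b using h
  obtain ⟨N, hN, e⟩ := exists_ON_forall a
  refine ⟨N, hN, fun g hg p hp h => b ⟨p, Nat.mem_primeFactors.2 ⟨hp, Int.natCast_dvd.1 h, ?_⟩⟩ g
    (e _ hg)⟩
  exact Int.natAbs_ne_zero.2 (mul_ne_zero (by norm_num) hd)

/-- the cyclotomic character modulo sixteen -/
noncomputable def c16 (g : GQ) : ZMod (2 ^ 4) := PadicInt.toZModPow 4 (cyc g : ℤ_[2])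

theorem c16_mul (hE : EC) (g h : GQ) : c16 (g * h) = c16 g * c16 h := by
  rw [c16, hE.2.1, Units.val_mul, map_mul, c16, c16]

theorem c16_one_iff (g : GQ) : 2 ^ 4 ∣ (cyc g : ℤ_[2]) - 1 ↔ c16 g = 1 := by
  rw [← Ideal.mem_span_singleton, show (2 : ℤ_[2]) = ((2 : ℕ) : ℤ_[2]) from rfl,
    ← PadicInt.ker_toZModPow, RingHom.mem_ker, map_sub, map_one, sub_eq_zero, c16]

theorem c16_frob (hE : EC) {w : Pl} {φ : GQ} (h2 : w.p ≠ 2) (hφ : w.IsFrob 1 φ) :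
    c16 φ = 7 ↔ w.p % 16 = 7 := by
  rw [c16, hE.2.2.2.2.2.1 w 1 φ h2 hφ, pow_one, map_natCast,
    show (7 : ZMod (2 ^ 4)) = ((7 : ℕ) : ZMod (2 ^ 4)) from rfl, ZMod.natCast_eq_natCast_iff']
  norm_num

/-- Chebotarev with prescribed values -/
theorem cheb (hA : CA) {d : ℤ} (hd : d ≠ 0) {ι : Type} [Finite ι] (θ : ι → GQ → ZMod 2)
    (hs : ∀ i, Sm ⊤ (θ i))
    (ha : ∀ i, ∀ g ∈ G1 d, ∀ h, θ i (g * h) = θ i g + θ i h ∧ θ i (h * g) = θ i h + θ i g)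
    {g' : GQ} (hg : g' ∈ G1 d) (h7 : c16 g' = 7) (B : ℕ) :
    ∃ (w : Pl) (φ : GQ), B < w.p ∧ w.IsFrob 1 φ ∧ φ ∈ G1 d ∧ c16 φ = 7 ∧ ∀ i, θ i φ = θ i g' := by
  have hE := hA.ec
  obtain ⟨N0, hN0, e0⟩ := hE.2.2.2.2.1 4
  have h1 : ∀ i, θ i 1 = 0 := fun i => by
    simpa using (ha i 1 (G1 d).one_mem 1).1
  let N : Subgroup GQ :=
    { carrier := {g | g ∈ G1 d ∧ g ∈ N0 ∧ ∀ i, θ i g = 0}
      one_mem' := ⟨(G1 d).one_mem, N0.one_mem, h1⟩
      mul_mem' := fun {g h} hg hh => ⟨mul_mem hg.1 hh.1, mul_mem hg.2.1 hh.2.1, fun i => by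
        rw [(ha i g hg.1 h).1, hg.2.2 i, hh.2.2 i, add_zero]⟩
      inv_mem' := fun {g} hg => ⟨inv_mem hg.1, inv_mem hg.2.1, fun i => by
        have := (ha i g hg.1 g⁻¹).1
        rwa [mul_inv_cancel, h1, hg.2.2 i, zero_add, eq_comm] at this⟩ }
  have hN : ON N := by
    refine ⟨⟨fun g hg u => ⟨G1_conj hg.1 u, hN0.1.conj_mem g hg.2.1 u, fun i => ?_⟩⟩, ?_⟩
    · have h2 := (ha i _ (G1_conj hg.1 u) u).1
      rw [inv_mul_cancel_right, (ha i g hg.1 u).2, hg.2.2 i, add_zero] at h2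
      simpa using h2
    · obtain ⟨M1, a1, b1⟩ := G1_open hd
      choose M a b using hs
      obtain ⟨M2, a2, b2⟩ := exists_ON_forall a
      refine open_of_le ((a1.inf hN0).inf a2).2 fun g hg => ⟨b1 hg.1.1, hg.1.2, fun i => ?_⟩
      rw [← one_mul g, b i 1 trivial g trivial (b2 i hg.2), h1]
  have hsq : g' * g' ∈ N := ⟨G1_sq d g', (e0 _).2 ((c16_one_iff _).2 (by
    rw [c16_mul hE, h7]; decide)), fun i => by
      rw [(ha i g' hg g').1]; exact CharTwo.add_self_eq_zero _⟩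
  have hn : g' ∉ N := fun h => by
    have := (c16_one_iff _).1 ((e0 _).1 h.2.1)
    rw [h7] at this
    exact absurd this (by decide)
  obtain ⟨w, φ, r, hB, hφ, ⟨k, rfl⟩, h⟩ := hA.genp.2.2 N g' 1 B hN hn (by rwa [pow_one, pow_two])
  have h2 : g'⁻¹ * φ ∈ N := by
    have := mul_mem (pow_mem hsq k) h
    rwa [← pow_two, ← pow_mul, pow_succ', mul_inv_rev, ← mul_assoc, ← mul_assoc, mul_inv_cancel,
      one_mul] at this
  have h3 : φ = g' * (g'⁻¹ * φ) := by group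
  refine ⟨w, φ, hB, hφ, h3 ▸ mul_mem hg h2.1, ?_, fun i => ?_⟩
  · rw [h3, c16_mul hE, h7, (c16_one_iff _).1 ((e0 _).1 h2.2.1), mul_one]
  · rw [h3, (ha i g' hg _).1, h2.2.2 i, add_zero]

theorem gl_of (hA : CA) (S : LS) {w : Pl} {φ : GQ} (hB : (30 * S.d).natAbs + 2 < w.p)
    (hφ : w.IsFrob 1 φ) (h1 : φ ∈ G1 S.d) (h7 : c16 φ = 7) : S.Gl w.p (rt (-w.p * S.d)) := by
  obtain ⟨hd, ho, -⟩ := S.d_ne
  have h16 := (c16_frob hA.ec (by omega) hφ).1 h7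
  have hn : ¬ (w.p : ℤ) ∣ 30 * S.d := fun h => by
    have := Nat.le_of_dvd (Int.natAbs_pos.2 (mul_ne_zero (by norm_num) hd)) (Int.natCast_dvd.1 h)
    omega
  refine ⟨w.prime, h16, S.cop.mul_right ?_, fun p hp h => ?_, rt_sq _⟩
  · exact ((Nat.prime_iff_prime_int.1 w.prime).irreducible.coprime_iff_not_dvd.2
      fun h => hn (h.mul_left 30)).symm
  · have h2 : p ≠ 2 := by
      rintro rfl
      obtain ⟨k, hk⟩ := ho
      obtain ⟨j, hj⟩ := h
      omega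
    rw [← jac_swap w.prime (by omega) hp h2]
    refine (qz_frob hA (fun e => hn (e.trans ?_)) hφ).1.1 (h1 p hp h)
    obtain ⟨j, hj⟩ := h
    exact ⟨j, by linear_combination 2 * hj⟩

theorem base (hA : CA) (S : LS) : ∃ g ∈ G1 S.d, c16 g = 7 := by
  have hE := hA.ec
  have hu : IsUnit ((-7 : ℤ) : ℤ_[2]) :=
    PadicInt.isUnit_iff.2 (PadicInt.norm_intCast_eq_one_iff.2 (by norm_num [Int.isCoprime_iff_gcd_eq_one]))
  obtain ⟨u, hu⟩ := hu
  obtain ⟨i, hi, e⟩ := hA.ec2 S.w S.w2 u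
  refine ⟨tau * i, mul_mem (fun p hp _ => ?_) fun p hp h => ?_, ?_⟩
  · exact (qz_tau hA.tau (Nat.cast_ne_zero.2 hp.ne_zero)).2 (Nat.cast_pos.2 hp.pos)
  · have h2 : (p : ℤ) % 2 = 1 := by
      obtain ⟨k, hk⟩ := S.d_ne.2.1
      rcases hp.eq_two_or_odd with rfl | h2
      · obtain ⟨j, hj⟩ := h
        omega
      · omega
    by_cases h4 : (p : ℤ) % 4 = 1
    · exact qz_I_two S.w2 h4 hi
    · have h3 := qz_I_two (m := -1 * p) S.w2 (by omega) hi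
      have h5 : qz (-1) i = 0 := (qz_neg_one hE).2 ⟨-2, by rw [e, hu]; norm_num⟩
      rwa [qz_mul (by norm_num) (Nat.cast_ne_zero.2 hp.ne_zero), Pi.add_apply, h5, zero_add] at h3
  · rw [c16_mul hE, c16, c16, hE.2.2.2.2.2.2.2, e, hu, map_intCast]
    simp

end TCHL

open TCHL in
theorem t_CHL (hCA : CA) : CHL := by
  intro S
  have hE := hCA.ec
  have hd := S.d_ne.1
  refine ⟨?_, fun ι _ x y θ l δ w φ s hl hθ hw hφ hs B => ?_⟩
  · obtain ⟨g, hg, h7⟩ := base hCA S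
    obtain ⟨w, φ, hB, hφ, h1, h2, -⟩ := cheb hCA hd (ι := Empty) (fun _ _ => 0)
      (fun i => i.elim) (fun i => i.elim) hg h7 ((30 * S.d).natAbs + 2)
    exact ⟨w.p, gl_of hCA S hB hφ h1 h2⟩
  · have ha : ∀ i, ∀ g ∈ G1 S.d, ∀ h, θ i (g * h) = θ i g + θ i h ∧
        θ i (h * g) = θ i h + θ i g := fun i g hg h => by
      obtain ⟨h1, h2, -, h3⟩ := hθ i
      rw [h3 g trivial h trivial, h3 h trivial g trivial]
      simp [d2, G1_x h1 hg, G1_x h2 hg]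
    have hp : ∀ s : List GQ, (∀ g ∈ s, cyc g = 1) → ∃ n ∈ G1 S.d, c16 n = 1 ∧
        ∀ i, θ i n = (s.map fun g => d2 (x i) (y i) g g).sum := by
      intro s
      induction s with
      | nil =>
        refine fun _ => ⟨1, one_mem _, (c16_one_iff _).1 ?_, fun i => ?_⟩
        · have := hE.2.1 1 1
          rw [one_mul, left_eq_mul] at this
          simp [this]
        · simpa using (ha i 1 (one_mem _) 1).1
      | cons g s ih =>
        intro h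
        obtain ⟨n, h1, h2, h3⟩ := ih fun a ha => h a (List.mem_cons_of_mem _ ha)
        refine ⟨g * g * n, mul_mem (G1_sq _ g) h1, ?_, fun i => ?_⟩
        · rw [c16_mul hE, c16_mul hE, h2, c16, h g List.mem_cons_self]
          simp
        · rw [(ha i n h1 _).2, h3, (hθ i).2.2.2 g trivial g trivial, CharTwo.add_self_eq_zero,
            zero_add, List.map_cons, List.sum_cons]
    obtain ⟨n, h1, h2, h3⟩ := hp s hs
    have h16 := hl.l16
    have hφ1 : φ ∈ G1 S.d := fun p _ h => hl.at hCA hw (h.trans ⟨2, by ring⟩) hφ.1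
    have hφ7 : c16 φ = 7 := (c16_frob hE (by omega) hφ).2 (by omega)
    obtain ⟨w', φ', hB, hφ', h4, h5, h6⟩ := cheb hCA hd θ (fun i => (hθ i).2.2.1) ha
      (mul_mem hφ1 h1) (by rw [c16_mul hE, hφ7, h2, mul_one]) ((30 * S.d).natAbs + 2 + l + B)
    refine ⟨w'.p, w', φ', gl_of hCA S (by omega) hφ' h4 h5, by omega, by omega, rfl, hφ', fun i => ?_⟩
    rw [h6, (ha i φ hφ1 n).1, h3]

end Pool.Agent.P.MP_8b7eba_nt.R2
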