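import Pool.Agent.P.MP_8b7eba_nt.R2.LC

/-! Proof of CNT. -/

namespace Pool.Agent.P.MP_8b7eba_nt.R2

open scoped NNReal Matrix

namespace TCNT

theorem z2 : ∀ s : ZMod 2, s = 0 ∨ s = 1 := by decide

theorem v1 : (1 : ZMod 2).val = 1 := rfl

/-- the additive Jacobi symbol -/
def L (m : ℤ) (p : ℕ) : ZMod 2 := if jacobiSym m p = 1 then 0 else 1

variable {m n : ℤ} {p q : ℕ}

theorem L_eq_zero : L m p = 0 ↔ jacobiSym m p = 1 := by
  unfold L; split_ifs with h <;> simp [h]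

theorem jac_cases (hp : p.Prime) (h : ¬ (p : ℤ) ∣ m) :
    jacobiSym m p = 1 ∨ jacobiSym m p = -1 := by
  refine jacobiSym.eq_one_or_neg_one ?_
  rw [Int.gcd_comm, ← Int.isCoprime_iff_gcd_eq_one]
  exact (Nat.prime_iff_prime_int.1 hp).irreducible.coprime_iff_not_dvd.2 h

theorem L_mul (hp : p.Prime) (hm : ¬ (p : ℤ) ∣ m) (hn : ¬ (p : ℤ) ∣ n) :
    L (m * n) p = L m p + L n p := by
  unfold L
  rw [jacobiSym.mul_left]
  rcases jac_cases hp hm with h | h <;> rcases jac_cases hp hn with h' | h' <;>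
    simp only [h, h'] <;> decide

theorem L_one : L 1 p = 0 := L_eq_zero.2 (jacobiSym.one_left p)

theorem L_pow (s : ZMod 2) : L (m ^ s.val) p = s * L m p := by
  rcases z2 s with rfl | rfl
  · simp [L_one]
  · simp [v1]

theorem L_prod {ι : Type} (hp : p.Prime) (s : Finset ι) (f : ι → ℤ)
    (h : ∀ i ∈ s, ¬ (p : ℤ) ∣ f i) :
    ¬ (p : ℤ) ∣ ∏ i ∈ s, f i ∧ L (∏ i ∈ s, f i) p = ∑ i ∈ s, L (f i) p := by
  classical
  induction s using Finset.induction_on with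
  | empty => exact ⟨by simpa using (Nat.prime_iff_prime_int.1 hp).not_dvd_one, by simp [L_one]⟩
  | insert a s ha ih =>
    have h1 := h a (Finset.mem_insert_self _ _)
    obtain ⟨h2, h3⟩ := ih fun i hi => h i (Finset.mem_insert_of_mem hi)
    rw [Finset.prod_insert ha, Finset.sum_insert ha, L_mul hp h1 h2, h3]
    exact ⟨fun h' => ((Nat.prime_iff_prime_int.1 hp).dvd_or_dvd h').elim h1 h2, rfl⟩

theorem e_eq (h : Odd p) : L (-1) p = if p % 4 = 1 then 0 else 1 := by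
  unfold L
  rw [jacobiSym.at_neg_one h, ZMod.χ₄_nat_eq_if_mod_four]
  have := Nat.odd_iff.1 h
  split_ifs <;> first | rfl | omega | contradiction

theorem e_mul (h : Odd p) (h' : Odd q) : L (-1) (p * q) = L (-1) p + L (-1) q := by
  rw [e_eq h, e_eq h', e_eq (h.mul h'), Nat.mul_mod]
  have h1 : p % 4 = 1 ∨ p % 4 = 3 := by have := Nat.odd_iff.1 h; omega
  have h2 : q % 4 = 1 ∨ q % 4 = 3 := by have := Nat.odd_iff.1 h'; omega
  rcases h1 with h1 | h1 <;> rcases h2 with h2 | h2 <;> simp only [h1, h2] <;> decide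

theorem e_pow (s : ZMod 2) : L (-1) (p ^ s.val) = s * L (-1) p := by
  rcases z2 s with rfl | rfl
  · simp [e_eq]
  · simp [v1]

theorem e_prod {ι : Type} (s : Finset ι) (f : ι → ℕ) (h : ∀ i ∈ s, Odd (f i)) :
    Odd (∏ i ∈ s, f i) ∧ L (-1) (∏ i ∈ s, f i) = ∑ i ∈ s, L (-1) (f i) := by
  classical
  induction s using Finset.induction_on with
  | empty => simp [e_eq]
  | insert a s ha ih =>
    have h1 := h a (Finset.mem_insert_self _ _)
    obtain ⟨h2, h3⟩ := ih fun i hi => h i (Finset.mem_insert_of_mem hi)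
    rw [Finset.prod_insert ha, Finset.sum_insert ha, e_mul h1 h2, h3]
    exact ⟨h1.mul h2, rfl⟩

theorem nd (hp : p.Prime) (hq : q.Prime) (h : p ≠ q) : ¬ (p : ℤ) ∣ q := fun h' =>
  h ((Nat.prime_dvd_prime_iff_eq hp hq).1 (Int.natCast_dvd_natCast.1 h'))

theorem qr (hp : p.Prime) (hq : q.Prime) (h : Odd p) (h' : Odd q) (e : p ≠ q) :
    L p q + L q p = L (-1) p * L (-1) q := by
  rw [e_eq h, e_eq h']
  unfold L
  have h1 : p % 4 = 1 ∨ p % 4 = 3 := by have := Nat.odd_iff.1 h; omega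
  have h2 : q % 4 = 1 ∨ q % 4 = 3 := by have := Nat.odd_iff.1 h'; omega
  rcases h1 with h1 | h1
  · rw [jacobiSym.quadratic_reciprocity_one_mod_four h1 h']
    simp only [h1]
    split_ifs <;> decide
  rcases h2 with h2 | h2
  · rw [← jacobiSym.quadratic_reciprocity_one_mod_four h2 h]
    simp only [h1, h2]
    split_ifs <;> decide
  · rw [jacobiSym.quadratic_reciprocity_three_mod_four h1 h2]
    rcases jac_cases hp (nd hp hq e) with h3 | h3 <;> simp only [h1, h2, h3] <;> decide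

theorem qz_pow (m : ℤ) (s : ZMod 2) : qz (m ^ s.val) = s • qz m := by
  rcases z2 s with rfl | rfl
  · simp [qz_one]
  · simp [v1]

theorem frob (hA : CA) {w : Pl} (h2 : w.p ≠ 2) (h : ¬ (w.p : ℤ) ∣ m) :
    (∀ g ∈ w.D, qz m g = 0) ↔ L m w.p = 0 := by
  obtain ⟨f, φ, -, -, hφ, hf, -⟩ := hA.frob w w.D w.loc_D
  obtain rfl := hf rfl
  have h' : ¬ (w.p : ℤ) ∣ 2 * m := fun h' =>
    ((Nat.prime_iff_prime_int.1 w.prime).dvd_or_dvd h').elim (nd w.prime Nat.prime_two h2) h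
  rw [L_eq_zero, ← (qz_frob hA h' hφ).1, (qz_frob hA h' hφ).2]

theorem loc (hA : CA) {w : Pl} (h2 : w.p ≠ 2) (hm : ¬ (w.p : ℤ) ∣ m) (hn : ¬ (w.p : ℤ) ∣ n)
    (s : ZMod 2) : ((∀ g ∈ w.D, qz (w.p ^ s.val * m) g = 0) ∨
      ∀ g ∈ w.D, qz (w.p ^ s.val * m) g = qz (w.p * n) g) ↔ L m w.p + s * L n w.p = 0 := by
  have hp := Nat.prime_iff_prime_int.1 w.prime
  have hU : w.Unif (w.I ⊓ w.D) w.p := by
    rw [inf_eq_left.2 w.I_le_D]
    exact (hA.res w w.D w.loc_D).2.2.2.2.1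
  obtain ⟨t, ht, hβ⟩ := (hA.tame w w.D w.p h2 w.loc_D hU).1
  have hd : ∀ k : ℤ, ¬ (w.p : ℤ) ∣ k → qz k t = 0 := fun k hk => qz_I hA
    (fun h' => (hp.dvd_or_dvd h').elim (nd w.prime Nat.prime_two h2) hk) ht.1
  have h1 : qz w.p t ≠ 0 := fun h => (qz_gen hA h2 ht.1 hβ hp.squarefree).1 h dvd_rfl
  have m0 : m ≠ 0 := fun h => hm (h ▸ dvd_zero _)
  have n0 : n ≠ 0 := fun h => hn (h ▸ dvd_zero _)
  rw [qz_mul (pow_ne_zero _ hp.ne_zero) m0, qz_mul hp.ne_zero n0, qz_pow]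
  rcases z2 s with rfl | rfl
  · simp only [zero_smul, zero_add, zero_mul, add_zero]
    rw [← frob hA h2 hm]
    refine or_iff_left fun h => h1 ?_
    simpa [hd m hm, hd n hn] using (h t ht.2).symm
  · simp only [one_smul, one_mul]
    rw [← L_mul w.prime hm hn, ← frob hA h2 fun h' => (hp.dvd_or_dvd h').elim hm hn, qz_mul m0 n0,
      or_iff_right fun h => h1 (by simpa [hd m hm] using h t ht.2)]
    refine forall₂_congr fun g _ => ?_
    simp only [Pi.add_apply]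
    generalize qz w.p g = a; generalize qz m g = b; generalize qz n g = c
    revert a b c; decide

theorem mk {V W : Type} [AddCommGroup V] [AddCommGroup W] [Module (ZMod 2) W] [Finite V]
    (F : V → W) (h0 : F 0 = 0) (ha : ∀ x y, F (x + y) = F x + F y) (hi : Function.Injective F)
    (Q : V → Prop) (q0 : Q 0) (qa : ∀ x y, Q x → Q y → Q (x + y)) :
    ∃ A : Submodule (ZMod 2) W, (∀ α, α ∈ A ↔ ∃ x, Q x ∧ F x = α) ∧ Finite A ∧
      Nat.card A = Nat.card {x // Q x} := by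
  let A : Submodule (ZMod 2) W :=
    { carrier := F '' {x | Q x}
      zero_mem' := ⟨0, q0, h0⟩
      add_mem' := by
        rintro _ _ ⟨x, hx, rfl⟩ ⟨y, hy, rfl⟩
        exact ⟨x + y, qa x y hx hy, ha x y⟩
      smul_mem' := by
        rintro c _ ⟨x, hx, rfl⟩
        rcases z2 c with rfl | rfl
        · exact ⟨0, q0, by rw [h0, zero_smul]⟩
        · exact ⟨x, hx, by rw [one_smul]⟩ }
  have e : {x // Q x} ≃ A := Equiv.Set.image F {x | Q x} hi
  exact ⟨A, fun _ => Iff.rfl, Finite.of_equiv _ e, Nat.card_congr e.symm⟩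

/-- the primes of `d` -/
abbrev PP (d : ℤ) : Type := {p // p ∈ d.natAbs.primeFactors}

/-- the divisor attached to a vector -/
def N {d : ℤ} (x : PP d → ZMod 2) : ℕ := ∏ q : PP d, q.1 ^ (x q).val

/-- the matrix of symbols -/
def M (d : ℤ) (q p : PP d) : ZMod 2 := if q = p then L (-(d / p.1)) p.1 else L q.1 p.1

variable {d : ℤ}

theorem PP.pr (p : PP d) : p.1.Prime := Nat.prime_of_mem_primeFactors p.2

theorem PP.dv (p : PP d) : (p.1 : ℤ) ∣ d := Int.natCast_dvd.2 (Nat.dvd_of_mem_primeFactors p.2)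

theorem PP.odd (h : Odd d) (p : PP d) : Odd p.1 :=
  (Int.natAbs_odd.2 h).of_dvd_nat (Nat.dvd_of_mem_primeFactors p.2)

theorem PP.nd (h : Squarefree d) (p : PP d) : ¬ (p.1 : ℤ) ∣ d / p.1 := fun h' =>
  (Nat.prime_iff_prime_int.1 p.pr).not_isUnit (h _ (by
    conv_rhs => rw [← Int.mul_ediv_cancel' p.dv]
    exact mul_dvd_mul_left _ h'))

theorem N_one (h : Squarefree d) : N (fun _ : PP d => 1) = d.natAbs := by
  simp only [N, v1, pow_one]
  rw [Finset.prod_coe_sort d.natAbs.primeFactors fun q => q]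
  exact Nat.prod_primeFactors_of_squarefree (Int.squarefree_natAbs.2 h)

theorem N_dvd (h : Squarefree d) (x : PP d → ZMod 2) : (N x : ℤ) ∣ d := by
  rw [Int.natCast_dvd, ← N_one h]
  exact Finset.prod_dvd_prod_of_dvd _ _ fun q _ =>
    pow_dvd_pow _ (by rcases z2 (x q) with h | h <;> simp [h])

theorem N_surj (h : Squarefree d) {a : ℕ} (ha : (a : ℤ) ∣ d) : ∃ x : PP d → ZMod 2, N x = a := by
  have h1 := Int.natCast_dvd.1 ha
  have h2 := Int.squarefree_natAbs.2 h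
  refine ⟨fun q => if q.1 ∣ a then 1 else 0, ?_⟩
  have : ∀ q : PP d, q.1 ^ (if q.1 ∣ a then (1 : ZMod 2) else 0).val = if q.1 ∣ a then q.1 else 1 :=
    fun q => by split_ifs <;> simp [v1]
  simp only [N, this]
  rw [Finset.prod_coe_sort d.natAbs.primeFactors fun q => if q ∣ a then q else 1,
    ← Finset.prod_filter, Nat.primeFactors_filter_dvd_of_dvd h2.ne_zero h1]
  exact Nat.prod_primeFactors_of_squarefree (h2.squarefree_of_dvd h1)

theorem N_eq_one {x : PP d → ZMod 2} (h : N x = 1) : x = 0 := by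
  funext q
  have := (Finset.prod_eq_one_iff.1 h) q (Finset.mem_univ _)
  rcases z2 (x q) with h | h
  · exact h
  · rw [h, v1, pow_one] at this
    exact absurd this q.pr.ne_one

theorem qz_N (x : PP d → ZMod 2) : qz (N x) = ∑ q, x q • qz q.1 := by
  simp only [N, Nat.cast_prod, Nat.cast_pow]
  rw [qz_prod _ _ fun q _ => pow_ne_zero _ (by exact_mod_cast q.pr.ne_zero)]
  simp only [qz_pow]

theorem e_N (h : Odd d) (x : PP d → ZMod 2) :
    Odd (N x) ∧ L (-1) (N x) = ∑ q, x q * L (-1) q.1 := by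
  simpa only [e_pow, N] using e_prod Finset.univ (fun q : PP d => q.1 ^ (x q).val)
    fun q _ => (q.odd h).pow

theorem L_N (hp : p.Prime) (h : ¬ (p : ℤ) ∣ d) (x : PP d → ZMod 2) :
    L (N x) p = ∑ q, x q * L q.1 p := by
  simp only [N, Nat.cast_prod, Nat.cast_pow]
  rw [(L_prod hp _ _ fun q _ h' => h (((Nat.prime_iff_prime_int.1 hp).dvd_of_dvd_pow h').trans q.dv)).2]
  simp only [L_pow]

theorem N_split (x : PP d → ZMod 2) (p : PP d) : ∃ u : ℤ, (N x : ℤ) = p.1 ^ (x p).val * u ∧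
    ¬ (p.1 : ℤ) ∣ u ∧ L u p.1 + x p * L (-(d / p.1)) p.1 = ∑ q, x q * M d q p := by
  obtain ⟨h1, h2⟩ := L_prod p.pr (Finset.univ.erase p) (fun q => (q.1 : ℤ) ^ (x q).val) fun q hq h' =>
    nd p.pr q.pr (fun e => (Finset.mem_erase.1 hq).1 (Subtype.ext e.symm))
      ((Nat.prime_iff_prime_int.1 p.pr).dvd_of_dvd_pow h')
  refine ⟨_, ?_, h1, ?_⟩
  · simp only [N, Nat.cast_prod, Nat.cast_pow]
    exact (Finset.mul_prod_erase _ (fun q : PP d => (q.1 : ℤ) ^ (x q).val) (Finset.mem_univ p)).symm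
  · rw [h2, ← Finset.sum_erase_add _ _ (Finset.mem_univ p)]
    congr 1
    · exact Finset.sum_congr rfl fun q hq => by rw [L_pow, M, if_neg (Finset.mem_erase.1 hq).1]
    · rw [M, if_pos rfl]

theorem L_neg (hp : p.Prime) (h : ¬ (p : ℤ) ∣ m) : L (-m) p = L m p + L (-1) p := by
  rw [← L_mul hp h (by simpa using (Nat.prime_iff_prime_int.1 hp).not_dvd_one), mul_neg_one]

theorem col (h : Squarefree d) (p : PP d) :
    (0 < d → ∑ q, M d q p = L (-1) p.1) ∧ (d < 0 → ∑ q, M d q p = 0) := by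
  obtain ⟨u, h1, h2, h3⟩ := N_split (fun _ => 1) p
  simp only [one_mul, N_one h, v1, pow_one] at h1 h3
  have p0 : (p.1 : ℤ) ≠ 0 := by exact_mod_cast p.pr.ne_zero
  rw [← h3]
  refine ⟨fun h0 => ?_, fun h0 => ?_⟩
  · have : d / p.1 = u := Int.ediv_eq_of_eq_mul_right p0 (by omega)
    rw [this, L_neg p.pr h2, ← add_assoc, CharTwo.add_self_eq_zero, zero_add]
  · have : d / p.1 = -u := Int.ediv_eq_of_eq_mul_right p0 (by rw [mul_neg]; omega)
    rw [this, neg_neg, CharTwo.add_self_eq_zero]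

theorem all_iff (hA : CA) (d0 : d ≠ 0) (C : Pl → Prop) (C' : PP d → Prop)
    (h : ∀ w p, w.p = p.1 → (C w ↔ C' p)) : (∀ w : Pl, (w.p : ℤ) ∣ d → C w) ↔ ∀ p, C' p := by
  refine ⟨fun h' p => ?_, fun h' w hw => ?_⟩
  · obtain ⟨w, hw⟩ := hA.pl.1 p.1 p.pr
    exact (h w p hw).1 (h' w (hw ▸ p.dv))
  · exact (h w ⟨w.p, Nat.mem_primeFactors.2 ⟨w.prime, Int.natCast_dvd.1 hw,
      Int.natAbs_ne_zero.2 d0⟩⟩ rfl).2 (h' _)

theorem locA (hA : CA) (h : Squarefree d) (ho : Odd d) (x : PP d → ZMod 2) :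
    (∀ w : Pl, (w.p : ℤ) ∣ d → (∀ g ∈ w.D, qz (N x) g = 0) ∨ ∀ g ∈ w.D, qz (N x) g = qz (-d) g) ↔
      ∀ p, ∑ q, x q * M d q p = 0 := by
  refine all_iff hA h.ne_zero _ _ fun w p e => ?_
  obtain ⟨u, h1, h2, h3⟩ := N_split x p
  have h4 : -d = p.1 * -(d / p.1) := by rw [mul_neg, Int.mul_ediv_cancel' p.dv]
  have h5 : ¬ (p.1 : ℤ) ∣ -(d / p.1) := by rw [dvd_neg]; exact p.nd h
  have h6 : p.1 ≠ 2 := fun e' => by have := p.odd ho; rw [e'] at this; exact absurd this (by decide)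
  rw [← h3, h1, h4]
  generalize -(d / p.1) = n at *
  rw [← e] at h2 h5 h6 ⊢
  exact loc hA h6 h2 h5 _

theorem locB (hA : CA) (h : Squarefree d) (ho : Odd d) (h3 : ¬ (3 : ℤ) ∣ d)
    (x : PP d → ZMod 2) (s : ZMod 2) :
    (∀ w : Pl, (w.p : ℤ) ∣ d → (∀ g ∈ w.D, qz (3 ^ s.val * N x : ℕ) g = 0) ∨
      ∀ g ∈ w.D, qz (3 ^ s.val * N x : ℕ) g = qz d g) ↔
      ∀ p, ∑ q, x q * M d q p + x p * L (-1) p.1 + s * L 3 p.1 = 0 := by
  refine all_iff hA h.ne_zero _ _ fun w p e => ?_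
  obtain ⟨u, h1, h2, h4⟩ := N_split x p
  have hp := Nat.prime_iff_prime_int.1 p.pr
  have h5 := p.nd h
  have h6 : p.1 ≠ 2 := fun e' => by have := p.odd ho; rw [e'] at this; exact absurd this (by decide)
  have h7 : ¬ (p.1 : ℤ) ∣ 3 ^ s.val := fun h' => nd p.pr Nat.prime_three
    (fun e' => h3 (by simpa [e'] using p.dv)) (hp.dvd_of_dvd_pow h')
  have h8 : ((3 ^ s.val * N x : ℕ) : ℤ) = p.1 ^ (x p).val * (3 ^ s.val * u) := by
    push_cast; rw [h1]; ring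
  have h9 : ∑ q, x q * M d q p + x p * L (-1) p.1 + s * L 3 p.1 =
      L (3 ^ s.val * u) p.1 + x p * L (d / p.1) p.1 := by
    rw [← h4, L_mul p.pr h7 h2, L_pow, L_neg p.pr h5]
    linear_combination (x p * L (-1) p.1) * CharTwo.two_eq_zero (R := ZMod 2)
  have h10 : ¬ (p.1 : ℤ) ∣ 3 ^ s.val * u := fun h' => (hp.dvd_or_dvd h').elim h7 h2
  have h11 : qz d = qz (p.1 * (d / p.1)) := by rw [Int.mul_ediv_cancel' p.dv]
  rw [h9, h8, h11]
  generalize d / p.1 = n at *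
  rw [← e] at h10 h5 h6 ⊢
  exact loc hA h6 h10 h5 _

theorem loc3 (hA : CA) (h : Squarefree d) (ho : Odd d) (h3 : ¬ (3 : ℤ) ∣ d) (x : PP d → ZMod 2) :
    (∀ w : Pl, w.p = 3 → ∀ g ∈ w.D, qz (N x) g = 0) ↔ ∑ q, x q * (L 3 q.1 + L (-1) q.1) = 0 := by
  have h4 : ∑ q, x q * (L 3 q.1 + L (-1) q.1) = L (N x) 3 := by
    rw [L_N Nat.prime_three h3]
    refine Finset.sum_congr rfl fun q _ => ?_
    have := qr Nat.prime_three q.pr (by decide) (q.odd ho) fun e' => h3 (by simpa [← e'] using q.dv)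
    rw [e_eq (p := 3) (by decide), if_neg (by decide), one_mul] at this
    rw [← this, ← add_assoc, Nat.cast_ofNat, CharTwo.add_self_eq_zero, zero_add]
  have h5 : ∀ w : Pl, w.p = 3 → ((∀ g ∈ w.D, qz (N x) g = 0) ↔ L (N x) 3 = 0) := fun w e => by
    rw [← e]
    exact frob hA (by omega) fun h' => h3 (by simpa [e] using h'.trans (N_dvd h x))
  obtain ⟨w, hw⟩ := hA.pl.1 3 Nat.prime_three
  rw [h4]
  exact ⟨fun h' => (h5 w hw).1 (h' w hw), fun h' w hw => (h5 w hw).2 h'⟩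

theorem mod4 (ho : Odd d) (x : PP d → ZMod 2) (s : ZMod 2) :
    (3 ^ s.val * N x) % 4 = 1 ↔ ∑ q, x q * L (-1) q.1 + s = 0 := by
  have h1 : Odd (3 ^ s.val) := Odd.pow (by decide)
  have h2 := e_mul h1 (e_N ho x).1
  rw [e_pow, e_eq (p := 3) (by decide), if_neg (by decide), mul_one, (e_N ho x).2,
    e_eq (h1.mul (e_N ho x).1), add_comm] at h2
  rw [← h2]
  split_ifs with h <;> simp [h]

theorem dvd3 (h : Squarefree d) (x : PP d → ZMod 2) (s : ZMod 2) :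
    ((3 ^ s.val * N x : ℕ) : ℤ) ∣ 3 * d := by
  push_cast
  exact mul_dvd_mul (by rcases z2 s with h | h <;> simp [h, v1]) (N_dvd h x)

theorem surj3 (h : Squarefree d) {b : ℕ} (hb : (b : ℤ) ∣ 3 * d) :
    ∃ (x : PP d → ZMod 2) (s : ZMod 2), 3 ^ s.val * N x = b := by
  by_cases e : 3 ∣ b
  · obtain ⟨c, rfl⟩ := e
    obtain ⟨x, rfl⟩ := N_surj h (a := c) (by
      push_cast at hb; exact (mul_dvd_mul_iff_left (by norm_num)).1 hb)
    exact ⟨x, 1, by simp [v1]⟩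
  · obtain ⟨x, rfl⟩ := N_surj h (a := b) (IsCoprime.dvd_of_dvd_mul_left (Nat.isCoprime_iff_coprime.2
      ((Nat.Prime.coprime_iff_not_dvd Nat.prime_three).2 e).symm) hb)
    exact ⟨x, 0, by simp⟩

theorem qz3 (x : PP d → ZMod 2) (s : ZMod 2) :
    qz (3 ^ s.val * N x : ℕ) = s • qz 3 + ∑ q, x q • qz q.1 := by
  have : (N x : ℤ) ≠ 0 := by
    exact_mod_cast Finset.prod_ne_zero_iff.2 fun (q : PP d) _ => pow_ne_zero (x q).val q.pr.ne_zero
  push_cast
  rw [qz_mul (by positivity) this, qz_pow, qz_N]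

theorem inj3 (hA : CA) (h : Squarefree d) (h3 : Squarefree (3 * d)) (x : PP d → ZMod 2)
    (s : ZMod 2) (e : s • qz 3 + ∑ q, x q • qz q.1 = 0) : x = 0 ∧ s = 0 := by
  rw [← qz3, ← qz_one] at e
  have h1 := qz_inj hA (h3.squarefree_of_dvd (dvd3 h x s)) squarefree_one e
  have h2 : 3 ^ s.val * N x = 1 := by exact_mod_cast h1
  refine ⟨N_eq_one (Nat.eq_one_of_mul_eq_one_left h2), (z2 s).resolve_right fun e' => ?_⟩
  have := Nat.eq_one_of_mul_eq_one_right h2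
  simp [e', v1] at this

end TCNT

open TCNT in
theorem t_CNT (hCA : CA) (hCNT0 : CNT0) (hCNT1 : CNT1) : CNT := by
  intro S
  obtain ⟨d0, ho, h3, -, hs⟩ := S.d_ne
  have h := S.sq
  let F : (PP S.d → ZMod 2) × ZMod 2 →+ GQ → ZMod 2 := AddMonoidHom.mk'
    (fun y => y.2 • qz 3 + ∑ q, y.1 q • qz q.1) fun y z => by
      simp only [Prod.fst_add, Prod.snd_add, Pi.add_apply, add_smul, Finset.sum_add_distrib]
      abel
  have hF : Function.Injective F := (injective_iff_map_eq_zero F).2 fun y e =>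
    Prod.ext (inj3 hCA h hs _ _ e).1 (inj3 hCA h hs _ _ e).2
  obtain ⟨A, hA, fA, cA⟩ := mk (fun x => F (x, 0)) (map_zero F) (fun x y => by simp [← map_add])
    (fun x y e => (Prod.ext_iff.1 (hF e)).1)
    (fun x => (jacobiSym S.d 3 = -1 → ∑ q, x q * (L 3 q.1 + L (-1) q.1) = 0) ∧
      ∀ p, ∑ q, x q * M S.d q p = 0)
    (by simp) fun x y hx hy => ⟨fun e => by
      simp only [Pi.add_apply, add_mul, Finset.sum_add_distrib, hx.1 e, hy.1 e, add_zero],
      fun p => by simp only [Pi.add_apply, add_mul, Finset.sum_add_distrib, hx.2 p, hy.2 p, add_zero]⟩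
  obtain ⟨B, hB, fB, cB⟩ := mk F (map_zero F) (map_add F) hF
    (fun y => (jacobiSym S.d 3 = 1 → y.2 = 0) ∧ ∑ q, y.1 q * L (-1) q.1 + y.2 = 0 ∧
      ∀ p, ∑ q, y.1 q * M S.d q p + y.1 p * L (-1) p.1 + y.2 * L 3 p.1 = 0)
    (by simp) fun x y hx hy => ⟨fun e => by simp [hx.1 e, hy.1 e], by
      simp only [Prod.fst_add, Prod.snd_add, Pi.add_apply, add_mul, Finset.sum_add_distrib]
      linear_combination hx.2.1 + hy.2.1, fun p => by
      simp only [Prod.fst_add, Prod.snd_add, Pi.add_apply, add_mul, Finset.sum_add_distrib]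
      linear_combination hx.2.2 p + hy.2.2 p⟩
  have e1 : ∀ x, F (x, 0) = qz (N x) := fun x => by
    rw [qz_N]; exact (congrArg (· + _) (zero_smul _ _)).trans (zero_add _)
  have e2 : ∀ y, F y = qz (3 ^ y.2.val * N y.1 : ℕ) := fun y => (qz3 _ _).symm
  refine ⟨A, B, fun α => (hA α).trans ⟨?_, ?_⟩, fun β => (hB β).trans ⟨?_, ?_⟩, fA, fB, ?_⟩
  · rintro ⟨x, hx, rfl⟩
    rw [e1]
    exact ⟨N x, N_dvd h x, rfl, fun e => (loc3 hCA h ho h3 x).2 (hx.1 e), (locA hCA h ho x).2 hx.2⟩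
  · rintro ⟨a, h1, rfl, h2, h4⟩
    obtain ⟨x, rfl⟩ := N_surj h h1
    exact ⟨x, ⟨fun e => (loc3 hCA h ho h3 x).1 (h2 e), (locA hCA h ho x).1 h4⟩, e1 x⟩
  · rintro ⟨y, hy, rfl⟩
    rw [e2]
    exact ⟨_, dvd3 h _ _, fun e => by simpa [hy.1 e] using N_dvd h y.1, (mod4 ho _ _).2 hy.2.1, rfl,
      (locB hCA h ho h3 _ _).2 hy.2.2⟩
  · rintro ⟨b, h1, h2, h4, rfl, h5⟩
    obtain ⟨x, s, rfl⟩ := surj3 h h1
    refine ⟨(x, s), ⟨fun e => (z2 s).resolve_right fun e' => h3 ?_, (mod4 ho _ _).1 h4,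
      (locB hCA h ho h3 _ _).1 h5⟩, e2 _⟩
    refine dvd_trans ?_ (h2 e)
    simp [e', v1]
  have hM : ∀ p q : PP S.d, p ≠ q → M S.d p q + M S.d q p = L (-1) p.1 * L (-1) q.1 :=
    fun p q e => by
      rw [M, M, if_neg e, if_neg e.symm]
      exact qr p.pr q.pr (p.odd ho) (q.odd ho) fun e' => e (Subtype.ext e')
  have hc := hCNT0 (PP S.d) (M S.d) (fun p => L (-1) p.1) (fun p => L 3 p.1) hM
  have hi := hCNT1 (PP S.d) (M S.d) (fun p => L (-1) p.1) (fun p => L 3 p.1) hM _ _ _ _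
    rfl rfl rfl rfl
  have he := (e_N ho fun _ => 1).2
  have d8 := S.d8
  simp only [one_mul, N_one h] at he
  rw [e_eq (Int.natAbs_odd.2 ho)] at he
  rw [cA, cB]
  rcases S.j3 with j | j
  · simp only [j, forall_const, show (-1 : ℤ) ≠ 1 by norm_num, false_imp_iff, true_and]
    refine ⟨fun e => ?_, by omega, by omega⟩
    have e : S.d < 0 := Int.sign_eq_neg_one_iff_neg.1 (by omega)
    rw [if_neg (by omega)] at he
    exact hc.2 he.symm fun p => (col h p).2 e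
  · simp only [j, forall_const, show (1 : ℤ) ≠ -1 by norm_num, false_imp_iff, true_and]
    have eB : Nat.card {y : PP S.d → ZMod 2 // ∑ q, y q * L (-1) q.1 = 0 ∧
        ∀ p, ∑ q, y q * M S.d q p + y p * L (-1) p.1 = 0} =
        Nat.card {y : (PP S.d → ZMod 2) × ZMod 2 // y.2 = 0 ∧ ∑ q, y.1 q * L (-1) q.1 + y.2 = 0 ∧
        ∀ p, ∑ q, y.1 q * M S.d q p + y.1 p * L (-1) p.1 + y.2 * L 3 p.1 = 0} :=
      Nat.card_congr ⟨fun y => ⟨(y.1, 0), by simpa using y.2⟩,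
        fun y => ⟨y.1.1, by simpa [y.2.1] using y.2.2⟩,
        fun y => rfl, fun y => Subtype.ext (Prod.ext rfl y.2.1.symm)⟩
    rw [← eB]
    refine ⟨fun e => ?_, by omega, by omega⟩
    have e : 0 < S.d := Int.sign_eq_one_iff_pos.1 (by omega)
    rw [if_pos (by omega)] at he
    exact hc.1 he.symm fun p => (col h p).1 e

end Pool.Agent.P.MP_8b7eba_nt.R2
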