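import Pool.Agent.P.MP_8b7eba_nt.R2.IfL

/-! Proof of CNT0, LIN. -/

namespace Pool.Agent.P.MP_8b7eba_nt.R2

open scoped NNReal Matrix

namespace TCNT0

theorem card_ker {n : Type} [Fintype n] [DecidableEq n] (N : Matrix n n (ZMod 2)) :
    Nat.card {y : n → ZMod 2 // N *ᵥ y = 0} = 2 ^ (Fintype.card n - N.rank) := by
  have h := LinearMap.finrank_range_add_finrank_ker N.mulVecLin
  rw [Module.finrank_fintype_fun_eq_card] at h
  have h2 := Module.natCard_eq_pow_finrank (K := ZMod 2) (V := LinearMap.ker N.mulVecLin)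
  rw [Nat.card_zmod] at h2
  rw [← h, Matrix.rank, Nat.add_sub_cancel_left, ← h2]
  rfl

theorem sqm {n : Type} [Fintype n] [DecidableEq n] (N : n → n → ZMod 2) :
    Nat.card {x : n → ZMod 2 // ∀ p, ∑ q, x q * N q p = 0} =
      Nat.card {y : n → ZMod 2 // ∀ q, ∑ p, N q p * y p = 0} := by
  have h1 := card_ker (Matrix.of N)
  have h2 := card_ker (Matrix.of N)ᵀ
  rw [Matrix.rank_transpose, ← h1] at h2
  refine (Nat.card_congr (Equiv.subtypeEquivRight fun x => ?_)).trans
    (h2.trans (Nat.card_congr (Equiv.subtypeEquivRight fun x => ?_)))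
  · simp only [funext_iff, Matrix.mulVec, dotProduct, Matrix.transpose_apply, Matrix.of_apply,
      Pi.zero_apply, mul_comm]
  · simp only [funext_iff, Matrix.mulVec, dotProduct, Matrix.of_apply, Pi.zero_apply]

theorem two (a : ZMod 2) : a + a = 0 := by revert a; decide

theorem flip {P : Type} [Fintype P] [DecidableEq P] {M : P → P → ZMod 2} {e : P → ZMod 2}
    (h : ∀ p q, p ≠ q → M p q + M q p = e p * e q) (y : P → ZMod 2) (q : P) :
    ∑ p, M q p * y p = ∑ p, y p * M p q + y q * e q + e q * ∑ p, y p * e p := by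
  have k : ∀ p, M q p * y p = y p * M p q + (if q = p then y q * e q else 0) + e q * (y p * e p) :=
    fun p => by
      split_ifs with hp
      · subst hp
        generalize M q q = a, y q = b, e q = c
        revert a b c
        decide
      · linear_combination y p * h q p hp - y p * two (M p q)
  simp only [k, Finset.sum_add_distrib, Finset.sum_ite_eq, Finset.mem_univ, if_true,
    ← Finset.mul_sum]

theorem half {G : Type} (A : Submodule (ZMod 2) (G → ZMod 2)) {g : G} {a : G → ZMod 2} (ha : a ∈ A)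
    (h : a g = 1) : Nat.card A =
      2 * Nat.card (A ⊓ LinearMap.ker (LinearMap.proj g) : Submodule (ZMod 2) (G → ZMod 2)) := by
  refine Eq.trans ?_ ((Nat.card_prod (ZMod 2) _).trans (congrArg (· * _) (Nat.card_zmod 2)))
  refine Nat.card_congr ⟨fun x => (x.1 g, ⟨x.1 - x.1 g • a, A.sub_mem x.2 (A.smul_mem _ ha), ?_⟩),
    fun z => ⟨z.2.1 + z.1 • a, A.add_mem z.2.2.1 (A.smul_mem _ ha)⟩, fun x => ?_, fun z => ?_⟩
  · simp [h]
  · simp
  · have : z.2.1 g = 0 := z.2.2.2
    ext <;> simp [h, this]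

theorem bot {G : Type} {A : Submodule (ZMod 2) (G → ZMod 2)}
    (h : Nat.card A = Nat.card (⊥ : Submodule (ZMod 2) (G → ZMod 2))) : A = ⊥ := by
  exact Submodule.subsingleton_iff_eq_bot.1
    (Nat.card_eq_one_iff_unique.1 (h.trans Nat.card_unique)).1

theorem one {a : ZMod 2} (h : a ≠ 0) : a = 1 := by revert a; decide

theorem fin2 {G : Type} {x : G → Fin 2 → ZMod 2} (h0 : (fun g => x g 0) = 0)
    (h1 : (fun g => x g 1) = 0) : x = 0 := by
  funext g i
  fin_cases i
  · exact congrFun h0 g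
  · exact congrFun h1 g

end TCNT0

open TCNT0

theorem t_CNT0 : CNT0 := by
  intro P _ _ M e t h
  refine ⟨fun h1 h2 => (sqm M).trans (Nat.card_congr (Equiv.subtypeEquivRight fun y => ?_)),
    fun h1 h2 => ?_⟩
  · refine ⟨fun k => ?_, fun k q => by rw [flip h, k.1, k.2, mul_zero, add_zero]⟩
    have k1 : ∑ q, y q * e q = 0 := by
      have := Finset.sum_eq_zero (s := Finset.univ) fun q _ => k q
      rw [Finset.sum_comm] at this
      simpa only [← Finset.sum_mul, h2, mul_comm] using this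
    exact ⟨k1, fun q => by simpa only [flip h, k1, mul_zero, add_zero] using k q⟩
  · have h3 : ∀ q, ∑ p, M q p = 0 := fun q => by
      simpa only [Pi.one_apply, mul_one, one_mul, h2, h1, zero_add, two] using flip h 1 q
    have h4 := sqm (n := Option P) fun q p => q.elim (p.elim 1 e) fun q => p.elim (t q + e q) (M q)
    simp only [Option.forall, Fintype.sum_option, Option.elim_none, Option.elim_some, mul_one,
      one_mul] at h4
    refine (Nat.card_congr ?_).trans (h4.trans (Nat.card_congr ?_))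
    · refine ⟨fun x => ⟨fun q => q.elim 0 x.1, by simpa using x.2⟩,
        fun x => ⟨fun q => x.1 (some q), ?_⟩, fun x => rfl, fun x => ?_⟩
      · have := Finset.sum_eq_zero (s := Finset.univ) fun p _ => x.2.2 p
        rw [Finset.sum_add_distrib, Finset.sum_comm, ← Finset.mul_sum] at this
        simp only [← Finset.mul_sum, h1, h3, mul_zero, mul_one, Finset.sum_const_zero,
          add_zero] at this
        simpa [this] using x.2
      · have := Finset.sum_eq_zero (s := Finset.univ) fun p _ => x.2.2 p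
        rw [Finset.sum_add_distrib, Finset.sum_comm, ← Finset.mul_sum] at this
        simp only [← Finset.mul_sum, h1, h3, mul_zero, mul_one, Finset.sum_const_zero,
          add_zero] at this
        ext q
        cases q
        · exact this.symm
        · rfl
    · refine (Equiv.piOptionEquivProd.trans (Equiv.prodComm _ _)).subtypeEquiv fun y => ?_
      show _ ↔ ∑ q, y (some q) * e q + y none = 0 ∧
        ∀ p, ∑ q, y (some q) * M q p + y (some p) * e p + y none * t p = 0
      simp only [flip h fun p => y (some p), mul_comm (e _) (y _)]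
      refine and_congr (by rw [add_comm]) Iff.rfl |>.trans (and_congr_right fun k => ?_)
      refine forall_congr' fun q => ?_
      constructor <;> intro k1
      · linear_combination k1 - e q * k
      · linear_combination k1 + e q * k

theorem t_LIN : LIN := by
  intro G _ P A B C X hP fA fB hc hα hX hC
  induction hn : Nat.card A using Nat.strong_induction_on generalizing A B X with
  | _ n ih =>
  by_cases h0 : A = ⊥
  · have h1 : B = ⊥ := bot (h0 ▸ hc.symm)
    refine ⟨[], by simp, fun x hx _ => ?_⟩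
    rw [hX, h0, h1] at hx
    exact fin2 hx.1 hx.2
  have h1 : B ≠ ⊥ := fun h1 => h0 (bot (h1 ▸ hc))
  obtain ⟨a, ha, a0⟩ := A.exists_mem_ne_zero_of_ne_bot h0
  obtain ⟨b, hb, b0⟩ := B.exists_mem_ne_zero_of_ne_bot h1
  obtain ⟨g, hg, ag, bg⟩ : ∃ g, P g ∧ a g = 1 ∧ b g = 1 := by
    obtain ⟨g₁, p1, e1⟩ := (hα a (.inl ha)).2 a0
    obtain ⟨g₂, p2, e2⟩ := (hα b (.inr hb)).2 b0
    by_cases k1 : b g₁ = 0
    · by_cases k2 : a g₂ = 0
      · exact ⟨g₁ * g₂, hP _ _ p1 p2, by rw [(hα a (.inl ha)).1, k2, one e1, add_zero],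
          by rw [(hα b (.inr hb)).1, k1, one e2, zero_add]⟩
      · exact ⟨g₂, p2, one k2, one e2⟩
    · exact ⟨g₁, p1, one e1, one k1⟩
  have c1 := half A ha ag
  have c2 := half B hb bg
  have c3 : 0 < Nat.card A := Nat.card_pos
  obtain ⟨s, s1, s2⟩ := ih _ (by omega) (A ⊓ LinearMap.ker (LinearMap.proj g))
    (B ⊓ LinearMap.ker (LinearMap.proj g)) (fun x => X x ∧ x g 0 = 0 ∧ x g 1 = 0)
    (Finite.of_injective _ (Submodule.inclusion_injective inf_le_left))
    (Finite.of_injective _ (Submodule.inclusion_injective inf_le_left)) (by omega)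
    (fun α h => hα α (h.imp And.left And.left))
    (fun x => by rw [hX]; exact ⟨fun h => ⟨⟨h.1.1, h.2.1⟩, h.1.2, h.2.2⟩,
      fun h => ⟨⟨h.1.1, h.2.1⟩, h.1.2, h.2.2⟩⟩)
    (fun x y hx hy => ⟨(hC x y hx.1 hy.1).1, fun y' h => (hC x y hx.1 hy.1).2 y' h.1⟩) rfl
  obtain ⟨F, hF⟩ : ∃ F : (G → Fin 2 → ZMod 2) → (G → Fin 2 → ZMod 2) → ZMod 2,
    ∀ x y, F x y = C x y + (s.map fun g => x g 0 * y g 1 + x g 1 * y g 0).sum := ⟨_, fun _ _ => rfl⟩
  have F1 : ∀ x y, X x → X y → F x y = F y x := fun x y hx hy => by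
    rw [hF, hF, (hC x y hx hy).1]
    refine congrArg (fun f => C y x + (s.map f).sum) (funext fun g => by ring)
  have F2 : ∀ x x' y, X x → X x' → X y → F y (x + x') = F y x + F y x' := fun x x' y hx hx' hy => by
    rw [hF, hF, hF, (hC y x hy hx).2 x' hx', add_add_add_comm, ← List.sum_map_add]
    refine congrArg (fun f => C y x + C y x' + (s.map f).sum) (funext fun g => ?_)
    simp only [Pi.add_apply]
    ring
  have X2 : ∀ x x', X x → X x' → X (x + x') := fun x x' hx hx' => by
    rw [hX] at hx hx' ⊢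
    exact ⟨A.add_mem hx.1 hx'.1, B.add_mem hx.2 hx'.2⟩
  simp only [← hF] at s2
  by_contra hcon
  push Not at hcon
  obtain ⟨x, hx, x1, x0⟩ := hcon s s1
  obtain ⟨z, hz, z1, z0⟩ := hcon (g :: s) (by simpa using ⟨hg, s1⟩)
  simp only [← hF] at x1
  have z2 : ∀ y, X y → F z y + (z g 0 * y g 1 + z g 1 * y g 0) = 0 := fun y hy => by
    have := z1 y hy
    rw [List.map_cons, List.sum_cons] at this
    rw [hF, ← this]
    ring
  have z3 : ∀ y, X y ∧ y g 0 = 0 ∧ y g 1 = 0 → F z y = 0 := fun y hy => by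
    simpa only [hy.2.1, hy.2.2, mul_zero, add_zero] using z2 y hy.1
  have n1 : ¬ (x g 0 = 0 ∧ x g 1 = 0) := fun h => x0 (s2 x ⟨hx, h⟩ fun y hy => x1 y hy.1)
  have n2 : ¬ (z g 0 = 0 ∧ z g 1 = 0) := fun h => z0 (s2 z ⟨hz, h⟩ z3)
  have n3 := z2 x hx
  rw [F1 z x hz hx, x1 z hz, zero_add] at n3
  have n4 : x g 0 + z g 0 = 0 ∧ x g 1 + z g 1 = 0 := by
    revert n1 n2 n3
    generalize x g 0 = a, x g 1 = b, z g 0 = c, z g 1 = d
    revert a b c d
    decide
  have n5 := s2 (x + z) ⟨X2 x z hx hz, n4⟩ fun y hy => by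
    rw [F1 _ y (X2 x z hx hz) hy.1, F2 x z y hx hz hy.1, F1 y x hy.1 hx, F1 y z hy.1 hz, x1 y hy.1,
      z3 y hy, add_zero]
  obtain rfl : x = z := by
    funext h i
    have e : x h i + z h i = 0 := congrFun (congrFun n5 h) i
    linear_combination e - two (z h i)
  have u1 : X fun h => ![a h, 0] := (hX _).2 ⟨ha, B.zero_mem⟩
  have u2 : X fun h => ![0, b h] := (hX _).2 ⟨A.zero_mem, hb⟩
  have v1 := z2 _ u1
  have v2 := z2 _ u2
  rw [x1 _ u1] at v1
  rw [x1 _ u2] at v2
  exact n1 ⟨by simpa [bg] using v2, by simpa [ag] using v1⟩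

end Pool.Agent.P.MP_8b7eba_nt.R2
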