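import Pool.Agent.P.MP_8b7eba_nt.R2.TCNT0

/-! Proof of CNT1, LIN2. -/

namespace Pool.Agent.P.MP_8b7eba_nt.R2

open scoped NNReal Matrix

open TCNT0

namespace TCNT1

theorem idx {V : Type} [AddCommGroup V] [Finite V] (K : V → Prop) (f : V → ZMod 2)
    (hK : ∀ x y, K x → K y → K (x + y)) (hf : ∀ x y, f (x + y) = f x + f y) :
    Nat.card {x // f x = 0 ∧ K x} ≤ Nat.card {x // K x} ∧
      Nat.card {x // K x} ≤ 2 * Nat.card {x // f x = 0 ∧ K x} := by
  refine ⟨Nat.card_le_card_of_injective (fun x => ⟨x.1, x.2.2⟩) fun x y h =>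
    Subtype.ext (Subtype.mk.inj h), ?_⟩
  by_cases h : ∃ a, K a ∧ f a ≠ 0
  · obtain ⟨a, ha, h1⟩ := h
    refine le_of_le_of_eq (Nat.card_le_card_of_injective
      (β := ZMod 2 × {x // f x = 0 ∧ K x}) (fun x => (f x.1, if h : f x.1 = 0 then ⟨x.1, h, x.2⟩
        else ⟨x.1 + a, by rw [hf, one h, one h1, two], hK _ _ x.2 ha⟩)) fun x y h => ?_)
      ((Nat.card_prod (ZMod 2) _).trans (congrArg (· * _) (Nat.card_zmod 2)))
    obtain ⟨e1, e2⟩ := Prod.mk.inj h
    by_cases k : f x.1 = 0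
    · rw [dif_pos k, dif_pos (e1 ▸ k)] at e2
      exact Subtype.ext (Subtype.mk.inj e2)
    · rw [dif_neg k, dif_neg (e1 ▸ k)] at e2
      exact Subtype.ext (add_right_cancel (congrArg Subtype.val e2))
  · have := Nat.card_le_card_of_injective (α := {x // K x}) (β := {x // f x = 0 ∧ K x})
      (fun x => ⟨x.1, not_not.1 fun k => h ⟨x.1, x.2, k⟩, x.2⟩) fun x y h =>
        Subtype.ext (Subtype.mk.inj h)
    omega

theorem core (hLIN : LIN) {G : Type} [Group G] {P : G → Prop}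
    {A B : Submodule (ZMod 2) (G → ZMod 2)}
    {C : (G → Fin 2 → ZMod 2) → (G → Fin 2 → ZMod 2) → ZMod 2}
    {X : (G → Fin 2 → ZMod 2) → Prop} (hP : ∀ g h, P g → P h → P (g * h)) (fA : Finite A)
    (fB : Finite B)
    (hα : ∀ α, α ∈ A ∨ α ∈ B → (∀ g h, α (g * h) = α g + α h) ∧ (α ≠ 0 → ∃ g, P g ∧ α g ≠ 0))
    (hX : ∀ x, X x ↔ (fun g => x g 0) ∈ A ∧ (fun g => x g 1) ∈ B)
    (hC : ∀ x y, X x → X y → C x y = C y x ∧ ∀ y', X y' → C x (y + y') = C x y + C x y')
    (A0 B0 : Submodule (ZMod 2) (G → ZMod 2)) (hA : A0 ≤ A) (hB : B0 ≤ B)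
    (hc : Nat.card A0 = Nat.card B0) (g : G) (i : Fin 2)
    (hf : ∀ x, X x → x g i = 0 → (fun g => x g 0) ∈ A0 ∧ (fun g => x g 1) ∈ B0) :
    ∃ s : List G, (∀ g ∈ s, P g) ∧ ∀ x x', X x → X x' →
      (∀ y, X y → C x y + (s.map fun g => x g 0 * y g 1 + x g 1 * y g 0).sum = 0) →
      (∀ y, X y → C x' y + (s.map fun g => x' g 0 * y g 1 + x' g 1 * y g 0).sum = 0) →
      (x = 0 ∨ x' = 0 ∨ x = x') := by
  have h0 : ∀ x : G → Fin 2 → ZMod 2, (fun g => x g 0) ∈ A0 ∧ (fun g => x g 1) ∈ B0 → X x :=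
    fun x hx => (hX x).2 ⟨hA hx.1, hB hx.2⟩
  obtain ⟨s, s1, s2⟩ := hLIN G P A0 B0 C (fun x => (fun g => x g 0) ∈ A0 ∧ (fun g => x g 1) ∈ B0)
    hP (Finite.of_injective _ (Submodule.inclusion_injective hA))
    (Finite.of_injective _ (Submodule.inclusion_injective hB)) hc
    (fun α h => hα α (h.imp (fun k => hA k) fun k => hB k)) (fun _ => Iff.rfl)
    fun x y hx hy => ⟨(hC x y (h0 x hx) (h0 y hy)).1,
      fun y' h => (hC x y (h0 x hx) (h0 y hy)).2 y' (h0 y' h)⟩
  refine ⟨s, s1, fun x x' hx hx' r r' => ?_⟩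
  by_cases k : x g i = 0
  · exact .inl (s2 x (hf x hx k) fun y hy => r y (h0 y hy))
  by_cases k' : x' g i = 0
  · exact .inr (.inl (s2 x' (hf x' hx' k') fun y hy => r' y (h0 y hy)))
  have X2 : X (x + x') := by
    rw [hX] at hx hx' ⊢
    exact ⟨A.add_mem hx.1 hx'.1, B.add_mem hx.2 hx'.2⟩
  have n5 := s2 (x + x') (hf _ X2 (by rw [Pi.add_apply, Pi.add_apply, one k, one k', two]))
    fun y hy => by
      have hy := h0 y hy
      have e : (s.map fun g => (x + x') g 0 * y g 1 + (x + x') g 1 * y g 0).sum =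
          (s.map fun g => x g 0 * y g 1 + x g 1 * y g 0).sum +
            (s.map fun g => x' g 0 * y g 1 + x' g 1 * y g 0).sum := by
        rw [← List.sum_map_add]
        refine congrArg (fun f => (s.map f).sum) (funext fun g => ?_)
        simp only [Pi.add_apply]
        ring
      rw [e, (hC _ y X2 hy).1, (hC y x hy hx).2 x' hx', (hC y x hy hx).1, (hC y x' hy hx').1]
      linear_combination r y hy + r' y hy
  refine .inr (.inr ?_)
  funext h j
  have e : x h j + x' h j = 0 := congrFun (congrFun n5 h) j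
  linear_combination e - two (x' h j)

end TCNT1

open TCNT1

theorem t_CNT1 : CNT1 := by
  intro P _ _ M e t h a b a' b' ha hb ha' hb'
  have i1 := idx (fun y : P → ZMod 2 => ∀ q, ∑ p, M q p * y p = 0) (fun y => ∑ q, y q * e q)
    (fun x y hx hy q => by
      simp only [Pi.add_apply, mul_add, Finset.sum_add_distrib, hx q, hy q, add_zero])
    fun x y => by simp only [Pi.add_apply, add_mul, Finset.sum_add_distrib]
  have i2 := idx (fun x : P → ZMod 2 => ∀ p, ∑ q, x q * (M q p + (t q + e q) * e p) = 0)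
    (fun x => ∑ q, x q * (t q + e q))
    (fun x y hx hy q => by
      simp only [Pi.add_apply, add_mul (x _), Finset.sum_add_distrib, hx q, hy q, add_zero])
    fun x y => by simp only [Pi.add_apply, add_mul, Finset.sum_add_distrib]
  have e1 : b = Nat.card {y : P → ZMod 2 // ∑ q, y q * e q = 0 ∧ ∀ q, ∑ p, M q p * y p = 0} :=
    hb.trans (Nat.card_congr (Equiv.subtypeEquivRight fun y => and_congr_right fun k => by
      simp only [flip h, k, mul_zero, add_zero]))
  have e2 : a' = Nat.card {x : P → ZMod 2 // ∑ q, x q * (t q + e q) = 0 ∧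
      ∀ p, ∑ q, x q * (M q p + (t q + e q) * e p) = 0} :=
    ha'.trans (Nat.card_congr (Equiv.subtypeEquivRight fun x => and_congr_right fun k => by
      simp only [mul_add (x _) (M _ _), ← mul_assoc, Finset.sum_add_distrib, ← Finset.sum_mul, k,
        zero_mul, add_zero]))
  have k : ∀ (y : P → ZMod 2) q, ∑ p, (M q p + (t q + e q) * e p) * y p =
      ∑ p, y p * M p q + y q * e q + (∑ p, y p * e p) * t q := fun y q => by
    have : ∑ p, (M q p + (t q + e q) * e p) * y p =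
        ∑ p, M q p * y p + (t q + e q) * ∑ p, y p * e p := by
      rw [Finset.mul_sum, ← Finset.sum_add_distrib]
      exact Finset.sum_congr rfl fun p _ => by ring
    rw [this, flip h]
    linear_combination (∑ p, y p * e p) * two (e q)
  have e3 : b' = Nat.card {y : P → ZMod 2 // ∀ q, ∑ p, (M q p + (t q + e q) * e p) * y p = 0} := by
    have k2 : ∀ y : (P → ZMod 2) × ZMod 2, ∑ q, y.1 q * e q + y.2 = 0 → ∑ q, y.1 q * e q = y.2 :=
      fun y hy => by linear_combination hy - two y.2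
    refine hb'.trans (Nat.card_congr ⟨fun y => ⟨y.1.1, fun q => ?_⟩,
      fun y => ⟨(y.1, ∑ q, y.1 q * e q), two _, fun q => ?_⟩, fun y => ?_, fun y => rfl⟩)
    · rw [k, k2 _ y.2.1]
      exact y.2.2 q
    · rw [← k]
      exact y.2 q
    · exact Subtype.ext (Prod.ext rfl (k2 _ y.2.1))
  rw [← sqm M, ← ha, ← e1] at i1
  rw [sqm fun q p => M q p + (t q + e q) * e p, ← e3, ← e2] at i2
  exact ⟨i1.1, i1.2, i2.1, i2.2⟩

theorem t_LIN2 (hLIN : LIN) : LIN2 := by
  intro G _ P A B C X hP fA fB h1 h2 hα hX hC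
  by_cases hc : Nat.card A = Nat.card B
  · obtain ⟨s, s1, s2⟩ := hLIN G P A B C X hP fA fB hc hα hX hC
    exact ⟨s, s1, fun x x' hx _ r _ => ⟨fun _ => s2 x hx r, .inl (s2 x hx r)⟩⟩
  have pA := Module.natCard_eq_pow_finrank (K := ZMod 2) (V := A)
  have pB := Module.natCard_eq_pow_finrank (K := ZMod 2) (V := B)
  rw [Nat.card_zmod] at pA pB
  have h3 : Nat.card A = 2 * Nat.card B ∨ Nat.card B = 2 * Nat.card A := by
    rw [pA, pB, ← pow_succ', Nat.pow_le_pow_iff_right one_lt_two] at h1 h2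
    rw [pA, pB, Nat.pow_right_inj one_lt_two] at hc
    rw [pA, pB, ← pow_succ', ← pow_succ', Nat.pow_right_inj one_lt_two,
      Nat.pow_right_inj one_lt_two]
    omega
  have cA : 0 < Nat.card A := Nat.card_pos
  have cB : 0 < Nat.card B := Nat.card_pos
  rcases h3 with h3 | h3
  · obtain ⟨a, ha, a0⟩ := A.exists_mem_ne_zero_of_ne_bot fun h0 => by
      have : Nat.card A = 1 := by rw [h0]; exact Nat.card_unique
      omega
    obtain ⟨g, -, hg⟩ := (hα a (.inl ha)).2 a0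
    have c1 := half A ha (one hg)
    obtain ⟨s, s1, s2⟩ := core hLIN hP fA fB hα hX hC (A ⊓ LinearMap.ker (LinearMap.proj g)) B
      inf_le_left le_rfl (by omega) g 0 fun x hx k => ⟨⟨((hX x).1 hx).1, k⟩, ((hX x).1 hx).2⟩
    exact ⟨s, s1, fun x x' hx hx' r r' => ⟨fun e => absurd e hc, s2 x x' hx hx' r r'⟩⟩
  · obtain ⟨a, ha, a0⟩ := B.exists_mem_ne_zero_of_ne_bot fun h0 => by
      have : Nat.card B = 1 := by rw [h0]; exact Nat.card_unique
      omega
    obtain ⟨g, -, hg⟩ := (hα a (.inr ha)).2 a0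
    have c1 := half B ha (one hg)
    obtain ⟨s, s1, s2⟩ := core hLIN hP fA fB hα hX hC A (B ⊓ LinearMap.ker (LinearMap.proj g))
      le_rfl inf_le_left (by omega) g 1 fun x hx k => ⟨((hX x).1 hx).1, ((hX x).1 hx).2, k⟩
    exact ⟨s, s1, fun x x' hx hx' r r' => ⟨fun e => absurd e hc, s2 x x' hx hx' r r'⟩⟩

end Pool.Agent.P.MP_8b7eba_nt.R2
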