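import Pool.Agent.P.MP_8b7eba_nt.R2.LC

/-! Proof of CTP, VAR. -/

namespace Pool.Agent.P.MP_8b7eba_nt.R2

open scoped NNReal Matrix

namespace TCTP

variable {S : LS} {l : ℕ} {δ δ' : Om} {x y : X2} {c c' : GQ → V2} {b : Pl → GQ → V2}

theorem w2 {a : ℚ_[2]} : ‖a‖ ≤ 2⁻¹ ↔ ∃ u : ℤ_[2], a = 2 * u := by
  have h2 : ‖(2 : ℚ_[2])‖ = 2⁻¹ := by simpa using Padic.norm_p (p := 2)
  constructor
  · intro h
    refine ⟨⟨a / 2, ?_⟩, by simp [mul_div_cancel₀]⟩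
    rw [norm_div, h2, div_le_one (by norm_num)]
    exact h
  · rintro ⟨u, rfl⟩
    rw [norm_mul, h2]
    exact mul_le_of_le_one_right (by norm_num) u.2

theorem w4 {a : ℚ_[2]} : ‖a‖ ≤ 4⁻¹ ↔ ∃ u : ℤ_[2], a = 4 * u := by
  have h2 : ‖(2 : ℚ_[2])‖ = 2⁻¹ := by simpa using Padic.norm_p (p := 2)
  have h4 : ‖(4 : ℚ_[2])‖ = 4⁻¹ := by
    rw [show (4 : ℚ_[2]) = 2 * 2 by norm_num, norm_mul, h2]; norm_num
  constructor
  · intro h
    refine ⟨⟨a / 4, ?_⟩, by simp [mul_div_cancel₀]⟩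
    rw [norm_div, h4, div_le_one (by norm_num)]
    exact h
  · rintro ⟨u, rfl⟩
    rw [norm_mul, h4]
    exact mul_le_of_le_one_right (by norm_num) u.2

theorem val_add (s t : ZMod 2) :
    ((s + t).val : ℚ_[2]) = s.val + t.val - 2 * s.val * t.val := by
  have : ((s + t).val : ℤ) = s.val + t.val - 2 * s.val * t.val := by revert s t; decide
  exact_mod_cast congrArg (Int.cast : ℤ → ℚ_[2]) this

theorem val_mul (s t : ZMod 2) : ((s * t).val : ℚ_[2]) = s.val * t.val := by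
  have : (s * t).val = s.val * t.val := by revert s t; decide
  rw [this, Nat.cast_mul]

theorem pow_val (s : ZMod 2) : (-1 : ℚ_[2]) ^ s.val = 1 - 2 * s.val := by
  have : (-1 : ℤ) ^ s.val = 1 - 2 * s.val := by revert s; decide
  exact_mod_cast congrArg (Int.cast : ℤ → ℚ_[2]) this

theorem sub_val {A A' : ℚ_[2]} {s t : ZMod 2} (h : ‖A - s.val‖ ≤ 2⁻¹) (h' : ‖A' - t.val‖ ≤ 2⁻¹) :
    ‖A - A' - (s + t).val‖ ≤ 2⁻¹ := by
  obtain ⟨u, hu⟩ := w2.1 h
  obtain ⟨v, hv⟩ := w2.1 h'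
  refine w2.2 ⟨u - v - t.val + s.val * t.val, ?_⟩
  rw [val_add]
  push_cast
  linear_combination hu - hv

theorem key {A A' B B' C C' : ℚ_[2]} {s s' t β γ : ZMod 2}
    (h : ‖A - B - (-1) ^ s.val * C‖ ≤ 4⁻¹) (h' : ‖A' - B' - (-1) ^ s'.val * C'‖ ≤ 4⁻¹)
    (e : ‖C' - t.val‖ ≤ 2⁻¹) (hb : ‖2⁻¹ * (B - B') - β.val‖ ≤ 2⁻¹)
    (hc : ‖2⁻¹ * (C - C') - γ.val‖ ≤ 2⁻¹) :
    ‖2⁻¹ * (A - A') - (β + γ + (s + s') * t).val‖ ≤ 2⁻¹ := by
  obtain ⟨a, ha⟩ := w4.1 h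
  obtain ⟨a', ha'⟩ := w4.1 h'
  obtain ⟨u, hu⟩ := w2.1 e
  obtain ⟨p, hp⟩ := w2.1 hb
  obtain ⟨q, hq⟩ := w2.1 hc
  rw [pow_val] at ha ha'
  refine w2.2 ⟨a - a' + p + q - s.val * (γ.val + 2 * q) + (s'.val - s.val) * u - s.val * t.val
    + s.val * s'.val * t.val + β.val * γ.val + (β.val + γ.val - 2 * β.val * γ.val) *
      ((s.val + s'.val - 2 * s.val * s'.val) * t.val), ?_⟩
  rw [val_add, val_add, val_mul, val_add]
  have e2 : ((2 : ℤ_[2]) : ℚ_[2]) = 2 := rfl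
  push_cast [e2]
  linear_combination 2⁻¹ * ha - 2⁻¹ * ha' + hp + (1 - 2 * s.val) * hq + (s'.val - s.val) * hu

theorem neg_add (s t : ZMod 2) : (-1 : Om) ^ (s + t).val = (-1) ^ s.val * (-1) ^ t.val :=
  congrFun₂ (sgn_add (fun _ _ => s) fun _ _ => t) 1 1

theorem neg_inj {s t : ZMod 2} (h : (-1 : Om) ^ s.val = (-1) ^ t.val) : s = t :=
  (sgn_inj (κ := fun _ _ => s) (κ' := fun _ _ => t) (g := 1) (h := 1)).1 h

theorem neg_sq (s : ZMod 2) : (-1 : Om) ^ s.val * (-1) ^ s.val = 1 := by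
  rw [← mul_pow]; simp

/-- the local terms -/
theorem terms (hA : CA) (hISO : ISO) (hl : S.Gl l δ) (h : S.Ld l δ x c b) :
    ∃ z : Pl → X2, (∀ w ∈ S.R, IsCh w.D (z w) ∧
      Lf w.D (z w) fun g => (2⁻¹ : ℚ_[2]) • (c g - b w g)) ∧
      ∀ y, S.GX y → S.pr c b y = ∏ w ∈ S.R, nv w w.D (sgn (d2 (z w) y)) := by
  have : ∀ w : Pl, ∃ z : X2, w ∈ S.R → IsCh w.D z ∧
      Lf w.D z fun g => (2⁻¹ : ℚ_[2]) • (c g - b w g) := fun w => by
    by_cases hw : w ∈ S.R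
    · obtain ⟨z, hz⟩ := (h.zc.mono le_top le_rfl).half
        (hISO _ w S.T δ _ _ hl.fix.1 (h.adm w hw).1 (h.adm w hw).1).1
        (fun g _ => h.lf g trivial) (h.adm w hw).2
      exact ⟨z, fun _ => hz⟩
    · exact ⟨0, fun h => absurd h hw⟩
  choose z hz using this
  refine ⟨z, hz, fun y hy => Finset.prod_congr rfl fun w hw => ?_⟩
  exact nv_congr hA (co2_d2 (hz w hw).1 hy.ch.1).sgnT fun g hg k _ =>
    pr_term hA.ec (hz w hw).2 y hg k

theorem pr_pm (hA : CA) (hISO : ISO) (hl : S.Gl l δ) (h : S.Ld l δ x c b) (hy : S.GX y) :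
    S.pr c b y * S.pr c b y = 1 := by
  obtain ⟨z, h1, h2⟩ := terms hA hISO hl h
  rw [h2 y hy, ← Finset.prod_mul_distrib]
  refine Finset.prod_eq_one fun w hw => ?_
  rcases (nv_sgn hA (co2_d2 (h1 w hw).1 hy.ch.1)).1 with e | e <;> rw [e] <;> norm_num

theorem pr_add (hA : CA) (hISO : ISO) (hl : S.Gl l δ) (h : S.Ld l δ x c b) (hy : S.GX y) {y' : X2}
    (hy' : S.GX y') (hs : S.GX (y + y')) : S.pr c b (y + y') = S.pr c b y * S.pr c b y' := by
  obtain ⟨z, h1, h2⟩ := terms hA hISO hl h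
  rw [h2 y hy, h2 y' hy', h2 _ hs, ← Finset.prod_mul_distrib]
  refine Finset.prod_congr rfl fun w hw => ?_
  rw [← (hA.inv w _ w.loc_D).mul _ _ (co2_d2 (h1 w hw).1 hy.ch.1).sgnT
    (co2_d2 (h1 w hw).1 hy'.ch.1).sgnT, ← sgn_add]
  congr 2
  funext g k
  simp only [d2, Pi.add_apply]
  ring

/-- half the difference of two lifts for two different twists -/
theorem exists_xi (hE : EC) {w : Pl} {T : Tate w} {m m' : ℤ} (hδ : δ ^ 2 = m) (hδ' : δ' ^ 2 = m')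
    (hm : m ≠ 0) (hm' : m' ≠ 0) (h : T.Zc δ ⊤ 2 c) (h' : T.Zc δ' ⊤ 2 c') (e : Lf ⊤ x c)
    (e' : Lf ⊤ x c') : ∃ ξ : X2, Sm ⊤ ξ ∧ (Lf ⊤ ξ fun g => (2⁻¹ : ℚ_[2]) • (c g - c' g)) ∧
      ∀ g k j, ξ (g * k) j = ξ g j + ξ k j + qz (m * m') g * x k j := by
  obtain ⟨r, r1, r2, -⟩ := exists_red
  have lf : Lf ⊤ (fun g j => r (2⁻¹ * (c g j - c' g j))) fun g => (2⁻¹ : ℚ_[2]) • (c g - c' g) :=
    fun g _ j => r1 _ (by
      obtain ⟨u, hu⟩ := w2.1 (e g trivial j)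
      obtain ⟨v, hv⟩ := w2.1 (e' g trivial j)
      exact (congrArg norm (show 2⁻¹ * (c g j - c' g j) = ((u - v : ℤ_[2]) : ℚ_[2]) by
        push_cast; linear_combination 2⁻¹ * hu - 2⁻¹ * hv)).trans_le (u - v).2)
  have f4 : ((2 : ℝ) ^ 2)⁻¹ = 4⁻¹ := by norm_num
  refine ⟨_, ?_, lf, fun g k j => r2 _ _ ?_⟩
  · obtain ⟨N, hN, a⟩ := h.sm
    obtain ⟨N', hN', a'⟩ := h'.sm
    refine ⟨_, hN.inf hN', fun g hg n hn o => funext fun j => r2 _ _ ?_⟩
    obtain ⟨u, hu⟩ := w4.1 ((norm_le_pi_norm _ j).trans ((a g hg n hn o.1).trans f4.le))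
    obtain ⟨v, hv⟩ := w4.1 ((norm_le_pi_norm _ j).trans ((a' g hg n hn o.2).trans f4.le))
    obtain ⟨p, hp⟩ := w2.1 (lf g hg j)
    simp only [Pi.sub_apply, Pi.smul_apply, smul_eq_mul] at hu hv hp
    refine w2.2 ⟨u - v + p, ?_⟩
    push_cast
    linear_combination 2⁻¹ * hu - 2⁻¹ * hv + hp
  · have k1 : ∀ {δ : Om} {m : ℤ} {c : GQ → V2}, δ ^ 2 = m → m ≠ 0 → T.Zc δ ⊤ 2 c →
        ‖c (g * k) j - c g j - (-1) ^ (![qz (-m) g, qz m g] j).val * c k j‖ ≤ 4⁻¹ := by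
      intro δ m c hδ hm h
      obtain ⟨u, hu⟩ := w4.1 ((norm_le_pi_norm _ j).trans ((h.co g trivial k trivial).trans f4.le))
      obtain ⟨v, hv⟩ := w4.1 ((norm_le_pi_norm _ j).trans ((T.rd_four hE hδ hm g (c k)).trans
        (mul_le_of_le_one_right (by norm_num) (h.int k trivial))))
      refine w4.2 ⟨u + v, ?_⟩
      push_cast
      rw [mul_add, ← hu, ← hv]
      fin_cases j <;> simp
    have k2 : ![qz (-m) g, qz m g] j + ![qz (-m') g, qz m' g] j = qz (m * m') g := by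
      have e1 := congrFun (qz_mul hm hm') g
      have e2 := congrFun (qz_mul (neg_ne_zero.2 hm) (neg_ne_zero.2 hm')) g
      rw [neg_mul_neg] at e2
      fin_cases j
      · exact e2.symm
      · exact e1.symm
    rw [← k2]
    exact key (k1 hδ hm h) (k1 hδ' hm' h') (e' k trivial j) (lf g trivial j) (lf k trivial j)

theorem sep_insert {R : Finset Pl} {w : Pl} [DecidableEq Pl] (h : Sep ⊤ R)
    (hw : ∀ v ∈ R, v.p ≠ w.p) : Sep ⊤ (insert w R : Finset Pl) := by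
  intro v hv u hu huv
  simp only [Finset.coe_insert, Set.mem_insert_iff, Finset.mem_coe] at hv huv
  rcases hv with rfl | hv <;> rcases huv with e | e
  · exact e
  · exact absurd rfl (hw (u • v) e)
  · exact absurd (congrArg Pl.p e) (hw v hv)
  · exact h v hv u hu e

theorem out_insert (hP : PL) {R : Finset Pl} {w v : Pl} [DecidableEq Pl]
    (h : Out ⊤ (insert w R : Finset Pl) v) : Out ⊤ R v ∧ v.p ≠ w.p := by
  refine ⟨h.mono (by simp), fun e => ?_⟩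
  obtain ⟨σ, hσ⟩ := hP.2.1 v w e
  exact h σ trivial (by simp [hσ])

end TCTP

open TCTP

theorem t_CTP (hF : CF) (hISO : ISO) (hSUF : SUF) (hGLIFT : GLIFT) (hSYMM : SYMM) : CTP := by
  classical
  intro S l δ hl
  have hA := hF.toCB.toCA
  have : ∀ x : X2, ∃ c b, S.GX x → S.Ld l δ x c b := fun x => by
    by_cases hx : S.GX x
    · have : ∀ w : Pl, ∃ b, w ∈ S.R → S.T.Adm δ w b ∧ Lf w.D x b := fun w => by
        by_cases hw : w ∈ S.R
        · exact (hSUF S l δ hl x hx w hw).imp fun _ h _ => h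
        · exact ⟨0, fun h => absurd h hw⟩
      choose b hb using this
      obtain ⟨c, hc⟩ := hGLIFT S l δ hl x b hx hb
      exact ⟨c, b, fun _ => hc⟩
    · exact ⟨0, 0, fun h => absurd h hx⟩
  choose c b h using this
  have v : ∀ x y, S.GX x → S.GX y → S.pr (c x) (b x) y =
      (-1) ^ (if S.pr (c x) (b x) y = 1 then 0 else 1 : ZMod 2).val := fun x y hx hy => by
    split_ifs with e
    · simpa using e
    · simpa [ZMod.val_one] using (mul_self_eq_one_iff.1 (pr_pm hA hISO hl (h x hx) hy)).resolve_left e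
  refine ⟨fun x y => if S.pr (c x) (b x) y = 1 then 0 else 1, fun x y hx hy => ⟨?_, ?_, ?_⟩⟩
  · simp only [hSYMM S l δ hl x y _ _ _ _ hx hy (h x hx) (h y hy)]
  · intro y' hy' hs
    refine neg_inj ?_
    rw [TCTP.neg_add, ← v x y hx hy, ← v x y' hx hy', ← v x _ hx hs,
      pr_add hA hISO hl (h x hx) hy hy' hs]
  · intro c' b' h'
    rw [← v x y hx hy, hSYMM S l δ hl x y _ _ _ _ hx hy h' (h y hy),
      hSYMM S l δ hl x y _ _ _ _ hx hy (h x hx) (h y hy)]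

theorem t_VAR (hF : CF) (hISO : ISO) : VAR := by
  classical
  intro S l l' δ δ' hl hl' hne
  have hA := hF.toCB.toCA
  refine ⟨fun w hw b hb => ?_, ?_⟩
  · have e : ∀ g ∈ w.D, S.T.rd δ' g = S.T.rd δ g := fun g hg => by
      simp only [Tate.rd, (hl.loc hA (S.dvd hw) hg).2.2.2, (hl'.loc hA (S.dvd hw) hg).2.2.2]
    have e' : ∀ u, ∀ g ∈ w.D, S.T.bd δ' u g = S.T.bd δ u g := fun u g hg => by
      simp only [Tate.bd, e g hg]
    refine ⟨fun h => (hb.1 h).imp fun u hu g hg => e' u g hg ▸ hu g hg, fun h => ?_⟩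
    obtain ⟨u, c, h1, h2, h3⟩ := hb.2 h
    subst h
    exact ⟨u, c, h1, ⟨h2.sm, h2.int, fun g hg k hk => e g hg ▸ h2.co g hg k hk⟩,
      fun g hg => e' u g hg ▸ h3 g hg⟩
  intro x y c c' b θ hx hy h h' hθ hI w w' φ φ' hw hw' hφ hφ'
  have l0 : (l : ℤ) ≠ 0 := by exact_mod_cast hl.lp.ne_zero
  have l0' : (l' : ℤ) ≠ 0 := by exact_mod_cast hl'.lp.ne_zero
  have d0 := S.d_ne.1
  obtain ⟨ξ, x1, x2, x3⟩ := exists_xi hA.ec hl.hd hl'.hd (mul_ne_zero (neg_ne_zero.2 l0) d0)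
    (mul_ne_zero (neg_ne_zero.2 l0') d0) h.zc h'.zc h.lf h'.lf
  have eψ : qz (-l * S.d * (-l' * S.d)) = qz (l * l') := by
    rw [show -(l : ℤ) * S.d * (-l' * S.d) = l * l' * S.d ^ 2 by ring,
      qz_mul (mul_ne_zero l0 l0') (pow_ne_zero _ d0), qz_sq, add_zero]
  rw [eψ] at x3
  have cψ : IsCh ⊤ (qz (l * l')) := isCh_qz _
  have cy : IsCh ⊤ y := hy.ch.1
  have y3 : ∀ g k j, y (g * k) j = y g j + y k j := fun g k j =>
    congrFun (cy.2 g trivial k trivial) j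
  have t3 : ∀ g k, θ (g * k) = θ g + θ k + d2 x y g k := fun g k => hθ.2 g trivial k trivial
  have p3 : ∀ g k, qz (l * l') (g * k) = qz (l * l') g + qz (l * l') k := fun g k =>
    cψ.2 g trivial k trivial
  set γ : GQ → GQ → ZMod 2 := fun g k => d2 ξ y g k + qz (l * l') g * θ k with hγ
  have co : Co2 ⊤ (sgn γ) := co2_sgn.2 ⟨((x1.fst.comp₂ cy.1.snd fun a b => a 0 * b 1 + a 1 * b 0).comp₂
    (cψ.1.fst.comp₂ hθ.1.snd (· * ·)) (· + ·)), fun g _ k _ n _ => by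
      simp only [hγ, d2, x3, y3, t3, p3]; ring⟩
  have n1 : ∀ v ∈ S.R, v.p ≠ l := fun v hv e => hl.fix.2.2.2.2 (e ▸ S.dvd hv)
  have n2 : ∀ v ∈ S.R, v.p ≠ l' := fun v hv e => hl'.fix.2.2.2.2 (e ▸ S.dvd hv)
  have n3 : ∀ v ∈ insert w' S.R, v.p ≠ w.p := fun v hv => by
    rcases Finset.mem_insert.1 hv with rfl | hv
    · rw [hw, hw']; exact hne.symm
    · rw [hw]; exact n1 v hv
  have rq := hA.recq (sgn γ) (insert w (insert w' S.R)) co.sgnT
    (sep_insert (sep_insert S.sep (hw' ▸ n2)) n3) fun v hv => by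
      obtain ⟨o1, o2⟩ := out_insert hA.pl hv
      obtain ⟨o3, o4⟩ := out_insert hA.pl o1
      rw [S.out] at o3
      have pr : Prime (v.p : ℤ) := Nat.prime_iff_prime_int.1 v.prime
      have q1 : ¬ (v.p : ℤ) ∣ l := fun e => o2 (hw ▸ (Nat.prime_dvd_prime_iff_eq v.prime hl.lp).1
        (Int.natCast_dvd_natCast.1 e))
      have q2 : ¬ (v.p : ℤ) ∣ l' := fun e => o4 (hw' ▸ (Nat.prime_dvd_prime_iff_eq v.prime hl'.lp).1
        (Int.natCast_dvd_natCast.1 e))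
      have q3 : ¬ (v.p : ℤ) ∣ 6 * S.d := fun e => o3 (e.trans ⟨5, by ring⟩)
      have q4 : ¬ (v.p : ℤ) ∣ 2 * (l * l') := fun e => (pr.dvd_or_dvd e).elim
        (fun e => o3 (e.trans ⟨15 * S.d, by ring⟩)) fun e => (pr.dvd_or_dvd e).elim q1 q2
      refine hA.unr v _ v.loc_D 1 _ (co.mono le_top) (fun g _ k _ => congrFun₂ (sgn_sq γ) g k)
        fun g _ k _ i hi => ?_
      have i1 : x i = 0 := hx.unr hA q3 hi.1
      have i2 : y i = 0 := hy.unr hA q3 hi.1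
      have i3 : θ i = 0 := hI v o3 i hi.1
      have i4 : qz (l * l') i = 0 := qz_I hA q4 hi.1
      have i5 : ∀ j, ξ i j = 0 := fun j => (x2.zero_iff trivial j).2 (by
        obtain ⟨u, hu⟩ := w4.1 ((norm_le_pi_norm _ j).trans
          (h.unr v (fun e => (pr.dvd_or_dvd e).elim o3 q1) i hi.1))
        obtain ⟨u', hu'⟩ := w4.1 ((norm_le_pi_norm _ j).trans
          (h'.unr v (fun e => (pr.dvd_or_dvd e).elim o3 q2) i hi.1))
        refine w2.2 ⟨u - u', ?_⟩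
        simp only [Pi.sub_apply, Pi.smul_apply, smul_eq_mul, hu, hu']
        push_cast
        ring)
      refine ⟨?_, ?_, by simp [sgn]⟩ <;>
        simp [sgn, hγ, d2, x3, y3, t3, p3, i1, i2, i3, i4, i5]
  have rt0 : nvR (sgn γ) = 1 := if_pos (Triv.one.congr fun g hg k hk => by
    have e1 : qz (l * l') g = 0 := (qz_eq_zero (rt_sq _)).2
      ((Subgroup.zpowers_le (H := MulAction.stabilizer GQ (rt (l * l')))).2
        ((qz_eq_zero (rt_sq _)).1 ((qz_tau hA.tau (mul_ne_zero l0 l0')).2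
          (by have := hl.lp.pos; have := hl'.lp.pos; positivity))) hg)
    simp [sgn, hγ, d2, e1, hy.tau hA hk])
  have ram : ∀ {l l' : ℕ} {δ δ' : Om} {w : Pl} {φ : GQ}, S.Gl l δ → S.Gl l' δ' → l ≠ l' → w.p = l →
      w.IsFrob 1 φ → nv w w.D (sgn fun g k => d2 ξ y g k + qz (l * l') g * θ k) =
        (-1) ^ (θ φ).val := by
    intro l l' δ δ' w φ hl hl' hne hw hφ
    have cθ : IsCh w.D θ := ⟨hθ.1.mono le_top, fun g _ k hk => by
      simp [t3, d2, hy.at hA hl hw hk]⟩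
    rw [← nv_ram hF.toCB (m := l') (fun e => by have := hl.l16; omega) (fun e => hne
      (hw ▸ (Nat.prime_dvd_prime_iff_eq w.prime hl'.lp).1 (Int.natCast_dvd_natCast.1 e))) cθ
      (hI w (hw ▸ hl.fix.2.2.2.2)) hφ]
    exact nv_congr hA (co2_cup (isCh_qz _) cθ).sgnT fun g _ k hk => sgn_inj.2 (by
      simp [d2, hy.at hA hl hw hk, hw])
  obtain ⟨z, z1, z2⟩ := terms hA hISO hl h
  obtain ⟨z', z1', z2'⟩ := terms hA hISO hl' h'
  have loc : ∏ v ∈ S.R, nv v v.D (sgn γ) = S.pr c b y * S.pr c' b y := by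
    rw [z2 y hy, z2' y hy, ← Finset.prod_mul_distrib]
    refine Finset.prod_congr rfl fun v hv => ?_
    have c1 := (co2_d2 (z1 v hv).1 hy.ch.1).sgnT
    have c2 := (co2_d2 (z1' v hv).1 hy.ch.1).sgnT
    rw [← (hA.inv v _ v.loc_D).mul _ _ c1 c2]
    refine nv_congr hA (c1.mul c2) fun g hg k _ => ?_
    have e1 : qz (l * l') g = 0 := by
      rw [← neg_mul_neg, qz_mul (neg_ne_zero.2 l0) (neg_ne_zero.2 l0'), Pi.add_apply,
        (hl.loc hA (S.dvd hv) hg).1, (hl'.loc hA (S.dvd hv) hg).1, add_zero]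
    have e2 : ξ g = (z v + z' v) g := Lf.unique (H := v.D) (fun g _ => x2 g trivial)
      (fun g hg j => by
        have := sub_val ((z1 v hv).2 g hg j) ((z1' v hv).2 g hg j)
        simp only [Pi.sub_apply, Pi.smul_apply, smul_eq_mul, Pi.add_apply] at this ⊢
        convert this using 3
        ring) hg
    rw [← sgn_add]
    refine sgn_inj.2 ?_
    simp only [hγ, d2, e1, e2, Pi.add_apply]
    ring
  rw [Finset.prod_insert fun e => n3 w e rfl, Finset.prod_insert fun e => n2 w' e hw', rt0, loc,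
    ram hl hl' hne hw hφ, hγ, mul_comm (l : ℤ), ram hl' hl hne.symm hw' hφ'] at rq
  rw [TCTP.neg_add]
  have s1 := TCTP.neg_sq (θ φ)
  have s2 := TCTP.neg_sq (θ φ')
  have s3 := pr_pm hA hISO hl' h' hy
  linear_combination S.pr c' b y * ((-1) ^ (θ φ).val * (-1) ^ (θ φ').val) * rq
    - S.pr c b y * ((-1) ^ (θ φ').val * (-1) ^ (θ φ').val * (S.pr c' b y * S.pr c' b y)) * s1
    - S.pr c b y * (S.pr c' b y * S.pr c' b y) * s2 - S.pr c b y * s3

end Pool.Agent.P.MP_8b7eba_nt.R2
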