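import Pool.Agent.P.MP_8b7eba_nt.R2.LC

/-! Proof of ISO, SYMM. -/

namespace Pool.Agent.P.MP_8b7eba_nt.R2

open scoped NNReal Matrix

namespace TISO

variable {H : Subgroup GQ} {w : Pl} {T : Tate w} {δ : Om} {a b b' c c' : GQ → V2} {g h : GQ}

theorem four : ‖(4 : ℚ_[2])‖ = 4⁻¹ := by
  rw [show (4 : ℚ_[2]) = 2 * 2 by norm_num, norm_mul, SelA.two]; norm_num

theorem div4 {x : ℚ_[2]} (h : ‖x‖ ≤ 4⁻¹) : ‖x / 4‖ ≤ 1 := by
  rw [norm_div, four, div_le_one (by norm_num)]; exact h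

theorem ec4 (hE : EC) {x y : ℚ_[2]} (h : ‖x - y‖ ≤ 4⁻¹) : ec (x / 4) = ec (y / 4) :=
  ec_congr hE (by rw [← sub_div]; exact div4 h)

theorem sub {E : Type} [NormedAddCommGroup E] [IsUltrametricDist E] {x y : E} {ε : ℝ}
    (hx : ‖x‖ ≤ ε) (hy : ‖y‖ ≤ ε) : ‖x - y‖ ≤ ε := by
  rw [sub_eq_add_neg]; exact SelA.add hx (by rwa [norm_neg])

theorem dtle {u v : V2} {r s t : ℝ} (hu : ‖u‖ ≤ r) (hv : ‖v‖ ≤ s) (h : r * s ≤ t) :
    ‖dt u v‖ ≤ t :=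
  (dt_norm u v).trans ((mul_le_mul hu hv (norm_nonneg _) ((norm_nonneg _).trans hu)).trans h)

theorem rdle {v : V2} {r : ℝ} (hv : ‖v‖ ≤ r) : ‖T.rd δ g *ᵥ v‖ ≤ r := (T.rd_norm δ g v).1.trans hv

theorem ec_ne (hE : EC) (x : ℚ_[2]) : ec x ≠ 0 := fun h => by
  have := hE.1.add x (-x)
  rw [add_neg_cancel, h, zero_mul, (hE.1.eq_one 0).2 (by simp)] at this
  exact one_ne_zero this

theorem triv (hE : EC) {Φ : GQ → GQ → ℚ_[2]} (f : GQ → ℚ_[2])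
    (hs : ∃ N, ON N ∧ ∀ g ∈ H, ∀ n ∈ H, n ∈ N → ‖f (g * n) - f g‖ ≤ 4⁻¹)
    (hc : ∀ g ∈ H, ∀ h ∈ H, ‖Φ g h - (cq g * f h - f (g * h) + f g)‖ ≤ 4⁻¹) :
    Triv H fun g h => ec (Φ g h / 4) := by
  obtain ⟨N, hN, hs⟩ := hs
  refine ⟨fun g => ec (f g / 4), ⟨N, hN, fun g hg n hn m => ec4 hE (hs g hg n hn m)⟩,
    fun g _ => ec_ne hE _, fun g hg h hh => ?_⟩
  beta_reduce
  rw [ec4 hE (hc g hg h hh), hE.1.gal, ← hE.1.add, ← hE.1.add]
  congr 1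
  simp only [cq]
  ring

theorem trivA (hE : EC) {i : ℕ} {u : V2} (hc : T.Zc δ H i c) (hu : ‖u‖ * (2 ^ i)⁻¹ ≤ 4⁻¹) :
    Triv H (T.wp δ (T.bd δ u) c) := by
  refine triv hE (fun g => dt u (c g)) ?_ fun g hg h hh => ?_
  · obtain ⟨N, hN, e⟩ := hc.sm
    exact ⟨N, hN, fun g hg n hn m => by
      rw [← dt_sub_right]; exact dtle le_rfl (e g hg n hn m) hu⟩
  · have : dt (T.bd δ u g) (T.rd δ g *ᵥ c h) - (cq g * dt u (c h) - dt u (c (g * h)) + dt u (c g)) =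
        dt u (c (g * h) - c g - T.rd δ g *ᵥ c h) := by
      rw [Tate.bd, dt_sub_left, T.dt_rd, dt_sub_right, dt_sub_right]; ring
    rw [this]
    exact dtle le_rfl (hc.co g hg h hh) hu

theorem bdle {u : V2} (hu : ‖u‖ ≤ 2) (g : GQ) : ‖T.bd δ u g‖ ≤ 1 :=
  (T.rd_norm δ g u).2.trans (by linarith)

theorem trivB (hE : EC) (hδ : Fix ⊤ (δ ^ 2)) {u : V2} (ha : T.Zc δ H 3 a) (hu : ‖u‖ ≤ 2) :
    Triv H (T.wp δ a (T.bd δ u)) := by
  refine triv hE (fun g => -dt (a g) (T.rd δ g *ᵥ u)) ?_ fun g hg h hh => ?_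
  · obtain ⟨N, hN, e⟩ := ha.sm
    obtain ⟨N', hN', e'⟩ := (T.zc_bd (H := H) hδ (fun g _ => bdle hu g) 2).sm
    refine ⟨_, hN.inf hN', fun g hg n hn m => ?_⟩
    have : -dt (a (g * n)) (T.rd δ (g * n) *ᵥ u) - -dt (a g) (T.rd δ g *ᵥ u) =
        -(dt (a (g * n) - a g) (T.rd δ (g * n) *ᵥ u) + dt (a g) (T.bd δ u (g * n) - T.bd δ u g)) := by
      simp only [Tate.bd, dt_sub_left, dt_sub_right]; ring
    rw [this, norm_neg]
    exact SelA.add (dtle (e g hg n hn m.1) (rdle hu) (by norm_num))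
      (dtle (ha.int g hg) (e' g hg n hn m.2) (by norm_num))
  · have : dt (a g) (T.rd δ g *ᵥ T.bd δ u h) - (cq g * -dt (a h) (T.rd δ h *ᵥ u) -
        -dt (a (g * h)) (T.rd δ (g * h) *ᵥ u) + -dt (a g) (T.rd δ g *ᵥ u)) =
        -dt (a (g * h) - a g - T.rd δ g *ᵥ a h) (T.rd δ (g * h) *ᵥ u) := by
      rw [dt_sub_left, dt_sub_left, Tate.bd, Matrix.mulVec_sub, dt_sub_right, T.rd_mul hδ,
        ← Matrix.mulVec_mulVec, T.dt_rd]
      ring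
    rw [this, norm_neg]
    exact dtle (ha.co g hg h hh) (rdle hu) (by norm_num)

theorem wp_congr (hE : EC) (h1 : ‖b g - c g‖ ≤ 4⁻¹) (h2 : ‖b' h - c' h‖ ≤ 4⁻¹) (h3 : ‖c g‖ ≤ 1)
    (h4 : ‖b' h‖ ≤ 1) {g' h' : GQ} (hr : T.rd δ g' = T.rd δ g) (e1 : ‖a g' - b g‖ ≤ 0)
    {a' : GQ → V2} (e2 : a' h' = b' h) : T.wp δ a a' g' h' = T.wp δ c c' g h := by
  have e1 : a g' = b g := sub_eq_zero.1 (norm_le_zero_iff.1 e1)
  refine ec4 hE ?_
  have : dt (a g') (T.rd δ g' *ᵥ a' h') - dt (c g) (T.rd δ g *ᵥ c' h) =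
      dt (b g - c g) (T.rd δ g *ᵥ b' h) + dt (c g) (T.rd δ g *ᵥ (b' h - c' h)) := by
    rw [e1, e2, hr, Matrix.mulVec_sub, dt_sub_left, dt_sub_right]; ring
  rw [this]
  exact SelA.add (dtle h1 (rdle h4) (by norm_num)) (dtle h3 (rdle h2) (by norm_num))

theorem wp_congr' (hE : EC) (h1 : ‖b g - c g‖ ≤ 4⁻¹) (h2 : ‖b' h - c' h‖ ≤ 4⁻¹) (h3 : ‖c g‖ ≤ 1)
    (h4 : ‖c' h‖ ≤ 1) : T.wp δ b b' g h = T.wp δ c c' g h :=
  wp_congr hE h1 h2 h3 (by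
    rw [← sub_add_cancel (b' h) (c' h)]; exact SelA.add (h2.trans (by norm_num)) h4) rfl
    (by simp) rfl

theorem up {u v : V2} (hg : g ∈ w.D) (hu : ‖u‖ ≤ 1) (hv : ‖v‖ ≤ 1) (h1 : ‖u 1‖ ≤ 8⁻¹)
    (h2 : ‖v 1‖ ≤ 8⁻¹) : ‖dt u (T.rd δ g *ᵥ v)‖ ≤ 4⁻¹ := by
  have e : (T.rd δ g *ᵥ v) 1 = (T.rd δ g *ᵥ ![0, v 1]) 1 := by
    simp [Matrix.mulVec, dotProduct, Fin.sum_univ_two, Tate.rd, T.up g hg]
  have e1 : ‖(T.rd δ g *ᵥ v) 1‖ ≤ 8⁻¹ := by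
    rw [e]
    refine (norm_le_pi_norm _ 1).trans (rdle ((pi_norm_le_iff_of_nonneg (by norm_num)).2 ?_))
    intro j
    fin_cases j
    · simp
    · simpa using h2
  have e2 : ‖(T.rd δ g *ᵥ v) 0‖ ≤ 1 := (norm_le_pi_norm _ 0).trans (rdle hv)
  have e3 : ‖u 0‖ ≤ 1 := (norm_le_pi_norm _ 0).trans hu
  refine sub ?_ ?_ <;> rw [norm_mul]
  · nlinarith [norm_nonneg (u 0), norm_nonneg ((T.rd δ g *ᵥ v) 1)]
  · nlinarith [norm_nonneg (u 1), norm_nonneg ((T.rd δ g *ᵥ v) 0)]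

theorem wp_one (hE : EC) {x y : X2} (e : Lf ⊤ x c) (e' : Lf ⊤ y c') (hx : x g = 0) (hy : y h = 0) :
    T.wp δ c c' g h = 1 := by
  have k : ∀ {x : X2} {c : GQ → V2} {g : GQ}, Lf ⊤ x c → x g = 0 → ‖c g‖ ≤ 2⁻¹ :=
    fun e hx => (pi_norm_le_iff_of_nonneg (by norm_num)).2 fun j =>
      (e.zero_iff trivial j).1 (by rw [hx]; rfl)
  exact (hE.1.eq_one _).2 (div4 (dtle (k e hx) (rdle (k e' hy)) (by norm_num)))

theorem lf_rd {v : V2} {s : Fin 2 → ZMod 2} (hv : ∀ j, ‖v j - (s j).val‖ ≤ 2⁻¹) (j : Fin 2) :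
    ‖(T.rd δ g *ᵥ v) j - (s j).val‖ ≤ 2⁻¹ := by
  have h1 : ‖v‖ ≤ 1 := (pi_norm_le_iff_of_nonneg zero_le_one).2 fun j => by
    rw [← sub_add_cancel (v j) (s j).val]
    exact SelA.add ((hv j).trans (by norm_num)) (IsUltrametricDist.norm_natCast_le_one _ _)
  rw [← sub_add_sub_cancel _ (v j)]
  refine SelA.add ((norm_le_pi_norm (T.rd δ g *ᵥ v - v) j).trans ?_) (hv j)
  exact (T.rd_norm δ g v).2.trans (by linarith)

theorem split (hE : EC) {x y z z' : X2} (hg : g ∈ H) (hh : h ∈ H) (e : Lf H x b) (e' : Lf H y c')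
    (hz : Lf H z fun g => (2⁻¹ : ℚ_[2]) • (c g - b g))
    (hz' : Lf H z' fun g => (2⁻¹ : ℚ_[2]) • (c' g - b' g)) :
    T.wp δ c c' g h = (T.wp δ b b' * sgn (d2 z y) * sgn (d2 x z')) g h := by
  have h1 := ec_dt hE (hz g hg) (lf_rd (T := T) (δ := δ) (g := g) (e' h hh))
  have h2 := ec_dt hE (e g hg) (lf_rd (T := T) (δ := δ) (g := g) (hz' h hh))
  simp only [Pi.mul_apply, Tate.wp, sgn, d2]
  rw [← h1, ← h2, ← hE.1.add, ← hE.1.add]
  congr 1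
  simp only [Matrix.mulVec_smul, Matrix.mulVec_sub, dt, Pi.smul_apply, Pi.sub_apply, smul_eq_mul]
  ring

end TISO

open TISO

theorem t_ISO (hA : CA) : ISO := by
  intro w w' T δ b b' hδ hb hb'
  have hE := hA.ec
  have q : (4 : ℝ)⁻¹ = (2 ^ 2)⁻¹ := by norm_num
  by_cases hw : w' = w
  · subst hw
    obtain ⟨u, c, hu, hc, e⟩ := hb.2 rfl
    obtain ⟨u', c', hu', hc', e'⟩ := hb'.2 rfl
    refine ⟨(hc.mono le_rfl (by norm_num)).congr fun g hg => q ▸ (e g hg).1, ?_⟩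
    have ha := hc.sub (T.zc_bd hδ (fun g _ => bdle hu g) 3)
    have ha' := hc'.sub (T.zc_bd hδ (fun g _ => bdle hu' g) 3)
    refine ((trivA hE (u := u) hc' (by linarith)).mul (trivB hE hδ ha hu')).congr
      fun g hg h hh => ?_
    rw [wp_congr' hE (e g hg).1 (e' h hh).1 (hc.int g hg) (hc'.int h hh)]
    simp only [Pi.mul_apply, Tate.wp]
    rw [← hE.1.add, ← add_div]
    refine ec4 hE ?_
    have : dt (c g) (T.rd δ g *ᵥ c' h) - (dt (T.bd δ u g) (T.rd δ g *ᵥ c' h) +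
        dt ((c - T.bd δ u) g) (T.rd δ g *ᵥ T.bd δ u' h)) =
        dt (c g - T.bd δ u g) (T.rd δ g *ᵥ (c' h - T.bd δ u' h)) := by
      simp only [Pi.sub_apply, Matrix.mulVec_sub, dt_sub_left, dt_sub_right]; ring
    rw [this]
    exact up hg (ha.int g hg) (ha'.int h hh) (e g hg).2 (e' h hh).2
  · obtain ⟨u, e⟩ := hb.1 hw
    obtain ⟨u', e'⟩ := hb'.1 hw
    refine ⟨(T.zc_bd hδ (fun g hg => (e g hg).1) 2).congr fun g hg => q ▸ (e g hg).2, ?_⟩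
    obtain ⟨i, hi⟩ := pow_unbounded_of_one_lt (4 * ‖u‖) (one_lt_two (α := ℝ))
    refine (trivA hE (u := u) (T.zc_bd hδ (fun g hg => (e' g hg).1) i) ?_).congr
      fun g hg h hh => wp_congr' hE (e g hg).2 (e' h hh).2 (e g hg).1 (e' h hh).1
    rw [← div_eq_mul_inv, div_le_iff₀ (by positivity)]
    linarith

theorem t_SYMM (hF : CF) (hISO : ISO) : SYMM := by
  intro S l δ hl x y c c' b b' hx hy hc hc'
  have hA := hF.toCA
  have hE := hA.ec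
  have hδ := hl.fix.1
  have q : (4 : ℝ)⁻¹ = (2 ^ 2)⁻¹ := by norm_num
  have hco := Tate.co2_wp hE hδ hc.zc hc'.zc
  have h1 := hA.recq _ S.R hco S.sep fun w hw => by
    have hw := (S.out w).1 hw
    by_cases hp : w.p = l
    · exact Triv.one.congr fun g hg h hh =>
        wp_one hE hc.lf hc'.lf (hx.at hA hl hp hg) (hy.at hA hl hp hh)
    have pp : Prime (w.p : ℤ) := Nat.prime_iff_prime_int.1 w.prime
    have hl' : ¬ (w.p : ℤ) ∣ l := fun h =>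
      hp ((Nat.prime_dvd_prime_iff_eq w.prime hl.lp).1 (Int.natCast_dvd_natCast.1 h))
    have h30 : ¬ w.p ∣ 30 := fun h => hw ((Int.natCast_dvd_natCast.2 h).mul_right _)
    have h2 : w.p ≠ 2 := fun h => h30 (by rw [h]; norm_num)
    have hw' : ¬ (w.p : ℤ) ∣ 30 * S.d * l := fun h => (pp.dvd_or_dvd h).elim hw hl'
    have hm : ¬ (w.p : ℤ) ∣ -l * S.d := fun h =>
      (pp.dvd_or_dvd h).elim (fun h => hl' (dvd_neg.1 h)) fun h => hw (h.mul_left _)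
    have k : ∀ {c : GQ → V2}, S.T.Zc δ ⊤ 2 c → ∀ g i, ‖c i‖ ≤ 4⁻¹ → ‖c (g * i) - c g‖ ≤ 4⁻¹ :=
      fun {c} hc g i hi => by
        rw [← sub_add_cancel (c (g * i) - c g) (S.T.rd δ g *ᵥ c i)]
        exact SelA.add (q ▸ hc.co g trivial i trivial) (rdle hi)
    refine hA.unr w w.D w.loc_D 2 _ (hco.1.mono le_top) (fun g _ h _ => ?_) fun g _ h _ i hi => ?_
    · have := (hE.1.eq_one _).2 (dtle (hc.zc.int g trivial)
        (rdle (T := S.T) (δ := δ) (g := g) (hc'.zc.int h trivial)) (one_mul 1).le)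
      rw [← this, Tate.wp, show 2 ^ 2 = 1 + 1 + 1 + 1 from rfl]
      simp only [pow_succ, pow_zero, one_mul, ← hE.1.add]
      congr 1
      ring
    · have hr : S.T.rd δ (g * i) = S.T.rd δ g := by
        have : S.T.rd δ i = 1 := by
          rw [Tate.rd, (hF.tr _ S.T w h30).1 i hi.1, sd,
            if_pos (Pl.I_fix hA.tame hA.res h2 hl.hd hm hi.1)]
          simp
        rw [S.T.rd_mul hδ, this, mul_one]
      refine ⟨wp_congr (b := fun _ => c (g * i)) (b' := c') hE (k hc.zc g i (hc.unr w hw' i hi.1))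
        (by simp) (hc.zc.int g trivial) (hc'.zc.int h trivial) hr (by simp) rfl,
        wp_congr (b := c) (b' := fun _ => c' (h * i)) hE (by simp)
        (k hc'.zc h i (hc'.unr w hw' i hi.1)) (hc.zc.int g trivial) (hc'.zc.int _ trivial) rfl
        (by simp) rfl, ?_⟩
      rw [Tate.wp, hE.1.gal, hE.2.2.2.2.2.2.1 w h2 i hi.1]
      simp
  rw [nvR, if_pos (Triv.one.congr fun g hg h hh =>
    wp_one hE hc.lf hc'.lf (hx.tau hA hg) (hy.tau hA hh)), one_mul] at h1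
  have key : ∀ w ∈ S.R, nv w w.D (S.T.wp δ c c') =
      (nv w w.D fun g h => ec (dt (c g - b w g) (fun i => ((y h i).val : ℚ_[2])) / 4)) *
      (nv w w.D fun g h => ec (dt (c' g - b' w g) (fun i => ((x h i).val : ℚ_[2])) / 4)) ∧
      (nv w w.D fun g h => ec (dt (c' g - b' w g) (fun i => ((x h i).val : ℚ_[2])) / 4)) ^ 2 = 1 := by
    intro w hw
    obtain ⟨a1, a2⟩ := hc.adm w hw
    obtain ⟨a1', a2'⟩ := hc'.adm w hw
    obtain ⟨zb, tb⟩ := hISO _ w S.T δ _ _ hδ a1 a1'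
    have zb' := (hISO _ w S.T δ _ _ hδ a1' a1).1
    have lf : Lf w.D x c := fun g _ => hc.lf g trivial
    have lf' : Lf w.D y c' := fun g _ => hc'.lf g trivial
    obtain ⟨z, cz, hz⟩ := (hc.zc.mono le_top le_rfl).half zb lf a2
    obtain ⟨z', cz', hz'⟩ := (hc'.zc.mono le_top le_rfl).half zb' lf' a2'
    have c1 := co2_d2 cz (hy.ch (H := w.D)).1
    have c2 := co2_d2 (hx.ch (H := w.D)).1 cz'
    have c3 := co2_d2 cz' (hx.ch (H := w.D)).1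
    have iv := hA.inv w w.D w.loc_D
    rw [nv_congr hA c1.sgnT fun g hg h _ => pr_term hE hz y hg h,
      nv_congr hA c3.sgnT fun g hg h _ => pr_term hE hz' x hg h,
      nv_congr hA ((tb.co2T.mul c1.sgnT).mul c2.sgnT)
        fun g hg h hh => split hE hg hh a2 lf' hz hz',
      iv.mul _ _ (tb.co2T.mul c1.sgnT) c2.sgnT, iv.mul _ _ tb.co2T c1.sgnT, iv.triv _ tb.co2 tb,
      one_mul, hA.inv2.1 w w.D _ _ w.loc_D c2.sgnT c3 (triv_d2_swap (hx.ch (H := w.D)).1 cz')]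
    refine ⟨rfl, ?_⟩
    rcases (nv_sgn hA c3).1 with e | e <;> rw [e] <;> norm_num
  rw [Finset.prod_congr rfl fun w hw => (key w hw).1, Finset.prod_mul_distrib] at h1
  have h2 : S.pr c' b' x ^ 2 = 1 := by
    rw [LS.pr, ← Finset.prod_pow]
    exact Finset.prod_eq_one fun w hw => (key w hw).2
  have h3 : S.pr c b y * S.pr c' b' x = 1 := h1
  linear_combination S.pr c' b' x * h3 - S.pr c b y * h2

end Pool.Agent.P.MP_8b7eba_nt.R2
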