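import Pool.Agent.P.MP_8b7eba_nt.R2.LC

/-! Proof of NEC. -/

namespace Pool.Agent.P.MP_8b7eba_nt.R2

open scoped NNReal Matrix

namespace TNEC

theorem z2 (s : ZMod 2) : s = 0 ∨ s = 1 := by revert s; decide

theorem n2 : ‖(2 : ℚ_[2])‖ = 2⁻¹ := by
  have := Padic.norm_p (p := 2)
  simpa using this

theorem sq_dvd {m n : ℤ} (hm : Squarefree m)
    (h : ∀ p : ℕ, p.Prime → (p : ℤ) ∣ m → (p : ℤ) ∣ n) : m ∣ n := by
  rw [← Int.natAbs_dvd_natAbs,
    ← Nat.prod_primeFactors_of_squarefree (Int.squarefree_natAbs.2 hm)]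
  refine Finset.prod_primes_dvd _ (fun p hp => (Nat.prime_of_mem_primeFactors hp).prime)
    fun p hp => ?_
  exact Int.natCast_dvd.1 (h p (Nat.prime_of_mem_primeFactors hp)
    (Int.natCast_dvd.2 (Nat.dvd_of_mem_primeFactors hp)))

theorem dvd30 {p : ℕ} (hp : p.Prime) {d : ℤ} (h : (p : ℤ) ∣ 30 * d) :
    p = 2 ∨ p = 3 ∨ p = 5 ∨ (p : ℤ) ∣ d := by
  rcases (Nat.prime_iff_prime_int.1 hp).dvd_or_dvd h with h | h
  · have h1 : p ∣ 2 * 3 * 5 := by exact_mod_cast h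
    rcases (Nat.Prime.dvd_mul hp).1 h1 with h1 | h1
    · rcases (Nat.Prime.dvd_mul hp).1 h1 with h1 | h1
      · exact Or.inl ((Nat.prime_dvd_prime_iff_eq hp Nat.prime_two).1 h1)
      · exact Or.inr (Or.inl ((Nat.prime_dvd_prime_iff_eq hp Nat.prime_three).1 h1))
    · exact Or.inr (Or.inr (Or.inl ((Nat.prime_dvd_prime_iff_eq hp Nat.prime_five).1 h1)))
  · exact Or.inr (Or.inr (Or.inr h))

theorem not_dvd (hA : CA) {w : Pl} {m : ℤ} (h2 : w.p ≠ 2) (hm : Squarefree m)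
    (h : ∀ g ∈ w.I, qz m g = 0) : ¬ (w.p : ℤ) ∣ m := by
  obtain ⟨t, ht, hβ⟩ := Pl.exists_gen hA.tame hA.res h2
  exact (qz_gen hA h2 ht hβ hm).1 (h t ht)

theorem move (hP : PL) {w w' : Pl} (e : w.p = w'.p) {m n : ℤ}
    (h : ∀ g ∈ w.D, qz m g = qz n g) : ∀ g ∈ w'.D, qz m g = qz n g := by
  obtain ⟨σ, rfl⟩ := hP.2.1 w w' e
  intro g hg
  have := h _ (Pl.mem_D_smul.1 hg)
  have e1 := qz_conj m σ⁻¹ g
  have e2 := qz_conj n σ⁻¹ g
  rw [inv_inv] at e1 e2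
  rwa [e1, e2] at this

theorem move0 (hP : PL) {w w' : Pl} (e : w.p = w'.p) {m : ℤ}
    (h : ∀ g ∈ w.D, qz m g = 0) : ∀ g ∈ w'.D, qz m g = 0 := by
  have := move hP e (m := m) (n := 1) (by simpa [qz_one] using h)
  simpa [qz_one] using this

theorem core {a u : ℚ_[2]} {s t : ZMod 2} (h1 : ‖a - t.val‖ ≤ 2⁻¹)
    (h2 : ‖a - ((-1) ^ s.val * u - u)‖ ≤ 2⁻¹) : (‖u‖ ≤ 1 → t = 0) ∧ (¬ ‖u‖ ≤ 1 → t = s) := by
  have h3 : ‖(t.val : ℚ_[2]) - ((-1) ^ s.val * u - u)‖ ≤ 2⁻¹ := by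
    have e : (t.val : ℚ_[2]) - ((-1) ^ s.val * u - u) =
        (a - ((-1) ^ s.val * u - u)) + -(a - t.val) := by ring
    rw [e]
    exact (IsUltrametricDist.norm_add_le_max _ _).trans (max_le h2 (by rwa [norm_neg]))
  have v1 : (1 : ZMod 2).val = 1 := rfl
  have hu : ‖2 * u‖ = 2⁻¹ * ‖u‖ := by rw [norm_mul, n2]
  rcases z2 s with rfl | rfl <;> rcases z2 t with rfl | rfl
  · exact ⟨fun _ => rfl, fun _ => rfl⟩
  · simp [v1] at h3
    norm_num at h3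
  · refine ⟨fun _ => rfl, fun h => absurd ?_ h⟩
    have e : (((0 : ZMod 2).val : ℕ) : ℚ_[2]) - ((-1) ^ (1 : ZMod 2).val * u - u) = 2 * u := by
      simp [v1]; ring
    rw [e, hu] at h3
    linarith
  · refine ⟨fun h => ?_, fun _ => rfl⟩
    have e : (1 : ℚ_[2]) = ((((1 : ZMod 2).val : ℕ) : ℚ_[2]) -
        ((-1) ^ (1 : ZMod 2).val * u - u)) + -(2 * u) := by
      simp [v1]; ring
    have h4 : ‖(1 : ℚ_[2])‖ ≤ 2⁻¹ := by
      rw [e]
      refine (IsUltrametricDist.norm_add_le_max _ _).trans (max_le h3 ?_)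
      rw [norm_neg, hu]
      linarith
    norm_num at h4

theorem loc (hE : EC) {w w' : Pl} (T : Tate w) {δ : Om} {m : ℤ} (hδ : δ ^ 2 = m) (hm : m ≠ 0)
    {c : GQ → V2} {x : X2} (hne : w' ≠ w) (ha : T.Adm δ w' c) (hl : Lf ⊤ x c) {φ : GQ}
    (hφ : φ ∈ w'.D) (h0 : qz (-m) φ ≠ 0) (h1 : qz m φ ≠ 0) :
    ((∀ g ∈ w'.D, x g 0 = 0) ∨ ∀ g ∈ w'.D, x g 0 = qz (-m) g) ∧
      ((∀ g ∈ w'.D, x g 1 = 0) ∨ ∀ g ∈ w'.D, x g 1 = qz m g) := by
  obtain ⟨u, hu⟩ := ha.1 hne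
  have v1 : (1 : ZMod 2).val = 1 := rfl
  have hn : ‖u‖ ≤ 2 := by
    have h2 := T.rd_four hE hδ hm φ u
    rw [(z2 _).resolve_left h0, (z2 _).resolve_left h1, v1] at h2
    have e : (2 : ℚ_[2]) • u = (T.rd δ φ *ᵥ u - ![(-1) ^ 1 * u 0, (-1) ^ 1 * u 1]) +
        -T.bd δ u φ := by
      have e1 : (![(-1) ^ 1 * u 0, (-1) ^ 1 * u 1] : V2) = -u := by
        ext i
        fin_cases i <;> simp
      rw [e1, two_smul]
      unfold Tate.bd
      abel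
    have h3 : ‖(2 : ℚ_[2]) • u‖ ≤ max (4⁻¹ * ‖u‖) 1 := by
      rw [e]
      exact (IsUltrametricDist.norm_add_le_max _ _).trans
        (max_le_max h2 (by rw [norm_neg]; exact (hu φ hφ).1))
    rw [norm_smul, n2] at h3
    have := norm_nonneg u
    rcases le_max_iff.1 h3 with h | h <;> linarith
  have key : ∀ g ∈ w'.D, ‖c g - (![(-1) ^ (qz (-m) g).val * u 0, (-1) ^ (qz m g).val * u 1] - u)‖
      ≤ 2⁻¹ := fun g hg => by
    have e : c g - (![(-1) ^ (qz (-m) g).val * u 0, (-1) ^ (qz m g).val * u 1] - u) =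
        (c g - T.bd δ u g) + (T.rd δ g *ᵥ u -
          ![(-1) ^ (qz (-m) g).val * u 0, (-1) ^ (qz m g).val * u 1]) := by
      unfold Tate.bd
      abel
    rw [e]
    refine (IsUltrametricDist.norm_add_le_max _ _).trans (max_le ((hu g hg).2.trans (by norm_num))
      ((T.rd_four hE hδ hm g u).trans (by linarith)))
  have k0 := fun g hg => core (hl g trivial 0) ((norm_le_pi_norm _ 0).trans (key g hg))
  have k1 := fun g hg => core (hl g trivial 1) ((norm_le_pi_norm _ 1).trans (key g hg))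
  constructor
  · by_cases h : ‖u 0‖ ≤ 1
    exacts [Or.inl fun g hg => (k0 g hg).1 h, Or.inr fun g hg => (k0 g hg).2 h]
  · by_cases h : ‖u 1‖ ≤ 1
    exacts [Or.inl fun g hg => (k1 g hg).1 h, Or.inr fun g hg => (k1 g hg).2 h]

theorem two {w : Pl} (h2 : w.p = 2) (T : Tate w) {δ : Om} {m : ℤ} (hδ : δ ^ 2 = m)
    (hm : m % 4 = 1) {c : GQ → V2} (ha : T.Adm δ w c) {g : GQ} (hg : g ∈ w.I) :
    ‖c g 1‖ ≤ 2⁻¹ := by
  obtain ⟨u, c', -, -, h⟩ := ha.2 rfl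
  obtain ⟨h1, h3⟩ := h g (w.I_le_D hg)
  have hb : T.bd δ u g 1 = 0 := by
    simp [Tate.bd, Tate.rd, sd, Pl.I_fix_two h2 hδ hm hg, T.up g (w.I_le_D hg), T.un g hg]
  rw [Pi.sub_apply, hb, sub_zero] at h3
  have e : c g 1 = (c g - c' g) 1 + c' g 1 := by simp
  rw [e]
  exact (IsUltrametricDist.norm_add_le_max _ _).trans
    (max_le (((norm_le_pi_norm _ 1).trans h1).trans (by norm_num)) (h3.trans (by norm_num)))

theorem odd (hA : CA) (hN : NU2) {w : Pl} (h2 : w.p = 2) {m n : ℤ} (hm : m % 8 = 5)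
    (hn : Squarefree n) {θ : GQ → ZMod 2}
    (h : Bd ⊤ (fun g k => (qz n g + qz (-m) g) * qz n k) θ) : ¬ (2 : ℤ) ∣ n := by
  have hm0 : m ≠ 0 := by omega
  have hn0 := hn.ne_zero
  have h1 : Nm w.D (n : Om) ((n * -m : ℤ) : Om) := by
    rw [← triv_qz_iff hA w.closed_D (mul_ne_zero hn0 (neg_ne_zero.2 hm0)) hn0,
      qz_mul hn0 (neg_ne_zero.2 hm0)]
    exact h.triv.mono le_top
  have h3 := Nm.mul (fix_int n) h1 (Nm.inv (fix_int n) (nm_neg_self (n : Om)))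
  have hn1 : (n : Om) ≠ 0 := Int.cast_ne_zero.2 hn0
  have e : ((n * -m : ℤ) : Om) * (-(n : Om))⁻¹ = m := by
    push_cast
    field_simp
  rw [e] at h3
  have h4 := Nm.symm (Int.cast_ne_zero.2 hm0) (fix_int n) h3
  rintro ⟨a, rfl⟩
  have ha : Odd a := by
    rw [← Int.not_even_iff_odd]
    rintro ⟨b, rfl⟩
    have := hn 2 ⟨b, by ring⟩
    rw [Int.isUnit_iff] at this
    omega
  refine (hN w m a h2 hm ha).2 ?_
  push_cast at h4
  exact h4

end TNEC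

open TNEC in
theorem t_NEC (hCF : CF) (hNU2 : NU2) (hNEC3 : NEC3) : NEC := by
  intro S l δ hG c hc hunr hl hadm
  have hA : CA := hCF.toCB.toCA
  obtain ⟨x, hx, hlf⟩ := (hc.mono le_rfl one_le_two).exists_lf
  have hch : ∀ i, IsCh ⊤ fun g => x g i := fun i =>
    ⟨hx.1.comp fun y => y i, fun g hg h hh => congrFun (hx.2 g hg h hh) i⟩
  choose m hsq hm using fun i => exists_qz hA (hch i)
  have hxm : ∀ g i, x g i = qz (m i) g := fun g i => congrFun (hm i) g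
  obtain ⟨hd0, hdo, hd3, hd5, -⟩ := S.d_ne
  obtain ⟨-, -, hD8, hDs, hl30⟩ := hG.fix
  have hD0 := hDs.ne_zero
  have hneg : -(-(l : ℤ) * S.d) = l * S.d := by ring
  have l16 := hG.l16
  have z0 : ∀ g i, ‖c g i‖ ≤ 2⁻¹ → qz (m i) g = 0 := fun g i h =>
    hxm g i ▸ (hlf.zero_iff trivial i).2 h
  have z1 : ∀ g i, ‖c g‖ ≤ 2⁻¹ → qz (m i) g = 0 := fun g i h =>
    z0 g i ((norm_le_pi_norm _ i).trans h)
  have h30 : ∀ i (p : ℕ), p.Prime → (p : ℤ) ∣ m i → (p : ℤ) ∣ 30 * S.d := fun i p hp h => by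
    obtain ⟨w, rfl⟩ := hA.pl.1 p hp
    by_cases h2 : w.p = 2
    · rw [h2]; exact ⟨15 * S.d, by push_cast; ring⟩
    by_contra hn
    refine not_dvd hA h2 (hsq i) (fun g hg => z1 g i ?_) h
    by_cases e : w.p = l
    · exact hl w e g (w.I_le_D hg)
    · refine hunr w (fun h3 => ?_) g hg
      rcases (Nat.prime_iff_prime_int.1 hp).dvd_or_dvd h3 with h3 | h3
      · exact hn h3
      · exact e ((Nat.prime_dvd_prime_iff_eq hp hG.lp).1 (Int.natCast_dvd_natCast.1 h3))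
  have hpos : ∀ i, 0 < m i := fun i => by
    by_contra hn
    have h0 := (hsq i).ne_zero
    obtain ⟨w, hw⟩ := hA.pl.1 l hG.lp
    obtain ⟨φ, hφ⟩ := w.exists_frob hA.frob
    have e : m i = -1 * ((m i).natAbs : ℤ) := by omega
    have h1 := z1 φ i (hl w hw φ hφ.1)
    have h2 := hG.at hA hw (a := (m i).natAbs)
      (Int.natAbs_dvd.2 (sq_dvd (hsq i) (h30 i))) hφ.1
    rw [e, qz_mul (by norm_num) (by omega), Pi.add_apply, h2, add_zero] at h1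
    have h3 : ¬ (w.p : ℤ) ∣ 2 * -1 := fun h => by
      have := Int.le_of_dvd (by norm_num : (0 : ℤ) < 2) (by simpa using h)
      omega
    have h4 := (qz_frob hA h3 hφ).1.1 h1
    rw [hw, jacobiSym.at_neg_one (Nat.odd_iff.2 (by omega)),
      ZMod.χ₄_nat_three_mod_four (by omega)] at h4
    omega
  have hne : ∀ w : Pl, w.p ≠ 2 → w ≠ S.w := fun w h e => h (e ▸ S.w2)
  have h5 : ∀ i, ¬ (5 : ℤ) ∣ m i := by
    obtain ⟨w, hw, hp⟩ := S.exists_mem hA.pl Nat.prime_five ⟨6 * S.d, by push_cast; ring⟩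
    obtain ⟨φ, hφ⟩ := w.exists_frob hA.frob
    have a1 : ¬ (w.p : ℤ) ∣ 2 * S.d := by rw [hp]; omega
    have a2 : ¬ (w.p : ℤ) ∣ 2 * -S.d := by rw [hp]; omega
    have b1 := fun g (hg : g ∈ w.D) => hG.loc hA (S.dvd hw) hg
    obtain ⟨k0, k1⟩ := loc hA.ec S.T hG.hd hD0 (hne w (by omega)) (hadm w hw) hlf hφ.1
      (by
        rw [hneg, (b1 φ hφ.1).2.2.1, Ne, (qz_frob hA a2 hφ).1, hp, jacobiSym.neg _ (by decide),
          S.j5]
        decide)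
      (by rw [(b1 φ hφ.1).2.1, Ne, (qz_frob hA a1 hφ).1, hp, S.j5]; decide)
    intro i
    have := not_dvd hA (w := w) (by omega) (hsq i) fun g hg => by
      have hg' := w.I_le_D hg
      rw [← hxm]
      fin_cases i
      · rcases k0 with k | k
        · exact k g hg'
        · exact (k g hg').trans (by rw [hneg, (b1 g hg').2.2.1, qz_I hA a2 hg])
      · rcases k1 with k | k
        · exact k g hg'
        · exact (k g hg').trans (by rw [(b1 g hg').2.1, qz_I hA a1 hg])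
    rwa [hp] at this
  obtain ⟨w3, hw3, hp3⟩ := S.exists_mem hA.pl Nat.prime_three ⟨10 * S.d, by push_cast; ring⟩
  obtain ⟨n1, n2⟩ := hNEC3 S l δ hG w3 c hp3 (hadm w3 hw3)
  have h3 : ∀ i, jacobiSym S.d 3 = 1 → ¬ (3 : ℤ) ∣ m i := fun i h => by
    have := not_dvd hA (w := w3) (by omega) (hsq i) fun g hg => z1 g i (n1 h g hg)
    rwa [hp3] at this
  have h30' : ¬ (3 : ℤ) ∣ m 0 := by
    rcases S.j3 with h | h
    · have := not_dvd hA (w := w3) (by omega) (hsq 0) fun g hg => z0 g 0 (n2 h g (w3.I_le_D hg))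
      rwa [hp3] at this
    · exact h3 0 h
  have h4 : m 1 % 4 = 1 := (qz_I_two_iff hA S.w2 (hsq 1)).1 fun g hg =>
    z0 g 1 (two S.w2 S.T hG.hd (by omega) (hadm _ S.wR) hg)
  have h2 : ¬ (2 : ℤ) ∣ m 0 := by
    obtain ⟨⟨θ, hθ⟩, -⟩ := hc.bd_of hA.ec hG.hd hD0 hlf
    simp only [hxm] at hθ
    exact odd hA hNU2 S.w2 hD8 (hsq 0) hθ
  have hd : ∀ w : Pl, (w.p : ℤ) ∣ S.d →
      ((∀ g ∈ w.D, x g 0 = 0) ∨ ∀ g ∈ w.D, x g 0 = qz (-S.d) g) ∧
      ((∀ g ∈ w.D, x g 1 = 0) ∨ ∀ g ∈ w.D, x g 1 = qz S.d g) := fun w' h => by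
    obtain ⟨w, hw, hp⟩ := S.exists_mem hA.pl w'.prime (h.mul_left 30)
    have a2 : w.p ≠ 2 := fun e => by
      rw [← hp, e] at h
      obtain ⟨b, hb⟩ := hdo
      omega
    obtain ⟨t, ht, hβ⟩ := Pl.exists_gen hA.tame hA.res a2
    have a1 : (w.p : ℤ) ∣ -l * S.d := hp ▸ h.mul_left _
    have b1 := fun g (hg : g ∈ w.D) => hG.loc hA (S.dvd hw) hg
    obtain ⟨k0, k1⟩ := loc hA.ec S.T hG.hd hD0 (hne w a2) (hadm w hw) hlf (w.I_le_D ht)
      (fun e => (qz_gen hA a2 ht hβ (Int.squarefree_natAbs.1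
        (by rw [Int.natAbs_neg]; exact Int.squarefree_natAbs.2 hDs))).1 e (dvd_neg.2 a1))
      (fun e => (qz_gen hA a2 ht hβ hDs).1 e a1)
    simp only [hxm] at k0 k1 ⊢
    exact ⟨k0.imp (move0 hA.pl hp) fun k => move hA.pl hp fun g hg =>
        (k g hg).trans (by rw [hneg, (b1 g hg).2.2.1]),
      k1.imp (move0 hA.pl hp) fun k => move hA.pl hp fun g hg => (k g hg).trans (b1 g hg).2.1⟩
  have cst : ∀ i, (((m i).natAbs : ℕ) : ℤ) = m i := fun i => Int.natAbs_of_nonneg (hpos i).le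
  refine ⟨x, ⟨⟨(m 0).natAbs, ?_, by rw [cst, hm], fun h w hw g hg => ?_, fun w h => (hd w h).1⟩,
    ⟨(m 1).natAbs, ?_, fun h => ?_, by have := cst 1; omega, by rw [cst, hm],
      fun w h => (hd w h).2⟩⟩, hlf⟩
  · rw [cst]
    refine sq_dvd (hsq 0) fun p hp h => ?_
    rcases dvd30 hp (h30 0 p hp h) with rfl | rfl | rfl | e
    exacts [absurd h h2, absurd h h30', absurd h (h5 0), e]
  · exact (hxm g 0).trans
      (move0 hA.pl (hp3.trans hw.symm) (fun g hg => z0 g 0 (n2 h g hg)) g hg)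
  · rw [cst]
    refine sq_dvd (hsq 1) fun p hp h => ?_
    rcases dvd30 hp (h30 1 p hp h) with rfl | rfl | rfl | e
    exacts [by omega, dvd_mul_right _ _, absurd h (h5 1), e.mul_left _]
  · rw [cst]
    refine sq_dvd (hsq 1) fun p hp h' => ?_
    rcases dvd30 hp (h30 1 p hp h') with rfl | rfl | rfl | e
    exacts [by omega, absurd h' (h3 1 h), absurd h' (h5 1), e]

end Pool.Agent.P.MP_8b7eba_nt.R2
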