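import Pool.Agent.P.MP_8b7eba_nt.R2.LC
import Pool.Agent.P.MP_8b7eba_nt.R2.PatB

/-! Proof of RED. -/

namespace Pool.Agent.P.MP_8b7eba_nt.R2

open scoped NNReal Matrix
open Filter Topology

namespace TRED

theorem le_one {v : V2} (h : ‖v‖ < 2) : ‖v‖ ≤ 1 :=
  (pi_norm_le_iff_of_nonneg zero_le_one).2 fun i => by
    simpa using (Padic.norm_le_pow_iff_norm_lt_pow_add_one (v i) 0).2
      (by simpa using (norm_le_pi_norm v i).trans_lt h)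

theorem two_pow (n : ℕ) (v : V2) : ‖(2 ^ n : ℚ_[2]) • v‖ = 2⁻¹ ^ n * ‖v‖ := by
  rw [norm_smul, norm_pow, SelA.two]

/-- a bounded nonzero family has a primitive multiple -/
theorem scale {α : Type} {f : α → V2} {B : ℝ} (hB : ∀ g, ‖f g‖ ≤ B) {g₁ : α} (h : f g₁ ≠ 0) :
    ∃ a : ℚ_[2], (∀ g, ‖a • f g‖ ≤ 1) ∧ ∃ g, ‖a • f g‖ = 1 := by
  classical
  obtain ⟨b, hb⟩ := NormedField.exists_lt_norm ℚ_[2] ‖f g₁‖⁻¹
  have h1 : 1 < ‖b • f g₁‖ := by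
    rwa [norm_smul, ← div_lt_iff₀ (norm_pos_iff.2 h), one_div]
  have h2 : ∃ n : ℕ, ∀ g, ‖(2 ^ n : ℚ_[2]) • b • f g‖ ≤ 1 := by
    obtain ⟨n, hn⟩ := exists_pow_lt_of_lt_one (x := (‖b‖ * B + 1)⁻¹) (y := (2⁻¹ : ℝ))
      (inv_pos.2 (by have := (norm_nonneg _).trans (hB g₁); positivity)) (by norm_num)
    refine ⟨n, fun g => ?_⟩
    have h3 : ‖b • f g‖ ≤ ‖b‖ * B + 1 := by
      rw [norm_smul]
      linarith [mul_le_mul_of_nonneg_left (hB g) (norm_nonneg b)]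
    rw [two_pow]
    exact (mul_le_mul hn.le h3 (norm_nonneg _) ((by positivity : (0 : ℝ) ≤ _).trans hn.le)).trans
      inv_mul_le_one
  obtain ⟨n, hn⟩ := Nat.exists_eq_succ_of_ne_zero (n := Nat.find h2) fun e => by
    have := Nat.find_spec h2 g₁
    rw [e, pow_zero, one_smul] at this
    linarith
  have h3 := Nat.find_spec h2
  obtain ⟨g, hg⟩ := not_forall.1 (Nat.find_min h2 (hn ▸ n.lt_succ_self))
  refine ⟨2 ^ Nat.find h2 * b, fun g => by rw [mul_smul]; exact h3 g, g, ?_⟩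
  rw [mul_smul]
  refine (h3 g).antisymm ?_
  have h4 : 2 ≤ ‖(2 ^ n : ℚ_[2]) • b • f g‖ := not_lt.1 fun e => hg (le_one e)
  rw [hn, pow_succ', mul_smul, norm_smul, SelA.two]
  linarith

variable {w₂ : Pl} {T : Tate w₂} {δ : Om} {m : ℤ} {x : GS → V2}

theorem smul (hr : Rep ⊤ (T.rq δ)) (h : SelQ T δ m x) (a : ℚ_[2]) : SelQ T δ m (a • x) := by
  obtain ⟨v, hv⟩ := h.ord
  refine ⟨h.pz.smul hr a, fun w g e => by rw [Pi.smul_apply, h.unr w g e, smul_zero],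
    fun w hw => (h.bad w hw).smul hr a, a • v, fun g hg => ?_⟩
  rw [Pi.smul_apply, hr.rS_smul, ← smul_sub, ← smul_sub, Pi.smul_apply, hv g hg, smul_zero]

theorem add_cob (hCF : CF) (hδ : δ ^ 2 = m) (h : SelQ T δ m x) (u : V2) :
    SelQ T δ m (x + fun g => rS (T.rq δ) g u - u) := by
  have hr : Rep ⊤ (T.rq δ) := T.rep (hδ ▸ fix_int m)
  obtain ⟨v, hv⟩ := h.ord
  refine ⟨h.pz.add hr (pz_cob hr (fun _ => le_rfl) u), fun w g e => ?_,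
    fun w hw => (h.bad w hw).add hr ⟨u, fun _ _ => rfl⟩, v + u, fun g hg => ?_⟩
  · rw [Pi.add_apply, h.unr w g e, zero_add, sub_eq_zero]
    refine (rS_congr (s := fun _ => LinearMap.id) (g' := g) (e.mono fun k e => ?_)).trans
      (rS_id g u)
    have h1 : ¬ (w k).p ∣ 30 := fun d => e.2 ((Int.natCast_dvd_natCast.2 d).mul_right m)
    rw [T.rq_apply, SelA.rd_fix T (Pl.I_fix hCF.tame hCF.res (fun d => h1 (by rw [d]; norm_num))
      hδ (fun d => e.2 (d.mul_left _)) e.1), (hCF.tr w₂ T (w k) h1).1 _ e.1, Matrix.one_mulVec]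
    rfl
  · rw [← hv g hg, hr.rS_add]
    simp only [Pi.add_apply, Pi.sub_apply]
    ring

theorem near (hr : Rep ⊤ (T.rq δ)) {c : ℕ → GQ → V2} (hc : Ap (fun _ => ⊤) c x) {H : Subgroup GQ}
    {v : V2} (h : ∀ g ∈ S1 H, (x g - (rS (T.rq δ) g v - v)) 1 = 0) :
    ∀ᶠ k in UF, ∀ g ∈ H, ‖(c k g - T.bd δ v g) 1‖ ≤ 8⁻¹ := by
  refine ev_forall (H := fun _ => H) (p := fun k g => ‖(c k g - T.bd δ v g) 1‖ ≤ 8⁻¹)
    fun g hg => PatB.small ?_ (by norm_num)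
  have := ((continuous_apply 1).tendsto _).comp ((hc.lim g (mem_St.2 (.of_forall fun _ => trivial))).sub
    ((PatB.t0 hr g v).sub_const v))
  rwa [h g hg] at this

theorem half (T : Tate w₂) {φ : GQ} (h : φ δ ≠ δ) : ‖T.rd δ φ 1 1 - 1‖ = 2⁻¹ := by
  have e : T.rd δ φ = -T.rho φ := by simp [Tate.rd, sd_eq_neg.2 h]
  have h4 : ‖T.rho φ 1 1 - 1‖ ≤ 4⁻¹ := by simpa using T.four φ 1 1
  rw [e, Matrix.neg_apply, ← norm_neg, show -(-T.rho φ 1 1 - 1) = 2 + (T.rho φ 1 1 - 1) by ring,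
    IsUltrametricDist.norm_add_eq_max_of_norm_ne_norm, SelA.two, max_eq_left]
  · linarith
  · rw [SelA.two]; linarith

theorem bd_one (T : Tate w₂) (δ : Om) (v : V2) {g : GQ} (hg : g ∈ w₂.D) :
    T.bd δ v g 1 = (T.rd δ g 1 1 - 1) * v 1 := by
  simp [Tate.bd, SelA.rd_up T δ hg, sub_mul]

end TRED

open TRED in
theorem t_RED (hCF : CF) : RED := by
  intro S l δ hG hn
  obtain ⟨x, hx, hx0⟩ : ∃ x, SelQ S.T δ (-l * S.d) x ∧ ¬ Cob ⊤ (S.T.rq δ) x := by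
    simpa [Rk0] using hn
  obtain ⟨f1, f2, f3, f4, f5⟩ := hG.fix
  have hr := S.T.rep f1
  have top : ∀ g : GS, g ∈ St fun _ => (⊤ : Subgroup GQ) := fun g =>
    mem_St.2 (.of_forall fun _ => trivial)
  obtain ⟨w₀, h₀⟩ := hCF.pl.1 l hG.lp
  have l30 : ¬ w₀.p ∣ 30 := fun d => f5 ((h₀ ▸ Int.natCast_dvd_natCast.2 d).mul_right _)
  have l2 : w₀.p ≠ 2 := fun d => l30 (by rw [d]; norm_num)
  obtain ⟨t, ht, hβ⟩ := Pl.exists_gen hCF.tame hCF.res l2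
  have rt : ∀ v, rS (S.T.rq δ) (cs t) v = -v := fun v => by
    have := Pl.gen_move hCF.tame hCF.res l2 ht hβ (δ := δ) (m := -S.d)
      (by rw [hG.hd, h₀]; push_cast; ring) fun d => f5 (h₀ ▸ (dvd_neg.1 d).mul_left _)
    rw [rS_cs, Tate.rq_apply, Tate.rd, sd_eq_neg.2 (by rw [this]; exact fun e => f2 (by
      linear_combination (-1 / 2 : Om) * e)), (hCF.tr _ S.T w₀ l30).1 t ht]
    simp [Matrix.neg_mulVec]
  obtain ⟨X, hX, Xt, X1, g₀, X0⟩ : ∃ X, SelQ S.T δ (-l * S.d) X ∧ X (cs t) = 0 ∧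
      (∀ g, ‖X g‖ ≤ 1) ∧ ∃ g, ‖X g‖ = 1 := by
    have h1 := add_cob hCF hG.hd hx ((2⁻¹ : ℚ_[2]) • x (cs t))
    obtain ⟨c, hc⟩ := h1.pz.1
    obtain ⟨B, hB⟩ := hc.bdd
    obtain ⟨g₁, h2⟩ : ∃ g, (x + fun g => rS (S.T.rq δ) g ((2⁻¹ : ℚ_[2]) • x (cs t)) -
        (2⁻¹ : ℚ_[2]) • x (cs t)) g ≠ 0 := by
      generalize (2⁻¹ : ℚ_[2]) • x (cs t) = u
      by_contra! e
      exact hx0 ⟨-u, fun g _ => by
        rw [hr.rS_neg, eq_neg_of_add_eq_zero_left (e g), neg_sub_neg, neg_sub]⟩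
    obtain ⟨a, h3, h4⟩ := scale (fun g => hB g (top g)) h2
    refine ⟨_, smul hr h1 a, ?_, h3, h4⟩
    rw [Pi.smul_apply, Pi.add_apply, rt, ← neg_add', ← add_smul]
    norm_num
  obtain ⟨c, hc⟩ := hX.pz.1
  have lim := fun g (ε : ℝ) (hε : 0 < ε) => PatA.near (hc.lim g (top g)) tendsto_const_nhds hε
  have e1 : ∀ᶠ k in UF, ∀ g ∈ (⊤ : Subgroup GQ), ‖c k g‖ ≤ 1 :=
    ev_forall (H := fun _ => ⊤) (p := fun k g => ‖c k g‖ ≤ 1) fun g _ =>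
      (lim g 1 one_pos).mono fun k e => by simpa using SelA.add e (X1 g)
  have e4 : ∀ᶠ k in UF, ∀ a : Pl × GQ, a.2 ∈ a.1.I ∧ ¬ (a.1.p : ℤ) ∣ 30 * (-l * S.d) →
      ‖c k a.2‖ ≤ 4⁻¹ := by
    have : Nonempty Pl := ⟨w₀⟩
    refine ev_choice (p := fun k (a : Pl × GQ) => a.2 ∈ a.1.I ∧ ¬ (a.1.p : ℤ) ∣ 30 * (-l * S.d) →
      ‖c k a.2‖ ≤ 4⁻¹) fun f => ?_
    by_cases hf : ∀ᶠ k in UF, (f k).2 ∈ (f k).1.I ∧ ¬ ((f k).1.p : ℤ) ∣ 30 * (-l * S.d)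
    · refine (lim (fun k => (f k).2) 4⁻¹ (by norm_num)).mono fun k e _ => ?_
      rwa [hX.unr (fun k => (f k).1) _ hf, sub_zero] at e
    · exact (ev_not.1 hf).mono fun k e e' => absurd e' e
  have e5 : ∀ᶠ k in UF, ∀ g ∈ w₀.D, ‖c k g‖ ≤ 2⁻¹ := by
    obtain ⟨u, hu⟩ := hX.bad w₀ (by rw [h₀]; exact ((dvd_refl _).neg_right.mul_right _).mul_left _)
    have h1 := hu _ (cs_mem.2 (w₀.I_le_D ht))
    rw [Xt, rt, ← neg_add', ← two_smul ℚ_[2], eq_comm, neg_eq_zero, smul_eq_zero] at h1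
    obtain rfl : u = 0 := h1.resolve_left two_ne_zero
    exact hc.small (H' := fun _ => w₀.D) (.of_forall fun _ => le_top)
      (fun g hg => by rw [hu g hg, rS_zero, sub_zero]) (by norm_num)
  have e6 : ∀ w ∈ S.R, ∀ᶠ k in UF, w ≠ S.w →
      ∃ u, ∀ g ∈ w.D, ‖S.T.bd δ u g‖ ≤ 1 ∧ ‖c k g - S.T.bd δ u g‖ ≤ 4⁻¹ := fun w hw => by
    by_cases h : w = S.w
    · exact .of_forall fun _ e => absurd h e
    have h1 : (w.p : ℤ) ∣ 15 * S.d := by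
      have := S.dvd hw
      rw [show 30 * S.d = 2 * (15 * S.d) by ring] at this
      refine ((Nat.prime_iff_prime_int.1 w.prime).dvd_or_dvd this).resolve_left fun d => h ?_
      exact (S.eq_w hCF.pl hw).1 ((Nat.prime_dvd_prime_iff_eq w.prime Nat.prime_two).1
        (Int.natCast_dvd_natCast.1 d))
    obtain ⟨u, hu⟩ := hX.bad w (by
      rw [show 15 * (-l * S.d) = 15 * S.d * (-l : ℤ) by ring]; exact h1.mul_right _)
    filter_upwards [Cob.near hr hc (H' := fun _ => w.D) (.of_forall fun _ => le_top) hu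
      (ε := 4⁻¹) (by norm_num)] with k e _
    refine ⟨u, fun g hg => ⟨?_, e g hg⟩⟩
    have := X1 (cs g)
    rwa [hu _ (cs_mem.2 hg), rS_cs] at this
  obtain ⟨v, hv⟩ := hX.ord
  have hv2 : ‖(![0, v 1] : V2)‖ ≤ 2 := by
    obtain ⟨φ, h1, h2, -⟩ := Pl.exists_f2 hCF.toCA S.w2 hG.hd f3
    have h3 := hv _ (cs_mem.2 h1)
    rw [Pi.sub_apply, sub_eq_zero, rS_cs] at h3
    have h4 := (norm_le_pi_norm _ 1).trans (X1 (cs φ))
    rw [h3, show (S.T.rq δ φ v - v) 1 = _ from bd_one S.T δ v h1, norm_mul, half S.T h2] at h4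
    refine (pi_norm_le_iff_of_nonneg zero_le_two).2 (Fin.forall_fin_two.2 ⟨by simp, ?_⟩)
    simp only [Matrix.cons_val_one, Matrix.cons_val_zero]
    linarith
  obtain ⟨k, e1, e2, e3, e4, e5, e6, e7⟩ := (e1.and ((hX.pz.ac hr hc (ε := (2 ^ 3)⁻¹)
    (by norm_num)).and ((lim g₀ 2⁻¹ (by norm_num)).and (e4.and (e5.and
      (((eventually_all_finset S.R).2 e6).and (near hr hc hv))))))).exists
  have hz : S.T.Zc δ ⊤ 3 (c k) := ⟨hc.uc k _ (by norm_num), e1, e2⟩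
  refine ⟨c k, hz, ⟨g₀ k, ?_⟩, fun w hw g hg => e4 (w, g) ⟨hg, fun d => hw ?_⟩,
    fun w hw g hg => ?_, fun w hw => ⟨e6 w hw, fun _ => ⟨_, c k, hv2, hz.mono le_top le_rfl,
      fun g hg => ⟨by simp, ?_⟩⟩⟩⟩
  · rw [← sub_add_cancel (c k (g₀ k)) (X g₀), IsUltrametricDist.norm_add_eq_max_of_norm_ne_norm,
      X0, max_eq_right] <;> linarith
  · rwa [show 30 * (-l * S.d) = -(30 * S.d * l : ℤ) by ring, dvd_neg] at d
  · obtain ⟨σ, rfl⟩ := hCF.pl.2.1 w₀ w (h₀.trans hw.symm)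
    obtain ⟨y, hy, hl⟩ := (hz.mono le_rfl (by norm_num : 1 ≤ 3)).exists_lf
    have h1 : y (σ⁻¹ * g * σ) = y g := by
      rw [hy.2 _ trivial _ trivial, hy.2 _ trivial _ trivial, hy.inv trivial]
      abel
    refine (pi_norm_le_iff_of_nonneg (by norm_num)).2 fun j => (hl.zero_iff trivial j).1 ?_
    rw [← h1]
    exact (hl.zero_iff trivial j).2 ((norm_le_pi_norm _ j).trans (e5 _ (Pl.mem_D_smul.1 hg)))
  · have := e7 g hg
    rw [Pi.sub_apply, bd_one S.T δ _ hg] at this ⊢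
    exact this

end Pool.Agent.P.MP_8b7eba_nt.R2
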