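import Pool.Agent.P.MP_8b7eba_nt.R2.TRED

/-! Proof of RED2. -/

namespace Pool.Agent.P.MP_8b7eba_nt.R2

open scoped NNReal Matrix
open Filter Topology

namespace TRED2

open TRED

theorem top (g : GS) : g ∈ St fun _ => (⊤ : Subgroup GQ) := mem_St.2 (.of_forall fun _ => trivial)

theorem add {w₂ : Pl} {T : Tate w₂} {δ : Om} {m : ℤ} {x y : GS → V2} (hr : Rep ⊤ (T.rq δ))
    (h : SelQ T δ m x) (h' : SelQ T δ m y) : SelQ T δ m (x + y) := by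
  obtain ⟨v, hv⟩ := h.ord
  obtain ⟨u, hu⟩ := h'.ord
  refine ⟨h.pz.add hr h'.pz, fun w g e => by rw [Pi.add_apply, h.unr w g e, h'.unr w g e, add_zero],
    fun w hw => (h.bad w hw).add hr (h'.bad w hw), v + u, fun g hg => ?_⟩
  have h1 := hv g hg
  have h2 := hu g hg
  rw [hr.rS_add]
  simp only [Pi.add_apply, Pi.sub_apply] at h1 h2 ⊢
  linear_combination h1 + h2

theorem eq_one {a b : V2} (h : ‖a - b‖ ≤ 2⁻¹) (hb : ‖b‖ = 1) : ‖a‖ = 1 := by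
  rw [← sub_add_cancel a b, IsUltrametricDist.norm_add_eq_max_of_norm_ne_norm, hb,
    max_eq_right] <;> linarith

theorem core (hCF : CF) {S : LS} {l : ℕ} {δ : Om} (hG : S.Gl l δ) {w₀ : Pl} (h₀ : w₀.p = l)
    {t : GQ} (ht : t ∈ w₀.I) (rt : ∀ v, rS (S.T.rq δ) (cs t) v = -v) {X : GS → V2}
    (hX : SelQ S.T δ (-l * S.d) X) (Xt : X (cs t) = 0) (X1 : ∀ g, ‖X g‖ ≤ 1) {c : ℕ → GQ → V2}
    (hc : Ap (fun _ => ⊤) c X) : ∀ᶠ k in UF, S.T.Zc δ ⊤ 3 (c k) ∧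
      (∀ w : Pl, ¬ (w.p : ℤ) ∣ 30 * S.d * l → ∀ g ∈ w.I, ‖c k g‖ ≤ 4⁻¹) ∧
      (∀ w : Pl, w.p = l → ∀ g ∈ w.D, ‖c k g‖ ≤ 2⁻¹) ∧ ∀ w ∈ S.R, S.T.Adm δ w (c k) := by
  obtain ⟨f1, f2, f3, f4, f5⟩ := hG.fix
  have hr := S.T.rep f1
  have lim := fun g (ε : ℝ) (hε : 0 < ε) => PatA.near (hc.lim g (top g)) tendsto_const_nhds hε
  have e1 : ∀ᶠ k in UF, ∀ g ∈ (⊤ : Subgroup GQ), ‖c k g‖ ≤ 1 :=
    ev_forall (H := fun _ => ⊤) (p := fun k g => ‖c k g‖ ≤ 1) fun g _ =>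
      (lim g 1 one_pos).mono fun k e => by simpa using SelA.add e (X1 g)
  have e4 : ∀ᶠ k in UF, ∀ a : Pl × GQ, a.2 ∈ a.1.I ∧ ¬ (a.1.p : ℤ) ∣ 30 * (-l * S.d) →
      ‖c k a.2‖ ≤ 4⁻¹ := by
    have : Nonempty Pl := ⟨w₀⟩
    refine ev_choice (p := fun k (a : Pl × GQ) => a.2 ∈ a.1.I ∧ ¬ (a.1.p : ℤ) ∣ 30 * (-l * S.d) →
      ‖c k a.2‖ ≤ 4⁻¹) fun f => ?_
    by_cases hf : ∀ᶠ k in UF, (f k).2 ∈ (f k).1.I ∧ ¬ ((f k).1.p : ℤ) ∣ 30 * (-l * S.d)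
    · refine (lim (fun k => (f k).2) 4⁻¹ (by norm_num)).mono fun k e _ => ?_
      rwa [hX.unr (fun k => (f k).1) _ hf, sub_zero] at e
    · exact (ev_not.1 hf).mono fun k e e' => absurd e' e
  have e5 : ∀ᶠ k in UF, ∀ g ∈ w₀.D, ‖c k g‖ ≤ 2⁻¹ := by
    obtain ⟨u, hu⟩ := hX.bad w₀ (by rw [h₀]; exact ((dvd_refl _).neg_right.mul_right _).mul_left _)
    have h1 := hu _ (cs_mem.2 (w₀.I_le_D ht))
    rw [Xt, rt, ← neg_add', ← two_smul ℚ_[2], eq_comm, neg_eq_zero, smul_eq_zero] at h1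
    obtain rfl : u = 0 := h1.resolve_left two_ne_zero
    exact hc.small (H' := fun _ => w₀.D) (.of_forall fun _ => le_top)
      (fun g hg => by rw [hu g hg, rS_zero, sub_zero]) (by norm_num)
  have e6 : ∀ w ∈ S.R, ∀ᶠ k in UF, w ≠ S.w →
      ∃ u, ∀ g ∈ w.D, ‖S.T.bd δ u g‖ ≤ 1 ∧ ‖c k g - S.T.bd δ u g‖ ≤ 4⁻¹ := fun w hw => by
    by_cases h : w = S.w
    · exact .of_forall fun _ e => absurd h e
    have h1 : (w.p : ℤ) ∣ 15 * S.d := by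
      have := S.dvd hw
      rw [show 30 * S.d = 2 * (15 * S.d) by ring] at this
      refine ((Nat.prime_iff_prime_int.1 w.prime).dvd_or_dvd this).resolve_left fun d => h ?_
      exact (S.eq_w hCF.pl hw).1 ((Nat.prime_dvd_prime_iff_eq w.prime Nat.prime_two).1
        (Int.natCast_dvd_natCast.1 d))
    obtain ⟨u, hu⟩ := hX.bad w (by
      rw [show 15 * (-l * S.d) = 15 * S.d * (-l : ℤ) by ring]; exact h1.mul_right _)
    filter_upwards [Cob.near hr hc (H' := fun _ => w.D) (.of_forall fun _ => le_top) hu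
      (ε := 4⁻¹) (by norm_num)] with k e _
    refine ⟨u, fun g hg => ⟨?_, e g hg⟩⟩
    have := X1 (cs g)
    rwa [hu _ (cs_mem.2 hg), rS_cs] at this
  obtain ⟨v, hv⟩ := hX.ord
  have hv2 : ‖(![0, v 1] : V2)‖ ≤ 2 := by
    obtain ⟨φ, h1, h2, -⟩ := Pl.exists_f2 hCF.toCA S.w2 hG.hd f3
    have h3 := hv _ (cs_mem.2 h1)
    rw [Pi.sub_apply, sub_eq_zero, rS_cs] at h3
    have h4 := (norm_le_pi_norm _ 1).trans (X1 (cs φ))
    rw [h3, show (S.T.rq δ φ v - v) 1 = _ from bd_one S.T δ v h1, norm_mul, half S.T h2] at h4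
    refine (pi_norm_le_iff_of_nonneg zero_le_two).2 (Fin.forall_fin_two.2 ⟨by simp, ?_⟩)
    simp only [Matrix.cons_val_one, Matrix.cons_val_zero]
    linarith
  filter_upwards [e1, hX.pz.ac hr hc (ε := (2 ^ 3)⁻¹) (by norm_num), e4, e5,
    (eventually_all_finset S.R).2 e6, near hr hc hv] with k e1 e2 e4 e5 e6 e7
  have hz : S.T.Zc δ ⊤ 3 (c k) := ⟨hc.uc k _ (by norm_num), e1, e2⟩
  refine ⟨hz, fun w hw g hg => e4 (w, g) ⟨hg, fun d => hw ?_⟩,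
    fun w hw g hg => ?_, fun w hw => ⟨e6 w hw, fun _ => ⟨_, c k, hv2, hz.mono le_top le_rfl,
      fun g hg => ⟨by simp, ?_⟩⟩⟩⟩
  · rwa [show 30 * (-l * S.d) = -(30 * S.d * l : ℤ) by ring, dvd_neg] at d
  · obtain ⟨σ, rfl⟩ := hCF.pl.2.1 w₀ w (h₀.trans hw.symm)
    obtain ⟨y, hy, hl⟩ := (hz.mono le_rfl (by norm_num : 1 ≤ 3)).exists_lf
    have h1 : y (σ⁻¹ * g * σ) = y g := by
      rw [hy.2 _ trivial _ trivial, hy.2 _ trivial _ trivial, hy.inv trivial]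
      abel
    refine (pi_norm_le_iff_of_nonneg (by norm_num)).2 fun j => (hl.zero_iff trivial j).1 ?_
    rw [← h1]
    exact (hl.zero_iff trivial j).2 ((norm_le_pi_norm _ j).trans (e5 _ (Pl.mem_D_smul.1 hg)))
  · have := e7 g hg
    rw [Pi.sub_apply, bd_one S.T δ _ hg] at this ⊢
    exact this

end TRED2

open TRED TRED2 in
theorem t_RED2 (hCF : CF) : RED2 := by
  intro S l δ hG hn
  obtain ⟨x, y, hx, hy, h0⟩ : ∃ x y, SelQ S.T δ (-l * S.d) x ∧ SelQ S.T δ (-l * S.d) y ∧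
      ∀ a b : ℚ_[2], a ≠ 0 ∨ b ≠ 0 → ¬ Cob ⊤ (S.T.rq δ) (a • x + b • y) := by
    by_contra! e
    exact hn e
  obtain ⟨f1, f2, f3, f4, f5⟩ := hG.fix
  have hr := S.T.rep f1
  obtain ⟨w₀, h₀⟩ := hCF.pl.1 l hG.lp
  have l30 : ¬ w₀.p ∣ 30 := fun d => f5 ((h₀ ▸ Int.natCast_dvd_natCast.2 d).mul_right _)
  have l2 : w₀.p ≠ 2 := fun d => l30 (by rw [d]; norm_num)
  obtain ⟨t, ht, hβ⟩ := Pl.exists_gen hCF.tame hCF.res l2
  have rt : ∀ v, rS (S.T.rq δ) (cs t) v = -v := fun v => by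
    have := Pl.gen_move hCF.tame hCF.res l2 ht hβ (δ := δ) (m := -S.d)
      (by rw [hG.hd, h₀]; push_cast; ring) fun d => f5 (h₀ ▸ (dvd_neg.1 d).mul_left _)
    rw [rS_cs, Tate.rq_apply, Tate.rd, sd_eq_neg.2 (by rw [this]; exact fun e => f2 (by
      linear_combination (-1 / 2 : Om) * e)), (hCF.tr _ S.T w₀ l30).1 t ht]
    simp [Matrix.neg_mulVec]
  have nrm : ∀ x, SelQ S.T δ (-l * S.d) x → ∃ x', SelQ S.T δ (-l * S.d) x' ∧ x' (cs t) = 0 ∧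
      ∃ u, ∀ g, x g = x' g + (rS (S.T.rq δ) g u - u) := fun x hx => by
    refine ⟨_, add_cob hCF hG.hd hx ((2⁻¹ : ℚ_[2]) • x (cs t)), ?_,
      -((2⁻¹ : ℚ_[2]) • x (cs t)), fun g => ?_⟩
    · rw [Pi.add_apply, rt, ← neg_add', ← add_smul]
      norm_num
    · rw [Pi.add_apply, hr.rS_neg]
      abel
  obtain ⟨x', hx', xt, u, hu⟩ := nrm x hx
  obtain ⟨y', hy', yt, u', hu'⟩ := nrm y hy
  have ind : ∀ a b : ℚ_[2], a ≠ 0 ∨ b ≠ 0 → ∃ g, (a • x' + b • y') g ≠ 0 := fun a b hab => by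
    by_contra! e
    refine h0 a b hab ⟨a • u + b • u', fun g _ => ?_⟩
    have := e g
    simp only [Pi.add_apply, Pi.smul_apply] at this ⊢
    rw [hu, hu', hr.rS_add, hr.rS_smul, hr.rS_smul]
    linear_combination (norm := module) this
  have scl : ∀ z, SelQ S.T δ (-l * S.d) z → (∃ g, z g ≠ 0) →
      ∃ a : ℚ_[2], (∀ g, ‖(a • z) g‖ ≤ 1) ∧ ∃ g, ‖(a • z) g‖ = 1 := fun z hz ⟨g, hg⟩ => by
    obtain ⟨c, hc⟩ := hz.pz.1
    obtain ⟨B, hB⟩ := hc.bdd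
    exact scale (fun g => hB g (top g)) hg
  obtain ⟨a, X1, g₀, X0⟩ := scl x' hx' (by simpa using ind 1 0 (.inl one_ne_zero))
  obtain ⟨j, hj⟩ : ∃ j, ‖(a • x') g₀ j‖ = 1 := by
    by_contra! e
    exact X0.not_lt ((pi_norm_lt_iff one_pos).2 fun j =>
      lt_of_le_of_ne ((norm_le_pi_norm _ j).trans X0.le) (e j))
  have hj0 : (a • x') g₀ j ≠ 0 := fun e => by simp [e] at hj
  have hz := add hr (smul hr hx' (-(y' g₀ j / (a • x') g₀ j) * a)) (smul hr hy' 1)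
  obtain ⟨b, Y1, g₁, Y0⟩ := scl _ hz (ind _ 1 (.inr one_ne_zero))
  have Yj : (b • ((-(y' g₀ j / (a • x') g₀ j) * a) • x' + (1 : ℚ_[2]) • y')) g₀ j = 0 := by
    simp only [Pi.add_apply, Pi.smul_apply, smul_eq_mul] at hj0 ⊢
    rw [mul_assoc, neg_mul, div_mul_cancel₀ _ hj0, one_mul, neg_add_cancel, mul_zero]
  have Yt : (b • ((-(y' g₀ j / (a • x') g₀ j) * a) • x' + (1 : ℚ_[2]) • y')) (cs t) = 0 := by
    rw [Pi.smul_apply, Pi.add_apply, Pi.smul_apply _ x', Pi.smul_apply _ y', xt, yt]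
    simp
  have Xt : (a • x') (cs t) = 0 := by rw [Pi.smul_apply, xt, smul_zero]
  have hX := smul hr hx' a
  have hY := smul hr hz b
  generalize b • ((-(y' g₀ j / (a • x') g₀ j) * a) • x' + (1 : ℚ_[2]) • y') = Y at Y1 Y0 Yj Yt hY
  generalize a • x' = X at X1 X0 hj Xt hX
  have XY : ‖X g₀ - Y g₀‖ = 1 := by
    refine le_antisymm ?_ ?_
    · rw [sub_eq_add_neg]
      exact SelA.add (X1 g₀) (by rw [norm_neg]; exact Y1 g₀)
    · have := norm_le_pi_norm (X g₀ - Y g₀) j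
      rwa [Pi.sub_apply, Yj, sub_zero, hj] at this
  obtain ⟨c, hc⟩ := hX.pz.1
  obtain ⟨c', hc'⟩ := hY.pz.1
  obtain ⟨k, e1, e2, e3, e4, e5⟩ := ((core hCF hG h₀ ht rt hX Xt X1 hc).and
    ((core hCF hG h₀ ht rt hY Yt Y1 hc').and
    ((PatA.near (hc.lim g₀ (top g₀)) tendsto_const_nhds (ε := 2⁻¹) (by norm_num)).and
    ((PatA.near (hc'.lim g₀ (top g₀)) tendsto_const_nhds (ε := 2⁻¹) (by norm_num)).and
    (PatA.near (hc'.lim g₁ (top g₁)) tendsto_const_nhds (ε := 2⁻¹) (by norm_num)))))).exists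
  refine ⟨fun s => bif s then c k else c' k, ⟨g₀ k, eq_one ?_ XY⟩, fun s => ?_⟩
  · show ‖c k (g₀ k) - c' k (g₀ k) - (X g₀ - Y g₀)‖ ≤ _
    rw [sub_sub_sub_comm, sub_eq_add_neg]
    exact SelA.add e3 (by rw [norm_neg]; exact e4)
  · cases s
    · exact ⟨e2.1, ⟨g₁ k, eq_one e5 Y0⟩, e2.2⟩
    · exact ⟨e1.1, ⟨g₀ k, eq_one e3 X0⟩, e1.2⟩

end Pool.Agent.P.MP_8b7eba_nt.R2
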