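import Pool.Agent.P.MP_8b7eba_nt.R2.LC

/-! Proof of SUF, GLIFT, THX. -/

namespace Pool.Agent.P.MP_8b7eba_nt.R2

open scoped NNReal Matrix

namespace TSUF

theorem z2 (s : ZMod 2) : s = 0 ∨ s = 1 := by revert s; decide

theorem val_le (s : ZMod 2) : ‖(s.val : ℚ_[2])‖ ≤ 1 := by
  rcases z2 s with rfl | rfl <;> simp [ZMod.val_one, -ZMod.natCast_val]

theorem two_val (s : ZMod 2) : ‖2 * (s.val : ℚ_[2])‖ ≤ 2⁻¹ := by
  rw [norm_mul, SelA.two]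
  exact mul_le_of_le_one_right (by norm_num) (val_le s)

theorem lf_le {H : Subgroup GQ} {x : X2} {c : GQ → V2} (h : Lf H x c) {g : GQ} (hg : g ∈ H) :
    ‖c g‖ ≤ 1 := (pi_norm_le_iff_of_nonneg zero_le_one).2 fun i => by
  rw [← sub_add_cancel (c g i) (x g i).val]
  exact SelA.add ((h g hg i).trans (by norm_num)) (val_le _)

theorem half (s v : ZMod 2) :
    ‖(-1) ^ s.val * ((v.val : ℚ_[2]) / 2) - v.val / 2 - (v * s).val‖ ≤ 2⁻¹ := by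
  refine le_of_eq_of_le ?_ (two_val (v * s))
  rw [← norm_neg]
  congr 1
  rcases z2 s with rfl | rfl <;> simp [ZMod.val_one]
  ring

/-- the coboundaries of the points of order two -/
theorem bd (hE : EC) {w : Pl} (T : Tate w) {δ : Om} {m : ℤ} (h : δ ^ 2 = m) (hm : m ≠ 0)
    (v₀ v₁ : ZMod 2) : ∃ u : V2, ‖u‖ ≤ 2 ∧
      Lf ⊤ (fun g => ![v₀ * qz (-m) g, v₁ * qz m g]) (T.bd δ u) := by
  have k : ∀ v : ZMod 2, ‖(v.val : ℚ_[2]) / 2‖ ≤ 2 := fun v => by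
    rw [norm_div, SelA.two, div_inv_eq_mul]
    exact mul_le_of_le_one_left zero_le_two (val_le v)
  have hu : ‖(![v₀.val / 2, v₁.val / 2] : V2)‖ ≤ 2 :=
    (pi_norm_le_iff_of_nonneg zero_le_two).2 (Fin.forall_fin_two.2 ⟨k _, k _⟩)
  refine ⟨_, hu, fun g _ => ?_⟩
  have e := (pi_norm_le_iff_of_nonneg (by norm_num)).1 ((T.rd_four hE h hm g _).trans
    (show 4⁻¹ * ‖(![v₀.val / 2, v₁.val / 2] : V2)‖ ≤ 2⁻¹ by linarith))
  refine Fin.forall_fin_two.2 ⟨?_, ?_⟩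
  · refine le_of_eq_of_le (congrArg _ ?_) (SelA.add (e 0) (half (qz (-m) g) v₀))
    simp [Tate.bd]
    ring
  · refine le_of_eq_of_le (congrArg _ ?_) (SelA.add (e 1) (half (qz m g) v₁))
    simp [Tate.bd]
    ring

theorem unr (hA : CA) {w : Pl} {χ : GQ → ZMod 2} {m : ℤ} (h : IsCh w.D χ)
    (hI : ∀ g ∈ w.I, χ g = 0) (hm : ¬ (w.p : ℤ) ∣ 2 * m) (hj : jacobiSym m w.p ≠ 1) :
    ∃ v, ∀ g ∈ w.D, χ g = v * qz m g := by
  obtain ⟨φ, hφ⟩ := w.exists_frob hA.frob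
  have c := isCh_qz (H := w.D) m
  refine ⟨χ φ, fun g hg => sub_eq_zero.1 (ch_unr hA.frob (χ := fun g => χ g - χ φ * qz m g)
    ⟨h.1.comp₂ c.1 fun a b => a - χ φ * b, fun a ha b hb => ?_⟩ (fun i hi => ?_) hφ ?_ g hg)⟩
  · simp only [h.2 a ha b hb, c.2 a ha b hb]; ring
  · rw [hI i hi, qz_I hA hm hi, mul_zero, sub_zero]
  · rw [(z2 _).resolve_left (mt (qz_frob hA hm hφ).1.1 hj), mul_one, sub_self]

theorem alt {H : Subgroup GQ} {α β : GQ → ZMod 2} (h : (∀ g ∈ H, α g = 0) ∨ ∀ g ∈ H, α g = β g) :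
    ∃ v, ∀ g ∈ H, α g = v * β g :=
  h.elim (fun h => ⟨0, by simpa using h⟩) fun h => ⟨1, by simpa using h⟩

theorem triv0 {H : Subgroup GQ} {κ : GQ → GQ → ZMod 2} (h : ∀ g ∈ H, ∀ k ∈ H, κ g k = 0) :
    Triv H (sgn κ) := Triv.one.congr fun g hg k hk => by simp [sgn, h g hg k hk]

theorem lift (hA : CA) (hGTH : GTH) {S : LS} {l : ℕ} {δ : Om} (hl : S.Gl l δ) {x : X2}
    (hx : S.GX x) (j : Fin 2) {m : ℤ} (hm : m ∣ l * S.d)
    (ht : ∀ w ∈ S.R, ∃ θ, Bd w.D (fun g k => (x g j + qz m g) * x k j) θ) :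
    ∃ θ, Bd ⊤ (fun g k => (x g j + qz m g) * x k j) θ ∧
      ∀ w : Pl, ¬ (w.p : ℤ) ∣ 30 * S.d * l → ∀ i ∈ w.I, θ i = 0 := by
  have c1 := (hx.ch (H := ⊤)).2 j
  have c2 := isCh_qz (H := ⊤) m
  refine hGTH _ _ (mul_ne_zero (mul_ne_zero (by norm_num) S.d_ne.1) (Nat.cast_ne_zero.2
    hl.lp.ne_zero)) ⟨15 * S.d * l, by ring⟩ (co2_cup ⟨c1.1.comp₂ c2.1 (· + ·),
      fun a ha b hb => by
        have := c1.2 a ha b hb
        simp only [this, c2.2 a ha b hb] at this ⊢; ring⟩ c1) (fun w hw i hi g => ?_)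
    (fun p hp h => ?_) fun g _ k hk => by simp [hx.tau hA hk]
  · have e1 := hx.unr hA (fun h => hw (h.trans ⟨5 * l, by ring⟩)) hi
    have e2 := qz_I hA (m := m) (fun h => hw (h.trans ((mul_dvd_mul_left 2 hm).trans
      ⟨15, by ring⟩))) hi
    simp [e1, e2]
  rcases (Nat.prime_iff_prime_int.1 hp).dvd_or_dvd h with h | h
  · obtain ⟨w, h1, h2⟩ := S.exists_mem hA.pl hp h
    obtain ⟨θ, h3⟩ := ht w h1
    exact ⟨w, h2, h3.triv⟩
  · obtain ⟨w, hw⟩ := hA.pl.1 p hp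
    have e := hw.trans ((Nat.prime_dvd_prime_iff_eq hp hl.lp).1 (Int.natCast_dvd_natCast.1 h))
    exact ⟨w, hw, triv0 fun g _ k hk => by simp [hx.at hA hl e hk]⟩

end TSUF

open TSUF in
theorem t_SUF (hF : CF) (hLOC8 : LOC8) (hSUF3 : SUF3) : SUF := by
  intro S l δ hl x hx w hw
  have hA := hF.toCA
  obtain ⟨f1, -, f3, f4, -⟩ := hl.fix
  have hd : δ ^ 2 = ((-l * S.d : ℤ) : Om) := hl.hd
  have m0 := f4.ne_zero
  have dv := S.dvd hw
  by_cases h2 : w.p = 2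
  · obtain rfl := (S.eq_w hA.pl hw).1 h2
    obtain ⟨a, -, -, a1, a2⟩ := hx.ex 0
    obtain ⟨c, c1, c2⟩ := hLOC8 _ S.T δ _ a h2 hd f3 (by exact_mod_cast a1)
    obtain ⟨v, hv⟩ : ∃ v, ∀ g ∈ S.w.D, x g 1 = v * qz (-l * S.d) g := by
      obtain ⟨b, -, -, b1, b2, -⟩ := hx.2
      have b3 : ∀ g, x g 1 = qz b g := congrFun b2
      refine alt ((show (b : ℤ) % 8 = 1 ∨ (b : ℤ) % 8 = 5 by omega).imp
        (fun h g hg => (b3 g).trans (qz_D_two hA h2 h hg)) fun h g hg => ?_)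
      have := qz_D_two hA h2 (m := b * (-l * S.d)) (by rw [Int.mul_emod, h, f3]; rfl) hg
      rw [qz_mul (by omega) m0, Pi.add_apply] at this
      rw [b3, eq_neg_of_add_eq_zero_left this, ZMod.neg_eq_self_mod_two]
    obtain ⟨u, u1, u2⟩ := bd hA.ec S.T hd m0 0 v
    refine ⟨c + S.T.bd δ u, ⟨fun h => absurd rfl h, fun _ => ⟨u, _, u1,
      c1.add (S.T.zc_bd f1 (fun g _ => lf_le u2 trivial) 3), fun g hg => ⟨by simp, by
        simp [(c2 g hg).1]⟩⟩⟩, fun g hg => Fin.forall_fin_two.2 ⟨?_, ?_⟩⟩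
    · refine le_of_eq_of_le (congrArg _ ?_) (SelA.add (c2 g hg).2 (u2 g trivial 0))
      simp [a2]
      ring
    · refine le_of_eq_of_le (congrArg _ ?_) (u2 g trivial 1)
      simp [hv g hg, (c2 g hg).1]
  by_cases h3 : w.p = 3
  · exact hSUF3 S l δ hl x hx w h3
  obtain ⟨⟨v₀, e₀⟩, v₁, e₁⟩ : (∃ v, ∀ g ∈ w.D, x g 0 = v * qz (-S.d) g) ∧
      ∃ v, ∀ g ∈ w.D, x g 1 = v * qz S.d g := by
    rcases (Nat.prime_iff_prime_int.1 w.prime).dvd_or_dvd dv with h | h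
    · have h5 : w.p = 5 := by
        have h6 : w.p ∣ 2 * 3 * 5 := by exact_mod_cast h
        simpa [w.prime.dvd_mul, Nat.prime_dvd_prime_iff_eq w.prime Nat.prime_two,
          Nat.prime_dvd_prime_iff_eq w.prime Nat.prime_three,
          Nat.prime_dvd_prime_iff_eq w.prime Nat.prime_five, h2, h3, -Nat.reduceMul] using h6
      have n5 := S.d_ne.2.2.2.1
      have u := fun g => hx.unr hA (w := w) (g := g) (by rw [h5]; omega)
      refine ⟨unr hA (hx.ch.2 0) (fun g hg => congrFun (u g hg) 0) (by rw [h5]; omega) ?_,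
        unr hA (hx.ch.2 1) (fun g hg => congrFun (u g hg) 1) (by rw [h5]; omega) ?_⟩
      · rw [h5, jacobiSym.neg _ (by decide), S.j5]
        decide
      · rw [h5, S.j5]
        decide
    · obtain ⟨⟨_, -, -, -, a⟩, _, -, -, -, -, b⟩ := hx
      exact ⟨alt (a w h), alt (b w h)⟩
  obtain ⟨u, -, u2⟩ := bd hA.ec S.T hd m0 v₀ v₁
  refine ⟨S.T.bd δ u, ⟨fun _ => ⟨u, fun g _ => ⟨lf_le u2 trivial, by simp⟩⟩,
    fun h => absurd (h ▸ S.w2) h2⟩, fun g hg => Fin.forall_fin_two.2 ⟨?_, ?_⟩⟩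
  · rw [e₀ g hg, ← (hl.loc hA dv hg).2.2.1, ← neg_neg (l * S.d), ← neg_mul]
    exact u2 g trivial 0
  · rw [e₁ g hg, ← (hl.loc hA dv hg).2.1]
    exact u2 g trivial 1

open TSUF in
theorem t_GLIFT (hF : CF) (hGTH : GTH) (hISO : ISO) : GLIFT := by
  intro S l δ hl x b hx hb
  have hA := hF.toCA
  obtain ⟨f1, -, -, f4, -⟩ := hl.fix
  have k := fun w hw => (hISO _ w S.T δ _ _ f1 (hb w hw).1 (hb w hw).1).1.bd_of hA.ec hl.hd
    f4.ne_zero (hb w hw).2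
  obtain ⟨θ, t1, t2⟩ := lift hA hGTH hl hx 0 (by simp) fun w hw => (k w hw).1
  obtain ⟨θ', t3, t4⟩ := lift hA hGTH hl hx 1 (by simp) fun w hw => (k w hw).2
  refine ⟨_, S.T.zc_of_bd hA.ec hl.hd f4.ne_zero hx.ch.1 t1 t3,
    fun g _ => Fin.forall_fin_two.2 ⟨by simpa using two_val _, by simpa using two_val _⟩,
    fun w hw g hg => ?_, hb⟩
  simp [hx.unr hA (fun h => hw (h.trans ⟨5 * l, by ring⟩)) hg, t2 w hw g hg, t4 w hw g hg,
    pi_norm_le_iff_of_nonneg]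

open TSUF in
theorem t_THX (hF : CF) (hGTH : GTH) (hISO : ISO) (hSUF : SUF) : THX := by
  intro S l δ hl x y hx hy
  have hA := hF.toCA
  refine hGTH _ _ (mul_ne_zero (by norm_num) S.d_ne.1) ⟨15 * S.d, by ring⟩
    (co2_d2 hx.ch.1 hy.ch.1) (fun w hw i hi g => ?_) (fun p hp h => ?_)
    fun g hg k _ => by simp [d2, hx.tau hA hg]
  · have e : ¬ (w.p : ℤ) ∣ 6 * S.d := fun h => hw (h.trans ⟨5, by ring⟩)
    simp [d2, hx.unr hA e hi, hy.unr hA e hi]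
  obtain ⟨w, h1, h2⟩ := S.exists_mem hA.pl hp h
  obtain ⟨b, b1, b2⟩ := hSUF S l δ hl x hx w h1
  obtain ⟨c, c1, c2⟩ := hSUF S l δ hl y hy w h1
  refine ⟨w, h2, ((hISO _ w S.T δ b c hl.fix.1 b1 c1).2.pow 2).congr fun g hg k hk => ?_⟩
  rw [Pi.pow_apply, Pi.pow_apply, Tate.wp, sq, ← hA.ec.1.add, ← add_div, ← two_mul,
    show ∀ a : ℚ_[2], 2 * a / 4 = a / 2 from fun a => by ring,
    ec_dt hA.ec (b2 g hg) (b := y k) fun j => ?_]
  · rfl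
  rw [← sub_add_sub_cancel _ (c k j)]
  refine SelA.add ((norm_le_pi_norm (S.T.rd δ g *ᵥ c k - c k) j).trans
    ((S.T.rd_norm δ g _).2.trans ?_)) (c2 k hk j)
  exact mul_le_of_le_one_right (by norm_num) (lf_le c2 hk)

end Pool.Agent.P.MP_8b7eba_nt.R2
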