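import Pool.Agent.P.MP_8b7eba_nt.R2.LC

/-! The local condition at three. -/

namespace Pool.Agent.P.MP_8b7eba_nt.R2

open scoped NNReal Matrix

namespace TSUF3

theorem lt_half {a : ℚ_[2]} (h : ‖a‖ < 1) : ‖a‖ ≤ 2⁻¹ := by
  have := (Padic.norm_le_pow_iff_norm_lt_pow_add_one (p := 2) a (-1)).2 (by simpa using h)
  simpa using this

theorem four : ‖(4 : ℚ_[2])‖ = 4⁻¹ := by
  rw [show (4 : ℚ_[2]) = 2 * 2 by norm_num, norm_mul, SelA.two]; norm_num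

theorem nat (n : ℕ) : ‖(n : ℚ_[2])‖ ≤ 1 := by
  simpa using Padic.norm_int_le_one (p := 2) (n : ℤ)

theorem add_le {a b : ℚ_[2]} {r : ℝ} (ha : ‖a‖ ≤ r) (hb : ‖b‖ ≤ r) : ‖a + b‖ ≤ r :=
  (IsUltrametricDist.norm_add_le_max a b).trans (max_le ha hb)

theorem sub_le {a b : ℚ_[2]} {r : ℝ} (ha : ‖a‖ ≤ r) (hb : ‖b‖ ≤ r) : ‖a - b‖ ≤ r := by
  rw [sub_eq_add_neg]; exact add_le ha (by rwa [norm_neg])

theorem mul_le {a b : ℚ_[2]} {r s k : ℝ} (ha : ‖a‖ ≤ r) (hb : ‖b‖ ≤ s) (h : r * s ≤ k) :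
    ‖a * b‖ ≤ k := by
  rw [norm_mul]
  exact (mul_le_mul ha hb (norm_nonneg _) ((norm_nonneg _).trans ha)).trans h

theorem vec_le {v : V2} {r : ℝ} (h0 : ‖v 0‖ ≤ r) (h1 : ‖v 1‖ ≤ r) : ‖v‖ ≤ r := by
  refine (pi_norm_le_iff_of_nonneg ((norm_nonneg _).trans h0)).2 fun i => ?_
  fin_cases i
  exacts [h0, h1]

theorem mv (A : Mt) (u : V2) (i : Fin 2) : (A *ᵥ u) i = A i 0 * u 0 + A i 1 * u 1 := by
  simp [Matrix.mulVec, dotProduct, Fin.sum_univ_two]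

/-- the matrices of inertia and Frobenius at three -/
theorem str (hCF : CF) {w₂ w : Pl} (T : Tate w₂) (hw : w.p = 3) {φ t : GQ} (hφ : w.IsFrob 1 φ)
    (ht : t ∈ w.I) (hβ : ∀ β : Om, β ^ 2 = w.p → t β = -β) :
    ∃ ε : ℚ_[2], ‖ε‖ ≤ 2⁻¹ ∧ ‖T.rho t 1 0‖ = 4⁻¹ ∧
      (∀ g ∈ w.I, T.rho g 0 0 = 1 + T.rho g 1 0 * ε ∧ T.rho g 0 1 = -(T.rho g 1 0 * ε * ε) ∧
        T.rho g 1 1 = 1 - T.rho g 1 0 * ε) ∧
      T.rho φ 0 0 = T.rho φ 1 0 * ε - 1 ∧ T.rho φ 0 1 = -2 * ε - T.rho φ 1 0 * ε * ε ∧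
        T.rho φ 1 1 = -3 - T.rho φ 1 0 * ε := by
  obtain ⟨e, -, h3, -, hI, hT, hF⟩ := hCF.unip w₂ T w (by rw [hw]; norm_num)
  have a0 : ‖e 0‖ < 1 := by simpa using (norm_le_pi_norm _ 0).trans_lt (h3 hw)
  have a1 : ‖e 1 - 1‖ < 1 := by simpa using (norm_le_pi_norm _ 1).trans_lt (h3 hw)
  have a2 : ‖e 1‖ = 1 := by
    have := Padic.add_eq_max_of_ne (p := 2) (q := e 1 - 1) (r := 1) (by rw [norm_one]; exact a1.ne)
    rw [sub_add_cancel, norm_one, max_eq_right a1.le] at this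
    exact this
  have a3 : e 1 ≠ 0 := fun h => by simp [h] at a2
  have a4 : ‖e 0 / e 1‖ ≤ 2⁻¹ := by rw [norm_div, a2, div_one]; exact lt_half a0
  have b10 : ∀ g, ‖T.rho g 1 0‖ ≤ 4⁻¹ := fun g => by simpa using T.four g 1 0
  obtain ⟨ε, hε⟩ : ∃ ε, ε = e 0 / e 1 := ⟨_, rfl⟩
  rw [← hε] at a4
  have e0 : e 0 = ε * e 1 := by rw [hε]; field_simp
  have hg : ∀ g ∈ w.I, T.rho g 0 0 = 1 + T.rho g 1 0 * ε ∧
      T.rho g 0 1 = -(T.rho g 1 0 * ε * ε) ∧ T.rho g 1 1 = 1 - T.rho g 1 0 * ε := fun g hg => by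
    obtain ⟨h1, h2⟩ := hI g hg
    obtain ⟨s, h2⟩ := h2 ![1, 0]
    have c0 := congrFun h1 0
    have c1 := congrFun h1 1
    have d0 := congrFun h2 0
    have d1 := congrFun h2 1
    simp only [mv, Pi.sub_apply, Pi.smul_apply, smul_eq_mul, Matrix.cons_val_zero,
      Matrix.cons_val_one, mul_one, mul_zero, add_zero, sub_zero, e0] at c0 c1 d0 d1
    have x0 : T.rho g 0 0 = 1 + T.rho g 1 0 * ε := by linear_combination d0 - ε * d1
    refine ⟨x0, mul_right_cancel₀ a3 ?_, mul_right_cancel₀ a3 ?_⟩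
    · linear_combination c0 - ε * e 1 * x0
    · linear_combination c1
  refine ⟨ε, a4, ?_, hg, ?_⟩
  · obtain ⟨i, j, h⟩ := (hT t ht hβ).1
    obtain ⟨x0, x1, x2⟩ := hg t ht
    refine le_antisymm (b10 t) (h ▸ ?_)
    have y : ‖T.rho t 1 0 * ε‖ ≤ ‖T.rho t 1 0‖ :=
      mul_le le_rfl a4 (by nlinarith [norm_nonneg (T.rho t 1 0)])
    have y' : ‖T.rho t 1 0 * ε * ε‖ ≤ ‖T.rho t 1 0‖ :=
      mul_le y a4 (by nlinarith [norm_nonneg (T.rho t 1 0)])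
    fin_cases i <;> fin_cases j
    · simpa [x0] using y
    · simpa [x1] using y'
    · simp
    · simpa [x2] using y
  · have hd := T.det φ
    have hc : cq φ = 3 := by
      rw [cq, hCF.ec.2.2.2.2.2.1 w 1 φ (by omega) hφ, hw]; rfl
    rw [Matrix.det_fin_two, hc] at hd
    rcases hF φ hφ with h | h
    · exfalso
      have c1 := congrFun h 1
      simp only [mv, Pi.smul_apply, smul_eq_mul, hw, e0] at c1
      have x : (2 : ℚ_[2]) = T.rho φ 1 0 * ε + (T.rho φ 1 1 - 1) :=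
        mul_right_cancel₀ a3 (by push_cast at c1; linear_combination -c1)
      have y : ‖T.rho φ 1 1 - 1‖ ≤ 4⁻¹ := by simpa using T.four φ 1 1
      have z := add_le (mul_le (b10 φ) a4 (by norm_num : (4⁻¹ : ℝ) * 2⁻¹ ≤ 4⁻¹)) y
      rw [← x, SelA.two] at z
      norm_num at z
    · have c0 := congrFun h 0
      have c1 := congrFun h 1
      simp only [mv, Pi.smul_apply, smul_eq_mul, hw, e0] at c0 c1
      push_cast at c0 c1
      have x1 : T.rho φ 1 1 = -3 - T.rho φ 1 0 * ε :=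
        mul_right_cancel₀ a3 (by linear_combination c1)
      have x2 : T.rho φ 0 1 = -3 * ε - T.rho φ 0 0 * ε :=
        mul_right_cancel₀ a3 (by linear_combination c0)
      have x0 : T.rho φ 0 0 = T.rho φ 1 0 * ε - 1 := by
        rw [x1, x2] at hd
        linear_combination (-1 / 3 : ℚ_[2]) * hd
      exact ⟨x0, by rw [x2, x0]; ring, x1⟩

/-- the coboundaries at three -/
theorem key (hCF : CF) {S : LS} {l : ℕ} {δ : Om} (h : S.Gl l δ) {w : Pl} (hw : w.p = 3)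
    {φ t : GQ} (hφ : w.IsFrob 1 φ) (ht : t ∈ w.I) (hβ : ∀ β : Om, β ^ 2 = w.p → t β = -β) :
    ∃ (ε μ : ℚ_[2]) (s : GQ → ℚ_[2]), ‖ε‖ ≤ 2⁻¹ ∧ ‖μ‖ ≤ 4⁻¹ ∧ ‖s t‖ = 4⁻¹ ∧
      (∀ g ∈ w.I, ‖s g‖ ≤ 4⁻¹ ∧ ∀ u : V2, S.T.bd δ u g 1 = (u 0 - u 1 * ε) * s g ∧
        S.T.bd δ u g 0 = ε * S.T.bd δ u g 1) ∧
      (jacobiSym S.d 3 = 1 → (∀ g ∈ w.D, qz (-l * S.d) g = 0) ∧ ∀ u : V2,
        S.T.bd δ u φ 1 = (u 0 - u 1 * ε) * μ - 4 * u 1 ∧
        S.T.bd δ u φ 0 = ε * S.T.bd δ u φ 1 - 2 * (u 0 - u 1 * ε)) ∧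
      (jacobiSym S.d 3 = -1 → (∀ g ∈ w.D, qz (-(-l * S.d)) g = 0) ∧ ∀ u : V2,
        S.T.bd δ u φ 1 = 2 * u 1 - (u 0 - u 1 * ε) * μ ∧
        S.T.bd δ u φ 0 = ε * S.T.bd δ u φ 1) := by
  obtain ⟨ε, h1, h2, h3, x0, x1, x2⟩ := str hCF S.T hw hφ ht hβ
  have hA := hCF.toCB.toCA
  have hd : (w.p : ℤ) ∣ 30 * S.d := by rw [hw]; exact Dvd.dvd.mul_right (by norm_num) _
  have n3 : ¬ (w.p : ℤ) ∣ 2 * S.d := by have := S.d_ne.2.2.1; rw [hw]; omega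
  have n3' : ¬ (w.p : ℤ) ∣ 2 * -S.d := by have := S.d_ne.2.2.1; rw [hw]; omega
  have hs : ∀ g ∈ w.D, sd δ g = (-1) ^ (qz S.d g).val := fun g hg => by
    rw [sd_eq_qz h.hd, (h.loc hA hd hg).2.1]
  refine ⟨ε, S.T.rho φ 1 0, fun g => S.T.rho g 1 0, h1, by simpa using S.T.four φ 1 0, h2,
    fun g hg => ⟨by simpa using S.T.four g 1 0, fun u => ?_⟩, fun hp => ?_, fun hn => ?_⟩
  · obtain ⟨y0, y1, y2⟩ := h3 g hg
    have e : S.T.rd δ g = S.T.rho g := by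
      simp [Tate.rd, hs g (w.I_le_D hg), qz_I hA n3 hg]
    simp only [Tate.bd, e, Pi.sub_apply, mv, y0, y1, y2]
    constructor <;> ring
  · have j : jacobiSym S.d w.p = 1 := hw ▸ hp
    have q := (qz_frob hA n3 hφ).1.2 j
    refine ⟨fun g hg => ?_, fun u => ?_⟩
    · rw [(h.loc hA hd hg).2.1]
      exact (qz_frob hA n3 hφ).2.1 q g hg
    · have e : S.T.rd δ φ = S.T.rho φ := by simp [Tate.rd, hs φ hφ.1, q]
      simp only [Tate.bd, e, Pi.sub_apply, mv]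
      rw [x0, x1, x2]
      constructor <;> ring
  · have j := hn
    have j' : jacobiSym (-S.d) w.p = 1 := by
      rw [hw, jacobiSym.neg _ (by decide), j]; decide
    have q : qz S.d φ = 1 := by
      have : qz S.d φ ≠ 0 := fun k => by
        have := (qz_frob hA n3 hφ).1.1 k
        rw [hw, j] at this
        omega
      revert this
      generalize qz S.d φ = a
      revert a
      decide
    refine ⟨fun g hg => ?_, fun u => ?_⟩
    · rw [neg_mul, neg_neg, (h.loc hA hd hg).2.2.1]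
      exact (qz_frob hA n3' hφ).2.1 ((qz_frob hA n3' hφ).1.2 j') g hg
    · have e : S.T.rd δ φ = -S.T.rho φ := by
        simp [Tate.rd, hs φ hφ.1, q, ZMod.val_one]
      simp only [Tate.bd, e, Pi.sub_apply, mv, Matrix.neg_apply]
      rw [x0, x1, x2]
      constructor <;> ring

/-- integrality of coboundaries -/
theorem int (hE : EC) {w : Pl} (T : Tate w) {δ : Om} {m : ℤ} (h : δ ^ 2 = m) (hm : m ≠ 0) (g : GQ)
    {u : V2} (h0 : ‖u 0‖ ≤ 4) (h1 : ‖u 1‖ ≤ 4) (k0 : qz (-m) g = 0 ∨ ‖u 0‖ ≤ 2)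
    (k1 : qz m g = 0 ∨ ‖u 1‖ ≤ 2) : ‖T.bd δ u g‖ ≤ 1 := by
  have a := (T.rd_four hE h hm g u).trans
    (show 4⁻¹ * ‖u‖ ≤ 1 by have := vec_le h0 h1; linarith)
  have b : ∀ (s : ZMod 2) (x : ℚ_[2]), s = 0 ∨ ‖x‖ ≤ 2 → ‖(-1) ^ s.val * x - x‖ ≤ 1 := by
    rintro s x (rfl | hx)
    · simp
    · rcases neg_one_pow_eq_or ℚ_[2] s.val with e | e
      · simp [e]
      · rw [e, show -1 * x - x = -(2 * x) by ring, norm_neg]
        exact mul_le SelA.two.le hx (by norm_num)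
  refine vec_le ?_ ?_
  · have := add_le ((norm_le_pi_norm _ 0).trans a) (b _ _ k0)
    simpa [Tate.bd] using this
  · have := add_le ((norm_le_pi_norm _ 1).trans a) (b _ _ k1)
    simpa [Tate.bd] using this

/-- a reduction is determined by two values -/
theorem lf_of (hA : CA) {w₂ w : Pl} {T : Tate w₂} {δ : Om} {c : GQ → V2} {x : X2} {φ t : GQ}
    (h2 : w.p ≠ 2) (hc : T.Zc δ w.D 1 c) (hx : ∀ j, IsCh w.D fun g => x g j) (hφ : w.IsFrob 1 φ)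
    (ht : t ∈ w.I) (hβ : ∀ β : Om, β ^ 2 = w.p → t β = -β)
    (e1 : ∀ j, ‖c t j - (x t j).val‖ ≤ 2⁻¹) (e2 : ∀ j, ‖c φ j - (x φ j).val‖ ≤ 2⁻¹) :
    Lf w.D x c := by
  obtain ⟨y, hy, hl⟩ := hc.exists_lf
  obtain ⟨r, -, hr, -⟩ := exists_red
  intro g hg j
  have k : IsCh w.D fun g => y g j - x g j :=
    ⟨hy.1.comp₂ (hx j).1 fun a b => a j - b, fun a ha b hb => by
      have := (hx j).2 a ha b hb
      simp only at this ⊢
      rw [hy.2 a ha b hb, this, Pi.add_apply]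
      ring⟩
  have k1 : y t j - x t j = 0 := by
    rw [← hr _ _ (e1 j), ← hr _ _ (hl t (w.I_le_D ht) j), sub_self]
  have k2 : y φ j - x φ j = 0 := by rw [← hr _ _ (e2 j), ← hr _ _ (hl φ hφ.1 j), sub_self]
  have := ch_unr hA.frob k (fun i hi => by
    have := ch_tame hA h2 (k.mono w.I_le_D) ht hβ i hi
    simpa [k1] using this) hφ k2 g hg
  rw [← sub_eq_zero.1 this]
  exact hl g hg j

end TSUF3

open TSUF3

theorem t_SUF3 (hCF : CF) : SUF3 := by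
  intro S l δ h x hx w hw
  have hA := hCF.toCB.toCA
  have h2 : w.p ≠ 2 := by omega
  obtain ⟨φ, hφ⟩ := w.exists_frob hCF.frob
  obtain ⟨t, ht, hβ⟩ := Pl.exists_gen hCF.tame hCF.res h2
  obtain ⟨ε, μ, s, hε, hμ, hs, hI, hp, hn⟩ := key hCF h hw hφ ht hβ
  have hm : (-l * S.d : ℤ) ≠ 0 := h.fix.2.2.2.1.ne_zero
  have i2 : ‖(2⁻¹ : ℚ_[2])‖ ≤ 2 := by rw [norm_inv, SelA.two, inv_inv]
  have i4 : ‖(4⁻¹ : ℚ_[2])‖ ≤ 4 := by rw [norm_inv, four, inv_inv]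
  suffices ∃ u, (∀ g ∈ w.D, ‖S.T.bd δ u g‖ ≤ 1) ∧ (∀ j, ‖S.T.bd δ u t j - (x t j).val‖ ≤ 2⁻¹) ∧
      ∀ j, ‖S.T.bd δ u φ j - (x φ j).val‖ ≤ 2⁻¹ by
    obtain ⟨u, a, b, c⟩ := this
    exact ⟨_, ⟨fun _ => ⟨u, fun g hg => ⟨a g hg, by simp⟩⟩, fun e => absurd (e ▸ S.w2) h2⟩,
      lf_of hA h2 (S.T.zc_bd h.fix.1 a 1) (fun j => hx.ch.2 j) hφ ht hβ b c⟩
  rcases S.j3 with hd | hd
  · obtain ⟨hq, hF⟩ := hn hd
    obtain ⟨a, -, -, ha, -⟩ := hx.1
    obtain ⟨be, hbe⟩ : ∃ be : ℚ_[2], be = (x t 1).val * 4⁻¹ := ⟨_, rfl⟩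
    obtain ⟨al, hal⟩ : ∃ al : ℚ_[2], al = ((x φ 1).val + be * μ) * 2⁻¹ := ⟨_, rfl⟩
    have nb : ‖be‖ ≤ 4 := hbe ▸ mul_le (nat _) i4 (by norm_num)
    have na : ‖al‖ ≤ 2 :=
      hal ▸ mul_le (add_le (nat _) (mul_le nb hμ (by norm_num))) i2 (by norm_num)
    have hi := fun g (hg : g ∈ w.D) => int hCF.ec S.T h.hd hm g (u := ![al * ε + be, al])
      (add_le (mul_le na hε (by norm_num)) nb) (na.trans (by norm_num)) (.inl (hq g hg)) (.inr na)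
    refine ⟨_, hi, fun j => ?_, fun j => ?_⟩
    · obtain ⟨y1, y0⟩ := (hI t ht).2 ![al * ε + be, al]
      fin_cases j
      · have := mul_le hε ((norm_le_pi_norm _ 1).trans (hi t (w.I_le_D ht))) (mul_one _).le
        simpa [ha hd w hw t (w.I_le_D ht), y0] using this
      · have k : ‖4⁻¹ * s t - 1‖ ≤ 2⁻¹ := by
          refine lt_half ?_
          have n1 : ‖4⁻¹ * s t‖ = 1 := by rw [norm_mul, norm_inv, four, hs]; norm_num
          obtain ⟨r, r1, -, -⟩ := exists_red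
          have r2 := r1 _ n1.le
          have : r (4⁻¹ * s t) = 1 := by
            by_contra k
            have k' : r (4⁻¹ * s t) = 0 := by
              revert k
              generalize r (4⁻¹ * s t) = z
              revert z
              decide
            rw [k', ZMod.val_zero, Nat.cast_zero, sub_zero, n1] at r2
            norm_num at r2
          rw [this, ZMod.val_one, Nat.cast_one] at r2
          linarith
        have := mul_le (nat (x t 1).val) k (one_mul _).le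
        rw [show ((x t 1).val : ℚ_[2]) * (4⁻¹ * s t - 1) =
          S.T.bd δ ![al * ε + be, al] t 1 - (x t 1).val by rw [y1, hbe]; simp; ring] at this
        exact this
    · obtain ⟨y1, y0⟩ := hF ![al * ε + be, al]
      fin_cases j
      · have := mul_le hε ((norm_le_pi_norm _ 1).trans (hi φ hφ.1)) (mul_one _).le
        simpa [ha hd w hw φ hφ.1, y0] using this
      · have : S.T.bd δ ![al * ε + be, al] φ 1 - (x φ 1).val = 0 := by
          rw [y1, hal]; simp; ring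
        exact (congrArg norm this).trans_le (by simp)
  · obtain ⟨hq, hF⟩ := hp hd
    obtain ⟨a, ha, ea, -⟩ := hx.1
    obtain ⟨b, -, hb, -, eb, -⟩ := hx.2
    have n3 : ∀ c : ℤ, c ∣ S.d → ¬ (w.p : ℤ) ∣ 2 * c := fun c hc k =>
      S.d_ne.2.2.1 (Dvd.dvd.trans (by rw [hw] at k; omega) hc)
    have z0 : x t 0 = 0 := (congrFun ea t).trans (qz_I hA (n3 _ ha) ht)
    have z1 : x t 1 = 0 := (congrFun eb t).trans (qz_I hA (n3 _ (hb hd)) ht)
    obtain ⟨be, hbe⟩ : ∃ be : ℚ_[2], be = -((x φ 0).val * 2⁻¹) := ⟨_, rfl⟩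
    obtain ⟨al, hal⟩ : ∃ al : ℚ_[2], al = -((x φ 1).val * 4⁻¹) := ⟨_, rfl⟩
    have nb : ‖be‖ ≤ 2 := by rw [hbe, norm_neg]; exact mul_le (nat _) i2 (by norm_num)
    have na : ‖al‖ ≤ 4 := by rw [hal, norm_neg]; exact mul_le (nat _) i4 (by norm_num)
    have n0 : ‖al * ε + be‖ ≤ 2 := add_le (mul_le na hε (by norm_num)) nb
    have hi := fun g (hg : g ∈ w.D) => int hCF.ec S.T h.hd hm g (u := ![al * ε + be, al])
      (n0.trans (by norm_num)) na (.inr n0) (.inl (hq g hg))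
    refine ⟨_, hi, fun j => ?_, fun j => ?_⟩
    · obtain ⟨y1, y0⟩ := (hI t ht).2 ![al * ε + be, al]
      fin_cases j
      · have := mul_le hε ((norm_le_pi_norm _ 1).trans (hi t (w.I_le_D ht))) (mul_one _).le
        simpa [z0, y0] using this
      · have := mul_le nb hs.le (by norm_num : (2 : ℝ) * 4⁻¹ ≤ 2⁻¹)
        simpa [z1, y1] using this
    · obtain ⟨y1, y0⟩ := hF ![al * ε + be, al]
      fin_cases j
      · have := mul_le hε ((norm_le_pi_norm _ 1).trans (hi φ hφ.1)) (mul_one _).le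
        rw [show ε * S.T.bd δ ![al * ε + be, al] φ 1 =
          S.T.bd δ ![al * ε + be, al] φ 0 - (x φ 0).val by rw [y0, hbe]; simp; ring] at this
        exact this
      · have := mul_le nb hμ (by norm_num : (2 : ℝ) * 4⁻¹ ≤ 2⁻¹)
        rw [show be * μ = S.T.bd δ ![al * ε + be, al] φ 1 - (x φ 1).val by
          rw [y1, hal]; simp; ring] at this
        exact this

theorem t_NEC3 (hCF : CF) : NEC3 := by
  intro S l δ h w b hw hb
  have h2 : w.p ≠ 2 := by omega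
  obtain ⟨φ, hφ⟩ := w.exists_frob hCF.frob
  obtain ⟨t, ht, hβ⟩ := Pl.exists_gen hCF.tame hCF.res h2
  obtain ⟨ε, μ, s, hε, hμ, hs, hI, hp, hn⟩ := key hCF h hw hφ ht hβ
  obtain ⟨u, hu⟩ := hb.1 fun e => h2 (e ▸ S.w2)
  have c : ∀ g ∈ w.D, ∀ j, ‖S.T.bd δ u g j‖ ≤ 2⁻¹ → ‖b g j‖ ≤ 2⁻¹ := fun g hg j k => by
    have := add_le (((norm_le_pi_norm _ j).trans (hu g hg).2).trans (by norm_num)) k
    simpa using this
  have c0 : ∀ g ∈ w.D, ‖ε * S.T.bd δ u g 1‖ ≤ 2⁻¹ := fun g hg =>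
    mul_le hε ((norm_le_pi_norm _ 1).trans (hu g hg).1) (mul_one _).le
  refine ⟨fun hd g hg => ?_, fun hd g hg => ?_⟩
  · obtain ⟨y1, y0⟩ := (hI g hg).2 u
    refine vec_le (c g (w.I_le_D hg) 0 (y0 ▸ c0 g (w.I_le_D hg))) (c g (w.I_le_D hg) 1 ?_)
    have k := sub_le ((c0 φ hφ.1).trans (by norm_num)) ((norm_le_pi_norm _ 0).trans (hu φ hφ.1).1)
    rw [((hp hd).2 u).2, sub_sub_cancel, norm_mul, SelA.two] at k
    rw [y1]
    exact mul_le (show ‖u 0 - u 1 * ε‖ ≤ 2 by linarith) (hI g hg).1 (by norm_num)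
  · obtain ⟨y, hy, hl⟩ := (S.T.zc_bd h.fix.1 (fun g hg => (hu g hg).1) 1).exists_lf
    refine c g hg 0 ((hl.zero_iff hg 0).1 ?_)
    refine ch_unr hCF.frob (χ := fun g => y g 0) ⟨hy.1.comp fun a => a 0, fun a ha b hb => ?_⟩
      (fun i hi => (hl.zero_iff (w.I_le_D hi) 0).2 ?_) hφ ((hl.zero_iff hφ.1 0).2 ?_) g hg
    · simp only [hy.2 a ha b hb, Pi.add_apply]
    · rw [((hI i hi).2 u).2]
      exact c0 i (w.I_le_D hi)
    · rw [((hn hd).2 u).2]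
      exact c0 φ hφ.1

end Pool.Agent.P.MP_8b7eba_nt.R2
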