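import Pool.Agent.P.MP_8b7eba_nt.R2.AllB
import Pool.Agent.P.MP_8b7eba_nt.R2.TABHNQ
import Pool.Agent.P.MP_8b7eba_nt.R2.TAUXL
import Pool.Agent.P.MP_8b7eba_nt.R2.TCHL
import Pool.Agent.P.MP_8b7eba_nt.R2.TCNT
import Pool.Agent.P.MP_8b7eba_nt.R2.TCNT0
import Pool.Agent.P.MP_8b7eba_nt.R2.TCNT1
import Pool.Agent.P.MP_8b7eba_nt.R2.TCTP
import Pool.Agent.P.MP_8b7eba_nt.R2.TISO
import Pool.Agent.P.MP_8b7eba_nt.R2.TLOC8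
import Pool.Agent.P.MP_8b7eba_nt.R2.TNEC
import Pool.Agent.P.MP_8b7eba_nt.R2.TRED
import Pool.Agent.P.MP_8b7eba_nt.R2.TRED2
import Pool.Agent.P.MP_8b7eba_nt.R2.TSUF
import Pool.Agent.P.MP_8b7eba_nt.R2.TSUF3

/-! The auxiliary prime exists. -/

namespace Pool.Agent.P.MP_8b7eba_nt.R2

theorem a_NU2 : NU2 := t_NU2 a_CA

theorem a_NEC3 : NEC3 := t_NEC3 a_CF

theorem a_NEC : NEC := t_NEC a_CF a_NU2 a_NEC3

theorem a_RED : RED := t_RED a_CF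

theorem a_RED2 : RED2 := t_RED2 a_CF

theorem a_ISO : ISO := t_ISO a_CA

theorem a_LOC8 : LOC8 := t_LOC8 a_CA a_NU2

theorem a_SUF3 : SUF3 := t_SUF3 a_CF

theorem a_SUF : SUF := t_SUF a_CF a_LOC8 a_SUF3

theorem a_ABHNQ : ABHNQ := t_ABHNQ a_CA

theorem a_GTH : GTH := t_GTH a_CA a_ABHNQ

theorem a_GLIFT : GLIFT := t_GLIFT a_CF a_GTH a_ISO

theorem a_SYMM : SYMM := t_SYMM a_CF a_ISO

theorem a_CTP : CTP := t_CTP a_CF a_ISO a_SUF a_GLIFT a_SYMM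

theorem a_VAR : VAR := t_VAR a_CF a_ISO

theorem a_CNT0 : CNT0 := t_CNT0

theorem a_CNT1 : CNT1 := t_CNT1

theorem a_CNT : CNT := t_CNT a_CA a_CNT0 a_CNT1

theorem a_LIN : LIN := t_LIN

theorem a_LIN2 : LIN2 := t_LIN2 a_LIN

theorem a_CHL : CHL := t_CHL a_CA

theorem a_THX : THX := t_THX a_CF a_GTH a_ISO a_SUF

theorem a_AUX2 : AUX2 := t_AUX2 a_CF a_NEC a_RED a_RED2 a_CTP a_VAR a_CNT a_LIN2 a_CHL a_GLIFT a_THX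

end Pool.Agent.P.MP_8b7eba_nt.R2
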