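import Pool.Agent.P.MP_8b7eba_nt.R2.IfE
import Pool.Agent.P.MP_8b7eba_nt.BSD15.Genus

/-! Ring class groups. -/

namespace Pool.Agent.P.MP_8b7eba_nt.R2

open scoped NNReal nonZeroDivisors
open MP_9c97e9_nt (pm Is ap)
open BSD15 (OO Good nm cj)
open _root_.Pool.Agent.P.MP_8b7eba_nt.Mod (M2 G0 xx al)
open R1 (emb Dl psi Pz KF U8 IntPt y1)

set_option linter.unusedSectionVars false

variable {l : ℕ} [Hl l] {c c' : ℕ} {I J : Ideal (OO l)} {α β : OO l}

theorem Ad.mul (h : Ad c I) (h' : Ad c J) : Ad c (I * J) :=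
  ⟨mul_ne_zero h.1 h'.1, by rw [BSD15.nm_mul]; exact Nat.Coprime.mul_left h.2 h'.2⟩

theorem ad_top : Ad c (⊤ : Ideal (OO l)) :=
  ⟨top_ne_bot, by rw [BSD15.genus_nm_top]; exact Nat.coprime_one_left c⟩

theorem Ad.pow (h : Ad c I) (n : ℕ) : Ad c (I ^ n) := by
  induction n with
  | zero => rw [pow_zero, Ideal.one_eq_top]; exact ad_top
  | succ n ih => rw [pow_succ]; exact ih.mul h

theorem Ad.cj (h : Ad c I) : Ad c (cj I) :=
  ⟨BSD15.genus_cj_ne_bot h.1, by rw [BSD15.nm_cj]; exact h.2⟩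

theorem Ad.mono (h : Ad c' I) (h' : c ∣ c') : Ad c I := ⟨h.1, h.2.coprime_dvd_right h'⟩

theorem Ad.of_mul (h : Ad c (I * J)) : Ad c I ∧ Ad c J := by
  have h2 := h.2
  rw [BSD15.nm_mul, Nat.coprime_mul_iff_left] at h2
  exact ⟨⟨left_ne_zero_of_mul h.1, h2.1⟩, ⟨right_ne_zero_of_mul h.1, h2.2⟩⟩

theorem ad_one : Ad 1 I ↔ I ≠ ⊥ := ⟨fun h => h.1, fun h => ⟨h, Nat.coprime_one_right _⟩⟩

theorem ad_two_pow {n : ℕ} (h : Ad 2 I) : Ad (2 ^ n) I := ⟨h.1, h.2.pow_right n⟩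

theorem ad_span : Ad c (Ideal.span {β}) ↔ β ≠ 0 ∧ IsCoprime β.norm c := by
  rw [Ad, Ne, Ideal.span_singleton_eq_bot, ← Nat.isCoprime_iff_coprime, BSD15.nm_span]

theorem Oc.ad (h : Oc c β) : Ad c (Ideal.span {β}) := ad_span.2 ⟨h.1, h.2.2⟩

theorem Oc.mul (h : Oc c α) (h' : Oc c β) : Oc c (α * β) := by
  refine ⟨mul_ne_zero h.1 h'.1, ?_, by rw [map_mul]; exact h.2.2.mul_left h'.2.2⟩
  rw [QuadraticAlgebra.im_mul]
  exact ((h'.2.1.mul_left _).add (h.2.1.mul_right _)).add (h'.2.1.mul_left _)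

theorem Oc.star (h : Oc c α) : Oc c (star α) :=
  ⟨star_ne_zero.2 h.1, by rw [QuadraticAlgebra.im_star]; exact h.2.1.neg_right,
    by rw [QuadraticAlgebra.norm_star]; exact h.2.2⟩

theorem Oc.mono (h : Oc c' α) (h' : c ∣ c') : Oc c α :=
  ⟨h.1, (Int.natCast_dvd_natCast.2 h').trans h.2.1,
    h.2.2.of_isCoprime_of_dvd_right (Int.natCast_dvd_natCast.2 h')⟩

theorem oc_int {n : ℤ} (h0 : n ≠ 0) (h : IsCoprime n c) : Oc c (n : OO l) :=
  ⟨Int.cast_ne_zero.2 h0, by rw [QuadraticAlgebra.im_intCast]; exact dvd_zero _,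
    by rw [QuadraticAlgebra.norm_intCast]; exact h.pow_left⟩

namespace RCA

theorem fi_coe (h : I ≠ ⊥) :
    ((fi I : FG l) : FractionalIdeal (OO l)⁰ (FractionRing (OO l))) = I := by
  rw [fi, dif_pos (mem_nonZeroDivisors_of_ne_zero h), FractionalIdeal.coe_mk0]

theorem fi_mul (h : I ≠ ⊥) (h' : J ≠ ⊥) : fi (I * J) = fi I * fi J := by
  refine Units.ext ?_
  rw [Units.val_mul, fi_coe h, fi_coe h', fi_coe (mul_ne_zero h h'), FractionalIdeal.coeIdeal_mul]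

theorem fi_inj (h : I ≠ ⊥) (h' : J ≠ ⊥) (e : fi I = fi J) : I = J := by
  have := congrArg Units.val e
  rwa [fi_coe h, fi_coe h', FractionalIdeal.coeIdeal_inj] at this

theorem fi_top : fi (⊤ : Ideal (OO l)) = 1 := by
  refine Units.ext ?_
  rw [fi_coe top_ne_bot, FractionalIdeal.coeIdeal_top, Units.val_one]

theorem cl_def (h : Ad c I) :
    cl c I = ((⟨fi I, Subgroup.subset_closure ⟨I, h, rfl⟩⟩ : JG l c) : RC l c) := dif_pos h

theorem oc_one : Oc c (1 : OO l) := by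
  simpa using oc_int (l := l) (c := c) one_ne_zero isCoprime_one_left

theorem mem_PG {a : FG l} : a ∈ PG l c ↔
    ∃ α β, Oc c α ∧ Oc c β ∧ a * fi (Ideal.span {α}) = fi (Ideal.span {β}) := by
  constructor
  · intro ha
    induction ha using Subgroup.closure_induction with
    | mem a ha =>
      obtain ⟨β, h, rfl⟩ := ha
      exact ⟨1, β, oc_one, h, by rw [Ideal.span_singleton_one, fi_top, mul_one]⟩
    | one => exact ⟨1, 1, oc_one, oc_one, one_mul _⟩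
    | mul a b _ _ ha hb =>
      obtain ⟨α, β, h1, h2, h3⟩ := ha
      obtain ⟨α', β', h4, h5, h6⟩ := hb
      refine ⟨α * α', β * β', h1.mul h4, h2.mul h5, ?_⟩
      rw [← Ideal.span_singleton_mul_span_singleton, ← Ideal.span_singleton_mul_span_singleton,
        fi_mul h1.ad.1 h4.ad.1, fi_mul h2.ad.1 h5.ad.1, ← h3, ← h6, mul_mul_mul_comm]
    | inv a _ ha =>
      obtain ⟨α, β, h1, h2, h3⟩ := ha
      exact ⟨β, α, h2, h1, by rw [← h3, inv_mul_cancel_left]⟩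
  · rintro ⟨α, β, h1, h2, h3⟩
    rw [eq_mul_inv_of_mul_eq h3]
    exact mul_mem (Subgroup.subset_closure ⟨β, h2, rfl⟩)
      (inv_mem (Subgroup.subset_closure ⟨α, h1, rfl⟩))

theorem eq_or_neg (h : Ideal.span {α} = Ideal.span {β}) : α = β ∨ α = -β := by
  obtain ⟨u, hu⟩ := Ideal.span_singleton_eq_span_singleton.1 h.symm
  have h1 := Int.isUnit_iff.1 (QuadraticAlgebra.isUnit_iff_norm_isUnit.1 u.isUnit)
  have h2 := BSD15.norm_nonneg' (u : OO l)
  rcases BSD15.eq_of_norm_one (z := (u : OO l)) (by omega) with h | h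
  · exact Or.inl (by rw [← hu, h, mul_one])
  · exact Or.inr (by rw [← hu, h, mul_neg_one])

omit [Hl l] in
theorem dvd_iff {d : ℤ} {z : OO l} : (d : OO l) ∣ z ↔ d ∣ z.re ∧ d ∣ z.im := by
  constructor
  · rintro ⟨w, rfl⟩
    exact ⟨⟨w.re, by simp⟩, ⟨w.im, by simp⟩⟩
  · rintro ⟨⟨a, ha⟩, ⟨b, hb⟩⟩
    exact ⟨⟨a, b⟩, QuadraticAlgebra.ext (by simp [ha]) (by simp [hb])⟩

omit [Hl l] in
theorem dvd_iff' {z : OO l} : (c : OO l) ∣ z ↔ (c : ℤ) ∣ z.re ∧ (c : ℤ) ∣ z.im := by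
  rw [← dvd_iff, Int.cast_natCast]

omit [Hl l] in
theorem dvd_norm {d : ℤ} (h : (d : OO l) ∣ α - β) : d ∣ α.norm - β.norm := by
  obtain ⟨w, hw⟩ := h
  rw [eq_add_of_sub_eq hw]
  refine ⟨d * w.norm + (w * star β).trace, ?_⟩
  simp [QuadraticAlgebra.norm_def, QuadraticAlgebra.trace_def]
  ring

omit [Hl l] in
theorem re_cop {d : ℤ} (h : d ∣ α.im) (h' : IsCoprime α.norm d) : IsCoprime α.re d := by
  obtain ⟨t, ht⟩ := h
  rw [QuadraticAlgebra.norm_def, ht] at h'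
  obtain ⟨u, v, huv⟩ := h'
  exact ⟨u * α.re, v + u * (α.re * t + (((l + 1) / 4 : ℕ) : ℤ) * d * t * t),
    by linear_combination huv⟩

theorem exists_e (c : ℕ) {m : ℕ} (hm : m ≠ 0) : ∃ e : ℤ, (c : ℤ) ∣ e ∧
    ∀ N : ℤ, IsCoprime N c → e - 1 ∣ N - 1 → IsCoprime N (c * m : ℕ) := by
  have h1 : c.Coprime (∏ p ∈ m.primeFactors with ¬ p ∣ c, p) :=
    Nat.Coprime.prod_right fun p hp => ((Nat.prime_of_mem_primeFactors
      (Finset.mem_filter.1 hp).1).coprime_iff_not_dvd.2 (Finset.mem_filter.1 hp).2).symm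
  obtain ⟨u, v, huv⟩ := Nat.isCoprime_iff_coprime.2 h1
  refine ⟨u * c, dvd_mul_left _ _, fun N hN h => ?_⟩
  rw [Nat.cast_mul]
  refine hN.mul_right ?_
  rw [Int.isCoprime_iff_gcd_eq_one, Int.gcd_eq_natAbs, Int.natAbs_natCast] at hN ⊢
  refine Nat.eq_one_iff_not_exists_prime_dvd.2 fun p hp hd => ?_
  have hpN := hd.trans (Nat.gcd_dvd_left _ _)
  have hpm := hd.trans (Nat.gcd_dvd_right _ _)
  by_cases hc : p ∣ c
  · exact hp.one_lt.ne' (Nat.eq_one_of_dvd_coprimes hN hpN hc)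
  · have h2 : (p : ℤ) ∣ u * c - 1 := by
      rw [show u * c - 1 = -v * (∏ p ∈ m.primeFactors with ¬ p ∣ c, p : ℕ) by
        linear_combination huv]
      exact (Int.natCast_dvd_natCast.2 (Finset.dvd_prod_of_mem _
        (Finset.mem_filter.2 ⟨Nat.mem_primeFactors.2 ⟨hp, hpm, hm⟩, hc⟩))).mul_left _
    have h3 := (Int.natCast_dvd.2 hpN).sub (h2.trans h)
    rw [sub_sub_cancel] at h3
    exact hp.one_lt.ne' (by exact_mod_cast Int.eq_one_of_dvd_one (by positivity) h3)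

theorem cop_of_dvd {N N' d : ℤ} (h : IsCoprime N d) (h' : d ∣ N' - N) : IsCoprime N' d := by
  obtain ⟨t, ht⟩ := h'
  rw [eq_add_of_sub_eq ht]
  exact h.mul_add_left_left t

theorem ne_of_cop {N : ℤ} {m : ℕ} (h : IsCoprime N (c * (m * 2) : ℕ)) : N ≠ 0 := by
  rintro rfl
  have := Int.isUnit_iff.1 (isCoprime_zero_left.1 h)
  rw [← mul_assoc] at this
  omega

theorem exists_lift (h : IsCoprime α.norm c) {m : ℕ} (hm : m ≠ 0) :
    ∃ γ : OO l, (c : OO l) ∣ γ - α ∧ Ad (c * m) (Ideal.span {γ}) := by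
  obtain ⟨e, h1, h2⟩ := exists_e c (m := m * 2) (by omega)
  have h3 : ((c : ℤ) : OO l) ∣ (α + e * (1 - α)) - α := by
    rw [add_sub_cancel_left]
    exact (Int.cast_dvd_cast _ _ h1).mul_right _
  have h4 := h2 (α + e * (1 - α)).norm (cop_of_dvd h (dvd_norm h3)) (by
    have := dvd_norm (d := e - 1) (α := α + (e : OO l) * (1 - α)) (β := 1) ⟨1 - α, by push_cast; ring⟩
    rwa [QuadraticAlgebra.norm_one] at this)
  refine ⟨_, by exact_mod_cast h3, ad_span.2 ⟨fun h0 => ne_of_cop h4 ?_,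
    h4.of_isCoprime_of_dvd_right ⟨2, by push_cast; ring⟩⟩⟩
  rw [h0, QuadraticAlgebra.norm_zero]

theorem exists_int {a : ℤ} (h : IsCoprime a c) {m : ℕ} (hm : m ≠ 0) :
    ∃ n : ℤ, (c : ℤ) ∣ n - a ∧ n ≠ 0 ∧ IsCoprime n m := by
  obtain ⟨e, h1, h2⟩ := exists_e c (m := m * 2) (by omega)
  have h3 : (c : ℤ) ∣ (a + e * (1 - a)) - a := by
    rw [add_sub_cancel_left]
    exact h1.mul_right _
  have h4 := h2 _ (cop_of_dvd h h3) ⟨1 - a, by ring⟩
  exact ⟨_, h3, ne_of_cop h4, h4.of_isCoprime_of_dvd_right ⟨c * 2, by push_cast; ring⟩⟩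

end RCA

open RCA

theorem cl_mul (h : Ad c I) (h' : Ad c J) : cl c (I * J) = cl c I * cl c J := by
  rw [cl_def h, cl_def h', cl_def (h.mul h'), ← QuotientGroup.mk_mul]
  exact congrArg _ (Subtype.ext (fi_mul h.1 h'.1))

theorem cl_top : cl c (⊤ : Ideal (OO l)) = 1 := by
  rw [cl_def ad_top, ← QuotientGroup.mk_one]
  exact congrArg _ (Subtype.ext fi_top)

theorem cl_pow (h : Ad c I) (n : ℕ) : cl c (I ^ n) = cl c I ^ n := by
  induction n with
  | zero => rw [pow_zero, pow_zero, Ideal.one_eq_top, cl_top]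
  | succ n ih => rw [pow_succ, pow_succ, cl_mul (h.pow n) h, ih]

theorem cl_span (h : Oc c β) : cl c (Ideal.span {β}) = 1 := by
  rw [cl_def h.ad, QuotientGroup.eq_one_iff]
  exact Subgroup.subset_closure ⟨β, h, rfl⟩

theorem cl_cj (h : Ad c I) : cl c (cj I) = (cl c I)⁻¹ := by
  refine eq_inv_of_mul_eq_one_right ?_
  rw [← cl_mul h h.cj, BSD15.mul_cj, ← Int.cast_natCast (nm I)]
  exact cl_span (oc_int (by exact_mod_cast BSD15.genus_nm_ne h.1) (Nat.isCoprime_iff_coprime.2 h.2))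

theorem cl_eq_iff (h : Ad c I) (h' : Ad c J) : cl c I = cl c J ↔
    ∃ α β, Oc c α ∧ Oc c β ∧ Ideal.span {α} * I = Ideal.span {β} * J := by
  constructor
  · intro e
    rw [cl_def h, cl_def h', QuotientGroup.eq, Subgroup.mem_subgroupOf, mem_PG] at e
    obtain ⟨α, β, h1, h2, h3⟩ := e
    refine ⟨β, α, h2, h1, fi_inj (h2.ad.mul h).1 (h1.ad.mul h').1 ?_⟩
    rw [fi_mul h2.ad.1 h.1, fi_mul h1.ad.1 h'.1, ← h3]
    change (fi I)⁻¹ * fi J * _ * _ = _
    rw [mul_comm, mul_assoc, mul_inv_cancel_left, mul_comm]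
  · rintro ⟨α, β, h1, h2, h3⟩
    have := congrArg (cl c) h3
    rw [cl_mul h1.ad h, cl_mul h2.ad h', cl_span h1, cl_span h2] at this
    exact (one_mul (cl c I)).symm.trans (this.trans (one_mul (cl c J)))

theorem cl_span_eq_one (h : Ad c (Ideal.span {β})) : cl c (Ideal.span {β}) = 1 ↔ (c : ℤ) ∣ β.im := by
  refine ⟨fun e => ?_, fun e => cl_span ⟨(ad_span.1 h).1, e, (ad_span.1 h).2⟩⟩
  rw [← cl_top, cl_eq_iff h ad_top] at e
  obtain ⟨α, γ, h1, h2, h3⟩ := e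
  rw [Ideal.mul_top, Ideal.span_singleton_mul_span_singleton] at h3
  have h4 : (c : ℤ) ∣ (α * β).im := by
    rcases eq_or_neg h3 with e | e <;> rw [e]
    · exact h2.2.1
    · exact h2.2.1.neg_right
  rw [QuadraticAlgebra.im_mul, add_assoc, one_mul] at h4
  exact (re_cop h1.2.1 h1.2.2).symm.dvd_of_dvd_mul_left
    ((dvd_add_left ((h1.2.1.mul_right _).add (h1.2.1.mul_right _))).1 h4)

theorem RCA.cl_span_eq (h : Ad c (Ideal.span {α})) (h' : Ad c (Ideal.span {β})) :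
    cl c (Ideal.span {α}) = cl c (Ideal.span {β}) ↔ (c : ℤ) ∣ α.im * β.re - α.re * β.im := by
  have h1 := h.mul h'.cj
  rw [← mul_inv_eq_one, ← cl_cj h', ← cl_mul h h'.cj]
  rw [BSD15.cj_span, Ideal.span_singleton_mul_span_singleton] at h1 ⊢
  rw [cl_span_eq_one h1]
  refine iff_of_eq (congrArg _ ?_)
  simp
  ring

theorem RCA.cl_span_congr (h : Ad c (Ideal.span {α})) (h' : Ad c (Ideal.span {β}))
    (e : (c : OO l) ∣ α - β) : cl c (Ideal.span {α}) = cl c (Ideal.span {β}) := by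
  obtain ⟨h1, h2⟩ := dvd_iff'.1 e
  rw [cl_span_eq h h']
  have := (h2.mul_right β.re).sub (h1.mul_right β.im)
  rwa [QuadraticAlgebra.re_sub, QuadraticAlgebra.im_sub, sub_mul, sub_mul, mul_comm β.im,
    sub_sub_sub_cancel_right] at this

theorem rp_spec (a : RC l c) : Ad c (rp a) ∧ cl c (rp a) = a := by
  refine Classical.epsilon_spec (p := fun I => Ad c I ∧ cl c I = a) ?_
  obtain ⟨⟨a, ha⟩, rfl⟩ := QuotientGroup.mk_surjective a
  induction ha using Subgroup.closure_induction with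
  | mem a ha =>
    obtain ⟨I, h, rfl⟩ := ha
    exact ⟨I, h, cl_def h⟩
  | one => exact ⟨⊤, ad_top, cl_top⟩
  | mul a b _ _ ha hb =>
    obtain ⟨I, h1, h2⟩ := ha
    obtain ⟨J, h3, h4⟩ := hb
    exact ⟨I * J, h1.mul h3, by rw [cl_mul h1 h3, h2, h4]; rfl⟩
  | inv a _ ha =>
    obtain ⟨I, h1, h2⟩ := ha
    exact ⟨cj I, h1.cj, by rw [cl_cj h1, h2]; rfl⟩

theorem RCA.split {A : Ideal (OO l)} (h : Ad c I) (hA : Ad c A) (e : BSD15.cls A = BSD15.cls I) :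
    ∃ β, Ad c (Ideal.span {β}) ∧ cl c I = cl c (Ideal.span {β}) * cl c A := by
  obtain ⟨β, hβ⟩ := (BSD15.cls_eq_one_iff (h.mul hA.cj).1).1 (by
    rw [BSD15.cls_mul h.1 hA.cj.1, BSD15.cls_cj, e, mul_inv_cancel])
  exact ⟨β, hβ ▸ h.mul hA.cj, by rw [← hβ, cl_mul h hA.cj, cl_cj hA, inv_mul_cancel_right]⟩

theorem exists_rep (hc : c ≠ 0) (a : RC l c) {m : ℕ} (hm : m ≠ 0) : ∃ I, Ad (c * m) I ∧ cl c I = a := by
  obtain ⟨A, h1, h2, h3⟩ := BSD15.exists_cls_coprime (BSD15.cls (rp a)) (mul_ne_zero hc hm)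
  have hA : Ad (c * m) A := ⟨h1, h3⟩
  have hd := dvd_mul_right c m
  obtain ⟨β, h4, h5⟩ := split (rp_spec a).1 (hA.mono hd) h2
  obtain ⟨γ, h6, h7⟩ := exists_lift (ad_span.1 h4).2 hm
  exact ⟨_, h7.mul hA, by rw [cl_mul (h7.mono hd) (hA.mono hd), cl_span_congr (h7.mono hd) h4 h6,
    ← h5, (rp_spec a).2]⟩

theorem finite_RC (hc : c ≠ 0) : Finite (RC l c) := by
  have : NeZero c := ⟨hc⟩
  choose A h1 h2 h3 using fun κ : ClassGroup (OO l) => BSD15.exists_cls_coprime κ hc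
  choose β h4 h5 using fun a : RC l c => split (rp_spec a).1 ⟨h1 _, h3 _⟩ (h2 _)
  refine Finite.of_injective
    (fun a => (BSD15.cls (rp a), ((β a).re : ZMod c), ((β a).im : ZMod c))) fun a b h => ?_
  simp only [Prod.mk.injEq, ZMod.intCast_eq_intCast_iff_dvd_sub] at h
  rw [← (rp_spec a).2, ← (rp_spec b).2, h5, h5, h.1,
    cl_span_congr (h4 b) (h4 a) (dvd_iff'.2 h.2)]

theorem pr_cl (h : c ∣ c') (hI : Ad c' I) : pr h (cl c' I) = cl c I := by
  rw [cl_def hI, cl_def (hI.mono h)]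
  rfl

theorem pr_surj (h : c ∣ c') (hc : c' ≠ 0) : Function.Surjective (pr (l := l) h) := by
  intro a
  obtain ⟨I, h1, h2⟩ := exists_rep (ne_zero_of_dvd_ne_zero hc h) a hc
  exact ⟨cl c' I, by rw [pr_cl h (h1.mono (dvd_mul_left _ _)), h2]⟩

theorem mem_ker_pr (h : c ∣ c') (hc : c' ≠ 0) {x : RC l c'} : pr h x = 1 ↔
    ∃ β : OO l, (c : OO l) ∣ β - 1 ∧ Ad c' (Ideal.span {β}) ∧ x = cl c' (Ideal.span {β}) := by
  constructor
  · intro e
    obtain ⟨h1, h2⟩ := rp_spec x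
    generalize rp x = I at h1 h2
    subst h2
    rw [pr_cl h h1] at e
    obtain ⟨α, γ, h3, h4, h5⟩ := (cl_eq_iff (h1.mono h) ad_top).1 (e.trans cl_top.symm)
    rw [Ideal.mul_top] at h5
    obtain ⟨δ, rfl⟩ := Ideal.mem_span_singleton.1
      (Ideal.mul_le_left (h5.ge (Ideal.mem_span_singleton_self γ)))
    rw [← Ideal.span_singleton_mul_span_singleton] at h5
    obtain rfl := mul_left_cancel₀ h3.ad.1 h5
    have h6 := (cl_span_eq_one (h1.mono h)).1 e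
    obtain ⟨u, v, huv⟩ := re_cop h6 (ad_span.1 (h1.mono h)).2
    obtain ⟨n, ⟨t, ht⟩, h8, h9⟩ := exists_int (a := u) (c := c) ⟨δ.re, v, by linear_combination huv⟩ hc
    have h10 := oc_int (l := l) h8 h9
    refine ⟨n * δ, dvd_iff'.2 ⟨⟨t * δ.re - v, ?_⟩, ?_⟩, ?_, ?_⟩
    · simp [QuadraticAlgebra.re_one]
      linear_combination huv + δ.re * ht
    · simpa [QuadraticAlgebra.im_one] using h6.mul_left n
    · rw [← Ideal.span_singleton_mul_span_singleton]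
      exact h10.ad.mul h1
    · rw [← Ideal.span_singleton_mul_span_singleton, cl_mul h10.ad h1, cl_span h10]
      exact (one_mul (cl c' _)).symm
  · rintro ⟨β, h1, h2, rfl⟩
    rw [pr_cl h h2, cl_span_congr (h2.mono h) oc_one.ad h1, cl_span oc_one]

theorem mem_Od {a : RC l c} : a ∈ Od l c ↔ Odd (orderOf a) := by
  refine ⟨fun ha => ?_, fun ha => Subgroup.subset_closure ha⟩
  induction ha using Subgroup.closure_induction with
  | mem a ha => exact ha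
  | one => rw [orderOf_one]; exact odd_one
  | mul a b _ _ ha hb =>
    exact (ha.mul hb).of_dvd_nat (Commute.all a b).orderOf_mul_dvd_mul_orderOf
  | inv a _ ha => rwa [orderOf_inv]

theorem mem_Od' {a : RC l c} : a ∈ Od l c ↔ ∃ r : ℕ, Odd r ∧ a ^ r = 1 :=
  mem_Od.trans ⟨fun h => ⟨_, h, pow_orderOf_eq_one a⟩,
    fun ⟨_, h1, h2⟩ => h1.of_dvd_nat (orderOf_dvd_of_pow_eq_one h2)⟩

theorem pr_Od (h : c ∣ c') {a : RC l c'} (ha : a ∈ Od l c') : pr h a ∈ Od l c := by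
  obtain ⟨r, h1, h2⟩ := mem_Od'.1 ha
  exact mem_Od'.2 ⟨r, h1, by rw [← map_pow, h2, map_one]⟩

theorem exists_pow_Od (hc : c ≠ 0) (a : RC l c) : ∃ k : ℕ, a ^ 2 ^ k ∈ Od l c := by
  have := finite_RC (l := l) hc
  obtain ⟨k, r, h1, h2⟩ := Nat.exists_eq_two_pow_mul_odd (orderOf_pos a).ne'
  exact ⟨k, mem_Od'.2 ⟨r, h1, by rw [← pow_mul, ← h2, pow_orderOf_eq_one]⟩⟩

theorem RCA.card_roots {q : ℕ} [hq : Fact q.Prime] (h2 : q ≠ 2) :
    (Nat.card {m : ZMod q // m * m + m + ((l + 1) / 4 : ℕ) ≠ 0} : ℤ) + 1 =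
      q - jacobiSym (-l) q := by
  have h3 : ringChar (ZMod q) ≠ 2 := by rwa [ZMod.ringChar_zmod_n]
  have h4 := quadraticChar_card_sqrts h3 (-l : ZMod q)
  have h5 := BSD15.qcount_four_k' (n := l) q
  have h6 : (2 : ZMod q) ≠ 0 := Ring.two_ne_zero h3
  have h7 : (Finset.univ.filter fun m : ZMod q => m * m + m + ((l + 1) / 4 : ℕ) = 0).card =
      {x : ZMod q | x ^ 2 = -l}.toFinset.card := by
    refine Finset.card_bij (fun m _ => 2 * m + 1) (fun m hm => ?_) (fun a _ b _ h => ?_)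
      fun t ht => ⟨(t - 1) / 2, ?_, by field_simp; ring⟩
    · rw [Finset.mem_filter] at hm
      rw [Set.mem_toFinset, Set.mem_ofPred_eq]
      linear_combination 4 * hm.2 - h5
    · exact mul_left_cancel₀ h6 (add_right_cancel h)
    · rw [Set.mem_toFinset, Set.mem_ofPred_eq] at ht
      refine Finset.mem_filter.2 ⟨Finset.mem_univ _, ?_⟩
      field_simp
      linear_combination ht + h5
  have h8 := Finset.card_filter_add_card_filter_not (s := Finset.univ)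
    fun m : ZMod q => m * m + m + ((l + 1) / 4 : ℕ) = 0
  rw [Finset.card_univ, ZMod.card, h7] at h8
  rw [Nat.card_eq_fintype_card, Fintype.card_subtype, ← jacobiSym.legendreSym.to_jacobiSym,
    legendreSym]
  push_cast
  zify at h8
  linear_combination h8 - h4

theorem card_ker {q : ℕ} (hc : c ≠ 0) (hq : q.Prime) (h2 : q ≠ 2) (h : ¬ q ∣ c) :
    (Nat.card (pr (l := l) (Nat.dvd_mul_right c q)).ker : ℤ) = q - jacobiSym (-l) q := by
  have : Fact q.Prime := ⟨hq⟩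
  have hcq : IsCoprime (c : ℤ) q := Nat.isCoprime_iff_coprime.2 (hq.coprime_iff_not_dvd.2 h).symm
  obtain ⟨u, v, huv⟩ := id hcq
  have he : ((u * c : ℤ) : ZMod q) = 1 := by
    have := congrArg (Int.cast : ℤ → ZMod q) huv
    simpa using this
  set e := u * c with hu
  let b : ZMod q → OO l := fun m => ⟨1 + e * (m.val - 1), e⟩
  have b1 : ∀ m, (c : OO l) ∣ b m - 1 := fun m => dvd_iff'.2
    ⟨⟨u * (m.val - 1), by simp [b, QuadraticAlgebra.re_one]; ring⟩,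
      ⟨u, by simp [b, QuadraticAlgebra.im_one]; ring⟩⟩
  have b2 : ∀ m, ((b m).re : ZMod q) = m := fun m => by simp [b, he]
  have b3 : ∀ m, ((b m).im : ZMod q) = 1 := fun m => he
  have hN : ∀ z : OO l, IsCoprime z.norm q ↔ (z.re : ZMod q) * z.re + z.re * z.im +
      ((l + 1) / 4 : ℕ) * z.im * z.im ≠ 0 := fun z => by
    rw [isCoprime_comm, (Nat.prime_iff_prime_int.1 hq).coprime_iff_not_dvd,
      ← ZMod.intCast_zmod_eq_zero_iff_dvd, QuadraticAlgebra.norm_def]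
    simp only [Int.cast_add, Int.cast_mul, Int.cast_natCast, one_mul, neg_mul, sub_neg_eq_add]
  have b4 : ∀ m : ZMod q, m * m + m + ((l + 1) / 4 : ℕ) ≠ 0 → Ad (c * q) (Ideal.span {b m}) := by
    intro m hm
    refine ad_span.2 ⟨fun h0 => ?_, ?_⟩
    · have := b3 m
      rw [h0] at this
      simp at this
    · rw [Nat.cast_mul]
      refine IsCoprime.mul_right (cop_of_dvd isCoprime_one_left ?_) ((hN _).2 ?_)
      · simpa using dvd_norm (d := c) (α := b m) (β := 1) (by exact_mod_cast b1 m)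
      · rwa [b2, b3, mul_one, mul_one, mul_one]
  have hd : ∀ z : ℤ, ((c * q : ℕ) : ℤ) ∣ z ↔ (c : ℤ) ∣ z ∧ (z : ZMod q) = 0 := fun z => by
    rw [ZMod.intCast_zmod_eq_zero_iff_dvd, Nat.cast_mul]
    exact ⟨fun h => ⟨(dvd_mul_right _ _).trans h, (dvd_mul_left _ _).trans h⟩,
      fun h => hcq.mul_dvd h.1 h.2⟩
  have h0 := mul_ne_zero hc hq.ne_zero
  let f : Option {m : ZMod q // m * m + m + ((l + 1) / 4 : ℕ) ≠ 0} →
      (pr (l := l) (Nat.dvd_mul_right c q)).ker := fun o => o.elim 1 fun m =>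
    ⟨cl _ (Ideal.span {b m.1}), (mem_ker_pr _ h0).2 ⟨_, b1 _, b4 _ m.2, rfl⟩⟩
  have f1 : ∀ m, f (some m) ≠ 1 := fun m e => by
    have := ((hd _).1 ((cl_span_eq_one (b4 _ m.2)).1 (congrArg Subtype.val e))).2
    rw [b3] at this
    exact one_ne_zero this
  rw [← card_roots h2, ← Nat.card_congr (Equiv.ofBijective f ⟨?_, ?_⟩), Finite.card_option]
  · rfl
  · rintro (_ | m) (_ | m') e
    · rfl
    · exact absurd e.symm (f1 _)
    · exact absurd e (f1 _)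
    · have := ((hd _).1 ((cl_span_eq (b4 _ m.2) (b4 _ m'.2)).1 (congrArg Subtype.val e))).2
      push_cast at this
      simp only [b2, b3] at this
      exact congrArg some (Subtype.ext (by linear_combination -this))
  · rintro ⟨x, hx⟩
    obtain ⟨β, h3, h4, rfl⟩ := (mem_ker_pr _ h0).1 hx
    have h5 : (c : ℤ) ∣ β.im := by simpa [QuadraticAlgebra.im_one] using (dvd_iff'.1 h3).2
    by_cases h6 : (β.im : ZMod q) = 0
    · exact ⟨none, Subtype.ext ((cl_span_eq_one h4).2 ((hd _).2 ⟨h5, h6⟩)).symm⟩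
    · have h7 := (hN β).1 ((ad_span.1 h4).2.of_isCoprime_of_dvd_right ⟨c, by push_cast; ring⟩)
      have h8 : (β.re / β.im : ZMod q) * (β.re / β.im) + β.re / β.im + ((l + 1) / 4 : ℕ) ≠ 0 := by
        intro e
        field_simp at e
        exact h7 (by linear_combination e)
      refine ⟨some ⟨_, h8⟩, Subtype.ext ((cl_span_eq (b4 _ h8) h4).2 ((hd _).2 ⟨?_, ?_⟩))⟩
      · exact ((dvd_mul_left _ _).mul_right _).sub (h5.mul_left _)
      · push_cast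
        rw [b2, b3]
        field_simp
        ring

theorem ker_two {n : ℕ} (hn : 0 < n) : Oc (2 ^ n) (⟨1, 2 ^ n⟩ : OO l) ∧
    cl (2 ^ (n + 1)) (Ideal.span {(⟨1, 2 ^ n⟩ : OO l)}) ≠ 1 ∧ ∀ x : RC l (2 ^ (n + 1)),
      pr (pow_dvd_pow 2 n.le_succ) x = 1 → x = 1 ∨ x = cl _ (Ideal.span {(⟨1, 2 ^ n⟩ : OO l)}) := by
  obtain ⟨m, rfl⟩ : ∃ m, n = m + 1 := ⟨n - 1, by omega⟩
  have h1 : Ad 2 (Ideal.span {(⟨1, 2 ^ (m + 1)⟩ : OO l)}) := by
    refine ad_span.2 ⟨fun h => by simpa using congrArg QuadraticAlgebra.re h,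
      cop_of_dvd isCoprime_one_left ⟨2 ^ m + ((l + 1) / 4 : ℕ) * 2 ^ m * 2 ^ (m + 1), ?_⟩⟩
    rw [QuadraticAlgebra.norm_def]
    simp only [Nat.cast_ofNat]
    ring
  refine ⟨⟨(ad_span.1 h1).1, by simp, (ad_span.1 (ad_two_pow h1)).2⟩, fun e => ?_, fun x hx => ?_⟩
  · have h2 := Int.le_of_dvd (by positivity) ((cl_span_eq_one (ad_two_pow h1)).1 e)
    push_cast at h2
    have : (0 : ℤ) < 2 ^ (m + 1) := by positivity
    rw [pow_succ] at h2
    omega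
  · obtain ⟨β, h3, h4, rfl⟩ := (mem_ker_pr _ (by positivity)).1 hx
    obtain ⟨⟨s, hs⟩, ⟨t, ht⟩⟩ := dvd_iff'.1 h3
    simp [QuadraticAlgebra.re_one, QuadraticAlgebra.im_one] at hs ht
    rcases Int.even_or_odd' t with ⟨r, rfl | rfl⟩
    · exact Or.inl ((cl_span_eq_one h4).2 ⟨r, by rw [ht, Nat.succ_eq_add_one]; push_cast; ring⟩)
    · refine Or.inr ((cl_span_eq h4 (ad_two_pow h1)).2 ⟨r - 2 ^ m * s, ?_⟩)
      rw [ht, eq_add_of_sub_eq hs, Nat.succ_eq_add_one]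
      push_cast
      ring

theorem exists_h (l : ℕ) [Hl l] :
    ∃ h : ℕ, Odd h ∧ ∀ I : Ideal (OO l), I ≠ ⊥ → ∃ β, β ≠ 0 ∧ Ideal.span {β} = I ^ h := by
  refine ⟨Nat.card (ClassGroup (OO l)), ?_, fun I hI => ?_⟩
  · rw [← Nat.not_even_iff_odd, even_iff_two_dvd]
    intro h
    obtain ⟨x, hx⟩ := exists_prime_orderOf_dvd_card' 2 h
    have h1 := BSD15.card_two_torsion (n := l)
    rw [(Hl.lp (l := l)).primeFactors, Finset.card_singleton] at h1
    have h2 := (Nat.card_eq_one_iff_unique.1 h1).1.elim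
      ⟨x, by rw [← hx, pow_orderOf_eq_one]⟩ ⟨1, one_pow 2⟩
    rw [show x = 1 from congrArg Subtype.val h2, orderOf_one] at hx
    omega
  · have h1 : ∀ n : ℕ, BSD15.cls (I ^ n) = BSD15.cls I ^ n := fun n => by
      induction n with
      | zero => rw [pow_zero, pow_zero, Ideal.one_eq_top, BSD15.genus_cls_top]
      | succ n ih => rw [pow_succ, pow_succ, BSD15.cls_mul (pow_ne_zero n hI) hI, ih]
    obtain ⟨β, hβ⟩ := (BSD15.cls_eq_one_iff (pow_ne_zero _ hI)).1 ((h1 _).trans pow_card_eq_one')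
    refine ⟨β, ?_, hβ.symm⟩
    rintro rfl
    exact pow_ne_zero _ hI (hβ.trans (Ideal.span_singleton_eq_bot.2 rfl))

theorem od_one : Od l 1 = ⊤ := by
  obtain ⟨h, h1, h2⟩ := exists_h l
  refine eq_top_iff.2 fun a _ => mem_Od'.2 ⟨h, h1, ?_⟩
  obtain ⟨β, h3, h4⟩ := h2 _ (rp_spec a).1.1
  rw [← (rp_spec a).2, ← cl_pow (rp_spec a).1, ← h4]
  exact cl_span ⟨h3, one_dvd _, isCoprime_one_right⟩

theorem RCA.ker_pow (n : ℕ) {x : RC l (2 ^ n)} (hx : pr (one_dvd _) x = 1) : x ^ 2 ^ n = 1 := by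
  obtain ⟨β, -, h1, rfl⟩ := (mem_ker_pr _ (by positivity)).1 hx
  have h2 := h1.pow (2 ^ n)
  rw [← cl_pow h1]
  rw [Ideal.span_singleton_pow] at h2 ⊢
  rw [cl_span_eq_one h2]
  rcases n with _ | n
  · simp
  · have h3 := Int.isCoprime_two_right.1 (ad_span.1 (h1.mono (dvd_pow_self 2 n.succ_ne_zero))).2
    have h4 : ((2 : ℕ) : OO l) ∣ β - 1 := by
      obtain ⟨k, hk⟩ : 2 ∣ (((l + 1) / 4 : ℕ) : ℤ) := by
        have := Hl.l8 (l := l)
        omega
      rw [show β.norm = 2 * (k * β.im * β.im) + β.re * (β.re + β.im) by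
        rw [QuadraticAlgebra.norm_def]; linear_combination β.im * β.im * hk,
        Int.odd_add', Int.odd_mul] at h3
      obtain ⟨⟨a, ha⟩, ⟨b, hb⟩⟩ := h3.2 (even_two_mul _)
      refine dvd_iff'.2 ⟨⟨a, ?_⟩, ⟨b - a, ?_⟩⟩ <;>
        simp [QuadraticAlgebra.re_one, QuadraticAlgebra.im_one] <;> omega
    have h5 := dvd_sub_pow_of_dvd_sub h4 (n + 1)
    rw [← Nat.cast_pow, dvd_iff'] at h5
    simpa [QuadraticAlgebra.im_one] using
      (Int.natCast_dvd_natCast.2 (pow_dvd_pow 2 (n + 1).le_succ)).trans h5.2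

theorem pr_bij (n : ℕ) : Function.Bijective fun a : Od l (2 ^ n) => pr (one_dvd _) a.1 := by
  refine ⟨fun a b h => ?_, fun y => ?_⟩
  · have h1 := ker_pow n (x := a.1 * b.1⁻¹) (by
      rw [map_mul, map_inv, mul_inv_eq_one]; exact h)
    have h2 := mem_Od.1 (mul_mem a.2 (inv_mem b.2))
    refine Subtype.ext (mul_inv_eq_one.1 (orderOf_eq_one_iff.1 ?_))
    exact ((Nat.coprime_two_right.2 h2).pow_right n).eq_one_of_dvd (orderOf_dvd_of_pow_eq_one h1)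
  · obtain ⟨x, rfl⟩ := pr_surj (one_dvd (2 ^ n)) (by positivity) y
    obtain ⟨k, hk⟩ := exists_pow_Od (by positivity) x
    have h1 := mem_Od.1 (od_one (l := l) ▸ Subgroup.mem_top (pr (one_dvd _) x))
    obtain ⟨m, hm⟩ := exists_pow_eq_self_of_coprime (n := 2 ^ k)
      ((Nat.coprime_two_left.2 h1).pow_left k)
    exact ⟨⟨_, pow_mem hk m⟩, by simpa using hm⟩

theorem RCA.nm_nI {e : ℕ} (he : e ∣ 15) : nm (nI l e) = e := by
  have hr := Classical.epsilon_spec (p := fun r : ℤ => 15 ∣ r ^ 2 - r + ((l + 1) / 4 : ℕ)) (by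
    have h3 := Hl.j3 (l := l)
    have h5 := Hl.j5 (l := l)
    have h8 := Hl.l8 (l := l)
    rw [jacobiSym.mod_left] at h3 h5
    have a3 : -(l : ℤ) % (3 : ℕ) = 1 := by
      by_contra h
      have : -(l : ℤ) % (3 : ℕ) = 0 ∨ -(l : ℤ) % (3 : ℕ) = 2 := by omega
      rcases this with e | e <;> rw [e] at h3 <;> norm_num at h3
    have a5 : -(l : ℤ) % (5 : ℕ) = 1 ∨ -(l : ℤ) % (5 : ℕ) = 4 := by
      by_contra h
      have : -(l : ℤ) % (5 : ℕ) = 0 ∨ -(l : ℤ) % (5 : ℕ) = 2 ∨ -(l : ℤ) % (5 : ℕ) = 3 := by omega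
      rcases this with e | e | e <;> rw [e] at h5 <;> norm_num at h5
    rcases a5 with e | e
    · exact ⟨0, by omega⟩
    · exact ⟨4, by omega⟩)
  rw [nI]
  generalize (Classical.epsilon _ : ℤ) = r at hr ⊢
  have h1 := (ZMod.intCast_zmod_eq_zero_iff_dvd _ e).2 ((Int.natCast_dvd_natCast.2 he).trans hr)
  simp only [Int.cast_add, Int.cast_sub, Int.cast_pow, Int.cast_natCast] at h1
  have ht : (r : ZMod e) * r = r - ((l + 1) / 4 : ℕ) := by linear_combination h1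
  refine (congrArg nm (le_antisymm (Ideal.span_le.2 ?_) fun z hz => ?_)).trans
    (BSD15.qcount_nm_ker (n := l) ht)
  · rintro _ (rfl | rfl) <;> rw [SetLike.mem_coe, BSD15.qcount_mem_ker] <;> simp
  · rw [BSD15.qcount_mem_ker] at hz
    obtain ⟨t, ht⟩ := (ZMod.intCast_zmod_eq_zero_iff_dvd (z.re + z.im * r) e).1 (by
      push_cast; exact hz)
    refine Ideal.mem_span_pair.2 ⟨t, z.im, QuadraticAlgebra.ext ?_ ?_⟩ <;> simp
    linear_combination -ht

theorem nI_spec : nm (nI l 3) = 3 ∧ nm (nI l 5) = 5 ∧ nm (nI l 15) = 15 ∧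
    nI l 15 = nI l 3 * nI l 5 ∧ (nI l 3).IsPrime ∧ (nI l 5).IsPrime := by
  have h3 := nm_nI (l := l) (e := 3) (by norm_num)
  have h5 := nm_nI (l := l) (e := 5) (by norm_num)
  refine ⟨h3, h5, nm_nI dvd_rfl, ?_,
    (Ideal.prime_iff_isPrime (BSD15.qcount_prime_of_nm Nat.prime_three h3).ne_zero).1
      (BSD15.qcount_prime_of_nm Nat.prime_three h3),
    (Ideal.prime_iff_isPrime (BSD15.qcount_prime_of_nm Nat.prime_five h5).ne_zero).1
      (BSD15.qcount_prime_of_nm Nat.prime_five h5)⟩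
  simp only [nI]
  generalize (⟨_, 1⟩ : OO l) = π
  have hm : ∀ a b c d : OO l, (a * (3 : ℕ) + b * π) * (c * (5 : ℕ) + d * π) ∈
      Ideal.span {((3 : ℕ) : OO l), π} * Ideal.span {((5 : ℕ) : OO l), π} := fun a b c d =>
    Ideal.mul_mem_mul (Ideal.mem_span_pair.2 ⟨a, b, rfl⟩) (Ideal.mem_span_pair.2 ⟨c, d, rfl⟩)
  refine le_antisymm (Ideal.span_le.2 ?_) (Ideal.mul_le.2 fun x hx y hy => ?_)
  · rintro _ (rfl | rfl) <;> rw [SetLike.mem_coe]
    · convert hm 1 0 1 0 using 1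
      push_cast
      ring
    · convert sub_mem (hm 2 0 0 1) (hm 0 1 1 0) using 1
      push_cast
      ring
  · obtain ⟨a, b, rfl⟩ := Ideal.mem_span_pair.1 hx
    obtain ⟨c, d, rfl⟩ := Ideal.mem_span_pair.1 hy
    exact Ideal.mem_span_pair.2 ⟨a * c, 3 * a * d + 5 * b * c + b * d * π, by push_cast; ring⟩

theorem Cd.ad (h : Cd c) : Ad c (nI l 3) ∧ Ad c (nI l 5) ∧ Ad c (nI l 15) := by
  have : ∀ e : ℕ, e ∣ 15 → Ad c (nI l e) := fun e he =>
    ⟨fun h0 => ne_zero_of_dvd_ne_zero (by norm_num) he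
      ((nm_nI he).symm.trans (BSD15.nm_eq_zero.2 h0)),
      by rw [nm_nI he]; exact (h.2.coprime_dvd_right he).symm⟩
  exact ⟨this 3 (by norm_num), this 5 (by norm_num), this 15 dvd_rfl⟩

theorem cd_two_pow (n : ℕ) : Cd (2 ^ n) := ⟨by positivity, Nat.Coprime.pow_left n (by norm_num)⟩

end Pool.Agent.P.MP_8b7eba_nt.R2
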