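import Pool.Agent.P.MP_8b7eba_nt.R2.BasicS

/-! Basic facts on places. -/

namespace Pool.Agent.P.MP_8b7eba_nt.R2

open scoped NNReal

variable {H H' U N N' : Subgroup GQ} {A B C : Type} {x y : Om} {w : Pl}

theorem BasicP.inv_apply (σ : GQ) (x : Om) : σ⁻¹ (σ x) = x := σ.symm_apply_apply x

theorem BasicP.apply_inv (σ : GQ) (x : Om) : σ (σ⁻¹ x) = x := σ.apply_symm_apply x

theorem BasicP.closed (x : Om) (P : Om → Prop) : IsClosed {σ : GQ | P (σ x)} :=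
  isOpen_compl_iff.1 (sm_top_iff.1 (sm_apply x) {y | ¬ P y})

theorem BasicP.p_lt (w : Pl) : w.v w.p < 1 := by
  rw [w.vp]
  exact inv_lt_one_of_one_lt₀ (Nat.one_lt_cast.2 w.prime.one_lt)

theorem BasicP.pow_sub (hx : w.v x ≤ 1) (hy : w.v y ≤ 1) (n : ℕ) :
    w.v (x ^ n - y ^ n) ≤ w.v (x - y) := by
  induction n with
  | zero => simp
  | succ n ih =>
    rw [show x ^ (n + 1) - y ^ (n + 1) = x * (x ^ n - y ^ n) + y ^ n * (x - y) by ring]
    refine w.v.map_add_le ?_ ?_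
    · rw [map_mul]; exact (mul_le_of_le_one_left zero_le hx).trans ih
    · rw [map_mul, map_pow]; exact mul_le_of_le_one_left zero_le (pow_le_one₀ zero_le hy)

theorem BasicP.le {π : Om} (h : w.Unif H π) (hx : Fix H x) (h1 : w.v x < 1) : w.v x ≤ w.v π := by
  by_cases h0 : x = 0
  · simp [h0]
  obtain ⟨k, hk⟩ := h.2.2.2 x hx h0
  have hp := w.v.pos_iff.2 h.2.1
  rw [hk] at h1 ⊢
  have h2 := (zpow_lt_one_iff_right_of_lt_one₀ hp h.2.2.1).1 h1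
  exact (zpow_le_zpow_right_of_le_one₀ hp h.2.2.1.le (show 1 ≤ k from h2)).trans_eq (zpow_one _)

/-! ### Places -/

theorem Pl.I_le_D (w : Pl) : w.I ≤ w.D := fun _ h => h.1

theorem Pl.closed_D (w : Pl) : IsClosed (w.D : Set GQ) := by
  have : (w.D : Set GQ) = ⋂ x, {σ : GQ | w.v (σ x) = w.v x} := by
    ext σ; simp [Pl.mem_D]
  rw [this]
  exact isClosed_iInter fun x => BasicP.closed x fun y => w.v y = w.v x

theorem Pl.closed_I (w : Pl) : IsClosed (w.I : Set GQ) := by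
  have : (w.I : Set GQ) = (w.D : Set GQ) ∩ ⋂ x, {σ : GQ | w.v x ≤ 1 → w.v (σ x - x) < 1} := by
    ext σ
    rw [Set.mem_inter_iff, Set.mem_iInter]
    rfl
  rw [this]
  exact w.closed_D.inter
    (isClosed_iInter fun x => BasicP.closed x fun y => w.v x ≤ 1 → w.v (y - x) < 1)

theorem Pl.mem_D_smul {σ g : GQ} : g ∈ (σ • w).D ↔ σ⁻¹ * g * σ ∈ w.D := by
  simp only [Pl.D, MulAction.mem_stabilizer_iff, mul_smul, inv_smul_eq_iff]

theorem Pl.mem_I_smul {σ g : GQ} : g ∈ (σ • w).I ↔ σ⁻¹ * g * σ ∈ w.I := by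
  refine and_congr Pl.mem_D_smul ⟨fun h x hx => ?_, fun h x hx => ?_⟩
  · have := h (σ x) (by rwa [Pl.smul_v, BasicP.inv_apply])
    rwa [Pl.smul_v, map_sub, BasicP.inv_apply] at this
  · have := h (σ⁻¹ x) hx
    rw [Pl.smul_v, map_sub]
    rwa [AlgEquiv.mul_apply, BasicP.apply_inv] at this

theorem Pl.smul_v_apply (σ : GQ) (w : Pl) (x : Om) : (σ • w).v (σ x) = w.v x := by
  rw [Pl.smul_v, BasicP.inv_apply]

theorem Pl.conj_mem_I {g i : GQ} (hg : g ∈ w.D) (hi : i ∈ w.I) : g * i * g⁻¹ ∈ w.I := by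
  have h : g * i * g⁻¹ ∈ (g • w).I := Pl.mem_I_smul.2 (by simpa [mul_assoc] using hi)
  rwa [show g • w = w from hg] at h

theorem Pl.IsFrob.smul {k : ℕ} {φ : GQ} (h : w.IsFrob k φ) (σ : GQ) :
    (σ • w).IsFrob k (σ * φ * σ⁻¹) := by
  refine ⟨Pl.mem_D_smul.2 (by simpa [mul_assoc] using h.1), fun x hx => ?_⟩
  rw [Pl.smul_v, map_sub, map_pow, mul_assoc, AlgEquiv.mul_apply, BasicP.inv_apply]
  exact h.2 _ hx

theorem Pl.IsFrob.mul {k l : ℕ} {φ ψ : GQ} (h : w.IsFrob k φ) (h' : w.IsFrob l ψ) :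
    w.IsFrob (k + l) (φ * ψ) := by
  refine ⟨w.D.mul_mem h.1 h'.1, fun x hx => ?_⟩
  have h1 : w.v (ψ x) ≤ 1 := (Pl.mem_D.1 h'.1 x).trans_le hx
  rw [AlgEquiv.mul_apply, ← sub_add_sub_cancel _ (ψ x ^ w.p ^ k), add_comm k, pow_add, pow_mul]
  exact w.v.map_add_lt (h.2 _ h1) ((BasicP.pow_sub h1
    (by rw [map_pow]; exact pow_le_one₀ zero_le hx) _).trans_lt (h'.2 x hx))

theorem Pl.IsFrob.pow {k : ℕ} {φ : GQ} (h : w.IsFrob k φ) (m : ℕ) : w.IsFrob (k * m) (φ ^ m) := by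
  induction m with
  | zero => exact ⟨by simp, fun x _ => by simp⟩
  | succ m ih => rw [Nat.mul_succ, pow_succ]; exact ih.mul h

theorem Pl.isFrob_zero {g : GQ} : w.IsFrob 0 g ↔ g ∈ w.I := by
  simp only [Pl.IsFrob, pow_zero, pow_one]; rfl

theorem Pl.IsFrob.inv_mul {k : ℕ} {φ ψ : GQ} (h : w.IsFrob k φ) (h' : w.IsFrob k ψ) :
    φ⁻¹ * ψ ∈ w.I := by
  refine ⟨w.D.mul_mem (w.D.inv_mem h.1) h'.1, fun x hx => ?_⟩
  rw [← Pl.mem_D.1 h.1, map_sub, AlgEquiv.mul_apply, BasicP.apply_inv,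
    ← sub_sub_sub_cancel_right _ _ (x ^ w.p ^ k)]
  exact (w.v.map_sub _ _).trans_lt (max_lt (h'.2 x hx) (h.2 x hx))

theorem Pl.loc_D (w : Pl) : w.Loc w.D := ⟨⊤, isOpen_univ, (inf_top_eq _).symm⟩

theorem Pl.loc_inf (w : Pl) (hU : IsOpen (U : Set GQ)) : w.Loc (w.D ⊓ U) := ⟨U, hU, rfl⟩

theorem Pl.Loc.le (h : w.Loc H) : H ≤ w.D := by
  obtain ⟨U, -, rfl⟩ := h
  exact inf_le_left

theorem Pl.Loc.closed (h : w.Loc H) : IsClosed (H : Set GQ) := by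
  obtain ⟨U, hU, rfl⟩ := h
  exact w.closed_D.inter (closed_of_open hU)

theorem Pl.Loc.inf (h : w.Loc H) (hU : IsOpen (U : Set GQ)) : w.Loc (H ⊓ U) := by
  obtain ⟨V, hV, rfl⟩ := h
  exact ⟨V ⊓ U, hV.inter hU, inf_assoc _ _ _⟩

theorem Pl.Loc.of_le (h : w.Loc H) (hN : ON N) (h1 : N ⊓ H ≤ H') (h2 : H' ≤ H) : w.Loc H' := by
  rw [eq_inf_sup hN.1 h1 h2]
  exact h.inf (open_of_le hN.2 le_sup_right)

theorem Pl.Loc.ker [AddGroup A] {χ : GQ → A} (h : w.Loc H) (hc : IsCh H χ) (hk : IsKer H H' χ) :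
    w.Loc H' := by
  obtain ⟨U, hU, rfl⟩ := hk.eq_inf hc
  exact h.inf hU

theorem Pl.Loc.relIndex_ne (h : w.Loc H') (h' : H ≤ w.D) : H'.relIndex H ≠ 0 := by
  obtain ⟨U, hU, rfl⟩ := h
  rw [← Subgroup.inf_relIndex_right, inf_comm w.D, inf_assoc, inf_of_le_right h',
    Subgroup.inf_relIndex_right]
  exact R2.relIndex_ne_zero hU H

theorem Pl.v_nat_le (w : Pl) (n : ℕ) : w.v n ≤ 1 := by
  induction n with
  | zero => simp
  | succ n ih => rw [Nat.cast_succ]; exact w.v.map_add_le ih (by simp)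

theorem Pl.v_int_le (w : Pl) (n : ℤ) : w.v n ≤ 1 := by
  obtain ⟨m, rfl | rfl⟩ := n.eq_nat_or_neg
  · simpa using w.v_nat_le m
  · simpa using w.v_nat_le m

theorem Pl.v_int_eq_one {n : ℤ} : w.v n = 1 ↔ ¬ (w.p : ℤ) ∣ n := by
  constructor
  · rintro h ⟨m, rfl⟩
    rw [Int.cast_mul, Int.cast_natCast, map_mul] at h
    exact (mul_lt_one_of_nonneg_of_lt_one_left zero_le (BasicP.p_lt w) (w.v_int_le m)).ne h
  · intro h
    obtain ⟨a, b, e⟩ := (Nat.prime_iff_prime_int.1 w.prime).irreducible.coprime_iff_not_dvd.2 h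
    refine le_antisymm (w.v_int_le n) (not_lt.1 fun h1 => ?_)
    have h2 : w.v (a * w.p + b * n) < 1 := w.v.map_add_lt
      (by rw [map_mul]
          exact mul_lt_one_of_nonneg_of_lt_one_right (w.v_int_le a) zero_le (BasicP.p_lt w))
      (by rw [map_mul]; exact mul_lt_one_of_nonneg_of_lt_one_right (w.v_int_le b) zero_le h1)
    rw [show (a : Om) * w.p + b * n = 1 by exact_mod_cast e, map_one] at h2
    exact h2.ne rfl

theorem Pl.v_int_le_iff {n : ℤ} {k : ℕ} : w.v n ≤ ((w.p : ℝ≥0) ^ k)⁻¹ ↔ (w.p : ℤ) ^ k ∣ n := by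
  have hp : (0 : ℝ≥0) < w.p := Nat.cast_pos.2 w.prime.pos
  constructor
  · induction k generalizing n with
    | zero => simp
    | succ k ih =>
      intro h
      have h1 : (1 : ℝ≥0) < w.p ^ (k + 1) :=
        one_lt_pow₀ (Nat.one_lt_cast.2 w.prime.one_lt) k.succ_ne_zero
      obtain ⟨m, rfl⟩ : (w.p : ℤ) ∣ n :=
        not_not.1 fun h2 => (h.trans_lt (inv_lt_one_of_one_lt₀ h1)).ne (Pl.v_int_eq_one.2 h2)
      rw [Int.cast_mul, Int.cast_natCast, map_mul, w.vp, pow_succ', mul_inv] at h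
      rw [pow_succ']
      exact mul_dvd_mul_left _ (ih (le_of_mul_le_mul_left h (inv_pos.2 hp)))
  · rintro ⟨m, rfl⟩
    rw [Int.cast_mul, Int.cast_pow, Int.cast_natCast, map_mul, map_pow, w.vp, inv_pow]
    exact mul_le_of_le_one_right zero_le (w.v_int_le m)

theorem Pl.v_two (h : w.p ≠ 2) : w.v 2 = 1 := by
  have := (Pl.v_int_eq_one (w := w) (n := 2)).2 fun h1 =>
    h ((Nat.prime_dvd_prime_iff_eq w.prime Nat.prime_two).1 (by exact_mod_cast h1))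
  simpa using this

theorem Pl.v_two' (h : w.p = 2) : w.v 2 = 2⁻¹ := by
  have := w.vp
  rw [h] at this
  simpa using this

theorem Pl.v_p_lt (w : Pl) : w.v w.p < 1 := BasicP.p_lt w

theorem Pl.v_root {n : ℕ} (hn : n ≠ 0) (h : x ^ n = 1) : w.v x = 1 :=
  (pow_eq_one_iff_of_nonneg zero_le hn).1 (by rw [← map_pow, h, map_one])

/-- roots of unity of order prime to `p` are distinct in the residue field -/
theorem Pl.root_eq {n : ℕ} (hn : ¬ w.p ∣ n) (hx : x ^ n = 1) (hy : y ^ n = 1)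
    (h : w.v (x - y) < 1) : x = y := by
  have h0 : n ≠ 0 := fun e => hn (e ▸ dvd_zero _)
  have hy0 : y ≠ 0 := fun e => by simp [e, h0] at hy
  have h1 : (x / y) ^ n = 1 := by rw [div_pow, hx, hy, div_one]
  have h2 : w.v (1 - x / y) < 1 := by
    rwa [one_sub_div hy0, map_div₀, Pl.v_root h0 hy, div_one, Valuation.map_sub_swap]
  by_contra hxy
  have h3 : ∑ i ∈ Finset.range n, (x / y) ^ i = 0 := by
    have := geom_sum_mul (x / y) n
    rw [h1, sub_self, mul_eq_zero, sub_eq_zero, div_eq_one_iff_eq hy0] at this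
    exact this.resolve_right hxy
  have h4 : ((n : ℤ) : Om) = ∑ i ∈ Finset.range n, (1 ^ i - (x / y) ^ i) := by
    simp [Finset.sum_sub_distrib, h3]
  refine (show w.v (n : ℤ) < 1 from ?_).ne (Pl.v_int_eq_one.2 (by exact_mod_cast hn))
  rw [h4]
  exact w.v.map_sum_lt one_ne_zero fun i _ =>
    (BasicP.pow_sub (by simp) (Pl.v_root h0 h1).le i).trans_lt h2

theorem Pl.v_pow_sub (hx : w.v x ≤ 1) (hy : w.v y ≤ 1) (n : ℕ) :
    w.v (x ^ n - y ^ n) ≤ w.v (x - y) := BasicP.pow_sub hx hy n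

theorem Pl.v_add_pow (hx : w.v x ≤ 1) (hy : w.v y ≤ 1) (k : ℕ) :
    w.v ((x + y) ^ w.p ^ k - (x ^ w.p ^ k + y ^ w.p ^ k)) ≤ (w.p : ℝ≥0)⁻¹ := by
  obtain ⟨r, hr⟩ := exists_add_pow_prime_pow_eq w.prime (⟨x, hx⟩ : w.v.integer) ⟨y, hy⟩ k
  have h1 : (x + y) ^ w.p ^ k = x ^ w.p ^ k + y ^ w.p ^ k + w.p * x * y * r := by
    simpa using congrArg Subtype.val hr
  rw [h1, add_sub_cancel_left, map_mul, map_mul, map_mul, w.vp, mul_assoc, mul_assoc]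
  exact mul_le_of_le_one_right zero_le (mul_le_one' hx (mul_le_one' hy r.2))

theorem Pl.Unif.v_eq {π π' : Om} (h : w.Unif H π) (h' : w.Unif H π') : w.v π = w.v π' :=
  le_antisymm (BasicP.le h' h.1 h.2.2.1) (BasicP.le h h'.1 h'.2.2.1)

theorem Pl.Unif.le {π : Om} (h : w.Unif H π) (hx : Fix H x) (h1 : w.v x < 1) : w.v x ≤ w.v π :=
  BasicP.le h hx h1

theorem Pl.Unif.zpow_inj {π : Om} (h : w.Unif H π) {a b : ℤ} (e : w.v π ^ a = w.v π ^ b) :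
    a = b :=
  zpow_right_injective₀ (w.v.pos_iff.2 h.2.1) h.2.2.1.ne e

theorem Pl.Unif.not_ev {π : Om} (h : w.Unif H π) : ¬ w.Ev H π := by
  rintro ⟨y, hy, e⟩
  have h0 : y ≠ 0 := fun h0 => h.2.1 (by simpa [h0] using e)
  obtain ⟨k, hk⟩ := h.2.2.2 y hy h0
  have := h.zpow_inj (a := 1) (b := k * 2) (by rw [zpow_mul, ← hk, zpow_one, e]; rfl)
  omega

theorem Out.smul {R : Set Pl} {u : GQ} (hu : u ∈ U) : Out U R (u • w) ↔ Out U R w := by
  refine ⟨fun h v hv => ?_, fun h v hv => ?_⟩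
  · simpa [mul_smul] using h (v * u⁻¹) (U.mul_mem hv (U.inv_mem hu))
  · simpa [mul_smul] using h (v * u) (U.mul_mem hv hu)

theorem Out.mono {R R' : Set Pl} (h : Out U R' w) (h' : R ⊆ R') : Out U R w :=
  fun u hu e => h u hu (h' e)

theorem SU.mono {R R' : Set Pl} (h : R ⊆ R') : SU U R ≤ SU U R' :=
  fun _ hx => ⟨hx.1, fun w hw => hx.2 w (hw.mono h)⟩

theorem Kill.mono {R R' : Set Pl} (h : Kill U R) (h' : R ⊆ R') : Kill U R' := by
  intro w π h1 h2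
  obtain ⟨x, a, b, c⟩ := h w π (h1.mono h') h2
  exact ⟨x, a, b, fun w' hw => c w' (hw.mono (Set.insert_subset_insert h'))⟩

theorem BasicP.fix {u : GQ} (hu : u ∈ U) (h : Fix (w.D ⊓ U) x) : Fix ((u • w).D ⊓ U) (u x) := by
  intro g hg
  have := congrArg u (h _ ⟨Pl.mem_D_smul.1 hg.1, U.mul_mem (U.mul_mem (U.inv_mem hu) hg.2) hu⟩)
  rwa [mul_assoc, AlgEquiv.mul_apply, BasicP.apply_inv] at this

theorem sq_smul {u : GQ} (hu : u ∈ U) (hx : Fix U x) :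
    Sq ((u • w).D ⊓ U) x ↔ Sq (w.D ⊓ U) x := by
  have key : ∀ {w : Pl} {u : GQ}, u ∈ U → Sq (w.D ⊓ U) x → Sq ((u • w).D ⊓ U) x :=
    fun hu ⟨a, ha, e⟩ => ⟨_, BasicP.fix hu ha, by rw [← map_pow, ← e, hx _ hu]⟩
  exact ⟨fun h => by simpa using key (U.inv_mem hu) h, key hu⟩

theorem nm_smul {u : GQ} (hu : u ∈ U) (hx : Fix U x) (hy : Fix U y) :
    Nm ((u • w).D ⊓ U) x y ↔ Nm (w.D ⊓ U) x y := by
  have key : ∀ {w : Pl} {u : GQ}, u ∈ U → Nm (w.D ⊓ U) x y → Nm ((u • w).D ⊓ U) x y :=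
    fun {w u} hu ⟨a, b, ha, hb, e⟩ => ⟨_, _, BasicP.fix hu ha, BasicP.fix hu hb, by
      have := congrArg u e
      rwa [hy _ hu, map_sub, map_mul, hx _ hu, map_pow, map_pow] at this⟩
  exact ⟨fun h => by simpa using key (U.inv_mem hu) h, key hu⟩

theorem Triv.smul_place {f : GQ → GQ → Om} (hf : Co2 U f) {V : Subgroup GQ} (hV : V ≤ U) {u : GQ} (hu : u ∈ U)
    (hn : ∀ g ∈ V, u⁻¹ * g * u ∈ V) (h : Triv (w.D ⊓ V) f) : Triv ((u • w).D ⊓ V) f :=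
  ((hf.triv_conj hu).mono (inf_le_right.trans hV)).iff.2
    (h.conj u fun g hg => ⟨Pl.mem_D_smul.1 hg.1, hn g hg.2⟩)

theorem TC.mono (h : TC U) (h' : H ≤ U) : TC H := fun g hg => h g (h' hg)

end Pool.Agent.P.MP_8b7eba_nt.R2
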