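import Pool.Agent.P.MP_8b7eba_nt.R2.Defs

/-! Shared definitions for the project R2: the curve, patched cochains, Selmer groups. -/

namespace Pool.Agent.P.MP_8b7eba_nt.R2

open scoped NNReal Matrix
open MP_9c97e9_nt (Pt pm Is ap)
open Filter Topology Polynomial

noncomputable section

/-! ### The curve and its Tate module -/

scoped instance (priority := high) decO : DecidableEq Om :=
  fun a b => Classical.propDecidable (a = b)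

/-- the curve `Y² = X (X + 9) (X - 16)` -/
def W15 : WeierstrassCurve ℤ := ⟨0, -7, 0, -144, 0⟩

/-- the algebraic points -/
abbrev EO : Type := Pt W15 Om

/-- the Galois action on points -/
def ac (σ : GQ) : EO →+ EO := pm W15 (σ : Om →+* Om)

/-- the kernel of the reduction at `w` -/
def E1 (w : Pl) (P : EO) : Prop := ∀ x η, Is P x η → w.v 4 < w.v x

/-- the quadratic character attached to a square root, with values `1` and `-1` -/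
def sd (δ : Om) (g : GQ) : ℤ := if g δ = δ then 1 else -1

/-- the twisted action on points -/
def tac (δ : Om) (g : GQ) : EO →+ EO := sd δ g • ac g

abbrev V2 : Type := Fin 2 → ℚ_[2]

abbrev Mt : Type := Matrix (Fin 2) (Fin 2) ℚ_[2]

/-- the 2-adic cyclotomic character with values in the field -/
def cq (g : GQ) : ℚ_[2] := (cyc g : ℤ_[2])

/-- a basis of the Tate module adapted to a place above two -/
structure Tate (w : Pl) where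
  pt : V2 →+ EO
  rho : GQ →* Mt
  int : ∀ g i j, ‖rho g i j‖ ≤ 1
  ker : ∀ v, pt v = 0 ↔ ‖v‖ ≤ 1
  surj : ∀ (P : EO) (k : ℕ), 2 ^ k • P = 0 → ∃ v, pt v = P
  gal : ∀ g v, ac g (pt v) = pt (rho g *ᵥ v)
  sm : ∀ ε : ℝ, 0 < ε → ∃ N, ON N ∧ ∀ g ∈ N, ∀ i j, ‖(rho g - 1) i j‖ ≤ ε
  det : ∀ g, (rho g).det = cq g
  four : ∀ g i j, ‖(rho g - !![cq g, 0; 0, 1]) i j‖ ≤ 4⁻¹
  t0 : Is (pt ![2⁻¹, 0]) (-9) 0
  t1 : Is (pt ![0, 2⁻¹]) 16 0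
  e1 : ∀ v, E1 w (pt v) ↔ ‖v 1‖ ≤ 1
  up : ∀ g ∈ w.D, rho g 1 0 = 0
  un : ∀ g ∈ w.I, rho g 1 1 = 1

/-- the twisted representation -/
def Tate.rd {w : Pl} (T : Tate w) (δ : Om) (g : GQ) : Mt := (sd δ g : ℚ_[2]) • T.rho g

/-- the twisted representation as linear maps -/
def Tate.rq {w : Pl} (T : Tate w) (δ : Om) (g : GQ) : V2 →ₗ[ℚ_[2]] V2 := Matrix.toLin' (T.rd δ g)

/-- sums over cosets -/
def csum {M : Type} [AddCommMonoid M] (H H' : Subgroup GQ) (f : GQ → M) : M :=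
  ∑ᶠ q : H ⧸ H'.subgroupOf H, f ((q.out : H) : GQ)

/-- the Kummer cocycle of a half of `P` takes values in the group generated by `(0, 0)` -/
def Kq (S : Set GQ) (P : EO) : Prop :=
  ∃ Q, 2 • Q = P ∧ ∀ g ∈ S, ac g Q - Q = 0 ∨ Is (ac g Q - Q) 0 0

/-! ### Patched cochains -/

/-- a non-principal ultrafilter -/
def UF : Ultrafilter ℕ := hyperfilter ℕ

/-- sequences of automorphisms -/
abbrev GS : Type := ℕ → GQ

/-- sequences which lie in the given subgroups for most indices -/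
def St (H : ℕ → Subgroup GQ) : Subgroup GS where
  carrier := {g | ∀ᶠ k in UF, g k ∈ H k}
  one_mem' := Eventually.of_forall fun k => (H k).one_mem
  mul_mem' := fun ha hb => (ha.and hb).mono fun k h => (H k).mul_mem h.1 h.2
  inv_mem' := fun ha => ha.mono fun k h => (H k).inv_mem h

/-- sequences which lie in a fixed subgroup for most indices -/
abbrev S1 (H : Subgroup GQ) : Subgroup GS := St fun _ => H

/-- constant sequences -/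
def cs (g : GQ) : GS := fun _ => g

/-- the limit along the ultrafilter -/
def ul {W : Type} [TopologicalSpace W] [Nonempty W] (f : ℕ → W) : W := limUnder (UF : Filter ℕ) f

section

variable {W W' : Type} [NormedAddCommGroup W] [NormedSpace ℚ_[2] W] [NormedAddCommGroup W']
  [NormedSpace ℚ_[2] W']

/-- uniformly continuous on `H` -/
def Uc (H : Subgroup GQ) (c : GQ → W) : Prop :=
  ∀ ε : ℝ, 0 < ε → ∃ N, ON N ∧ ∀ g ∈ H, ∀ n ∈ H, n ∈ N → ‖c (g * n) - c g‖ ≤ ε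

/-- uniformly continuous on `H × H` -/
def Uc2 (H : Subgroup GQ) (b : GQ → GQ → W) : Prop :=
  ∀ ε : ℝ, 0 < ε → ∃ N, ON N ∧ ∀ g ∈ H, ∀ h ∈ H, ∀ n ∈ H, n ∈ N →
    ‖b (g * n) h - b g h‖ ≤ ε ∧ ‖b g (h * n) - b g h‖ ≤ ε

/-- `c` is a family of approximations of `x` -/
structure Ap (H : ℕ → Subgroup GQ) (c : ℕ → GQ → W) (x : GS → W) : Prop where
  bd : ∃ B : ℝ, ∀ k g, ‖c k g‖ ≤ B
  uc : ∀ k, Uc (H k) (c k)
  lim : ∀ g ∈ St H, Tendsto (fun k => c k (g k)) UF (𝓝 (x g))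

/-- `b` is a family of approximations of `B` -/
structure Ap2 (H : ℕ → Subgroup GQ) (b : ℕ → GQ → GQ → W) (B : GS → GS → W) : Prop where
  bd : ∃ C : ℝ, ∀ k g h, ‖b k g h‖ ≤ C
  uc : ∀ k, Uc2 (H k) (b k)
  lim : ∀ g ∈ St H, ∀ h ∈ St H, Tendsto (fun k => b k (g k) (h k)) UF (𝓝 (B g h))

/-- a continuous action by isometries through a pro-2 group -/
structure Rep (H : Subgroup GQ) (r : GQ → W →ₗ[ℚ_[2]] W) : Prop where
  one : ∀ v, r 1 v = v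
  mul : ∀ g ∈ H, ∀ h ∈ H, ∀ v, r (g * h) v = r g (r h v)
  le : ∀ g v, ‖r g v‖ ≤ ‖v‖
  sm : ∀ ε : ℝ, 0 < ε → ∃ N, ON N ∧ ∀ n ∈ H, n ∈ N → ∀ v, ‖r n v - v‖ ≤ ε * ‖v‖
  pow : ∀ g ∈ H, ∀ ε : ℝ, 0 < ε → ∃ k : ℕ, ∀ v, ‖r (g ^ 2 ^ k) v - v‖ ≤ ε * ‖v‖

/-- the action of sequences -/
def rS (r : GQ → W →ₗ[ℚ_[2]] W) (g : GS) (v : W) : W := ul fun k => r (g k) v

/-- patched 1-cocycles -/
def PZ (H : ℕ → Subgroup GQ) (r : GQ → W →ₗ[ℚ_[2]] W) (x : GS → W) : Prop :=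
  (∃ c, Ap H c x) ∧ ∀ g ∈ St H, ∀ h ∈ St H, x (g * h) = x g + rS r g (x h)

/-- coboundaries on a set of sequences -/
def Cob (S : Subgroup GS) (r : GQ → W →ₗ[ℚ_[2]] W) (x : GS → W) : Prop :=
  ∃ v, ∀ g ∈ S, x g = rS r g v - v

/-- the cup product -/
def cupS (β : W →ₗ[ℚ_[2]] W' →ₗ[ℚ_[2]] ℚ_[2]) (r' : GQ → W' →ₗ[ℚ_[2]] W') (x : GS → W)
    (y : GS → W') (g h : GS) : ℚ_[2] :=
  β (x g) (rS r' g (y h))

end

/-- the cyclotomic character of a sequence -/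
def cS (g : GS) : ℚ_[2] := ul fun k => cq (g k)

/-- patched 2-cocycles with values in the Tate twist -/
def PZ2 (H : ℕ → Subgroup GQ) (B : GS → GS → ℚ_[2]) : Prop :=
  (∃ b, Ap2 H b B) ∧ ∀ g ∈ St H, ∀ h ∈ St H, ∀ l ∈ St H,
    cS g * B h l + B g (h * l) = B (g * h) l + B g h

/-- patched 2-coboundaries -/
def Cob2 (H : ℕ → Subgroup GQ) (B : GS → GS → ℚ_[2]) : Prop :=
  ∃ (s : GS → ℚ_[2]), (∃ c, Ap H c s) ∧ ∀ g ∈ St H, ∀ h ∈ St H, B g h = s g + cS g * s h - s (g * h)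

/-- `t` is the local invariant of `B` -/
def IsPI (w : ℕ → Pl) (H : ℕ → Subgroup GQ) (B : GS → GS → ℚ_[2]) (t : ℚ_[2]) : Prop :=
  ∀ b, Ap2 H b B → ∀ i : ℕ, ∀ᶠ k in UF,
    nv (w k) (H k) (fun g h => ec (b k g h / 2 ^ i)) = ec (t / 2 ^ i)

/-- the local invariant of a patched 2-cocycle -/
def PI (w : ℕ → Pl) (H : ℕ → Subgroup GQ) (B : GS → GS → ℚ_[2]) : ℚ_[2] :=
  Classical.epsilon (IsPI w H B)

/-! ### The imaginary quadratic field and its anticyclotomic tower -/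

/-- the arithmetic data -/
structure Pre where
  l : ℕ
  d : ℤ
  sk : Om
  dl : Om
  w2 : Pl
  lp : l.Prime
  l16 : l % 16 = 7
  sq : Squarefree d
  d8 : d % 8 = 5
  cop : IsCoprime d (15 * l)
  spl : ∀ p : ℕ, p.Prime → (p : ℤ) ∣ 15 * d → jacobiSym (-l) p = 1
  hsk : sk ^ 2 = -l
  hdl : dl ^ 2 = d
  hw2 : w2.p = 2

/-- the Galois group of the imaginary quadratic field -/
def Pre.GK (P : Pre) : Subgroup GQ := MulAction.stabilizer GQ P.sk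

/-- the anticyclotomic logarithm -/
structure Anti (P : Pre) (a : GQ → ℤ_[2]) : Prop where
  add : ∀ g ∈ P.GK, ∀ h ∈ P.GK, a (g * h) = a g + a h
  sm : ∀ n : ℕ, ∃ N, ON N ∧ ∀ g ∈ P.GK, g ∈ N → 2 ^ n ∣ a g
  dih : ∀ g, g ∉ P.GK → ∀ h ∈ P.GK, a (g * h * g⁻¹) = -a h
  unr : ∀ w : Pl, w.p ≠ 2 → ∀ g ∈ w.I ⊓ P.GK, a g = 0
  two : ∃ u : ℤ_[2]ˣ, ∀ g ∈ P.w2.I, a g = u * lg (cyc g)
  fin : ∀ (w : Pl) (φ : GQ), (w.p : ℤ) ∣ P.d → w.IsFrob 1 φ → a φ ≠ 0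
  odd : ∀ (w : Pl) (φ : GQ), w.p ∣ 15 → w.IsFrob 1 φ → IsUnit (a φ)

/-- the 2-primary system of Heegner points -/
structure Heeg (P : Pre) (a : GQ → ℤ_[2]) where
  N : ℕ → Subgroup GQ
  y : ℕ → EO
  on : ∀ c, ON (N c)
  le : ∀ c, N c ≤ P.GK
  one : N 1 = P.GK
  anti : ∀ c c', c ∣ c' → c'.Coprime (15 * P.l) → c' ≠ 0 → N c' ≤ N c
  ab : ∀ c, ∀ g ∈ P.GK, ∀ h ∈ P.GK, g * h * g⁻¹ * h⁻¹ ∈ N c
  two : ∀ c, ∀ g ∈ P.GK, ∃ k : ℕ, g ^ 2 ^ k ∈ N c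
  dih : ∀ c g, g ∉ P.GK → g * g ∈ N c
  unr : ∀ c (w : Pl), w.p ≠ 2 → ¬ w.p ∣ c → w.I ⊓ P.GK ≤ N c
  fix : ∀ c, ∀ g ∈ N c, ac g (y c) = y c
  pow : ∀ (M : ℕ) g, g ∈ N (2 ^ (M + 2)) ↔ g ∈ P.GK ∧ 2 ^ M ∣ a g ∧ 4 ∣ (cyc g : ℤ_[2]) - 1
  gen : ∀ g ∈ N P.d.natAbs, g P.dl = P.dl
  inert : ∀ c (w : Pl) (F : GQ), c.Coprime (15 * P.l) → c ≠ 0 → ¬ w.p ∣ 30 * P.l * c →
    w.IsFrob 1 F → F ∉ P.GK →
    (N (c * w.p)).relIndex (N c) = 2 ^ padicValNat 2 (w.p + 1) ∧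
    (∀ g ∈ N c, ∃ i ∈ w.I, i⁻¹ * g ∈ N (c * w.p)) ∧
    csum (N c) (N (c * w.p)) (fun s => ac s (y (c * w.p))) = ap W15 w.p • y c ∧
    ∀ g ∈ P.GK, E1 w (ac (F * g) (y (c * w.p)) -
      ((w.p + 1) / 2 ^ padicValNat 2 (w.p + 1)) • ac g (y c))
  split : ∀ c (w : Pl) (F : GQ), c.Coprime (15 * P.l) → 4 ∣ c → c ≠ 0 → ¬ w.p ∣ c →
    (w.p : ℤ) ∣ P.d → w.IsFrob 1 F →
    csum (N c) (N (c * w.p)) (fun s => ac s (y (c * w.p))) =
      ap W15 w.p • y c - ac F (y c) - ac F⁻¹ (y c)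

/-- the Heegner points of 2-power conductor are far from being divisible by two -/
def JP {P : Pre} {a : GQ → ℤ_[2]} (H : Heeg P a) : Prop :=
  ∃ M₀ : ℕ, ∀ M, M₀ ≤ M → ∀ γ ∈ P.w2.I, ∀ ι ∈ P.w2.I, IsUnit (a γ) → cyc ι = -1 →
    ¬ Kq {g | g ∈ P.w2.I ∧ 2 ^ M ∣ a g}
      ((fun R => ac γ R - R)^[2 ^ M - 3] (H.y (2 ^ (M + 2)) + ac ι (H.y (2 ^ (M + 2)))))

/-- all the data -/
structure Dat extends Pre where
  T : Tate w2
  a : GQ → ℤ_[2]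
  an : Anti toPre a
  spD : ∀ w : Pl, (w.p : ℤ) ∣ 30 * d → w.D ≤ toPre.GK
  np : ℕ → ℕ
  hnp : ∀ (w : Pl) (φ : GQ), (w.p : ℤ) ∣ d → w.IsFrob 1 φ → ‖a φ‖ = (2 ^ np w.p)⁻¹
  z : GQ
  zK : z ∈ toPre.GK
  zd : z dl ≠ dl
  zr : T.rho z = 1
  za : a z = 0
  f2 : GQ
  fD : f2 ∈ w2.D
  fd : f2 dl ≠ dl
  fa : a f2 = 0
  fc : 4 ∣ (cyc f2 : ℤ_[2]) - 1
  gm : GQ
  gI : gm ∈ w2.I
  ga : a gm = 1
  span : ∀ B : Mt, B ∈ Submodule.span ℚ_[2]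
    (T.rho '' {g | g ∈ toPre.GK ∧ a g = 0 ∧ g dl = dl})
  h0 : ∃ g ∈ toPre.GK, ∃ h ∈ toPre.GK, (T.rho (g * h * g⁻¹ * h⁻¹) - 1).det ≠ 0

/-- the number which governs the invariants -/
def Dat.sg (D : Dat) : ℕ := ∑ p ∈ D.d.natAbs.primeFactors, 2 ^ D.np p

/-- the elements which act trivially -/
def Dat.Z (D : Dat) (g : GQ) : Prop := g ∈ D.GK ∧ D.T.rho g = 1 ∧ D.a g = 0 ∧ g D.dl = D.dl

/-- patched Kolyvagin primes -/
structure Kp (D : Dat) where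
  w : ℕ → Pl
  F : GS
  t : GS
  big : ∀ k, ¬ ((w k).p : ℤ) ∣ 30 * D.l * D.d
  fr : ∀ k, (w k).IsFrob 1 (F k)
  out : ∀ k, F k ∉ D.GK
  tI : ∀ k, t k ∈ (w k).I
  mov : ∀ k (β : Om), β ^ 2 = (w k).p → t k β = -β
  rho : ∀ k i j, ‖(D.T.rho (F k) - D.T.rho tau) i j‖ ≤ (2 ^ (k + 1))⁻¹
  an : ∀ k, 2 ^ k ∣ D.a (tau * F k)
  sg : ∀ k, (tau * F k) D.dl = D.dl

/-- the Frobenius element over the quadratic field -/
def Kp.ph {D : Dat} (l : Kp D) : GS := l.F * l.F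

/-- lists of distinct Kolyvagin primes -/
def Ok {D : Dat} (n : List (Kp D)) : Prop := n.Pairwise fun l l' => ∀ k, (l.w k).p ≠ (l'.w k).p

/-! ### Coefficients -/

section

variable {A : Type} [NormedCommRing A] [NormedAlgebra ℚ_[2] A]

/-- a continuous character -/
structure IsPsi (ψ : ℤ_[2] → A) : Prop where
  zero : ψ 0 = 1
  add : ∀ a b, ψ (a + b) = ψ a * ψ b
  cont : Continuous ψ
  le : ∀ a, ‖ψ a‖ ≤ 1

/-- the inverse character -/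
def bar (ψ : ℤ_[2] → A) (a : ℤ_[2]) : A := ψ (-a)

/-- `A` is the quotient of the polynomial ring by `G`, the variable being `ψ 1 - 1` -/
def IsAF (ψ : ℤ_[2] → A) (G : ℚ_[2][X]) : Prop :=
  IsPsi ψ ∧ Function.Surjective (aeval (ψ 1 - 1) : ℚ_[2][X] →ₐ[ℚ_[2]] A) ∧
    ∀ p : ℚ_[2][X], aeval (ψ 1 - 1) p = 0 ↔ G ∣ p

/-- matrices act on vectors with coefficients in `A` -/
def mv (B : Mt) : (Fin 2 → A) →ₗ[A] Fin 2 → A := Matrix.toLin' (B.map (algebraMap ℚ_[2] A))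

/-- the representation with coefficients in `A` -/
def Dat.r (D : Dat) (ψ : ℤ_[2] → A) (g : GQ) : (Fin 2 → A) →ₗ[ℚ_[2]] Fin 2 → A :=
  (ψ (D.a g) • mv (D.T.rd D.dl g)).restrictScalars ℚ_[2]

/-- the diagonal characters at the place above two -/
def Dat.th (D : Dat) (ψ : ℤ_[2] → A) (i : Fin 2) (g : GQ) : A →ₗ[ℚ_[2]] A :=
  LinearMap.mul ℚ_[2] A (D.T.rd D.dl g i i • ψ (D.a g))

/-- the conjugate cocycle -/
def Dat.xt (D : Dat) (x : GS → Fin 2 → A) (g : GS) : Fin 2 → A :=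
  mv (D.T.rho tau) (x (cs tau * g * cs tau))

open Classical in
/-- the global normalisation -/
def Dat.nz (D : Dat) (ψ : ℤ_[2] → A) (x : GS → Fin 2 → A) (g : GS) : Fin 2 → A :=
  if g ∈ S1 D.GK then x g + (2⁻¹ : ℚ_[2]) • (rS (D.r ψ) g (x (cs D.z)) - x (cs D.z)) else 0

/-- the local normalisation -/
def Dat.ln (D : Dat) (ψ : ℤ_[2] → A) (x : GS → Fin 2 → A) (g : GS) : Fin 2 → A :=
  x g - (rS (D.r ψ) g (mv (D.T.rd D.dl D.f2 - 1)⁻¹ (x (cs D.f2))) -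
    mv (D.T.rd D.dl D.f2 - 1)⁻¹ (x (cs D.f2)))

/-- the strict condition -/
def Dat.Str (D : Dat) (ψ : ℤ_[2] → A) (x : GS → Fin 2 → A) : Prop :=
  ∀ g ∈ S1 D.w2.D, D.ln ψ x g = 0

/-- the ordinary condition -/
def Dat.Ord (D : Dat) (ψ : ℤ_[2] → A) (x : GS → Fin 2 → A) : Prop :=
  ∀ g ∈ S1 D.w2.D, D.ln ψ x g 1 = 0

/-- normalised cocycles with the local conditions away from two -/
structure Dat.Rel (D : Dat) (ψ : ℤ_[2] → A) (n : List (Kp D)) (x : GS → Fin 2 → A) : Prop where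
  pz : PZ (fun _ => D.GK) (D.r ψ) x
  off : ∀ g, g ∉ S1 D.GK → x g = 0
  nz : x (cs D.z) = 0
  unr : ∀ (w : ℕ → Pl) (g : GS), (∀ᶠ k in UF, g k ∈ (w k).I ⊓ D.GK ∧ ¬ ((w k).p : ℤ) ∣ 30 * D.d ∧
    ∀ l ∈ n, (w k).p ≠ (l.w k).p) → x g = 0
  bad : ∀ w : Pl, w.p ∣ 15 → Cob (S1 w.I) (D.r ψ) x
  tr : ∀ l ∈ n, x l.ph = 0

/-- the Selmer group which is ordinary at both places above two -/
def Dat.Sel (D : Dat) (ψ : ℤ_[2] → A) (n : List (Kp D)) (x : GS → Fin 2 → A) : Prop :=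
  D.Rel ψ n x ∧ D.Ord ψ x ∧ D.Ord (bar ψ) (D.xt x)

/-- the Selmer group which is strict at one place above two and relaxed at the other -/
def Dat.SS (D : Dat) (ψ : ℤ_[2] → A) (x : GS → Fin 2 → A) : Prop := D.Rel ψ [] x ∧ D.Str ψ x

/-- universal approximations -/
abbrev KA : Type := ℕ → GQ → ℕ → V2

/-- the cochain attached to universal approximations -/
def raw (ψ : ℤ_[2] → A) (v : KA) (g : GS) : Fin 2 → A :=
  ul fun k i => ∑ j ∈ Finset.range (2 ^ k), v k (g k) j i • ψ j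

/-- the normalised cochain attached to universal approximations -/
def Dat.kap (D : Dat) (ψ : ℤ_[2] → A) (v : KA) : GS → Fin 2 → A := D.nz ψ (raw ψ v)

/-- a chain ring of length `j` whose residue field has dimension `e` -/
structure Chain (π : A) (j e : ℕ) : Prop where
  pos : 0 < e
  nil : π ^ j = 0
  loc : ∀ a, IsUnit a ∨ π ∣ a
  rk : ∀ i ≤ j, Module.finrank ℚ_[2] (Ideal.span {π ^ i}) = e * (j - i)

end

/-- distinguished polynomials -/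
def Dist (G : ℚ_[2][X]) : Prop := G.Monic ∧ ∀ i < G.natDegree, ‖G.coeff i‖ < 1

/-! ### Derived points -/

/-- the discrete logarithm to the base `t` -/
def dlg (N : Subgroup GQ) (t s : GQ) : ℕ := sInf {m | (t ^ m)⁻¹ * s ∈ N}

/-- the conductor at level `k` -/
def Dat.ck (D : Dat) (n : List (Kp D)) (k : ℕ) : ℕ :=
  2 ^ (k + 2) * D.d.natAbs * (n.map fun l => (l.w k).p).prod

/-- the anticyclotomic logarithm at level `k` -/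
def Dat.ak (D : Dat) (k : ℕ) (g : GQ) : ZMod (2 ^ k) := PadicInt.toZModPow k (D.a g)

/-- the derived Heegner points -/
def Dat.PP (D : Dat) (H : Heeg D.toPre D.a) (n : List (Kp D)) (k : ℕ) (j : ZMod (2 ^ k)) : EO :=
  csum D.GK (H.N (D.ck n k)) fun s => if D.ak k s = j then
    (n.map fun l => dlg (H.N (l.w k).p) (l.t k) s).prod • tac D.dl s (H.y (D.ck n k)) else 0

/-- `v` describes the Kolyvagin cocycles -/
def Dat.KD (D : Dat) (H : Heeg D.toPre D.a) (n : List (Kp D)) (v : KA) : Prop :=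
  ∀ k, Sm D.GK (v k) ∧ (∀ g j, ‖v k g j‖ ≤ 1) ∧
    ∃ (Q : ZMod (2 ^ k) → EO) (R : GQ → ZMod (2 ^ k) → EO), ∀ j, 2 ^ k • Q j = D.PP H n k j ∧
      ∀ g ∈ D.GK, (∀ s ∈ H.N (D.ck n k), ac s (R g j) = R g j) ∧
        (tac D.dl g (D.PP H n k (j - D.ak k g)) = D.PP H n k j → R g j = 0) ∧
        D.T.pt ((2 ^ k : ℚ_[2])⁻¹ • v k g j.val) = tac D.dl g (Q (j - D.ak k g)) - Q j - R g j

/-- the properties of the Kolyvagin system -/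
def Dat.Kol (D : Dat) (v : List (Kp D) → KA) : Prop :=
  (∀ n k g j, ‖v n k g j‖ ≤ 1) ∧
  ∀ (A : Type) [NormedCommRing A] [NormedAlgebra ℚ_[2] A] [IsUltrametricDist A]
    [FiniteDimensional ℚ_[2] A] (ψ : ℤ_[2] → A), IsPsi ψ → ∀ n, Ok n →
    D.Sel ψ n (D.kap ψ (v n)) ∧ ∀ l, Ok (l :: n) →
      D.kap ψ (v (l :: n)) l.t = mv (D.T.rho tau) (D.kap ψ (v n) l.ph)

/-- an abstract Kolyvagin system -/
structure HS (A : Type) [CommRing A] (π : A) (j : ℕ) (X : Type) [AddCommGroup X] [Module A X]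
    (ι : Type) where
  ok : List ι → Prop
  Sel : List ι → Submodule A X
  Good : List ι → ℕ → X → Prop
  fr : ι → X →ₗ[A] Fin 2 → A
  sg : ι → X →ₗ[A] Fin 2 → A
  mem : ∀ n α κ, Good n α κ → ok n ∧ κ ∈ Sel n ∧ π ^ (j - 1) • κ ≠ 0
  ker : ∀ l n, ok (l :: n) → ∀ x ∈ Sel n, fr l x = 0 → x ∈ Sel (l :: n)
  sg0 : ∀ l n, ok (l :: n) → ∀ x ∈ Sel n, sg l x = 0
  step : ∀ l n α κ, Good n α κ → ok (l :: n) → π ^ (j - 1) • fr l κ ≠ 0 →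
    ∃ α' ≤ α, ∃ κ', Good (l :: n) α' κ' ∧ sg l κ' = π ^ (α - α') • fr l κ
  dual : ∀ l n, ok (l :: n) → ∀ x ∈ Sel n, ∀ y ∈ Sel (l :: n),
    fr l x 0 * sg l y 1 = fr l x 1 * sg l y 0

/-! ### The anticyclotomic tower -/

theorem Anti.one {P : Pre} {a : GQ → ℤ_[2]} (h : Anti P a) : a 1 = 0 := by
  simpa using h.add 1 P.GK.one_mem 1 P.GK.one_mem

theorem Anti.inv {P : Pre} {a : GQ → ℤ_[2]} (h : Anti P a) {g : GQ} (hg : g ∈ P.GK) :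
    a g⁻¹ = -a g := by
  have := h.add g hg g⁻¹ (P.GK.inv_mem hg)
  rw [mul_inv_cancel, h.one] at this
  linear_combination -this

/-- the subgroup of the elements whose logarithm is divisible by `m` -/
def Dat.Gd (D : Dat) (m : ℤ_[2]) : Subgroup GQ where
  carrier := {g | g ∈ D.GK ∧ m ∣ D.a g}
  one_mem' := ⟨D.GK.one_mem, by simp [D.an.one]⟩
  mul_mem' := fun {g h} hg hh => ⟨D.GK.mul_mem hg.1 hh.1, by
    rw [D.an.add g hg.1 h hh.1]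
    exact dvd_add hg.2 hh.2⟩
  inv_mem' := fun {g} hg => ⟨D.GK.inv_mem hg.1, by
    rw [D.an.inv hg.1]
    exact hg.2.neg_right⟩

/-- approximate cocycles on a layer of the tower -/
structure Dat.Zm (D : Dat) (n i : ℕ) (c : GQ → V2) : Prop where
  sm : Sm (D.Gd (2 ^ n)) c
  int : ∀ g, ‖c g‖ ≤ 1
  co : ∀ g ∈ D.Gd (2 ^ n), ∀ h ∈ D.Gd (2 ^ n),
    ‖c (g * h) - c g - D.T.rd D.dl g *ᵥ c h‖ ≤ (2 ^ i)⁻¹
  str : ∀ g ∈ D.w2.D ⊓ D.Gd (2 ^ n), ‖c g‖ ≤ (2 ^ i)⁻¹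
  unr : ∀ w : Pl, ¬ (w.p : ℤ) ∣ 30 * D.d → ∀ g ∈ w.I ⊓ D.Gd (2 ^ n), ‖c g‖ ≤ (2 ^ i)⁻¹

/-- quadratic characters of a layer of the tower -/
structure Dat.Cq (D : Dat) (n : ℕ) (χ : GQ → ZMod 2) : Prop where
  ch : IsCh (D.Gd (2 ^ n)) χ
  off : ∀ g, g ∉ D.Gd (2 ^ n) → χ g = 0
  str : ∀ g ∈ D.w2.D ⊓ D.Gd (2 ^ n), χ g = 0
  unr : ∀ w : Pl, ¬ (w.p : ℤ) ∣ 30 * D.d → ∀ g ∈ w.I ⊓ D.Gd (2 ^ n), χ g = 0

/-- rigid cocycles at the top of the tower -/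
structure Dat.XC (D : Dat) (c : GQ → V2) : Prop where
  uc : Uc (D.Gd 0) c
  co : ∀ g ∈ D.Gd 0, ∀ h ∈ D.Gd 0, c (g * h) = c g + D.T.rd D.dl g *ᵥ c h
  off : ∀ g, g ∉ D.Gd 0 → c g = 0
  str : ∀ g ∈ D.w2.D, c g = 0
  unr : ∀ w : Pl, ¬ (w.p : ℤ) ∣ 30 * D.d → ∀ g ∈ w.I, c g = 0

/-- the operator `γ⁻¹ - 1` -/
def Dat.Th (D : Dat) : Module.End ℚ_[2] (GQ → V2) :=
  LinearMap.pi (fun g => D.T.rq D.dl D.gm⁻¹ ∘ₗ LinearMap.proj (D.gm * g * D.gm⁻¹)) - LinearMap.id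

/-! ### Selmer groups over the rationals -/

/-- the patched Selmer group of the twist by `m = δ²` -/
structure SelQ {w₂ : Pl} (T : Tate w₂) (δ : Om) (m : ℤ) (x : GS → V2) : Prop where
  pz : PZ (fun _ => ⊤) (T.rq δ) x
  unr : ∀ (w : ℕ → Pl) (g : GS), (∀ᶠ k in UF, g k ∈ (w k).I ∧ ¬ ((w k).p : ℤ) ∣ 30 * m) → x g = 0
  bad : ∀ w : Pl, (w.p : ℤ) ∣ 15 * m → Cob (S1 w.D) (T.rq δ) x
  ord : ∃ v, ∀ g ∈ S1 w₂.D, (x g - (rS (T.rq δ) g v - v)) 1 = 0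

/-- the patched Selmer group vanishes -/
def Rk0 {w₂ : Pl} (T : Tate w₂) (δ : Om) (m : ℤ) : Prop := ∀ x, SelQ T δ m x → Cob ⊤ (T.rq δ) x

/-- the patched Selmer group has rank at most one -/
def Rk1 {w₂ : Pl} (T : Tate w₂) (δ : Om) (m : ℤ) : Prop :=
  ∀ x y, SelQ T δ m x → SelQ T δ m y → ∃ a b : ℚ_[2], (a ≠ 0 ∨ b ≠ 0) ∧ Cob ⊤ (T.rq δ) (a • x + b • y)

/-- classical Selmer cocycles of the twist -/
structure SelC (δ : Om) (c : GQ → EO) : Prop where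
  sm : Sm ⊤ c
  co : ∀ g h, c (g * h) = c g + tac δ g (c h)
  tor : ∃ i : ℕ, ∀ g, 2 ^ i • c g = 0
  loc : ∀ w : Pl, ∃ P, ∀ g ∈ w.D, c g = tac δ g P - P

/-- the classical Selmer group has corank at most one -/
def Sel1 (δ : Om) : Prop :=
  ∃ k : ℕ, ∀ c c', SelC δ c → SelC δ c' → ∃ a b : ℤ, (Odd a ∨ Odd b) ∧ ∃ Q, IsOfFinAddOrder Q ∧
    ∀ g, 2 ^ k • (a • c g + b • c' g) = tac δ g Q - Q

/-- the rational points of the twist -/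
def RatP (δ : Om) : Set EO := {P | ∀ g, tac δ g P = P}

end

end Pool.Agent.P.MP_8b7eba_nt.R2
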