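import Pool.Agent.P.MP_8b7eba_nt.R2.IfA
import Pool.Agent.P.MP_8b7eba_nt.R2.DefsB

/-! Statements on the curve, patched cohomology, Kolyvagin systems and Iwasawa invariants. -/

namespace Pool.Agent.P.MP_8b7eba_nt.R2

open scoped NNReal Matrix
open MP_9c97e9_nt (Pt pm Is ap Sha)
open Filter Topology Polynomial Module

/-- all the statements of the first layer -/
structure CA : Prop where
  pl : PL
  gal : GAL
  frob : FROB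
  dens : DENS
  wa : WA
  unif : UNIF
  res : RES
  tame : TAME
  tame2 : TAME2
  hens : HENS
  ec : EC
  ec2 : EC2
  lg : LG
  tau : TAU
  art : ART
  orb : ORB
  genp : GENP
  cls : CLS
  sun : SUN
  syl : SYL
  gas : GAS
  cyc1 : CYC1
  cyc2 : CYC2
  cup : CUP
  sym : SYM
  uch : UCH
  unr : UNR
  sq1 : SQ1
  sq2 : SQ2
  ni : NI
  serre : SERRE
  nu : NU
  unit : UNIT
  die : DIE
  diek : DIEK
  nrmk : NRMK
  inv : INV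
  inv2 : INV2
  ld : LD
  ep : EP
  hasse : HASSE
  abhn : ABHN
  rcp : REC
  recq : RECQ

/-! ### More class field theory -/

/-- the invariant is injective at odd places -/
def INJ : Prop :=
  ∀ (w : Pl) (H : Subgroup GQ) (f : GQ → GQ → Om), w.p ≠ 2 → w.Loc H → Co2T H f → nv w H f = 1 →
    Triv H f

/-- the invariant of an unramified cyclic algebra -/
def LOCV : Prop :=
  ∀ (w : Pl) (H : Subgroup GQ) (n f : ℕ) (χ : GQ → ZMod (2 ^ n)) (φ : GQ) (π a : Om) (j : ℤ),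
    w.p ≠ 2 → w.Loc H → IsCh H χ → (∀ g ∈ w.I ⊓ H, χ g = 0) → φ ∈ H → w.IsFrob f φ →
    f * H.relIndex w.I = H.relIndex w.D → w.Unif H π → Fix H a → a ≠ 0 → w.v a = w.v π ^ j →
    nv w H (cup χ a) = ec (((χ φ).val * j : ℤ) / 2 ^ n)

/-- a character which kills the units is unramified -/
def UPERP : Prop :=
  ∀ (w : Pl) (H : Subgroup GQ) (n : ℕ) (χ : GQ → ZMod (2 ^ n)), w.Loc H → IsCh H χ →
    (∀ u, Fix H u → w.v u = 1 → Triv H (cup χ u)) → ∀ g ∈ w.I ⊓ H, χ g = 0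

/-- arithmetic of the imaginary quadratic field -/
def KARITH : Prop :=
  ∀ P : Pre, TC P.GK ∧ tau ∉ P.GK ∧ P.GK.index = 2 ∧
    (∀ w : Pl, (w.p : ℤ) ∣ 30 * P.d → w.D ≤ P.GK) ∧
    (∀ w : Pl, w.p = 2 → ∃ u ∈ P.GK, u • w = P.w2 ∨ u • w = tau • P.w2) ∧
    (∀ u ∈ P.GK, u • P.w2 ≠ tau • P.w2) ∧
    ∀ x, Fix P.GK x → x ≠ 0 → (∀ w : Pl, w.p ≠ 2 → w.Ev (w.D ⊓ P.GK) x) → Sq P.w2.D x → Sq P.GK x

/-- the first two layers -/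
structure CB : Prop extends CA where
  inj : INJ
  locv : LOCV
  uperp : UPERP
  karith : KARITH

/-! ### The curve -/

/-- the kernel of reduction is a subgroup -/
def E1G : Prop :=
  ∀ w : Pl, E1 w 0 ∧ (∀ P, E1 w P → E1 w (-P)) ∧ (∀ P Q, E1 w P → E1 w Q → E1 w (P + Q)) ∧
    (∀ g P, E1 (g • w) (ac g P) ↔ E1 w P) ∧ (∀ P, E1 w P → ∃ Q, E1 w Q ∧ 2 • Q = P) ∧
    (w.p ≠ 2 → ∀ (P : EO) (k : ℕ), E1 w P → 2 ^ k • P = 0 → P = 0)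

/-- congruent points differ by an element of the kernel of reduction -/
def CONG : Prop :=
  ∀ w : Pl, ¬ w.p ∣ 15 → (∀ P Q x η x' η', Is P x η → Is Q x' η' → w.v x ≤ w.v 4 →
    w.v (x - x') < w.v 4 → w.v (η + 2 * x - (η' + 2 * x')) < w.v 16 → E1 w (P - Q)) ∧
    ∀ g ∈ w.I, ∀ P, E1 w (ac g P - P)

/-- the characteristic polynomial of Frobenius -/
def FR : Prop :=
  ∀ (w : Pl) (φ : GQ), ¬ w.p ∣ 30 → w.IsFrob 1 φ → ∀ P,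
    E1 w (ac φ (ac φ P) - ap W15 w.p • ac φ P + w.p • P)

/-- elementary properties of the coefficients -/
def APB : Prop := ∀ p : ℕ, p.Prime → ¬ p ∣ 30 → |ap W15 p| ≤ p ∧ Even (ap W15 p)

/-- determinant and trace -/
def DET : Prop :=
  ∀ (pt : V2 →+ EO) (rho : GQ →* Mt), (∀ v, pt v = 0 ↔ ‖v‖ ≤ 1) →
    (∀ g v, ac g (pt v) = pt (rho g *ᵥ v)) →
    (∀ ε : ℝ, 0 < ε → ∃ N, ON N ∧ ∀ g ∈ N, ∀ i j, ‖(rho g - 1) i j‖ ≤ ε) →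
    (∀ g i j, ‖(rho g - !![cq g, 0; 0, 1]) i j‖ ≤ 4⁻¹) →
    (∀ g, (rho g).det = cq g) ∧ ∀ w : Pl, ¬ w.p ∣ 30 → (∀ g ∈ w.I, rho g = 1) ∧
      ∀ φ, w.IsFrob 1 φ → (rho φ).trace = ap W15 w.p ∧ (rho φ).det = w.p

/-- existence of the Tate module -/
def TATE : Prop := ∀ w : Pl, w.p = 2 → Nonempty (Tate w)

/-- good reduction -/
def TR : Prop :=
  ∀ (w₂ : Pl) (T : Tate w₂) (w : Pl), ¬ w.p ∣ 30 → (∀ g ∈ w.I, T.rho g = 1) ∧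
    ∀ φ, w.IsFrob 1 φ → (T.rho φ).trace = ap W15 w.p ∧ (T.rho φ).det = w.p

/-- points over the maximal unramified extension at the bad primes -/
def HALF : Prop :=
  ∀ w : Pl, w.p ∣ 15 → ∀ P, (∀ g ∈ w.I, ac g P = P) → ∀ k : ℕ, ∃ P' S : EO,
    (∀ g ∈ w.I, ac g P' = P') ∧ 4 • S = 0 ∧ P = 2 ^ k • P' + S

/-- inertia at the bad primes is unipotent -/
def UNIP : Prop :=
  ∀ (w₂ : Pl) (T : Tate w₂) (w : Pl), w.p ∣ 15 → ∃ e : V2, ‖e‖ = 1 ∧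
    (w.p = 3 → ‖e - ![0, 1]‖ < 1) ∧ (w.p = 5 → ‖e - ![1, 1]‖ < 1) ∧
    (∀ g ∈ w.I, T.rho g *ᵥ e = e ∧ ∀ v, ∃ s : ℚ_[2], T.rho g *ᵥ v - v = s • e) ∧
    (∀ t ∈ w.I, (∀ β : Om, β ^ 2 = w.p → t β = -β) → (∃ i j, ‖(T.rho t - 1) i j‖ = 4⁻¹) ∧
      ∀ v, T.rho t *ᵥ v = v → ∃ s : ℚ_[2], v = s • e) ∧
    ∀ φ, w.IsFrob 1 φ → T.rho φ *ᵥ e = (w.p : ℚ_[2]) • e ∨ T.rho φ *ᵥ e = -(w.p : ℚ_[2]) • e

/-- construction of the data -/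
def DATX : Prop :=
  ∀ (P : Pre) (T : Tate P.w2) (a : GQ → ℤ_[2]), Anti P a →
    ∃ D : Dat, D.toPre = P ∧ D.a = a ∧ HEq D.T T

/-- the first three layers -/
structure CF : Prop extends CB where
  e1g : E1G
  cong : CONG
  fr : FR
  apb : APB
  tr : TR
  half : HALF
  unip : UNIP

/-! ### Patched local cohomology -/

/-- a cocycle on tame inertia is determined by its value at a generator -/
def PTAME : Prop :=
  ∀ (W : Type) [NormedAddCommGroup W] [NormedSpace ℚ_[2] W] [IsUltrametricDist W]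
    [FiniteDimensional ℚ_[2] W] (U : Subgroup GQ) (r : GQ → W →ₗ[ℚ_[2]] W) (w : ℕ → Pl) (t : GS)
    (π : ℕ → Om) (x : GS → W), IsOpen (U : Set GQ) → (∃ H, Rep H r ∧ ∀ k, (w k).I ⊓ U ≤ H) →
    (∀ᶠ k in UF, (w k).p ≠ 2 ∧ (w k).Unif ((w k).I ⊓ U) (π k) ∧ t k ∈ (w k).I ⊓ U ∧
      ∀ β : Om, β ^ 2 = π k → t k β = -β) →
    PZ (fun k => (w k).I ⊓ U) r x → x t = 0 → ∀ g ∈ St fun k => (w k).I ⊓ U, x g = 0

/-- an unramified cocycle is determined by its value at a Frobenius element -/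
def PFROB : Prop :=
  ∀ (W : Type) [NormedAddCommGroup W] [NormedSpace ℚ_[2] W] [IsUltrametricDist W]
    [FiniteDimensional ℚ_[2] W] (U : Subgroup GQ) (r : GQ → W →ₗ[ℚ_[2]] W) (w : ℕ → Pl) (φ : GS)
    (f : ℕ → ℕ) (x : GS → W), IsOpen (U : Set GQ) → (∃ H, Rep H r ∧ ∀ k, (w k).D ⊓ U ≤ H) →
    (∀ᶠ k in UF, φ k ∈ U ∧ (w k).IsFrob (f k) (φ k) ∧
      f k * U.relIndex (w k).I = U.relIndex (w k).D) →
    PZ (fun k => (w k).D ⊓ U) r x → x φ = 0 → (∀ g ∈ St fun k => (w k).I ⊓ U, x g = 0) →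
    ∀ g ∈ St fun k => (w k).D ⊓ U, x g = 0

/-- local cohomology vanishes when a generator of tame inertia acts by `-1` -/
def SAH : Prop :=
  ∀ (W : Type) [NormedAddCommGroup W] [NormedSpace ℚ_[2] W] [IsUltrametricDist W]
    [FiniteDimensional ℚ_[2] W] (r : GQ → W →ₗ[ℚ_[2]] W) (w : Pl) (t : GQ) (x : GS → W),
    w.p ≠ 2 → Rep w.D r → t ∈ w.I → (∀ β : Om, β ^ 2 = w.p → t β = -β) → (∀ v, r t v = -v) →
    PZ (fun _ => w.D) r x → Cob (S1 w.D) r x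

/-- the local invariant of patched cocycles -/
def PIX : Prop :=
  ∀ (w : ℕ → Pl) (H : ℕ → Subgroup GQ), (∀ k, (w k).Loc (H k)) → ∀ B, PZ2 H B →
    IsPI w H B (PI w H B) ∧ (∀ t, IsPI w H B t → t = PI w H B) ∧
    (∀ B', (∀ g ∈ St H, ∀ h ∈ St H, B' g h = B g h) → PI w H B' = PI w H B) ∧
    (∀ B', PZ2 H B' → PI w H (B + B') = PI w H B + PI w H B') ∧
    (∀ c : ℚ_[2], PI w H (c • B) = c * PI w H B) ∧ (Cob2 H B → PI w H B = 0) ∧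
    ((∀ᶠ k in UF, (w k).p ≠ 2) → (∀ g ∈ St H, ∀ h ∈ St H, ∀ i ∈ St fun k => (w k).I ⊓ H k,
      B (g * i) h = B g h ∧ B g (h * i) = B g h) → PI w H B = 0)

/-- the reciprocity law for patched cocycles -/
def PREC : Prop :=
  ∀ (U : Subgroup GQ) (B : GS → GS → ℚ_[2]) (ι : Type) [Fintype ι] (w : ι → ℕ → Pl),
    IsOpen (U : Set GQ) → TC U → PZ2 (fun _ => U) B →
    (∀ᶠ k in UF, (∀ i j, ∀ u ∈ U, u • w i k = w j k → i = j) ∧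
      ∀ w' : Pl, w'.p = 2 → ∃ i, ∃ u ∈ U, u • w' = w i k) →
    (∀ w' : ℕ → Pl, (∀ᶠ k in UF, ∀ i, ∀ u ∈ U, u • w' k ≠ w i k) →
      PI w' (fun k => (w' k).D ⊓ U) B = 0) →
    ∑ i, PI (w i) (fun k => (w i k).D ⊓ U) B = 0

/-- the local pairing at a Kolyvagin prime -/
def PKOL : Prop :=
  ∀ (D : Dat) (l : Kp D), (∀ g ∈ St fun k => (l.w k).D ⊓ D.GK, cS g = 1) ∧ ∃ u : ℚ_[2], u ≠ 0 ∧
    ∀ (W W' : Type) [NormedAddCommGroup W] [NormedSpace ℚ_[2] W] [IsUltrametricDist W]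
      [FiniteDimensional ℚ_[2] W] [NormedAddCommGroup W'] [NormedSpace ℚ_[2] W']
      [IsUltrametricDist W'] [FiniteDimensional ℚ_[2] W'] (β : W →ₗ[ℚ_[2]] W' →ₗ[ℚ_[2]] ℚ_[2])
      (x : GS → W) (y : GS → W'), PZ (fun k => (l.w k).D ⊓ D.GK) (fun _ => LinearMap.id) x →
      PZ (fun k => (l.w k).D ⊓ D.GK) (fun _ => LinearMap.id) y →
      PI l.w (fun k => (l.w k).D ⊓ D.GK) (fun g h => β (x g) (y h)) =
        u * (β (x l.ph) (y l.t) - β (x l.t) (y l.ph))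

/-- local duality and the Euler characteristic at two -/
def KLD : Prop :=
  ∀ (W W' : Type) [NormedAddCommGroup W] [NormedSpace ℚ_[2] W] [IsUltrametricDist W]
    [FiniteDimensional ℚ_[2] W] [NormedAddCommGroup W'] [NormedSpace ℚ_[2] W']
    [IsUltrametricDist W'] [FiniteDimensional ℚ_[2] W'] (β : W →ₗ[ℚ_[2]] W' →ₗ[ℚ_[2]] ℚ_[2])
    (r : GQ → W →ₗ[ℚ_[2]] W) (r' : GQ → W' →ₗ[ℚ_[2]] W') (w : Pl) (φ : GQ) (s s' : ℚ_[2]),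
    w.p = 2 → Rep w.D r → Rep w.D r' → (∀ x, (∀ y, β x y = 0) → x = 0) →
    (∀ y, (∀ x, β x y = 0) → y = 0) → (∀ g ∈ w.D, ∀ x y, β (r g x) (r' g y) = cq g * β x y) →
    φ ∈ w.D → (∀ v, r φ v = s • v) → (∀ v, r' φ v = s' • v) → s ≠ 1 → s' ≠ 1 →
    (∀ x, PZ (fun _ => w.D) r x → x (cs φ) = 0 → (∀ y, PZ (fun _ => w.D) r' y → y (cs φ) = 0 →
      PI (fun _ => w) (fun _ => w.D) (cupS β r' x y) = 0) → ∀ g ∈ S1 w.D, x g = 0) ∧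
    ∀ M : Submodule ℚ_[2] (GS → W), FiniteDimensional ℚ_[2] M →
      (∀ x ∈ M, PZ (fun _ => w.D) r x ∧ x (cs φ) = 0 ∧ ∀ g, g ∉ S1 w.D → x g = 0) →
      finrank ℚ_[2] M ≤ finrank ℚ_[2] W

/-- coefficient rings -/
def AFX : Prop :=
  (∀ G, Dist G → ∃ (A : Type) (_ : NormedCommRing A) (_ : NormedAlgebra ℚ_[2] A)
    (_ : IsUltrametricDist A) (_ : FiniteDimensional ℚ_[2] A) (ψ : ℤ_[2] → A), IsAF ψ G) ∧
  (∀ G G', Dist G → Dist G' → Dist (G * G')) ∧ (∀ G G', Dist G → G'.Monic → G' ∣ G → Dist G') ∧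
  Dist X ∧ Dist 1 ∧ IsAF (fun _ => (1 : ℚ_[2])) X ∧
  ∀ (A : Type) [NormedCommRing A] [NormedAlgebra ℚ_[2] A] [FiniteDimensional ℚ_[2] A]
    (ψ : ℤ_[2] → A) (G : ℚ_[2][X]), IsAF ψ G →
    (∀ (q : ℚ_[2][X]) (j : ℕ), Irreducible q → G = q ^ j →
      Chain (aeval (ψ 1 - 1) q) j q.natDegree ∧
      (q.Monic → q ≠ X → q ≠ X + 2 → IsUnit (ψ 2 - 1)) ∧
      (q = X + 2 → ∀ y, aeval (ψ 1 - 1) q * y = 0 → ∀ a, ψ (-a) * y = ψ a * y) ∧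
      (q = X → ∀ y, aeval (ψ 1 - 1) q * y = 0 → ∀ a, ψ a * y = y)) ∧
    ∀ (A' : Type) [NormedCommRing A'] [NormedAlgebra ℚ_[2] A'] [FiniteDimensional ℚ_[2] A']
      (ψ' : ℤ_[2] → A') (G' s : ℚ_[2][X]), IsAF ψ' G' →
      (G' ∣ s * G → ∃ μ : A →ₗ[ℚ_[2]] A', (∀ p, μ (aeval (ψ 1 - 1) p) = aeval (ψ' 1 - 1) (s * p)) ∧
        ∀ a y, μ (ψ a * y) = ψ' a * μ y) ∧
      (G = s * G' → s ≠ 0 → ∃ ν : A →ₗ[ℚ_[2]] A',
        (∀ p, ν (aeval (ψ 1 - 1) (s * p)) = aeval (ψ' 1 - 1) p) ∧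
        ∀ a, ∀ y ∈ Ideal.span {aeval (ψ 1 - 1) s}, ν (ψ a * y) = ψ' a * ν y)

/-- the first four layers -/
structure CP : Prop extends CF where
  ptame : PTAME
  pfrob : PFROB
  sah : SAH
  pix : PIX
  prec : PREC
  pkol : PKOL
  kld : KLD
  afx : AFX

/-! ### Duality and the Chebotarev theorem for Selmer groups -/

/-- local properties at a Kolyvagin prime -/
def KTRIV : Prop :=
  ∀ (D : Dat) (l : Kp D) (A : Type) [NormedCommRing A] [NormedAlgebra ℚ_[2] A] [IsUltrametricDist A]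
    [FiniteDimensional ℚ_[2] A] (ψ : ℤ_[2] → A), IsPsi ψ →
    (∀ g ∈ St fun k => (l.w k).D ⊓ D.GK, ∀ v, rS (D.r ψ) g v = v) ∧
    l.ph ∈ St (fun k => (l.w k).D ⊓ D.GK) ∧ l.t ∈ St (fun k => (l.w k).I ⊓ D.GK) ∧
    ∀ x, PZ (fun _ => D.GK) (D.r ψ) x → D.xt x l.ph = mv (D.T.rho tau) (x l.ph) ∧
      D.xt x l.t = -mv (D.T.rho tau) (x l.t) ∧
      ∀ n, D.Rel ψ n x → (∀ l' ∈ n, ∀ k, (l.w k).p ≠ (l'.w k).p) → x l.t = 0 ∧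
        (x l.ph = 0 → D.Rel ψ (l :: n) x)

/-- global duality, as a formula for the sum of the two kinds of local terms -/
def DUAL : Prop :=
  ∀ (D : Dat) (A : Type) [NormedCommRing A] [NormedAlgebra ℚ_[2] A] [IsUltrametricDist A]
    [FiniteDimensional ℚ_[2] A] (ψ : ℤ_[2] → A), IsPsi ψ →
    (∀ l n x y, Ok (l :: n) → D.Sel ψ n x → D.Sel ψ (l :: n) y →
      x l.ph 0 * mv (D.T.rho tau) (y l.t) 1 = x l.ph 1 * mv (D.T.rho tau) (y l.t) 0) ∧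
    ∀ s y, D.SS ψ s → D.Sel ψ [] y → ∀ t : A →ₗ[ℚ_[2]] ℚ_[2],
      PI (fun _ => D.w2) (fun _ => D.w2.D) (cupS ((LinearMap.mul ℚ_[2] A).compr₂ t) (D.th ψ 0)
        (fun g => D.ln (bar ψ) (D.xt s) g 1) fun g => D.ln ψ y g 0) = 0

/-- the Chebotarev theorem for patched classes -/
def CHEB0 : Prop :=
  ∀ (D : Dat) (n : List (Kp D)) (A : Type) [NormedCommRing A] [NormedAlgebra ℚ_[2] A]
    [IsUltrametricDist A] [FiniteDimensional ℚ_[2] A] (ψ : ℤ_[2] → A) (x y : GS → Fin 2 → A)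
    (g : GS), IsPsi ψ → PZ (fun _ => D.GK) (D.r ψ) x → PZ (fun _ => D.GK) (D.r ψ) y →
    (∀ k, D.Z (g k)) → ∃ l : Kp D, (∀ l' ∈ n, ∀ k, (l.w k).p ≠ (l'.w k).p) ∧ ∃ u : ℚ_[2], u ≠ 0 ∧
      x l.ph = u • (x g + mv (D.T.rho tau) (D.xt x g)) ∧
      y l.ph = u • (y g + mv (D.T.rho tau) (D.xt y g))

/-- choice of Kolyvagin primes -/
def CH2 : Prop :=
  ∀ (D : Dat) (n : List (Kp D)) (A : Type) [NormedCommRing A] [NormedAlgebra ℚ_[2] A]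
    [IsUltrametricDist A] [FiniteDimensional ℚ_[2] A] (ψ : ℤ_[2] → A) (x y : GS → Fin 2 → A),
    IsPsi ψ → D.Rel ψ n x → D.Rel ψ n y →
    (∀ (π : A) (j e : ℕ), Chain π j e → IsUnit (ψ 2 - 1) → π • x = 0 → π • y = 0 →
      (∀ a b : A, a • x + b • y = 0 → π ∣ a ∧ π ∣ b) →
      ∃ l : Kp D, (∀ l' ∈ n, ∀ k, (l.w k).p ≠ (l'.w k).p) ∧
        ∀ a b : A, a • x l.ph + b • y l.ph = 0 → π ∣ a ∧ π ∣ b) ∧
    ∀ ε ε' : A, (ε = 1 ∨ ε = -1) → (ε' = 1 ∨ ε' = -1) → x ≠ 0 → y ≠ 0 →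
      D.nz ψ (D.xt x) = ε • x → D.nz ψ (D.xt y) = ε' • y →
      ∃ l : Kp D, (∀ l' ∈ n, ∀ k, (l.w k).p ≠ (l'.w k).p) ∧ x l.ph ≠ 0 ∧ y l.ph ≠ 0

/-- the abstract bound, generic case -/
def H1 : Prop :=
  ∀ (A : Type) [NormedCommRing A] [NormedAlgebra ℚ_[2] A] [FiniteDimensional ℚ_[2] A] (π : A)
    (j e : ℕ) (X : Type) [AddCommGroup X] [Module A X] [Module ℚ_[2] X] [IsScalarTower ℚ_[2] A X]
    (ι : Type) (S : HS A π j X ι), Chain π j e →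
    (∀ n, S.ok n → ∀ x ∈ S.Sel n, ∀ y ∈ S.Sel n, π • x = 0 → π • y = 0 →
      (∀ a b : A, a • x + b • y = 0 → π ∣ a ∧ π ∣ b) → ∃ l, S.ok (l :: n) ∧
        ∀ a b : A, a • S.fr l x + b • S.fr l y = 0 → π ∣ a ∧ π ∣ b) →
    ∀ n α κ, S.Good n α κ → ∀ M ≤ S.Sel n, FiniteDimensional ℚ_[2] M →
      finrank ℚ_[2] M ≤ e * (j + 2 * α)

/-- the abstract bound, self-dual case -/
def H2 : Prop :=
  ∀ (A : Type) [NormedCommRing A] [NormedAlgebra ℚ_[2] A] [FiniteDimensional ℚ_[2] A] (π : A)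
    (j e : ℕ) (X : Type) [AddCommGroup X] [Module A X] [Module ℚ_[2] X] [IsScalarTower ℚ_[2] A X]
    (ι : Type) (S : HS A π j X ι) (c : X →ₗ[A] X) (t : Matrix (Fin 2) (Fin 2) A), Chain π j e →
    t * t = 1 → t.det = -1 →
    (∀ n, S.ok n → ∀ x ∈ S.Sel n, π • x = 0 → c x ∈ S.Sel n ∧ c (c x) = x) →
    (∀ l n, S.ok (l :: n) → (∀ x ∈ S.Sel n, π • x = 0 → S.fr l (c x) = t *ᵥ S.fr l x) ∧
      ∀ y ∈ S.Sel (l :: n), π • y = 0 → S.sg l (c y) = -(t *ᵥ S.sg l y)) →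
    (∀ n, S.ok n → ∀ x ∈ S.Sel n, ∀ y ∈ S.Sel n, π • x = 0 → π • y = 0 → x ≠ 0 → y ≠ 0 →
      (c x = x ∨ c x = -x) → (c y = y ∨ c y = -y) →
      ∃ l, S.ok (l :: n) ∧ S.fr l x ≠ 0 ∧ S.fr l y ≠ 0) →
    ∀ n α κ, S.Good n α κ → ∀ M ≤ S.Sel n, FiniteDimensional ℚ_[2] M →
      finrank ℚ_[2] M ≤ e * (j + 2 * α)

/-- the Kolyvagin bound -/
def HB : Prop :=
  ∀ (D : Dat) (v : List (Kp D) → KA), D.Kol v → ∀ (q : ℚ_[2][X]) (j m α : ℕ), Irreducible q →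
    q.Monic → q ≠ X → α < m →
    ∀ (A : Type) [NormedCommRing A] [NormedAlgebra ℚ_[2] A] [IsUltrametricDist A]
      [FiniteDimensional ℚ_[2] A] (ψ : ℤ_[2] → A) (A' : Type) [NormedCommRing A']
      [NormedAlgebra ℚ_[2] A'] [IsUltrametricDist A'] [FiniteDimensional ℚ_[2] A'] (ψ' : ℤ_[2] → A'),
      IsAF ψ (q ^ (j + m)) → IsAF ψ' (q ^ j) →
      aeval (ψ 1 - 1) q ^ (j + m - α - 1) • D.kap ψ (v []) ≠ 0 →
      ∀ M : Submodule A' (GS → Fin 2 → A'), FiniteDimensional ℚ_[2] M → (∀ x ∈ M, D.Sel ψ' [] x) →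
        finrank ℚ_[2] M ≤ q.natDegree * (j + 2 * α)

/-- the Selmer group over the quadratic field has rank at most one -/
def RkK (D : Dat) : Prop :=
  ∀ x y, D.Sel (fun _ => (1 : ℚ_[2])) [] x → D.Sel (fun _ => (1 : ℚ_[2])) [] y →
    ∃ a b : ℚ_[2], (a ≠ 0 ∨ b ≠ 0) ∧ a • x + b • y = 0

/-- the bound at the trivial character -/
def HB0 : Prop :=
  ∀ D : Dat, RkK D → ∀ (j : ℕ) (A : Type) [NormedCommRing A] [NormedAlgebra ℚ_[2] A]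
    [IsUltrametricDist A] [FiniteDimensional ℚ_[2] A] (ψ : ℤ_[2] → A), IsAF ψ (X ^ j) →
    ∀ M : Submodule A (GS → Fin 2 → A), FiniteDimensional ℚ_[2] M → (∀ x ∈ M, D.Sel ψ [] x) →
      finrank ℚ_[2] M ≤ j

/-- comparison of the two Selmer groups -/
def SB : Prop :=
  ∀ (D : Dat) (A : Type) [NormedCommRing A] [NormedAlgebra ℚ_[2] A] [IsUltrametricDist A]
    [FiniteDimensional ℚ_[2] A] (ψ : ℤ_[2] → A) (π : A) (j e b R : ℕ) (κ : GS → Fin 2 → A),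
    IsPsi ψ → Chain π j e → b < j → D.Sel ψ [] κ → ¬ D.Str ψ (π ^ (j - b - 1) • κ) →
    (∀ M : Submodule A (GS → Fin 2 → A), FiniteDimensional ℚ_[2] M → (∀ x ∈ M, D.Sel ψ [] x) →
      finrank ℚ_[2] M ≤ e * j + R) →
    ∀ M : Submodule A (GS → Fin 2 → A), FiniteDimensional ℚ_[2] M → (∀ x ∈ M, D.SS ψ x) →
      finrank ℚ_[2] M ≤ R + 2 * e * b

/-- the bound at one prime of the Iwasawa algebra -/
def QB : Prop :=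
  ∀ (D : Dat) (v : List (Kp D) → KA), D.Kol v → RkK D → D.kap (fun _ => (1 : ℚ_[2])) (v []) = 0 →
    ∀ (q : ℚ_[2][X]) (j m i : ℕ), Irreducible q → q.Monic → i < m → m ≤ j →
    ∀ (A : Type) [NormedCommRing A] [NormedAlgebra ℚ_[2] A] [IsUltrametricDist A]
      [FiniteDimensional ℚ_[2] A] (ψ : ℤ_[2] → A) (A' : Type) [NormedCommRing A']
      [NormedAlgebra ℚ_[2] A'] [IsUltrametricDist A'] [FiniteDimensional ℚ_[2] A'] (ψ' : ℤ_[2] → A'),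
      IsAF ψ (q ^ (j + m)) → IsAF ψ' (q ^ j) →
      ¬ D.Str ψ (aeval (ψ 1 - 1) q ^ (j + m - i - 1) • D.kap ψ (v [])) →
      ∀ M : Submodule A' (GS → Fin 2 → A'), FiniteDimensional ℚ_[2] M → (∀ x ∈ M, D.SS ψ' x) →
        finrank ℚ_[2] M ≤ 2 * i * q.natDegree ∧ (q = X → finrank ℚ_[2] M + 2 ≤ 2 * i)

/-- the lower bound for the Selmer group -/
def LBd (D : Dat) : Prop :=
  ∃ F, Dist F ∧ 4 + 4 * D.sg ≤ F.natDegree ∧ ∀ (q : ℚ_[2][X]) (k j : ℕ), Irreducible q →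
    q ^ k ∣ F → F.natDegree ≤ j →
    ∀ (A : Type) [NormedCommRing A] [NormedAlgebra ℚ_[2] A] [IsUltrametricDist A]
      [FiniteDimensional ℚ_[2] A] (ψ : ℤ_[2] → A), IsAF ψ (q ^ j) →
      ∃ M : Submodule A (GS → Fin 2 → A), FiniteDimensional ℚ_[2] M ∧ (∀ x ∈ M, D.SS ψ x) ∧
        k * q.natDegree ≤ finrank ℚ_[2] M

/-- the localisation of the Heegner class does not vanish -/
def NVd (D : Dat) (v : KA) : Prop :=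
  ∀ (A : Type) [NormedCommRing A] [NormedAlgebra ℚ_[2] A] [IsUltrametricDist A]
    [FiniteDimensional ℚ_[2] A] (ψ : ℤ_[2] → A) (f : ℚ_[2][X]), IsAF ψ f → Dist f → X ∣ f →
    3 + 2 * D.sg ≤ f.natDegree → ¬ D.Str ψ (D.kap ψ v)

/-- the comparison of the invariants -/
def TOP : Prop :=
  ∀ (D : Dat) (v : List (Kp D) → KA), D.Kol v → RkK D → D.kap (fun _ => (1 : ℚ_[2])) (v []) = 0 →
    LBd D → NVd D (v []) → False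

/-! ### Kolyvagin classes -/

/-- the Galois groups of the ring class fields at an inert prime -/
def DLG : Prop :=
  ∀ (D : Dat) (H : Heeg D.toPre D.a) (l : Kp D) (k c q v : ℕ), q = (l.w k).p →
    v = padicValNat 2 (q + 1) → c.Coprime (15 * D.l) → c ≠ 0 → ¬ q ∣ c →
    k + 1 ≤ v ∧ 2 ^ (k + 1) ∣ ap W15 q ∧ l.t k ∈ H.N c ∧ H.N (c * q) = H.N c ⊓ H.N q ∧
    (∀ m : ℕ, l.t k ^ m ∈ H.N q ↔ 2 ^ v ∣ m) ∧
    (∀ s ∈ D.GK, dlg (H.N q) (l.t k) s < 2 ^ v ∧ (l.t k ^ dlg (H.N q) (l.t k) s)⁻¹ * s ∈ H.N q ∧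
      ∀ s' ∈ D.GK, dlg (H.N q) (l.t k) (s * s') ≡
        dlg (H.N q) (l.t k) s + dlg (H.N q) (l.t k) s' [MOD 2 ^ v]) ∧
    ∀ (M : Type) [AddCommGroup M] (f : GQ → M), (∀ s ∈ D.GK, ∀ g ∈ H.N (c * q), f (s * g) = f s) →
      csum D.GK (H.N (c * q)) f =
        ∑ m ∈ Finset.range (2 ^ v), csum (H.N q) (H.N (c * q)) (fun s => f (l.t k ^ m * s)) ∧
      csum D.GK (H.N (c * q)) f =
        csum D.GK (H.N c) (fun s => ∑ m ∈ Finset.range (2 ^ v), f (s * l.t k ^ m)) ∧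
      csum (H.N c) (H.N (c * q)) f = ∑ m ∈ Finset.range (2 ^ v), f (l.t k ^ m) ∧
      ∀ f' : GQ → M, (∀ s ∈ D.GK, ∀ g ∈ H.N c, f' (s * g) = f' s) →
        csum (H.N q) (H.N (c * q)) f' = csum D.GK (H.N c) f'

/-- the derived points are invariant modulo a power of two -/
def INVP : Prop :=
  ∀ (D : Dat) (H : Heeg D.toPre D.a) (n : List (Kp D)) (k : ℕ), Ok n →
    ((D.ck n k).Coprime (15 * D.l) ∧ D.ck n k ≠ 0 ∧
      ∀ g ∈ H.N (D.ck n k), D.ak k g = 0 ∧ g D.dl = D.dl) ∧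
    (∀ j, ∀ s ∈ H.N (D.ck n k), ac s (D.PP H n k j) = D.PP H n k j) ∧
    (∀ g ∈ D.GK, ∀ j, ∃ R, (∀ s ∈ H.N (D.ck n k), ac s R = R) ∧
      2 ^ k • R = tac D.dl g (D.PP H n k (j - D.ak k g)) - D.PP H n k j) ∧
    (n = [] → ∀ g ∈ D.GK, ∀ j, tac D.dl g (D.PP H n k (j - D.ak k g)) = D.PP H n k j) ∧
    ∃ v, D.KD H n v

/-- the Kolyvagin cochains are cocycles -/
def KPZ : Prop :=
  ∀ (D : Dat) (H : Heeg D.toPre D.a) (n : List (Kp D)) (v : KA), Ok n → D.KD H n v →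
    (∃ e : ℕ, ∀ (c i : ℕ) (P : EO), (∀ s ∈ H.N c, ac s P = P) → 2 ^ i • P = 0 → 2 ^ e • P = 0) ∧
    ∀ (A : Type) [NormedCommRing A] [NormedAlgebra ℚ_[2] A] [IsUltrametricDist A]
      [FiniteDimensional ℚ_[2] A] (ψ : ℤ_[2] → A), IsPsi ψ →
      Ap (fun _ => D.GK) (fun k g i => ∑ j ∈ Finset.range (2 ^ k), v k g j i • ψ j) (raw ψ v) ∧
      PZ (fun _ => D.GK) (D.r ψ) (raw ψ v)

/-- the local conditions away from the Kolyvagin primes -/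
def KLOC : Prop :=
  ∀ (D : Dat) (H : Heeg D.toPre D.a) (n : List (Kp D)) (v : KA), Ok n → D.KD H n v →
    ∀ (A : Type) [NormedCommRing A] [NormedAlgebra ℚ_[2] A] [IsUltrametricDist A]
      [FiniteDimensional ℚ_[2] A] (ψ : ℤ_[2] → A), IsPsi ψ →
      (∀ (w : ℕ → Pl) (g : GS), (∀ᶠ k in UF, g k ∈ (w k).I ⊓ D.GK ∧ ¬ ((w k).p : ℤ) ∣ 30 * D.d ∧
        ∀ l ∈ n, (w k).p ≠ (l.w k).p) → raw ψ v g = 0) ∧
      (∀ w : Pl, w.p ∣ 15 → Cob (S1 w.I) (D.r ψ) (raw ψ v)) ∧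
      D.Ord ψ (raw ψ v) ∧ D.Ord (bar ψ) (D.xt (raw ψ v))

/-- the local conditions at the Kolyvagin primes -/
def KREL : Prop :=
  ∀ (D : Dat) (H : Heeg D.toPre D.a) (n : List (Kp D)) (v : KA), Ok n → D.KD H n v →
    ∀ (A : Type) [NormedCommRing A] [NormedAlgebra ℚ_[2] A] [IsUltrametricDist A]
      [FiniteDimensional ℚ_[2] A] (ψ : ℤ_[2] → A), IsPsi ψ →
      (∀ l ∈ n, raw ψ v l.ph = 0) ∧ ∀ l v', Ok (l :: n) → D.KD H (l :: n) v' →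
        raw ψ v' l.t = mv (D.T.rho tau) (raw ψ v l.ph)

/-- existence of the Kolyvagin system -/
def KOLY : Prop :=
  ∀ (D : Dat) (H : Heeg D.toPre D.a), ∃ v : List (Kp D) → KA, D.KD H [] (v []) ∧ D.Kol v

/-! ### The local non-vanishing -/

/-- removing the primes of the twist -/
def NV1 : Prop :=
  ∀ (D : Dat) (H : Heeg D.toPre D.a), JP H → ∃ M₀ : ℕ, ∀ k, M₀ ≤ k → ∀ s, s + 2 * D.sg + 3 ≤ 2 ^ k →
    ¬ Kq {g | g ∈ D.w2.I ∧ 2 ^ k ∣ D.a g} ((fun R => ac D.gm R - R)^[s] (D.PP H [] k 0))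

/-- a cochain with values in the group ring of a cyclic group modulo two which is divisible -/
def NV2 : Prop :=
  ∀ (D : Dat) (v : KA), (∀ k g j, ‖v k g j‖ ≤ 1) → (∀ k, Sm D.GK (v k)) →
    (∀ (A : Type) [NormedCommRing A] [NormedAlgebra ℚ_[2] A] [IsUltrametricDist A]
      [FiniteDimensional ℚ_[2] A] (ψ : ℤ_[2] → A), IsPsi ψ → PZ (fun _ => D.GK) (D.r ψ) (raw ψ v)) →
    ∀ (A : Type) [NormedCommRing A] [NormedAlgebra ℚ_[2] A] [IsUltrametricDist A]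
      [FiniteDimensional ℚ_[2] A] (ψ : ℤ_[2] → A) (f : ℚ_[2][X]), IsAF ψ f → Dist f → X ∣ f →
      D.Str ψ (D.kap ψ v) → ∀ᶠ k in UF, ∀ g ∈ D.w2.I, 2 ^ k ∣ D.a g → ∀ i < f.natDegree,
        ‖∑ j ∈ Finset.range (2 ^ k), (j.choose i : ℚ_[2]) * (v k g j 0 + v k g j 1)‖ < 1

/-- the non-vanishing -/
def NV : Prop :=
  ∀ (D : Dat) (H : Heeg D.toPre D.a) (v : KA), JP H → D.KD H [] v → NVd D v

/-! ### The Iwasawa module -/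

/-- the layers of the tower -/
def LAY : Prop :=
  ∀ (D : Dat) (n : ℕ), ON (D.Gd (2 ^ n)) ∧ TC (D.Gd (2 ^ n)) ∧ (D.Gd (2 ^ n)).index = 2 ^ (n + 1) ∧
    (D.Gd (2 ^ n)).relIndex D.w2.D = 2 ^ n ∧
    (∀ g ∈ D.Gd (2 ^ n), ∃ s ∈ D.w2.I ⊓ D.Gd (2 ^ n), g * s⁻¹ ∈ D.Gd 0) ∧
    (∀ N, ON N → ∃ m : ℕ, ∀ g ∈ D.Gd (2 ^ m), ∃ s ∈ D.w2.I ⊓ N, g * s⁻¹ ∈ D.Gd 0) ∧
    nOrb (D.Gd (2 ^ n)) {w | w.p = 2} = 2 ∧
    ((∀ p ∈ D.d.natAbs.primeFactors, D.np p ≤ n) →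
      nOrb (D.Gd (2 ^ n)) {w | (w.p : ℤ) ∣ 30 * D.d} = 6 + 2 * D.sg ∧
      ∀ w : Pl, (w.p : ℤ) ∣ 30 * D.d → ¬ w.D ⊓ D.Gd (2 ^ n) ≤ D.Gd (2 ^ (n + 1))) ∧
    (∀ P : Finset ℕ, ∃ R : Set Pl, R.Finite ∧ (∀ w ∈ R, w.p ∈ P) ∧
      (∀ w, Out (D.Gd (2 ^ n)) R w ↔ w.p ∉ P) ∧
      nOrb (D.Gd (2 ^ n)) R = nOrb (D.Gd (2 ^ n)) {w | w.p ∈ P}) ∧
    ∃ R : Finset Pl, R.card ≤ 4 ∧ (∀ w ∈ R, w.p ∣ 15) ∧
      ∀ w : Pl, w.p ∣ 15 → ∃ u ∈ D.Gd 0, u • w ∈ R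

/-- the 2-units of a layer are the local square classes, and the 2-class number is odd -/
def VN : Prop :=
  ∀ (D : Dat) (n : ℕ) (U : Subgroup GQ), U = D.Gd (2 ^ n) →
    (∀ x, Fix U x → x ≠ 0 → (∀ w : Pl, w.p ≠ 2 → w.Ev (w.D ⊓ U) x) → Sq (D.w2.D ⊓ U) x → Sq U x) ∧
    (∀ y, Fix (D.w2.D ⊓ U) y → y ≠ 0 → ∃ x, Fix U x ∧ x ≠ 0 ∧ (∀ w : Pl, w.p ≠ 2 → w.v x = 1) ∧
      Sq (D.w2.D ⊓ U) (x * y)) ∧
    ∀ w : Pl, w.p ≠ 2 → ∃ x, Fix U x ∧ x ≠ 0 ∧ ¬ w.Ev (w.D ⊓ U) x ∧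
      ∀ w' : Pl, w'.p ≠ 2 → Out U {w} w' → w'.v x = 1

/-- the number of quadratic characters -/
def ZONE : Prop :=
  ∀ (D : Dat) (n : ℕ), (∀ p ∈ D.d.natAbs.primeFactors, D.np p ≤ n) →
    {χ | D.Cq n χ}.ncard = 2 ^ (4 + 2 * D.sg)

/-- the obstruction to lifting vanishes in the next layer -/
def OBS : Prop :=
  ∀ (D : Dat) (n i : ℕ) (c : GQ → V2), (∀ p ∈ D.d.natAbs.primeFactors, D.np p ≤ n) →
    D.Zm n i c → ∃ c', D.Zm (n + 1) (i + 1) c' ∧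
      ∀ g ∈ D.Gd (2 ^ (n + 1)), ‖c' g - c g‖ ≤ (2 ^ i)⁻¹

/-- the module of rigid cocycles -/
def IW0 : Prop :=
  ∀ D : Dat, ∃ X : Submodule ℚ_[2] (GQ → V2), FiniteDimensional ℚ_[2] X ∧
    finrank ℚ_[2] X = 8 + 4 * D.sg ∧ (∀ c, c ∈ X ↔ D.XC c) ∧ (∀ c ∈ X, D.Th c ∈ X) ∧
    ∃ F, Dist F ∧ ∀ c ∈ X, aeval D.Th F c = 0

/-- the submodule with the local conditions at the bad primes -/
def IW : Prop :=
  ∀ D : Dat, ∃ X : Submodule ℚ_[2] (GQ → V2), FiniteDimensional ℚ_[2] X ∧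
    4 + 4 * D.sg ≤ finrank ℚ_[2] X ∧ (∀ c ∈ X, D.XC c ∧ D.Th c ∈ X ∧ ∀ w : Pl, w.p ∣ 15 →
      ∃ v, ∀ g ∈ w.I, c g = D.T.rho g *ᵥ v - v) ∧ ∃ F, Dist F ∧ ∀ c ∈ X, aeval D.Th F c = 0

/-- descent from the top of the tower -/
def DESC : Prop :=
  ∀ (D : Dat) (A : Type) [NormedCommRing A] [NormedAlgebra ℚ_[2] A] [IsUltrametricDist A]
    [FiniteDimensional ℚ_[2] A] (ψ : ℤ_[2] → A), IsPsi ψ →
    ∀ M : Submodule A (GQ → Fin 2 → A), (∀ ξ ∈ M,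
      (∀ t : A →ₗ[ℚ_[2]] ℚ_[2], D.XC (fun g i => t (ξ g i)) ∧ ∀ w : Pl, w.p ∣ 15 →
        ∃ v, ∀ g ∈ w.I, (fun i => t (ξ g i)) = D.T.rho g *ᵥ v - v) ∧
      ∀ g, ξ (D.gm * g * D.gm⁻¹) = D.r ψ D.gm (ξ g)) →
      ∃ L : M →ₗ[A] GS → Fin 2 → A, Function.Injective L ∧ ∀ ξ, D.SS ψ (L ξ)

/-- the lower bound -/
def LB : Prop := ∀ D : Dat, LBd D

/-! ### Descent to the rationals -/

/-- decomposition of the Selmer group over the quadratic field -/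
def SPLIT : Prop :=
  ∀ (D : Dat) (x : GS → V2), D.Sel (fun _ => (1 : ℚ_[2])) [] x → ∃ xp xm,
    SelQ D.T D.dl D.d xp ∧ SelQ D.T (D.dl * D.sk) (-D.l * D.d) xm ∧ ∀ g ∈ S1 D.GK,
      xp g = x g + D.nz (fun _ => (1 : ℚ_[2])) ((sd D.dl tau : ℚ_[2]) • D.xt x) g ∧
      xm g = x g - D.nz (fun _ => (1 : ℚ_[2])) ((sd D.dl tau : ℚ_[2]) • D.xt x) g

/-- ordinary classes at two come from points -/
def LOC2 : Prop :=
  ∀ (w : Pl) (T : Tate w) (δ : Om) (m : ℤ), w.p = 2 → δ ^ 2 = m → m % 8 = 5 → ∀ x : GS → V2,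
    PZ (fun _ => w.D) (T.rq δ) x → (∃ v, ∀ g ∈ S1 w.D, (x g - (rS (T.rq δ) g v - v)) 1 = 0) →
    ∀ c, Ap (fun _ => w.D) c x → ∃ e : ℕ, ∀ i : ℕ, ∀ᶠ k in UF, ∃ P : EO, ∀ g ∈ w.D,
      T.pt (((2 : ℚ_[2]) ^ e / 2 ^ i) • c k g) = tac δ g P - P

/-- patched Selmer classes give classical Selmer cocycles -/
def CLAS : Prop :=
  ∀ (w₂ : Pl) (T : Tate w₂) (δ : Om) (m : ℤ), w₂.p = 2 → δ ^ 2 = m → m % 8 = 5 →
    (∀ x c, SelQ T δ m x → Ap (fun _ => ⊤) c x → ∃ e : ℕ, ∀ i : ℕ, ∀ᶠ k in UF,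
      SelC δ fun g => T.pt (((2 : ℚ_[2]) ^ e / 2 ^ i) • c k g)) ∧
    (Sel1 δ → Rk1 T δ m)

/-- the twist in short Weierstrass form -/
def Wd (d : ℤ) : WeierstrassCurve ℤ := ⟨0, 0, 0, -12987 * d ^ 2, -263466 * d ^ 3⟩

/-- comparison with the twist in short Weierstrass form -/
def SHA : Prop :=
  ∀ (d : ℤ) (δ : Om), d ≠ 0 → δ ^ 2 = d →
    ((RatP δ).Infinite → {q : ℚ × ℚ | q.2 ^ 2 = q.1 ^ 3 + ((-12987 * d ^ 2 : ℤ) : ℚ) * q.1 +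
      ((-263466 * d ^ 3 : ℤ) : ℚ)}.Infinite) ∧
    ((RatP δ).Finite → (∃ k : ℕ, ∀ f : ZMod (2 ^ k) × ZMod (2 ^ k) →+ Sha (Wd d),
      ¬ Function.Injective f) → Sel1 δ)

/-- the Selmer group and the Heegner class at the trivial character -/
def RKT : Prop :=
  ∀ D : Dat, Rk0 D.T (D.dl * D.sk) (-D.l * D.d) → (Rk1 D.T D.dl D.d → RkK D) ∧
    ∀ (H : Heeg D.toPre D.a) (v : KA), (RatP D.dl).Finite → D.KD H [] v →
      D.Sel (fun _ => (1 : ℚ_[2])) [] (D.kap (fun _ => (1 : ℚ_[2])) v) →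
      D.kap (fun _ => (1 : ℚ_[2])) v = 0

/-! ### The two remaining blocks and the theorem -/

/-- existence of the Heegner system -/
def HEEG : Prop := ∀ P : Pre, ∃ a, Anti P a ∧ ∃ H : Heeg P a, JP H

/-- existence of the auxiliary prime -/
def AUXL : Prop :=
  ∀ (d : ℤ) (w : Pl) (T : Tate w), Squarefree d → d % 8 = 5 → IsCoprime d 15 →
    jacobiSym d 5 = -1 → d.sign * jacobiSym d 3 = 1 → w.p = 2 →
    ∃ l : ℕ, l.Prime ∧ l % 16 = 7 ∧ IsCoprime d (15 * l) ∧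
      (∀ p : ℕ, p.Prime → (p : ℤ) ∣ 15 * d → jacobiSym (-l) p = 1) ∧
      ∀ δ : Om, δ ^ 2 = ((-l * d : ℤ) : Om) → Rk0 T δ (-l * d)

/-- the converse theorem in rank one -/
def MAINB : Prop :=
  ∀ d : ℤ, Squarefree d → d % 8 = 5 → IsCoprime d 15 → jacobiSym d 5 = -1 →
    d.sign * jacobiSym d 3 = 1 →
    (∃ k : ℕ, ∀ f : ZMod (2 ^ k) × ZMod (2 ^ k) →+ Sha (Wd d), ¬ Function.Injective f) →
    {q : ℚ × ℚ | q.2 ^ 2 = q.1 ^ 3 + ((-12987 * d ^ 2 : ℤ) : ℚ) * q.1 +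
      ((-263466 * d ^ 3 : ℤ) : ℚ)}.Infinite

end Pool.Agent.P.MP_8b7eba_nt.R2
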