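import Pool.Agent.P.MP_8b7eba_nt.R2.TFRA
import Pool.Agent.P.MP_8b7eba_nt.R2.IfB
import Pool.Agent.P.MP_8b7eba_nt.R2.BasicP

/-! The Kronecker congruence for algebraic points. -/

namespace Pool.Agent.P.MP_8b7eba_nt.R2.TFR

open scoped NNReal
open Finset
open MP_9c97e9_nt (Pt pm Is ap Split pm_injective)
open _root_.Pool.Agent.P.MP_8b7eba_nt.Mod (M2 xx yy al)
open R1 (Zb InP IntPt Pz y1)

variable {w : Pl} {φ : GQ} {z : ℂ} {x y x' y' : Om} {P Q R : EO}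

theorem int_io : IsIntegral ℤ (io x) ↔ IsIntegral ℤ x :=
  isIntegral_algHom_iff io.toIntAlgHom io.injective

theorem exists_io (ht : TAU) {c : ℂ} (h : IsIntegral ℤ c) : ∃ x, IsIntegral ℤ x ∧ io x = c := by
  obtain ⟨x, rfl⟩ := ht.2.2.2.1 c (h.tower_top (A := ℚ)).isAlgebraic
  exact ⟨x, int_io.1 h, rfl⟩

theorem exists_prime (hp : PL) (ht : TAU) (w : Pl) : ∃ J : Ideal Zb, J.IsPrime ∧ (w.p : Zb) ∈ J ∧
    ∀ x, InP J (io x) ↔ IsIntegral ℤ x ∧ w.v x < 1 := by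
  have h : integralClosure ℤ ℂ ≤ io.toIntAlgHom.range := fun c hc =>
    (exists_io ht hc).imp fun _ h => h.2
  let j := (AlgEquiv.ofInjective io.toIntAlgHom io.injective).symm.toAlgHom.comp
    (Subalgebra.inclusion h)
  have hj : ∀ c, io (j c) = c := fun c => congrArg Subtype.val
    ((AlgEquiv.ofInjective io.toIntAlgHom io.injective).apply_symm_apply (Subalgebra.inclusion h c))
  have h1 : ∀ c, w.v (j c) ≤ 1 := fun c => hp.2.2.2.1 w _ (int_io.1 (hj c ▸ c.2))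
  refine ⟨⟨⟨⟨{c | w.v (j c) < 1}, fun ha hb => ?_⟩, by simp⟩, fun a b hb => ?_⟩,
    ⟨fun e => ?_, fun {a b} e => ?_⟩, ?_, fun x => ⟨fun e => ?_, fun e => ?_⟩⟩
  · simpa only [Set.mem_ofPred, map_add] using w.v.map_add_lt ha hb
  · simpa only [Set.mem_ofPred, smul_eq_mul, map_mul] using mul_lt_one_of_nonneg_of_lt_one_right
      (h1 a) zero_le hb
  · have : w.v (j 1) < 1 := (Ideal.eq_top_iff_one _).1 e
    simp at this
  · have : w.v (j (a * b)) < 1 := e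
    rw [map_mul, map_mul] at this
    by_contra! h2
    exact this.not_ge (one_le_mul (not_lt.1 h2.1) (not_lt.1 h2.2))
  · show w.v (j _) < 1
    rw [map_natCast]
    exact w.v_p_lt
  · obtain ⟨c, hc, e⟩ := e
    rw [← hj] at e
    exact io.injective e ▸ ⟨int_io.1 (hj c ▸ c.2), hc⟩
  · refine ⟨⟨_, int_io.2 e.1⟩, ?_, rfl⟩
    show w.v (j _) < 1
    rw [io.injective (hj ⟨_, int_io.2 e.1⟩)]
    exact e.2

theorem is_io (hz : 0 < z.im) (hx : io x = xx z) (hy : io y = y1 z) :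
    Is (Pz z) (io (4 * x)) (io (-16 * y - 8 * x)) := by
  have := R1.is_Pz hz
  rwa [show 4 * xx z = io (4 * x) by simp [hx, map_ofNat],
    show 8 * yy z = io (-16 * y - 8 * x) by simp [hx, hy, map_ofNat, y1]; ring] at this

theorem exists_pt (hz : 0 < z.im) (hx : io x = xx z) (hy : io y = y1 z) :
    ∃ R : EO, pm W15 io R = Pz z ∧ Is R (4 * x) (-16 * y - 8 * x) := by
  have h := is_io hz hx hy
  obtain ⟨R, hR⟩ := (R1.split15 (F := Om)).exists_is (x := 4 * x) (η := -16 * y - 8 * x)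
    (io.injective (by simpa [map_ofNat] using h.eq R1.split15))
  exact ⟨R, (hR.map io).unique R1.split15 h, hR⟩

theorem is_pt (ht : TAU) (hz : 0 < z.im) (hx : IntPt z) (hR : pm W15 io R = Pz z) :
    ∃ x y, IsIntegral ℤ x ∧ IsIntegral ℤ y ∧ io x = xx z ∧ io y = y1 z ∧
      Is R (4 * x) (-16 * y - 8 * x) := by
  obtain ⟨x, h1, h2⟩ := exists_io ht hx.1
  obtain ⟨y, h3, h4⟩ := exists_io ht hx.2
  exact ⟨x, y, h1, h3, h2, h4, Is.of_map (f := io) (hR ▸ is_io hz h2 h4)⟩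

theorem exists_pt' (ht : TAU) (hz : 0 < z.im) (hx : IntPt z) : ∃ R : EO, pm W15 io R = Pz z := by
  obtain ⟨x, -, h2⟩ := exists_io ht hx.1
  obtain ⟨y, -, h4⟩ := exists_io ht hx.2
  exact (exists_pt hz h2 h4).imp fun _ h => h.1

theorem cong (hC : CONG) (hw : ¬ w.p ∣ 15) (hP : Is P (4 * x) (-16 * y - 8 * x))
    (hQ : Is Q (4 * x') (-16 * y' - 8 * x')) (h1 : w.v x ≤ 1) (h2 : w.v (x - x') < 1)
    (h3 : w.v (y - y') < 1) : E1 w (P - Q) := by
  refine (hC w hw).1 P Q _ _ _ _ hP hQ ?_ ?_ ?_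
  · rw [map_mul]
    exact mul_le_of_le_one_right' h1
  · rw [← mul_sub, map_mul]
    exact mul_lt_of_lt_one_right (w.v.pos_iff.2 (by norm_num)) h2
  · rw [show -16 * y - 8 * x + 2 * (4 * x) - (-16 * y' - 8 * x' + 2 * (4 * x')) =
      -(16 * (y - y')) by ring, Valuation.map_neg, map_mul]
    exact mul_lt_of_lt_one_right (w.v.pos_iff.2 (by norm_num)) h3

theorem is_ac' (g : GQ) (hP : Is P (4 * x) (-16 * y - 8 * x)) :
    Is (ac g P) (4 * g x) (-16 * g y - 8 * g x) := by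
  simpa [map_ofNat, ac] using hP.map (g : Om →+* Om)

theorem frob_lt (hφ : w.IsFrob 1 φ) (h : w.v x ≤ 1) (h' : w.v (x ^ w.p - y) < 1) :
    w.v (φ x - y) < 1 := by
  rw [← sub_add_sub_cancel _ (x ^ w.p)]
  exact w.v.map_add_lt (by simpa using hφ.2 x h) h'

theorem kronE (hp : PL) (ht : TAU) (hC : CONG) (hw : ¬ w.p ∣ 15) (hφ : w.IsFrob 1 φ)
    (hz : 0 < z.im) (hx : IntPt z) (hR : pm W15 io R = Pz z) {S : ℕ → EO}
    (hS : ∀ i ≤ w.p, pm W15 io (S i) = Pz ((al w.p i).act z)) :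
    ∃ i₀ ≤ w.p, E1 w (ac φ R - S i₀) ∧ ∀ i ≤ w.p, i ≠ i₀ → E1 w (ac φ (S i) - R) := by
  obtain ⟨J, h1, h2, hJ⟩ := exists_prime hp ht w
  obtain ⟨j, hj, h3, h4⟩ := kron w.prime hw h1 h2 hz hx
  obtain ⟨x, y, hx1, hy1, ex, ey, hR'⟩ := is_pt ht hz hx hR
  have hi := fun i hi => is_pt ht (M2.im_act_pos (al_pos w.prime i) hz)
    (int_al w.prime hw hz hx i) (hS i hi)
  have v1 := hp.2.2.2.1 w
  have v2 := fun x hx => (Pl.mem_D.1 hφ.1 x).trans_le (v1 x hx)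
  refine ⟨j, mem_range_succ_iff.1 hj, ?_, fun i hi' hij => ?_⟩
  · obtain ⟨a, b, -, -, ea, eb, hS'⟩ := hi j (mem_range_succ_iff.1 hj)
    simp only [← ex, ← ey, ← ea, ← eb, ← map_pow, ← map_sub, hJ] at h3
    exact cong hC hw (is_ac' φ hR') hS' (v2 x hx1)
      (frob_lt hφ (v1 x hx1) (w.v.map_sub_swap _ _ ▸ h3.1.2))
      (frob_lt hφ (v1 y hy1) (w.v.map_sub_swap _ _ ▸ h3.2.2))
  · obtain ⟨a, b, ha, hb, ea, eb, hS'⟩ := hi i hi'
    have h5 := h4 i (mem_range_succ_iff.2 hi') hij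
    simp only [← ex, ← ey, ← ea, ← eb, ← map_pow, ← map_sub, hJ] at h5
    exact cong hC hw (is_ac' φ hS') hR' (v2 a ha) (frob_lt hφ (v1 a ha) h5.1.2)
      (frob_lt hφ (v1 b hb) h5.2.2)

theorem heckeE {p : ℕ} (hp : p.Prime) (h15 : ¬ p ∣ 15) (hz : 0 < z.im) (hR : pm W15 io R = Pz z)
    {S : ℕ → EO} (hS : ∀ i ≤ p, pm W15 io (S i) = Pz ((al p i).act z)) :
    ∑ i ∈ range (p + 1), S i = Mod.an p • R := by
  refine pm_injective io ?_
  rw [map_sum, map_zsmul, hR, sum_congr rfl fun i hi => hS i (mem_range_succ_iff.1 hi)]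
  exact hecke hp h15 hz

/-- the kernel of the reduction as a subgroup -/
noncomputable def EA (h : E1G) (w : Pl) : AddSubgroup EO :=
  ⟨⟨⟨{P | E1 w P}, (h w).2.2.1 _ _⟩, (h w).1⟩, (h w).2.1 _⟩

theorem ac_mem (h : E1G) {g : GQ} (hg : g ∈ w.D) (hP : P ∈ EA h w) : ac g P ∈ EA h w := by
  have := ((h w).2.2.2.1 g P).2 hP
  rwa [show g • w = w from hg] at this

theorem exists_int (hp : PL) (hφ : w.IsFrob 1 φ) (h : w.v x ≤ 1) (S : Finset ℂ) :
    ∃ x', IsIntegral ℤ x' ∧ w.v (x - x') < 1 ∧ io x' ∉ S := by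
  obtain ⟨a, b, ha, hb, h1, e⟩ := hp.2.2.2.2.2.2 w x h
  obtain ⟨N, hN, h2⟩ := exists_ON_fix {b}
  obtain ⟨m, hm, h3⟩ := hN.exists_pow φ
  have h4 := (hφ.pow m).2 b h1.le
  obtain ⟨k, hk⟩ := Nat.exists_eq_add_of_le' (Nat.one_lt_pow (n := 1 * m) (by omega) w.prime.one_lt)
  rw [h2 b (by simp) _ h3, hk, show b - b ^ (k + Nat.succ 1) = b * (1 - b ^ (k + 1)) by
    rw [Nat.succ_eq_add_one]; ring, map_mul, h1, one_mul] at h4
  have h5 : w.v (x - a * b ^ k) < 1 := by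
    rw [← e, show x - x * b * b ^ k = x * (1 - b ^ (k + 1)) by ring, map_mul]
    exact mul_lt_one_of_nonneg_of_lt_one_right h zero_le h4
  obtain ⟨_, ⟨n, rfl⟩, hn⟩ := (Set.infinite_range_of_injective (f := fun n : ℕ => io (a * b ^ k - w.p * n))
    fun m n h => by simpa [w.prime.ne_zero] using h).exists_notMem_finset S
  refine ⟨_, (ha.mul (hb.pow k)).sub ((isIntegral_natCast _).mul (isIntegral_natCast n)), ?_, hn⟩
  rw [← sub_add]
  refine w.v.map_add_lt h5 ?_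
  rw [map_mul]
  exact mul_lt_one_of_nonneg_of_lt_one_left zero_le w.v_p_lt (w.v_nat_le n)

end Pool.Agent.P.MP_8b7eba_nt.R2.TFR
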