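import Pool.Agent.P.MP_8b7eba_nt.R2.LtA
import Pool.Agent.P.MP_8b7eba_nt.R2.RCA
import Pool.Agent.P.MP_8b7eba_nt.R2.TFRB

/-! Lattices with complex multiplication. -/

namespace Pool.Agent.P.MP_8b7eba_nt.R2

open scoped NNReal
open MP_9c97e9_nt (pm Is ap)
open BSD15 (OO Good nm cj)
open _root_.Pool.Agent.P.MP_8b7eba_nt.Mod (M2 G0 xx al)
open R1 (emb Dl psi Pz KF U8 IntPt y1)

variable {l : ℕ} [Hl l] {c c' : ℕ} {I J : Ideal (OO l)} {α β : OO l} {μ : ℂ}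

namespace CMA

/-- the order of conductor `c` -/
def Or (l c : ℕ) : AddSubgroup (OO l) :=
  (AddSubgroup.zmultiples (c : ℤ)).comap
    { toFun := QuadraticAlgebra.im, map_zero' := rfl, map_add' := fun _ _ => rfl }

omit [Hl l] in
theorem mem_Or {x : OO l} : x ∈ Or l c ↔ (c : ℤ) ∣ x.im := Int.mem_zmultiples_iff

omit [Hl l] in
theorem index_Or : (Or l c).index = c := by
  rw [Or, AddSubgroup.index_comap_of_surjective _ fun n => ⟨⟨0, n⟩, rfl⟩, Int.index_zmultiples,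
    Int.natAbs_natCast]

omit [Hl l] in
theorem im_mul {n : ℤ} (h : n ∣ α.im) (h' : n ∣ β.im) : n ∣ (α * β).im := by
  rw [QuadraticAlgebra.im_mul]
  exact ((h'.mul_left _).add (h.mul_right _)).add (h'.mul_left _)

omit [Hl l] in
theorem im_nat (n : ℕ) (α : OO l) : ((n : OO l) * α).im = n * α.im := by
  simp [QuadraticAlgebra.im_mul]

omit [Hl l] in
theorem im_int (n : ℤ) (α : OO l) : ((n : OO l) * α).im = n * α.im := by
  simp [QuadraticAlgebra.im_mul]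

theorem emb_mul (α β : OO l) : emb l (α * β) = emb l α * emb l β := map_mul (R1.embH l) α β

theorem emb_nat (n : ℕ) : emb l n = n := map_natCast (R1.embH l) n

theorem emb_ne (h : α ≠ 0) : emb l α ≠ 0 := fun e =>
  h (R1.emb_injective l (e.trans (map_zero (R1.embH l)).symm))

theorem nm_mem (I : Ideal (OO l)) : (nm I : OO l) ∈ I := Ideal.absNorm_mem I

theorem Lc_eq (c : ℕ) (I : Ideal (OO l)) :
    Lc c I = (I.toAddSubgroup ⊓ Or l c).map (R1.embH l).toAddMonoidHom := by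
  rw [← AddSubgroup.closure_eq (AddSubgroup.map _ _), Lc]
  congr 1
  ext z
  exact ⟨fun ⟨x, h1, h2, h3⟩ => ⟨x, ⟨h1, mem_Or.2 h2⟩, h3.symm⟩,
    fun ⟨x, h, h3⟩ => ⟨x, h.1, mem_Or.1 h.2, h3.symm⟩⟩

omit [Hl l] in
/-- the decomposition coming from a coprimality -/
theorem dec {m n : ℕ} (h : m.Coprime n) : ∃ u v : ℤ, ∀ x : OO l,
    x = u • ((m : OO l) * x) + v • ((n : OO l) * x) := by
  obtain ⟨u, v, e⟩ := Nat.isCoprime_iff_coprime.2 h
  refine ⟨u, v, fun x => ?_⟩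
  have : ((u * m + v * n : ℤ) : OO l) = 1 := by rw [e, Int.cast_one]
  push_cast at this
  rw [zsmul_eq_mul, zsmul_eq_mul]
  linear_combination -x * this

theorem span_le {K : Ideal (OO l)} (h : Ad c I) (e : ∀ x ∈ I, (c : ℤ) ∣ x.im → α * x ∈ K) :
    Ideal.span {α} * I ≤ K := by
  rw [Ideal.span_singleton_mul_le_iff]
  intro x hx
  obtain ⟨u, v, d⟩ := dec (l := l) h.2
  rw [d x, mul_add, mul_smul_comm, mul_smul_comm, ← mul_assoc α (nm I : OO l)]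
  exact K.add_mem (zsmul_mem (K.mul_mem_right _ (e _ (nm_mem I) (by simp))) _)
    (zsmul_mem (e _ (I.mul_mem_left _ hx) (im_nat c x ▸ dvd_mul_right _ _)) _)

theorem sc_le (hμ : μ ≠ 0) {L M : Lt} : sc μ L ≤ sc μ M ↔ L ≤ M :=
  ⟨fun h => by simpa only [sc_sc, inv_mul_cancel₀ hμ, sc_one] using sc_mono (μ := μ⁻¹) h, sc_mono⟩

end CMA

open CMA

theorem mem_Lc {z : ℂ} : z ∈ Lc c I ↔ ∃ x ∈ I, (c : ℤ) ∣ x.im ∧ z = emb l x := by
  rw [Lc_eq]
  exact ⟨fun ⟨x, h, h3⟩ => ⟨x, h.1, mem_Or.1 h.2, h3.symm⟩,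
    fun ⟨x, h1, h2, h3⟩ => ⟨x, ⟨h1, mem_Or.2 h2⟩, h3.symm⟩⟩

theorem isL_Lc (hc : c ≠ 0) (h : I ≠ ⊥) : IsL (Lc c I) := by
  have h0 : IsL (Lc 1 (⊤ : Ideal (OO l))) := by
    refine ⟨emb l ⟨0, 1⟩, 1, ?_, fun x => ?_⟩
    · have : (0 : ℝ) < √l := Real.sqrt_pos.2 (by exact_mod_cast (Hl.lp (l := l)).pos)
      simpa [emb] using this
    · rw [mem_Lc]
      exact ⟨fun ⟨y, _, _, e⟩ => ⟨y.im, y.re, by simp [e, emb, add_comm]⟩,
        fun ⟨m, n, e⟩ => ⟨⟨n, m⟩, trivial, by simp, by simp [e, emb, add_comm]⟩⟩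
  have h1 : c * nm I ≠ 0 := mul_ne_zero hc (mt BSD15.nm_eq_zero.1 h)
  refine h0.of_le (fun z hz => ?_) (ne_zero_of_dvd_ne_zero
    ((h0.sc_nat h1).2.trans_ne (pow_ne_zero 2 h1)) (AddSubgroup.relIndex_dvd_of_le_left _ ?_))
  · obtain ⟨x, -, -, e⟩ := mem_Lc.1 hz
    exact mem_Lc.2 ⟨x, trivial, by simp, e⟩
  · intro z hz
    obtain ⟨y, hy, rfl⟩ := mem_sc.1 hz
    obtain ⟨x, -, -, rfl⟩ := mem_Lc.1 hy
    refine mem_Lc.2 ⟨c * (nm I * x), I.mul_mem_left _ (I.mul_mem_right _ (nm_mem I)),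
      im_nat c _ ▸ dvd_mul_right _ _, ?_⟩
    rw [emb_mul, emb_mul, emb_nat, emb_nat, Nat.cast_mul, mul_assoc]

theorem Lc_mono (h : I ≤ J) (h' : c ∣ c') : Lc c' I ≤ Lc c J := by
  intro z hz
  obtain ⟨x, h1, h2, e⟩ := mem_Lc.1 hz
  exact mem_Lc.2 ⟨x, h h1, (Int.natCast_dvd_natCast.2 h').trans h2, e⟩

theorem Lc_relIndex (hc : c ≠ 0) (h : Ad c I) (h' : Ad c J) :
    (Lc c (I * J)).relIndex (Lc c I) = nm J := by
  have h1 : (I * J).toAddSubgroup ≤ I.toAddSubgroup := fun x hx => Ideal.mul_le_left hx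
  have h2 : (I * J).toAddSubgroup ⊔ I.toAddSubgroup ⊓ Or l c = I.toAddSubgroup := by
    refine le_antisymm (sup_le h1 inf_le_left) fun x hx => ?_
    obtain ⟨u, v, d⟩ := dec (l := l) h'.2
    rw [d x]
    exact AddSubgroup.add_mem_sup (zsmul_mem (Ideal.mul_mem_mul_rev hx (nm_mem J)) _)
      (zsmul_mem (AddSubgroup.mem_inf.2
        ⟨I.mul_mem_left _ hx, mem_Or.2 (im_nat c x ▸ dvd_mul_right _ _)⟩) _)
  rw [Lc_eq, Lc_eq, AddSubgroup.relIndex_map_map_of_injective _ _ (R1.emb_injective l),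
    ← inf_of_le_left h1, inf_assoc, AddSubgroup.inf_relIndex_right,
    ← AddSubgroup.relIndex_sup_left, h2]
  refine mul_right_cancel₀ (mt BSD15.nm_eq_zero.1 h.1) ?_
  rw [mul_comm (nm J), ← BSD15.nm_mul]
  exact AddSubgroup.relIndex_mul_index h1

theorem Lc_relIndex' (hc : c * c' ≠ 0) (h : Ad (c * c') I) :
    (Lc (c * c') I).relIndex (Lc c I) = c' := by
  have h1 : Or l (c * c') ≤ Or l c := fun x hx =>
    mem_Or.2 ((Int.natCast_dvd_natCast.2 (dvd_mul_right c c')).trans (mem_Or.1 hx))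
  have h2 : I.toAddSubgroup ⊓ Or l c ⊔ Or l (c * c') = Or l c := by
    refine le_antisymm (sup_le inf_le_right h1) fun x hx => ?_
    obtain ⟨u, v, d⟩ := dec (l := l) h.2
    rw [d x]
    exact AddSubgroup.add_mem_sup (zsmul_mem (AddSubgroup.mem_inf.2 ⟨I.mul_mem_right _ (nm_mem I),
      mem_Or.2 (im_nat _ x ▸ (mem_Or.1 hx).mul_left _)⟩) _)
      (zsmul_mem (mem_Or.2 (im_nat _ x ▸ dvd_mul_right _ _)) _)
  rw [Lc_eq, Lc_eq, AddSubgroup.relIndex_map_map_of_injective _ _ (R1.emb_injective l),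
    ← inf_of_le_right h1, ← inf_assoc, AddSubgroup.inf_relIndex_left,
    ← AddSubgroup.relIndex_sup_right, h2]
  refine mul_right_cancel₀ (left_ne_zero_of_mul hc) ?_
  simpa only [index_Or, mul_comm c] using AddSubgroup.relIndex_mul_index h1

theorem Lc_span (h : Oc c β) (I : Ideal (OO l)) : Lc c (Ideal.span {β} * I) = sc (emb l β) (Lc c I) := by
  ext z
  rw [mem_Lc, mem_sc]
  constructor
  · rintro ⟨x, h1, h2, rfl⟩
    obtain ⟨y, hy, rfl⟩ := Ideal.mem_span_singleton_mul.1 h1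
    refine ⟨_, mem_Lc.2 ⟨y, hy, h.2.2.symm.dvd_of_dvd_mul_left ?_, rfl⟩, emb_mul _ _⟩
    rw [← im_int, ← BSD15.qbasic_mul_star, mul_right_comm]
    exact im_mul h2 h.star.2.1
  · rintro ⟨y, hy, rfl⟩
    obtain ⟨x, h1, h2, rfl⟩ := mem_Lc.1 hy
    exact ⟨β * x, Ideal.mem_span_singleton_mul.2 ⟨x, h1, rfl⟩, im_mul h.2.1 h2, (emb_mul _ _).symm⟩

theorem sc_Lc_le (c c' : ℕ) (I : Ideal (OO l)) : sc c' (Lc c I) ≤ Lc (c * c') I := by
  intro z hz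
  obtain ⟨y, hy, rfl⟩ := mem_sc.1 hz
  obtain ⟨x, h1, h2, rfl⟩ := mem_Lc.1 hy
  refine mem_Lc.2 ⟨c' * x, I.mul_mem_left _ h1, ?_, by rw [emb_mul, emb_nat]⟩
  rw [im_nat, Nat.cast_mul, mul_comm]
  exact mul_dvd_mul_left _ h2

/-- the ring of multipliers -/
theorem Lc_mult (h : Ad c I) : sc (emb l β) (Lc c I) ≤ Lc c I ↔ (c : ℤ) ∣ β.im := by
  constructor
  · intro e
    obtain ⟨x, -, h2, h3⟩ := mem_Lc.1 (e (mem_sc.2 ⟨_, mem_Lc.2 ⟨_, nm_mem I, by simp, rfl⟩, rfl⟩))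
    rw [← R1.emb_injective l ((emb_mul _ _).trans h3), mul_comm, im_nat] at h2
    exact (Nat.isCoprime_iff_coprime.2 h.2).symm.dvd_of_dvd_mul_left h2
  · intro e z hz
    obtain ⟨y, hy, rfl⟩ := mem_sc.1 hz
    obtain ⟨x, h1, h2, rfl⟩ := mem_Lc.1 hy
    exact mem_Lc.2 ⟨β * x, I.mul_mem_left _ h1, im_mul e h2, (emb_mul _ _).symm⟩

theorem Lc_cond (h : Ad c I) (h' : Ad c' J) (hμ : μ ≠ 0) (e : Lc c I = sc μ (Lc c' J)) : c = c' := by
  have h1 : ∀ β : OO l, (c : ℤ) ∣ β.im ↔ (c' : ℤ) ∣ β.im := fun β => by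
    rw [← Lc_mult h, ← Lc_mult h', e, sc_sc, mul_comm, ← sc_sc, sc_le hμ]
  exact Nat.dvd_antisymm (Int.natCast_dvd_natCast.1 ((h1 ⟨0, c'⟩).2 dvd_rfl))
    (Int.natCast_dvd_natCast.1 ((h1 ⟨0, c⟩).1 dvd_rfl))

theorem Lc_inj (h : Ad c I) (h' : Ad c J) (e : Lc c I = Lc c J) : I = J := by
  have h1 : ∀ {I J : Ideal (OO l)}, Ad c I → Lc c I = Lc c J → I ≤ J := fun {I J} h e => by
    have := span_le (α := 1) (K := J) h fun x h1 h2 => by
      obtain ⟨y, h3, -, h4⟩ := mem_Lc.1 (e.le (mem_Lc.2 ⟨x, h1, h2, rfl⟩))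
      rwa [one_mul, R1.emb_injective l h4]
    simpa using this
  exact le_antisymm (h1 h e) (h1 h' e.symm)

theorem cl_eq_iff_sc (h : Ad c I) (h' : Ad c J) : cl c I = cl c J ↔ ∃ μ : ℂ, μ ≠ 0 ∧
    Lc c J = sc μ (Lc c I) := by
  rw [cl_eq_iff h h']
  constructor
  · rintro ⟨α, β, h1, h2, e⟩
    refine ⟨(emb l β)⁻¹ * emb l α, mul_ne_zero (inv_ne_zero (emb_ne h2.1)) (emb_ne h1.1), ?_⟩
    rw [← sc_sc, ← Lc_span h1, e, Lc_span h2, sc_sc, inv_mul_cancel₀ (emb_ne h2.1), sc_one]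
  · rintro ⟨μ, -, e⟩
    obtain ⟨x, -, h2, h3⟩ := mem_Lc.1
      (e.ge (mem_sc.2 ⟨_, mem_Lc.2 ⟨_, nm_mem I, by simp, rfl⟩, rfl⟩))
    have h4 : Oc c ((nm I : ℤ) : OO l) := oc_int (by exact_mod_cast mt BSD15.nm_eq_zero.1 h.1)
      (Nat.isCoprime_iff_coprime.2 h.2)
    rw [Int.cast_natCast] at h4
    have h5 : Ideal.span {x} * I = Ideal.span {(nm I : OO l)} * J := by
      refine le_antisymm (span_le h fun y h5 h6 => ?_) (span_le h' fun y h5 h6 => ?_)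
      · obtain ⟨t, h7, -, h8⟩ := mem_Lc.1 (e.ge (mem_sc.2 ⟨_, mem_Lc.2 ⟨_, h5, h6, rfl⟩, rfl⟩))
        refine Ideal.mem_span_singleton_mul.2 ⟨t, h7, R1.emb_injective l ?_⟩
        rw [emb_mul, emb_mul, ← h3, ← h8]
        ring
      · obtain ⟨s, h7, h8⟩ := mem_sc.1 (e.le (mem_Lc.2 ⟨_, h5, h6, rfl⟩))
        obtain ⟨t, h9, -, rfl⟩ := mem_Lc.1 h7
        refine Ideal.mem_span_singleton_mul.2 ⟨t, h9, R1.emb_injective l ?_⟩
        rw [emb_mul, emb_mul, ← h3, h8]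
        ring
    have h6 := ad_span.1 (h5 ▸ h4.ad.mul h' : Ad c (Ideal.span {x} * I)).of_mul.1
    exact ⟨x, _, ⟨h6.1, h2, h6.2⟩, h4, h5⟩

theorem exists_sc (h : Ad c I) (h' : Ad c J) (e : cl c I = cl c J) : ∃ μ : ℂ, μ ≠ 0 ∧
    ∀ (c₀ : ℕ) (K : Ideal (OO l)), c₀ ∣ c → Lc c₀ (J * K) = sc μ (Lc c₀ (I * K)) := by
  obtain ⟨α, β, h1, h2, e⟩ := (cl_eq_iff h h').1 e
  refine ⟨(emb l β)⁻¹ * emb l α, mul_ne_zero (inv_ne_zero (emb_ne h2.1)) (emb_ne h1.1),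
    fun c₀ K h0 => ?_⟩
  rw [← sc_sc, ← Lc_span (h1.mono h0), ← mul_assoc, e, mul_assoc, Lc_span (h2.mono h0), sc_sc,
    inv_mul_cancel₀ (emb_ne h2.1), sc_one]

theorem at_hz (hc : Cd c) (h : Ad c I) : At (Lc c I) (Lc c (I * nI l 15)) (hz c I) := by
  exact Classical.epsilon_spec ((isL_Lc hc.1 h.1).exists_at (Lc_mono Ideal.mul_le_left dvd_rfl)
    ((Lc_relIndex hc.1 h hc.ad.2.2).trans nI_spec.2.2.1))

theorem hz_cl (hc : Cd c) (h : Ad c I) (h' : Ad c J) (e : cl c I = cl c J) :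
    ∃ γ, G0 γ ∧ hz c J = γ.act (hz c I) := by
  obtain ⟨μ, hμ, e⟩ := exists_sc h h' e
  have h1 := (at_hz hc h).sc hμ
  rw [← e c _ dvd_rfl, ← Ideal.mul_top I, ← e c _ dvd_rfl, Ideal.mul_top, Ideal.mul_top] at h1
  exact h1.unique (at_hz hc h')

theorem intPt_hz (hc : Cd c) (h : Ad c I) : IntPt (hz c I) := by
  have c1 : Cd 1 := ⟨one_ne_zero, Nat.coprime_one_left _⟩
  have a1 := h.mono (one_dvd c)
  have h1 := at_hz c1 a1
  have hl := Hl.lp (l := l)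
  have d : Oc 1 (BSD15.del l) := ⟨fun e => by simpa [BSD15.del] using congrArg (·.im) e, by simp,
    by simpa using isCoprime_one_right⟩
  obtain ⟨A, h2, -, h3, h4, -⟩ := h1.sub (h1.sc (emb_ne d.1)) ((Lc_mult a1).2 d.2.1)
    ((Lc_mult (a1.mul c1.ad.2.2)).2 d.2.1)
  rw [← Lc_span d, mul_comm, Lc_relIndex one_ne_zero a1 d.ad, BSD15.nm_span, BSD15.norm_del] at h2
  have h5 : l.Coprime 15 := hl.coprime_iff_not_dvd.2 fun e => by
    have := Nat.le_of_dvd (by norm_num) e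
    have := Hl.l8 (l := l)
    obtain rfl | rfl : l = 7 ∨ l = 15 := by omega
    · omega
    · norm_num at hl
  obtain ⟨B, h6, -, h7, h8, -⟩ := h1.sub (at_hz hc h) (Lc_mono le_rfl (one_dvd c))
    (Lc_mono le_rfl (one_dvd c))
  have h9 := Lc_relIndex' (c := 1) (c' := c) (I := I) (by simpa using hc.1) (by simpa using h)
  rw [one_mul] at h9
  rw [h8]
  exact TFR.int (Nat.pos_of_ne_zero hc.1) hc.2 (h9 ▸ h6) h7 h1.im
    (R1.intPt_of_fix hl.squarefree hl.one_lt h5 h2 h3 h1.im h4.symm)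

theorem HP_cl (hT : TAU) (hc : Cd c) (h : Ad c I) : pm W15 io (HP (cl c I)) = Pz (hz c I) := by
  have h1 := rp_spec (cl c I)
  obtain ⟨γ, hγ, e⟩ := hz_cl hc h h1.1 h1.2.symm
  rw [← R1.Pz_act hγ (at_hz hc h).im, ← e]
  exact Classical.epsilon_spec (TFR.exists_pt' hT (at_hz hc h1.1).im (intPt_hz hc h1.1))

theorem XO_cl (hT : TAU) (hc : Cd c) (h : Ad c I) : io (XO (cl c I)) = xx (hz c I) := by
  have h1 := rp_spec (cl c I)
  obtain ⟨γ, hγ, e⟩ := hz_cl hc h h1.1 h1.2.symm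
  rw [← Mod.xx_inv γ hγ _ (at_hz hc h).im, ← e]
  exact io_ii hT ((intPt_hz hc h1.1).1.tower_top (A := ℚ)).isAlgebraic

theorem CMA.xx24 (hc : Cd c) (h : Ad c I) : xx (hz c I) ^ 24 = DL (Lc c (I * nI l 3)) *
    DL (Lc c (I * nI l 5)) ^ 5 / (DL (Lc c I) * DL (Lc c (I * nI l 15)) ^ 5) ∧ xx (hz c I) ≠ 0 := by
  obtain ⟨h3, h5, -, e, -⟩ := nI_spec (l := l)
  exact (at_hz hc h).xx24 (Lc_mono (Ideal.mul_mono_right (e.trans_le Ideal.mul_le_left)) dvd_rfl)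
    (Lc_mono Ideal.mul_le_left dvd_rfl) ((Lc_relIndex hc.1 h hc.ad.1).trans h3)
    (Lc_mono (Ideal.mul_mono_right (e.trans_le Ideal.mul_le_right)) dvd_rfl)
    (Lc_mono Ideal.mul_le_left dvd_rfl) ((Lc_relIndex hc.1 h hc.ad.2.1).trans h5)

theorem is_HP (hT : TAU) (hc : Cd c) (a : RC l c) : XO a ≠ 0 ∧ ∃ η, Is (HP a) (4 * XO a) η := by
  obtain ⟨h, e⟩ := rp_spec a
  have h1 := XO_cl hT hc h
  have h2 := HP_cl hT hc h
  rw [e] at h1 h2
  obtain ⟨x, y, -, -, h3, -, h4⟩ := TFR.is_pt hT (at_hz hc h).im (intPt_hz hc h) h2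
  exact ⟨fun h0 => (xx24 hc h).2 (by rw [← h1, h0, map_zero]), _,
    io.injective (h3.trans h1.symm) ▸ h4⟩

theorem JO_cl (hT : TAU) (hJ : JF) (hc : Cd c) (h : Ad c I) :
    io (JO (cl c I)) = JL (Lc c I) ∧ JL (Lc c I) = jf (hz c I) := by
  obtain ⟨h1, e⟩ := rp_spec (cl c I)
  obtain ⟨μ, hμ, e⟩ := (cl_eq_iff_sc h1 h).1 e
  refine ⟨?_, (at_hz hc h).JL hJ⟩
  rw [e, (isL_Lc hc.1 h1.1).JL_sc hJ hμ]
  refine io_ii hT ?_
  have h2 := at_hz hc h1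
  have h3 : ∀ f, KF 0 f → IsAlgebraic ℚ (f (hz c (rp (cl c I)))) := fun f hf => by
    obtain ⟨N, A, hA⟩ := hf.exp
    exact ((R1.InP.top.1 (R1.qp ⊤ hf.hb (by simpa using hf.inv) hA (fun _ => trivial) h2.im
      (intPt_hz hc h1))).tower_top (A := ℚ)).isAlgebraic
  have h4 := (h3 _ hJ.2.2.2).mul ((h3 _ hJ.2.2.1).pow 2).inv
  rwa [mul_comm, inv_mul_cancel_left₀ (pow_ne_zero 2 (hJ.2.1 _ h2.im).2.2), ← h2.JL hJ] at h4

theorem JO_inj (hT : TAU) (hJ : JF) (hI : JINJ) (hc : Cd c) : Function.Injective (JO : RC l c → Om) := by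
  intro a b e
  obtain ⟨h1, e1⟩ := rp_spec a
  obtain ⟨h2, e2⟩ := rp_spec b
  have h3 := (JO_cl hT hJ hc h1).1
  have h4 := (JO_cl hT hJ hc h2).1
  rw [e1] at h3
  rw [e2, ← e, h3] at h4
  rw [← e1, ← e2]
  exact (cl_eq_iff_sc h1 h2).2 ((isL_Lc hc.1 h1.1).exists_sc hJ hI (isL_Lc hc.1 h2.1) h4)

theorem xx_hz (hc : Cd c) (h : Ad c I) : xx (hz c I) ^ 24 = DL (Lc c (I * nI l 3)) *
    DL (Lc c (I * nI l 5)) ^ 5 / (DL (Lc c I) * DL (Lc c (I * nI l 15)) ^ 5) := by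
  exact (xx24 hc h).1

/-- the product of the discriminant quotients over all classes -/
theorem prod_DL (hc : c ≠ 0) (h : Ad c J) : ∃ β : OO l,
    Ideal.span {β} = J ^ Nat.card (RC l c) ∧ ∏ᶠ a : RC l c,
      (nm J : ℂ) ^ 12 * DL (Lc c (J * rp a)) / DL (Lc c (rp a)) = emb l (star β) ^ 12 := by
  have := finite_RC (l := l) hc
  have := Fintype.ofFinite (RC l c)
  have h1 : ∀ x : RC l c, ∃ a b, Oc c a ∧ Oc c b ∧
      Ideal.span {a} * (J * rp x) = Ideal.span {b} * rp (cl c J * x) := fun x =>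
    (cl_eq_iff (h.mul (rp_spec x).1) (rp_spec _).1).1 (by
      rw [cl_mul h (rp_spec x).1, (rp_spec x).2, (rp_spec _).2])
  choose a b ha hb e using h1
  have h2 : ∀ x, DL (Lc c (J * rp x)) * emb l (b x) ^ 12 =
      DL (Lc c (rp (cl c J * x))) * emb l (a x) ^ 12 := fun x => by
    have := congrArg (fun K => DL (Lc c K)) (e x)
    simp only [Lc_span (ha x), Lc_span (hb x)] at this
    rwa [(isL_Lc hc (h.mul (rp_spec x).1).1).DL_sc (emb_ne (ha x).1),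
      (isL_Lc hc (rp_spec _).1.1).DL_sc (emb_ne (hb x).1),
      div_eq_div_iff (pow_ne_zero _ (emb_ne (ha x).1)) (pow_ne_zero _ (emb_ne (hb x).1))] at this
  have h3 := Finset.prod_congr (s₁ := Finset.univ) rfl fun x _ => e x
  have h4 := Finset.prod_congr (s₁ := Finset.univ) rfl fun x _ => h2 x
  simp only [Finset.prod_mul_distrib, Finset.prod_const, Ideal.prod_span_singleton,
    Finset.prod_pow, Finset.card_univ] at h3 h4
  rw [(Group.mulLeft_bijective (cl c J)).prod_comp rp, ← mul_assoc] at h3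
  rw [(Group.mulLeft_bijective (cl c J)).prod_comp fun x => DL (Lc c (rp x))] at h4
  replace h3 := mul_right_cancel₀ (Finset.prod_ne_zero_iff.2 fun x _ => (rp_spec x).1.1) h3
  obtain ⟨β, hβ⟩ := Ideal.mem_span_singleton.1
    ((h3.ge.trans Ideal.mul_le_left) (Ideal.mem_span_singleton_self _))
  have a0 : ∏ x, a x ≠ 0 := Finset.prod_ne_zero_iff.2 fun x _ => (ha x).1
  rw [hβ, ← Ideal.span_singleton_mul_span_singleton, Ideal.span_singleton_mul_right_inj a0] at h3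
  refine ⟨β, by rw [← h3, Nat.card_eq_fintype_card], ?_⟩
  have h5 : emb l β * emb l (star β) = nm J ^ Fintype.card (RC l c) := by
    rw [← emb_mul, BSD15.qbasic_mul_star, ← BSD15.nm_span, ← h3, Int.cast_natCast, emb_nat, nm, nm,
      map_pow, Nat.cast_pow]
  have h6 := congrArg (R1.embH l) hβ
  simp only [map_prod, map_mul, R1.embH_apply] at h6
  rw [h6, mul_pow, ← mul_assoc, mul_right_comm] at h4
  replace h4 := mul_right_cancel₀
    (pow_ne_zero _ (Finset.prod_ne_zero_iff.2 fun x _ => emb_ne (ha x).1)) h4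
  rw [finprod_eq_prod_of_fintype, Finset.prod_div_distrib, Finset.prod_mul_distrib,
    div_eq_iff (Finset.prod_ne_zero_iff.2 fun x _ => (isL_Lc hc (rp_spec x).1.1).DL_ne), ← h4,
    Finset.prod_const, Finset.card_univ, pow_right_comm, ← h5]
  ring

/-- the lattices attached to the fibres of the change of conductor -/
theorem exists_fibre (hc : Cd (c * c')) (h : Ad (c * c') I) : ∃ (N N' : RC l (c * c') → Lt),
    ∀ b, pr (Nat.dvd_mul_right c c') b = cl c I → At (N b) (N' b) (hz (c * c') (rp b)) ∧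
      N b ≤ Lc c I ∧ N' b ≤ Lc c (I * nI l 15) ∧ (N b).relIndex (Lc c I) = c' ∧
      ∃ μ : ℂ, μ ≠ 0 ∧ N b = sc μ (Lc (c * c') (rp b)) := by
  have h0 := Nat.dvd_mul_right c c'
  have h1 : ∀ b : RC l (c * c'), ∃ N N' : Lt, pr h0 b = cl c I →
      At N N' (hz (c * c') (rp b)) ∧ N ≤ Lc c I ∧ N' ≤ Lc c (I * nI l 15) ∧
      N.relIndex (Lc c I) = c' ∧ ∃ μ : ℂ, μ ≠ 0 ∧ N = sc μ (Lc (c * c') (rp b)) := fun b => by
    by_cases e : pr h0 b = cl c I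
    · obtain ⟨h2, e2⟩ := rp_spec b
      rw [← e2, pr_cl h0 h2] at e
      obtain ⟨μ, hμ, h3⟩ := exists_sc (h2.mono h0) (h.mono h0) e
      have h4 := h3 c ⊤ dvd_rfl
      rw [Ideal.mul_top, Ideal.mul_top] at h4
      rw [h3 c _ dvd_rfl, h4]
      exact ⟨_, _, fun _ => ⟨(at_hz hc h2).sc hμ, sc_mono (Lc_mono le_rfl h0),
        sc_mono (Lc_mono le_rfl h0), (sc_relIndex hμ _ _).trans (Lc_relIndex' hc.1 h2), μ, hμ, rfl⟩⟩
    · exact ⟨⊥, ⊥, fun e' => absurd e' e⟩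
  choose N N' h2 using h1
  exact ⟨N, N', h2⟩

end Pool.Agent.P.MP_8b7eba_nt.R2
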