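import Pool.Agent.P.MP_8b7eba_nt.R2.DefsH
import Pool.Agent.P.MP_8b7eba_nt.R2.CMA
import Pool.Agent.P.MP_8b7eba_nt.R1.FormB

/-! Proof of REP2. -/

namespace Pool.Agent.P.MP_8b7eba_nt.R2

open BSD15 (OO nm cj Adm)
open _root_.Pool.Agent.P.MP_8b7eba_nt.Mod (M2 G0 al)
open R1 (QF Hg emb)

namespace TREP2

variable {l : ℕ} [Hl l]

/-- the first coefficient lies in the product with the ideal of norm 15 -/
theorem mem_mul {A B C j r : ℤ} (hD : QF.disc ⟨A * 15, B, C⟩ = -l) (hj : B = 2 * j - 1)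
    (hr : 15 ∣ 1 - j - r) :
    ((A * 15 : ℤ) : OO l) ∈ QF.idl l ⟨A * 15, B, C⟩ * Ideal.span {((15 : ℕ) : OO l), ⟨-r, 1⟩} := by
  have hD' : QF.disc ⟨15, B, A * C⟩ = -l := by
    rw [← hD]
    simp only [QF.disc]
    ring
  have h1 : cj (QF.idl l ⟨15, B, A * C⟩) ≤ Ideal.span {((15 : ℕ) : OO l), ⟨-r, 1⟩} := by
    rw [R1.FormA_cj, R1.FormA_bet (k := j) hj]
    obtain ⟨w, hw⟩ := hr
    refine Ideal.span_le.2 ?_
    rintro _ (rfl | rfl)
    · exact Ideal.mem_span_pair.2 ⟨1, 0, by simp⟩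
    · refine Ideal.mem_span_pair.2 ⟨w, -1, QuadraticAlgebra.ext ?_ ?_⟩ <;>
        simp [-Nat.cast_ofNat]
      linear_combination -hw
  have h2 := Ideal.mul_mono_right (I := QF.idl l ⟨15, B, A * C⟩) h1
  rw [R1.FormA_mul_cj hD'] at h2
  rw [R1.idl_mul hD, mul_assoc, Int.cast_mul]
  exact Ideal.mul_mem_mul (R1.FormA_A_mem ⟨A, B, 15 * C⟩) (h2 (Ideal.mem_span_singleton_self _))

/-- a basis of the lattice of an ideal -/
theorem ob {P : QF} (hD : P.disc = -l) {j : ℤ} (hj : P.B = 2 * j - 1) (m : ℕ) (v : ℤ)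
    (him : 0 < (emb l ⟨-(m * j) - v * P.A, m⟩ / (P.A : ℂ)).im) :
    Ob (Lc m (P.idl l)) (emb l ⟨-(m * j) - v * P.A, m⟩) P.A := by
  refine ⟨him, fun z => mem_Lc.trans ⟨?_, ?_⟩⟩
  · rintro ⟨x, hx, ⟨s, hs⟩, rfl⟩
    obtain ⟨a, b, rfl⟩ := (R1.mem_idl hD).1 hx
    rw [R1.FormA_bet hj] at hs ⊢
    obtain rfl : b = m * s := by simpa using hs
    refine ⟨s, a + v * s, ?_⟩
    simp [emb]
    ring
  · rintro ⟨s, t, rfl⟩
    refine ⟨_, (R1.mem_idl hD).2 ⟨t - v * s, m * s, rfl⟩, ?_, ?_⟩ <;> rw [R1.FormA_bet hj]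
    · simp
    · simp [emb]
      ring

end TREP2

theorem t_REP2 : REP2 := by
  rintro l _ m hS ⟨A, B, C⟩ ⟨⟨hD, ⟨A₁, hA⟩, hB⟩, h0⟩ hc
  dsimp only at hA hB h0 hc
  have hm : Cd m := ⟨hS.adm.1.ne_zero, hS.adm.2.coprime_dvd_right (by norm_num)⟩
  have h2 : IsCoprime (2 : ℤ) m :=
    Nat.isCoprime_iff_coprime.2 (hS.adm.2.coprime_dvd_right (by norm_num : 2 ∣ 30)).symm
  obtain ⟨u, k, hk⟩ := (h2.mul_left h2).mul_left hc
  have hD' : B ^ 2 - 4 * A * C = -(l * m ^ 2) := by simpa [QF.disc] using hD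
  have hP : QF.disc ⟨A, k * B, k ^ 2 * C + l * u * (1 + k * m)⟩ = -l := by
    simp only [QF.disc]
    linear_combination k ^ 2 * hD' - l * (1 + k * m) * hk
  obtain ⟨j, hj⟩ := R1.FormA_odd hP
  have hI : Ad m (QF.idl l ⟨A, k * B, k ^ 2 * C + l * u * (1 + k * m)⟩) :=
    ⟨R1.idl_ne_bot _, by
      rw [R1.nm_idl hP]
      simpa using Int.isCoprime_iff_nat_coprime.1 hc⟩
  have hA0 : (A : ℂ) ≠ 0 := Int.cast_ne_zero.2 h0.ne'
  have hA1 : (A : ℝ) ≠ 0 := Int.cast_ne_zero.2 h0.ne'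
  have hτ : emb l ⟨-(m * j) - 2 * u * B * A, m⟩ / (A : ℂ) = QF.tau ⟨A, B, C⟩ := by
    rw [div_eq_iff hA0]
    have e1 : (2 * m * j : ℝ) = B - 4 * u * A * B + m := by
      have : (2 * m * j : ℤ) = B - 4 * u * A * B + m := by
        dsimp only at hj
        linear_combination -m * hj + B * hk
      exact_mod_cast this
    have e2 : √(-((QF.disc ⟨A, B, C⟩ : ℤ) : ℝ)) = √l * m := by
      rw [hD]
      push_cast
      rw [neg_neg, Real.sqrt_mul (Nat.cast_nonneg l), Real.sqrt_sq (Nat.cast_nonneg m)]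
    refine Complex.ext ?_ ?_
    · simp [emb, QF.tau]
      field_simp
      linear_combination -e1
    · simp only [QF.tau, e2]
      simp [emb]
      field_simp
  have him : 0 < (QF.tau ⟨A, B, C⟩).im := by
    have e1 : (0 : ℝ) < A := Int.cast_pos.2 h0
    have e2 : 0 < l * m ^ 2 := Nat.mul_pos hS.lp.pos (pow_pos (Nat.pos_of_ne_zero hm.1) 2)
    simp only [QF.tau, hD]
    refine div_pos (Real.sqrt_pos.2 ?_) (by positivity)
    push_cast
    rw [neg_neg]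
    exact_mod_cast e2
  have h3 := TREP2.ob hP hj m (2 * u * B) (hτ ▸ him)
  have h4 : (A : OO l) ∈ QF.idl l ⟨A, k * B, k ^ 2 * C + l * u * (1 + k * m)⟩ * nI l 15 := by
    rw [rH] at hB
    rw [nI]
    generalize (Classical.epsilon _ : ℤ) = r at hB ⊢
    obtain rfl : A = A₁ * 15 := hA.trans (mul_comm _ _)
    refine TREP2.mem_mul hP hj ?_
    obtain ⟨w, hw⟩ := hB
    dsimp only at hj
    have : 2 * (1 - j - r) = 2 * (15 * (2 * u * A₁ * (1 - 2 * r) - k * w)) := by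
      linear_combination hj - k * hw - (1 - 2 * r) * hk
    exact ⟨_, mul_left_cancel₀ two_ne_zero this⟩
  have h5 := LtA.diag h3 (Lc_mono Ideal.mul_le_left dvd_rfl)
    (mem_Lc.2 ⟨_, h4, by simp, by simp [emb]⟩) (n := 15) (by norm_num)
    ((Lc_relIndex hm.1 hI hm.ad.2.2).trans nI_spec.2.2.1)
  obtain ⟨g, g1, g2⟩ := (at_hz hm hI).unique ⟨_, _, h3, by exact_mod_cast h5, hτ.symm⟩
  exact ⟨_, hI, g, g1, g2.symm⟩

end Pool.Agent.P.MP_8b7eba_nt.R2
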