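import Pool.Agent.P.MP_8b7eba_nt.R2.DefsG
import Pool.Agent.P.MP_8b7eba_nt.R1.FormB

/-! Proof of REP3. -/

namespace Pool.Agent.P.MP_8b7eba_nt.R2

open scoped ComplexConjugate Real
open _root_.Pool.Agent.P.MP_8b7eba_nt.Mod (M2 G0 FI L0 om lv mT)
open BSD15 (Adm lam Xp Rn)
open R1
open Filter Topology

namespace TREP3

theorem stab' {n : ℤ} {Q : QF} {g : M2} (hn : 7 ≤ n) (hD : Q.disc = -n) (hA : Q.A ≠ 0)
    (hQ : IsCoprime Q.A (Int.gcd Q.B Q.C)) (hg : g.det = 1) (h : Q.cmp g = Q) :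
    g = 1 ∨ g = -1 := by
  have h1 := congrArg QF.A h
  have h2 := congrArg QF.B h
  have h3 := congrArg QF.C h
  simp only [QF.cmp, QF.ev, M2.det, QF.disc] at h1 h2 h3 hg hD
  have e1 : Q.A * (g.d - g.a) = Q.B * g.c := by
    refine mul_left_cancel₀ two_ne_zero ?_
    linear_combination -2 * g.d * h1 + g.c * h2 + (2 * Q.A * g.a + Q.B * g.c) * hg
  have e2 : Q.A * g.b = -Q.C * g.c := by
    refine mul_left_cancel₀ two_ne_zero ?_
    linear_combination g.d * h2 - 2 * g.c * h3 - (2 * Q.A * g.b + Q.B * g.d) * hg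
  have e3 : n * g.c ^ 2 = Q.A ^ 2 * (4 - (g.a + g.d) ^ 2) := by
    linear_combination g.c ^ 2 * hD + (Q.A * (g.d - g.a) + Q.B * g.c) * e1 +
      4 * Q.A * g.c * e2 + 4 * Q.A ^ 2 * hg
  obtain ⟨w, hw'⟩ : Q.A ∣ g.c := by
    refine hQ.dvd_of_dvd_mul_left ⟨(g.d - g.a) * Int.gcdA Q.B Q.C - g.b * Int.gcdB Q.B Q.C, ?_⟩
    rw [Int.gcd_eq_gcd_ab]
    linear_combination -Int.gcdA Q.B Q.C * e1 + Int.gcdB Q.B Q.C * e2
  have e4 : n * w ^ 2 = 4 - (g.a + g.d) ^ 2 :=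
    mul_left_cancel₀ (pow_ne_zero 2 hA) (by rw [← e3, hw']; ring)
  have hw0 : w = 0 := by
    by_contra h0
    have h5 : 0 < w ^ 2 := sq_pos_of_ne_zero h0
    nlinarith [sq_nonneg (g.a + g.d)]
  have hc : g.c = 0 := by rw [hw', hw0, mul_zero]
  have hb : g.b = 0 := (mul_eq_zero.1 (by rw [e2, hc, mul_zero])).resolve_left hA
  rw [hc, mul_zero, sub_zero] at hg
  rcases Int.eq_one_or_neg_one_of_mul_eq_one' hg with ⟨ha, hd⟩ | ⟨ha, hd⟩
  · left; ext <;> simp [*]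
  · right; ext <;> simp [*]

end TREP3

theorem t_REP3 : REP3 := by
  classical
  refine ⟨fun N ρ P Q g hN hP hQ hg => ?_, fun l m ρ Q hS hQ hw => ?_⟩
  · have hQd : Q.disc < 0 := by rw [hQ.1.1]; omega
    have hPd : P.disc < 0 := by rw [hP.1.1]; omega
    have h1 := QF.act_tau hQ.2 hQd hg.det_pos
    refine ⟨fun h => ?_, fun h => h ▸ h1⟩
    have h2 : 0 < (Q.cmp g).A := QF.cmp_A_pos hQ.2 hQd hg.det_pos.ne'
    have h3 : (Q.cmp g).disc = P.disc := by rw [QF.disc_cmp, hg.1, hQ.1.1, hP.1.1]; ring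
    have h4 : ∀ z : ℂ, 0 < z.im → g.adj.act (g.act z) = z := fun z hz => by
      rw [← M2.act_mul hg.adj.det_pos.ne' hg.det_pos hz, M2.adj_mul_self hg.1, M2.act_one]
    refine FormB_eq_of_tau h2 hP.2 h3 hPd ?_
    rw [← h4 _ (QF.tau_im_pos h2 (h3 ▸ hPd)), h1, ← h, h4 _ (QF.tau_im_pos hP.2 hPd)]
  · have hm : m ≠ 0 := hS.adm.1.ne_zero
    have hD : Q.disc = -((l * m ^ 2 : ℕ) : ℤ) := hQ.1.1
    have h1 : ∀ p : ℕ, p.Prime → p ∣ m → (p : ℤ) ∣ Q.A → ¬ (p : ℤ) ∣ Q.C := by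
      intro p hp h2 h3 h4
      haveI : NeZero p := ⟨hp.ne_zero⟩
      refine hw ?_
      rw [uw, wf, if_pos hQ.1]
      refine Finset.prod_eq_zero (Nat.mem_primeFactors.2 ⟨hp, h2, hm⟩) ?_
      rw [QF.chip, if_pos h3, jacobiSym.eq_zero_iff_not_coprime, Int.gcd_eq_natAbs_right h4]
      exact hp.ne_one
    refine ⟨fun g hg h => TREP3.stab' ?_ hD hQ.2.ne' ?_ hg h, ?_⟩
    · have h2 := hS.l8
      have h3 : 1 ≤ m ^ 2 := Nat.one_le_pow _ _ (Nat.pos_of_ne_zero hm)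
      have h4 : 7 * 1 ≤ l * m ^ 2 := Nat.mul_le_mul (by omega) h3
      exact_mod_cast h4
    · refine Int.isCoprime_iff_gcd_eq_one.2 (Nat.coprime_of_dvd fun p hp h2 h3 => ?_)
      have h4 : (p : ℤ) ∣ Q.A := Int.natCast_dvd.2 h2
      have h5 : (p : ℤ) ∣ (Int.gcd Q.B Q.C : ℤ) := Int.natCast_dvd.2 h3
      have h6 := h5.trans (Int.gcd_dvd_left _ _)
      have h7 := h5.trans (Int.gcd_dvd_right _ _)
      refine h1 p hp ?_ h4 h7
      by_contra h8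
      have h9 : ((p ^ 2 : ℕ) : ℤ) ∣ ((l * m ^ 2 : ℕ) : ℤ) := by
        rw [← dvd_neg, ← hD, QF.disc, Nat.cast_pow, mul_assoc]
        exact dvd_sub (pow_dvd_pow_of_dvd h6 2) ((sq (p : ℤ) ▸ mul_dvd_mul h4 h7).mul_left _)
      have h10 : p ^ 2 ∣ l := (Nat.Coprime.pow 2 2 ((Nat.Prime.coprime_iff_not_dvd hp).2 h8)
        ).dvd_of_dvd_mul_right (Int.natCast_dvd_natCast.1 h9)
      exact hp.not_isUnit (hS.lp.prime.squarefree p (sq p ▸ h10))
    · set T := m.primeFactors.filter fun q : ℕ => ¬ (q : ℤ) ∣ Q.A with hT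
      set c : ℤ := 15 * ∏ q ∈ T, (q : ℤ) with hc
      refine ⟨⟨1, 0, c, 1⟩, ⟨by simp [M2.det], dvd_mul_right _ _⟩, ?_⟩
      refine Int.isCoprime_iff_gcd_eq_one.2 (Nat.coprime_of_dvd fun p hp h2 h3 => ?_)
      have h4 : (p : ℤ) ∣ Q.A * 1 ^ 2 + Q.B * 1 * c + Q.C * c ^ 2 := Int.natCast_dvd.2 h2
      have hp' := Nat.prime_iff_prime_int.1 hp
      have h3' : p ∣ m := by simpa using h3
      by_cases hA : (p : ℤ) ∣ Q.A
      · have hB : (p : ℤ) ∣ Q.B := by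
          refine hp'.dvd_of_dvd_pow (n := 2) ?_
          have e : Q.B ^ 2 = Q.A * (4 * Q.C) - m * (l * m) := by
            rw [QF.disc] at hD
            push_cast at hD
            linear_combination hD
          rw [e]
          exact dvd_sub (hA.mul_right _) ((Int.natCast_dvd_natCast.2 h3').mul_right _)
        have h5 : (p : ℤ) ∣ Q.C * c ^ 2 :=
          (dvd_add_right (dvd_add (hA.mul_right _) ((hB.mul_right _).mul_right _))).1 h4
        have h6 := hp'.dvd_of_dvd_pow ((hp'.dvd_or_dvd h5).resolve_left (h1 p hp h3' hA))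
        rcases hp'.dvd_or_dvd h6 with h7 | h7
        · have h8 : p ∣ 30 := (Int.natCast_dvd_natCast.1 (show (p : ℤ) ∣ (15 : ℕ) from h7)).trans
            (by norm_num)
          exact hp.ne_one (Nat.eq_one_of_dvd_coprimes hS.adm.2 h3' h8)
        · obtain ⟨q, hq, h8⟩ := (Prime.dvd_finsetProd_iff hp' _).1 h7
          obtain ⟨h9, h10⟩ := Finset.mem_filter.1 hq
          rw [← (Nat.prime_dvd_prime_iff_eq hp (Nat.prime_of_mem_primeFactors h9)).1
            (Int.natCast_dvd_natCast.1 h8)] at h10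
          exact h10 hA
      · have h5 : (p : ℤ) ∣ c := (Finset.dvd_prod_of_mem (fun q : ℕ => (q : ℤ))
          (Finset.mem_filter.2 ⟨Nat.mem_primeFactors.2 ⟨hp, h3', hm⟩, hA⟩)).mul_left _
        refine hA ?_
        have := dvd_sub h4 (h5.mul_right (Q.B + Q.C * c))
        rwa [show Q.A * 1 ^ 2 + Q.B * 1 * c + Q.C * c ^ 2 - c * (Q.B + Q.C * c) = Q.A by ring]
          at this

end Pool.Agent.P.MP_8b7eba_nt.R2
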