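import Pool.Agent.P.MP_8b7eba_nt.R2.DefsB

/-! Chain rings. -/

namespace Pool.Agent.P.MP_8b7eba_nt.R2

open scoped NNReal Matrix
open Filter Topology

variable {A : Type} [NormedCommRing A] [NormedAlgebra ℚ_[2] A] [FiniteDimensional ℚ_[2] A]

/-! ### Chain rings -/

theorem Chain.exists_pow {π : A} {j e : ℕ} (h : Chain π j e) (a : A) :
    ∃ i ≤ j, ∃ u : Aˣ, a = u * π ^ i := by
  have key : ∀ n, (∃ i < n, ∃ u : Aˣ, a = u * π ^ i) ∨ π ^ n ∣ a := fun n => by
    induction n with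
    | zero => exact .inr (by rw [pow_zero]; exact one_dvd a)
    | succ n ih =>
      rcases ih with ⟨i, hi, hu⟩ | ⟨b, rfl⟩
      · exact .inl ⟨i, by omega, hu⟩
      · rcases h.loc b with ⟨u, rfl⟩ | ⟨c, rfl⟩
        · exact .inl ⟨n, by omega, u, mul_comm _ _⟩
        · exact .inr ⟨c, by ring⟩
  rcases key j with ⟨i, hi, hu⟩ | ⟨b, rfl⟩
  · exact ⟨i, hi.le, hu⟩
  · exact ⟨j, le_rfl, 1, by rw [h.nil, zero_mul, mul_zero]⟩

theorem Chain.pow_eq_zero {π : A} {j e : ℕ} (h : Chain π j e) {i : ℕ} : π ^ i = 0 ↔ j ≤ i := by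
  refine ⟨fun h0 => not_lt.1 fun hi => ?_, fun hi => pow_eq_zero_of_le hi h.nil⟩
  have h1 := h.rk i hi.le
  have : Subsingleton (Ideal.span {π ^ i} : Ideal A) := by
    rw [h0, Ideal.span_singleton_zero]; infer_instance
  rw [Module.finrank_zero_of_subsingleton] at h1
  exact (Nat.mul_pos h.pos (Nat.sub_pos_of_lt hi)).ne h1

theorem Chain.ann {π : A} {j e : ℕ} (h : Chain π j e) {i : ℕ} (hi : i ≤ j) {a : A} :
    π ^ i * a = 0 ↔ π ^ (j - i) ∣ a := by
  constructor
  · intro h0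
    obtain ⟨m, -, u, rfl⟩ := h.exists_pow a
    rw [mul_left_comm, Units.mul_right_eq_zero, ← pow_add, h.pow_eq_zero] at h0
    exact (pow_dvd_pow π (by omega)).mul_left _
  · rintro ⟨b, rfl⟩
    rw [← mul_assoc, ← pow_add, Nat.add_sub_cancel' hi, h.nil, zero_mul]

theorem Chain.finrank {π : A} {j e : ℕ} (h : Chain π j e) : Module.finrank ℚ_[2] A = e * j := by
  have h1 := h.rk 0 (Nat.zero_le j)
  rw [pow_zero, Ideal.span_singleton_one, Nat.sub_zero] at h1
  rw [← h1]
  exact ((Submodule.topEquiv (R := A) (M := A)).restrictScalars ℚ_[2]).finrank_eq.symm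

theorem Chain.exists_form {π : A} {j e : ℕ} (h : Chain π j e) :
    ∃ t : A →ₗ[ℚ_[2]] ℚ_[2], ∀ a, (∀ b, t (a * b) = 0) → a = 0 := by
  rcases j with _ | j
  · exact ⟨0, fun a _ => by rw [← mul_one a, ← pow_zero π, h.nil, mul_zero]⟩
  obtain ⟨t, ht⟩ := Module.Projective.exists_dual_ne_zero ℚ_[2]
    (x := π ^ j) (fun h0 => by have := h.pow_eq_zero.1 h0; omega)
  refine ⟨t, fun a ha => ?_⟩
  obtain ⟨m, hm, u, rfl⟩ := h.exists_pow a
  rcases hm.eq_or_lt with rfl | hm
  · rw [h.nil, mul_zero]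
  · refine (ht ?_).elim
    have := ha (↑u⁻¹ * π ^ (j - m))
    rwa [mul_mul_mul_comm, Units.mul_inv, one_mul, ← pow_add,
      Nat.add_sub_cancel' (by omega)] at this

/-- the dimension of a cyclic module -/
theorem Chain.finrank_span {π : A} {j e : ℕ} (h : Chain π j e) {X : Type} [AddCommGroup X]
    [Module A X] [Module ℚ_[2] X] [IsScalarTower ℚ_[2] A X] (κ : X) :
    FiniteDimensional ℚ_[2] (Submodule.span A {κ}) ∧ ∃ i ≤ j, π ^ i • κ = 0 ∧
      (∀ i' < i, π ^ i' • κ ≠ 0) ∧ Module.finrank ℚ_[2] (Submodule.span A {κ}) = e * i := by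
  classical
  have ex : ∃ i, π ^ i • κ = 0 := ⟨j, by rw [h.nil, zero_smul]⟩
  have hi : Nat.find ex ≤ j := Nat.find_min' ex (by rw [h.nil, zero_smul])
  let f : A →ₗ[ℚ_[2]] X := (LinearMap.toSpanSingleton A X κ).restrictScalars ℚ_[2]
  have hr : LinearMap.range f = (Submodule.span A {κ}).restrictScalars ℚ_[2] := by
    ext x
    exact Submodule.mem_span_singleton.symm
  have hk : LinearMap.ker f = (Ideal.span {π ^ Nat.find ex}).restrictScalars ℚ_[2] := by
    ext a
    refine Iff.trans ?_ Ideal.mem_span_singleton.symm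
    change a • κ = 0 ↔ _
    constructor
    · intro h0
      obtain ⟨m, -, u, rfl⟩ := h.exists_pow a
      rw [mul_smul, ← Units.smul_def, smul_eq_zero_iff_eq] at h0
      exact (pow_dvd_pow π (Nat.find_min' ex h0)).mul_left _
    · rintro ⟨b, rfl⟩
      rw [mul_comm, mul_smul, Nat.find_spec ex, smul_zero]
  have h1 := f.finrank_range_add_finrank_ker
  have h2 : FiniteDimensional ℚ_[2] (LinearMap.range f) := inferInstance
  rw [hr] at h2
  rw [hr, hk, h.finrank] at h1
  refine ⟨h2, _, hi, Nat.find_spec ex, fun i' => Nat.find_min ex, ?_⟩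
  have h3 : Module.finrank ℚ_[2] (Submodule.span A {κ}) + e * (j - Nat.find ex) = e * j := by
    rw [← h.rk _ hi]; exact h1
  rw [Nat.mul_sub] at h3
  have := Nat.mul_le_mul_left e hi
  omega

/-- a module whose socle is small is small -/
theorem Chain.finrank_le {π : A} {j e : ℕ} (h : Chain π j e) {X : Type} [AddCommGroup X]
    [Module A X] [Module ℚ_[2] X] [IsScalarTower ℚ_[2] A X] (M : Submodule A X)
    [FiniteDimensional ℚ_[2] M] {i s : ℕ} (hi : ∀ x ∈ M, π ^ i • x = 0)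
    (hs : ∀ N ≤ M, (∀ x ∈ N, π • x = 0) → Module.finrank ℚ_[2] N ≤ s) :
    Module.finrank ℚ_[2] M ≤ i * s := by
  induction i generalizing M with
  | zero =>
    have : Subsingleton M := ⟨fun a b => Subtype.ext (by
      have ha := hi a a.2
      have hb := hi b b.2
      rw [pow_zero, one_smul] at ha hb
      rw [ha, hb])⟩
    rw [Module.finrank_zero_of_subsingleton, zero_mul]
  | succ i ih =>
    let g : X →ₗ[A] X := LinearMap.lsmul A X π
    let f : M →ₗ[ℚ_[2]] X := (g ∘ₗ M.subtype).restrictScalars ℚ_[2]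
    have hr : LinearMap.range f = (M.map g).restrictScalars ℚ_[2] := by
      ext x
      exact ⟨fun ⟨y, hy⟩ => ⟨y, y.2, hy⟩, fun ⟨y, hy, e⟩ => ⟨⟨y, hy⟩, e⟩⟩
    have h1 := f.finrank_range_add_finrank_ker
    have h2 : FiniteDimensional ℚ_[2] (LinearMap.range f) := inferInstance
    rw [hr] at h1 h2
    have hle : M.map g ≤ M := by rintro _ ⟨y, hy, rfl⟩; exact M.smul_mem π hy
    have h3 := @ih (M.map g) h2 (by
      rintro _ ⟨y, hy, rfl⟩
      rw [← hi y hy, pow_succ, mul_smul]; rfl) fun N hN => hs N (hN.trans hle)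
    have h4 := hs (M ⊓ LinearMap.ker g) inf_le_left fun x hx => hx.2
    have h5 : Module.finrank ℚ_[2] (LinearMap.ker f) =
        Module.finrank ℚ_[2] (M ⊓ LinearMap.ker g : Submodule A X) := by
      refine (Submodule.finrank_map_subtype_eq (M.restrictScalars ℚ_[2])
        (LinearMap.ker f)).symm.trans ?_
      have : Submodule.map (M.restrictScalars ℚ_[2]).subtype (LinearMap.ker f) =
          (M ⊓ LinearMap.ker g).restrictScalars ℚ_[2] := by
        ext x
        exact ⟨fun ⟨y, hy, e⟩ => e ▸ ⟨y.2, hy⟩, fun hx => ⟨⟨x, hx.1⟩, hx.2, rfl⟩⟩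
      exact congrArg (fun S : Submodule ℚ_[2] X => Module.finrank ℚ_[2] S) this
    have h6 : Module.finrank ℚ_[2] (M.map g) + Module.finrank ℚ_[2] (LinearMap.ker f) =
      Module.finrank ℚ_[2] M := h1
    rw [Nat.succ_mul]
    omega

end Pool.Agent.P.MP_8b7eba_nt.R2
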