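import Pool.Agent.P.MP_8b7eba_nt.R2.IfA
import Pool.Agent.P.MP_8b7eba_nt.R2.Nrm

/-! Proof of ART. -/

namespace Pool.Agent.P.MP_8b7eba_nt.R2

open scoped NNReal ComplexConjugate

namespace TART

variable {w : Pl} {x y : Om} {A A' : Om → ℤ_[2]ˣ}

theorem dvd_iff {n : ℕ} {a b : ℤ_[2]} :
    PadicInt.toZModPow n a = PadicInt.toZModPow n b ↔ 2 ^ n ∣ a - b := by
  rw [← sub_eq_zero, ← map_sub, ← RingHom.mem_ker, PadicInt.ker_toZModPow,
    Ideal.mem_span_singleton]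
  rfl

theorem eq_of_dvd {a b : ℤ_[2]} (h : ∀ n, 0 < n → 2 ^ n ∣ a - b) : a = b :=
  PadicInt.ext_of_toZModPow.1 fun n =>
    dvd_iff.2 ((pow_dvd_pow 2 n.le_succ).trans (h _ n.succ_pos))

theorem approx (hRES : RES) (hp : w.p = 2) (hx : Fix w.D x) (h1 : w.v x ≤ 1) (n : ℕ) :
    ∃ m : ℤ, w.v (x - m) ≤ (2 ^ n)⁻¹ := by
  obtain ⟨m, hm⟩ := (hRES w w.D w.loc_D).2.2.2.2.2 x hx h1 n
  exact ⟨m, by simpa [hp] using hm⟩

theorem dvd_of_approx (hp : w.p = 2) {m m' : ℤ} {n : ℕ} (h : w.v (x - m) ≤ (2 ^ n)⁻¹)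
    (h' : w.v (x - m') ≤ (2 ^ n)⁻¹) : 2 ^ n ∣ m' - m := by
  have := (Pl.v_int_le_iff (w := w) (n := m' - m) (k := n)).1 (by
    rw [hp, Int.cast_sub, ← sub_sub_sub_cancel_left _ _ x]
    exact (w.v.map_sub _ _).trans (max_le h h'))
  simpa [hp] using this

theorem exists_rel (hRES : RES) (hp : w.p = 2) (x : Om) : ∃ a : ℤ_[2], Fix w.D x → w.v x ≤ 1 →
    ∀ (m : ℤ) (n : ℕ), w.v (x - m) ≤ (2 ^ n)⁻¹ → 2 ^ n ∣ a - m := by
  by_cases h : Fix w.D x ∧ w.v x ≤ 1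
  swap
  · exact ⟨0, fun h1 h2 => absurd ⟨h1, h2⟩ h⟩
  choose f hf using approx hRES hp h.1 h.2
  have hi : ∀ i, ((2 : ℕ) : ℤ) ^ i ∣ f (i + 1) - f i := fun i =>
    dvd_of_approx hp (hf i) ((hf (i + 1)).trans
      (inv_anti₀ (by positivity) (pow_le_pow_right₀ one_le_two i.le_succ)))
  refine ⟨PadicInt.ofIntSeq _ (PadicInt.isCauSeq_padicNorm_of_pow_dvd_sub f 2 hi),
    fun _ _ m n hm => ?_⟩
  rw [← sub_add_sub_cancel _ (f n : ℤ_[2])]
  refine dvd_add (dvd_iff.1 ?_) ?_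
  · rw [PadicInt.toZModPow_ofIntSeq_of_pow_dvd_sub f 2 hi, map_intCast]
  · exact_mod_cast Int.cast_dvd_cast (α := ℤ_[2]) _ _ (dvd_of_approx hp hm (hf n))

theorem v_odd (hp : w.p = 2) {m : ℤ} : w.v m = 1 ↔ Odd m := by
  rw [Pl.v_int_eq_one, hp, ← Int.not_even_iff_odd, even_iff_two_dvd]; rfl

theorem v_near {n : ℕ} (h : w.v (x - y) ≤ (2 ^ n)⁻¹) (hn : 0 < n) (h1 : w.v y = 1) :
    w.v x = 1 := by
  rw [← sub_add_cancel x y, w.v.map_add_eq_of_lt_right, h1]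
  exact h1 ▸ h.trans_lt (inv_lt_one_of_one_lt₀ (one_lt_pow₀ one_lt_two hn.ne'))

theorem ex (hRES : RES) (w : Pl) : ∃ A, IsArt w A := by
  have hu := (hRES w w.D w.loc_D).2.2.2.1
  have h0 : w.v w.p ≠ 0 := w.v.ne_zero_iff.2 hu.2.1
  have h1 : ∀ x, ∃ k : ℤ, Fix w.D x → x ≠ 0 → w.v x = w.v w.p ^ k := fun x => by
    by_cases h : Fix w.D x ∧ x ≠ 0
    · exact (hu.2.2.2 x h.1 h.2).imp fun _ e _ _ => e
    · exact ⟨0, fun h1 h2 => absurd ⟨h1, h2⟩ h⟩
  choose k hk using h1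
  have k1 : ∀ x y, Fix w.D x → Fix w.D y → x ≠ 0 → y ≠ 0 → k (x * y) = k x + k y :=
    fun x y hx hy x0 y0 => hu.zpow_inj (by
      rw [← hk _ (hx.mul hy) (mul_ne_zero x0 y0), zpow_add₀ h0, ← hk x hx x0, ← hk y hy y0, map_mul])
  have k2 : k w.p = 1 := hu.zpow_inj (by rw [← hk _ hu.1 hu.2.1, zpow_one])
  have k3 : ∀ x, Fix w.D x → w.v x = 1 → k x = 0 := fun x hx e => hu.zpow_inj (by
    rw [← hk x hx (w.v.ne_zero_iff.1 (e ▸ one_ne_zero)), zpow_zero, e])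
  by_cases hp : w.p = 2
  swap
  · have h2 : IsUnit (w.p : ℤ_[2]) := PadicInt.isUnit_iff.2 (PadicInt.norm_natCast_eq_one_iff.2
      ((Nat.coprime_primes Nat.prime_two w.prime).2 (Ne.symm hp)))
    exact ⟨fun x => h2.unit ^ k x, fun x y hx hy x0 y0 => by rw [k1 x y hx hy x0 y0, zpow_add],
      fun _ => ⟨by rw [k2, zpow_one]; rfl, fun x hx e => by rw [k3 x hx e, zpow_zero]⟩,
      fun h => absurd h hp⟩
  choose a ha using exists_rel hRES hp
  have a1 : a 1 = 1 := eq_of_dvd fun n _ => by simpa using ha 1 fix_one (by simp) 1 n (by simp)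
  have a2 : ∀ x y, Fix w.D x → Fix w.D y → w.v x = 1 → w.v y = 1 → a (x * y) = a x * a y := by
    refine fun x y hx hy vx vy => eq_of_dvd fun n _ => ?_
    obtain ⟨m, hm⟩ := approx hRES hp hx vx.le n
    obtain ⟨m', hm'⟩ := approx hRES hp hy vy.le n
    have e := ha _ (hx.mul hy) (by rw [map_mul, vx, vy, one_mul]) (m * m') n (by
      rw [Int.cast_mul, show x * y - m * m' = x * (y - m') + (x - m) * m' by ring]
      refine w.v.map_add_le (by rwa [map_mul, vx, one_mul]) ?_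
      rw [map_mul]
      exact (mul_le_of_le_one_right zero_le (w.v_int_le m')).trans hm)
    have := (e.sub ((ha y hy vy.le m' n hm').mul_left (a x))).sub
      ((ha x hx vx.le m n hm).mul_right m')
    rwa [Int.cast_mul, show a (x * y) - m * m' - a x * (a y - m') - (a x - m) * m' =
      a (x * y) - a x * a y by ring] at this
  have u1 : ∀ x, Fix w.D x → Fix w.D (x / w.p ^ k x) := fun x hx => hx.div (hu.1.zpow _)
  have u2 : ∀ x, Fix w.D x → x ≠ 0 → w.v (x / w.p ^ k x) = 1 := fun x hx x0 => by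
    rw [map_div₀, map_zpow₀, ← hk x hx x0, div_self (w.v.ne_zero_iff.2 x0)]
  have h2 : ∀ x, ∃ A : ℤ_[2]ˣ, Fix w.D x → x ≠ 0 → A * a (x / w.p ^ k x) = 1 := fun x => by
    by_cases h : Fix w.D x ∧ x ≠ 0
    · have h3 := u2 x h.1 h.2
      have h4 := a2 _ _ (u1 x h.1).inv (u1 x h.1) (by rw [map_inv₀, h3, inv_one]) h3
      rw [inv_mul_cancel₀ (w.v.ne_zero_iff.1 (h3 ▸ one_ne_zero)), a1] at h4
      exact ⟨Units.mkOfMulEqOne _ _ h4.symm, fun _ _ => h4.symm⟩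
    · exact ⟨1, fun h1 h2 => absurd ⟨h1, h2⟩ h⟩
  choose A hA using h2
  refine ⟨A, fun x y hx hy x0 y0 => Units.ext ?_, fun h => absurd hp h, fun _ => ⟨Units.ext ?_,
    fun x hx m n hm h hn => ?_⟩⟩
  · have e := hA _ (hx.mul hy) (mul_ne_zero x0 y0)
    rw [k1 x y hx hy x0 y0, zpow_add₀ hu.2.1, ← div_mul_div_comm,
      a2 _ _ (u1 x hx) (u1 y hy) (u2 x hx x0) (u2 y hy y0)] at e
    rw [Units.val_mul]
    linear_combination (A x * A y : ℤ_[2]) * e - (A (x * y) * A y * a (y / w.p ^ k y) : ℤ_[2]) *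
      hA x hx x0 - (A (x * y) : ℤ_[2]) * hA y hy y0
  · have e := hA _ hu.1 hu.2.1
    rw [k2, zpow_one, div_self hu.2.1, a1, mul_one, hp] at e
    exact e
  · have h3 := v_near h hn ((v_odd hp).2 hm)
    have e := hA x hx (w.v.ne_zero_iff.1 (h3 ▸ one_ne_zero))
    rw [k3 x hx h3, zpow_zero, div_one] at e
    rw [show m * (A x : ℤ_[2]) - 1 = (a x - m) * -A x by linear_combination e]
    exact (ha x hx h3.le m n h).mul_right _

theorem uniq (hRES : RES) (h : IsArt w A) (h' : IsArt w A') (hx : Fix w.D x) (x0 : x ≠ 0) :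
    A x = A' x := by
  have hu := (hRES w w.D w.loc_D).2.2.2.1
  have h0 : w.v w.p ≠ 0 := w.v.ne_zero_iff.2 hu.2.1
  have h1 : A w.p = A' w.p := by
    by_cases hp : w.p = 2
    · rw [hp]; exact (h.two hp).1.trans (h'.two hp).1.symm
    · exact Units.ext ((h.odd hp).1.trans (h'.odd hp).1.symm)
  obtain ⟨k, hk⟩ := hu.2.2.2 x hx x0
  induction k using Int.induction_on generalizing x with
  | zero =>
    rw [zpow_zero] at hk
    by_cases hp : w.p = 2
    · refine Units.ext (eq_of_dvd fun n hn => ?_)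
      obtain ⟨m, hm⟩ := approx hRES hp hx hk.le n
      have h2 := (v_odd hp).1 (v_near (w.v.map_sub_swap _ _ ▸ hm) hn hk)
      have := (((h.two hp).2 x hx m n h2 hm hn).mul_right (A' x)).sub
        (((h'.two hp).2 x hx m n h2 hm hn).mul_right (A x))
      rwa [show (m * (A x : ℤ_[2]) - 1) * A' x - (m * A' x - 1) * A x = A x - A' x by ring] at this
    · exact ((h.odd hp).2 x hx hk).trans ((h'.odd hp).2 x hx hk).symm
  | succ k ih =>
    have h2 := hx.div hu.1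
    have h3 := div_ne_zero x0 hu.2.1
    rw [← div_mul_cancel₀ x hu.2.1, h.mul _ _ h2 hu.1 h3 hu.2.1, h'.mul _ _ h2 hu.1 h3 hu.2.1, h1,
      ih h2 h3 (by rw [map_div₀, hk, zpow_add_one₀ h0, mul_div_cancel_right₀ _ h0])]
  | pred k ih =>
    have := ih (hx.mul hu.1) (mul_ne_zero x0 hu.2.1)
      (by rw [map_mul, hk, zpow_sub_one₀ h0, inv_mul_cancel_right₀ h0])
    rw [h.mul _ _ hx hu.1 x0 hu.2.1, h'.mul _ _ hx hu.1 x0 hu.2.1, h1] at this
    exact mul_right_cancel this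

theorem fix (σ : GQ) (hx : Fix w.D x) : Fix (σ • w).D (σ x) :=
  (BasicP.fix (U := ⊤) trivial (hx.mono inf_le_left)).mono (le_inf le_rfl le_top)

theorem cj {σ : GQ} (h : IsArt (σ • w) A) : IsArt w fun x => A (σ x) where
  mul x y hx hy x0 y0 := by
    rw [map_mul, h.mul _ _ (fix σ hx) (fix σ hy) ((map_ne_zero σ).2 x0) ((map_ne_zero σ).2 y0)]
  odd hp := ⟨by rw [map_natCast]; exact (h.odd hp).1, fun x hx e =>
    (h.odd hp).2 _ (fix σ hx) ((Pl.smul_v_apply σ w x).trans e)⟩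
  two hp := ⟨by rw [map_ofNat]; exact (h.two hp).1, fun x hx m n hm e =>
    (h.two hp).2 _ (fix σ hx) m n hm (by rwa [← map_intCast σ, ← map_sub, Pl.smul_v_apply])⟩

theorem two_int (h : IsArt w A) (hp : w.p = 2) {m : ℤ} (hm : Odd m) : m * (A m : ℤ_[2]) = 1 :=
  eq_of_dvd fun n hn => (h.two hp).2 _ (fix_int m) m n hm (by simp) hn

theorem odd_int (h : IsArt w A) (hp : w.p ≠ 2) {m : ℤ} (hm : ¬ (w.p : ℤ) ∣ m) : A m = 1 :=
  (h.odd hp).2 _ (fix_int m) (Pl.v_int_eq_one.2 hm)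

end TART

theorem t_ART (hPL : PL) (hRES : RES) : ART := by
  have hA : ∀ w, IsArt w (art w) := fun w => Classical.epsilon_spec (TART.ex hRES w)
  refine ⟨hA, fun w σ x hx x0 => TART.uniq hRES (TART.cj (hA _)) (hA w) hx x0, fun w n => ?_,
    fun q R q0 hR ⟨w₂, h2, p2⟩ hq => ?_⟩
  · by_cases hp : w.p = 2
    · refine ⟨(2 ^ (n + 1))⁻¹, by positivity, fun x hx h => (pow_dvd_pow 2 n.le_succ).trans ?_⟩
      simpa using ((hA w).two hp).2 x hx 1 (n + 1) odd_one (by simpa using h.le) n.succ_pos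
    · refine ⟨1, one_pos, fun x hx h => ?_⟩
      rw [((hA w).odd hp).2 x hx (by
        rw [← sub_add_cancel x 1, w.v.map_add_eq_of_lt_right (by simpa using h), map_one])]
      simp
  have inj : ∀ w ∈ R, ∀ w' ∈ R, w.p = w'.p → w = w' := fun w h w' h' e => by
    obtain ⟨σ, rfl⟩ := hPL.2.1 w w' e
    exact (hR w h σ trivial h').symm
  have mul : ∀ a b : ℚ, a ≠ 0 → b ≠ 0 →
      ∏ w ∈ R, art w (a * b : ℚ) = (∏ w ∈ R, art w a) * ∏ w ∈ R, art w b := fun a b a0 b0 => by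
    rw [← Finset.prod_mul_distrib, Rat.cast_mul]
    exact Finset.prod_congr rfl fun w _ => (hA w).mul _ _ (fix_rat a) (fix_rat b)
      (Rat.cast_ne_zero.2 a0) (Rat.cast_ne_zero.2 b0)
  have hpr : ∀ w₀ ∈ R, ∏ w ∈ R, art w w₀.p = 1 := by
    intro w₀ h0
    have o : ∀ w ∈ R, w ≠ w₂ ∧ w ≠ w₀ → art w w₀.p = 1 := fun w h e =>
      TART.odd_int (m := w₀.p) (hA w) (fun e' => e.1 (inj w h w₂ h2 (e'.trans p2.symm))) fun e' =>
        e.2 (inj w h w₀ h0 ((Nat.prime_dvd_prime_iff_eq w.prime w₀.prime).1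
          (Int.natCast_dvd_natCast.1 e')))
    by_cases e : w₂ = w₀
    · subst e
      rw [Finset.prod_eq_single_of_mem w₂ h2 fun w h e => o w h ⟨e, e⟩, p2]
      exact ((hA w₂).two p2).1
    · have p0 : w₀.p ≠ 2 := fun e' => e (inj w₂ h2 w₀ h0 (p2.trans e'.symm))
      rw [Finset.prod_eq_mul_of_mem w₂ w₀ h2 h0 e o]
      refine Units.ext ?_
      rw [Units.val_mul, ((hA w₀).odd p0).1, mul_comm]
      exact TART.two_int (m := w₀.p) (hA w₂) p2 (w₀.prime.odd_of_ne_two p0).natCast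
  have nat : ∀ n : ℕ, n ≠ 0 → (∀ w, Out ⊤ R w → w.v n = 1) → ∏ w ∈ R, art w (n : ℚ) = 1 := by
    intro n
    induction n using induction_on_primes with
    | zero => exact fun h => absurd rfl h
    | one => exact fun _ _ => by simpa using (mul 1 1 one_ne_zero one_ne_zero).symm
    | prime_mul p a hp ih =>
      intro h0 h
      have a0 : a ≠ 0 := right_ne_zero_of_mul h0
      have h1 : ∀ w, Out ⊤ R w → w.v p = 1 ∧ w.v a = 1 := fun w hw => by
        have e := (h w hw).ge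
        rw [Nat.cast_mul, map_mul] at e
        exact ⟨(w.v_nat_le p).antisymm (e.trans (mul_le_of_le_one_right zero_le (w.v_nat_le a))),
          (w.v_nat_le a).antisymm (e.trans (mul_le_of_le_one_left zero_le (w.v_nat_le p)))⟩
      obtain ⟨w, rfl⟩ := hPL.1 p hp
      obtain ⟨u, hu⟩ : ∃ u : GQ, u • w ∈ R := by
        by_contra h3
        exact w.v_p_lt.ne (h1 w fun u _ e => h3 ⟨u, e⟩).1
      rw [Nat.cast_mul, mul _ _ (Nat.cast_ne_zero.2 hp.ne_zero) (Nat.cast_ne_zero.2 a0),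
        ih a0 fun w hw => (h1 w hw).2, mul_one]
      simpa using hpr _ hu
  have neg : ∏ w ∈ R, art w (-1 : ℚ) = -1 := by
    rw [Finset.prod_eq_single_of_mem w₂ h2 fun w h e => by
      simpa using TART.odd_int (m := -1) (hA w) (fun e' => e (inj w h w₂ h2 (e'.trans p2.symm)))
        (by simpa [Int.natCast_dvd] using w.prime.one_lt.ne')]
    refine Units.ext ?_
    simpa [neg_eq_iff_eq_neg] using TART.two_int (hA w₂) p2 odd_neg_one
  have hv : ∀ w, Out ⊤ R w → w.v q.num.natAbs = 1 ∧ w.v q.den = 1 := by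
    intro w hw
    have h1 : w.v q.num.natAbs = w.v q.den := by
      have := hq w hw
      rw [Rat.cast_def, map_div₀, div_eq_one_iff_eq
        (w.v.ne_zero_iff.2 (Nat.cast_ne_zero.2 q.den_ne_zero))] at this
      rw [← this]
      rcases Int.natAbs_eq q.num with e | e <;> rw [e] <;> simp
    rw [h1, and_self]
    by_contra h3
    have h4 : ∀ n : ℕ, w.v n ≠ 1 → w.p ∣ n := fun n e => Int.natCast_dvd_natCast.1
      (not_not.1 fun h => e (by simpa using Pl.v_int_eq_one.2 h))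
    exact w.prime.one_lt.ne' (Nat.eq_one_of_dvd_coprimes q.reduced (h4 _ (h1 ▸ h3)) (h4 _ h3))
  have h3 := nat _ (Int.natAbs_ne_zero.2 (Rat.num_ne_zero.2 q0)) fun w hw => (hv w hw).1
  have h4 := mul q q.den q0 (Nat.cast_ne_zero.2 q.den_ne_zero)
  rw [nat _ q.den_ne_zero fun w hw => (hv w hw).2, mul_one, Rat.mul_den_eq_num] at h4
  rw [← h4]
  split_ifs with h
  · rwa [← Int.cast_natCast (R := ℚ), Int.natAbs_of_nonneg (Rat.num_pos.2 h).le] at h3
  · have e : (q.num : ℚ) = -1 * q.num.natAbs := by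
      rw [← Int.cast_natCast (R := ℚ), Int.ofNat_natAbs_of_nonpos
        (not_lt.1 (mt Rat.num_pos.1 h))]
      simp
    rw [e, mul _ _ (by norm_num) (Nat.cast_ne_zero.2
      (Int.natAbs_ne_zero.2 (Rat.num_ne_zero.2 q0))), h3, neg, mul_one]

end Pool.Agent.P.MP_8b7eba_nt.R2
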