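import Pool.Agent.P.MP_8b7eba_nt.R2.IfA
import Pool.Agent.P.MP_8b7eba_nt.R2.Nrm

/-! Proof of HASSE. -/

namespace Pool.Agent.P.MP_8b7eba_nt.R2

open scoped NNReal ComplexConjugate

namespace THASSE

theorem index_pi' {ι : Type} [Fintype ι] {G : ι → Type} [∀ i, Group (G i)]
    (H : ∀ i, Subgroup (G i)) : (Subgroup.pi Set.univ H).index = ∏ i, (H i).index := by
  simp_rw [Subgroup.index, ← Nat.card_pi]
  refine Nat.card_congr
    ((Quotient.congrRight (fun x y ↦ ?_)).trans (Setoid.piQuotientEquiv _).symm)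
  rw [QuotientGroup.leftRel_pi]

theorem two_step {G : Type} [CommGroup G] (Q N D : Subgroup G) (h : Q ≤ N) (h0 : Q.index ≠ 0)
    (h2 : Q.index ≤ 2 * Q.relIndex D) : N.index ≤ 2 * N.relIndex D := by
  have e1 := Subgroup.relIndex_mul_index (le_sup_right : Q ≤ D ⊔ Q)
  have e2 := Subgroup.relIndex_mul_index (le_sup_right : N ≤ D ⊔ N)
  rw [Subgroup.relIndex_sup_right] at e1 e2
  rw [← e1] at h0 h2
  have h3 : (D ⊔ Q).index ≤ 2 := by
    rw [mul_comm 2] at h2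
    exact Nat.le_of_mul_le_mul_left h2 (Nat.pos_of_ne_zero (left_ne_zero_of_mul h0))
  have : (D ⊔ Q).FiniteIndex := ⟨right_ne_zero_of_mul h0⟩
  have h4 : (D ⊔ N).index ≤ (D ⊔ Q).index := Subgroup.index_antitone (sup_le_sup_left h D)
  rw [← e2, mul_comm 2]
  exact Nat.mul_le_mul_left _ (h4.trans h3)

variable {U : Subgroup GQ}

theorem not_out {R : Set Pl} {w : Pl} : ¬ Out U R w ↔ ∃ u ∈ U, u • w ∈ R := by
  unfold Out
  push Not
  rfl

theorem not_out_of_mem {R : Set Pl} {w : Pl} (h : w ∈ R) : ¬ Out U R w :=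
  not_out.2 ⟨1, U.one_mem, by rw [one_smul]; exact h⟩

theorem orbit_smul' {u : GQ} (hu : u ∈ U) (w : Pl) :
    MulAction.orbit U (u • w) = MulAction.orbit U w :=
  MulAction.orbit_smul (⟨u, hu⟩ : U) w

theorem nOrb_union {R : Set Pl} (hR : R.Finite) {T : Finset Pl} (hT : Sep U T)
    (hO : ∀ w ∈ T, Out U R w) : nOrb U (R ∪ T) = nOrb U R + T.card := by
  unfold nOrb
  rw [Set.image_union, Set.ncard_union_eq ?_ (hR.image _) (T.finite_toSet.image _),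
    Set.InjOn.ncard_image (s := (T : Set Pl)), Set.ncard_coe_finset]
  · intro w hw w' hw' h
    obtain ⟨u, hu⟩ := MulAction.orbit_eq_iff.1 h
    exact hu.symm.trans (hT w' hw' u u.2 (by rw [show (u : GQ) • w' = w from hu]; exact hw))
  · rw [Set.disjoint_left]
    rintro _ ⟨w, hw, rfl⟩ ⟨w', hw', h⟩
    obtain ⟨u, hu⟩ := MulAction.orbit_eq_iff.1 h.symm
    exact hO w' hw' u u.2 (by rw [show (u : GQ) • w' = w from hu]; exact hw)

open Classical in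
theorem nNs_le {R₀ : Set Pl} {R T : Finset Pl} {b : Om} (hb : Fix U b)
    (hO : ∀ w, Out U R w ↔ Out U R₀ w) (hT : ∀ w ∈ T, Sq (w.D ⊓ U) b) :
    nNs U (R₀ ∪ T) b ≤ (R.filter fun w => ¬ Sq (w.D ⊓ U) b).card := by
  unfold nNs nOrb
  rw [← Set.ncard_coe_finset]
  refine le_trans (Set.ncard_le_ncard ?_ ((Finset.finite_toSet _).image _))
    (Set.ncard_image_le (f := fun w => MulAction.orbit U w) (Finset.finite_toSet _))
  rintro _ ⟨w, ⟨hw, hn⟩, rfl⟩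
  rcases hw with hw | hw
  · obtain ⟨u, hu, huw⟩ := not_out.1 fun h => not_out_of_mem hw ((hO w).1 h)
    exact ⟨u • w, Finset.mem_filter.2 ⟨huw, fun h => hn ((sq_smul hu hb).1 h)⟩, orbit_smul' hu w⟩
  · exact absurd (hT w hw) hn

theorem mem_sq {H : Subgroup GQ} {y : Omˣ} :
    y ∈ (FU H).map (powMonoidHom 2) ↔ Sq H y := by
  constructor
  · rintro ⟨x, hx, rfl⟩
    exact ⟨x, hx, by simp⟩
  · rintro ⟨x, hx, h⟩
    have h0 : x ≠ 0 := by
      rintro rfl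
      simp at h
    exact ⟨Units.mk0 x h0, hx, Units.ext (by simpa using h.symm)⟩

theorem mem_sq_SU {R : Set Pl} {y : Omˣ} (hy : y ∈ SU U R) (h : Sq U y) :
    y ∈ (SU U R).map (powMonoidHom 2) := by
  obtain ⟨x, hx, rfl⟩ := mem_sq.2 h
  refine ⟨x, ⟨hx, fun w hw => ?_⟩, rfl⟩
  have h1 := hy.2 w hw
  simp only [powMonoidHom_apply, Units.val_pow_eq_pow_val, map_pow] at h1
  exact (pow_eq_one_iff.1 h1).resolve_right two_ne_zero

theorem sq_count (hPL : PL) (hORB : ORB) (hSQ1 : SQ1) (hU : IsOpen (U : Set GQ)) {R : Finset Pl}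
    (hR : Sep U R) (h2 : ∀ w, Out U R w → w.p ≠ 2) :
    ∏ w ∈ R, sqI (FU (w.D ⊓ U)) ≤ 2 ^ (U.index + 2 * R.card) := by
  obtain ⟨w₀, hw₀⟩ := hPL.1 2 Nat.prime_two
  have hs' : ∀ w : Pl, ∃ σ : GQ, w.p = 2 → σ • w = w₀ := fun w => by
    by_cases h : w.p = 2
    · obtain ⟨σ, hσ⟩ := hPL.2.1 w w₀ (h.trans hw₀.symm)
      exact ⟨σ, fun _ => hσ⟩
    · exact ⟨1, fun h' => absurd h' h⟩
  choose s hs' using hs'
  have h3 := ((hORB U hU).2.2 w₀ (R.filter fun w => w.p = 2) s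
    (fun w hw u hu huw => hR w (Finset.mem_filter.1 hw).1 u hu (Finset.mem_filter.1 huw).1)
    (fun w => by
      rw [hw₀]
      constructor
      · intro h hp
        obtain ⟨u, hu, huw⟩ := not_out.1 fun h' => h2 w h' hp
        exact h u hu (Finset.mem_filter.2 ⟨huw, hp⟩)
      · intro hp u _ huw
        exact hp (Finset.mem_filter.1 huw).2)
    fun w hw => hs' w (Finset.mem_filter.1 hw).2).1
  refine (Finset.prod_le_prod' fun w _ => (hSQ1 w _ (w.loc_inf hU)).2).trans (le_of_eq ?_)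
  rw [Finset.prod_mul_distrib, Finset.prod_const, ← Finset.prod_filter, Finset.prod_pow_eq_pow_sum,
    pow_add, pow_mul, mul_comm, ← h3]
  simp only [Subgroup.inf_relIndex_left]
  norm_num

end THASSE

open THASSE

theorem t_HASSE (hPL : PL) (hTAU : TAU) (hORB : ORB) (hCLS : CLS) (hSUN : SUN) (hSQ1 : SQ1) (hNI : NI) (hFIRST : FIRST) (hTEX : TEX) (hKEY : KEY) : HASSE := by
  intro U a b hU hT ha hb ha0 hb0 hloc
  classical
  by_cases hsq : Sq U b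
  · exact Nm.of_sq_left hb0 hsq ha
  obtain ⟨R₁, hR₁, hF⟩ := hFIRST U b hU hT hb hb0 hsq
  obtain ⟨R₂, hR₂, hK⟩ := (hCLS U hU).2
  obtain ⟨Ba, hBa⟩ := hPL.2.2.2.2.2.1 a ha0
  obtain ⟨Bb, hBb⟩ := hPL.2.2.2.2.2.1 b hb0
  obtain ⟨R₃, -, hR₃⟩ := (hORB U hU).2.1 (Finset.range (Ba + Bb + 3))
  obtain ⟨R₀, hfin, s1, s2, s3⟩ : ∃ R₀ : Set Pl, R₀.Finite ∧ R₁ ⊆ R₀ ∧ R₂ ⊆ R₀ ∧ ↑R₃ ⊆ R₀ :=
    ⟨R₁ ∪ R₂ ∪ R₃, (hR₁.union hR₂).union R₃.finite_toSet, fun w h => Or.inl (Or.inl h),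
      fun w h => Or.inl (Or.inr h), fun w h => Or.inr h⟩
  have hbig : ∀ w, Out U R₀ w → Ba + Bb + 3 ≤ w.p := fun w hw => by
    have := (hR₃ w).1 (hw.mono s3)
    rwa [Finset.mem_range, not_lt] at this
  obtain ⟨R, hsub, hR, hO, hcard⟩ := (hORB U hU).1 R₀ hfin
  obtain ⟨T, hAux, hTc, hTs⟩ := hTEX U R₀ (Units.mk0 b hb0) hU hT hfin
    ⟨hb, fun w hw => hBb w (by have := hbig w hw; omega)⟩ hsq
  have hfin' : (R₀ ∪ T).Finite := hfin.union T.finite_toSet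
  have hA := (hSUN U _ hU hT hfin').2.2
  rw [nOrb_union hfin hAux.1 fun w hw => (hAux.2.1 w hw).2] at hA
  obtain ⟨hF0, hF1⟩ := hF _ hfin' (s1.trans Set.subset_union_left)
  obtain ⟨k, hk⟩ := (hTAU.2.2.2.2.2 U hU hT).1
  -- the diagonal map
  let Δ : SU U (R₀ ∪ T) →* ∀ w : R, FU (w.1.D ⊓ U) :=
    MonoidHom.pi fun w => Subgroup.inclusion fun y hy => Fix.mono hy.1 inf_le_right
  let Q : Subgroup (∀ w : R, FU (w.1.D ⊓ U)) := Subgroup.pi Set.univ fun w =>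
    ((FU (w.1.D ⊓ U)).map (powMonoidHom 2)).subgroupOf (FU (w.1.D ⊓ U))
  let N : Subgroup (∀ w : R, FU (w.1.D ⊓ U)) := Subgroup.pi Set.univ fun w =>
    (NmS (w.1.D ⊓ U) b).subgroupOf (FU (w.1.D ⊓ U))
  have hQN : ∀ w : Pl, ((FU (w.D ⊓ U)).map (powMonoidHom 2)).subgroupOf (FU (w.D ⊓ U)) ≤
      (NmS (w.D ⊓ U) b).subgroupOf (FU (w.D ⊓ U)) := fun w y hy =>
    (mem_NmS (hb.mono inf_le_right)).2 (Nm.of_sq (mem_sq.1 hy))
  have hQi : Q.index = ∏ w ∈ R, sqI (FU (w.D ⊓ U)) := by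
    rw [index_pi', ← Finset.prod_coe_sort R]
    rfl
  have hQc : Q.comap Δ =
      ((SU U (R₀ ∪ T)).map (powMonoidHom 2)).subgroupOf (SU U (R₀ ∪ T)) := by
    ext y
    constructor
    · intro hy
      refine mem_sq_SU y.2 (hKEY U R₀ T hU hT hfin (hK.mono s2)
        (fun w hw => by have := hbig w hw; omega) hAux y y.2 fun w hw => ?_)
      obtain ⟨u, hu, huw⟩ := not_out.1 fun h => not_out_of_mem hw ((hO w).1 h)
      exact (sq_smul hu y.2.1).1 (mem_sq.1 (hy ⟨u • w, huw⟩ trivial))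
    · rintro ⟨x, hx, hxy⟩ w _
      exact ⟨x, Fix.mono hx.1 inf_le_right, hxy⟩
  have h1 : N.index ≤ 2 * (N.comap Δ).index := by
    rw [Subgroup.index_comap]
    refine two_step Q N _ (fun y hy w _ => hQN w (hy w trivial)) ?_ ?_
    · rw [hQi]
      exact Finset.prod_ne_zero_iff.2 fun w _ => (hSQ1 w _ (w.loc_inf hU)).1
    · rw [← Subgroup.index_comap, hQc, hQi]
      refine (sq_count hPL hORB hSQ1 hU hR fun w hw => by
        have := hbig w ((hO w).1 hw); omega).trans (le_of_eq ?_)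
      have e : (((SU U (R₀ ∪ T)).map (powMonoidHom 2)).subgroupOf (SU U (R₀ ∪ T))).index =
        2 ^ (U.index / 2 + (nOrb U R₀ + T.card)) := hA
      rw [e, ← pow_succ', hcard]
      congr 1
      omega
  have h2 : 2 ^ (R.filter fun w => ¬ Sq (w.D ⊓ U) b).card ≤ N.index := by
    rw [index_pi', ← Finset.prod_const, Finset.prod_filter, ← Finset.prod_coe_sort R]
    refine Finset.prod_le_prod' fun w _ => ?_
    have h3 : ((NmS (w.1.D ⊓ U) b).subgroupOf (FU (w.1.D ⊓ U))).index ≠ 0 := fun h =>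
      (hSQ1 w _ (w.1.loc_inf hU)).1
        (Nat.eq_zero_of_zero_dvd (h ▸ Subgroup.index_dvd_of_le (hQN w)))
    split_ifs with h
    · exact Nat.pos_of_ne_zero h3
    · obtain ⟨x, hx, hx0, hn⟩ := (hNI w _ b (w.1.loc_inf hU) (hb.mono inf_le_right) hb0 h).1
      have h4 : ((NmS (w.1.D ⊓ U) b).subgroupOf (FU (w.1.D ⊓ U))).index ≠ 1 := fun h5 =>
        hn ((mem_NmS (hb.mono inf_le_right)).1
          (Subgroup.relIndex_eq_one.1 h5 (show Units.mk0 x hx0 ∈ FU _ from hx)))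
      omega
  have h5 : (NmS U b).subgroupOf (SU U (R₀ ∪ T)) ≤ N.comap Δ := fun y hy w _ =>
    (mem_NmS (hb.mono inf_le_right)).2 (((mem_NmS hb).1 hy).mono inf_le_right)
  have h6 := Subgroup.relIndex_mul_index h5
  have h7 : 2 * ((NmS U b).subgroupOf (SU U (R₀ ∪ T))).index ≤ 2 * (N.comap Δ).index :=
    hF1.trans ((Nat.pow_le_pow_right two_pos (nNs_le hb hO hTs)).trans (h2.trans h1))
  have h8 : ((NmS U b).subgroupOf (SU U (R₀ ∪ T))).index ≠ 0 := hF0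
  rw [← h6] at h7 h8
  have h9 : ((NmS U b).subgroupOf (SU U (R₀ ∪ T))).relIndex (N.comap Δ) = 1 := by
    have h10 := Nat.le_of_mul_le_mul_left h7 two_pos
    have h11 := Nat.pos_of_ne_zero (right_ne_zero_of_mul h8)
    have h12 := Nat.pos_of_ne_zero (left_ne_zero_of_mul h8)
    nlinarith
  have haA : Units.mk0 a ha0 ∈ SU U (R₀ ∪ T) :=
    ⟨ha, fun w hw => hBa w (by have := hbig w (hw.mono Set.subset_union_left); omega)⟩
  exact (mem_NmS hb).1 (Subgroup.relIndex_eq_one.1 h9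
    (show (⟨_, haA⟩ : SU U (R₀ ∪ T)) ∈ N.comap Δ from fun w _ =>
      (mem_NmS (hb.mono inf_le_right)).2 (hloc w)))

end Pool.Agent.P.MP_8b7eba_nt.R2
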