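import Pool.Agent.P.MP_8b7eba_nt.R2.TNIA

/-! Proof of NI. -/

namespace Pool.Agent.P.MP_8b7eba_nt.R2

open scoped NNReal ComplexConjugate

namespace TNI

variable {w : Pl} {H : Subgroup GQ} {β : Om} {s : GQ}

/-- the data of a quadratic extension -/
structure Q (w : Pl) (H : Subgroup GQ) (β : Om) (s : GQ) : Prop where
  loc : w.Loc H
  hs : s ∈ H
  neg : s β = -β
  fix : Fix H (β ^ 2)
  ne : β ≠ 0
  le : w.v β ≤ 1

theorem Q.app (h : Q w H β s) {x y : Om} (hx : Fix H x) (hy : Fix H y) :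
    s (x + y * β) = x - y * β := by
  rw [map_add, map_mul, hx s h.hs, hy s h.hs, h.neg]; ring

theorem Q.mk' {x y : Om} (hx : Fix H x) (hy : Fix H y) :
    Fix (H ⊓ MulAction.stabilizer GQ β) (x + y * β) :=
  (hx.mono inf_le_left).add ((hy.mono inf_le_left).mul fun _ hg => hg.2)

theorem Q.dec (h : Q w H β s) {z : Om} (hz : Fix (H ⊓ MulAction.stabilizer GQ β) z) :
    ∃ x y, Fix H x ∧ Fix H y ∧ z = x + y * β := by
  have i : s⁻¹ β = -β := by
    apply s.injective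
    rw [map_neg, h.neg, neg_neg]
    exact s.apply_symm_apply β
  have a : ∀ g ∈ H, ∀ u, s (s⁻¹ (g u)) = g u := fun g _ u => s.apply_symm_apply _
  have key : ∀ g ∈ H, (g β = β ∧ g z = z ∧ g (s z) = s z) ∨
      (g β = -β ∧ g z = s z ∧ g (s z) = z) := fun g hg => by
    have e : g β ^ 2 = β ^ 2 := by rw [← map_pow, h.fix g hg]
    rcases sq_eq_sq_iff_eq_or_eq_neg.1 e with e | e
    · refine Or.inl ⟨e, hz g ⟨hg, e⟩, ?_⟩
      have := hz (s⁻¹ * g * s) ⟨H.mul_mem (H.mul_mem (H.inv_mem h.hs) hg) h.hs, by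
        change s⁻¹ (g (s β)) = β
        rw [h.neg, map_neg, e, map_neg, i, neg_neg]⟩
      rw [← a g hg]
      exact congrArg s this
    · refine Or.inr ⟨e, ?_, hz (g * s) ⟨H.mul_mem hg h.hs, by
        change g (s β) = β
        rw [h.neg, map_neg, e, neg_neg]⟩⟩
      have := hz (s⁻¹ * g) ⟨H.mul_mem (H.inv_mem h.hs) hg, by
        change s⁻¹ (g β) = β
        rw [e, map_neg, i, neg_neg]⟩
      rw [← a g hg]
      exact congrArg s this
  have h0 := h.ne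
  refine ⟨(z + s z) / 2, (z - s z) / (2 * β), fun g hg => ?_, fun g hg => ?_, by field_simp; ring⟩
  · rw [map_div₀, map_add, map_ofNat]
    rcases key g hg with ⟨-, e1, e2⟩ | ⟨-, e1, e2⟩
    · rw [e1, e2]
    · rw [e1, e2, add_comm]
  · rw [map_div₀, map_sub, map_mul, map_ofNat]
    rcases key g hg with ⟨e0, e1, e2⟩ | ⟨e0, e1, e2⟩
    · rw [e0, e1, e2]
    · rw [e0, e1, e2]; field_simp; ring

theorem vp2 (w : Pl) : w.v w.p ≤ w.v 2 := by
  by_cases h : w.p = 2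
  · rw [h]; exact le_rfl
  · rw [Pl.v_two h]; exact w.v_p_lt.le

theorem v2 (w : Pl) : w.v 2 ≤ 1 := w.v_nat_le 2

theorem ml {x y : Om} {c : ℝ≥0} (hx : w.v x ≤ c) (hy : w.v y ≤ 1) : w.v (x * y) ≤ c := by
  rw [map_mul]; exact (mul_le_mul' hx hy).trans_eq (mul_one c)

theorem ml' {x y : Om} (hx : w.v x < 1) (hy : w.v y ≤ 1) : w.v (x * y) < 1 :=
  (ml le_rfl hy).trans_lt hx

theorem dv {x y : Om} {c : ℝ≥0} (hx : w.v x ≤ c) (hy : w.v y = 1) : w.v (x / y) ≤ c := by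
  rwa [map_div₀, hy, div_one]

theorem hf {x : Om} (hx : w.v x ≤ w.v 2) : w.v (x / 2) ≤ 1 := by
  rw [map_div₀]; exact div_le_one_of_le₀ hx zero_le

theorem vc (w : Pl) : w.v (2 * w.p) < 1 := by
  rw [mul_comm]; exact ml' w.v_p_lt (v2 w)

theorem p0 (w : Pl) : (w.p : Om) ≠ 0 := Nat.cast_ne_zero.2 w.prime.ne_zero

/-- the lattice of coefficients -/
structure L (w : Pl) (H : Subgroup GQ) (x y : Om) : Prop where
  fx : Fix H x
  fy : Fix H y
  vx : w.v x ≤ 1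
  vy : w.v y ≤ 1
  vd : w.v (x - y) ≤ w.v 2

theorem L.one (h : Q w H β s) {x y : Om} (l : L w H x y) :
    w.v (1 + 2 * w.p * (x + y * β)) = 1 :=
  w.v.map_one_add_of_lt (ml' (vc w) (w.v.map_add_le l.vx (ml l.vy h.le)))

theorem L.neg {x y : Om} (l : L w H x y) : L w H x (-y) :=
  ⟨l.fx, l.fy.neg, l.vx, (w.v.map_neg y).trans_le l.vy, by
    rw [show x - -y = (x - y) + 2 * y by ring]
    exact w.v.map_add_le l.vd (ml le_rfl l.vy)⟩

theorem fc : Fix H (2 * w.p) := (fix_ofNat 2).mul (fix_nat _)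

theorem L.app (h : Q w H β s) {x y : Om} (l : L w H x y) :
    s (1 + 2 * w.p * (x + y * β)) = 1 + 2 * w.p * (x + -y * β) := by
  rw [map_add, map_one, map_mul, fc s h.hs, h.app l.fx l.fy]; ring

/-- the group of principal units with trivial cohomology -/
def V (h : Q w H β s) : Subgroup Omˣ where
  carrier := {z | ∃ x y, L w H x y ∧ (z : Om) = 1 + 2 * w.p * (x + y * β)}
  one_mem' := ⟨0, 0, ⟨fix_zero, fix_zero, by simp, by simp, by simp⟩, by simp⟩
  mul_mem' := by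
    rintro z z' ⟨x, y, l, e⟩ ⟨x', y', l', e'⟩
    have b : w.v (β ^ 2) ≤ 1 := by rw [sq]; exact ml h.le h.le
    have c : w.v (2 * w.p) ≤ w.v 2 := ml le_rfl w.v_p_lt.le
    have a1 : w.v (x * x' + β ^ 2 * y * y') ≤ 1 :=
      w.v.map_add_le (ml l.vx l'.vx) (ml (ml b l.vy) l'.vy)
    have a2 : w.v (x * y' + x' * y) ≤ 1 := w.v.map_add_le (ml l.vx l'.vy) (ml l'.vx l.vy)
    refine ⟨x + x' + 2 * w.p * (x * x' + β ^ 2 * y * y'), y + y' + 2 * w.p * (x * y' + x' * y),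
      ⟨(l.fx.add l'.fx).add (fc.mul ((l.fx.mul l'.fx).add ((h.fix.mul l.fy).mul l'.fy))),
      (l.fy.add l'.fy).add (fc.mul ((l.fx.mul l'.fy).add (l'.fx.mul l.fy))),
      w.v.map_add_le (w.v.map_add_le l.vx l'.vx) (ml (vc w).le a1),
      w.v.map_add_le (w.v.map_add_le l.vy l'.vy) (ml (vc w).le a2), ?_⟩, ?_⟩
    · rw [show x + x' + 2 * w.p * (x * x' + β ^ 2 * y * y') - (y + y' + 2 * w.p * (x * y' + x' * y))
        = (x - y) + (x' - y') + 2 * w.p * ((x * x' + β ^ 2 * y * y') - (x * y' + x' * y)) by ring]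
      exact w.v.map_add_le (w.v.map_add_le l.vd l'.vd) (ml c (w.v.map_sub_le a1 a2))
    · rw [Units.val_mul, e, e']; ring
  inv_mem' := by
    rintro z ⟨x, y, l, e⟩
    have b : w.v (β ^ 2) ≤ 1 := by rw [sq]; exact ml h.le h.le
    obtain ⟨t, ht⟩ : ∃ t, t = x + w.p * (x * x - β ^ 2 * y * y) := ⟨_, rfl⟩
    have t1 : Fix H t := ht ▸ l.fx.add ((fix_nat _).mul ((l.fx.mul l.fx).sub
      ((h.fix.mul l.fy).mul l.fy)))
    have t2 : w.v t ≤ 1 := ht ▸ w.v.map_add_le l.vx (ml w.v_p_lt.le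
      (w.v.map_sub_le (ml l.vx l.vx) (ml (ml b l.vy) l.vy)))
    have n1 : w.v (1 + 2 * w.p * (2 * t)) = 1 := w.v.map_one_add_of_lt (ml' (vc w) (ml (v2 w) t2))
    have n2 : Fix H (1 + 2 * w.p * (2 * t)) := fix_one.add (fc.mul ((fix_ofNat 2).mul t1))
    have n3 : 1 + 2 * w.p * (2 * t) ≠ 0 := fun e => by simp [e] at n1
    refine ⟨(x - 2 * t) / (1 + 2 * w.p * (2 * t)), -y / (1 + 2 * w.p * (2 * t)),
      ⟨(l.fx.sub ((fix_ofNat 2).mul t1)).div n2, l.fy.neg.div n2,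
      dv (w.v.map_sub_le l.vx (ml (v2 w) t2)) n1, dv l.neg.vy n1, ?_⟩, ?_⟩
    · rw [← sub_div, show x - 2 * t - -y = (x - -y) - 2 * t by ring]
      exact dv (w.v.map_sub_le l.neg.vd (ml le_rfl t2)) n1
    · rw [Units.val_inv_eq_inv_val, e]
      refine inv_eq_of_mul_eq_one_right ?_
      generalize hN : 1 + 2 * (w.p : Om) * (2 * t) = N at n3
      field_simp
      rw [← hN, ht]; ring

/-- the action on units -/
noncomputable def sg (s : GQ) : Omˣ →* Omˣ := Units.map (s : Om →* Om)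

theorem sg_val (z : Omˣ) : (sg s z : Om) = s z := rfl

theorem V.one (h : Q w H β s) {z : Omˣ} (hz : z ∈ V h) : w.v z = 1 := by
  obtain ⟨x, y, l, e⟩ := hz
  rw [e, l.one h]

theorem V.sg (h : Q w H β s) {z : Omˣ} (hz : z ∈ V h) : sg s z ∈ V h := by
  obtain ⟨x, y, l, e⟩ := hz
  exact ⟨x, -y, l.neg, by rw [sg_val, e, l.app h]⟩

theorem V.le (h : Q w H β s) : V h ≤ FU (H ⊓ MulAction.stabilizer GQ β) := by
  rintro z ⟨x, y, l, e⟩
  change Fix _ (z : Om)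
  rw [e]
  exact fix_one.add (fc.mul (Q.mk' l.fx l.fy))

theorem L.unit (h : Q w H β s) {x y : Om} (l : L w H x y) :
    ∃ u ∈ V h, (u : Om) = 1 + 2 * w.p * (x + y * β) :=
  ⟨Units.mk0 _ fun e => by simpa [e] using l.one h, ⟨x, y, l, rfl⟩, rfl⟩

theorem V.h0 (hHENS : HENS) (h : Q w H β s) {z : Omˣ} (hz : z ∈ V h) (e : TNI.sg s z = z) :
    ∃ u ∈ V h, z = u * TNI.sg s u := by
  obtain ⟨x, y, l, e'⟩ := hz
  have e1 := congrArg Units.val e
  rw [sg_val, e', l.app h] at e1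
  have y0 : y = 0 := by
    have : (4 * w.p * β) * y = 0 := by linear_combination -e1
    exact (mul_eq_zero.1 this).resolve_left (mul_ne_zero (mul_ne_zero (by norm_num) (p0 w)) h.ne)
  subst y0
  have t1 : w.v (x / 2) ≤ 1 := hf (by simpa using l.vd)
  have t2 : Fix H (x / 2) := l.fx.div (fix_ofNat 2)
  have b : w.v (β ^ 2) ≤ 1 := by rw [sq]; exact ml h.le h.le
  have a : w.v (w.p * (1 - β ^ 2)) < 1 := ml' w.v_p_lt (w.v.map_sub_le (by simp) b)
  have a' : w.v (w.p * (1 - β ^ 2) * (x / 2) ^ 2 + 1 * (x / 2) + -(x / 2)) < 1 := by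
    rw [one_mul, add_neg_cancel_right, sq (x / 2)]
    exact ml' a (ml t1 t1)
  obtain ⟨r, r1, r2, r3⟩ := (hHENS w H h.loc.le).2 (w.p * (1 - β ^ 2)) 1 (-(x / 2)) (x / 2)
    ((fix_nat _).mul (fix_one.sub h.fix)) fix_one t2.neg t2 a.le t1 (by
      rw [add_comm, mul_comm 2, mul_assoc]
      exact w.v.map_one_add_of_lt (ml' a (ml (v2 w) t1))) a'
  have r4 : w.v r ≤ 1 := by
    rw [← sub_add_cancel r (x / 2)]
    exact w.v.map_add_le (r3.trans_le a'.le) t1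
  have l' : L w H r r := ⟨r1, r1, r4, r4, by simp⟩
  obtain ⟨u, hu, e2⟩ := l'.unit h
  refine ⟨u, hu, Units.ext ?_⟩
  rw [Units.val_mul, sg_val, e2, l'.app h, e']
  linear_combination (-4 * w.p) * r2

theorem V.h1 (h : Q w H β s) {z : Omˣ} (hz : z ∈ V h) (e : z * TNI.sg s z = 1) :
    ∃ u ∈ V h, z = u / TNI.sg s u := by
  obtain ⟨x, y, l, e'⟩ := hz
  have e1 := congrArg Units.val e
  rw [Units.val_mul, sg_val, e', l.app h, Units.val_one] at e1
  have b : w.v (β ^ 2) ≤ 1 := by rw [sq]; exact ml h.le h.le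
  have x1 : x = w.p * (β ^ 2 * y * y - x * x) := by
    have : (4 * w.p) * (x - w.p * (β ^ 2 * y * y - x * x)) = 0 := by linear_combination e1
    exact sub_eq_zero.1 ((mul_eq_zero.1 this).resolve_left (mul_ne_zero (by norm_num) (p0 w)))
  have x2 : w.v x ≤ w.v 2 := by
    rw [x1]
    exact ml (vp2 w) (w.v.map_sub_le (ml (ml b l.vy) l.vy) (ml l.vx l.vx))
  have y2 : w.v y ≤ w.v 2 := by
    rw [show y = x - (x - y) by ring]
    exact w.v.map_sub_le x2 l.vd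
  have c : w.v (2 * w.p) ≤ w.v 2 := ml le_rfl w.v_p_lt.le
  have f2 : Fix H 2 := fix_ofNat 2
  obtain ⟨d, hd⟩ : ∃ d, d = y / 2 - x / 2 := ⟨_, rfl⟩
  have d1 : Fix H d := hd ▸ (l.fy.div f2).sub (l.fx.div f2)
  have d2 : w.v d ≤ 1 := hd ▸ w.v.map_sub_le (hf y2) (hf x2)
  have l' : L w H (y / 2 + 2 * w.p * d * (x / 2)) (y / 2 + 2 * w.p * d * (y / 2)) :=
    ⟨(l.fy.div f2).add ((fc.mul d1).mul (l.fx.div f2)),
      (l.fy.div f2).add ((fc.mul d1).mul (l.fy.div f2)),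
      w.v.map_add_le (hf y2) (ml (ml (vc w).le d2) (hf x2)),
      w.v.map_add_le (hf y2) (ml (ml (vc w).le d2) (hf y2)), by
        rw [add_sub_add_left_eq_sub]
        exact w.v.map_sub_le (ml (ml c d2) (hf x2)) (ml (ml c d2) (hf y2))⟩
  obtain ⟨u, hu, e2⟩ := l'.unit h
  refine ⟨u, hu, eq_div_iff_mul_eq'.2 (Units.ext ?_)⟩
  rw [Units.val_mul, sg_val, e2, l'.app h, e', hd]
  linear_combination ((1 + 2 * w.p * (y / 2 - x / 2)) / 2) * e1

theorem V.ball (h : Q w H β s) {z : Omˣ} (hz : z ∈ FU (H ⊓ MulAction.stabilizer GQ β))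
    (e : w.v (z - 1) < w.v (2 * (2 * (2 * w.p)) * β)) : z ∈ V h := by
  obtain ⟨x, y, hx, hy, e'⟩ := h.dec (Fix.sub hz fix_one)
  have e1 : w.v (x - y * β) < w.v (2 * (2 * (2 * w.p)) * β) := by
    rwa [← h.app hx hy, ← e', Pl.mem_D.1 (h.loc.le h.hs)]
  rw [e'] at e
  have c0 : (2 * w.p : Om) ≠ 0 := mul_ne_zero two_ne_zero (p0 w)
  have t0 : 0 < w.v 2 := w.v.pos_iff.2 two_ne_zero
  have a1 : w.v (x / (2 * w.p)) ≤ w.v 2 := by
    have := ((w.v.map_add_lt e e1).le.trans (ml le_rfl h.le))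
    rw [show x + y * β + (x - y * β) = 2 * x by ring, map_mul, map_mul,
      mul_le_mul_iff_right₀ t0, map_mul] at this
    rw [map_div₀, div_le_iff₀ (w.v.pos_iff.2 c0)]
    exact this
  have a2 : w.v (y / (2 * w.p)) ≤ w.v 2 := by
    have := (w.v.map_sub_lt e e1).le
    rw [show x + y * β - (x - y * β) = 2 * y * β by ring, map_mul, map_mul _ _ β,
      mul_le_mul_iff_left₀ (w.v.pos_iff.2 h.ne), map_mul, map_mul,
      mul_le_mul_iff_right₀ t0, map_mul] at this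
    rw [map_div₀, div_le_iff₀ (w.v.pos_iff.2 c0)]
    exact this
  refine ⟨_, _, ⟨hx.div fc, hy.div fc, a1.trans (v2 w), a2.trans (v2 w), w.v.map_sub_le a1 a2⟩, ?_⟩
  have := p0 w
  rw [← sub_eq_iff_eq_add', e']
  field_simp

theorem vz (P : Omˣ) (k : ℤ) : w.v (P ^ k : Omˣ) = w.v P ^ k := by
  rw [Units.val_zpow_eq_zpow_val, map_zpow₀]

theorem fi (hUNIF : UNIF) (hRES : RES) (h : Q w H β s) (P : Omˣ) (hP : (P : Om) = w.p) :
    (Subgroup.zpowers P ⊔ V h).relIndex (FU (H ⊓ MulAction.stabilizer GQ β)) ≠ 0 := by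
  have hl := h.loc.inf (isOpen_stab β)
  obtain ⟨π, hπ⟩ : ∃ π, w.Unif (H ⊓ MulAction.stabilizer GQ β) π := by
    obtain ⟨U, hU, e⟩ := hl
    obtain ⟨π, -, h1, -⟩ := hUNIF w U hU
    exact ⟨π, e ▸ h1⟩
  let T : Omˣ := Units.mk0 π hπ.2.1
  have r := (hRES w _ hl).2.2.1 π _ (Subgroup.zpowers T ⊔ V h) hπ (w.v.pos_iff.2 (mul_ne_zero
    (mul_ne_zero two_ne_zero (mul_ne_zero two_ne_zero (mul_ne_zero two_ne_zero (p0 w)))) h.ne))
    ⟨T, Subgroup.mem_sup_left (Subgroup.mem_zpowers T), rfl⟩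
    fun u hu e => Subgroup.mem_sup_right (V.ball h hu e)
  obtain ⟨k, hk⟩ := hπ.2.2.2 w.p (fix_nat _) (p0 w)
  have k0 : k ≠ 0 := fun e => w.v_p_lt.ne (by rw [hk, e, zpow_zero])
  have m1 : T ^ k / P ∈ FU (H ⊓ MulAction.stabilizer GQ β) :=
    div_mem (zpow_mem (show T ∈ FU _ from hπ.1) k) (show Fix _ (P : Om) from hP ▸ fix_nat _)
  have m2 : w.v (T ^ k / P : Omˣ) = 1 := by
    rw [Units.val_div_eq_div_val, map_div₀, vz, hP, hk]
    exact div_self (zpow_ne_zero _ (w.v.pos_iff.2 hπ.2.1).ne')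
  have m3 := Subgroup.pow_index_mem ((Subgroup.zpowers T ⊔ V h).subgroupOf _) ⟨_, m1⟩
  obtain ⟨_, ⟨j, rfl⟩, u, hu, e⟩ := Subgroup.mem_sup.1 (Subgroup.mem_subgroupOf.1 m3)
  have j0 : j = 0 := by
    have := congrArg (fun z : Omˣ => w.v z) e
    simp only [Subgroup.coe_pow, Units.val_mul, Units.val_pow_eq_pow_val, map_mul, map_pow, m2, vz,
      V.one h hu, mul_one, one_pow] at this
    exact hπ.zpow_inj (this.trans (zpow_zero _).symm)
  subst j0
  obtain ⟨n, hn⟩ : ∃ n, n = (Subgroup.zpowers T ⊔ V h).relIndex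
    (FU (H ⊓ MulAction.stabilizer GQ β)) := ⟨_, rfl⟩
  have e' : u = (T ^ k / P) ^ n := by rw [hn]; exact (by simpa using e : u = _)
  have m4 : T ^ (k * n) ∈ Subgroup.zpowers P ⊔ V h := by
    rw [show T ^ (k * n) = P ^ n * u by rw [e', zpow_mul, zpow_natCast, ← mul_pow, mul_div_cancel]]
    exact mul_mem (Subgroup.mem_sup_left (pow_mem (Subgroup.mem_zpowers P) n))
      (Subgroup.mem_sup_right hu)
  have m5 := zp _ T (mul_ne_zero k0 (Nat.cast_ne_zero.2 (hn ▸ r))) m4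
  rw [← Subgroup.relIndex_sup_right] at m5
  exact Subgroup.relIndex_ne_zero_trans m5 fun e0 => r (Subgroup.relIndex_eq_zero_of_le_left
    (sup_le_sup_left le_sup_right _) e0)

theorem main (hUNIF : UNIF) (hRES : RES) (hHENS : HENS) (hHQ : HQ) (h : Q w H β s) :
    (∃ a, Fix H a ∧ a ≠ 0 ∧ ¬ Nm H (β ^ 2) a) ∧ ∀ a a', Fix H a → Fix H a' → ¬ Nm H (β ^ 2) a →
      ¬ Nm H (β ^ 2) a' → Nm H (β ^ 2) (a * a') := by
  let P : Omˣ := Units.mk0 w.p (p0 w)
  have sP : sg s P = P := Units.ext (map_natCast s _)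
  have vP : ∀ {a b : ℤ}, w.v P ^ a = w.v P ^ b → a = b := fun e =>
    zpow_right_injective₀ (w.v.pos_iff.2 (p0 w)) w.v_p_lt.ne e
  have mP : ∀ (k : ℤ), ∀ u ∈ V h, P ^ k * u ∈ Subgroup.zpowers P ⊔ V h := fun k u hu =>
    mul_mem (Subgroup.mem_sup_left ⟨k, rfl⟩) (Subgroup.mem_sup_right hu)
  have nP : ∀ (k : ℤ) (u : Omˣ), P ^ k * u * sg s (P ^ k * u) = P ^ (2 * k) * (u * sg s u) :=
    fun k u => by rw [map_mul, map_zpow, sP, two_mul, zpow_add, mul_mul_mul_comm]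
  have nV : ∀ (k : ℤ), ∀ u ∈ V h, w.v (P ^ k * (u * sg s u) : Omˣ) = w.v P ^ k := fun k u hu => by
    rw [Units.val_mul, map_mul, vz, V.one h (mul_mem hu (V.sg h hu)), mul_one]
  have nm : ∀ a : Omˣ, Nm H (β ^ 2) a ↔
      ∃ u ∈ FU (H ⊓ MulAction.stabilizer GQ β), a = u * sg s u := fun a => by
    constructor
    · rintro ⟨x, y, hx, hy, e⟩
      have e' : (a : Om) = (x + y * β) * (x - y * β) := by rw [e]; ring
      refine ⟨Units.mk0 (x + y * β) fun e0 => a.ne_zero (by rw [e', e0, zero_mul]), Q.mk' hx hy,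
        Units.ext ?_⟩
      rw [Units.val_mul, sg_val, Units.val_mk0, h.app hx hy, e']
    · rintro ⟨u, hu, e⟩
      obtain ⟨x, y, hx, hy, e'⟩ := h.dec hu
      refine ⟨x, y, hx, hy, ?_⟩
      rw [e, Units.val_mul, sg_val, e', h.app hx hy]; ring
  obtain ⟨⟨a, ha, e1, e2⟩, e3⟩ := hqm hHQ (sg s) (FU (H ⊓ MulAction.stabilizer GQ β))
    (Subgroup.zpowers P ⊔ V h) P
    (sup_le (Subgroup.zpowers_le_of_mem (show Fix _ (w.p : Om) from fix_nat _)) (V.le h))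
    (fun z hz => by
      obtain ⟨x, y, hx, hy, e⟩ := h.dec hz
      have e' : s z = x + -y * β := by rw [e, h.app hx hy]; ring
      refine ⟨show Fix _ (s z) from e' ▸ Q.mk' hx hy.neg, Units.ext ?_⟩
      rw [sg_val, sg_val, e', h.app hx hy.neg, e]; ring)
    (fun z hz => by
      obtain ⟨_, ⟨k, rfl⟩, u, hu, rfl⟩ := Subgroup.mem_sup.1 hz
      rw [map_mul, map_zpow, sP]
      exact mP k _ (V.sg h hu))
    (fi hUNIF hRES h P rfl) (Subgroup.mem_sup_left (Subgroup.mem_zpowers P)) sP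
    (fun z hz e => by
      obtain ⟨_, ⟨k, rfl⟩, u, hu, rfl⟩ := Subgroup.mem_sup.1 hz
      rw [map_mul, map_zpow, sP] at e
      obtain ⟨t, ht, rfl⟩ := V.h0 hHENS h hu (mul_left_cancel e)
      obtain ⟨m, rfl | rfl⟩ := Int.even_or_odd' k
      · exact ⟨_, mP m t ht, Or.inl (nP m t).symm⟩
      · refine ⟨_, mP m t ht, Or.inr ?_⟩
        rw [nP, ← mul_assoc P, ← zpow_one_add, add_comm])
    (fun z hz e => by
      obtain ⟨_, ⟨k, rfl⟩, u, hu, rfl⟩ := Subgroup.mem_sup.1 hz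
      have := congrArg (fun z : Omˣ => w.v z) (e.trans (nP k u))
      have := vP ((zpow_one _).trans (this.trans (nV _ u hu)))
      omega)
    (fun z hz e => by
      obtain ⟨_, ⟨k, rfl⟩, u, hu, rfl⟩ := Subgroup.mem_sup.1 hz
      have e' := (nP k u).symm.trans e
      have := congrArg (fun z : Omˣ => w.v z) e'
      have := vP (((nV _ u hu).symm.trans this).trans (by simp : _ = w.v P ^ (0 : ℤ)))
      obtain rfl : k = 0 := by omega
      obtain ⟨t, ht, e⟩ := V.h1 h hu (by simpa using e')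
      exact ⟨t, Subgroup.mem_sup_right ht, by simpa using e⟩)
    (fun z hz e => by
      have e' : (z : Om) * s z = 1 := congrArg Units.val e
      by_cases h1 : (1 : Om) + z = 0
      · refine ⟨Units.mk0 β h.ne, fun _ hg => hg.2, eq_div_iff_mul_eq'.2 (Units.ext ?_)⟩
        rw [Units.val_mul, sg_val, Units.val_mk0, h.neg]
        linear_combination (-β) * h1
      · refine ⟨Units.mk0 _ h1, fix_one.add hz, eq_div_iff_mul_eq'.2 (Units.ext ?_)⟩
        rw [Units.val_mul, sg_val, Units.val_mk0, map_add, map_one]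
        linear_combination e')
  constructor
  · refine ⟨a, ?_, a.ne_zero, fun hn => ?_⟩
    · obtain ⟨x, y, hx, hy, e⟩ := h.dec ha
      have e4 : s a = a := congrArg Units.val e1
      rw [e, h.app hx hy] at e4
      rw [e, show y * β = 0 by linear_combination (-1 / 2) * e4, add_zero]
      exact hx
    · obtain ⟨u, hu, e⟩ := (nm a).1 hn
      exact e2 u hu e
  · intro a a' ha ha' hn hn'
    have z : Nm H (β ^ 2) 0 := ⟨0, 0, fix_zero, fix_zero, by ring⟩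
    have a0 : a ≠ 0 := fun e => hn (e ▸ z)
    have a0' : a' ≠ 0 := fun e => hn' (e ▸ z)
    exact (nm (Units.mk0 a a0 * Units.mk0 a' a0')).2 (e3 _ (ha.mono inf_le_left) _
      (ha'.mono inf_le_left) (Units.ext (ha s h.hs)) (Units.ext (ha' s h.hs))
      (fun u hu e => hn ((nm _).2 ⟨u, hu, e⟩)) fun u hu e => hn' ((nm _).2 ⟨u, hu, e⟩))

end TNI

theorem t_NI (_hGAL : GAL) (hUNIF : UNIF) (hRES : RES) (hHENS : HENS) (hHQ : HQ) : NI := by
  have key : ∀ (w : Pl) (H : Subgroup GQ) (b : Om), w.Loc H → Fix H b → b ≠ 0 → ¬ Sq H b →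
      w.v b ≤ 1 → (∃ a, Fix H a ∧ a ≠ 0 ∧ ¬ Nm H b a) ∧
      ∀ a a', Fix H a → Fix H a' → ¬ Nm H b a → ¬ Nm H b a' → Nm H b (a * a') := by
    intro w H b hl hb h0 hn hv
    obtain ⟨β, rfl⟩ := exists_root b two_ne_zero
    obtain ⟨s, hs, e⟩ : ∃ s ∈ H, s β ≠ β := by
      by_contra hc
      exact hn ((sq_iff hb).2 fun g hg => by_contra fun e => hc ⟨g, hg, e⟩)
    refine TNI.main hUNIF hRES hHENS hHQ (s := s) ⟨hl, hs, (sq_eq_sq_iff_eq_or_eq_neg.1
      (by rw [← map_pow, hb s hs])).resolve_left e, hb, fun e0 => h0 (by rw [e0]; ring), ?_⟩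
    rw [map_pow] at hv
    exact (pow_le_one_iff_of_nonneg zero_le two_ne_zero).1 hv
  intro w H b hl hb h0 hn
  rcases le_total (w.v b) 1 with hv | hv
  · exact key w H b hl hb h0 hn hv
  · have e : b * b⁻¹ ^ 2 = b⁻¹ := by field_simp
    have := key w H (b * b⁻¹ ^ 2) hl (hb.mul (hb.inv.pow 2)) (by rw [e]; exact inv_ne_zero h0)
      (fun ⟨x, hx, e'⟩ => hn ⟨x * b, hx.mul hb, by rw [mul_pow, ← e']; field_simp⟩)
      (by rw [e, map_inv₀]; exact inv_le_one_of_one_le₀ hv)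
    simpa only [Nm.congr_left hb.inv (inv_ne_zero h0)] using this

end Pool.Agent.P.MP_8b7eba_nt.R2
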