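import Pool.Agent.P.MP_8b7eba_nt.R2.IfB
import Pool.Agent.P.MP_8b7eba_nt.R2.TABHN
import Pool.Agent.P.MP_8b7eba_nt.R2.TART
import Pool.Agent.P.MP_8b7eba_nt.R2.TCLS
import Pool.Agent.P.MP_8b7eba_nt.R2.TCUP
import Pool.Agent.P.MP_8b7eba_nt.R2.TCYC1
import Pool.Agent.P.MP_8b7eba_nt.R2.TCYC2
import Pool.Agent.P.MP_8b7eba_nt.R2.TDENS
import Pool.Agent.P.MP_8b7eba_nt.R2.TDIE
import Pool.Agent.P.MP_8b7eba_nt.R2.TEC
import Pool.Agent.P.MP_8b7eba_nt.R2.TEC2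
import Pool.Agent.P.MP_8b7eba_nt.R2.TEP
import Pool.Agent.P.MP_8b7eba_nt.R2.TFILT
import Pool.Agent.P.MP_8b7eba_nt.R2.TFIRST
import Pool.Agent.P.MP_8b7eba_nt.R2.TFROB
import Pool.Agent.P.MP_8b7eba_nt.R2.TGAL
import Pool.Agent.P.MP_8b7eba_nt.R2.TGENP
import Pool.Agent.P.MP_8b7eba_nt.R2.THASSE
import Pool.Agent.P.MP_8b7eba_nt.R2.THENS
import Pool.Agent.P.MP_8b7eba_nt.R2.TINV
import Pool.Agent.P.MP_8b7eba_nt.R2.TINV2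
import Pool.Agent.P.MP_8b7eba_nt.R2.TKEY
import Pool.Agent.P.MP_8b7eba_nt.R2.TLD
import Pool.Agent.P.MP_8b7eba_nt.R2.TNI
import Pool.Agent.P.MP_8b7eba_nt.R2.TNRMK1
import Pool.Agent.P.MP_8b7eba_nt.R2.TORB
import Pool.Agent.P.MP_8b7eba_nt.R2.TPL
import Pool.Agent.P.MP_8b7eba_nt.R2.TRECQ
import Pool.Agent.P.MP_8b7eba_nt.R2.TRES
import Pool.Agent.P.MP_8b7eba_nt.R2.TSERRE
import Pool.Agent.P.MP_8b7eba_nt.R2.TSQ1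
import Pool.Agent.P.MP_8b7eba_nt.R2.TSQ2
import Pool.Agent.P.MP_8b7eba_nt.R2.TSUN
import Pool.Agent.P.MP_8b7eba_nt.R2.TSYL
import Pool.Agent.P.MP_8b7eba_nt.R2.TTAME
import Pool.Agent.P.MP_8b7eba_nt.R2.TTEX
import Pool.Agent.P.MP_8b7eba_nt.R2.TUNIF
import Pool.Agent.P.MP_8b7eba_nt.R2.TUNIT
import Pool.Agent.P.MP_8b7eba_nt.R2.TUNR

/-! Class field theory: all statements of the first layer hold. -/

namespace Pool.Agent.P.MP_8b7eba_nt.R2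

theorem a_PL : PL := t_PL

theorem a_GAL : GAL := t_GAL

theorem a_FROB : FROB := t_FROB a_PL a_GAL

theorem a_DENS : DENS := t_DENS a_PL

theorem a_WA : WA := t_WA a_PL

theorem a_UNIF : UNIF := t_UNIF a_PL a_GAL a_FROB a_DENS

theorem a_RES : RES := t_RES a_UNIF a_DENS

theorem a_TAME : TAME := t_TAME a_GAL

theorem a_TAME2 : TAME2 := t_TAME2 a_GAL

theorem a_HENS : HENS := t_HENS

theorem a_TAU : TAU := t_TAU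

theorem a_EC : EC := t_EC a_TAU

theorem a_EC2 : EC2 := t_EC2 a_UNIF a_EC

theorem a_LG : LG := t_LG a_FROB a_EC a_EC2

theorem a_ART : ART := t_ART a_PL a_RES

theorem a_ORB : ORB := t_ORB a_PL

theorem a_GENP : GENP := t_GENP a_PL a_GAL a_FROB

theorem a_CLS : CLS := t_CLS a_PL a_UNIF

theorem a_SUN : SUN := t_SUN a_PL a_UNIF a_CLS a_ORB a_TAU

theorem a_SYL : SYL := t_SYL

theorem a_GAS : GAS := t_GAS

theorem a_CYC1 : CYC1 := t_CYC1 a_GAL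

theorem a_CYC2 : CYC2 := t_CYC2 a_GAL

theorem a_CUP : CUP := t_CUP

theorem a_SYM : SYM := t_SYM a_CYC1 a_CYC2

theorem a_UCH : UCH := t_UCH a_FROB

theorem a_UNR : UNR := t_UNR a_FROB

theorem a_HQ : HQ := t_HQ

theorem a_SQ1 : SQ1 := t_SQ1 a_UNIF a_RES a_HENS a_HQ

theorem a_SQ2 : SQ2 := t_SQ2 a_PL a_FROB a_RES a_HENS

theorem a_NI : NI := t_NI a_GAL a_UNIF a_RES a_HENS a_HQ

theorem a_SERRE : SERRE := t_SERRE a_GAL a_NI a_HENS a_UNIF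

theorem a_NU : NU := t_NU a_GAL a_NI a_HENS a_UNIF

theorem a_UNIT : UNIT := t_UNIT a_GAL a_NI a_UNIF a_SYM

theorem a_DIE : DIE := t_DIE a_GAL a_SYL a_GAS a_CYC1 a_CYC2 a_CUP a_SYM a_UCH a_UNIF a_NI a_SERRE
    a_UNIT

theorem a_DIEK : DIEK := t_DIEK a_LG a_DIE

theorem a_NRMK1 : NRMK1 := t_NRMK1 a_PL a_FROB a_DENS a_RES a_EC a_EC2 a_LG a_ART a_ORB

theorem a_NRMK : NRMK := t_NRMK a_FROB a_EC a_LG a_ART a_UNIT a_NRMK1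

theorem a_INV : INV := t_INV a_EC a_LG a_ART a_CYC1 a_CYC2 a_CUP a_DIEK a_NRMK

theorem a_INV2 : INV2 := t_INV2 a_EC a_LG a_ART a_CUP a_SYM a_INV a_NI a_RES a_SQ2 a_NU

theorem a_FILT : FILT := t_FILT

theorem a_LD : LD := t_LD a_GAL a_CUP a_SYM a_NI a_DIE a_FILT

theorem a_EP : EP := t_EP a_GAL a_CUP a_SYM a_NI a_SQ1 a_FILT

theorem a_HQ2 : HQ2 := t_HQ2

theorem a_FIRST : FIRST := t_FIRST a_GAL a_PL a_UNIF a_ORB a_CLS a_SUN a_TAU a_HQ2 a_SQ2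

theorem a_TEX : TEX := t_TEX a_SUN a_GENP a_SQ2 a_FROB

theorem a_KEY : KEY := t_KEY a_UNIF a_ORB a_SQ2 a_NI a_NU a_FIRST

theorem a_HASSE : HASSE := t_HASSE a_PL a_TAU a_ORB a_CLS a_SUN a_SQ1 a_NI a_FIRST a_TEX a_KEY

theorem a_ABHN : ABHN := t_ABHN a_GAL a_SYL a_GAS a_SYM a_HASSE

theorem a_REC : REC := t_REC a_PL a_EC a_LG a_ART a_ORB a_CYC1 a_CUP a_DIEK a_INV a_INV2 a_ABHN

theorem a_RECQ : RECQ := t_RECQ a_PL a_EC a_LG a_TAU a_ART a_ORB a_CYC1 a_CYC2 a_CUP a_DIEK a_INV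
    a_INV2 a_ABHN

theorem a_CA : CA :=
  ⟨a_PL, a_GAL, a_FROB, a_DENS, a_WA, a_UNIF, a_RES, a_TAME, a_TAME2, a_HENS, a_EC, a_EC2, a_LG,
    a_TAU, a_ART, a_ORB, a_GENP, a_CLS, a_SUN, a_SYL, a_GAS, a_CYC1, a_CYC2, a_CUP, a_SYM, a_UCH,
    a_UNR, a_SQ1, a_SQ2, a_NI, a_SERRE, a_NU, a_UNIT, a_DIE, a_DIEK, a_NRMK, a_INV, a_INV2, a_LD,
    a_EP, a_HASSE, a_ABHN, a_REC, a_RECQ⟩

end Pool.Agent.P.MP_8b7eba_nt.R2
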