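import Pool.Agent.P.MP_8b7eba_nt.R2.IfB

/-! Proof of AFX. -/

namespace Pool.Agent.P.MP_8b7eba_nt.R2

open scoped NNReal Matrix
open MP_9c97e9_nt (Pt pm Is ap Sha Split)
open Filter Topology Polynomial Module

namespace TAFX

theorem sum_lt {M ι : Type} [SeminormedAddCommGroup M] [IsUltrametricDist M] {s : Finset ι}
    {f : ι → M} (h : ∀ i ∈ s, ‖f i‖ < 1) : ‖∑ i ∈ s, f i‖ < 1 := by
  rcases s.eq_empty_or_nonempty with rfl | hs
  · simp
  · obtain ⟨i, hi, h'⟩ := IsUltrametricDist.exists_norm_finsetSum_le_of_nonempty hs f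
    exact h'.trans_lt (h i hi)

theorem coeff_le {G : ℚ_[2][X]} (h : Dist G) (i : ℕ) : ‖G.coeff i‖ ≤ 1 := by
  rcases lt_trichotomy i G.natDegree with hi | rfl | hi
  · exact (h.2 i hi).le
  · rw [h.1.coeff_natDegree, norm_one]
  · rw [coeff_eq_zero_of_natDegree_lt hi, norm_zero]; exact zero_le_one

theorem dist_mul {G G' : ℚ_[2][X]} (h : Dist G) (h' : Dist G') : Dist (G * G') := by
  refine ⟨h.1.mul h'.1, fun i hi => ?_⟩
  rw [h.1.natDegree_mul h'.1] at hi
  rw [coeff_mul]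
  refine sum_lt fun x hx => ?_
  rw [Finset.HasAntidiagonal.mem_antidiagonal] at hx
  rw [norm_mul]
  by_cases h1 : x.1 < G.natDegree
  · exact mul_lt_one_of_nonneg_of_lt_one_left (norm_nonneg _) (h.2 _ h1) (coeff_le h' _)
  · exact mul_lt_one_of_nonneg_of_lt_one_right (coeff_le h _) (norm_nonneg _) (h'.2 _ (by omega))

theorem res_zero (a : ℤ_[2]) : IsLocalRing.residue ℤ_[2] a = 0 ↔ ‖(a : ℚ_[2])‖ < 1 := by
  rw [IsLocalRing.residue_eq_zero_iff, IsLocalRing.mem_maximalIdeal, PadicInt.mem_nonunits]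
  rfl

theorem dist_dvd {G G' : ℚ_[2][X]} (h : Dist G) (h' : G'.Monic) (hd : G' ∣ G) : Dist G' := by
  have hinj : Function.Injective (algebraMap ℤ_[2] ℚ_[2]) := IsFractionRing.injective _ _
  have hl : G ∈ lifts (algebraMap ℤ_[2] ℚ_[2]) :=
    (lifts_iff_coeff_lifts G).2 fun n => ⟨⟨G.coeff n, coeff_le h n⟩, rfl⟩
  obtain ⟨G0, rfl, hdeg, hm⟩ := lifts_and_natDegree_eq_and_monic hl h.1
  obtain ⟨G1, e⟩ := IsIntegrallyClosed.eq_map_mul_C_of_dvd ℚ_[2] hm hd
  rw [h'.leadingCoeff, C_1, mul_one] at e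
  subst e
  have hm1 : G1.Monic := monic_of_injective hinj h'
  have hd1 : G1 ∣ G0 := (map_dvd_map _ hinj hm1).1 hd
  have e0 : G0.map (IsLocalRing.residue ℤ_[2]) = X ^ G0.natDegree := by
    ext i
    rw [coeff_map, coeff_X_pow]
    rcases lt_trichotomy i G0.natDegree with hi | rfl | hi
    · rw [if_neg hi.ne, res_zero]
      have := h.2 i (hdeg ▸ hi)
      rwa [coeff_map] at this
    · rw [if_pos rfl, hm.coeff_natDegree, map_one]
    · rw [if_neg hi.ne', coeff_eq_zero_of_natDegree_lt hi, map_zero]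
  have hd2 := Polynomial.map_dvd (IsLocalRing.residue ℤ_[2]) hd1
  rw [e0, dvd_prime_pow prime_X] at hd2
  obtain ⟨k, -, hk⟩ := hd2
  have e1 := eq_of_monic_of_associated (hm1.map _) (monic_X_pow k) hk
  have e2 : G1.natDegree = k := by
    rw [← hm1.natDegree_map (IsLocalRing.residue ℤ_[2]), e1, natDegree_X_pow]
  refine ⟨h', fun i hi => ?_⟩
  rw [hm1.natDegree_map, e2] at hi
  have := congrArg (coeff · i) e1
  simp only [coeff_map, coeff_X_pow, if_neg hi.ne] at this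
  rw [coeff_map]
  exact (res_zero _).1 this

theorem dens {B : Type} [TopologicalSpace B] [T2Space B] {f g : ℤ_[2] → B} (hf : Continuous f)
    (hg : Continuous g) (h : ∀ n : ℕ, f n = g n) (a : ℤ_[2]) : f a = g a :=
  congrFun (PadicInt.denseRange_natCast.equalizer hf hg (funext h)) a

section

variable {A : Type} [NormedCommRing A] [NormedAlgebra ℚ_[2] A]

theorem exists_psi [IsUltrametricDist A] [FiniteDimensional ℚ_[2] A] (T : A) (h1 : ‖(1 : A)‖ ≤ 1)
    (hT : ‖T‖ ≤ 1) {G : ℚ_[2][X]} (hG : Dist G) (h0 : aeval T G = 0) :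
    ∃ ψ : ℤ_[2] → A, IsPsi ψ ∧ ψ 1 - 1 = T := by
  have hp : ∀ S : A, ‖S‖ ≤ 1 → ∀ i : ℕ, ‖S ^ i‖ ≤ 1 := fun S hS i => by
    induction i with
    | zero => simpa using h1
    | succ i ih =>
      rw [pow_succ]
      exact (norm_mul_le _ _).trans (mul_le_one₀ ih (norm_nonneg _) hS)
  have hn : ‖T ^ G.natDegree‖ < 1 := by
    rw [aeval_eq_sum_range, Finset.sum_range_succ, hG.1.coeff_natDegree, one_smul, add_comm,
      add_eq_zero_iff_eq_neg] at h0
    rw [h0, norm_neg]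
    refine sum_lt fun i hi => ?_
    rw [norm_smul]
    exact mul_lt_one_of_nonneg_of_lt_one_left (norm_nonneg _) (hG.2 _ (Finset.mem_range.1 hi))
      (hp T hT i)
  have ht : Tendsto (T ^ ·) atTop (𝓝 0) := by
    have h2 := tendsto_pow_atTop_nhds_zero_of_norm_lt_one hn
    rw [NormedAddGroup.tendsto_nhds_zero] at h2 ⊢
    intro ε hε
    obtain ⟨k, hk⟩ := (h2 ε hε).exists
    filter_upwards [eventually_ge_atTop (G.natDegree * k)] with m hm
    obtain ⟨c, rfl⟩ := Nat.exists_eq_add_of_le hm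
    rw [pow_add, pow_mul]
    exact ((norm_mul_le _ _).trans (mul_le_of_le_one_right (norm_nonneg _) (hp T hT c))).trans_lt hk
  let : Algebra ℤ_[2] A := Algebra.compHom A (algebraMap ℤ_[2] ℚ_[2])
  have : IsBoundedSMul ℤ_[2] A := .of_norm_smul_le fun r x => norm_smul_le (r : ℚ_[2]) x
  have : CompleteSpace A := FiniteDimensional.complete ℚ_[2] A
  have hc := PadicInt.continuous_addChar_of_value_at_one (p := 2) ht
  have e1 := PadicInt.addChar_of_value_at_one_def (p := 2) ht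
  refine ⟨PadicInt.addChar_of_value_at_one T ht, ⟨AddChar.map_zero_eq_one _,
    AddChar.map_add_eq_mul _, hc, fun a => ?_⟩, by rw [e1, add_sub_cancel_left]⟩
  refine PadicInt.denseRange_natCast.induction_on a (isClosed_le hc.norm continuous_const) fun n => ?_
  rw [← nsmul_one, AddChar.map_nsmul_eq_pow, e1]
  exact hp _ ((IsUltrametricDist.norm_add_le_max _ _).trans (max_le h1 hT)) n

theorem psi_nat {ψ : ℤ_[2] → A} (h : IsPsi ψ) (n : ℕ) : ψ n = ψ 1 ^ n := by
  induction n with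
  | zero => simpa using h.zero
  | succ n ih => rw [Nat.cast_succ, h.add, ih, pow_succ]

theorem psi_aeval {ψ : ℤ_[2] → A} (h : IsPsi ψ) (n : ℕ) :
    ψ n = aeval (ψ 1 - 1) ((X + 1 : ℚ_[2][X]) ^ n) := by
  simp [psi_nat h n]

theorem psi_fix {ψ : ℤ_[2] → A} (h : IsPsi ψ) {b : ℤ_[2]} {y : A} (hy : ψ b * y = y) (a : ℤ_[2]) :
    ψ (a * b) * y = y := by
  refine dens (f := fun a => ψ (a * b) * y) (g := fun _ => y)
    ((h.cont.comp (continuous_mul_const b)).mul continuous_const) continuous_const (fun n => ?_) a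
  induction n with
  | zero => simp [h.zero]
  | succ n ih => rw [Nat.cast_succ, add_mul, one_mul, h.add, mul_assoc, hy, ih]

theorem unit_of {ψ : ℤ_[2] → A} {q : ℚ_[2][X]} {j : ℕ} (h : IsAF ψ (q ^ j)) (hq : Irreducible q)
    {p : ℚ_[2][X]} (hp : ¬ q ∣ p) : IsUnit (aeval (ψ 1 - 1) p) := by
  obtain ⟨u, v, e⟩ := ((hq.coprime_iff_not_dvd.2 hp).pow_left (m := j))
  have := congrArg (aeval (ψ 1 - 1)) e
  rw [map_add, map_mul, map_mul, (h.2.2 _).2 dvd_rfl, mul_zero, zero_add, map_one] at this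
  exact IsUnit.of_mul_eq_one_right _ this

end

theorem rank_range {K W : Type} [Field K] [AddCommGroup W] [Module K W] (L : K[X] →ₗ[K] W) (g : K[X])
    (h : ∀ p, L p = 0 ↔ g ∣ p) : finrank K (LinearMap.range L) = g.natDegree := by
  have e : LinearMap.ker L = (Ideal.span {g}).restrictScalars K := by
    ext p
    simp [h, Ideal.mem_span_singleton]
  rw [← L.quotKerEquivRange.finrank_eq, (Submodule.quotEquivOfEq _ _ e).finrank_eq,
    (Submodule.Quotient.restrictScalarsEquiv K (Ideal.span {g})).finrank_eq]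
  exact finrank_quotient_span_eq_natDegree

theorem factor {K V W W' : Type} [Field K] [AddCommGroup V] [Module K V] [AddCommGroup W]
    [Module K W] [AddCommGroup W'] [Module K W'] (f : V →ₗ[K] W) (L : V →ₗ[K] W')
    (h : ∀ v, f v = 0 → L v = 0) : ∃ μ : W →ₗ[K] W', ∀ v, μ (f v) = L v := by
  obtain ⟨μ, hμ⟩ := LinearMap.exists_extend
    (((LinearMap.ker f).liftQ L h).comp f.quotKerEquivRange.symm.toLinearMap)
  refine ⟨μ, fun v => ?_⟩
  have := LinearMap.congr_fun hμ ⟨f v, v, rfl⟩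
  simpa using this

theorem chain {A : Type} [NormedCommRing A] [NormedAlgebra ℚ_[2] A] {ψ : ℤ_[2] → A}
    {q : ℚ_[2][X]} {j : ℕ} (h : IsAF ψ (q ^ j)) (hq : Irreducible q) :
    Chain (aeval (ψ 1 - 1) q) j q.natDegree := by
  refine ⟨hq.natDegree_pos, by rw [← map_pow, h.2.2], fun a => ?_, fun i hi => ?_⟩
  · obtain ⟨p, rfl⟩ := h.2.1 a
    by_cases hp : q ∣ p
    · exact .inr (map_dvd _ hp)
    · exact .inl (unit_of h hq hp)
  · have := rank_range ((aeval (ψ 1 - 1) : ℚ_[2][X] →ₐ[ℚ_[2]] A).toLinearMap.comp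
      (LinearMap.mulLeft ℚ_[2] (q ^ i))) (q ^ (j - i)) fun p => by
        obtain ⟨c, rfl⟩ := Nat.exists_eq_add_of_le hi
        simp only [LinearMap.comp_apply, LinearMap.mulLeft_apply, AlgHom.toLinearMap_apply, h.2.2]
        rw [pow_add, mul_dvd_mul_iff_left (pow_ne_zero _ hq.ne_zero), Nat.add_sub_cancel_left]
    rw [natDegree_pow, mul_comm] at this
    rw [← this]
    have e : LinearMap.range ((aeval (ψ 1 - 1) : ℚ_[2][X] →ₐ[ℚ_[2]] A).toLinearMap.comp
      (LinearMap.mulLeft ℚ_[2] (q ^ i))) =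
        (Ideal.span {aeval (ψ 1 - 1) q ^ i}).restrictScalars ℚ_[2] := by
      ext y
      simp only [LinearMap.mem_range, LinearMap.comp_apply, LinearMap.mulLeft_apply,
        AlgHom.toLinearMap_apply, Submodule.restrictScalars_mem, Ideal.mem_span_singleton, map_mul,
        map_pow]
      refine ⟨fun ⟨p, e⟩ => ⟨_, e.symm⟩, fun ⟨c, e⟩ => ?_⟩
      obtain ⟨p, rfl⟩ := h.2.1 c
      exact ⟨p, e.symm⟩
    rw [e]
    rfl

theorem exists_ring {G : ℚ_[2][X]} (hG : Dist G) :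
    ∃ (A : Type) (_ : NormedCommRing A) (_ : NormedAlgebra ℚ_[2] A)
      (_ : IsUltrametricDist A) (_ : FiniteDimensional ℚ_[2] A) (ψ : ℤ_[2] → A), IsAF ψ G := by
  classical
  let pb := AdjoinRoot.powerBasis hG.1.ne_zero
  let f : AdjoinRoot G →ₐ[ℚ_[2]] ((Fin pb.dim → ℚ_[2]) →L[ℚ_[2]] (Fin pb.dim → ℚ_[2])) :=
    (Module.End.toContinuousLinearMap (𝕜 := ℚ_[2]) (Fin pb.dim → ℚ_[2])).toAlgHom.comp
      ((Matrix.toLinAlgEquiv' (R := ℚ_[2]) (n := Fin pb.dim)).toAlgHom.comp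
        (Algebra.leftMulMatrix pb.basis))
  have hf : Function.Injective f :=
    (Module.End.toContinuousLinearMap (𝕜 := ℚ_[2]) (Fin pb.dim → ℚ_[2])).injective.comp
      ((Matrix.toLinAlgEquiv' (R := ℚ_[2]) (n := Fin pb.dim)).injective.comp
        (Algebra.leftMulMatrix_injective pb.basis))
  let i1 : NormedCommRing (AdjoinRoot G) := NormedCommRing.induced _ _ f hf
  let i2 : NormedAlgebra ℚ_[2] (AdjoinRoot G) := NormedAlgebra.induced ℚ_[2] _ _ f
  have hn : ∀ x : AdjoinRoot G, ‖x‖ = ‖f x‖ := fun _ => rfl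
  have i3 : IsUltrametricDist (AdjoinRoot G) :=
    IsUltrametricDist.isUltrametricDist_of_forall_norm_add_le_max_norm fun x y => by
      rw [hn, hn, hn, map_add]
      refine ContinuousLinearMap.opNorm_le_bound _ (le_max_of_le_left (norm_nonneg _)) fun v => ?_
      refine (IsUltrametricDist.norm_add_le_max _ _).trans (max_le ?_ ?_)
      · exact ((f x).le_opNorm v).trans
          (mul_le_mul_of_nonneg_right (le_max_left _ _) (norm_nonneg _))
      · exact ((f y).le_opNorm v).trans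
          (mul_le_mul_of_nonneg_right (le_max_right _ _) (norm_nonneg _))
  have i4 : FiniteDimensional ℚ_[2] (AdjoinRoot G) := pb.finite
  have hT : ‖AdjoinRoot.root G‖ ≤ 1 := by
    rw [hn]
    refine ContinuousLinearMap.opNorm_le_bound _ zero_le_one fun v => ?_
    rw [one_mul, pi_norm_le_iff_of_nonneg (norm_nonneg _)]
    intro i
    have e : f (AdjoinRoot.root G) v i = ∑ j, Algebra.leftMulMatrix pb.basis pb.gen i j * v j := rfl
    rw [e, pb.leftMulMatrix, pb.minpolyGen_eq, AdjoinRoot.minpoly_powerBasis_gen_of_monic hG.1]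
    refine IsUltrametricDist.norm_sum_le_of_forall_le_of_nonneg (norm_nonneg _) fun j _ => ?_
    rw [norm_mul, Matrix.of_apply]
    refine (mul_le_of_le_one_left (norm_nonneg _) ?_).trans (norm_le_pi_norm v j)
    split_ifs
    · rw [norm_neg]; exact coeff_le hG _
    · simp
    · simp
  obtain ⟨ψ, hψ, e⟩ := exists_psi (AdjoinRoot.root G)
    (by rw [hn, map_one]; exact ContinuousLinearMap.norm_id_le) hT hG
    (by rw [AdjoinRoot.aeval_eq, AdjoinRoot.mk_self])
  refine ⟨AdjoinRoot G, i1, i2, i3, i4, ψ, hψ, fun y => ?_, fun p => ?_⟩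
  · obtain ⟨p, rfl⟩ := AdjoinRoot.mk_surjective y
    exact ⟨p, by rw [e, AdjoinRoot.aeval_eq]⟩
  · rw [e, AdjoinRoot.aeval_eq, AdjoinRoot.mk_eq_zero]

end TAFX

open TAFX in
theorem t_AFX : AFX := by
  refine ⟨fun G => exists_ring, fun G G' => dist_mul, fun G G' => dist_dvd,
    ⟨monic_X, fun i hi => ?_⟩, ⟨monic_one, fun i hi => by simp at hi⟩,
    ⟨⟨rfl, fun _ _ => (mul_one _).symm, continuous_const, fun _ => norm_one.le⟩,
      fun y => ⟨C y, by simp⟩, fun p => by rw [sub_self, X_dvd_iff, ← coeff_zero_eq_aeval_zero]⟩,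
    fun A _ _ _ ψ G h => ⟨?_, fun A' _ _ _ ψ' G' s h' => ⟨fun hd => ?_, fun hG hs => ?_⟩⟩⟩
  · rw [natDegree_X, Nat.lt_one_iff] at hi
    simp [hi]
  · rintro q j hq rfl
    have h2 : ψ 2 = ψ 1 ^ 2 := psi_nat h.1 2
    refine ⟨chain h hq, fun hm h1 h3 => ?_, ?_, ?_⟩
    · have e : ψ 2 - 1 = aeval (ψ 1 - 1) (X * (X + C 2) : ℚ_[2][X]) := by
        simp only [h2, map_mul, map_add, aeval_X, map_ofNat]
        ring
      rw [e]
      refine unit_of h hq fun hd => ?_
      rcases hq.prime.dvd_or_dvd hd with hd | hd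
      · exact h1 (eq_of_monic_of_associated hm monic_X (hq.associated_of_dvd irreducible_X hd))
      · exact h3 (eq_of_monic_of_associated hm (monic_X_add_C 2)
          (hq.associated_of_dvd (irreducible_of_degree_eq_one (degree_X_add_C 2)) hd))
    · rintro rfl y hy a
      have h3 : ψ 2 * y = y := by
        simp only [map_add, aeval_X, map_ofNat] at hy
        rw [h2]
        linear_combination (ψ 1 - 1) * hy
      have h4 := psi_fix h.1 h3 a
      rw [← h4, ← mul_assoc, ← h.1.add, h4]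
      congr 2
      ring
    · rintro rfl y hy a
      have h3 : ψ 1 * y = y := by
        rw [aeval_X] at hy
        linear_combination hy
      simpa using psi_fix h.1 h3 a
  · obtain ⟨μ, hμ⟩ := factor (aeval (ψ 1 - 1) : ℚ_[2][X] →ₐ[ℚ_[2]] A).toLinearMap
      ((aeval (ψ' 1 - 1) : ℚ_[2][X] →ₐ[ℚ_[2]] A').toLinearMap.comp (LinearMap.mulLeft ℚ_[2] s))
      fun p hp => (h'.2.2 _).2 (hd.trans (mul_dvd_mul_left s ((h.2.2 p).1 hp)))
    replace hμ : ∀ p, μ (aeval (ψ 1 - 1) p) = aeval (ψ' 1 - 1) (s * p) := hμ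
    refine ⟨μ, hμ, fun a y => ?_⟩
    obtain ⟨p, rfl⟩ := h.2.1 y
    refine dens (f := fun a => μ (ψ a * _)) (g := fun a => ψ' a * _)
      (μ.continuous_of_finiteDimensional.comp (h.1.cont.mul continuous_const))
      (h'.1.cont.mul continuous_const) (fun n => ?_) a
    rw [psi_aeval h.1, psi_aeval h'.1, ← map_mul, hμ, hμ, ← map_mul, mul_left_comm]
  · obtain ⟨ν, hν⟩ := factor
      ((aeval (ψ 1 - 1) : ℚ_[2][X] →ₐ[ℚ_[2]] A).toLinearMap.comp (LinearMap.mulLeft ℚ_[2] s))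
      (aeval (ψ' 1 - 1) : ℚ_[2][X] →ₐ[ℚ_[2]] A').toLinearMap
      fun p hp => (h'.2.2 _).2 ((mul_dvd_mul_iff_left hs).1 (hG ▸ (h.2.2 _).1 hp))
    replace hν : ∀ p, ν (aeval (ψ 1 - 1) (s * p)) = aeval (ψ' 1 - 1) p := hν
    refine ⟨ν, hν, fun a y hy => ?_⟩
    obtain ⟨c, rfl⟩ := Ideal.mem_span_singleton.1 hy
    obtain ⟨p, rfl⟩ := h.2.1 c
    refine dens (f := fun a => ν (ψ a * _)) (g := fun a => ψ' a * _)
      (ν.continuous_of_finiteDimensional.comp (h.1.cont.mul continuous_const))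
      (h'.1.cont.mul continuous_const) (fun n => ?_) a
    rw [psi_aeval h.1, psi_aeval h'.1, ← map_mul, ← map_mul, mul_left_comm, hν, hν, map_mul]

end Pool.Agent.P.MP_8b7eba_nt.R2
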