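import Pool.Agent.P.MP_8b7eba_nt.R2.GrpA

/-! Proof of APB. -/

namespace Pool.Agent.P.MP_8b7eba_nt.R2

open scoped NNReal Matrix
open MP_9c97e9_nt (Pt pm Is ap Sha Split)
open Filter Topology Polynomial Module

namespace TAPB

theorem ap_eq (p : ℕ) [Fact p.Prime] (h2 : ringChar (ZMod p) ≠ 2) :
    ap W15 p = -∑ x : ZMod p, quadraticChar (ZMod p) (x * (x + 9) * (x - 16)) := by
  have e : ∀ x y : ZMod p, (W15.baseChange (ZMod p)).toAffine.Equation x y ↔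
      y ^ 2 = x * (x + 9) * (x - 16) := fun x y => by
    rw [WeierstrassCurve.Affine.equation_iff]
    simp only [W15, WeierstrassCurve.baseChange, WeierstrassCurve.map, WeierstrassCurve.toAffine,
      map_zero, map_neg, map_ofNat]
    constructor <;> intro h <;> linear_combination h
  have h : (Nat.card {q : ZMod p × ZMod p // (W15.baseChange (ZMod p)).toAffine.Equation q.1 q.2} : ℤ) =
      ∑ x : ZMod p, (quadraticChar (ZMod p) (x * (x + 9) * (x - 16)) + 1) := by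
    rw [Nat.card_congr (Equiv.subtypeProdEquivSigmaSubtype
      fun x y : ZMod p => (W15.baseChange (ZMod p)).toAffine.Equation x y), Nat.card_sigma, Nat.cast_sum]
    refine Finset.sum_congr rfl fun x _ => ?_
    rw [← quadraticChar_card_sqrts h2, ← Nat.card_eq_card_toFinset]
    exact congrArg _ (Nat.card_congr (Equiv.subtypeEquivRight fun y => e x y))
  rw [ap, h, Finset.sum_add_distrib]
  simp

theorem ne_of {p : ℕ} (hp : p.Prime) (h : ¬ p ∣ 30) {q : ℕ} (hq : q ∣ 30) :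
    (q : ZMod p) ^ 2 ≠ 0 ∧ (q : ZMod p) ^ 4 ≠ 0 := by
  have := Fact.mk hp
  have h0 : (q : ZMod p) ≠ 0 := fun e => h (((ZMod.natCast_eq_zero_iff _ _).1 e).trans hq)
  exact ⟨pow_ne_zero _ h0, pow_ne_zero _ h0⟩

theorem nsub (x y : ℚ_[2]) {c : ℝ} (hx : ‖x‖ ≤ c) (hy : ‖y‖ ≤ c) : ‖x - y‖ ≤ c := by
  rw [sub_eq_add_neg]
  exact (IsUltrametricDist.norm_add_le_max _ _).trans (max_le hx (by rwa [norm_neg]))

theorem nadd (x y : ℚ_[2]) {c : ℝ} (hx : ‖x‖ ≤ c) (hy : ‖y‖ ≤ c) : ‖x + y‖ ≤ c :=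
  (IsUltrametricDist.norm_add_le_max _ _).trans (max_le hx hy)

theorem nmul (x y : ℚ_[2]) {c : ℝ} (hx : ‖x‖ ≤ 1) (hy : ‖y‖ ≤ c) : ‖x * y‖ ≤ c := by
  rw [norm_mul]
  exact (mul_le_of_le_one_left (norm_nonneg _) hx).trans hy

theorem dvd_iff (x : ℤ_[2]) (k : ℕ) : 2 ^ k ∣ x ↔ ‖(x : ℚ_[2])‖ ≤ (2 ^ k)⁻¹ := by
  have := PadicInt.norm_le_pow_iff_mem_span_pow x k
  rw [Ideal.mem_span_singleton, zpow_neg, zpow_natCast] at this
  exact_mod_cast this.symm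

theorem norm_cq (g : GQ) : ‖cq g‖ = 1 := PadicInt.norm_units (cyc g)

theorem sq_unit (u : ℤ_[2]ˣ) : 2 ^ 2 ∣ ((u * u : ℤ_[2]ˣ) : ℤ_[2]) - 1 := by
  have h1 := PadicInt.appr_spec 1 (u : ℤ_[2])
  have h2 := PadicInt.appr_lt (u : ℤ_[2]) 1
  rw [Ideal.mem_span_singleton] at h1
  obtain ⟨t, ht⟩ := h1
  have h3 : (u : ℤ_[2]).appr 1 = 0 ∨ (u : ℤ_[2]).appr 1 = 1 := by omega
  rcases h3 with h3 | h3
  · rw [h3] at ht
    have h4 : ‖(u : ℤ_[2])‖ < 1 := (PadicInt.norm_lt_one_iff_dvd _).2 ⟨t, by simpa using ht⟩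
    exact absurd (PadicInt.norm_units u) h4.ne
  · rw [h3] at ht
    refine ⟨t + t * t, ?_⟩
    have h4 : (u : ℤ_[2]) = 1 + 2 * t := by
      push_cast at ht
      linear_combination ht
    rw [Units.val_mul, h4]
    ring

/-- the determinant of a matrix close to a diagonal one -/
theorem det_near (B : Mt) {c ε : _} (hc : ‖c‖ ≤ 1) (hε : ε ≤ 1)
    (h : ∀ i j, ‖(B - !![c, 0; 0, 1]) i j‖ ≤ ε) : ‖B.det - c‖ ≤ ε := by
  have h00 : ‖B 0 0 - c‖ ≤ ε := h 0 0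
  have h01 : ‖B 0 1 - 0‖ ≤ ε := h 0 1
  have h10 : ‖B 1 0 - 0‖ ≤ ε := h 1 0
  have h11 : ‖B 1 1 - 1‖ ≤ ε := h 1 1
  have e : B.det - c = c * (B 1 1 - 1) + (B 0 0 - c) + (B 0 0 - c) * (B 1 1 - 1) -
      (B 0 1 - 0) * (B 1 0 - 0) := by
    rw [Matrix.det_fin_two]
    ring
  rw [e]
  exact nsub _ _ (nadd _ _ (nadd _ _ (nmul _ _ hc h11) h00) (nmul _ _ (h00.trans hε) h11))
    (nmul _ _ (h01.trans hε) h10)

theorem pow_near {x : ℚ_[2]} (hx : ‖x - 1‖ ≤ 4⁻¹) (m : ℕ) : ‖x ^ m - 1‖ ≤ 4⁻¹ := by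
  induction m with
  | zero => simp
  | succ m ih =>
    have e : x ^ (m + 1) - 1 = (x ^ m - 1) * (x - 1) + (x ^ m - 1) + (x - 1) := by ring
    rw [e]
    exact nadd _ _ (nadd _ _ (nmul _ _ (ih.trans (by norm_num)) hx) ih) hx

theorem odd_pow {x : ℚ_[2]} (hx : ‖x - 1‖ ≤ 4⁻¹) {m : ℕ} (hm : Odd m) :
    ‖x ^ m - 1‖ = ‖x - 1‖ := by
  have h1 : ‖(∑ i ∈ Finset.range m, x ^ i) - m‖ ≤ 4⁻¹ := by
    have e : (∑ i ∈ Finset.range m, x ^ i) - m = ∑ i ∈ Finset.range m, (x ^ i - 1) := by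
      simp
    rw [e]
    exact IsUltrametricDist.norm_sum_le_of_forall_le_of_nonneg (by norm_num)
      fun i _ => pow_near hx i
  have h2 : ‖(m : ℚ_[2])‖ = 1 := by
    rw [Padic.norm_natCast_eq_one_iff]
    exact Nat.coprime_two_left.2 hm
  have h3 : ‖∑ i ∈ Finset.range m, x ^ i‖ = 1 := by
    rw [← h2]
    exact Padic.norm_eq_of_norm_sub_lt_right (by rw [h2]; exact h1.trans_lt (by norm_num))
  rw [← geom_sum_mul, norm_mul, h3, one_mul]

section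
variable {pt : V2 →+ EO} (hk : ∀ v, pt v = 0 ↔ ‖v‖ ≤ 1)
include hk

theorem tors (v : V2) : ∃ k : ℕ, 2 ^ k • pt v = 0 := by
  obtain ⟨k, h⟩ := pow_unbounded_of_one_lt ‖v‖ (one_lt_two (α := ℝ))
  refine ⟨k, ?_⟩
  rw [← map_nsmul, hk, ← Nat.cast_smul_eq_nsmul ℚ_[2], norm_smul, Nat.cast_pow,
    Padic.norm_p_pow, zpow_neg, zpow_natCast, Nat.cast_ofNat, inv_mul_le_one₀ (by positivity)]
  exact h.le

theorem eq_zero (B : Mt) (h : ∀ v, pt (B *ᵥ v) = 0) : B = 0 := by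
  refine Matrix.toLin'.injective (LinearMap.ext fun v => ?_)
  rw [map_zero, Matrix.toLin'_apply, LinearMap.zero_apply]
  by_contra h0
  obtain ⟨c, hc⟩ := NormedField.exists_lt_norm ℚ_[2] ‖B *ᵥ v‖⁻¹
  have h1 := (hk _).1 (h (c • v))
  rw [Matrix.mulVec_smul, norm_smul] at h1
  have h2 := norm_pos_iff.2 h0
  rw [inv_lt_iff_one_lt_mul₀ h2] at hc
  exact hc.not_ge h1

end

end TAPB

open TAPB

theorem t_APB : APB := by
  intro p hp h30
  have := Fact.mk hp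
  have hp2 : p ≠ 2 := fun e => h30 (e ▸ by norm_num)
  rw [ap_eq p (by rwa [ZMod.ringChar_zmod_n]), abs_neg, even_neg]
  refine ⟨(Finset.abs_sum_le_sum_abs _ _).trans ((Finset.sum_le_card_nsmul _ _ 1 fun x _ => ?_).trans
    (by simp)), ?_⟩
  · rcases quadraticChar_isQuadratic (ZMod p) (x * (x + 9) * (x - 16)) with h | h | h <;> simp [h]
  have h9 : (9 : ZMod p) ≠ 0 := fun e =>
    (ne_of hp h30 (q := 3) (by norm_num)).1 (by push_cast; linear_combination e)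
  have h16 : (16 : ZMod p) ≠ 0 := fun e =>
    (ne_of hp h30 (q := 2) (by norm_num)).2 (by push_cast; linear_combination e)
  have h25 : (25 : ZMod p) ≠ 0 := fun e =>
    (ne_of hp h30 (q := 5) (by norm_num)).1 (by push_cast; linear_combination e)
  have a1 : (0 : ZMod p) ≠ -9 := fun e => h9 (by linear_combination e)
  have a2 : (-9 : ZMod p) ≠ 16 := fun e => h25 (by linear_combination -e)
  have h : Even (∑ x : ZMod p, (quadraticChar (ZMod p) (x * (x + 9) * (x - 16)) + 1 +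
      (if x = 0 then 1 else 0) + (if x = -9 then 1 else 0) + (if x = 16 then 1 else 0))) := by
    refine Finset.even_sum _ fun x _ => ?_
    by_cases h1 : x = 0
    · subst h1
      rw [if_pos rfl, if_neg a1, if_neg h16.symm, zero_mul, zero_mul, MulChar.map_zero]
      decide
    by_cases h2 : x = -9
    · subst h2
      rw [if_pos rfl, if_neg a1.symm, if_neg a2, neg_add_cancel, mul_zero, zero_mul,
        MulChar.map_zero]
      decide
    by_cases h3 : x = 16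
    · subst h3
      rw [if_pos rfl, if_neg h16, if_neg a2.symm, sub_self, mul_zero, MulChar.map_zero]
      decide
    rw [if_neg h1, if_neg h2, if_neg h3]
    rcases quadraticChar_dichotomy (mul_ne_zero (mul_ne_zero h1 fun e =>
      h2 (eq_neg_of_add_eq_zero_left e)) (sub_ne_zero.2 h3)) with h | h <;> rw [h] <;> decide
  simp only [Finset.sum_add_distrib, Finset.sum_ite_eq', Finset.mem_univ, if_true,
    Finset.sum_const, Finset.card_univ, ZMod.card, nsmul_eq_mul, mul_one] at h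
  obtain ⟨a, ha⟩ := h
  obtain ⟨b, hb⟩ := hp.odd_of_ne_two hp2
  exact ⟨a - b - 2, by omega⟩

theorem t_DET (hA : CA) (hE1G : E1G) (hCONG : CONG) (hFR : FR) : DET := by
  intro pt rho hk hg hsm h4
  obtain ⟨-, hmul, -, -, hN, hfr, -, htau⟩ := hA.ec
  have two : ∀ w : Pl, ¬ w.p ∣ 30 → w.p ≠ 2 := fun w h e => h (e ▸ by norm_num)
  have hE : ∀ w : Pl, ¬ w.p ∣ 30 → ∀ B : Mt, (∀ v, E1 w (pt (B *ᵥ v))) → B = 0 :=
    fun w h B hB => eq_zero hk B fun v =>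
      (tors hk _).elim fun k e => (hE1G w).2.2.2.2.2 (two w h) _ k (hB v) e
  have hF : ∀ (w : Pl) (φ : GQ), ¬ w.p ∣ 30 → w.IsFrob 1 φ →
      (rho φ 0 0 * rho φ 0 0 + rho φ 0 1 * rho φ 1 0 - ap W15 w.p * rho φ 0 0 + w.p = 0 ∧
      rho φ 1 0 * rho φ 0 1 + rho φ 1 1 * rho φ 1 1 - ap W15 w.p * rho φ 1 1 + w.p = 0) ∧
      cq φ = w.p := fun w φ h hφ => by
    have := hE w h (rho φ * rho φ - ap W15 w.p • rho φ + w.p • 1) fun v => by
      have := hFR w φ h hφ (pt v)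
      rwa [hg, hg, ← map_zsmul, ← map_nsmul, ← map_sub, ← map_add, Matrix.mulVec_mulVec,
        ← Matrix.smul_mulVec, ← Matrix.sub_mulVec, ← Matrix.one_mulVec (w.p • v),
        Matrix.mulVec_smul, ← Matrix.smul_mulVec, ← Matrix.add_mulVec] at this
    refine ⟨⟨?_, ?_⟩, ?_⟩
    · have e := congrFun (congrFun this 0) 0
      rwa [Matrix.add_apply, Matrix.sub_apply, Matrix.smul_apply, Matrix.smul_apply,
        Matrix.mul_apply, Fin.sum_univ_two, Matrix.one_apply_eq, zsmul_eq_mul, nsmul_one] at e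
    · have e := congrFun (congrFun this 1) 1
      rwa [Matrix.add_apply, Matrix.sub_apply, Matrix.smul_apply, Matrix.smul_apply,
        Matrix.mul_apply, Fin.sum_univ_two, Matrix.one_apply_eq, zsmul_eq_mul, nsmul_one] at e
    · rw [cq, hfr w 1 φ (two w h) hφ, pow_one, PadicInt.coe_natCast]
  have cq0 : ∀ g, cq g ≠ 0 := fun g => norm_ne_zero_iff.1 (by rw [norm_cq]; exact one_ne_zero)
  have cqm : ∀ g h, cq (g * h) = cq g * cq h := fun g h => by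
    rw [cq, hmul, Units.val_mul, PadicInt.coe_mul, cq, cq]
  let χ : GQ →* ℚ_[2] :=
    { toFun := fun g => (rho g).det / cq g
      map_one' := by
        have : cq 1 = 1 := mul_left_cancel₀ (cq0 1) (by rw [← cqm, mul_one, mul_one])
        rw [map_one, Matrix.det_one, this, div_one]
      map_mul' := fun g h => by rw [map_mul, Matrix.det_mul, cqm, mul_div_mul_comm] }
  have hχ : ∀ g, ‖χ g - 1‖ = ‖(rho g).det - cq g‖ := fun g => by
    have : χ g - 1 = ((rho g).det - cq g) / cq g := by rw [sub_div, div_self (cq0 g)]; rfl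
    rw [this, norm_div, norm_cq, div_one]
  have hχ4 : ∀ g, ‖χ g - 1‖ ≤ 4⁻¹ := fun g =>
    (hχ g).trans_le (det_near _ (norm_cq g).le (by norm_num) (h4 g))
  have hN' : ∀ k : ℕ, ∃ N, ON N ∧ ∀ σ, σ ∈ N ↔ ‖cq σ - 1‖ ≤ (2 ^ k)⁻¹ := fun k =>
    (hN k).imp fun N h => ⟨h.1, fun σ => (h.2 σ).trans (dvd_iff _ k)⟩
  obtain ⟨Q, -, hQ⟩ := hN 2
  have hQ' : ∀ σ, σ ∈ Q ↔ ‖cq σ - 1‖ ≤ (2 ^ 2)⁻¹ := fun σ => (hQ σ).trans (dvd_iff _ 2)
  have hodd : ∀ g, g ∉ Q → ∀ r, Odd r → g ^ r ∉ Q := by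
    rintro g h _ ⟨j, rfl⟩ h'
    have h2 : g * g ∈ Q := (hQ _).2 (hmul g g ▸ sq_unit _)
    rw [pow_succ, pow_mul, pow_two] at h'
    exact h ((Q.mul_mem_cancel_left (pow_mem h2 j)).1 h')
  have hφ : ∀ (w : Pl) (φ : GQ), ¬ w.p ∣ 30 → w.IsFrob 1 φ → φ ∉ Q → χ φ = 1 := by
    intro w φ h hφ hq
    obtain ⟨⟨h0, h1⟩, h2⟩ := hF w φ h hφ
    have hne : rho φ 0 0 - rho φ 1 1 ≠ 0 := fun e => hq ((hQ' φ).2 (by
      have h00 : ‖rho φ 0 0 - cq φ‖ ≤ 4⁻¹ := h4 φ 0 0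
      have h11 : ‖rho φ 1 1 - 1‖ ≤ 4⁻¹ := h4 φ 1 1
      have e' : cq φ - 1 = rho φ 1 1 - 1 - (rho φ 0 0 - cq φ) := by linear_combination e
      rw [e']
      exact (nsub _ _ h11 h00).trans (by norm_num)))
    have ht : rho φ 0 0 + rho φ 1 1 - ap W15 w.p = 0 :=
      (mul_eq_zero.1 (by linear_combination h0 - h1)).resolve_left hne
    refine (div_eq_one_iff_eq (cq0 φ)).2 ?_
    rw [Matrix.det_fin_two, h2]
    linear_combination rho φ 0 0 * ht - h0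
  have hmain : ∀ g, g ∉ Q → χ g = 1 := fun g hq => by
    refine sub_eq_zero.1 (norm_le_zero_iff.1 (le_of_forall_pos_le_add fun ε hε => ?_))
    obtain ⟨n, hn⟩ := pow_unbounded_of_one_lt ε⁻¹ (one_lt_two (α := ℝ))
    obtain ⟨N₁, o₁, h₁⟩ := hsm (2 ^ (n + 2))⁻¹ (by positivity)
    obtain ⟨N₂, o₂, h₂⟩ := hN' (n + 2)
    have hle : ((2 : ℝ) ^ (n + 2))⁻¹ ≤ (2 ^ 2)⁻¹ :=
      inv_anti₀ (by positivity) (pow_le_pow_right₀ one_le_two (by omega))
    have hNQ : N₁ ⊓ N₂ ≤ Q := fun σ h => (hQ' σ).2 (((h₂ σ).1 h.2).trans hle)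
    obtain ⟨m, hm, hgm⟩ := (o₁.inf o₂).exists_pow g
    obtain ⟨s, r, hr, rfl⟩ := Nat.exists_eq_two_pow_mul_odd hm.ne'
    rw [mul_comm, pow_mul] at hgm
    obtain ⟨w, φ, r', hw, hf, hr', hmem⟩ := hA.genp.2.2 (N₁ ⊓ N₂) (g ^ r) s 30 (o₁.inf o₂)
      (fun h => hodd g hq r hr (hNQ h)) hgm
    rw [← pow_mul] at hmem
    have h1 := hφ w φ (Nat.not_dvd_of_pos_of_lt (by norm_num) hw) hf fun h =>
      hodd g hq _ (hr.mul hr') (Q.inv_mem_iff.1 ((Q.mul_mem_cancel_right h).1 (hNQ hmem)))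
    have hi := (N₁ ⊓ N₂).inv_mem hmem
    have h2 : χ ((g ^ (r * r'))⁻¹ * φ)⁻¹ = χ g ^ (r * r') := by
      rw [mul_inv_rev, inv_inv, map_mul, map_pow, ← mul_one (χ φ⁻¹), ← h1, ← map_mul,
        inv_mul_cancel, map_one, one_mul]
    have h3 : ‖χ ((g ^ (r * r'))⁻¹ * φ)⁻¹ - 1‖ ≤ (2 ^ (n + 2))⁻¹ := by
      generalize ((g ^ (r * r'))⁻¹ * φ)⁻¹ = σ at hi
      have e : (rho σ).det - cq σ = (rho σ).det - 1 - (cq σ - 1) := by ring
      rw [hχ, e]
      refine nsub _ _ (det_near _ norm_one.le (hle.trans (by norm_num)) ?_) ((h₂ σ).1 hi.2)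
      rw [← Matrix.one_fin_two]
      exact h₁ σ hi.1
    rw [h2, odd_pow (hχ4 g) (hr.mul hr')] at h3
    rw [zero_add]
    exact h3.trans ((inv_anti₀ (by positivity) (pow_le_pow_right₀ one_le_two (by omega))).trans
      (inv_le_of_inv_le₀ hε hn.le))
  have ht : tau ∉ Q := fun h => by
    have := (hQ' tau).1 h
    have e : cq tau - 1 = -(2 : ℕ) := by
      rw [cq, htau]
      norm_num
    rw [e, norm_neg, Padic.norm_p] at this
    norm_num at this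
  have hdet : ∀ g, (rho g).det = cq g := fun g => by
    refine (div_eq_one_iff_eq (cq0 g)).1 (?_ : χ g = 1)
    by_cases h : g ∈ Q
    · have := hmain (tau * g) fun h' => ht ((Q.mul_mem_cancel_right h).1 h')
      rwa [map_mul, hmain tau ht, one_mul] at this
    · exact hmain g h
  refine ⟨hdet, fun w h => ⟨fun g hi => sub_eq_zero.1 (hE w h _ fun v => ?_), fun φ hf => ?_⟩⟩
  · rw [Matrix.sub_mulVec, Matrix.one_mulVec, map_sub, ← hg]
    exact (hCONG w fun e => h (e.trans (by norm_num))).2 g hi _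
  · obtain ⟨⟨-, h1⟩, h2⟩ := hF w φ h hf
    have hd := (hdet φ).trans h2
    refine ⟨?_, hd⟩
    have hne : rho φ 1 1 ≠ 0 := fun e => by
      have h11 : ‖rho φ 1 1 - 1‖ ≤ 4⁻¹ := h4 φ 1 1
      rw [e, zero_sub, norm_neg, norm_one] at h11
      norm_num at h11
    rw [Matrix.det_fin_two] at hd
    rw [Matrix.trace_fin_two]
    exact mul_left_cancel₀ hne (by linear_combination h1 + hd)

theorem t_TR (hDET : DET) : TR := fun _ T => (hDET T.pt T.rho T.ker T.gal T.sm T.four).2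

end Pool.Agent.P.MP_8b7eba_nt.R2
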