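import Pool.Agent.P.MP_8b7eba_nt.R2.SelB
import Pool.Agent.P.MP_8b7eba_nt.R2.ChainA

/-! Proof of CH2. -/

namespace Pool.Agent.P.MP_8b7eba_nt.R2

open scoped NNReal Matrix
open MP_9c97e9_nt (Pt pm Is ap Sha Split)
open Filter Topology Polynomial Module

namespace TCH2

variable {A : Type} [NormedCommRing A] [NormedAlgebra ℚ_[2] A]

theorem mv_single (p q : Fin 2) (v : Fin 2 → A) :
    mv (Matrix.single p q 1) v = Pi.single p (v q) := by
  funext i
  rw [mv_apply]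
  fin_cases p <;> fin_cases q <;> fin_cases i <;> simp

theorem span_mv {S : Set Mt} (hS : ∀ B, B ∈ Submodule.span ℚ_[2] S) {ι : Type}
    (Y : Submodule A (ι → Fin 2 → A)) {y : ι → Fin 2 → A}
    (h : ∀ B ∈ S, (fun i => mv B (y i)) ∈ Y) (B : Mt) : (fun i => mv B (y i)) ∈ Y := by
  induction hS B using Submodule.span_induction with
  | mem B hB => exact h B hB
  | zero =>
    have e : (fun i => mv (0 : Mt) (y i)) = 0 := by
      funext i j; simp [mv_apply]
    rw [e]; exact zero_mem _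
  | add B B' _ _ h1 h2 =>
    simp only [mv_add]
    exact add_mem h1 h2
  | smul c B _ h1 =>
    simp only [mv_smul]
    exact Y.smul_of_tower_mem c h1

/-- the polar form of the determinant -/
noncomputable def pol (P : A) (u w : (Fin 4 → Fin 2 → A) →ₗ[A] Fin 2 → A) :
    (Fin 4 → Fin 2 → A) →ₗ[A] (Fin 4 → Fin 2 → A) →ₗ[A] A :=
  LinearMap.mk₂ A (fun y z => P * (u y 0 * w z 1 + u z 0 * w y 1 - u y 1 * w z 0 - u z 1 * w y 0))
    (fun _ _ _ => by simp only [map_add, Pi.add_apply]; ring)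
    (fun _ _ _ => by simp only [map_smul, Pi.smul_apply, smul_eq_mul]; ring)
    (fun _ _ _ => by simp only [map_add, Pi.add_apply]; ring)
    (fun _ _ _ => by simp only [map_smul, Pi.smul_apply, smul_eq_mul]; ring)

theorem alg (P U U' : A) (hU : IsUnit (U - U')) (t R R' : Mt) (hR : R * R' = 1) {S : Set Mt}
    (hS : ∀ B, B ∈ Submodule.span ℚ_[2] S) (Γ : Set (Fin 4 → Fin 2 → A))
    (h0 : ∀ y ∈ Γ, ∀ z ∈ Γ, y + z ∈ Γ) (h1 : ∀ B ∈ S, ∀ y ∈ Γ, (fun i => mv B (y i)) ∈ Γ)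
    (h2 : ∀ y ∈ Γ, (fun i => ![U, U, U', U'] i • mv R (y i)) ∈ Γ)
    (hQ : ∀ y ∈ Γ, P * ((y 0 + mv t (y 2)) 0 * (y 1 + mv t (y 3)) 1 -
      (y 0 + mv t (y 2)) 1 * (y 1 + mv t (y 3)) 0) = 0) :
    ∀ y ∈ Γ, ∀ z ∈ Γ, ∀ i j, P * (y 0 i * z 1 j - z 0 j * y 1 i) = 0 := by
  let u : (Fin 4 → Fin 2 → A) →ₗ[A] Fin 2 → A := .proj 0 + mv t ∘ₗ .proj 2
  let w : (Fin 4 → Fin 2 → A) →ₗ[A] Fin 2 → A := .proj 1 + mv t ∘ₗ .proj 3
  have hQ' : ∀ y ∈ Γ, P * (u y 0 * w y 1 - u y 1 * w y 0) = 0 := hQ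
  have b0 : ∀ y ∈ Γ, ∀ z ∈ Γ, pol P u w y z = 0 := fun y hy z hz => by
    have a := hQ' _ (h0 y hy z hz)
    simp only [map_add, Pi.add_apply] at a
    rw [pol, LinearMap.mk₂_apply]
    linear_combination a - hQ' y hy - hQ' z hz
  have b1 : ∀ y ∈ Submodule.span A Γ, ∀ z ∈ Submodule.span A Γ, pol P u w y z = 0 := by
    intro y hy z hz
    refine (Submodule.span_le (p := LinearMap.ker ((pol P u w).flip z))).2 (fun y hy => ?_) hy
    exact (Submodule.span_le (p := LinearMap.ker (pol P u w y))).2 (fun z hz => b0 y hy z hz) hz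
  have m1 : ∀ y ∈ Γ, ∀ B, (fun i => mv B (y i)) ∈ Submodule.span A Γ := fun y hy =>
    span_mv hS _ fun B hB => Submodule.subset_span (h1 B hB y hy)
  let L : (Fin 4 → Fin 2 → A) →ₗ[A] Fin 4 → Fin 2 → A :=
    .pi fun i => ![U, U, U', U'] i • mv R ∘ₗ .proj i
  have m2 : ∀ y ∈ Submodule.span A Γ, L y ∈ Submodule.span A Γ := fun y hy =>
    (Submodule.span_le (p := (Submodule.span A Γ).comap L)).2
      (fun y hy => Submodule.subset_span (h2 y hy)) hy
  have m3 : ∀ y ∈ Γ, ∀ B, ![mv B (y 0), mv B (y 1), 0, 0] ∈ Submodule.span A Γ := fun y hy B => by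
    obtain ⟨c, hc⟩ := hU.exists_left_inv
    have a := Submodule.smul_mem _ c
      (sub_mem (m2 _ (m1 y hy (R' * B))) (Submodule.smul_mem _ U' (m1 y hy B)))
    refine (congrArg (· ∈ Submodule.span A Γ) ?_).mp a
    funext i
    have e : L (fun i => mv (R' * B) (y i)) i = ![U, U, U', U'] i • mv B (y i) := by
      change ![U, U, U', U'] i • mv R (mv (R' * B) (y i)) = _
      rw [← mv_mul, ← mul_assoc, hR, one_mul]
    rw [Pi.smul_apply, Pi.sub_apply, e, Pi.smul_apply, ← sub_smul, smul_smul]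
    fin_cases i <;> simp [hc]
  intro y hy z hz i j
  have a := b1 _ (m3 y hy (Matrix.single 0 i 1)) _ (m3 z hz (Matrix.single 1 j 1))
  simp only [pol, LinearMap.mk₂_apply, mv_single, u, w] at a
  simpa using a

variable {D : Dat}

theorem Z_mul {g h : GQ} (hg : D.Z g) (hh : D.Z h) : D.Z (g * h) :=
  ⟨D.GK.mul_mem hg.1 hh.1, by rw [map_mul, hg.2.1, hh.2.1, one_mul],
    by rw [D.an.add g hg.1 h hh.1, hg.2.2.1, hh.2.2.1, add_zero],
    by rw [AlgEquiv.mul_apply, hh.2.2.2, hg.2.2.2]⟩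

theorem Z_conj {g h : GQ} (hg : D.Z g) (hh : h ∈ D.GK) : D.Z (h * g * h⁻¹) := by
  refine ⟨D.GK.mul_mem (D.GK.mul_mem hh hg.1) (D.GK.inv_mem hh), ?_,
    (D.an.conj hh hg.1).trans hg.2.2.1, ?_⟩
  · rw [map_mul, map_mul, hg.2.1, mul_one, ← map_mul, mul_inv_cancel, map_one]
  · have e : g (h⁻¹ D.dl) = h⁻¹ D.dl := by
      rcases GrpA.pm D.hdl h⁻¹ with e | e <;> simp only [e, map_neg, hg.2.2.2]
    rw [AlgEquiv.mul_apply, AlgEquiv.mul_apply, e, BasicP.apply_inv]

theorem mem {g : GS} (hg : ∀ k, D.Z (g k)) : g ∈ S1 D.GK := Eventually.of_forall fun k => (hg k).1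

variable [IsUltrametricDist A] [FiniteDimensional ℚ_[2] A] {ψ : ℤ_[2] → A} {x : GS → Fin 2 → A}

theorem add (h : IsPsi ψ) (hx : PZ (fun _ => D.GK) (D.r ψ) x) {g g' : GS} (hg : ∀ k, D.Z (g k))
    (hg' : ∀ k, D.Z (g' k)) : x (g * g') = x g + x g' := by
  rw [hx.2 g (mem hg) g' (mem hg'), Dat.rS_Z h (Eventually.of_forall hg)]

theorem conj (h : IsPsi ψ) (hx : PZ (fun _ => D.GK) (D.r ψ) x) {g : GS} (hg : ∀ k, D.Z (g k))
    {s : GQ} (hs : s ∈ D.GK) :
    x (cs s * g * (cs s)⁻¹) = ψ (D.a s) • mv (D.T.rd D.dl s) (x g) := by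
  rw [hx.conj (D.rep h) (fun _ => le_rfl) (cs_mem.2 hs) (mem hg), rS_cs,
    Dat.rS_Z h (g := cs s * g * (cs s)⁻¹) (Eventually.of_forall fun k => Z_conj (hg k) hs),
    add_sub_cancel_left, Dat.r_apply]

theorem rd_eq {s : GQ} (hs : s D.dl = D.dl) : D.T.rd D.dl s = D.T.rho s := by
  rw [Tate.rd, sd_eq_one.2 hs, Int.cast_one, one_smul]

theorem proper (hA : CA) (h : IsPsi ψ) {n : List (Kp D)} (hx : D.Rel ψ n x) (h0 : x ≠ 0) {ε : A}
    (hε : ε = 1 ∨ ε = -1) : ∃ g : GS, (∀ k, D.Z (g k)) ∧ x g + ε • mv (D.T.rho tau) (x g) ≠ 0 := by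
  by_contra! H
  refine h0 (hx.eq_zero h fun g hg => ?_)
  obtain ⟨C, hC, e⟩ : ∃ C : Mt, C.trace = 2 ∧ ∀ v : Fin 2 → A,
      v + ε • mv (D.T.rho tau) v = mv C v := by
    have t := (D.T.tau hA.tau hA.ec).2.2
    rcases hε with rfl | rfl
    · exact ⟨1 + D.T.rho tau, by simp [t], fun v => by rw [mv_add, mv_one, one_smul]⟩
    · exact ⟨1 + (-1 : ℚ_[2]) • D.T.rho tau, by simp [t], fun v => by
        rw [mv_add, mv_one, mv_smul, neg_one_smul, neg_one_smul]⟩
  obtain ⟨p, hp⟩ : ∃ p, C p p ≠ 0 := by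
    by_contra! k
    simp [Matrix.trace, k] at hC
  funext i
  have a := span_mv D.span (LinearMap.ker (mv C ∘ₗ .proj ())) (y := fun _ : Unit => x g) (by
    rintro _ ⟨s, hs, rfl⟩
    have b := H _ fun k => Z_conj (hg k) hs.1
    have c := conj h hx.pz hg hs.1
    rw [hs.2.1, h.zero, one_smul, rd_eq hs.2.2] at c
    rw [e] at b
    exact c ▸ b) (Matrix.single p i 1)
  have b : mv C (mv (Matrix.single p i 1) (x g)) p = 0 := congrFun a p
  rw [mv_single, mv_apply] at b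
  refine (smul_eq_zero.1 (?_ : C p p • x g i = 0)).resolve_left hp
  fin_cases p <;> simpa using b

end TCH2

open TCH2

theorem t_CH2 (hCP : CP) (hCHEB0 : CHEB0) : CH2 := by
  intro D n A _ _ _ _ ψ x y h hx hy
  have hB : CB := hCP.toCF.toCB
  refine ⟨fun π j e hc hU x0 y0 hi => ?_, fun ε ε' hε hε' x0 y0 ex ey => ?_⟩
  · rcases j with _ | j
    · obtain ⟨l, hl, -⟩ := hCHEB0 D n A ψ x y 1 h hx.pz hy.pz fun k =>
        ⟨D.GK.one_mem, map_one _, D.an.one, rfl⟩
      have := subsingleton_of_zero_eq_one ((pow_zero π).symm.trans hc.nil).symm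
      exact ⟨l, hl, fun a b _ => ⟨⟨0, Subsingleton.elim _ _⟩, 0, Subsingleton.elim _ _⟩⟩
    by_contra H
    let f : GS → Fin 4 → Fin 2 → A := fun g => ![x g, y g, D.xt x g, D.xt y g]
    have px := hx.pz.xt hB h
    have py := hy.pz.xt hB h
    have z0 : ∀ z : GS → Fin 2 → A, π • z = 0 → π • D.xt z = 0 := fun z hz => by
      rw [← Dat.xt_smul, hz]; funext g; exact map_zero _
    have lift : ∀ g, ∃ z, π ^ j • z = f g := fun g => by
      have a : ∀ i k, ∃ c, f g i k = π ^ j * c := fun i k => by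
        refine (hc.ann (i := 1) (Nat.le_add_left 1 j)).1 ?_
        rw [pow_one]
        fin_cases i
        exacts [congrFun (congrFun x0 g) k, congrFun (congrFun y0 g) k,
          congrFun (congrFun (z0 x x0) g) k, congrFun (congrFun (z0 y y0) g) k]
      choose c hc using a
      exact ⟨c, funext fun i => funext fun k => (hc i k).symm⟩
    have cj : ∀ g : GS, (∀ k, D.Z (g k)) → ∀ s ∈ D.GK, f (cs s * g * (cs s)⁻¹) = fun i =>
        ![ψ (D.a s), ψ (D.a s), ψ (-D.a s), ψ (-D.a s)] i • mv (D.T.rd D.dl s) (f g i) :=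
      fun g hg s hs => by
        funext i
        fin_cases i
        exacts [conj h hx.pz hg hs, conj h hy.pz hg hs, conj h.bar px hg hs, conj h.bar py hg hs]
    have gK : D.gm ∈ D.GK := D.D_le (D.w2.I_le_D D.gI)
    have key := alg (π ^ j) (ψ 1) (ψ (-1)) ?_ (D.T.rho tau) (D.T.rd D.dl D.gm) (D.T.rd D.dl D.gm⁻¹)
      ?_ D.span {z | ∃ g : GS, (∀ k, D.Z (g k)) ∧ π ^ j • z = f g} ?_ ?_ ?_ ?_
    · have k : ∀ (g : GS) (i : Fin 2), (∀ k, D.Z (g k)) → x g i = 0 := fun g' i' hg' => by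
        obtain ⟨z', hz'⟩ := lift g'
        obtain ⟨c, e⟩ := (hi (z' 1 i') (-z' 0 i') (((hx.smul h _).add h (hy.smul h _)).eq_zero h
          fun g hg => funext fun i => by
            obtain ⟨z, hz⟩ := lift g
            have a : π ^ j * z 0 i = x g i := congrFun (congrFun hz 0) i
            have b : π ^ j * z 1 i = y g i := congrFun (congrFun hz 1) i
            change z' 1 i' * x g i + -z' 0 i' * y g i = 0
            rw [← a, ← b]
            linear_combination key z ⟨g, hg, hz⟩ z' ⟨g', hg', hz'⟩ i i')).2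
        have a : π ^ j * z' 0 i' = x g' i' := congrFun (congrFun hz' 0) i'
        rw [← a]
        linear_combination -π ^ j * e - c * hc.nil
      have x1 : x = 0 := hx.eq_zero h fun g hg => funext fun i => k g i hg
      have u := isUnit_of_dvd_one (hi 1 0 (by rw [x1, smul_zero, zero_smul, add_zero])).1
      have := subsingleton_of_zero_eq_one
        (((u.pow (j + 1)).mul_left_eq_zero (a := 1)).1 (by rw [hc.nil, mul_zero])).symm
      obtain ⟨l, hl, -⟩ := hCHEB0 D n A ψ x y 1 h hx.pz hy.pz fun k =>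
        ⟨D.GK.one_mem, map_one _, D.an.one, rfl⟩
      exact H ⟨l, hl, fun a b _ => ⟨⟨0, Subsingleton.elim _ _⟩, 0, Subsingleton.elim _ _⟩⟩
    · have e : ψ 1 - ψ (-1) = ψ (-1) * (ψ 2 - 1) := by
        rw [mul_sub, ← h.add, mul_one]; norm_num
      exact e ▸ (h.isUnit _).mul hU
    · rw [← D.T.rd_mul D.fix_dl, mul_inv_cancel, rd_eq rfl, map_one]
    · rintro z ⟨g, hg, e⟩ z' ⟨g', hg', e'⟩
      refine ⟨g * g', fun k => Z_mul (hg k) (hg' k), ?_⟩
      rw [smul_add, e, e']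
      funext i
      fin_cases i
      exacts [(add h hx.pz hg hg').symm, (add h hy.pz hg hg').symm, (add h.bar px hg hg').symm,
        (add h.bar py hg hg').symm]
    · rintro _ ⟨s, hs, rfl⟩ z ⟨g, hg, e⟩
      refine ⟨cs s * g * (cs s)⁻¹, fun k => Z_conj (hg k) hs.1, ?_⟩
      rw [cj g hg s hs.1, ← e, hs.2.1, neg_zero, h.zero, rd_eq hs.2.2]
      funext i
      fin_cases i <;> simp
    · rintro z ⟨g, hg, e⟩
      refine ⟨cs D.gm * g * (cs D.gm)⁻¹, fun k => Z_conj (hg k) gK, ?_⟩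
      rw [cj g hg _ gK, ← e, D.ga]
      funext i
      rw [Pi.smul_apply, Pi.smul_apply, map_smul, smul_comm]
    · rintro z ⟨g, hg, e⟩
      obtain ⟨l, hl, u, hu, e1, e2⟩ := hCHEB0 D n A ψ x y g h hx.pz hy.pz hg
      obtain ⟨a, b, hab, hn⟩ : ∃ a b : A, a • x l.ph + b • y l.ph = 0 ∧ ¬ (π ∣ a ∧ π ∣ b) := by
        by_contra! k
        exact H ⟨l, hl, k⟩
      have c : ∀ i, f g i = π ^ j • z i := fun i => (congrFun e i).symm
      rw [e1, e2, smul_comm a, smul_comm b, ← smul_add, smul_eq_zero, or_iff_right hu,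
        show x g = _ from c 0, show y g = _ from c 1, show D.xt x g = _ from c 2,
        show D.xt y g = _ from c 3, map_smul, map_smul, ← smul_add, ← smul_add] at hab
      generalize z 0 + mv (D.T.rho tau) (z 2) = v at hab ⊢
      generalize z 1 + mv (D.T.rho tau) (z 3) = w at hab ⊢
      have c0 : a * (π ^ j * v 0) + b * (π ^ j * w 0) = 0 := congrFun hab 0
      have c1 : a * (π ^ j * v 1) + b * (π ^ j * w 1) = 0 := congrFun hab 1
      rcases not_and_or.1 hn with k | k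
      · exact ((hc.loc a).resolve_right k).mul_right_eq_zero.1
          (by linear_combination w 1 * c0 - w 0 * c1)
      · exact ((hc.loc b).resolve_right k).mul_right_eq_zero.1
          (by linear_combination v 0 * c1 - v 1 * c0)
  · have k : ∀ {z : GS → Fin 2 → A} {η : A}, D.nz ψ (D.xt z) = η • z → ∀ g : GS, (∀ k, D.Z (g k)) →
        z g + mv (D.T.rho tau) (D.xt z g) = z g + η • mv (D.T.rho tau) (z g) := fun {z η} e g hg => by
      rw [← Dat.nz_of_triv (x := D.xt z) (mem hg) (Dat.rS_Z h (Eventually.of_forall hg)), e, Pi.smul_apply,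
        map_smul]
    obtain ⟨g, hg, a, b⟩ : ∃ g : GS, (∀ k, D.Z (g k)) ∧ x g + ε • mv (D.T.rho tau) (x g) ≠ 0 ∧
        y g + ε' • mv (D.T.rho tau) (y g) ≠ 0 := by
      obtain ⟨g, hg, a⟩ := proper hB.toCA h hx x0 hε
      obtain ⟨g', hg', b⟩ := proper hB.toCA h hy y0 hε'
      by_contra! H
      have a' := H g hg a
      by_cases c : x g' + ε • mv (D.T.rho tau) (x g') = 0
      · have := H (g * g') (fun k => Z_mul (hg k) (hg' k)) (by
          rwa [add h hx.pz hg hg', map_add, smul_add, add_add_add_comm, c, add_zero])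
        rw [add h hy.pz hg hg', map_add, smul_add, add_add_add_comm, a', zero_add] at this
        exact b this
      · exact b (H g' hg' c)
    obtain ⟨l, hl, u, hu, e1, e2⟩ := hCHEB0 D n A ψ x y g h hx.pz hy.pz hg
    rw [k ex g hg] at e1
    rw [k ey g hg] at e2
    exact ⟨l, hl, e1 ▸ smul_ne_zero hu a, e2 ▸ smul_ne_zero hu b⟩

end Pool.Agent.P.MP_8b7eba_nt.R2
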