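import Pool.Agent.P.MP_8b7eba_nt.R2.GrpA

/-! Proof of DATX. -/

namespace Pool.Agent.P.MP_8b7eba_nt.R2

open scoped NNReal Matrix
open MP_9c97e9_nt (Pt pm Is ap Sha Split)
open Filter Topology Polynomial Module

namespace TDATX

theorem up {A : Mt} {e f : V2} {x : ℚ_[2]} (h1 : A *ᵥ e = e) (h2 : A *ᵥ f - f = x • e) :
    A * !![e 0, f 0; e 1, f 1] = !![e 0, f 0; e 1, f 1] * !![1, x; 0, 1] := by
  have a0 := congrFun h1 0
  have a1 := congrFun h1 1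
  have b0 := congrFun h2 0
  have b1 := congrFun h2 1
  simp only [Matrix.mulVec, dotProduct, Fin.sum_univ_two, Pi.sub_apply, Pi.smul_apply,
    smul_eq_mul] at a0 a1 b0 b1
  ext i j
  fin_cases i <;> fin_cases j <;> simp [Matrix.mul_apply, Fin.sum_univ_two]
  · linear_combination a0
  · linear_combination b0
  · linear_combination a1
  · linear_combination b1

theorem low {A : Mt} {e f : V2} {x : ℚ_[2]} (h1 : A *ᵥ f = f) (h2 : A *ᵥ e - e = x • f) :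
    A * !![e 0, f 0; e 1, f 1] = !![e 0, f 0; e 1, f 1] * !![1, 0; x, 1] := by
  have a0 := congrFun h1 0
  have a1 := congrFun h1 1
  have b0 := congrFun h2 0
  have b1 := congrFun h2 1
  simp only [Matrix.mulVec, dotProduct, Fin.sum_univ_two, Pi.sub_apply, Pi.smul_apply,
    smul_eq_mul] at a0 a1 b0 b1
  ext i j
  fin_cases i <;> fin_cases j <;> simp [Matrix.mul_apply, Fin.sum_univ_two]
  · linear_combination b0
  · linear_combination a0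
  · linear_combination b1
  · linear_combination a1

theorem span {A B Q : Mt} {x y : ℚ_[2]} (hQ : Q.det ≠ 0) (hx : x ≠ 0) (hy : y ≠ 0)
    (hA : A * Q = Q * !![1, x; 0, 1]) (hB : B * Q = Q * !![1, 0; y, 1]) (M : Mt) :
    ∃ c₀ c₁ c₂ c₃ : ℚ_[2], M = c₀ • (1 : Mt) + c₁ • A + c₂ • B + c₃ • (A * B) := by
  have hu : IsUnit Q.det := hQ.isUnit
  obtain ⟨N, hN⟩ : ∃ N : Mt, M * Q = Q * N :=
    ⟨Q⁻¹ * (M * Q), (Matrix.mul_nonsing_inv_cancel_left Q _ hu).symm⟩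
  set c := (N 0 0 - N 1 1) / (x * y) with hc
  refine ⟨N 1 1 - N 0 1 / x - N 1 0 / y + c, N 0 1 / x - c, N 1 0 / y - c, c, ?_⟩
  have e : N = (N 1 1 - N 0 1 / x - N 1 0 / y + c) • (1 : Mt) + (N 0 1 / x - c) • !![1, x; 0, 1] +
      (N 1 0 / y - c) • !![1, 0; y, 1] + c • (!![1, x; 0, 1] * !![1, 0; y, 1]) := by
    ext i j
    fin_cases i <;> fin_cases j <;> simp [hc] <;> field_simp <;> ring
  rw [← Matrix.mul_nonsing_inv_cancel_right Q M hu, hN, e]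
  refine Eq.trans (congrArg (· * Q⁻¹) ?_) (Matrix.mul_nonsing_inv_cancel_right Q _ hu)
  rw [← e]
  conv_lhs => rw [e]
  simp only [Matrix.add_mul, Matrix.mul_add, Matrix.smul_mul, Matrix.mul_smul, Matrix.mul_assoc,
    hA, hB, Matrix.one_mul, Matrix.mul_one]
  rw [← Matrix.mul_assoc A, hA, Matrix.mul_assoc]

theorem inv {A A' Q U U' : Mt} (h : A' * A = 1) (hU : U * U' = 1) (hA : A * Q = Q * U) :
    A' * Q = Q * U' := by
  calc A' * Q = A' * (Q * U) * U' := by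
        rw [Matrix.mul_assoc, Matrix.mul_assoc, hU, Matrix.mul_one]
    _ = Q * U' := by rw [← hA, ← Matrix.mul_assoc, h, Matrix.one_mul]

theorem comm {A B A' B' Q : Mt} {x y : ℚ_[2]} (hQ : Q.det ≠ 0) (hx : x ≠ 0) (hy : y ≠ 0)
    (hA : A * Q = Q * !![1, x; 0, 1]) (hB : B * Q = Q * !![1, 0; y, 1]) (hA' : A' * A = 1)
    (hB' : B' * B = 1) : (A * B * A' * B' - 1).det ≠ 0 := by
  have h1 := inv (U' := !![1, -x; 0, 1]) hA' (by simp [← Matrix.one_fin_two]) hA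
  have h2 := inv (U' := !![1, 0; -y, 1]) hB' (by simp [← Matrix.one_fin_two]) hB
  have h3 : (A * B * A' * B' - 1) * Q = Q * (!![1, x; 0, 1] * !![1, 0; y, 1] * !![1, -x; 0, 1] *
      !![1, 0; -y, 1] - 1) := by
    rw [Matrix.sub_mul, Matrix.mul_sub, Matrix.one_mul, Matrix.mul_one, Matrix.mul_assoc, h2,
      ← Matrix.mul_assoc, Matrix.mul_assoc _ A', h1, ← Matrix.mul_assoc, Matrix.mul_assoc A, hB,
      ← Matrix.mul_assoc A, hA]
    simp only [Matrix.mul_assoc]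
  intro h
  have h4 := congrArg Matrix.det h3
  rw [Matrix.det_mul, Matrix.det_mul, h, zero_mul, eq_comm, mul_eq_zero, or_iff_right hQ,
    Matrix.det_fin_two] at h4
  simp at h4
  exact pow_ne_zero 2 (mul_ne_zero hx hy) (by linear_combination -h4)

theorem det_ne {e f : V2} (he : ‖e - ![0, 1]‖ < 1) (hf : ‖f - ![1, 1]‖ < 1) :
    e 0 * f 1 - f 0 * e 1 ≠ 0 := by
  have a0 := (norm_le_pi_norm _ 0).trans_lt he
  have a1 := (norm_le_pi_norm _ 1).trans_lt he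
  have b0 := (norm_le_pi_norm _ 0).trans_lt hf
  have b1 := (norm_le_pi_norm _ 1).trans_lt hf
  simp at a0 a1 b0 b1
  have k : ∀ z : ℚ_[2], ‖z - 1‖ < 1 → ‖z‖ = 1 := fun z hz => by
    have := IsUltrametricDist.norm_add_eq_max_of_norm_ne_norm (x := z - 1) (y := 1)
      (by rw [norm_one]; exact hz.ne)
    rwa [sub_add_cancel, norm_one, max_eq_right hz.le] at this
  intro h
  have := congrArg norm (sub_eq_zero.1 h)
  rw [norm_mul, norm_mul, k _ a1, k _ b0, k _ b1] at this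
  linarith

variable {P : Pre} {a : GQ → ℤ_[2]}

theorem odd (P : Pre) {p : ℕ} (h : (p : ℤ) ∣ P.d) : p ≠ 2 := by
  rintro rfl
  have := P.d8
  omega

theorem not_dvd (P : Pre) {p : ℕ} (hp : p.Prime) (h : p ∣ 15) : ¬ (p : ℤ) ∣ P.d := fun h1 =>
  hp.one_lt.ne' (by
    simpa using Int.isUnit_iff_natAbs_eq.1 (P.cop.isUnit_of_dvd' h1
      ((Int.natCast_dvd_natCast.2 h).mul_right _)))

theorem np (hCF : CF) (han : Anti P a) (p : ℕ) : ∃ n : ℕ, ∀ (w : Pl) (φ : GQ), w.p = p →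
    (w.p : ℤ) ∣ P.d → w.IsFrob 1 φ → ‖a φ‖ = (2 ^ n)⁻¹ := by
  have spD := (hCF.karith P).2.2.2.1
  by_cases h : ∃ (w : Pl) (φ : GQ), w.p = p ∧ (w.p : ℤ) ∣ P.d ∧ w.IsFrob 1 φ
  · obtain ⟨w₀, φ₀, h1, h2, h3⟩ := h
    refine ⟨(a φ₀).valuation, fun w φ e1 e2 e3 => ?_⟩
    obtain ⟨σ, rfl⟩ := hCF.pl.2.1 w₀ w (h1.trans e1.symm)
    have h4 := h3.smul σ
    have h5 := spD _ (e2.mul_left 30)
    have h6 := han.unr _ (odd P e2) _ ⟨e3.inv_mul h4, h5 (Pl.I_le_D _ (e3.inv_mul h4))⟩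
    rw [han.add _ (P.GK.inv_mem (h5 e3.1)) _ (h5 h4.1), han.inv (h5 e3.1), neg_add_eq_zero] at h6
    have h7 := spD _ (h2.mul_left 30) h3.1
    have h8 : ‖a φ‖ = ‖a φ₀‖ := by
      rw [h6]
      by_cases hσ : σ ∈ P.GK
      · rw [han.conj hσ h7]
      · rw [han.dih σ hσ _ h7, norm_neg]
    rw [h8, PadicInt.norm_eq_zpow_neg_valuation (han.fin _ _ h2 h3)]
    simp
  · exact ⟨0, fun w φ e1 e2 e3 => (h ⟨w, φ, e1, e2, e3⟩).elim⟩

theorem exz (hCF : CF) (T : Tate P.w2) (han : Anti P a) :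
    ∃ z ∈ P.GK, z P.dl ≠ P.dl ∧ T.rho z = 1 ∧ a z = 0 := by
  obtain ⟨p, hp, hd⟩ := Nat.exists_prime_and_dvd (n := P.d.natAbs) (by have := P.d8; omega)
  obtain ⟨w, rfl⟩ := hCF.pl.1 p hp
  have h1 : (w.p : ℤ) ∣ P.d := Int.natCast_dvd.2 hd
  have h2 := odd P h1
  obtain ⟨t, ht, hβ⟩ := Pl.exists_gen hCF.tame hCF.res h2
  have h3 := (hCF.karith P).2.2.2.1 w (h1.mul_left 30) (w.I_le_D ht)
  obtain ⟨m, hm⟩ := id h1
  have h4 : ¬ (w.p : ℤ) ∣ m := fun h => hp.one_lt.ne' (by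
    simpa using Int.isUnit_iff_natAbs_eq.1 (P.sq w.p (hm ▸ mul_dvd_mul_left _ h)))
  have h5 := Pl.gen_move hCF.tame hCF.res h2 ht hβ (δ := P.dl) (m := m)
    (by rw [P.hdl, hm]; push_cast; rfl) h4
  refine ⟨t, h3, fun h => P.dl_ne.1 ?_, (hCF.tr _ T w fun h => ?_).1 t ht, han.unr w h2 t ⟨ht, h3⟩⟩
  · rw [h5] at h
    linear_combination (-1 / 2 : Om) * h
  · rcases (Nat.Prime.dvd_mul hp).1 (show w.p ∣ 2 * 15 from h) with h | h
    · exact h2 ((Nat.prime_dvd_prime_iff_eq hp Nat.prime_two).1 h)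
    · exact not_dvd P hp h h1

theorem exf (hCF : CF) (han : Anti P a) :
    ∃ f ∈ P.w2.D, f P.dl ≠ P.dl ∧ a f = 0 ∧ 4 ∣ (cyc f : ℤ_[2]) - 1 := by
  have spD := (hCF.karith P).2.2.2.1 P.w2 (by rw [P.hw2]; exact Dvd.intro (15 * P.d) (by ring))
  obtain ⟨φ, h1, h2, h3⟩ := Pl.exists_f2 hCF.toCA P.hw2 P.hdl P.d8
  obtain ⟨s, h4, h5, h6⟩ := han.surj hCF.toCA (-a φ) 1 (.inl rfl)
  have h7 := Pl.I_le_D _ h4
  refine ⟨φ * s, mul_mem h1 h7, ?_, ?_, ?_⟩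
  · rw [AlgEquiv.mul_apply, Pl.I_fix_two P.hw2 P.hdl (by have := P.d8; omega) h4]
    exact h2
  · rw [han.add _ (spD h1) _ (spD h7), h5, add_neg_cancel]
  · rw [hCF.ec.2.1, Units.val_mul, show (cyc φ : ℤ_[2]) * cyc s - 1 =
      cyc φ * (cyc s - (1 : ℤ_[2]ˣ)) + (cyc φ - 1) by rw [Units.val_one]; ring]
    exact dvd_add (h6.mul_left _) h3

theorem bad (hCF : CF) (T : Tate P.w2) (han : Anti P a) {p : ℕ} (hp : p.Prime) (h : p ∣ 15) :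
    ∃ (t : GQ) (e : V2), (t ∈ P.GK ∧ a t = 0 ∧ t P.dl = P.dl) ∧ (p = 3 → ‖e - ![0, 1]‖ < 1) ∧
      (p = 5 → ‖e - ![1, 1]‖ < 1) ∧ T.rho t *ᵥ e = e ∧
      (∀ v, ∃ s : ℚ_[2], T.rho t *ᵥ v - v = s • e) ∧
      ∀ v, T.rho t *ᵥ v = v → ∃ s : ℚ_[2], v = s • e := by
  obtain ⟨w, rfl⟩ := hCF.pl.1 p hp
  have h2 : w.p ≠ 2 := fun e => by rw [e] at h; omega
  obtain ⟨t, ht, hβ⟩ := Pl.exists_gen hCF.tame hCF.res h2
  have h3 := (hCF.karith P).2.2.2.1 w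
    ((Int.natCast_dvd_natCast.2 (h.mul_left 2)).mul_right _) (w.I_le_D ht)
  obtain ⟨e, -, e1, e2, e3, e4, -⟩ := hCF.unip _ T w h
  exact ⟨t, e, ⟨h3, han.unr w h2 t ⟨ht, h3⟩,
    Pl.I_fix hCF.tame hCF.res h2 P.hdl (not_dvd P hp h) ht⟩, e1, e2, (e3 t ht).1, (e3 t ht).2,
    (e4 t ht hβ).2⟩

theorem big (hCF : CF) (T : Tate P.w2) (han : Anti P a) :
    (∀ B : Mt, B ∈ Submodule.span ℚ_[2]
      (T.rho '' {g | g ∈ P.GK ∧ a g = 0 ∧ g P.dl = P.dl})) ∧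
    ∃ g ∈ P.GK, ∃ h ∈ P.GK, (T.rho (g * h * g⁻¹ * h⁻¹) - 1).det ≠ 0 := by
  obtain ⟨s, e, hs, e1, -, e2, e3, e4⟩ := bad hCF T han Nat.prime_three (by norm_num)
  obtain ⟨t, f, ht, -, f1, f2, f3, f4⟩ := bad hCF T han Nat.prime_five (by norm_num)
  have hd := det_ne (e1 rfl) (f1 rfl)
  obtain ⟨x, hx⟩ := e3 f
  obtain ⟨y, hy⟩ := f3 e
  have hx0 : x ≠ 0 := by
    rintro rfl
    obtain ⟨c, rfl⟩ := e4 f (by rwa [zero_smul, sub_eq_zero] at hx)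
    exact hd (by simp only [Pi.smul_apply, smul_eq_mul]; ring)
  have hy0 : y ≠ 0 := by
    rintro rfl
    obtain ⟨c, rfl⟩ := f4 e (by rwa [zero_smul, sub_eq_zero] at hy)
    exact hd (by simp only [Pi.smul_apply, smul_eq_mul]; ring)
  have hQ : (!![e 0, f 0; e 1, f 1] : Mt).det ≠ 0 := by rwa [Matrix.det_fin_two_of]
  have hA := up e2 hx
  have hB := low f2 hy
  refine ⟨fun M => ?_, s, hs.1, t, ht.1, ?_⟩
  · obtain ⟨c₀, c₁, c₂, c₃, rfl⟩ := span hQ hx0 hy0 hA hB M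
    refine add_mem (add_mem (add_mem ?_ ?_) ?_) ?_ <;>
      refine Submodule.smul_mem _ _ (Submodule.subset_span ?_)
    · exact ⟨1, ⟨one_mem _, han.one, rfl⟩, map_one _⟩
    · exact ⟨s, hs, rfl⟩
    · exact ⟨t, ht, rfl⟩
    · exact ⟨s * t, ⟨mul_mem hs.1 ht.1, by rw [han.add _ hs.1 _ ht.1, hs.2.1, ht.2.1, add_zero],
        by rw [AlgEquiv.mul_apply, ht.2.2, hs.2.2]⟩, map_mul _ _ _⟩
  · rw [map_mul, map_mul, map_mul]
    exact comm hQ hx0 hy0 hA hB (by rw [← map_mul, inv_mul_cancel, map_one])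
      (by rw [← map_mul, inv_mul_cancel, map_one])

end TDATX

theorem t_DATX (hCF : CF) : DATX := by
  intro P T a han
  choose np hnp using TDATX.np hCF han
  obtain ⟨z, z1, z2, z3, z4⟩ := TDATX.exz hCF T han
  obtain ⟨f, f1, f2, f3, f4⟩ := TDATX.exf hCF han
  obtain ⟨g, g1, g2, -⟩ := han.surj hCF.toCA 1 1 (.inl rfl)
  obtain ⟨h1, h2⟩ := TDATX.big hCF T han
  exact ⟨⟨P, T, a, han, (hCF.karith P).2.2.2.1, np, fun w φ => hnp _ w φ rfl, z, z1, z2, z3, z4,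
    f, f1, f2, f3, f4, g, g1, g2, h1, h2⟩, rfl, rfl, HEq.rfl⟩

end Pool.Agent.P.MP_8b7eba_nt.R2
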