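import Pool.Agent.P.MP_8b7eba_nt.R2.SelB

/-! Proof of DUAL. -/

namespace Pool.Agent.P.MP_8b7eba_nt.R2

open scoped NNReal Matrix
open MP_9c97e9_nt (Pt pm Is ap Sha Split)
open Filter Topology Polynomial Module

namespace TDUAL

variable {A : Type} [NormedCommRing A] [NormedAlgebra ℚ_[2] A] {ψ : ℤ_[2] → A} {D : Dat}
  {x y : GS → Fin 2 → A} {t : A →ₗ[ℚ_[2]] ℚ_[2]}

/-- the determinant pairing -/
noncomputable def bt (t : A →ₗ[ℚ_[2]] ℚ_[2]) :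
    (Fin 2 → A) →ₗ[ℚ_[2]] (Fin 2 → A) →ₗ[ℚ_[2]] ℚ_[2] :=
  ((LinearMap.mul ℚ_[2] A).compl₁₂ (LinearMap.proj (0 : Fin 2)) (LinearMap.proj (1 : Fin 2)) -
    (LinearMap.mul ℚ_[2] A).compl₁₂ (LinearMap.proj (1 : Fin 2))
      (LinearMap.proj (0 : Fin 2))).compr₂ t

theorem bt_apply (a b : Fin 2 → A) : bt t a b = t (a 0 * b 1 - a 1 * b 0) := rfl

theorem bt_mv (B : Mt) (a b : Fin 2 → A) : bt t (mv B a) (mv B b) = B.det * bt t a b := by
  rw [bt_apply, bt_apply, mv_det, map_smul, smul_eq_mul]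

theorem bt_r (h : IsPsi ψ) (g : GQ) (_ : g ∈ D.GK) (v v' : Fin 2 → A) :
    bt t (D.r (bar ψ) g v) (D.r ψ g v') = cq g * bt t v v' := by
  have h1 : (D.T.rd D.dl g).det = cq g := by
    rw [Tate.rd, Matrix.det_smul, D.T.det, Fintype.card_fin, sq, ← Int.cast_mul, sd_sq,
      Int.cast_one, one_mul]
  have h2 : bar ψ (D.a g) * ψ (D.a g) = 1 := by rw [bar, ← h.add, neg_add_cancel, h.zero]
  rw [← h1, ← bt_mv, Dat.r_apply, Dat.r_apply, bt_apply, bt_apply]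
  congr 1
  simp only [Pi.smul_apply, smul_eq_mul]
  linear_combination (mv (D.T.rd D.dl g) v 0 * mv (D.T.rd D.dl g) v' 1 -
    mv (D.T.rd D.dl g) v 1 * mv (D.T.rd D.dl g) v' 0) * h2

theorem bt_fix {B : Mt} (i j : Fin 2) (hB : (B - 1) i j ≠ 0) {a b : Fin 2 → A} (ha : mv B a = a)
    (hb : mv B b = b) : bt t a b = 0 := by
  have h0 : ∀ c : Fin 2 → A, mv B c = c → (B - 1) i 0 • c 0 + (B - 1) i 1 • c 1 = 0 := by
    intro c hc
    have h1 := mv_add (B - 1) 1 c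
    rw [sub_add_cancel, hc, mv_one, right_eq_add] at h1
    rw [← mv_apply, h1, Pi.zero_apply]
  have h1 := h0 a ha
  have h2 := h0 b hb
  refine (mul_eq_zero.1 ?_).resolve_left hB
  rw [bt_apply, ← smul_eq_mul, ← map_smul, ← map_zero t]
  congr 1
  simp only [Algebra.smul_def] at h1 h2 ⊢
  clear hB
  revert j
  refine Fin.forall_fin_two.2 ⟨?_, ?_⟩
  · linear_combination b 1 * h1 - a 1 * h2
  · linear_combination a 0 * h2 - b 0 * h1

theorem pi_eq (hP : PIX) {w : ℕ → Pl} {H : ℕ → Subgroup GQ} (hl : ∀ k, (w k).Loc (H k))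
    {B B' : GS → GS → ℚ_[2]} (hB : PZ2 H B) (hB' : PZ2 H B') (h : Cob2 H (B - B')) :
    PI w H B = PI w H B' := by
  have h1 : PZ2 H (B - B') :=
    (hB.add (hB'.smul (-1))).congr fun g _ g' _ => by simp [sub_eq_add_neg]
  have h2 := (hP w H hl B' hB').2.2.2.1 _ h1
  rwa [add_sub_cancel, (hP w H hl _ h1).2.2.2.2.2.1 h, add_zero] at h2

theorem pi_zero (hP : PIX) {w : Pl} {U : Subgroup GQ} (hw : w.D ≤ U) {B : GS → GS → ℚ_[2]}
    (hB : PZ2 (fun _ => U) B) (h : Cob2 (fun _ => w.D) B) :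
    PI (fun _ => w) (fun _ => w.D ⊓ U) B = 0 := by
  rw [inf_eq_left.2 hw]
  exact (hP _ _ (fun _ => w.loc_D) _ (hB.mono fun _ => hw)).2.2.2.2.2.1 h

theorem tau_mem (hA : CA) {w : Pl} {g : GQ} (hg : g ∈ (tau • w).D) : tau * g * tau ∈ w.D := by
  have := Pl.mem_D_smul.1 hg
  rwa [inv_eq_of_mul_eq_one_right hA.tau.2.1] at this

theorem tau_mem' (hA : CA) {w : Pl} {g : GS} (hg : g ∈ S1 (tau • w).D) :
    cs tau * g * cs tau ∈ S1 w.D := hg.mono fun _ h => tau_mem hA h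

theorem cob2_tau (hA : CA) {w : Pl} {B : GS → GS → ℚ_[2]}
    (h : Cob2 (fun _ => w.D) fun g g' => B (cs tau * g * cs tau) (cs tau * g' * cs tau)) :
    Cob2 (fun _ => (tau • w).D) B := by
  obtain ⟨s, ⟨c, hc⟩, hs⟩ := h
  have h0 : cs tau * cs tau = 1 := by rw [← cs_mul, hA.tau.2.1, cs_one]
  have h1 : ∀ g : GS, cs tau * (cs tau * g * cs tau) * cs tau = g := fun g => by
    rw [← mul_assoc, ← mul_assoc, h0, one_mul, mul_assoc, h0, mul_one]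
  refine ⟨fun g => s (cs tau * g * cs tau), ⟨fun k g => c k (tau * g * tau),
    hc.bd.imp fun _ h k _ => h k _, fun k => (hc.uc k).conj tau tau hA.tau.2.1 fun _ => tau_mem hA,
    fun g hg => hc.lim _ (tau_mem' hA hg)⟩, fun g hg g' hg' => ?_⟩
  have h2 := hs _ (tau_mem' hA hg) _ (tau_mem' hA hg')
  have h3 : cS (cs tau * g * cs tau) = cS g := ul_congr (Eventually.of_forall fun k => by
    change cq (tau * g k * tau) = _
    rw [cq, cq, hA.ec.2.1, hA.ec.2.1, hA.ec.2.2.2.2.2.2.2, neg_one_mul, mul_neg_one, neg_neg])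
  have h4 : cs tau * g * cs tau * (cs tau * g' * cs tau) = cs tau * (g * g') * cs tau := by
    simp only [mul_assoc]
    rw [← mul_assoc (cs tau) (cs tau), h0, one_mul]
  beta_reduce at h2 ⊢
  rwa [h1, h1, h3, h4] at h2

variable [IsUltrametricDist A] [FiniteDimensional ℚ_[2] A]

theorem at_d (hC : CP) (h : IsPsi ψ) {w : Pl} (hw : (w.p : ℤ) ∣ D.d)
    (hx : PZ (fun _ => D.GK) (D.r (bar ψ)) x) (hy : PZ (fun _ => D.GK) (D.r ψ) y) :
    Cob2 (fun _ => w.D) (cupS (bt t) (D.r ψ) x y) := by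
  have hK : w.D ≤ D.GK := D.spD w (hw.mul_left _)
  have hp : Prime (w.p : ℤ) := Nat.prime_iff_prime_int.1 w.prime
  have h2 : w.p ≠ 2 := fun e => by
    have := D.d8
    rw [e] at hw
    omega
  have h30 : ¬w.p ∣ 30 := fun e => by
    rcases (Nat.Prime.dvd_mul w.prime).1 (show w.p ∣ 2 * 15 from e) with e | e
    · exact h2 ((Nat.prime_dvd_prime_iff_eq w.prime Nat.prime_two).1 e)
    · exact hp.not_isUnit (D.cop.isUnit_of_dvd' hw
        (Dvd.dvd.mul_right (by exact_mod_cast e) _))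
  obtain ⟨s, hs, hs'⟩ := Pl.exists_gen hC.tame hC.res h2
  obtain ⟨m, hm⟩ := hw
  have h3 : s D.dl = -D.dl := Pl.gen_move hC.tame hC.res h2 hs hs' (m := m)
    (by rw [D.hdl, hm]; push_cast; rfl) fun e => hp.not_isUnit (D.sq _ (hm ▸ mul_dvd_mul_left _ e))
  have h4 : sd D.dl s = -1 := sd_eq_neg.2 fun e => D.toPre.dl_ne.1 (by
    rw [e] at h3
    linear_combination (1 / 2 : Om) * h3)
  refine cob2_cup_right (D.rep h.bar) (D.rep h) (fun _ => hK) (bt_r h) (hx.mono fun _ => hK)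
    (hC.sah _ _ w s y h2 ((D.rep h).mono hK) hs hs' (fun v => ?_) (hy.mono fun _ => hK))
  rw [Dat.r_apply, D.an.unr w h2 s ⟨hs, hK (w.I_le_D hs)⟩, h.zero, one_smul, Tate.rd, h4,
    (hC.tr _ D.T w h30).1 s hs, mv_smul, mv_one]
  simp

theorem fix_of (hC : CP) (h : IsPsi ψ) {w : Pl} (hw : w.p ∣ 15) (hK : w.D ≤ D.GK)
    (hx : PZ (fun _ => w.D) (D.r ψ) x) (h0 : ∀ g ∈ S1 w.I, x g = 0) {s : GQ} (hs : s ∈ w.I)
    {g : GS} (hg : g ∈ S1 w.D) : mv (D.T.rho s) (x g) = x g := by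
  have h1 : g⁻¹ * cs s * g ∈ S1 w.I := hg.mono fun k hk => by
    have := Pl.conj_mem_I (w.D.inv_mem hk) hs
    rwa [inv_inv] at this
  have h2 := hx.conj (D.rep h) (fun _ => hK) hg (S1_mono w.I_le_D h1)
  have h3 : g * (g⁻¹ * cs s * g) * g⁻¹ = cs s := by group
  rw [h3, h0 _ h1, h0 _ (cs_mem.2 hs), rS_zero, add_zero, rS_cs, Dat.r_bad hC.toCA h hw hs] at h2
  exact (sub_eq_zero.1 h2.symm).symm

theorem at_15 (hC : CP) (h : IsPsi ψ) {w : Pl} (hw : w.p ∣ 15)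
    (hx : PZ (fun _ => D.GK) (D.r (bar ψ)) x) (hy : PZ (fun _ => D.GK) (D.r ψ) y)
    (hx' : Cob (S1 w.I) (D.r (bar ψ)) x) (hy' : Cob (S1 w.I) (D.r ψ) y) :
    Cob2 (fun _ => w.D) (cupS (bt t) (D.r ψ) x y) := by
  have hK : w.D ≤ D.GK := D.spD w (Dvd.dvd.mul_right
    (by exact_mod_cast hw.trans (by norm_num : 15 ∣ 30)) _)
  have h2 : w.p ≠ 2 := fun e => by
    rw [e] at hw
    omega
  obtain ⟨v, hv⟩ := hx'
  obtain ⟨v', hv'⟩ := hy'
  obtain ⟨h3, h4, h5⟩ := cob2_cup_sub (D.rep h.bar) (D.rep h) (H := fun _ => w.D) (fun _ => hK)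
    (bt_r (t := t) h) (hx.mono fun _ => hK) (hy.mono fun _ => hK)
    (y := fun g => x g - (rS (D.r (bar ψ)) g v - v)) (z' := fun g => y g - (rS (D.r ψ) g v' - v'))
    ⟨v, fun g _ => sub_sub_cancel _ _⟩ ⟨v', fun g _ => sub_sub_cancel _ _⟩
  obtain ⟨s, hs, hs'⟩ := Pl.exists_gen hC.tame hC.res h2
  obtain ⟨e, -, -, -, -, he, -⟩ := hC.unip _ D.T w hw
  obtain ⟨i, j, hij⟩ := (he s hs hs').1
  refine h5.congr fun g hg g' hg' => ?_
  have h6 := fun g hg => fix_of hC h hw hK h4 (fun g hg => sub_eq_zero.2 (hv' g hg)) hs (g := g) hg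
  rw [Pi.sub_apply, Pi.sub_apply, eq_comm, sub_eq_self]
  refine bt_fix (B := D.T.rho s) i j (fun e => by norm_num [e] at hij)
    (fix_of hC h.bar hw hK h3 (fun g hg => sub_eq_zero.2 (hv g hg)) hs hg) ?_
  rw [← sub_eq_iff_eq_add'.2 (h4.2 g hg g' hg'), map_sub, h6 _ (mul_mem hg hg'), h6 _ hg]

theorem at_two (h : IsPsi ψ) (hx : PZ (fun _ => D.GK) (D.r (bar ψ)) x)
    (hy : PZ (fun _ => D.GK) (D.r ψ) y) (ho : D.Ord ψ y) :
    ∃ B, PZ2 (fun _ => D.w2.D) B ∧ Cob2 (fun _ => D.w2.D) (cupS (bt t) (D.r ψ) x y - B) ∧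
      ∀ g ∈ S1 D.w2.D, ∀ g' ∈ S1 D.w2.D,
        B g g' = -t (D.ln (bar ψ) x g 1 * rS (D.th ψ 0) g (D.ln ψ y g' 0)) := by
  obtain ⟨h3, h4, h5⟩ := cob2_cup_sub (D.rep h.bar) (D.rep h) (H := fun _ => D.w2.D)
    (fun _ => D.D_le) (bt_r (t := t) h) (hx.mono fun _ => D.D_le) (hy.mono fun _ => D.D_le)
    (y := D.ln (bar ψ) x) (z' := D.ln ψ y)
    ⟨_, fun g _ => sub_sub_cancel _ _⟩ ⟨_, fun g _ => sub_sub_cancel _ _⟩
  refine ⟨_, pz2_cup (D.rep h.bar) (D.rep h) (fun _ => D.D_le) (bt_r h) h3 h4, h5,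
    fun g hg g' hg' => ?_⟩
  rw [cupS, bt_apply, Dat.rS_one h hg, ho g' hg', rS_zero, mul_zero, zero_sub, map_neg,
    Dat.rS_zero h (ho g' hg')]

theorem at_two' (h : IsPsi ψ) (hx : PZ (fun _ => D.GK) (D.r (bar ψ)) x)
    (hy : PZ (fun _ => D.GK) (D.r ψ) y) (ho : D.Ord ψ y) (ho' : D.Ord (bar ψ) x) :
    Cob2 (fun _ => D.w2.D) (cupS (bt t) (D.r ψ) x y) := by
  obtain ⟨B, -, h1, h2⟩ := at_two (t := t) h hx hy ho
  refine h1.congr fun g hg g' hg' => ?_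
  rw [Pi.sub_apply, Pi.sub_apply, h2 g hg g' hg', ho' g hg, zero_mul, map_zero, neg_zero, sub_zero]

theorem at_tau (hC : CP) (h : IsPsi ψ) (hx : PZ (fun _ => D.GK) (D.r (bar ψ)) x)
    (hy : PZ (fun _ => D.GK) (D.r ψ) y) (ho : D.Ord (bar ψ) (D.xt y))
    (ho' : D.Ord (bar (bar ψ)) (D.xt x)) :
    Cob2 (fun _ => (tau • D.w2).D) (cupS (bt t) (D.r ψ) x y) := by
  refine cob2_tau hC.toCA (((at_two' (t := t) h.bar (hx.xt hC.toCB h.bar) (hy.xt hC.toCB h) ho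
    ho').smul (-1)).congr fun g hg g' _ => ?_)
  rw [Pi.smul_apply, Pi.smul_apply, cupS, cupS, Dat.xt, Dat.xt,
    ← Dat.rS_tau hC.toCB h (S1_mono D.D_le hg), bt_mv, (D.T.tau hC.tau hC.ec).2.1]
  simp

theorem at_kol (hC : CP) (hK : KTRIV) (l : Kp D) : ∃ u : ℚ_[2], u ≠ 0 ∧ (IsPsi ψ →
    PZ (fun _ => D.GK) (D.r (bar ψ)) x → PZ (fun _ => D.GK) (D.r ψ) y → y l.ph = 0 →
    PI l.w (fun k => (l.w k).D ⊓ D.GK) (cupS (bt t) (D.r ψ) x y) = u * bt t (x l.ph) (y l.t)) := by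
  obtain ⟨u, hu, h1⟩ := (hC.pkol D l).2
  refine ⟨u, hu, fun h hx hy h0 => ?_⟩
  have h2 := (hK D l A ψ h).1
  have h3 := (hK D l A _ h.bar).1
  have hx' := hx.mono (H' := fun k => (l.w k).D ⊓ D.GK) fun _ => inf_le_right
  have hy' := hy.mono (H' := fun k => (l.w k).D ⊓ D.GK) fun _ => inf_le_right
  have h4 := h1 _ _ (bt t) x y (hx'.congr_rep fun g hg _ _ => by rw [rS_id, h3 g hg])
    (hy'.congr_rep fun g hg _ _ => by rw [rS_id, h2 g hg])
  rw [h0, map_zero, sub_zero] at h4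
  rw [← h4]
  refine ((hC.pix _ _ (fun k => (l.w k).loc_inf D.toPre.on.2) _ (pz2_cup (D.rep h.bar) (D.rep h)
    (fun _ => inf_le_right) (bt_r h) hx' hy')).2.2.1 _ fun g hg g' _ => ?_).symm
  rw [cupS, h2 g hg]

theorem at_out (hC : CP) (h : IsPsi ψ) {n n' : List (Kp D)} (hx : D.Rel (bar ψ) n x)
    (hy : D.Rel ψ n' y) (hn : n ⊆ n') {w : ℕ → Pl}
    (hw : ∀ᶠ k in UF, ¬((w k).p : ℤ) ∣ 30 * D.d ∧ ∀ l ∈ n', (w k).p ≠ (l.w k).p) :
    PI w (fun k => (w k).D ⊓ D.GK) (cupS (bt t) (D.r ψ) x y) = 0 := by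
  refine (hC.pix _ _ (fun k => (w k).loc_inf D.toPre.on.2) _ (pz2_cup (D.rep h.bar) (D.rep h)
    (fun _ => inf_le_right) (bt_r h) (hx.pz.mono fun _ => inf_le_right)
    (hy.pz.mono fun _ => inf_le_right))).2.2.2.2.2.2 (hw.mono fun k hk e => hk.1 ?_)
    fun g hg g' hg' i hi => ?_
  · rw [e]
    exact Dvd.dvd.mul_right (by norm_num) _
  have hK : ∀ {g : GS}, g ∈ St (fun k => (w k).D ⊓ D.GK) → g ∈ S1 D.GK :=
    fun hg => hg.mono fun _ e => e.2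
  have hi' : i ∈ S1 D.GK := hi.mono fun _ e => e.2.2
  have h1 : x i = 0 := hx.unr w i ((hi.and hw).mono fun k e =>
    ⟨⟨e.1.1, e.1.2.2⟩, e.2.1, fun l hl => e.2.2 l (hn hl)⟩)
  have h2 : y i = 0 := hy.unr w i ((hi.and hw).mono fun k e => ⟨⟨e.1.1, e.1.2.2⟩, e.2⟩)
  simp only [cupS]
  rw [hx.pz.2 g (hK hg) i hi', hy.pz.2 g' (hK hg') i hi', h1, h2, rS_zero, rS_zero, add_zero,
    add_zero, (D.rep h).rS_mul (hK hg) hi', Dat.rS_unr hC.toCF h (w := w)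
      ((hi.and hw).mono fun k e => ⟨⟨e.1.1, e.1.2.2⟩, e.2.1⟩)]
  exact ⟨rfl, rfl⟩

theorem glob (hC : CP) (h : IsPsi ψ) {n n' : List (Kp D)} (hx : D.Rel (bar ψ) n x)
    (hy : D.Rel ψ n' y) (hn : n ⊆ n') (ok : Ok n') :
    PI (fun _ => D.w2) (fun _ => D.w2.D ⊓ D.GK) (cupS (bt t) (D.r ψ) x y) +
      PI (fun _ => tau • D.w2) (fun _ => (tau • D.w2).D ⊓ D.GK) (cupS (bt t) (D.r ψ) x y) +
      (n'.map fun l => PI l.w (fun k => (l.w k).D ⊓ D.GK) (cupS (bt t) (D.r ψ) x y)).sum = 0 := by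
  obtain ⟨hTC, -, -, -, k1, k2, -⟩ := hC.karith D.toPre
  obtain ⟨R, hR, hR'⟩ := (hC.orb D.GK D.toPre.on.2).2.1 (15 * D.d).natAbs.primeFactors
  have hd : (15 * D.d).natAbs ≠ 0 := Int.natAbs_ne_zero.2 (mul_ne_zero (by norm_num) D.toPre.dl_ne.2.2)
  have hp : ∀ w : Pl, w.p ∈ (15 * D.d).natAbs.primeFactors ↔ (w.p : ℤ) ∣ 15 * D.d := fun w => by
    rw [Nat.mem_primeFactors_of_ne_zero hd, Int.natCast_dvd, and_iff_right w.prime]
  have hR1 : ∀ w : R, (w.1.p : ℤ) ∣ 15 * D.d := fun w => (hp _).1 (by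
    by_contra e
    exact (hR' _).2 e 1 D.GK.one_mem (by rw [one_smul]; exact w.2))
  have hR2 : ∀ w : R, w.1.p ≠ 2 := fun w e => by
    have h1 := hR1 w
    have := D.d8
    rw [e] at h1
    omega
  have hl2 : ∀ (l : Kp D) k, (l.w k).p ≠ 2 := fun l k e => l.big k (by
    rw [e, mul_assoc]
    exact Dvd.dvd.mul_right (by norm_num) _)
  have hl : ∀ (l : Kp D) k (w : R), w.1.p ≠ (l.w k).p := fun l k w e => l.big k
    (e ▸ (hR1 w).trans ⟨2 * D.l, by ring⟩)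
  have hB := pz2_cup (D.rep h.bar) (D.rep h) (fun _ => le_rfl) (bt_r (t := t) h) hx.pz hy.pz
  have h1 := hC.prec D.GK _ (Option (Option (R ⊕ Fin n'.length)))
    (fun o => o.elim (fun _ => D.w2) fun o => o.elim (fun _ => tau • D.w2)
      (Sum.elim (fun w _ => w) fun i => n'[i.1].w)) D.toPre.on.2 hTC hB
    (Eventually.of_forall fun k => ⟨?_, fun w hw => ?_⟩) fun w hw => ?_
  · rw [Fintype.sum_option, Fintype.sum_option, Fintype.sum_sum_type, Finset.sum_eq_zero, zero_add,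
      ← add_assoc] at h1
    · rw [← Fin.sum_univ_fun_getElem]
      exact h1
    · intro w _
      refine pi_zero hC.pix (D.spD w ((hR1 w).trans ⟨2, by ring⟩)) hB ?_
      rcases (Nat.prime_iff_prime_int.1 w.1.prime).dvd_or_dvd (hR1 w) with e | e
      · have e' : w.1.p ∣ 15 := by exact_mod_cast e
        exact at_15 hC h e' hx.pz hy.pz (hx.bad _ e') (hy.bad _ e')
      · exact at_d hC h e hx.pz hy.pz
  · rintro (_ | _ | i | i) (_ | _ | j | j) u hu e <;> have e' := congrArg Pl.p e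
    · rfl
    · exact (k2 u hu e).elim
    · exact (hR2 j (e'.symm.trans D.hw2)).elim
    · exact (hl2 _ k (e'.symm.trans D.hw2)).elim
    · exact (k2 u⁻¹ (D.GK.inv_mem hu) (inv_smul_eq_iff.2 e.symm)).elim
    · rfl
    · exact (hR2 j (e'.symm.trans D.hw2)).elim
    · exact (hl2 _ k (e'.symm.trans D.hw2)).elim
    · exact (hR2 i (e'.trans D.hw2)).elim
    · exact (hR2 i (e'.trans D.hw2)).elim
    · replace e : u • i.1 = j.1 := e
      rw [Subtype.ext ((hR i i.2 u hu (e ▸ j.2)).symm.trans e)]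
    · exact (hl _ k i e').elim
    · exact (hl2 _ k (e'.trans D.hw2)).elim
    · exact (hl2 _ k (e'.trans D.hw2)).elim
    · exact (hl _ k j e'.symm).elim
    · rcases lt_trichotomy i j with c | c | c
      · exact (List.pairwise_iff_getElem.1 ok i j i.2 j.2 c k e').elim
      · rw [c]
      · exact (List.pairwise_iff_getElem.1 ok j i j.2 i.2 c k e'.symm).elim
  · obtain ⟨u, hu, e | e⟩ := k1 w hw
    · exact ⟨none, u, hu, e⟩
    · exact ⟨some none, u, hu, e⟩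
  · refine at_out hC h hx hy hn (hw.mono fun k hk => ⟨fun e => ?_, fun l hl e => ?_⟩)
    · rcases (Nat.prime_iff_prime_int.1 (w k).prime).dvd_or_dvd
        (show ((w k).p : ℤ) ∣ 2 * (15 * D.d) by rwa [← mul_assoc]) with e | e
      · obtain ⟨u, hu, e | e⟩ := k1 (w k)
          ((Nat.prime_dvd_prime_iff_eq (w k).prime Nat.prime_two).1 (by exact_mod_cast e))
        · exact hk none u hu e
        · exact hk (some none) u hu e
      · exact (hR' (w k)).1 (fun u hu c => hk (some (some (.inl ⟨_, c⟩))) u hu rfl) ((hp _).2 e)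
    · obtain ⟨i, hi, rfl⟩ := List.getElem_of_mem hl
      obtain ⟨σ, hσ⟩ := hC.pl.2.1 _ _ e
      by_cases c : σ ∈ D.GK
      · exact hk (some (some (.inr ⟨i, hi⟩))) σ c hσ
      · refine hk (some (some (.inr ⟨i, hi⟩))) _ (D.toPre.mul_mem (n'[i].out k) c) ?_
        rw [mul_smul, hσ]
        exact (n'[i].fr k).1

end TDUAL

open TDUAL in
theorem t_DUAL (hCP : CP) (hKTRIV : KTRIV) : DUAL := by
  intro D A _ _ _ _ ψ h
  have hτ : (tau • D.w2).D ≤ D.GK := D.spD _ (by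
    rw [Pl.smul_p, D.hw2]
    exact Dvd.dvd.mul_right (by norm_num) _)
  constructor
  · intro l n x y ok hx hy
    obtain ⟨h1, h2, h3⟩ := hx.xt hCP.toCF h
    have h4 : ∀ t : A →ₗ[ℚ_[2]] ℚ_[2], bt t (mv (D.T.rho tau) (x l.ph)) (y l.t) = 0 := fun t => by
      have hB := pz2_cup (D.rep h.bar) (D.rep h) (fun _ => le_rfl) (bt_r (t := t) h) h1.pz hy.1.pz
      have h5 := glob (t := t) hCP h h1 hy.1 (List.subset_cons_self l n) ok
      obtain ⟨u, hu, h6⟩ := at_kol (t := t) (ψ := ψ) (x := D.nz (bar ψ) (D.xt x)) (y := y) hCP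
        hKTRIV l
      obtain ⟨h7, h8, -⟩ := hKTRIV D l A _ h.bar
      rw [pi_zero hCP.pix D.D_le hB (at_two' h h1.pz hy.1.pz hy.2.1 h2),
        pi_zero hCP.pix hτ hB (at_tau hCP h h1.pz hy.1.pz hy.2.2 h3), List.map_cons, List.sum_cons,
        List.sum_eq_zero, h6 h h1.pz hy.1.pz (hy.1.tr l List.mem_cons_self),
        Dat.nz_of_triv (h8.mono fun _ e => e.2) (h7 _ h8),
        ((hKTRIV D l A ψ h).2.2.2 x hx.1.pz).1] at h5
      · simpa [hu] using h5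
      · intro a ha
        obtain ⟨l', hl', rfl⟩ := List.mem_map.1 ha
        obtain ⟨u', -, h9⟩ := at_kol (t := t) (ψ := ψ) (x := D.nz (bar ψ) (D.xt x)) (y := y) hCP
          hKTRIV l'
        rw [h9 h h1.pz hy.1.pz (hy.1.tr l' (List.mem_cons_of_mem l hl')), h1.tr l' hl', map_zero,
          LinearMap.zero_apply, mul_zero]
    refine sub_eq_zero.1 ((Module.forall_dual_apply_eq_zero_iff ℚ_[2] _).1 fun t => ?_)
    have h5 := bt_mv (t := t) (D.T.rho tau) (mv (D.T.rho tau) (x l.ph)) (y l.t)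
    rwa [h4, mul_zero, ← mv_mul, (D.T.tau hCP.tau hCP.ec).1, mv_one] at h5
  · intro s y hs hy t
    have h1 := hs.1.xt hCP.toCF h
    have hB := pz2_cup (D.rep h.bar) (D.rep h) (fun _ => le_rfl) (bt_r (t := t) h) h1.pz hy.1.pz
    have h2 := glob (t := t) hCP h h1 hy.1 (List.Subset.refl _) List.Pairwise.nil
    have h3 : Cob (S1 (tau • D.w2).D) (D.r (bar ψ)) (D.nz (bar ψ) (D.xt s)) := by
      obtain ⟨v, hv⟩ := Dat.nz_eq (D := D) (D.xt s) h.bar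
      obtain ⟨v', hv'⟩ := (Cob.xt hCP.toCB h (S1_mono hτ) (fun _ => tau_mem' hCP.toCA)
        ((Dat.str_iff h).1 hs.2)).add (D.rep h.bar) ⟨v, fun _ _ => rfl⟩
      exact ⟨v', fun g hg => (hv g (S1_mono hτ hg)).trans (hv' g hg)⟩
    obtain ⟨B, h4, h5, h6⟩ := at_two (t := t) h h1.pz hy.1.pz hy.2.1
    rw [pi_zero hCP.pix hτ hB (cob2_cup_left (D.rep h.bar) (D.rep h) (fun _ => hτ) (bt_r h) h3
      (hy.1.pz.mono fun _ => hτ)), List.map_nil, List.sum_nil, add_zero, add_zero,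
      inf_eq_left.2 D.D_le, pi_eq hCP.pix (fun _ => D.w2.loc_D) (hB.mono fun _ => D.D_le) h4 h5] at h2
    rw [(hCP.pix _ _ (fun _ => D.w2.loc_D) _ (h4.smul (-1))).2.2.1 _ fun g hg g' hg' => ?_,
      (hCP.pix _ _ (fun _ => D.w2.loc_D) _ h4).2.2.2.2.1, h2, mul_zero]
    rw [Pi.smul_apply, Pi.smul_apply, h6 g hg g' hg', Dat.ln_nz h.bar hg, neg_one_smul, neg_neg]
    rfl

end Pool.Agent.P.MP_8b7eba_nt.R2
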