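import Pool.Agent.P.MP_8b7eba_nt.R2.IfB
import Pool.Agent.P.MP_8b7eba_nt.R2.Csum
import Pool.Agent.P.MP_8b7eba_nt.R2.BasicP

/-! Proof of E1G, CONG. -/

namespace Pool.Agent.P.MP_8b7eba_nt.R2

open scoped NNReal Matrix
open MP_9c97e9_nt (Pt pm Is ap Sha Split)
open Filter Topology Polynomial Module

namespace TE1G

variable {w : Pl} {P Q : EO} {a y a₁ y₁ a₂ y₂ x η : Om}

/-- coordinates on the integral model -/
def Iz (P : EO) (a y : Om) : Prop := Is P (4 * a) (-(16 * y + 8 * a))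

theorem iz_of (h : Is P x η) : Iz P (x / 4) (-(η + 2 * x) / 16) := by
  rwa [Iz, show 4 * (x / 4) = x by ring,
    show -(16 * (-(η + 2 * x) / 16) + 8 * (x / 4)) = η by ring]

theorem zero_or_iz (P : EO) : P = 0 ∨ ∃ a y, Iz P a y :=
  (MP_9c97e9_nt.zero_or_is P).imp_right fun ⟨_, _, h⟩ => ⟨_, _, iz_of h⟩

theorem Iz.eq (h : Iz P a y) : y ^ 2 + a * y = a ^ 3 - 2 * a ^ 2 - 9 * a := by
  linear_combination (1 / 256) * Is.eq split15 h

theorem Iz.neg (h : Iz P a y) : Iz (-P) a (-y - a) := by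
  have := Is.neg h
  rwa [show - -(16 * y + 8 * a) = -(16 * (-y - a) + 8 * a) by ring] at this

theorem v_pos (w : Pl) (hx : x ≠ 0) : 0 < w.v x := zero_lt_iff.2 ((Valuation.ne_zero_iff _).2 hx)

theorem v_nat (w : Pl) (n : ℕ) [n.AtLeastTwo] : w.v (OfNat.ofNat n) ≤ 1 := w.v_nat_le n

theorem e1_iff (h : Is P (4 * a) η) : E1 w P ↔ 1 < w.v a := by
  have h4 := v_pos w (x := 4) (by norm_num)
  rw [← lt_mul_iff_one_lt_right h4, ← map_mul]
  exact ⟨fun h' => h' _ _ h, fun h' x η' h2 => (h.inj h2).1 ▸ h'⟩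

theorem e1_zero : E1 w 0 := fun _ _ h => absurd rfl h.ne_zero

theorem e1_neg (h : E1 w P) : E1 w (-P) := fun x η h' => h x (-η) (by simpa using h'.neg)

theorem add_line (hP : Iz P a₁ y₁) (hQ : Iz Q a₂ y₂) (h0 : P + Q ≠ 0) :
    ∃ μ η, Is (P + Q) (4 * (μ ^ 2 + μ + 2 - a₁ - a₂)) η ∧ μ * (a₁ - a₂) = y₁ - y₂ ∧
      μ * (y₁ + y₂ + a₁) = a₁ ^ 2 + a₁ * a₂ + a₂ ^ 2 - 2 * (a₁ + a₂) - 9 - y₂ := by
  have e1 := hP.eq
  have e2 := hQ.eq
  by_cases h : a₁ = a₂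
  · subst h
    have h1 : y₁ + y₂ + a₁ ≠ 0 := fun h1 => h0 (Is.add_eq_zero split15 hP (by
      rwa [show - -(16 * y₁ + 8 * a₁) = -(16 * y₂ + 8 * a₁) by linear_combination 16 * h1]))
    obtain rfl : y₁ = y₂ := mul_right_cancel₀ h1 (by linear_combination e1 - e2)
    obtain rfl : P = Q := Is.unique split15 hP hQ
    obtain ⟨μ, hμ⟩ : ∃ μ, μ * (y₁ + y₁ + a₁) =
        a₁ ^ 2 + a₁ * a₁ + a₁ ^ 2 - 2 * (a₁ + a₁) - 9 - y₁ := ⟨_, div_mul_cancel₀ _ h1⟩
    exact ⟨μ, _, Is.add_self split15 hP (fun h2 => h1 (by linear_combination -1 / 8 * h2))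
      (m := -4 * μ - 2) (by linear_combination 32 * hμ) (by ring), by ring, hμ⟩
  · have h1 := sub_ne_zero.2 h
    obtain ⟨μ, hμ⟩ : ∃ μ, μ * (a₁ - a₂) = y₁ - y₂ := ⟨_, div_mul_cancel₀ _ h1⟩
    exact ⟨μ, _, Is.add_ne split15 hP hQ (fun h2 => h (by linear_combination 1 / 4 * h2))
      (m := -4 * μ - 2) (by linear_combination -16 * hμ) (by ring), hμ,
      mul_right_cancel₀ h1 (by linear_combination (y₁ + y₂ + a₁) * hμ + e1 - e2)⟩

theorem sq_le {μ b : Om} {A : ℝ≥0} (hA : 1 ≤ A) (hb : w.v b ≤ 1) (h : w.v (μ ^ 2 + b * μ) ≤ A) :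
    w.v μ ^ 2 ≤ A := by
  rcases le_or_gt (w.v μ) 1 with h1 | h1
  · exact (pow_le_one₀ zero_le h1).trans hA
  · rwa [Valuation.map_add_eq_of_lt_left, map_pow] at h
    rw [map_mul, map_pow, sq]
    exact mul_lt_mul_of_pos_right (hb.trans_lt h1) (zero_lt_one.trans h1)

theorem sym {a₃ μ c : Om} (h2 : 1 < w.v a₂) (h12 : w.v a₂ ≤ w.v a₁) (h3 : w.v a₃ ≤ 1)
    (e1 : μ ^ 2 + μ + 2 = a₁ + a₂ + a₃) (e2 : c * (2 * μ + 1) + 9 = -(a₁ * a₂ + a₃ * (a₁ + a₂)))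
    (e3 : c ^ 2 = a₁ * a₂ * a₃) : False := by
  have h1 : 1 ≤ w.v a₁ := h2.le.trans h12
  have h0 : 0 < w.v a₁ := zero_lt_one.trans_le h1
  have h4 : w.v (a₁ + a₂) ≤ w.v a₁ := w.v.map_add_le le_rfl h12
  have h5 : w.v μ ^ 2 ≤ w.v a₁ := sq_le (b := 1) h1 (map_one _).le (by
    rw [show μ ^ 2 + 1 * μ = a₁ + a₂ + a₃ - 2 by linear_combination e1]
    exact w.v.map_sub_le (w.v.map_add_le h4 (h3.trans h1)) ((v_nat w 2).trans h1))
  have h6 : w.v (2 * μ + 1) ^ 2 ≤ w.v a₁ := by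
    have h7 : w.v (2 * μ) ≤ w.v μ := by
      rw [map_mul]; exact mul_le_of_le_one_left zero_le (v_nat w 2)
    rcases le_total (w.v μ) 1 with h | h
    · exact (pow_le_one₀ zero_le (w.v.map_add_le (h7.trans h) (map_one _).le)).trans h1
    · exact (pow_le_pow_left₀ zero_le (w.v.map_add_le h7 ((map_one _).trans_le h)) 2).trans h5
  have h7 : w.v (c * (2 * μ + 1)) = w.v a₁ * w.v a₂ := by
    rw [show c * (2 * μ + 1) = -(a₁ * a₂ + (a₃ * (a₁ + a₂) + 9)) by linear_combination e2,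
      Valuation.map_neg, Valuation.map_add_eq_of_lt_left, map_mul]
    rw [map_mul]
    refine lt_of_le_of_lt (w.v.map_add_le ?_ ((v_nat w 9).trans h1))
      (lt_mul_of_one_lt_right h0 h2)
    rw [map_mul]
    exact (mul_le_of_le_one_left zero_le h3).trans h4
  have h8 : w.v c ^ 2 ≤ w.v a₁ * w.v a₂ := by
    rw [← map_pow, e3, map_mul, map_mul]
    exact mul_le_of_le_one_right zero_le h3
  have h9 := mul_le_mul' h8 h6
  rw [← mul_pow, ← map_mul, h7, sq] at h9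
  exact absurd (le_of_mul_le_mul_left h9 (mul_pos h0 (zero_lt_one.trans h2)))
    (lt_mul_of_one_lt_right h0 h2).not_ge

theorem e1_add (hP : E1 w P) (hQ : E1 w Q) : E1 w (P + Q) := by
  rcases zero_or_iz P with rfl | ⟨a₁, y₁, h1⟩
  · rwa [zero_add]
  rcases zero_or_iz Q with rfl | ⟨a₂, y₂, h2⟩
  · rwa [add_zero]
  by_cases h0 : P + Q = 0
  · rw [h0]; exact e1_zero
  obtain ⟨μ, η, h3, h4, h5⟩ := add_line h1 h2 h0
  rw [e1_iff h1] at hP
  rw [e1_iff h2] at hQ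
  rw [e1_iff h3]
  by_contra h6
  have e1 : μ ^ 2 + μ + 2 = a₁ + a₂ + (μ ^ 2 + μ + 2 - a₁ - a₂) := by ring
  have e2 : (y₁ - μ * a₁) * (2 * μ + 1) + 9 =
      -(a₁ * a₂ + (μ ^ 2 + μ + 2 - a₁ - a₂) * (a₁ + a₂)) := by
    linear_combination h5 - (μ + 1) * h4
  have e3 : (y₁ - μ * a₁) ^ 2 = a₁ * a₂ * (μ ^ 2 + μ + 2 - a₁ - a₂) := by
    linear_combination h1.eq - a₁ * e2
  rcases le_total (w.v a₂) (w.v a₁) with h | h
  · exact sym hQ h (not_lt.1 h6) e1 e2 e3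
  · exact sym hP h (not_lt.1 h6) (μ := μ) (c := y₁ - μ * a₁) (by ring)
      (by linear_combination e2) (by linear_combination e3)

theorem e1_nsmul (hP : E1 w P) (n : ℕ) : E1 w (n • P) := by
  induction n with
  | zero => rw [zero_smul]; exact e1_zero
  | succ n ih => rw [succ_nsmul]; exact e1_add ih hP

theorem e1_ac (g : GQ) (h : E1 w P) : E1 (g • w) (ac g P) := by
  rcases zero_or_iz P with rfl | ⟨a, y, h1⟩
  · rw [map_zero]; exact e1_zero
  have h2 := is_ac g h1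
  rw [map_mul, map_ofNat] at h2
  rw [e1_iff h2, Pl.smul_v_apply]
  exact (e1_iff h1).1 h

theorem exists_big (ha : 1 < w.v a) : ∃ X : Om, 1 < w.v X ∧
    (X ^ 2 + 9) ^ 2 = a * (X * (4 * X + 9) * (X - 4)) := by
  by_contra hc
  push Not at hc
  let f : Om[X] := X ^ 4 + C (-(4 * a)) * X ^ 3 + C (18 + 7 * a) * X ^ 2 + C (36 * a) * X + C 81
  have hm : f.Monic := by unfold f; monicity!
  have h1 := (lifts_iff_coeff_lifts _).1 ((IsAlgClosed.splits f).mem_lift_of_roots_mem_range hm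
    w.v.integer.subtype fun r hr => ⟨⟨r, not_lt.1 fun h => hc r h (by
      have := (mem_roots hm.ne_zero).1 hr
      simp only [f, IsRoot.def, eval_add, eval_mul, eval_pow, eval_C, eval_X] at this
      linear_combination this)⟩, rfl⟩)
  obtain ⟨u, hu⟩ := h1 3
  obtain ⟨u', hu'⟩ := h1 2
  have e3 : f.coeff 3 = -(4 * a) := by
    simp only [f, coeff_add, coeff_C_mul, coeff_X_pow, coeff_X, coeff_C]; simp
  have e2 : f.coeff 2 = 18 + 7 * a := by
    simp only [f, coeff_add, coeff_C_mul, coeff_X_pow, coeff_X, coeff_C]; simp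
  have h2 : a = ((18 - u - u - u' : w.v.integer) : Om) := by
    have e4 : (u : Om) = -(4 * a) := hu.trans e3
    have e5 : (u' : Om) = 18 + 7 * a := hu'.trans e2
    push_cast
    rw [e4, e5]
    change a = 18 - _ - _ - _
    ring
  exact ha.not_ge (h2 ▸ (18 - u - u - u' : w.v.integer).2)

theorem e1_half (h : E1 w P) : ∃ Q, E1 w Q ∧ 2 • Q = P := by
  rcases zero_or_iz P with rfl | ⟨a, y, h1⟩
  · exact ⟨0, e1_zero, smul_zero _⟩
  obtain ⟨X, hX, e⟩ := exists_big ((e1_iff h1).1 h)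
  obtain ⟨η, hη⟩ := exists_root (4 * ((4 * X - 0) * (4 * X - -9) * (4 * X - 16))) two_ne_zero
  obtain ⟨Q, hQ⟩ := split15.exists_is hη
  have h0 : η ≠ 0 := by
    rintro rfl
    have h2 : X ^ 2 + 0 * X = -9 := by
      have : (X ^ 2 + 9) ^ 2 = 0 := by linear_combination e - a / 64 * hη
      linear_combination pow_eq_zero_iff two_ne_zero |>.1 this
    have h3 := sq_le (w := w) (μ := X) (b := 0) le_rfl (by simp) (by
      rw [h2, Valuation.map_neg]; exact v_nat w 9)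
    exact (one_lt_pow₀ hX two_ne_zero).not_ge h3
  obtain ⟨m, hm⟩ : ∃ m : Om, m * η = 2 * ((4 * X - 0) * (4 * X - -9) + (4 * X - 0) * (4 * X - 16) +
    (4 * X - -9) * (4 * X - 16)) := ⟨_, div_mul_cancel₀ _ h0⟩
  have h2 := Is.add_self split15 hQ h0 hm (x₃ := 4 * a) (mul_right_cancel₀ (pow_ne_zero 2 h0) (by
    linear_combination (32 * X + 16 * a - 28) * hη - 1024 * e -
      (m * η + 2 * ((4 * X - 0) * (4 * X - -9) + (4 * X - 0) * (4 * X - 16) +
        (4 * X - -9) * (4 * X - 16))) * hm))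
  have hQ1 : E1 w Q := (e1_iff hQ).2 hX
  rcases sq_eq_sq_iff_eq_or_eq_neg.1 ((Is.eq split15 h2).trans (Is.eq split15 h1).symm) with h3 | h3
  · exact ⟨Q, hQ1, by rw [two_nsmul]; exact Is.unique split15 (h3 ▸ h2) h1⟩
  · refine ⟨-Q, e1_neg hQ1, ?_⟩
    rw [h3] at h2
    rw [smul_neg, two_nsmul, Is.unique split15 h2 (Is.neg h1), neg_neg]

theorem e1_tors (hp : w.p ≠ 2) (k : ℕ) (h : E1 w P) (h0 : 2 ^ k • P = 0) : P = 0 := by
  induction k with
  | zero => simpa using h0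
  | succ k ih =>
    refine ih ?_
    have h4 : w.v 4 = 1 := by
      rw [show (4 : Om) = 2 * 2 by norm_num, map_mul, Pl.v_two hp, mul_one]
    have h1 := e1_nsmul h (2 ^ k)
    rw [pow_succ', mul_smul, two_nsmul] at h0
    rcases MP_9c97e9_nt.two_torsion split15 h0 with h2 | h2 | h2 | h2
    · exact h2
    all_goals refine absurd (h1 _ _ h2) (not_lt.2 (le_of_le_of_eq ?_ h4.symm))
    · simp
    · rw [Valuation.map_neg]; exact v_nat w 9
    · exact v_nat w 16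

theorem sing {R : Type} [CommRing R] {a y μ : R} (h1 : y ^ 2 + a * y = a ^ 3 - 2 * a ^ 2 - 9 * a)
    (h2 : μ * (a - a) = y - (-y - a))
    (h3 : μ * (y + (-y - a) + a) = a ^ 2 + a * a + a ^ 2 - 2 * (a + a) - 9 - (-y - a)) :
    (15 : R) ^ 4 = 0 := by
  obtain rfl : a = -2 * y := by linear_combination -h2
  linear_combination -(4123 + 5772 * y) * h1 + (5625 - 3871 * y - 3848 * y ^ 2) * h3

theorem v_y (h : Iz P a y) (ha : w.v a ≤ 1) : w.v y ≤ 1 := by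
  refine (pow_le_one_iff_of_nonneg zero_le two_ne_zero).1 (sq_le le_rfl ha ?_)
  rw [h.eq]
  have h1 : a ∈ w.v.integer := ha
  exact sub_mem (sub_mem (pow_mem h1 3) (mul_mem (ofNat_mem _ 2) (pow_mem h1 2)))
    (mul_mem (ofNat_mem _ 9) h1)

theorem cong (hp : ¬ w.p ∣ 15) (hP : Iz P a₁ y₁) (hQ : Iz Q a₂ y₂) (h1 : w.v a₁ ≤ 1)
    (h2 : w.v (a₁ - a₂) < 1) (h3 : w.v (y₁ - y₂) < 1) : E1 w (P - Q) := by
  rw [sub_eq_add_neg]
  by_cases h0 : P + -Q = 0
  · rw [h0]; exact e1_zero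
  obtain ⟨μ, η, h4, h5, h6⟩ := add_line hP hQ.neg h0
  have h7 : w.v a₂ ≤ 1 := by
    rw [show a₂ = a₁ - (a₁ - a₂) by ring]; exact w.v.map_sub_le h1 h2.le
  rw [e1_iff h4]
  by_contra h8
  have h9 : w.v μ ≤ 1 := (pow_le_one_iff_of_nonneg zero_le two_ne_zero).1
    (sq_le (b := 1) le_rfl (map_one _).le (by
      rw [show μ ^ 2 + 1 * μ = μ ^ 2 + μ + 2 - a₁ - a₂ + a₁ + a₂ - 2 by ring]
      exact w.v.map_sub_le (w.v.map_add_le (w.v.map_add_le (not_lt.1 h8) h1) h7) (v_nat w 2)))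
  have e1 := hP.eq
  lift a₁ to w.v.integer using h1
  lift a₂ to w.v.integer using h7
  lift y₁ to w.v.integer using v_y hP a₁.2
  lift y₂ to w.v.integer using v_y hQ a₂.2
  lift μ to w.v.integer using h9
  let I : Ideal w.v.integer :=
    { carrier := {z | w.v z < 1}
      add_mem' := fun hz hz' => w.v.map_add_lt hz hz'
      zero_mem' := by simp
      smul_mem' := fun c z hz => by
        change w.v (c * z) < 1
        rw [map_mul]
        exact (mul_le_of_le_one_left zero_le c.2).trans_lt hz }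
  have ea : Ideal.Quotient.mk I a₂ = Ideal.Quotient.mk I a₁ := (Ideal.Quotient.eq.2 h2).symm
  have ey : Ideal.Quotient.mk I y₂ = Ideal.Quotient.mk I y₁ := (Ideal.Quotient.eq.2 h3).symm
  have f1 : y₁ ^ 2 + a₁ * y₁ = a₁ ^ 3 - 2 * a₁ ^ 2 - 9 * a₁ := Subtype.ext e1
  have f2 : μ * (a₁ - a₂) = y₁ - (-y₂ - a₂) := Subtype.ext h5
  have f3 : μ * (y₁ + (-y₂ - a₂) + a₁) =
    a₁ ^ 2 + a₁ * a₂ + a₂ ^ 2 - 2 * (a₁ + a₂) - 9 - (-y₂ - a₂) := Subtype.ext h6
  apply_fun Ideal.Quotient.mk I at f1 f2 f3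
  simp only [map_add, map_sub, map_mul, map_pow, map_neg, map_ofNat, ea, ey] at f1 f2 f3
  have f4 : Ideal.Quotient.mk I (15 ^ 4) = 0 := by
    rw [map_pow, map_ofNat]; exact sing f1 f2 f3
  have f5 : w.v (15 ^ 4) < 1 := Ideal.Quotient.eq_zero_iff_mem.1 f4
  have f6 : w.v 15 = 1 := by
    have := (Pl.v_int_eq_one (w := w) (n := 15)).2 (by exact_mod_cast hp)
    simpa using this
  rw [map_pow, f6, one_pow] at f5
  exact lt_irrefl _ f5

end TE1G

open TE1G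

theorem t_E1G : E1G := fun w =>
  ⟨e1_zero, fun _ => e1_neg, fun _ _ => e1_add, fun g P => ⟨fun h => by
    have := e1_ac g⁻¹ h
    rwa [inv_smul_smul, ← ac_mul, inv_mul_cancel, ac_one] at this, e1_ac g⟩,
    fun _ => e1_half, fun hp _ k => e1_tors hp k⟩

theorem t_CONG (hE1G : E1G) : CONG := by
  intro w hp
  refine ⟨fun P Q x η x' η' hP hQ h1 h2 h3 => cong hp (iz_of hP) (iz_of hQ) ?_ ?_ ?_,
    fun g hg P => ?_⟩
  · rw [map_div₀]
    exact div_le_one_of_le₀ h1 zero_le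
  · rw [← sub_div, map_div₀]
    exact (div_lt_one (v_pos w (by norm_num))).2 h2
  · rw [← sub_div, map_div₀, neg_sub_neg, Valuation.map_sub_swap]
    exact (div_lt_one (v_pos w (by norm_num))).2 h3
  obtain ⟨-, hn, ha, hg', -⟩ := hE1G w
  by_cases h : E1 w P
  · have h1 := (hg' g P).2 h
    rw [show g • w = w from hg.1] at h1
    rw [sub_eq_add_neg]
    exact ha _ _ h1 (hn _ h)
  rcases zero_or_iz P with rfl | ⟨a, y, h1⟩
  · exact absurd e1_zero h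
  have h2 : w.v a ≤ 1 := not_lt.1 fun h2 => h ((e1_iff h1).2 h2)
  have h3 : Iz (ac g P) (g a) (g y) := by
    simpa only [Iz, map_mul, map_neg, map_add, map_ofNat] using is_ac g h1
  exact cong hp h3 h1 ((Pl.mem_D.1 hg.1 a).trans_le h2) (hg.2 a h2) (hg.2 y (v_y h1 h2))

end Pool.Agent.P.MP_8b7eba_nt.R2
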