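import Pool.Agent.P.MP_8b7eba_nt.R2.TFRB

/-! Proof of FR. -/

namespace Pool.Agent.P.MP_8b7eba_nt.R2

open scoped NNReal Matrix
open MP_9c97e9_nt (Pt pm Is ap Sha Split zero_or_is)
open Filter Topology Polynomial Module Finset

theorem t_FR (hCA : CA) (hE1G : E1G) (hCONG : CONG) (hAPB : APB) : FR := by
  intro w φ h30 hφ P
  have hw : ¬ w.p ∣ 15 := fun h => h30 (h.trans (by norm_num))
  let A := TFR.EA hE1G w
  let F : EO →+ EO := (ac φ).comp (ac φ) - ap W15 w.p • ac φ + w.p • AddMonoidHom.id EO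
  have hF : ∀ Q ∈ A, F Q ∈ A := fun Q hQ =>
    have h := TFR.ac_mem hE1G hφ.1 hQ
    A.add_mem (A.sub_mem (TFR.ac_mem hE1G hφ.1 h) (A.zsmul_mem h _)) (A.nsmul_mem hQ _)
  show F P ∈ A
  by_cases h0 : E1 w P
  · exact hF P h0
  simp only [E1, not_forall, not_lt] at h0
  obtain ⟨X, η, hP, hX⟩ := h0
  obtain ⟨x, rfl⟩ : ∃ x, X = 4 * x := ⟨X / 4, by ring⟩
  obtain ⟨y, rfl⟩ : ∃ y, η = -16 * y - 8 * x := ⟨-(η + 8 * x) / 16, by ring⟩
  rw [map_mul, mul_le_iff_le_one_right (w.v.pos_iff.2 (by norm_num))] at hX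
  obtain ⟨S, hS⟩ := TFR.surj
  obtain ⟨x', h1, h2, h3⟩ := TFR.exists_int hCA.pl hφ hX S
  obtain ⟨z, hz, ex⟩ := hS _ h3
  let c : R1.Zb := ⟨Mod.xx z, ex ▸ TFR.int_io.2 h1⟩
  have hx : R1.IntPt z := ⟨c.2, isIntegral_trans (A := R1.Zb) _
    ⟨X ^ 2 + (C c * X - C (c ^ 3 - 2 * c ^ 2 - 9 * c)), by monicity!, by
      simpa [sub_eq_zero, ← add_sub_assoc, map_ofNat, c] using R1.y1_eq hz⟩⟩
  obtain ⟨R, hR⟩ := TFR.exists_pt' hCA.tau hz hx
  choose Q hQ using fun i => TFR.exists_pt' hCA.tau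
    (Mod.M2.im_act_pos (TFR.al_pos w.prime i) hz) (TFR.int_al w.prime hw hz hx i)
  obtain ⟨j, hj, h5, h6⟩ := TFR.kronE hCA.pl hCA.tau hCONG hw hφ hz hx hR fun i _ => hQ i
  have h7 := TFR.heckeE w.prime hw hz hR fun i _ => hQ i
  have hR1 : F R ∈ A := by
    have h8 := A.sub_mem (TFR.ac_mem hE1G hφ.1 h5) (A.sum_mem (t := (range (w.p + 1)).erase j)
      fun i hi => h6 i (mem_range_succ_iff.1 (mem_erase.1 hi).2) (mem_erase.1 hi).1)
    have h9 := congrArg (ac φ) h7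
    rw [map_zsmul, map_sum, ← add_sum_erase _ _ (mem_range_succ_iff.2 hj),
      ← TFR.ap_an w.prime h30] at h9
    rw [sum_sub_distrib, sum_const, card_erase_of_mem (mem_range_succ_iff.2 hj), card_range,
      map_sub, Nat.succ_sub_one, ← sub_add, sub_sub, h9] at h8
    exact h8
  obtain ⟨a, b, -, hb, ea, -, hR'⟩ := TFR.is_pt hCA.tau hz hx hR
  obtain rfl := io.injective (ea.trans ex)
  have e1 := hP.eq R1.split15
  have e2 := hR'.eq R1.split15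
  have v1 := hCA.pl.2.2.2.1 w
  have e3 : (y - b) * (y - (-b - x)) =
      (x - a) * (x ^ 2 + x * a + a ^ 2 - 2 * (x + a) - 9 - b) := by
    linear_combination (e1 - e2) / 256
  have h8 : w.v (y - b) * w.v (y - (-b - x)) < 1 := by
    rw [← map_mul, e3, map_mul]
    refine mul_lt_one_of_nonneg_of_lt_one_left zero_le h2 ?_
    let O := w.v.integer
    exact (⟨x, hX⟩ ^ 2 + ⟨x, hX⟩ * ⟨a, v1 a h1⟩ + ⟨a, v1 a h1⟩ ^ 2 - 2 * (⟨x, hX⟩ + ⟨a, v1 a h1⟩) -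
      9 - ⟨b, v1 b hb⟩ : O).2
  rcases lt_or_ge (w.v (y - b)) 1 with h | h
  · simpa using A.add_mem (hF _ (TFR.cong hCONG hw hP hR' hX h2 h)) hR1
  · have h9 := hR'.neg
    rw [show -(-16 * b - 8 * a) = -16 * (-b - a) - 8 * a by ring] at h9
    have h10 : w.v (y - (-b - a)) < 1 := by
      rw [show y - (-b - a) = y - (-b - x) - (x - a) by ring]
      exact w.v.map_sub_lt ((le_mul_of_one_le_left' h).trans_lt h8) h2
    simpa using A.sub_mem (hF _ (TFR.cong hCONG hw hP h9 hX h2 h10)) hR1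

end Pool.Agent.P.MP_8b7eba_nt.R2
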