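import Pool.Agent.P.MP_8b7eba_nt.R2.IfB
import Pool.Agent.P.MP_8b7eba_nt.R2.ChainA

/-! Proof of H1, H2. -/

namespace Pool.Agent.P.MP_8b7eba_nt.R2

open scoped NNReal Matrix
open MP_9c97e9_nt (Pt pm Is ap Sha Split)
open Filter Topology Polynomial Module

namespace TH1

section dims

variable {A : Type} [CommRing A] [Algebra ℚ_[2] A] {X : Type} [AddCommGroup X] [Module A X]
  [Module ℚ_[2] X] [IsScalarTower ℚ_[2] A X] {Y : Type} [AddCommGroup Y] [Module A Y]
  [Module ℚ_[2] Y] [IsScalarTower ℚ_[2] A Y]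

theorem fd_of_le {M N : Submodule A X} (h : M ≤ N) [hN : FiniteDimensional ℚ_[2] N] :
    FiniteDimensional ℚ_[2] M := by
  haveI : FiniteDimensional ℚ_[2] (N.restrictScalars ℚ_[2]) := hN
  exact Submodule.finiteDimensional_of_le (S₁ := M.restrictScalars ℚ_[2])
    (S₂ := N.restrictScalars ℚ_[2]) h

theorem dim_mono {M N : Submodule A X} (h : M ≤ N) [hN : FiniteDimensional ℚ_[2] N] :
    finrank ℚ_[2] M ≤ finrank ℚ_[2] N := by
  haveI : FiniteDimensional ℚ_[2] (N.restrictScalars ℚ_[2]) := hN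
  exact Submodule.finrank_mono (s := M.restrictScalars ℚ_[2]) (t := N.restrictScalars ℚ_[2]) h

theorem res_sup (M N : Submodule A X) :
    (M ⊔ N).restrictScalars ℚ_[2] = M.restrictScalars ℚ_[2] ⊔ N.restrictScalars ℚ_[2] := by
  ext x
  simp only [Submodule.restrictScalars_mem, Submodule.mem_sup]

theorem fd_sup (M N : Submodule A X) [hM : FiniteDimensional ℚ_[2] M]
    [hN : FiniteDimensional ℚ_[2] N] : FiniteDimensional ℚ_[2] (M ⊔ N : Submodule A X) := by
  haveI : FiniteDimensional ℚ_[2] (N.restrictScalars ℚ_[2]) := hN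
  haveI : FiniteDimensional ℚ_[2] (M.restrictScalars ℚ_[2]) := hM
  have : FiniteDimensional ℚ_[2] ((M ⊔ N).restrictScalars ℚ_[2]) := by
    rw [res_sup]
    infer_instance
  exact this

theorem dim_sup (M N : Submodule A X) [hM : FiniteDimensional ℚ_[2] M]
    [hN : FiniteDimensional ℚ_[2] N] :
    finrank ℚ_[2] (M ⊔ N : Submodule A X) + finrank ℚ_[2] (M ⊓ N : Submodule A X) =
      finrank ℚ_[2] M + finrank ℚ_[2] N := by
  haveI : FiniteDimensional ℚ_[2] (N.restrictScalars ℚ_[2]) := hN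
  haveI : FiniteDimensional ℚ_[2] (M.restrictScalars ℚ_[2]) := hM
  have h := Submodule.finrank_sup_add_finrank_inf_eq (M.restrictScalars ℚ_[2])
    (N.restrictScalars ℚ_[2])
  rw [← res_sup] at h
  exact h

theorem dim_le_add (f : X →ₗ[A] Y) (M Q : Submodule A X) (P : Submodule A Y)
    [hM : FiniteDimensional ℚ_[2] M] [hP : FiniteDimensional ℚ_[2] P]
    [hQ : FiniteDimensional ℚ_[2] Q] (h1 : ∀ x ∈ M, f x ∈ P) (h2 : ∀ x ∈ M, f x = 0 → x ∈ Q) :
    finrank ℚ_[2] M ≤ finrank ℚ_[2] P + finrank ℚ_[2] Q := by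
  haveI : FiniteDimensional ℚ_[2] (M.restrictScalars ℚ_[2]) := hM
  haveI : FiniteDimensional ℚ_[2] (P.restrictScalars ℚ_[2]) := hP
  haveI : FiniteDimensional ℚ_[2] (Q.restrictScalars ℚ_[2]) := hQ
  set g := (f.restrictScalars ℚ_[2]).domRestrict (M.restrictScalars ℚ_[2]) with hg
  have h := LinearMap.finrank_range_add_finrank_ker g
  have a1 : finrank ℚ_[2] (LinearMap.range g) ≤ finrank ℚ_[2] (P.restrictScalars ℚ_[2]) := by
    apply Submodule.finrank_mono
    rintro _ ⟨x, rfl⟩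
    exact h1 x.1 x.2
  have a2 : finrank ℚ_[2] (LinearMap.ker g) ≤ finrank ℚ_[2] (Q.restrictScalars ℚ_[2]) := by
    rw [← Submodule.finrank_map_subtype_eq]
    apply Submodule.finrank_mono
    rintro _ ⟨x, hx, rfl⟩
    exact h2 x.1 x.2 hx
  have a3 : finrank ℚ_[2] (M.restrictScalars ℚ_[2]) ≤
      finrank ℚ_[2] (P.restrictScalars ℚ_[2]) + finrank ℚ_[2] (Q.restrictScalars ℚ_[2]) := by
    omega
  exact a3

theorem dim_map_le (f : X →ₗ[A] Y) (P : Submodule A X) [hP : FiniteDimensional ℚ_[2] P]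
    (N : Submodule A Y) (h : ∀ y ∈ N, ∃ x ∈ P, f x = y) : finrank ℚ_[2] N ≤ finrank ℚ_[2] P := by
  haveI : FiniteDimensional ℚ_[2] (P.restrictScalars ℚ_[2]) := hP
  have a1 := Submodule.finrank_map_le (f.restrictScalars ℚ_[2]) (P.restrictScalars ℚ_[2])
  have a2 : finrank ℚ_[2] (N.restrictScalars ℚ_[2]) ≤
      finrank ℚ_[2] ((P.restrictScalars ℚ_[2]).map (f.restrictScalars ℚ_[2])) := by
    apply Submodule.finrank_mono
    intro y hy
    obtain ⟨x, hx, rfl⟩ := h y hy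
    exact ⟨x, hx, rfl⟩
  exact a2.trans a1

omit [Module A X] [IsScalarTower ℚ_[2] A X] in
theorem two_cancel {v : X} (h : v + v = 0) : v = 0 := by
  have : (2 : ℚ_[2]) • v = 0 := by rw [two_smul, h]
  exact (smul_eq_zero.1 this).resolve_left two_ne_zero

end dims

variable {A : Type} [NormedCommRing A] [NormedAlgebra ℚ_[2] A] [FiniteDimensional ℚ_[2] A]
  {π : A} {j e : ℕ} {X : Type} [AddCommGroup X] [Module A X] [Module ℚ_[2] X]
  [IsScalarTower ℚ_[2] A X] {ι : Type}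

/-- the annihilator of a power -/
def ann (π : A) (i : ℕ) : Submodule A A := LinearMap.ker (LinearMap.lsmul A A (π ^ i))

omit [NormedAlgebra ℚ_[2] A] [FiniteDimensional ℚ_[2] A] in
theorem mem_ann {i : ℕ} {a : A} : a ∈ ann π i ↔ π ^ i * a = 0 := by
  simp [ann]

instance (P : Submodule A A) : FiniteDimensional ℚ_[2] P :=
  inferInstanceAs (FiniteDimensional ℚ_[2] (P.restrictScalars ℚ_[2]))

theorem dim_ann (h : Chain π j e) (i : ℕ) : finrank ℚ_[2] (ann π i) ≤ e * i := by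
  rcases le_total i j with hi | hi
  · have h1 : ann π i ≤ Ideal.span {π ^ (j - i)} := by
      intro a ha
      exact Ideal.mem_span_singleton.2 ((h.ann hi).1 (mem_ann.1 ha))
    have h2 := h.rk (j - i) (Nat.sub_le _ _)
    have h3 : j - (j - i) = i := by omega
    rw [h3] at h2
    exact (dim_mono h1).trans h2.le
  · have h1 : finrank ℚ_[2] ((ann π i).restrictScalars ℚ_[2]) ≤ finrank ℚ_[2] A :=
      Submodule.finrank_le _
    rw [h.finrank] at h1
    exact le_trans h1 (Nat.mul_le_mul_left _ hi)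

omit [Module ℚ_[2] X] [IsScalarTower ℚ_[2] A X] [FiniteDimensional ℚ_[2] A] in
theorem pos_of (h : Chain π j e) {κ : X} (hκ : π ^ (j - 1) • κ ≠ 0) : 1 ≤ j := by
  rcases Nat.eq_zero_or_pos j with rfl | hj
  · exact absurd (by rw [show π ^ (0 - 1) = 0 from h.nil, zero_smul]) hκ
  · exact hj

omit [Module ℚ_[2] X] [IsScalarTower ℚ_[2] A X] [FiniteDimensional ℚ_[2] A] in
theorem soc (h : Chain π j e) {κ : X} (hκ : π ^ (j - 1) • κ ≠ 0) : π • π ^ (j - 1) • κ = 0 := by
  have := pos_of h hκ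
  rw [smul_smul, ← pow_succ', Nat.sub_add_cancel this, h.nil, zero_smul]

omit [NormedAlgebra ℚ_[2] A] [Module ℚ_[2] X] [IsScalarTower ℚ_[2] A X]
  [FiniteDimensional ℚ_[2] A] in
theorem kill {s : X} (hs : π • s = 0) {a : A} (ha : π ∣ a) : a • s = 0 := by
  obtain ⟨b, rfl⟩ := ha
  rw [mul_comm, mul_smul, hs, smul_zero]

omit [Module ℚ_[2] X] [IsScalarTower ℚ_[2] A X] [FiniteDimensional ℚ_[2] A] in
theorem dvd_of_smul (h : Chain π j e) {s : X} (hs : s ≠ 0) {a : A} (ha : a • s = 0) : π ∣ a := by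
  rcases h.loc a with hu | hd
  · exact absurd (hu.smul_eq_zero.1 ha) hs
  · exact hd

theorem dim_span (h : Chain π j e) {κ : X} (hκ : π ^ (j - 1) • κ ≠ 0) :
    finrank ℚ_[2] (Submodule.span A {κ}) = e * j := by
  obtain ⟨-, i, hi, h0, -, h2⟩ := h.finrank_span κ
  have hj := pos_of h hκ
  have : i = j := by
    by_contra hne
    apply hκ
    rw [show j - 1 = (j - 1 - i) + i by omega, pow_add, mul_smul, h0, smul_zero]
  rw [h2, this]

theorem dim_span_le (h : Chain π j e) (κ : X) :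
    finrank ℚ_[2] (Submodule.span A {κ}) ≤ e * j := by
  obtain ⟨-, i, hi, -, -, h2⟩ := h.finrank_span κ
  rw [h2]
  exact Nat.mul_le_mul_left _ hi

theorem dim_span_soc (h : Chain π j e) {s : X} (hs : π • s = 0) :
    finrank ℚ_[2] (Submodule.span A {s}) ≤ e := by
  obtain ⟨-, i, -, -, h1, h2⟩ := h.finrank_span s
  have : i ≤ 1 := by
    by_contra hne
    exact h1 1 (by omega) (by rw [pow_one, hs])
  rw [h2]
  calc e * i ≤ e * 1 := Nat.mul_le_mul_left _ this
    _ = e := mul_one e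

omit [FiniteDimensional ℚ_[2] A] in
/-- a primitive vector has a unit coordinate -/
theorem prim (h : Chain π j e) {u : Fin 2 → A} (hu : π ^ (j - 1) • u ≠ 0) :
    IsUnit (u 0) ∨ IsUnit (u 1) := by
  have hj := pos_of h hu
  have key : ∀ a : A, π ∣ a → π ^ (j - 1) * a = 0 := by
    rintro _ ⟨b, rfl⟩
    rw [← mul_assoc, ← pow_succ, Nat.sub_add_cancel hj, h.nil, zero_mul]
  rcases h.loc (u 0) with h0 | h0
  · exact Or.inl h0
  rcases h.loc (u 1) with h1 | h1
  · exact Or.inr h1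
  exfalso
  apply hu
  ext i
  fin_cases i
  · exact key _ h0
  · exact key _ h1

omit [FiniteDimensional ℚ_[2] A] in
theorem prim_cancel (h : Chain π j e) {u : Fin 2 → A} (hu : π ^ (j - 1) • u ≠ 0) {a : A}
    (ha : a • u = 0) : a = 0 := by
  rcases prim h hu with h0 | h0
  · exact h0.mul_left_eq_zero.1 (congrFun ha 0)
  · exact h0.mul_left_eq_zero.1 (congrFun ha 1)

omit [FiniteDimensional ℚ_[2] A] in
theorem prim_det (h : Chain π j e) {u : Fin 2 → A} (hu : π ^ (j - 1) • u ≠ 0) {w : Fin 2 → A}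
    (hw : w 0 * u 1 = w 1 * u 0) : ∃ a : A, a • u = w := by
  rcases prim h hu with h0 | h0
  · obtain ⟨v, hv⟩ := h0.exists_left_inv
    refine ⟨w 0 * v, ?_⟩
    ext i
    fin_cases i
    · show w 0 * v * u 0 = w 0
      rw [mul_assoc, hv, mul_one]
    · show w 0 * v * u 1 = w 1
      linear_combination v * hw + w 1 * hv
  · obtain ⟨v, hv⟩ := h0.exists_left_inv
    refine ⟨w 1 * v, ?_⟩
    ext i
    fin_cases i
    · show w 1 * v * u 0 = w 0
      linear_combination -v * hw + w 0 * hv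
    · show w 1 * v * u 1 = w 1
      rw [mul_assoc, hv, mul_one]

/-- the determinant with a fixed vector -/
def dt (u : Fin 2 → A) : (Fin 2 → A) →ₗ[A] A where
  toFun w := w 0 * u 1 - w 1 * u 0
  map_add' a b := by simp only [Pi.add_apply]; ring
  map_smul' a b := by simp only [Pi.smul_apply, smul_eq_mul, RingHom.id_apply]; ring

/-- the step lemma -/
theorem step (S : HS A π j X ι) (h : Chain π j e) {l : ι} {n : List ι} {κ κ' : X} {d α' : ℕ}
    (hl : S.ok (l :: n)) (hu : π ^ (j - 1) • S.fr l κ ≠ 0) (hg : S.Good (l :: n) α' κ')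
    (hs : S.sg l κ' = π ^ d • S.fr l κ) (M : Submodule A X) (hM : M ≤ S.Sel n)
    [FiniteDimensional ℚ_[2] M] :
    ∃ M' ≤ S.Sel (l :: n), FiniteDimensional ℚ_[2] M' ∧
      finrank ℚ_[2] M ≤ finrank ℚ_[2] M' + 2 * (e * d) := by
  obtain ⟨-, hκ', hκ0⟩ := S.mem _ _ _ hg
  set K : Submodule A X := M ⊓ LinearMap.ker (S.fr l) with hK
  haveI : FiniteDimensional ℚ_[2] K := fd_of_le (inf_le_left : K ≤ M)
  haveI : FiniteDimensional ℚ_[2] (Submodule.span A {κ'}) := (h.finrank_span κ').1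
  haveI : FiniteDimensional ℚ_[2] (Submodule.span A {S.fr l κ}) := (h.finrank_span _).1
  refine ⟨K ⊔ Submodule.span A {κ'}, ?_, fd_sup _ _, ?_⟩
  · refine sup_le ?_ ?_
    · intro x hx
      exact S.ker l n hl x (hM hx.1) hx.2
    · rw [Submodule.span_singleton_le_iff_mem]
      exact hκ'
  set g := dt (S.fr l κ) ∘ₗ S.fr l with hg
  set K1 : Submodule A X := M ⊓ LinearMap.ker g with hK1
  haveI : FiniteDimensional ℚ_[2] K1 := fd_of_le (inf_le_left : K1 ≤ M)
  have a1 := dim_le_add g M K1 (ann π d) (fun x hx => by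
    have := S.dual l n hl x (hM hx) κ' hκ'
    rw [hs] at this
    simp only [Pi.smul_apply, smul_eq_mul] at this
    rw [mem_ann]
    show π ^ d * (S.fr l x 0 * S.fr l κ 1 - S.fr l x 1 * S.fr l κ 0) = 0
    linear_combination this) fun x hx h0 => ⟨hx, h0⟩
  have a2 := dim_le_add (S.fr l) K1 K (Submodule.span A {S.fr l κ}) (fun x hx => by
    rw [Submodule.mem_span_singleton]
    exact prim_det h hu (sub_eq_zero.1 hx.2)) fun x hx h0 => ⟨hx.1, h0⟩
  have a3 := dim_sup K (Submodule.span A {κ'})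
  have a4 := dim_map_le (LinearMap.toSpanSingleton A X κ') (ann π d)
    (K ⊓ Submodule.span A {κ'}) fun y hy => by
      obtain ⟨a, rfl⟩ := Submodule.mem_span_singleton.1 hy.2
      refine ⟨a, ?_, rfl⟩
      have := S.sg0 l n hl _ (hM hy.1.1)
      rw [map_smul, hs, smul_smul] at this
      rw [mem_ann, mul_comm]
      exact prim_cancel h hu this
  have a5 := dim_ann h d
  have a6 := dim_span h hκ0
  have a7 := dim_span_le h (S.fr l κ)
  omega

/-- when the index does not drop, the socle is mapped to a line -/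
theorem line (S : HS A π j X ι) (h : Chain π j e) {l : ι} {n : List ι} {κ κ' : X}
    (hl : S.ok (l :: n)) (hu : π ^ (j - 1) • S.fr l κ ≠ 0) (hκ' : κ' ∈ S.Sel (l :: n))
    (hs : S.sg l κ' = S.fr l κ) {x : X} (hx : x ∈ S.Sel n) (h0 : π • x = 0) :
    ∃ b : A, S.fr l x = b • S.fr l (π ^ (j - 1) • κ) := by
  have h1 := S.dual l n hl x hx κ' hκ'
  rw [hs] at h1
  obtain ⟨a, ha⟩ := prim_det h hu h1
  have h2 : (π ^ 1 * a) • S.fr l κ = 0 := by
    rw [mul_smul, ha, pow_one, ← map_smul, h0, map_zero]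
  obtain ⟨b, rfl⟩ := (h.ann (pos_of h hu)).1 (prim_cancel h hu h2)
  exact ⟨b, by rw [map_smul, smul_smul, mul_comm, ha]⟩

/-- the bound -/
def Bd (S : HS A π j X ι) (e α : ℕ) : Prop :=
  ∀ n κ, S.Good n α κ → ∀ M ≤ S.Sel n, FiniteDimensional ℚ_[2] M →
    finrank ℚ_[2] M ≤ e * (j + 2 * α)

theorem drop (S : HS A π j X ι) (h : Chain π j e) {l : ι} {n : List ι} {κ κ' : X} {α α' : ℕ}
    (hl : S.ok (l :: n)) (hu : π ^ (j - 1) • S.fr l κ ≠ 0) (hg : S.Good (l :: n) α' κ')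
    (hs : S.sg l κ' = π ^ (α - α') • S.fr l κ) (ha : α' ≤ α)
    (ih : ∀ M ≤ S.Sel (l :: n), FiniteDimensional ℚ_[2] M → finrank ℚ_[2] M ≤ e * (j + 2 * α'))
    (M : Submodule A X) (hM : M ≤ S.Sel n) [FiniteDimensional ℚ_[2] M] :
    finrank ℚ_[2] M ≤ e * (j + 2 * α) := by
  obtain ⟨M', h1, h2, h3⟩ := step S h hl hu hg hs M hM
  have h4 := ih M' h1 h2
  obtain ⟨d, rfl⟩ := Nat.exists_eq_add_of_le ha
  rw [Nat.add_sub_cancel_left] at h3
  have : e * (j + 2 * (α' + d)) = e * (j + 2 * α') + 2 * (e * d) := by ring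
  omega

/-- two independent localizations force a drop -/
theorem key (S : HS A π j X ι) (h : Chain π j e) {α : ℕ} (ih : ∀ β < α, Bd S e β) {l : ι}
    {n : List ι} {κ : X} (hg : S.Good n α κ) (hl : S.ok (l :: n))
    (hu : S.fr l (π ^ (j - 1) • κ) ≠ 0) {x y : X} (hx : x ∈ S.Sel n) (hy : y ∈ S.Sel n)
    (hx0 : π • x = 0) (hy0 : π • y = 0)
    (hi : ∀ a b : A, a • S.fr l x + b • S.fr l y = 0 → π ∣ a ∧ π ∣ b)
    (M : Submodule A X) (hM : M ≤ S.Sel n) [FiniteDimensional ℚ_[2] M] :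
    finrank ℚ_[2] M ≤ e * (j + 2 * α) := by
  have hu' : π ^ (j - 1) • S.fr l κ ≠ 0 := by rwa [← map_smul]
  obtain ⟨α', ha, κ', hg', hs⟩ := S.step l n α κ hg hl hu'
  rcases ha.lt_or_eq with hlt | rfl
  · exact drop S h hl hu' hg' hs ha (ih α' hlt _ _ hg') M hM
  exfalso
  rw [Nat.sub_self, pow_zero, one_smul] at hs
  obtain ⟨a, ea⟩ := line S h hl hu' (S.mem _ _ _ hg').2.1 hs hx hx0
  obtain ⟨b, eb⟩ := line S h hl hu' (S.mem _ _ _ hg').2.1 hs hy hy0
  have h0 : π • S.fr l (π ^ (j - 1) • κ) = 0 := by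
    rw [← map_smul, soc h (S.mem _ _ _ hg).2.2, map_zero]
  have h1 := (hi b (-a) (by rw [ea, eb, smul_smul, smul_smul, ← add_smul]; ring_nf; simp)).1
  have h2 := (hi 0 1 (by rw [eb, kill h0 h1]; simp)).2
  exact hu (by simpa using kill h0 h2)

/-- the case of a small socle -/
theorem small (S : HS A π j X ι) (h : Chain π j e) {α : ℕ} {n : List ι} {κ : X}
    (hg : S.Good n α κ)
    (hc : ∀ y ∈ S.Sel n, π • y = 0 → y ∈ Submodule.span A {π ^ (j - 1) • κ})
    (M : Submodule A X) (hM : M ≤ S.Sel n) [FiniteDimensional ℚ_[2] M] :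
    finrank ℚ_[2] M ≤ e * (j + 2 * α) := by
  haveI := (h.finrank_span (π ^ (j - 1) • κ)).1
  have h1 := h.finrank_le M (i := j) (s := e) (fun x _ => by rw [h.nil, zero_smul])
    fun N hN h0 => (dim_mono fun y hy => hc y (hM (hN hy)) (h0 y hy)).trans
      (dim_span_soc h (soc h (S.mem _ _ _ hg).2.2))
  have : e * (j + 2 * α) = j * e + 2 * (e * α) := by ring
  omega

end TH1

open TH1 in
theorem t_H1 : H1 := by
  intro A _ _ _ π j e X _ _ _ _ ι S h hch n α κ hg
  suffices hb : Bd S e α from hb n κ hg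
  clear hg
  induction α using Nat.strong_induction_on with
  | _ α ih =>
  intro n κ hg M hM _
  obtain ⟨hn, hκ, hs⟩ := S.mem _ _ _ hg
  by_cases hc : ∀ y ∈ S.Sel n, π • y = 0 → y ∈ Submodule.span A {π ^ (j - 1) • κ}
  · exact small S h hg hc M hM
  push Not at hc
  obtain ⟨y, hy, hy0, hys⟩ := hc
  have hs0 := soc h hs
  have hsm : π ^ (j - 1) • κ ∈ S.Sel n := Submodule.smul_mem _ _ hκ
  obtain ⟨l, hl, hi⟩ := hch n hn _ hsm y hy hs0 hy0 fun a b hab => by
    have hb : π ∣ b := by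
      rcases h.loc b with hu | hd
      · exfalso
        obtain ⟨v, hv⟩ := hu.exists_left_inv
        apply hys
        rw [Submodule.mem_span_singleton]
        refine ⟨-(v * a), ?_⟩
        have h1 : b • y = -(a • π ^ (j - 1) • κ) := eq_neg_of_add_eq_zero_right hab
        rw [neg_smul, mul_smul, ← smul_neg, ← h1, smul_smul, hv, one_smul]
      · exact hd
    rw [kill hy0 hb, add_zero] at hab
    exact ⟨dvd_of_smul h hs hab, hb⟩
  refine key S h ih hg hl (fun h0 => ?_) hsm hy hs0 hy0 hi M hM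
  have h1 := (hi 1 0 (by rw [h0]; simp)).1
  exact hs (by simpa using kill hs0 h1)

open TH1 in
theorem t_H2 : H2 := by
  intro A _ _ _ π j e X _ _ _ _ ι S c t h _ _ hc ht hch n α κ hg
  suffices hb : Bd S e α from hb n κ hg
  clear hg
  induction α using Nat.strong_induction_on with
  | _ α ih =>
  have hπ : ∀ x : X, π • x = 0 → π • c x = 0 := fun x hx => by rw [← map_smul, hx, map_zero]
  have both : ∀ n κ, S.Good n α κ → ∀ x ∈ S.Sel n, ∀ y ∈ S.Sel n, π • x = 0 → π • y = 0 →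
      x ≠ 0 → y ≠ 0 → c x = x → c y = -y → ∀ M ≤ S.Sel n, FiniteDimensional ℚ_[2] M →
      finrank ℚ_[2] M ≤ e * (j + 2 * α) := by
    intro n κ hg x hx y hy hx0 hy0 hx1 hy1 cx cy M hM _
    obtain ⟨hn, hκ, hs⟩ := S.mem _ _ _ hg
    have hs0 := soc h hs
    have hsm : π ^ (j - 1) • κ ∈ S.Sel n := Submodule.smul_mem _ _ hκ
    have kk := fun l hl hu x' y' => key S h ih (l := l) hg hl hu (x := x') (y := y')
    generalize π ^ (j - 1) • κ = s at *
    obtain ⟨cs, ccs⟩ := hc n hn s hsm hs0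
    obtain ⟨x', hx', hx0', hx1', cx', a, ea, ha⟩ : ∃ x' ∈ S.Sel n, π • x' = 0 ∧ x' ≠ 0 ∧
        c x' = x' ∧ ∃ a : A, s + c s = a • x' ∧ (π ∣ a → s + c s = 0) := by
      by_cases h0 : s + c s = 0
      · exact ⟨x, hx, hx0, hx1, cx, 0, by rw [h0, zero_smul], fun _ => h0⟩
      · have h1 : π • (s + c s) = 0 := by rw [smul_add, hs0, hπ s hs0, add_zero]
        exact ⟨s + c s, add_mem hsm cs, h1, h0, by rw [map_add, ccs, add_comm], 1,
          (one_smul _ _).symm, fun h2 => by simpa using kill h1 h2⟩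
    obtain ⟨y', hy', hy0', hy1', cy', b, eb, hb⟩ : ∃ y' ∈ S.Sel n, π • y' = 0 ∧ y' ≠ 0 ∧
        c y' = -y' ∧ ∃ b : A, s - c s = b • y' ∧ (π ∣ b → s - c s = 0) := by
      by_cases h0 : s - c s = 0
      · exact ⟨y, hy, hy0, hy1, cy, 0, by rw [h0, zero_smul], fun _ => h0⟩
      · have h1 : π • (s - c s) = 0 := by rw [smul_sub, hs0, hπ s hs0, sub_zero]
        exact ⟨s - c s, sub_mem hsm cs, h1, h0, by rw [map_sub, ccs, neg_sub], 1,
          (one_smul _ _).symm, fun h2 => by simpa using kill h1 h2⟩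
    obtain ⟨l, hl, fx, fy⟩ := hch n hn x' hx' y' hy' hx0' hy0' hx1' hy1' (Or.inl cx') (Or.inr cy')
    have tx := (ht l n hl).1 x' hx' hx0'
    have ty := (ht l n hl).1 y' hy' hy0'
    rw [cx'] at tx
    rw [cy', map_neg] at ty
    have hi : ∀ a b : A, a • S.fr l x' + b • S.fr l y' = 0 → π ∣ a ∧ π ∣ b := by
      intro a b hab
      have h1 := congrArg (fun v => t *ᵥ v) hab
      simp only [Matrix.mulVec_add, Matrix.mulVec_smul, Matrix.mulVec_zero] at h1
      rw [← tx, ← ty, smul_neg] at h1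
      have h2 : a • S.fr l x' = 0 := two_cancel (by
        have := congrArg₂ (· + ·) hab h1
        simp only [add_zero] at this
        rw [← this]
        abel)
      rw [h2, zero_add] at hab
      exact ⟨dvd_of_smul h fx h2, dvd_of_smul h fy hab⟩
    refine kk l hl (fun h0 => ?_) _ _ hx' hy' hx0' hy0' hi M hM
    have h1 := hi a b (by
      rw [← map_smul, ← map_smul, ← ea, ← eb, ← map_add,
        show s + c s + (s - c s) = s + s by abel, map_add, h0, add_zero])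
    apply hs
    apply two_cancel
    rw [show s + s = s + c s + (s - c s) by abel, ha h1.1, hb h1.2, add_zero]
  intro n κ hg M hM _
  obtain ⟨hn, hκ, hs⟩ := S.mem _ _ _ hg
  by_cases hsm : ∀ y ∈ S.Sel n, π • y = 0 → y ∈ Submodule.span A {π ^ (j - 1) • κ}
  · exact small S h hg hsm M hM
  push Not at hsm
  obtain ⟨y, hy, hy0, hys⟩ := hsm
  have hs0 := soc h hs
  have hsm : π ^ (j - 1) • κ ∈ S.Sel n := Submodule.smul_mem _ _ hκ
  by_cases hb : (∃ x ∈ S.Sel n, π • x = 0 ∧ x ≠ 0 ∧ c x = x) ∧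
      ∃ x ∈ S.Sel n, π • x = 0 ∧ x ≠ 0 ∧ c x = -x
  · obtain ⟨⟨x, a1, a2, a3, a4⟩, z, b1, b2, b3, b4⟩ := hb
    exact both n κ hg x a1 z b1 a2 b2 a3 b3 a4 b4 M hM inferInstance
  obtain ⟨ε, hε, he⟩ : ∃ ε : A, (ε = 1 ∨ ε = -1) ∧ ∀ z ∈ S.Sel n, π • z = 0 → c z = ε • z := by
    rw [not_and_or] at hb
    rcases hb with hb | hb
    · refine ⟨-1, Or.inr rfl, fun z hz h0 => ?_⟩
      obtain ⟨cz, ccz⟩ := hc n hn z hz h0
      rw [neg_one_smul]
      by_contra hne
      exact hb ⟨z + c z, add_mem hz cz, by rw [smul_add, h0, hπ z h0, add_zero],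
        fun h1 => hne (eq_neg_of_add_eq_zero_right h1), by rw [map_add, ccz, add_comm]⟩
    · refine ⟨1, Or.inl rfl, fun z hz h0 => ?_⟩
      obtain ⟨cz, ccz⟩ := hc n hn z hz h0
      rw [one_smul]
      by_contra hne
      exact hb ⟨z - c z, sub_mem hz cz, by rw [smul_sub, h0, hπ z h0, sub_zero],
        fun h1 => hne (sub_eq_zero.1 h1).symm, by rw [map_sub, ccz, neg_sub]⟩
  have hee : ε * ε = 1 := by rcases hε with rfl | rfl <;> ring
  have hsg : ∀ z : X, c z = ε • z → c z = z ∨ c z = -z := fun z hz => by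
    rcases hε with rfl | rfl
    · exact Or.inl (by simpa using hz)
    · exact Or.inr (by simpa using hz)
  obtain ⟨l, hl, hu, -⟩ := hch n hn _ hsm _ hsm hs0 hs0 hs hs (hsg _ (he _ hsm hs0))
    (hsg _ (he _ hsm hs0))
  have hu' : π ^ (j - 1) • S.fr l κ ≠ 0 := by rwa [← map_smul]
  obtain ⟨α', ha, κ', hg', hsk⟩ := S.step l n α κ hg hl hu'
  refine drop S h hl hu' hg' hsk ha ?_ M hM
  rcases ha.lt_or_eq with hlt | rfl
  · exact ih α' hlt _ _ hg'
  rw [Nat.sub_self, pow_zero, one_smul] at hsk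
  obtain ⟨-, hκ', hs'⟩ := S.mem _ _ _ hg'
  obtain ⟨b, eb⟩ := line S h hl hu' hκ' hsk hy hy0
  have e1 : S.sg l (π ^ (j - 1) • κ') = S.fr l (π ^ (j - 1) • κ) := by
    rw [map_smul, hsk, map_smul]
  have hs0' := soc h hs'
  have hsm' : π ^ (j - 1) • κ' ∈ S.Sel (l :: n) := Submodule.smul_mem _ _ hκ'
  generalize π ^ (j - 1) • κ = s at *
  generalize π ^ (j - 1) • κ' = s' at *
  have z1 : y - b • s ∈ S.Sel n := sub_mem hy (Submodule.smul_mem _ _ hsm)
  have z2 : π • (y - b • s) = 0 := by rw [smul_sub, hy0, smul_comm, hs0, smul_zero, sub_zero]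
  have z3 : y - b • s ∈ S.Sel (l :: n) := S.ker l n hl _ z1 (by rw [map_sub, map_smul, eb, sub_self])
  have z4 : y - b • s ≠ 0 := fun h0 =>
    hys (Submodule.mem_span_singleton.2 ⟨b, (sub_eq_zero.1 h0).symm⟩)
  have z5 := he _ z1 z2
  obtain ⟨cs, ccs⟩ := hc _ hl s' hsm' hs0'
  have e2 := (ht l n hl).2 s' hsm' hs0'
  rw [e1, ← (ht l n hl).1 s hsm hs0, he s hsm hs0, map_smul] at e2
  have w1 : s' - ε • c s' ∈ S.Sel (l :: n) := sub_mem hsm' (Submodule.smul_mem _ _ cs)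
  have w2 : π • (s' - ε • c s') = 0 := by
    rw [smul_sub, hs0', smul_comm, hπ s' hs0', smul_zero, sub_zero]
  have w3 : s' - ε • c s' ≠ 0 := fun h0 => by
    have := congrArg (S.sg l) h0
    rw [map_sub, map_smul, e1, e2, map_zero, smul_neg, smul_smul, hee, one_smul,
      sub_neg_eq_add] at this
    exact hu (two_cancel this)
  have w4 : c (s' - ε • c s') = -(ε • (s' - ε • c s')) := by
    rw [map_sub, map_smul, ccs, smul_sub, smul_smul, hee, one_smul, neg_sub]
  rcases hε with rfl | rfl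
  · exact both _ κ' hg' _ z3 _ w1 z2 w2 z4 w3 (by rw [z5, one_smul]) (by rw [w4, one_smul])
  · exact both _ κ' hg' _ w1 _ z3 w2 z2 w3 z4 (by rw [w4, neg_one_smul, neg_neg])
      (by rw [z5, neg_one_smul])

end Pool.Agent.P.MP_8b7eba_nt.R2
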