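import Pool.Agent.P.MP_8b7eba_nt.R2.SelB
import Pool.Agent.P.MP_8b7eba_nt.R2.ChainA

/-! Proof of HB. -/

namespace Pool.Agent.P.MP_8b7eba_nt.R2

open scoped NNReal Matrix
open MP_9c97e9_nt (Pt pm Is ap Sha Split)
open Filter Topology Polynomial Module

namespace THB

variable {A A' : Type} [NormedCommRing A] [NormedAlgebra ℚ_[2] A] [NormedCommRing A']
  [NormedAlgebra ℚ_[2] A'] {ψ : ℤ_[2] → A} {ψ' : ℤ_[2] → A'} [FiniteDimensional ℚ_[2] A]
  [FiniteDimensional ℚ_[2] A']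

theorem nu_ex (hA : AFX) {G' q : ℚ_[2][X]} {m : ℕ} (h : IsAF ψ (q ^ m * G')) (h' : IsAF ψ' G')
    (hq : q ≠ 0) : ∃ ν : A →ₗ[ℚ_[2]] A',
      (∀ a, ∀ y ∈ Ideal.span {aeval (ψ 1 - 1) q ^ m}, ν (ψ a * y) = ψ' a * ν y) ∧
      (∀ i, ∀ y ∈ Ideal.span {aeval (ψ 1 - 1) q ^ m},
        ν (aeval (ψ 1 - 1) q ^ i * y) = aeval (ψ' 1 - 1) q ^ i * ν y) ∧
      ∀ y ∈ Ideal.span {aeval (ψ 1 - 1) q ^ m}, ν y = 0 → y = 0 := by
  obtain ⟨ν, h1, h2⟩ := ((hA.2.2.2.2.2.2 A ψ _ h).2 A' ψ' G' (q ^ m) h').2 rfl (pow_ne_zero m hq)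
  have key : ∀ y ∈ Ideal.span {aeval (ψ 1 - 1) q ^ m}, ∃ p, y = aeval (ψ 1 - 1) (q ^ m * p) := by
    intro y hy
    obtain ⟨c, rfl⟩ := Ideal.mem_span_singleton.1 hy
    obtain ⟨p, rfl⟩ := h.2.1 c
    exact ⟨p, by rw [map_mul, map_pow]⟩
  rw [map_pow] at h2
  refine ⟨ν, h2, fun i y hy => ?_, fun y hy h0 => ?_⟩
  · obtain ⟨p, rfl⟩ := key y hy
    rw [← map_pow, ← map_mul, mul_left_comm, h1, h1, map_mul, map_pow]
  · obtain ⟨p, rfl⟩ := key y hy
    rw [h1, h'.2.2] at h0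
    exact (h.2.2 _).2 (mul_dvd_mul_left _ h0)

theorem ex_min {R X : Type} [CommRing R] [AddCommGroup X] [Module R X] {π : R} {J : ℕ}
    (h : π ^ J = 0) (x : X) (α : ℕ) (hx : π ^ (J - α - 1) • x ≠ 0) :
    ∃ α' ≤ α, π ^ (J - α') • x = 0 ∧ π ^ (J - α' - 1) • x ≠ 0 := by
  induction α with
  | zero => exact ⟨0, le_rfl, by rw [Nat.sub_zero, h, zero_smul], hx⟩
  | succ α ih =>
    by_cases h0 : π ^ (J - α - 1) • x = 0
    · exact ⟨α + 1, le_rfl, h0, hx⟩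
    · obtain ⟨α', h1, h2⟩ := ih h0
      exact ⟨α', h1.trans α.le_succ, h2⟩

omit [FiniteDimensional ℚ_[2] A] in
theorem rank_zero {π : A} {e : ℕ} (h : Chain π 0 e) (M : Submodule A (GS → Fin 2 → A)) :
    finrank ℚ_[2] M = 0 := by
  have : Subsingleton A := subsingleton_of_zero_eq_one (by rw [← h.nil, pow_zero])
  exact Module.finrank_zero_of_subsingleton

theorem tau_mem (hA : CB) (D : Dat) : ∀ g ∈ S1 D.GK, cs tau * g * cs tau ∈ S1 D.GK := by
  intro g hg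
  have h := (hA.karith D.toPre).2.2.1
  refine (mem_St.1 hg).mono fun k hk => ?_
  change tau * g k * tau ∈ D.GK
  rw [Subgroup.mul_mem_iff_of_index_two h, Subgroup.mul_mem_iff_of_index_two h]
  tauto

variable [IsUltrametricDist A] [IsUltrametricDist A']

/-- the involution -/
noncomputable def cc (D : Dat) (h : IsPsi ψ) : (GS → Fin 2 → A) →ₗ[A] GS → Fin 2 → A where
  toFun x := D.nz ψ (D.xt x)
  map_add' x y := by rw [Dat.xt_add, Dat.nz_add h]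
  map_smul' a x := by rw [Dat.xt_smul, Dat.nz_smul h]; rfl

theorem cc_sel (hA : CF) {D : Dat} (h : IsPsi ψ) {π : A}
    (hπ : ∀ y, π * y = 0 → ∀ a, ψ (-a) * y = ψ a * y) {n : List (Kp D)} {x : GS → Fin 2 → A}
    (hx : D.Sel ψ n x) (h0 : π • x = 0) : D.Sel ψ n (cc D h x) ∧ cc D h (cc D h x) = x := by
  let V : Ideal A := LinearMap.ker (LinearMap.lsmul A A π)
  have hν : ∀ a, ∀ y ∈ V, (LinearMap.id : A →ₗ[ℚ_[2]] A) (bar ψ a * y) =
      ψ a * (LinearMap.id : A →ₗ[ℚ_[2]] A) y := fun a y hy => hπ y hy a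
  have h1 : π • D.xt x = 0 := by
    rw [← Dat.xt_smul, h0]
    exact funext fun g => map_zero (mv (D.T.rho tau))
  obtain ⟨h2, h3⟩ := Dat.nz_map (D := D) (x := D.xt x) h.bar h LinearMap.id V hν
    fun g i => congrFun (congrFun h1 g) i
  have h4 : cc D h x = D.nz (bar ψ) (D.xt x) := h2
  refine ⟨h4 ▸ Dat.Sel.map h.bar h LinearMap.id V hν h3 hA.toCA (hx.xt hA h), ?_⟩
  obtain ⟨v, hv⟩ := D.nz_eq (D.xt x) h.bar
  have h5 := Cob.xt (x := cc D h x + (-1 : A) • D.xt x) hA.toCB h.bar le_rfl (tau_mem hA.toCB D)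
    ⟨v, fun g hg => by rw [h4, Pi.add_apply, hv g hg, neg_one_smul, Pi.neg_apply]; abel⟩
  rw [bar_bar, Dat.xt_add, Dat.xt_smul, Dat.xt_xt hA.toCA, neg_one_smul, ← sub_eq_add_neg] at h5
  exact (Dat.nz_congr h h5).trans (Dat.nz_self hx.1.nz hx.1.off)

end THB

open THB

theorem t_HB (hP : CP) (hKTRIV : KTRIV) (hDUAL : DUAL) (hCH2 : CH2) (hH1 : H1) (hH2 : H2) : HB := by
  intro D v hv q j m α hq hm hX hα A _ _ _ _ ψ A' _ _ _ _ ψ' h h' h0 M hM hS
  obtain ⟨c', u', s', -⟩ := (hP.afx.2.2.2.2.2.2 A' ψ' _ h').1 q j hq rfl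
  rcases j with _ | j
  · rw [rank_zero c']; exact Nat.zero_le _
  have c := ((hP.afx.2.2.2.2.2.2 A ψ _ h).1 q _ hq rfl).1
  obtain ⟨ν, n1, n2, n3⟩ := nu_ex hP.afx (m := m) (by rwa [← pow_add, add_comm m]) h' hq.ne_zero
  set π := aeval (ψ 1 - 1) q
  set π' := aeval (ψ' 1 - 1) q
  choose Sl hSl using fun n => Dat.exists_sel (D := D) h'.1 n
  choose S0 hS0 using fun n => Dat.exists_sel (D := D) h.1 n
  obtain ⟨t1, t2, -⟩ := Tate.tau hP.tau hP.ec D.T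
  have tt : ∀ y : Fin 2 → A, mv (D.T.rho tau) (mv (D.T.rho tau) y) = y := fun y => by
    rw [← mv_mul, t1, mv_one]
  let κ : List (Kp D) → GS → Fin 2 → A := fun n => D.kap ψ (v n)
  have hV : ∀ n a, a < m → π ^ (j + 1 + m - a) • κ n = 0 →
      ∀ g i, (π ^ (m - a) • κ n) g i ∈ Ideal.span {π ^ m} := fun n a ha e g i => by
    have := (c.ann (i := j + 1) (a := (π ^ (m - a) • κ n) g i) (by omega)).1 (by
      have := congrFun (congrFun e g) i
      rw [show j + 1 + m - a = j + 1 + (m - a) by omega, pow_add, mul_smul] at this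
      exact this)
    rw [Nat.add_sub_cancel_left] at this
    exact Ideal.mem_span_singleton.2 this
  have hpw : ∀ n a, a < m → π ^ (j + 1 + m - a) • κ n = 0 → ∀ g i,
      π' ^ j * ν ((π ^ (m - a) • κ n) g i) = ν ((π ^ (j + 1 + m - a - 1) • κ n) g i) ∧
      (π ^ (j + 1 + m - a - 1) • κ n) g i ∈ Ideal.span {π ^ m} := fun n a ha e g i => by
    rw [show j + 1 + m - a - 1 = j + (m - a) by omega, pow_add, mul_smul]
    exact ⟨(n2 j _ (hV n a ha e g i)).symm, Ideal.mul_mem_left _ _ (hV n a ha e g i)⟩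
  have hK := fun l => hKTRIV D l A' ψ' h'.1
  let S : HS A' π' (j + 1) (GS → Fin 2 → A') (Kp D) :=
    { ok := Ok
      Sel := Sl
      Good := fun n a k => Ok n ∧ a < m ∧ π ^ (j + 1 + m - a) • κ n = 0 ∧
        π ^ (j + 1 + m - a - 1) • κ n ≠ 0 ∧ k = fun g i => ν ((π ^ (m - a) • κ n) g i)
      fr := fun l => LinearMap.proj l.ph
      sg := fun l => mv (D.T.rho tau) ∘ₗ LinearMap.proj l.t
      mem := by
        rintro n a _ ⟨h1, h2, h3, h4, rfl⟩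
        refine ⟨h1, (hSl n _).2 (Dat.Sel.map h.1 h'.1 ν _ n1 (hV n a h2 h3) hP.toCA
          ((hS0 n _).1 ((S0 n).smul_mem _ ((hS0 n _).2 (hv.2 A ψ h.1 n h1).1)))), fun e => h4 ?_⟩
        funext g i
        exact n3 _ (hpw n a h2 h3 g i).2
          ((hpw n a h2 h3 g i).1.symm.trans (congrFun (congrFun e g) i))
      ker := fun l n h1 x hx e => by
        have hx := (hSl n x).1 hx
        exact (hSl _ x).2 ⟨(((hK l).2.2.2 x hx.1.pz).2.2 n hx.1 (List.pairwise_cons.1 h1).1).2 e,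
          hx.2⟩
      sg0 := fun l n h1 x hx => by
        have hx := (hSl n x).1 hx
        rw [LinearMap.comp_apply, LinearMap.proj_apply,
          (((hK l).2.2.2 x hx.1.pz).2.2 n hx.1 (List.pairwise_cons.1 h1).1).1, map_zero]
      step := by
        rintro l n a _ ⟨h1, h2, h3, h4, rfl⟩ h5 h6
        have e : κ (l :: n) l.t = mv (D.T.rho tau) (κ n l.ph) := (hv.2 A ψ h.1 n h1).2 l h5
        obtain ⟨a', e1, e2, e3⟩ := ex_min c.nil (κ (l :: n)) a fun e4 => h6 (by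
          have e5 := congrArg (mv (D.T.rho tau)) (congrFun e4 l.t)
          rw [Pi.smul_apply, e, map_smul, tt, Pi.zero_apply, map_zero] at e5
          funext i
          refine (hpw n a h2 h3 l.ph i).1.trans ?_
          rw [Pi.smul_apply, e5, Pi.zero_apply, map_zero, Pi.zero_apply])
        refine ⟨a', e1, _, ⟨h5, e1.trans_lt h2, e2, e3, rfl⟩, ?_⟩
        refine (mv_map ν _ _).symm.trans (funext fun i => ?_)
        rw [Pi.smul_apply, e, map_smul, tt, show m - a' = a - a' + (m - a) by omega, pow_add,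
          mul_smul]
        exact n2 _ _ (hV n a h2 h3 l.ph i)
      dual := fun l n h1 x hx y hy =>
        (hDUAL D A' ψ' h'.1).1 l n x y h1 ((hSl n x).1 hx) ((hSl _ y).1 hy) }
  obtain ⟨a, e1, e2, e3⟩ := ex_min c.nil (κ []) α h0
  have hG : S.Good [] a _ := ⟨List.Pairwise.nil, e1.trans_lt hα, e2, e3, rfl⟩
  have hle : M ≤ S.Sel [] := fun x hx => (hSl _ x).2 (hS x hx)
  refine le_trans ?_ (Nat.mul_le_mul_left _ (show j + 1 + 2 * a ≤ j + 1 + 2 * α by omega))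
  by_cases h2 : q = X + 2
  · have tm : ∀ y : Fin 2 → A', (D.T.rho tau).map (algebraMap ℚ_[2] A') *ᵥ y =
        mv (D.T.rho tau) y := fun y => rfl
    have hI : ∀ l : Kp D, l.t ∈ St fun k => (l.w k).D ⊓ D.GK := fun l =>
      (mem_St.1 (hK l).2.2.1).mono fun k hg => ⟨hg.1.1, hg.2⟩
    have hD : ∀ (l : Kp D) (x : GS → Fin 2 → A'), ∀ g ∈ St fun k => (l.w k).D ⊓ D.GK,
        cc D h'.1 x g = D.xt x g := fun l x g hg =>
      Dat.nz_of_triv (St_mono (.of_forall fun k => inf_le_right) hg) ((hK l).1 g hg)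
    refine hH2 A' π' _ _ _ _ S (cc D h'.1) ((D.T.rho tau).map (algebraMap ℚ_[2] A')) c' ?_ ?_ ?_ ?_
      ?_ [] a _ hG M hle hM
    · rw [← Matrix.map_mul, t1, Matrix.map_one _ (map_zero _) (map_one _)]
    · rw [← RingHom.mapMatrix_apply, ← RingHom.map_det, t2, map_neg, map_one]
    · intro n _ x hx e
      have := cc_sel hP.toCF h'.1 (s' h2) ((hSl n x).1 hx) e
      exact ⟨(hSl n _).2 this.1, this.2⟩
    · refine fun l n _ => ⟨fun x hx _ => ?_, fun y hy _ => ?_⟩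
      · exact (hD l x _ (hK l).2.1).trans ((hK l).2.2.2 x ((hSl n x).1 hx).1.pz).1
      · rw [tm, ← map_neg]
        exact congrArg (mv (D.T.rho tau))
          ((hD l y _ (hI l)).trans ((hK l).2.2.2 y ((hSl _ y).1 hy).1.pz).2.1)
    · intro n hn x hx y hy _ _ x0 y0 cx cy
      have key : ∀ z : GS → Fin 2 → A', (cc D h'.1 z = z ∨ cc D h'.1 z = -z) →
          ∃ ε : A', (ε = 1 ∨ ε = -1) ∧ D.nz ψ' (D.xt z) = ε • z := fun z hz =>
        hz.elim (fun e => ⟨1, .inl rfl, by rw [one_smul]; exact e⟩)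
          fun e => ⟨-1, .inr rfl, by rw [neg_one_smul]; exact e⟩
      obtain ⟨ε, a1, a2⟩ := key x cx
      obtain ⟨ε', b1, b2⟩ := key y cy
      obtain ⟨l, l1, l2⟩ := (hCH2 D n A' ψ' x y h'.1 ((hSl n x).1 hx).1 ((hSl n y).1 hy).1).2
        ε ε' a1 b1 x0 y0 a2 b2
      exact ⟨l, List.pairwise_cons.2 ⟨l1, hn⟩, l2⟩
  · refine hH1 A' π' _ _ _ _ S c' ?_ [] a _ hG M hle hM
    intro n hn x hx y hy x0 y0 hi
    obtain ⟨l, l1, l2⟩ := (hCH2 D n A' ψ' x y h'.1 ((hSl n x).1 hx).1 ((hSl n y).1 hy).1).1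
      π' _ _ c' (u' hm hX h2) x0 y0 hi
    exact ⟨l, List.pairwise_cons.2 ⟨l1, hn⟩, l2⟩

theorem t_HB0 (hP : CP) : HB0 := by
  intro D hR j A _ _ _ _ ψ h M hM hS
  have c := ((hP.afx.2.2.2.2.2.2 A ψ _ h).1 X j irreducible_X rfl).1
  rcases j with _ | j
  · rw [rank_zero c]
  obtain ⟨ν, n1, -, n3⟩ := nu_ex hP.afx (m := j) (by rwa [← pow_succ]) hP.afx.2.2.2.2.2.1 X_ne_zero
  refine (c.finrank_le M (s := 1) (fun x _ => by rw [c.nil, zero_smul]) fun N hN h0 => ?_).trans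
    (mul_one _).le
  have hV : ∀ x ∈ N, ∀ g i, x g i ∈ Ideal.span {aeval (ψ 1 - 1) (X : ℚ_[2][X]) ^ j} :=
    fun x hx g i => Ideal.mem_span_singleton.2 ((c.ann (i := 1) (by omega)).1 (by
      rw [pow_one]; exact congrFun (congrFun (h0 x hx) g) i))
  have key : ∀ x y : N, ∃ a b : ℚ_[2], (a ≠ 0 ∨ b ≠ 0) ∧ a • x + b • y = 0 := fun x y => by
    obtain ⟨a, b, h1, h2⟩ := hR _ _
      (Dat.Sel.map h.1 isPsi_one ν _ n1 (hV x x.2) hP.toCA (hS x (hN x.2)))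
      (Dat.Sel.map h.1 isPsi_one ν _ n1 (hV y y.2) hP.toCA (hS y (hN y.2)))
    refine ⟨a, b, h1, Subtype.ext (funext fun g => funext fun i =>
      n3 _ (hV _ (a • x + b • y).2 g i) ?_)⟩
    exact ((ν.map_add _ _).trans (congrArg₂ (· + ·) (ν.map_smul a _) (ν.map_smul b _))).trans
      (congrFun (congrFun h2 g) i)
  by_cases h1 : ∃ x : N, x ≠ 0
  · obtain ⟨x, hx⟩ := h1
    refine finrank_le_one x fun y => ?_
    obtain ⟨a, b, h1, h2⟩ := key x y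
    have hb : b ≠ 0 := by
      rintro rfl
      rw [zero_smul, add_zero, smul_eq_zero] at h2
      tauto
    refine ⟨-(b⁻¹ * a), ?_⟩
    rw [neg_smul, mul_smul, eq_neg_of_add_eq_zero_left h2, smul_neg, neg_neg, inv_smul_smul₀ hb]
  · exact finrank_le_one 0 fun y => ⟨0, by rw [smul_zero]; by_contra e; exact h1 ⟨y, Ne.symm e⟩⟩

end Pool.Agent.P.MP_8b7eba_nt.R2
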