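import Pool.Agent.P.MP_8b7eba_nt.R2.IfB
import Pool.Agent.P.MP_8b7eba_nt.R2.Nrm

/-! Proof of INJ, LOCV. -/

namespace Pool.Agent.P.MP_8b7eba_nt.R2

open scoped NNReal Matrix
open MP_9c97e9_nt (Pt pm Is ap Sha Split)
open Filter Topology Polynomial Module

namespace TINJ

theorem norm_iff (x : ℤ_[2]) (n : ℕ) : ‖(x : ℚ_[2]) / 2 ^ n‖ ≤ 1 ↔ 2 ^ n ∣ x := by
  refine ⟨fun h => ⟨⟨_, h⟩, Subtype.ext ?_⟩, ?_⟩
  · push_cast
    exact (mul_div_cancel₀ _ (by simp)).symm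
  · rintro ⟨y, rfl⟩
    push_cast
    exact (congrArg _ (mul_div_cancel_left₀ _ (by simp))).trans_le y.2

theorem zero_iff (x : ℤ_[2]) (n : ℕ) : PadicInt.toZModPow n x = 0 ↔ 2 ^ n ∣ x := by
  rw [← RingHom.mem_ker, PadicInt.ker_toZModPow, Ideal.mem_span_singleton, Nat.cast_ofNat]

theorem val_mul (x : ℤ_[2]) (s n : ℕ) :
    (PadicInt.toZModPow (s + n) (2 ^ s * x)).val = 2 ^ s * (PadicInt.toZModPow n x).val := by
  have h : 2 ^ n ∣ x - (PadicInt.toZModPow n x).val := by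
    rw [← zero_iff, map_sub, map_natCast, ZMod.natCast_zmod_val, sub_self]
  have h2 : PadicInt.toZModPow (s + n) (2 ^ s * x) =
      ((2 ^ s * (PadicInt.toZModPow n x).val : ℕ) : ZMod (2 ^ (s + n))) := by
    rw [← map_natCast (PadicInt.toZModPow (p := 2) (s + n)), ← sub_eq_zero, ← map_sub, zero_iff,
      pow_add, Nat.cast_mul, Nat.cast_pow, Nat.cast_ofNat, ← mul_sub]
    exact mul_dvd_mul_left _ h
  rw [h2, ZMod.val_cast_of_lt]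
  rw [pow_add]
  exact mul_lt_mul_of_pos_left (ZMod.val_lt _) (by positivity)

theorem ec_congr (h : IsEc ec) {x y : ℤ_[2]} {n : ℕ}
    (e : PadicInt.toZModPow n x = PadicInt.toZModPow n y) :
    ec (x / 2 ^ n) = ec (y / 2 ^ n) := by
  rw [← sub_eq_zero, ← map_sub, zero_iff, ← norm_iff, ← h.eq_one] at e
  rw [← mul_one (ec (y / 2 ^ n)), ← e, ← h.add, PadicInt.coe_sub, ← add_div, add_sub_cancel]

theorem smul_ch {H : Subgroup GQ} {m : ℕ} {χ : GQ → ZMod m} (h : IsCh H χ) (k : ℕ) :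
    IsCh H (k • χ) :=
  ⟨h.1.comp (k • ·), fun g hg l hl => by simp only [Pi.smul_apply, h.2 g hg l hl, smul_add]⟩

variable {w : Pl} {H : Subgroup GQ} {f : ℕ} {φ : GQ} {π a : Om} {j : ℤ}

/-- unramified characters are determined by the value at the Frobenius element -/
theorem gen (hF : FROB) (h : w.Loc H) (h1 : φ ∈ H) (h2 : w.IsFrob f φ)
    (h3 : f * H.relIndex w.I = H.relIndex w.D) {A B : Type} [AddGroup A] [AddGroup B]
    {χ : GQ → A} {ψ : GQ → B} (c1 : IsCh H χ) (c2 : IsCh H ψ) (u1 : ∀ g ∈ w.I ⊓ H, χ g = 0)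
    (u2 : ∀ g ∈ w.I ⊓ H, ψ g = 0) {g : GQ} (hg : g ∈ H) :
    ∃ m : ℕ, χ g = m • χ φ ∧ ψ g = m • ψ φ := by
  obtain ⟨f₀, φ₀, -, a1, a2, -, a3, a4⟩ := hF w H h
  obtain rfl : f = f₀ := mul_right_cancel₀ (h.relIndex_ne w.I_le_D) (h3.trans a3.symm)
  have key : ∀ {A : Type} [AddGroup A] {χ : GQ → A}, IsCh H χ → (∀ g ∈ w.I ⊓ H, χ g = 0) →
      ∀ (m : ℕ) i, i ∈ w.I ⊓ H → χ (φ₀ ^ m * i) = m • χ φ := fun c u m i hi => by
    have e := c.2 _ h1 _ (mul_mem (inv_mem h1) a1)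
    rw [mul_inv_cancel_left, u _ ⟨h2.inv_mul a2, H.mul_mem (H.inv_mem h1) a1⟩, add_zero] at e
    rw [c.2 _ (pow_mem a1 m) _ hi.2, u i hi, add_zero, c.pow a1, e]
  obtain ⟨N, b1, b2⟩ := c1.1
  obtain ⟨N', b3, b4⟩ := c2.1
  obtain ⟨m, i, hi, n, hn, rfl⟩ := a4 _ (b1.inf b3) g hg
  have hm := mul_mem (pow_mem a1 m) hi.2
  exact ⟨m, (b2 _ hm n hn.2 hn.1.1).trans (key c1 u1 m i hi),
    (b4 _ hm n hn.2 hn.1.2).trans (key c2 u2 m i hi)⟩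

theorem ps (hCA : CA) (p2 : w.p ≠ 2) (H : Subgroup GQ) (n : ℕ) :
    IsCh H (Ps n) ∧ IsKer H (H ⊓ KP n) (Ps n) ∧ ∀ g ∈ w.I ⊓ H, Ps n g = 0 := by
  obtain ⟨g1, -, -, g4, -⟩ := hCA.lg
  refine ⟨(g4 n).1.mono le_top, fun g =>
    and_congr_right fun _ => ((g4 n).2.2.1 g).trans (and_iff_right trivial), fun g hg => ?_⟩
  rw [Ps, hCA.ec.2.2.2.2.2.2.1 w p2 g hg.1, zero_iff, g1.dvd]
  simp

/-- the invariant of a cyclotomic algebra at an odd place -/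
theorem nv_ps (hCA : CA) (p2 : w.p ≠ 2) (h : w.Loc H) (h2 : w.IsFrob f φ)
    (h3 : f * H.relIndex w.I = H.relIndex w.D) (hπ : w.Unif H π) (ha : Fix H a) (a0 : a ≠ 0)
    (hj : w.v a = w.v π ^ j) (n : ℕ) :
    nv w H (cup (Ps n) a) = ec ((j * lg (cyc φ) : ℤ_[2]) / 2 ^ n) := by
  have ri := h.relIndex_ne le_rfl
  have hA := hCA.art.1 w
  have hl := hCA.lg.1
  have p0 : (w.p : Om) ≠ 0 := Nat.cast_ne_zero.2 w.prime.ne_zero
  have e1 : w.v π ^ H.relIndex w.I = w.v w.p := by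
    obtain ⟨U, hU, rfl⟩ := h
    obtain ⟨π', -, b1, -, b2, -⟩ := hCA.unif w U hU
    rw [hπ.v_eq b1, w.vp, ← b2, ← Subgroup.inf_relIndex_right, inf_comm w.D, inf_assoc,
      inf_of_le_right w.I_le_D, Subgroup.inf_relIndex_right]
  have e2 : w.v (nrm w.D H a / w.p ^ (f * j : ℤ)) = 1 := by
    rw [map_div₀, v_nrm ri le_rfl, map_zpow₀, hj, ← e1, ← h3, ← zpow_natCast, ← zpow_natCast,
      ← zpow_mul, ← zpow_mul, Nat.cast_mul, div_eq_one_iff_eq (zpow_ne_zero _ (by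
        simpa using hπ.2.1))]
    congr 1
    ring
  let F : ℤ →+ ℤ_[2] := AddMonoidHom.mk' (fun i => lg (art w (w.p ^ i))) fun i i' => by
    rw [zpow_add₀ p0, hA.mul _ _ ((fix_nat _).zpow _) ((fix_nat _).zpow _) (zpow_ne_zero _ p0)
      (zpow_ne_zero _ p0), hl.mul]
  have e3 : ∀ i : ℤ, lg (art w (w.p ^ i)) = i * lg (art w w.p) := fun i => by
    have := map_zsmul F i 1
    rw [smul_eq_mul, mul_one, zsmul_eq_mul] at this
    simpa [F] using this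
  have e4 : ∀ (u : ℤ_[2]ˣ) (i : ℕ), lg (u ^ i) = i * lg u := fun u i => by
    induction i with
    | zero => simpa using hl.mul 1 1
    | succ i ih => rw [pow_succ, hl.mul, ih]; push_cast; ring
  have e5 : cyc φ = art w w.p ^ f := Units.ext (by
    rw [hCA.ec.2.2.2.2.2.1 w f φ p2 h2, Units.val_pow_eq_pow_val, (hA.odd p2).1])
  have fx := (ha.nrm ri).div ((fix_nat w.p).zpow (f * j))
  rw [(hCA.inv w H h).cup n a ha a0, sv, ← mul_div_cancel₀ (nrm w.D H a) (zpow_ne_zero (f * j) p0),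
    hA.mul _ _ ((fix_nat _).zpow _) fx (zpow_ne_zero _ p0) (fun e => by simp [e] at e2),
    (hA.odd p2).2 _ fx e2, mul_one, e3, e5, e4]
  congr 2
  push_cast
  ring

end TINJ

open TINJ in
theorem t_INJ (hCA : CA) : INJ := by
  intro w H F p2 h hF h1
  obtain ⟨f, φ, -, a1, a2, -, a3, -⟩ := hCA.frob w H h
  obtain ⟨π, hπ⟩ : ∃ π, w.Unif H π := by
    obtain ⟨U, hU, rfl⟩ := h
    obtain ⟨π, -, b1, -⟩ := hCA.unif w U hU
    exact ⟨π, b1⟩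
  obtain ⟨n, hn⟩ := hCA.diek w H F h hF
  obtain ⟨c1, c2, c3⟩ := ps hCA p2 H n
  have m0 : 2 ^ n ≠ 0 := by positivity
  obtain ⟨a, ha, a0, t⟩ := hCA.cyc1 H _ _ _ h.closed m0 c1 c2 F hF.1 (hn n le_rfl)
  obtain ⟨j, hj⟩ := hπ.2.2.2 a ha a0
  rw [hCA.inv2.1 w H F _ h hF (hCA.cup H a ha a0 _ _ m0 c1).1 t,
    nv_ps hCA p2 h a2 a3 hπ ha a0 hj, hCA.ec.1.eq_one, norm_iff, ← zero_iff, map_mul,
    map_intCast, ← zsmul_eq_mul, ← addOrderOf_dvd_iff_zsmul_eq_zero] at h1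
  have e : (H ⊓ KP n).relIndex H = addOrderOf (Ps n φ) := by
    rw [c2.relIndex c1, ← Nat.card_zmultiples]
    refine congrArg Set.ncard (Set.ext fun x => Iff.trans ⟨?_, ?_⟩
      (mem_multiples_iff_mem_zmultiples (x := Ps n φ) (y := x)))
    · rintro ⟨g, hg, rfl⟩
      obtain ⟨m, e, -⟩ := gen hCA.frob h a1 a2 a3 c1 c1 c3 c3 hg
      exact ⟨m, e.symm⟩
    · rintro ⟨m, rfl⟩
      exact ⟨φ ^ m, pow_mem a1 m, c1.pow a1 m⟩
  obtain ⟨i, rfl⟩ : ((H ⊓ KP n).relIndex H : ℤ) ∣ j := e ▸ h1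
  have ri := (h.ker c1 c2).relIndex_ne h.le
  have π0 := pow_ne_zero ((H ⊓ KP n).relIndex H) (zpow_ne_zero i hπ.2.1)
  obtain ⟨b, b1, b2⟩ := (hCA.unit w H _ _ n _ rfl h c1 c2).1 c3
    (a / (π ^ i) ^ (H ⊓ KP n).relIndex H) (ha.div ((hπ.1.zpow i).pow _)) (by
      rw [map_div₀, hj, map_pow, map_zpow₀, mul_comm, zpow_mul, zpow_natCast, div_self]
      simpa only [← map_zpow₀, ← map_pow, _root_.map_ne_zero] using π0)
  refine t.iff.2 ((hCA.cyc2 H _ _ _ h.closed m0 c1 c2 a ha a0).2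
    ⟨π ^ i * b, ((hπ.1.zpow i).mono inf_le_left).mul b1, ?_⟩)
  rw [nrm_mul ri, b2, nrm_of_fix ri (hπ.1.zpow i), mul_div_cancel₀ _ π0]

open TINJ in
theorem t_LOCV (hCA : CA) : LOCV := by
  intro w H n f χ φ π a j p2 h c1 c3 a1 a2 a3 hπ ha a0 hj
  have m0 : 2 ^ n ≠ 0 := by positivity
  have l0 : lg (cyc φ) ≠ 0 := fun e => by
    obtain ⟨g, hg, g0⟩ := hCA.lg.2.2.2.2 w H h
    refine g0 (PadicInt.ext_of_toZModPow.1 fun k => ?_)
    obtain ⟨d1, -, d3⟩ := ps hCA p2 H k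
    obtain ⟨m, e', -⟩ := gen hCA.frob h a1 a2 a3 d1 d1 d3 d3 hg
    rwa [Ps, Ps, e, map_zero, smul_zero, ← map_zero (PadicInt.toZModPow k)] at e'
  obtain ⟨s, u, hu⟩ : ∃ (s : ℕ) (u : ℤ_[2]ˣ), lg (cyc φ) = 2 ^ s * u :=
    ⟨_, PadicInt.unitCoeff l0, (PadicInt.unitCoeff_spec l0).trans (mul_comm _ _)⟩
  obtain ⟨χ₀, b1, b2, g₀, b3, b4⟩ := (hCA.uch w n).2 H h
  obtain ⟨m₀, b5, -⟩ := gen hCA.frob h a1 a2 a3 b1 b1 b2 b2 b3
  obtain ⟨ψ, d1, d2, d3⟩ : ∃ ψ : GQ → ZMod (2 ^ n), IsCh H ψ ∧ (∀ g ∈ w.I ⊓ H, ψ g = 0) ∧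
      ψ φ = PadicInt.toZModPow n (u : ℤ_[2]) :=
    ⟨((PadicInt.toZModPow n (u : ℤ_[2])).val * m₀) • χ₀, smul_ch b1 _,
      fun g hg => by rw [Pi.smul_apply, b2 g hg, smul_zero], by
        rw [Pi.smul_apply, mul_smul, ← b5, b4, nsmul_one, ZMod.natCast_zmod_val]⟩
  obtain ⟨k, hk⟩ : ∃ k : ℕ, χ φ = k • ψ φ :=
    ⟨(χ φ * PadicInt.toZModPow n ((u⁻¹ : ℤ_[2]ˣ) : ℤ_[2])).val, by
      rw [nsmul_eq_mul, ZMod.natCast_zmod_val, d3, mul_assoc, ← map_mul, Units.inv_mul, map_one,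
        mul_one]⟩
  obtain ⟨e1, -, e3⟩ := ps hCA p2 H (s + n)
  have ak := pow_ne_zero k a0
  obtain ⟨x1, x2, -⟩ := hCA.cup H a ha a0 _ _ m0 c1
  obtain ⟨-, -, -, -, y, -⟩ := hCA.cup H a ha a0 _ _ m0 d1
  obtain ⟨z1, -, -, -, -, z, -⟩ := hCA.cup H _ (ha.pow k) ak _ _ m0 d1
  have t1 : Triv H (cup χ a / cup (k • ψ) a) := Triv.one.congr fun g hg l hl => by
    have : ∀ g ∈ H, (k • ψ) g = χ g := fun g hg => by
      obtain ⟨m, r1, r2⟩ := gen hCA.frob h a1 a2 a3 c1 d1 c3 d2 hg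
      rw [Pi.smul_apply, r1, r2, hk, smul_comm]
    refine (div_eq_one_iff_eq ((hCA.cup H a ha a0 _ _ m0 (smul_ch d1 k)).1.ne g hg l hl)).2 ?_
    rw [cup, cup, this g hg, this l hl]
  have t2 : Triv H (cup ψ (a ^ k) / cup (Ps (s + n)) (a ^ k)) :=
    Triv.one.congr fun g hg l hl => by
      rw [Pi.div_apply, Pi.div_apply, (z _ (2 ^ s) (Ps (s + n)) (pow_add 2 s n) (by positivity)).1
        (fun g hg => ?_) g hg l hl]
      · exact div_self (z1.ne g hg l hl)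
      obtain ⟨m, r1, r2⟩ := gen hCA.frob h a1 a2 a3 e1 d1 e3 d2 hg
      rw [r1, r2, d3, Ps, hu, ← map_nsmul, ← map_nsmul, ← val_mul, mul_smul_comm]
  rw [hCA.inv2.1 w H _ _ h ⟨x1, n, x2⟩
      (hCA.cup H _ (ha.pow k) ak _ _ (by positivity) e1).1 ((t1.trans (y k)).trans t2),
    nv_ps hCA p2 h a2 a3 hπ (ha.pow k) ak (j := j * k)
      (by rw [map_pow, hj, zpow_mul, zpow_natCast]), hu, ← PadicInt.coe_intCast,
    ← ec_congr hCA.ec.1 (x := (j * k : ℤ) * u) (n := n) (by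
      rw [map_mul, map_intCast, map_intCast, ← d3, Int.cast_mul, Int.cast_mul, Int.cast_natCast,
        Int.cast_natCast, ZMod.natCast_zmod_val, hk, nsmul_eq_mul]
      ring)]
  congr 1
  push_cast
  rw [pow_add, show ((2 : ℤ_[2]) : ℚ_[2]) = 2 from rfl]
  field_simp

end Pool.Agent.P.MP_8b7eba_nt.R2
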