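import Pool.Agent.P.MP_8b7eba_nt.R2.SelB

/-! Proof of IW. -/

namespace Pool.Agent.P.MP_8b7eba_nt.R2

open scoped NNReal Matrix
open MP_9c97e9_nt (Pt pm Is ap Sha Split)
open Filter Topology Polynomial Module

namespace TIW

theorem mem0 {D : Dat} {g : GQ} : g ∈ D.Gd 0 ↔ g ∈ D.GK ∧ D.a g = 0 := by
  rw [Dat.mem_Gd, zero_dvd_iff]

theorem dvd30 {D : Dat} {w : Pl} (hw : w.p ∣ 15) : (w.p : ℤ) ∣ 30 * D.d :=
  Dvd.dvd.mul_right ((Int.natCast_dvd_natCast.2 hw).trans (by norm_num)) _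

theorem ne2 {w : Pl} (hw : w.p ∣ 15) : w.p ≠ 2 := fun h => by
  rw [h] at hw
  omega

theorem I_le {D : Dat} {w : Pl} (hw : w.p ∣ 15) : w.I ≤ D.Gd 0 := fun g hg => by
  have h : g ∈ D.GK := D.spD w (dvd30 hw) (w.I_le_D hg)
  exact mem0.2 ⟨h, D.an.unr w (ne2 hw) g ⟨hg, h⟩⟩

theorem conj0 {D : Dat} {s g : GQ} (hs : s ∈ D.GK) (hg : g ∈ D.Gd 0) : s * g * s⁻¹ ∈ D.Gd 0 := by
  obtain ⟨h1, h2⟩ := mem0.1 hg
  exact mem0.2 ⟨mul_mem (mul_mem hs h1) (inv_mem hs), by rw [D.an.conj hs h1, h2]⟩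

theorem div0 {D : Dat} {s g : GQ} (hs : s ∈ D.GK) (hg : g ∈ D.GK) (e : D.a s = D.a g) :
    g * s⁻¹ ∈ D.Gd 0 :=
  mem0.2 ⟨mul_mem hg (inv_mem hs), by rw [D.an.add _ hg _ (inv_mem hs), D.an.inv hs, e, add_neg_cancel]⟩

theorem rq_bad (hA : CA) (D : Dat) {w : Pl} (hw : w.p ∣ 15) {g : GQ} (hg : g ∈ w.I) (v : V2) :
    D.T.rq D.dl g v = D.T.rho g *ᵥ v := by
  rw [← D.r_one, Dat.r_bad hA isPsi_one hw hg, mv_rat]

/-- coboundaries at conjugate places -/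
theorem conj_cob {W : Type} [NormedAddCommGroup W] [NormedSpace ℚ_[2] W] {G : Subgroup GQ}
    {r : GQ → W →ₗ[ℚ_[2]] W} (hr : Rep G r) {c : GQ → W}
    (hc : ∀ g ∈ G, ∀ h ∈ G, c (g * h) = c g + r g (c h)) {u g : GQ} (hu : u ∈ G) (hg : g ∈ G) {v : W}
    (e : c (u * g * u⁻¹) = r (u * g * u⁻¹) v - v) :
    c g = r g (r u⁻¹ (v + c u)) - r u⁻¹ (v + c u) := by
  have hk : u * g * u⁻¹ ∈ G := mul_mem (mul_mem hu hg) (inv_mem hu)
  have h1 := hc _ hk u hu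
  rw [inv_mul_cancel_right, hc u hu g hg, e] at h1
  have h2 : r u (c g) = r (u * g * u⁻¹) (v + c u) - (v + c u) := by
    rw [map_add]
    linear_combination (norm := module) h1
  have h3 := congrArg (r u⁻¹) h2
  rw [← hr.mul _ (inv_mem hu) _ hu, inv_mul_cancel, hr.one, map_sub, ← hr.mul _ (inv_mem hu) _ hk,
    show u⁻¹ * (u * g * u⁻¹) = g * u⁻¹ by group, hr.mul _ hg _ (inv_mem hu)] at h3
  exact h3

/-- one linear condition at each bad place -/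
theorem one_form (hP : CP) (D : Dat) {w : Pl} (hw : w.p ∣ 15) :
    ∃ l : (GQ → V2) →ₗ[ℚ_[2]] ℚ_[2], ∀ c, D.XC c → l c = 0 →
      ∃ v, ∀ g ∈ w.I, c g = D.T.rq D.dl g v - v := by
  obtain ⟨t, ht, hβ⟩ := Pl.exists_gen hP.tame hP.res (ne2 hw)
  obtain ⟨e, he, -, -, h1, h2, -⟩ := hP.unip D.w2 D.T w hw
  obtain ⟨i, j, hij⟩ := (h2 t ht hβ).1
  obtain ⟨s, hs⟩ := (h1 t ht).2 (Pi.single j 1)
  have hs0 : s ≠ 0 := by
    rintro rfl
    have h3 := congrFun hs i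
    rw [zero_smul, Pi.sub_apply, Matrix.mulVec_single_one, Pi.zero_apply] at h3
    have h4 : (D.T.rho t - 1) i j = 0 := by
      rw [Pi.single_apply] at h3
      rw [Matrix.sub_apply, Matrix.one_apply]
      exact h3
    rw [h4, norm_zero] at hij
    norm_num at hij
  refine ⟨(e 1 • LinearMap.proj 0 - e 0 • LinearMap.proj 1 : V2 →ₗ[ℚ_[2]] ℚ_[2]) ∘ₗ
    LinearMap.proj t, fun c hc hl => ?_⟩
  have hl' : e 1 * c t 0 - e 0 * c t 1 = 0 := hl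
  obtain ⟨m, hm⟩ : ∃ m : ℚ_[2], c t = m • e := by
    by_cases h0 : e 0 = 0
    · have h1 : e 1 ≠ 0 := fun h1 => by
        have : e = 0 := funext (Fin.forall_fin_two.2 ⟨h0, h1⟩)
        rw [this, norm_zero] at he
        exact zero_ne_one he
      refine ⟨c t 1 / e 1, funext (Fin.forall_fin_two.2 ⟨?_, ?_⟩)⟩
      · rw [h0, zero_mul, sub_zero, mul_eq_zero] at hl'
        rw [hl'.resolve_left h1, Pi.smul_apply, h0, smul_zero]
      · rw [Pi.smul_apply, smul_eq_mul, div_mul_cancel₀ _ h1]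
    · refine ⟨c t 0 / e 0, funext (Fin.forall_fin_two.2 ⟨?_, ?_⟩)⟩
      · rw [Pi.smul_apply, smul_eq_mul, div_mul_cancel₀ _ h0]
      · rw [Pi.smul_apply, smul_eq_mul]
        field_simp
        linear_combination -hl'
  have hr := D.T.rep D.fix_dl
  have hle : w.I ⊓ ⊤ ≤ D.Gd 0 := inf_le_left.trans (I_le hw)
  have hz := (pz_const (hr.mono le_top) (hc.uc.mono hle)
    fun g hg g' hg' => hc.co g (hle hg) g' (hle hg')).1
  have hz2 := hz.sub hr (pz_cob hr (fun _ => le_top) ((m / s) • Pi.single j 1))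
  have hcs : ∀ g, (ul fun k => c (cs g k)) = c g := fun g => ul_eq tendsto_const_nhds
  have h5 := hP.ptame V2 ⊤ (D.T.rq D.dl) (fun _ => w) (cs t) (fun _ => w.p) _ isOpen_univ
    ⟨⊤, hr, fun _ => le_top⟩ (.of_forall fun _ => ⟨ne2 hw, by
      rw [inf_top_eq]
      exact (hP.res w w.D w.loc_D).2.2.2.2.1, ⟨ht, trivial⟩, hβ⟩) hz2 (by
      rw [Pi.sub_apply, hcs, rS_cs, rq_bad hP.toCA D hw ht, Matrix.mulVec_smul, ← smul_sub, hs,
        smul_smul, div_mul_cancel₀ _ hs0, hm, sub_self])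
  refine ⟨(m / s) • Pi.single j 1, fun g hg => ?_⟩
  have h6 := h5 (cs g) (.of_forall fun _ => ⟨hg, trivial⟩)
  rwa [Pi.sub_apply, hcs, rS_cs, sub_eq_zero] at h6

/-- the cocycles which are coboundaries on inertia at the bad places -/
def Bd (D : Dat) : Submodule ℚ_[2] (GQ → V2) where
  carrier := {c | ∀ w : Pl, w.p ∣ 15 → ∃ v, ∀ g ∈ w.I, c g = D.T.rq D.dl g v - v}
  zero_mem' := fun w _ => ⟨0, fun g _ => by simp⟩
  add_mem' := fun {c c'} h h' w hw => by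
    obtain ⟨v, hv⟩ := h w hw
    obtain ⟨v', hv'⟩ := h' w hw
    exact ⟨v + v', fun g hg => by rw [Pi.add_apply, hv g hg, hv' g hg, map_add]; abel⟩
  smul_mem' := fun a c h w hw => by
    obtain ⟨v, hv⟩ := h w hw
    exact ⟨a • v, fun g hg => by rw [Pi.smul_apply, hv g hg, map_smul, smul_sub]⟩

theorem th_mem (D : Dat) {c : GQ → V2} (h : c ∈ Bd D) : D.Th c ∈ Bd D := by
  refine sub_mem (fun w hw => ?_) h
  obtain ⟨v, hv⟩ := h (D.gm • w) hw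
  refine ⟨D.T.rq D.dl D.gm⁻¹ v, fun g hg => ?_⟩
  have hr := D.T.rep D.fix_dl
  have h1 := hv (D.gm * g * D.gm⁻¹) (Pl.mem_I_smul.2 (by
    rwa [show D.gm⁻¹ * (D.gm * g * D.gm⁻¹) * D.gm = g by group]))
  show D.T.rq D.dl D.gm⁻¹ (c (D.gm * g * D.gm⁻¹)) = _
  rw [h1, map_sub, ← hr.mul _ trivial _ trivial, ← hr.mul _ trivial _ trivial,
    show D.gm⁻¹ * (D.gm * g * D.gm⁻¹) = g * D.gm⁻¹ by group]

/-! ### Descent -/

variable {A : Type} [NormedCommRing A] [NormedAlgebra ℚ_[2] A] [IsUltrametricDist A]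
  [FiniteDimensional ℚ_[2] A] {ψ : ℤ_[2] → A} {D : Dat} {ξ : GQ → Fin 2 → A}

/-- rigid cocycles with coefficients -/
structure XA (D : Dat) (ψ : ℤ_[2] → A) (ξ : GQ → Fin 2 → A) : Prop where
  uc : Uc (D.Gd 0) ξ
  co : ∀ g ∈ D.Gd 0, ∀ h ∈ D.Gd 0, ξ (g * h) = ξ g + D.r ψ g (ξ h)
  off : ∀ g, g ∉ D.Gd 0 → ξ g = 0
  str : ∀ g ∈ D.w2.D, ξ g = 0
  unr : ∀ w : Pl, ¬ (w.p : ℤ) ∣ 30 * D.d → ∀ g ∈ w.I, ξ g = 0
  bad : ∀ w : Pl, w.p ∣ 15 → ∃ v, ∀ g ∈ w.I, ξ g = D.r ψ g v - v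
  gm : ∀ g, ξ (D.gm * g * D.gm⁻¹) = D.r ψ D.gm (ξ g)

omit [IsUltrametricDist A] [FiniteDimensional ℚ_[2] A] in
theorem sep {v v' : Fin 2 → A} (h : ∀ t : A →ₗ[ℚ_[2]] ℚ_[2], (fun i => t (v i)) = fun i => t (v' i)) :
    v = v' := by
  funext i
  rw [← sub_eq_zero, ← Module.forall_dual_apply_eq_zero_iff ℚ_[2]]
  intro t
  rw [map_sub, congrFun (h t) i, sub_self]

theorem xa_of (hA : CA) (h : IsPsi ψ)
    (h1 : ∀ t : A →ₗ[ℚ_[2]] ℚ_[2], D.XC (fun g i => t (ξ g i)) ∧ ∀ w : Pl, w.p ∣ 15 →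
      ∃ v, ∀ g ∈ w.I, (fun i => t (ξ g i)) = D.T.rho g *ᵥ v - v)
    (h2 : ∀ g, ξ (D.gm * g * D.gm⁻¹) = D.r ψ D.gm (ξ g)) : XA D ψ ξ := by
  let b := Module.finBasis ℚ_[2] A
  let L : Fin (finrank ℚ_[2] A) → V2 →ₗ[ℚ_[2]] Fin 2 → A := fun j =>
    LinearMap.pi fun i => LinearMap.toSpanSingleton ℚ_[2] A (b j) ∘ₗ LinearMap.proj i
  have hL : ∀ v : Fin 2 → A, ∑ j, L j (fun i => b.coord j (v i)) = v := fun v => by
    funext i
    rw [Finset.sum_apply]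
    exact b.sum_repr (v i)
  refine ⟨?_, fun g hg k hk => sep fun t => ?_, fun g hg => sep fun t => ?_,
    fun g hg => sep fun t => ?_, fun w hw g hg => sep fun t => ?_, fun w hw => ?_, h2⟩
  · have : ∀ s : Finset (Fin (finrank ℚ_[2] A)),
        Uc (D.Gd 0) fun g => ∑ j ∈ s, L j fun i => b.coord j (ξ g i) := fun s => by
      induction s using Finset.induction_on with
      | empty => exact (Sm.const 0).uc
      | insert j s hj ih =>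
        exact (((h1 (b.coord j)).1.uc.map (L j)).add ih).congr fun g _ => Finset.sum_insert hj
    exact (this Finset.univ).congr fun g _ => (hL _).symm
  · rw [(h1 t).1.co g hg k hk, Dat.r_apply, (mem0.1 hg).2, h.zero, one_smul, ← mv_rat, ← mv_map]
    funext i
    exact (map_add t _ _).symm
  · exact ((h1 t).1.off g hg).trans (funext fun i => (map_zero t).symm)
  · exact ((h1 t).1.str g hg).trans (funext fun i => (map_zero t).symm)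
  · exact ((h1 t).1.unr w hw g hg).trans (funext fun i => (map_zero t).symm)
  · choose v hv using fun j => (h1 (b.coord j)).2 w hw
    refine ⟨∑ j, L j (v j), fun g hg => ?_⟩
    rw [Dat.r_bad hA h hw hg, map_sum, ← Finset.sum_sub_distrib, ← hL (ξ g)]
    refine Finset.sum_congr rfl fun j _ => ?_
    rw [hv j g hg, map_sub, ← mv_rat]
    exact congrArg (· - L j (v j)) (mv_map (LinearMap.toSpanSingleton ℚ_[2] A (b j)) _ _)

omit [IsUltrametricDist A] [FiniteDimensional ℚ_[2] A] in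
theorem XA.right (x : XA D ψ ξ) {g s : GQ} (hg : g ∈ D.Gd 0) (hs : s ∈ D.Gd 0) (hs' : s ∈ D.w2.D) :
    ξ (g * s) = ξ g := by
  rw [x.co g hg s hs, x.str s hs', map_zero, add_zero]

theorem XA.pow (h : IsPsi ψ) (x : XA D ψ ξ) (m : ℕ) (g : GQ) :
    ξ (D.gm ^ m * g * (D.gm ^ m)⁻¹) = D.r ψ (D.gm ^ m) (ξ g) := by
  have hm := D.D_le (D.w2.I_le_D D.gI)
  induction m with
  | zero => rw [pow_zero, (D.rep h).one, one_mul, inv_one, mul_one]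
  | succ m ih =>
    rw [pow_succ', (D.rep h).mul _ hm _ (pow_mem hm m), ← ih, ← x.gm]
    exact congrArg ξ (by group)

theorem XA.conj (hL : LAY) (h : IsPsi ψ) (x : XA D ψ ξ) {s g : GQ} (hs : s ∈ D.w2.D)
    (hg : g ∈ D.Gd 0) : ξ (s * g * s⁻¹) = D.r ψ s (ξ g) := by
  have hr := D.rep h
  have hm := D.w2.I_le_D D.gI
  refine eq_of_forall_dist_le fun ε hε => ?_
  have hε' : 0 < ε / (1 + ‖ξ g‖) := by positivity
  obtain ⟨N, hN, h1⟩ := x.uc _ hε'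
  obtain ⟨N', hN', h2⟩ := hr.sm _ hε'
  obtain ⟨m, h3⟩ := (hL D 0).2.2.2.2.2.1 _ (hN.inf hN')
  let k := (D.a s).appr m
  have hk := D.D_le (pow_mem hm k)
  obtain ⟨n, ⟨hn, hnN⟩, h4⟩ := h3 ((D.gm ^ k)⁻¹ * s) ⟨mul_mem (inv_mem hk) (D.D_le hs), by
    rw [D.an.add _ (inv_mem hk) _ (D.D_le hs), D.an.inv hk, D.an.pow (D.D_le hm), D.ga, mul_one,
      neg_add_eq_sub]
    exact Ideal.mem_span_singleton.1 (PadicInt.appr_spec m (D.a s))⟩
  have hnD := D.w2.I_le_D hn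
  have hnK := D.D_le hnD
  set u := (D.gm ^ k)⁻¹ * s * n⁻¹ with hu
  have huD : u ∈ D.w2.D := mul_mem (mul_mem (inv_mem (pow_mem hm k)) hs) (inv_mem hnD)
  have es : s = D.gm ^ k * (u * n) := by
    rw [hu]
    group
  have h5 := conj0 hnK hg
  have h6 : ξ (s * g * s⁻¹) = D.r ψ (D.gm ^ k) (D.r ψ u (ξ (n * g * n⁻¹))) := by
    rw [show s * g * s⁻¹ = D.gm ^ k * (u * (n * g * n⁻¹) * u⁻¹) * (D.gm ^ k)⁻¹ by
      rw [hu]; group, x.pow h, x.right (mul_mem h4 h5) (inv_mem h4) (inv_mem huD), x.co _ h4 _ h5,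
      x.str u huD, zero_add]
  have h7 : D.r ψ s (ξ g) = D.r ψ (D.gm ^ k) (D.r ψ u (D.r ψ n (ξ g))) := by
    rw [← hr.mul _ h4.1 _ hnK, ← hr.mul _ hk _ (mul_mem h4.1 hnK), ← es]
  rw [dist_eq_norm, h6, h7, ← map_sub, ← map_sub, hr.norm hk, hr.norm h4.1,
    ← sub_sub_sub_cancel_right _ _ (ξ g)]
  have h8 := h1 g hg _ (mul_mem (inv_mem hg) h5) (by
    rw [show g⁻¹ * (n * g * n⁻¹) = g⁻¹ * n * g * n⁻¹ by group]
    exact mul_mem (hN.1.conj_mem' n hnN.1 g) (inv_mem hnN.1))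
  rw [mul_inv_cancel_left] at h8
  refine (norm_sub_le_of_le h8 (h2 n hnK hnN.2 _)).trans (le_of_eq ?_)
  field_simp

/-- the extension of a rigid cocycle -/
noncomputable def ext (σ : GQ → GQ) (ξ : GQ → Fin 2 → A) (g : GQ) : Fin 2 → A := ξ (g * (σ g)⁻¹)

variable {σ : GQ → GQ} (hσ : ∀ g, σ g ∈ D.w2.D ∧ D.a (σ g) = D.a g)

include hσ

omit [IsUltrametricDist A] [FiniteDimensional ℚ_[2] A] in
theorem XA.ext_eq (x : XA D ψ ξ) {g s : GQ} (hg : g ∈ D.GK) (hs : s ∈ D.w2.D)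
    (e : D.a s = D.a g) : ext σ ξ g = ξ (g * s⁻¹) := by
  have h1 := (hσ g).1
  rw [show g * s⁻¹ = g * (σ g)⁻¹ * (σ g * s⁻¹) by group, x.right (div0 (D.D_le h1) hg (hσ g).2)
    (div0 (D.D_le hs) (D.D_le h1) (e.trans (hσ g).2.symm)) (mul_mem h1 (inv_mem hs)), ext]

omit [IsUltrametricDist A] [FiniteDimensional ℚ_[2] A] in
theorem XA.ext_top (x : XA D ψ ξ) {g : GQ} (hg : g ∈ D.Gd 0) : ext σ ξ g = ξ g := by
  rw [x.ext_eq hσ hg.1 (one_mem _) (D.an.one.trans (mem0.1 hg).2.symm), inv_one, mul_one]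

omit [IsUltrametricDist A] [FiniteDimensional ℚ_[2] A] in
theorem XA.ext_str (x : XA D ψ ξ) {g : GQ} (hg : g ∈ D.w2.D) : ext σ ξ g = 0 :=
  x.str _ (mul_mem hg (inv_mem (hσ g).1))

theorem XA.ext_co (hL : LAY) (h : IsPsi ψ) (x : XA D ψ ξ) (g : GQ) (hg : g ∈ D.GK) (k : GQ)
    (hk : k ∈ D.GK) : ext σ ξ (g * k) = ext σ ξ g + D.r ψ g (ext σ ξ k) := by
  obtain ⟨h1, h2⟩ := hσ g
  obtain ⟨h3, h4⟩ := hσ k
  have h5 := div0 (D.D_le h1) hg h2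
  have h6 := div0 (D.D_le h3) hk h4
  rw [x.ext_eq hσ (mul_mem hg hk) (mul_mem h1 h3) (by
      rw [D.an.add _ (D.D_le h1) _ (D.D_le h3), D.an.add _ hg _ hk, h2, h4]),
    show g * k * (σ g * σ k)⁻¹ = g * (σ g)⁻¹ * (σ g * (k * (σ k)⁻¹) * (σ g)⁻¹) by group,
    x.co _ h5 _ (conj0 (D.D_le h1) h6), x.conj hL h h1 h6,
    ← (D.rep h).mul _ h5.1 _ (D.D_le h1), inv_mul_cancel_right]
  rfl

theorem XA.ext_uc (hL : LAY) (h : IsPsi ψ) (x : XA D ψ ξ) : Uc D.GK (ext σ ξ) := by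
  refine uc_of_cocycle (D.rep h) (x.ext_co hσ hL h) fun ε hε => ?_
  obtain ⟨N, hN, h1⟩ := x.uc _ hε
  obtain ⟨m, h3⟩ := (hL D 0).2.2.2.2.2.1 _ hN
  refine ⟨_, hN.inf (hL D m).1, fun n hn hm => ?_⟩
  obtain ⟨s, ⟨hs, hsN⟩, h4⟩ := h3 n hm.2
  have hD := D.w2.I_le_D hs
  have h5 := (mem0.1 h4).2
  rw [D.an.add _ hn _ (inv_mem (D.D_le hD)), D.an.inv (D.D_le hD), add_neg_eq_zero] at h5
  have h6 := h1 1 (one_mem _) _ h4 (mul_mem hm.1 (inv_mem hsN))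
  rwa [one_mul, x.str 1 (one_mem _), sub_zero, ← x.ext_eq hσ hn hD h5.symm] at h6

theorem XA.tend (hL : LAY) (h : IsPsi ψ) (x : XA D ψ ξ) (g : GS) :
    Tendsto (fun k => ext σ ξ (g k)) UF (𝓝 (ul fun k => ext σ ξ (g k))) := by
  obtain ⟨B, hB⟩ := (x.ext_uc hσ hL h).bdd
  refine tendsto_ul (B := B) (.of_forall fun k => ?_)
  by_cases hk : g k ∈ D.GK
  · exact hB _ hk
  · rw [ext, x.off _ fun e => hk ((mul_mem_cancel_right (inv_mem (D.D_le (hσ _).1))).1 e.1),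
      ← x.ext_str hσ (one_mem _)]
    exact hB 1 (one_mem _)

theorem XA.ss (hA : CF) (hL : LAY) (h : IsPsi ψ) (x : XA D ψ ξ) :
    D.SS ψ (D.nz ψ fun g => ul fun k => ext σ ξ (g k)) := by
  have hr := D.rep h
  obtain ⟨v₀, hv₀⟩ := Dat.nz_eq (D := D) (fun g => ul fun k => ext σ ξ (g k)) h
  refine ⟨⟨(pz_const hr (x.ext_uc hσ hL h) (x.ext_co hσ hL h)).1.nz h, fun g hg => if_neg hg,
    Dat.nz_z h _, fun w g hg => ?_, fun w hw => ?_, fun _ e => (List.not_mem_nil e).elim⟩,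
    (Dat.str_iff h).2 ⟨v₀, fun g hg => ?_⟩⟩
  · rw [Dat.nz_of_triv (hg.mono fun k e => e.1.2) (Dat.rS_unr hA h (hg.mono fun k e => ⟨e.1, e.2.1⟩))]
    refine ul_eq (tendsto_const_nhds.congr' (hg.mono fun k e => ?_))
    have h2 : (w k).p ≠ 2 := fun e' => e.2.1 (by
      rw [e']
      exact Dvd.dvd.mul_right (by norm_num) _)
    beta_reduce
    rw [x.ext_top hσ (mem0.2 ⟨e.1.2, D.an.unr _ h2 _ e.1⟩), x.unr _ e.2.1 _ e.1.1]
  · obtain ⟨v, hv⟩ := x.bad w hw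
    refine ⟨v + v₀, fun g hg => ?_⟩
    rw [hv₀ g (S1_mono (fun _ e => (I_le hw e).1) hg), hr.rS_add,
      ul_eq (((hr.tendsto g (tendsto_const_nhds (x := v))).sub_const v).congr' (hg.mono fun k e => ?_))]
    · abel
    · rw [x.ext_top hσ (I_le hw e), hv _ e]
  · rw [hv₀ g (S1_mono D.D_le hg),
      ul_eq (tendsto_const_nhds.congr' (hg.mono fun k e => (x.ext_str hσ e).symm)), zero_add]

theorem XA.inj (h : IsPsi ψ) (x : XA D ψ ξ)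
    (e : (D.nz ψ fun g => ul fun k => ext σ ξ (g k)) = 0) : ξ = 0 := by
  obtain ⟨v, hv⟩ := Dat.nz_eq (D := D) (fun g => ul fun k => ext σ ξ (g k)) h
  have h1 : ∀ g ∈ D.GK, 0 = ext σ ξ g + (rS (D.r ψ) (cs g) v - v) := fun g hg => by
    have := hv (cs g) (cs_mem.2 hg)
    rwa [e, show (ul fun k => ext σ ξ (cs g k)) = ext σ ξ g from ul_eq tendsto_const_nhds] at this
  have h2 := h1 _ (D.D_le D.fD)
  rw [x.ext_str hσ D.fD, zero_add, Dat.rS_f2 h] at h2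
  have h3 : mv (D.T.rd D.dl D.f2 - 1) v = 0 := by
    rw [h2, eq_sub_iff_add_eq]
    nth_rewrite 2 [← mv_one v]
    rw [← mv_add, sub_add_cancel]
  have h4 : v = 0 := by
    rw [← mv_one v, ← Matrix.nonsing_inv_mul _ (D.T.det_ne D.fd D.fc).1.isUnit, mv_mul, h3, map_zero]
  funext g
  by_cases hg : g ∈ D.Gd 0
  · have := h1 g hg.1
    rw [h4, rS_zero, sub_zero, add_zero, x.ext_top hσ hg] at this
    exact this.symm
  · exact x.off g hg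

end TIW

open TIW

theorem t_IW (hP : CP) (hLAY : LAY) (hIW0 : IW0) : IW := by
  intro D
  obtain ⟨X, hf, hd, hX, hT, F, hF, hF'⟩ := hIW0 D
  obtain ⟨R, hR, hR1, hR2⟩ := (hLAY D 0).2.2.2.2.2.2.2.2.2
  choose l hl using fun w : R => one_form hP D (hR1 w w.2)
  refine ⟨X ⊓ Bd D, inferInstance, ?_, fun c hc => ⟨(hX c).1 hc.1, ⟨hT c hc.1, th_mem D hc.2⟩,
    fun w hw => ?_⟩, F, hF, fun c hc => hF' c hc.1⟩
  · let Λ : X →ₗ[ℚ_[2]] R → ℚ_[2] := LinearMap.pi l ∘ₗ X.subtype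
    have h1 := Λ.finrank_range_add_finrank_ker
    have h2 := Submodule.finrank_le (LinearMap.range Λ)
    rw [finrank_fintype_fun_eq_card, Fintype.card_coe] at h2
    have h3 : (LinearMap.ker Λ).map X.subtype ≤ X ⊓ Bd D := by
      rintro _ ⟨c, hc, rfl⟩
      refine ⟨c.2, fun w hw => ?_⟩
      obtain ⟨u, hu, hw'⟩ := hR2 w hw
      have hc' := (hX c).1 c.2
      obtain ⟨v, hv⟩ := hl ⟨_, hw'⟩ c hc' (congrFun hc ⟨_, hw'⟩)
      exact ⟨_, fun g hg => conj_cob ((D.T.rep D.fix_dl).mono le_top) hc'.co hu (I_le hw hg)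
        (hv _ (Pl.mem_I_smul.2 (by rwa [show u⁻¹ * (u * g * u⁻¹) * u = g by group])))⟩
    have h4 := Submodule.finrank_mono h3
    rw [Submodule.finrank_map_subtype_eq] at h4
    omega
  · obtain ⟨v, hv⟩ := hc.2 w hw
    exact ⟨v, fun g hg => by rw [hv g hg, rq_bad hP.toCA D hw hg]⟩

theorem t_DESC (hP : CP) (hLAY : LAY) : DESC := by
  intro D A _ _ _ _ ψ h M hM
  choose σ h1 h2 _ using fun g => D.an.surj hP.toCA (D.a g) 1 (Or.inl rfl)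
  have hσ : ∀ g, σ g ∈ D.w2.D ∧ D.a (σ g) = D.a g := fun g => ⟨D.w2.I_le_D (h1 g), h2 g⟩
  have hx : ∀ ξ : M, XA D ψ ξ.1 := fun ξ => xa_of hP.toCA h (hM _ ξ.2).1 (hM _ ξ.2).2
  refine ⟨⟨⟨fun ξ => D.nz ψ fun g => ul fun k => ext σ ξ.1 (g k), fun ξ ξ' => ?_⟩, fun a ξ => ?_⟩,
    (injective_iff_map_eq_zero _).2 fun ξ e => Subtype.ext ((hx ξ).inj hσ h e),
    fun ξ => (hx ξ).ss hσ hP.toCF hLAY h⟩
  · rw [← Dat.nz_add h]
    exact congrArg _ (funext fun g =>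
      ul_eq (((hx ξ).tend hσ hLAY h g).add ((hx ξ').tend hσ hLAY h g)))
  · rw [RingHom.id_apply, ← Dat.nz_smul h]
    exact congrArg (D.nz ψ) (funext fun g => ul_eq (((hx ξ).tend hσ hLAY h g).const_smul a))

end Pool.Agent.P.MP_8b7eba_nt.R2
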