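import Pool.Agent.P.MP_8b7eba_nt.R2.Defs

/-! Statements on places, local and global class field theory (2-primary part). -/

namespace Pool.Agent.P.MP_8b7eba_nt.R2

open scoped NNReal ComplexConjugate

/-! ### Layer A: places and Galois theory -/

/-- existence and conjugacy of places -/
def PL : Prop :=
  (∀ p : ℕ, p.Prime → ∃ w : Pl, w.p = p) ∧
  (∀ w w' : Pl, w.p = w'.p → ∃ σ : GQ, σ • w = w') ∧
  (∀ (U : Subgroup GQ) (w w' : Pl), IsOpen (U : Set GQ) →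
    (∀ x, Fix U x → IsIntegral ℤ x → w.v x < 1 → w'.v x < 1) → ∃ u ∈ U, u • w = w') ∧
  (∀ (w : Pl) (x : Om), IsIntegral ℤ x → w.v x ≤ 1) ∧
  (∀ x : Om, (∀ w : Pl, w.v x ≤ 1) → IsIntegral ℤ x) ∧
  (∀ x : Om, x ≠ 0 → ∃ B : ℕ, ∀ w : Pl, B < w.p → w.v x = 1) ∧
  ∀ (w : Pl) (x : Om), w.v x ≤ 1 → ∃ y z : Om, IsIntegral ℤ y ∧ IsIntegral ℤ z ∧ w.v z = 1 ∧ x * z = y

/-- Galois correspondence, Hilbert 90 and Kummer theory for closed subgroups -/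
def GAL : Prop :=
  ∀ H : Subgroup GQ, IsClosed (H : Set GQ) →
    (∀ σ : GQ, (∀ x, Fix H x → σ x = x) → σ ∈ H) ∧
    (∀ b : GQ → Om, Sm H b → (∀ g ∈ H, b g ≠ 0) → (∀ g ∈ H, ∀ h ∈ H, b (g * h) = b g * g (b h)) →
      ∃ y : Om, y ≠ 0 ∧ ∀ g ∈ H, b g * y = g y) ∧
    (∀ U : Subgroup GQ, IsOpen (U : Set GQ) → ∀ (ι : Type) [Fintype ι] (x : ι → Om),
      (∀ i, Fix (H ⊓ U) (x i)) → U.relIndex H < Fintype.card ι →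
      ∃ c : ι → Om, (∀ i, Fix H (c i)) ∧ (∃ i, c i ≠ 0) ∧ ∑ i, c i * x i = 0) ∧
    (∀ U : Subgroup GQ, IsOpen (U : Set GQ) → U.relIndex H = 2 →
      ∃ β : Om, β ≠ 0 ∧ Fix H (β ^ 2) ∧ ∀ g ∈ H, (g ∈ U → g β = β) ∧ (g ∉ U → g β = -β)) ∧
    ∀ (k : ℕ) (f : GQ → GQ → Om), Co2 H f → Triv H (f ^ k) → k ≠ 0 →
      (∃ f', Co2 H f' ∧ (∀ g ∈ H, ∀ h ∈ H, f' g h ^ k = 1) ∧ Triv H (f / f')) ∧
      ((∀ g ∈ H, ∀ h ∈ H, f g h ^ k = 1) → Triv H f → ∃ b : GQ → Om, Sm H b ∧ (∀ g ∈ H, b g ^ k = 1) ∧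
        ∀ g ∈ H, ∀ h ∈ H, f g h * b (g * h) = b g * g (b h))

/-- Frobenius elements -/
def FROB : Prop :=
  ∀ (w : Pl) (H : Subgroup GQ), w.Loc H → ∃ (f : ℕ) (φ : GQ), 0 < f ∧ φ ∈ H ∧ w.IsFrob f φ ∧
    (H = w.D → f = 1) ∧ f * H.relIndex w.I = H.relIndex w.D ∧
    ∀ N, ON N → ∀ g ∈ H, ∃ m : ℕ, ∃ i ∈ w.I ⊓ H, ∃ n ∈ N ⊓ H, g = φ ^ m * i * n

/-- the global field is dense in its henselisation, with independence at the conjugate places -/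
def DENS : Prop :=
  ∀ (w : Pl) (U : Subgroup GQ), IsOpen (U : Set GQ) → ∀ x, Fix (w.D ⊓ U) x → ∀ ε : ℝ≥0, 0 < ε →
    ∃ y, Fix U y ∧ w.v (x - y) < ε

/-- weak approximation -/
def WA : Prop :=
  ∀ U : Subgroup GQ, IsOpen (U : Set GQ) → ∀ R : Finset Pl, Sep U R → ∀ x : Pl → Om,
    (∀ w ∈ R, Fix (w.D ⊓ U) (x w)) → ∀ ε : ℝ≥0, 0 < ε → ∃ y, Fix U y ∧ ∀ w ∈ R, w.v (x w - y) < ε

/-- uniformisers, ramification index and residue field -/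
def UNIF : Prop :=
  ∀ (w : Pl) (U : Subgroup GQ), IsOpen (U : Set GQ) → ∃ π, Fix U π ∧ w.Unif (w.D ⊓ U) π ∧
    w.Unif (w.I ⊓ U) π ∧ w.v π ^ U.relIndex w.I = (w.p : ℝ≥0)⁻¹ ∧
    ∃ r : Finset Om, (∀ y ∈ r, Fix U y ∧ w.v y ≤ 1) ∧
      r.card ^ U.relIndex w.I ≤ w.p ^ U.relIndex w.D ∧
      ∀ x, Fix (w.D ⊓ U) x → w.v x ≤ 1 → ∃ y ∈ r, w.v (x - y) < 1

/-- finiteness of the residue rings -/
def RES : Prop :=
  ∀ (w : Pl) (H : Subgroup GQ), w.Loc H →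
    (∀ ε : ℝ≥0, 0 < ε → ∃ r : Finset Om, (∀ y ∈ r, Fix H y ∧ w.v y ≤ 1) ∧
      ∀ x, Fix H x → w.v x ≤ 1 → ∃ y ∈ r, w.v (x - y) < ε) ∧
    (∃ r : Finset Om, r.card ≤ w.p ^ H.relIndex w.D ∧
      ∀ x, Fix H x → w.v x ≤ 1 → ∃ y ∈ r, w.v (x - y) ≤ (w.p : ℝ≥0)⁻¹) ∧
    (∀ (π : Om) (ε : ℝ≥0) (B : Subgroup Omˣ), w.Unif H π → 0 < ε → (∃ u ∈ B, (u : Om) = π) →
      (∀ u ∈ FU H, w.v (u - 1) < ε → u ∈ B) → B.relIndex (FU H) ≠ 0) ∧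
    w.Unif w.D w.p ∧ w.Unif w.I w.p ∧ ∀ x, Fix w.D x → w.v x ≤ 1 → ∀ n : ℕ, ∃ m : ℕ,
      w.v (x - m) ≤ ((w.p : ℝ≥0) ^ n)⁻¹

/-- tame inertia -/
def TAME : Prop :=
  ∀ (w : Pl) (H : Subgroup GQ) (π : Om), w.p ≠ 2 → w.Loc H → w.Unif (w.I ⊓ H) π →
    (∃ t ∈ w.I ⊓ H, ∀ β : Om, β ^ 2 = π → t β = -β) ∧
    (∀ g ∈ w.I, ∀ (k : ℕ) (u : Om), w.v u = 1 → Fix (Subgroup.zpowers g) (u ^ 2 ^ k) → g u = u) ∧
    ∀ N, ON N → ∃ k : ℕ, ∀ g ∈ w.I ⊓ H, ∀ β : Om, β ^ 2 ^ k = π → g β = β →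
      ∃ r : ℕ, Odd r ∧ g ^ r ∈ N

/-- consequences: a generator of the 2-part of tame inertia -/
def TAME2 : Prop :=
  ∀ (w : Pl) (H : Subgroup GQ) (π : Om) (t : GQ), w.p ≠ 2 → w.Loc H → w.Unif (w.I ⊓ H) π →
    t ∈ w.I ⊓ H → (∀ β : Om, β ^ 2 = π → t β = -β) → ∀ N, ON N →
    (∀ g ∈ w.I ⊓ H, ∃ m r : ℕ, Odd r ∧ (g * (t ^ m)⁻¹) ^ r ∈ N) ∧
    ∀ (f : ℕ) (φ : GQ), w.IsFrob f φ → φ π = π → (∀ g ∈ H, φ * g * φ⁻¹ ∈ H) →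
      ∃ r : ℕ, Odd r ∧ (φ * t * φ⁻¹ * (t ^ w.p ^ f)⁻¹) ^ r ∈ N

/-- Hensel's lemma for the fixed field of a subgroup of the decomposition group -/
def HENS : Prop :=
  ∀ (w : Pl) (H : Subgroup GQ), H ≤ w.D →
    (∀ x, Fix H x → w.v (x - 1) < w.v 4 → ∃ y, Fix H y ∧ x = y ^ 2 ∧ w.v (y - 1) < w.v 2 ∧
      w.v (y - 1) * w.v 2 = w.v (x - 1)) ∧
    ∀ a b c x, Fix H a → Fix H b → Fix H c → Fix H x → w.v a ≤ 1 → w.v x ≤ 1 →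
      w.v (2 * a * x + b) = 1 → w.v (a * x ^ 2 + b * x + c) < 1 →
      ∃ y, Fix H y ∧ a * y ^ 2 + b * y + c = 0 ∧ w.v (y - x) = w.v (a * x ^ 2 + b * x + c)

/-- the cyclotomic character and the additive character -/
def EC : Prop :=
  IsEc ec ∧ (∀ σ τ : GQ, cyc (σ * τ) = cyc σ * cyc τ) ∧
  (∀ (σ : GQ) (k m : ℕ) (z : Om), z ^ 2 ^ k = 1 → 2 ^ k ∣ (cyc σ : ℤ_[2]) - m → σ z = z ^ m) ∧
  (∀ (σ : GQ) (k m : ℕ) (z : Om), IsPrimitiveRoot z (2 ^ k) → σ z = z ^ m →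
    2 ^ k ∣ (cyc σ : ℤ_[2]) - m) ∧
  (∀ k : ℕ, ∃ N, ON N ∧ ∀ σ, σ ∈ N ↔ 2 ^ k ∣ (cyc σ : ℤ_[2]) - 1) ∧
  (∀ (w : Pl) (f : ℕ) (φ : GQ), w.p ≠ 2 → w.IsFrob f φ → (cyc φ : ℤ_[2]) = w.p ^ f) ∧
  (∀ w : Pl, w.p ≠ 2 → ∀ g ∈ w.I, cyc g = 1) ∧ cyc tau = -1

/-- the cyclotomic tower is totally ramified at two -/
def EC2 : Prop := ∀ w : Pl, w.p = 2 → ∀ u : ℤ_[2]ˣ, ∃ g ∈ w.I, cyc g = u

/-- the logarithm and the cyclotomic towers -/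
def LG : Prop :=
  IsLg lg ∧ (∀ u v : ℤ_[2]ˣ, 2 ∣ ep (u * v) - ep u - ep v) ∧
  (∀ a : ℤ_[2], ∃ u : ℤ_[2]ˣ, lg u = a ∧ ep u = 0) ∧
  (∀ n, IsCh ⊤ (Ps n) ∧ IsCh ⊤ (Ps' n) ∧ IsKer ⊤ (KP n) (Ps n) ∧ ON (KP n) ∧
    (∀ σ, σ ∈ KP n ↔ 2 ^ n ∣ lg (cyc σ)) ∧ (∀ σ, Ps' n σ = 0 → Ps n σ = 0) ∧ Ps' n tau ≠ 0) ∧
  ∀ (w : Pl) (H : Subgroup GQ), w.Loc H → ∃ g ∈ H, lg (cyc g) ≠ 0

/-- complex conjugation -/
def TAU : Prop :=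
  (∀ x, io (tau x) = conj (io x)) ∧ tau * tau = 1 ∧ tau ≠ 1 ∧
  (∀ z : ℂ, IsAlgebraic ℚ z → ∃ x, io x = z) ∧ (∀ f : Om →+* ℂ, ∃ g : GQ, ∀ x, f x = io (g x)) ∧
  ∀ U : Subgroup GQ, IsOpen (U : Set GQ) → TC U → Even U.index ∧ ∀ x, Fix U x → x ≠ 0 →
    ∃ q : ℚ, 0 < q ∧ nrm ⊤ U x = q

/-- the 2-adic embedding and the local Artin map -/
def ART : Prop :=
  (∀ w : Pl, IsArt w (art w)) ∧
  (∀ (w : Pl) (σ : GQ) (x : Om), Fix w.D x → x ≠ 0 → art (σ • w) (σ x) = art w x) ∧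
  (∀ (w : Pl) (n : ℕ), ∃ ε : ℝ≥0, 0 < ε ∧ ∀ x, Fix w.D x → w.v (x - 1) < ε →
    2 ^ n ∣ (art w x : ℤ_[2]) - 1) ∧
  ∀ (q : ℚ) (R : Finset Pl), q ≠ 0 → Sep ⊤ R → (∃ w ∈ R, w.p = 2) →
    (∀ w, Out ⊤ R w → w.v q = 1) → ∏ w ∈ R, art w q = if 0 < q then 1 else -1

/-- places of a number field above a prime -/
def ORB : Prop :=
  ∀ U : Subgroup GQ, IsOpen (U : Set GQ) →
    (∀ R : Set Pl, R.Finite → ∃ R' : Finset Pl, (R' : Set Pl) ⊆ R ∧ Sep U R' ∧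
      (∀ w, Out U R' w ↔ Out U R w) ∧ R'.card = nOrb U R) ∧
    (∀ P : Finset ℕ, ∃ R : Finset Pl, Sep U R ∧ ∀ w, Out U R w ↔ w.p ∉ P) ∧
    ∀ (w₀ : Pl) (R : Finset Pl) (s : Pl → GQ), Sep U R → (∀ w, Out U R w ↔ w.p ≠ w₀.p) →
      (∀ w ∈ R, s w • w = w₀) → ∑ w ∈ R, U.relIndex w.D = U.index ∧
      ∀ x, Fix U x → nrm ⊤ U x = ∏ w ∈ R, s w (nrm w.D (w.D ⊓ U) x)

/-- Frobenius elements of degree one generate, and a weak form of the Chebotarev theorem -/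
def GENP : Prop :=
  (∀ (U U' : Subgroup GQ) (B : ℕ), IsOpen (U : Set GQ) → IsOpen (U' : Set GQ) →
    (∀ (w : Pl) (φ : GQ), B < w.p → φ ∈ U → w.IsFrob 1 φ → φ ∈ U') → U ≤ U') ∧
  (∀ N, ON N → ∃ B : ℕ, ∀ w : Pl, B < w.p → w.I ≤ N) ∧
  ∀ (N : Subgroup GQ) (g : GQ) (s B : ℕ), ON N → g ∉ N → g ^ 2 ^ s ∈ N →
    ∃ (w : Pl) (φ : GQ) (r : ℕ), B < w.p ∧ w.IsFrob 1 φ ∧ Odd r ∧ (g ^ r)⁻¹ * φ ∈ N

/-- finiteness of the class group -/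
def CLS : Prop :=
  ∀ U : Subgroup GQ, IsOpen (U : Set GQ) →
    (∃ h : ℕ, 0 < h ∧ ∀ w π, w.Unif (w.D ⊓ U) π → ∃ x, Fix U x ∧ w.v x = w.v π ^ h ∧
      ∀ w', Out U {w} w' → w'.v x = 1) ∧
    ∃ R : Set Pl, R.Finite ∧ Kill U R

/-- the `S`-unit theorem -/
def SUN : Prop :=
  ∀ (U : Subgroup GQ) (R : Set Pl), IsOpen (U : Set GQ) → TC U → R.Finite →
    Module.Finite ℤ (Additive (SU U R)) ∧
    Module.finrank ℤ (Additive (SU U R)) + 1 = U.index / 2 + nOrb U R ∧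
    sqI (SU U R) = 2 ^ (U.index / 2 + nOrb U R)

/-! ### Group cohomology -/

/-- Sylow chains -/
def SYL : Prop :=
  ∀ H N : Subgroup GQ, ON N → ∃ P : Subgroup GQ, P ≤ H ∧ Odd (P.relIndex H) ∧ Ch2 P (N ⊓ H)

/-- restriction to a subgroup of odd index is injective -/
def GAS : Prop :=
  ∀ (H U : Subgroup GQ) (f : GQ → GQ → Om), IsOpen (U : Set GQ) →
    Odd (U.relIndex H) → Co2T H f → Triv (H ⊓ U) f → Triv H f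

/-- classes split by a cyclic extension -/
def CYC1 : Prop :=
  ∀ (H H' : Subgroup GQ) (m : ℕ) (χ : GQ → ZMod m), IsClosed (H : Set GQ) → m ≠ 0 → IsCh H χ →
    IsKer H H' χ → ∀ f, Co2 H f → Triv H' f → ∃ a, Fix H a ∧ a ≠ 0 ∧ Triv H (f / cup χ a)

/-- split cyclic algebras -/
def CYC2 : Prop :=
  ∀ (H H' : Subgroup GQ) (m : ℕ) (χ : GQ → ZMod m), IsClosed (H : Set GQ) → m ≠ 0 → IsCh H χ →
    IsKer H H' χ → ∀ a, Fix H a → a ≠ 0 → (Triv H (cup χ a) ↔ ∃ b, Fix H' b ∧ nrm H H' b = a)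

/-- formal properties of the cocycles of cyclic algebras -/
def CUP : Prop :=
  ∀ (H : Subgroup GQ) (a : Om), Fix H a → a ≠ 0 →
    (∀ (m : ℕ) (χ : GQ → ZMod m), m ≠ 0 → IsCh H χ → Co2 H (cup χ a) ∧ Triv H (cup χ a ^ m) ∧
      (∀ b, cup χ (a * b) = cup χ a * cup χ b) ∧
      (∀ χ', IsCh H χ' → Triv H (cup (χ + χ') a / (cup χ a * cup χ' a))) ∧
      (∀ k : ℕ, Triv H (cup (k • χ) a / cup χ (a ^ k))) ∧
      (∀ (m' k : ℕ) (χ' : GQ → ZMod m'), m' = k * m → k ≠ 0 →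
        ((∀ g ∈ H, (χ' g).val = k * (χ g).val) → ∀ g ∈ H, ∀ h ∈ H, cup χ' a g h = cup χ a g h) ∧
        (IsCh H χ' → (∀ g ∈ H, ((χ' g).val : ZMod m) = χ g) → Triv H (cup χ a / cup χ' (a ^ k)))) ∧
      ∀ β : Om, β ^ m = a → Triv H (cup χ a * fun g h => (g β / β) ^ (χ h).val) ∧
        Triv H (cup χ a / fun g h => g (h β / β) ^ (χ g).val))

/-- quadratic symbols -/
def SYM : Prop :=
  ∀ (H H' : Subgroup GQ) (β : Om), IsClosed (H : Set GQ) → β ≠ 0 → Fix H (β ^ 2) →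
    IsKer H H' (qc β) → IsCh H (qc β) ∧ (∀ g ∈ H, g β = (-1) ^ (qc β g).val * β) ∧
    (∀ a, Fix H a → a ≠ 0 → (Triv H (cup (qc β) a) ↔ Nm H (β ^ 2) a)) ∧
    ((∃ g ∈ H, g β ≠ β) → ∀ a, (∃ b, Fix H' b ∧ nrm H H' b = a) ↔ Nm H (β ^ 2) a) ∧
    ∀ f, Co2 H f → Triv H' f → ∃ a, Fix H a ∧ a ≠ 0 ∧ Triv H (f / cup (qc β) a) ∧
      ∀ H'' ≤ H, IsClosed (H'' : Set GQ) → (Triv H'' f ↔ Nm H'' (β ^ 2) a)

/-- unramified characters -/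
def UCH : Prop :=
  ∀ (w : Pl) (n : ℕ),
    (∃ χ : GQ → ZMod (2 ^ n), IsCh w.D χ ∧ (∀ g ∈ w.I, χ g = 0) ∧ ∀ f φ, w.IsFrob f φ → χ φ = f) ∧
    ∀ H, w.Loc H → ∃ χ : GQ → ZMod (2 ^ n), IsCh H χ ∧ (∀ g ∈ w.I ⊓ H, χ g = 0) ∧ ∃ g ∈ H, χ g = 1

/-- unramified cocycles with finite values are trivial -/
def UNR : Prop :=
  ∀ (w : Pl) (H : Subgroup GQ), w.Loc H →
    ∀ (k : ℕ) (f : GQ → GQ → Om), Co2 H f → (∀ g ∈ H, ∀ h ∈ H, f g h ^ 2 ^ k = 1) →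
      (∀ g ∈ H, ∀ h ∈ H, ∀ i ∈ w.I ⊓ H, f (g * i) h = f g h ∧ f g (h * i) = f g h ∧
        i (f g h) = f g h) → Triv H f

/-- unipotent modules have an invariant quotient of order two; characters extend -/
def FILT : Prop :=
  ∀ (H : Subgroup GQ) (M : Type) [AddCommGroup M] (ρ : GQ → M →+ M), Uni H ρ → Nontrivial M →
    ∃ (l : M →+ ZMod 2) (ρ' : GQ → l.ker →+ l.ker), Function.Surjective l ∧
      (∀ g ∈ H, ∀ m, l (ρ g m) = l m) ∧ Uni H ρ' ∧ (∀ g ∈ H, ∀ m, (ρ' g m : M) = ρ g m) ∧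
      Nat.card M = 2 * Nat.card l.ker ∧
      ∀ f : AddChar l.ker Om, ∃ f' : AddChar M Om, ∀ m : l.ker, f' m = f m

/-- the Herbrand quotient does not change in a subgroup of finite index -/
def HQ : Prop :=
  ∀ (A : Type) [AddCommGroup A] (σ : A →+ A) (B : AddSubgroup A), (∀ x, σ (σ x) = x) →
    (∀ x ∈ B, σ x ∈ B) → B.FiniteIndex →
    ∀ b₀ b₁ : ℕ, b₀ ≠ 0 → b₁ ≠ 0 →
      (B.map (AddMonoidHom.id A + σ)).relIndex (B ⊓ (AddMonoidHom.id A - σ).ker) = b₀ →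
      (B.map (AddMonoidHom.id A - σ)).relIndex (B ⊓ (AddMonoidHom.id A + σ).ker) = b₁ →
      (AddMonoidHom.id A + σ).range.relIndex (AddMonoidHom.id A - σ).ker ≠ 0 ∧
      (AddMonoidHom.id A - σ).range.relIndex (AddMonoidHom.id A + σ).ker ≠ 0 ∧
      (AddMonoidHom.id A + σ).range.relIndex (AddMonoidHom.id A - σ).ker * b₁ =
        (AddMonoidHom.id A - σ).range.relIndex (AddMonoidHom.id A + σ).ker * b₀

/-- the Herbrand quotient of a finitely generated group -/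
def HQ2 : Prop :=
  ∀ (A : Type) [AddCommGroup A] [Module.Finite ℤ A] (σ : A →+ A), (∀ x, σ (σ x) = x) →
    (AddMonoidHom.id A + σ).range.relIndex (AddMonoidHom.id A - σ).ker ≠ 0 ∧
    (AddMonoidHom.id A + σ).range.relIndex (AddMonoidHom.id A - σ).ker * 2 ^ Module.finrank ℤ A =
      (AddMonoidHom.id A - σ).range.relIndex (AddMonoidHom.id A + σ).ker *
        4 ^ Module.finrank ℤ (AddMonoidHom.id A - σ).ker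

/-! ### Layer B: local class field theory -/

/-- the number of square classes -/
def SQ1 : Prop :=
  ∀ (w : Pl) (H : Subgroup GQ), w.Loc H → sqI (FU H) ≠ 0 ∧
    sqI (FU H) ≤ 4 * (if w.p = 2 then 2 ^ H.relIndex w.D else 1)

/-- explicit squares -/
def SQ2 : Prop :=
  ∀ w : Pl,
    (∀ H, w.Loc H → w.p ≠ 2 → ∀ x y, Fix H x → Fix H y → w.v x = 1 → w.v y = 1 → ¬ Sq H x →
      ¬ Sq H y → Sq H (x * y)) ∧
    (∀ H ≤ w.I, w.p ≠ 2 → ∀ x, Fix H x → w.Ev H x → Sq H x) ∧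
    (∀ (H : Subgroup GQ) (φ : GQ) (β : Om), w.Loc H → φ ∈ H → w.IsFrob 1 φ →
      (∀ g ∈ w.I ⊓ H, g β = β) → φ β = β → Fix H β) ∧
    (w.p = 2 → ∀ x, Fix w.D x → x ≠ 0 → ∃ a b c : ℕ, Sq w.D (x * (-1) ^ a * 2 ^ b * 5 ^ c)) ∧
    (w.p = 2 → ∀ m : ℤ, Odd m → (Sq w.D m ↔ m % 8 = 1) ∧ ¬ Sq w.D (2 * m)) ∧
    (w.p ≠ 2 → ∀ m : ℤ, ¬ (w.p : ℤ) ∣ m → (Sq w.D m ↔ jacobiSym m w.p = 1) ∧ ¬ Sq w.D (w.p * m))

/-- the norm index of a local quadratic extension -/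
def NI : Prop :=
  ∀ (w : Pl) (H : Subgroup GQ) (b : Om), w.Loc H → Fix H b → b ≠ 0 → ¬ Sq H b →
    (∃ a, Fix H a ∧ a ≠ 0 ∧ ¬ Nm H b a) ∧
    ∀ a a', Fix H a → Fix H a' → ¬ Nm H b a → ¬ Nm H b a' → Nm H b (a * a')

/-- symbols die in every quadratic extension -/
def SERRE : Prop :=
  ∀ (w : Pl) (H H' : Subgroup GQ) (a b : Om), w.Loc H → w.Loc H' → H' ≤ H → H'.relIndex H = 2 →
    Fix H a → Fix H b → a ≠ 0 → b ≠ 0 → Nm H' b a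

/-- units are norms from unramified quadratic extensions -/
def NU : Prop :=
  ∀ (w : Pl) (H : Subgroup GQ) (b : Om), w.Loc H → w.p ≠ 2 → Fix H b → w.v b = 1 →
    (∀ a, Fix H a → a ≠ 0 → w.Ev H a → Nm H b a) ∧ (¬ Sq H b → ∀ a, Nm H b a → w.Ev H a)

/-- norms from unramified extensions, and the norm index of cyclic extensions -/
def UNIT : Prop :=
  ∀ (w : Pl) (H H' : Subgroup GQ) (m n : ℕ) (χ : GQ → ZMod m), m = 2 ^ n → w.Loc H → IsCh H χ →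
    IsKer H H' χ →
    ((∀ g ∈ w.I ⊓ H, χ g = 0) → ∀ u, Fix H u → w.v u = 1 → ∃ b, Fix H' b ∧ nrm H H' b = u) ∧
    ∀ (ι : Type) [Fintype ι] (a : ι → Om), (∀ i, Fix H (a i) ∧ a i ≠ 0) →
      H'.relIndex H < Fintype.card ι → ∃ i j, i ≠ j ∧ ∃ b, Fix H' b ∧ nrm H H' b = a i / a j

/-- classes of order two die in every quadratic extension -/
def DIE : Prop :=
  ∀ (w : Pl) (H : Subgroup GQ) (f : GQ → GQ → Om), w.Loc H → Co2 H f → Triv H (f ^ 2) →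
    (∀ H', w.Loc H' → H' ≤ H → H'.relIndex H = 2 → Triv H' f) ∧
    ∀ f', Co2 H f' → Triv H (f' ^ 2) → ¬ Triv H f → ¬ Triv H f' → Triv H (f * f')

/-- classes die in the cyclotomic tower -/
def DIEK : Prop :=
  ∀ (w : Pl) (H : Subgroup GQ) (f : GQ → GQ → Om), w.Loc H → Co2T H f →
    ∃ n₀, ∀ n, n₀ ≤ n → Triv (H ⊓ KP n) f

/-- norms from the layers of the cyclotomic tower -/
def NRMK1 : Prop :=
  ∀ (w : Pl) (n : ℕ) (b : Om), Fix (w.D ⊓ KP n) b → b ≠ 0 →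
    2 ^ n ∣ lg (art w (nrm w.D (w.D ⊓ KP n) b))

/-- the norm groups of the layers of the cyclotomic tower -/
def NRMK : Prop :=
  ∀ (w : Pl) (n : ℕ) (x : Om), Fix w.D x → x ≠ 0 →
    ((∃ b, Fix (w.D ⊓ KP n) b ∧ nrm w.D (w.D ⊓ KP n) b = x) ↔ 2 ^ n ∣ lg (art w x))

/-- existence of the local invariant -/
def INV : Prop := ∀ (w : Pl) (H : Subgroup GQ), w.Loc H → IsNv w H (nv w H)

/-- further properties of the local invariant -/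
def INV2 : Prop :=
  (∀ (w : Pl) (H : Subgroup GQ) (f f' : GQ → GQ → Om), w.Loc H → Co2T H f → Co2 H f' →
    Triv H (f / f') → nv w H f = nv w H f') ∧
  (∀ (w : Pl) (H : Subgroup GQ) (f : GQ → GQ → Om) (k : ℕ), w.Loc H → Co2 H f →
    Triv H (f ^ 2 ^ k) → nv w H f ^ 2 ^ k = 1) ∧
  (∀ (w : Pl) (n : ℕ) (a : Om), Fix w.D a → a ≠ 0 → nv w w.D (cup (Ps' n) a) =
    ec ((lg (art w a) + 2 ^ n * ep (art w a) : ℤ_[2]) / 2 ^ (n + 1))) ∧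
  ∀ (w : Pl) (a β : Om), Fix w.D a → a ≠ 0 → β ≠ 0 → Fix w.D (β ^ 2) →
    (Nm w.D (β ^ 2) a → nv w w.D (cup (qc β) a) = 1) ∧
    (¬ Nm w.D (β ^ 2) a → nv w w.D (cup (qc β) a) = -1)

/-- local duality -/
def LD : Prop :=
  ∀ (w : Pl) (H : Subgroup GQ) (M : Type) [AddCommGroup M] (ρ : GQ → M →+ M), w.Loc H → Uni H ρ →
    ∀ x, Co1 H ρ x → (∀ y, CoD H ρ y → Triv H (prD ρ x y)) → ∃ m, ∀ g ∈ H, x g = ρ g m - m

/-- the local Euler characteristic, as an inequality -/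
def EP : Prop :=
  ∀ (w : Pl) (M : Type) [AddCommGroup M] (ρ : GQ → M →+ M), w.p = 2 → Uni w.D ρ →
    {c : GQ → M | Co1 w.D ρ c ∧ ∀ g, g ∉ w.D → c g = 0}.Finite ∧
    {c : GQ → M | Co1 w.D ρ c ∧ ∀ g, g ∉ w.D → c g = 0}.ncard ≤
      Nat.card M ^ 2 * {f : AddChar M Om | ∀ g ∈ w.D, ∀ m, g (f m) = f (ρ g m)}.ncard

/-! ### Layer C: global class field theory -/

/-- the number of places below `R` that do not split in a quadratic extension -/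
noncomputable def nNs (U : Subgroup GQ) (R : Set Pl) (b : Om) : ℕ :=
  nOrb U {w ∈ R | ¬ Sq (w.D ⊓ U) b}

/-- the first inequality -/
def FIRST : Prop :=
  ∀ (U : Subgroup GQ) (b : Om), IsOpen (U : Set GQ) → TC U → Fix U b → b ≠ 0 → ¬ Sq U b →
    ∃ R₁ : Set Pl, R₁.Finite ∧ ∀ R : Set Pl, R.Finite → R₁ ⊆ R →
      (NmS U b).relIndex (SU U R) ≠ 0 ∧ 2 * (NmS U b).relIndex (SU U R) ≤ 2 ^ nNs U R b

/-- `T` is a set of odd places at which the `S`-units take all quadratic characters -/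
def Aux (U : Subgroup GQ) (R : Set Pl) (T : Finset Pl) : Prop :=
  Sep U T ∧ (∀ w ∈ T, w.p ≠ 2 ∧ Out U R w) ∧
    ∀ T' ⊆ T, ∃ u ∈ SU U R, ∀ w ∈ T, (Sq (w.D ⊓ U) (u : Om) ↔ w ∈ T')

/-- the auxiliary places -/
def TEX : Prop :=
  ∀ (U : Subgroup GQ) (R : Set Pl) (b : Omˣ), IsOpen (U : Set GQ) → TC U → R.Finite → b ∈ SU U R →
    ¬ Sq U b → ∃ T : Finset Pl, Aux U R T ∧ T.card + 1 = U.index / 2 + nOrb U R ∧
      ∀ w ∈ T, Sq (w.D ⊓ U) b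

/-- the key lemma for the second inequality -/
def KEY : Prop :=
  ∀ (U : Subgroup GQ) (R : Set Pl) (T : Finset Pl), IsOpen (U : Set GQ) → TC U → R.Finite →
    Kill U R → (∀ w, Out U R w → w.p ≠ 2) → Aux U R T →
    ∀ y ∈ SU U (R ∪ T), (∀ w ∈ R, Sq (w.D ⊓ U) y) → Sq U y

/-- the Hasse norm theorem for quadratic extensions -/
def HASSE : Prop :=
  ∀ (U : Subgroup GQ) (a b : Om), IsOpen (U : Set GQ) → TC U → Fix U a → Fix U b → a ≠ 0 → b ≠ 0 →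
    (∀ w : Pl, Nm (w.D ⊓ U) b a) → Nm U b a

/-- the Hasse principle for the Brauer group -/
def ABHN : Prop :=
  ∀ (U : Subgroup GQ) (f : GQ → GQ → Om), IsOpen (U : Set GQ) → TC U → Co2T U f →
    (∀ w : Pl, Triv (w.D ⊓ U) f) → Triv U f

/-- the reciprocity law over a totally complex field -/
def REC : Prop :=
  ∀ (U : Subgroup GQ) (f : GQ → GQ → Om) (R : Finset Pl), IsOpen (U : Set GQ) → TC U → Co2T U f →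
    Sep U R → (∀ w, Out U R w → Triv (w.D ⊓ U) f) → ∏ w ∈ R, nv w (w.D ⊓ U) f = 1

/-- the reciprocity law over the rationals -/
def RECQ : Prop :=
  ∀ (f : GQ → GQ → Om) (R : Finset Pl), Co2T ⊤ f → Sep ⊤ R → (∀ w, Out ⊤ R w → Triv w.D f) →
    nvR f * ∏ w ∈ R, nv w w.D f = 1

end Pool.Agent.P.MP_8b7eba_nt.R2
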