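import Pool.Agent.P.MP_8b7eba_nt.R2.PatB
import Pool.Agent.P.MP_8b7eba_nt.R2.IfA

/-! Finite quotients of balls in a 2-adic vector space. -/

namespace Pool.Agent.P.MP_8b7eba_nt.R2

open Filter Topology Module

namespace TKLD

theorem n2 (k : ℕ) : ‖(2 : ℚ_[2]) ^ k‖ = ((2 : ℝ) ^ k)⁻¹ := by
  have : ‖((2 : ℕ) : ℚ_[2])‖ = ((2 : ℕ) : ℝ)⁻¹ := Padic.norm_p
  rw [norm_pow, ← inv_pow]
  exact congrArg (· ^ k) (by simpa using this)

theorem p0 (k : ℕ) : (2 : ℚ_[2]) ^ k ≠ 0 := pow_ne_zero _ two_ne_zero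

theorem ex2 (C : ℝ) : ∃ t : ℕ, C ≤ 2 ^ t := by
  obtain ⟨t, h⟩ := pow_unbounded_of_one_lt C (one_lt_two (α := ℝ))
  exact ⟨t, h.le⟩

section

variable {V : Type} [NormedAddCommGroup V] [IsUltrametricDist V]

theorem uadd {a b : V} {R : ℝ} (ha : ‖a‖ ≤ R) (hb : ‖b‖ ≤ R) : ‖a + b‖ ≤ R :=
  (IsUltrametricDist.norm_add_le_max a b).trans (max_le ha hb)

theorem usub {a b : V} {R : ℝ} (ha : ‖a‖ ≤ R) (hb : ‖b‖ ≤ R) : ‖a - b‖ ≤ R := by
  rw [sub_eq_add_neg]; exact uadd ha (by rwa [norm_neg])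

theorem usum {ι : Type} {s : Finset ι} {f : ι → V} {R : ℝ} (h0 : 0 ≤ R) (h : ∀ j ∈ s, ‖f j‖ ≤ R) :
    ‖∑ j ∈ s, f j‖ ≤ R :=
  IsUltrametricDist.norm_sum_le_of_forall_le_of_nonneg h0 h

end

section

variable {V : Type} [NormedAddCommGroup V] [NormedSpace ℚ_[2] V]

theorem nsm (k : ℕ) (v : V) : ‖(2 : ℚ_[2]) ^ k • v‖ = ‖v‖ / 2 ^ k := by
  rw [norm_smul, n2, div_eq_inv_mul]

theorem nsm' (k : ℕ) (v : V) : ‖((2 : ℚ_[2]) ^ k)⁻¹ • v‖ = 2 ^ k * ‖v‖ := by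
  rw [norm_smul, norm_inv, n2, inv_inv]

theorem ble {k : ℕ} {v : V} : ‖(2 : ℚ_[2]) ^ k • v‖ ≤ 1 ↔ ‖v‖ ≤ 2 ^ k := by
  rw [nsm, div_le_one (by positivity)]

/-- the unit ball is a lattice -/
theorem lat (V : Type) [NormedAddCommGroup V] [NormedSpace ℚ_[2] V] [IsUltrametricDist V]
    [FiniteDimensional ℚ_[2] V] : ∃ T : V ≃ₗ[ℚ_[2]] (Fin (finrank ℚ_[2] V) → ℚ_[2]),
      ∀ v, ‖v‖ ≤ 1 ↔ ∀ j, ‖T v j‖ ≤ 1 := by
  let _ : Module ℤ_[2] V := Module.compHom V (algebraMap ℤ_[2] ℚ_[2])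
  have sm : ∀ (a : ℤ_[2]) (v : V), a • v = (a : ℚ_[2]) • v := fun _ _ => rfl
  have : IsScalarTower ℤ_[2] ℚ_[2] V := ⟨fun a b v => by
    rw [sm, Algebra.smul_def, mul_smul]; rfl⟩
  let L : Submodule ℤ_[2] V :=
    { carrier := {v | ‖v‖ ≤ 1}
      add_mem' := uadd
      zero_mem' := by simp
      smul_mem' := fun a v hv => by
        change ‖a • v‖ ≤ 1
        rw [sm, norm_smul]
        exact mul_le_one₀ a.2 (norm_nonneg _) hv }
  have mem : ∀ v, v ∈ L ↔ ‖v‖ ≤ 1 := fun _ => Iff.rfl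
  let b := Module.finBasis ℚ_[2] V
  obtain ⟨t, ht⟩ := ex2 ‖LinearMap.toContinuousLinearMap b.equivFun.toLinearMap‖
  have : Submodule.IsLattice ℚ_[2] L := by
    constructor
    · refine Submodule.FG.of_le (T := Submodule.span ℤ_[2]
        (Set.range fun j => ((2 : ℚ_[2]) ^ t)⁻¹ • b j)) (Submodule.fg_span (Set.finite_range _)) ?_
      intro v hv
      have h1 : ∀ j, ‖(2 : ℚ_[2]) ^ t * b.equivFun v j‖ ≤ 1 := fun j => by
        have h2 := (LinearMap.toContinuousLinearMap b.equivFun.toLinearMap).le_opNorm v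
        have h3 : ‖b.equivFun v j‖ ≤ 2 ^ t := (norm_le_pi_norm _ j).trans (h2.trans
          ((mul_le_of_le_one_right (norm_nonneg _) hv).trans ht))
        rw [← smul_eq_mul, nsm]
        exact div_le_one_of_le₀ h3 (by positivity)
      rw [← b.sum_equivFun v]
      refine Submodule.sum_mem _ fun j _ => ?_
      obtain ⟨a, ha⟩ : ∃ a : ℤ_[2], (a : ℚ_[2]) = 2 ^ t * b.equivFun v j := ⟨⟨_, h1 j⟩, rfl⟩
      have : b.equivFun v j • b j = a • ((2 : ℚ_[2]) ^ t)⁻¹ • b j := by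
        rw [sm, smul_smul, ha]
        congr 1
        field_simp
      rw [this]
      exact Submodule.smul_mem _ _ (Submodule.subset_span ⟨j, rfl⟩)
    · refine eq_top_iff.2 fun v _ => ?_
      obtain ⟨u, hu⟩ := ex2 ‖v‖
      have : v = ((2 : ℚ_[2]) ^ u)⁻¹ • (2 : ℚ_[2]) ^ u • v := by
        rw [smul_smul, inv_mul_cancel₀ (p0 u), one_smul]
      rw [this]
      refine Submodule.smul_mem _ _ (Submodule.subset_span ?_)
      change ‖_‖ ≤ 1
      rw [nsm]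
      exact div_le_one_of_le₀ hu (by positivity)
  let c := Module.Free.chooseBasis ℤ_[2] L
  let e := c.extendOfIsLattice ℚ_[2]
  let e' := e.reindex (Fintype.equivFinOfCardEq (finrank_eq_card_basis e).symm)
  refine ⟨e'.equivFun, fun v => ⟨fun hv j => ?_, fun hv => ?_⟩⟩
  · have h1 : v = ∑ i, ((c.repr ⟨v, hv⟩ i : ℤ_[2]) : ℚ_[2]) • e i := by
      have := congrArg Subtype.val (c.sum_repr ⟨v, hv⟩)
      simp only [AddSubmonoidClass.coe_finsetSum, SetLike.val_smul] at this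
      simp only [e, Basis.extendOfIsLattice_apply]
      exact this.symm
    have h2 := congrFun (e.repr_sum_self fun i => ((c.repr ⟨v, hv⟩ i : ℤ_[2]) : ℚ_[2]))
    rw [← h1] at h2
    simp only [e', Basis.equivFun_apply, Basis.repr_reindex_apply, h2]
    exact PadicInt.norm_le_one _
  · rw [← e'.sum_equivFun v]
    refine usum zero_le_one fun j _ => ?_
    rw [norm_smul]
    refine mul_le_one₀ (hv j) (norm_nonneg _) ?_
    simp only [e', e, Basis.reindex_apply, Basis.extendOfIsLattice_apply]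
    exact (c _).2

end

/-! ### The additive character -/

theorem ec0 (h : IsEc ec) : ec 0 = 1 := (h.eq_one 0).2 (by simp)

theorem ec_ne (h : IsEc ec) (x : ℚ_[2]) : ec x ≠ 0 := fun e => by
  have := h.add x (-x)
  rw [add_neg_cancel, ec0 h, e, zero_mul] at this
  exact one_ne_zero this

theorem ec_eq (h : IsEc ec) {x y : ℚ_[2]} : ec x = ec y ↔ ‖x - y‖ ≤ 1 := by
  have := h.add (x - y) y
  rw [sub_add_cancel] at this
  rw [← h.eq_one, this]
  exact mul_eq_right₀ (ec_ne h y)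

theorem ec_nat (h : IsEc ec) (x : ℚ_[2]) (n : ℕ) : ec (n * x) = ec x ^ n := by
  induction n with
  | zero => simp [ec0 h]
  | succ n ih => rw [Nat.cast_succ, add_one_mul, h.add, ih, pow_succ]

theorem ec_sum (h : IsEc ec) {ι : Type} (s : Finset ι) (f : ι → ℚ_[2]) :
    ec (∑ j ∈ s, f j) = ∏ j ∈ s, ec (f j) := by
  classical
  induction s using Finset.induction_on with
  | empty => simp [ec0 h]
  | insert a s ha ih => rw [Finset.sum_insert ha, Finset.prod_insert ha, h.add, ih]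

theorem ch_sum {M ι : Type} [AddCommGroup M] (f : AddChar M Om) (s : Finset ι) (g : ι → M) :
    f (∑ j ∈ s, g j) = ∏ j ∈ s, f (g j) := by
  classical
  induction s using Finset.induction_on with
  | empty => simp
  | insert a s ha ih => rw [Finset.sum_insert ha, Finset.prod_insert ha, f.map_add_eq_mul, ih]

/-! ### The quotient of the ball of radius `2 ^ k` by the unit ball -/

/-- `M` is the quotient of the ball of radius `2 ^ k` by the unit ball -/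
structure Bl {V : Type} [NormedAddCommGroup V] [NormedSpace ℚ_[2] V] (k : ℕ) {M : Type}
    [AddCommGroup M] (π : V → M) (σ : M → V) : Prop where
  card : Nat.card M = 2 ^ (k * finrank ℚ_[2] V)
  tor : ∀ m : M, 2 ^ k • m = 0
  le : ∀ m, ‖σ m‖ ≤ 2 ^ k
  sec : ∀ m, π (σ m) = m
  add : ∀ v v', ‖v‖ ≤ 2 ^ k → ‖v'‖ ≤ 2 ^ k → π (v + v') = π v + π v'
  eq : ∀ v v', ‖v‖ ≤ 2 ^ k → ‖v'‖ ≤ 2 ^ k → (π v = π v' ↔ ‖v - v'‖ ≤ 1)
  chr : ∀ f : AddChar M Om, ∃ l : V →ₗ[ℚ_[2]] ℚ_[2], ∀ v, ‖v‖ ≤ 2 ^ k → f (π v) = ec (l v)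

open Classical in
/-- reduction modulo a power of two -/
noncomputable def red (k : ℕ) (t : ℚ_[2]) : ZMod (2 ^ k) :=
  if h : ‖t‖ ≤ 1 then PadicInt.toZModPow k (show ℤ_[2] from ⟨t, h⟩) else 0

theorem red_coe (k : ℕ) (a : ℤ_[2]) : red k a = PadicInt.toZModPow k a := by
  rw [red, dif_pos a.2]; rfl

theorem exists_bl (h : IsEc ec) (V : Type) [NormedAddCommGroup V] [NormedSpace ℚ_[2] V]
    [IsUltrametricDist V] [FiniteDimensional ℚ_[2] V] (k : ℕ) :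
    ∃ (M : Type) (_ : AddCommGroup M) (π : V → M) (σ : M → V), Bl k π σ := by
  obtain ⟨T, hT⟩ := lat V
  have co : ∀ v : V, ‖v‖ ≤ 2 ^ k → ∃ a : Fin (finrank ℚ_[2] V) → ℤ_[2],
      ∀ j, 2 ^ k * T v j = a j := fun v hv =>
    ⟨fun j => ⟨2 ^ k * T v j, by simpa using (hT _).1 (ble.2 hv) j⟩, fun _ => rfl⟩
  let π : V → Fin (finrank ℚ_[2] V) → ZMod (2 ^ k) := fun v j => red k (2 ^ k * T v j)
  let σ : (Fin (finrank ℚ_[2] V) → ZMod (2 ^ k)) → V := fun m =>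
    T.symm fun j => ((m j).val : ℚ_[2]) / 2 ^ k
  have hs : ∀ m j, 2 ^ k * T (σ m) j = (((m j).val : ℤ_[2]) : ℚ_[2]) := fun m j => by
    simp only [σ, LinearEquiv.apply_symm_apply]
    rw [mul_div_cancel₀ _ (p0 k), PadicInt.coe_natCast]
  have le : ∀ m, ‖σ m‖ ≤ 2 ^ k := fun m => ble.1 ((hT _).2 fun j => by
    rw [map_smul, Pi.smul_apply, smul_eq_mul, hs]
    exact PadicInt.norm_le_one _)
  have sec : ∀ m, π (σ m) = m := fun m => funext fun j => by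
    simp only [π]
    rw [hs, red_coe, map_natCast, ZMod.natCast_zmod_val]
  have eq : ∀ v v', ‖v‖ ≤ 2 ^ k → ‖v'‖ ≤ 2 ^ k → (π v = π v' ↔ ‖v - v'‖ ≤ 1) := by
    intro v v' hv hv'
    obtain ⟨a, ha⟩ := co v hv
    obtain ⟨a', ha'⟩ := co v' hv'
    rw [hT, funext_iff]
    refine forall_congr' fun j => ?_
    simp only [π]
    rw [ha, ha', red_coe, red_coe, ← sub_eq_zero, ← map_sub, ← RingHom.mem_ker,
      PadicInt.ker_toZModPow, ← PadicInt.norm_le_pow_iff_mem_span_pow, PadicInt.norm_def,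
      PadicInt.coe_sub, ← ha, ← ha', ← mul_sub, norm_mul, n2, map_sub, Pi.sub_apply, zpow_neg,
      zpow_natCast, Nat.cast_ofNat, mul_le_iff_le_one_right (by positivity)]
  refine ⟨_, inferInstance, π, σ, ?_, fun m => ?_, le, sec, fun v v' hv hv' => ?_, eq, fun f => ?_⟩
  · simp [← pow_mul]
  · funext j
    rw [Pi.smul_apply, nsmul_eq_mul, ZMod.natCast_self, zero_mul, Pi.zero_apply]
  · obtain ⟨a, ha⟩ := co v hv
    obtain ⟨a', ha'⟩ := co v' hv'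
    funext j
    simp only [π, Pi.add_apply, map_add, mul_add]
    rw [ha, ha', ← PadicInt.coe_add, red_coe, red_coe, red_coe, map_add]
  · have : ∀ j, ∃ m : ℤ, f (Pi.single j 1) = ec (m / 2 ^ k) := fun j => h.surj k _ (by
      rw [← AddChar.map_nsmul_eq_pow, ← Pi.single_smul, nsmul_eq_mul, ZMod.natCast_self, zero_mul,
        Pi.single_zero, AddChar.map_zero_eq_one])
    choose m hm using this
    let l : V →ₗ[ℚ_[2]] ℚ_[2] := ∑ j, (m j : ℚ_[2]) • (LinearMap.proj j).comp T.toLinearMap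
    have hl : ∀ v, l v = ∑ j, m j * T v j := fun v => by simp [l]
    refine ⟨l, fun v hv => ?_⟩
    have h1 : ‖v - σ (π v)‖ ≤ 1 := (eq _ _ hv (le _)).1 (sec _).symm
    have h2 : ec (l v) = ec (l (σ (π v))) := (ec_eq h).2 (by
      rw [← map_sub, hl]
      refine usum zero_le_one fun j _ => ?_
      rw [norm_mul]
      exact mul_le_one₀ (Padic.norm_int_le_one _) (norm_nonneg _) ((hT _).1 h1 j))
    rw [h2, hl, ec_sum h]
    generalize π v = u
    have h3 : u = ∑ j, (u j).val • Pi.single j 1 := by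
      conv_lhs => rw [← Finset.univ_sum_single u]
      refine Finset.sum_congr rfl fun j _ => ?_
      rw [← Pi.single_smul, nsmul_eq_mul, mul_one, ZMod.natCast_zmod_val]
    conv_lhs => rw [h3]
    rw [ch_sum]
    refine Finset.prod_congr rfl fun j _ => ?_
    rw [AddChar.map_nsmul_eq_pow, hm, ← ec_nat h]
    simp only [σ, LinearEquiv.apply_symm_apply]
    congr 1
    ring

section

variable {V : Type} [NormedAddCommGroup V] [NormedSpace ℚ_[2] V] {k : ℕ} {M : Type}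
  [AddCommGroup M] {π : V → M} {σ : M → V} {G : Subgroup GQ} {r : GQ → V →ₗ[ℚ_[2]] V}

theorem Bl.fin (h : Bl k π σ) : Finite M := Nat.finite_of_card_ne_zero (by rw [h.card]; positivity)

theorem Bl.zero (h : Bl k π σ) : π 0 = 0 := by
  have := h.add 0 0 (by simp) (by simp)
  rwa [add_zero, left_eq_add] at this

theorem Bl.eq_zero (h : Bl k π σ) {v : V} (hv : ‖v‖ ≤ 1) : π v = 0 := by
  rw [← h.zero, h.eq _ _ (hv.trans (one_le_pow₀ one_le_two)) (by simp), sub_zero]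
  exact hv

theorem Bl.inj (h : Bl k π σ) {m m' : M} (e : ‖σ m - σ m'‖ ≤ 1) : m = m' := by
  rw [← h.sec m, ← h.sec m', h.eq _ _ (h.le _) (h.le _)]
  exact e

variable [IsUltrametricDist V]

theorem Bl.sub (h : Bl k π σ) {v v' : V} (hv : ‖v‖ ≤ 2 ^ k) (hv' : ‖v'‖ ≤ 2 ^ k) :
    π (v - v') = π v - π v' := by
  rw [eq_sub_iff_add_eq, ← h.add _ _ (usub hv hv') hv', sub_add_cancel]

/-- the action on the quotient -/
theorem Bl.act (h : Bl k π σ) (hr : Rep G r) :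
    ∃ ρ : GQ → M →+ M, Uni G ρ ∧ ∀ g v, ‖v‖ ≤ 2 ^ k → ρ g (π v) = π (r g v) := by
  have l1 : ∀ g v, ‖v‖ ≤ 2 ^ k → ‖r g v‖ ≤ 2 ^ k := fun g v hv => (hr.le g v).trans hv
  have key : ∀ g v, ‖v‖ ≤ 2 ^ k → π (r g (σ (π v))) = π (r g v) := fun g v hv => by
    rw [h.eq _ _ (l1 _ _ (h.le _)) (l1 _ _ hv), ← map_sub]
    exact (hr.le _ _).trans ((h.eq _ _ (h.le _) hv).1 (h.sec _))
  let ρ : GQ → M →+ M := fun g => AddMonoidHom.mk' (fun m => π (r g (σ m))) fun m m' => by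
    rw [← h.add _ _ (l1 _ _ (h.le _)) (l1 _ _ (h.le _)), ← map_add,
      ← key g _ (uadd (h.le m) (h.le m')), h.add _ _ (h.le _) (h.le _), h.sec, h.sec]
  have e : ∀ g m, ρ g m = π (r g (σ m)) := fun _ _ => rfl
  have mul : ∀ g ∈ G, ∀ g' ∈ G, ∀ m, ρ (g * g') m = ρ g (ρ g' m) := fun g hg g' hg' m => by
    rw [e, e, e, key _ _ (l1 _ _ (h.le _)), hr.mul g hg g' hg']
  have sm : ∀ g, (∀ v, ‖r g v - v‖ ≤ (2 ^ k)⁻¹ * ‖v‖) → ∀ m, ρ g m = m := fun g hg m => by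
    rw [e]
    conv_rhs => rw [← h.sec m]
    rw [h.eq _ _ (l1 _ _ (h.le _)) (h.le _)]
    exact (hg _).trans (by rw [inv_mul_le_iff₀ (by positivity), mul_one]; exact h.le m)
  refine ⟨ρ, ⟨h.fin, ⟨k, h.tor⟩, fun m => by rw [e, hr.one, h.sec], mul, ?_, fun g hg => ?_⟩, key⟩
  · obtain ⟨N, hN, h1⟩ := hr.sm (2 ^ k)⁻¹ (by positivity)
    exact ⟨N, hN, fun g hg n hn hn' => AddMonoidHom.ext fun m => by
      rw [mul g hg n hn, sm n (h1 n hn hn')]⟩
  · obtain ⟨t, h1⟩ := hr.pow g hg (2 ^ k)⁻¹ (by positivity)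
    exact ⟨t, sm _ h1⟩

/-- an approximate cocycle defines a cocycle with values in the quotient -/
theorem Bl.co1 (h : Bl k π σ) (hr : Rep G r) {ρ : GQ → M →+ M}
    (hρ : ∀ g v, ‖v‖ ≤ 2 ^ k → ρ g (π v) = π (r g v)) {c : GQ → V} (hu : Uc G c)
    (hb : ∀ g, ‖c g‖ ≤ 2 ^ k) (hc : ∀ g ∈ G, ∀ g' ∈ G, ‖c (g * g') - c g - r g (c g')‖ ≤ 1) :
    Co1 G ρ fun g => π (c g) := by
  refine ⟨?_, fun g hg g' hg' => ?_⟩
  · obtain ⟨N, hN, h1⟩ := hu 1 one_pos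
    exact ⟨N, hN, fun g hg n hn hn' => (h.eq _ _ (hb _) (hb _)).2 (h1 g hg n hn hn')⟩
  · have l := (hr.le g (c g')).trans (hb g')
    rw [hρ _ _ (hb _), ← h.add _ _ (hb _) l, h.eq _ _ (hb _) (uadd (hb _) l), ← sub_sub]
    exact hc g hg g' hg'

end

/-! ### Bounds for a perfect pairing -/

section

variable {W W' : Type} [NormedAddCommGroup W] [NormedSpace ℚ_[2] W] [FiniteDimensional ℚ_[2] W]
  [NormedAddCommGroup W'] [NormedSpace ℚ_[2] W'] [FiniteDimensional ℚ_[2] W']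

theorem bounds (β : W →ₗ[ℚ_[2]] W' →ₗ[ℚ_[2]] ℚ_[2]) (h : ∀ y, (∀ x, β x y = 0) → y = 0) :
    ∃ C : ℝ, 0 < C ∧ (∀ v y, ‖β v y‖ ≤ C * ‖y‖ * ‖v‖) ∧
      ∀ (k : ℕ) y, (∀ v, ‖v‖ ≤ 2 ^ k → ‖β v y‖ ≤ 1) → ‖y‖ ≤ C / 2 ^ k := by
  let Ψ : W' →ₗ[ℚ_[2]] W →L[ℚ_[2]] ℚ_[2] := LinearMap.toContinuousLinearMap.toLinearMap ∘ₗ β.flip
  have e : ∀ y v, Ψ y v = β v y := fun _ _ => rfl
  obtain ⟨K, -, hK⟩ := Ψ.exists_antilipschitzWith (LinearMap.ker_eq_bot'.2 fun y hy =>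
    h y fun x => by rw [← e, hy]; rfl)
  let A := ‖LinearMap.toContinuousLinearMap Ψ‖
  have hA : 0 ≤ A := ContinuousLinearMap.opNorm_nonneg _
  refine ⟨A + 2 * K + 1, by positivity, fun v y => ?_, fun k y hy => ?_⟩
  · refine ((LinearMap.toContinuousLinearMap Ψ).le_opNorm₂ y v).trans ?_
    gcongr
    change A ≤ _
    linarith [K.coe_nonneg]
  · have h1 : ‖Ψ y‖ ≤ 2 / 2 ^ k := by
      have n : ‖((2 : ℚ_[2]) ^ 1)⁻¹‖ = 2 := by rw [norm_inv, n2]; simp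
      refine ContinuousLinearMap.opNorm_le_of_shell (ε := 2 ^ k) (c := ((2 : ℚ_[2]) ^ 1)⁻¹)
        (by positivity) (by positivity) (by rw [n]; exact one_lt_two) fun v h1 h2 => ?_
      rw [n, div_le_iff₀ two_pos] at h1
      refine (hy v h2.le).trans ?_
      rw [div_mul_eq_mul_div, le_div_iff₀ (by positivity)]
      linarith
    refine (ZeroHomClass.bound_of_antilipschitz Ψ hK y).trans ?_
    refine (mul_le_mul_of_nonneg_left h1 K.coe_nonneg).trans ?_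
    rw [← mul_div_assoc]
    gcongr
    linarith

end

end TKLD

end Pool.Agent.P.MP_8b7eba_nt.R2
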