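import Pool.Agent.P.MP_8b7eba_nt.R2.GrpA
import Pool.Agent.P.MP_8b7eba_nt.R2.PatB
import Pool.Agent.P.MP_8b7eba_nt.R2.TKLDA
import Pool.Agent.P.MP_8b7eba_nt.R2.TLD

/-! Proof of KLD. -/

namespace Pool.Agent.P.MP_8b7eba_nt.R2

open scoped NNReal Matrix
open MP_9c97e9_nt (Pt pm Is ap Sha Split)
open Filter Topology Polynomial Module

namespace TKLD

variable {W W' : Type} [NormedAddCommGroup W] [NormedSpace ℚ_[2] W] [FiniteDimensional ℚ_[2] W]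
  [NormedAddCommGroup W'] [NormedSpace ℚ_[2] W'] [FiniteDimensional ℚ_[2] W']
  {β : W →ₗ[ℚ_[2]] W' →ₗ[ℚ_[2]] ℚ_[2]} {r : GQ → W →ₗ[ℚ_[2]] W} {r' : GQ → W' →ₗ[ℚ_[2]] W'}
  {w : Pl} {G : Subgroup GQ} {φ : GQ} {s s' : ℚ_[2]}

theorem small (C : ℝ) {ε : ℝ} (hε : 0 < ε) : ∀ᶠ k : ℕ in atTop, C / 2 ^ k ≤ ε :=
  (tendsto_const_nhds.div_atTop (tendsto_pow_atTop_atTop_of_one_lt one_lt_two)).eventually
    (ge_mem_nhds hε)

omit [FiniteDimensional ℚ_[2] W] in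
theorem sub1 (v : W) : s • v - v = (s - 1) • v := by rw [sub_smul, one_smul]

omit [FiniteDimensional ℚ_[2] W] in
theorem le_inv (hs : s ≠ 1) {v : W} {R : ℝ} (h : ‖s • v - v‖ ≤ R) : ‖v‖ ≤ ‖(s - 1)⁻¹‖ * R := by
  conv_lhs => rw [← inv_smul_smul₀ (sub_ne_zero.2 hs) v, norm_smul, ← sub1]
  gcongr

/-- the invariants of the cup products with approximate cocycles vanish -/
theorem step1 (h0 : ec 0 = 1) (hPIX : PIX) (hr : Rep w.D r) (hr' : Rep w.D r')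
    (hβ : ∀ g ∈ w.D, ∀ x y, β (r g x) (r' g y) = cq g * β x y) (e' : ∀ v, r' φ v = s' • v)
    (hs' : s' ≠ 1) {x : GS → W} {c : ℕ → GQ → W} (hx : PZ (fun _ => w.D) r x)
    (hc : Ap (fun _ => w.D) c x) (h : ∀ y, PZ (fun _ => w.D) r' y → y (cs φ) = 0 →
      PI (fun _ => w) (fun _ => w.D) (cupS β r' x y) = 0) {C : ℝ} (hC : 0 < C) (i : ℕ) :
    ∀ᶠ k in UF, ∀ d : GQ → W', ((∀ g, ‖d g‖ ≤ C) ∧ Sm w.D d ∧
      ∀ g ∈ w.D, ∀ g' ∈ w.D, ‖d (g * g') - d g - r' g (d g')‖ ≤ C / 2 ^ k) →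
      nv w w.D (fun g h => ec (β (c k g) (r' g (d h)) / 2 ^ i)) = 1 := by
  classical
  refine ev_choice fun f => ?_
  obtain ⟨d, hd, hf⟩ : ∃ d : ℕ → GQ → W', (∀ k, (∀ g, ‖d k g‖ ≤ C) ∧ Sm w.D (d k) ∧
      ∀ g ∈ w.D, ∀ g' ∈ w.D, ‖d k (g * g') - d k g - r' g (d k g')‖ ≤ C / 2 ^ k) ∧
      ∀ k, ((∀ g, ‖f k g‖ ≤ C) ∧ Sm w.D (f k) ∧
      ∀ g ∈ w.D, ∀ g' ∈ w.D, ‖f k (g * g') - f k g - r' g (f k g')‖ ≤ C / 2 ^ k) → d k = f k := by
    refine ⟨fun k => if (∀ g, ‖f k g‖ ≤ C) ∧ Sm w.D (f k) ∧ ∀ g ∈ w.D, ∀ g' ∈ w.D,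
      ‖f k (g * g') - f k g - r' g (f k g')‖ ≤ C / 2 ^ k then f k else fun _ => 0, fun k => ?_,
      fun k hk => if_pos hk⟩
    beta_reduce
    split_ifs with hk
    · exact hk
    · exact ⟨fun _ => by simpa using hC.le, Sm.const _, fun _ _ _ _ => by simp; positivity⟩
  have hA := ap_ul (H := fun _ => w.D) (fun k => (hd k).1) fun k => (hd k).2.1.uc
  generalize (fun g : GS => ul fun k => d k (g k)) = Y at hA
  have hY : PZ (fun _ => w.D) r' Y := pz_of_ac hr' hA fun ε hε =>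
    ((small C hε).filter_mono UF_le).mono fun k hk g hg g' hg' => ((hd k).2.2 g hg g' hg').trans hk
  have le : ∀ _ : ℕ, w.D ≤ w.D := fun _ => le_rfl
  have P := hPIX (fun _ => w) (fun _ => w.D) fun _ => w.loc_D
  obtain ⟨Z, hZ, hZ', hZ''⟩ : ∃ Z, PZ (fun _ => w.D) r' Z ∧ Cob (S1 w.D) r' Z ∧
      Z (cs φ) = Y (cs φ) :=
    ⟨_, pz_cob hr' le ((s' - 1)⁻¹ • Y (cs φ)), ⟨_, fun _ _ => rfl⟩, by
      rw [rS_cs, e', sub1, smul_inv_smul₀ (sub_ne_zero.2 hs')]⟩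
  have h1 := hY.sub hr' hZ
  have h2 := pz2_cup hr hr' le hβ hx h1
  have h3 := pz2_cup hr hr' le hβ hx hZ
  have h4 : cupS β r' x Y = cupS β r' x (Y - Z) + cupS β r' x Z := by
    funext g g'
    simp only [cupS, Pi.add_apply, Pi.sub_apply, hr'.rS_sub, map_sub, sub_add_cancel]
  have h5 : PI (fun _ => w) (fun _ => w.D) (cupS β r' x Y) = 0 := by
    rw [h4, (P _ h2).2.2.2.1 _ h3, h _ h1 (by rw [Pi.sub_apply, hZ'', sub_self]),
      (P _ h3).2.2.2.2.2.1 (cob2_cup_right hr hr' le hβ hx hZ'), add_zero]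
  refine ((P _ (pz2_cup hr hr' le hβ hx hY)).1 _ (ap2_cup hr' le hc hA) i).mono fun k hk hk' => ?_
  rw [h5, zero_div, h0, hf k hk'] at hk
  exact hk

section

variable {k : ℕ} {M : Type} [AddCommGroup M] {π : W → M} {σ : M → W} {ρ : GQ → M →+ M}

omit [FiniteDimensional ℚ_[2] W'] in
/-- characters of the quotient come from vectors -/
theorem lift (hE : IsEc ec) (h : Bl k π σ) (hr : Rep G r)
    (hρ : ∀ g v, ‖v‖ ≤ 2 ^ k → ρ g (π v) = π (r g v)) (hi : ∀ x, (∀ y, β x y = 0) → x = 0)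
    (hβ : ∀ g ∈ G, ∀ x y, β (r g x) (r' g y) = cq g * β x y) :
    ∃ Λ : AddChar M Om → W', ∀ f v, ‖v‖ ≤ 2 ^ k → f (π v) = ec (β v (Λ f)) ∧
      ∀ g ∈ G, g (f (ρ g⁻¹ (π v))) = ec (β v (r' g (Λ f))) := by
  have sj : Function.Surjective β.flip := LinearMap.flip_surjective_iff₁.2
    ((injective_iff_map_eq_zero β).2 fun x hx => hi x fun y => by rw [hx]; rfl)
  have : ∀ f : AddChar M Om, ∃ y, ∀ v, ‖v‖ ≤ 2 ^ k → f (π v) = ec (β v y) := fun f => by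
    obtain ⟨l, hl⟩ := h.chr f
    obtain ⟨y, rfl⟩ := sj l
    exact ⟨y, hl⟩
  choose Λ hΛ using this
  refine ⟨Λ, fun f v hv => ⟨hΛ f v hv, fun g hg => ?_⟩⟩
  rw [hρ _ _ hv, hΛ _ _ ((hr.le _ _).trans hv), hE.gal]
  change ec (cq g * _) = _
  rw [← hβ g hg, ← hr.mul _ hg _ (inv_mem hg), mul_inv_cancel, hr.one]

end

variable [IsUltrametricDist W]

omit [FiniteDimensional ℚ_[2] W'] in
theorem coreA (hE : IsEc ec) (hI : INV) (hL : LD) (hr : Rep w.D r)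
    (hi : ∀ x, (∀ y, β x y = 0) → x = 0)
    (hβ : ∀ g ∈ w.D, ∀ x y, β (r g x) (r' g y) = cq g * β x y) (hφ : φ ∈ w.D)
    (e : ∀ v, r φ v = s • v) (hs : s ≠ 1) {C : ℝ}
    (hC : ∀ (k : ℕ) y, (∀ v, ‖v‖ ≤ 2 ^ k → ‖β v y‖ ≤ 1) → ‖y‖ ≤ C / 2 ^ k) {k : ℕ} {a : GQ → W}
    (hu : Uc w.D a) (hb : ∀ g, ‖a g‖ ≤ 2 ^ k)
    (hc : ∀ g ∈ w.D, ∀ g' ∈ w.D, ‖a (g * g') - a g - r g (a g')‖ ≤ 1) (h0 : ‖a φ‖ ≤ 1)
    (H : ∀ d : GQ → W', ((∀ g, ‖d g‖ ≤ C) ∧ Sm w.D d ∧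
      ∀ g ∈ w.D, ∀ g' ∈ w.D, ‖d (g * g') - d g - r' g (d g')‖ ≤ C / 2 ^ k) →
      nv w w.D (fun g h => ec (β (a g) (r' g (d h)))) = 1) :
    ∀ g ∈ w.D, ‖a g‖ ≤ max 1 ‖(s - 1)⁻¹‖ := by
  obtain ⟨M, _, π, σ, h⟩ := exists_bl hE W k
  obtain ⟨ρ, hU, hρ⟩ := h.act hr
  obtain ⟨Λ, hΛ⟩ := lift hE h hr hρ hi hβ
  have hX := h.co1 hr hρ hu hb hc
  obtain ⟨m, hm⟩ := hL w w.D M ρ w.loc_D hU _ hX fun y hy => by
    have e1 : ∀ g ∈ w.D, ∀ g' ∈ w.D, prD ρ (fun g => π (a g)) y g g' =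
        ec (β (a g) (r' g (Λ (y g')))) := fun g hg g' _ => (hΛ _ _ (hb g)).2 g hg
    have c1 : Co2T w.D fun g g' => ec (β (a g) (r' g (Λ (y g')))) :=
      Co2T.of_pow (k := k) ((TLD.co2 hU hX hy).congr fun g hg g' hg' => (e1 g hg g' hg').symm)
        fun g hg g' hg' => by
          rw [← e1 g hg g' hg', prD, ← map_pow, ← AddChar.map_nsmul_eq_pow, h.tor,
            AddChar.map_zero_eq_one, map_one]
    refine ((hI w _ w.loc_D).inj rfl _ c1 (H (fun g => Λ (y g)) ⟨fun g => ?_, hy.1.comp _,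
      fun g hg g' hg' => hC k _ fun v hv => ?_⟩)).congr e1
    · refine (hC 0 _ fun v hv => ?_).trans_eq (by simp)
      rw [pow_zero] at hv
      rw [← hE.eq_one, ← (hΛ _ _ (hv.trans (one_le_pow₀ one_le_two))).1, h.eq_zero hv,
        AddChar.map_zero_eq_one]
    · rw [sub_sub, map_sub, ← ec_eq hE, map_add, hE.add, ← (hΛ _ _ hv).1, ← (hΛ _ _ hv).1,
        ← (hΛ _ _ hv).2 g hg]
      exact hy.2 g hg g' hg' _
  have l := fun g => (hr.le g (σ m)).trans (h.le m)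
  have h1 : ∀ g ∈ w.D, ‖a g - (r g (σ m) - σ m)‖ ≤ 1 := fun g hg => by
    rw [← h.eq _ _ (hb g) (usub (l g) (h.le m)), h.sub (l g) (h.le m), ← hρ _ _ (h.le m), h.sec]
    exact hm g hg
  have h2 : ‖σ m‖ ≤ max 1 ‖(s - 1)⁻¹‖ := by
    have := usub h0 (h1 φ hφ)
    rw [sub_sub_cancel, e] at this
    exact (le_inv hs this).trans (by simp)
  intro g hg
  have := uadd ((h1 g hg).trans (le_max_left _ _)) (usub ((hr.le g _).trans h2) h2)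
  rwa [sub_add_cancel] at this

theorem partA (hE : IsEc ec) (hI : INV) (hL : LD) (hPIX : PIX) (hr : Rep w.D r) (hr' : Rep w.D r')
    (hi : ∀ x, (∀ y, β x y = 0) → x = 0) (hi' : ∀ y, (∀ x, β x y = 0) → y = 0)
    (hβ : ∀ g ∈ w.D, ∀ x y, β (r g x) (r' g y) = cq g * β x y) (hφ : φ ∈ w.D)
    (e : ∀ v, r φ v = s • v) (e' : ∀ v, r' φ v = s' • v) (hs : s ≠ 1) (hs' : s' ≠ 1) {x : GS → W}
    (hx : PZ (fun _ => w.D) r x) (h0 : x (cs φ) = 0)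
    (h : ∀ y, PZ (fun _ => w.D) r' y → y (cs φ) = 0 →
      PI (fun _ => w) (fun _ => w.D) (cupS β r' x y) = 0) : ∀ g ∈ S1 w.D, x g = 0 := by
  obtain ⟨c, hc⟩ := hx.1
  obtain ⟨B, hB⟩ := hc.bd
  obtain ⟨t, ht⟩ := ex2 B
  obtain ⟨C, hC, -, hC'⟩ := bounds β hi'
  have key : ∀ i : ℕ, ∀ᶠ k in UF, ∀ g ∈ w.D, ‖c k g‖ ≤ max 1 ‖(s - 1)⁻¹‖ / 2 ^ i := fun i => by
    have p : (0 : ℝ) < (2 ^ i)⁻¹ := by positivity
    have q : ∀ v : W, ‖v‖ ≤ (2 ^ i)⁻¹ → ‖((2 : ℚ_[2]) ^ i)⁻¹ • v‖ ≤ 1 := fun v hv => by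
      rwa [nsm', ← le_div_iff₀' (by positivity), one_div]
    have z := (hc.lim _ (cs_mem.2 hφ)).norm.eventually (ge_mem_nhds (by rw [h0, norm_zero]; exact p))
    filter_upwards [step1 (ec0 hE) hPIX hr hr' hβ e' hs' hx hc h hC i, ev_ge (i + t),
      hx.ac hr hc p, z] with k k1 k2 k3 k4 g hg
    have := coreA hE hI hL hr hi hβ hφ e hs hC' (k := k)
      (a := fun g => ((2 : ℚ_[2]) ^ i)⁻¹ • c k g)
      (((hc.uc k).map (((2 : ℚ_[2]) ^ i)⁻¹ • LinearMap.id)).congr fun _ _ => rfl) (fun g => ?_)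
      (fun g hg g' hg' => ?_) (q _ k4) (fun d hd => ?_) g hg
    · rwa [nsm', ← le_div_iff₀' (by positivity)] at this
    · rw [nsm']
      refine (mul_le_mul_of_nonneg_left ((hB k g).trans ht) (by positivity)).trans ?_
      rw [← pow_add]
      exact pow_le_pow_right₀ one_le_two k2
    · rw [map_smul, ← smul_sub, ← smul_sub]
      exact q _ (k3 g hg g' hg')
    · rw [← k1 d hd]
      simp only [map_smul, LinearMap.smul_apply, smul_eq_mul, div_eq_inv_mul]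
  intro g hg
  refine norm_le_zero_iff.1 (le_of_forall_pos_le_add fun ε hε => ?_)
  obtain ⟨i, hi⟩ := (small (max 1 ‖(s - 1)⁻¹‖) hε).exists
  rw [zero_add]
  exact le_of_tendsto (hc.lim g hg).norm (((key i).and hg).mono fun k hk => (hk.1 _ hk.2).trans hi)

/-! ### The Euler characteristic -/

omit [IsUltrametricDist W] [FiniteDimensional ℚ_[2] W] in
theorem sep {ι : Type} [Fintype ι] {x : ι → GS → W} {c : ι → ℕ → GQ → W}
    (hc : ∀ j, Ap (fun _ => G) (c j) (x j))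
    (hl : ∀ a : ι → ℚ_[2], (∀ g ∈ S1 G, ∑ j, a j • x j g = 0) → a = 0) (R : ℝ) :
    ∃ t : ℕ, ∀ᶠ k in UF, ∀ a : ι → ℚ_[2], (∀ g ∈ G, ‖∑ j, a j • c j k g‖ ≤ R) → ‖a‖ ≤ 2 ^ t := by
  by_contra hn
  have n : ‖((2 : ℚ_[2]) ^ 1)⁻¹‖ = 2 := by rw [norm_inv, n2]; simp
  have h1 : ∀ t : ℕ, ∀ᶠ k in UF, ∃ a : ι → ℚ_[2], ‖a‖ ≤ 1 ∧ 2⁻¹ ≤ ‖a‖ ∧
      ∀ g ∈ G, ‖∑ j, a j • c j k g‖ ≤ R / 2 ^ t := fun t => by
    refine (ev_not.1 fun h => hn ⟨t, h⟩).mono fun k hk => ?_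
    push Not at hk
    obtain ⟨a, ha, ha'⟩ := hk
    have p : (0 : ℝ) < 2 ^ t := by positivity
    obtain ⟨d, -, d1, d2, -⟩ := rescale_to_shell (c := ((2 : ℚ_[2]) ^ 1)⁻¹)
      (by rw [n]; exact one_lt_two) one_pos (norm_pos_iff.1 (p.trans ha'))
    refine ⟨d • a, d1.le, by rwa [n, one_div] at d2, fun g hg => ?_⟩
    simp only [Pi.smul_apply, smul_assoc, ← Finset.smul_sum]
    rw [norm_smul] at d1 ⊢
    rw [le_div_iff₀ p, mul_right_comm]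
    refine (mul_le_of_le_one_left (norm_nonneg _) ?_).trans (ha g hg)
    exact (mul_le_mul_of_nonneg_left ha'.le (norm_nonneg _)).trans d1.le
  obtain ⟨i, hi, h2⟩ := ev_diag h1
  obtain ⟨a, ha⟩ := (h2.mono fun k hk => hk _ le_rfl).choice
  have h3 := tendsto_ul (ha.mono fun k hk => hk.1)
  have h4 := ge_of_tendsto h3.norm (ha.mono fun k hk => hk.2.1)
  rw [hl (ul a) fun g hg => ?_, norm_zero] at h4
  · norm_num at h4
  refine norm_le_zero_iff.1 (le_of_forall_pos_le_add fun ε hε => ?_)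
  rw [zero_add]
  refine le_of_tendsto (tendsto_finsetSum _ fun j _ =>
    (tendsto_pi_nhds.1 h3 j).smul ((hc j).lim g hg)).norm ?_
  filter_upwards [ha, hg, hi.eventually (small R hε)] with k k1 k2 k3
  exact (k1.2.2 _ k2).trans k3

omit [IsUltrametricDist W] in
/-- the number of invariant characters is bounded -/
theorem inv_le [IsUltrametricDist W'] (hE : IsEc ec) (hr : Rep G r)
    (hi : ∀ x, (∀ y, β x y = 0) → x = 0) (hi' : ∀ y, (∀ x, β x y = 0) → y = 0)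
    (hβ : ∀ g ∈ G, ∀ x y, β (r g x) (r' g y) = cq g * β x y) (hφ : φ ∈ G)
    (e' : ∀ v, r' φ v = s' • v) (hs' : s' ≠ 1) : ∃ N : ℕ, ∀ (k : ℕ) (M : Type) [AddCommGroup M]
      (π : W → M) (σ : M → W) (ρ : GQ → M →+ M), Bl k π σ →
      (∀ g v, ‖v‖ ≤ 2 ^ k → ρ g (π v) = π (r g v)) →
      {f : AddChar M Om | ∀ g ∈ G, ∀ m, g (f m) = f (ρ g m)}.ncard ≤ N := by
  obtain ⟨C, hC, h1, h2⟩ := bounds β hi'
  obtain ⟨u, hu⟩ := ex2 C
  obtain ⟨t, ht⟩ := ex2 (2 ^ u * (‖(s' - 1)⁻¹‖ * C))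
  obtain ⟨M', _, π', σ', h'⟩ := exists_bl hE W' t
  refine ⟨Nat.card M', fun k M _ π σ ρ h hρ => ?_⟩
  obtain ⟨Λ, hΛ⟩ := lift hE h hr hρ hi hβ
  have := h'.fin
  have b : ∀ f : AddChar M Om, (∀ g ∈ G, ∀ m, g (f m) = f (ρ g m)) →
      ‖((2 : ℚ_[2]) ^ (u + k))⁻¹ • Λ f‖ ≤ 2 ^ t := fun f hf => by
    have : ‖s' • Λ f - Λ f‖ ≤ C / 2 ^ k := h2 k _ fun v hv => by
      rw [map_sub, ← ec_eq hE, ← e', ← (hΛ f v hv).2 φ hφ, ← (hΛ f v hv).1, hf φ hφ, hρ _ _ hv,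
        hρ _ _ ((hr.le _ _).trans hv), ← hr.mul _ hφ _ (inv_mem hφ), mul_inv_cancel, hr.one]
    rw [nsm']
    refine (mul_le_mul_of_nonneg_left (le_inv hs' this) (by positivity)).trans (le_trans ?_ ht)
    rw [pow_add]
    field_simp
    exact le_rfl
  rw [← Set.ncard_univ]
  refine Set.ncard_le_ncard_of_injOn (fun f => π' (((2 : ℚ_[2]) ^ (u + k))⁻¹ • Λ f))
    (fun _ _ => Set.mem_univ _) fun f hf f' hf' e => ?_
  rw [h'.eq _ _ (b f hf) (b f' hf'), ← smul_sub, nsm', pow_add] at e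
  ext m
  rw [← h.sec m, (hΛ _ _ (h.le m)).1, (hΛ _ _ (h.le m)).1, ec_eq hE, ← map_sub]
  refine (h1 _ _).trans (le_trans ?_ e)
  rw [mul_right_comm]
  gcongr
  exact h.le m

theorem coreB (hE : IsEc ec) (hEP : EP) (h2 : w.p = 2) (hr : Rep w.D r) (hφ : φ ∈ w.D)
    (e : ∀ v, r φ v = s • v) (hs : s ≠ 1) {N : ℕ}
    (hN : ∀ (k : ℕ) (M : Type) [AddCommGroup M] (π : W → M) (σ : M → W) (ρ : GQ → M →+ M),
      Bl k π σ → (∀ g v, ‖v‖ ≤ 2 ^ k → ρ g (π v) = π (r g v)) →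
      {f : AddChar M Om | ∀ g ∈ w.D, ∀ m, g (f m) = f (ρ g m)}.ncard ≤ N)
    {ι : Type} [Fintype ι] {c : ι → GQ → W} {t u i : ℕ} (hu : ∀ j, Uc w.D (c j))
    (hb : ∀ j g, ‖c j g‖ ≤ 2 ^ t)
    (hc : ∀ j, ∀ g ∈ w.D, ∀ g' ∈ w.D, ‖c j (g * g') - c j g - r g (c j g')‖ ≤ (2 ^ i)⁻¹)
    (h0 : ∀ j, ‖c j φ‖ ≤ (2 ^ i)⁻¹) (hs' : max 1 ‖(s - 1)⁻¹‖ ≤ 2 ^ u)
    (hl : ∀ a : ι → ℚ_[2], (∀ g ∈ w.D, ‖∑ j, a j • c j g‖ ≤ max 1 ‖(s - 1)⁻¹‖) → ‖a‖ ≤ 2 ^ u) :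
    2 ^ (i * (Fintype.card ι + finrank ℚ_[2] W)) ≤ (2 ^ ((i + t) * finrank ℚ_[2] W)) ^ 2 * N *
      2 ^ (u * (Fintype.card ι + finrank ℚ_[2] W)) := by
  classical
  obtain ⟨M, _, π, σ, h⟩ := exists_bl hE W (i + t)
  obtain ⟨ρ, hU, hρ⟩ := h.act hr
  have : IsUltrametricDist ((ι → ℚ_[2]) × W) :=
    IsUltrametricDist.isUltrametricDist_of_forall_norm_add_le_max_norm fun p q =>
      norm_prod_le_iff.2 ⟨uadd (le_max_of_le_left (norm_fst_le p))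
        (le_max_of_le_right (norm_fst_le q)), uadd (le_max_of_le_left (norm_snd_le p))
        (le_max_of_le_right (norm_snd_le q))⟩
  obtain ⟨A, _, πA, σA, hA⟩ := exists_bl hE ((ι → ℚ_[2]) × W) i
  obtain ⟨B, _, πB, σB, hB⟩ := exists_bl hE ((ι → ℚ_[2]) × W) u
  obtain ⟨fin, hZ⟩ := hEP w M ρ h2 hU
  let F : (ι → ℚ_[2]) × W → GQ → W := fun p g => ∑ j, p.1 j • c j g + (r g p.2 - p.2)
  have sub : ∀ p q g, F (p - q) g = F p g - F q g := fun p q g => by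
    simp only [F, Prod.fst_sub, Prod.snd_sub, Pi.sub_apply, sub_smul, Finset.sum_sub_distrib,
      map_sub]
    abel
  have s1 : ∀ (a : ι → ℚ_[2]) (v : ι → W) (R : ℝ), 0 ≤ R → ‖a‖ ≤ 2 ^ i → (∀ j, ‖v j‖ ≤ R) →
      ‖∑ j, a j • v j‖ ≤ 2 ^ i * R := fun a v R hR ha hv =>
    usum (by positivity) fun j _ => by
      rw [norm_smul]
      exact mul_le_mul ((norm_le_pi_norm a j).trans ha) (hv j) (norm_nonneg _) (by positivity)
  have s2 : ∀ (a : ι → ℚ_[2]) (v : ι → W), ‖a‖ ≤ 2 ^ i → (∀ j, ‖v j‖ ≤ (2 ^ i)⁻¹) →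
      ‖∑ j, a j • v j‖ ≤ 1 := fun a v ha hv =>
    (s1 a v _ (by positivity) ha hv).trans_eq (mul_inv_cancel₀ (by positivity))
  have bd : ∀ p g, ‖p‖ ≤ 2 ^ i → ‖F p g‖ ≤ 2 ^ (i + t) := fun p g hp => by
    have : ‖p.2‖ ≤ 2 ^ (i + t) :=
      ((norm_snd_le p).trans hp).trans (pow_le_pow_right₀ one_le_two (Nat.le_add_right _ _))
    exact uadd ((s1 _ _ _ (by positivity) ((norm_fst_le p).trans hp) fun j => hb j g).trans_eq
      (pow_add _ _ _).symm) (usub ((hr.le _ _).trans this) this)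
  have uc : ∀ p, Uc w.D (F p) := fun p => by
    have u1 : Uc w.D (∑ j, p.1 j • c j) := Finset.sum_induction _ _ (fun _ _ => Uc.add)
      (Sm.const 0).uc fun j _ => ((hu j).map (p.1 j • LinearMap.id)).congr fun _ _ => rfl
    refine (u1.add ((hr.uc (Sm.const p.2).uc).add (Sm.const (-p.2)).uc)).congr fun g _ => ?_
    simp [F, sub_eq_add_neg]
  have co : ∀ p, ‖p‖ ≤ 2 ^ i → Co1 w.D ρ fun g => π (F p g) := fun p hp =>
    h.co1 hr hρ (uc p) (fun g => bd p g hp) fun g hg g' hg' => by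
      refine le_of_eq_of_le (congrArg _ ?_) (s2 _ _ ((norm_fst_le p).trans hp)
        fun j => hc j g hg g' hg')
      simp only [F, smul_sub, Finset.sum_sub_distrib, map_add, map_sub, map_sum, map_smul,
        hr.mul g hg g' hg']
      abel
  let Φ : A → {c : GQ → M | Co1 w.D ρ c ∧ ∀ g, g ∉ w.D → c g = 0} := fun p =>
    ⟨fun g => if g ∈ w.D then π (F (σA p) g) else 0,
      ⟨(co _ (hA.le p)).1.congr fun g hg => if_pos hg, fun g hg g' hg' => by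
        simp only [if_pos hg, if_pos hg', if_pos (mul_mem hg hg')]
        exact (co _ (hA.le p)).2 g hg g' hg'⟩, fun g hg => if_neg hg⟩
  have fb : ∀ p q, Φ p = Φ q → ‖σA p - σA q‖ ≤ 2 ^ u := fun p q e1 => by
    have h1 : ∀ g ∈ w.D, ‖F (σA p - σA q) g‖ ≤ 1 := fun g hg => by
      have := congrFun (congrArg Subtype.val e1) g
      simp only [Φ, if_pos hg] at this
      rwa [sub, ← h.eq _ _ (bd _ _ (hA.le p)) (bd _ _ (hA.le q))]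
    have h3 := usub (hA.le p) (hA.le q)
    generalize σA p - σA q = z at h1 h3
    have h4 : ‖z.2‖ ≤ max 1 ‖(s - 1)⁻¹‖ := by
      have := usub (h1 φ hφ) (s2 _ _ ((norm_fst_le z).trans h3) h0)
      rw [add_sub_cancel_left, e] at this
      exact (le_inv hs this).trans (by simp)
    refine norm_prod_le_iff.2 ⟨hl _ fun g hg => ?_, h4.trans hs'⟩
    have := usub ((h1 g hg).trans (le_max_left _ _)) (usub ((hr.le g _).trans h4) h4)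
    rwa [add_sub_cancel_right] at this
  have := fin.to_subtype
  have := hB.fin
  have inj : Function.Injective fun p => (Φ p, πB (σA p - σA (Function.invFun Φ (Φ p)))) := by
    intro p q e1
    obtain ⟨e2, e3⟩ := Prod.mk.inj e1
    rw [hB.eq _ _ (fb _ _ (Function.invFun_eq ⟨p, rfl⟩).symm)
      (fb _ _ (Function.invFun_eq ⟨q, rfl⟩).symm), e2, sub_sub_sub_cancel_right] at e3
    exact hA.inj e3
  have := Nat.card_le_card_of_injective _ inj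
  rw [Nat.card_prod, hA.card, hB.card, Nat.card_coe_set_eq, finrank_prod, finrank_pi] at this
  refine this.trans (Nat.mul_le_mul_right _ (hZ.trans ?_))
  rw [h.card]
  exact Nat.mul_le_mul_left _ (hN _ M π σ ρ h hρ)

end TKLD

open TKLD in
theorem t_KLD (hCF : CF) (hPIX : PIX) : KLD := by
  intro W W' _ _ _ _ _ _ _ _ β r r' w φ s s' h2 hr hr' hi hi' hβ hφ e e' hs hs'
  have hE := hCF.ec.1
  refine ⟨fun x => partA hE hCF.inv hCF.ld hPIX hr hr' hi hi' hβ hφ e e' hs hs', fun M _ hM => ?_⟩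
  by_contra hn
  obtain ⟨x, hx⟩ := exists_linearIndependent_of_le_finrank (not_le.1 hn : _ + 1 ≤ _)
  choose c hc using fun j => (hM _ (x j).2).1.1
  choose B hB using fun j => (hc j).bd
  obtain ⟨t, ht⟩ := ex2 ‖B‖
  obtain ⟨N, hN⟩ := inv_le hE hr hi hi' hβ hφ e' hs'
  obtain ⟨u, hu⟩ := sep hc (fun a ha => funext (Fintype.linearIndependent_iff.1 hx a (by
    ext g
    by_cases hg : g ∈ S1 w.D
    · simpa using ha g hg
    · exact (hM _ (Subtype.property _)).2.2 g hg))) (max 1 ‖(s - 1)⁻¹‖)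
  obtain ⟨u', hu'⟩ := ex2 (max 1 ‖(s - 1)⁻¹‖)
  obtain ⟨n, hn⟩ : ∃ n, finrank ℚ_[2] W = n := ⟨_, rfl⟩
  let i := 2 ^ (2 * t * n) * N * 2 ^ ((u + u') * (n + 1 + n))
  have p : (0 : ℝ) < (2 ^ i)⁻¹ := by positivity
  obtain ⟨k, k1, k2, k3⟩ := (hu.and ((eventually_all.2 fun j => (hM _ (x j).2).1.ac hr (hc j) p).and
    (eventually_all.2 fun j => ((hc j).lim _ (cs_mem.2 hφ)).norm.eventually
      (ge_mem_nhds (by rw [(hM _ (x j).2).2.1, norm_zero]; exact p))))).exists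
  have := coreB hE hCF.ep h2 hr hφ e hs hN (c := fun j => c j k) (t := t) (u := u + u') (i := i)
    (fun j => (hc j).uc k)
    (fun j g => (hB j k g).trans ((le_abs_self _).trans ((norm_le_pi_norm B j).trans ht))) k2 k3
    (hu'.trans (pow_le_pow_right₀ one_le_two (Nat.le_add_left _ _)))
    fun a ha => (k1 a ha).trans (pow_le_pow_right₀ one_le_two (Nat.le_add_right _ _))
  rw [Fintype.card_fin, hn, Nat.succ_eq_add_one] at this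
  have h3 : 2 ^ (2 * i * n) * 2 ^ i ≤ 2 ^ (2 * i * n) * i := by
    refine le_of_eq_of_le (by ring) (this.trans_eq ?_)
    conv_rhs => enter [2]; unfold i
    ring
  exact absurd (Nat.le_of_mul_le_mul_left h3 (by positivity)) (not_le.2 Nat.lt_two_pow_self)

end Pool.Agent.P.MP_8b7eba_nt.R2
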