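import Pool.Agent.P.MP_8b7eba_nt.R2.SelB

/-! Proof of KTRIV, CHEB0. -/

namespace Pool.Agent.P.MP_8b7eba_nt.R2

open scoped NNReal Matrix
open MP_9c97e9_nt (Pt pm Is ap Sha Split)
open Filter Topology Polynomial Module

namespace TKTRIV

theorem mul_le {A B : Mt} {a b : ℝ} (hA : ∀ i j, ‖A i j‖ ≤ a) (hB : ∀ i j, ‖B i j‖ ≤ b) (i j) :
    ‖(A * B) i j‖ ≤ a * b := by
  rw [Matrix.mul_apply, Fin.sum_univ_two]
  refine (IsUltrametricDist.norm_add_le_max _ _).trans (max_le ?_ ?_) <;> rw [norm_mul] <;>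
    exact mul_le_mul (hA _ _) (hB _ _) (norm_nonneg _) ((norm_nonneg _).trans (hA 0 0))

/-- the elements which act trivially at level `k` -/
def Zk (D : Dat) (k : ℕ) : Subgroup GQ where
  carrier := {g | g ∈ D.GK ∧ (∀ i j, ‖(D.T.rho g - 1) i j‖ ≤ (2 ^ (k + 1))⁻¹) ∧ 2 ^ k ∣ D.a g ∧
    g D.dl = D.dl}
  one_mem' := ⟨D.GK.one_mem, fun i j => by simp, by simp [D.an.one], rfl⟩
  mul_mem' := fun {g h} hg hh => ⟨D.GK.mul_mem hg.1 hh.1, fun i j => by
    rw [show D.T.rho (g * h) - 1 = D.T.rho g * (D.T.rho h - 1) + (D.T.rho g - 1) by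
      rw [map_mul, mul_sub, mul_one, sub_add_sub_cancel], Matrix.add_apply]
    exact (IsUltrametricDist.norm_add_le_max _ _).trans (max_le
      ((mul_le (D.T.int g) hh.2.1 i j).trans_eq (one_mul _)) (hg.2.1 i j)), by
    rw [D.an.add g hg.1 h hh.1]
    exact dvd_add hg.2.2.1 hh.2.2.1, by rw [AlgEquiv.mul_apply, hh.2.2.2, hg.2.2.2]⟩
  inv_mem' := fun {g} hg => ⟨D.GK.inv_mem hg.1, fun i j => by
    rw [show D.T.rho g⁻¹ - 1 = -(D.T.rho g⁻¹ * (D.T.rho g - 1)) by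
      rw [mul_sub, ← map_mul, inv_mul_cancel, map_one, mul_one, neg_sub], Matrix.neg_apply, norm_neg]
    exact (mul_le (D.T.int _) hg.2.1 i j).trans_eq (one_mul _), by
    rw [D.an.inv hg.1]
    exact hg.2.2.1.neg_right, by
    conv_lhs => rw [← hg.2.2.2]
    exact BasicP.inv_apply g _⟩

variable {D : Dat} {k : ℕ}

theorem on (D : Dat) (k : ℕ) : ON (Zk D k) := by
  refine ⟨⟨fun g hg s => ⟨D.on.1.conj_mem g hg.1 s, fun i j => ?_, ?_, ?_⟩⟩, ?_⟩
  · rw [show D.T.rho (s * g * s⁻¹) - 1 = D.T.rho s * (D.T.rho g - 1) * D.T.rho s⁻¹ by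
      rw [mul_sub, sub_mul, mul_one, ← map_mul, ← map_mul, ← map_mul, mul_inv_cancel, map_one]]
    simpa using mul_le (mul_le (D.T.int s) hg.2.1) (D.T.int s⁻¹) i j
  · by_cases hs : s ∈ D.GK
    · rw [D.an.conj hs hg.1]; exact hg.2.2.1
    · rw [D.an.dih s hs g hg.1]; exact hg.2.2.1.neg_right
  · show s (g (s⁻¹ D.dl)) = D.dl
    have e : g (s⁻¹ D.dl) = s⁻¹ D.dl := by
      rcases GrpA.pm D.hdl s⁻¹ with e | e
      · rw [e, hg.2.2.2]
      · rw [e, map_neg, hg.2.2.2]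
    rw [e, BasicP.apply_inv]
  · obtain ⟨N, hN, h⟩ := D.T.sm (2 ^ (k + 1))⁻¹ (by positivity)
    obtain ⟨N', hN', h'⟩ := D.an.sm k
    exact open_of_le (N := D.GK ⊓ (N ⊓ (N' ⊓ MulAction.stabilizer GQ D.dl)))
      (D.on.2.inter (hN.2.inter (hN'.2.inter (isOpen_stab _))))
      fun g hg => ⟨hg.1, h g hg.2.1, h' g hg.1 hg.2.2.1, hg.2.2.2⟩

instance (D : Dat) (k : ℕ) : (Zk D k).Normal := (on D k).1

theorem of_Z {g : GQ} (h : D.Z g) : g ∈ Zk D k :=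
  ⟨h.1, fun i j => by simp [h.2.1], by simp [h.2.2.1], h.2.2.2⟩

theorem lim0 : Tendsto (fun k : ℕ => ((2 : ℝ) ^ k)⁻¹) UF (𝓝 0) :=
  (tendsto_inv_atTop_zero.comp (tendsto_pow_atTop_atTop_of_one_lt one_lt_two)).mono_left UF_le

theorem lim1 {f : ℕ → ℚ_[2]} {a : ℚ_[2]} (h : ∀ᶠ k in UF, ‖f k - a‖ ≤ (2 ^ (k + 1))⁻¹) :
    Tendsto f UF (𝓝 a) :=
  tendsto_iff_norm_sub_tendsto_zero.2 (squeeze_zero' (.of_forall fun _ => norm_nonneg _)
    (h.mono fun k hk => hk.trans (by gcongr <;> norm_num)) lim0)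

theorem odd_ne {r : ℕ → ℕ} (h : ∀ k, Odd (r k)) : (ul fun k => (r k : ℚ_[2])) ≠ 0 := by
  have e : ∀ k, ‖(r k : ℚ_[2])‖ = 1 := fun k =>
    Padic.norm_natCast_eq_one_iff.2 ((Nat.coprime_two_left).2 (h k))
  have h1 := (tendsto_ul (B := 1) (.of_forall fun k => (e k).le)).norm
  simp only [e] at h1
  intro h0
  rw [h0, norm_zero] at h1
  exact one_ne_zero (tendsto_nhds_unique tendsto_const_nhds h1)

theorem frob (hA : CP) (l : Kp D) (k : ℕ) : tau * l.F k ∈ Zk D k := by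
  refine ⟨D.mul_mem (hA.karith D.toPre).2.1 (l.out k), fun i j => ?_, l.an k, l.sg k⟩
  rw [show D.T.rho (tau * l.F k) - 1 = D.T.rho tau * (D.T.rho (l.F k) - D.T.rho tau) by
    rw [mul_sub, map_mul, (D.T.tau hA.tau hA.ec).1]]
  exact (mul_le (D.T.int _) (l.rho k) i j).trans_eq (one_mul _)

theorem tau_inv (hA : CP) : tau⁻¹ = tau := inv_eq_of_mul_eq_one_right hA.tau.2.1

theorem tau_odd (hA : CP) {m : ℕ} (hm : Odd m) : tau ^ m = tau := by
  obtain ⟨a, rfl⟩ := hm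
  rw [pow_succ, pow_mul, sq, hA.tau.2.1, one_pow, one_mul]

theorem frob_eq (hA : CP) (l : Kp D) (k : ℕ) : (tau : GQ ⧸ Zk D k) = l.F k :=
  QuotientGroup.eq.2 (by rw [tau_inv hA]; exact frob hA l k)

theorem big (l : Kp D) (k : ℕ) : ¬ ((l.w k).p : ℤ) ∣ 30 * D.d ∧ ¬ (l.w k).p ∣ 30 ∧
    (l.w k).p ≠ 2 ∧ ¬ ((l.w k).p : ℤ) ∣ D.d ∧ ¬ ((l.w k).p : ℤ) ∣ -D.l := by
  have h := l.big k
  have h1 : ¬ (l.w k).p ∣ 30 := fun e =>
    h (((Int.natCast_dvd_natCast.2 e).mul_right _).mul_right _)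
  exact ⟨fun e => h (e.trans ⟨D.l, by ring⟩), h1, fun e => h1 (by rw [e]; norm_num),
    fun e => h (e.mul_left _), fun e => h (((dvd_neg.1 e).mul_left _).mul_right _)⟩

theorem I_le (hA : CP) (l : Kp D) (k : ℕ) : (l.w k).I ≤ Zk D k := fun g hg => by
  obtain ⟨-, h1, h2, h3, h4⟩ := big l k
  have hK : g ∈ D.GK := Pl.I_fix hA.tame hA.res h2 (m := -D.l) (by rw [D.hsk]; push_cast; rfl) h4 hg
  exact of_Z ⟨hK, (hA.tr _ D.T _ h1).1 g hg, D.an.unr _ h2 g ⟨hg, hK⟩,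
    Pl.I_fix hA.tame hA.res h2 D.hdl h3 hg⟩

theorem D_le (hA : CP) (l : Kp D) (k : ℕ) : (l.w k).D ⊓ D.GK ≤ Zk D k := fun g hg => by
  obtain ⟨f, φ, -, -, hφ, hf, -, hd⟩ := hA.frob _ _ (l.w k).loc_D
  obtain ⟨m, i, hi, n, hn, e⟩ := hd _ (on D k) g hg.1
  rw [hf rfl] at hφ
  have h1 : (φ : GQ ⧸ Zk D k) = tau :=
    (QuotientGroup.eq.2 (I_le hA l k (hφ.inv_mul (l.fr k)))).trans (frob_eq hA l k).symm
  have h2 : (g : GQ ⧸ Zk D k) = (tau ^ m : GQ) := by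
    rw [e, QuotientGroup.mk_mul, QuotientGroup.mk_mul, (QuotientGroup.eq_one_iff n).2 hn.1,
      (QuotientGroup.eq_one_iff i).2 (I_le hA l k hi.1), mul_one, mul_one, QuotientGroup.mk_pow,
      QuotientGroup.mk_pow, h1]
  rcases m.even_or_odd with ⟨a, rfl⟩ | hm
  · rw [← two_mul, pow_mul, sq, hA.tau.2.1, one_pow] at h2
    exact (QuotientGroup.eq_one_iff g).1 h2
  · rw [tau_odd hA hm] at h2
    exact absurd ((D.GK.mul_mem_cancel_left (D.GK.inv_mem hg.2)).1 (QuotientGroup.eq.1 h2).1)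
      (hA.karith D.toPre).2.1

theorem St_le : St (Zk D) ≤ S1 D.GK := St_mono (.of_forall fun _ _ h => h.1)

variable {A : Type} [NormedCommRing A] [NormedAlgebra ℚ_[2] A] [IsUltrametricDist A]
  [FiniteDimensional ℚ_[2] A] {ψ : ℤ_[2] → A} {x : GS → Fin 2 → A}

theorem triv (h : IsPsi ψ) {g : GS} (hg : g ∈ St (Zk D)) (v : Fin 2 → A) : rS (D.r ψ) g v = v := by
  refine D.rS_triv h (fun i j => lim1 (hg.mono fun k hk => hk.2.1 i j)) ?_
    (hg.mono fun k hk => hk.2.2.2) v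
  refine tendsto_zero_iff_norm_tendsto_zero.2 (squeeze_zero' (.of_forall fun _ => norm_nonneg _)
    (hg.mono fun k hk => ?_) lim0)
  obtain ⟨c, hc⟩ := hk.2.2.1
  have := PadicInt.norm_p (p := 2)
  rw [Nat.cast_ofNat, Nat.cast_ofNat] at this
  rw [hc, norm_mul, norm_pow, this, inv_pow]
  exact mul_le_of_le_one_right (by positivity) c.norm_le_one

theorem conj (h : IsPsi ψ) (hx : PZ (fun _ => D.GK) (D.r ψ) x) {g g' : GS} (hg : g ∈ St (Zk D))
    (hg' : g' ∈ St (Zk D)) : x (g * g' * g⁻¹) = x g' := by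
  rw [hx.conj (D.rep h) (fun _ => le_rfl) (St_le hg) (St_le hg'), triv h hg,
    triv h (mul_mem (mul_mem hg hg') (inv_mem hg)), add_sub_cancel_left]

omit [IsUltrametricDist A] [FiniteDimensional ℚ_[2] A] in
theorem near (hx : PZ (fun _ => D.GK) (D.r ψ) x) : ∃ N : ℕ → Subgroup GQ, (∀ k, ON (N k)) ∧
    ∀ g ∈ S1 D.GK, ∀ n ∈ S1 D.GK, n ∈ St N → x (g * n) = x g := by
  obtain ⟨c, hc⟩ := hx.1
  choose N h1 h2 using fun k : ℕ => hc.uc k (2 ^ k)⁻¹ (by positivity)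
  refine ⟨N, h1, fun g hg n hn hN => sub_eq_zero.1 (tendsto_nhds_unique
    ((hc.lim _ (mul_mem hg hn)).sub (hc.lim _ hg)) ?_)⟩
  exact tendsto_zero_iff_norm_tendsto_zero.2 (squeeze_zero' (.of_forall fun _ => norm_nonneg _)
    ((hg.and (hn.and hN)).mono fun k hk => h2 k _ hk.1 _ hk.2.1 hk.2.2) lim0)

theorem xt_t (hA : CP) (h : IsPsi ψ) (hx : PZ (fun _ => D.GK) (D.r ψ) x) (l : Kp D) :
    x (l.F * l.t * l.F⁻¹) = -x l.t := by
  obtain ⟨N, hN, h1⟩ := near hx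
  choose r hr h2 using fun k => (hA.tame2 (l.w k) _ (l.w k).p (l.t k) (big l k).2.2.1 (l.w k).loc_D
    (by rw [inf_eq_left.2 (l.w k).I_le_D]; exact (hA.res _ _ (l.w k).loc_D).2.2.2.2.1)
    ⟨l.tI k, (l.tI k).1⟩ (l.mov k) _ (hN k)).2 1 (l.F k) (l.fr k) (map_natCast _ _)
    fun g hg => mul_mem (mul_mem (l.fr k).1 hg) (inv_mem (l.fr k).1)
  have ht : l.t ∈ St (Zk D) := .of_forall fun k => I_le hA l k (l.tI k)
  have hq : (fun k => l.t k ^ (l.w k).p) ∈ St (Zk D) :=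
    .of_forall fun k => pow_mem (I_le hA l k (l.tI k)) _
  set s : GS := l.F * l.t * l.F⁻¹ * (fun k => l.t k ^ (l.w k).p)⁻¹ with hs
  have h3 : ∀ k, s k ∈ Zk D k := fun k => I_le hA l k
    (mul_mem (Pl.conj_mem_I (l.fr k).1 (l.tI k)) (inv_mem (pow_mem (l.tI k) _)))
  have h3' : s ∈ St (Zk D) := .of_forall h3
  have h4 := h1 1 (one_mem _) (fun k => s k ^ r k) (.of_forall fun k => pow_mem (h3 k).1 _)
    (.of_forall fun k => by have := h2 k; rw [pow_one] at this; exact this)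
  rw [one_mul, hx.one (D.rep h), hx.pow (D.rep h) (fun _ => le_rfl) (St_le h3') (triv h h3'),
    smul_eq_zero_iff_right (odd_ne hr)] at h4
  have h5 := hx.2 s (St_le h3') _ (St_le hq)
  rw [h4, triv h h3', zero_add, hs, inv_mul_cancel_right,
    hx.pow (D.rep h) (fun _ => le_rfl) (St_le ht) (triv h ht)] at h5
  have h6 : ∀ i j, Tendsto (fun k => D.T.rho (l.F k) i j) UF (𝓝 (D.T.rho tau i j)) :=
    fun i j => lim1 (.of_forall fun k => l.rho k i j)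
  have h7 := ((h6 0 0).mul (h6 1 1)).sub ((h6 0 1).mul (h6 1 0))
  simp only [← Matrix.det_fin_two, (D.T.tau hA.tau hA.ec).2.1,
    fun k => ((hA.tr _ D.T _ (big l k).2.1).2 _ (l.fr k)).2] at h7
  rw [h5, ul_eq h7, neg_one_smul]

end TKTRIV

open TKTRIV

theorem t_KTRIV (hCP : CP) : KTRIV := by
  intro D l A _ _ _ _ ψ h
  have hF : cs tau * l.F ∈ St (Zk D) := .of_forall (frob hCP l)
  have hp : ∀ k, l.ph k ∈ (l.w k).D ⊓ D.GK := fun k =>
    ⟨mul_mem (l.fr k).1 (l.fr k).1, D.mul_mem (l.out k) (l.out k)⟩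
  have ht : ∀ k, l.t k ∈ (l.w k).I ⊓ D.GK := fun k => ⟨l.tI k, (I_le hCP l k (l.tI k)).1⟩
  have e : (cs tau)⁻¹ = cs tau := by rw [← cs_inv, tau_inv hCP]
  refine ⟨fun g hg => triv h (St_mono (.of_forall (D_le hCP l)) hg), .of_forall hp, .of_forall ht,
    fun x hx => ⟨?_, ?_, fun n hn hl => ⟨hn.unr l.w _ (.of_forall fun k =>
      ⟨ht k, (big l k).1, fun l' h' => hl l' h' k⟩), fun h0 => ⟨hn.pz, hn.off, hn.nz,
        fun w g hg => hn.unr w g (hg.mono fun k hk =>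
          ⟨hk.1, hk.2.1, fun l' h' => hk.2.2 l' (List.mem_cons_of_mem _ h')⟩), hn.bad,
        List.forall_mem_cons.2 ⟨h0, hn.tr⟩⟩⟩⟩⟩
  · rw [Dat.xt, ← conj h hx hF (g' := l.ph) (.of_forall fun k => D_le hCP l k (hp k))]
    congr 2
    rw [mul_inv_rev, e, Kp.ph]
    group
  · have h1 : cs tau * l.F⁻¹ ∈ St (Zk D) := .of_forall fun k => by
      have := (on D k).1.conj_mem _ (inv_mem (frob hCP l k)) tau
      rwa [mul_inv_rev, mul_assoc, mul_assoc, tau_inv hCP, hCP.tau.2.1, mul_one] at this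
    rw [Dat.xt, ← map_neg, ← xt_t hCP h hx l, ← conj h hx h1 (g' := l.F * l.t * l.F⁻¹)
      (.of_forall fun k => I_le hCP l k (Pl.conj_mem_I (l.fr k).1 (l.tI k)))]
    congr 2
    rw [mul_inv_rev, e]
    group

theorem t_CHEB0 (hCP : CP) : CHEB0 := by
  intro D n A _ _ _ _ ψ x y g h hx hy hg
  obtain ⟨N, hN, hN'⟩ := near hx
  obtain ⟨M, hM, hM'⟩ := near hy
  have ht := (hCP.karith D.toPre).2.1
  have key : ∀ k, ∃ (w : Pl) (φ : GQ) (r : ℕ),
      30 * D.l * D.d.natAbs + (n.map fun l => (l.w k).p).sum < w.p ∧ w.IsFrob 1 φ ∧ Odd r ∧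
      ((tau * g k) ^ r)⁻¹ * φ ∈ Zk D k ⊓ (N k ⊓ M k) := fun k => by
    have ho := (on D k).inf ((hN k).inf (hM k))
    obtain ⟨m, hm, h1⟩ := ho.exists_pow (tau * g k)
    obtain ⟨s, r, hr, rfl⟩ := Nat.exists_eq_two_pow_mul_odd hm.ne'
    obtain ⟨w, φ, r', h2, h3, h4, h5⟩ := hCP.genp.2.2 _ ((tau * g k) ^ r) s _ ho (fun e => by
      have := (QuotientGroup.eq_one_iff _).2 e.1
      rw [QuotientGroup.mk_pow, QuotientGroup.mk_mul, (QuotientGroup.eq_one_iff _).2 (of_Z (hg k)),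
        mul_one, ← QuotientGroup.mk_pow, tau_odd hCP hr, QuotientGroup.eq_one_iff] at this
      exact ht this.1) (by rwa [← pow_mul, mul_comm r])
    exact ⟨w, φ, r * r', h2, h3, hr.mul h4, by rwa [pow_mul]⟩
  choose w F r hw hF hr h1 using key
  have h0 : 0 < D.l * D.d.natAbs := mul_pos D.lp.pos (Int.natAbs_pos.2 D.dl_ne.2.2)
  choose t h2 h3 using fun k => Pl.exists_gen hCP.tame hCP.res (w := w k) (by
    have := hw k
    rw [mul_assoc] at this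
    omega)
  have h4 : ∀ k, tau * F k ∈ Zk D k := fun k => by
    have := QuotientGroup.eq.2 (h1 k).1
    rwa [QuotientGroup.mk_pow, QuotientGroup.mk_mul, (QuotientGroup.eq_one_iff _).2 (of_Z (hg k)),
      mul_one, ← QuotientGroup.mk_pow, tau_odd hCP (hr k), QuotientGroup.eq, tau_inv hCP] at this
  have hτ := (D.T.tau hCP.tau hCP.ec).1
  refine ⟨⟨w, F, t, fun k e => ?_, hF, fun k e => ht ((D.GK.mul_mem_cancel_right e).1 (h4 k).1), h2,
    h3, fun k i j => ?_, fun k => (h4 k).2.2.1, fun k => (h4 k).2.2.2⟩, fun l hl k => ?_,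
    ul fun k => (r k : ℚ_[2]), odd_ne hr, ?_⟩
  · have e' : (w k).p ∣ 30 * (D.l * D.d.natAbs) := by
      simpa [Int.natAbs_mul, mul_assoc] using Int.natCast_dvd.1 e
    have := Nat.le_of_dvd (by omega) e'
    have := hw k
    rw [mul_assoc] at this
    omega
  · rw [show D.T.rho (F k) - D.T.rho tau = D.T.rho tau * (D.T.rho (tau * F k) - 1) by
      rw [mul_sub, map_mul, ← mul_assoc, hτ, one_mul, mul_one]]
    exact (mul_le (D.T.int _) (h4 k).2.1 i j).trans_eq (one_mul _)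
  · have := List.single_le_sum (l := n.map fun l => (l.w k).p) (fun _ _ => Nat.zero_le _) _
      (List.mem_map_of_mem hl)
    have := hw k
    show (w k).p ≠ _
    omega
  have h5 : g ∈ St (Zk D) := .of_forall fun k => of_Z (hg k)
  have h6 : cs tau * g * cs tau ∈ St (Zk D) := .of_forall fun k => by
    have := (on D k).1.conj_mem _ (of_Z (hg k)) tau
    rwa [tau_inv hCP] at this
  have h7 : ∀ (z : GS → Fin 2 → A) (L : ℕ → Subgroup GQ), PZ (fun _ => D.GK) (D.r ψ) z →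
      (∀ k, ON (L k)) → (∀ g ∈ S1 D.GK, ∀ n ∈ S1 D.GK, n ∈ St L → z (g * n) = z g) →
      (∀ k, ((tau * g k) ^ r k)⁻¹ * F k ∈ L k) →
      z (F * F) = (ul fun k => (r k : ℚ_[2])) • (z g + mv (D.T.rho tau) (D.xt z g)) := by
    intro z L hz hL hL' h8
    have h9 := mul_mem h6 h5
    have e : ∀ (L : Subgroup GQ) (k), L.Normal → ((tau * g k) ^ r k)⁻¹ * F k ∈ L →
        ((tau * g k * tau * g k) ^ r k)⁻¹ * (F k * F k) ∈ L := fun L k _ h => by
      rw [← QuotientGroup.eq] at h ⊢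
      rw [QuotientGroup.mk_mul, ← h, ← QuotientGroup.mk_mul, mul_assoc (tau * g k),
        (Commute.refl _).mul_pow]
    rw [Dat.xt, ← mv_mul, hτ, mv_one, add_comm, ← triv h h6 (z g), ← hz.2 _ (St_le h6) _ (St_le h5),
      ← hz.pow (D.rep h) (fun _ => le_rfl) (St_le h9) (triv h h9),
      ← hL' (fun k => (cs tau * g * cs tau * g) k ^ r k)
        ((St_le h9).mono fun k hk => pow_mem hk _)
        (fun k => ((tau * g k * tau * g k) ^ r k)⁻¹ * (F k * F k))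
        (.of_forall fun k => (e _ k inferInstance (h1 k).1).1)
        (.of_forall fun k => e _ k (hL k).1 (h8 k))]
    congr 1
    funext k
    exact (mul_inv_cancel_left _ _).symm
  exact ⟨h7 x N hx hN hN' fun k => (h1 k).2.1, h7 y M hy hM hM' fun k => (h1 k).2.2⟩

end Pool.Agent.P.MP_8b7eba_nt.R2
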