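import Pool.Agent.P.MP_8b7eba_nt.R2.TLOC2A

/-! Proof of LOC2. -/

namespace Pool.Agent.P.MP_8b7eba_nt.R2

open scoped NNReal Matrix
open MP_9c97e9_nt (Pt pm Is ap Sha Split)
open Filter Topology Polynomial Module

namespace TLOC2

variable {w : Pl} (T : Tate w) {δ : Om} {m : ℤ}

/-- the diagonal characters -/
noncomputable def th (δ : Om) (i : Fin 2) (g : GQ) : ℚ_[2] →ₗ[ℚ_[2]] ℚ_[2] :=
  LinearMap.mul ℚ_[2] ℚ_[2] (T.rd δ g i i)

theorem up {g : GQ} (hg : g ∈ w.D) : T.rd δ g 1 0 = 0 := by simp [Tate.rd, T.up g hg]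

theorem rq_single (g : GQ) (i : Fin 2) (v : ℚ_[2]) :
    T.rq δ g (Pi.single i v) i = th T δ i g v := by
  fin_cases i <;> simp [Tate.rq_apply, th, Matrix.mulVec, dotProduct]

theorem rep_th (hδ : Fix ⊤ (δ ^ 2)) (i : Fin 2) : Rep w.D (th T δ i) := by
  have h := T.rep hδ
  have key : ∀ g (ε : ℝ), (∀ v, ‖T.rq δ g v - v‖ ≤ ε * ‖v‖) →
      ∀ v, ‖th T δ i g v - v‖ ≤ ε * ‖v‖ := fun g ε H v => by
    have := (norm_le_pi_norm _ i).trans (H (Pi.single i v))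
    rwa [Pi.sub_apply, rq_single, Pi.norm_single, Pi.single_eq_same] at this
  refine ⟨fun v => ?_, fun g hg g' hg' v => ?_, fun g v => ?_, fun ε hε => ?_, fun g _ ε hε => ?_⟩
  · rw [← rq_single, h.one, Pi.single_eq_same]
  · fin_cases i <;> simp [th, T.rd_mul hδ, Matrix.mul_apply, up T hg, up T hg', mul_assoc]
  · rw [← rq_single]
    exact (norm_le_pi_norm _ i).trans ((h.le g _).trans_eq (Pi.norm_single _))
  · obtain ⟨N, a, b⟩ := h.sm ε hε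
    exact ⟨N, a, fun n _ hn => key _ _ (b n trivial hn)⟩
  · obtain ⟨k, b⟩ := h.pow g trivial ε hε
    exact ⟨k, key _ _ b⟩

theorem dim_one (hP : CP) (h2 : w.p = 2) (hδ : δ ^ 2 = m) (hm : m % 8 = 5) {a b : GS → ℚ_[2]}
    (ha : PZ (fun _ => w.D) (th T δ 0) a) (hb : PZ (fun _ => w.D) (th T δ 0) b)
    (hb' : ¬ Cob (S1 w.D) (th T δ 0) b) :
    ∃ l t : ℚ_[2], ∀ g ∈ S1 w.D, a g = l * b g + (rS (th T δ 0) g t - t) := by
  classical
  obtain ⟨φ, hφ, p1, p2⟩ := Pl.exists_f2 hP.toCA h2 hδ hm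
  have r0 := rep_th T (fix_sq hδ) 0
  have ne := (T.det_ne p1 p2).2.2
  have nz : ∀ a, PZ (fun _ => w.D) (th T δ 0) a → ∃ (a' : GS → ℚ_[2]) (t : ℚ_[2]),
      (PZ (fun _ => w.D) (th T δ 0) a' ∧ a' (cs φ) = 0 ∧ ∀ g, g ∉ S1 w.D → a' g = 0) ∧
        ∀ g ∈ S1 w.D, a' g = a g - (rS (th T δ 0) g t - t) := fun a ha => by
    refine ⟨fun g => if g ∈ S1 w.D then a g - (rS (th T δ 0) g _ - _) else 0,
      a (cs φ) / (T.rd δ φ 0 0 - 1), ⟨(ha.sub r0 (pz_cob r0 (fun _ => le_rfl) _)).congr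
        fun g hg => if_pos hg, ?_, fun g hg => if_neg hg⟩, fun g hg => if_pos hg⟩
    have := sub_ne_zero.2 (ne 0)
    beta_reduce
    rw [if_pos (cs_mem.2 hφ), rS_cs, th, LinearMap.mul_apply']
    field_simp; ring
  obtain ⟨a', t, a1, a2⟩ := nz a ha
  obtain ⟨b', t', b1, b2⟩ := nz b hb
  have fd := FiniteDimensional.span_of_finite ℚ_[2] (Set.toFinite {a', b'})
  have h := (hP.kld ℚ_[2] ℚ_[2] (LinearMap.mul _ _) (th T δ 0) (th T δ 1) w φ _ _ h2 r0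
    (rep_th T (fix_sq hδ) 1) (fun x h => by simpa using h 1) (fun x h => by simpa using h 1)
    (fun g hg x y => by
      have h3 := T.det g
      have h4 : (sd δ g : ℚ_[2]) * sd δ g = 1 := by exact_mod_cast sd_sq δ g
      rw [Matrix.det_fin_two, T.up g hg] at h3
      simp only [th, LinearMap.mul_apply', Tate.rd, Matrix.smul_apply, smul_eq_mul]
      linear_combination x * y * h3 + T.rho g 0 0 * T.rho g 1 1 * x * y * h4)
    hφ (fun _ => rfl) (fun _ => rfl) (ne 0) (ne 1)).2 _ fd fun x hx => by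
      induction hx using Submodule.span_induction with
      | mem x hx => rcases hx with rfl | rfl <;> assumption
      | zero => exact ⟨pz_zero, rfl, fun _ _ => rfl⟩
      | add x y _ _ hx hy => exact ⟨hx.1.add r0 hy.1, by simp [hx.2.1, hy.2.1],
          fun g hg => by simp [hx.2.2 g hg, hy.2.2 g hg]⟩
      | smul s x _ hx => exact ⟨hx.1.smul r0 s, by simp [hx.2.1], fun g hg => by simp [hx.2.2 g hg]⟩
  rw [finrank_self, finrank_le_one_iff] at h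
  obtain ⟨u, hu⟩ := h
  obtain ⟨s, hs⟩ := hu ⟨a', Submodule.subset_span (by simp)⟩
  obtain ⟨s', hs'⟩ := hu ⟨b', Submodule.subset_span (by simp)⟩
  have e1 : ∀ g, s * u.1 g = a' g := congrFun (congrArg Subtype.val hs)
  have e2 : ∀ g, s' * u.1 g = b' g := congrFun (congrArg Subtype.val hs')
  have s0 : s' ≠ 0 := fun e => hb' ⟨t', fun g hg => by
    rw [← sub_eq_zero, ← b2 g hg, ← e2, e, zero_mul]⟩
  refine ⟨s / s', t - (s / s') • t', fun g hg => ?_⟩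
  have e3 : a' g = s / s' * b' g := by rw [← e1, ← e2]; field_simp
  rw [a2 g hg, b2 g hg] at e3
  rw [r0.rS_sub, r0.rS_smul, smul_eq_mul, smul_eq_mul]
  linear_combination e3

theorem frac (s : ℚ_[2]) : ∃ j n : ℕ, ‖s - n * (2 ^ j)⁻¹‖ ≤ 1 := by
  obtain ⟨j, hj⟩ := pow_unbounded_of_one_lt ‖s‖ (one_lt_two (α := ℝ))
  have h0 : (0 : ℝ) < 2 ^ j := by positivity
  have h1 : ‖2 ^ j * s‖ ≤ 1 := by
    rw [norm_mul, norm_pow, n2, inv_pow, inv_mul_le_one₀ h0]; exact hj.le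
  obtain ⟨n, hn⟩ := PadicInt.denseRange_natCast.exists_dist_lt (⟨_, h1⟩ : ℤ_[2]) (inv_pos.2 h0)
  have h2 : ‖2 ^ j * s - n‖ < (2 ^ j)⁻¹ := (dist_eq_norm (E := ℤ_[2]) _ _).symm.trans_lt hn
  refine ⟨j, n, ?_⟩
  rw [show s - n * (2 ^ j)⁻¹ = (2 ^ j)⁻¹ * (2 ^ j * s - n) by field_simp, norm_mul, npow,
    ← le_inv_mul_iff₀ h0, mul_one]
  exact h2.le

theorem eps (s : ℚ_[2]) : ∃ ε : ℝ, 0 < ε ∧ ∀ v : V2, ‖v‖ ≤ ε → ‖s • v‖ ≤ 1 := by
  have h0 : 0 < ‖s‖ + 1 := by positivity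
  refine ⟨_, inv_pos.2 h0, fun v hv => ?_⟩
  rw [← one_div, le_div_iff₀ h0] at hv
  rw [norm_smul]
  nlinarith [norm_nonneg v]

end TLOC2

open TLOC2

theorem t_LOC2 (hP : CP) : LOC2 := by
  intro w T δ m h2 hδ hm x hx ⟨v, hv⟩ c hc
  obtain ⟨Q, κ, k1, k2, k3, k4⟩ := kum T hP h2 hδ hm
  have hf := fix_sq hδ
  have hr := T.rep hf
  have co : ∀ g ∈ w.D, ∀ g' ∈ w.D, κ (g * g') = κ g + T.rq δ g (κ g') := fun g hg g' hg' =>
    sub_eq_zero.1 <| small fun i => by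
      rw [smul_sub, ← T.pt_eq, k2 _ (mul_mem hg hg'), smul_add, map_add, k2 g hg, Tate.rq_apply,
        ← Matrix.mulVec_smul, ← T.tgal, k2 g' hg', map_sub, tac_mul hf]
      abel
  have uc : Uc w.D κ := uc_of_cocycle (hr.mono le_top) co fun ε hε => by
    obtain ⟨i, hi⟩ := pow_unbounded_of_one_lt ε⁻¹ (one_lt_two (α := ℝ))
    obtain ⟨N, a, b⟩ := exists_ON_ac {Q i}
    obtain ⟨N', a', b'⟩ := exists_ON_fix {δ}
    refine ⟨_, a.inf a', fun n hn h => ?_⟩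
    have := (T.ker _).1 ((k2 n hn i).trans (by
      rw [tac_apply, sd_eq_one.2 (b' δ (by simp) n h.2), b _ (by simp) n h.1]; simp))
    rw [norm_smul, npow] at this
    rw [inv_lt_iff_one_lt_mul₀ hε] at hi
    exact le_of_mul_le_mul_left (this.trans hi.le) (by positivity)
  have hK := (pz_const (hr.mono le_top) uc co).1
  have aK : Ap (fun _ => w.D) (fun _ => κ) _ := ap_ul (fun _ => k1) fun _ => uc
  have Kc : ∀ g, (fun g : GS => ul fun k => κ (g k)) (cs g) = κ g := fun g =>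
    ul_eq tendsto_const_nhds
  generalize (fun g : GS => ul fun k => κ (g k)) = K at hK aK Kc
  have single : ∀ g ∈ S1 w.D, ∀ s, (Pi.single 0 (rS (th T δ 0) g s) : V2) =
      rS (T.rq δ) g (Pi.single 0 s) := fun g hg s =>
    (rep_th T hf 0).rS_map (W' := V2) (r' := T.rq δ) (g := g) (g' := g) (v := s)
      (LinearMap.single ℚ_[2] (fun _ => ℚ_[2]) 0) (hg.mono fun k hk => by
      ext i
      fin_cases i <;> simp [Tate.rq_apply, th, Matrix.mulVec, dotProduct, up T hk])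
  have proj : ∀ y : GS → V2, PZ (fun _ => w.D) (T.rq δ) y → (∀ g ∈ S1 w.D, y g 1 = 0) →
      PZ (fun _ => w.D) (th T δ 0) fun g => y g 0 := fun y hy h1 =>
    hy.map (LinearMap.proj 0) fun g hg g' hg' => by
      have : y g' = Pi.single 0 (y g' 0) := by
        ext i
        fin_cases i <;> simp [h1 g' hg']
      rw [this, ← single g hg]; simp
  have K1 : ∀ g ∈ S1 w.D, K g 1 = 0 := fun g hg =>
    tendsto_nhds_unique (tendsto_pi_nhds.1 (aK.lim g hg) 1)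
      (tendsto_const_nhds.congr' (hg.mono fun k hk => (k3 _ hk).symm))
  obtain ⟨l, t, h⟩ := dim_one T hP h2 hδ hm
    (proj _ (hx.sub hr (pz_cob hr (fun _ => le_top) v)) hv) (proj K hK K1)
    fun ⟨t, ht⟩ => k4 t fun g hg => by simpa [rS_cs, Kc, th] using ht (cs g) (cs_mem.2 hg)
  have h3 : ∀ g ∈ S1 w.D, (x + fun g => ((-l) • LinearMap.id : V2 →ₗ[ℚ_[2]] V2) (K g)) g =
      rS (T.rq δ) g (v + Pi.single 0 t) - (v + Pi.single 0 t) := fun g hg => by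
    have h4 := h g hg
    have h5 := hv g hg
    rw [hr.rS_add, ← single g hg]
    ext i
    fin_cases i <;> simp [K1 g hg] at h4 h5 ⊢
    · linear_combination h4
    · linear_combination h5
  refine ⟨0, fun i => ?_⟩
  generalize (2 : ℚ_[2]) ^ 0 / 2 ^ i = s
  obtain ⟨ε, hε, hs⟩ := eps s
  obtain ⟨j, n, hn⟩ := frac (s * l)
  filter_upwards [Cob.near hr (hc.add (aK.map _)) (.of_forall fun _ => le_rfl) h3 hε] with k hk
  refine ⟨n • Q j + T.pt (s • (v + Pi.single 0 t)), fun g hg => ?_⟩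
  rw [map_add, add_sub_add_comm, map_nsmul, ← smul_sub, ← k2 g hg, T.tgal, ← map_sub, ← pt_nat,
    ← map_add, T.pt_eq, Matrix.mulVec_smul, ← smul_sub, ← Tate.rq_apply]
  have h4 := hs _ (hk g hg)
  have h5 : ‖(s * l - n * (2 ^ j)⁻¹) • κ g‖ ≤ 1 := by
    rw [norm_smul]; exact mul_le_one₀ hn (norm_nonneg _) (k1 g)
  refine le_of_eq_of_le (congrArg _ ?_)
    ((IsUltrametricDist.norm_add_le_max _ _).trans (max_le h4 h5))
  simp only [Pi.add_apply, LinearMap.smul_apply, LinearMap.id_apply]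
  module

namespace TLOC2

variable {w w₂ : Pl} {δ : Om} {m : ℤ} {C : GQ → EO}

/-- local triviality -/
def LT (δ : Om) (C : GQ → EO) (w : Pl) : Prop := ∃ P, ∀ g ∈ w.D, C g = tac δ g P - P

theorem LT.of_eq (hP : CP) (hf : Fix ⊤ (δ ^ 2)) (co : ∀ g h, C (g * h) = C g + tac δ g (C h))
    (h : LT δ C w₂) (e : w₂.p = w.p) : LT δ C w := by
  obtain ⟨σ, rfl⟩ := hP.pl.2.1 w₂ w e
  obtain ⟨P, h⟩ := h
  refine ⟨tac δ σ P - C σ, fun g hg => ?_⟩
  have h2 := co σ (σ⁻¹ * g * σ)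
  rw [h _ (Pl.mem_D_smul.1 hg), map_sub, ← tac_mul hf, show σ * (σ⁻¹ * g * σ) = g * σ by group, co,
    tac_mul hf] at h2
  rw [map_sub, eq_sub_of_add_eq h2]
  abel

theorem unr (hP : CP) (T : Tate w₂) (hδ : δ ^ 2 = m) (sm : Sm ⊤ C)
    (co : ∀ g h, C (g * h) = C g + tac δ g (C h)) (tor : ∀ g, ∃ v, T.pt v = C g)
    (hw : ¬ (w.p : ℤ) ∣ 30 * m) (hI : ∀ g ∈ w.I, C g = 0) : LT δ C w := by
  have h30 : ¬ w.p ∣ 30 := fun h => hw ((Int.natCast_dvd_natCast.2 h).mul_right m)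
  obtain ⟨t1, t2⟩ := hP.tr w₂ T w h30
  obtain ⟨f, φ, -, -, fr, hf1, -, hg⟩ := hP.frob w w.D w.loc_D
  obtain rfl := hf1 rfl
  obtain ⟨tr, dt⟩ := t2 φ fr
  have hd : (T.rd δ φ - 1).det ≠ 0 := by
    have h1 := abs_le.1 (hP.apb w.p w.prime h30).1
    have h2 : ((w.p - sd δ φ * ap W15 w.p + 1 : ℤ) : ℚ_[2]) ≠ 0 := Int.cast_ne_zero.2 (by
      rcases sd_cases δ φ with e | e <;> rw [e] <;> omega)
    have h4 : (sd δ φ : ℚ_[2]) * sd δ φ = 1 := by exact_mod_cast sd_sq δ φ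
    rw [Matrix.trace_fin_two] at tr
    rw [Matrix.det_fin_two] at dt ⊢
    refine fun e => h2 ?_
    simp [Tate.rd] at e
    push_cast
    linear_combination e - dt + sd δ φ * tr -
      (T.rho φ 0 0 * T.rho φ 1 1 - T.rho φ 0 1 * T.rho φ 1 0) * h4
  obtain ⟨u, hu⟩ := tor φ
  obtain ⟨v, rfl⟩ : ∃ v, (T.rd δ φ - 1) *ᵥ v = u := ⟨(T.rd δ φ - 1)⁻¹ *ᵥ u, by
    rw [Matrix.mulVec_mulVec, Matrix.mul_nonsing_inv _ hd.isUnit, Matrix.one_mulVec]⟩
  rw [Matrix.sub_mulVec, Matrix.one_mulVec, map_sub, ← T.tgal] at hu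
  obtain ⟨N, a, b⟩ := sm
  obtain ⟨N1, a1, b1⟩ := exists_ON_ac {T.pt v}
  obtain ⟨N2, a2, b2⟩ := exists_ON_fix {δ}
  have mul : ∀ g h, C g = tac δ g (T.pt v) - T.pt v → C h = tac δ h (T.pt v) - T.pt v →
      C (g * h) = tac δ (g * h) (T.pt v) - T.pt v := fun g h h1 h2 => by
    rw [co, h1, h2, map_sub, tac_mul (fix_sq hδ)]; abel
  have one : C 1 = 0 := hI 1 (one_mem _)
  refine ⟨T.pt v, fun g hg' => ?_⟩
  obtain ⟨k, i, hi, n, hn, rfl⟩ := hg _ (a.inf (a1.inf a2)) g hg'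
  refine mul _ _ (mul _ _ ?_ ?_) ?_
  · clear hg'
    induction k with
    | zero => rw [pow_zero, one, tac_one, sub_self]
    | succ k ih => rw [pow_succ]; exact mul _ _ ih hu.symm
  · rw [hI i hi.1, T.tgal, Tate.rd, t1 i hi.1, sd_eq_one.2 (Pl.I_fix hP.tame hP.res
      (fun e => h30 (by rw [e]; norm_num)) hδ (fun e => hw (e.mul_left _)) hi.1)]
    simp
  · rw [tac_apply, sd_eq_one.2 (b2 δ (by simp) n hn.1.2.2), b1 _ (by simp) n hn.1.2.1, ← one_mul n,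
      b 1 trivial n trivial hn.1.1, one]
    simp

theorem clas1 (hP : CP) (hL : LOC2) (T : Tate w₂) (h2 : w₂.p = 2) (hδ : δ ^ 2 = m)
    (hm : m % 8 = 5) {x : GS → V2} {c : ℕ → GQ → V2} (hx : SelQ T δ m x)
    (hc : Ap (fun _ => ⊤) c x) : ∃ e : ℕ, ∀ i : ℕ, ∀ᶠ k in UF,
      SelC δ fun g => T.pt (((2 : ℚ_[2]) ^ e / 2 ^ i) • c k g) := by
  obtain ⟨e, he⟩ := hL w₂ T δ m h2 hδ hm x (hx.pz.mono fun _ => le_top) hx.ord c
    (hc.mono fun _ => le_top)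
  refine ⟨e, fun i => ?_⟩
  have he := he i
  generalize (2 : ℚ_[2]) ^ e / 2 ^ i = s at he ⊢
  obtain ⟨ε, hε, hs⟩ := eps s
  have hf := fix_sq hδ
  have hr := T.rep hf
  have : Nonempty Pl := ⟨w₂⟩
  choose! W hW using hP.pl.1
  have bad : ∀ᶠ k in UF, ∀ p ∈ (15 * m).natAbs.primeFactors,
      LT δ (fun g => T.pt (s • c k g)) (W p) := (eventually_all_finset _).2 fun p hp => by
    obtain ⟨p1, p2, -⟩ := Nat.mem_primeFactors.1 hp
    obtain ⟨v, hv⟩ := hx.bad (W p) (by rw [hW p p1]; exact Int.natCast_dvd.2 p2)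
    filter_upwards [Cob.near hr hc (.of_forall fun _ => le_top) hv hε] with k hk
    refine ⟨T.pt (s • v), fun g hg => ?_⟩
    rw [T.tgal, ← map_sub, T.pt_eq, Matrix.mulVec_smul, ← smul_sub, ← smul_sub]
    exact hs _ (hk g hg)
  have un : ∀ᶠ k in UF, ∀ a : Pl × GQ, a.2 ∈ a.1.I ∧ ¬ (a.1.p : ℤ) ∣ 30 * m → ‖c k a.2‖ ≤ ε :=
    ev_choice fun f => by
      by_cases h : ∀ᶠ k in UF, (f k).2 ∈ (f k).1.I ∧ ¬ ((f k).1.p : ℤ) ∣ 30 * m
      · have := hc.lim (fun k => (f k).2) (.of_forall fun _ => trivial)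
        rw [hx.unr _ _ h] at this
        exact (NormedAddGroup.tendsto_nhds_zero.1 this ε hε).mono fun k h _ => h.le
      · exact (ev_not.1 h).mono fun k h h' => absurd h' h
  filter_upwards [he, bad, un, hx.pz.ac hr hc hε] with k k1 k2 k3 k4
  have co : ∀ g h, T.pt (s • c k (g * h)) = T.pt (s • c k g) + tac δ g (T.pt (s • c k h)) :=
    fun g h => by
      rw [T.tgal, ← map_add, T.pt_eq, Matrix.mulVec_smul, ← smul_add, ← smul_sub, ← sub_sub]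
      exact hs _ (k4 g trivial h trivial)
  have sm : Sm ⊤ fun g => T.pt (s • c k g) := (hc.uc k).sm (fun v => T.pt (s • v)) hε
    fun v v' h => T.pt_eq.2 (by rw [← smul_sub]; exact hs _ h)
  refine ⟨sm, co, ?_, fun w => ?_⟩
  · obtain ⟨B, hB⟩ := hc.bd
    obtain ⟨j, hj⟩ := pow_unbounded_of_one_lt (‖s‖ * B) (one_lt_two (α := ℝ))
    refine ⟨j, fun g => T.pt_pow.2 (le_trans ?_ hj.le)⟩
    rw [norm_smul]
    exact mul_le_mul_of_nonneg_left (hB k g) (norm_nonneg _)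
  by_cases h : (w.p : ℤ) ∣ 30 * m
  · by_cases h' : w.p = 2
    · exact LT.of_eq hP hf co k1 (h2.trans h'.symm)
    refine LT.of_eq hP hf co (k2 w.p (Nat.mem_primeFactors.2 ⟨w.prime, ?_, by omega⟩)) (hW _ w.prime)
    rw [show 30 * m = 2 * (15 * m) by ring, Int.natCast_dvd, Int.natAbs_mul] at h
    exact ((Nat.coprime_primes w.prime Nat.prime_two).2 h').dvd_of_dvd_mul_left h
  · exact unr hP T hδ sm co (fun g => ⟨_, rfl⟩) h fun g hg => (T.ker _).2 (hs _ (k3 (w, g) ⟨hg, h⟩))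

theorem lim_int (a : ℕ → ℤ) : ∃ l : ℚ_[2], Tendsto (fun k => (a k : ℚ_[2])) UF (𝓝 l) ∧
    ((∀ᶠ k in UF, Odd (a k)) → l ≠ 0) := by
  have h := tendsto_ul (f := fun k => (a k : ℚ_[2])) (B := 1)
    (.of_forall fun k => Padic.norm_int_le_one _)
  refine ⟨_, h, fun h1 e => ?_⟩
  rw [e] at h
  obtain ⟨k, h2, h3⟩ := (h1.and (NormedAddGroup.tendsto_nhds_zero.1 h 1 one_pos)).exists
  exact Int.not_even_iff_odd.2 h2 (even_iff_two_dvd.2 (Padic.norm_intCast_lt_one_iff.1 h3))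

theorem clas2 (hP : CP) (hL : LOC2) (T : Tate w₂) (h2 : w₂.p = 2) (hδ : δ ^ 2 = m)
    (hm : m % 8 = 5) (hS : Sel1 δ) : Rk1 T δ m := by
  intro x y hx hy
  obtain ⟨K, hK⟩ := hS
  obtain ⟨c, hc⟩ := hx.pz.1
  obtain ⟨c', hc'⟩ := hy.pz.1
  obtain ⟨e, he⟩ := clas1 hP hL T h2 hδ hm hx hc
  obtain ⟨e', he'⟩ := clas1 hP hL T h2 hδ hm hy hc'
  have hr := T.rep (fix_sq hδ)
  have h1 : ∀ i : ℕ, ∀ᶠ k in UF, ∃ (a b : ℤ) (u : V2), (Odd a ∨ Odd b) ∧ ∀ g,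
      ‖(2 : ℚ_[2]) ^ K • ((a : ℚ_[2]) • c k g + (b : ℚ_[2]) • c' k g) - (T.rq δ g u - u)‖ ≤
        (2 ^ i)⁻¹ := fun i => by
    have p : ∀ e : ℕ, (2 : ℚ_[2]) ^ e / 2 ^ (i + e) = (2 ^ i)⁻¹ := fun e => by
      rw [pow_add]; field_simp
    filter_upwards [he (i + e), he' (i + e')] with k k1 k2
    rw [p] at k1 k2
    obtain ⟨a, b, h3, Q, h4, h5⟩ := hK _ _ k1 k2
    obtain ⟨Q₁, Q₂, j, n, h6, h7, h8, rfl⟩ := exists_split h4
    obtain ⟨u, rfl⟩ := T.surj _ _ h7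
    have h9 : Odd (n : ℤ) := h6.natCast
    refine ⟨n * a, n * b, (2 : ℚ_[2]) ^ i • (n : ℚ_[2]) • u, h3.imp h9.mul h9.mul, fun g => ?_⟩
    have := congrArg (n • ·) (h5 g)
    simp only [smul_sub, ← map_nsmul (tac δ g), smul_add n (T.pt u), h8, add_zero] at this
    rw [← pt_int, ← pt_int, ← map_add, ← pt_nat, ← pt_nat, ← pt_nat, T.tgal, ← map_sub,
      T.pt_eq, ← Tate.rq_apply] at this
    rw [← mul_one (2 ^ i : ℝ)⁻¹, le_inv_mul_iff₀ (by positivity), ← npow, ← norm_smul]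
    refine le_of_eq_of_le (congrArg _ ?_) this
    simp only [map_smul]
    push_cast
    match_scalars <;> field_simp
  obtain ⟨i, hi, h3⟩ := ev_diag h1
  obtain ⟨a, h3⟩ := (h3.mono fun k h => h (i k) le_rfl).choice
  obtain ⟨b, h3⟩ := h3.choice
  obtain ⟨u, h3⟩ := h3.choice
  obtain ⟨l, l1, l2⟩ := lim_int a
  obtain ⟨l', l1', l2'⟩ := lim_int b
  have h4 : ∀ g : GS, Tendsto (fun k => T.rq δ (g k) (u k) - u k) UF
      (𝓝 ((2 : ℚ_[2]) ^ K • (l • x g + l' • y g))) := fun g => by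
    have hg : g ∈ S1 ⊤ := .of_forall fun _ => trivial
    simpa using (((l1.smul (hc.lim g hg)).add (l1'.smul (hc'.lim g hg))).const_smul
      ((2 : ℚ_[2]) ^ K)).sub (squeeze_zero_norm' (h3.mono fun k h => h.2 (g k))
        ((tendsto_inv_atTop_zero.comp (tendsto_pow_atTop_atTop_of_one_lt one_lt_two)).comp hi))
  obtain ⟨φ, -, p1, p2⟩ := Pl.exists_f2 hP.toCA h2 hδ hm
  have h5 := ((Matrix.toLin' (T.rd δ φ - 1)⁻¹).continuous_of_finiteDimensional.tendsto _).comp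
    (h4 (cs φ))
  replace h5 := h5.congr (f₂ := u) fun k => by
    have : T.rq δ φ (u k) - u k = (T.rd δ φ - 1) *ᵥ u k := by
      rw [Matrix.sub_mulVec, Matrix.one_mulVec, Tate.rq_apply]
    simp only [Function.comp_apply, cs, this, Matrix.toLin'_apply, Matrix.mulVec_mulVec,
      Matrix.nonsing_inv_mul _ (T.det_ne p1 p2).1.isUnit, Matrix.one_mulVec]
  refine ⟨2 ^ K * l, 2 ^ K * l', (ev_or (h3.mono fun k h => h.1)).imp
    (fun h => mul_ne_zero (by simp) (l2 h)) fun h => mul_ne_zero (by simp) (l2' h), _, fun g _ =>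
      Eq.trans ?_ (tendsto_nhds_unique (h4 g) ((hr.tendsto g h5).sub h5))⟩
  simp [mul_smul]

end TLOC2

theorem t_CLAS (hP : CP) (hLOC2 : LOC2) : CLAS := fun _ T _ _ h2 hδ hm =>
  ⟨fun _ _ => clas1 hP hLOC2 T h2 hδ hm, clas2 hP hLOC2 T h2 hδ hm⟩

end Pool.Agent.P.MP_8b7eba_nt.R2
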