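import Pool.Agent.P.MP_8b7eba_nt.R2.SelB

/-! Proof of NV1. -/

namespace Pool.Agent.P.MP_8b7eba_nt.R2

open scoped NNReal Matrix
open MP_9c97e9_nt (Pt pm Is ap Sha Split)
open Filter Topology Polynomial Module

namespace TNV1

theorem frob {R : Type} [CommRing R] (h2 : (2 : R) = 0) (x : R) (n : ℕ) :
    (x - 1) ^ 2 ^ n = x ^ 2 ^ n - 1 := by
  induction n with
  | zero => simp
  | succ n ih =>
    rw [pow_succ, pow_mul, pow_mul, ih]
    linear_combination (1 - x ^ 2 ^ n) * h2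

theorem alg {R : Type} [CommRing R] (h2 : (2 : R) = 0) {x w b : R} {m m' n r : ℕ}
    (h1 : x ^ (m + m') = x ^ 0) (h3 : x ^ (2 * m * r) = x ^ 2 ^ n)
    (h : w * (b + b - x ^ m - x ^ m') = 0) : w * (x - 1) ^ 2 ^ n = 0 := by
  obtain ⟨c, hc⟩ := sub_one_dvd_pow_sub_one (x ^ (2 * m)) r
  rw [frob h2, ← h3, pow_mul, hc]
  rw [pow_add, pow_zero] at h1
  linear_combination (-c * x ^ m) * h - c * w * h1 + c * w * (b * x ^ m - 1) * h2

theorem choose_mod (k : ℕ) : ∀ r m, r ≤ 2 ^ k → m < 2 ^ k →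
    (((2 ^ k - r).choose m : ℕ) : ZMod 2) = r.multichoose m
  | _, 0, _, _ => by simp
  | 0, m + 1, _, h => by
    rw [Nat.multichoose_zero_succ, Nat.sub_zero, Nat.cast_zero, ZMod.natCast_eq_zero_iff]
    exact Nat.prime_two.dvd_choose_pow m.succ_ne_zero h.ne
  | r + 1, m + 1, h, h' => by
    have a := choose_mod k r (m + 1) (by omega) h'
    have b := choose_mod k (r + 1) m h (by omega)
    rw [show 2 ^ k - r = 2 ^ k - (r + 1) + 1 by omega, Nat.choose_succ_succ', Nat.cast_add] at a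
    rw [Nat.multichoose_succ_succ, Nat.cast_add, ← a, ← b]
    generalize (((2 ^ k - (r + 1)).choose m : ℕ) : ZMod 2) = x
    generalize (((2 ^ k - (r + 1)).choose (m + 1) : ℕ) : ZMod 2) = y
    revert x y
    decide

theorem norm_iff (t : Finset ℕ) (f : ℕ → ℕ) (e : ℕ → ℤ_[2]) :
    ‖∑ j ∈ t, (f j : ℚ_[2]) * e j‖ < 1 ↔
      ∑ j ∈ t, (f j : ZMod 2) * PadicInt.toZMod (e j) = 0 := by
  have h1 : ∑ j ∈ t, (f j : ℚ_[2]) * e j = ((∑ j ∈ t, (f j : ℤ_[2]) * e j : ℤ_[2]) : ℚ_[2]) := by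
    simp
  have h2 : ∑ j ∈ t, (f j : ZMod 2) * PadicInt.toZMod (e j) =
      PadicInt.toZMod (∑ j ∈ t, (f j : ℤ_[2]) * e j) := by simp
  rw [h1, h2, ← RingHom.mem_ker, PadicInt.ker_toZMod, IsLocalRing.mem_maximalIdeal,
    PadicInt.mem_nonunits, PadicInt.padic_norm_e_of_padicInt]

theorem sum_lt {k r : ℕ} (h0 : 0 < r) (hr : r ≤ 2 ^ k) (e : ℕ → ℤ_[2])
    (h : ∀ i < r, ‖∑ j ∈ Finset.range (2 ^ k), (j.choose i : ℚ_[2]) * e j‖ < 1) :
    ‖∑ j ∈ Finset.range (2 ^ k), ((2 ^ k - r).choose j : ℚ_[2]) * e j‖ < 1 := by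
  simp only [norm_iff] at h ⊢
  obtain ⟨r, rfl⟩ : ∃ r', r = r' + 1 := ⟨r - 1, by omega⟩
  rw [Finset.sum_congr rfl fun j hj => by
    rw [choose_mod k _ j hr (Finset.mem_range.1 hj), Nat.multichoose_eq,
      show r + 1 + j - 1 = j + r by omega, Nat.choose_symm_add, Nat.add_choose_eq, Nat.cast_sum,
      Finset.sum_mul], Finset.sum_comm]
  refine Finset.sum_eq_zero fun p hp => ?_
  have := h p.1 (by have := Finset.HasAntidiagonal.mem_antidiagonal.1 hp; omega)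
  simp only [Nat.cast_mul, mul_comm ((Nat.choose _ p.1 : ℕ) : ZMod 2), mul_assoc,
    ← Finset.mul_sum] at this ⊢
  rw [this, mul_zero]

/-- the action of an automorphism as a linear map -/
noncomputable def op (u : GQ) : Module.End ℤ EO := (ac u).toIntLinearMap

theorem op_pow (u : GQ) (m : ℕ) (P : EO) : (op u ^ m) P = ac (u ^ m) P := by
  induction m with
  | zero => simp [ac_one]
  | succ m ih => rw [pow_succ', pow_succ', ac_mul, ← ih]; rfl

theorem iter (u : GQ) (s : ℕ) (P : EO) :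
    (fun R => ac u R - R)^[s] P = aeval (op u) ((X - 1 : ℤ[X]) ^ s) P := by
  rw [map_pow, Module.End.pow_apply, map_sub, aeval_X, map_one]
  rfl

theorem ind (u : GQ) {p : EO → Prop} (h1 : ∀ P Q, p P → p Q → p (P + Q))
    (h2 : ∀ (m : ℤ) P, p P → p (m • P)) (h3 : ∀ P, p P → p (ac u P)) {P : EO} (h : p P)
    (q : ℤ[X]) : p (aeval (op u) q P) := by
  induction q using Polynomial.induction_on' with
  | add a b ha hb => rw [map_add]; exact h1 _ _ ha hb
  | monomial n a =>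
    have : ∀ n : ℕ, p ((op u ^ n) P) := fun n => by
      induction n with
      | zero => exact h
      | succ n ih => rw [pow_succ']; exact h3 _ ih
    rw [aeval_monomial]
    exact h2 a _ (this n)

variable {S : Set GQ} {u : GQ}

/-- the polynomials which send `P` to a point with the property `Kq` -/
def J (hu : ∀ g ∈ S, u⁻¹ * g * u ∈ S) (P : EO) : Ideal ℤ[X] where
  carrier := {q | Kq S (aeval (op u) q P)}
  add_mem' := fun {a b} ha hb => by
    show Kq S _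
    rw [map_add]; exact ha.add hb
  zero_mem' := by simpa using kq_two (S := S) (P := 0) fun g _ => map_zero _
  smul_mem' := fun c q h => by
    show Kq S _
    rw [smul_eq_mul, map_mul]
    exact ind u (fun _ _ => Kq.add) (fun m _ h => h.zsmul m) (fun _ h => h.ac hu) h c

theorem two_mul_mem (hu : ∀ g ∈ S, u⁻¹ * g * u ∈ S) {P : EO} (h : ∀ g ∈ S, ac g P = P) :
    (2 : ℤ[X]) ∈ J hu P := by
  show Kq S _
  rw [map_ofNat]
  exact kq_two h

theorem appr (x : ℤ_[2]) (k : ℕ) : ∃ m : ℕ, 2 ^ k ∣ x - m :=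
  ⟨_, Ideal.mem_span_singleton.1 (by exact_mod_cast PadicInt.appr_spec k x)⟩

theorem exists_r {x : ℤ_[2]} {n : ℕ} (h : ‖x‖ = (2 ^ n)⁻¹) (k : ℕ) :
    ∃ r : ℕ, 2 ^ k ∣ x * r - 2 ^ n := by
  obtain ⟨y, rfl⟩ : 2 ^ n ∣ x := by
    have := (PadicInt.norm_le_pow_iff_mem_span_pow x n).1 (by rw [h]; simp)
    exact_mod_cast Ideal.mem_span_singleton.1 this
  have h2 : ‖(2 : ℤ_[2])‖ = 2⁻¹ := by exact_mod_cast PadicInt.norm_p (p := 2)
  rw [norm_mul, norm_pow, h2, inv_pow, mul_right_eq_self₀] at h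
  obtain ⟨v, rfl⟩ := PadicInt.isUnit_iff.2 (h.resolve_right (by positivity))
  obtain ⟨r, c, hr⟩ := appr (v⁻¹ : ℤ_[2]ˣ) k
  exact ⟨r, -(2 ^ n * v * c), by
    linear_combination (-(2 ^ n * v)) * hr + (2 : ℤ_[2]) ^ n * v.mul_inv⟩

variable (D : Dat) (k : ℕ)

/-- the local subgroup -/
def SS : Set GQ := {g | g ∈ D.w2.I ∧ 2 ^ k ∣ D.a g}

theorem gK : D.gm ∈ D.GK := D.D_le (D.w2.I_le_D D.gI)

theorem hS : ∀ g ∈ SS D k, D.gm⁻¹ * g * D.gm ∈ SS D k := fun g hg => by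
  have h1 := D.GK.inv_mem (gK D)
  have := D.an.conj h1 (D.D_le (D.w2.I_le_D hg.1))
  rw [inv_inv] at this
  exact ⟨mul_mem (mul_mem (inv_mem D.gI) hg.1) D.gI, this ▸ hg.2⟩

theorem fix_dl {g : GQ} (hg : g ∈ D.w2.I) : g D.dl = D.dl :=
  Pl.I_fix_two D.hw2 D.hdl (by have := D.d8; omega) hg

theorem tac_I {g : GQ} (hg : g ∈ D.w2.I) (P : EO) : tac D.dl g P = ac g P := by
  rw [tac_apply, sd_eq_one.2 (fix_dl D hg), one_smul]

theorem a_pow (m : ℕ) : D.a (D.gm ^ m) = m := by rw [D.an.pow (gK D), D.ga, mul_one]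

variable {D k}

theorem SS_le {g : GQ} (hg : g ∈ SS D k) : g ∈ D.Gd (2 ^ k) :=
  ⟨D.D_le (D.w2.I_le_D hg.1), hg.2⟩

theorem act {P : EO} (hP : ∀ g ∈ D.Gd (2 ^ k), ac g P = P) {g : GQ} (hg : g ∈ D.GK) {m : ℕ}
    (h : 2 ^ k ∣ D.a g - m) : ac g P = (op D.gm ^ m) P := by
  have h1 := D.GK.pow_mem (gK D) m
  have h2 : (D.gm ^ m)⁻¹ * g ∈ D.Gd (2 ^ k) := ⟨mul_mem (inv_mem h1) hg, by
    rw [D.an.add _ (inv_mem h1) _ hg, D.an.inv h1, a_pow, neg_add_eq_sub]; exact h⟩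
  rw [op_pow, ← congrArg (ac (D.gm ^ m)) (hP _ h2), ← ac_mul, mul_inv_cancel_left]

theorem pow_mem {P : EO} (hP : ∀ g ∈ D.Gd (2 ^ k), ac g P = P) {i j : ℕ}
    (h : (2 : ℤ_[2]) ^ k ∣ i - j) : X ^ i - X ^ j ∈ J (hS D k) P := by
  have h1 := D.GK.pow_mem (gK D) i
  show Kq _ _
  rw [map_sub, map_pow, map_pow, aeval_X, LinearMap.sub_apply, ← act hP h1 (m := j) (by rwa [a_pow]),
    op_pow, sub_self]
  simpa using kq_two (P := 0) fun g _ => map_zero _

/-- the traces of the Heegner points -/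
noncomputable def Y (H : Heeg D.toPre D.a) (k c : ℕ) : EO :=
  csum (D.Gd (2 ^ k)) (H.N c) fun s => ac s (H.y c)

variable (H : Heeg D.toPre D.a)

theorem ri (G : Subgroup GQ) (c : ℕ) : RI G (H.N c) fun s => ac s (H.y c) :=
  fun s _ g _ hg => by simp only [ac_mul, H.fix c g hg]

theorem rel (G : Subgroup GQ) (c : ℕ) : (H.N c).relIndex G ≠ 0 := relIndex_ne_zero (H.on c).2 G

theorem Y_fix (c : ℕ) : ∀ g ∈ D.Gd (2 ^ k), ac g (Y H k c) = Y H k c := fun g hg => by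
  rw [Y, map_csum (rel H _ c), ← csum_left (ri H _ c) hg]
  simp only [ac_mul]

theorem Y_comm (c : ℕ) {F : GQ} (hF : F ∈ D.GK) :
    csum (D.Gd (2 ^ k)) (H.N c) (fun s => ac s (ac F (H.y c))) = ac F (Y H k c) := by
  rw [Y, map_csum (rel H _ c)]
  refine csum_congr fun s hs => ?_
  rw [← ac_mul, show s * F = F * s * (s⁻¹ * F⁻¹ * s⁻¹⁻¹ * F⁻¹⁻¹) by group, ac_mul,
    H.fix c _ (H.ab c _ (inv_mem hs.1) _ (inv_mem hF)), ac_mul]

theorem step (hF : CF) {c p : ℕ} (hp : p.Prime) (hd : (p : ℤ) ∣ D.d) (h1 : ¬ p ∣ c)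
    (h2 : 2 ^ (k + 2) ∣ c) (h3 : (c * p).Coprime (15 * D.l)) (h4 : c ≠ 0) {s : ℕ}
    (h : (X - 1) ^ s ∈ J (hS D k) (Y H k (c * p))) :
    (X - 1) ^ (s + 2 * 2 ^ D.np p) ∈ J (hS D k) (Y H k c) := by
  obtain ⟨w, rfl⟩ := hF.pl.1 p hp
  obtain ⟨F, hf⟩ := w.exists_frob hF.frob
  have hK : F ∈ D.GK := D.spD w (hd.mul_left 30) hf.1
  have h5 : c.Coprime (15 * D.l) := h3.coprime_dvd_left (dvd_mul_right _ _)
  have h6 : H.N c ≤ D.Gd (2 ^ k) := fun g hg =>
    let a := (H.pow k g).1 (H.anti _ _ h2 h5 h4 hg); ⟨a.1, a.2.1⟩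
  have h7 : ¬ w.p ∣ 30 := fun h => by
    rcases (hp.dvd_mul (m := 2) (n := 15)).1 h with h | h
    · have := D.d8
      rw [(Nat.prime_dvd_prime_iff_eq hp Nat.prime_two).1 h] at hd
      omega
    · exact hp.one_lt.ne' (Nat.eq_one_of_dvd_coprimes h3 (dvd_mul_left _ _) (h.mul_right _))
  obtain ⟨b, hb⟩ := (hF.apb _ hp h7).2
  obtain ⟨m, hm⟩ := appr (D.a F) k
  obtain ⟨m', hm'⟩ := appr (D.a F⁻¹) k
  obtain ⟨r, hr⟩ := exists_r (D.hnp w F hd hf) k
  have e : Y H k (c * w.p) = aeval (op D.gm) (C b + C b - X ^ m - X ^ m') (Y H k c) := by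
    rw [Y, csum_trans h6 (H.anti _ _ (dvd_mul_right _ _) h3 (mul_ne_zero h4 hp.ne_zero))
      (rel H _ _) (ri H _ _)]
    simp only [ac_mul, ← map_csum (rel H _ _), map_sub, map_zsmul, csum_sub (rel H _ _),
      H.split c w F h5 ((pow_dvd_pow 2 (by omega : 2 ≤ k + 2)).trans h2) h4 h1 hd hf]
    rw [Y_comm H c hK, Y_comm H c (inv_mem hK), act (Y_fix H c) hK hm,
      act (Y_fix H c) (inv_mem hK) hm', ← C_add, ← hb]
    simp only [map_pow, aeval_X, aeval_C, LinearMap.sub_apply, Module.algebraMap_end_apply]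
    congr 2
    exact (map_csum (rel H _ _) (zsmulAddGroupHom (ap W15 w.p) : EO →+ EO) _).symm
  have h8 : (X - 1) ^ s * (C b + C b - X ^ m - X ^ m') ∈ J (hS D k) (Y H k c) := by
    show Kq _ _
    rw [map_mul, Module.End.mul_apply, ← e]
    exact h
  rw [D.an.inv hK] at hm'
  have a1 := pow_mem (Y_fix H c) (i := m + m') (j := 0) (k := k) (by
    have := (dvd_add hm hm').neg_right
    push_cast
    ring_nf at this ⊢
    exact this)
  have a2 := pow_mem (Y_fix H c) (i := 2 * m * r) (j := 2 ^ (D.np w.p + 1)) (k := k) (by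
    have := dvd_sub (hr.mul_left 2) (hm.mul_left (2 * r))
    push_cast
    ring_nf at this ⊢
    exact this)
  have a3 := two_mul_mem (hS D k) fun g hg => Y_fix H c g (SS_le hg)
  rw [← Ideal.Quotient.eq_zero_iff_mem] at h8 a3 ⊢
  rw [← Ideal.Quotient.eq] at a1 a2
  simp only [map_pow, map_mul, map_sub, map_add, map_one, map_ofNat] at h8 a1 a2 a3 ⊢
  rw [pow_add, ← pow_succ']
  exact alg a3 a1 a2 h8

end TNV1

open TNV1

theorem t_NV1 (hF : CF) (hINVP : INVP) : NV1 := by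
  classical
  intro D H ⟨M₀, hM⟩
  refine ⟨M₀, fun k hk s hs hq => ?_⟩
  obtain ⟨⟨c1, c2, c3⟩, -, -, c4, -⟩ := hINVP D H [] k List.Pairwise.nil
  have hc : D.ck [] k = 2 ^ (k + 2) * ∏ p ∈ D.d.natAbs.primeFactors, p := by
    rw [Nat.prod_primeFactors_of_squarefree (Int.squarefree_natAbs.2 D.sq)]
    simp [Dat.ck]
  have hle : H.N (D.ck [] k) ≤ D.Gd (2 ^ k) := fun g hg =>
    ⟨H.le _ hg, D.ak_eq_zero.1 (c3 g hg).1⟩
  set f : GQ → EO := fun s => if s D.dl = D.dl then 0 else ac s (H.y (D.ck [] k)) with hf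
  have rf : RI (D.Gd (2 ^ k)) (H.N (D.ck [] k)) f := fun s _ g _ hg => by
    simp only [hf, AlgEquiv.mul_apply, (c3 g hg).2, ac_mul, H.fix _ g hg]
  have hR : ∀ g ∈ SS D k, ac g (csum (D.Gd (2 ^ k)) (H.N (D.ck [] k)) f) =
      csum (D.Gd (2 ^ k)) (H.N (D.ck [] k)) f := fun g hg => by
    rw [map_csum (rel H _ _), ← csum_left rf (SS_le hg)]
    refine csum_congr fun s _ => ?_
    have : (g * s) D.dl = D.dl ↔ s D.dl = D.dl := by
      rw [AlgEquiv.mul_apply]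
      nth_rw 2 [← fix_dl D hg.1]
      exact g.injective.eq_iff
    simp only [hf, this, ac_mul, apply_ite (ac g), map_zero]
  have e : Y H k (D.ck [] k) = D.PP H [] k 0 + 2 • csum (D.Gd (2 ^ k)) (H.N (D.ck [] k)) f := by
    have : D.PP H [] k 0 = csum (D.Gd (2 ^ k)) (H.N (D.ck [] k))
        fun s => tac D.dl s (H.y (D.ck [] k)) := by
      rw [← csum_ite (H := D.GK) (H' := D.Gd (2 ^ k)) (fun _ h => h.1) hle (rel H _ _)
        (f := fun s => tac D.dl s (H.y (D.ck [] k))) fun s _ g _ hg => by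
        dsimp only
        rw [tac_mul D.fix_dl, tac_apply _ g, sd_eq_one.2 (c3 g hg).2, H.fix _ g hg, one_smul]]
      exact csum_congr fun s hs => by simp [D.ak_eq_zero, Dat.mem_Gd, hs]
    rw [this, two_smul, ← csum_add (rel H _ _), ← csum_add (rel H _ _)]
    refine csum_congr fun s _ => ?_
    by_cases h : s D.dl = D.dl
    · simp [hf, h, tac_apply, sd_eq_one.2 h]
    · simp [hf, h, tac_apply, sd_eq_neg.2 h]
  have h1 : (X - 1) ^ s ∈ J (hS D k) (Y H k (D.ck [] k)) := by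
    show Kq _ _
    rw [e, map_add, ← iter]
    refine Kq.add hq ?_
    have : Kq _ _ := (J (hS D k) _).mul_mem_left ((X - 1) ^ s) (two_mul_mem (hS D k) hR)
    rwa [map_mul, map_ofNat, Module.End.mul_apply] at this
  have key : ∀ t ⊆ D.d.natAbs.primeFactors, ∀ s,
      (X - 1) ^ s ∈ J (hS D k) (Y H k (2 ^ (k + 2) * ∏ p ∈ t, p)) →
      (X - 1) ^ (s + 2 * ∑ p ∈ t, 2 ^ D.np p) ∈ J (hS D k) (Y H k (2 ^ (k + 2))) := fun t => by
    induction t using Finset.induction_on with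
    | empty => intro _ s h; simpa using h
    | insert p t hp ih =>
      intro ht s h
      have h2 := Nat.mem_primeFactors.1 (ht (Finset.mem_insert_self p t))
      have h3 := (Finset.subset_insert p t).trans ht
      have h4 : 2 ^ (k + 2) * ∏ q ∈ insert p t, q ∣ D.ck [] k :=
        hc ▸ mul_dvd_mul_left _ (Finset.prod_dvd_prod_of_subset _ _ _ ht)
      rw [Finset.prod_insert hp, mul_comm p, ← mul_assoc] at h h4
      rw [Finset.sum_insert hp, mul_add, ← add_assoc]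
      refine ih h3 _ (step H hF h2.1 (Int.natCast_dvd.2 h2.2.1) (fun h5 => ?_) (dvd_mul_right _ _)
        (c1.coprime_dvd_left h4) (left_ne_zero_of_mul (ne_zero_of_dvd_ne_zero c2 h4)) h)
      rcases h2.1.dvd_mul.1 h5 with h5 | h5
      · have h6 := Int.natCast_dvd.2 h2.2.1
        have := D.d8
        rw [(Nat.prime_dvd_prime_iff_eq h2.1 Nat.prime_two).1 (h2.1.dvd_of_dvd_pow h5)] at h6
        omega
      · obtain ⟨q, hq, h6⟩ := (h2.1.prime.dvd_finsetProd_iff _).1 h5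
        exact hp ((Nat.prime_dvd_prime_iff_eq h2.1 (Nat.prime_of_mem_primeFactors (h3 hq))).1 h6 ▸ hq)
  obtain ⟨ι, hι, hm⟩ := hF.ec2 D.w2 D.hw2 (-1)
  refine hM k hk D.gm D.gI ι hι (D.ga ▸ isUnit_one) hm ?_
  have l0 : D.a ι = 0 := by
    obtain ⟨u, hu⟩ := D.an.two
    have a1 := hF.lg.1.mul 1 1
    have a2 := hF.lg.1.mul (-1) (-1)
    rw [mul_one] at a1
    rw [neg_mul_neg, mul_one] at a2
    have : 2 * lg (-1) = 0 := by linear_combination -a2 - a1
    rw [hu ι hι, hm, (mul_eq_zero.1 this).resolve_left two_ne_zero, mul_zero]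
  have lK : ι ∈ D.Gd (2 ^ k) := ⟨D.D_le (D.w2.I_le_D hι), by simp [l0]⟩
  have lN : ι ∉ H.N (2 ^ (k + 2)) := fun h => by
    have a1 := ((H.pow k ι).1 h).2.2
    have a2 : ((2 : ℕ) : ℤ_[2]) ^ 2 ∣ ((-2 : ℤ) : ℤ_[2]) := by
      rw [hm] at a1
      norm_num at a1 ⊢
      exact a1
    exact absurd ((PadicInt.pow_p_dvd_int_iff 2 (-2)).1 a2) (by decide)
  have e2 : Y H k (2 ^ (k + 2)) = H.y (2 ^ (k + 2)) + ac ι (H.y (2 ^ (k + 2))) := by
    rw [Y, csum_eq_sum Finset.univ ![1, ι] (ri H _ _) (fun i _ => by fin_cases i <;> simp [lK])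
      (fun i _ j _ => by fin_cases i <;> fin_cases j <;> simp [lN]) fun g hg => ?_]
    · simp [ac_one]
    rcases (hF.lg.1.dvd 0 (cyc g)).1 (by simp) with h | h
    · exact ⟨0, Finset.mem_univ _, by simpa using (H.pow k g).2 ⟨hg.1, hg.2, by norm_num at h; exact h⟩⟩
    · have a1 := mul_mem (inv_mem lK) hg
      refine ⟨1, Finset.mem_univ _, (H.pow k (ι⁻¹ * g)).2 ⟨a1.1, a1.2, ?_⟩⟩
      have a2 := hF.ec.2.1 ι (ι⁻¹ * g)
      rw [mul_inv_cancel_left, hm] at a2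
      rw [a2] at h
      have := h.neg_right
      norm_num at this
      rwa [neg_add_eq_sub] at this
  rw [← e2, iter, show 2 ^ k - 3 = 2 ^ k - 3 - (s + 2 * D.sg) + (s + 2 * D.sg) by omega, pow_add]
  exact (J (hS D k) _).mul_mem_left _ (key _ subset_rfl s (hc ▸ h1))

theorem t_NV (hF : CF) (hINVP : INVP) (hKPZ : KPZ) (hNV1 : NV1) (hNV2 : NV2) : NV := by
  intro D H v hJ hv A _ _ _ _ ψ f h1 h2 h3 h4 h5
  obtain ⟨M₀, hM⟩ := hNV1 D H hJ
  have ok : Ok ([] : List (Kp D)) := List.Pairwise.nil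
  obtain ⟨k, ⟨k1, k2⟩, k3⟩ := (((ev_ge M₀).and (ev_ge f.natDegree)).and (hNV2 D v
    (fun k => (hv k).2.1) (fun k => (hv k).1)
    (fun A _ _ _ _ ψ h => ((hKPZ D H [] v ok hv).2 A ψ h).2) A ψ f h1 h2 h3 h5)).exists
  have k4 : f.natDegree ≤ 2 ^ k := k2.trans Nat.lt_two_pow_self.le
  refine hM k k1 (2 ^ k - f.natDegree) (by omega) ?_
  obtain ⟨-, -, -, c4, -⟩ := hINVP D H [] k ok
  obtain ⟨-, hn, Q, R, hQ⟩ := hv k
  have hfix : ∀ g ∈ SS D k, ∀ j, ac g (D.PP H [] k j) = D.PP H [] k j := fun g hg j => by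
    have := c4 rfl g (SS_le hg).1 j
    rwa [D.ak_eq_zero.2 hg.2, sub_zero, tac_I D hg.1] at this
  have hT : ∀ m : ℕ, (op D.gm ^ m) (D.PP H [] k 0) = D.PP H [] k m := fun m => by
    have := c4 rfl _ (D.GK.pow_mem (gK D) m) m
    rwa [Dat.ak, a_pow, map_natCast, sub_self, tac_I D (pow_mem D.gI m), ← op_pow] at this
  obtain ⟨k, rfl⟩ : ∃ k', k = k' + 1 := ⟨k - 1, by omega⟩
  set s := 2 ^ (k + 1) - f.natDegree with hs
  have h6 : (X + 1) ^ s ∈ J (hS D (k + 1)) (D.PP H [] (k + 1) 0) := by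
    refine ⟨∑ m ∈ Finset.range (2 ^ (k + 1)), s.choose m • 2 ^ k • Q m, ?_, fun g hg => ?_⟩
    · rw [aeval_eq_sum_range' (n := 2 ^ (k + 1)), Finset.smul_sum, LinearMap.sum_apply]
      · refine Finset.sum_congr rfl fun m _ => ?_
        rw [coeff_X_add_one_pow, LinearMap.smul_apply, hT, natCast_zsmul, smul_comm, smul_smul 2,
          ← pow_succ', (hQ m).1]
      · refine natDegree_pow_le.trans_lt ?_
        rw [← C_1, natDegree_X_add_C]
        omega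
    · have e : ac g (∑ m ∈ Finset.range (2 ^ (k + 1)), s.choose m • 2 ^ k • Q m) -
          ∑ m ∈ Finset.range (2 ^ (k + 1)), s.choose m • 2 ^ k • Q m = D.T.pt ((2⁻¹ : ℚ_[2]) •
            ∑ m ∈ Finset.range (2 ^ (k + 1)), s.choose m • v (k + 1) g m) := by
        rw [map_sum, ← Finset.sum_sub_distrib, Finset.smul_sum, map_sum]
        refine Finset.sum_congr rfl fun m hm => ?_
        obtain ⟨-, a1, a2⟩ := (hQ m).2 g (SS_le hg).1
        rw [a1 (c4 rfl g (SS_le hg).1 m), D.ak_eq_zero.2 hg.2, sub_zero, sub_zero, tac_I D hg.1,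
          ZMod.val_cast_of_lt (Finset.mem_range.1 hm)] at a2
        rw [map_nsmul, map_nsmul, ← smul_sub, ← smul_sub, ← a2, smul_comm (2⁻¹ : ℚ_[2]), map_nsmul,
          ← map_nsmul D.T.pt (2 ^ k), ← Nat.cast_smul_eq_nsmul ℚ_[2] (2 ^ k), smul_smul]
        congr 3
        push_cast
        field_simp
        ring
      rw [e, D.T.kq (IsUltrametricDist.norm_sum_le_of_forall_le_of_nonneg zero_le_one
        fun m _ => (IsUltrametricDist.norm_nsmul_le _ _).trans (hn g m))]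
      have := sum_lt (by omega) k4 (fun j => ⟨v (k + 1) g j 0 + v (k + 1) g j 1,
        (IsUltrametricDist.norm_add_le_max _ _).trans (max_le ((norm_le_pi_norm _ 0).trans (hn g j))
          ((norm_le_pi_norm _ 1).trans (hn g j)))⟩) (k3 g hg.1 hg.2)
      simp only [Finset.sum_apply, Pi.smul_apply]
      simpa only [nsmul_eq_mul, mul_add, Finset.sum_add_distrib] using this
  obtain ⟨c, hc⟩ := sub_dvd_pow_sub_pow (X + 1 : ℤ[X]) (X - 1) s
  rw [iter, show (X - 1 : ℤ[X]) ^ s = (X + 1) ^ s - c * 2 by linear_combination -hc]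
  exact (J (hS D _) _).sub_mem h6
    ((J (hS D _) _).mul_mem_left c (two_mul_mem _ fun g hg => hfix g hg 0))

end Pool.Agent.P.MP_8b7eba_nt.R2
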