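import Pool.Agent.P.MP_8b7eba_nt.R2.TNV2B

/-! Proof of NV2. -/

namespace Pool.Agent.P.MP_8b7eba_nt.R2

open scoped NNReal Matrix
open MP_9c97e9_nt (Pt pm Is ap Sha Split)
open Filter Topology Polynomial Module

namespace TNV2

theorem norm_four : ‖(4 : ℚ_[2])⁻¹‖ = 4 := by
  rw [norm_inv, show (4 : ℚ_[2]) = ((2 : ℕ) : ℚ_[2]) ^ 2 by norm_num, norm_pow, Padic.norm_p]
  norm_num

/-- the shape of the twisted representation modulo four -/
theorem rd_int (D : Dat) : ∃ x : Fin 2 → GQ → ℤ_[2],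
    (∀ g, 1 - 2 * x 0 g = sd D.dl g * (cyc g : ℤ_[2])) ∧ (∀ g, g D.dl = D.dl → x 1 g = 0) ∧
    ∀ g, ∃ z : Fin 2 → Fin 2 → ℤ_[2], ∀ i j, D.T.rd D.dl g i j =
      (((if i = j then 1 - 2 * x i g else 0) + 4 * z i j : ℤ_[2]) : ℚ_[2]) := by
  have h0 : ∀ g, ∃ y : ℤ_[2], 1 - 2 * y = sd D.dl g * (cyc g : ℤ_[2]) := fun g => by
    obtain ⟨y, hy⟩ := (tz_iff (1 - sd D.dl g * (cyc g : ℤ_[2]))).1 (by
      rw [map_sub, map_one, map_mul, (show ∀ a : ZMod 2, IsUnit a → a = 1 by decide) _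
        ((cyc g).isUnit.map (PadicInt.toZMod (p := 2))), map_intCast]
      rcases sd_cases D.dl g with e | e <;> rw [e] <;> decide)
    exact ⟨y, by linear_combination hy⟩
  choose y hy using h0
  have h1 : ∀ g, ∃ y : ℤ_[2], 1 - 2 * y = sd D.dl g ∧ (g D.dl = D.dl → y = 0) := fun g => by
    unfold sd
    split_ifs with e
    · exact ⟨0, by simp, fun _ => rfl⟩
    · exact ⟨1, by norm_num, fun e' => (e e').elim⟩
  choose y' hy' hy'' using h1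
  refine ⟨![y, y'], hy, hy'', fun g => ?_⟩
  have hn : ∀ i j, ‖(sd D.dl g : ℚ_[2]) * (4⁻¹ * (D.T.rho g - !![cq g, 0; 0, 1]) i j)‖ ≤ 1 :=
    fun i j => by
      rw [norm_mul, norm_mul, norm_four]
      refine mul_le_one₀ (Padic.norm_int_le_one _) (by positivity) ?_
      exact (mul_le_mul_of_nonneg_left (D.T.four g i j) (by norm_num)).trans (by norm_num)
  obtain ⟨z, hz⟩ : ∃ z : Fin 2 → Fin 2 → ℤ_[2], ∀ i j, (z i j : ℚ_[2]) =
      (sd D.dl g : ℚ_[2]) * (4⁻¹ * (D.T.rho g - !![cq g, 0; 0, 1]) i j) :=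
    ⟨fun i j => ⟨_, hn i j⟩, fun _ _ => rfl⟩
  refine ⟨z, fun i j => ?_⟩
  have c4 : ((4 : ℤ_[2]) : ℚ_[2]) = 4 := map_ofNat PadicInt.Coe.ringHom 4
  rw [PadicInt.coe_add, PadicInt.coe_mul, hz, c4]
  fin_cases i <;> fin_cases j <;> simp [Tate.rd, hy, hy', cq] <;> ring

/-- the universal polynomials -/
theorem univ {v : KA} (hv : ∀ k g j, ‖v k g j‖ ≤ 1) (k : ℕ) : ∃ P : GQ → Fin 2 → ℤ_[2][X],
    (∀ g g', v k g = v k g' → P g = P g') ∧
    (∀ g i n, ((P g i).coeff n : ℚ_[2]) = ∑ j ∈ Finset.range (2 ^ k), (j.choose n : ℚ_[2]) * v k g j i) ∧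
    ∀ (A : Type) [NormedCommRing A] [NormedAlgebra ℚ_[2] A] (ψ : ℤ_[2] → A), IsPsi ψ → ∀ g i,
      ev ψ (P g i) = ∑ j ∈ Finset.range (2 ^ k), v k g j i • ψ j := by
  obtain ⟨z, hz⟩ : ∃ z : GQ → ℕ → Fin 2 → ℤ_[2], ∀ g j i, (z g j i : ℚ_[2]) = v k g j i :=
    ⟨fun g j i => ⟨_, (norm_le_pi_norm _ i).trans (hv k g j)⟩, fun _ _ _ => rfl⟩
  refine ⟨fun g i => ∑ j ∈ Finset.range (2 ^ k), C (z g j i) * (1 + X) ^ j, fun g g' e => ?_,
    fun g i n => ?_, fun A _ _ ψ h g i => ?_⟩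
  · beta_reduce
    rw [show z g = z g' from funext₂ fun j i => Subtype.ext (by rw [hz, hz, e])]
  · rw [finsetSum_coeff]
    refine (map_sum PadicInt.Coe.ringHom _ _).trans (Finset.sum_congr rfl fun j _ => ?_)
    rw [coeff_C_mul, coeff_one_add_X_pow, map_mul, map_natCast, mul_comm, ← hz]
    rfl
  · rw [map_sum]
    exact Finset.sum_congr rfl fun j _ => by rw [map_mul, ev_C, ev_U h, hz]

variable {A : Type} [NormedCommRing A] [NormedAlgebra ℚ_[2] A] {ψ : ℤ_[2] → A} {D : Dat}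

theorem r_ev {g : GQ} {x : Fin 2 → ℤ_[2]} {z : Fin 2 → Fin 2 → ℤ_[2]}
    (hz : ∀ i j, D.T.rd D.dl g i j = (((if i = j then 1 - 2 * x i else 0) + 4 * z i j : ℤ_[2]) : ℚ_[2]))
    {u p : ℤ_[2][X]} (hp : ψ (D.a g) - ev ψ u = ev ψ (4 * p)) (M : Fin 2 → ℤ_[2][X]) (i : Fin 2) :
    ∃ q, D.r ψ g (fun j => ev ψ (M j)) i = ev ψ ((1 - 2 * C (x i)) * u * M i + 4 * q) := by
  refine ⟨(1 - 2 * C (x i)) * p * M i + (u + 4 * p) * (C (z i 0) * M 0 + C (z i 1) * M 1), ?_⟩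
  rw [Dat.r_apply, Pi.smul_apply, mv_apply, hz, hz, ← ev_C, ← ev_C, smul_eq_mul,
    eq_add_of_sub_eq hp, ← map_mul, ← map_mul, ← map_add, ← map_add, ← map_mul]
  congr 1
  fin_cases i <;> simp [map_ofNat] <;> ring

variable [IsUltrametricDist A] [FiniteDimensional ℚ_[2] A]

theorem ap_raw (h : IsPsi ψ) {v : KA} (hv : ∀ k g j, ‖v k g j‖ ≤ 1) (hs : ∀ k, Sm D.GK (v k)) :
    Ap (fun _ => D.GK) (fun k g i => ∑ j ∈ Finset.range (2 ^ k), v k g j i • ψ j) (raw ψ v) :=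
  ⟨⟨1, fun k g => (pi_norm_le_iff_of_nonneg zero_le_one).2 fun i =>
      IsUltrametricDist.norm_sum_le_of_forall_le_of_nonneg zero_le_one fun j _ =>
        (norm_smul_le _ _).trans (mul_le_one₀ ((norm_le_pi_norm _ i).trans (hv k g j))
          (norm_nonneg _) (h.le _))⟩,
    fun k => ((hs k).comp fun (t : ℕ → V2) (i : Fin 2) =>
      ∑ j ∈ Finset.range (2 ^ k), t j i • ψ j).uc, fun g _ => tendsto_raw h hv g⟩

end TNV2

open TNV2

theorem t_NV2 (hCP : CP) : NV2 := by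
  intro D v hv hsm hPZ A _ _ _ _ ψ f hAF hf hX hStr
  obtain ⟨s, F, h, hs, hm, rfl, hF⟩ := lift hf hX
  obtain ⟨A', _, _, _, _, ψ', hAF'⟩ := hCP.afx.1 _ (hCP.afx.2.1 _ _ hf hCP.afx.2.2.2.1)
  obtain ⟨ε, hε, L⟩ := lat hf.1 hAF
  obtain ⟨ε', hε', L'⟩ := lat (hf.1.mul monic_X) hAF'
  rw [← map_X (f := PadicInt.Coe.ringHom), ← Polynomial.map_mul] at hAF'
  have hψ := hAF.1
  have hψ' := hAF'.1
  obtain ⟨k1, n1⟩ := hψ.near hε
  obtain ⟨k2, n2⟩ := hψ'.near hε'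
  obtain ⟨N, N1, N2, N3⟩ : ∃ N, k1 ≤ N ∧ k2 ≤ N ∧ s + 2 ≤ 2 ^ N :=
    ⟨k1 + k2 + (s + 2), by omega, by omega, le_add_self.trans Nat.lt_two_pow_self.le⟩
  obtain ⟨w0, hw0⟩ := (Dat.str_iff hψ).1 hStr
  obtain ⟨w1, hw1⟩ := Dat.nz_eq (D := D) (raw ψ v) hψ
  obtain ⟨w, hw⟩ : ∃ w, ∀ g ∈ S1 D.w2.D, raw ψ v g = rS (D.r ψ) g w - w := ⟨w0 - w1, fun g hg => by
    rw [(D.rep hψ).rS_sub, eq_sub_iff_add_eq.2 ((hw1 g (S1_mono D.D_le hg)).symm.trans (hw0 g hg))]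
    abel⟩
  obtain ⟨x, x0, x1, hx⟩ := rd_int D
  choose z hz using hx
  filter_upwards [Cob.near (D.rep hψ) (ap_raw hψ hv hsm) (Eventually.of_forall fun _ => D.D_le) hw hε,
    (hPZ A' ψ' hψ').ac (D.rep hψ') (ap_raw hψ' hv hsm) hε', ev_ge N] with k hk hk' hN
  obtain ⟨P, P1, P2, P3⟩ := univ hv k
  have c1 : ∀ g ∈ D.w2.D, ∀ i, ∃ p, ev ψ (P g i) - (D.r ψ g w i - w i) = ev ψ (4 * p) :=
    fun g hg i => L _ (by rw [P3 A ψ hψ]; exact (norm_le_pi_norm _ i).trans (hk g hg))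
  obtain ⟨M, hM⟩ : ∃ M : Fin 2 → ℤ_[2][X], (fun i => ev ψ (M i)) = (2 : ℚ_[2]) • w := by
    obtain ⟨d1, d2, -⟩ := D.T.det_ne D.fd D.fc
    choose p hp using c1 _ D.fD
    have e1 : mv (D.T.rd D.dl D.f2 - 1) w = fun i => ev ψ (P D.f2 i - 4 * p i) := by
      ext i
      have e := mv_add (D.T.rd D.dl D.f2 - 1) 1 w
      rw [sub_add_cancel, mv_one] at e
      rw [map_sub, ← hp, sub_sub_cancel, Dat.r_apply, D.fa, hψ.zero, one_smul, e, Pi.add_apply,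
        add_sub_cancel_right]
    obtain ⟨t, ht⟩ : ∃ t : Fin 2 → Fin 2 → ℤ_[2], ∀ i j,
        (t i j : ℚ_[2]) = 2 * (D.T.rd D.dl D.f2 - 1)⁻¹ i j := ⟨fun i j => ⟨_, by
      rw [norm_mul, show (2 : ℚ_[2]) = ((2 : ℕ) : ℚ_[2]) from rfl, Padic.norm_p]
      exact (mul_le_mul_of_nonneg_left (d2 i j) (by positivity)).trans (by norm_num)⟩, fun _ _ => rfl⟩
    refine ⟨fun i => C (t i 0) * (P D.f2 0 - 4 * p 0) + C (t i 1) * (P D.f2 1 - 4 * p 1), ?_⟩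
    rw [← mv_one w, ← Matrix.nonsing_inv_mul _ d1.isUnit, mv_mul, e1]
    ext i
    rw [Pi.smul_apply, mv_apply, map_add, map_mul, map_mul, ev_C, ev_C, ht, ht, smul_add, smul_smul,
      smul_smul]
  have u1 : ∀ (g : GQ) (m : ℕ), 2 ^ N ∣ D.a g - m → ∃ p, ψ (D.a g) - ev ψ ((1 + X) ^ m) = ev ψ (4 * p) :=
    fun g m e => L _ (by rw [ev_U hψ]; exact n1 _ _ ((pow_dvd_pow 2 N1).trans e))
  have main := fun i => alg hF {q : GQ × ℕ | q.1 ∈ D.w2.D ∧ 2 ^ N ∣ D.a q.1 - q.2} (M := M i)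
    (fun q => P q.1 i) (fun q => x i q.1) Prod.snd (fun q hq => by
      obtain ⟨p, hp⟩ := c1 _ hq.1 i
      obtain ⟨p', hp'⟩ := u1 _ _ hq.2
      obtain ⟨a, ha⟩ := r_ev (x := fun i => x i q.1) (hz q.1) hp' M i
      obtain ⟨b, hb⟩ := ev_ker hm hAF (p := 2 * P q.1 i -
        (((1 - 2 * C (x i q.1)) * (1 + X) ^ q.2 - 1) * M i + 4 * (a + 2 * p))) (by
          have e := congrFun hM i
          rw [hM, map_smul] at ha
          simp only [Pi.smul_apply, two_smul, map_add, map_mul, map_sub, map_one,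
            map_ofNat] at ha e hp ⊢
          linear_combination 2 * hp + ha + e)
      exact ⟨a + 2 * p, b, by linear_combination hb⟩)
    (g₀ := (D.gm, 1)) ⟨D.w2.I_le_D D.gI, by simp [D.ga]⟩ rfl
  obtain ⟨n, μ, h0⟩ := main 0
  obtain ⟨n', μ', h1⟩ := main 1
  have hμ : μ = 0 := by
    refine (z2 μ).resolve_right fun e => ?_
    subst e
    obtain ⟨m, hm1, hm2⟩ : ∃ m : GQ → ℕ, (∀ g, 2 ^ N ∣ D.a g - m g) ∧
        ∀ g g', 2 ^ N ∣ D.a g - D.a g' → m g = m g' := by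
      refine ⟨fun g => (D.ak N g).val, fun g => ?_, fun g g' e => ?_⟩
      · rw [← Ideal.mem_span_singleton]
        exact PadicInt.ker_toZModPow (p := 2) N ▸ RingHom.mem_ker.2 (by
          rw [map_sub, map_natCast, ZMod.natCast_zmod_val, Dat.ak, sub_self])
      · rw [← Ideal.mem_span_singleton] at e
        have := RingHom.mem_ker.1 ((PadicInt.ker_toZModPow (p := 2) N).symm ▸ e)
        rw [map_sub, sub_eq_zero] at this
        exact congrArg ZMod.val this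
    refine no_lam hCP.toCA D (x 0) x0
      (fun g => (red (P g 0) - ((1 + X) ^ m g - 1) * n).coeff (s + 1)) ?_ fun g hg g' hg' => ?_
    · obtain ⟨U, hU, e⟩ := hsm k
      obtain ⟨U', hU', e'⟩ := D.an.sm N
      refine ⟨U ⊓ U', hU.inf hU', fun g hg t ht ht' => ?_⟩
      beta_reduce
      rw [P1 _ _ (e g (D.D_le hg) t (D.D_le ht) ht'.1), hm2 (g * t) g (by
        rw [D.an.add g (D.D_le hg) t (D.D_le ht), add_sub_cancel_left]
        exact e' t (D.D_le ht) ht'.2)]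
    have hN0 : N ≠ 0 := by rintro rfl; omega
    rw [show PadicInt.toZMod (D.a g) = m g by
      rw [← sub_eq_zero, ← map_natCast PadicInt.toZMod, ← map_sub, tz_iff]
      exact (dvd_pow_self 2 hN0).trans (hm1 g), ← one_mul (PadicInt.toZMod (x 0 g'))]
    refine coc (h0 (g', m g') ⟨hg', hm1 g'⟩) ?_ ((pow_dvd_pow X N3).trans (upow ?_))
    · obtain ⟨p', hp'⟩ := L' (ψ' (D.a g) - ev ψ' ((1 + X) ^ m g))
        (by rw [ev_U hψ']; exact n2 _ _ ((pow_dvd_pow 2 N2).trans (hm1 g)))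
      obtain ⟨a, ha⟩ := r_ev (x := fun i => x i g) (hz g) hp' (P g') 0
      obtain ⟨p, hp⟩ := L' _ ((norm_le_pi_norm _ 0).trans (hk' g (D.D_le hg) g' (D.D_le hg')))
      simp only [← P3 A' ψ' hψ', Pi.sub_apply, ha] at hp
      have := map_dvd red (ev_ker (hm.mul monic_X) hAF' (p := P (g * g') 0 - P g 0 -
        ((1 - 2 * C (x 0 g)) * (1 + X) ^ m g * P g' 0 + 4 * a) - 4 * p) (by
          rw [map_sub, map_sub, map_sub, hp, sub_self]))
      simpa only [hF, map_add, map_mul, map_sub, map_pow, map_one, red_two, red_four, red_X, zero_mul,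
        add_zero, sub_zero, one_mul, ← pow_succ] using this
    · have := ((hm1 g).add (hm1 g')).sub (hm1 (g * g'))
      rw [D.an.add g (D.D_le hg) g' (D.D_le hg')] at this
      convert this using 1
      push_cast
      ring
  intro g hg hd i hi
  have hd' : 2 ^ N ∣ D.a g - (0 : ℕ) := by simpa using (pow_dvd_pow 2 hN).trans hd
  have e0 := h0 (g, 0) ⟨D.w2.I_le_D hg, hd'⟩
  have e1 := h1 (g, 0) ⟨D.w2.I_le_D hg, hd'⟩
  simp only [hμ, x1 g (Pl.I_fix_two D.hw2 D.hdl (by have := D.d8; omega) hg), pow_zero, sub_self,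
    zero_mul, mul_zero, map_zero, sub_zero] at e0 e1
  have e2 := X_pow_dvd_iff.1 (e0.add e1) i (hs ▸ hi)
  rw [← map_add, coe_mapRingHom, coeff_map, tz_norm, PadicInt.norm_def, coeff_add, PadicInt.coe_add,
    P2, P2, ← Finset.sum_add_distrib] at e2
  simpa only [mul_add] using e2

end Pool.Agent.P.MP_8b7eba_nt.R2
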