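import Pool.Agent.P.MP_8b7eba_nt.R2.SelA
import Pool.Agent.P.MP_8b7eba_nt.R2.TOBSA

/-! Proof of OBS. -/

namespace Pool.Agent.P.MP_8b7eba_nt.R2

open scoped NNReal Matrix
open MP_9c97e9_nt (Pt pm Is ap Sha Split)
open Filter Topology Polynomial Module

namespace TOBS

theorem add_le {W : Type} [SeminormedAddGroup W] [IsUltrametricDist W] {v v' : W} {ε : ℝ}
    (h : ‖v‖ ≤ ε) (h' : ‖v'‖ ≤ ε) : ‖v + v'‖ ≤ ε :=
  (IsUltrametricDist.norm_add_le_max v v').trans (max_le h h')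

theorem exists_rep {ε : ℝ} (h0 : 0 ≤ ε) : ∃ s : V2 → V2, (∀ v, ‖s v - v‖ ≤ ε) ∧
    (∀ v v', ‖v - v'‖ ≤ ε → s v = s v') ∧ s 0 = 0 := by
  classical
  have a : ∀ v : V2, ‖Classical.epsilon (fun u => ‖u - v‖ ≤ ε) - v‖ ≤ ε := fun v =>
    Classical.epsilon_spec (p := fun u => ‖u - v‖ ≤ ε) ⟨v, by simpa⟩
  have b : ∀ v v' : V2, ‖v - v'‖ ≤ ε → (fun u => ‖u - v‖ ≤ ε) = fun u => ‖u - v'‖ ≤ ε :=
    fun v v' h => funext fun u => propext ⟨fun e => by simpa using add_le e h,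
      fun e => by simpa using add_le e ((norm_sub_rev _ _).trans_le h)⟩
  generalize (Classical.epsilon : (V2 → Prop) → V2) = t at a
  refine ⟨fun v => if t (fun u => ‖u - v‖ ≤ ε) = t (fun u => ‖u - 0‖ ≤ ε) then 0 else
    t (fun u => ‖u - v‖ ≤ ε), fun v => ?_, fun v v' h => by simp only [b v v' h], if_pos rfl⟩
  beta_reduce
  split_ifs with h
  · have := add_le (a v) ((norm_sub_rev _ _).trans_le (a 0))
    rwa [h, sub_add_sub_cancel'] at this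
  · exact a v

theorem n2 (m : ℕ) : ‖(2 : ℚ_[2]) ^ m‖ = (2 ^ m)⁻¹ := by
  have := @Padic.norm_p 2 _
  rw [Nat.cast_ofNat, Nat.cast_ofNat] at this
  rw [norm_pow, this, inv_pow]

theorem half (hA : CA) {w : Pl} (T : Tate w) (δ : Om) (g : GQ) (v : V2) :
    ‖T.rq δ g v - v‖ ≤ 2⁻¹ * ‖v‖ := by
  have t : ‖(2 : ℚ_[2])‖ = 2⁻¹ := by simpa using n2 1
  have c : ((2 : ℤ_[2]) : ℚ_[2]) = 2 := rfl
  obtain ⟨k, hk⟩ : ∃ k : ℤ_[2], cq g = 1 + 2 * k := by
    rcases (hA.lg.1.dvd 0 (cyc g)).1 (by simp) with ⟨k, h⟩ | ⟨k, h⟩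
    · exact ⟨2 * k, by rw [cq, eq_add_of_sub_eq h]; push_cast; rw [c]; ring⟩
    · exact ⟨2 * k - 1, by rw [cq, eq_sub_of_add_eq h]; push_cast; rw [c]; ring⟩
  have m : ∀ x : ℤ_[2], ‖2 * (x : ℚ_[2])‖ ≤ 2⁻¹ := fun x => by
    rw [norm_mul, t]
    exact mul_le_of_le_one_right (by norm_num) x.2
  have a : ∀ i j, ‖(T.rho g - 1) i j‖ ≤ 2⁻¹ := fun i j => by
    rw [← sub_add_sub_cancel _ !![cq g, 0; 0, 1], Matrix.add_apply]
    refine add_le ((T.four g i j).trans (by norm_num)) ?_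
    fin_cases i <;> fin_cases j <;> simp [hk]
    simpa using m k
  have b : ‖T.rho g *ᵥ v - v‖ ≤ 2⁻¹ * ‖v‖ := by
    rw [show T.rho g *ᵥ v - v = (T.rho g - 1) *ᵥ v by rw [Matrix.sub_mulVec, Matrix.one_mulVec]]
    refine (pi_norm_le_iff_of_nonneg (by positivity)).2 fun i => ?_
    rw [Matrix.mulVec, dotProduct, Fin.sum_univ_two]
    refine add_le ?_ ?_ <;> rw [norm_mul] <;>
      exact mul_le_mul (a _ _) (norm_le_pi_norm v _) (norm_nonneg _) (by norm_num)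
  rw [Tate.rq_apply, Tate.rd, sd]
  split_ifs
  · simpa using b
  · rw [show (((-1 : ℤ) : ℚ_[2]) • T.rho g) *ᵥ v - v = -(T.rho g *ᵥ v - v) + -((2 : ℚ_[2]) • v) by
      rw [Matrix.smul_mulVec, two_smul]; simp only [Int.cast_neg, Int.cast_one, neg_smul, one_smul]
      abel]
    exact add_le (by rwa [norm_neg]) (by rw [norm_neg, norm_smul, t])

/-- the sign of a coordinate -/
noncomputable def En (m : ℕ) (e : Fin 2) (v : V2) : Om := ec (v e / 2 ^ m)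

variable {m : ℕ} {e : Fin 2} {v v' : V2}

theorem En_add (hA : CA) (v v' : V2) : En m e (v + v') = En m e v * En m e v' := by
  rw [En, Pi.add_apply, add_div, hA.ec.1.add, En, En]

theorem En_one (hA : CA) : En m e v = 1 ↔ ‖v e‖ ≤ (2 ^ m)⁻¹ := by
  rw [En, hA.ec.1.eq_one, norm_div, n2, div_le_one (by positivity)]

theorem En_eq (hA : CA) (h : ‖v - v'‖ ≤ (2 ^ m)⁻¹) : En m e v = En m e v' := by
  rw [← sub_add_cancel v v', En_add hA, (En_one hA).2 ((norm_le_pi_norm _ e).trans h), one_mul]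

theorem En_sq (hA : CA) (h : ‖v‖ ≤ (2 ^ m)⁻¹) : En (m + 1) e v ^ 2 = 1 := by
  rw [sq, ← En_add hA, En_one hA, Pi.add_apply, ← two_mul, norm_mul, ← pow_one (2 : ℚ_[2]), n2,
    pow_one, pow_succ', mul_inv]
  exact mul_le_mul_of_nonneg_left ((norm_le_pi_norm _ e).trans h) (by norm_num)

theorem En_rq (hA : CA) {w : Pl} (T : Tate w) (δ : Om) (g : GQ) (h : ‖v‖ ≤ (2 ^ m)⁻¹) :
    En (m + 1) e (T.rq δ g v) = En (m + 1) e v :=
  En_eq hA ((half hA T δ g v).trans (by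
    rw [pow_succ', mul_inv]
    exact mul_le_mul_of_nonneg_left h (by norm_num)))

theorem Gd_le (D : Dat) (n : ℕ) : D.Gd (2 ^ (n + 1)) ≤ D.Gd (2 ^ n) :=
  fun _ h => ⟨h.1, (pow_dvd_pow 2 n.le_succ).trans h.2⟩

theorem key (hA : CA) (hLAY : LAY) (hVN : VN) (D : Dat) {n : ℕ} {G U : Subgroup GQ}
    (hG : G = D.Gd (2 ^ n)) (hU : U = D.Gd (2 ^ (n + 1)))
    (hn : ∀ p ∈ D.d.natAbs.primeFactors, D.np p ≤ n) {f : GQ → GQ → Om} (hf : Co2 G f)
    (h2 : ∀ g ∈ G, ∀ h ∈ G, f g h ^ 2 = 1) (h1 : ∀ g ∈ G, f 1 g = 1)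
    (hD : ∀ g ∈ G, ∀ j ∈ D.w2.D ⊓ G, f g j = 1)
    (hI : ∀ w : Pl, ¬ (w.p : ℤ) ∣ 30 * D.d → ∀ g ∈ G, ∀ h ∈ G, ∀ j ∈ w.I ⊓ G,
      f (g * j) h = f g h ∧ f g (h * j) = f g h) :
    ∃ b : GQ → Om, Sm U b ∧ (∀ g, b g ^ 2 = 1) ∧
      (∀ g ∈ U, ∀ h ∈ U, f g h * b (g * h) = b g * b h) ∧ (∀ j ∈ D.w2.D ⊓ U, b j = 1) ∧
      ∀ w : Pl, ¬ (w.p : ℤ) ∣ 30 * D.d → ∀ j ∈ w.I ⊓ U, b j = 1 := by
  classical
  have le : U ≤ G := hG ▸ hU ▸ Gd_le D n
  obtain ⟨oG, -, iG, -, -, -, -, nG, -⟩ := hG ▸ hLAY D n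
  obtain ⟨oU, tU, iU, -⟩ := hU ▸ hLAY D (n + 1)
  rw [← hU] at nG
  have ix : U.relIndex G = 2 := by
    have := Subgroup.relIndex_mul_index le
    rw [iG, iU, pow_succ' 2 (n + 1)] at this
    exact mul_right_cancel₀ (by positivity) this
  have fU := hf.mono le
  have t2 : Triv G (f ^ 2) := Triv.one.congr h2
  have tr : Triv U f := by
    refine hA.abhn U f oU.2 tU ⟨fU, 1, t2.mono le⟩ fun w => ?_
    by_cases hw : (w.p : ℤ) ∣ 30 * D.d
    · refine (hA.die w _ f (w.loc_inf oG.2) (hf.mono inf_le_right) (t2.mono inf_le_right)).1 _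
        (w.loc_inf oU.2) (inf_le_inf_left _ le) ?_
      have a := Subgroup.relIndex_le_of_le_right (H := U) (inf_le_right : w.D ⊓ G ≤ G)
        (relIndex_ne_zero oU.2 _)
      have b := relIndex_ne_zero oU.2 (w.D ⊓ G)
      have c := mt Subgroup.relIndex_eq_one.1 ((nG hn).2 w hw)
      rw [show w.D ⊓ U = U ⊓ (w.D ⊓ G) by rw [inf_left_comm, inf_eq_left.2 le],
        Subgroup.inf_relIndex_right]
      omega
    · exact hA.unr w _ (w.loc_inf oU.2) 1 f (fU.mono inf_le_right)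
        (fun g hg h hh => h2 g (le hg.2) h (le hh.2)) fun g hg h hh j hj =>
        have := hI w hw g (le hg.2) h (le hh.2) j ⟨hj.1, le hj.2.2⟩
        ⟨this.1, this.2, gal (h2 g (le hg.2) h (le hh.2)) j⟩
  obtain ⟨b, b1, b2, b3⟩ := ((hA.gal U (closed_of_open oU.2)).2.2.2.2 2 f fU (t2.mono le)
    two_ne_zero).2 (fun g hg h hh => h2 g (le hg) h (le hh)) tr
  replace b3 : ∀ g ∈ U, ∀ h ∈ U, f g h * b (g * h) = b g * b h := fun g hg h hh => by
    rw [b3 g hg h hh, gal (b2 h hh)]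
  have r : ∀ w : Pl, ¬ (w.p : ℤ) ∣ 30 * D.d → ∀ g ∈ U, ∀ j ∈ w.I ⊓ U,
      b (g * j) = b g * b j ∧ b (j * g) = b j * b g := fun w hw g hg j hj => by
    have p := (hI w hw g (le hg) 1 G.one_mem j ⟨hj.1, le hj.2⟩).2
    have q := (hI w hw 1 G.one_mem g (le hg) j ⟨hj.1, le hj.2⟩).1
    rw [one_mul] at p q
    rw [← b3 g hg j hj.2, ← b3 j hj.2 g hg, p, q, h1 g (le hg), hD g (le hg) 1 (one_mem _), one_mul,
      one_mul]
    exact ⟨rfl, rfl⟩
  have sD : Sg (D.w2.D ⊓ U) b := ⟨b1.mono inf_le_right, fun g hg => b2 g hg.2, fun g hg h hh => by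
    rw [← b3 g hg.2 h hh.2, hD g (le hg.2) h ⟨hh.1, le hh.2⟩, one_mul]⟩
  obtain ⟨χ, c1, c2, c3⟩ := adjust hA hVN D hU oU.2 (b := b) (fun w hw => ⟨b1.mono inf_le_right,
    fun g hg => b2 g hg.2, fun g hg h hh => (r w hw g hg.2 h hh).1⟩) (fun w hw u hu j hj => by
      have := (r (u • w) hw u hu _ (conj_mem hu hj)).2
      rw [inv_mul_cancel_right, (r w hw u hu j hj).1, mul_comm] at this
      exact (mul_right_cancel₀ (ne0 (b2 u hu)) this).symm) b1 sD.one sD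
  refine ⟨fun g => if g ∈ U then b g * χ g else 1,
    (b1.comp₂ c1.sm (· * ·)).congr fun g hg => if_pos hg, fun g => ?_, fun g hg h hh => ?_,
    fun j hj => ?_, fun w hw j hj => ?_⟩
  · beta_reduce
    split_ifs with hg
    · rw [mul_pow, b2 g hg, c1.sq g hg, one_mul]
    · exact one_pow 2
  · beta_reduce
    rw [if_pos hg, if_pos hh, if_pos (U.mul_mem hg hh), c1.mul g hg h hh, ← mul_assoc, b3 g hg h hh]
    ring
  · beta_reduce
    rw [if_pos (show j ∈ U from hj.2), c2 j hj, ← sq, b2 j hj.2]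
  · beta_reduce
    rw [if_pos (show j ∈ U from hj.2), c3 w hw j hj, ← sq, b2 j hj.2]

end TOBS

open TOBS in
theorem t_OBS (hCF : CF) (hLAY : LAY) (hVN : VN) : OBS := by
  classical
  intro D n i c hn hc
  have hA := hCF.toCA
  have hr := D.T.rep D.fix_dl
  have e1 : ((2 : ℝ) ^ i)⁻¹ ≤ 1 := inv_le_one_of_one_le₀ (one_le_pow₀ one_le_two)
  obtain ⟨s, s1, s2, s3⟩ := exists_rep (ε := (2 ^ i)⁻¹) (by positivity)
  obtain ⟨G, hG⟩ : ∃ G, G = D.Gd (2 ^ n) := ⟨_, rfl⟩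
  obtain ⟨c1, c2, c3, c4, c5⟩ := hc
  simp only [← hG, ← Tate.rq_apply] at c1 c3 c4 c5
  have nG : G.Normal := hG ▸ (hLAY D n).1.1
  have k1 : Sm G fun g => s (c g) := c1.comp s
  have k2 : ∀ g, ‖s (c g)‖ ≤ 1 := fun g => by simpa using add_le ((s1 (c g)).trans e1) (c2 g)
  have k5 : ∀ j ∈ G, ‖c j‖ ≤ (2 ^ i)⁻¹ → s (c j) = 0 ∧ ∀ g ∈ G, s (c (g * j)) = s (c g) :=
    fun j hj h => ⟨(s2 _ _ (by simpa using h)).trans s3, fun g hg => s2 _ _ (by
      simpa using add_le (c3 g hg j hj) ((hr.le g _).trans h))⟩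
  have k3 := fun v => s1 (c v)
  generalize hk : (fun g => s (c g)) = k at k1
  simp only [congrFun hk] at k2 k3 k5
  obtain ⟨o, ho⟩ : ∃ o : GQ → GQ → V2, ∀ g h, o g h = k (g * h) - k g - D.T.rq D.dl g (k h) :=
    ⟨_, fun _ _ => rfl⟩
  have k4 : ∀ g ∈ G, ∀ h ∈ G, ‖o g h‖ ≤ (2 ^ i)⁻¹ := fun g hg h hh => by
    have := add_le (add_le (add_le (c3 g hg h hh) (k3 (g * h))) ((norm_sub_rev _ _).trans_le (k3 g)))
      ((hr.le g _).trans ((norm_sub_rev _ _).trans_le (k3 h)))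
    rw [map_sub] at this
    exact (congrArg norm (by rw [ho]; abel)).trans_le this
  have ru : ∀ w : Pl, ¬ (w.p : ℤ) ∣ 30 * D.d → ∀ j ∈ w.I, ∀ v, D.T.rq D.dl j v = v := by
    intro w hw j hj v
    rw [Tate.rq_apply, Tate.rd, sd, if_pos (Pl.I_fix hA.tame hA.res (odd hw) D.hdl
      (fun h => hw (h.mul_left _)) hj),
      (hCF.tr _ D.T w fun h => hw (Dvd.dvd.mul_right (by exact_mod_cast h) _)).1 j hj]
    simp
  have z : ∀ e, En (i + 1) e 0 = 1 := fun e => (En_one hA).2 (by simp)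
  have main := fun e => key hA hLAY hVN D hG rfl hn (f := fun g h => En (i + 1) e (o g h))
    ⟨fun g hg h hh => ne0 (En_sq hA (k4 g hg h hh)), by
      obtain ⟨N, hN, a⟩ := k1.left
      obtain ⟨N', hN', a'⟩ := hr.sm (2 ^ (i + 1))⁻¹ (by positivity)
      obtain ⟨N'', hN'', a''⟩ := k1.mul2
      refine ⟨_, (hN.inf hN').inf hN'', fun g hg h hh j hj m => ?_⟩
      obtain ⟨p, q⟩ := a'' g hg h hh j hj m.2
      beta_reduce at p q ⊢
      rw [ho, ho, ho, p, q, (a g hg j hj m.1.1).1, (a h hh j hj m.1.1).1]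
      refine ⟨En_eq hA ?_, rfl⟩
      rw [sub_sub_sub_cancel_left, hr.mul g trivial j trivial, ← map_sub]
      exact (hr.le _ _).trans ((norm_sub_rev _ _).trans_le ((a' j trivial m.1.2 _).trans
        (mul_le_of_le_one_right (by positivity) (k2 h)))), fun g hg h hh l hl => by
      rw [gal (En_sq hA (k4 h hh l hl)), ← En_rq hA D.T D.dl g (k4 h hh l hl), ← En_add hA,
        ← En_add hA]
      simp only [ho, map_sub, mul_assoc, hr.mul g trivial h trivial]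
      congr 1
      abel⟩
    (fun g hg h hh => En_sq hA (k4 g hg h hh))
    (fun g hg => by
      rw [ho, one_mul, hr.one, (k5 1 G.one_mem (c4 1 (one_mem _))).1, sub_zero, sub_self, z])
    (fun g hg j hj => by
      obtain ⟨p, q⟩ := k5 j hj.2 (c4 j hj)
      rw [ho, p, q g hg, map_zero, sub_zero, sub_self, z])
    (fun w hw g hg h hh j hj => by
      obtain ⟨p, q⟩ := k5 j hj.2 (c5 w hw j hj)
      have m := conj_mem (G.inv_mem hh) hj
      have q' := (k5 _ m.2 (c5 (h⁻¹ • w) hw _ m)).2 _ (G.mul_mem hg hh)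
      rw [show g * h * (h⁻¹ * j * h⁻¹⁻¹) = g * j * h by group] at q'
      rw [ho, ho, ho, q', q g hg, q h hh, ← mul_assoc, q _ (G.mul_mem hg hh),
        hr.mul g trivial j trivial, ru w hw j hj.1]
      exact ⟨rfl, rfl⟩)
  choose b b1 b2 b3 b4 b5 using main
  obtain ⟨β, hβ⟩ : ∃ β : GQ → V2, ∀ g e, β g e = if b e g = 1 then 0 else 2 ^ i :=
    ⟨_, fun _ _ => rfl⟩
  have β1 : ∀ g, ‖β g‖ ≤ (2 ^ i)⁻¹ := fun g =>
    (pi_norm_le_iff_of_nonneg (by positivity)).2 fun e => by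
      rw [hβ]
      split_ifs
      · simp
      · exact (n2 i).le
  have β2 : ∀ g e, En (i + 1) e (β g) = b e g := fun g e => by
    by_cases h : b e g = 1
    · rw [h, En_one hA, hβ, if_pos h]
      simp
    · rw [(sq_eq_one_iff.1 (b2 e g)).resolve_left h]
      refine (sq_eq_one_iff.1 (En_sq hA (β1 g))).resolve_left fun h' => ?_
      rw [En_one hA, hβ, if_neg h, n2] at h'
      exact absurd h' (not_le.2 (inv_strictAnti₀ (by positivity)
        (pow_lt_pow_right₀ one_lt_two i.lt_succ_self)))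
  have le := hG ▸ Gd_le D n
  have β0 : ∀ j ∈ G, ‖c j‖ ≤ (2 ^ i)⁻¹ → (∀ e, b e j = 1) → ‖k j + β j‖ ≤ (2 ^ (i + 1))⁻¹ :=
    fun j hj h h' => by
      rw [(k5 j hj h).1, show β j = 0 from funext fun e => by rw [hβ, if_pos (h' e)]; rfl]
      simp
  refine ⟨fun g => k g + β g, ⟨(k1.mono le).comp₂ (Sm.pi fun e =>
    ((b1 e).comp fun x => if x = 1 then 0 else 2 ^ i).congr fun g _ => hβ g e) (· + ·),
    fun g => add_le (k2 g) ((β1 g).trans e1), fun g hg h hh => ?_,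
    fun j hj => β0 j (le hj.2) (c4 j ⟨hj.1, le hj.2⟩) fun e => b4 e j hj,
    fun w hw j hj => β0 j (le hj.2) (c5 w hw j ⟨hj.1, le hj.2⟩) fun e => b5 e w hw j hj⟩,
    fun g _ => (congrArg norm (add_sub_right_comm _ _ _)).trans_le (add_le (k3 g) (β1 g))⟩
  refine (pi_norm_le_iff_of_nonneg (by positivity)).2 fun e => (En_one hA).1 ?_
  have := b3 e g hg h hh
  rw [← β2 (g * h), ← En_add hA] at this
  refine mul_right_cancel₀ (mul_ne_zero (ne0 (b2 e g)) (ne0 (b2 e h))) ?_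
  rw [one_mul]
  refine Eq.trans ?_ this
  rw [← β2 g, ← β2 h, ← En_rq hA D.T D.dl g (β1 h), ← En_add hA, ← En_add hA, ho,
    ← Tate.rq_apply, map_add]
  congr 1
  abel

end Pool.Agent.P.MP_8b7eba_nt.R2
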