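import Pool.Agent.P.MP_8b7eba_nt.R2.GrpA
import Pool.Agent.P.MP_8b7eba_nt.R2.PatB

/-! Proof of PIX. -/

namespace Pool.Agent.P.MP_8b7eba_nt.R2

open scoped NNReal Matrix
open MP_9c97e9_nt (Pt pm Is ap Sha Split)
open Filter Topology Polynomial Module

namespace TPIX

theorem norm_two (i : ℕ) : ‖(2 : ℚ_[2]) ^ i‖ = (2 ^ i)⁻¹ := by
  have h : ‖((2 : ℕ) : ℚ_[2])‖ = ((2 : ℕ) : ℝ)⁻¹ := Padic.norm_p
  rw [Nat.cast_ofNat, Nat.cast_ofNat] at h
  rw [norm_pow, h, inv_pow]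

theorem exists_pow (C : ℝ) : ∃ j : ℕ, C ≤ 2 ^ j :=
  let ⟨j, h⟩ := pow_unbounded_of_one_lt C one_lt_two; ⟨j, h.le⟩

theorem norm_mul_two {x : ℚ_[2]} {j : ℕ} (h : ‖x‖ ≤ 2 ^ j) : ‖2 ^ j * x‖ ≤ 1 := by
  rw [norm_mul, norm_two]
  exact inv_mul_le_one_of_le₀ h (by positivity)

theorem decomp (c : ℚ_[2]) {ε : ℝ} (hε : 0 < ε) : ∃ n i : ℕ, ‖c - n * (2 ^ i)⁻¹‖ ≤ ε := by
  obtain ⟨i, hi⟩ := exists_pow ‖c‖
  obtain ⟨n, hn⟩ := PadicInt.denseRange_natCast.exists_dist_lt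
    (⟨2 ^ i * c, norm_mul_two hi⟩ : ℤ_[2]) (div_pos hε (pow_pos two_pos i))
  have h : ‖2 ^ i * c - n‖ < ε / 2 ^ i := by
    rw [dist_eq_norm, PadicInt.norm_def, PadicInt.coe_sub, PadicInt.coe_natCast] at hn
    exact hn
  refine ⟨n, i, ?_⟩
  have e : c - n * (2 ^ i)⁻¹ = (2 ^ i * c - n) * (2 ^ i)⁻¹ := by field_simp
  rw [e, norm_mul, norm_inv, norm_two, inv_inv]
  exact (le_div_iff₀ (pow_pos two_pos i)).1 h.le

section ec
variable (hE : IsEc ec)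
include hE

theorem ec_zero : ec 0 = 1 := (hE.eq_one 0).2 (by simp)

theorem ec_ne (x : ℚ_[2]) : ec x ≠ 0 := fun h => by
  have := hE.add x (-x)
  rw [add_neg_cancel, ec_zero hE, h, zero_mul] at this
  exact one_ne_zero this

theorem ec_eq {x y : ℚ_[2]} : ec x = ec y ↔ ‖x - y‖ ≤ 1 := by
  rw [← hE.eq_one, ← mul_left_inj' (a := ec (x - y)) (ec_ne hE y), ← hE.add, sub_add_cancel, one_mul]

theorem ec_pow (x : ℚ_[2]) (n : ℕ) : ec (n * x) = ec x ^ n := by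
  induction n with
  | zero => rw [Nat.cast_zero, zero_mul, pow_zero, ec_zero hE]
  | succ n ih => rw [Nat.cast_succ, add_mul, one_mul, hE.add, ih, pow_succ]

theorem ec_sum {ι : Type} (s : Finset ι) (x : ι → ℚ_[2]) :
    ec (∑ i ∈ s, x i) = ∏ i ∈ s, ec (x i) := by
  classical
  induction s using Finset.induction_on with
  | empty => rw [Finset.sum_empty, Finset.prod_empty, ec_zero hE]
  | insert i s hi ih => rw [Finset.sum_insert hi, Finset.prod_insert hi, hE.add, ih]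

theorem ec_inj {t t' : ℚ_[2]} (h : ∀ i : ℕ, ec ((2 ^ i)⁻¹ * t) = ec ((2 ^ i)⁻¹ * t')) : t = t' := by
  by_contra hne
  have h0 : 0 < ‖t - t'‖ := norm_pos_iff.2 (sub_ne_zero.2 hne)
  obtain ⟨i, hi⟩ := pow_unbounded_of_one_lt ‖t - t'‖⁻¹ (one_lt_two (α := ℝ))
  have h1 := (ec_eq hE).1 (h i)
  rw [← mul_sub, norm_mul, norm_inv, norm_two, inv_inv] at h1
  rw [inv_lt_iff_one_lt_mul₀ h0] at hi
  exact hi.not_ge h1

/-- continuous characters of the 2-adic numbers -/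
theorem char (φ : ℚ_[2] → Om) (ha : ∀ x y, φ (x + y) = φ x * φ y) (s : ℕ)
    (h1 : ∀ x, ‖x‖ ≤ (2 ^ s)⁻¹ → φ x = 1) : ∃ t, ∀ c, φ c = ec (c * t) := by
  have hp : ∀ (x : ℚ_[2]) (n : ℕ), φ (n * x) = φ x ^ n := fun x n => by
    induction n with
    | zero => rw [Nat.cast_zero, zero_mul, pow_zero, h1 0 (by simp)]
    | succ n ih => rw [Nat.cast_succ, add_mul, one_mul, ha, ih, pow_succ]
  have h2 : ∀ i : ℕ, ∃ m : ℤ, φ (2 ^ i)⁻¹ = ec (m / 2 ^ (i + s)) := fun i =>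
    hE.surj _ _ (by
      rw [← hp, h1]
      refine le_of_eq ((congrArg _ ?_).trans (norm_two s))
      push_cast
      field_simp
      ring)
  choose m hm using h2
  have h3 : ∀ i j : ℕ, i ≤ j → ‖(m j : ℚ_[2]) / 2 ^ (i + s) - m i / 2 ^ (i + s)‖ ≤ 1 := by
    intro i j hij
    obtain ⟨d, rfl⟩ := Nat.exists_eq_add_of_le hij
    rw [← ec_eq hE, ← hm]
    have e1 : ((2 : ℚ_[2]) ^ i)⁻¹ = ((2 ^ d : ℕ) : ℚ_[2]) * (2 ^ (i + d))⁻¹ := by
      push_cast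
      field_simp
      ring
    have e2 : (m (i + d) : ℚ_[2]) / 2 ^ (i + s) =
        ((2 ^ d : ℕ) : ℚ_[2]) * (m (i + d) / 2 ^ (i + d + s)) := by
      push_cast
      field_simp
      ring
    rw [e1, e2, hp, ec_pow hE, hm]
  have h4 : Tendsto (fun j => (m j : ℚ_[2])) UF (𝓝 (ul fun j => (m j : ℚ_[2]))) :=
    tendsto_ul (B := 1) (Eventually.of_forall fun j => Padic.norm_int_le_one _)
  generalize (ul fun j => (m j : ℚ_[2])) = t at h4
  have h5 : ∀ i : ℕ, φ (2 ^ i)⁻¹ = ec ((2 ^ i)⁻¹ * (t / 2 ^ s)) := fun i => by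
    have e : ((2 : ℚ_[2]) ^ i)⁻¹ * (t / 2 ^ s) = t / 2 ^ (i + s) := by
      field_simp
      ring
    rw [hm, e, eq_comm, ec_eq hE]
    exact le_of_tendsto ((h4.div_const _).sub_const _).norm ((ev_ge i).mono (h3 i))
  generalize t / 2 ^ s = t at h5
  refine ⟨t, fun c => ?_⟩
  obtain ⟨n, i, h⟩ := decomp c (ε := min (2 ^ s)⁻¹ (‖t‖ + 1)⁻¹) (by positivity)
  have e : c = n * (2 ^ i)⁻¹ + (c - n * (2 ^ i)⁻¹) := by ring
  rw [e, ha, h1 _ (h.trans (min_le_left _ _)), mul_one, hp, h5, ← ec_pow hE, ec_eq hE]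
  have e' : (n : ℚ_[2]) * ((2 ^ i)⁻¹ * t) - (n * (2 ^ i)⁻¹ + (c - n * (2 ^ i)⁻¹)) * t =
    -((c - n * (2 ^ i)⁻¹) * t) := by ring
  rw [e', norm_neg, norm_mul]
  exact (mul_le_mul (h.trans (min_le_right _ _)) (le_add_of_nonneg_right zero_le_one)
    (norm_nonneg _) (by positivity)).trans (inv_mul_cancel₀ (by positivity)).le

end ec

variable {H : ℕ → Subgroup GQ} {w : ℕ → Pl} {b b' : ℕ → GQ → GQ → ℚ_[2]}
  {B B' : GS → GS → ℚ_[2]} {ν ν' : Om}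

theorem ap_smul (h : Ap2 H b B) (c : ℚ_[2]) : Ap2 H (c • b) (c • B) := by
  obtain ⟨C, hC⟩ := h.bd
  refine ⟨⟨‖c‖ * C, fun k g g' => (norm_mul _ _).trans_le
    (mul_le_mul_of_nonneg_left (hC k g g') (norm_nonneg _))⟩, fun k ε hε => ?_,
    fun g hg g' hg' => (h.lim g hg g' hg').const_mul c⟩
  obtain ⟨N, hN, h1⟩ := h.uc k (ε / (‖c‖ + 1)) (by positivity)
  have key : ∀ x y : ℚ_[2], ‖x - y‖ ≤ ε / (‖c‖ + 1) → ‖c * x - c * y‖ ≤ ε := fun x y hxy => by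
    rw [← mul_sub, norm_mul]
    exact (mul_le_mul (le_add_of_nonneg_right zero_le_one) hxy (norm_nonneg _)
      (by positivity)).trans (mul_div_cancel₀ _ (by positivity)).le
  exact ⟨N, hN, fun g hg g' hg' n hn hn' =>
    ⟨key _ _ (h1 g hg g' hg' n hn hn').1, key _ _ (h1 g hg g' hg' n hn hn').2⟩⟩

theorem ap_add (h : Ap2 H b B) (h' : Ap2 H b' B') : Ap2 H (b + b') (B + B') := by
  obtain ⟨C, hC⟩ := h.bd
  obtain ⟨C', hC'⟩ := h'.bd
  refine ⟨⟨C + C', fun k g g' => norm_add_le_of_le (hC k g g') (hC' k g g')⟩, fun k ε hε => ?_,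
    fun g hg g' hg' => (h.lim g hg g' hg').add (h'.lim g hg g' hg')⟩
  obtain ⟨N, hN, h1⟩ := h.uc k (ε / 2) (by positivity)
  obtain ⟨N', hN', h2⟩ := h'.uc k (ε / 2) (by positivity)
  have key : ∀ x y x' y' : ℚ_[2], ‖x - y‖ ≤ ε / 2 → ‖x' - y'‖ ≤ ε / 2 →
      ‖x + x' - (y + y')‖ ≤ ε := fun x y x' y' e e' => by
    rw [add_sub_add_comm]
    exact (norm_add_le_of_le e e').trans (add_halves ε).le
  exact ⟨N ⊓ N', hN.inf hN', fun g hg g' hg' n hn hn' =>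
    ⟨key _ _ _ _ (h1 g hg g' hg' n hn hn'.1).1 (h2 g hg g' hg' n hn hn'.2).1,
      key _ _ _ _ (h1 g hg g' hg' n hn hn'.1).2 (h2 g hg g' hg' n hn hn'.2).2⟩⟩

/-- the multiplicative cochain -/
noncomputable def E (a : GQ → GQ → ℚ_[2]) (g h : GQ) : Om := ec (a g h)

/-- `ν` is the invariant of the multiplicative cocycles attached to `B` -/
def V (w : ℕ → Pl) (H : ℕ → Subgroup GQ) (B : GS → GS → ℚ_[2]) (ν : Om) : Prop :=
  ∀ b, Ap2 H b B → ∀ᶠ k in UF, nv (w k) (H k) (E (b k)) = ν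

theorem V.uniq (h : PZ2 H B) (h1 : V w H B ν) (h2 : V w H B ν') : ν = ν' :=
  let ⟨b, hb⟩ := h.1
  let ⟨_, e, e'⟩ := ((h1 b hb).and (h2 b hb)).exists
  e.symm.trans e'

theorem ev_co (hE : IsEc ec) (h : PZ2 H B) (hb : Ap2 H b B) : ∃ j : ℕ, ∀ᶠ k in UF,
    Co2 (H k) (E (b k)) ∧ ∀ g ∈ H k, ∀ g' ∈ H k, E (b k) g g' ^ 2 ^ j = 1 := by
  obtain ⟨C, hC⟩ := hb.bd
  obtain ⟨j, hj⟩ := exists_pow C
  refine ⟨j, (h.ac hb one_pos).mono fun k hk => ⟨⟨fun g _ g' _ => ec_ne hE _,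
    (hb.uc k).sm2 ec one_pos fun v v' => (ec_eq hE).2, fun g hg g' hg' l hl => ?_⟩,
    fun g _ g' _ => ?_⟩⟩
  · rw [E, E, E, E, hE.gal, ← hE.add, ← hE.add, ec_eq hE, ← sub_sub]
    exact hk g hg g' hg' l hl
  · rw [E, ← ec_pow hE, hE.eq_one, Nat.cast_pow, Nat.cast_ofNat]
    exact norm_mul_two ((hC k g g').trans hj)

theorem ev_coT (hE : IsEc ec) (h : PZ2 H B) (hb : Ap2 H b B) :
    ∀ᶠ k in UF, Co2T (H k) (E (b k)) :=
  let ⟨_, hj⟩ := ev_co hE h hb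
  hj.mono fun _ hk => Co2T.of_pow hk.1 hk.2

variable (hA : CB) (hL : ∀ k, (w k).Loc (H k))
include hA hL

theorem V_of (h : PZ2 H B) (hb : Ap2 H b B) (e : ∀ᶠ k in UF, nv (w k) (H k) (E (b k)) = ν) :
    V w H B ν := by
  intro b' hb'
  filter_upwards [e, ev_coT hA.ec.1 h hb, ev_coT hA.ec.1 h hb',
    hb'.near hb (fun _ _ _ _ => rfl) one_pos] with k h1 h2 h3 h4
  rw [← h1]
  refine hA.inv2.1 _ _ _ _ (hL k) h3 h2.1 (Triv.one.congr fun g hg g' hg' => ?_)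
  show ec _ / ec _ = 1
  rw [(ec_eq hA.ec.1).2 (h4 g hg g' hg'), div_self (ec_ne hA.ec.1 _)]

theorem V_triv (h : PZ2 H B) (hb : Ap2 H b B) (e : ∀ᶠ k in UF, Triv (H k) (E (b k))) :
    V w H B 1 :=
  V_of hA hL h hb (e.mono fun k hk => (hA.inv _ _ (hL k)).triv _ hk.co2 hk)

theorem exV (h : PZ2 H B) : ∃ ν, V w H B ν := by
  classical
  obtain ⟨b, hb⟩ := h.1
  obtain ⟨j, hj⟩ := ev_co hA.ec.1 h hb
  obtain ⟨ν, -, e⟩ := ev_const (f := fun k => nv (w k) (H k) (E (b k)))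
    (nthRoots (2 ^ j) (1 : Om)).toFinset.finite_toSet (hj.mono fun k hk => by
      rw [Finset.mem_coe, Multiset.mem_toFinset, mem_nthRoots (pow_pos two_pos j)]
      exact hA.inv2.2.1 _ _ _ _ (hL k) hk.1 (Triv.one.congr hk.2))
  exact ⟨ν, V_of hA hL h hb e⟩

theorem V_add (h : PZ2 H B) (h' : PZ2 H B') (h1 : V w H B ν) (h2 : V w H B' ν') :
    V w H (B + B') (ν * ν') := by
  obtain ⟨b, hb⟩ := h.1
  obtain ⟨b', hb'⟩ := h'.1
  refine V_of hA hL (h.add h') (ap_add hb hb') ?_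
  filter_upwards [h1 b hb, h2 b' hb', ev_coT hA.ec.1 h hb, ev_coT hA.ec.1 h' hb'] with k e e' c c'
  rw [← e, ← e', ← (hA.inv _ _ (hL k)).mul _ _ c c']
  exact congrArg _ (funext fun g => funext fun g' => hA.ec.1.add _ _)

theorem main (h : PZ2 H B) : ∃ t, ∀ c : ℚ_[2], V w H (c • B) (ec (c * t)) := by
  choose φ hφ using fun c : ℚ_[2] => exV hA hL (h.smul c)
  obtain ⟨b, hb⟩ := h.1
  obtain ⟨C, hC⟩ := hb.bd
  obtain ⟨s, hs⟩ := exists_pow C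
  obtain ⟨t, ht⟩ := char hA.ec.1 φ (fun x y => (hφ (x + y)).uniq (h.smul _)
    (add_smul x y B ▸ V_add hA hL (h.smul x) (h.smul y) (hφ x) (hφ y))) s fun x hx =>
      (hφ x).uniq (h.smul x) (V_triv hA hL (h.smul x) (ap_smul hb x) (Eventually.of_forall fun k =>
        Triv.one.congr fun g _ g' _ => (hA.ec.1.eq_one _).2 ((norm_mul _ _).trans_le
          ((mul_le_mul hx ((hC k g g').trans hs) (norm_nonneg _) (by positivity)).trans
            (inv_mul_cancel₀ (by positivity)).le))))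
  exact ⟨t, fun c => ht c ▸ hφ c⟩

theorem isPI_iff (h : PZ2 H B) {t : ℚ_[2]} :
    IsPI w H B t ↔ ∀ i : ℕ, V w H (((2 : ℚ_[2]) ^ i)⁻¹ • B) (ec ((2 ^ i)⁻¹ * t)) := by
  simp only [IsPI, div_eq_inv_mul]
  obtain ⟨b, hb⟩ := h.1
  exact ⟨fun h1 i => V_of hA hL (h.smul _) (ap_smul hb _) (h1 b hb i),
    fun h1 b' hb' i => h1 i _ (ap_smul hb' _)⟩

theorem isPI_uniq (h : PZ2 H B) {t t' : ℚ_[2]} (h1 : IsPI w H B t) (h2 : IsPI w H B t') : t = t' :=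
  ec_inj hA.ec.1 fun i =>
    ((isPI_iff hA hL h).1 h1 i).uniq (h.smul _) ((isPI_iff hA hL h).1 h2 i)

theorem isPI (h : PZ2 H B) : IsPI w H B (PI w H B) :=
  let ⟨t, ht⟩ := main hA hL h
  Classical.epsilon_spec ⟨t, (isPI_iff hA hL h).2 fun _ => ht _⟩

theorem PI_eq (h : PZ2 H B) {t : ℚ_[2]} (e : ∀ c : ℚ_[2], V w H (c • B) (ec (c * t))) :
    PI w H B = t :=
  isPI_uniq hA hL h (isPI hA hL h) ((isPI_iff hA hL h).2 fun _ => e _)

theorem spec (h : PZ2 H B) (c : ℚ_[2]) : V w H (c • B) (ec (c * PI w H B)) := by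
  obtain ⟨t, ht⟩ := main hA hL h
  rw [PI_eq hA hL h ht]
  exact ht c

theorem V_cob (h : PZ2 H B) (hc : Cob2 H B) : V w H B 1 := by
  obtain ⟨b, hb⟩ := h.1
  obtain ⟨s, ⟨c, hc⟩, hs⟩ := hc
  have key : ∀ᶠ k in UF, ∀ g ∈ H k, ∀ g' ∈ H k,
      ‖b k g g' + c k (g * g') - (c k g + cq g * c k g')‖ ≤ 1 := ev_forall₂ fun g hg g' hg' => by
    have := (((hb.lim g hg g' hg').add (hc.lim _ (mul_mem hg hg'))).sub
      ((hc.lim g hg).add ((tendsto_cS g).mul (hc.lim g' hg')))).norm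
    rw [hs g hg g' hg', sub_add_cancel, sub_self, norm_zero] at this
    exact this.eventually (eventually_le_nhds one_pos)
  refine V_triv hA hL h hb (key.mono fun k hk => ⟨fun g => ec (c k g),
    (hc.uc k).sm ec one_pos fun v v' => (ec_eq hA.ec.1).2, fun g _ => ec_ne hA.ec.1 _,
    fun g hg g' hg' => ?_⟩)
  rw [E, hA.ec.1.gal, ← hA.ec.1.add, ← hA.ec.1.add, ec_eq hA.ec.1]
  exact hk g hg g' hg'

theorem V_unr (h : PZ2 H B) (h2 : ∀ᶠ k in UF, (w k).p ≠ 2)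
    (hu : ∀ g ∈ St H, ∀ g' ∈ St H, ∀ i ∈ St fun k => (w k).I ⊓ H k,
      B (g * i) g' = B g g' ∧ B g (g' * i) = B g g') : V w H B 1 := by
  obtain ⟨b, hb⟩ := h.1
  obtain ⟨j, hj⟩ := ev_co hA.ec.1 h hb
  have key : ∀ᶠ k in UF, ∀ g ∈ H k, ∀ g' ∈ H k, ∀ i ∈ (w k).I ⊓ H k,
      ‖b k (g * i) g' - b k g g'‖ ≤ 1 ∧ ‖b k g (g' * i) - b k g g'‖ ≤ 1 :=
    ev_forall₃ fun g hg g' hg' i hi => by
      have hi' : i ∈ St H := St_mono (Eventually.of_forall fun _ => inf_le_right) hi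
      have h3 := ((hb.lim _ (mul_mem hg hi') g' hg').sub (hb.lim g hg g' hg')).norm
      have h4 := ((hb.lim g hg _ (mul_mem hg' hi')).sub (hb.lim g hg g' hg')).norm
      rw [(hu g hg g' hg' i hi).1, sub_self, norm_zero] at h3
      rw [(hu g hg g' hg' i hi).2, sub_self, norm_zero] at h4
      exact (h3.eventually (eventually_le_nhds one_pos)).and
        (h4.eventually (eventually_le_nhds one_pos))
  refine V_triv hA hL h hb ?_
  filter_upwards [hj, key, h2] with k c e p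
  refine hA.unr _ _ (hL k) j _ c.1 c.2 fun g hg g' hg' i hi =>
    ⟨(ec_eq hA.ec.1).2 (e g hg g' hg' i hi).1, (ec_eq hA.ec.1).2 (e g hg g' hg' i hi).2, ?_⟩
  rw [E, hA.ec.1.gal, hA.ec.2.2.2.2.2.2.1 _ p i hi.1, Units.val_one, PadicInt.coe_one, one_mul]

end TPIX

open TPIX

theorem t_PIX (hA : CB) : PIX := by
  intro w H hL B h
  refine ⟨isPI hA hL h, fun t ht => isPI_uniq hA hL h ht (isPI hA hL h), fun B' e => ?_,
    fun B' h' => PI_eq hA hL (h.add h') fun c => ?_, fun c => PI_eq hA hL (h.smul c) fun c' => ?_,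
    fun hc => PI_eq hA hL h fun c => ?_, fun h2 hu => PI_eq hA hL h fun c => ?_⟩
  · exact congrArg Classical.epsilon (funext fun t => propext
      ⟨fun h1 b hb => h1 b (hb.congr e),
        fun h1 b hb => h1 b (hb.congr fun g hg g' hg' => (e g hg g' hg').symm)⟩)
  · rw [smul_add, mul_add, hA.ec.1.add]
    exact V_add hA hL (h.smul c) (h'.smul c) (spec hA hL h c) (spec hA hL h' c)
  · rw [smul_smul, ← mul_assoc]
    exact spec hA hL h _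
  · rw [mul_zero, ec_zero hA.ec.1]
    exact V_cob hA hL (h.smul c) (hc.smul c)
  · rw [mul_zero, ec_zero hA.ec.1]
    exact V_unr hA hL (h.smul c) h2 fun g hg g' hg' i hi =>
      ⟨congrArg (c * ·) (hu g hg g' hg' i hi).1, congrArg (c * ·) (hu g hg g' hg' i hi).2⟩

theorem t_PREC (hA : CB) (hPIX : PIX) : PREC := by
  classical
  intro U B ι _ w hU hT h hw h0
  have := hPIX
  have : Nonempty Pl := let ⟨v, _⟩ := hA.pl.1 2 Nat.prime_two; ⟨v⟩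
  obtain ⟨b, hb⟩ := h.1
  refine ec_inj hA.ec.1 fun n => ?_
  generalize ((2 : ℚ_[2]) ^ n)⁻¹ = c
  have hs : ∀ v : ℕ → Pl, ∀ᶠ k in UF, nv (v k) ((v k).D ⊓ U) (E ((c • b) k)) =
      ec (c * PI v (fun k => (v k).D ⊓ U) B) := fun v =>
    spec hA (fun k => (v k).loc_inf hU) (h.mono fun _ => inf_le_right) c _
      ((ap_smul hb c).mono fun _ => inf_le_right)
  have hc := ev_coT hA.ec.1 (h.smul c) (ap_smul hb c)
  have h1 : ∀ᶠ k in UF, ∀ v : Pl, (∀ i, ∀ u ∈ U, u • v ≠ w i k) → Triv (v.D ⊓ U) (E ((c • b) k)) :=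
    ev_choice fun v => by
      by_cases hv : ∀ᶠ k in UF, ∀ i, ∀ u ∈ U, u • v k ≠ w i k
      · filter_upwards [hs v, hc, hw] with k e1 e2 e3 e4
        rw [h0 v hv, mul_zero, ec_zero hA.ec.1] at e1
        refine hA.inj _ _ _ (fun p => ?_) ((v k).loc_inf hU) (e2.mono inf_le_right) e1
        obtain ⟨i, u, hu, e⟩ := e3.2 _ p
        exact e4 i u hu e
      · exact (ev_not.1 hv).mono fun k e e' => absurd e' e
  obtain ⟨k, e1, e2, e3, e4⟩ := (h1.and (hc.and (hw.and (eventually_all.2 fun i => hs (w i))))).exists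
  have key := hA.rcp U _ (Finset.univ.image fun i => w i k) hU hT e2 (fun v hv u hu hv' => by
      obtain ⟨i, -, rfl⟩ := Finset.mem_image.1 hv
      obtain ⟨j, -, e⟩ := Finset.mem_image.1 hv'
      rw [← e, e3.1 i j u hu e.symm])
    fun v hv => e1 v fun i u hu e => hv u hu (Finset.mem_image.2 ⟨i, Finset.mem_univ i, e.symm⟩)
  rw [Finset.prod_image fun i _ j _ e => e3.1 i j 1 U.one_mem ((one_smul _ _).trans e)] at key
  rw [mul_zero, ec_zero hA.ec.1, Finset.mul_sum, ec_sum hA.ec.1, ← key]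
  exact Finset.prod_congr rfl fun i _ => (e4 i).symm

end Pool.Agent.P.MP_8b7eba_nt.R2
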