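import Pool.Agent.P.MP_8b7eba_nt.R2.GrpA
import Pool.Agent.P.MP_8b7eba_nt.R2.TEC

/-! Proof of TATE. -/

namespace Pool.Agent.P.MP_8b7eba_nt.R2

open scoped NNReal Matrix
open MP_9c97e9_nt (Pt pm Is ap Sha Split)
open Filter Topology Polynomial Module

namespace TTATE

section

variable {E : Type} [AddCommGroup E]

theorem n2 (k : ℕ) : ‖(2 : ℚ_[2]) ^ k‖ = (2 ^ k)⁻¹ := by
  rw [TEC.norm2, zpow_neg, zpow_natCast]

theorem n2' (k : ℕ) : ‖((2 : ℚ_[2]) ^ k)⁻¹‖ = 2 ^ k := by rw [norm_inv, n2, inv_inv]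

theorem ultra {x y : ℚ_[2]} (hx : ‖x‖ ≤ 1) (hy : ‖y‖ ≤ 1) : ‖x + y‖ ≤ 1 :=
  (Padic.nonarchimedean _ _).trans (max_le hx hy)

theorem mk (a : ℕ → E) (h0 : a 0 = 0) (h : ∀ n, 2 • a (n + 1) = a n) :
    ∃ f : ℚ_[2] →+ E, (∀ x, ‖x‖ ≤ 1 → f x = 0) ∧ ∀ k, f (2 ^ k)⁻¹ = a k := by
  have up : ∀ k j, ((2 : ℤ) ^ j) • a (k + j) = a k := fun k j => by
    induction j with
    | zero => simp
    | succ j ih => rw [pow_succ, mul_smul, ← add_assoc, two_zsmul, ← two_nsmul, h, ih]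
  have key : ∀ (k k' : ℕ) (m m' : ℤ), ‖(m : ℚ_[2]) / 2 ^ k - m' / 2 ^ k'‖ ≤ 1 →
      m • a k = m' • a k' := fun k k' m m' e => by
    rw [show (m : ℚ_[2]) / 2 ^ k - m' / 2 ^ k' =
        ((m * 2 ^ k' - m' * 2 ^ k : ℤ) : ℚ_[2]) / 2 ^ (k + k') by push_cast; field_simp; ring,
      TEC.norm_iff] at e
    obtain ⟨c, hc⟩ := e
    have h1 := up 0 (k + k')
    rw [zero_add, h0] at h1
    rw [← up k k', ← up k' k, add_comm k' k, smul_smul, smul_smul, ← sub_eq_zero, ← sub_smul, hc,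
      mul_comm, mul_smul, Nat.cast_pow, Nat.cast_ofNat, h1, smul_zero]
  choose k m hm using TEC.rep
  have sp : ∀ (x : ℚ_[2]) (k' : ℕ) (m' : ℤ), ‖x - m' / 2 ^ k'‖ ≤ 1 → m x • a (k x) = m' • a k' :=
    fun x k' m' e => key _ _ _ _ (by
      rw [show (m x : ℚ_[2]) / 2 ^ k x - m' / 2 ^ k' =
        (x - m' / 2 ^ k') + -(x - m x / 2 ^ k x) by ring]
      exact ultra e (by rw [norm_neg]; exact hm x))
  refine ⟨AddMonoidHom.mk' (fun x => m x • a (k x)) fun x y => ?_, fun x e => ?_, fun j => ?_⟩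
  · rw [sp (x + y) (k x + k y) (m x * 2 ^ k y + m y * 2 ^ k x), add_smul, mul_smul, mul_smul, up,
      add_comm (k x), up]
    rw [show x + y - ((m x * 2 ^ k y + m y * 2 ^ k x : ℤ) : ℚ_[2]) / 2 ^ (k x + k y) =
      (x - m x / 2 ^ k x) + (y - m y / 2 ^ k y) by push_cast; field_simp; ring]
    exact ultra (hm x) (hm y)
  · simpa using sp x 0 0 (by simpa using e)
  · simpa using sp (2 ^ j)⁻¹ j 1 (by simp)

theorem ext1 {f g : ℚ_[2] →+ E} (hf : ∀ x, ‖x‖ ≤ 1 → f x = 0) (hg : ∀ x, ‖x‖ ≤ 1 → g x = 0)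
    (h : ∀ k : ℕ, f (2 ^ k)⁻¹ = g (2 ^ k)⁻¹) (x : ℚ_[2]) : f x = g x := by
  obtain ⟨k, m, e⟩ := TEC.rep x
  rw [show x = (x - m / 2 ^ k) + m • (2 ^ k)⁻¹ by rw [zsmul_eq_mul]; ring, map_add, map_add, hf _ e,
    hg _ e, map_zsmul, map_zsmul, h]

theorem mk2 (S : AddSubgroup E) (hS : ∀ P ∈ S, ∃ Q ∈ S, 2 • Q = P) {H : E} (hH : H ∈ S)
    (h4 : 2 • 2 • H = 0) :
    ∃ f : ℚ_[2] →+ E, (∀ x, ‖x‖ ≤ 1 → f x = 0) ∧ f 4⁻¹ = H ∧ f 2⁻¹ = 2 • H ∧ ∀ x, f x ∈ S := by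
  have h1 : ∀ P : S, ∃ Q : S, 2 • Q = P := fun P => by
    obtain ⟨Q, h, e⟩ := hS P P.2
    exact ⟨⟨Q, h⟩, Subtype.ext e⟩
  choose s hs using h1
  obtain ⟨f, a, b⟩ := mk (E := S) (fun n => match n with
    | 0 => 0
    | 1 => 2 • ⟨H, hH⟩
    | n + 2 => s^[n] ⟨H, hH⟩) rfl fun n => match n with
    | 0 => Subtype.ext h4
    | 1 => rfl
    | n + 2 => by simp only [Function.iterate_succ_apply', hs]
  refine ⟨S.subtype.comp f, fun x e => by simp [a x e], ?_, ?_, fun x => (f x).2⟩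
  · have := congrArg Subtype.val (b 2)
    rwa [show (2 : ℚ_[2]) ^ 2 = 4 by norm_num] at this
  · have := congrArg Subtype.val (b 1)
    rwa [pow_one] at this

theorem down {V : Type} [NormedAddCommGroup V] [NormedSpace ℚ_[2] V] (φ : V →+ E)
    (S : AddSubgroup E) (h : ∀ v, ‖v‖ ≤ 2 → φ v ∈ S → ‖v‖ ≤ 1) (v : V) (hv : φ v ∈ S) :
    ‖v‖ ≤ 1 := by
  obtain ⟨k, hk⟩ := pow_unbounded_of_one_lt ‖v‖ (one_lt_two : (1 : ℝ) < 2)
  replace hk := hk.le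
  induction k generalizing v with
  | zero => simpa using hk
  | succ k ih =>
    have h1 : ‖2 • v‖ = ‖v‖ / 2 := by
      rw [← Nat.cast_smul_eq_nsmul ℚ_[2], norm_smul, Padic.norm_p, mul_comm]
      rfl
    have h2 := ih (2 • v) (by rw [map_nsmul]; exact S.nsmul_mem hv 2)
      (by rw [h1]; linarith [pow_succ (2 : ℝ) k])
    exact h v (by linarith) hv

theorem co {a : ℤ_[2]} {m k : ℕ} (h : 2 ^ k ∣ a - m) : ‖((a : ℚ_[2]) - m) / 2 ^ k‖ ≤ 1 := by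
  obtain ⟨c, hc⟩ := h
  have h1 : (a : ℚ_[2]) - m = 2 ^ k * c := by
    rw [← PadicInt.coe_natCast, ← PadicInt.coe_sub, hc, PadicInt.coe_mul, PadicInt.coe_pow]; rfl
  rw [h1, mul_div_cancel_left₀ _ (by simp)]
  exact c.2

theorem half {x : ℚ_[2]} (h : ‖x‖ ≤ 2) : ‖x‖ ≤ 1 ∨ ‖x - 2⁻¹‖ ≤ 1 := by
  have h0 : ‖(2 : ℚ_[2])‖ = 2⁻¹ := by simpa using n2 1
  have h1 : ‖2 * x‖ ≤ 1 := by rw [norm_mul, h0]; linarith
  have h2 := (TEC.dvd_iff 1 ⟨_, h1⟩ ((PadicInt.toZModPow 1 (⟨_, h1⟩ : ℤ_[2])).val : ℕ)).2 (by simp)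
  have h3 := ZMod.val_lt (PadicInt.toZModPow 1 (⟨_, h1⟩ : ℤ_[2]))
  generalize ZMod.val _ = m at h2 h3
  have h4 : ‖(2 * x - m) / 2 ^ 1‖ ≤ 1 := co h2
  obtain rfl | rfl : m = 0 ∨ m = 1 := by omega
  · exact .inl (by simpa using h4)
  · exact .inr (by rwa [show x - 2⁻¹ = (2 * x - (1 : ℕ)) / 2 ^ 1 by push_cast; ring])

theorem zero_of {x : ℚ_[2]} (h : ∀ t, ‖x * t‖ ≤ 1) : x = 0 := by
  by_contra h0
  have := h (x⁻¹ * (2 ^ 1)⁻¹)
  rw [mul_inv_cancel_left₀ h0, n2'] at this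
  norm_num at this

variable {pt : V2 →+ E} (ker : ∀ v, pt v = 0 ↔ ‖v‖ ≤ 1)
include ker

theorem lift1 (surj : ∀ (P : E) (k : ℕ), 2 ^ k • P = 0 → ∃ v, pt v = P) (h : ℚ_[2] →+ E)
    (h0 : ∀ x, ‖x‖ ≤ 1 → h x = 0) : ∃ c : V2, ‖c‖ ≤ 1 ∧ ∀ x, h x = pt (x • c) := by
  have e1 : ∀ k : ℕ, 2 ^ k • h (2 ^ k)⁻¹ = 0 := fun k => by
    rw [← map_nsmul]; exact h0 _ (by simp)
  have e2 : ∀ k : ℕ, 2 • h (2 ^ (k + 1))⁻¹ = h (2 ^ k)⁻¹ := fun k => by
    rw [← map_nsmul, nsmul_eq_mul, pow_succ]; congr 1; field_simp; norm_num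
  choose u hu using fun k : ℕ => surj _ k (e1 k)
  have e3 : ∀ k, dist ((2 : ℚ_[2]) ^ k • u k) ((2 : ℚ_[2]) ^ (k + 1) • u (k + 1)) ≤ 2 / 2 / 2 ^ k :=
    fun k => by
      have := (ker (u k - 2 • u (k + 1))).1 (by rw [map_sub, map_nsmul, hu, hu, e2, sub_self])
      rw [dist_eq_norm, pow_succ, mul_smul, ← smul_sub, norm_smul, n2, ofNat_smul_eq_nsmul,
        inv_mul_eq_div, div_self two_ne_zero]
      gcongr
  obtain ⟨c, hc⟩ := cauchySeq_tendsto_of_complete (cauchySeq_of_le_geometric_two e3)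
  have e4 : ‖c‖ ≤ 1 := le_of_tendsto' hc.norm fun k => (ker _).1 (by
    rw [← e1 k, ← hu, ← map_nsmul, ← Nat.cast_smul_eq_nsmul ℚ_[2]]; simp)
  refine ⟨c, e4, ext1 (g := pt.comp (LinearMap.toSpanSingleton ℚ_[2] _ c).toAddMonoidHom) h0
    (fun x e => (ker (x • c)).2 ?_) fun k => ?_⟩
  · rw [norm_smul]; exact mul_le_one₀ e (norm_nonneg _) e4
  · have e5 := dist_le_of_le_geometric_two_of_tendsto e3 hc (k + 1)
    have e6 := (ker (((2 : ℚ_[2]) ^ k)⁻¹ • ((2 : ℚ_[2]) ^ (k + 1) • u (k + 1) - c))).2 (by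
      rw [norm_smul, n2', ← dist_eq_norm, ← le_div_iff₀' (by positivity)]
      exact e5.trans_eq (by rw [pow_succ]; field_simp))
    rw [smul_sub, map_sub, pow_succ, mul_smul, inv_smul_smul₀ (by simp), ofNat_smul_eq_nsmul,
      map_nsmul, hu, e2, sub_eq_zero] at e6
    exact e6

theorem lift (surj : ∀ (P : E) (k : ℕ), 2 ^ k • P = 0 → ∃ v, pt v = P) (φ : E →+ E) :
    ∃ M : Mt, (∀ i j, ‖M i j‖ ≤ 1) ∧ ∀ v, φ (pt v) = pt (M *ᵥ v) := by
  choose c h1 h2 using fun j : Fin 2 => lift1 ker surj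
    (φ.comp (pt.comp (AddMonoidHom.single (fun _ => ℚ_[2]) j))) fun x e => by
      simp [(ker (Pi.single j x)).2 (by rwa [Pi.norm_single])]
  refine ⟨Matrix.of fun i j => c j i, fun i j => (norm_le_pi_norm _ i).trans (h1 j), fun v => ?_⟩
  rw [show Matrix.of (fun i j => c j i) *ᵥ v = v 0 • c 0 + v 1 • c 1 by
    ext i; simp [Matrix.mulVec, dotProduct, mul_comm], map_add, ← h2, ← h2]
  conv_lhs => rw [← Finset.univ_sum_single v, Fin.sum_univ_two, map_add, map_add]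
  rfl

theorem entry {M M' : Mt} {j : Fin 2} {t : ℚ_[2]}
    (h : pt (M *ᵥ Pi.single j t) = pt (M' *ᵥ Pi.single j t)) (i : Fin 2) :
    ‖(M - M') i j * t‖ ≤ 1 := by
  rw [← sub_eq_zero, ← map_sub, ker, ← Matrix.sub_mulVec] at h
  simpa using (norm_le_pi_norm _ i).trans h

theorem entry' {M M' : Mt} {j : Fin 2} {k : ℕ}
    (h : pt (M *ᵥ Pi.single j (2 ^ k)⁻¹) = pt (M' *ᵥ Pi.single j (2 ^ k)⁻¹)) (i : Fin 2) :
    ‖(M - M') i j‖ ≤ (2 ^ k)⁻¹ := by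
  have := entry ker h i
  rwa [norm_mul, n2', ← le_div_iff₀ (by positivity), one_div] at this

theorem uniq {M M' : Mt} (h : ∀ v, pt (M *ᵥ v) = pt (M' *ᵥ v)) : M = M' :=
  sub_eq_zero.1 (Matrix.ext fun i _ => zero_of fun _ => entry ker (h _) i)

end

theorem pts {i : Om} (hi : i ^ 2 = -1) : ∃ H C : EO, Is H 6 (60 * i) ∧ Is C 36 360 ∧
    Is (2 • H : EO) (-9) 0 ∧ Is (2 • C : EO) 16 0 ∧ Is (2 • H + 2 • C : EO) 0 0 := by
  obtain ⟨H, hH⟩ := split15.exists_is (x := 6) (η := 60 * i) (by linear_combination 3600 * hi)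
  obtain ⟨C, hC⟩ := split15.exists_is (x := 36) (η := 360) (by norm_num)
  have h0 : i ≠ 0 := fun e => by simp [e] at hi
  have h1 := hH.add_self split15 (by simpa using h0) (m := 4 * i) (x₃ := -9)
    (by linear_combination 240 * hi) (by linear_combination -16 * hi)
  have h2 := hC.add_self split15 (by norm_num) (m := 18) (x₃ := 16) (by norm_num) (by norm_num)
  rw [show -(60 * i + 4 * i * (-9 - 6)) = 0 by ring, ← two_nsmul] at h1
  rw [show -((360 : Om) + 18 * (16 - 36)) = 0 by ring, ← two_nsmul] at h2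
  have h3 := h1.add_ne split15 h2 (by norm_num) (m := 0) (x₃ := 0) (by norm_num) (by norm_num)
  exact ⟨H, C, hH, hC, h1, h2, by simpa using h3⟩

theorem cyc4 (g : GQ) : 2 ^ 2 ∣ (cyc g : ℤ_[2]) - (1 : ℕ) ∨ 2 ^ 2 ∣ (cyc g : ℤ_[2]) - (3 : ℕ) := by
  rw [TEC.dvd_iff, TEC.dvd_iff, map_natCast, map_natCast]
  obtain ⟨y, hy⟩ := ((cyc g).isUnit.map (PadicInt.toZModPow 2)).exists_right_inv
  exact (by decide : ∀ x y : ZMod 4, x * y = 1 → x = 1 ∨ x = 3) _ y hy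

end TTATE

open TTATE in
theorem t_TATE (hA : CA) (hE1G : E1G) (hCONG : CONG) (hDET : DET) : TATE := by
  intro w hw
  obtain ⟨i, hi⟩ := exists_root (-1) two_ne_zero
  obtain ⟨H, C, hH, hC, t2, t3, t1⟩ := pts hi
  obtain ⟨a0, a1, a2, a3, a4, -⟩ := hE1G w
  let S : AddSubgroup EO :=
    { carrier := {P | E1 w P}, zero_mem' := a0, add_mem' := a2 _ _, neg_mem' := a1 _ }
  have v2 := Pl.v_two' hw
  have v4 : w.v 4 = 4⁻¹ := by
    rw [show (4 : Om) = 2 * 2 by norm_num, map_mul, v2]; norm_num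
  have hH1 : H ∈ S := fun x η e => by
    have := (Pl.v_int_eq_one (w := w) (n := 3)).2 (by rw [hw]; decide)
    rw [← (hH.inj e).1, v4, show (6 : Om) = 2 * (3 : ℤ) by norm_num, map_mul, v2, this]
    norm_num [← NNReal.coe_lt_coe]
  have h3 : 2 • C ∉ S := fun e => by
    have := e _ _ t3
    rw [show (16 : Om) = 4 * 4 by norm_num, map_mul, v4] at this
    norm_num [← NNReal.coe_lt_coe] at this
  have two : ∀ {P : EO} {x : Om}, Is P x 0 → 2 • P = 0 := fun h => by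
    rw [two_nsmul]; exact not_not.1 fun e => (h.two_ne split15).1 e rfl
  obtain ⟨f, f0, f4, f2, fS⟩ := mk2 S (fun P h => a4 P h) hH1 (two t2)
  obtain ⟨g, g0, g4, g2, -⟩ := mk2 ⊤ (fun P _ => by
    obtain ⟨Q, e⟩ := exists_div P 1
    exact ⟨Q, trivial, e⟩) (H := C) trivial (two t3)
  let pt : V2 →+ EO := f.comp (Pi.evalAddMonoidHom _ 0) + g.comp (Pi.evalAddMonoidHom _ 1)
  have hp : ∀ v, pt v = f (v 0) + g (v 1) := fun _ => rfl
  have hf : ∀ {x}, ‖x - 2⁻¹‖ ≤ 1 → f x = 2 • H := fun h => by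
    rw [← f2, ← sub_eq_zero, ← map_sub, f0 _ h]
  have hg : ∀ {x}, ‖x - 2⁻¹‖ ≤ 1 → g x = 2 • C := fun h => by
    rw [← g2, ← sub_eq_zero, ← map_sub, g0 _ h]
  have ker : ∀ v, pt v = 0 ↔ ‖v‖ ≤ 1 := fun v => by
    refine ⟨down pt ⊥ (fun v h e => ?_) v, fun h => ?_⟩
    · rw [AddSubgroup.mem_bot, hp] at e
      rcases half ((norm_le_pi_norm v 0).trans h) with h0 | h0 <;>
        rcases half ((norm_le_pi_norm v 1).trans h) with h1 | h1
      · exact (pi_norm_le_iff_of_nonneg zero_le_one).2 (Fin.forall_fin_two.2 ⟨h0, h1⟩)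
      · exact absurd (by rwa [f0 _ h0, hg h1, zero_add] at e) t3.ne_zero
      · exact absurd (by rwa [hf h0, g0 _ h1, add_zero] at e) t2.ne_zero
      · exact absurd (by rwa [hf h0, hg h1] at e) t1.ne_zero
    · rw [hp, f0 _ ((norm_le_pi_norm v 0).trans h), g0 _ ((norm_le_pi_norm v 1).trans h), add_zero]
  have p0 : ∀ t, pt (Pi.single 0 t) = f t := fun t => by simp [hp]
  have p1 : ∀ t, pt (Pi.single 1 t) = g t := fun t => by simp [hp]
  have surj : ∀ (P : EO) (k : ℕ), 2 ^ k • P = 0 → ∃ v, pt v = P := fun P k h => by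
    induction k generalizing P with
    | zero => exact ⟨0, by simpa using h.symm⟩
    | succ k ih =>
      obtain ⟨v, hv⟩ := ih (2 • P) (by rwa [smul_smul, ← pow_succ])
      have e : 2 • pt ((2⁻¹ : ℚ_[2]) • v) = 2 • P := by
        rw [← map_nsmul, ← ofNat_smul_eq_nsmul ℚ_[2], smul_inv_smul₀ two_ne_zero, hv]
      obtain ⟨u, hu⟩ : ∃ u, pt u = P - pt ((2⁻¹ : ℚ_[2]) • v) := by
        rcases MP_9c97e9_nt.two_torsion split15 (T := P - pt ((2⁻¹ : ℚ_[2]) • v))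
          (by rw [← two_nsmul, smul_sub, e, sub_self]) with h1 | h1 | h1 | h1
        · exact ⟨0, by rw [h1, map_zero]⟩
        · exact ⟨fun _ => 2⁻¹, by rw [hp, f2, g2]; exact t1.unique split15 h1⟩
        · exact ⟨_, by rw [p0, f2]; exact t2.unique split15 h1⟩
        · exact ⟨_, by rw [p1, g2]; exact t3.unique split15 h1⟩
      exact ⟨u + _, (map_add ..).trans (eq_sub_iff_add_eq.1 hu)⟩
  choose r hr1 hr using fun σ : GQ => lift ker surj (ac σ)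
  let rho : GQ →* Mt :=
    { toFun := r
      map_one' := uniq ker fun v => by rw [← hr, ac_one, Matrix.one_mulVec]
      map_mul' := fun σ τ => uniq ker fun v => by
        rw [← hr, ac_mul, hr, hr, Matrix.mulVec_mulVec] }
  have sm : ∀ ε : ℝ, 0 < ε → ∃ N, ON N ∧ ∀ σ ∈ N, ∀ i j, ‖(rho σ - 1) i j‖ ≤ ε := fun ε h => by
    obtain ⟨k, hk⟩ := exists_pow_lt_of_lt_one h (by norm_num : (2⁻¹ : ℝ) < 1)
    obtain ⟨N, h1, h2⟩ := exists_ON_ac (Finset.univ.image fun j => pt (Pi.single j (2 ^ k)⁻¹))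
    refine ⟨N, h1, fun σ hσ i j => (entry' ker (k := k) ?_ i).trans (by rw [← inv_pow]; exact hk.le)⟩
    rw [Matrix.one_mulVec]
    exact (hr σ _).symm.trans (h2 _ (Finset.mem_image_of_mem _ (Finset.mem_univ j)) σ hσ)
  have four : ∀ σ i j, ‖(rho σ - !![cq σ, 0; 0, 1]) i j‖ ≤ 4⁻¹ := fun σ a j => by
    have e4 : (2 : ℚ_[2]) ^ 2 = 4 := by norm_num
    refine (entry' ker (k := 2) ((hr σ _).symm.trans ?_) a).trans_eq (by norm_num)
    rw [e4]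
    fin_cases j
    · have e : ∀ m : ℕ, 2 ^ 2 ∣ (cyc σ : ℤ_[2]) - m → f (cq σ * 4⁻¹) = m • H ∧ σ i = i ^ m :=
        fun m h => ⟨by
          rw [← f4, ← map_nsmul, ← sub_eq_zero, ← map_sub, nsmul_eq_mul, ← sub_mul, ← e4]
          exact f0 _ (co h),
          hA.ec.2.2.1 σ 2 m i (by linear_combination (i ^ 2 - 1) * hi) h⟩
      have h1 := is_ac σ hH
      rw [map_ofNat, map_mul, map_ofNat] at h1
      suffices ac σ H = f (cq σ * 4⁻¹) by simpa [hp, f4] using this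
      rcases cyc4 σ with h | h <;> obtain ⟨h2, h4⟩ := e _ h <;> rw [h2]
      · rw [h4, pow_one] at h1
        rw [one_smul, h1.unique split15 hH]
      · rw [h4, show 60 * i ^ 3 = -(60 * i) by linear_combination 60 * i * hi] at h1
        rw [h1.unique split15 hH.neg, neg_eq_iff_add_eq_zero, ← two t2]
        abel
    · have h1 := is_ac σ hC
      rw [map_ofNat, map_ofNat] at h1
      simpa [hp, g4] using h1.unique split15 hC
  have e1 : ∀ v, E1 w (pt v) ↔ ‖v 1‖ ≤ 1 := fun v => by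
    refine ⟨fun h => down g S (fun x h1 h2 => (half h1).resolve_right fun h4 => h3 (hg h4 ▸ h2)) _
      ((S.add_mem_cancel_left (fS (v 0))).1 h), fun h => ?_⟩
    rw [hp, g0 _ h, add_zero]
    exact fS _
  refine ⟨⟨pt, rho, hr1, ker, surj, hr, sm, (hDET pt rho ker hr sm four).1, four, ?_, ?_, e1,
    fun σ h => zero_of fun t => ?_, fun σ h => sub_eq_zero.1 (zero_of fun t => ?_)⟩⟩
  · simpa [hp, f2] using t2
  · simpa [hp, g2] using t3
  · have := (a3 σ _).2 ((e1 (Pi.single 0 t)).2 (by simp))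
    rw [show σ • w = w from h, hr, e1] at this
    simpa [rho] using this
  · have := (hCONG w (by rw [hw]; decide)).2 σ h (pt (Pi.single 1 t))
    rw [hr, ← map_sub, e1] at this
    simpa [sub_mul, rho, mul_comm t] using this

end Pool.Agent.P.MP_8b7eba_nt.R2
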