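import Pool.Agent.P.MP_8b7eba_nt.R2.GrpA

/-! Normalised unramified characters. -/

namespace Pool.Agent.P.MP_8b7eba_nt.R2.TUPERPA

variable {w : Pl} {H N : Subgroup GQ} {f : ℕ} {φ g : GQ} (hF : FROB) (hH : w.Loc H) (hφ : φ ∈ H)
  (fr : w.IsFrob f φ) (e : f * H.relIndex w.I = H.relIndex w.D)

include hF hH hφ fr e

theorem frob (hN : ON N) (hg : g ∈ H) :
    ∃ m : ℕ, ∃ i ∈ w.I ⊓ H, ∃ n ∈ N ⊓ H, g = φ ^ m * i * n := by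
  obtain ⟨f', φ', -, h1, h2, -, h3, h4⟩ := hF w H hH
  obtain rfl : f' = f := Nat.eq_of_mul_eq_mul_right
    (Nat.pos_of_ne_zero (hH.relIndex_ne w.I_le_D)) (h3.trans e.symm)
  obtain ⟨m, i, hi, n, hn, rfl⟩ := h4 N hN g hg
  exact ⟨m, (φ ^ m)⁻¹ * φ' ^ m * i, mul_mem ⟨(fr.pow m).inv_mul (h2.pow m),
    H.mul_mem (H.inv_mem (pow_mem hφ m)) (pow_mem h1 m)⟩ hi, n, hn, by group⟩

theorem dec {A : Type} [AddGroup A] {χ : GQ → A} (h : IsCh H χ) (hg : g ∈ H) :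
    ∃ m : ℕ, ∃ i ∈ w.I ⊓ H, χ g = m • χ φ + χ i := by
  obtain ⟨N, hN, h1⟩ := h.1
  obtain ⟨m, i, hi, n, hn, rfl⟩ := frob hF hH hφ fr e hN hg
  exact ⟨m, i, hi, by
    rw [h1 _ (mul_mem (pow_mem hφ m) hi.2) n hn.2 hn.1, h.2 _ (pow_mem hφ m) _ hi.2, h.pow hφ]⟩

theorem chi (hU : UCH) (n : ℕ) :
    ∃ χ : GQ → ZMod (2 ^ n), IsCh H χ ∧ (∀ g ∈ w.I ⊓ H, χ g = 0) ∧ χ φ = 1 := by
  obtain ⟨χ, h1, h2, g, hg, h3⟩ := (hU w n).2 H hH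
  obtain ⟨m, i, hi, h4⟩ := dec hF hH hφ fr e h1 hg
  refine ⟨m • χ, ⟨h1.1.comp (m • ·), fun a ha b hb => ?_⟩, fun a ha => ?_, ?_⟩
  · simp only [Pi.smul_apply, h1.2 a ha b hb, smul_add]
  · rw [Pi.smul_apply, h2 a ha, smul_zero]
  · rw [← h3, h4, h2 i hi, add_zero, Pi.smul_apply]

end Pool.Agent.P.MP_8b7eba_nt.R2.TUPERPA
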