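import Pool.Agent.P.MP_8b7eba_nt.R2.GrpA
import Pool.Agent.P.MP_8b7eba_nt.R2.PatB

/-! Proof of PTAME, PFROB, SAH. -/

namespace Pool.Agent.P.MP_8b7eba_nt.R2

open scoped NNReal Matrix
open MP_9c97e9_nt (Pt pm Is ap Sha Split)
open Filter Topology Polynomial Module

namespace TPTAME

variable {W : Type} [NormedAddCommGroup W] [NormedSpace ℚ_[2] W] [IsUltrametricDist W]
  {G H : Subgroup GQ} {r : GQ → W →ₗ[ℚ_[2]] W} {c : GQ → W} {ε : ℝ}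

omit [NormedSpace ℚ_[2] W] in
theorem tri {a b d : W} (ha : ‖a‖ ≤ ε) (hb : ‖b‖ ≤ ε) (e : d = a + b) : ‖d‖ ≤ ε :=
  e ▸ (IsUltrametricDist.norm_add_le_max a b).trans (max_le ha hb)

/-- the elements on which an approximate cocycle is small form a subgroup -/
theorem sub (hr : Rep G r) (hH : H ≤ G) {B : ℝ} (hB : ∀ g, ‖c g‖ ≤ B) (hu : Uc H c) (hε : 0 < ε)
    (ac : ∀ g ∈ H, ∀ g' ∈ H, ‖c (g * g') - c g - r g (c g')‖ ≤ ε) :
    ∃ S N : Subgroup GQ, ON N ∧ (∀ g, g ∈ S ↔ g ∈ H ∧ ‖c g‖ ≤ ε) ∧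
      ∀ h ∈ H, ∀ m : ℕ, Odd m → h ^ m ∈ N → h ∈ S := by
  have h1 : ‖c 1‖ ≤ ε := by
    have := ac 1 H.one_mem 1 H.one_mem
    rwa [one_mul, sub_self, zero_sub, norm_neg, hr.one] at this
  let S : Subgroup GQ :=
    { carrier := {g | g ∈ H ∧ ‖c g‖ ≤ ε}
      one_mem' := ⟨H.one_mem, h1⟩
      mul_mem' := fun {a b} ha hb => ⟨H.mul_mem ha.1 hb.1,
        tri (tri (ac a ha.1 b hb.1) ha.2 rfl) ((hr.le a _).trans hb.2) (by abel)⟩
      inv_mem' := fun {a} ha => ⟨H.inv_mem ha.1, by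
        have h2 := ac a ha.1 a⁻¹ (H.inv_mem ha.1)
        rw [mul_inv_cancel, ← norm_neg] at h2
        rw [← hr.norm (hH ha.1)]
        exact tri (tri h2 h1 rfl) ((norm_neg _).trans_le ha.2) (by abel)⟩ }
  obtain ⟨N, hN, hn⟩ := hu ε hε
  refine ⟨S, N, hN, fun g => Iff.rfl, fun h hh m hm hp => ?_⟩
  have hB0 : 0 ≤ B := (norm_nonneg _).trans (hB 1)
  have a1 : h ^ m ∈ S := ⟨H.pow_mem hh m, by
    have := hn 1 H.one_mem _ (H.pow_mem hh m) hp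
    rw [one_mul] at this
    exact tri this h1 (by abel)⟩
  obtain ⟨s, hs⟩ := hr.pow h (hH hh) (ε / (B + 1)) (by positivity)
  have hk := H.pow_mem hh (2 ^ s)
  have key : ∀ n : ℕ, ‖c ((h ^ 2 ^ s) ^ n) - (n : ℚ_[2]) • c (h ^ 2 ^ s)‖ ≤ ε := by
    intro n
    induction n with
    | zero => simpa using h1
    | succ n ih =>
      have e1 := ac _ hk _ (H.pow_mem hk n)
      have e2 : ‖r (h ^ 2 ^ s) (c ((h ^ 2 ^ s) ^ n)) - c ((h ^ 2 ^ s) ^ n)‖ ≤ ε := by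
        refine (hs _).trans ?_
        rw [div_mul_eq_mul_div, div_le_iff₀ (by positivity)]
        exact mul_le_mul_of_nonneg_left ((hB _).trans (by linarith)) hε.le
      rw [← pow_succ'] at e1
      refine tri (tri e1 e2 rfl) ih ?_
      rw [Nat.cast_succ, add_smul, one_smul]
      abel
  have a2 : h ^ 2 ^ s ∈ S := ⟨hk, by
    have e1 := key m
    have e2 : (h ^ 2 ^ s) ^ m ∈ S := by
      rw [← pow_mul, mul_comm, pow_mul]
      exact S.pow_mem a1 _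
    have e3 : ‖(m : ℚ_[2])‖ = 1 := by
      rw [Padic.norm_natCast_eq_one_iff]
      exact Nat.coprime_two_left.2 hm
    have e4 : ‖(m : ℚ_[2]) • c (h ^ 2 ^ s)‖ ≤ ε :=
      tri e2.2 ((norm_neg _).trans_le e1) (by abel)
    rwa [norm_smul, e3, one_mul] at e4⟩
  have cop : IsCoprime (m : ℤ) ((2 ^ s : ℕ) : ℤ) :=
    Nat.isCoprime_iff_coprime.2 (Nat.Coprime.pow_right s (Nat.coprime_two_right.2 hm))
  obtain ⟨u, v, huv⟩ := cop
  have e : h = (h ^ m) ^ u * (h ^ 2 ^ s) ^ v := by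
    rw [← zpow_natCast, ← zpow_natCast, ← zpow_mul, ← zpow_mul, ← zpow_add, mul_comm _ u,
      mul_comm _ v, huv, zpow_one]
  rw [e]
  exact S.mul_mem (S.zpow_mem a1 u) (S.zpow_mem a2 v)

omit [NormedSpace ℚ_[2] W] [IsUltrametricDist W] in
theorem zero_of {K : ℕ → Subgroup GQ} {a : ℕ → GQ → W} {x : GS → W} (hc : Ap K a x)
    (h : ∀ ε : ℝ, 0 < ε → ∀ᶠ k in UF, ∀ g ∈ K k, ‖a k g‖ ≤ ε) : ∀ g ∈ St K, x g = 0 := by
  intro g hg
  refine norm_le_zero_iff.1 (le_of_forall_pos_le_add fun ε hε => ?_)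
  rw [zero_add]
  exact le_of_tendsto (hc.lim g hg).norm
    (((h ε hε).and (mem_St.1 hg)).mono fun k hk => hk.1 _ hk.2)

omit [NormedSpace ℚ_[2] W] [IsUltrametricDist W] in
theorem small_at {K : ℕ → Subgroup GQ} {a : ℕ → GQ → W} {x : GS → W} (hc : Ap K a x) {t : GS}
    (ht : t ∈ St K) (h0 : x t = 0) (hε : 0 < ε) : ∀ᶠ k in UF, ‖a k (t k)‖ ≤ ε := by
  have := (hc.lim t ht).norm
  rw [h0, norm_zero] at this
  exact this.eventually (ge_mem_nhds hε)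

end TPTAME

theorem t_PTAME (hCF : CF) : PTAME := by
  rintro W _ _ _ _ U r w t π x hU ⟨G, hr, hG⟩ hk hx h0
  obtain ⟨c, hc⟩ := hx.1
  obtain ⟨B, hB⟩ := hc.bd
  refine TPTAME.zero_of hc fun ε hε => ?_
  have ht : t ∈ St fun k => (w k).I ⊓ U := mem_St.2 (hk.mono fun k h => h.2.2.1)
  filter_upwards [hk, hx.ac hr hc hε, TPTAME.small_at hc ht h0 hε] with k h ac hs g hg
  obtain ⟨S, N, hN, hS, hodd⟩ := TPTAME.sub hr (hG k) (hB k) (hc.uc k) hε ac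
  have e : (w k).I ⊓ ((w k).D ⊓ U) = (w k).I ⊓ U := by
    rw [← inf_assoc, inf_eq_left.2 (w k).I_le_D]
  obtain ⟨m, s, hs1, hs2⟩ := (hCF.tame2 (w k) _ (π k) (t k) h.1 ((w k).loc_inf hU) (e ▸ h.2.1)
    (e ▸ h.2.2.1) h.2.2.2 N hN).1 g (e ▸ hg)
  have a1 := hodd _ (mul_mem hg (inv_mem (pow_mem h.2.2.1 m))) s hs1 hs2
  have a2 : t k ∈ S := (hS _).2 ⟨h.2.2.1, hs⟩
  have a3 := mul_mem a1 (pow_mem a2 m)
  rw [inv_mul_cancel_right] at a3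
  exact ((hS g).1 a3).2

theorem t_PFROB (hCF : CF) : PFROB := by
  rintro W _ _ _ _ U r w φ f x hU ⟨G, hr, hG⟩ hk hx h0 hI
  obtain ⟨c, hc⟩ := hx.1
  obtain ⟨B, hB⟩ := hc.bd
  refine TPTAME.zero_of hc fun ε hε => ?_
  have ht : φ ∈ St fun k => (w k).D ⊓ U := mem_St.2 (hk.mono fun k h => ⟨h.2.1.1, h.1⟩)
  have hle : ∀ k, (w k).I ⊓ U ≤ (w k).D ⊓ U := fun k => inf_le_inf_right U (w k).I_le_D
  filter_upwards [hk, hx.ac hr hc hε, TPTAME.small_at hc ht h0 hε,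
    hc.small (Eventually.of_forall hle) hI hε] with k h ac hs hi g hg
  obtain ⟨S, N, hN, hS, hodd⟩ := TPTAME.sub hr (hG k) (hB k) (hc.uc k) hε ac
  obtain ⟨f0, φ0, -, p1, p2, -, p3, p4⟩ := hCF.frob (w k) _ ((w k).loc_inf hU)
  have e : (w k).I ⊓ ((w k).D ⊓ U) = (w k).I ⊓ U := by
    rw [← inf_assoc, inf_eq_left.2 (w k).I_le_D]
  have e1 : ((w k).D ⊓ U).relIndex (w k).I = U.relIndex (w k).I := by
    rw [← Subgroup.inf_relIndex_left, e, Subgroup.inf_relIndex_left]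
  rw [e1, Subgroup.inf_relIndex_left, ← h.2.2] at p3
  obtain rfl : f0 = f k := Nat.eq_of_mul_eq_mul_right (Nat.pos_of_ne_zero (relIndex_ne_zero hU _)) p3
  have aI : ∀ i ∈ (w k).I ⊓ U, i ∈ S := fun i h' => (hS i).2 ⟨hle k h', hi i h'⟩
  have a1 : φ k ∈ S := (hS _).2 ⟨⟨h.2.1.1, h.1⟩, hs⟩
  have a2 := mul_mem a1 (aI _ ⟨h.2.1.inv_mul p2, U.mul_mem (U.inv_mem h.1) p1.2⟩)
  rw [mul_inv_cancel_left] at a2
  obtain ⟨m, i, q1, n, q2, rfl⟩ := p4 N hN g hg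
  exact ((hS _).1 (mul_mem (mul_mem (pow_mem a2 m) (aI i (e ▸ q1)))
    (hodd n q2.2 1 odd_one (by rw [pow_one]; exact q2.1)))).2

theorem t_SAH (hCF : CF) : SAH := by
  intro W _ _ _ _ r w t x h2 hr ht hβ hneg hx
  have hy := hx.sub hr (pz_cob hr (fun _ => le_rfl) (-((2⁻¹ : ℚ_[2]) • x (cs t))))
  refine ⟨-((2⁻¹ : ℚ_[2]) • x (cs t)), fun g hg => ?_⟩
  generalize hv : (x - fun g => rS r g (-((2⁻¹ : ℚ_[2]) • x (cs t))) -
    -((2⁻¹ : ℚ_[2]) • x (cs t))) = y at hy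
  have y0 : y (cs t) = 0 := by
    rw [← hv, Pi.sub_apply, rS_cs, hneg, neg_neg, sub_neg_eq_add, ← add_smul]
    norm_num
  have hle : w.I ⊓ ⊤ ≤ w.D := inf_le_left.trans w.I_le_D
  have yI := t_PTAME hCF W ⊤ r (fun _ => w) (cs t) (fun _ => w.p) y isOpen_univ
    ⟨w.D, hr, fun _ => hle⟩ (Eventually.of_forall fun k => ⟨h2, by
      rw [inf_top_eq]
      exact (hCF.res w _ w.loc_D).2.2.2.2.1, ⟨ht, trivial⟩, hβ⟩) (hy.mono fun _ => hle) y0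
  have hz : cs t ∈ S1 w.D := cs_mem.2 (w.I_le_D ht)
  have e := hy.comm hr (fun _ => le_rfl) hg hz y0
  rw [yI (g * cs t * g⁻¹ * (cs t)⁻¹) (mem_St.2 ((mem_St.1 hg).mono fun k h => ⟨Pl.comm_mem hCF.frob h (w.I_le_D ht), trivial⟩)),
    hr.rS_mul (mul_mem hg hz) (inv_mem hg), hr.rS_mul hg hz, rS_cs, hneg, hr.rS_neg,
    ← hr.rS_mul hg (inv_mem hg), mul_inv_cancel, hr.rS_one, sub_neg_eq_add, ← two_smul ℚ_[2]] at e
  have e' : y g = 0 := (smul_eq_zero.1 e.symm).resolve_left two_ne_zero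
  rw [← hv] at e'
  exact sub_eq_zero.1 e'

end Pool.Agent.P.MP_8b7eba_nt.R2
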