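import Pool.Agent.P.MP_8b7eba_nt.R2.SelB
import Pool.Agent.P.MP_8b7eba_nt.R2.ChainA

/-! Proof of QB. -/

namespace Pool.Agent.P.MP_8b7eba_nt.R2

open scoped NNReal Matrix
open MP_9c97e9_nt (Pt pm Is ap Sha Split)
open Filter Topology Polynomial Module

namespace TQB

variable {A : Type} [NormedCommRing A] [NormedAlgebra ℚ_[2] A] [IsUltrametricDist A]
  [FiniteDimensional ℚ_[2] A] {ψ : ℤ_[2] → A} {D : Dat}

theorem str_zero (h : IsPsi ψ) : D.Str ψ 0 := by
  obtain ⟨M, hM⟩ := D.exists_str h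
  exact (hM 0).1 M.zero_mem

theorem top_zero (hA : AFX) {v : KA} (hv : ∀ k g j, ‖v k g j‖ ≤ 1)
    (h0 : D.kap (fun _ => (1 : ℚ_[2])) v = 0) {J : ℕ} (hJ : 0 < J) (h : IsAF ψ (X ^ J)) :
    aeval (ψ 1 - 1) (X : ℚ_[2][X]) ^ (J - 1) • D.kap ψ v = 0 := by
  obtain ⟨-, -, -, -, -, h1, h2⟩ := hA
  obtain ⟨μ, m1, m2⟩ := ((h2 _ _ _ h1).2 A ψ _ (X ^ (J - 1)) h).1
    (by rw [← pow_succ, Nat.sub_add_cancel hJ])
  have e := D.kap_map h1.1 h.1 μ m2 hv
  have e1 := m1 1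
  rw [map_one, mul_one, map_pow] at e1
  rw [← e1, ← e, h0]
  funext g i
  simp

end TQB

open TQB

theorem t_QB (hP : CP) (hHB : HB) (hHB0 : HB0) (hSB : SB) : QB := by
  classical
  intro D v hK hR h0 q j m i hq hqm him hmj A _ _ _ _ ψ A' _ _ _ _ ψ' hψ hψ' hS M hM hSS
  obtain ⟨-, -, -, -, -, -, h2⟩ := id hP.afx
  have hC := ((h2 A ψ _ hψ).1 q _ hq rfl).1
  have hC' := ((h2 A' ψ' _ hψ').1 q _ hq rfl).1
  obtain ⟨ν, n1, n2⟩ := ((h2 A ψ _ hψ).2 A' ψ' _ (q ^ m) hψ').2 (by ring)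
    (pow_ne_zero _ hq.ne_zero)
  set π := aeval (ψ 1 - 1) q with hπ
  set π' := aeval (ψ' 1 - 1) q with hπ'
  set κ := D.kap ψ (v []) with hκ
  set V : Ideal A := Ideal.span {aeval (ψ 1 - 1) (q ^ m)} with hV
  have hVp : ∀ y ∈ V, ∃ p, y = aeval (ψ 1 - 1) (q ^ m * p) := fun y hy => by
    obtain ⟨c, rfl⟩ := Ideal.mem_span_singleton.1 hy
    obtain ⟨p, rfl⟩ := hψ.2.1 c
    exact ⟨p, (map_mul _ _ _).symm⟩
  have ninj : ∀ y ∈ V, ν y = 0 → y = 0 := fun y hy e => by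
    obtain ⟨p, rfl⟩ := hVp y hy
    rw [n1, hψ'.2.2] at e
    rw [hψ.2.2, add_comm, pow_add]
    exact mul_dvd_mul_left _ e
  have npow : ∀ c, ∀ y ∈ V, ν (π ^ c * y) = π' ^ c * ν y := fun c y hy => by
    obtain ⟨p, rfl⟩ := hVp y hy
    rw [n1, hπ, hπ', ← map_pow, ← map_pow, ← map_mul, ← map_mul, mul_left_comm, n1]
  have ex : ∃ a, π ^ (j + m - a - 1) • κ ≠ 0 := ⟨i, fun e => hS (e ▸ str_zero hψ.1)⟩
  obtain ⟨a, hai, ha, ha0⟩ : ∃ a ≤ i, π ^ (j + m - a - 1) • κ ≠ 0 ∧ π ^ (j + m - a) • κ = 0 := by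
    refine ⟨Nat.find ex, Nat.find_min' ex fun e => hS (e ▸ str_zero hψ.1), Nat.find_spec ex, ?_⟩
    rcases h : Nat.find ex with _ | a
    · rw [Nat.sub_zero, hC.nil, zero_smul]
    · exact not_not.1 (Nat.find_min ex (h ▸ a.lt_succ_self))
  have hx : ∀ g t, (π ^ (m - a) • κ) g t ∈ V := fun g t => by
    have e : π ^ (j + m - a) * κ g t = 0 := congrFun (congrFun ha0 g) t
    obtain ⟨c, hc⟩ := (hC.ann (Nat.sub_le _ _)).1 e
    refine Ideal.mem_span_singleton.2 ⟨c, ?_⟩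
    change π ^ (m - a) * κ g t = _
    rw [hc, ← mul_assoc, ← pow_add, map_pow]
    congr 2
    omega
  have hsel : D.Sel ψ [] (π ^ (m - a) • κ) := by
    obtain ⟨N, hN⟩ := D.exists_sel hψ.1 []
    exact (hN _).1 (N.smul_mem _ ((hN _).2 (hK.2 A ψ hψ.1 [] List.Pairwise.nil).1))
  have hsel' := Dat.Sel.map hψ.1 hψ'.1 ν V n2 hx hP.toCA hsel
  have hns : ¬ D.Str ψ' (π' ^ (j - (i - a) - 1) • fun g t => ν ((π ^ (m - a) • κ) g t)) := by
    intro e
    have e1 : π ^ (j + m - i - 1) • κ = π ^ (j - (i - a) - 1) • π ^ (m - a) • κ := by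
      rw [smul_smul, ← pow_add]
      congr 2
      omega
    have hy : ∀ g t, (π ^ (j + m - i - 1) • κ) g t ∈ V := fun g t => by
      rw [e1]
      exact V.mul_mem_left _ (hx g t)
    have e2 : (π' ^ (j - (i - a) - 1) • fun g t => ν ((π ^ (m - a) • κ) g t)) =
        fun g t => ν ((π ^ (j + m - i - 1) • κ) g t) := by
      funext g t
      rw [e1]
      exact (npow _ _ (hx g t)).symm
    obtain ⟨l1, l2⟩ := Dat.ln_map (D := D) hψ.1 hψ'.1 ν V n2 hy
    rw [e2] at e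
    refine hS fun g hg => funext fun t => ninj _ (l2 g t) ?_
    have := congrFun (e g hg) t
    rwa [l1] at this
  have key := fun R hR => hSB D A' ψ' π' j q.natDegree (i - a) R _ hψ'.1 hC' (by omega) hsel' hns
    hR M hM hSS
  by_cases hX : q = X
  · subst hX
    have h1 := key 0 fun N hN hN' => by
      simpa using hHB0 D hR j A' ψ' hψ' N hN hN'
    have h3 : a ≠ 0 := by
      rintro rfl
      exact ha (top_zero hP.afx (hK.1 []) h0 (by omega) hψ)
    rw [natDegree_X] at h1 ⊢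
    omega
  · have h1 := key (2 * q.natDegree * a) fun N hN hN' =>
      (hHB D v hK q j m a hq hqm hX (by omega) A ψ A' ψ' hψ hψ' ha N hN hN').trans_eq (by ring)
    refine ⟨h1.trans_eq ?_, fun e => absurd e hX⟩
    rw [← mul_add, Nat.add_sub_cancel' hai]
    ring

theorem t_TOP (hP : CP) (hQB : QB) : TOP := by
  classical
  intro D v hK hR h0 ⟨F, hF, hdeg, hLB⟩ hNV
  obtain ⟨a1, a2, a3, a4, a5, -, a7⟩ := id hP.afx
  obtain ⟨m, hm⟩ : ∃ m, m = 3 + 2 * D.sg := ⟨_, rfl⟩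
  obtain ⟨j, hj1, hj2⟩ : ∃ j, F.natDegree ≤ j ∧ m ≤ j := ⟨_, le_max_left _ _, le_max_right _ _⟩
  have dpow : ∀ q, Dist q → ∀ n : ℕ, Dist (q ^ n) := fun q hq n => by
    induction n with
    | zero => rwa [pow_zero]
    | succ n ih => rw [pow_succ]; exact a2 _ _ ih hq
  set s := UniqueFactorizationMonoid.normalizedFactors F with hs
  set Q := insert X s.toFinset with hQ
  have hXQ : X ∈ Q := Finset.mem_insert_self _ _
  have hq : ∀ q ∈ Q, Irreducible q ∧ Dist q := fun q h => by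
    rcases Finset.mem_insert.1 h with rfl | h
    · exact ⟨irreducible_X, a4⟩
    · have h := Multiset.mem_toFinset.1 h
      have i1 := UniqueFactorizationMonoid.irreducible_of_normalized_factor q h
      exact ⟨i1, a3 _ _ hF ((normalize_eq_self_iff_monic i1.ne_zero).1
        (UniqueFactorizationMonoid.normalize_normalized_factor q h))
        (UniqueFactorizationMonoid.dvd_of_mem_normalizedFactors h)⟩
  have hFp : F = ∏ q ∈ Q, q ^ s.count q := by
    rw [← Finset.prod_multiset_count_of_subset s Q (Finset.subset_insert _ _), hs,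
      UniqueFactorizationMonoid.prod_normalizedFactors_eq hF.1.ne_zero, hF.1.normalize_eq_self]
  have hnd : ∀ k : ℚ_[2][X] → ℕ, (∏ q ∈ Q, q ^ k q).natDegree = ∑ q ∈ Q, k q * q.natDegree :=
    fun k => by
      rw [natDegree_prod_of_monic _ _ fun q h => (hq q h).2.1.pow _]
      exact Finset.sum_congr rfl fun q h => (hq q h).2.1.natDegree_pow _
  let S : ℚ_[2][X] → ℕ → Prop := fun q i => ∀ (A : Type) [NormedCommRing A] [NormedAlgebra ℚ_[2] A]
    [IsUltrametricDist A] [FiniteDimensional ℚ_[2] A] (ψ : ℤ_[2] → A), IsAF ψ (q ^ (j + m)) →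
      D.Str ψ (aeval (ψ 1 - 1) q ^ (j + m - i) • D.kap ψ (v []))
  let i : ℚ_[2][X] → ℕ := fun q => Nat.findGreatest (S q) m
  have S0 : ∀ q, S q 0 := fun q A _ _ _ _ ψ h => by
    rw [Nat.sub_zero, ← map_pow, (h.2.2 _).2 dvd_rfl, zero_smul]
    exact str_zero h.1
  have Si : ∀ q, S q (i q) := fun q => Nat.findGreatest_spec (Nat.zero_le m) (S0 q)
  have iX : 1 ≤ i X := Nat.le_findGreatest (by omega) fun A _ _ _ _ ψ h => by
    rw [top_zero hP.afx (hK.1 []) h0 (by omega) h]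
    exact str_zero h.1
  set f := ∏ q ∈ Q, q ^ i q with hf
  have hfd : Dist f := Finset.prod_induction _ _ a2 a5 fun q h => dpow q (hq q h).2 _
  have hdf : f.natDegree < m := by
    by_contra hlt
    obtain ⟨A, _, _, _, _, ψ, hψ⟩ := a1 f hfd
    refine hNV A ψ f hψ hfd ((dvd_pow_self X (by omega)).trans (Finset.dvd_prod_of_mem _ hXQ))
      (by omega) fun g hg => funext fun t => ?_
    obtain ⟨p, hp⟩ := hψ.2.1 (D.ln ψ (D.kap ψ (v [])) g t)
    rw [← hp, Pi.zero_apply, hψ.2.2]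
    refine Finset.prod_dvd_of_coprime (fun q h q' h' hne => IsCoprime.pow ?_) fun q h => ?_
    · refine (hq q h).1.coprime_iff_not_dvd.2 fun hd => hne ?_
      exact eq_of_monic_of_associated (hq q h).2.1 (hq q' h').2.1
        ((hq q h).1.associated_of_dvd (hq q' h').1 hd)
    · obtain ⟨B, _, _, _, _, χ, hχ⟩ := a1 _ (dpow q (hq q h).2 (j + m))
      have him : i q ≤ m := Nat.findGreatest_le m
      have e0 : q ^ (j + m) = q ^ (j + m - i q) * q ^ i q := by
        rw [← pow_add, Nat.sub_add_cancel (by omega)]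
      obtain ⟨μ, m1, m2⟩ := ((a7 A ψ f hψ).2 B χ _ (q ^ (j + m - i q)) hχ).1
        (e0 ▸ mul_dvd_mul_left _ (Finset.dvd_prod_of_mem _ h))
      have e1 := m1 1
      rw [map_one, mul_one, map_pow] at e1
      have e2 := Si q B χ hχ g hg
      rw [← e1, ← D.kap_map hψ.1 hχ.1 μ m2 (hK.1 []),
        (Dat.ln_map (D := D) hψ.1 hχ.1 μ ⊤ (fun a y _ => m2 a y) fun _ _ => trivial).1] at e2
      have e3 : μ (D.ln ψ (D.kap ψ (v [])) g t) = 0 := congrFun e2 t
      rw [← hp, m1, hχ.2.2, e0] at e3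
      exact (mul_dvd_mul_iff_left (pow_ne_zero _ (hq q h).1.ne_zero)).1 e3
  rw [hf, hnd] at hdf
  have key : ∀ q ∈ Q, s.count q * q.natDegree + (if q = X then 2 else 0) ≤
      2 * (i q * q.natDegree) := fun q h => by
    have h1 : i q < m := by
      have := Finset.single_le_sum (f := fun q => i q * q.natDegree) (fun _ _ => Nat.zero_le _) h
      have h2 := Nat.le_mul_of_pos_right (i q) (hq q h).1.natDegree_pos
      omega
    have h2 : ¬ S q (i q + 1) := Nat.findGreatest_is_greatest (Nat.lt_succ_self _) h1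
    simp only [S, not_forall] at h2
    obtain ⟨A, _, _, _, _, ψ, hψ, h2⟩ := h2
    obtain ⟨B, _, _, _, _, χ, hχ⟩ := a1 _ (dpow q (hq q h).2 j)
    obtain ⟨M, hM, hSS, hk⟩ := hLB q (s.count q) j (hq q h).1
      (hFp ▸ Finset.dvd_prod_of_mem (fun q => q ^ s.count q) h) hj1 B χ hχ
    obtain ⟨h3, h4⟩ := hQB D v hK hR h0 q j m (i q) (hq q h).1 (hq q h).2.1 h1 hj2 A ψ B χ hψ hχ
      h2 M hM hSS
    split_ifs with e
    · have h5 := h4 e
      rw [e, natDegree_X] at hk ⊢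
      rw [e] at h5
      omega
    · rw [mul_assoc] at h3
      omega
  have h1 := Finset.sum_le_sum key
  rw [Finset.sum_add_distrib, Finset.sum_ite_eq' Q X fun _ => 2, if_pos hXQ, ← Finset.mul_sum,
    ← hnd fun q => s.count q, ← hFp] at h1
  omega

end Pool.Agent.P.MP_8b7eba_nt.R2
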