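import Pool.Agent.P.MP_8b7eba_nt.R2.SelB
import Pool.Agent.P.MP_8b7eba_nt.R2.ChainA

/-! Proof of SB. -/

namespace Pool.Agent.P.MP_8b7eba_nt.R2

open scoped NNReal Matrix
open MP_9c97e9_nt (Pt pm Is ap Sha Split)
open Filter Topology Polynomial Module

namespace TSB

section
variable {F P Q R V : Type} [Field F] [AddCommGroup P] [Module F P] [AddCommGroup Q] [Module F Q]
  [AddCommGroup R] [Module F R] [AddCommGroup V] [Module F V]

theorem dim1 [FiniteDimensional F Q] (i : P →ₗ[F] Q) (hi : Function.Injective i) (f : Q →ₗ[F] R)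
    (hf : ∀ p, f (i p) = 0) (k : V →ₗ[F] R) (hk : Function.Injective k)
    (hV : ∀ v, ∃ q, f q = k v) : finrank F P + finrank F V ≤ finrank F Q := by
  have h1 := LinearMap.finrank_range_add_finrank_ker f
  have h2 : finrank F P ≤ finrank F (LinearMap.ker f) := by
    rw [← LinearMap.finrank_range_of_inj hi]
    exact Submodule.finrank_mono (by rintro _ ⟨p, rfl⟩; exact hf p)
  have h3 : finrank F V ≤ finrank F (LinearMap.range f) := by
    rw [← LinearMap.finrank_range_of_inj hk]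
    exact Submodule.finrank_mono (by rintro _ ⟨v, rfl⟩; exact hV v)
  omega

theorem dim2 [FiniteDimensional F Q] [FiniteDimensional F R] [FiniteDimensional F P]
    (L : Q →ₗ[F] Dual F R) (i : P →ₗ[F] Q) (hi : ∀ q, L q = 0 → ∃ p, i p = q) (k : V →ₗ[F] R)
    (hk : Function.Injective k) (hL : ∀ q v, L q (k v) = 0) :
    finrank F Q + finrank F V ≤ finrank F R + finrank F P := by
  have h1 := LinearMap.finrank_range_add_finrank_ker L
  have h2 : finrank F (LinearMap.ker L) ≤ finrank F P :=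
    (Submodule.finrank_mono (t := LinearMap.range i) fun q hq => hi q hq).trans
      (LinearMap.finrank_range_le i)
  have h3 := Subspace.finrank_add_finrank_dualAnnihilator_eq (LinearMap.range k)
  have h4 : finrank F (LinearMap.range L) ≤ finrank F (LinearMap.range k).dualAnnihilator :=
    Submodule.finrank_mono (by
      rintro _ ⟨q, rfl⟩
      rw [Submodule.mem_dualAnnihilator]
      rintro _ ⟨v, rfl⟩
      exact hL q v)
  rw [LinearMap.finrank_range_of_inj hk] at h3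
  omega

theorem fin_of_bdd (H : Submodule F Q) (n : ℕ)
    (h : ∀ M ≤ H, FiniteDimensional F M → finrank F M ≤ n) : FiniteDimensional F H := by
  refine Module.rank_lt_aleph0_iff.1 (lt_of_le_of_lt (rank_le (n := n) fun s hs => ?_)
    (Cardinal.natCast_lt_aleph0))
  have e := h ((Submodule.span F (s : Set H)).map H.subtype) (Submodule.map_subtype_le _ _)
    inferInstance
  rwa [Submodule.finrank_map_subtype_eq, finrank_span_finset_eq_card hs] at e

end

variable {A : Type} [NormedCommRing A] [NormedAlgebra ℚ_[2] A] [IsUltrametricDist A]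
  [FiniteDimensional ℚ_[2] A] {ψ : ℤ_[2] → A}

/-- normalised local cocycles -/
def Hp (D : Dat) (h : IsPsi ψ) : Submodule ℚ_[2] (GS → A) where
  carrier := {x | PZ (fun _ => D.w2.D) (D.th ψ 0) x ∧ x (cs D.f2) = 0 ∧
    ∀ g, g ∉ S1 D.w2.D → x g = 0}
  add_mem' := fun hx hy => ⟨hx.1.add (D.rep_th h 0) hy.1, by simp [hx.2.1, hy.2.1],
    fun g hg => by simp [hx.2.2 g hg, hy.2.2 g hg]⟩
  zero_mem' := ⟨pz_zero, rfl, fun _ _ => rfl⟩
  smul_mem' := fun a _ hx => ⟨hx.1.smul (D.rep_th h 0) a, by simp [hx.2.1],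
    fun g hg => by simp [hx.2.2 g hg]⟩

open Classical in
/-- localisation -/
noncomputable def lp (D : Dat) (h : IsPsi ψ) : (GS → Fin 2 → A) →ₗ[A] GS → A where
  toFun y g := if g ∈ S1 D.w2.D then D.ln ψ y g 0 else 0
  map_add' x y := funext fun g => by
    by_cases hg : g ∈ S1 D.w2.D <;> simp [hg, Dat.ln_add h]
  map_smul' a x := funext fun g => by
    by_cases hg : g ∈ S1 D.w2.D <;> simp [hg, Dat.ln_smul h]

theorem lp_in (D : Dat) (h : IsPsi ψ) (y : GS → Fin 2 → A) {g : GS} (hg : g ∈ S1 D.w2.D) :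
    lp D h y g = D.ln ψ y g 0 := if_pos hg

theorem lp_mem (D : Dat) (h : IsPsi ψ) {y : GS → Fin 2 → A} (hy : D.Sel ψ [] y) :
    lp D h y ∈ Hp D h := by
  refine ⟨?_, ?_, fun g hg => if_neg hg⟩
  · exact (((hy.1.pz.mono fun _ => D.D_le).ln h fun _ => D.D_le).zero_th h hy.2.1).congr
      fun g hg => lp_in D h y hg
  · rw [lp_in D h y (cs_mem.2 D.fD), Dat.ln_f2 h]; rfl

omit [IsUltrametricDist A] [FiniteDimensional ℚ_[2] A] in
theorem th_f2 (D : Dat) (h : IsPsi ψ) (i : Fin 2) (v : A) :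
    D.th ψ i D.f2 v = D.T.rd D.dl D.f2 i i • v := by
  simp [Dat.th, D.fa, h.zero]

theorem lm_pz (hA : CB) (D : Dat) (h : IsPsi ψ) {s : GS → Fin 2 → A} (hs : D.SS ψ s) :
    PZ (fun _ => D.w2.D) (D.th (bar ψ) 1) fun g => D.ln (bar ψ) (D.xt s) g 1 :=
  (((hs.1.pz.xt hA h).mono fun _ => D.D_le).ln h.bar fun _ => D.D_le).one_th h.bar

end TSB

open TSB in
theorem t_SB (hCP : CP) (hDUAL : DUAL) : SB := by
  intro D A _ _ _ _ ψ π j e b R κ h hC hb hκ hS hB M hM hMs
  obtain ⟨t, ht⟩ := hC.exists_form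
  obtain ⟨S, hSel⟩ := Dat.exists_sel (D := D) h []
  set β := (LinearMap.mul ℚ_[2] A).compr₂ t with hβ
  have hβa : ∀ x y, β x y = t (x * y) := fun _ _ => rfl
  have hne := (D.T.det_ne D.fd D.fc).2.2
  have eq1 : ∀ g ∈ D.w2.D, ∀ x y, β (D.th (bar ψ) 1 g x) (D.th ψ 0 g y) = cq g * β x y :=
    fun g hg x y => by rw [hβa, hβa, D.th_equiv h hg, map_smul, smul_eq_mul]
  have K1 := (hCP.kld A A β (D.th (bar ψ) 1) (D.th ψ 0) D.w2 D.f2 _ _ D.hw2 (D.rep_th h.bar 1)
    (D.rep_th h 0) ht (fun y hy => ht y fun x => by rw [mul_comm]; exact hy x) eq1 D.fD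
    (th_f2 D h.bar 1) (th_f2 D h 0) (hne 1) (hne 0)).1
  have K2 := (hCP.kld A A β (D.th ψ 0) (D.th (bar ψ) 1) D.w2 D.f2 _ _ D.hw2 (D.rep_th h 0)
    (D.rep_th h.bar 1) ht (fun y hy => ht y fun x => by rw [mul_comm]; exact hy x)
    (fun g hg x y => by rw [hβa, hβa, mul_comm, mul_comm x]; exact eq1 g hg y x) D.fD
    (th_f2 D h 0) (th_f2 D h.bar 1) (hne 0) (hne 1)).2
  have hfin : FiniteDimensional ℚ_[2] (Hp D h) :=
    fin_of_bdd _ _ fun N hN hf => K2 N hf fun x hx => hN hx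
  have hHp : finrank ℚ_[2] (Hp D h) ≤ e * j := hC.finrank ▸ K2 _ hfin fun x hx => hx
  have hP := hCP.pix (fun _ => D.w2) (fun _ => D.w2.D) fun _ => ⟨⊤, isOpen_univ, by simp⟩
  have hcup : ∀ (s : M) (y : GS → A), PZ (fun _ => D.w2.D) (D.th ψ 0) y → PZ2 (fun _ => D.w2.D)
      (cupS β (D.th ψ 0) (fun g => D.ln (bar ψ) (D.xt s.1) g 1) y) := fun s y hy =>
    pz2_cup (D.rep_th h.bar 1) (D.rep_th h 0) (fun _ => le_rfl) eq1
      (lm_pz hCP.toCF.toCB D h (hMs s.1 s.2)) hy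
  let L : M →ₗ[ℚ_[2]] Dual ℚ_[2] (Hp D h) := LinearMap.mk₂ ℚ_[2]
    (fun s y => PI (fun _ => D.w2) (fun _ => D.w2.D)
      (cupS β (D.th ψ 0) (fun g => D.ln (bar ψ) (D.xt s.1) g 1) y.1))
    (fun s s' y => by
      rw [← (hP _ (hcup s y y.2.1)).2.2.2.1 _ (hcup s' y y.2.1)]
      refine congrArg _ (funext fun g => funext fun g' => ?_)
      simp [cupS, Dat.xt_add, Dat.ln_add h.bar])
    (fun c s y => by
      rw [smul_eq_mul, ← (hP _ (hcup s y y.2.1)).2.2.2.2.1]
      refine congrArg _ (funext fun g => funext fun g' => ?_)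
      rw [show (c • s).1 = algebraMap ℚ_[2] A c • s.1 by simp, Dat.xt_smul, Dat.ln_smul h.bar]
      simp [cupS, ← Algebra.smul_def])
    (fun s y y' => by
      rw [← (hP _ (hcup s y y.2.1)).2.2.2.1 _ (hcup s y' y'.2.1)]
      refine congrArg _ (funext fun g => funext fun g' => ?_)
      simp [cupS, (D.rep_th h 0).rS_add])
    (fun c s y => by
      rw [smul_eq_mul, ← (hP _ (hcup s y y.2.1)).2.2.2.2.1]
      refine congrArg _ (funext fun g => funext fun g' => ?_)
      simp [cupS, (D.rep_th h 0).rS_smul])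
  obtain ⟨hV, i, -, hi, -, hVd⟩ := hC.finrank_span (lp D h κ)
  have hVm : ∀ v ∈ Submodule.span A {lp D h κ}, ∃ a : A, lp D h (a • κ) = v := fun v hv => by
    obtain ⟨a, rfl⟩ := Submodule.mem_span_singleton.1 hv
    exact ⟨a, map_smul _ _ _⟩
  have haκ : ∀ a : A, D.Sel ψ [] (a • κ) := fun a => (hSel _).1 (S.smul_mem a ((hSel _).2 hκ))
  have hij : j - b ≤ i := by
    by_contra hlt
    refine hS fun g hg => ?_
    have e0 : lp D h (π ^ (j - b - 1) • κ) = 0 := by
      obtain ⟨c, hc⟩ : ∃ c, j - b - 1 = c + i := ⟨j - b - 1 - i, by omega⟩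
      rw [map_smul, hc, pow_add, mul_smul, hi, smul_zero]
    funext a
    fin_cases a
    · exact (lp_in D h _ hg).symm.trans (congrFun e0 g)
    · exact (haκ _).2.1 g hg
  have f0 : FiniteDimensional ℚ_[2] ↥(M ⊓ S) :=
    Module.Finite.of_injective ((Submodule.inclusion (inf_le_left : M ⊓ S ≤ M)).restrictScalars ℚ_[2])
      (Submodule.inclusion_injective inf_le_left)
  have c1 : ∀ s : M, L s = 0 → s.1 ∈ S := fun s hs => by
    classical
    refine (hSel _).2 ⟨(hMs _ s.2).1, fun g hg => congrFun ((hMs _ s.2).2 g hg) 1,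
      K1 _ (lm_pz hCP.toCF.toCB D h (hMs s.1 s.2)) (congrFun (Dat.ln_f2 h.bar _) 1)
        fun y hy h0 => ?_⟩
    have hy' : PZ (fun _ => D.w2.D) (D.th ψ 0) fun g => if g ∈ S1 D.w2.D then y g else 0 :=
      hy.congr fun g hg => if_pos hg
    have e0 := LinearMap.congr_fun hs ⟨_, hy', by simp [h0], fun g hg => if_neg hg⟩
    refine ((hP _ (hcup s _ hy')).2.2.1 _ fun g _ g' hg' => ?_).trans e0
    simp only [cupS, if_pos hg']
  have c2 : ∀ v ∈ Submodule.span A {lp D h κ}, v ∈ Hp D h := fun v hv => by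
    obtain ⟨a, ha⟩ := hVm v hv
    exact ha ▸ lp_mem D h (haκ a)
  have c3 : ∀ (s : M) (v) (hv : v ∈ Submodule.span A {lp D h κ}), L s ⟨v, c2 v hv⟩ = 0 := by
    intro s v hv
    obtain ⟨a, rfl⟩ := hVm v hv
    refine Eq.trans ?_ ((hDUAL D A ψ h).2 s.1 _ (hMs _ s.2) (haκ a) t)
    refine ((hP _ (hcup s _ (lp_mem D h (haκ a)).1)).2.2.1 _ fun g _ g' hg' => ?_).symm
    simp only [cupS, lp_in D h _ hg']
    rfl
  have d2 := dim2 L ((Submodule.inclusion (inf_le_left : M ⊓ S ≤ M)).restrictScalars ℚ_[2])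
    (fun s hs => ⟨⟨s.1, s.2, c1 s hs⟩, rfl⟩)
    (((Submodule.span A {lp D h κ}).subtype.restrictScalars ℚ_[2]).codRestrict (Hp D h)
      fun v => c2 v.1 v.2)
    (fun v v' hv => Subtype.ext (congrArg (fun x : Hp D h => x.1) hv)) fun s v => c3 s v.1 v.2
  have f1 : FiniteDimensional ℚ_[2] ↥(M ⊓ S ⊔ Submodule.span A {κ}) := by
    have := (hC.finrank_span κ).1
    refine Module.Finite.of_surjective
      (((Submodule.inclusion (le_sup_left : M ⊓ S ≤ _)).restrictScalars ℚ_[2]).coprod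
        ((Submodule.inclusion (le_sup_right : Submodule.span A {κ} ≤ _)).restrictScalars ℚ_[2]))
      fun x => ?_
    obtain ⟨y, hy, z, hz, e⟩ := Submodule.mem_sup.1 x.2
    exact ⟨(⟨y, hy⟩, ⟨z, hz⟩), Subtype.ext e⟩
  have d1 := dim1 ((Submodule.inclusion
    (le_sup_left : M ⊓ S ≤ M ⊓ S ⊔ Submodule.span A {κ})).restrictScalars ℚ_[2])
    (Submodule.inclusion_injective le_sup_left) (((lp D h).domRestrict _).restrictScalars ℚ_[2])
    (fun p => funext fun g => by
      by_cases hg : g ∈ S1 D.w2.D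
      · exact (lp_in D h _ hg).trans (congrFun ((hMs _ p.2.1).2 g hg) 0)
      · exact if_neg hg)
    ((Submodule.span A {lp D h κ}).subtype.restrictScalars ℚ_[2]) Subtype.val_injective
    fun v => by
      obtain ⟨a, ha⟩ := hVm v.1 v.2
      exact ⟨⟨a • κ, Submodule.mem_sup_right
        (Submodule.smul_mem _ a (Submodule.mem_span_singleton_self κ))⟩, ha⟩
  have d3 := hB _ f1 fun x hx => (hSel x).1 ((sup_le inf_le_right
    ((Submodule.span_singleton_le_iff_mem _ _).2 ((hSel _).2 hκ)) :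
      M ⊓ S ⊔ Submodule.span A {κ} ≤ S) hx)
  have d4 : e * j ≤ e * i + e * b := by
    rw [← mul_add]; exact Nat.mul_le_mul_left _ (by omega)
  rw [hVd] at d1 d2
  rw [mul_assoc]
  omega

end Pool.Agent.P.MP_8b7eba_nt.R2
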