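import Pool.Agent.P.MP_8b7eba_nt.R2.TUPERPA
import Pool.Agent.P.MP_8b7eba_nt.R2.TSQ2

/-! Proof of UPERP, KARITH. -/

namespace Pool.Agent.P.MP_8b7eba_nt.R2

open scoped NNReal Matrix
open MP_9c97e9_nt (Pt pm Is ap Sha Split)
open Filter Topology Polynomial Module

namespace TUPERP

variable {w : Pl} {H : Subgroup GQ} {n : ℕ} {χ χ' : GQ → ZMod (2 ^ n)} {x y : Om}

/-- characters which kill the units -/
def Ku (w : Pl) (H : Subgroup GQ) (χ : GQ → ZMod (2 ^ n)) : Prop :=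
  IsCh H χ ∧ ∀ u, Fix H u → w.v u = 1 → Triv H (cup χ u)

theorem ne (h : w.v x = 1) : x ≠ 0 := fun e => by simp [e] at h

theorem Ku.smul (hC : CUP) (h : Ku w H χ) (k : ℕ) : Ku w H (k • χ) :=
  ⟨⟨h.1.1.comp (k • ·), fun a ha b hb => by simp only [Pi.smul_apply, h.1.2 a ha b hb, smul_add]⟩,
    fun u h1 h2 => ((hC H u h1 (ne h2) _ χ (by positivity) h.1).2.2.2.2.1 k).iff.2
      (h.2 _ (h1.pow k) (by rw [map_pow, h2, one_pow]))⟩

theorem Ku.add (hC : CUP) (h : Ku w H χ) (h' : Ku w H χ') : Ku w H (χ + χ') :=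
  ⟨⟨h.1.1.comp₂ h'.1.1 (· + ·), fun a ha b hb => by
    simp only [Pi.add_apply, h.1.2 a ha b hb, h'.1.2 a ha b hb]; ring⟩,
    fun u h1 h2 => ((hC H u h1 (ne h2) _ χ (by positivity) h.1).2.2.2.1 χ' h'.1).iff.2
      ((h.2 u h1 h2).mul (h'.2 u h1 h2))⟩

theorem quad (hA : CA) (hH : w.Loc H) (h : Ku w H χ) (h2 : ∀ g ∈ H, 2 • χ g = 0) {g : GQ}
    (hg : g ∈ w.I ⊓ H) : χ g = 0 := by
  by_contra h0
  obtain ⟨U, hU, hk⟩ := h.1.exists_ker
  have i2 : ∀ K ≤ H, g ∈ K → U.relIndex K = 2 := fun K hK e =>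
    Subgroup.relIndex_eq_two_iff_exists_notMem_and.2 ⟨g, e, fun a => h0 ((hk g).1 ⟨hg.2, a⟩).2,
      fun b hb => or_iff_not_imp_right.2 fun a => ((hk _).2 ⟨mul_mem (hK hb) hg.2, by
        have t : ∀ s ∈ H, χ s ≠ 0 → 2 * (χ s).val = 2 ^ n := fun s hs e =>
          ((ZMod.neg_eq_self_iff _).1 (neg_eq_of_add_eq_zero_left
            (by rw [← two_nsmul, h2 s hs]))).resolve_left e
        have := (t b (hK hb) fun e => a ((hk b).2 ⟨hK hb, e⟩).2).trans (t g hg.2 h0).symm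
        rw [h.1.2 b (hK hb) g hg.2, ZMod.val_injective _ (by omega : (χ b).val = (χ g).val),
          ← two_nsmul, h2 g hg.2]⟩).2⟩
  have i3 : (H ⊓ U).relIndex H = 2 := by rw [Subgroup.inf_relIndex_left, i2 H le_rfl hg.2]
  obtain ⟨β, b0, b1, b2⟩ := (hA.gal H hH.closed).2.2.2.1 U hU (i2 H le_rfl hg.2)
  have hne : -β ≠ β := fun e => b0 (by linear_combination (-1 / 2 : Om) * e)
  have b3 : g β ≠ β := (b2 g hg.2).2 (fun a => h0 ((hk g).1 ⟨hg.2, a⟩).2) ▸ hne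
  have e := (hA.sym H (H ⊓ U) β hH.closed b0 b1 fun s => by
    rw [Subgroup.mem_inf]
    refine and_congr_right fun hs => ⟨fun a => by simp [qc, (b2 s hs).1 a], fun a => ?_⟩
    by_contra h4
    simp [qc, (b2 s hs).2 h4, hne] at a).2.2.2.1 ⟨g, hg.2, b3⟩
  obtain ⟨a, a1, a0, a2⟩ := (hA.ni w H _ hH b1 (pow_ne_zero 2 b0)
    fun s => b3 ((sq_iff b1).1 s g hg.2)).1
  obtain ⟨V, hV, rfl⟩ := id hH
  obtain ⟨π, -, p1, -, p2, -⟩ := hA.unif w V hV
  obtain ⟨ϖ, q0, q1, -, q2, -⟩ := hA.unif w (U ⊓ V) (hU.inter hV)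
  rw [← Subgroup.relIndex_inf_mul_relIndex, i2 _ (le_inf (inf_le_right.trans w.I_le_D) inf_le_left)
    ⟨hg.2.2, hg.1⟩, pow_mul, ← p2, pow_left_inj₀ zero_le zero_le (relIndex_ne_zero hV _)] at q2
  have q3 : Fix (w.D ⊓ V ⊓ U) ϖ := q0.mono (le_inf inf_le_right (inf_le_left.trans inf_le_right))
  have r0 : (w.D ⊓ V ⊓ U).relIndex (w.D ⊓ V) ≠ 0 := by omega
  obtain ⟨k, hk'⟩ := p1.2.2.2 a a1 a0
  have z0 := zpow_ne_zero k q1.2.1
  obtain ⟨b, c1, c2⟩ := (hA.cyc2 _ _ _ χ hH.closed (by positivity) h.1 hk _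
    (a1.div ((q3.zpow k).nrm r0)) (div_ne_zero a0 (mt (nrm_eq_zero r0).1 z0))).1
    (h.2 _ (a1.div ((q3.zpow k).nrm r0)) (by
      rw [map_div₀, v_nrm r0 hH.le, i3, map_zpow₀, ← zpow_natCast, ← zpow_mul, mul_comm, zpow_mul,
        zpow_natCast, q2, hk', div_self (zpow_ne_zero _ (w.v.ne_zero_iff.2 p1.2.1))]))
  exact a2 ((e a).1 ⟨b * ϖ ^ k, c1.mul (q3.zpow k), by
    rw [nrm_mul r0, c2, div_mul_cancel₀ _ (mt (nrm_eq_zero r0).1 z0)]⟩)

theorem core (hA : CA) (hH : w.Loc H) (h : Ku w H χ) (h2 : ∀ g ∈ w.I ⊓ H, 2 • χ g = 0) {g : GQ}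
    (hg : g ∈ w.I ⊓ H) : χ g = 0 := by
  obtain ⟨f, φ, -, h1, fr, -, e, -⟩ := hA.frob w H hH
  obtain ⟨υ, u1, u2, u3⟩ := TUPERPA.chi hA.frob hH h1 fr e hA.uch n
  obtain ⟨U, -, hk⟩ := u1.exists_ker
  have u4 : Ku w H υ := ⟨u1, fun u a b => (hA.cyc2 _ _ _ υ hH.closed (by positivity) u1 hk u a
    (ne b)).2 ((hA.unit w H _ _ n υ rfl hH u1 hk).1 u2 u a b)⟩
  have u5 := h.add hA.cup (u4.smul hA.cup (-χ φ).val)
  have u6 : ∀ i ∈ w.I ⊓ H, (χ + (-χ φ).val • υ) i = χ i := fun i hi => by simp [u2 i hi]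
  rw [← u6 g hg]
  refine quad hA hH u5 (fun s hs => ?_) hg
  obtain ⟨m, i, hi, e⟩ := TUPERPA.dec hA.frob hH h1 fr e u5.1 hs
  rw [e, u6 i hi, smul_add, h2 i hi, Pi.add_apply, Pi.smul_apply, u3]
  simp

/-! ### The imaginary quadratic field -/

theorem sqf {c : ℚ} (h : c ≠ 0) : ∃ (a : ℤ) (r : ℚ), Squarefree a ∧ r ≠ 0 ∧ c = a * r ^ 2 := by
  obtain ⟨a, b, e, ha⟩ := Nat.sq_mul_squarefree (c.num * c.den).natAbs
  have h1 : (c.den : ℚ) ≠ 0 := by exact_mod_cast c.den_nz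
  have h2 : ((b : ℚ) / c.den) ^ 2 * a = |c| := by
    have := congrArg (Nat.cast : ℕ → ℚ) e
    rw [Nat.cast_natAbs] at this
    push_cast at this
    rw [div_pow, div_mul_eq_mul_div, this, ← Rat.mul_den_eq_num, abs_mul, abs_mul, Nat.abs_cast]
    field_simp
  have h3 : (b : ℚ) / c.den ≠ 0 := fun e => h (abs_eq_zero.1 (by rw [← h2, e]; simp))
  rcases abs_choice c with e | e
  · exact ⟨a, _, Int.squarefree_natCast.2 ha, h3, by push_cast; linear_combination -h2 - e⟩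
  · exact ⟨-a, _, Int.squarefree_natAbs.1 (by simpa using ha), h3, by
      push_cast; linear_combination h2 + e⟩

theorem dv {a : ℤ} (h : Squarefree a) (e : ∀ p : ℕ, p.Prime → (p : ℤ) ∣ a → p = 2) :
    a = 1 ∨ a = -1 ∨ a = 2 ∨ a = -2 := by
  have h1 : a.natAbs ∣ 2 := by
    rw [← Nat.prod_primeFactors_of_squarefree (Int.squarefree_natAbs.2 h)]
    exact Finset.prod_primes_dvd _ (fun p hp => (Nat.prime_of_mem_primeFactors hp).prime)
      fun p hp => e p (Nat.prime_of_mem_primeFactors hp)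
        (Int.natCast_dvd.2 (Nat.dvd_of_mem_primeFactors hp)) ▸ dvd_rfl
  have := (Nat.dvd_prime Nat.prime_two).1 h1
  omega

theorem m16 (n : ℕ) (h0 : n ≠ 0) (h : ∀ p, p.Prime → p ∣ n → p ^ 2 % 16 = 1) : n ^ 2 % 16 = 1 := by
  induction n using induction_on_primes with
  | zero => exact absurd rfl h0
  | one => rfl
  | prime_mul p a hp ih =>
    rw [mul_pow, Nat.mul_mod, h p hp (dvd_mul_right _ _),
      ih (right_ne_zero_of_mul h0) fun q hq e => h q hq (e.mul_left _)]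

theorem v_sqf {a : ℤ} (h : Squarefree a) (e : (w.p : ℤ) ∣ a) : w.v a = w.v w.p := by
  obtain ⟨b, rfl⟩ := e
  rw [Int.cast_mul, map_mul, Int.cast_natCast, Pl.v_int_eq_one.2 fun e =>
    (Nat.prime_iff_prime_int.1 w.prime).not_isUnit (h _ (mul_dvd_mul_left _ e)), mul_one]

theorem ev_div (hy : Fix H y) (h0 : y ≠ 0) (h : w.Ev H (x * y ^ 2)) : w.Ev H x := by
  obtain ⟨z, h1, e⟩ := h
  refine ⟨z / y, h1.div hy, ?_⟩
  rw [map_div₀, div_pow, ← e, map_mul, map_pow, mul_div_cancel_right₀]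
  exact pow_ne_zero _ (w.v.ne_zero_iff.2 h0)

theorem sq_div (hy : Fix H y) (h0 : y ≠ 0) (h : Sq H (x * y ^ 2)) : Sq H x := by
  obtain ⟨z, h1, e⟩ := h
  exact ⟨z / y, h1.div hy, by rw [div_pow, ← e, mul_div_cancel_right₀ _ (pow_ne_zero _ h0)]⟩

theorem nm_pow {b : Om} (hb : Fix H b) (h : Nm H b x) (k : ℕ) : Nm H b (x ^ k) := by
  induction k with
  | zero => exact Nm.of_sq ⟨1, fix_one, by simp⟩
  | succ k ih => rw [pow_succ]; exact ih.mul hb h

theorem nm_cancel {b : Om} (hb : Fix H b) (h0 : x ≠ 0) (h : Nm H b x) (h' : Nm H b (y * x)) :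
    Nm H b y := by
  simpa [h0] using h'.mul hb (h.inv hb)

/-- a unit whose square is `9` modulo `16` is not a norm from the field with a root of two -/
theorem loc2 (hA : CA) (hw : w.p = 2) (hx : Fix w.D x) {m : ℤ} (e : x ^ 2 = m) (hm : m % 16 = 9) :
    ¬ Nm w.D 2 x := fun h => by
  have f2 : Fix w.D 2 := fix_ofNat 2
  have n1 : Nm w.D 2 (-1) := ⟨1, 1, fix_one, fix_one, by norm_num⟩
  have n2 : Nm w.D 2 2 := ⟨2, 1, f2, fix_one, by norm_num⟩
  have v1 : w.v x = 1 := TSQ2.v_one (Pl.v_int_eq_one.2 (by rw [hw]; omega)) e.symm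
  obtain ⟨k, hk⟩ := (hA.res w _ w.loc_D).2.2.2.2.2 x hx v1.le 4
  have h1 : (w.p : ℤ) ^ 4 ∣ m - k ^ 2 := Pl.v_int_le_iff.1 (by
    push_cast
    rw [← e]
    exact (Pl.v_pow_sub v1.le (w.v_nat_le k) 2).trans hk)
  obtain ⟨c, hc⟩ : ∃ c : ℕ, ((k : ℤ) * ((-1) ^ c * 5)) % 8 = 1 := by
    have h2 : ((k : ℤ) % 16) ^ 2 % 16 = 9 := by
      rw [sq, ← Int.mul_emod, ← sq]; rw [hw] at h1; omega
    have h3 : (k : ℤ) % 8 = 3 ∨ (k : ℤ) % 8 = 5 := by
      have := Int.emod_nonneg k (b := 16) (by norm_num)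
      have := Int.emod_lt_of_pos k (b := 16) (by norm_num)
      rw [← Int.emod_emod_of_dvd k (by norm_num : (8 : ℤ) ∣ 16)]
      generalize (k : ℤ) % 16 = j at *
      interval_cases j <;> simp at h2 ⊢
    rcases h3 with h3 | h3
    exacts [⟨1, by omega⟩, ⟨0, by omega⟩]
  have h2 := TSQ2.sq_of hA.hens hw (hx.mul (fix_int ((-1) ^ c * 5))) (by
    rw [Int.cast_mul (k : ℤ), ← sub_mul, map_mul, Int.cast_natCast]
    refine (mul_le_of_le_one_right zero_le (w.v_int_le _)).trans (hk.trans ?_)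
    rw [hw]
    norm_num [← NNReal.coe_le_coe]) hc
  have n5 : Nm w.D 2 5 := nm_cancel f2 (mul_ne_zero (ne v1) (by simp)) (h.mul f2 (nm_pow f2 n1 c))
    (by rw [show 5 * (x * (-1) ^ c) = x * ((-1) ^ c * 5 : ℤ) by push_cast; ring]; exact .of_sq h2)
  obtain ⟨a, a1, a0, a2⟩ := (hA.ni w _ 2 w.loc_D f2 two_ne_zero
    (by simpa using ((hA.sq2 w).2.2.2.2.1 hw 1 odd_one).2)).1
  obtain ⟨i, j, l, a3⟩ := (hA.sq2 w).2.2.2.1 hw a a1 a0
  exact a2 (nm_cancel f2 (by simp) (nm_pow f2 n1 i) (nm_cancel f2 (by simp) (nm_pow f2 n2 j)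
    (nm_cancel f2 (by simp) (nm_pow f2 n5 l) (.of_sq a3))))

variable (hA : CA) (P : Pre)

/-- even order at all odd places -/
def Eo (P : Pre) (x : Om) : Prop := ∀ w : Pl, w.p ≠ 2 → w.Ev (w.D ⊓ P.GK) x

theorem out {g : GQ} (h : g ∉ P.GK) : g P.sk = -P.sk :=
  (TSQ2.pm (by rw [P.hsk, map_neg, map_natCast])).resolve_left h

theorem fsk : Fix P.GK P.sk := fun _ h => h

theorem Eo.div {P : Pre} (hy : Fix P.GK y) (h0 : y ≠ 0) (h : Eo P (x * y ^ 2)) : Eo P x :=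
  fun w hw => ev_div (hy.mono inf_le_right) h0 (h w hw)

theorem Eo.conj {P : Pre} (h : Eo P x) (g : GQ) : Eo P (g x) := fun w hw => by
  obtain ⟨y, h1, e⟩ := h (g⁻¹ • w) hw
  refine ⟨g y, fun s hs => ?_, e⟩
  have := congrArg g (h1 (g⁻¹ * s * g) ⟨Pl.mem_D_smul.2 (by simpa [mul_assoc] using hs.1),
    P.on.1.conj_mem' s hs.2 g⟩)
  rwa [mul_assoc, AlgEquiv.mul_apply, BasicP.apply_inv] at this

include hA

theorem tau_out : tau ∉ P.GK := fun h => by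
  have h1 := hA.tau.1 P.sk
  rw [fsk P _ h, eq_comm, Complex.conj_eq_iff_re] at h1
  have h2 := congrArg io P.hsk
  rw [map_pow, ← h1, map_neg, map_natCast] at h2
  have h3 : (0 : ℝ) < P.l := Nat.cast_pos.2 P.lp.pos
  have h4 : (io P.sk).re ^ 2 = -P.l := by exact_mod_cast h2
  linarith [sq_nonneg (io P.sk).re]

theorem dle (w : Pl) (h : (w.p : ℤ) ∣ 30 * P.d) : w.D ≤ P.GK := by
  have := P.l16
  have e : P.sk ^ 2 = ((-P.l : ℤ) : Om) := by rw [P.hsk]; simp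
  refine (sq_iff (β := P.sk) (e ▸ fix_int _)).1 (e ▸ ?_)
  by_cases h2 : w.p = 2
  · exact ((hA.sq2 w).2.2.2.2.1 h2 _ (Int.odd_iff.2 (by omega))).1.2 (by omega)
  · have h3 := P.spl _ w.prime
      (((Nat.prime_iff_prime_int.1 w.prime).dvd_or_dvd (a := (2 : ℕ)) (by
        rwa [show (2 : ℕ) * (15 * P.d) = 30 * P.d by push_cast; ring])).resolve_left fun e =>
          h2 ((Nat.prime_dvd_prime_iff_eq w.prime Nat.prime_two).1 (Int.natCast_dvd_natCast.1 e)))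
    refine ((hA.sq2 w).2.2.2.2.2 h2 _ fun e => ?_).1.2 h3
    have := Fact.mk w.prime
    rw [← jacobiSym.legendreSym.to_jacobiSym, (legendreSym.eq_zero_iff _ _).2
      ((ZMod.intCast_zmod_eq_zero_iff_dvd _ _).2 e)] at h3
    omega

variable {P}

theorem noev (h : Eo P x) {w : Pl} (h2 : w.p ≠ 2) (hl : w.p ≠ P.l) : w.v x ≠ w.v w.p := fun e => by
  obtain ⟨y, h1, h3⟩ := h w h2
  exact (hA.res w _ w.loc_D).2.2.2.2.1.not_ev ⟨y, h1.mono (le_inf w.I_le_D fun g hg =>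
    Pl.I_fix hA.tame hA.res h2 (m := -P.l) (by rw [P.hsk]; simp) (fun e => hl
      ((Nat.prime_dvd_prime_iff_eq w.prime P.lp).1 (Int.natCast_dvd_natCast.1 (dvd_neg.1 e)))) hg),
    e ▸ h3⟩

theorem int {a : ℤ} (ha : Squarefree a) (hl : ¬ (P.l : ℤ) ∣ a) (h : Eo P a) (h' : Sq P.w2.D a) :
    a = 1 := by
  have s := (hA.sq2 P.w2).2.2.2.2.1 P.hw2
  rcases dv ha fun p hp e => by_contra fun h2 => by
    obtain ⟨w, rfl⟩ := hA.pl.1 p hp
    exact noev hA h h2 (fun e' => hl (e' ▸ e)) (v_sqf ha e) with rfl | rfl | rfl | rfl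
  · rfl
  · exact absurd ((s _ (by decide)).1.1 h') (by decide)
  · exact absurd (by simpa using h') (s 1 odd_one).2
  · exact absurd (by simpa using h') (s (-1) (by decide)).2

theorem rat {c : ℚ} (h0 : c ≠ 0) (hy : Fix P.GK y) (y0 : y ≠ 0) (h : Eo P (c * y ^ 2))
    (h' : Sq P.w2.D (c * y ^ 2)) : Sq P.GK (c * y ^ 2) := by
  have hD := dle hA P P.w2 (by rw [P.hw2]; exact ⟨15 * P.d, by push_cast; ring⟩)
  obtain ⟨a, r, ha, hr, rfl⟩ := sqf h0
  have r0 : (r : Om) ≠ 0 := by simpa using hr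
  have key : ∀ (a : ℤ) (z : Om), Squarefree a → ¬ (P.l : ℤ) ∣ a → Fix P.GK z → z ≠ 0 →
      Eo P (a * z ^ 2) → Sq P.w2.D (a * z ^ 2) → Sq P.GK (a * z ^ 2) := fun a z a1 a2 z1 z0 e e' =>
    ⟨z, z1, by rw [int hA a1 a2 (e.div z1 z0) (sq_div (z1.mono hD) z0 e')]; simp⟩
  by_cases hl : (P.l : ℤ) ∣ a
  · obtain ⟨b, rfl⟩ := hl
    rw [show ((((P.l * b : ℤ) : ℚ) * r ^ 2 : ℚ) : Om) * y ^ 2 = (-b : ℤ) * (P.sk * r * y) ^ 2 by
      push_cast; rw [mul_pow, mul_pow, P.hsk]; ring] at h h' ⊢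
    exact key _ _ (Int.squarefree_natAbs.1 (by simpa using ha.of_mul_right))
      (fun e => (Nat.prime_iff_prime_int.1 P.lp).not_isUnit
        (ha _ (mul_dvd_mul_left _ (dvd_neg.1 e)))) (((fsk P).mul (fix_rat r)).mul hy)
      (mul_ne_zero (mul_ne_zero P.dl_ne.2.1 r0) y0) h h'
  · rw [show (((a : ℚ) * r ^ 2 : ℚ) : Om) * y ^ 2 = a * (r * y) ^ 2 by push_cast; ring] at h h' ⊢
    exact key _ _ ha hl ((fix_rat r).mul hy) (mul_ne_zero r0 y0) h h'

theorem evN (hx : Fix P.GK x) (h : Eo P x) {w : Pl} (h2 : w.p ≠ 2) : w.Ev w.D (x * tau x) := by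
  obtain ⟨y, y1, y2⟩ := h w h2
  by_cases hD : w.D ≤ P.GK
  · obtain ⟨z, z1, z2⟩ := h.conj tau w h2
    rw [inf_of_le_left hD] at y1 z1
    exact ⟨y * z, y1.mul z1, by rw [map_mul, map_mul, y2, z2, mul_pow]⟩
  · obtain ⟨s, s1, s2⟩ := SetLike.not_le_iff_exists.1 hD
    have e := congrArg tau (hx _ (P.mul_mem (mt P.GK.inv_mem_iff.1 (tau_out hA P)) s2))
    rw [AlgEquiv.mul_apply, BasicP.apply_inv] at e
    have i2 : (w.D ⊓ P.GK).relIndex w.D = 2 := by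
      rw [Subgroup.inf_relIndex_left]
      exact Subgroup.relIndex_eq_two_iff_exists_notMem_and.2
        ⟨s, s1, s2, fun b _ => or_iff_not_imp_right.2 fun e => P.mul_mem e s2⟩
    exact ⟨_, y1.nrm (by omega), by
      rw [v_nrm (by omega) le_rfl, i2, ← y2, map_mul, ← e, Pl.mem_D.1 s1, sq]⟩

theorem core2 {α : ℚ} {b : ℤ} (hb : Squarefree b) (e : x = α + b * P.sk) (h : Eo P x)
    (h' : Sq P.w2.D x) : Sq P.GK x := by
  have hD := dle hA P P.w2 (by rw [P.hw2]; exact ⟨15 * P.d, by push_cast; ring⟩)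
  have hx : Fix P.GK x := e ▸ (fix_rat α).add ((fix_int b).mul (fsk P))
  have e' : tau x = α - b * P.sk := by
    rw [e, map_add, map_mul, map_ratCast, map_intCast, out P (tau_out hA P)]; ring
  have n0 : (0 : ℚ) < α ^ 2 + P.l * b ^ 2 := by
    have := P.lp.pos
    have := hb.ne_zero
    positivity
  obtain ⟨a, r, ha, hr, e1⟩ := sqf n0.ne'
  have r0 : (r : Om) ≠ 0 := by simpa using hr
  have e2 : (α : Om) ^ 2 + P.l * b ^ 2 = a * r ^ 2 := by exact_mod_cast e1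
  have e3 : x * tau x = a * r ^ 2 := by rw [e', e]; linear_combination e2 - b ^ 2 * P.hsk
  have a0 : 0 < a := by
    rw [e1] at n0
    exact_mod_cast pos_of_mul_pos_left n0 (sq_nonneg r)
  have x0 : x ≠ 0 := fun e => by simp [e, r0, a0.ne'] at e3
  have b0 : (b : Om) ≠ 0 := by simpa using hb.ne_zero
  obtain rfl | rfl : a = 1 ∨ a = 2 := by
    have := dv ha fun p hp e => by_contra fun h2 => by
      obtain ⟨w, rfl⟩ := hA.pl.1 p hp
      obtain ⟨y, y1, y2⟩ := ev_div (fix_rat r) r0 (e3 ▸ evN hA hx h h2)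
      exact (hA.res w _ w.loc_D).2.2.2.1.not_ev ⟨y, y1, v_sqf ha e ▸ y2⟩
    omega
  · have c0 : 2 * (α + r) ≠ 0 := fun e4 => by
      have : (0 : ℚ) < P.l * b ^ 2 := by
        have := P.lp.pos
        have := hb.ne_zero
        positivity
      push_cast at e1
      rw [show α = -r by linarith] at e1
      linarith
    have c1 : 2 * ((α : Om) + r) ≠ 0 := by exact_mod_cast c0
    have e4 : x * (2 * (α + r)) = (x + r) ^ 2 := by
      push_cast at e3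
      linear_combination e3 - x * e' - x * e
    have e5 : x = ((2 * (α + r) : ℚ) : Om) * ((x + r) / (2 * (α + r))) ^ 2 := by
      push_cast
      rw [div_pow, ← e4]
      generalize 2 * ((α : Om) + r) = c at c1
      field_simp
    rw [e5] at h h' ⊢
    exact rat hA c0 ((hx.add (fix_rat r)).div ((fix_ofNat 2).mul ((fix_rat α).add (fix_rat r))))
      (div_ne_zero (fun e => by simp [e, x0, c1] at e4) c1) h h'
  exfalso
  have hp : ∀ p : ℕ, p.Prime → p ≠ 2 → (p : ℤ) ∣ b → p ^ 2 % 16 = 1 := fun p hp h2 e4 => by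
    by_cases hl : p = P.l
    · rw [hl, Nat.pow_mod, P.l16]
    obtain ⟨w, rfl⟩ := hA.pl.1 p hp
    have vb := v_sqf hb e4
    have vl : w.v P.l = 1 := by
      simpa using (Pl.v_int_eq_one (w := w) (n := P.l)).2 fun e =>
        hl ((Nat.prime_dvd_prime_iff_eq hp P.lp).1 (Int.natCast_dvd_natCast.1 e))
    have vs : w.v (b * P.sk) = w.v w.p := by
      rw [map_mul, vb, TSQ2.v_one (m := -P.l) (x := P.sk) (by simpa using vl) (by rw [P.hsk]; simp), mul_one]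
    rcases le_or_gt (w.v α) (w.v w.p) with h3 | h3
    · have h4 : w.v x < w.v w.p := lt_of_le_of_ne (e ▸ w.v.map_add_le h3 vs.le) (noev hA h h2 hl)
      have h5 : w.v (tau x) < w.v w.p :=
        lt_of_le_of_ne (e' ▸ w.v.map_sub_le h3 vs.le) (noev hA (h.conj tau) h2 hl)
      have h6 := w.v.map_sub_lt h4 h5
      rw [show x - tau x = 2 * (b * P.sk) by rw [e', e]; ring, map_mul, Pl.v_two h2, vs,
        one_mul] at h6
      exact absurd h6 (lt_irrefl _)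
    · have α0 : (α : Om) ≠ 0 := fun e => by simp [e] at h3
      obtain ⟨y, y1, y2, -⟩ := (hA.hens w w.D le_rfl).1 (2 * (r / α) ^ 2)
        ((fix_ofNat 2).mul (((fix_rat r).div (fix_rat α)).pow 2)) (by
          rw [show (2 : Om) * (r / α) ^ 2 - 1 = P.l * (b / α) ^ 2 by
              field_simp; push_cast at e2; linear_combination -e2,
            show (4 : Om) = 2 * 2 by norm_num, map_mul, map_mul, vl, Pl.v_two h2, one_mul, one_mul,
            map_pow, map_div₀, vb]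
          exact pow_lt_one₀ zero_le ((div_lt_one (zero_le.trans_lt h3)).2 h3) two_ne_zero)
      have h4 := ((hA.sq2 w).2.2.2.2.2 h2 2 fun e => h2
        ((Nat.prime_dvd_prime_iff_eq hp Nat.prime_two).1 (by exact_mod_cast e))).1.1
        (by simpa using sq_div ((fix_rat r).div (fix_rat α)) (div_ne_zero r0 α0) ⟨y, y1, y2⟩)
      rw [jacobiSym.at_two (hp.odd_of_ne_two h2), ZMod.χ₈_nat_eq_if_mod_eight] at h4
      have h5 : w.p % 16 = 1 ∨ w.p % 16 = 7 ∨ w.p % 16 = 9 ∨ w.p % 16 = 15 := by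
        split_ifs at h4 <;> omega
      rw [Nat.pow_mod]
      rcases h5 with h5 | h5 | h5 | h5 <;> rw [h5]
  obtain ⟨y, y1, y2⟩ := h'
  have y0 : y ≠ 0 := fun e => x0 (by simp [y2, e])
  have f2 : Fix P.w2.D 2 := fix_ofNat 2
  have n2 : Nm P.w2.D 2 2 := ⟨2, 1, f2, fix_one, by norm_num⟩
  have n3 : Nm P.w2.D 2 (b * P.sk) := nm_cancel f2 two_ne_zero n2
    ⟨y, r / y, y1, (fix_rat r).div y1, by
      rw [div_pow, ← y2]
      field_simp
      push_cast at e3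
      linear_combination -e3 - x * e + x * e'⟩
  obtain ⟨c, c1, c2, c3⟩ : ∃ c : ℤ, c ∣ b ∧ ¬ 2 ∣ c ∧ Nm P.w2.D 2 (c * P.sk) := by
    by_cases h2 : 2 ∣ b
    · obtain ⟨c, rfl⟩ := h2
      exact ⟨c, dvd_mul_left _ _, fun e => Int.prime_two.not_isUnit (hb _ (mul_dvd_mul_left _ e)),
        nm_cancel f2 two_ne_zero n2 (by rwa [show (c : Om) * P.sk * 2 = (2 * c : ℤ) * P.sk by
          push_cast; ring])⟩
    · exact ⟨b, dvd_rfl, h2, n3⟩
  have c4 := m16 c.natAbs (fun e => c2 (by rw [Int.natAbs_eq_zero.1 e]; simp)) fun p a1 a2 =>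
    hp p a1 (fun e => c2 (by simpa [e] using Int.natCast_dvd.2 a2)) ((Int.natCast_dvd.2 a2).trans c1)
  have c5 : c ^ 2 % 16 = 1 := by rw [← Int.natAbs_sq]; exact_mod_cast c4
  refine loc2 hA P.hw2 ((fix_int c).mul ((fsk P).mono hD)) (m := c ^ 2 * -P.l)
    (by rw [mul_pow, P.hsk]; simp) ?_ c3
  have := P.l16
  rw [Int.mul_emod, c5]
  omega

end TUPERP

open TUPERP in
theorem t_UPERP (hCA : CA) : UPERP := by
  intro w H n χ hH h1 h2
  have key : ∀ (j : ℕ) (χ : GQ → ZMod (2 ^ n)), Ku w H χ → (∀ g ∈ w.I ⊓ H, 2 ^ j • χ g = 0) →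
      ∀ g ∈ w.I ⊓ H, χ g = 0 := fun j => by
    induction j with
    | zero => exact fun χ _ h g hg => by simpa using h g hg
    | succ j ih =>
      exact fun χ h e g => core hCA hH h (ih (2 • χ) (h.smul hCA.cup 2) fun g hg => by
        rw [Pi.smul_apply, smul_smul, ← pow_succ, e g hg])
  exact key n χ ⟨h1, h2⟩ fun g _ => by rw [nsmul_eq_mul, ZMod.natCast_self, zero_mul]

open TUPERP in
theorem t_KARITH (hCA : CA) : KARITH := by
  intro P
  have h1 := tau_out hCA P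
  have hD := dle hCA P P.w2 (by rw [P.hw2]; exact ⟨15 * P.d, by push_cast; ring⟩)
  refine ⟨fun g h => h1 (by simpa [mul_assoc] using P.on.1.conj_mem' _ h g), h1,
    Subgroup.index_eq_two_iff_exists_notMem_and.2
      ⟨_, h1, fun b => or_iff_not_imp_right.2 fun e => P.mul_mem e h1⟩, dle hCA P, fun w hw => ?_,
    fun u hu e => h1 ?_, fun x hx x0 h h' => ?_⟩
  · obtain ⟨s, e⟩ := hCA.pl.2.1 w P.w2 (hw.trans P.hw2.symm)
    by_cases h : s ∈ P.GK
    · exact ⟨s, h, .inl e⟩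
    · exact ⟨_, P.mul_mem h1 h, .inr (by rw [mul_smul, e])⟩
  · exact (P.GK.mul_mem_cancel_left (P.GK.inv_mem hu)).1
      (hD (show (u⁻¹ * tau) • P.w2 = P.w2 by rw [mul_smul, ← e, inv_smul_smul]))
  have s0 := P.dl_ne.2.1
  have k : ∀ g : GQ, (g x = x ∧ g (tau x) = tau x ∧ g P.sk = P.sk) ∨
      (g x = tau x ∧ g (tau x) = x ∧ g P.sk = -P.sk) := fun g => by
    by_cases hg : g ∈ P.GK
    · refine .inl ⟨hx g hg, ?_, hg⟩
      have := congrArg tau (hx _ (P.on.1.conj_mem' g hg tau))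
      rwa [mul_assoc, AlgEquiv.mul_apply, BasicP.apply_inv] at this
    · refine .inr ⟨?_, hx _ (P.mul_mem hg h1), out P hg⟩
      have := congrArg tau (hx _ (P.mul_mem (mt P.GK.inv_mem_iff.1 h1) hg))
      rwa [AlgEquiv.mul_apply, BasicP.apply_inv] at this
  obtain ⟨α, ha⟩ := Fix.rat (x := (x + tau x) / 2) fun g _ => by
    rcases k g with ⟨a, b, -⟩ | ⟨a, b, -⟩ <;> rw [map_div₀, map_add, a, b, map_ofNat]
    rw [add_comm]
  obtain ⟨β, hb⟩ := Fix.rat (x := (x - tau x) / (2 * P.sk)) fun g _ => by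
    rcases k g with ⟨a, b, c⟩ | ⟨a, b, c⟩ <;> rw [map_div₀, map_sub, map_mul, a, b, c, map_ofNat]
    field_simp
    ring
  have e : x = α + β * P.sk := by rw [← ha, ← hb]; field_simp; ring
  by_cases b0 : β = 0
  · rw [show x = α * 1 ^ 2 by simp [e, b0]] at x0 h h' ⊢
    exact rat hCA (fun e => x0 (by simp [e])) fix_one one_ne_zero h h'
  obtain ⟨b, r, b1, hr, rfl⟩ := sqf b0
  have r0 : (r : Om) ≠ 0 := by simpa using hr
  rw [show x = ((α / r ^ 2 : ℚ) + b * P.sk) * r ^ 2 by rw [e]; push_cast; field_simp] at h h' ⊢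
  exact (core2 hCA b1 rfl (Eo.div (fix_rat r) r0 h) (sq_div (fix_rat r) r0 h')).mul
    ⟨r, fix_rat r, rfl⟩

end Pool.Agent.P.MP_8b7eba_nt.R2
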