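import Pool.Agent.P.MP_8b7eba_nt.R2.GrpA

/-! Proof of ZONE. -/

namespace Pool.Agent.P.MP_8b7eba_nt.R2

open scoped NNReal Matrix
open MP_9c97e9_nt (Pt pm Is ap Sha Split)
open Filter Topology Polynomial Module

namespace TZONE

variable {U : Subgroup GQ} {w : Pl} {β x : Om}

theorem I_eq (w : Pl) (U : Subgroup GQ) : w.I ⊓ (w.D ⊓ U) = w.I ⊓ U := by
  rw [← inf_assoc, inf_eq_left.2 w.I_le_D]

theorem ev_smul {u : GQ} (hu : u ∈ U) (hx : Fix U x) (h : w.Ev (w.D ⊓ U) x) :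
    (u • w).Ev ((u • w).D ⊓ U) x := by
  obtain ⟨y, hy, e⟩ := h
  refine ⟨u y, BasicP.fix hu hy, ?_⟩
  rw [Pl.smul_v_apply, ← e, ← w.smul_v_apply u x, hx u hu]

theorem fix_of_ev (hA : CA) (hU : IsOpen (U : Set GQ)) (h2 : w.p ≠ 2) (h0 : β ≠ 0)
    (hx : Fix U (β ^ 2)) (h : w.Ev (w.D ⊓ U) (β ^ 2)) : Fix (w.I ⊓ U) β := by
  obtain ⟨π, -, -, hπ, -⟩ := hA.unif w U hU
  obtain ⟨y, hy, e⟩ := h
  have hT := (hA.tame w (w.D ⊓ U) π h2 (w.loc_inf hU) (by rwa [I_eq])).2.1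
  have hv : w.v β = w.v y := by
    rw [map_pow] at e
    exact (pow_left_inj₀ zero_le zero_le two_ne_zero).1 e
  have hy0 : y ≠ 0 := by
    rintro rfl
    exact h0 (by simpa using hv)
  intro g hg
  have hgy : g y = y := hy g ⟨w.I_le_D hg.1, hg.2⟩
  have h1 := hT g hg.1 1 (β / y) (by rw [map_div₀, hv, div_self (by simpa using hy0)]) (by
    rw [pow_one, div_pow]
    refine Fix.mono ((hx.mono inf_le_right).div (hy.pow 2)) ?_
    exact (Subgroup.zpowers_le_of_mem ⟨w.I_le_D hg.1, hg.2⟩))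
  rw [map_div₀, hgy] at h1
  exact (div_left_inj' hy0).1 h1

theorem ev_of_fix (hA : CA) (hU : IsOpen (U : Set GQ)) (h0 : β ≠ 0) (h : Fix (w.I ⊓ U) β) :
    w.Ev (w.D ⊓ U) (β ^ 2) := by
  obtain ⟨π, -, h1, hπ, -⟩ := hA.unif w U hU
  obtain ⟨k, hk⟩ := hπ.2.2.2 β h h0
  exact ⟨π ^ k, h1.1.zpow k, by rw [map_pow, hk, map_zpow₀]⟩

theorem exists_t (hA : CA) (hU : IsOpen (U : Set GQ)) (h2 : w.p ≠ 2) :
    ∃ t ∈ w.I ⊓ U, ∀ β : Om, β ≠ 0 → Fix U (β ^ 2) → (t β = β ↔ w.Ev (w.D ⊓ U) (β ^ 2)) := by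
  obtain ⟨π, hf, h1, hπ, -⟩ := hA.unif w U hU
  obtain ⟨t, ht, hm⟩ := (hA.tame w (w.D ⊓ U) π h2 (w.loc_inf hU) (by rwa [I_eq])).1
  rw [I_eq] at ht
  refine ⟨t, ht, fun β h0 hx => ⟨fun e => ?_, fun h => fix_of_ev hA hU h2 h0 hx h t ht⟩⟩
  obtain ⟨k, hk⟩ := h1.2.2.2 (β ^ 2) (hx.mono inf_le_right) (pow_ne_zero 2 h0)
  have hp : w.v π ≠ 0 := by simpa using h1.2.1
  rcases Int.even_or_odd' k with ⟨j, rfl | rfl⟩
  · exact ⟨π ^ j, h1.1.zpow j, by rw [hk, map_zpow₀, ← zpow_natCast, ← zpow_mul, mul_comm]; rfl⟩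
  · obtain ⟨γ, hγ⟩ := exists_root π two_ne_zero
    have hγ0 : γ ≠ 0 := by
      rintro rfl
      exact h1.2.1 (by simpa using hγ.symm)
    have h3 := fix_of_ev hA hU h2 (mul_ne_zero h0 hγ0) (by rw [mul_pow, hγ]; exact hx.mul hf)
      ⟨π ^ (j + 1), h1.1.zpow _, by
        rw [mul_pow, hγ, map_mul, hk, map_zpow₀, ← zpow_add_one₀ hp, ← zpow_natCast, ← zpow_mul]
        congr 1
        push_cast
        ring⟩ t ht
    rw [map_mul, e, hm γ hγ, mul_right_inj' h0, neg_eq_iff_add_eq_zero, ← two_mul] at h3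
    exact absurd h3 (mul_ne_zero two_ne_zero hγ0)

theorem exists_qc (hA : CA) (hU : IsOpen (U : Set GQ)) {χ : GQ → ZMod 2} (h : IsCh U χ) :
    ∃ β : Om, β ≠ 0 ∧ Fix U (β ^ 2) ∧ ∀ g ∈ U, (g β = β ↔ χ g = 0) := by
  by_cases h0 : ∀ g ∈ U, χ g = 0
  · exact ⟨1, one_ne_zero, by simpa using fix_one, fun g hg => by simp [h0 g hg]⟩
  push Not at h0
  obtain ⟨g₀, hg₀, h1⟩ := h0
  obtain ⟨V, hV, hk⟩ := h.exists_ker
  have h2 : (U ⊓ V).relIndex U = 2 := by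
    rw [hk.relIndex h, Set.eq_univ_of_forall (s := χ '' U) fun a => ?_, Set.ncard_univ]
    · simp
    · have : ∀ a b : ZMod 2, b ≠ 0 → a = 0 ∨ a = b := by decide
      rcases this a _ h1 with rfl | rfl
      exacts [⟨1, U.one_mem, h.one⟩, ⟨g₀, hg₀, rfl⟩]
  obtain ⟨β, b0, bf, hb⟩ := (hA.gal U (closed_of_open hU)).2.2.2.1 (U ⊓ V) (hU.inter hV) h2
  refine ⟨β, b0, bf, fun g hg => ⟨fun e => ?_, fun e => (hb g hg).1 ((hk g).2 ⟨hg, e⟩)⟩⟩
  by_contra h3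
  have := (hb g hg).2 fun h4 => h3 ((hk g).1 h4).2
  rw [e, eq_neg_iff_add_eq_zero, ← two_mul] at this
  exact mul_ne_zero two_ne_zero b0 this

theorem orb_eq {w' : Pl} : MulAction.orbit U w = MulAction.orbit U w' ↔ ∃ u ∈ U, u • w' = w := by
  rw [MulAction.orbit_eq_iff, MulAction.mem_orbit_iff]
  exact ⟨fun ⟨u, h⟩ => ⟨u, u.2, h⟩, fun ⟨u, hu, h⟩ => ⟨⟨u, hu⟩, h⟩⟩

theorem nOrb_odd {m : ℤ} {a : ℕ} (h1 : nOrb U {w | (w.p : ℤ) ∣ 30 * m} = 6 + a)
    (h2 : nOrb U {w | w.p = 2} = 2) : nOrb U {w | w.p ≠ 2 ∧ (w.p : ℤ) ∣ 30 * m} = 4 + a ∧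
    ((fun w => MulAction.orbit U w) '' {w : Pl | w.p ≠ 2 ∧ (w.p : ℤ) ∣ 30 * m}).Finite := by
  have e : {w : Pl | (w.p : ℤ) ∣ 30 * m} =
      {w | w.p = 2} ∪ {w | w.p ≠ 2 ∧ (w.p : ℤ) ∣ 30 * m} := by
    ext w
    simp only [Set.mem_ofPred_eq, Set.mem_union]
    refine ⟨fun h => by tauto, fun h => h.elim (fun h => ?_) fun h => h.2⟩
    rw [h]
    exact Dvd.dvd.mul_right (by norm_num) _
  have hf := Set.finite_of_ncard_ne_zero (s := (fun w => MulAction.orbit U w) ''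
    {w : Pl | (w.p : ℤ) ∣ 30 * m}) (by rw [nOrb] at h1; omega)
  rw [nOrb, e, Set.image_union] at h1
  rw [e, Set.image_union, Set.finite_union] at hf
  rw [Set.ncard_union_eq ?_ hf.1 hf.2] at h1
  · rw [nOrb] at h2 ⊢
    exact ⟨by omega, hf.2⟩
  · rw [Set.disjoint_left]
    rintro _ ⟨w, hw, rfl⟩ ⟨w', hw', e⟩
    obtain ⟨u, -, rfl⟩ := orb_eq.1 e
    exact hw'.1 hw

end TZONE

open TZONE in
theorem t_ZONE (hCF : CF) (hLAY : LAY) (hVN : VN) : ZONE := by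
  classical
  intro D n hn
  have hA : CA := hCF.toCA
  obtain ⟨⟨-, hU⟩, -, -, -, -, -, o2, o30, -⟩ := hLAY D n
  obtain ⟨v1, v2, v3⟩ := hVN D n _ rfl
  obtain ⟨hc, hf⟩ := nOrb_odd (o30 hn).1 o2
  set U := D.Gd (2 ^ n) with hUe
  rw [nOrb] at hc
  set O := (fun w => MulAction.orbit U w) '' {w : Pl | w.p ≠ 2 ∧ (w.p : ℤ) ∣ 30 * D.d} with hO
  have := hf.fintype
  choose r hr hr' using fun o : O => o.2
  choose t ht ht' using fun o : O => exists_t hA hU (hr o).1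
  choose x hx hx0 hx1 hx2 using fun o : O => v3 (r o) (hr o).1
  have bij : Set.BijOn (fun (χ : GQ → ZMod 2) (o : O) => χ (t o)) {χ | D.Cq n χ} Set.univ := by
    refine ⟨fun _ _ => trivial, fun χ h χ' h' e => ?_, fun f _ => ?_⟩
    · obtain ⟨β, b0, bf, hb⟩ := exists_qc hA hU (χ := fun g => χ g - χ' g)
        ⟨h.ch.1.comp₂ h'.ch.1 fun a b => a - b, fun g hg k hk => by
          beta_reduce
          rw [h.ch.2 g hg k hk, h'.ch.2 g hg k hk]; ring⟩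
      have h1 := (sq_iff bf).1 (v1 _ bf (pow_ne_zero 2 b0) (fun w h2 => ?_)
        ((sq_iff (bf.mono inf_le_right)).2 fun g hg => (hb g hg.2).2
          (by rw [h.str g hg, h'.str g hg, sub_zero])))
      · funext g
        by_cases hg : g ∈ U
        · exact sub_eq_zero.1 ((hb g hg).1 (h1 g hg))
        · rw [h.off g hg, h'.off g hg]
      · by_cases h3 : (w.p : ℤ) ∣ 30 * D.d
        · let o : O := ⟨_, w, ⟨h2, h3⟩, rfl⟩
          obtain ⟨u, hu, e'⟩ := orb_eq.1 (hr' o).symm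
          rw [← e']
          exact ev_smul hu bf ((ht' o β b0 bf).1 ((hb _ (ht o).2).2 (sub_eq_zero.2 (congrFun e o))))
        · exact ev_of_fix hA hU b0 fun g hg => (hb g hg.2).2
            (by rw [h.unr w h3 g hg, h'.unr w h3 g hg, sub_zero])
    · set y := ∏ o ∈ Finset.univ.filter fun o => f o ≠ 0, x o with hy
      have yf : Fix U y := Fix.prod fun o _ => hx o
      have y0 : y ≠ 0 := Finset.prod_ne_zero_iff.2 fun o _ => hx0 o
      obtain ⟨z, zf, z0, z1, z2⟩ := v2 y (yf.mono inf_le_right) y0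
      obtain ⟨β, hβ⟩ := exists_root (z * y) two_ne_zero
      have b0 : β ≠ 0 := by
        rintro rfl
        exact mul_ne_zero z0 y0 (by simpa using hβ.symm)
      have bf : Fix U (β ^ 2) := hβ ▸ zf.mul yf
      have hv : ∀ w : Pl, w.p ≠ 2 → w.v (β ^ 2) =
          ∏ o ∈ Finset.univ.filter fun o => f o ≠ 0, w.v (x o) := fun w h => by
        rw [hβ, map_mul, z1 w h, one_mul, hy, map_prod]
      have out : ∀ o o' : O, o ≠ o' → (r o).v (x o') = 1 := fun o o' h =>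
        hx2 o' (r o) (hr o).1 fun u hu e => h (Subtype.ext (by
          rw [← hr' o, ← hr' o']
          exact (orb_eq.2 ⟨u, hu, e⟩).symm))
      refine ⟨fun g => if g ∈ U then qc β g else 0, ⟨?_, fun g hg => if_neg hg, fun g hg => ?_,
        fun w h g hg => ?_⟩, funext fun o => ?_⟩
      · have h1 := (hA.sym U _ β (closed_of_open hU) b0 bf (isKer_qc U β)).1
        refine ⟨h1.1.congr fun g hg => if_pos hg, fun g hg k hk => ?_⟩
        beta_reduce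
        rw [if_pos (show g ∈ U from hg), if_pos (show k ∈ U from hk), if_pos (U.mul_mem hg hk),
          h1.2 g hg k hk]
      · rw [if_pos (show g ∈ U from hg.2), qc, if_pos ((sq_iff (bf.mono inf_le_right)).1 (hβ ▸ z2) g hg)]
      · have h2 : w.p ≠ 2 := fun e => h (by rw [e]; exact Dvd.dvd.mul_right (by norm_num) _)
        rw [if_pos (show g ∈ U from hg.2), qc, if_pos (fix_of_ev hA hU h2 b0 bf ⟨1, fix_one, ?_⟩ g hg)]
        rw [hv w h2, map_one, one_pow]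
        refine Finset.prod_eq_one fun o _ => hx2 o w h2 fun u _ e => h ?_
        have := (hr o).2
        rw [← Set.mem_singleton_iff.1 e] at this
        exact this
      · beta_reduce
        rw [if_pos (show t o ∈ U from (ht o).2), qc]
        by_cases h : f o = 0
        · rw [h, if_pos ((ht' o β b0 bf).2 ⟨1, fix_one, ?_⟩)]
          rw [hv _ (hr o).1, map_one, one_pow]
          refine Finset.prod_eq_one fun o' ho' => out o o' ?_
          rintro rfl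
          exact (Finset.mem_filter.1 ho').2 h
        · have h1 : ∀ a : ZMod 2, a ≠ 0 → 1 = a := by decide
          rw [if_neg fun e => hx1 o ?_, h1 _ h]
          obtain ⟨c, hc, e'⟩ := (ht' o β b0 bf).1 e
          refine ⟨c, hc, ?_⟩
          rw [← e', hv _ (hr o).1, Finset.prod_eq_single o (fun o' _ h' => out o o' h'.symm)
            fun h' => absurd (Finset.mem_filter.2 ⟨Finset.mem_univ o, h⟩) h']
  rw [bij.ncard_eq, Set.ncard_univ, Nat.card_fun, Nat.card_zmod, ← hc, Nat.card_coe_set_eq]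

end Pool.Agent.P.MP_8b7eba_nt.R2
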