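import Pool.Agent.P.MP_8b7eba_nt.R2.AllA
import Pool.Agent.P.MP_8b7eba_nt.R2.TAFX
import Pool.Agent.P.MP_8b7eba_nt.R2.TAPB
import Pool.Agent.P.MP_8b7eba_nt.R2.TCH2
import Pool.Agent.P.MP_8b7eba_nt.R2.TDATX
import Pool.Agent.P.MP_8b7eba_nt.R2.TDLG
import Pool.Agent.P.MP_8b7eba_nt.R2.TDUAL
import Pool.Agent.P.MP_8b7eba_nt.R2.TE1G
import Pool.Agent.P.MP_8b7eba_nt.R2.TFR
import Pool.Agent.P.MP_8b7eba_nt.R2.TH1
import Pool.Agent.P.MP_8b7eba_nt.R2.THALF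
import Pool.Agent.P.MP_8b7eba_nt.R2.THB
import Pool.Agent.P.MP_8b7eba_nt.R2.TINJ
import Pool.Agent.P.MP_8b7eba_nt.R2.TINVP
import Pool.Agent.P.MP_8b7eba_nt.R2.TIW
import Pool.Agent.P.MP_8b7eba_nt.R2.TIW0
import Pool.Agent.P.MP_8b7eba_nt.R2.TKLD
import Pool.Agent.P.MP_8b7eba_nt.R2.TKLOC
import Pool.Agent.P.MP_8b7eba_nt.R2.TKPZ
import Pool.Agent.P.MP_8b7eba_nt.R2.TKREL
import Pool.Agent.P.MP_8b7eba_nt.R2.TKTRIV
import Pool.Agent.P.MP_8b7eba_nt.R2.TLAY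
import Pool.Agent.P.MP_8b7eba_nt.R2.TLB
import Pool.Agent.P.MP_8b7eba_nt.R2.TLOC2
import Pool.Agent.P.MP_8b7eba_nt.R2.TNV1
import Pool.Agent.P.MP_8b7eba_nt.R2.TNV2
import Pool.Agent.P.MP_8b7eba_nt.R2.TOBS
import Pool.Agent.P.MP_8b7eba_nt.R2.TPIX
import Pool.Agent.P.MP_8b7eba_nt.R2.TPKOL
import Pool.Agent.P.MP_8b7eba_nt.R2.TPTAME
import Pool.Agent.P.MP_8b7eba_nt.R2.TQB
import Pool.Agent.P.MP_8b7eba_nt.R2.TSB
import Pool.Agent.P.MP_8b7eba_nt.R2.TSHA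
import Pool.Agent.P.MP_8b7eba_nt.R2.TSPLIT
import Pool.Agent.P.MP_8b7eba_nt.R2.TTATE
import Pool.Agent.P.MP_8b7eba_nt.R2.TUPERP
import Pool.Agent.P.MP_8b7eba_nt.R2.TVN
import Pool.Agent.P.MP_8b7eba_nt.R2.TZONE

/-! The statements on Selmer groups and Kolyvagin systems hold. -/

namespace Pool.Agent.P.MP_8b7eba_nt.R2

theorem a_INJ : INJ := t_INJ a_CA

theorem a_LOCV : LOCV := t_LOCV a_CA

theorem a_UPERP : UPERP := t_UPERP a_CA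

theorem a_KARITH : KARITH := t_KARITH a_CA

theorem a_CB : CB :=
  ⟨a_CA, a_INJ, a_LOCV, a_UPERP, a_KARITH⟩

theorem a_E1G : E1G := t_E1G

theorem a_CONG : CONG := t_CONG a_E1G

theorem a_APB : APB := t_APB

theorem a_FR : FR := t_FR a_CA a_E1G a_CONG a_APB

theorem a_DET : DET := t_DET a_CA a_E1G a_CONG a_FR

theorem a_TR : TR := t_TR a_DET

theorem a_HALF : HALF := t_HALF a_CA

theorem a_UNIP : UNIP := t_UNIP a_CA a_HALF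

theorem a_CF : CF :=
  ⟨a_CB, a_E1G, a_CONG, a_FR, a_APB, a_TR, a_HALF, a_UNIP⟩

theorem a_PTAME : PTAME := t_PTAME a_CF

theorem a_PFROB : PFROB := t_PFROB a_CF

theorem a_SAH : SAH := t_SAH a_CF

theorem a_PIX : PIX := t_PIX a_CB

theorem a_PREC : PREC := t_PREC a_CB a_PIX

theorem a_PKOL : PKOL := t_PKOL a_CF a_PTAME a_PFROB a_PIX

theorem a_KLD : KLD := t_KLD a_CF a_PIX

theorem a_AFX : AFX := t_AFX

theorem a_CP : CP :=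
  ⟨a_CF, a_PTAME, a_PFROB, a_SAH, a_PIX, a_PREC, a_PKOL, a_KLD, a_AFX⟩

theorem a_TATE : TATE := t_TATE a_CA a_E1G a_CONG a_DET

theorem a_DATX : DATX := t_DATX a_CF

theorem a_KTRIV : KTRIV := t_KTRIV a_CP

theorem a_DLG : DLG := t_DLG a_CF

theorem a_INVP : INVP := t_INVP a_CF a_DLG

theorem a_KPZ : KPZ := t_KPZ a_CF a_INVP

theorem a_KLOC : KLOC := t_KLOC a_CF a_INVP a_KPZ

theorem a_KREL : KREL := t_KREL a_CF a_DLG a_INVP a_KPZ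

theorem a_KOLY : KOLY := t_KOLY a_CF a_KTRIV a_INVP a_KPZ a_KLOC a_KREL

theorem a_SHA : SHA := t_SHA a_CA

theorem a_LOC2 : LOC2 := t_LOC2 a_CP

theorem a_CLAS : CLAS := t_CLAS a_CP a_LOC2

theorem a_SPLIT : SPLIT := t_SPLIT a_CP

theorem a_RKT : RKT := t_RKT a_CP a_INVP a_SPLIT

theorem a_LAY : LAY := t_LAY a_CF

theorem a_VN : VN := t_VN a_CF a_LAY

theorem a_ZONE : ZONE := t_ZONE a_CF a_LAY a_VN

theorem a_OBS : OBS := t_OBS a_CF a_LAY a_VN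

theorem a_IW0 : IW0 := t_IW0 a_CF a_LAY a_ZONE a_OBS

theorem a_IW : IW := t_IW a_CP a_LAY a_IW0

theorem a_DESC : DESC := t_DESC a_CP a_LAY

theorem a_LB : LB := t_LB a_CP a_IW a_DESC

theorem a_NV1 : NV1 := t_NV1 a_CF a_INVP

theorem a_NV2 : NV2 := t_NV2 a_CP

theorem a_NV : NV := t_NV a_CF a_INVP a_KPZ a_NV1 a_NV2

theorem a_DUAL : DUAL := t_DUAL a_CP a_KTRIV

theorem a_CHEB0 : CHEB0 := t_CHEB0 a_CP

theorem a_CH2 : CH2 := t_CH2 a_CP a_CHEB0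

theorem a_H1 : H1 := t_H1

theorem a_H2 : H2 := t_H2

theorem a_HB : HB := t_HB a_CP a_KTRIV a_DUAL a_CH2 a_H1 a_H2

theorem a_HB0 : HB0 := t_HB0 a_CP

theorem a_SB : SB := t_SB a_CP a_DUAL

theorem a_QB : QB := t_QB a_CP a_HB a_HB0 a_SB

theorem a_TOP : TOP := t_TOP a_CP a_QB

end Pool.Agent.P.MP_8b7eba_nt.R2
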