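import Pool.Agent.P.MP_8b7eba_nt.R2.PWA
import Pool.Agent.P.MP_8b7eba_nt.R2.GrpA
import Pool.Agent.P.MP_8b7eba_nt.R2.Nrm

/-! Proof of ANT. -/

namespace Pool.Agent.P.MP_8b7eba_nt.R2

open scoped NNReal
open MP_9c97e9_nt (pm Is ap)
open BSD15 (OO Good nm cj)
open _root_.Pool.Agent.P.MP_8b7eba_nt.Mod (M2 G0 xx al)
open R1 (emb Dl psi Pz KF U8 IntPt y1)

namespace TANT

theorem zm {n : ℕ} {x : ℤ_[2]} : PadicInt.toZModPow n x = 0 ↔ 2 ^ n ∣ x := by
  rw [← RingHom.mem_ker, PadicInt.ker_toZModPow, Ideal.mem_span_singleton, Nat.cast_ofNat]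

theorem zm' {n : ℕ} {x y : ℤ_[2]} :
    PadicInt.toZModPow n x = PadicInt.toZModPow n y ↔ 2 ^ n ∣ x - y := by
  rw [← zm, map_sub, sub_eq_zero]

theorem eq_zero {x : ℤ_[2]} (h : ∀ n, 2 ^ n ∣ x) : x = 0 :=
  PadicInt.ext_of_toZModPow.1 fun n => by rw [zm.2 (h n), map_zero]

theorem lim (x : ℕ → ℤ_[2]) (h : ∀ m n, m ≤ n → 2 ^ m ∣ x m - x n) :
    ∃ y, ∀ n, 2 ^ n ∣ x n - y := by
  have e : ∀ (n : ℕ) (a b : ℤ_[2]), a ≡ b [SMOD (IsLocalRing.maximalIdeal ℤ_[2] ^ n • ⊤ :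
      Submodule ℤ_[2] ℤ_[2])] ↔ 2 ^ n ∣ a - b := fun n a b => by
    rw [SModEq.sub_mem, smul_eq_mul, Ideal.mul_top, PadicInt.maximalIdeal_eq_span_p,
      Ideal.span_singleton_pow, Ideal.mem_span_singleton, Nat.cast_ofNat]
  obtain ⟨y, hy⟩ := IsPrecomplete.prec
    (inferInstance : IsPrecomplete (IsLocalRing.maximalIdeal ℤ_[2]) ℤ_[2]) (f := x)
    fun {m n} hmn => (e m _ _).2 (h m n hmn)
  exact ⟨y, fun n => (e n _ _).1 (hy n)⟩

theorem int_dvd {n : ℕ} {a : ℤ} (h : (2 : ℤ_[2]) ^ n ∣ a) : (2 : ℤ) ^ n ∣ a := by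
  exact_mod_cast (PadicInt.pow_p_dvd_int_iff (p := 2) n a).1 (by exact_mod_cast h)

theorem unit_iff {x : ℤ_[2]} : IsUnit x ↔ ¬ 2 ∣ x := by
  have := PadicInt.norm_lt_one_iff_dvd (p := 2) x
  rw [Nat.cast_ofNat] at this
  rw [← this, PadicInt.isUnit_iff, not_lt]
  exact ⟨fun h => h.ge, fun h => le_antisymm x.norm_le_one h⟩

section

variable {L : ℤ_[2]ˣ → ℤ_[2]} (hL : IsLg L)
include hL

theorem lg_one : L 1 = 0 := by simpa using hL.mul 1 1

theorem lg_inv (u : ℤ_[2]ˣ) : L u⁻¹ = -L u := by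
  rw [eq_neg_iff_add_eq_zero, ← hL.mul, inv_mul_cancel, lg_one hL]

theorem lg_pow (u : ℤ_[2]ˣ) (k : ℕ) : L (u ^ k) = k * L u := by
  induction k with
  | zero => simp [lg_one hL]
  | succ k ih => rw [pow_succ, hL.mul, ih]; push_cast; ring

theorem lg_congr {n : ℕ} {u v : ℤ_[2]ˣ} (h : 2 ^ (n + 2) ∣ (u : ℤ_[2]) - v) :
    2 ^ n ∣ L u - L v := by
  rw [sub_eq_add_neg, ← lg_inv hL, ← hL.mul]
  refine (hL.dvd n _).2 (Or.inl ?_)
  rw [show ((u * v⁻¹ : ℤ_[2]ˣ) : ℤ_[2]) - 1 = (u - v) * (v⁻¹ : ℤ_[2]ˣ) by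
    rw [sub_mul, Units.mul_inv, Units.val_mul]]
  exact h.mul_right _

end

theorem ad2 {l : ℕ} [Hl l] {m : ℕ} {I : Ideal (OO l)} (h : Ad (2 ^ (m + 1)) I) : Ad 2 I :=
  h.mono (dvd_pow_self 2 m.succ_ne_zero)

/-- the limit character -/
theorem exists_k (hARX : ARX) (P : Pre) {κ : Ideal (OO P.l) → ℤ_[2]ˣ}
    (hc : ∀ m I J, Ad 2 I → Ad 2 J → cl (2 ^ m) I = cl (2 ^ m) J → 2 ^ m ∣ (κ I : ℤ_[2]) - κ J) :
    ∃ k : GQ → ℤ_[2]ˣ, ∀ g ∈ P.GK, ∀ m I, Ad 2 I → cl (2 ^ m) I = ar P.l (2 ^ m) g →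
      2 ^ m ∣ (k g : ℤ_[2]) - κ I := by
  have key : ∀ g ∈ P.GK, ∀ m n, m ≤ n → cl (2 ^ m) (rp (ar P.l (2 ^ (n + 1)) g)) =
      ar P.l (2 ^ m) g := fun g hg m n h => by
    have hd : 2 ^ m ∣ 2 ^ (n + 1) := pow_dvd_pow 2 (by omega)
    rw [← pr_cl hd (rp_spec _).1, (rp_spec _).2, (hARX P _ (cd_two_pow _)).pr _ hd g hg]
  have : ∀ g, ∃ k : ℤ_[2]ˣ, g ∈ P.GK → ∀ m I, Ad 2 I → cl (2 ^ m) I = ar P.l (2 ^ m) g →
      2 ^ m ∣ (k : ℤ_[2]) - κ I := fun g => by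
    by_cases hg : g ∈ P.GK
    swap
    · exact ⟨1, fun h => absurd h hg⟩
    obtain ⟨y, hy⟩ := lim (fun n => κ (rp (ar P.l (2 ^ (n + 1)) g))) fun m n h =>
      hc m _ _ (ad2 (rp_spec _).1) (ad2 (rp_spec _).1) (by rw [key g hg m m le_rfl, key g hg m n h])
    have hu : IsUnit y := unit_iff.2 fun h => by
      have := dvd_add (pow_one (2 : ℤ_[2]) ▸ hy 1) h
      rw [sub_add_cancel] at this
      exact unit_iff.1 (Units.isUnit _) this
    refine ⟨hu.unit, fun _ m I hI e => ?_⟩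
    have := dvd_sub (hc m _ _ (ad2 (rp_spec _).1) hI (by rw [key g hg m m le_rfl, e])) (hy m)
    simpa using this
  choose k hk using this
  exact ⟨k, hk⟩

end TANT

open TANT in
theorem t_ANT (hCB : CB) (hARX : ARX) (hLGC : LGC) (hKAP : KAP) : ANT := by
  classical
  intro P
  obtain ⟨κ, h, hh, k1, k2, k3, k4, k5⟩ := hKAP P
  have hA := hCB.toCA
  have hL := hCB.lg.1
  have hart := hCB.art.1 P.w2
  obtain ⟨-, htau, -, hD, hka5, hka6, -⟩ := hCB.karith P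
  have hAr := fun m => hARX P (2 ^ m) (cd_two_pow m)
  have a1 : art P.w2 1 = 1 := by simpa using hart.mul 1 1 fix_one fix_one one_ne_zero one_ne_zero
  have kc : ∀ I, Ad 2 I → κ (cj I) = (κ I)⁻¹ := fun I hI => by
    have h1 := hI.mul hI.cj
    rw [eq_inv_iff_mul_eq_one, mul_comm, ← k1 I _ hI hI.cj]
    rw [BSD15.mul_cj] at h1 ⊢
    rw [k2 _ h1, star_natCast, div_self ((map_ne_zero_iff _ eO_inj).2 (ad_span.1 h1).1), a1,
      one_pow]
  have hc : ∀ m I J, Ad 2 I → Ad 2 J → cl (2 ^ m) I = cl (2 ^ m) J →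
      2 ^ m ∣ (κ I : ℤ_[2]) - κ J := fun m I J hI hJ e => by
    have h1 := (k3 _ m (hI.mul hJ.cj)).1 (by
      rw [cl_mul (ad_two_pow hI) (ad_two_pow hJ.cj), cl_cj (ad_two_pow hJ), e, mul_inv_cancel]
      exact one_mem _)
    rw [k1 _ _ hI hJ.cj, kc J hJ] at h1
    simpa [sub_mul] using h1.mul_right (κ J : ℤ_[2])
  obtain ⟨k, hk⟩ := exists_k hARX P hc
  have hrep : ∀ m (x : RC P.l (2 ^ m)), ∃ I, Ad 2 I ∧ cl (2 ^ m) I = x := fun m x => by
    obtain ⟨I, h1, h2⟩ := exists_rep (by positivity) x two_ne_zero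
    exact ⟨I, h1.mono (dvd_mul_left _ _), h2⟩
  have kmul : ∀ g ∈ P.GK, ∀ g' ∈ P.GK, k (g * g') = k g * k g' := fun g hg g' hg' => by
    refine Units.ext (sub_eq_zero.1 (eq_zero fun m => ?_))
    obtain ⟨I, h1, h2⟩ := hrep m (ar P.l _ g)
    obtain ⟨J, h3, h4⟩ := hrep m (ar P.l _ g')
    have h5 := hk _ (mul_mem hg hg') m _ (h1.mul h3) (by
      rw [cl_mul (ad_two_pow h1) (ad_two_pow h3), h2, h4, (hAr m).mul g hg g' hg'])
    rw [k1 _ _ h1 h3] at h5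
    have := dvd_sub (dvd_sub h5 ((hk g hg m I h1 h2).mul_right (k g' : ℤ_[2])))
      ((hk g' hg' m J h3 h4).mul_left (κ I : ℤ_[2]))
    rwa [Units.val_mul, show ∀ a b c d e : ℤ_[2], a - d * e - (b - d) * c - d * (c - e) =
      a - b * c by intros; ring] at this
  have kod : ∀ g ∈ P.GK, ∀ m, ar P.l (2 ^ m) g ∈ Od P.l (2 ^ m) ↔ 2 ^ m ∣ (k g : ℤ_[2]) - 1 :=
    fun g hg m => by
      obtain ⟨I, h1, h2⟩ := hrep m (ar P.l _ g)
      rw [← h2, k3 I m h1, ← sub_add_sub_cancel (k g : ℤ_[2]) (κ I) 1,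
        dvd_add_right (hk g hg m I h1 h2)]
  have kar : ∀ g ∈ P.GK, ∀ g' ∈ P.GK, ∀ m, ar P.l (2 ^ m) g = ar P.l (2 ^ m) g' →
      2 ^ m ∣ (k g : ℤ_[2]) - k g' := fun g hg g' hg' m e => by
    obtain ⟨I, h1, h2⟩ := hrep m (ar P.l _ g)
    simpa using dvd_sub (hk g hg m I h1 h2) (hk g' hg' m I h1 (h2.trans e))
  have kfr : ∀ m, ∃ B : ℕ, ∀ (w : Pl) (φ : GQ), B < w.p → φ ∈ P.GK → w.IsFrob 1 φ →
      w.p ≠ 2 ∧ 2 ^ m ∣ (k φ : ℤ_[2]) - κ (pw P.l w) := fun m => by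
    obtain ⟨B, hB⟩ := (hAr m).fr
    refine ⟨B + 2, fun w φ h1 h2 h3 => ⟨by omega, hk φ h2 m _ (ad_pw.2 fun h4 => ?_)
      (hB w φ (by omega) h2 h3).symm⟩⟩
    have := Nat.le_of_dvd two_pos h4
    omega
  have hχ : ∀ n, IsCh P.GK fun g => PadicInt.toZModPow n (lg (k g)) := fun n => by
    obtain ⟨N, h1, h2⟩ := (hAr (n + 2)).sm
    exact ⟨⟨N, h1, fun g hg i hi hN => zm'.2 (lg_congr hL
      (kar _ (mul_mem hg hi) _ hg _ (h2 g hg i hi hN)))⟩,
      fun g hg g' hg' => by simp only [kmul g hg g' hg', hL.mul, map_add]⟩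
  have hlgc := fun n => hLGC P n (2 ^ (n + 2)) (fun g => PadicInt.toZModPow n (lg (k g)))
    (fun I => PadicInt.toZModPow n (lg (κ I))) (by positivity) (hχ n)
    (fun s hs => zm.2 ((hL.dvd n _).2 (Or.inl ((kod _ (P.mul_mem hs hs) _).1 (by
      rw [((hAr _).dih s hs).1]; exact one_mem _)))))
    (fun I J hI hJ => by rw [k1 I J (ad2 hI) (ad2 hJ), hL.mul, map_add])
    (fun β hβ => zm.2 ((hL.dvd n _).2 (Or.inl ((k3 _ _ (ad2 hβ.ad)).1 (by
      rw [cl_span hβ]; exact one_mem _)))))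
    ((kfr (n + 2)).imp fun B hB w φ h1 h2 h3 => zm'.2 (lg_congr hL (hB w φ h1 h2 h3).2))
  have hp2 : ∀ (w : Pl) (n : ℕ), w.p ∣ 2 ^ n → w.p = 2 := fun w n h1 =>
    (Nat.prime_dvd_prime_iff_eq w.prime Nat.prime_two).1 (w.prime.dvd_of_dvd_pow h1)
  have hfr : ∀ (w : Pl) (φ : GQ), w.p ≠ 2 → w.p ≠ P.l → φ ∈ P.GK → w.IsFrob 1 φ →
      lg (k φ) = lg (κ (pw P.l w)) := fun w φ h1 h2 h3 h4 =>
    PadicInt.ext_of_toZModPow.1 fun n => (hlgc n).2.2 w φ (fun h5 => by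
      rw [← pow_succ'] at h5
      rcases (Nat.Prime.dvd_mul w.prime).1 h5 with h6 | h6
      · exact h1 (hp2 w _ h6)
      · exact h2 ((Nat.prime_dvd_prime_iff_eq w.prime P.lp).1 h6)) h3 h4
  have had : ∀ w : Pl, w.p ≠ 2 → Ad 2 (pw P.l w) := fun w h1 => ad_pw.2 fun h2 =>
    h1 ((Nat.prime_dvd_prime_iff_eq w.prime Nat.prime_two).1 h2)
  have hD2 : P.w2.D ≤ P.GK := hD _ (by rw [P.hw2]; exact ⟨15 * P.d, by push_cast; ring⟩)
  refine ⟨fun g => lg (k g), ⟨fun g hg g' hg' => by rw [kmul g hg g' hg', hL.mul], fun n => ?_,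
    fun s hs g hg => ?_, fun w hw g hg => eq_zero fun n => zm.1 ((hlgc n).2.1 w
      (fun h1 => hw (hp2 w _ h1)) g hg), ?_, fun w φ h1 h2 h3 => ?_, fun w φ h1 h2 => ?_⟩,
    fun M g hg => ?_⟩
  · obtain ⟨N, h1, h2⟩ := (hχ n).1
    refine ⟨N, h1, fun g hg hN => zm.1 ?_⟩
    have := h2 1 (one_mem _) g hg hN
    rw [one_mul] at this
    exact this.trans (hχ n).one
  · rw [← lg_inv hL]
    congr 1
    refine Units.ext (sub_eq_zero.1 (eq_zero fun m => ?_))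
    obtain ⟨I, h1, h2⟩ := hrep m (ar P.l _ g)
    have h3 := hk _ (P.on.1.conj_mem g hg s) m _ h1.cj (by
      rw [cl_cj (ad_two_pow h1), h2, ((hAr m).dih s hs).2 g hg])
    rw [kc I h1] at h3
    have := dvd_add h3 ((hk g hg m I h1 h2).mul_right (((k g)⁻¹ : ℤ_[2]ˣ) * ((κ I)⁻¹ : ℤ_[2]ˣ)))
    rwa [sub_mul, ← mul_assoc, Units.mul_inv, mul_left_comm, Units.mul_inv, one_mul, mul_one,
      sub_add_sub_cancel] at this
  · have hu : IsUnit (-(h : ℤ_[2])) := (unit_iff.2 fun h1 => by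
      have := int_dvd (n := 1) (a := h) (by simpa using h1)
      obtain ⟨r, rfl⟩ := hh
      omega).neg
    refine ⟨hu.unit, fun g hg => ?_⟩
    rw [IsUnit.unit_spec, neg_mul, eq_neg_iff_add_eq_zero]
    refine eq_zero fun n => zm.1 ?_
    have hPs : IsCh P.w2.D (Ps n) := ((hCB.lg.2.2.2.1 n).1).mono le_top
    have hχ' := (hχ n).mono hD2
    have hhP : IsCh P.w2.D (h • Ps n) := ⟨hPs.1.comp (h • ·), fun a ha b hb => by
      simp only [Pi.smul_apply, hPs.2 a ha b hb, smul_add]⟩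
    have hψ : IsCh P.w2.D ((fun g => PadicInt.toZModPow n (lg (k g))) + h • Ps n) :=
      ⟨hχ'.1.comp₂ hhP.1 (· + ·), fun a ha b hb => by
        simp only [Pi.add_apply, hχ'.2 a ha b hb, hhP.2 a ha b hb]; ring⟩
    have := hCB.uperp P.w2 P.w2.D n _ P.w2.loc_D hψ (fun u hu hv => ?_) g ⟨hg, hg.1⟩
    · simpa [Ps] using this
    have hu0 : u ≠ 0 := by rintro rfl; simp at hv
    obtain ⟨ε, hε, hε'⟩ := hCB.art.2.2.1 P.w2 (n + 2)
    have hne : P.w2 ≠ tau • P.w2 := fun e => hka6 1 (one_mem _) (by rwa [one_smul])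
    have hvm : 0 < P.w2.v (2 ^ (n + 2) : ℕ) := P.w2.v.pos_iff.2 (Nat.cast_ne_zero.2 (by positivity))
    obtain ⟨β, hβ⟩ := exists_near hA {P.w2, tau • P.w2} (P := P) (fun w hw i hi hw' => by
        simp only [Finset.coe_insert, Finset.coe_singleton, Set.mem_insert_iff,
          Set.mem_singleton_iff] at hw hw'
        rcases hw with rfl | rfl <;> rcases hw' with e | e
        · exact e
        · exact absurd e (hka6 i hi)
        · exact absurd (inv_smul_eq_iff.2 e.symm) (hka6 _ (inv_mem hi))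
        · exact e)
      (fun w => if w = P.w2 then u else 1) (fun w _ => by
        split_ifs with e
        · exact ⟨e ▸ hu.mono inf_le_left, e ▸ hv.le⟩
        · exact ⟨fix_one, by simp⟩)
      (ε := min (min ε 1) (P.w2.v (2 ^ (n + 2) : ℕ))) (lt_min (lt_min hε one_pos) hvm)
    have b1 := hβ P.w2 (by simp)
    have b2 := hβ (tau • P.w2) (by simp)
    rw [if_pos rfl] at b1
    rw [if_neg hne.symm] at b2
    have b3 := b2
    rw [Pl.smul_v, map_sub, map_one, out_eO (mt inv_mem_iff.1 htau)] at b3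
    simp only [lt_min_iff] at b1 b2 b3
    have v1 : P.w2.v (eO P.l β) = 1 := by
      rw [← hv, ← sub_sub_cancel u (eO P.l β)]
      exact P.w2.v.map_sub_eq_of_lt_left (hv ▸ b1.1.2)
    have v2 : P.w2.v (eO P.l (star β)) = 1 := by
      rw [← sub_sub_cancel 1 (eO P.l (star β))]
      exact P.w2.v.map_one_sub_of_lt b3.1.2
    have n1 : eO P.l β ≠ 0 := fun e => by simp [e] at v1
    have n2 : eO P.l (star β) ≠ 0 := fun e => by simp [e] at v2
    have hA2 : Ad 2 (Ideal.span {β}) := ad_span.2 ⟨fun e => n1 (by rw [e, map_zero]), by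
      have h1 : P.w2.v (β.norm : ℤ) = 1 := by rw [← eO_mul_star, map_mul, v1, v2, one_mul]
      rw [Pl.v_int_eq_one, P.hw2] at h1
      exact (Int.prime_two.irreducible.coprime_iff_not_dvd.2 h1).symm⟩
    have hnv := (hlgc n).1 P.w2 β u (ad_two_pow hA2) (hu.mono inf_le_left) hv b1.2.le
      fun w' h1 h2 => by
        obtain ⟨i, hi, e | e⟩ := hka5 w' (hp2 w' _ h1)
        · exact absurd e (h2 i hi)
        · rw [← Pl.smul_v_apply i w', ← Pl.smul_v_apply i w' (2 ^ (n + 2) : ℕ), e,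
            ((fix_eO β).sub fix_one) i hi, map_natCast, Valuation.map_sub_swap,
            Pl.smul_v tau P.w2 (2 ^ (n + 2) : ℕ), map_natCast]
          exact b2.2.le
    rw [inf_of_le_left hD2] at hnv
    have hI := hCB.inv P.w2 _ P.w2.loc_D
    have hm : 2 ^ n ≠ 0 := by positivity
    have c1 := hCB.cup P.w2.D u hu hu0 _ _ hm hχ'
    have c2 := hCB.cup P.w2.D u hu hu0 _ _ hm hhP
    have c3 := hCB.cup P.w2.D u hu hu0 _ _ hm hψ
    have c4 := hCB.cup P.w2.D u hu hu0 _ _ hm hPs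
    have c5 := hCB.cup P.w2.D (u ^ h) (hu.pow h) (pow_ne_zero h hu0) _ _ hm hPs
    refine hI.inj rfl _ ⟨c3.1, n, c3.2.1⟩ ?_
    rw [hCB.inv2.1 _ _ _ _ P.w2.loc_D ⟨c3.1, n, c3.2.1⟩ (c1.1.mul c2.1) (c1.2.2.2.1 _ hhP),
      hI.mul _ _ ⟨c1.1, n, c1.2.1⟩ ⟨c2.1, n, c2.2.1⟩, hnv,
      hCB.inv2.1 _ _ _ _ P.w2.loc_D ⟨c2.1, n, c2.2.1⟩ c5.1 (c4.2.2.2.2.1 h),
      hI.cup n _ (hu.pow h) (pow_ne_zero h hu0), sv, nrm_self (hu.pow h), ← hCB.ec.1.add,
      hCB.ec.1.eq_one]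
    have f1 : Fix P.w2.D (eO P.l β / eO P.l (star β) / u) :=
      (((fix_eO β).div (fix_eO _)).mono hD2).div hu
    have e1 := hε' _ f1 (by
      rw [show eO P.l β / eO P.l (star β) / u - 1 = (u * (1 - eO P.l (star β)) - (u - eO P.l β)) /
        (eO P.l (star β) * u) by field_simp; ring, map_div₀, map_mul, v2, hv, mul_one, div_one]
      exact P.w2.v.map_sub_lt (by rw [map_mul, hv, one_mul]; exact b3.1.1) b1.1.1)
    have e2 := hart.mul _ _ f1 hu (div_ne_zero (div_ne_zero n1 n2) hu0) hu0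
    rw [div_mul_cancel₀ _ hu0] at e2
    have e3 : ∀ j : ℕ, art P.w2 (u ^ j) = art P.w2 u ^ j := fun j => by
      induction j with
      | zero => simpa using a1
      | succ j ih => rw [pow_succ, hart.mul _ _ (hu.pow j) hu (pow_ne_zero j hu0) hu0, ih, pow_succ]
    obtain ⟨y, hy⟩ : 2 ^ n ∣ lg (art P.w2 (u ^ h)) -
        ((PadicInt.toZModPow n (lg (κ (Ideal.span {β})))).val : ℤ_[2]) := by
      rw [← zm', map_natCast, ZMod.natCast_zmod_val, zm', k2 β hA2, e3, e2, mul_pow, hL.mul,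
        sub_add_cancel_right, dvd_neg, lg_pow hL]
      exact ((hL.dvd n _).2 (Or.inl e1)).mul_left _
    have hy' := congrArg (fun z : ℤ_[2] => (z : ℚ_[2])) hy
    push_cast at hy'
    rw [← add_div, neg_add_eq_sub, hy', show ((2 : ℤ_[2]) : ℚ_[2]) = 2 from rfl,
      mul_div_cancel_left₀ _ (pow_ne_zero n two_ne_zero)]
    exact y.norm_le_one
  · have h4 : w.D ≤ P.GK := hD w (h1.mul_left 30)
    have h5 : w.p ≠ 2 := fun e => by
      have := P.d8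
      rw [e] at h1
      omega
    have h6 : w.p ≠ P.l := fun e => by
      have := P.cop.isUnit_of_dvd' h1 (e ▸ dvd_mul_left _ _)
      rw [Int.isUnit_iff] at this
      have := w.prime.two_le
      omega
    have h7 := congrArg Ideal.radical (k5 _ (had w h5) (hfr w φ h5 h6 (h4 h2.1) h2 ▸ h3))
    rw [Ideal.radical_pow _ hh.pos.ne', Ideal.radical_pow _ hh.pos.ne', (pw_prime P w).1.radical,
      ← pw_smul_out htau, (pw_prime P _).1.radical, pw_smul_out htau] at h7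
    exact (pw_split hA h4).2.1 h7
  · have h3 : w.p = 3 ∨ w.p = 5 := by
      rcases (Nat.Prime.dvd_mul w.prime (m := 3) (n := 5)).1 h1 with e | e
      · exact Or.inl ((Nat.prime_dvd_prime_iff_eq w.prime Nat.prime_three).1 e)
      · exact Or.inr ((Nat.prime_dvd_prime_iff_eq w.prime Nat.prime_five).1 e)
    have h4 : w.D ≤ P.GK := hD w (by
      rcases h3 with e | e <;> rw [e]
      exacts [⟨10 * P.d, by push_cast; ring⟩, ⟨6 * P.d, by push_cast; ring⟩])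
    have h5 := P.l16
    have h6 := k4 _ (had w (by omega))
    rw [(pw_split hA h4).1, show (8 : ℤ_[2]) = 2 ^ 3 by norm_num] at h6
    change IsUnit (lg (k φ))
    rw [hfr w φ (by omega) (by omega) (h4 h2.1) h2, unit_iff, ← pow_one (2 : ℤ_[2]), hL.dvd]
    rintro (h7 | h7)
    · have := int_dvd (n := 3) (a := w.p - 1) (by simpa using dvd_sub h7 h6)
      omega
    · have := int_dvd (n := 3) (a := w.p + 1) ((dvd_sub h7 h6).trans (dvd_of_eq (by
        push_cast; ring)))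
      omega
  · have h4 : (2 : ℤ_[2]) ^ 2 ∣ (k g : ℤ_[2]) - cyc g := by
      obtain ⟨B, hB⟩ := kfr 2
      obtain ⟨N, h1, h2⟩ := (hAr 2).sm
      obtain ⟨N', h1', h2'⟩ := hCB.ec.2.2.2.2.1 2
      have := ext_frob hA (P := P)
        (f := fun g => Units.map (PadicInt.toZModPow (p := 2) 2).toMonoidHom (k g))
        (f' := fun g => Units.map (PadicInt.toZModPow (p := 2) 2).toMonoidHom (cyc g))
        ⟨N, h1, fun g hg i hi hN => Units.ext (zm'.2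
          (kar _ (mul_mem hg hi) _ hg _ (h2 g hg i hi hN)))⟩
        ⟨N', h1', fun g _ i _ hN => Units.ext (zm'.2 (by
          rw [hCB.ec.2.1, Units.val_mul, ← mul_sub_one]
          exact ((h2' i).1 hN).mul_left _))⟩
        (fun g hg g' hg' => ⟨by rw [kmul g hg g' hg', map_mul], by rw [hCB.ec.2.1, map_mul]⟩)
        (B + P.l) (fun w φ h3 h5 h6 => Units.ext (zm'.2 (by
          obtain ⟨h7, h8⟩ := hB w φ (by omega) h5 h6
          have h9 := k4 _ (had w h7)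
          rw [(pw_split hA ((D_le_GK hA (by omega) h6).2 h5)).1] at h9
          rw [hCB.ec.2.2.2.2.2.1 w 1 φ h7 h6, pow_one,
            ← sub_add_sub_cancel _ (κ (pw P.l w) : ℤ_[2])]
          exact dvd_add h8 (Dvd.dvd.trans ⟨2, by norm_num⟩ h9)))) g hg
      exact zm'.1 (congrArg Units.val this)
    rw [kod g hg, hL.dvd, show (4 : ℤ_[2]) = 2 ^ 2 by norm_num]
    have h5 : (2 : ℤ_[2]) ^ 2 ∣ 2 ^ (M + 2) := pow_dvd_pow 2 (by omega)
    refine ⟨fun h6 => ⟨Or.inl h6, by simpa using dvd_sub (h5.trans h6) h4⟩, ?_⟩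
    rintro ⟨h6 | h6, h7⟩
    · exact h6
    · have := int_dvd (n := 2) (a := 2) (by
        have := dvd_sub (dvd_sub (h5.trans h6) h4) h7
        rwa [show (k g : ℤ_[2]) + 1 - (k g - cyc g) - (cyc g - 1) = (2 : ℤ) by
          push_cast; ring] at this)
      omega

end Pool.Agent.P.MP_8b7eba_nt.R2
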