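import Pool.Agent.P.MP_8b7eba_nt.R2.RCA
import Pool.Agent.P.MP_8b7eba_nt.R2.LA
import Pool.Agent.P.MP_8b7eba_nt.R1.Basic

/-! Places of the imaginary quadratic field. -/

namespace Pool.Agent.P.MP_8b7eba_nt.R2

open scoped NNReal
open MP_9c97e9_nt (pm Is ap)
open BSD15 (OO Good nm cj)
open _root_.Pool.Agent.P.MP_8b7eba_nt.Mod (M2 G0 xx al)
open R1 (emb Dl psi Pz KF U8 IntPt y1)

variable {P : Pre} {w w' : Pl} {g s : GQ} {x : Om} {β : OO P.l}

theorem PWA.ev {l : ℕ} [Hl l] (β : OO l) : eO l β = β.re + β.im * ((1 + sO l) / 2) := rfl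

theorem PWA.io_s (l : ℕ) : io (sO l) = Complex.I * √l := by
  have h1 : io (sO l) ^ 2 = (Complex.I * √l) ^ 2 := by
    rw [← map_pow, sO_spec.1, R1.sqrt_neg_sq]
    simp
  have h2 := (sO_spec (l := l)).2
  refine (sq_eq_sq_iff_eq_or_eq_neg.1 h1).elim id fun e => ?_
  have h3 : √(l : ℝ) = 0 := by
    rw [e] at h2
    exact le_antisymm (by simpa using h2) (Real.sqrt_nonneg _)
  rw [e, h3]
  simp

theorem PWA.sq (l : ℕ) : sO l ^ 2 = ((-l : ℤ) : Om) := by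
  rw [sO_spec.1]
  simp

theorem io_eO {l : ℕ} [Hl l] (β : OO l) : io (eO l β) = emb l β := by
  rw [PWA.ev, emb, ← PWA.io_s]
  simp [map_ofNat]

theorem eO_inj {l : ℕ} [Hl l] : Function.Injective (eO l) := by
  exact fun a b h => R1.emb_injective l (by rw [← io_eO, ← io_eO, h])

theorem eO_int {l : ℕ} [Hl l] (β : OO l) : IsIntegral ℤ (eO l β) := by
  exact (Algebra.IsIntegral.isIntegral (R := ℤ) β).map (eO l).toIntAlgHom

theorem eO_sub_star {l : ℕ} [Hl l] (β : OO l) : eO l β - eO l (star β) = β.im * sO l := by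
  simp [PWA.ev]
  ring

theorem eO_mul_star {l : ℕ} [Hl l] (β : OO l) : eO l β * eO l (star β) = β.norm := by
  rw [← map_mul, BSD15.qbasic_mul_star, map_intCast]

theorem mem_GK : g ∈ P.GK ↔ g (sO P.l) = sO P.l := by
  rw [← qz_eq_zero (PWA.sq P.l), qz_eq_zero (δ := P.sk) (by rw [P.hsk]; simp)]
  rfl

theorem mem_GK' : g ∈ P.GK ↔ qz (-P.l) g = 0 := by
  rw [mem_GK, qz_eq_zero (PWA.sq P.l)]

theorem fix_eO (β : OO P.l) : Fix P.GK (eO P.l β) := by
  intro g hg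
  simp [PWA.ev, mem_GK.1 hg, map_ofNat]

theorem PWA.out (hs : s ∉ P.GK) : s (sO P.l) = -sO P.l :=
  (GrpA.pm (PWA.sq P.l) s).resolve_left fun e => hs (mem_GK.2 e)

theorem PWA.tau (hA : CA) (P : Pre) : tau ∉ P.GK := fun h => by
  have := P.lp.pos
  have := (qz_tau hA.tau (by omega)).1 (mem_GK'.1 h)
  omega

theorem out_eO (hs : s ∉ P.GK) (β : OO P.l) : s (eO P.l β) = eO P.l (star β) := by
  simp [PWA.ev, PWA.out hs, map_ofNat]
  ring

theorem exists_eO (hA : CA) (h : Fix P.GK x) :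
    (∃ (β : OO P.l) (n : ℕ), n ≠ 0 ∧ x * n = eO P.l β) ∧ (IsIntegral ℤ x → ∃ β, x = eO P.l β) := by
  have hs := PWA.tau hA P
  have hl : (P.l : Om) ≠ 0 := Nat.cast_ne_zero.2 P.lp.ne_zero
  have h0 := (sO_spec (l := P.l)).1
  have h1 : ∀ g, g ∉ P.GK → g x = tau x := fun g hg => by
    rw [← BasicP.apply_inv g (tau x)]
    exact congrArg g (h _ (P.mul_mem (mt inv_mem_iff.1 hg) hs)).symm
  have h2 : ∀ g, g ∉ P.GK → g (tau x) = x := fun g hg => h _ (P.mul_mem hg hs)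
  have h3 : ∀ g ∈ P.GK, g (tau x) = tau x := fun g hg =>
    h1 (g * tau) fun e => hs ((P.GK.mul_mem_cancel_left hg).1 e)
  obtain ⟨a, ha⟩ := Fix.rat (x := x + tau x) fun g _ => by
    by_cases hg : g ∈ P.GK
    · rw [map_add, h g hg, h3 g hg]
    · rw [map_add, h1 g hg, h2 g hg, add_comm]
  obtain ⟨b, hb⟩ := Fix.rat (x := (tau x - x) * sO P.l / P.l) fun g _ => by
    rw [map_div₀, map_mul, map_sub, map_natCast]
    by_cases hg : g ∈ P.GK
    · rw [h g hg, h3 g hg, mem_GK.1 hg]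
    · rw [h1 g hg, h2 g hg, PWA.out hg]
      ring
  obtain ⟨r, hr⟩ : ∃ r : ℚ, x = r + b * ((1 + sO P.l) / 2) := ⟨(a - b) / 2, by
    push_cast
    rw [← ha, ← hb]
    field_simp
    linear_combination (x - tau x) * h0⟩
  refine ⟨⟨⟨r.num * b.den, b.num * r.den⟩, r.den * b.den, mul_ne_zero r.den_nz b.den_nz, ?_⟩,
    fun hx => ?_⟩
  · rw [hr, PWA.ev]
    push_cast
    rw [← Rat.cast_intCast r.num, ← Rat.cast_intCast b.num, ← Rat.mul_den_eq_num,
      ← Rat.mul_den_eq_num]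
    push_cast
    ring
  · have h4 : 4 * (((P.l + 1) / 4 : ℕ) : Om) = P.l + 1 := by
      exact_mod_cast BSD15.qring_four (n := P.l)
    have hu : (1 + sO P.l) / 2 * ((1 + sO P.l) / 2) =
        (-(((P.l + 1) / 4 : ℕ) : ℚ)) • (1 : Om) + (1 : ℚ) • ((1 + sO P.l) / 2) := by
      rw [one_smul, neg_smul, Nat.cast_smul_eq_nsmul, nsmul_eq_mul, mul_one]
      linear_combination (1 / 4 : Om) * h0 + (1 / 4 : Om) * h4
    let f : BSD15.qringK P.l →ₐ[ℚ] Om := QuadraticAlgebra.lift ⟨_, hu⟩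
    have hf : ∀ z, f z = z.re + z.im * ((1 + sO P.l) / 2) := fun z => by
      rw [← Rat.smul_def, ← Rat.smul_one_eq_cast]
      rfl
    obtain ⟨β, hβ⟩ := BSD15.qring_integral (z := ⟨r, b⟩) ((isIntegral_algHom_iff
      f.toRingHom.toIntAlgHom f.toRingHom.injective).1 (by rw [hr] at hx; exact hf _ ▸ hx))
    refine ⟨β, ?_⟩
    rw [hr, ← hf ⟨r, b⟩, ← hβ, hf, PWA.ev]
    simp [BSD15.qringHom]

theorem v_eO_le (β : OO P.l) : w.v (eO P.l β) ≤ 1 := by
  exact (Valuation.integer.integers w.v).mem_of_integral (eO_int β).tower_top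

theorem mem_pw : β ∈ pw P.l w ↔ w.v (eO P.l β) < 1 := by
  refine ⟨fun h => ?_, fun h => Ideal.subset_span h⟩
  induction h using Submodule.span_induction with
  | mem x hx => exact hx
  | zero => simp
  | add x y _ _ hx hy => rw [map_add]; exact w.v.map_add_lt hx hy
  | smul a x _ hx =>
    rw [smul_eq_mul, map_mul, map_mul]
    exact mul_lt_one_of_nonneg_of_lt_one_right (v_eO_le a) zero_le hx

theorem PWA.prime : (pw P.l w).IsPrime := by
  refine ⟨fun h => ?_, fun {a b} h => ?_⟩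
  · simpa using mem_pw.1 ((Ideal.eq_top_iff_one _).1 h)
  · rw [mem_pw, map_mul, map_mul] at h
    rw [mem_pw, mem_pw]
    by_contra e
    rw [not_or, not_lt, not_lt] at e
    exact (one_le_mul e.1 e.2).not_gt h

theorem PWA.mem : (w.p : OO P.l) ∈ pw P.l w := by
  rw [mem_pw, map_natCast]
  exact w.v_p_lt

theorem PWA.ne : pw P.l w ≠ ⊥ := fun h =>
  Nat.cast_ne_zero.2 w.prime.ne_zero (Ideal.mem_bot.1 (h ▸ PWA.mem))

theorem PWA.max : (pw P.l w).IsMaximal := PWA.prime.isMaximal PWA.ne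

theorem PWA.nm_or : nm (pw P.l w) = w.p ∨ pw P.l w = Ideal.span {(w.p : OO P.l)} := by
  obtain ⟨J, hJ⟩ := Ideal.dvd_span_singleton.2 (PWA.mem (P := P) (w := w))
  have h1 := BSD15.qcount_nm_nat (n := P.l) w.p
  rw [hJ, BSD15.nm_mul] at h1
  obtain ⟨k, hk, e⟩ := (Nat.dvd_prime_pow w.prime).1 ⟨_, h1.symm⟩
  interval_cases k
  · exact (PWA.prime.ne_top (BSD15.genus_nm_eq_one e)).elim
  · exact Or.inl (by rw [e, pow_one])
  · rw [e] at h1
    rw [hJ, BSD15.genus_nm_eq_one (Nat.eq_of_mul_eq_mul_left (pow_pos w.prime.pos 2)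
      (h1.trans (mul_one _).symm)), Ideal.mul_top]
    exact Or.inr rfl

theorem pw_prime (P : Pre) (w : Pl) :
    (pw P.l w).IsPrime ∧ pw P.l w ≠ ⊥ ∧ (w.p : OO P.l) ∈ pw P.l w ∧ ∃ k, nm (pw P.l w) = w.p ^ k := by
  refine ⟨PWA.prime, PWA.ne, PWA.mem, ?_⟩
  rcases PWA.nm_or (P := P) (w := w) with h | h
  · exact ⟨1, by rw [h, pow_one]⟩
  · exact ⟨2, by rw [h, BSD15.qcount_nm_nat]⟩

theorem ad_pw {c : ℕ} : Ad c (pw P.l w) ↔ ¬ w.p ∣ c := by
  rw [Ad, and_iff_right PWA.ne, ← w.prime.coprime_iff_not_dvd]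
  rcases PWA.nm_or (P := P) (w := w) with h | h
  · rw [h]
  · rw [h, BSD15.qcount_nm_nat, Nat.coprime_pow_left_iff two_pos]

theorem pw_smul (hg : g ∈ P.GK) : pw P.l (g • w) = pw P.l w := by
  ext β
  rw [mem_pw, mem_pw, Pl.smul_v, fix_eO β _ (inv_mem hg)]

theorem pw_smul_out (hs : s ∉ P.GK) : pw P.l (s • w) = cj (pw P.l w) := by
  ext β
  rw [BSD15.mem_cj, mem_pw, mem_pw, Pl.smul_v, out_eO (mt inv_mem_iff.1 hs)]

theorem pw_inj (hA : CA) (h : pw P.l w = pw P.l w') : ∃ u ∈ P.GK, u • w = w' := by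
  refine hA.pl.2.2.1 _ w w' P.on.2 fun x hx hi hv => ?_
  obtain ⟨β, rfl⟩ := (exists_eO hA hx).2 hi
  exact mem_pw.1 (h ▸ mem_pw.2 hv)

theorem exists_pw (hA : CA) {Q : Ideal (OO P.l)} (h : Q.IsPrime) (h0 : Q ≠ ⊥) : ∃ w, pw P.l w = Q := by
  have key : ∀ n : ℕ, n ≠ 0 → (n : OO P.l) ∈ Q → ∃ p : ℕ, p.Prime ∧ (p : OO P.l) ∈ Q := by
    intro n
    induction n using induction_on_primes with
    | zero => exact fun e => (e rfl).elim
    | one => exact fun _ e => (h.ne_top ((Ideal.eq_top_iff_one _).2 (by simpa using e))).elim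
    | prime_mul p a hp ih =>
      intro e1 e2
      rw [Nat.cast_mul] at e2
      exact (h.mem_or_mem e2).elim (fun e => ⟨p, hp, e⟩) (ih (right_ne_zero_of_mul e1))
  obtain ⟨p, hp, hQ⟩ := key _ (BSD15.genus_nm_ne h0) (Ideal.absNorm_mem Q)
  obtain ⟨w, rfl⟩ := hA.pl.1 p hp
  have h1 := (Ideal.span_singleton_le_iff_mem _).2 hQ
  rcases PWA.nm_or (P := P) (w := w) with e | e
  · rw [← e, ← BSD15.mul_cj, ← pw_smul_out (PWA.tau hA P), h.mul_le] at h1
    exact h1.elim (fun e => ⟨_, PWA.max.eq_of_le h.ne_top e⟩)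
      fun e => ⟨_, PWA.max.eq_of_le h.ne_top e⟩
  · exact ⟨w, PWA.max.eq_of_le h.ne_top (e ▸ h1)⟩

theorem PWA.nd (h : w.p ≠ P.l) : ¬ (w.p : ℤ) ∣ -P.l := fun e =>
  h ((Nat.prime_dvd_prime_iff_eq w.prime P.lp).1 (by exact_mod_cast dvd_neg.1 e))

theorem I_le_GK (hA : CA) (h : w.p ≠ P.l) : w.I ≤ P.GK := by
  intro g hg
  rw [mem_GK']
  by_cases h2 : w.p = 2
  · exact qz_I_two h2 (by have := P.l16; omega) hg
  · refine qz_I hA (fun e => ?_) hg
    rcases (Nat.prime_iff_prime_int.1 w.prime).dvd_or_dvd e with e | e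
    · exact h2 ((Nat.prime_dvd_prime_iff_eq w.prime Nat.prime_two).1 (by exact_mod_cast e))
    · exact PWA.nd h e

theorem D_le_GK (hA : CA) {φ : GQ} (h : w.p ≠ P.l) (hφ : w.IsFrob 1 φ) : w.D ≤ P.GK ↔ φ ∈ P.GK := by
  exact ⟨fun e => e hφ.1, fun e g hg => mem_GK'.2 (ch_unr hA.frob (isCh_qz _)
    (fun i hi => mem_GK'.1 (I_le_GK hA h hi)) hφ (mem_GK'.1 e) g hg)⟩

theorem D_le_iff (hA : CA) (h : ¬ w.p ∣ 2 * P.l) :
    (w.D ≤ P.GK ↔ jacobiSym (-P.l) w.p = 1) ∧ (¬ w.D ≤ P.GK ↔ jacobiSym (-P.l) w.p = -1) := by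
  obtain ⟨φ, hφ⟩ := Pl.exists_frob hA.frob w
  have h1 : ¬ (w.p : ℤ) ∣ 2 * -P.l := fun e => h (by
    rw [mul_neg, dvd_neg] at e
    exact_mod_cast e)
  have h2 := qz_frob hA h1 hφ
  have h3 : w.D ≤ P.GK ↔ jacobiSym (-P.l) w.p = 1 :=
    (forall₂_congr fun g _ => mem_GK').trans (h2.2.symm.trans h2.1)
  refine ⟨h3, h3.not.trans ?_⟩
  rcases jacobiSym.eq_one_or_neg_one (BSD15.genus_gcd_one w.prime (LA.two h1).2) with e | e <;>
    simp [e]

theorem pw_split (hA : CA) (h : w.D ≤ P.GK) : nm (pw P.l w) = w.p ∧ pw P.l w ≠ cj (pw P.l w) ∧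
    pw P.l w * cj (pw P.l w) = Ideal.span {(w.p : OO P.l)} := by
  have hs := PWA.tau hA P
  have h1 : pw P.l w ≠ cj (pw P.l w) := fun e => by
    obtain ⟨u, hu, e⟩ := pw_inj hA (e.trans (pw_smul_out hs).symm)
    have : tau⁻¹ * u ∈ w.D := by
      rw [Pl.D, MulAction.mem_stabilizer_iff, mul_smul, e, inv_smul_smul]
    exact hs (inv_mem_iff.1 ((P.GK.mul_mem_cancel_right hu).1 (h this)))
  have h2 := (PWA.nm_or (P := P) (w := w)).resolve_right fun e =>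
    h1 (by rw [e, BSD15.qcount_cj_nat])
  exact ⟨h2, h1, by rw [BSD15.mul_cj, h2]⟩

theorem pw_inert (hA : CA) (h : w.p ≠ P.l) (h' : ¬ w.D ≤ P.GK) :
    pw P.l w = Ideal.span {(w.p : OO P.l)} ∧ ∀ w' : Pl, w'.p = w.p → ∃ u ∈ P.GK, u • w = w' := by
  obtain ⟨s, h1, h2⟩ := SetLike.not_le_iff_exists.1 h'
  refine ⟨le_antisymm (fun β hβ => ?_) ((Ideal.span_singleton_le_iff_mem _).2 PWA.mem),
    fun w' e => ?_⟩
  · have key : ∀ n : ℤ, w.v n < 1 → (w.p : ℤ) ∣ n := fun n e =>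
      not_not.1 fun e' => e.ne (Pl.v_int_eq_one.2 e')
    have h3 := mem_pw.1 hβ
    have h4 := w.v.map_sub_lt h3 (out_eO h2 β ▸ (Pl.mem_D.1 h1 _).trans_lt h3)
    rw [eO_sub_star, map_mul, GrpA.v_eq (PWA.sq P.l) (PWA.nd h), mul_one] at h4
    obtain ⟨b, hb⟩ := key _ h4
    have h5 := (pw P.l w).sub_mem hβ ((pw P.l w).mul_mem_right ⟨0, b⟩ PWA.mem)
    rw [show β - w.p * ⟨0, b⟩ = (β.re : OO P.l) by ext <;> simp [hb], mem_pw, map_intCast] at h5
    obtain ⟨a, ha⟩ := key _ h5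
    exact Ideal.mem_span_singleton.2 ⟨⟨a, b⟩, by ext <;> simp [ha, hb]⟩
  · obtain ⟨σ, rfl⟩ := hA.pl.2.1 w w' e.symm
    by_cases hσ : σ ∈ P.GK
    · exact ⟨σ, hσ, rfl⟩
    · exact ⟨σ * s, P.mul_mem hσ h2, by rw [mul_smul, show s • w = w from h1]⟩

theorem v_eq_one {I : Ideal (OO P.l)} (h : Ideal.span {β} = I) : w.v (eO P.l β) = 1 ↔ ¬ pw P.l w ∣ I := by
  rw [← h, Ideal.dvd_span_singleton, mem_pw, not_lt]
  exact ⟨fun e => e.ge, le_antisymm (v_eO_le β)⟩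

theorem PWA.v_nat {m : ℕ} (h : ¬ w.p ∣ m) : w.v m = 1 := by
  simpa using Pl.v_int_eq_one.2 (mt Int.natCast_dvd_natCast.1 h)

theorem dvd_of_v (hA : CA) {m : ℕ} (hm : m ≠ 0)
    (h : ∀ w : Pl, w.p ∣ m → w.v (eO P.l β) ≤ w.v m) : (m : OO P.l) ∣ β := by
  have h0 : (m : Om) ≠ 0 := Nat.cast_ne_zero.2 hm
  obtain ⟨γ, e⟩ := (exists_eO hA ((fix_eO β).div (fix_nat m))).2 (hA.pl.2.2.2.2.1 _ fun w => by
    rw [map_div₀, div_le_one₀ (w.v.pos_iff.2 h0)]
    by_cases e : w.p ∣ m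
    · exact h w e
    · exact (v_eO_le β).trans (PWA.v_nat e).ge)
  exact ⟨γ, eO_inj (by rw [map_mul, ← e, map_natCast, mul_div_cancel₀ _ h0])⟩

theorem PWA.split (M n : ℕ) : n ≠ 0 →
    ∃ a b : ℕ, n = a * b ∧ (∀ p : ℕ, p.Prime → p ∣ a → p ∣ M) ∧ b.Coprime M := by
  induction n using induction_on_primes with
  | zero => exact fun e => (e rfl).elim
  | one => exact fun _ => ⟨1, 1, rfl, fun p hp e => (hp.not_dvd_one e).elim, by simp⟩
  | prime_mul p n hp ih =>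
    intro e
    obtain ⟨a, b, rfl, ha, hb⟩ := ih (right_ne_zero_of_mul e)
    by_cases h : p ∣ M
    · exact ⟨p * a, b, by ring, fun q hq e => ((Nat.Prime.dvd_mul hq).1 e).elim
        (fun e => e.trans h) (ha q hq), hb⟩
    · exact ⟨a, p * b, by ring, ha, (hp.coprime_iff_not_dvd.2 h).mul_left hb⟩

/-- strong approximation at finitely many places -/
theorem exists_near (hA : CA) (R : Finset Pl) (hR : Sep P.GK R) (y : Pl → Om)
    (hy : ∀ w ∈ R, Fix (w.D ⊓ P.GK) (y w) ∧ w.v (y w) ≤ 1) {ε : ℝ≥0} (hε : 0 < ε) :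
    ∃ β : OO P.l, ∀ w ∈ R, w.v (y w - eO P.l β) < ε := by
  classical
  have hs := PWA.tau hA P
  obtain ⟨z, hz, h1⟩ := hA.wa _ P.on.2 (R ∪ (R.image (tau • ·)).filter (Out P.GK R)) (by
      intro w hw u hu h
      simp only [Finset.coe_union, Set.mem_union, Finset.mem_coe, Finset.mem_filter,
        Finset.mem_image] at hw h
      rcases hw with hw | ⟨⟨a, ha, rfl⟩, hw⟩
      · rcases h with h | ⟨-, h⟩
        · exact hR w hw u hu h
        · exact (h _ (inv_mem hu) (by rwa [inv_smul_smul])).elim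
      · rcases h with h | ⟨⟨b, hb, e⟩, -⟩
        · exact (hw u hu h).elim
        · have e' : (tau⁻¹ * u * tau) • a = b := by
            rw [mul_smul, mul_smul, ← e, inv_smul_smul]
          rw [← e, ← e', hR a ha _ (P.on.1.conj_mem' u hu _) (e' ▸ hb)])
    (fun w => if w ∈ R then y w else 0) (fun w _ => by
      split_ifs with h
      exacts [(hy w h).1, fix_zero]) (min ε 1) (lt_min hε one_pos)
  have h2 : ∀ w ∈ R, w.v (y w - z) < min ε 1 := fun w hw => by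
    simpa only [if_pos hw] using h1 w (Finset.mem_union_left _ hw)
  have h3 : ∀ w ∈ R, w.v z ≤ 1 := fun w hw => by
    rw [← sub_sub_cancel (y w) z]
    exact w.v.map_sub_le (hy w hw).2 ((h2 w hw).le.trans (min_le_right _ _))
  have h4 : ∀ u ∈ P.GK, ∀ w : Pl, (u • w).v z = w.v z := fun u hu w => by
    rw [Pl.smul_v, hz _ (inv_mem hu)]
  have h5 : ∀ w ∈ R, ∀ w' : Pl, w.p = w'.p → w'.v z ≤ 1 := fun w hw w' e => by
    obtain ⟨σ, rfl⟩ := hA.pl.2.1 w w' e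
    by_cases hσ : σ ∈ P.GK
    · exact (h4 σ hσ w).trans_le (h3 w hw)
    rw [← inv_smul_smul tau w, ← mul_smul, h4 _ (P.mul_mem hσ (mt inv_mem_iff.1 hs))]
    by_cases ho : Out P.GK R (tau • w)
    · have := h1 _ (Finset.mem_union_right _ (Finset.mem_filter.2
        ⟨Finset.mem_image_of_mem _ hw, ho⟩))
      rw [if_neg (by simpa using ho 1 (one_mem _)), zero_sub, Valuation.map_neg] at this
      exact this.le.trans (min_le_right _ _)
    · obtain ⟨u, hu, e⟩ : ∃ u ∈ P.GK, u • tau • w ∈ R := by simpa [Out] using ho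
      exact (h4 u hu _).symm.trans_le (h3 _ e)
  obtain ⟨α, n, hn, e⟩ := (exists_eO hA hz).1
  obtain ⟨N, hN⟩ := exists_pow_lt_of_lt_one hε (show (2 : ℝ≥0)⁻¹ < 1 by norm_num)
  obtain ⟨a, b, rfl, ha, hb⟩ := PWA.split (∏ w ∈ R, w.p) n hn
  have h6 := Nat.ModEq.pow_totient (hb.pow_right N)
  obtain ⟨k, hk⟩ := Nat.exists_eq_succ_of_ne_zero (Nat.totient_pos.2 (pow_pos
    (Finset.prod_pos fun (w : Pl) (_ : w ∈ R) => w.prime.pos) N)).ne'
  rw [hk] at h6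
  obtain ⟨β, hβ⟩ := (exists_eO hA (hz.mul (fix_nat b))).2 (hA.pl.2.2.2.2.1 _ fun w => by
    by_cases h : w.p ∣ ∏ w ∈ R, w.p
    · obtain ⟨w', hw, h⟩ := (w.prime.prime.dvd_finsetProd_iff _).1 h
      rw [map_mul]
      exact mul_le_one' (h5 w' hw w ((Nat.prime_dvd_prime_iff_eq w.prime w'.prime).1 h).symm)
        (w.v_nat_le b)
    · have := v_eO_le (w := w) α
      rwa [← e, Nat.cast_mul, mul_left_comm, map_mul,
        PWA.v_nat fun d => h (ha _ w.prime d), one_mul] at this)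
  refine ⟨β * b ^ k, fun w hw => ?_⟩
  rw [map_mul, ← hβ, map_pow, map_natCast, show y w - z * b * b ^ k =
    y w - z + z * ((1 : ℕ) - (b ^ (k + 1) : ℕ) : ℤ) by push_cast; ring]
  refine w.v.map_add_lt ((h2 w hw).trans_le (min_le_left _ _)) (lt_of_le_of_lt ?_ hN)
  rw [map_mul]
  refine (mul_le_of_le_one_left' (h3 w hw)).trans ((Pl.v_int_le_iff (k := N)).2
    (dvd_trans ?_ h6.dvd) |>.trans ?_)
  · exact_mod_cast pow_dvd_pow_of_dvd (Finset.dvd_prod_of_mem _ hw) N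
  · rw [inv_pow]
    have : (2 : ℝ≥0) ≤ w.p := by exact_mod_cast w.prime.two_le
    gcongr

theorem PWA.pow {π : Om} (h : w.Unif (w.D ⊓ P.GK) π) (k : ℕ) :
    ∀ β ∈ pw P.l w ^ k, w.v (eO P.l β) ≤ w.v π ^ k := by
  induction k with
  | zero => exact fun β _ => (v_eO_le β).trans (pow_zero _).ge
  | succ k ih =>
    intro β hβ
    rw [pow_succ] at hβ ⊢
    refine Submodule.mul_induction_on hβ (fun a ha b hb => ?_) fun a b ha hb => ?_
    · rw [map_mul, map_mul]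
      exact mul_le_mul' (ih a ha) (h.le ((fix_eO b).mono inf_le_right) (mem_pw.1 hb))
    · rw [map_add]
      exact w.v.map_add_le ha hb

/-- the prime factorisation of a principal ideal -/
theorem pw_fac (hA : CA) (h0 : β ≠ 0) (R : Finset Pl) (hR : Sep P.GK R)
    (h : ∀ w, Out P.GK R w → w.v (eO P.l β) = 1) : ∃ k : Pl → ℕ,
      Ideal.span {β} = ∏ w ∈ R, pw P.l w ^ k w ∧ ∀ w ∈ R, ∀ π, w.Unif (w.D ⊓ P.GK) π →
        w.v (eO P.l β) = w.v π ^ k w := by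
  classical
  have key : ∀ I : Ideal (OO P.l), I ≠ 0 → (∀ Q, Prime Q → Q ∣ I → ∃ w ∈ R, pw P.l w = Q) →
      ∃ k : Pl → ℕ, I = ∏ w ∈ R, pw P.l w ^ k w := by
    intro I
    induction I using UniqueFactorizationMonoid.induction_on_prime with
    | h₁ => exact fun e => (e rfl).elim
    | h₂ I hI => exact fun _ _ => ⟨0, by
        rw [Ideal.isUnit_iff.1 hI, ← Ideal.one_eq_top]
        exact (Finset.prod_eq_one fun _ _ => pow_zero _).symm⟩
    | h₃ I Q hI hQ ih =>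
      intro _ e
      obtain ⟨k, rfl⟩ := ih hI fun Q' h1 h2 => e Q' h1 (h2.mul_left _)
      obtain ⟨w, hw, rfl⟩ := e Q hQ (dvd_mul_right _ _)
      exact ⟨fun u => (if u = w then 1 else 0) + k u, by
        simp only [pow_add, Finset.prod_mul_distrib, pow_ite, pow_one, pow_zero,
          Finset.prod_ite_eq', if_pos hw]⟩
  obtain ⟨k, hk⟩ := key (Ideal.span {β}) (by simpa using h0) fun Q h1 h2 => by
    obtain ⟨w, rfl⟩ := exists_pw hA (Ideal.isPrime_of_prime h1) h1.ne_zero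
    obtain ⟨u, hu, e⟩ : ∃ u ∈ P.GK, u • w ∈ R := by
      simpa [Out] using mt (h w) fun e => (v_eq_one rfl).1 e h2
    exact ⟨_, e, pw_smul hu⟩
  refine ⟨k, hk, fun w hw π hπ => ?_⟩
  rw [← Finset.mul_prod_erase _ _ hw] at hk
  refine le_antisymm (PWA.pow hπ _ _ (Ideal.mul_le_left (hk.le (Ideal.mem_span_singleton_self β)))) ?_
  obtain ⟨α, hα⟩ := exists_near (P := P) hA {w} (by simp [Sep]) (fun _ => π)
    (by simpa using ⟨hπ.1, hπ.2.2.1.le⟩) (w.v.pos_iff.2 hπ.2.1)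
  have h1 : w.v (eO P.l α) = w.v π := by
    rw [← sub_sub_cancel π (eO P.l α)]
    exact w.v.map_sub_eq_of_lt_left (hα w (by simp))
  obtain ⟨j, h2, h3⟩ := SetLike.not_le_iff_exists.1
    (show ¬ ∏ u ∈ R.erase w, pw P.l u ^ k u ≤ pw P.l w from fun e => by
      obtain ⟨u, hu, e⟩ := PWA.prime.prod_le.1 e
      have := PWA.prime (P := P) (w := w)
      obtain ⟨g, hg, e⟩ := pw_inj hA
        (PWA.max.eq_of_le this.ne_top (Ideal.IsPrime.le_of_pow_le e))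
      rw [Finset.mem_erase] at hu
      exact hu.1 ((hR u hu.2 g hg (e ▸ hw)).symm.trans e))
  obtain ⟨c, hc⟩ := Ideal.mem_span_singleton.1 (hk.ge (Ideal.mul_mem_mul
    (Ideal.pow_mem_pow (mem_pw.2 (h1.trans_lt hπ.2.2.1)) (k w)) h2))
  have h4 := congrArg (fun x => w.v (eO P.l x)) hc
  simp only [map_mul, map_pow, h1, le_antisymm (v_eO_le j) (not_lt.1 (mt mem_pw.2 h3)),
    mul_one] at h4
  exact h4.trans_le (mul_le_of_le_one_right' (v_eO_le c))

/-- homomorphisms which agree on large Frobenius elements are equal -/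
theorem ext_frob (hA : CA) {G : Type} [Group G] {f f' : GQ → G} (h1 : Sm P.GK f) (h2 : Sm P.GK f')
    (h3 : ∀ g ∈ P.GK, ∀ h ∈ P.GK, f (g * h) = f g * f h ∧ f' (g * h) = f' g * f' h) (B : ℕ)
    (h4 : ∀ (w : Pl) (φ : GQ), B < w.p → φ ∈ P.GK → w.IsFrob 1 φ → f φ = f' φ) :
    ∀ g ∈ P.GK, f g = f' g := by
  have o := h3 1 (one_mem _) 1 (one_mem _)
  rw [mul_one, left_eq_mul, left_eq_mul] at o
  let U : Subgroup GQ :=
    { carrier := {g | g ∈ P.GK ∧ f g = f' g}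
      one_mem' := ⟨one_mem _, o.1.trans o.2.symm⟩
      mul_mem' := fun {a b} ha hb => ⟨mul_mem ha.1 hb.1, by
        rw [(h3 a ha.1 b hb.1).1, (h3 a ha.1 b hb.1).2, ha.2, hb.2]⟩
      inv_mem' := fun {a} ha => ⟨inv_mem ha.1, by
        have := h3 _ (inv_mem ha.1) a ha.1
        rw [inv_mul_cancel, o.1, o.2, ha.2] at this
        exact mul_right_cancel (this.1.symm.trans this.2)⟩ }
  obtain ⟨N, a, b⟩ := h1.comp₂ h2 Prod.mk
  refine fun g hg => (hA.genp.1 P.GK U B P.on.2 (open_of_le (P.on.inf a).2 fun n hn => ⟨hn.1, ?_⟩)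
    (fun w φ e1 e2 e3 => ⟨e2, h4 w φ e1 e2 e3⟩) hg).2
  have := b 1 (one_mem _) n hn.1 hn.2
  simp only [one_mul, Prod.mk.injEq, o.1, o.2] at this
  exact this.1.trans this.2.symm

/-- elements close to one are split by a cyclic extension of 2-power degree -/
theorem triv_near (hA : CA) (w : Pl) (n : ℕ) : ∃ ε : ℝ≥0, 0 < ε ∧ ∀ (H : Subgroup GQ)
    (χ : GQ → ZMod (2 ^ n)) (x : Om), H ≤ w.D → IsCh H χ → Fix H x → w.v (x - 1) < ε →
      Triv H (cup χ x) := by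
  have h2 : 0 < w.v 2 := w.v.pos_iff.2 two_ne_zero
  have h3 : w.v 2 ≤ 1 := by simpa using w.v_nat_le 2
  have h4 : ∀ k, w.v 4 * w.v 2 ^ k ≤ w.v 4 := fun k =>
    mul_le_of_le_one_right' (pow_le_one₀ zero_le h3)
  refine ⟨w.v 4 * w.v 2 ^ n, mul_pos (w.v.pos_iff.2 (by norm_num)) (pow_pos h2 n),
    fun H χ x hH hχ hx h => ?_⟩
  have key : ∀ k x, Fix H x → w.v (x - 1) < w.v 4 * w.v 2 ^ k → ∃ y, Fix H y ∧ x = y ^ 2 ^ k := by
    intro k
    induction k with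
    | zero => exact fun x hx _ => ⟨x, hx, by simp⟩
    | succ k ih =>
      intro x hx h
      obtain ⟨y, hy, rfl, -, e⟩ := (hA.hens w H hH).1 x hx (h.trans_le (h4 _))
      rw [← e, pow_succ, ← mul_assoc] at h
      obtain ⟨z, hz, rfl⟩ := ih y hy (lt_of_mul_lt_mul_right h zero_le)
      exact ⟨z, hz, by rw [← pow_mul, pow_succ]⟩
  obtain ⟨y, hy, rfl⟩ := key n x hx h
  have h5 : y ≠ 0 := by
    rintro rfl
    have : w.v 4 ≤ 1 := by simpa using w.v_nat_le 4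
    simpa using h.trans_le ((h4 n).trans this)
  refine ((hA.cup H y hy h5 _ χ (by positivity) hχ).2.2.2.2.1 (2 ^ n)).iff.1
    (Triv.one.congr fun g _ k _ => ?_)
  have : ∀ a : ZMod (2 ^ n), 2 ^ n • a = 0 := fun a => by
    rw [nsmul_eq_mul, ZMod.natCast_self, zero_mul]
  simp [cup, this]

end Pool.Agent.P.MP_8b7eba_nt.R2
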