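import Mathlib

/-! The elements of odd order in a finite commutative group. -/

namespace Pool.Agent.P.MP_8b7eba_nt.R2.THE1

variable {G G₀ : Type} [CommGroup G] [CommGroup G₀] {O : Subgroup G} {O₀ : Subgroup G₀}

/-- `O` consists of the elements of odd order -/
def IsO (O : Subgroup G) : Prop := ∀ a, a ∈ O ↔ Odd (orderOf a)

theorem IsO.pow [Finite G] (h : IsO O) (a : G) : ∃ k : ℕ, a ^ 2 ^ k ∈ O := by
  obtain ⟨k, m, hm, e⟩ := Nat.exists_eq_two_pow_mul_odd (orderOf_pos a).ne'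
  refine ⟨k, (h _).2 (hm.of_dvd_nat (orderOf_dvd_of_pow_eq_one ?_))⟩
  rw [← pow_mul, ← e, pow_orderOf_eq_one]

theorem IsO.map (h : IsO O) (h₀ : IsO O₀) (π : G →* G₀) {a : G} (ha : a ∈ O) : π a ∈ O₀ :=
  (h₀ _).2 (((h a).1 ha).of_dvd_nat (orderOf_map_dvd π a))

theorem IsO.surj [Finite G] (h : IsO O) (h₀ : IsO O₀) {π : G →* G₀} {x : G} (hx : π x ∈ O₀) :
    ∃ b ∈ O, π b = π x := by
  obtain ⟨k, hk⟩ := h.pow x
  obtain ⟨m, hm⟩ := exists_pow_eq_self_of_coprime (x := π x) (n := 2 ^ k)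
    (Nat.Coprime.pow_left k (Nat.coprime_two_left.2 ((h₀ _).1 hx)))
  exact ⟨(x ^ 2 ^ k) ^ m, O.pow_mem hk m, by rw [map_pow, map_pow, hm]⟩

theorem IsO.odd [Finite G] (h : IsO O) (A : Subgroup G) : Odd (Nat.card (O.subgroupOf A)) := by
  rw [← Nat.not_even_iff_odd, even_iff_two_dvd]
  intro e
  obtain ⟨x, hx⟩ := exists_prime_orderOf_dvd_card' 2 e
  have h1 := (h _).1 (Subgroup.mem_subgroupOf.1 x.2)
  rw [Subgroup.orderOf_coe, Subgroup.orderOf_coe, hx] at h1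
  exact absurd h1 (by decide)

theorem IsO.two [Finite G] (h : IsO O) (A : Subgroup G) :
    O.relIndex A = 2 ^ padicValNat 2 (Nat.card A) ∧
      Nat.card (O.subgroupOf A) = Nat.card A / 2 ^ padicValNat 2 (Nat.card A) := by
  have hp : IsPGroup 2 (A ⧸ O.subgroupOf A) := fun q => by
    obtain ⟨a, rfl⟩ := QuotientGroup.mk_surjective q
    obtain ⟨k, hk⟩ := h.pow (a : G)
    exact ⟨k, by
      rw [← QuotientGroup.mk_pow, QuotientGroup.eq_one_iff, Subgroup.mem_subgroupOf]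
      exact hk⟩
  obtain ⟨n, hn⟩ := IsPGroup.iff_card.1 hp
  have h1 : O.relIndex A = 2 ^ n := hn
  have h2 : Nat.card (O.subgroupOf A) * 2 ^ n = Nat.card A := h1 ▸ (O.subgroupOf A).card_mul_index
  have h3 := h.odd A
  have h4 : padicValNat 2 (Nat.card A) = n := by
    rw [← h2, padicValNat.mul h3.pos.ne' (by positivity), padicValNat.prime_pow,
      padicValNat.eq_zero_of_not_dvd (by rwa [← even_iff_two_dvd, Nat.not_even_iff_odd]), zero_add]
  rw [h4]
  exact ⟨h1, by rw [← h2, Nat.mul_div_cancel _ (by positivity)]⟩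

theorem IsO.rel [Finite G] (h : IsO O) (h₀ : IsO O₀) (π : G →* G₀) :
    O.relIndex (O₀.comap π) = 2 ^ padicValNat 2 (Nat.card π.ker) := by
  have e : O₀.comap π = π.ker ⊔ O := by
    refine le_antisymm (fun x hx => ?_) (sup_le (fun x hx => ?_) fun x hx => h.map h₀ π hx)
    · obtain ⟨b, hb, e⟩ := h.surj h₀ (π := π) hx
      rw [show x = x * b⁻¹ * b by group]
      exact Subgroup.mul_mem_sup (by rw [MonoidHom.mem_ker, map_mul, map_inv, e, mul_inv_cancel]) hb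
    · rw [Subgroup.mem_comap, MonoidHom.mem_ker.1 hx]
      exact O₀.one_mem
  rw [e, Subgroup.relIndex_sup_right, (h.two _).1]

variable {M : Type} [AddCommGroup M]

theorem shift (O : Subgroup G) (f : G → M) {x y : G} (h : x⁻¹ * y ∈ O) :
    ∑ᶠ a : O, f (x * a.1) = ∑ᶠ a : O, f (y * a.1) := by
  refine (finsum_eq_of_bijective (fun a : O => (⟨_, h⟩ : O) * a) (Group.mulLeft_bijective _)
    fun a => ?_).symm
  rw [Subgroup.coe_mul, ← mul_assoc, mul_inv_cancel_left]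

theorem IsO.sum [Finite G] [Finite G₀] (h : IsO O) (h₀ : IsO O₀) {π : G →* G₀}
    (hπ : Function.Surjective π) (f : G₀ → M) :
    ∑ᶠ b : O, f (π b.1) =
      (Nat.card π.ker / 2 ^ padicValNat 2 (Nat.card π.ker)) • ∑ᶠ a : O₀, f a.1 := by
  classical
  have := Fintype.ofFinite O
  have := Fintype.ofFinite O₀
  let ρ : O →* O₀ := (π.comp O.subtype).codRestrict O₀ fun b => h.map h₀ π b.2
  have hρ : Function.Surjective ρ := fun a => by
    obtain ⟨x, hx⟩ := hπ a.1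
    obtain ⟨b, hb, e⟩ := h.surj h₀ (π := π) (x := x) (hx ▸ a.2)
    exact ⟨⟨b, hb⟩, Subtype.ext (e.trans hx)⟩
  have hc : Nat.card (O.subgroupOf π.ker) = (Finset.univ.filter fun b => ρ b = 1).card := by
    rw [← Fintype.card_subtype, ← Nat.card_eq_fintype_card]
    exact Nat.card_congr
      { toFun := fun x => ⟨⟨x.1.1, x.2⟩, Subtype.ext x.1.2⟩
        invFun := fun x => ⟨⟨x.1.1, congrArg Subtype.val x.2⟩, x.1.2⟩
        left_inv := fun _ => rfl
        right_inv := fun _ => rfl }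
  rw [← (h.two _).2, hc, finsum_eq_sum_of_fintype, finsum_eq_sum_of_fintype, Finset.smul_sum,
    ← Finset.sum_fiberwise Finset.univ ρ]
  refine Finset.sum_congr rfl fun a _ => ?_
  rw [Finset.sum_congr rfl (g := fun _ => f a.1) fun b hb => by
    rw [← (Finset.mem_filter.1 hb).2]; rfl, Finset.sum_const]
  congr 1
  exact MonoidHom.card_fiber_eq_of_mem_range ρ (hρ a) ⟨1, map_one _⟩

theorem fiber [Finite G] [Finite G₀] (O₀ : Subgroup G₀) (π : G →* G₀) (f : G → M) :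
    ∑ᶠ a : O₀, ∑ᶠ b ∈ {b | π b = a.1}, f b = ∑ᶠ b : O₀.comap π, f b.1 := by
  classical
  have := Fintype.ofFinite O₀
  have := Fintype.ofFinite (O₀.comap π)
  rw [finsum_eq_sum_of_fintype, finsum_eq_sum_of_fintype,
    ← Finset.sum_fiberwise Finset.univ fun b : O₀.comap π => (⟨π b.1, b.2⟩ : O₀)]
  refine Finset.sum_congr rfl fun a _ => ?_
  rw [← finsum_mem_coe_finset]
  refine (finsum_mem_eq_of_bijOn Subtype.val ⟨fun b hb => ?_, Subtype.val_injective.injOn,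
    fun b hb => ?_⟩ fun _ _ => rfl).symm
  · exact congrArg Subtype.val (Finset.mem_filter.1 hb).2
  · have hb' : π b = a.1 := hb
    exact ⟨⟨b, by rw [Subgroup.mem_comap, hb']; exact a.2⟩,
      Finset.mem_filter.2 ⟨Finset.mem_univ _, Subtype.ext hb'⟩, rfl⟩

theorem cosets [Finite G] {A : Subgroup G} (hA : O ≤ A) {ι : Type} (r : ι → G) (h1 : ∀ i, r i ∈ A)
    (h2 : ∀ i j, (r i)⁻¹ * r j ∈ O → i = j) (h3 : ∀ x ∈ A, ∃ i, (r i)⁻¹ * x ∈ O) (f : G → M) :
    ∑ᶠ i, ∑ᶠ b : O, f ((r i)⁻¹ * b.1) = ∑ᶠ b : A, f b.1 := by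
  have : Finite ι := Finite.of_injective r fun i j e => h2 i j (by rw [e, inv_mul_cancel]; exact O.one_mem)
  have := Fintype.ofFinite ι
  have := Fintype.ofFinite O
  simp only [finsum_eq_sum_of_fintype (α := ι), finsum_eq_sum_of_fintype (α := O)]
  rw [← Fintype.sum_prod_type', ← finsum_eq_sum_of_fintype]
  refine finsum_eq_of_bijective
    (fun p : ι × O => (⟨(r p.1)⁻¹ * p.2.1, A.mul_mem (A.inv_mem (h1 _)) (hA p.2.2)⟩ : A))
    ⟨?_, fun x => ?_⟩ fun _ => rfl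
  · rintro ⟨i, b⟩ ⟨j, b'⟩ e
    have e' : (r i)⁻¹ * b.1 = (r j)⁻¹ * b'.1 := congrArg Subtype.val e
    obtain rfl : i = j := h2 i j (by
      have : (r i)⁻¹ * r j = b'.1 * b.1⁻¹ := by
        rw [eq_mul_inv_iff_mul_eq, mul_right_comm, e', mul_right_comm, inv_mul_cancel, one_mul]
      rw [this]
      exact O.mul_mem b'.2 (O.inv_mem b.2))
    rw [Subtype.ext (mul_left_cancel e')]
  · obtain ⟨i, hi⟩ := h3 _ (A.inv_mem x.2)
    refine ⟨(i, ⟨_, O.inv_mem hi⟩), Subtype.ext ?_⟩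
    show (r i)⁻¹ * ((r i)⁻¹ * x.1⁻¹)⁻¹ = x.1
    rw [mul_inv, inv_inv, inv_inv, inv_mul_cancel_left]

end Pool.Agent.P.MP_8b7eba_nt.R2.THE1
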