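import Pool.Agent.P.MP_8b7eba_nt.R2.CMA
import Pool.Agent.P.MP_8b7eba_nt.R2.PWA
import Pool.Agent.P.MP_8b7eba_nt.R2.Csum
import Pool.Agent.P.MP_8b7eba_nt.R2.GrpA
import Pool.Agent.P.MP_8b7eba_nt.R2.THE1A

/-! Proof of HE1, HEX. -/

namespace Pool.Agent.P.MP_8b7eba_nt.R2

open scoped NNReal
open MP_9c97e9_nt (pm Is ap)
open BSD15 (OO Good nm cj)
open _root_.Pool.Agent.P.MP_8b7eba_nt.Mod (M2 G0 xx al)
open R1 (emb Dl psi Pz KF U8 IntPt y1)

namespace THE1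

variable {P : Pre} {c : ℕ}

section

variable {l : ℕ} [Hl l] {M : Type} [AddCommGroup M]

theorem isO (c : ℕ) : IsO (G := RC l c) (Od l c) := fun _ => mem_Od

theorem r1 (x y : RC l c) : x * y * x⁻¹ = y := mul_inv_cancel_comm x y

theorem r2 (x : RC l c) : 1 * x = x := one_mul x

theorem r3 : (1 : RC l c)⁻¹ = 1 := inv_one (G := RC l c)

theorem r4 (x : RC l c) : x⁻¹⁻¹ = x := inv_inv x

theorem r5 (x : RC l c) : x * x⁻¹ = 1 := mul_inv_cancel x

theorem r6 (x y : RC l c) : x * (x⁻¹ * y) = y := mul_inv_cancel_left x y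

theorem r7 (x y : RC l c) : (x * y)⁻¹ = x⁻¹ * y⁻¹ := mul_inv x y

theorem r8 (x : RC l c) : x * 1 = x := mul_one x

theorem r9 {c' : ℕ} (h : c ∣ c') (x : RC l c') : pr h x⁻¹ = (pr h x)⁻¹ :=
  eq_inv_of_mul_eq_one_left (G := RC l c) (by
    rw [← (pr (l := l) h).map_mul, show x⁻¹ * x = 1 from inv_mul_cancel x]
    exact (pr (l := l) h).map_one)

theorem od_inv {x : RC l c} (h : x ∈ Od l c) : x⁻¹ ∈ Od l c := (Od l c).inv_mem h

theorem od_1 : (1 : RC l c) ∈ Od l c := (Od l c).one_mem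

theorem shf (f : RC l c → M) {x y : RC l c} (h : x⁻¹ * y ∈ Od l c) :
    ∑ᶠ a : Od l c, f (x * a.1) = ∑ᶠ a : Od l c, f (y * a.1) :=
  shift (G := RC l c) (Od l c) f h

end

/-- the Artin map as a homomorphism -/
noncomputable def hom (h : IsAr P c) : P.GK →* RC P.l c :=
  MonoidHom.mk' (fun g => ar P.l c g.1) fun g k => h.mul _ g.2 _ k.2

theorem ar_one (h : IsAr P c) : ar P.l c 1 = 1 := (hom h).map_one

theorem ar_inv (h : IsAr P c) {g : GQ} (hg : g ∈ P.GK) : ar P.l c g⁻¹ = (ar P.l c g)⁻¹ :=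
  eq_inv_of_mul_eq_one_left (G := RC P.l c) (by
    rw [← h.mul _ (P.GK.inv_mem hg) _ hg, inv_mul_cancel, ar_one h])

theorem ar_pow (h : IsAr P c) {g : GQ} (hg : g ∈ P.GK) (n : ℕ) :
    ar P.l c (g ^ n) = ar P.l c g ^ n :=
  (hom h).map_pow (⟨g, hg⟩ : P.GK) n

theorem ar_div (h : IsAr P c) {g k : GQ} (hg : g ∈ P.GK) (hk : k ∈ P.GK) :
    ar P.l c (g⁻¹ * k) = (ar P.l c g)⁻¹ * ar P.l c k := by
  rw [h.mul _ (P.GK.inv_mem hg) _ hk, ar_inv h hg]

theorem mem_map (h : IsAr P c) (A : Subgroup (RC P.l c)) {g : GQ} :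
    g ∈ (A.comap (hom h)).map P.GK.subtype ↔ g ∈ P.GK ∧ ar P.l c g ∈ A :=
  ⟨fun ⟨x, h1, h2⟩ => h2 ▸ ⟨x.2, h1⟩, fun ⟨h1, h2⟩ => ⟨⟨g, h1⟩, h2, rfl⟩⟩

theorem NH_eq (hc : Cd c) (h : IsAr P c) :
    NH P c = ((Od P.l c).comap (hom h)).map P.GK.subtype := by
  rw [NH, if_pos hc, ← Subgroup.closure_eq (Subgroup.map _ _)]
  exact congrArg _ (Set.ext fun g => (mem_map h _).symm)

theorem mem_NH (hc : Cd c) (h : IsAr P c) {g : GQ} :
    g ∈ NH P c ↔ g ∈ P.GK ∧ ar P.l c g ∈ Od P.l c := by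
  rw [NH_eq hc h, mem_map]

theorem on_NH (hc : Cd c) (h : IsAr P c) : ON (NH P c) := by
  refine ⟨⟨fun g hg s => ?_⟩, ?_⟩
  · obtain ⟨h1, h2⟩ := (mem_NH hc h).1 hg
    refine (mem_NH hc h).2 ⟨P.on.1.conj_mem g h1 s, ?_⟩
    by_cases hs : s ∈ P.GK
    · rwa [h.mul _ (P.GK.mul_mem hs h1) _ (P.GK.inv_mem hs), h.mul _ hs _ h1, ar_inv h hs, r1]
    · rw [(h.dih s hs).2 g h1]
      exact od_inv h2
  · obtain ⟨N, hN, e⟩ := h.sm
    refine Subgroup.isOpen_mono (H₁ := N ⊓ P.GK) (fun g hg => (mem_NH hc h).2 ⟨hg.2, ?_⟩)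
      (hN.inf P.on).2
    have := e 1 P.GK.one_mem g hg.2 hg.1
    rw [one_mul, ar_one h] at this
    rw [this]
    exact od_1

theorem ac_HP (h : IsAr P c) {g : GQ} (hg : g ∈ P.GK) (a : RC P.l c) :
    ac g (HP a) = HP ((ar P.l c g)⁻¹ * a) := by
  have := (h.act g hg ((ar P.l c g)⁻¹ * a)).1
  rwa [r6] at this

theorem yH_eq {l : ℕ} [Hl l] (hc : Cd c) : yH l c = ∑ᶠ a : Od l c, HP a.1 := if_pos hc

theorem ac_yH (hc : Cd c) (h : IsAr P c) {g : GQ} (hg : g ∈ P.GK) :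
    ac g (yH P.l c) = ∑ᶠ a : Od P.l c, HP ((ar P.l c g)⁻¹ * a.1) := by
  have := finite_RC (l := P.l) hc.1
  rw [yH_eq hc, (ac g).map_finsum (Set.toFinite _)]
  exact finsum_congr fun a => ac_HP h hg _

theorem cd_mul {w : Pl} (hc : Cd c) (h : ¬ w.p ∣ 15) : Cd (c * w.p) :=
  ⟨mul_ne_zero hc.1 w.prime.ne_zero,
    Nat.Coprime.mul_left hc.2 ((Nat.Prime.coprime_iff_not_dvd w.prime).2 h)⟩

theorem cd_of (h : c.Coprime (15 * P.l)) (h0 : c ≠ 0) : Cd c := ⟨h0, h.coprime_mul_right_right⟩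

end THE1

open THE1

theorem t_HE1 (hE : CE) (hARX : ARX) : HE1 := by
  intro P c hc
  have h := hARX P c hc
  refine ⟨fun g => mem_NH hc h, on_NH hc h, fun g hg => ac_yH hc h hg, fun q hq => ?_⟩
  have h' := hARX P _ hq
  have := finite_RC (l := P.l) hc.1
  have := finite_RC (l := P.l) hq.1
  have hm : ∀ g, g ∈ NH P c ↔ g ∈ P.GK ∧
      ar P.l (c * q) g ∈ (Od P.l c).comap (pr (Nat.dvd_mul_right c q)) := fun g => by
    rw [mem_NH hc h]
    exact and_congr_right fun hg => by rw [Subgroup.mem_comap, h'.pr c _ g hg]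
  have hle : Od P.l (c * q) ≤ (Od P.l c).comap (pr (Nat.dvd_mul_right c q)) :=
    fun x hx => pr_Od _ hx
  refine ⟨fun g hg => (hm g).2 (((mem_NH hq h').1 hg).imp_right fun k => hle k), ?_, ?_,
    fun M _ f x => ?_⟩
  · rw [show NH P c = _ from Subgroup.ext fun g => (hm g).trans (mem_map h' _).symm, NH_eq hq h',
      Subgroup.relIndex_map_map_of_injective _ _ P.GK.subtype_injective, Subgroup.relIndex_comap,
      Subgroup.map_comap_eq_self_of_surjective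
        (fun a => let ⟨g, h1, h2⟩ := h'.surj a; ⟨⟨g, h1⟩, h2⟩), (isO _).rel (isO c)]
  · have k : ∀ i, Nrm.ro (NH P c) (NH P (c * q)) i ∈ P.GK := fun i => ((hm _).1 (Nrm.ro_mem i)).1
    refine ((finsum_congr fun i => ac_yH hq h' (k i)).trans (cosets (G := RC P.l (c * q)) hle
      (fun i => ar P.l (c * q) (Nrm.ro (NH P c) (NH P (c * q)) i))
      (fun i => ((hm _).1 (Nrm.ro_mem i)).2) (fun i j e => Nrm.ro_inj ?_) (fun x hx => ?_) HP)).trans
      (fiber (G := RC P.l (c * q)) (G₀ := RC P.l c) (Od P.l c) _ HP).symm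
    · exact (mem_NH hq h').2 ⟨P.GK.mul_mem (P.GK.inv_mem (k i)) (k j), by
        rwa [ar_div h' (k i) (k j)]⟩
    · obtain ⟨g, h1, rfl⟩ := h'.surj x
      obtain ⟨i, hi⟩ := Nrm.ro_surj (H' := NH P (c * q)) ((hm g).2 ⟨h1, hx⟩)
      exact ⟨i, by rw [← ar_div h' (k i) h1]; exact ((mem_NH hq h').1 hi).2⟩
  · exact (finsum_congr fun b : Od P.l (c * q) =>
      congrArg f ((pr (l := P.l) (Nat.dvd_mul_right c q)).map_mul x b.1)).trans
      ((isO _).sum (isO c) (pr_surj _ hq.1) fun a => f (pr (Nat.dvd_mul_right c q) x * a))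

theorem t_HEX (hE : CE) (hARX : ARX) (hARL : ARL) (hGEN : GEN) (hTRI : TRI) (hTRS : TRS)
    (hHE1 : HE1) : HEX := by
  intro P a hP
  have hA : CA := hE.toCA
  have neg : ∀ {c}, ¬ Cd c → NH P c = P.GK := fun h => if_neg h
  have mem : ∀ {c}, Cd c → ∀ {g}, g ∈ NH P c ↔ g ∈ P.GK ∧ ar P.l c g ∈ Od P.l c :=
    fun hc => mem_NH hc (hARX P _ hc)
  refine ⟨{
    N := NH P
    y := yH P.l
    on := fun c => ?_
    le := fun c g hg => ?_
    one := ?_
    anti := ?_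
    ab := fun c g hg k hk => ?_
    two := fun c g hg => ?_
    dih := fun c g hg => ?_
    unr := fun c w _ h g hg => ?_
    fix := fun c g hg => ?_
    pow := fun M g => ?_
    gen := fun g hg => ?_
    inert := fun c w F h1 h0 h2 hF hK => ?_
    split := fun c w F h1 _ h0 h2 h3 hF => ?_ }, rfl, rfl⟩
  · by_cases hc : Cd c
    · exact on_NH hc (hARX P _ hc)
    · rw [neg hc]
      exact P.on
  · by_cases hc : Cd c
    · exact ((mem hc).1 hg).1
    · rwa [neg hc] at hg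
  · refine Subgroup.ext fun g => ?_
    rw [mem ⟨one_ne_zero, Nat.coprime_one_left _⟩, od_one]
    exact and_iff_left trivial
  · rintro c _ ⟨q, rfl⟩ h1 h0
    exact ((hHE1 P c (cd_of h1.coprime_mul_right (left_ne_zero_of_mul h0))).2.2.2 q
      (cd_of h1 h0)).1
  · have e1 := P.GK.mul_mem hg hk
    have e2 := P.GK.mul_mem e1 (P.GK.inv_mem hg)
    have e3 := P.GK.mul_mem e2 (P.GK.inv_mem hk)
    by_cases hc : Cd c
    · have h := hARX P _ hc
      refine (mem hc).2 ⟨e3, ?_⟩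
      rw [h.mul _ e2 _ (P.GK.inv_mem hk), h.mul _ e1 _ (P.GK.inv_mem hg), h.mul _ hg _ hk,
        ar_inv h hg, ar_inv h hk, r1, r5]
      exact od_1
    · rwa [neg hc]
  · by_cases hc : Cd c
    · obtain ⟨k, hk⟩ := exists_pow_Od hc.1 (ar P.l c g)
      exact ⟨k, (mem hc).2 ⟨P.GK.pow_mem hg _, by rwa [ar_pow (hARX P _ hc) hg]⟩⟩
    · exact ⟨0, by rw [neg hc]; exact P.GK.pow_mem hg _⟩
  · by_cases hc : Cd c
    · refine (mem hc).2 ⟨P.mul_mem hg hg, ?_⟩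
      rw [((hARX P _ hc).dih g hg).1]
      exact od_1
    · rw [neg hc]
      exact P.mul_mem hg hg
  · by_cases hc : Cd c
    · exact (mem hc).2 ⟨hg.2, (hARL P c w hc).1 h g hg⟩
    · rw [neg hc]
      exact hg.2
  · by_cases hc : Cd c
    · obtain ⟨k1, k2⟩ := (mem hc).1 hg
      rw [ac_yH hc (hARX P _ hc) k1, shf HP (y := 1) (by rwa [r4, r8]), yH_eq hc]
      simp only [r2]
    · rw [show yH P.l c = 0 from if_neg hc, map_zero]
  · rw [mem (cd_two_pow _)]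
    exact and_congr_right fun hg => hP M g hg
  · have hc : Cd P.d.natAbs := ⟨Int.natAbs_ne_zero.2 P.sq.ne_zero,
      Int.isCoprime_iff_gcd_eq_one.1 P.cop.of_mul_right_left⟩
    exact hGEN P g ((mem hc).1 hg).1 ((mem hc).1 hg).2
  · have hc := cd_of h1 h0
    have hq : Cd (c * w.p) := cd_mul hc fun e => h2 (e.trans ⟨2 * P.l * c, by ring⟩)
    have h := hARX P _ hc
    have h' := hARX P _ hq
    have := finite_RC (l := P.l) hc.1
    have := finite_RC (l := P.l) hq.1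
    have hD : ¬ w.D ≤ P.GK := fun e => hK (e hF.1)
    have hl : w.p ≠ P.l := fun e => h2 ⟨30 * c, by rw [e]; ring⟩
    have hk : Nat.card (pr (l := P.l) (Nat.dvd_mul_right c w.p)).ker = w.p + 1 := by
      have := card_ker (l := P.l) h0 w.prime (fun e => h2 ⟨15 * P.l * c, by rw [e]; ring⟩)
        fun e => h2 (e.mul_left _)
      rw [(D_le_iff hA fun e => h2 (e.trans ⟨15 * c, by ring⟩)).2.1 hD] at this
      omega
    obtain ⟨-, k1, k2, k3⟩ := (hHE1 P c hc).2.2.2 _ hq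
    rw [hk] at k1 k3
    refine ⟨k1, fun g hg => ?_, ?_, fun g hg => ?_⟩
    · obtain ⟨g1, g2⟩ := (mem hc).1 hg
      obtain ⟨i, i1, i2⟩ := (hARL P c w hc).2.2 h2 hD (ar P.l _ g) (by rwa [h'.pr c _ g g1])
      have i3 := I_le_GK hA hl i1
      exact ⟨i, i1, (mem hq).2 ⟨P.GK.mul_mem (P.GK.inv_mem i3) g1, by rwa [ar_div h' i3 g1]⟩⟩
    · rw [k2, yH_eq hc, smul_finsum' _ (Set.toFinite _)]
      exact finsum_congr fun b => (hTRI P c w b hc h2 hD).1
    · have k4 := k3 EO HP (ar P.l _ g)⁻¹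
      rw [r9, h'.pr c _ g hg, ← ac_yH hc h hg] at k4
      rw [← k4, ac_mul, ac_yH hq h' hg, (ac F).map_finsum (Set.toFinite _),
        ← finsum_sub_distrib (Set.toFinite _) (Set.toFinite _)]
      refine finsum_induction (E1 w) (hE.e1g w).1 (hE.e1g w).2.2.1 fun b =>
        (hTRI P c w _ hc h2 hD).2 F hF ?_ _ rfl
      rw [← ac_mul, ac_HP h (P.mul_mem hK hK), (h.dih F hK).1, r3, r2]
  · have hc := cd_of h1 h0
    have h4 : ¬ w.p ∣ 30 * P.l := fun e => by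
      have e1 : IsCoprime P.d 2 := by
        rw [Int.isCoprime_iff_gcd_eq_one, Int.gcd_comm, ← Int.isCoprime_iff_gcd_eq_one,
          Int.prime_two.coprime_iff_not_dvd]
        have := P.d8
        omega
      have e2 : (w.p : ℤ) ∣ 2 * (15 * P.l) := by
        rw [← mul_assoc]
        exact_mod_cast e
      exact w.prime.one_lt.ne' (Nat.isUnit_iff.1 (Int.ofNat_isUnit.1
        ((e1.mul_right P.cop).isUnit_of_dvd' h3 e2)))
    have h5 : ¬ w.p ∣ 30 * P.l * c := fun e => (w.prime.dvd_mul.1 e).elim h4 h2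
    have hq : Cd (c * w.p) := cd_mul hc fun e => h4 (e.trans ⟨2 * P.l, by ring⟩)
    have h := hARX P _ hc
    have := finite_RC (l := P.l) hc.1
    have hD : w.D ≤ P.GK := (hE.karith P).2.2.2.1 w (h3.mul_left _)
    have hK := hD hF.1
    have k := (hARL P c w hc).2.1 (fun e => h5 (e.trans ⟨15, by ring⟩)) F hK hF
    rw [((hHE1 P c hc).2.2.2 _ hq).2.2.1, ac_yH hc h hK, ac_yH hc h (P.GK.inv_mem hK), ar_inv h hK,
      r4, shf HP k, shf HP (y := (cl c (pw P.l w))⁻¹)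
        (by rw [← r7]; exact od_inv k), yH_eq hc,
      smul_finsum' _ (Set.toFinite _), sub_right_comm,
      ← finsum_sub_distrib (Set.toFinite _) (Set.toFinite _),
      ← finsum_sub_distrib (Set.toFinite _) (Set.toFinite _)]
    exact finsum_congr fun b => hTRS P c w b hc h5 hD

end Pool.Agent.P.MP_8b7eba_nt.R2
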