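import Pool.Agent.P.MP_8b7eba_nt.R2.CMA
import Pool.Agent.P.MP_8b7eba_nt.R2.PWA

/-! Proof of JD, JS. -/

namespace Pool.Agent.P.MP_8b7eba_nt.R2

open scoped NNReal
open MP_9c97e9_nt (pm Is ap)
open BSD15 (OO Good nm cj)
open _root_.Pool.Agent.P.MP_8b7eba_nt.Mod (M2 G0 xx al)
open R1 (emb Dl psi Pz KF U8 IntPt y1)

namespace TJD

section
variable {G : Type} [Group G]

theorem g0 {a : G} (h : a = a * a) : a = 1 := mul_eq_left.1 h.symm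

theorem g1 (hc : ∀ a b : G, a * b = b * a) (x y i : G) :
    (x * i⁻¹)⁻¹ * (y * i⁻¹) = x⁻¹ * y := by
  rw [← mul_assoc, hc _ i⁻¹]; group

theorem g2 (i : G) (k : ℕ) : (1 * i⁻¹)⁻¹ * ((i ^ (2 * k + 1))⁻¹ * 1) = ((i ^ 2) ^ k)⁻¹ := by
  group

theorem g3 (hc : ∀ a b : G, a * b = b * a) (r x : G) : (r⁻¹ * x)⁻¹ * x = r := by
  rw [hc]; group

theorem g4 (hc : ∀ a b : G, a * b = b * a) (r x i : G) : (r⁻¹ * x * i⁻¹)⁻¹ * x = r * i := by
  rw [mul_assoc, hc x, hc, hc r]; group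

theorem g5 (hc : ∀ a b : G, a * b = b * a) (r x i : G) :
    (r⁻¹ * x)⁻¹ * (x * i⁻¹) = r * i * (i ^ 2)⁻¹ := by
  rw [← mul_assoc, g3 hc]; group

theorem g6 (hc : ∀ a b : G, a * b = b * a) (r s x y : G) :
    (r⁻¹ * (s⁻¹ * 1))⁻¹ * (x * y) = r * x * (s * y) := by
  rw [mul_assoc r, ← mul_assoc x, hc x s, ← mul_assoc, ← mul_assoc r, ← mul_assoc r, hc r s]
  group

theorem g7 (r x : G) : (r⁻¹ * 1)⁻¹ * x = r * x := by group

theorem g9 (x : G) : 1 * x = x := one_mul x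

theorem g10 (x : G) : 1⁻¹ * x = x := by group

theorem g8 (r f x : G) : r * x = r * f * (f⁻¹ * x) := by group

end

variable {P : Pre} {c : ℕ} {g h : GQ}

theorem comm {l : ℕ} [Hl l] (a b : RC l c) : a * b = b * a := mul_comm a b

theorem ar_one (hA : IsAr P c) : ar P.l c 1 = 1 := by
  have e := hA.mul 1 P.GK.one_mem 1 P.GK.one_mem
  rw [mul_one] at e
  exact g0 e

theorem ar_pow (hA : IsAr P c) (hg : g ∈ P.GK) (k : ℕ) : ar P.l c (g ^ k) = ar P.l c g ^ k := by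
  induction k with
  | zero => simpa using ar_one hA
  | succ k ih => rw [pow_succ, hA.mul _ (P.GK.pow_mem hg k) _ hg, ih, pow_succ]

/-- the trace of the inverse of the singular modulus over a coset -/
noncomputable def SS {l : ℕ} [Hl l] {c : ℕ} (x : RC l c) : Om := ∑ᶠ b : Od l c, (JO (x * b.1))⁻¹

theorem DD_eq {l : ℕ} [Hl l] (hc : c ≠ 0) (i x : RC l c) : DD i x = SS x + SS (x * i⁻¹) := by
  have := finite_RC (l := l) hc
  exact finsum_add_distrib (Set.toFinite _) (Set.toFinite _)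

theorem SS_od {l : ℕ} [Hl l] {x y : RC l c} (h : x⁻¹ * y ∈ Od l c) : SS x = SS y := by
  unfold SS
  rw [← finsum_comp_equiv (Equiv.mulLeft (⟨_, h⟩ : Od l c))]
  refine finsum_congr fun b => ?_
  simp [← mul_assoc]

theorem act_JO (hA : IsAr P c) (hg : g ∈ P.GK) (x : RC P.l c) :
    g (JO x) = JO ((ar P.l c g)⁻¹ * x) := by
  have e := (hA.act g hg ((ar P.l c g)⁻¹ * x)).2.1
  rwa [mul_inv_cancel_left] at e

theorem act_SS (hA : IsAr P c) (hc : c ≠ 0) (hg : g ∈ P.GK) (x : RC P.l c) :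
    g (SS x) = SS ((ar P.l c g)⁻¹ * x) := by
  have := finite_RC (l := P.l) hc
  have := Fintype.ofFinite (Od P.l c)
  unfold SS
  rw [finsum_eq_sum_of_fintype, finsum_eq_sum_of_fintype, map_sum]
  refine Finset.sum_congr rfl fun b _ => ?_
  rw [map_inv₀, act_JO hA hg, mul_assoc]

theorem act_DD (hA : IsAr P c) (hc : c ≠ 0) (hg : g ∈ P.GK) (i x : RC P.l c) :
    g (DD i x) = DD i ((ar P.l c g)⁻¹ * x) := by
  rw [DD_eq hc, DD_eq hc, map_add, act_SS hA hc hg, act_SS hA hc hg, mul_assoc]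

theorem DD_od {l : ℕ} [Hl l] (hc : c ≠ 0) (i : RC l c) {x y : RC l c} (h : x⁻¹ * y ∈ Od l c) :
    DD i x = DD i y := by
  rw [DD_eq hc, DD_eq hc, SS_od h, SS_od (x := x * i⁻¹) (y := y * i⁻¹)]
  rwa [g1 comm]

theorem lg_one (hL : LG) : lg 1 = 0 := by
  have e := hL.1.mul 1 1
  rw [mul_one] at e
  exact left_eq_add.1 e

theorem lg_neg (hL : LG) (u : ℤ_[2]ˣ) : lg (-u) = lg u := by
  have e := hL.1.mul (-1) (-1)
  rw [neg_mul_neg, mul_one, lg_one hL, ← two_mul] at e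
  have e2 : lg (-1) = 0 := (mul_eq_zero.1 e.symm).resolve_left two_ne_zero
  have e3 := hL.1.mul (-1) u
  rwa [neg_one_mul, e2, zero_add] at e3

theorem four (hL : LG) (u : ℤ_[2]ˣ) : 4 ∣ (u : ℤ_[2]) - 1 ∨ 4 ∣ (u : ℤ_[2]) + 1 := by
  have e := (hL.1.dvd 0 u).1 (by simp)
  norm_num at e
  exact e

theorem IK (hA : CA) (P : Pre) : P.w2.I ≤ P.GK :=
  I_le_GK hA (by have := P.l16; rw [P.hw2]; omega)

theorem cyc_pow (hE : EC) (g : GQ) (k : ℕ) : cyc (g ^ k) = cyc g ^ k := by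
  induction k with
  | zero =>
    have e := hE.2.1 1 1
    rw [mul_one] at e
    simpa using mul_eq_left.1 e.symm
  | succ k ih => rw [pow_succ, hE.2.1, ih, pow_succ]

/-- the square of the Artin symbol of the involution has odd order -/
theorem sq_od (hA : CA) {a : GQ → ℤ_[2]} {M : ℕ} {ι : GQ} (hR : IsAr P (2 ^ (M + 2)))
    (han : Anti P a) (hpw : Pw P a) (hι : ι ∈ P.w2.I) (hc : cyc ι = -1) :
    ar P.l (2 ^ (M + 2)) ι ^ 2 ∈ Od P.l (2 ^ (M + 2)) := by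
  have hK := IK hA P hι
  obtain ⟨u, hu⟩ := han.two
  have e : cyc (ι ^ 2) = 1 := by rw [cyc_pow hA.ec, hc]; simp
  rw [← ar_pow hR hK, hpw M _ (P.GK.pow_mem hK 2), hu _ (P.w2.I.pow_mem hι 2), e, lg_one hA.lg]
  simp

theorem unit_of_near {w : Pl} {x y : Om} (hx : w.v x = 1) (h : w.v (x - y) < 1) : w.v y = 1 := by
  have e : y = x - (x - y) := by ring
  rw [e, w.v.map_sub_eq_of_lt_left (hx ▸ h), hx]

theorem v_root {w : Pl} {ζ : Om} {k : ℕ} (hk : k ≠ 0) (h : IsPrimitiveRoot ζ k) : w.v ζ = 1 := by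
  have e := congrArg w.v h.pow_eq_one
  rw [map_pow, map_one] at e
  exact (pow_eq_one_iff_of_nonneg zero_le hk).1 e

/-- one term of the trace -/
theorem term {w : Pl} {σ : GQ} {j C g G ζ π : Om} (hσ : σ ∈ w.D) (h2 : w.v 2 < w.v π)
    (hπ : w.v π < 1) (h256 : w.v 256 ≤ w.v 2) (hC : w.v C = 1) (hj : w.v (C - j) ≤ w.v 256)
    (hg : w.v g = 1) (hG : w.v (g - G) ≤ w.v 256) (hζ : w.v ζ = 1) (hσG : σ G = G)
    (hσζ : σ ζ = ζ⁻¹) (hρ : w.v (C / g - ζ) < w.v π) (hv : w.v (vp ζ - π) < w.v π) :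
    w.v (j⁻¹ + σ j⁻¹ + π * G⁻¹) < w.v π := by
  have k1 : w.v 256 < w.v π := h256.trans_lt h2
  have hj1 : w.v j = 1 := unit_of_near hC (hj.trans_lt (k1.trans hπ))
  have hG1 : w.v G = 1 := unit_of_near hg (hG.trans_lt (k1.trans hπ))
  have ne : ∀ {x : Om}, w.v x = 1 → x ≠ 0 := fun h e => by simp [e] at h
  have j0 := ne hj1
  have G0 := ne hG1
  have g0 := ne hg
  have z0 := ne hζ
  have a1 : w.v (j⁻¹ - ζ⁻¹ * G⁻¹) < w.v π := by
    have e : j⁻¹ - ζ⁻¹ * G⁻¹ =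
        ((C - j) - (C / g - ζ) * g - ζ * (g - G)) * (j⁻¹ * ζ⁻¹ * G⁻¹) := by
      field_simp
      ring
    rw [e, map_mul, map_mul, map_mul, map_inv₀, map_inv₀, map_inv₀, hj1, hζ, hG1]
    simp only [inv_one, mul_one]
    refine w.v.map_sub_lt (w.v.map_sub_lt (hj.trans_lt k1) ?_) ?_
    · rwa [map_mul, hg, mul_one]
    · rw [map_mul, hζ, one_mul]; exact hG.trans_lt k1
  have a2 : w.v (σ j⁻¹ - ζ * G⁻¹) < w.v π := by
    rw [← Pl.mem_D.1 hσ, map_sub, map_mul, map_inv₀ σ ζ, map_inv₀ σ G, hσG, hσζ, inv_inv] at a1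
    exact a1
  have e : j⁻¹ + σ j⁻¹ + π * G⁻¹ =
      (j⁻¹ - ζ⁻¹ * G⁻¹) + (σ j⁻¹ - ζ * G⁻¹) + (2 - (vp ζ - π)) * G⁻¹ := by
    unfold vp; ring
  rw [e]
  refine w.v.map_add_lt (w.v.map_add_lt a1 a2) ?_
  rw [map_mul, map_inv₀, hG1, inv_one, mul_one]
  exact w.v.map_sub_lt h2 hv

theorem v_two {w : Pl} (h : w.p = 2) : w.v 2 < 1 := by
  have e := BasicP.p_lt w
  rwa [h, Nat.cast_ofNat] at e

theorem v_256 {w : Pl} (h : w.p = 2) : w.v 256 ≤ w.v 2 := by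
  rw [show (256 : Om) = 2 ^ 8 by norm_num, map_pow]
  exact pow_le_of_le_one zero_le (v_two h).le (by norm_num)

end TJD

open TJD in
theorem t_JD (hE : CE) (hARX : ARX) (hJG1 : JG1) (hJC : JC) (hJR : JR) (hJLF : JLF) : JD := by
  intro P a M ζ ι han hpw hM hζ hι hc
  have hA : CA := hE.toCF.toCB.toCA
  have hR := hARX P _ (cd_two_pow (M + 2))
  have hR1 : IsAr P 1 := hARX P 1 (cd_two_pow 0)
  have hc0 : 2 ^ (M + 2) ≠ 0 := by positivity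
  have hK := IK hA P hι
  obtain ⟨-, l2, l3, l4, -⟩ := hJLF P.w2 M ζ P.hw2 hζ
  have lp : 0 < P.w2.v (vp ζ) := P.w2.v.pos_iff.2 l3.2.1
  have h2 : P.w2.v 2 < P.w2.v (vp ζ) := by
    rw [← l2]
    refine pow_lt_self_of_lt_one₀ lp l3.2.2.1 ?_
    exact Nat.one_lt_two_pow (by omega)
  have ho : Odd (orderOf (ar P.l 1 ι)) := mem_Od.1 (by rw [od_one]; trivial)
  obtain ⟨k, hk⟩ := ho
  obtain ⟨σ, hσ⟩ : ∃ σ, σ = ι ^ (2 * k + 1) := ⟨_, rfl⟩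
  have σI : σ ∈ P.w2.I := hσ ▸ P.w2.I.pow_mem hι _
  have σK : σ ∈ P.GK := IK hA P σI
  have σc : cyc σ = -1 := by rw [hσ, cyc_pow hA.ec, hc, pow_succ, pow_mul]; simp
  have σ1 : ar P.l 1 σ = 1 := by rw [hσ, ar_pow hR1 hK, ← hk, pow_orderOf_eq_one]
  have i2 := sq_od hA hR han hpw hι hc
  have σ2 := ar_pow hR hK (2 * k + 1)
  rw [← hσ] at σ2
  generalize ar P.l (2 ^ (M + 2)) ι = i at i2 σ2 ⊢
  have e1 : DD i 1 = SS (1 : RC P.l (2 ^ (M + 2))) + σ (SS (1 : RC P.l (2 ^ (M + 2)))) := by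
    rw [DD_eq hc0, act_SS hR hc0 σK]
    refine congrArg _ (SS_od ?_)
    rw [σ2, g2]
    exact (Od _ _).inv_mem ((Od _ _).pow_mem i2 k)
  have := finite_RC (l := P.l) hc0
  have := Fintype.ofFinite (Od P.l (2 ^ (M + 2)))
  have j1 := hJG1 P
  have j2 := hJC P
  have pa : Ad 1 (pw P.l P.w2) := ad_one.2 (pw_prime P P.w2).2.1
  have w2 := P.hw2
  generalize pw P.l P.w2 = p at j1 j2 pa
  generalize P.w2 = w at j1 j2 h2 l3 l4 lp σI w2 ⊢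
  let G : Od P.l (2 ^ (M + 2)) → Om := fun b => JO (cl 1 (p * (p ^ (M + 1) * rp b.1)))
  have hG : ∑ b, (G b)⁻¹ = ∑ᶠ x : RC P.l 1, (JO x)⁻¹ := by
    have hb := (Group.mulLeft_bijective (cl 1 (p * p ^ (M + 1)))).comp (pr_bij (l := P.l) (M + 2))
    rw [← finsum_eq_sum_of_fintype, ← finsum_comp_equiv (Equiv.ofBijective _ hb)]
    refine finsum_congr fun b => ?_
    obtain ⟨r1, r2⟩ := rp_spec b.1
    have r3 : Ad 1 (rp b.1) := r1.mono (one_dvd _)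
    simp only [G, Equiv.ofBijective_apply, Function.comp]
    rw [← mul_assoc, cl_mul (pa.mul (pa.pow _)) r3, ← pr_cl (one_dvd _) r1, r2]
  have hS : w.v (∑ b, (G b)⁻¹) = 1 := by
    rw [hG]
    refine unit_of_near (x := 1) (map_one _) ?_
    rw [Valuation.map_sub_swap]
    exact j1.2.trans_lt (v_two w2)
  have hT : ∀ b : Od P.l (2 ^ (M + 2)),
      w.v ((JO b.1)⁻¹ + σ (JO b.1)⁻¹ + vp ζ * (G b)⁻¹) < w.v (vp ζ) := by
    intro b
    obtain ⟨r1, r2⟩ := rp_spec b.1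
    have r3 : Ad 1 (rp b.1) := r1.mono (one_dvd _)
    have r4 : Ad 2 (rp b.1) := r1.mono (dvd_pow_self 2 (by omega))
    obtain ⟨c1, c2, c3, -⟩ := j2 (rp b.1) (M + 1) r4
    obtain ⟨g1, -, g3⟩ := j1.1 (p ^ (M + 1) * rp b.1) (ad_one.1 ((pa.pow _).mul r3))
    obtain ⟨z, z1, z2⟩ := hJR w _ (M + 1) w2 (by omega) c3
    have z3 := l4 z z1
    have z4 : w.v (vp z) = w.v (vp ζ) := by
      have e : vp z = vp ζ + (vp z - vp ζ) := by ring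
      rw [e, w.v.map_add_eq_of_lt_left z3]
    have z0 : z ≠ 0 := z1.ne_zero (by positivity)
    have z5 : σ z = z⁻¹ := by
      have h1 : 1 ≤ 2 ^ (M + 2) := Nat.one_le_two_pow
      rw [hA.ec.2.2.1 σ (M + 2) (2 ^ (M + 2) - 1) z z1.pow_eq_one ?_]
      · rw [pow_sub₀ _ z0 h1, show z ^ 2 ^ (M + 2) = 1 from z1.pow_eq_one, pow_one, one_mul]
      · rw [σc, Nat.cast_sub h1]
        exact ⟨-1, by push_cast; ring⟩
    rw [show cl (2 ^ (M + 1 + 1)) (rp b.1) = b.1 from r2] at c2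
    refine term (C := cO (M + 1) (rp b.1)) (ζ := z) σI.1 h2 l3.2.2.1 (v_256 w2) c1 c2 g1 g3
      (v_root (by positivity) z1) ?_ z5 (z4 ▸ z2) z3
    simp only [G]
    rw [act_JO hR1 σK, σ1, g10]
  have e2 : DD i 1 = ∑ b : Od P.l (2 ^ (M + 2)), ((JO b.1)⁻¹ + σ (JO b.1)⁻¹ + vp ζ * (G b)⁻¹) -
      vp ζ * ∑ b, (G b)⁻¹ := by
    rw [e1, SS, finsum_eq_sum_of_fintype, map_sum, Finset.sum_add_distrib, Finset.sum_add_distrib,
      Finset.mul_sum, add_sub_cancel_right]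
    simp only [g9]
  have e3 : w.v (vp ζ * ∑ b, (G b)⁻¹) = w.v (vp ζ) := by rw [map_mul, hS, mul_one]
  rw [e2, w.v.map_sub_eq_of_lt_right, e3]
  rw [e3]
  exact w.v.map_sum_lt lp.ne' fun b _ => hT b

namespace TJD

variable {P : Pre} {a : GQ → ℤ_[2]} {M : ℕ} {ι : GQ}

theorem fix_DD (hA : CA) (hR : IsAr P (2 ^ (M + 2))) (han : Anti P a) (hpw : Pw P a)
    (hι : ι ∈ P.w2.I) (hc : cyc ι = -1) (x : RC P.l (2 ^ (M + 2))) :
    Fix (P.w2.I ⊓ KP M) (DD (ar P.l (2 ^ (M + 2)) ι) x) := by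
  intro g hg
  have hc0 : 2 ^ (M + 2) ≠ 0 := by positivity
  have gK := IK hA P hg.1
  have hK := IK hA P hι
  have i2 := sq_od hA hR han hpw hι hc
  obtain ⟨u, hu⟩ := han.two
  have h1 : 2 ^ M ∣ lg (cyc g) := ((hA.lg.2.2.2.1 M).2.2.2.2.1 g).1 hg.2
  rw [act_DD hR hc0 gK]
  rcases four hA.lg (cyc g) with h4 | h4
  · have ho := (hpw M g gK).2 ⟨by rw [hu g hg.1]; exact h1.mul_left _, h4⟩
    refine DD_od hc0 _ ?_
    rwa [g3 comm]
  · have e0 : cyc (g * ι) = -cyc g := by rw [hA.ec.2.1, hc]; simp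
    have ho := (hpw M (g * ι) (P.GK.mul_mem gK hK)).2 ⟨by
      rw [hu _ (P.w2.I.mul_mem hg.1 hι), e0, lg_neg hA.lg]; exact h1.mul_left _, by
      rw [e0, Units.val_neg, ← dvd_neg, neg_sub, sub_neg_eq_add, add_comm]; exact h4⟩
    rw [hR.mul g gK ι hK] at ho
    rw [DD_eq hc0, DD_eq hc0, add_comm]
    refine congrArg₂ _ (SS_od ?_) (SS_od ?_)
    · rwa [g4 comm]
    · rw [g5 comm]
      exact (Od _ _).mul_mem ho ((Od _ _).inv_mem i2)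

theorem exists_g (hA : CA) (hARL : ARL) (hR : IsAr P (2 ^ (M + 2))) (han : Anti P a)
    (hpw : Pw P a) {e : ℕ} (he : e = 3 ∨ e = 5) : ∃ g ∈ P.w2.I, IsUnit (lg (cyc g)) ∧
      ar P.l (2 ^ (M + 2)) g * cl _ (nI P.l e) ∈ Od P.l (2 ^ (M + 2)) := by
  obtain ⟨n3, n5, -, -, q3, q5⟩ := nI_spec (l := P.l)
  obtain ⟨a3, a5, -⟩ := (cd_two_pow 0).ad (l := P.l)
  obtain ⟨h0, hn, hq, hp, hj, h15⟩ : nI P.l e ≠ ⊥ ∧ nm (nI P.l e) = e ∧ (nI P.l e).IsPrime ∧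
      e.Prime ∧ jacobiSym (-P.l) e = 1 ∧ e ∣ 15 := by
    rcases he with rfl | rfl
    · exact ⟨a3.1, n3, q3, Nat.prime_three, Hl.j3, by norm_num⟩
    · exact ⟨a5.1, n5, q5, Nat.prime_five, Hl.j5, by norm_num⟩
  obtain ⟨w, hw⟩ := exists_pw hA hq h0
  obtain ⟨-, -, -, k, hk⟩ := pw_prime P w
  rw [hw, hn] at hk
  have wp : w.p = e := ((Nat.Prime.pow_eq_iff hp).1 hk.symm).1
  have hl : ¬ e ∣ P.l := fun h => by
    have h1 := (Nat.prime_dvd_prime_iff_eq hp P.lp).1 h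
    have h2 := P.l16
    omega
  have h2 : ¬ e ∣ 2 := fun h => by have := Nat.le_of_dvd two_pos h; omega
  obtain ⟨f, φ, -, φD, φF, hf, -⟩ := hA.frob w w.D w.loc_D
  rw [hf rfl] at φF
  have φK : φ ∈ P.GK := (D_le_iff hA (P := P) (w := w) (by
    rw [wp, hp.dvd_mul]; tauto)).1.2 (wp ▸ hj) φD
  have o1 := (hARL P (2 ^ (M + 2)) w (cd_two_pow _)).2.1 (by
    rw [wp, hp.dvd_mul, hp.dvd_mul]
    rintro ((h | h) | h)
    exacts [h2 h, h2 (hp.dvd_of_dvd_pow h), hl h]) φ φK φF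
  rw [hw] at o1
  have u1 := han.odd w φ (wp ▸ h15) φF
  obtain ⟨u, hu⟩ := han.two
  obtain ⟨s, s1, s2⟩ := hA.lg.2.2.1 (-(u⁻¹ : ℤ_[2]ˣ) * a φ)
  have s3 : 4 ∣ (s : ℤ_[2]) - 1 := by
    by_contra h
    simp [ep, h] at s2
  obtain ⟨t, t1, t2⟩ : ∃ t : ℤ_[2]ˣ, lg t = lg s ∧ 4 ∣ ((t * cyc φ : ℤ_[2]ˣ) : ℤ_[2]) - 1 := by
    obtain ⟨y, hy⟩ := s3
    rcases four hA.lg (cyc φ) with ⟨x, hx⟩ | ⟨x, hx⟩
    · refine ⟨s, rfl, y * cyc φ + x, ?_⟩
      rw [Units.val_mul]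
      linear_combination (cyc φ : ℤ_[2]) * hy + hx
    · refine ⟨-s, lg_neg hA.lg s, -y * cyc φ - x, ?_⟩
      rw [Units.val_mul, Units.val_neg]
      linear_combination -(cyc φ : ℤ_[2]) * hy - hx
  obtain ⟨g, gI, gc⟩ := hA.ec2 P.w2 P.hw2 t
  have gK := IK hA P gI
  refine ⟨g, gI, ?_, ?_⟩
  · rw [gc, t1, s1]
    exact (u⁻¹.isUnit.neg).mul u1
  · have o2 := (hpw M (g * φ) (P.GK.mul_mem gK φK)).2 ⟨by
      rw [han.add g gK φ φK, hu g gI, gc, t1, s1, ← mul_assoc, mul_neg, Units.mul_inv]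
      simp, by rw [hA.ec.2.1, gc]; exact t2⟩
    rw [hR.mul g gK φ φK] at o2
    rw [g8 _ (ar P.l (2 ^ (M + 2)) φ)]
    exact (Od _ _).mul_mem o2 o1

end TJD

open TJD in
theorem t_JS (hE : CE) (hARX : ARX) (hARL : ARL) (hJLF : JLF) (hJD : JD) : JS := by
  intro P a M ζ ι han hpw hM hζ hι hc i hi
  have hA : CA := hE.toCF.toCB.toCA
  have hR := hARX P _ (cd_two_pow (M + 2))
  have hc0 : 2 ^ (M + 2) ≠ 0 := by positivity
  have d1 := hJD P a M ζ ι han hpw (by omega) hζ hι hc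
  have hF := fix_DD hA hR han hpw hι hc
  rw [← hi] at d1 hF
  obtain ⟨-, l2, l3, -, l5⟩ := hJLF P.w2 M ζ P.hw2 hζ
  obtain ⟨g, gI, gu, go⟩ := exists_g hA hARL hR han hpw (e := 3) (Or.inl rfl)
  obtain ⟨h, hI, hu, ho⟩ := exists_g hA hARL hR han hpw (e := 5) (Or.inr rfl)
  have gK := IK hA P gI
  have hK := IK hA P hI
  have e3 : g (DD i 1) = DD i (cl _ (nI P.l 3)) := by
    rw [act_DD hR hc0 gK]
    exact DD_od hc0 _ (by rwa [g7])
  have e5 : h (DD i 1) = DD i (cl _ (nI P.l 5)) := by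
    rw [act_DD hR hc0 hK]
    exact DD_od hc0 _ (by rwa [g7])
  have e15 : g (h (DD i 1)) = DD i (cl _ (nI P.l 15)) := by
    obtain ⟨a3, a5, -⟩ := (cd_two_pow (M + 2)).ad (l := P.l)
    rw [act_DD hR hc0 hK, act_DD hR hc0 gK, (nI_spec (l := P.l)).2.2.2.1, cl_mul a3 a5]
    refine DD_od hc0 _ ?_
    rw [g6 comm]
    exact (Od _ _).mul_mem go ho
  have f1 := hF 1
  have f5 := hF (cl _ (nI P.l 5))
  rw [← e5] at f5
  rw [← e3, ← e5, ← e15]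
  generalize DD i 1 = D at d1 f1 f5 ⊢
  have lp : 0 < P.w2.v (vp ζ) := P.w2.v.pos_iff.2 l3.2.1
  have v1 := l5 (by omega) h hI hu D 1 f1 odd_one (by rw [d1, pow_one])
  have v2 := l5 (by omega) g gI gu (h D - D) 3
    (fun s hs => by rw [map_sub, f1 s hs, f5 s hs]) (by decide) v1
  have e : D + g D + h D + g (h D) = (g (h D - D) - (h D - D)) + 2 * (g D + h D) := by
    rw [map_sub]; ring
  rw [e, P.w2.v.map_add_eq_of_lt_left, v2]
  rw [v2, map_mul, ← l2]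
  have b1 : P.w2.v (g D + h D) ≤ 1 := by
    refine P.w2.v.map_add_le ?_ ?_
    · rw [Pl.mem_D.1 gI.1, d1]; exact l3.2.2.1.le
    · rw [Pl.mem_D.1 hI.1, d1]; exact l3.2.2.1.le
  refine (mul_le_of_le_one_right zero_le b1).trans_lt (pow_lt_pow_right_of_lt_one₀ lp l3.2.2.1 ?_)
  calc 3 + 2 < 2 ^ 3 := by norm_num
    _ ≤ 2 ^ M := Nat.pow_le_pow_right two_pos hM

end Pool.Agent.P.MP_8b7eba_nt.R2
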