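import Pool.Agent.P.MP_8b7eba_nt.R2.TJFA
import Pool.Agent.P.MP_8b7eba_nt.R1.Lat
import Pool.Agent.P.MP_8b7eba_nt.R1.Unif

/-! Proof of JF, JINJ. -/

namespace Pool.Agent.P.MP_8b7eba_nt.R2

open Complex Filter Topology Asymptotics
open scoped UpperHalfPlane MatrixGroups
open _root_.Pool.Agent.P.MP_8b7eba_nt.Mod (M2 mT UH atI qq Pf)
open R1 (Dl lat_pair)

namespace TJF

theorem wp_local {L L' : PeriodPair} (h2 : L.g₂ = L'.g₂) (h3 : L.g₃ = L'.g₃) :
    ∀ᶠ q in 𝓝[≠] (0 : ℂ), L.weierstrassP q = L'.weierstrassP q := by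
  have eb : ∀ L : PeriodPair, (fun q => (1 + q ^ 2 * L.weierstrassPExcept 0 q) / q ^ 2)
      =ᶠ[𝓝[≠] 0] L.weierstrassP := fun L => by
    filter_upwards [self_mem_nhdsWithin] with q hq
    rw [← L.weierstrassPExcept_add 0, add_div, mul_div_cancel_left₀ _ (pow_ne_zero 2 hq)]
    simp [add_comm]
  have an : ∀ L : PeriodPair, AnalyticAt ℂ (fun q => 1 + q ^ 2 * L.weierstrassPExcept 0 q) 0 :=
    fun L => analyticAt_const.add ((analyticAt_id.pow 2).mul (L.analyticAt_weierstrassPExcept 0))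
  have od : ∀ L : PeriodPair, ∀ᶠ q in 𝓝[≠] (0 : ℂ),
      deriv (fun q => (1 + q ^ 2 * L.weierstrassPExcept 0 q) / q ^ 2) q ^ 2 =
      (1 : ℂ) ^ 2 * (4 * ((1 + q ^ 2 * L.weierstrassPExcept 0 q) / q ^ 2) ^ 3 -
        L.g₂ * ((1 + q ^ 2 * L.weierstrassPExcept 0 q) / q ^ 2) - L.g₃) := fun L => by
    filter_upwards [eb L, (eb L).nhdsNE_deriv, self_mem_nhdsWithin,
      mem_nhdsWithin_of_mem_nhds (L.compl_lattice_sdiff_singleton_mem_nhds 0)] with q e1 e2 h h'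
    rw [e2, e1, L.deriv_weierstrassP, L.derivWeierstrassP_sq _ fun hq => h' ⟨hq, h⟩, one_pow,
      one_mul]
  have key := R1.pole_unique (φ := fun _ => 1) (an L) (an L') analyticAt_const (by simp) (by simp)
    rfl (od L) (h2 ▸ h3 ▸ od L')
  filter_upwards [eb L, eb L', mem_nhdsWithin_of_mem_nhds key] with q e1 e2 e3
  rw [← e1, ← e2]
  exact congrArg (· / q ^ 2) e3

theorem lat_le {L L' : PeriodPair} (h2 : L.g₂ = L'.g₂) (h3 : L.g₃ = L'.g₃) {w : ℂ}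
    (hw : w ∈ L.lattice) : w ∈ L'.lattice := by
  by_contra hw'
  have hm : MeromorphicOn (fun z => L.weierstrassP z - L'.weierstrassP z) Set.univ := fun w _ =>
    (L.meromorphic_weierstrassP w).sub (L'.meromorphic_weierstrassP w)
  have h4 : ∀ᶠ u in 𝓝[≠] w, L.weierstrassP u - L'.weierstrassP u = 0 := by
    by_contra h
    exact hm.meromorphicOrderAt_ne_top_of_isPreconnected isPreconnected_univ (Set.mem_univ w)
      (Set.mem_univ 0) (mt meromorphicOrderAt_eq_top_iff.1 h)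
      (meromorphicOrderAt_eq_top_iff.2 ((wp_local h2 h3).mono fun q hq => sub_eq_zero.2 hq))
  exact (R1.unif_lim L (l := 𝓝[≠] w) (F := fun u => u) nhdsWithin_le_nhds
    (fun _ => self_mem_nhdsWithin)
    (((L'.analyticOnNhd_weierstrassP _ hw').continuousAt.tendsto.mono_left
      nhdsWithin_le_nhds).congr' (h4.mono fun u hu => (sub_eq_zero.1 hu).symm))).1 hw

theorem int_inj {z : ℂ} (hz : 0 < z.im) {m n : ℤ} (h : m * z + n = 0) : m = 0 ∧ n = 0 := by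
  by_contra h'
  exact Mod.den_ne (not_and_or.1 h') hz h

theorem of_lat {z z' l : ℂ} (hz : 0 < z.im) (hz' : 0 < z'.im) (hl : l ≠ 0) {a b c d a' b' c' d' : ℤ}
    (h1 : a * z + b = l * z') (h2 : c * z + d = l) (h3 : a' * (l * z') + b' * l = z)
    (h4 : c' * (l * z') + d' * l = 1) : ∃ g : M2, g.det = 1 ∧ z' = g.act z := by
  have e : z' = (M2.mk a b c d).act z := by
    rw [M2.act_eq, M2.j, h1, h2, mul_div_cancel_left₀ _ hl]
  obtain ⟨e1, e2⟩ := int_inj hz (m := a' * a + b' * c - 1) (n := a' * b + b' * d) (by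
    push_cast; linear_combination h3 + a' * h1 + b' * h2)
  obtain ⟨e3, e4⟩ := int_inj hz (m := c' * a + d' * c) (n := c' * b + d' * d - 1) (by
    push_cast; linear_combination h4 + c' * h1 + d' * h2)
  have e5 : (M2.mk a b c d).det * (a' * d' - b' * c') = 1 := by
    simp only [M2.det]
    linear_combination (c' * b + d' * d) * e1 + e4 - (c' * a + d' * c) * e2
  refine ⟨_, Int.eq_one_of_mul_eq_one_right ?_ e5, e⟩
  rw [e, M2.im_act] at hz'
  have := pos_of_mul_pos_left ((div_pos_iff_of_pos_right (normSq_pos.2 (by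
    rw [M2.j, h2]; exact hl))).1 hz') hz.le
  exact_mod_cast this.le

theorem scale {a b a' b' : ℂ} (h : a ^ 3 - b ^ 2 ≠ 0) (h' : a' ^ 3 - b' ^ 2 ≠ 0)
    (e : a ^ 3 * (a' ^ 3 - b' ^ 2) = a' ^ 3 * (a ^ 3 - b ^ 2)) :
    ∃ l : ℂ, l ≠ 0 ∧ a' = l ^ 4 * a ∧ b' = l ^ 6 * b := by
  by_cases ha : a = 0
  · have ha' : a' = 0 := pow_eq_zero_iff three_ne_zero |>.1
      ((mul_eq_zero.1 (by rw [← e, ha]; ring)).resolve_right h)
    have hb : b ≠ 0 := fun hb => h (by rw [ha, hb]; ring)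
    have hb' : b' ≠ 0 := fun hb => h' (by rw [ha', hb]; ring)
    obtain ⟨l, hl⟩ := IsAlgClosed.exists_pow_nat_eq (b' / b) (n := 6) (by norm_num)
    exact ⟨l, fun h0 => div_ne_zero hb' hb (by rw [← hl, h0]; ring), by rw [ha, ha', mul_zero],
      by rw [hl, div_mul_cancel₀ _ hb]⟩
  have ha' : a' ≠ 0 := fun h0 => mul_ne_zero (pow_ne_zero 3 ha) h' (by rw [e, h0]; ring)
  have e' : a ^ 3 * b' ^ 2 = a' ^ 3 * b ^ 2 := by linear_combination -e
  by_cases hb : b = 0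
  · have hb' : b' = 0 := pow_eq_zero_iff two_ne_zero |>.1
      ((mul_eq_zero.1 (by rw [e', hb]; ring)).resolve_left (pow_ne_zero 3 ha))
    obtain ⟨l, hl⟩ := IsAlgClosed.exists_pow_nat_eq (a' / a) (n := 4) (by norm_num)
    exact ⟨l, fun h0 => div_ne_zero ha' ha (by rw [← hl, h0]; ring),
      by rw [hl, div_mul_cancel₀ _ ha], by rw [hb, hb', mul_zero]⟩
  have hb' : b' ≠ 0 := fun h0 =>
    mul_ne_zero (pow_ne_zero 3 ha') (pow_ne_zero 2 hb) (by rw [← e', h0]; ring)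
  obtain ⟨l, hl⟩ := IsAlgClosed.exists_pow_nat_eq (b' * a / (b * a')) (n := 2) two_pos
  refine ⟨l, fun h0 => div_ne_zero (mul_ne_zero hb' ha) (mul_ne_zero hb ha')
    (by rw [← hl, h0]; ring), ?_, ?_⟩
  · rw [show l ^ 4 = (l ^ 2) ^ 2 by ring, hl]
    field_simp
    linear_combination -e'
  · rw [show l ^ 6 = (l ^ 2) ^ 3 by ring, hl]
    field_simp
    linear_combination -e'

open ModularForm UpperHalfPlane in
theorem jf_E : ∃ c : ℂ, ∀ z : ℍ, E₄ z ^ 3 / Dl z - jf z = c := by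
  obtain ⟨A, Φ, cA, rA, hA⟩ := rep_jf
  have dj : DifferentiableOn ℂ jf UH := (differentiableOn_const _).sub
    ((((diff_psi 0).mul (diff_psi 1)).add ((diff_psi 0).mul (diff_psi 2))).add
      ((diff_psi 1).mul (diff_psi 2)))
  have hol : DifferentiableOn ℂ (fun z => E₄ (ofComplex z) ^ 3 / Dl z - jf z) UH :=
    (((UpperHalfPlane.mdifferentiable_iff.1 E₄.holo').pow 3).div R1.diff_Dl
      fun z hz => R1.Dl_ne hz).sub dj
  have inv : ∀ g : M2, g.det = 1 → ∀ z : ℂ, 0 < z.im → E₄ (ofComplex (g.act z)) ^ 3 / Dl (g.act z) -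
      jf (g.act z) = E₄ (ofComplex z) ^ 3 / Dl z - jf z := by
    intro g hg z hz
    let γ : SL(2, ℤ) := ⟨!![g.a, g.b; g.c, g.d], by rw [Matrix.det_fin_two_of]; exact hg⟩
    have e1 : ofComplex (g.act z) = γ • (⟨z, hz⟩ : ℍ) := by
      rw [← ofComplex_apply (γ • (⟨z, hz⟩ : ℍ)), Mod.coe_smul_ofSL]
      rfl
    have hγ : (γ : GL (Fin 2) ℝ) ∈ 𝒮ℒ := ⟨γ, rfl⟩
    have e2 := SlashInvariantForm.slash_action_eqn' E₄ hγ ⟨z, hz⟩
    have e3 : E₄ (ofComplex (g.act z)) = g.j z ^ 4 * E₄ (ofComplex z) := by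
      rw [e1, ofComplex_apply_of_im_pos hz]
      simpa [γ, M2.j] using e2
    have := M2.j_ne (g := g) (by omega) hz
    rw [e3, R1.Dl_act hg hz, jf_act g z hg hz, mul_pow, ← pow_mul, mul_div_mul_left _ _
      (pow_ne_zero _ this)]
  have t1 : Tendsto (fun z : ℂ => E₄ (ofComplex z)) atI (𝓝 1) :=
    (R1.lat_tendsto _ ⟨2, rfl⟩).comp tendsto_comap_im_ofComplex
  have t2 := (((t1.pow 3).div (P_der.continuousAt.tendsto.comp Mod.tendsto_qq)
    (by simp [P_zero])).sub (rA.tendsto.comp Mod.tendsto_qq))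
  have t3 : Tendsto (fun z => (E₄ (ofComplex z) ^ 3 / Dl z - jf z) * qq z) atI (𝓝 0) := by
    rw [cA, P_zero, show (1 : ℂ) ^ 3 / 1 ^ 24 - (1 : ℤ) = 0 by simp] at t2
    refine t2.congr' ?_
    filter_upwards [Mod.ev_im 0] with z hz
    have := Mod.qq_ne z
    simp only [Function.comp, Pi.div_apply, hA z hz, Dl_eq]
    field_simp
  have t4 := Mod.decay_zero (G := fun z => (E₄ (ofComplex z) ^ 3 / Dl z - jf z) * qq z)
    (w := 1) one_pos (fun z hz => by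
      have := inv (mT 1) rfl z hz
      rw [Mod.act_mT, Int.cast_one] at this
      rw [ofReal_one, this, Mod.qq_add, show qq 1 = 1 by simp [qq], mul_one])
    (hol.mul fun z _ => (Mod.hasDerivAt_qq z).differentiableAt.differentiableWithinAt) t3
  have t5 : BoundedAtFilter atI fun z => E₄ (ofComplex z) ^ 3 / Dl z - jf z := by
    obtain ⟨C, hC⟩ := t4.bound
    refine IsBigO.of_bound C (hC.mono fun z hz => ?_)
    rw [norm_mul, Mod.norm_qq, div_one, Real.norm_of_nonneg (Mod.ex_pos 1 z).le] at hz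
    simpa using le_of_mul_le_mul_right hz (Mod.ex_pos 1 z)
  obtain ⟨c, hc⟩ := Mod.const_of_weight_zero hol (fun g hg => inv g hg.1) fun g hg =>
    IsBigO.congr' t5 (by filter_upwards [Mod.ev_im 0] with z hz using (inv g hg z hz).symm) .rfl
  exact ⟨c, fun z => by simpa using hc z z.im_pos⟩

end TJF

theorem t_JF : JF :=
  ⟨TJF.jf_act, fun _ hz => ⟨TJF.sum_eq hz, TJF.prod_eq hz, R1.U8_ne hz⟩, TJF.kf_U8, TJF.kf_jf⟩

open ModularForm in
theorem t_JINJ (_hJF : JF) : JINJ := by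
  intro z z' hz hz' e
  obtain ⟨c, hc⟩ := TJF.jf_E
  have h1 := (hc ⟨z, hz⟩).trans (hc ⟨z', hz'⟩).symm
  have d : ∀ τ : ℍ, Dl τ = (E₄ τ ^ 3 - E₆ τ ^ 2) / 1728 := discriminant_eq_E₄_cube_sub_E₆_sq
  have n : ∀ τ : ℍ, E₄ τ ^ 3 - E₆ τ ^ 2 ≠ 0 := fun τ h => R1.Dl_ne τ.im_pos (by rw [d, h, zero_div])
  rw [d, d, UpperHalfPlane.coe_mk, UpperHalfPlane.coe_mk, e, sub_left_inj, div_div_eq_mul_div,
    div_div_eq_mul_div, div_eq_div_iff (n _) (n _)] at h1
  obtain ⟨l, hl, h4, h6⟩ := TJF.scale (n ⟨z, hz⟩) (n ⟨z', hz'⟩) (by linear_combination h1 / 1728)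
  have g2 : (lat_pair ⟨z, hz⟩ 1 one_ne_zero).g₂ = (lat_pair ⟨z', hz'⟩ l hl).g₂ := by
    rw [PeriodPair.g₂, PeriodPair.g₂, R1.lat_G _ _ _ (k := 4) (by norm_num),
      R1.lat_G _ _ _ (k := 4) (by norm_num), show E _ ⟨z', hz'⟩ = _ from h4]
    field_simp
  have g3 : (lat_pair ⟨z, hz⟩ 1 one_ne_zero).g₃ = (lat_pair ⟨z', hz'⟩ l hl).g₃ := by
    rw [PeriodPair.g₃, PeriodPair.g₃, R1.lat_G _ _ _ (k := 6) (by norm_num),
      R1.lat_G _ _ _ (k := 6) (by norm_num), show E _ ⟨z', hz'⟩ = _ from h6]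
    field_simp
  obtain ⟨a, b, h1⟩ := PeriodPair.mem_lattice.1
    (TJF.lat_le g2.symm g3.symm (PeriodPair.ω₁_mem_lattice _))
  obtain ⟨c, d, h2⟩ := PeriodPair.mem_lattice.1
    (TJF.lat_le g2.symm g3.symm (PeriodPair.ω₂_mem_lattice _))
  obtain ⟨a', b', h3⟩ := PeriodPair.mem_lattice.1 (TJF.lat_le g2 g3 (PeriodPair.ω₁_mem_lattice _))
  obtain ⟨c', d', h4⟩ := PeriodPair.mem_lattice.1 (TJF.lat_le g2 g3 (PeriodPair.ω₂_mem_lattice _))
  simp only [lat_pair, one_mul, mul_one] at h1 h2 h3 h4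
  exact TJF.of_lat hz hz' hl h1 h2 h3 h4

end Pool.Agent.P.MP_8b7eba_nt.R2
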