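import Pool.Agent.P.MP_8b7eba_nt.R2.BasicP

/-! Valuation lemmas for the proof of JG1, JC. -/

namespace Pool.Agent.P.MP_8b7eba_nt.R2

open scoped NNReal

namespace TJG1A

variable {w : Pl} {a b c n t x y J : Om}

theorem co (n : ℕ) [n.AtLeastTwo] : ((ofNat(n) : w.v.integer) : Om) = ofNat(n) := rfl

theorem cg (z : w.v.integer) (h : a = n * z) : w.v a ≤ w.v n := by
  rw [h, map_mul]
  exact mul_le_of_le_one_right' z.2

theorem ex (hn : n ≠ 0) (h : w.v a ≤ w.v n) : ∃ z : w.v.integer, a = n * z := by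
  refine ⟨⟨a / n, ?_⟩, by field_simp⟩
  show w.v (a / n) ≤ 1
  rw [map_div₀]
  exact div_le_one_of_le₀ h zero_le

theorem ne (h : w.v a = 1) : a ≠ 0 := fun e => by simp [e] at h

theorem un (h : w.v a = 1) : ∃ u u' : w.v.integer, a = u ∧ a⁻¹ = u' ∧ u * u' = 1 :=
  ⟨⟨a, h.le⟩, ⟨a⁻¹, show w.v a⁻¹ ≤ 1 by rw [map_inv₀, h, inv_one]⟩, rfl, rfl,
    Subtype.ext (mul_inv_cancel₀ (ne h))⟩

theorem two_lt (h : w.p = 2) : w.v 2 < 1 := by
  rw [Pl.v_two' h]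
  norm_num

theorem small (h : w.p = 2) (hc : 1 ≤ w.v c) : w.v (48 + 4096 / c) < 1 := by
  have hz : w.v c⁻¹ ≤ 1 := by
    rw [map_inv₀]
    exact inv_le_one_of_one_le₀ hc
  refine lt_of_le_of_lt (cg (n := 2) (24 + 2048 * ⟨c⁻¹, hz⟩) ?_) (two_lt h)
  push_cast [co]
  ring

theorem sq_eq (hs : w.v a < 1) (e : y ^ 2 + a * y = c) (hy : 1 ≤ w.v y) : w.v c = w.v y ^ 2 := by
  have h0 : 0 < w.v y := zero_lt_one.trans_le hy
  rw [← e, w.v.map_add_eq_of_lt_left, map_pow]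
  rw [map_pow, map_mul, sq]
  exact mul_lt_mul_of_pos_right (hs.trans_le hy) h0

theorem lt_one (hs : w.v a < 1) (e : y ^ 2 + a * y = c) (hy : w.v y < 1) : w.v c < 1 := by
  rw [← e]
  refine w.v.map_add_lt ?_ ?_
  · rw [map_pow]
    exact pow_lt_one₀ zero_le hy two_ne_zero
  · rw [map_mul]
    exact mul_lt_one_of_nonneg_of_lt_one_left zero_le hs hy.le

theorem unit_step (h : w.p = 2) (hc : w.v c = 1) (e : y ^ 2 + (48 + 4096 / c) * y = c) :
    w.v y = 1 := by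
  have hs := small h hc.ge
  rcases lt_or_ge (w.v y) 1 with hy | hy
  · exact absurd hc (lt_one hs e hy).ne
  · exact (pow_eq_one_iff_of_nonneg zero_le two_ne_zero).1 ((sq_eq hs e hy).symm.trans hc)

theorem big_step (h : w.p = 2) (hc : 1 < w.v c) (e : y ^ 2 + (48 + 4096 / c) * y = c) :
    1 < w.v y ∧ w.v y < w.v c := by
  have hs := small h hc.le
  rcases lt_or_ge (w.v y) 1 with hy | hy
  · exact absurd (lt_one hs e hy) hc.not_gt
  · have h2 := sq_eq hs e hy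
    have h3 : 1 < w.v y := by
      refine lt_of_le_of_ne hy fun h4 => ?_
      rw [← h4, one_pow] at h2
      exact hc.ne' h2
    refine ⟨h3, ?_⟩
    rw [h2, sq]
    exact lt_mul_of_one_lt_right (zero_lt_one.trans h3) h3

theorem all_unit {ι : Type} [Fintype ι] (h : w.p = 2) (e : ι → ι) (G : ι → Om)
    (h1 : ∀ i, G (e i) ^ 2 + (48 + 4096 / G i) * G (e i) = G i) (h2 : w.v (∏ i, G i) = 1) (i : ι) :
    w.v (G i) = 1 := by
  have h3 : ∀ i, w.v (G i) ≤ 1 := fun i => by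
    by_contra hi
    obtain ⟨j, hj, hm⟩ := Set.exists_min_image {j | 1 < w.v (G j)} (fun j => w.v (G j))
      (Set.toFinite _) ⟨i, not_le.1 hi⟩
    have := big_step h hj (h1 j)
    exact this.2.not_ge (hm _ this.1)
  rw [map_prod] at h2
  exact (Finset.prod_eq_one_iff_of_le_one' fun i _ => h3 i).1 h2 i (Finset.mem_univ i)

theorem near_J (ht : w.v t = 1) (e : (t + 256) ^ 3 = J * t ^ 2) : w.v (t - J) ≤ w.v 256 := by
  obtain ⟨u, u', -, h2, -⟩ := un ht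
  refine cg (-(3 + 768 * u' + 65536 * u' ^ 2)) ?_
  have h0 := ne ht
  push_cast [co]
  rw [← h2]
  field_simp
  linear_combination e

theorem prod_one {R ι : Type} [CommRing R] (s : Finset ι) (y : ι → R) :
    32 ∣ ∏ i ∈ s, (1 + 16 * y i) - (1 + 16 * ∑ i ∈ s, y i) := by
  classical
  induction s using Finset.induction_on with
  | empty => simp
  | insert i s hi ih =>
    obtain ⟨k, hk⟩ := ih
    rw [Finset.prod_insert hi, Finset.sum_insert hi]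
    exact ⟨k * (1 + 16 * y i) + 8 * y i * ∑ i ∈ s, y i, by linear_combination (1 + 16 * y i) * hk⟩

theorem sum_odd {R ι : Type} [CommRing R] [Fintype ι] (e : ι ≃ ι) (u u' : ι → R)
    (h1 : ∀ i, u i * u' i = 1) (h2 : ∀ i, u (e i) ^ 2 + (48 + 4096 * u' i) * u (e i) = u i)
    (h3 : 32 ∣ ∏ i, u i - 17) : 32 ∣ 16 * (∑ i, u' i - 1) := by
  obtain ⟨k, hk⟩ := h3
  obtain ⟨m, hm⟩ := prod_one Finset.univ fun i => 3 * u' (e i) + 256 * (u' i * u' (e i))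
  have h4 : ∀ i, 1 + 16 * (3 * u' (e i) + 256 * (u' i * u' (e i))) = u i * u' (e i) ^ 2 := fun i => by
    linear_combination u' (e i) ^ 2 * h2 i -
      (1 + u (e i) * u' (e i) + (48 + 4096 * u' i) * u' (e i)) * h1 (e i)
  have h5 : (∏ i, u i) * ∏ i, u' i = 1 := by
    rw [← Finset.prod_mul_distrib]
    exact Finset.prod_eq_one fun i _ => h1 i
  simp only [h4] at hm
  rw [Finset.prod_mul_distrib, Finset.prod_pow, e.prod_comp u', Finset.sum_add_distrib,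
    ← Finset.mul_sum, ← Finset.mul_sum, e.sum_comp u'] at hm
  refine ⟨-(∏ i, u' i) * (9 + 17 * k) - m - 128 * ∑ i, u' i * u' (e i) - ∑ i, u' i, ?_⟩
  linear_combination -hm + (∏ i, u' i + 17) * h5 - 17 * (∏ i, u' i) * hk

theorem sum_v {ι : Type} [Fintype ι] (e : ι ≃ ι) (G K : ι → Om) (h0 : ∀ i, w.v (G i) = 1)
    (h1 : ∀ i, G (e i) ^ 2 + (48 + 4096 / G i) * G (e i) = G i)
    (h2 : ∀ i, w.v (G i - K (e i)) ≤ w.v 256) (h : w.p = 2) (h3 : w.v (∏ i, G i - 17) ≤ w.v 32) :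
    w.v (∑ i, (K i)⁻¹ - 1) ≤ w.v 2 := by
  choose u u' hu hu' e1 using fun i => un (h0 i)
  obtain ⟨k, hk⟩ := ex (by norm_num) h3
  obtain ⟨m, hm⟩ := sum_odd e u u' e1 (fun i => Subtype.ext (by
    push_cast [co]
    rw [← hu, ← hu, ← hu', ← div_eq_mul_inv]
    exact h1 i)) ⟨k, Subtype.ext (by
      push_cast [co]
      simp only [← hu]
      exact hk)⟩
  have hm' := congrArg Subtype.val hm
  push_cast [co] at hm'
  simp only [← hu'] at hm'
  have h4 : ∀ i, w.v ((K (e i))⁻¹ - (G i)⁻¹) ≤ w.v 2 := fun i => by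
    have h5 : w.v 256 ≤ w.v 2 := cg (128 : w.v.integer) (by push_cast [co]; norm_num)
    have h6 : w.v (K (e i)) = 1 := by
      rw [← h0 i, ← sub_sub_cancel (G i) (K (e i))]
      exact w.v.map_sub_eq_of_lt_left (by rw [h0 i]; exact ((h2 i).trans h5).trans_lt (two_lt h))
    rw [inv_sub_inv (ne h6) (ne (h0 i)), map_div₀, map_mul, h6, h0, one_mul, div_one]
    exact (h2 i).trans h5
  rw [← e.sum_comp, show ∑ i, (K (e i))⁻¹ - 1 = ∑ i, ((K (e i))⁻¹ - (G i)⁻¹) + (∑ i, (G i)⁻¹ - 1) by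
    rw [Finset.sum_sub_distrib]; ring]
  refine w.v.map_add_le (w.v.map_sum_le fun i _ => h4 i) (cg m ?_)
  linear_combination hm' / 16

theorem pow_twelve {m : ℕ} (h : w.v (b - m) ≤ w.v 8) (hm : m % 8 = 3 ∨ m % 8 = 5) :
    w.v (b ^ 12 - 17) ≤ w.v 32 := by
  obtain ⟨z, hz⟩ := ex (by norm_num) h
  obtain ⟨s, hs⟩ : ∃ s : w.v.integer, b ^ 2 = 9 + 16 * s := by
    have h1 : (m : Om) = 8 * (m / 8 : ℕ) + (m % 8 : ℕ) := by exact_mod_cast (Nat.div_add_mod m 8).symm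
    obtain ⟨y, hy⟩ : ∃ y : w.v.integer, b = (m % 8 : ℕ) + 8 * y :=
      ⟨z + (m / 8 : ℕ), by push_cast [co, Subring.coe_natCast]; linear_combination hz + h1⟩
    rcases hm with e | e <;> rw [e] at hy
    · exact ⟨3 * y + 4 * y ^ 2, by rw [hy]; push_cast [co]; ring⟩
    · exact ⟨1 + 5 * y + 4 * y ^ 2, by rw [hy]; push_cast [co]; ring⟩
  obtain ⟨r, hr⟩ : ∃ r : w.v.integer, b ^ 4 = 17 + 32 * r :=
    ⟨2 + 9 * s + 8 * s ^ 2, by push_cast [co]; linear_combination (b ^ 2 + 9 + 16 * s) * hs⟩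
  refine cg (153 + 867 * r + 1632 * r ^ 2 + 1024 * r ^ 3) ?_
  rw [show b ^ 12 = (b ^ 4) ^ 3 by ring, hr]
  push_cast [co]
  ring

theorem rho_zero (ha : w.v a = 1) (hb : w.v b = 1) (e : a + 4096 / b + c = -48) :
    w.v ((c / a) ^ 2 ^ 0 + 1) ≤ w.v 16 := by
  obtain ⟨-, u', -, h2, -⟩ := un ha
  obtain ⟨-, t', -, h3, -⟩ := un hb
  refine cg (-(3 + 256 * t') * u') ?_
  have := ne ha
  push_cast [co]
  rw [← h2, ← h3, pow_one, show c = -48 - a - 4096 / b by linear_combination e]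
  field_simp
  ring

theorem rho_succ {k : ℕ} (ha : w.v a = 1) (hc : w.v c = 1) (hx : w.v x = 1) (hy : w.v y = 1)
    (e : x ^ 2 + (48 + 4096 / a) * x = a) (e' : y ^ 2 + (48 + 4096 / c) * y = c)
    (h : w.v ((c / a) ^ 2 ^ k + 1) ≤ w.v 16) : w.v ((y / x) ^ 2 ^ (k + 1) + 1) ≤ w.v 16 := by
  have h1 : w.v ((y / x) ^ 2 - c / a) ≤ w.v 16 := by
    obtain ⟨a1, a2, ea, ea', -⟩ := un ha
    obtain ⟨c1, c2, ec, ec', -⟩ := un hc
    obtain ⟨x1, x2, ex, ex', -⟩ := un hx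
    obtain ⟨y1, y2, ey, ey', -⟩ := un hy
    refine cg ((c1 * (3 + 256 * a2) * x1 - a1 * (3 + 256 * c2) * y1) * x2 ^ 2 * a2) ?_
    have := ne ha
    have := ne hx
    push_cast [co]
    rw [← ea, ← ea', ← ec, ← ec', ← ex, ← ex', ← ey]
    rw [div_eq_mul_inv] at e e'
    linear_combination (x⁻¹ ^ 2) * e' - (c * a⁻¹ * x⁻¹ ^ 2) * e -
      (c * x⁻¹ ^ 2 - 16 * (3 + 256 * c⁻¹) * y * x⁻¹ ^ 2) * mul_inv_cancel₀ (ne ha) +
      c * a⁻¹ * (x * x⁻¹ + 1) * mul_inv_cancel₀ (ne hx)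
  rw [pow_succ', pow_mul, ← sub_add_cancel (((y / x) ^ 2) ^ 2 ^ k) ((c / a) ^ 2 ^ k), add_assoc]
  refine w.v.map_add_le (le_trans (Pl.v_pow_sub ?_ ?_ _) h1) h
  · rw [map_pow, map_div₀, hx, hy, div_one, one_pow]
  · rw [map_div₀, ha, hc, div_one]

theorem r_near {r : Om} (hb : w.v b = 1) (hc : w.v c = 1) (e : c + 4096 / b + r * c = -48) :
    w.v (r + 1 + 48 / c) ≤ w.v 4096 := by
  obtain ⟨-, u', -, h2, -⟩ := un hb
  obtain ⟨-, t', -, h3, -⟩ := un hc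
  refine cg (-(u' * t')) ?_
  push_cast [co]
  rw [← h2, ← h3]
  linear_combination c⁻¹ * e - (1 + r) * mul_inv_cancel₀ (ne hc)

theorem not_sq {h : ℕ} (ho : Odd h) (N : ℤ) : N ^ 2 ≠ 2 ^ h := fun e => by
  have h1 : N.natAbs ^ 2 = 2 ^ h := by
    have := congrArg Int.natAbs e
    simpa [Int.natAbs_pow] using this
  obtain ⟨j, -, hj⟩ := (Nat.dvd_prime_pow Nat.prime_two).1 (h1 ▸ dvd_pow_self N.natAbs two_ne_zero)
  rw [hj, ← pow_mul] at h1
  have := Nat.pow_right_injective le_rfl h1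
  obtain ⟨k, hk⟩ := ho
  omega

end TJG1A

end Pool.Agent.P.MP_8b7eba_nt.R2
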