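import Pool.Agent.P.MP_8b7eba_nt.R2.CMA
import Pool.Agent.P.MP_8b7eba_nt.R2.PWA
import Pool.Agent.P.MP_8b7eba_nt.R2.TJG1A

/-! Proof of JG1, JC. -/

namespace Pool.Agent.P.MP_8b7eba_nt.R2

open scoped NNReal
open MP_9c97e9_nt (pm Is ap)
open BSD15 (OO Good nm cj)
open _root_.Pool.Agent.P.MP_8b7eba_nt.Mod (M2 G0 xx al)
open R1 (emb Dl psi Pz KF U8 IntPt y1)

namespace TJG1

open TJG1A Polynomial

variable {L M : Lt} {x y : Om} {P : Pre} {I J : Ideal (OO P.l)}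

theorem alg {t : ℂ} (h : (t + 16) ^ 3 = io x * t) : io (ii t) = t := by
  have h0 : ((X + C 16) ^ 3 - C x * X : Om[X]) ≠ 0 := fun e => by
    have := congrArg (eval 0) e
    norm_num at this
  obtain ⟨r, rfl⟩ := (IsAlgClosed.splits _).mem_range_of_isRoot h0 (i := io) (x := t) (by
    simp [IsRoot, map_ofNat, h])
  rw [ii_io]

theorem quot (hJ : JF) (h : IsL L) (h1 : M ≤ L) (h2 : M.relIndex L = 2) (hx : io x = JL L) :
    io (ii (2 ^ 12 * DL M / DL L)) = 2 ^ 12 * DL M / DL L :=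
  alg (hx ▸ (h.cubic hJ h1 h2 rfl).2.1)

theorem quot' (hJ : JF) (h : IsL L) (h1 : M ≤ L) (h2 : M.relIndex L = 2) (hx : io x = JL L)
    (hy : io y = JL M) :
    (ii (2 ^ 12 * DL M / DL L) + 256) ^ 3 = y * ii (2 ^ 12 * DL M / DL L) ^ 2 :=
  io.injective (by
    simp only [map_pow, map_add, map_mul, map_ofNat, quot hJ h h1 h2 hx, hy]
    exact (h.cubic hJ h1 h2 rfl).2.2)

theorem split (hE : CE) (P : Pre) : P.w2.D ≤ P.GK ∧ nm (pw P.l P.w2) = 2 ∧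
    pw P.l P.w2 ≠ cj (pw P.l P.w2) ∧ pw P.l P.w2 * cj (pw P.l P.w2) = Ideal.span {2} := by
  have h := (hE.karith P).2.2.2.1 P.w2 ⟨15 * P.d, by rw [P.hw2]; push_cast; ring⟩
  have h' := pw_split hE.toCA h
  rw [P.hw2] at h'
  exact ⟨h, h'⟩

theorem ad_p (P : Pre) : Ad 1 (pw P.l P.w2) := ad_one.2 (pw_prime P P.w2).2.1

theorem cd1 : Cd 1 := ⟨one_ne_zero, by norm_num⟩

theorem sub1 (h : Ad 1 I) (h' : Ad 1 J) (e : nm J = 2) :
    Lc 1 (J * I) ≤ Lc 1 I ∧ (Lc 1 (J * I)).relIndex (Lc 1 I) = 2 :=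
  ⟨Lc_mono Ideal.mul_le_right dvd_rfl, by rw [mul_comm, Lc_relIndex one_ne_zero h h', e]⟩

theorem sub2 (n : ℕ) (h : Ad 2 I) :
    Lc (2 ^ (n + 1)) I ≤ Lc (2 ^ n) I ∧ (Lc (2 ^ (n + 1)) I).relIndex (Lc (2 ^ n) I) = 2 :=
  ⟨Lc_mono le_rfl (pow_dvd_pow 2 n.le_succ),
    Lc_relIndex' (c := 2 ^ n) (c' := 2) (by positivity) (ad_two_pow (n := n + 1) h)⟩

theorem io_g (hE : CE) (h : Ad 1 I) :
    io (gO P I) = 2 ^ 12 * DL (Lc 1 (pw P.l P.w2 * I)) / DL (Lc 1 I) ∧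
    (gO P I + 256) ^ 3 = JO (cl 1 (pw P.l P.w2 * I)) * gO P I ^ 2 := by
  have h1 := sub1 h (ad_p P) (split hE P).2.1
  have h2 := isL_Lc one_ne_zero h.1
  have h3 := (JO_cl hE.tau hE.jf cd1 h).1
  exact ⟨quot hE.jf h2 h1.1 h1.2 h3,
    quot' hE.jf h2 h1.1 h1.2 h3 (JO_cl hE.tau hE.jf cd1 ((ad_p P).mul h)).1⟩

theorem io_c (hE : CE) (n : ℕ) (h : Ad 2 I) :
    io (cO n I) = 2 ^ 12 * DL (Lc (2 ^ (n + 1)) I) / DL (Lc (2 ^ n) I) ∧
    (cO n I + 256) ^ 3 = JO (cl (2 ^ (n + 1)) I) * cO n I ^ 2 := by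
  have h1 := sub2 n h
  have h2 := isL_Lc (c := 2 ^ n) (by positivity) h.1
  have h3 := (JO_cl hE.tau hE.jf (cd_two_pow n) (ad_two_pow h)).1
  exact ⟨quot hE.jf h2 h1.1 h1.2 h3,
    quot' hE.jf h2 h1.1 h1.2 h3 (JO_cl hE.tau hE.jf (cd_two_pow _) (ad_two_pow h)).1⟩

theorem g_cl (h : Ad 1 I) (h' : Ad 1 J) (e : cl 1 I = cl 1 J) : gO P I = gO P J := by
  obtain ⟨μ, h0, hμ⟩ := exists_sc h h' e
  have h1 := hμ 1 ⊤ dvd_rfl
  have h2 := hμ 1 (pw P.l P.w2) dvd_rfl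
  rw [Ideal.mul_top, Ideal.mul_top] at h1
  rw [mul_comm J, mul_comm I] at h2
  rw [gO, gO, h1, h2, (isL_Lc one_ne_zero h.1).DL_sc h0,
    (isL_Lc one_ne_zero ((ad_p P).mul h).1).DL_sc h0]
  refine congrArg ii ?_
  have := (isL_Lc one_ne_zero h.1).DL_ne
  field_simp

theorem emb_two (l : ℕ) : emb l 2 = 2 := by
  simp [emb, QuadraticAlgebra.re_ofNat, QuadraticAlgebra.im_ofNat]

theorem oc_two {l : ℕ} [Hl l] : Oc 1 (2 : OO l) := by
  simpa using oc_int (l := l) (c := 1) (n := 2) two_ne_zero (by simp)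

theorem tri0 (hE : CE) (h : Ad 2 I) : gO P I + 4096 / gO P (cj (pw P.l P.w2) * I) + cO 0 I = -48 ∧
    gO P I * (4096 / gO P (cj (pw P.l P.w2) * I)) * cO 0 I = -4096 := by
  obtain ⟨-, hn, hne, hp⟩ := split hE P
  have h1 : Ad 1 I := h.mono (one_dvd _)
  have h2 := (ad_p P).cj
  have h3 := isL_Lc one_ne_zero h1.1
  have h4 : ∀ K, Ad 1 K → Lc 1 (K * I) ≠ Lc 2 I := fun K hK e =>
    absurd (Lc_cond (hK.mul h1) h one_ne_zero (e.trans (sc_one _).symm)) (by norm_num)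
  have h5 := h3.two hE.jf (sub1 h1 (ad_p P) hn) (sub1 h1 h2 ((BSD15.nm_cj _).trans hn)) (sub2 0 h)
    (fun e => hne (mul_right_cancel₀ h1.1 (Lc_inj ((ad_p P).mul h1) (h2.mul h1) e)))
    (h4 _ (ad_p P)) (h4 _ h2)
  have h6 := (io_g hE (h2.mul h1)).1
  rw [← mul_assoc, hp, Lc_span oc_two, emb_two, h3.DL_sc two_ne_zero] at h6
  have h7 : 2 ^ 12 * DL (Lc 1 (cj (pw P.l P.w2) * I)) / DL (Lc 1 I) =
      io (4096 / gO P (cj (pw P.l P.w2) * I)) := by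
    rw [map_div₀, h6, map_ofNat]
    have := h3.DL_ne
    have := (isL_Lc one_ne_zero (h2.mul h1).1).DL_ne
    field_simp
    norm_num
  have h8 := (io_c hE 0 h).1
  rw [pow_zero] at h8
  rw [← (io_g hE h1).1, h7, ← h8] at h5
  exact ⟨io.injective (by simpa only [map_add, map_neg, map_ofNat] using h5.1),
    io.injective (by simpa only [map_mul, map_neg, map_ofNat] using h5.2)⟩

theorem rec_of {a b c : Om} (h1 : a + 4096 / b + c = -48) (h2 : a * (4096 / b) * c = -4096) :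
    a ^ 2 + (48 + 4096 / b) * a = b := by
  have h0 : b ≠ 0 := fun e => by simp [e] at h2
  have h3 : a * c = -b := by
    field_simp at h2
    linear_combination h2
  linear_combination a * h1 - h3

theorem g_rec (hE : CE) (h : Ad 1 I) :
    gO P (pw P.l P.w2 * I) ^ 2 + (48 + 4096 / gO P I) * gO P (pw P.l P.w2 * I) = gO P I := by
  obtain ⟨J, hJ, e⟩ := exists_rep one_ne_zero (cl 1 (pw P.l P.w2 * I)) two_ne_zero
  have h1 : Ad 1 J := hJ.mono (one_dvd _)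
  have h2 := tri0 hE (I := J) hJ
  rw [g_cl h1 ((ad_p P).mul h) e, g_cl ((ad_p P).cj.mul h1) h (by
    rw [cl_mul (ad_p P).cj h1, e, cl_mul (ad_p P) h, cl_cj (ad_p P), inv_mul_cancel_left])] at h2
  exact rec_of h2.1 h2.2

theorem odd_card (l : ℕ) [Hl l] : Odd (Nat.card (RC l 1)) := by
  have := finite_RC (l := l) one_ne_zero
  by_contra h
  have : Fact (Nat.Prime 2) := ⟨Nat.prime_two⟩
  obtain ⟨a, ha⟩ := exists_prime_orderOf_dvd_card' 2 (even_iff_two_dvd.1 (Nat.not_odd_iff_even.1 h))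
  have h1 : a ∈ Od l 1 := by rw [od_one]; trivial
  rw [mem_Od, ha] at h1
  exact absurd h1 (by decide)

theorem not_loc_sq (hE : CE) {β : OO P.l} {h : ℕ} (ho : Odd h) (hβ : β.norm = 2 ^ h) :
    ¬ Sq P.w2.D (eO P.l β) := fun hs => by
  have h0 : β ≠ 0 := fun e => by
    rw [e, QuadraticAlgebra.norm_zero] at hβ
    exact absurd hβ (by positivity)
  obtain ⟨c, hc, e⟩ := (hE.karith P).2.2.2.2.2.2 _ (fix_eO β) ((map_ne_zero_iff _ eO_inj).2 h0)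
    (fun w hw => ⟨1, fix_one, by
      have h1 := congrArg w.v (eO_mul_star β)
      rw [hβ, map_mul] at h1
      push_cast at h1
      rw [map_pow, Pl.v_two hw, one_pow] at h1
      rw [map_one, one_pow]
      exact le_antisymm (v_eO_le β) (h1.ge.trans (mul_le_of_le_one_right' (v_eO_le _)))⟩) hs
  obtain ⟨γ, rfl⟩ := (exists_eO hE.toCA hc).2 (IsIntegral.of_pow two_pos (e ▸ eO_int β))
  rw [← map_pow] at e
  rw [eO_inj e, map_pow] at hβ
  exact not_sq ho _ hβ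

theorem seventeen (hE : CE) {β : OO P.l} {h : ℕ} (ho : Odd h) (hβ : β.norm = 2 ^ h)
    (hv : P.w2.v (eO P.l β) = 1) : P.w2.v (eO P.l β ^ 12 - 17) ≤ P.w2.v 32 := by
  have hf : ∀ γ, Fix P.w2.D (eO P.l γ) := fun γ => (fix_eO γ).mono (split hE P).1
  obtain ⟨m, hm⟩ := (hE.res P.w2 _ P.w2.loc_D).2.2.2.2.2 _ (hf β) hv.le 3
  have h8 : P.w2.v 8 = ((P.w2.p : ℝ≥0) ^ 3)⁻¹ := by
    rw [show (8 : Om) = 2 ^ 3 by norm_num, map_pow, Pl.v_two' P.hw2, P.hw2]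
    norm_num
  rw [← h8] at hm
  have h4 : P.w2.v 8 < P.w2.v 4 := by
    rw [show (8 : Om) = 4 * 2 by norm_num, map_mul]
    exact mul_lt_of_lt_one_right (P.w2.v.pos_iff.2 (by norm_num)) (two_lt P.hw2)
  have hs : ∀ γ : OO P.l, γ.norm = 2 ^ h → ¬ P.w2.v (eO P.l γ - 1) ≤ P.w2.v 8 := fun γ h1 h2 => by
    obtain ⟨y, h3, h5, -⟩ := (hE.hens P.w2 _ le_rfl).1 _ (hf γ) (h2.trans_lt h4)
    exact not_loc_sq hE ho h1 ⟨y, h3, h5⟩
  obtain ⟨z, hz⟩ := ex (by norm_num) hm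
  have h1 : (m : Om) = 8 * (m / 8 : ℕ) + (m % 8 : ℕ) := by exact_mod_cast (Nat.div_add_mod m 8).symm
  refine pow_twelve hm ?_
  by_contra hc
  have h2 : m % 8 = 1 ∨ m % 8 = 7 ∨ m % 2 = 0 := by omega
  rcases h2 with e | e | e
  · refine hs β hβ (cg (z + (m / 8 : ℕ)) ?_)
    rw [e] at h1
    push_cast [Subring.coe_natCast] at h1 ⊢
    linear_combination hz + h1
  · refine hs (-β) (by rw [QuadraticAlgebra.norm_neg, hβ]) (cg (-(z + (m / 8 : ℕ) + 1)) ?_)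
    rw [e] at h1
    rw [map_neg]
    push_cast [Subring.coe_natCast] at h1 ⊢
    linear_combination -hz - h1
  · have h3 : (m : Om) = 2 * (m / 2 : ℕ) := by
      exact_mod_cast (by omega : m = 2 * (m / 2))
    refine absurd hv (lt_of_le_of_lt (cg (n := 2) (4 * z + ((m / 2 : ℕ) : P.w2.v.integer)) ?_) (two_lt P.hw2)).ne
    push_cast [co, Subring.coe_natCast]
    linear_combination hz + h3

theorem main (hE : CE) (P : Pre) : (∀ a : RC P.l 1, P.w2.v (gO P (rp a)) = 1) ∧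
    P.w2.v (∑ᶠ a : RC P.l 1, (JO a)⁻¹ - 1) ≤ P.w2.v 2 := by
  have := finite_RC (l := P.l) one_ne_zero
  have := Fintype.ofFinite (RC P.l 1)
  obtain ⟨-, hn, hne, hp⟩ := split hE P
  obtain ⟨β, hβ, e⟩ := prod_DL one_ne_zero (ad_p P)
  have h1 : ∀ a : RC P.l 1, cl 1 (pw P.l P.w2 * rp a) = cl 1 (pw P.l P.w2) * a := fun a => by
    rw [cl_mul (ad_p P) (rp_spec a).1, (rp_spec a).2]
  have h2 : ∀ a : RC P.l 1, gO P (rp (cl 1 (pw P.l P.w2) * a)) ^ 2 + (48 + 4096 / gO P (rp a)) *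
      gO P (rp (cl 1 (pw P.l P.w2) * a)) = gO P (rp a) := fun a => by
    rw [g_cl (rp_spec _).1 ((ad_p P).mul (rp_spec a).1) ((rp_spec _).2.trans (h1 a).symm)]
    exact g_rec hE (rp_spec a).1
  have h3 : ∏ a : RC P.l 1, gO P (rp a) = eO P.l (star β) ^ 12 := io.injective (by
    rw [map_prod, map_pow, io_eO, ← e, finprod_eq_prod_of_fintype, hn]
    exact Finset.prod_congr rfl fun a _ => (io_g hE (rp_spec a).1).1)
  have h4 : P.w2.v (eO P.l (star β)) = 1 := by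
    rw [v_eq_one (BSD15.cj_span β).symm, hβ, cj, Ideal.map_pow]
    intro h
    have h5 := (Ideal.prime_of_isPrime (pw_prime P P.w2).2.1 (pw_prime P P.w2).1).dvd_of_dvd_pow h
    exact hne (((BSD15.genus_cj_isPrime (pw_prime P P.w2).1).isMaximal (ad_p P).cj.1).eq_of_le
      (pw_prime P P.w2).1.ne_top (Ideal.le_of_dvd h5)).symm
  have h5 : (star β).norm = 2 ^ Nat.card (RC P.l 1) := by
    rw [QuadraticAlgebra.norm_star, ← BSD15.nm_span, hβ, nm, map_pow, ← nm, hn]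
    norm_num
  have h6 := all_unit P.hw2 _ _ h2 (by rw [h3, map_pow, h4, one_pow])
  refine ⟨h6, ?_⟩
  rw [finsum_eq_sum_of_fintype]
  refine sum_v (Equiv.mulLeft (cl 1 (pw P.l P.w2))) _ _ h6 h2 (fun a => ?_) P.hw2
    (h3 ▸ seventeen hE (odd_card _) h5 h4)
  refine near_J (h6 a) ?_
  rw [(io_g hE (rp_spec a).1).2, h1]
  rfl

theorem g_unit (hE : CE) (h : Ad 1 I) : P.w2.v (gO P I) = 1 := by
  rw [g_cl h (rp_spec _).1 (rp_spec _).2.symm]
  exact (main hE P).1 _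

theorem tri (hE : CE) (k : ℕ) (h : Ad 2 I) :
    cO (k + 1) I + 4096 / cO k I + rO (k + 1) I * cO (k + 1) I = -48 ∧
    cO (k + 1) I * (4096 / cO k I) * (rO (k + 1) I * cO (k + 1) I) = -4096 := by
  obtain ⟨hα, hα', -⟩ := ker_two (l := P.l) k.succ_pos
  set α : OO P.l := ⟨1, 2 ^ (k + 1)⟩
  have a0 : emb P.l α ≠ 0 := by
    rw [← io_eO]
    exact (map_ne_zero io).2 ((map_ne_zero_iff _ eO_inj).2 hα.1)
  have a1 : Ad 2 (Ideal.span {α}) := hα.ad.mono (dvd_pow_self 2 k.succ_ne_zero)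
  have a2 := a1.mul h
  have l : ∀ (n : ℕ) (K : Ideal (OO P.l)), Ad 2 K → IsL (Lc (2 ^ n) K) := fun n K hK =>
    isL_Lc (by positivity) hK.1
  have m2 : sc 2 (Lc (2 ^ k) I) ≤ Lc (2 ^ (k + 1)) I := sc_Lc_le (2 ^ k) 2 I
  have m2' : (sc 2 (Lc (2 ^ k) I)).relIndex (Lc (2 ^ (k + 1)) I) = 2 := by
    have h1 := AddSubgroup.relIndex_mul_relIndex _ _ _ m2 (sub2 k h).1
    have h2 := ((l k I h).sc_nat two_ne_zero).2
    rw [Nat.cast_ofNat] at h2
    rw [(sub2 k h).2, h2] at h1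
    omega
  have e3 : sc (emb P.l α)⁻¹ (Lc (2 ^ (k + 1)) (Ideal.span {α} * I)) = Lc (2 ^ (k + 1)) I := by
    rw [Lc_span hα, sc_sc, inv_mul_cancel₀ a0, sc_one]
  have m3 := sub2 (k + 1) a2
  have h5 := (l (k + 1) I h).two hE.jf (sub2 (k + 1) h) ⟨m2, m2'⟩
    (M₃ := sc (emb P.l α)⁻¹ (Lc (2 ^ (k + 1 + 1)) (Ideal.span {α} * I)))
    ⟨e3 ▸ sc_mono m3.1, by rw [← e3, sc_relIndex (inv_ne_zero a0), m3.2]⟩
    (fun e => by
      have := Nat.pow_right_injective le_rfl (Lc_cond (ad_two_pow h) (ad_two_pow h) two_ne_zero e)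
      omega)
    (fun e => hα' (by
      have := (cl_eq_iff_sc (ad_two_pow a2) (ad_two_pow h)).2 ⟨_, inv_ne_zero a0, e⟩
      rw [cl_mul (ad_two_pow a1) (ad_two_pow h)] at this
      simpa using congrArg (· * (cl (2 ^ (k + 1 + 1)) I)⁻¹) this))
    (fun e => by
      have e' := congrArg (sc (emb P.l α)) e
      rw [sc_sc, sc_sc, mul_inv_cancel₀ a0, sc_one] at e'
      have := Nat.pow_right_injective le_rfl
        (Lc_cond (ad_two_pow a2) (ad_two_pow h) (mul_ne_zero a0 two_ne_zero) e'.symm)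
      omega)
  have d0 := (l k I h).DL_ne
  have d1 := (l (k + 1) I h).DL_ne
  have d2 := (l (k + 1 + 1) I h).DL_ne
  have h6 := (io_c hE (k + 1) h).1
  have h7 : 2 ^ 12 * DL (sc 2 (Lc (2 ^ k) I)) / DL (Lc (2 ^ (k + 1)) I) = io (4096 / cO k I) := by
    rw [map_div₀, (io_c hE k h).1, map_ofNat, (l k I h).DL_sc two_ne_zero]
    field_simp
    norm_num
  have h8 : 2 ^ 12 * DL (sc (emb P.l α)⁻¹ (Lc (2 ^ (k + 1 + 1)) (Ideal.span {α} * I))) /
      DL (Lc (2 ^ (k + 1)) I) = emb P.l α ^ 12 * DL (Lc (2 ^ (k + 1 + 1)) (Ideal.span {α} * I)) /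
      DL (Lc (2 ^ (k + 1 + 1)) I) * io (cO (k + 1) I) := by
    rw [h6, (l _ _ a2).DL_sc (inv_ne_zero a0)]
    field_simp
  rw [h8, ← h6, h7] at h5
  have c0 : io (cO (k + 1) I) ≠ 0 := fun e => by simp [e] at h5
  have h9 : emb P.l α ^ 12 * DL (Lc (2 ^ (k + 1 + 1)) (Ideal.span {α} * I)) /
      DL (Lc (2 ^ (k + 1 + 1)) I) = io ((-48 - cO (k + 1) I - 4096 / cO k I) / cO (k + 1) I) := by
    rw [map_div₀, eq_div_iff c0]
    simp only [map_sub, map_neg, map_ofNat]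
    linear_combination h5.1
  have h10 : io (rO (k + 1) I) = emb P.l α ^ 12 * DL (Lc (2 ^ (k + 1 + 1)) (Ideal.span {α} * I)) /
      DL (Lc (2 ^ (k + 1 + 1)) I) := by
    rw [rO, h9, ii_io]
  rw [← h10] at h5
  exact ⟨io.injective (by simpa only [map_add, map_mul, map_neg, map_ofNat] using h5.1),
    io.injective (by simpa only [map_mul, map_neg, map_ofNat] using h5.2)⟩

theorem tower (hE : CE) (h : Ad 2 I) (n : ℕ) : P.w2.v (cO n I) = 1 ∧
    P.w2.v ((cO n I / gO P (pw P.l P.w2 ^ n * I)) ^ 2 ^ n + 1) ≤ P.w2.v 16 := by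
  have h1 : Ad 1 I := h.mono (one_dvd _)
  induction n with
  | zero =>
    have h2 := tri0 hE h
    have h3 := g_unit hE ((ad_p P).cj.mul h1)
    rw [pow_zero (pw P.l P.w2), one_mul]
    exact ⟨unit_step P.hw2 h3 (rec_of (c := gO P I) (by linear_combination h2.1)
      (by linear_combination h2.2)), rho_zero (g_unit hE h1) h3 h2.1⟩
  | succ k ih =>
    have h2 := tri hE k h
    have h3 := rec_of h2.1 h2.2
    have h4 := unit_step P.hw2 ih.1 h3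
    have h5 := ((ad_p P).pow k).mul h1
    rw [pow_succ' (pw P.l P.w2), mul_assoc]
    exact ⟨h4, rho_succ (g_unit hE h5) ih.1 (g_unit hE ((ad_p P).mul h5)) h4 (g_rec hE h5) h3 ih.2⟩

end TJG1

open TJG1 TJG1A

theorem t_JG1 (hE : CE) : JG1 := fun P => ⟨fun _ h => ⟨g_unit hE (ad_one.2 h), g_rec hE (ad_one.2 h),
  near_J (g_unit hE (ad_one.2 h)) (io_g hE (ad_one.2 h)).2⟩, (main hE P).2⟩

theorem t_JC (hE : CE) (hJG1 : JG1) : JC := fun P I n h => by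
  refine ⟨(tower hE h n).1, near_J (tower hE h n).1 (io_c hE n h).2, (tower hE h n).2, fun hn => ?_⟩
  obtain ⟨k, rfl⟩ := Nat.exists_eq_succ_of_ne_zero hn.ne'
  exact r_near (tower hE h k).1 (tower hE h (k + 1)).1 (tri hE k h).1

end Pool.Agent.P.MP_8b7eba_nt.R2
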