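import Pool.Agent.P.MP_8b7eba_nt.R2.IfE
import Pool.Agent.P.MP_8b7eba_nt.R2.LA
import Pool.Agent.P.MP_8b7eba_nt.R2.TUNIF

/-! Proof of JR, JLF, JLW. -/

namespace Pool.Agent.P.MP_8b7eba_nt.R2

open scoped NNReal
open MP_9c97e9_nt (pm Is ap)
open BSD15 (OO Good nm cj)
open _root_.Pool.Agent.P.MP_8b7eba_nt.Mod (M2 G0 xx al)
open R1 (emb Dl psi Pz KF U8 IntPt y1)

namespace TJLF

variable {w : Pl} {z ζ x y : Om} {k M : ℕ} {γ : GQ}

theorem v2_lt (h : w.p = 2) : w.v 2 < 1 := by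
  simpa [h] using w.v_p_lt

theorem v2_pos : 0 < w.v 2 := w.v.pos_iff.2 two_ne_zero

theorem inj {a b : ℝ≥0} (h : a ^ 2 ^ k = b ^ 2 ^ k) : a = b :=
  (pow_left_inj₀ zero_le zero_le (by positivity)).1 h

theorem neg_one (h : IsPrimitiveRoot z (2 ^ (k + 1))) : z ^ 2 ^ k = -1 :=
  (h.pow (by positivity) (pow_succ 2 k)).eq_neg_one_of_two_right

/-- if the product of `1 - z` and `1 + z` is larger than four, they have the same size -/
theorem same (h : w.v 2 * w.v 2 < w.v (1 - z) * w.v (1 + z)) : w.v (1 + z) = w.v (1 - z) := by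
  have e : 1 + z = 2 - (1 - z) := by ring
  rcases lt_or_ge (w.v 2) (w.v (1 - z)) with h1 | h1
  · rw [e, w.v.map_sub_eq_of_lt_right h1]
  · exact absurd (mul_le_mul' h1 (e ▸ w.v.map_sub_le le_rfl h1)) h.not_ge

theorem v_one_sub (hw : w.p = 2) (h : z ^ 2 ^ k = -1) : w.v (1 - z) ^ 2 ^ k = w.v 2 := by
  induction k generalizing z with
  | zero =>
    rw [pow_zero, pow_one] at h ⊢
    rw [h]
    norm_num
  | succ k ih =>
    have h1 := ih (z := z ^ 2) (by rw [← pow_mul, ← pow_succ', h])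
    rw [show 1 - z ^ 2 = (1 - z) * (1 + z) by ring, map_mul] at h1
    have h2 : w.v 2 ≤ w.v (1 - z) * w.v (1 + z) := by
      have h3 : w.v (1 - z) * w.v (1 + z) ≤ 1 :=
        (pow_le_one_iff_of_nonneg zero_le (by positivity)).1 (h1.le.trans (v2_lt hw).le)
      exact h1 ▸ pow_le_of_le_one zero_le h3 (by positivity)
    rw [same ((mul_lt_of_lt_one_right v2_pos (v2_lt hw)).trans_le h2)] at h1
    rw [pow_succ', pow_mul, sq, h1]

theorem vp_eq (h : z ≠ 0) : vp z = -z⁻¹ * (1 - z) ^ 2 := by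
  unfold vp
  field_simp
  ring

theorem ne_zero (h : z ^ 2 ^ k = -1) : z ≠ 0 := by
  rintro rfl
  simp at h

theorem v_unit (h : z ^ 2 ^ k = -1) : w.v z = 1 :=
  w.v_root (n := 2 ^ k * 2) (by positivity) (by rw [pow_mul, h]; norm_num)

theorem v_vp' (h : z ^ 2 ^ k = -1) : w.v (vp z) = w.v (1 - z) ^ 2 := by
  rw [vp_eq (ne_zero h), map_mul, Valuation.map_neg, map_inv₀, v_unit h, map_pow]
  simp

theorem v_vp (hw : w.p = 2) (h : z ^ 2 ^ (k + 1) = -1) : w.v (vp z) ^ 2 ^ k = w.v 2 := by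
  rw [v_vp' h, ← pow_mul, ← pow_succ', v_one_sub hw h]

theorem vp_lt (hw : w.p = 2) (h : z ^ 2 ^ (k + 1) = -1) : w.v (vp z) < 1 :=
  (pow_lt_one_iff_of_nonneg zero_le (by positivity)).1 ((v_vp hw h).trans_lt (v2_lt hw))

theorem vp_pos (hw : w.p = 2) (h : z ^ 2 ^ (k + 1) = -1) : 0 < w.v (vp z) :=
  pos_iff_ne_zero.2 fun e => by
    have := v_vp hw h
    rw [e, zero_pow (by positivity)] at this
    exact v2_pos.ne this

theorem vp_sub (h : z ≠ 0) (h' : ζ ≠ 0) : vp z - vp ζ = z⁻¹ * (1 - z / ζ) * (1 - z * ζ) * -1 := by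
  unfold vp
  field_simp
  ring

theorem v_vp_sub (h : z ^ 2 ^ k = -1) (h' : ζ ^ 2 ^ k = -1) :
    w.v (vp z - vp ζ) = w.v (1 - z / ζ) * w.v (1 - z * ζ) := by
  rw [vp_sub (ne_zero h) (ne_zero h'), map_mul, map_mul, map_mul, map_inv₀, v_unit h]
  simp

theorem root_le (hw : w.p = 2) (h : ζ ^ 2 ^ (k + 1) = -1) (hz : z ^ 2 ^ (k + 1) = 1) :
    w.v (1 - z) ≤ w.v (vp ζ) := by
  have h1 : (ζ ^ 2) ^ 2 ^ k = -1 := by rw [← pow_mul, ← pow_succ', h]
  have : NeZero (2 ^ (k + 1)) := ⟨by positivity⟩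
  obtain ⟨j, -, rfl⟩ := (LA.prim h1).eq_pow_of_pow_eq_one hz
  rw [inj ((v_vp hw h).trans (v_one_sub hw h1).symm)]
  simpa using Pl.v_pow_sub (x := 1) (by simp) (v_unit h1).le j

theorem vp_map (g : GQ) : g (vp z) = vp (g z) := by
  simp only [vp, map_sub, map_inv₀, map_ofNat]

theorem mem_KP (hA : CA) {g : GQ} : g ∈ KP M ↔
    2 ^ (M + 2) ∣ (cyc g : ℤ_[2]) - 1 ∨ 2 ^ (M + 2) ∣ (cyc g : ℤ_[2]) + 1 :=
  ((hA.lg.2.2.2.1 M).2.2.2.2.1 g).trans (hA.lg.1.dvd M _)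

theorem fix_vp (hA : CA) (h : ζ ^ 2 ^ (M + 2) = 1) : Fix (KP M) (vp ζ) := by
  intro g hg
  rw [vp_map]
  rcases (mem_KP hA).1 hg with e | e
  · rw [hA.ec.2.2.1 g _ 1 ζ h (by simpa using e), pow_one]
  · obtain ⟨m, hm⟩ : ∃ m, 2 ^ (M + 2) = m + 1 := Nat.exists_eq_add_one.2 (by positivity)
    have h1 : ((2 : ℤ_[2]) ^ (M + 2)) = m + 1 := by exact_mod_cast hm
    rw [hA.ec.2.2.1 g _ m ζ h (by
      rw [show (cyc g : ℤ_[2]) - m = cyc g + 1 - 2 ^ (M + 2) by rw [h1]; ring]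
      exact dvd_sub e dvd_rfl)]
    rw [hm, pow_succ] at h
    rw [eq_inv_of_mul_eq_one_left h, vp, vp, inv_inv]
    ring

theorem unif (hA : CA) (hw : w.p = 2) (h : ζ ^ 2 ^ (M + 1) = -1) :
    w.Unif (w.I ⊓ KP M) (vp ζ) := by
  obtain ⟨h1, -, h2, h3, -⟩ := hA.lg.2.2.2.1 M
  obtain ⟨π, -, -, hπ, he, -⟩ := hA.unif w (KP M) h3.2
  have hf : Fix (w.I ⊓ KP M) (vp ζ) := (fix_vp hA (LA.prim h).pow_eq_one).mono inf_le_right
  have h4 : (KP M).relIndex w.I ≤ 2 ^ M := by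
    have h5 : (KP M).relIndex ⊤ ≤ 2 ^ M := by
      rw [IsKer.relIndex h1 h2]
      exact (Set.ncard_le_card _).trans (Nat.card_zmod _).le
    refine (Subgroup.relIndex_le_of_le_right le_top ?_).trans h5
    rw [Subgroup.relIndex_top_right]
    exact (Basic.fi h3.2).index_ne_zero
  rw [← w.vp, hw, Nat.cast_ofNat, ← v_vp hw h] at he
  have h5 : w.v (vp ζ) = w.v π := le_antisymm (hπ.le hf (vp_lt hw h))
    ((pow_le_pow_iff_left₀ zero_le zero_le (by positivity : 2 ^ M ≠ 0)).1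
      (he ▸ pow_le_pow_of_le_one zero_le hπ.2.2.1.le h4))
  exact ⟨hf, w.v.pos_iff.1 (vp_pos hw h), vp_lt hw h, fun x a b => h5 ▸ hπ.2.2.2 x a b⟩

/-- the action of a generator on the uniformiser -/
theorem gen (hA : CA) (hw : w.p = 2) (h : ζ ^ 2 ^ (k + 2) = -1) (hγ : IsUnit (lg (cyc γ))) :
    w.v (γ (vp ζ) - vp ζ) = w.v (vp ζ) ^ 3 := by
  have h' : γ ζ ^ 2 ^ (k + 2) = -1 := by rw [← map_pow, h, map_neg, map_one]
  rw [vp_map, v_vp_sub h' h]
  have ha : ∀ η : Om, η ^ 2 ^ k = -1 → w.v (1 - η) = w.v (vp ζ) ^ 2 := fun η e =>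
    inj (k := k) (by rw [v_one_sub hw e, ← pow_mul, ← pow_succ', v_vp hw h])
  have hb : ∀ η : Om, (η ^ 2 ^ k) ^ 2 = -1 → w.v (1 - η) = w.v (vp ζ) := fun η e =>
    inj (k := k + 1) (by rw [v_one_sub hw (by rw [pow_succ, pow_mul, e]), v_vp hw h])
  set ξ := ζ ^ 2 ^ k with hξ
  have h1 : ξ ^ 2 ^ 2 = -1 := by rw [hξ, ← pow_mul, ← pow_add, h]
  have h0 := ne_zero h1
  have h2 : γ ξ ^ 2 ^ 2 = -1 := by rw [← map_pow, h1, map_neg, map_one]
  have h3 : ¬ (2 ^ (1 + 2) ∣ (cyc γ : ℤ_[2]) - 1 ∨ 2 ^ (1 + 2) ∣ (cyc γ : ℤ_[2]) + 1) := fun e => by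
    have := (hA.lg.1.dvd 1 _).2 e
    rw [pow_one] at this
    exact PadicInt.prime_p.not_isUnit (isUnit_of_dvd_unit (by simpa using this) hγ)
  have h4 : γ ξ ≠ ξ := fun e => h3 (Or.inl (by
    simpa using hA.ec.2.2.2.1 γ 3 1 ξ (LA.prim h1) (by rw [e, pow_one])))
  have h5 : γ ξ ≠ ξ ^ 7 := fun e => h3 (Or.inr (by
    have := dvd_add (hA.ec.2.2.2.1 γ 3 7 ξ (LA.prim h1) e) dvd_rfl
    rwa [show (cyc γ : ℤ_[2]) - (7 : ℕ) + 2 ^ 3 = cyc γ + 1 by push_cast; ring] at this))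
  have h6 : (γ ξ - ξ) * (γ ξ - ξ ^ 7) * ((γ ξ + ξ) * (γ ξ + ξ ^ 7)) = 0 := by
    linear_combination h2 + (ξ ^ 12 - ξ ^ 8 + ξ ^ 4 - 1 - γ ξ ^ 2 * ξ ^ 2 * (ξ ^ 8 - ξ ^ 4 + 1)) * h1
  have e1 : (γ ζ / ζ) ^ 2 ^ k = γ ξ / ξ := by rw [div_pow, ← map_pow]
  have e2 : (γ ζ * ζ) ^ 2 ^ k = γ ξ * ξ := by rw [mul_pow, ← map_pow]
  rcases mul_eq_zero.1 ((mul_eq_zero.1 h6).resolve_left
    (mul_ne_zero (sub_ne_zero.2 h4) (sub_ne_zero.2 h5))) with e | e
  · rw [add_eq_zero_iff_eq_neg] at e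
    rw [ha _ (by rw [e1, e, neg_div, div_self h0]), hb _ (by rw [e2, e]; linear_combination h1)]
    ring
  · rw [add_eq_zero_iff_eq_neg] at e
    rw [hb _ (by
      rw [e1, e, show -ξ ^ 7 / ξ = -ξ ^ 6 by field_simp]
      linear_combination (ξ ^ 8 - ξ ^ 4 + 1) * h1),
      ha _ (by rw [e2, e]; linear_combination (1 - ξ ^ 4) * h1)]
    ring

theorem pow_odd (hw : w.p = 2) (h : w.v (x - 1) < 1) {n : ℕ} (hn : Odd n) :
    w.v (x ^ n - 1) = w.v (x - 1) := by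
  obtain ⟨j, rfl⟩ := hn
  by_cases h0 : x - 1 = 0
  · rw [h0, sub_eq_zero.1 h0, one_pow, sub_self]
  have h1 : w.v x = 1 := by
    rw [← sub_add_cancel x 1, w.v.map_add_eq_of_lt_right (by simpa using h), map_one]
  have h2 : w.v (x + 1) < 1 := by
    rw [show x + 1 = x - 1 + 2 by ring]
    exact w.v.map_add_lt h (v2_lt hw)
  induction j with
  | zero => simp
  | succ j ih =>
    rw [show x ^ (2 * (j + 1) + 1) - 1 =
      x ^ (2 * j + 1) * (x - 1) * (x + 1) + (x ^ (2 * j + 1) - 1) by ring,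
      w.v.map_add_eq_of_lt_right, ih]
    rw [ih, map_mul, map_mul, map_pow, h1, one_pow, one_mul]
    exact mul_lt_of_lt_one_right (w.v.pos_iff.2 h0) h2

/-- an element of inertia which moves the uniformiser little moves all integers little -/
theorem small (hF : FROB) {L : Subgroup GQ} {π : Om} (hL : L ≤ w.I) (hπ : w.Unif L π)
    (hγ : γ ∈ w.I) (h : w.v (γ π - π) = w.v π ^ 3) {j : ℕ} (hj : j ≤ 3) (hy : Fix L y)
    (h1 : w.v y ≤ 1) : w.v (γ y - y) ≤ w.v π ^ j := by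
  have hD := Pl.mem_D.1 hγ.1
  induction j generalizing y with
  | zero => exact w.v.map_sub_le (by rwa [hD, pow_zero]) (by rwa [pow_zero])
  | succ j ih =>
    obtain ⟨c, hc, h2⟩ := TUNIF.resid_I hF h1
    have h3 : Fix L ((y - c) / π) := (hy.sub (hc.mono hL)).div hπ.1
    have h4 : w.v ((y - c) / π) ≤ 1 := by
      rw [map_div₀]
      exact div_le_one_of_le₀ (hπ.le (hy.sub (hc.mono hL)) h2) zero_le
    have h5 := ih (by omega) h3 h4
    generalize e : (y - c) / π = t at h3 h4 h5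
    obtain rfl : y = c + π * t := by rw [← e, mul_div_cancel₀ _ hπ.2.1]; ring
    rw [map_add, map_mul, hc γ hγ,
      show c + γ π * γ t - (c + π * t) = (γ π - π) * γ t + π * (γ t - t) by ring]
    refine w.v.map_add_le ?_ ?_
    · rw [map_mul, h, hD]
      exact (mul_le_of_le_one_right zero_le h4).trans
        (pow_le_pow_of_le_one zero_le hπ.2.2.1.le hj)
    · rw [map_mul, pow_succ']
      exact mul_le_mul_right h5 _

theorem move (hF : FROB) (hw : w.p = 2) {L : Subgroup GQ} {π : Om} (hL : L ≤ w.I)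
    (hπ : w.Unif L π) (hγ : γ ∈ w.I) (h : w.v (γ π - π) = w.v π ^ 3) {n : ℕ} (hx : Fix L x)
    (hn : Odd n) (h1 : w.v x = w.v π ^ n) : w.v (γ x - x) = w.v π ^ (n + 2) := by
  have hD := Pl.mem_D.1 hγ.1
  have h0 := w.v.pos_iff.2 hπ.2.1
  have h2 : Fix L (x / π ^ n) := hx.div (hπ.1.pow n)
  have h3 : w.v (x / π ^ n) = 1 := by rw [map_div₀, map_pow, h1, div_self (pow_pos h0 n).ne']
  have h4 := small hF hL hπ hγ h le_rfl h2 h3.le
  generalize e : x / π ^ n = t at h2 h3 h4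
  obtain rfl : x = π ^ n * t := by rw [← e, mul_div_cancel₀ _ (pow_ne_zero n hπ.2.1)]
  have h5 : w.v (γ π / π - 1) = w.v π ^ 2 := by
    rw [div_sub_one hπ.2.1, map_div₀, h, pow_succ, mul_div_cancel_right₀ _ h0.ne']
  have h6 := pow_odd hw (h5.trans_lt (pow_lt_one₀ zero_le hπ.2.2.1 two_ne_zero)) hn
  have h7 : w.v (((γ π / π) ^ n - 1) * γ t) = w.v π ^ 2 := by
    rw [map_mul, hD, h3, mul_one, h6, h5]
  rw [map_mul, map_pow, show γ π ^ n * γ t - π ^ n * t =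
    π ^ n * (((γ π / π) ^ n - 1) * γ t + (γ t - t)) by
      have := hπ.2.1
      rw [div_pow]
      field_simp
      ring, map_mul, map_pow, w.v.map_add_eq_of_lt_left, h7, pow_add]
  rw [h7]
  exact h4.trans_lt (pow_lt_pow_right_of_lt_one₀ h0 hπ.2.2.1 (by norm_num))

/-- the operator `γ - 1` on the multiplicative group -/
noncomputable abbrev T (γ : GQ) : Om → Om := fun x => γ x / x

variable {L : Subgroup GQ}

theorem T_mul (k : ℕ) (x y : Om) : (T γ)^[k] (x * y) = (T γ)^[k] x * (T γ)^[k] y := by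
  induction k with
  | zero => rfl
  | succ k ih =>
    simp only [Function.iterate_succ_apply', ih, T, map_mul]
    exact mul_div_mul_comm _ _ _ _

theorem fix_pow (hL : ∀ x, Fix L x → Fix L (γ x)) (hx : Fix L x) (k : ℕ) : Fix L ((γ ^ k) x) := by
  induction k with
  | zero => exact hx
  | succ k ih => rw [pow_succ']; exact hL _ ih

theorem T_fix (hL : ∀ x, Fix L x → Fix L (γ x)) (hx : Fix L x) (h0 : x ≠ 0) (k : ℕ) :
    Fix L ((T γ)^[k] x) ∧ (T γ)^[k] x ≠ 0 := by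
  induction k with
  | zero => exact ⟨hx, h0⟩
  | succ k ih =>
    rw [Function.iterate_succ_apply']
    exact ⟨(hL _ ih.1).div ih.1, div_ne_zero ((map_ne_zero γ).2 ih.2) ih.2⟩

theorem T_two (hL : ∀ x, Fix L x → Fix L (γ x)) (j : ℕ) (hx : Fix L x) (h0 : x ≠ 0) :
    ∃ s, Fix L s ∧ s ≠ 0 ∧ (T γ)^[2 ^ j] x = (γ ^ 2 ^ j) x / x * (s * s) := by
  induction j generalizing x with
  | zero => exact ⟨1, fix_one, one_ne_zero, by simp [T]⟩
  | succ j ih =>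
    obtain ⟨s, a, b, e⟩ := ih hx h0
    obtain ⟨t, c, d, e'⟩ := ih (T_fix hL hx h0 (2 ^ j)).1 (T_fix hL hx h0 (2 ^ j)).2
    have h1 := (map_ne_zero (γ ^ 2 ^ j)).2 h0
    have h2 := (map_ne_zero (γ ^ 2 ^ j)).2 b
    refine ⟨x / (γ ^ 2 ^ j) x * ((γ ^ 2 ^ j) s / s) * t,
      ((hx.div (fix_pow hL hx _)).mul ((fix_pow hL a _).div a)).mul c,
      mul_ne_zero (mul_ne_zero (div_ne_zero h0 h1) (div_ne_zero h2 b)) d, ?_⟩
    rw [pow_succ, mul_two, Function.iterate_add_apply, e', e, pow_add, AlgEquiv.mul_apply,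
      map_mul, map_mul, map_div₀]
    field_simp

end TJLF

open TJLF

theorem t_JR : JR := by
  intro w ρ n hw hn h
  obtain ⟨k, rfl⟩ := Nat.exists_eq_add_one.2 hn
  by_contra! hc
  obtain ⟨α, hα⟩ := exists_root (-1 : Om) (n := 2 ^ (k + 1)) (by positivity)
  obtain ⟨η, hη⟩ := TUNIF.prim (m := 2 ^ (k + 1)) (by positivity)
  rw [← sub_neg_eq_add, ← hα, hη.pow_sub_pow_eq_prod_sub_mul ρ α (by positivity), map_prod] at h
  have h1 : w.v (vp α) ^ 2 ^ (k + 1) ≤ w.v 16 := by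
    refine le_trans (le_of_eq_of_le ((Finset.prod_const _).trans
      (by rw [hη.card_nthRootsFinset])).symm (Finset.prod_le_prod' fun c m => ?_)) h
    have e : (c * α) ^ 2 ^ (k + 1) = -1 := by
      rw [mul_pow, (Polynomial.mem_nthRootsFinset (by positivity) _).1 m, one_mul, hα]
    rw [inj ((v_vp hw hα).trans (v_vp hw e).symm)]
    exact hc _ (LA.prim e)
  rw [pow_succ, pow_mul, v_vp hw hα, show (16 : Om) = 2 ^ 4 by norm_num, map_pow] at h1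
  exact h1.not_gt (pow_lt_pow_right_of_lt_one₀ v2_pos (v2_lt hw) (by norm_num))

theorem t_JLF (hA : CA) : JLF := by
  intro w M ζ hw hζ
  have h := neg_one hζ
  have hu := unif hA hw h
  refine ⟨hu.1, v_vp hw h, hu, fun z hz => ?_, fun hM γ hγ hg x n hx hn h1 => ?_⟩
  · have h' := neg_one hz
    rw [v_vp_sub h' h]
    exact (mul_le_mul' (root_le hw h (by rw [div_pow, h, h']; norm_num))
      (root_le hw h (by rw [mul_pow, h, h']; norm_num))).trans_lt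
      (mul_lt_of_lt_one_right (vp_pos hw h) (vp_lt hw h))
  · obtain ⟨k, rfl⟩ : ∃ k, M = k + 1 := ⟨M - 1, by omega⟩
    exact move hA.frob hw inf_le_left hu hγ (gen hA hw h hg) hx hn h1

theorem t_JLW (hA : CA) (hJLF : JLF) : JLW := by
  intro w M ζ u γ hw hM hζ hγ hg hu h0 hv hs
  obtain ⟨-, h2, hπ, -, hm⟩ := hJLF w M ζ hw hζ
  replace hm := hm (by omega) γ hγ hg
  obtain ⟨N, rfl⟩ : ∃ N, M = N + 1 := ⟨M - 1, by omega⟩
  obtain ⟨k, hk⟩ : ∃ k, 2 ^ N = k + 4 := ⟨2 ^ N - 4, by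
    have := Nat.pow_le_pow_right two_pos (show 2 ≤ N by omega)
    omega⟩
  set L := w.I ⊓ KP (N + 1) with hLd
  set a := w.v (vp ζ) with ha
  have a0 : 0 < a := w.v.pos_iff.2 hπ.2.1
  have a1 : a < 1 := hπ.2.2.1
  have hL : ∀ x, Fix L x → Fix L (γ x) := fun x hx g m => by
    have := congrArg γ (hx (γ⁻¹ * g * γ) ⟨w.I.mul_mem (w.I.mul_mem (w.I.inv_mem hγ) m.1) hγ,
      (hA.lg.2.2.2.1 _).2.2.2.1.1.conj_mem' g m.2 γ⟩)
    rwa [mul_assoc, AlgEquiv.mul_apply, BasicP.apply_inv] at this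
  rw [Nat.add_sub_cancel] at hv
  obtain ⟨s, s1, s0, e⟩ := T_two hL N hu h0
  have hb : Fix L ((γ ^ 2 ^ N) u / u) := (fix_pow hL hu _).div hu
  have hb0 : (γ ^ 2 ^ N) u / u ≠ 0 := div_ne_zero ((map_ne_zero _).2 h0) h0
  rw [show 2 ^ (N + 1) - 3 = k + 1 + 2 ^ N by omega, Function.iterate_add_apply] at hs
  change Sq L ((T γ)^[k + 1] ((T γ)^[2 ^ N] u)) at hs
  rw [e] at hs
  generalize (γ ^ 2 ^ N) u / u = b at hv hb hb0 hs
  have hH := (hA.hens w L (inf_le_left.trans w.I_le_D)).1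
  have p2 := v2_pos (w := w)
  have l2 := v2_lt hw
  have a5 : a ^ 5 < 1 := pow_lt_one₀ zero_le a1 (by norm_num)
  have step : ∀ (j : ℕ) (x : Om), Fix L x → w.v (x - 1) = w.v 2 ^ (j + 2) * a ^ 5 →
      ∃ y, Fix L y ∧ x = y ^ 2 ∧ w.v (y - 1) = w.v 2 ^ (j + 1) * a ^ 5 := fun j x hx h => by
    obtain ⟨y, b1, b2, -, b3⟩ := hH x hx (by
      rw [h, show (4 : Om) = 2 ^ 2 by norm_num, map_pow]
      exact (mul_lt_of_lt_one_right (pow_pos p2 _) a5).trans_le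
        (pow_le_pow_of_le_one zero_le l2.le (by omega)))
    exact ⟨y, b1, b2, mul_right_cancel₀ p2.ne' (by rw [b3, h]; ring)⟩
  obtain ⟨y2, f2, e2, v2⟩ := step 2 _ (hb.pow 24)
    (by rw [hv, show (16 : Om) = 2 ^ 4 by norm_num, map_pow])
  obtain ⟨y1, f1, rfl, v1⟩ := step 1 _ f2 v2
  obtain ⟨y, f0, rfl, v0⟩ := step 0 _ f1 v1
  have y0 : y ≠ 0 := fun h => pow_ne_zero 24 hb0 (by rw [e2, h]; norm_num)
  obtain ⟨g, g1, g2⟩ := hA.ec2 w hw (-1)
  have h8 : (b ^ 3 / y) ^ 2 ^ 3 = 1 := by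
    rw [div_pow, ← pow_mul, show 3 * 2 ^ 3 = 24 by norm_num, e2, ← pow_mul, ← pow_mul]
    exact div_self (pow_ne_zero _ y0)
  have h7 := hA.ec.2.2.1 g 3 7 _ h8 (by rw [g2]; exact ⟨-1, by push_cast; norm_num⟩)
  rw [((hb.pow 3).div f0) g ⟨g1, (mem_KP hA).2 (Or.inr (by rw [g2]; simp))⟩] at h7
  have h1 : γ (b ^ 3 / y) = b ^ 3 / y := by
    generalize b ^ 3 / y = η at h7 h8
    rcases (sq_eq_one_iff (a := η)).1 (by linear_combination h8 + η * h7) with r | r <;>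
      simp [r]
  have hT : T γ (b * b * b) = T γ y := by
    have c0 : b ^ 3 / y ≠ 0 := div_ne_zero (pow_ne_zero _ hb0) y0
    rw [show b * b * b = b ^ 3 / y * y by field_simp, T, T, map_mul, h1, mul_div_mul_left _ _ c0]
  have key : ∀ i : ℕ, w.v ((T γ)^[i] y - 1) = w.v 2 * a ^ (2 * (i + 2) + 1) := fun i => by
    induction i with
    | zero => simpa using v0
    | succ i ih =>
      obtain ⟨c1, c0⟩ := T_fix hL f0 y0 i
      rw [Function.iterate_succ_apply']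
      generalize (T γ)^[i] y = t at ih c1 c0
      have c2 : w.v t = 1 := by
        rw [← sub_add_cancel t 1, w.v.map_add_eq_of_lt_right, map_one]
        rw [ih, map_one]
        exact mul_lt_one_of_nonneg_of_lt_one_left zero_le l2 (pow_le_one₀ zero_le a1.le)
      have c3 := hm ((t - 1) / 2) (2 * (i + 2) + 1) ((c1.sub fix_one).div (fix_ofNat 2))
        ⟨_, rfl⟩ (by rw [map_div₀, ih, mul_div_cancel_left₀ _ p2.ne'])
      rw [map_div₀ γ, map_sub γ, map_one γ, map_ofNat γ] at c3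
      rw [show T γ t - 1 = 2 * ((γ t - 1) / 2 - (t - 1) / 2) / t by
        unfold T
        field_simp
        ring, map_div₀, map_mul, c2, c3, div_one]
      rfl
  obtain ⟨z, z1, ez⟩ := hs
  obtain ⟨c1, c0⟩ := T_fix hL s1 s0 (k + 1)
  have h3 : (T γ)^[k + 1] y = ((z / (T γ)^[k + 1] s) ^ 3) ^ 2 := by
    rw [Function.iterate_succ_apply, ← hT, ← Function.iterate_succ_apply, T_mul, T_mul]
    rw [T_mul, T_mul] at ez
    rw [show (T γ)^[k.succ] b = (z / (T γ)^[k + 1] s) ^ 2 by rw [div_pow, ← ez]; field_simp]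
    ring
  have h4 := key (k + 1)
  have z2 := (z1.div c1).pow 3
  rw [h3] at h4
  generalize (z / (T γ)^[k + 1] s) ^ 3 = t at h4 z2
  rw [Valuation.map_sub_swap, show 1 - t ^ 2 = (1 - t) * (1 + t) by ring, map_mul] at h4
  have h5 : 2 ^ (N + 1) = 2 * (k + 4) := by omega
  rw [same (by
    rw [h4]
    refine mul_lt_mul_of_pos_left ?_ p2
    rw [← h2]
    exact pow_lt_pow_right_of_lt_one₀ a0 a1 (by omega)), ← h2, ← pow_add] at h4
  obtain ⟨j, hj⟩ := hπ.2.2.2 (1 - t) (fix_one.sub z2) fun r => by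
    rw [r, map_zero, zero_mul] at h4
    exact (pow_pos a0 _).ne h4
  rw [hj, ← zpow_add₀ a0.ne', ← zpow_natCast] at h4
  have := hπ.zpow_inj h4
  omega

end Pool.Agent.P.MP_8b7eba_nt.R2
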