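import Pool.Agent.P.MP_8b7eba_nt.R2.TJWA

/-! Proof of JW. -/

namespace Pool.Agent.P.MP_8b7eba_nt.R2

open scoped NNReal
open MP_9c97e9_nt (pm Is ap)
open BSD15 (OO Good nm cj)
open _root_.Pool.Agent.P.MP_8b7eba_nt.Mod (M2 G0 xx al)
open R1 (emb Dl psi Pz KF U8 IntPt y1)

open TJW

theorem t_JW (hE : CE) (hARX : ARX) (hJC : JC) : JW := by
  intro P n i σ hn hσ h1 h2
  have hA := hARX P _ (cd_two_pow (n + 1))
  have := finite_RC (l := P.l) (c := 2 ^ (n + 1)) (by positivity)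
  obtain ⟨-, k1, k2⟩ := ker_two (l := P.l) hn
  have h3 := mem_Od'.1 h2
  rw [← hA.pr _ (pow_dvd_pow 2 n.le_succ) σ hσ] at h3
  have h4 := gen_w (w := P.w2) (G := RC P.l (2 ^ (n + 1))) (H := RC P.l (2 ^ n))
    (Od P.l (2 ^ (n + 1))) (fun _ => mem_Od') (pr (pow_dvd_pow 2 n.le_succ)) i (cl _ (nI P.l 3))
    (cl _ (nI P.l 5)) (cl _ (nI P.l 15)) k1 k2 h1 h3 XO JO σ fun a => (act hA hσ a).2
  exact h4 (cg_XO hE hJC P hn) (UX i) rfl (DD i) fun _ => rfl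

theorem t_JKQ : JKQ := by
  intro S γ ι _ R x η k hγ hR hx hS hK
  obtain ⟨Q, hQ⟩ := exists_div (∑ i, R i) 1
  rw [pow_one] at hQ
  obtain ⟨β, hβ⟩ := IsAlgClosed.exists_pow_nat_eq (∏ i, x i) two_pos
  have h0 : β ≠ 0 := fun z => Finset.prod_ne_zero_iff.2 (fun i _ => hx i)
    (by rw [← hβ, z, zero_pow two_ne_zero])
  have h1 : Ph S Q β := ⟨h0, fun g hg => by
    obtain ⟨e, he⟩ := hS g hg
    have h2 : (2 ^ Fintype.card ι * β) ^ 2 = ∏ i, 4 * x i := by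
      rw [Finset.prod_mul_distrib, Finset.prod_const, Finset.card_univ, mul_pow, hβ, ← pow_mul,
        mul_comm _ 2, pow_mul]
      norm_num
    have h3 := kq_sum_iff (S := {g}) R _ η hR (fun i => mul_ne_zero (by norm_num) (hx i)) h2
      fun g' hg' => ⟨e, hg' ▸ he⟩
    have h4 : g β = β ∨ g β = -β := by
      rw [← sq_eq_sq_iff_eq_or_eq_neg, ← map_pow, hβ, map_prod, ← e.prod_comp x]
      refine Finset.prod_congr rfl fun i _ => ?_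
      have h5 := ((he i ▸ is_ac g (hR i)).inj (hR (e i))).1
      rw [map_mul, map_ofNat] at h5
      exact mul_left_cancel₀ (by norm_num) h5
    simp only [Set.mem_singleton_iff, forall_eq, map_mul, map_pow, map_ofNat] at h3
    rw [mul_right_inj' (pow_ne_zero _ two_ne_zero)] at h3
    refine ⟨?_, ?_⟩
    · rw [← add_sub_add_comm, ← map_add, ← two_nsmul, hQ, map_sum, ← e.sum_comp R, sub_eq_zero]
      exact Finset.sum_congr rfl fun i _ => he i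
    · unfold MP_9c97e9_nt.sg
      split_ifs with h6
      · rw [h3.1 ⟨Q, hQ, fun g' hg' => hg' ▸ h6⟩, Int.cast_one, one_mul]
      · rw [h4.resolve_left fun z => h6 ((h3.2 z).all hQ rfl)]
        simp⟩
  have h2 : ∀ k : ℕ, Ph S ((fun Q => ac γ Q - Q)^[k] Q) ((fun y => γ y / y)^[k] β) ∧
      2 • (fun Q => ac γ Q - Q)^[k] Q = (fun Q => ac γ Q - Q)^[k] (∑ i, R i) ∧
      (fun y => γ y / y)^[k] (∏ i, x i) = (fun y => γ y / y)^[k] β ^ 2 := fun k => by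
    induction k with
    | zero => exact ⟨h1, hQ, hβ.symm⟩
    | succ k ih =>
      simp only [Function.iterate_succ_apply']
      exact ⟨ih.1.step hγ, by rw [nsmul_sub, ← map_nsmul, ih.2.1],
        by rw [ih.2.2, map_pow, div_pow]⟩
  obtain ⟨h3, h4, h5⟩ := h2 k
  refine ⟨_, fun g hg => ?_, h5⟩
  rw [(h3.2 g hg).2, Csum.sg_iff.2 (hK.all h4 hg), Int.cast_one, one_mul]

theorem t_JPX (hE : CE) (hARX : ARX) (hJLF : JLF) (hJLW : JLW) (hJKQ : JKQ) (hJS : JS) (hJW : JW) :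
    JPX := by
  intro P a H hA hP hy
  refine ⟨3, fun M hM γ hγ ι hι ha hc hK => ?_⟩
  obtain ⟨m, rfl⟩ : ∃ m, M = m + 2 := ⟨M - 2, by omega⟩
  have hC := cd_two_pow (m + 2 + 2)
  have hR := hARX P _ hC
  have := finite_RC (l := P.l) hC.1
  have := Fintype.ofFinite (Od P.l (2 ^ (m + 2 + 2)))
  have hI : P.w2.I ≤ P.GK := I_le_GK hE.toCA (by have := P.l16; have := P.hw2; omega)
  obtain ⟨u, hu⟩ := hA.two
  obtain ⟨hL, -, -, hKP, -⟩ := hE.lg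
  have hm := hE.ec.2.1
  obtain ⟨-, -, -, hN, hKP, -⟩ := hKP (m + 2)
  have hS : ∀ g, g ∈ P.w2.I ⊓ KP (m + 2) ↔ g ∈ P.w2.I ∧ 2 ^ (m + 2) ∣ a g := fun g =>
    and_congr_right fun hg => by rw [hu g hg, Units.dvd_mul_left]; exact hKP g
  have l1 : lg 1 = 0 := by simpa using hL.mul 1 1
  have l2 : a ι = 0 := by
    have := hL.mul (-1) (-1)
    rw [neg_one_mul, neg_neg, l1, ← two_mul] at this
    rw [hu ι hι, hc, (mul_eq_zero.1 this.symm).resolve_left two_ne_zero, mul_zero]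
  have l3 : ∀ v : ℤ_[2]ˣ, 4 ∣ (v : ℤ_[2]) - 1 ∨ 4 ∣ (v : ℤ_[2]) + 1 := fun v => by
    simpa only [zero_add, LA.c4] using (hL.dvd 0 v).1 (by simp)
  obtain ⟨i, hi⟩ : ∃ i, i = ar P.l (2 ^ (m + 2 + 2)) ι := ⟨_, rfl⟩
  let f := cf (Od P.l (2 ^ (m + 2 + 2))) i
  have p1 : ∀ g ∈ P.w2.I ⊓ KP (m + 2), ∃ e : _ ≃ _, ∀ j,
      (ar P.l (2 ^ (m + 2 + 2)) g)⁻¹ * f j = f (e j) := fun g hg => by
    obtain ⟨g1, g2⟩ := (hS g).1 hg
    have q1 : i * i ∈ Od P.l (2 ^ (m + 2 + 2)) := by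
      rw [hi, ← hR.mul ι (hI hι) ι (hI hι), hP _ _ (hI (mul_mem hι hι)),
        hA.add ι (hI hι) ι (hI hι), l2, hm, hc]
      simp
    have q2 : ar P.l (2 ^ (m + 2 + 2)) g ∈ Od P.l (2 ^ (m + 2 + 2)) ∨
        i * ar P.l (2 ^ (m + 2 + 2)) g ∈ Od P.l (2 ^ (m + 2 + 2)) := by
      refine (l3 (cyc g)).imp (fun z => (hP _ _ (hI g1)).2 ⟨g2, z⟩) fun z => ?_
      rw [hi, ← hR.mul ι (hI hι) g (hI g1), hP _ _ (hI (mul_mem hι g1)),
        hA.add ι (hI hι) g (hI g1), l2, hm, hc, zero_add, neg_one_mul, Units.val_neg, ← neg_add',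
        dvd_neg]
      exact ⟨g2, z⟩
    exact perm (G := RC P.l (2 ^ (m + 2 + 2))) (Od P.l (2 ^ (m + 2 + 2))) q1 q2
  have e1 : ∏ j, XO (f j) = UX i := by
    rw [Fintype.prod_sum_type, UX, finprod_eq_prod_of_fintype, Finset.prod_mul_distrib]
    rfl
  have e2 : H.y (2 ^ (m + 2 + 2)) + ac ι (H.y (2 ^ (m + 2 + 2))) = ∑ j, HP (f j) := by
    rw [hy, yH, if_pos hC, finsum_eq_sum_of_fintype, map_sum, Fintype.sum_sum_type]
    refine congrArg₂ _ rfl (Finset.sum_congr rfl fun b _ => ?_)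
    rw [(act hR (hI hι) _).1, ← hi]
    rfl
  choose η hη using fun j => (is_HP hE.tau hC (f j)).2
  have h0 := fun j => (is_HP hE.tau hC (f j)).1
  rw [e2, ← show ((P.w2.I ⊓ KP (m + 2) : Subgroup GQ) : Set GQ) = _ from Set.ext hS] at hK
  have h1 := hJKQ (P.w2.I ⊓ KP (m + 2)) γ _ _ _ η _ (fun g hg => Subgroup.mem_inf.2
    ⟨mul_mem (mul_mem (inv_mem hγ) hg.1) hγ, hN.1.conj_mem' g hg.2 γ⟩) hη h0 (fun g hg => (p1 g hg).imp fun e he j => by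
      rw [(act hR (hI hg.1) _).1, he]) hK
  obtain ⟨ζ, hζ⟩ := IsAlgClosed.exists_pow_nat_eq (-1 : Om) (n := 2 ^ (m + 2 + 1)) (by positivity)
  have hz := LA.prim hζ
  have hp : ∀ k : ℕ, cyc (γ ^ k) = cyc γ ^ k := map_pow (MonoidHom.mk' cyc hm) γ
  have ap : ∀ k : ℕ, a (γ ^ k) = k * a γ := fun k => by
    induction k with
    | zero => rw [hu _ (pow_mem hγ 0), hp, pow_zero, l1]; simp
    | succ k ih => rw [pow_succ, hA.add _ (hI (pow_mem hγ k)) γ (hI hγ), ih]; push_cast; ring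
  have hσ := hI (pow_mem hγ (2 ^ (m + 1)))
  have q3 : ar P.l (2 ^ (m + 2 + 2)) (γ ^ 2 ^ (m + 1)) ∉ Od P.l (2 ^ (m + 2 + 2)) := fun z => by
    have z1 := ((hP (m + 2) _ hσ).1 z).1
    rw [ap, Nat.cast_pow, Nat.cast_ofNat, ha.dvd_mul_right, pow_dvd_pow_iff two_ne_zero
      PadicInt.irreducible_p.not_isUnit] at z1
    omega
  have q4 : ar P.l (2 ^ (m + 1 + 2)) (γ ^ 2 ^ (m + 1)) ∈ Od P.l (2 ^ (m + 1 + 2)) := by
    refine (hP (m + 1) _ hσ).2 ⟨by rw [ap]; push_cast; exact dvd_mul_right _ _, ?_⟩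
    rw [hp, pow_succ', pow_mul', Units.val_pow_eq_pow_val, ← one_pow 2, sq_sub_sq]
    exact (l3 _).elim (fun z => z.mul_left _) fun z => z.mul_right _
  have h2 := hJW P (m + 1 + 2) i _ (by omega) hσ q3 q4
  have h3 := hJS P a (m + 2) ζ ι hA hP hM hz hι hc i hi
  have h4 := (hJLF P.w2 (m + 2) ζ P.hw2 hz).2.1
  refine hJLW P.w2 (m + 2) ζ (UX i) γ P.hw2 hM hz hγ (isUnit_of_mul_isUnit_right (hu γ hγ ▸ ha))
    (fun g hg => ?_) (e1 ▸ Finset.prod_ne_zero_iff.2 fun j _ => h0 j) ?_ (e1 ▸ h1)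
  · obtain ⟨e, he⟩ := p1 g hg
    rw [← e1, map_prod, ← e.prod_comp fun j => XO (f j)]
    exact Finset.prod_congr rfl fun j _ => by rw [(act hR (hI hg.1) _).2, he]
  · exact fin P.hw2 hM h2 h3 h4

theorem t_HEEG (hANT : ANT) (hHEX : HEX) (hJPX : JPX) : HEEG := fun P =>
  let ⟨a, h1, h2⟩ := hANT P
  let ⟨H, _, h3⟩ := hHEX P a h2
  ⟨a, h1, H, hJPX P a H h1 h2 h3⟩

end Pool.Agent.P.MP_8b7eba_nt.R2
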