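import Pool.Agent.P.MP_8b7eba_nt.R2.PWA

/-! Proof of KAP, GEN. -/

namespace Pool.Agent.P.MP_8b7eba_nt.R2

open scoped NNReal
open MP_9c97e9_nt (pm Is ap)
open BSD15 (OO Good nm cj)
open _root_.Pool.Agent.P.MP_8b7eba_nt.Mod (M2 G0 xx al)
open R1 (emb Dl psi Pz KF U8 IntPt y1)

namespace TKAP

theorem int_dvd {n : ℕ} {m : ℤ} : (2 : ℤ_[2]) ^ n ∣ m ↔ (2 : ℤ) ^ n ∣ m := by
  have := PadicInt.pow_p_dvd_int_iff (p := 2) n m
  exact_mod_cast this

theorem odd_pow {u : ℤ_[2]ˣ} {r n : ℕ} (hr : Odd r) (h : 2 ^ n ∣ (u : ℤ_[2]) ^ r - 1) :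
    2 ^ n ∣ (u : ℤ_[2]) - 1 := by
  rw [← geom_sum_mul] at h
  refine (IsUnit.dvd_mul_left ?_).1 h
  by_contra hu
  have h1 : ∀ x : ZMod 2, IsUnit x → x = 1 := by decide
  have h2 : PadicInt.toZMod (∑ i ∈ Finset.range r, (u : ℤ_[2]) ^ i) = 0 := by
    rw [← RingHom.mem_ker, PadicInt.ker_toZMod]
    exact hu
  rw [map_sum] at h2
  simp only [map_pow, h1 _ (u.isUnit.map PadicInt.toZMod), one_pow, Finset.sum_const,
    Finset.card_range, nsmul_eq_mul, mul_one] at h2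
  exact absurd ((ZMod.natCast_eq_zero_iff_even).1 h2) (Nat.not_even_iff_odd.2 hr)

variable {w : Pl} {x : Om}

theorem v_int (h2 : w.p = 2) {m : ℤ} {n : ℕ} : w.v m ≤ (2 ^ n)⁻¹ ↔ (2 : ℤ) ^ n ∣ m := by
  have := Pl.v_int_le_iff (w := w) (n := m) (k := n)
  rw [h2] at this
  exact_mod_cast this

theorem near (hA : CA) (h2 : w.p = 2) (hx : Fix w.D x) (hv : w.v x = 1) {n : ℕ} (hn : 0 < n) :
    ∃ m : ℤ, Odd m ∧ w.v (x - m) ≤ (2 ^ n)⁻¹ := by
  obtain ⟨m, hm⟩ := (hA.res w w.D w.loc_D).2.2.2.2.2 x hx hv.le n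
  rw [h2] at hm
  have hm' : w.v (x - (m : ℤ)) ≤ (2 ^ n)⁻¹ := by exact_mod_cast hm
  refine ⟨m, ?_, hm'⟩
  have h1 : w.v (x - (m : ℤ)) < w.v x := by
    rw [hv]
    exact hm'.trans_lt (inv_lt_one_of_one_lt₀ (one_lt_pow₀ one_lt_two hn.ne'))
  have h3 : w.v ((m : ℤ) : Om) = 1 := by
    rw [← hv, ← w.v.map_sub_eq_of_lt_left h1, sub_sub_cancel]
  rw [Pl.v_int_eq_one, h2] at h3
  rw [← Int.not_even_iff_odd, even_iff_two_dvd]
  exact_mod_cast h3

theorem art_iff (hA : CA) (h2 : w.p = 2) (hx : Fix w.D x) (hv : w.v x = 1) (n : ℕ) :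
    2 ^ n ∣ (art w x : ℤ_[2]) - 1 ↔ w.v (x - 1) ≤ (2 ^ n)⁻¹ := by
  rcases n.eq_zero_or_pos with rfl | hn
  · simp only [pow_zero, one_dvd, inv_one, true_iff]
    exact w.v.map_sub_le hv.le (by simp)
  obtain ⟨m, hm, h1⟩ := near hA h2 hx hv hn
  have h3 := ((hA.art.1 w).two h2).2 x hx m n hm h1 hn
  have h4 : 2 ^ n ∣ (art w x : ℤ_[2]) - 1 ↔ 2 ^ n ∣ ((m - 1 : ℤ) : ℤ_[2]) := by
    rw [← (art w x).isUnit.dvd_mul_right (a := 2 ^ n) (b := ((m - 1 : ℤ) : ℤ_[2])),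
      show ((m - 1 : ℤ) : ℤ_[2]) * art w x = (m * art w x - 1) - (art w x - 1) by push_cast; ring]
    exact ⟨fun h => dvd_sub h3 h, fun h => by simpa using dvd_sub h3 h⟩
  rw [h4, int_dvd, ← v_int h2]
  constructor
  · intro h
    rw [show x - 1 = (x - m) + ((m - 1 : ℤ) : Om) by push_cast; ring]
    exact w.v.map_add_le h1 h
  · intro h
    rw [show ((m - 1 : ℤ) : Om) = (x - 1) - (x - m) by push_cast; ring]
    exact w.v.map_sub_le h h1

variable {P : Pre} {α β : OO P.l}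

/-- the quotient by the conjugate -/
noncomputable def qq (β : OO P.l) : Om := eO P.l β / eO P.l (star β)

theorem qq_mul : qq (α * β) = qq α * qq β := by
  simp only [qq, star_mul', map_mul, div_mul_div_comm]

theorem qq_congr (h : Ideal.span {α} = Ideal.span {β}) : qq α = qq β := by
  obtain ⟨u, rfl⟩ := Ideal.span_singleton_eq_span_singleton.1 h
  have h1 : (u : OO P.l).norm = 1 :=
    (Int.isUnit_iff.1 (u.isUnit.map QuadraticAlgebra.norm)).resolve_right fun e => by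
      have := BSD15.norm_nonneg' (u : OO P.l)
      omega
  rcases BSD15.eq_of_norm_one h1 with e | e <;> simp [e, qq]

theorem odd_norm (h : Ad 2 (Ideal.span {β})) : Odd β.norm := by
  have := (ad_span.1 h).2
  exact Int.isCoprime_two_right.1 (by exact_mod_cast this)

theorem v_one (h : Ad 2 (Ideal.span {β})) :
    P.w2.v (eO P.l β) = 1 ∧ P.w2.v (eO P.l (star β)) = 1 := by
  have h1 : P.w2.v (eO P.l β) * P.w2.v (eO P.l (star β)) = 1 := by
    rw [← map_mul, eO_mul_star, Pl.v_int_eq_one, P.hw2]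
    have := odd_norm h
    rw [← Int.not_even_iff_odd, even_iff_two_dvd] at this
    exact_mod_cast this
  have h2 := v_eO_le (w := P.w2) β
  have h3 := v_eO_le (w := P.w2) (star β)
  constructor
  · exact le_antisymm h2 (h1 ▸ mul_le_of_le_one_right' h3)
  · exact le_antisymm h3 (h1 ▸ mul_le_of_le_one_left' h2)

theorem v_qq (h : Ad 2 (Ideal.span {β})) : P.w2.v (qq β) = 1 := by
  rw [qq, map_div₀, (v_one h).1, (v_one h).2, div_one]

theorem hD (hB : CB) : P.w2.D ≤ P.GK :=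
  (hB.karith P).2.2.2.1 _ (by rw [P.hw2]; exact ⟨15 * P.d, by push_cast; ring⟩)

theorem fix_qq (hB : CB) : Fix P.w2.D (qq β) := ((fix_eO β).div (fix_eO _)).mono (hD hB)

theorem qq_ne (h : Ad 2 (Ideal.span {β})) : qq β ≠ 0 := fun e => by
  have := v_qq h
  rw [e, map_zero] at this
  exact zero_ne_one this

/-- the character of the elements -/
noncomputable def kk (β : OO P.l) : ℤ_[2]ˣ := art P.w2 (qq β)

theorem kk_mul (hB : CB) (h : Ad 2 (Ideal.span {α})) (h' : Ad 2 (Ideal.span {β})) :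
    kk (α * β) = kk α * kk β := by
  rw [kk, qq_mul]
  exact (hB.art.1 _).mul _ _ (fix_qq hB) (fix_qq hB) (qq_ne h) (qq_ne h')

theorem ad_pow (h : Ad 2 (Ideal.span {β})) (n : ℕ) : Ad 2 (Ideal.span {β ^ n}) := by
  rw [← Ideal.span_singleton_pow]
  exact h.pow n

theorem kk_pow (hB : CB) (h : Ad 2 (Ideal.span {β})) (n : ℕ) : kk (β ^ n) = kk β ^ n := by
  induction n with
  | zero =>
    have h1 := kk_mul hB (ad_pow h 0) (ad_pow h 0)
    rw [pow_zero, mul_one] at h1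
    rw [pow_zero, pow_zero]
    exact left_eq_mul.1 h1
  | succ n ih => rw [pow_succ, kk_mul hB (ad_pow h n) h, ih, pow_succ]

theorem v_sO : P.w2.v (sO P.l) = 1 := by
  have h1 : P.w2.v (sO P.l) ^ 2 = 1 := by
    rw [← map_pow, sO_spec.1, Valuation.map_neg, ← Int.cast_natCast, Pl.v_int_eq_one, P.hw2]
    have := P.l16
    omega
  exact (pow_eq_one_iff_of_nonneg zero_le two_ne_zero).1 h1

theorem kk_iff (hB : CB) (h : Ad 2 (Ideal.span {β})) (n : ℕ) :
    2 ^ n ∣ (kk β : ℤ_[2]) - 1 ↔ (2 : ℤ) ^ n ∣ β.im := by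
  have h0 : eO P.l (star β) ≠ 0 := fun e => by
    have := (v_one h).2
    rw [e, map_zero] at this
    exact zero_ne_one this
  rw [kk, art_iff hB.toCA P.hw2 (fix_qq hB) (v_qq h), qq, div_sub_one h0, eO_sub_star, map_div₀,
    map_mul, (v_one h).2, v_sO, mul_one, div_one, v_int P.hw2]

theorem sq8 {m : ℤ} (h : Odd m) : (2 : ℤ) ^ 3 ∣ m ^ 2 - 1 := by
  obtain ⟨k, rfl⟩ := h
  obtain ⟨j, hj⟩ := Int.even_mul_succ_self k
  exact ⟨j, by linear_combination 4 * hj⟩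

theorem kk8 (hB : CB) (h : Ad 2 (Ideal.span {β})) : 8 ∣ (kk β : ℤ_[2]) - β.norm := by
  obtain ⟨h1, h2⟩ := v_one h
  have h0 : eO P.l (star β) ≠ 0 := fun e => by
    rw [e, map_zero] at h2
    exact zero_ne_one h2
  obtain ⟨m, hm, h3⟩ := near hB.toCA P.hw2 ((fix_eO (star β)).mono (hD hB)) h2 three_pos
  have h4 : P.w2.v (qq β - β.norm) ≤ (2 ^ 3)⁻¹ := by
    rw [show qq β - β.norm = -(eO P.l β / eO P.l (star β)) * ((eO P.l (star β) - m) *
      (eO P.l (star β) + m) + ((m ^ 2 - 1 : ℤ) : Om)) by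
        rw [← eO_mul_star, qq]; push_cast; field_simp; ring,
      map_mul, Valuation.map_neg, map_div₀, h1, h2, div_one, one_mul]
    refine P.w2.v.map_add_le ?_ ((v_int P.hw2).2 (sq8 hm))
    rw [map_mul]
    exact (mul_le_of_le_one_right' (P.w2.v.map_add_le h2.le (P.w2.v_int_le m))).trans h3
  have h5 := ((hB.art.1 _).two P.hw2).2 _ (fix_qq hB) _ 3 (odd_norm h) h4 three_pos
  have h6 := int_dvd.2 (sq8 (odd_norm h))
  rw [LA.c8] at h5 h6
  rw [show (kk β : ℤ_[2]) - β.norm = β.norm * (β.norm * art P.w2 (qq β) - 1) -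
    ((β.norm ^ 2 - 1 : ℤ) : ℤ_[2]) * art P.w2 (qq β) by rw [kk]; push_cast; ring]
  exact dvd_sub (h5.mul_left _) (h6.mul_right _)

theorem pow8 {m : ℤ} {h : ℕ} (hm : Odd m) (hh : Odd h) : (2 : ℤ) ^ 3 ∣ m ^ h - m := by
  obtain ⟨k, rfl⟩ := hh
  rw [show m ^ (2 * k + 1) - m = ((m ^ 2) ^ k - 1 ^ k) * m by ring]
  exact ((sq8 hm).trans (sub_dvd_pow_sub_pow _ _ k)).mul_right m

theorem lg_zero (hB : CB) (h : Ad 2 (Ideal.span {β})) (h0 : lg (kk β) = 0) :
    Ideal.span {β} = Ideal.span {star β} := by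
  have h1 : (β ^ 2).im = 0 := by
    refine Int.eq_zero_of_abs_lt_dvd ((kk_iff hB (ad_pow h 2) (β ^ 2).im.natAbs).1 ?_) ?_
    · rw [kk_pow hB h, Units.val_pow_eq_pow_val,
        show ∀ u : ℤ_[2], u ^ 2 - 1 = (u + 1) * (u - 1) from fun u => by ring]
      have h2 := (pow_dvd_pow (2 : ℤ_[2]) (Nat.le_add_right (β ^ 2).im.natAbs 2))
      rcases (hB.lg.1.dvd (β ^ 2).im.natAbs (kk β)).1 (h0 ▸ dvd_zero _) with e | e
      · exact (h2.trans e).mul_left _
      · exact (h2.trans e).mul_right _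
    · rw [Int.abs_eq_natAbs]
      exact_mod_cast Nat.lt_two_pow_self
  have h2 : β ^ 2 = star β ^ 2 := by
    rw [← star_pow]
    ext <;> simp only [QuadraticAlgebra.re_star, QuadraticAlgebra.im_star, h1] <;> simp
  rcases sq_eq_sq_iff_eq_or_eq_neg.1 h2 with e | e
  · rw [← e]
  · rw [← Ideal.span_singleton_neg (star β), ← e]

/-! ### Genus theory -/

theorem jac {d : ℤ} (h4 : d % 4 = 1) {p : ℕ} (hp : Odd p) : jacobiSym p d.natAbs = jacobiSym d p := by
  have ho := Nat.odd_iff.1 hp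
  rcases d.natAbs_eq with e | e
  · conv_rhs => rw [e]
    exact (jacobiSym.quadratic_reciprocity_one_mod_four (by omega) hp).symm
  · conv_rhs => rw [e]
    have h3 : d.natAbs % 4 = 3 := by omega
    rw [jacobiSym.neg _ hp]
    rcases (show p % 4 = 1 ∨ p % 4 = 3 by omega) with e | e
    · rw [jacobiSym.quadratic_reciprocity_one_mod_four e (Nat.odd_iff.2 (by omega)),
        ZMod.χ₄_nat_one_mod_four e, one_mul]
    · rw [jacobiSym.quadratic_reciprocity_three_mod_four e h3, ZMod.χ₄_nat_three_mod_four e,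
        neg_one_mul]

variable {l : ℕ} [Hl l] {c : ℕ} {I J : Ideal (OO l)}

theorem jac_oc {γ : OO l} (h : Oc c γ) : jacobiSym (nm (Ideal.span {γ})) c = 1 := by
  obtain ⟨k, hk⟩ := h.2.1
  have e : γ.norm = γ.re ^ 2 + c * (γ.re * k + (((l + 1) / 4 : ℕ) : ℤ) * c * k ^ 2) := by
    rw [QuadraticAlgebra.norm_def, hk]; ring
  have h1 := h.2.2
  rw [e, IsCoprime.add_mul_left_left_iff, IsCoprime.pow_left_iff two_pos] at h1
  rw [BSD15.nm_span, jacobiSym.mod_left, e, Int.add_mul_emod_self_left, ← jacobiSym.mod_left]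
  exact jacobiSym.sq_one' (Int.isCoprime_iff_gcd_eq_one.1 h1)

/-- the genus character -/
noncomputable def gc (a : RC l c) : ZMod 2 := if jacobiSym (nm (rp a)) c = 1 then 0 else 1

theorem gc_cl (h : Ad c I) : gc (cl c I) = if jacobiSym (nm I) c = 1 then 0 else 1 := by
  obtain ⟨h1, h2⟩ := rp_spec (cl c I)
  obtain ⟨α, β, h3, h4, e⟩ := (cl_eq_iff h1 h).1 h2
  have e' := congrArg (fun K => jacobiSym (nm K) c) e
  simp only [BSD15.nm_mul, Nat.cast_mul, jacobiSym.mul_left, jac_oc h3, jac_oc h4, one_mul] at e'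
  rw [gc, e']

theorem gc_mul (a b : RC l c) : gc (a * b) = gc a + gc b := by
  obtain ⟨h1, h2⟩ := rp_spec a
  obtain ⟨h3, h4⟩ := rp_spec b
  rw [← h2, ← h4, ← cl_mul h1 h3, gc_cl h1, gc_cl h3, gc_cl (h1.mul h3), BSD15.nm_mul, Nat.cast_mul,
    jacobiSym.mul_left]
  rcases jacobiSym.eq_one_or_neg_one (a := nm (rp a)) (b := c) (by exact_mod_cast h1.2) with e | e <;>
    rcases jacobiSym.eq_one_or_neg_one (a := nm (rp b)) (b := c) (by exact_mod_cast h3.2) with e' | e' <;>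
    rw [e, e'] <;> decide

theorem gc_od {a : RC l c} (h : a ∈ Od l c) : gc a = 0 := by
  obtain ⟨r, ⟨k, rfl⟩, h1⟩ := mem_Od'.1 h
  have h2 : gc (1 : RC l c) = 0 := by
    have := gc_mul (1 : RC l c) 1
    rw [CharTwo.add_self_eq_zero] at this
    exact (congrArg gc (mul_one 1)).symm.trans this
  rw [← h2, ← h1, pow_succ, two_mul, pow_add, gc_mul, gc_mul, CharTwo.add_self_eq_zero, zero_add]

end TKAP

open TKAP in
theorem t_KAP (hB : CB) : KAP := by
  intro P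
  obtain ⟨h, hh, hex⟩ := exists_h P.l
  choose! gen h0 hg using hex
  have ha : ∀ I, Ad 2 I → Ad 2 (Ideal.span {gen I}) := fun I hI => by
    rw [hg I hI.1]
    exact hI.pow h
  refine ⟨fun I => kk (gen I), h, hh, fun I J hI hJ => ?_, fun β hβ => ?_, fun I n hI => ?_,
    fun I hI => ?_, fun I hI e => ?_⟩
  · rw [← kk_mul hB (ha I hI) (ha J hJ)]
    refine congrArg (art P.w2) (qq_congr ?_)
    rw [← Ideal.span_singleton_mul_span_singleton, hg I hI.1, hg J hJ.1, hg _ (hI.mul hJ).1, mul_pow]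
  · change kk _ = kk β ^ h
    rw [← kk_pow hB hβ]
    refine congrArg (art P.w2) (qq_congr ?_)
    rw [hg _ hβ.1, Ideal.span_singleton_pow]
  · have key : ∀ r : ℕ, cl (2 ^ n) I ^ (h * r) = 1 ↔ 2 ^ n ∣ (kk (gen I) : ℤ_[2]) ^ r - 1 := fun r => by
      rw [← cl_pow (ad_two_pow hI), pow_mul, ← hg I hI.1, Ideal.span_singleton_pow,
        cl_span_eq_one (ad_two_pow (ad_pow (ha I hI) r)), ← Units.val_pow_eq_pow_val,
        ← kk_pow hB (ha I hI), kk_iff hB (ad_pow (ha I hI) r)]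
      push_cast
      rfl
    rw [mem_Od']
    constructor
    · rintro ⟨r, hr, e⟩
      exact odd_pow hr ((key r).1 (by rw [mul_comm, pow_mul, e, one_pow]))
    · intro e
      exact ⟨h * 1, by rwa [mul_one], (key 1).2 (by rwa [pow_one])⟩
  · have h1 := kk8 hB (ha I hI)
    have h2 : (gen I).norm = (nm I : ℤ) ^ h := by
      rw [← BSD15.nm_span, hg I hI.1]
      exact_mod_cast map_pow Ideal.absNorm I h
    have h3 := int_dvd.2 (pow8 (m := nm I) (by exact_mod_cast Nat.coprime_two_right.1 hI.2) hh)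
    rw [LA.c8] at h3
    rw [h2] at h1
    have := dvd_add h1 h3
    push_cast at this
    simpa using this
  · have h1 := lg_zero hB (ha I hI) e
    rw [← BSD15.cj_span, hg I hI.1] at h1
    rw [h1]
    exact Ideal.map_pow _ _ _

open TKAP in
theorem t_GEN (hB : CB) (hARX : ARX) : GEN := by
  intro P g hg h
  have hd : P.d ≠ 0 := P.sq.ne_zero
  have hc : Cd P.d.natAbs := ⟨Int.natAbs_ne_zero.2 hd, by
    have := Int.isCoprime_iff_gcd_eq_one.1 P.cop.of_mul_right_left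
    exact this⟩
  have hR := hARX P _ hc
  obtain ⟨B, hF⟩ := hR.fr
  have key := ext_frob (P := P) hB.toCA (G := Multiplicative (ZMod 2))
    (f := fun g => .ofAdd (gc (ar P.l P.d.natAbs g))) (f' := fun g => .ofAdd (qz P.d g))
    (hR.sm.comp fun a => Multiplicative.ofAdd (gc a))
    ((isCh_qz P.d).1.comp fun a => Multiplicative.ofAdd a)
    (fun g hg g' hg' => ⟨by rw [hR.mul g hg g' hg', gc_mul, ofAdd_add],
      by rw [(isCh_qz (H := ⊤) P.d).2 g trivial g' trivial, ofAdd_add]⟩)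
    (B + 2 * P.d.natAbs + P.l) (fun w φ hw hφ hf => ?_) g hg
  · rw [gc_od h] at key
    exact (qz_eq_zero P.hdl).1 (Multiplicative.ofAdd.injective key).symm
  have h1 : ¬ w.p ∣ 2 * P.d.natAbs := fun e => by
    have := Nat.le_of_dvd (by have := hc.1; omega) e
    omega
  have h2 : ¬ (w.p : ℤ) ∣ 2 * P.d := fun e => h1 (by
    have := Int.natAbs_dvd_natAbs.2 e
    simpa [Int.natAbs_mul] using this)
  have h3 := (pw_split hB.toCA ((D_le_GK hB.toCA (by omega) hf).2 hφ)).1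
  rw [hF w φ (by omega) hφ hf, gc_cl (ad_pw.2 fun e => h1 (e.mul_left 2)), h3,
    jac (by have := P.d8; omega) (w.prime.odd_of_ne_two fun e => h1 (by rw [e]; exact dvd_mul_right 2 _))]
  congr 1
  refine LA.ext ?_
  rw [(qz_frob hB.toCA h2 hf).1]
  simp

end Pool.Agent.P.MP_8b7eba_nt.R2
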