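import Pool.Agent.P.MP_8b7eba_nt.R2.PWA

/-! Proof of SEP2, ARL. -/

namespace Pool.Agent.P.MP_8b7eba_nt.R2

open scoped NNReal
open MP_9c97e9_nt (pm Is ap)
open BSD15 (OO Good nm cj)
open _root_.Pool.Agent.P.MP_8b7eba_nt.Mod (M2 G0 xx al)
open R1 (emb Dl psi Pz KF U8 IntPt y1)

namespace TSEP2

theorem odd_pow {G : Type} [CommGroup G] [Finite G] (x : G)
    (h : ∀ (n : ℕ) (χ : G → ZMod (2 ^ n)), (∀ a b, χ (a * b) = χ a + χ b) → χ x = 0) :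
    ∃ m : ℕ, Odd m ∧ x ^ m = 1 := by
  classical
  obtain ⟨ι, _, n, hn, ⟨e⟩⟩ := CommGroup.equiv_prod_multiplicative_zmod_of_finite G
  have key : ∀ i, ∃ m : ℕ, Odd m ∧ e x i ^ m = 1 := by
    intro i
    obtain ⟨k, m, hm, hk⟩ := Nat.exists_eq_two_pow_mul_odd (n := n i) (by have := hn i; omega)
    have hd : 2 ^ k ∣ n i := ⟨m, hk⟩
    have : NeZero (n i) := ⟨by have := hn i; omega⟩
    have h0 := h k (fun a => ZMod.castHom hd (ZMod (2 ^ k)) (e a i).toAdd) fun a b => by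
      rw [map_mul, Pi.mul_apply, toAdd_mul, map_add]
    rw [← ZMod.natCast_zmod_val (e x i).toAdd, map_natCast, ZMod.natCast_eq_zero_iff] at h0
    obtain ⟨t, ht⟩ := h0
    refine ⟨m, hm, ?_⟩
    apply Multiplicative.toAdd.injective
    rw [toAdd_pow, toAdd_one, ← ZMod.natCast_zmod_val (e x i).toAdd, ht, nsmul_eq_mul,
      ← Nat.cast_mul, ZMod.natCast_eq_zero_iff]
    exact ⟨t, by rw [hk]; ring⟩
  choose m hm hx using key
  refine ⟨∏ i, m i, Finset.prod_induction _ Odd (fun _ _ => Odd.mul) odd_one fun i _ => hm i, ?_⟩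
  apply e.injective
  rw [map_pow, map_one]
  funext i
  obtain ⟨t, ht⟩ := Finset.dvd_prod_of_mem m (Finset.mem_univ i)
  rw [Pi.pow_apply, ht, pow_mul, hx, one_pow, Pi.one_apply]

section
variable {G A : Type} [Group G] [AddCommGroup A] {χ : G → A}

theorem one (h : ∀ a b, χ (a * b) = χ a + χ b) : χ 1 = 0 := by
  have := h 1 1
  rw [mul_one] at this
  exact left_eq_add.1 this

theorem inv (h : ∀ a b, χ (a * b) = χ a + χ b) (a : G) : χ a⁻¹ = -χ a := by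
  have := h a⁻¹ a
  rw [inv_mul_cancel, one h] at this
  exact eq_neg_of_add_eq_zero_left this.symm

theorem pow (h : ∀ a b, χ (a * b) = χ a + χ b) (a : G) (r : ℕ) : χ (a ^ r) = r • χ a := by
  induction r with
  | zero => rw [pow_zero, one h, zero_smul]
  | succ r ih => rw [pow_succ, h, ih, succ_nsmul]

end

theorem idem {G : Type} [Group G] {a : G} (h : a = a * a) : a = 1 := left_eq_mul.1 h

theorem bot (hS : SEP2) {G : Type} [CommGroup G] [Finite G] (x : G)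
    (h : ∀ (n : ℕ) (χ : G → ZMod (2 ^ n)), (∀ a b, χ (a * b) = χ a + χ b) → χ x = 0) :
    Odd (orderOf x) := by
  obtain ⟨b, hb, ho⟩ := hS _ ⊥ x fun n χ h1 _ => h n χ h1
  rwa [Subgroup.mem_bot.1 hb, inv_one, one_mul] at ho

theorem zero_of_ec (hE : IsEc ec) {n : ℕ} {a : ZMod (2 ^ n)}
    (h : ec (-((a.val : ℚ_[2])) / 2 ^ n) = 1) : a = 0 := by
  have h2 : ‖(2 : ℚ_[2])‖ = 2⁻¹ := by exact_mod_cast Padic.norm_p (p := 2)
  rw [hE.eq_one, norm_div, norm_neg, norm_pow, h2, div_le_one (by positivity)] at h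
  have h3 : ((2 : ℕ) ^ n : ℤ) ∣ (a.val : ℤ) := by
    rw [← Padic.norm_int_le_pow_iff_dvd, Int.cast_natCast]
    simpa using h
  rw [← ZMod.natCast_zmod_val a, ZMod.natCast_eq_zero_iff]
  exact_mod_cast h3

theorem lgc (hLGC : LGC) {P : Pre} {c n : ℕ} (hc : Cd c) (hA : IsAr P c)
    {χ : RC P.l c → ZMod (2 ^ n)} (h : ∀ a b, χ (a * b) = χ a + χ b) :
    IsCh P.GK (fun g => χ (ar P.l c g)) ∧
    (∀ (w : Pl) (β : OO P.l) (u : Om), Ad c (Ideal.span {β}) → Fix (w.D ⊓ P.GK) u → w.v u = 1 →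
      w.v (u - eO P.l β) ≤ w.v c →
      (∀ w' : Pl, w'.p ∣ c → Out P.GK {w} w' → w'.v (eO P.l β - 1) ≤ w'.v c) →
      nv w (w.D ⊓ P.GK) (cup (fun g => χ (ar P.l c g)) u) =
        ec (-((χ (cl c (Ideal.span {β}))).val : ℚ_[2]) / 2 ^ n)) ∧
    (∀ w : Pl, ¬ w.p ∣ c → ∀ g ∈ w.I ⊓ P.GK, χ (ar P.l c g) = 0) ∧
    ∀ (w : Pl) (φ : GQ), ¬ w.p ∣ 2 * c * P.l → φ ∈ P.GK → w.IsFrob 1 φ →
      χ (ar P.l c φ) = χ (cl c (pw P.l w)) := by
  have h1 : IsCh P.GK (fun g => χ (ar P.l c g)) :=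
    ⟨hA.sm.comp χ, fun g hg k hk => by simp only [hA.mul g hg k hk, h]⟩
  obtain ⟨B, hB⟩ := hA.fr
  exact ⟨h1, hLGC P n c _ (fun I => χ (cl c I)) hc.1 h1
    (fun s hs => by simp only [(hA.dih s hs).1, one h])
    (fun I J hI hJ => by simp only [cl_mul hI hJ, h])
    (fun β hβ => by simp only [cl_span hβ, one h])
    ⟨B, fun w φ h1 h2 h3 => by simp only [hB w φ h1 h2 h3]⟩⟩

end TSEP2

open TSEP2

theorem t_SEP2 : SEP2 := by
  intro G _ _ B x h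
  obtain ⟨m, hm, hx⟩ := odd_pow (x : G ⧸ B) fun n χ hχ =>
    h n (fun a => χ (a : G ⧸ B)) (fun a b => by rw [QuotientGroup.mk_mul, hχ]) fun b hb => by
      rw [(QuotientGroup.eq_one_iff b).2 hb, one hχ]
  rw [← QuotientGroup.mk_pow, QuotientGroup.eq_one_iff] at hx
  obtain ⟨k, r, hr, hk⟩ := Nat.exists_eq_two_pow_mul_odd (orderOf_pos x).ne'
  have hc : IsCoprime (m : ℤ) (2 ^ k : ℕ) :=
    Nat.isCoprime_iff_coprime.2 (Nat.Coprime.pow_right k (Nat.coprime_two_right.2 hm))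
  obtain ⟨a, b, hab⟩ := hc
  refine ⟨(x ^ m) ^ a, B.zpow_mem hx a, hr.of_dvd_nat (orderOf_dvd_of_pow_eq_one ?_)⟩
  have e : ((x ^ m) ^ a)⁻¹ * x = (x ^ (2 ^ k : ℕ)) ^ b := by
    rw [inv_mul_eq_iff_eq_mul, ← zpow_natCast, ← zpow_natCast x, ← zpow_mul, ← zpow_mul,
      ← zpow_add, mul_comm (m : ℤ), mul_comm _ b, hab, zpow_one]
  rw [e, ← zpow_natCast, ← zpow_mul, mul_comm, zpow_mul, zpow_natCast, ← pow_mul, ← hk,
    pow_orderOf_eq_one, one_zpow]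

theorem t_ARL (hB : CB) (hARX : ARX) (hLGC : LGC) (hSEP2 : SEP2) : ARL := by
  intro P c w hc
  have sep : ∀ x : RC P.l c, (∀ (n : ℕ) (χ : RC P.l c → ZMod (2 ^ n)),
      (∀ a b, χ (a * b) = χ a + χ b) → χ x = 0) → x ∈ Od P.l c := by
    intro x h
    have := finite_RC (l := P.l) hc.1
    exact mem_Od.2 (bot hSEP2 x h)
  refine ⟨fun h g hg => sep _ fun n χ hχ => (lgc hLGC hc (hARX P c hc) hχ).2.2.1 w h g hg,
    fun h φ h1 h2 => sep _ fun n χ hχ => ?_, fun h hD x hx => ?_⟩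
  · rw [hχ, inv hχ, (lgc hLGC hc (hARX P c hc) hχ).2.2.2 w φ h h1 h2, neg_add_cancel]
  have hq := w.prime
  have h30 : ¬ w.p ∣ 30 := fun e => h ((e.mul_right _).mul_right _)
  have h2 : w.p ≠ 2 := fun e => h30 (by rw [e]; norm_num)
  have hl : w.p ≠ P.l := fun e => h (by rw [e]; exact (Nat.dvd_mul_left _ _).mul_right _)
  have hc' : Cd (c * w.p) := ⟨mul_ne_zero hc.1 hq.ne_zero, Nat.Coprime.mul_left hc.2
    ((Nat.Prime.coprime_iff_not_dvd hq).2 fun e => h30 (e.trans (by norm_num)))⟩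
  have hA := hARX P _ hc'
  have hI : w.I ≤ P.GK := I_le_GK hB.toCA hl
  have a1 : ar P.l (c * w.p) 1 = 1 := by
    have := hA.mul 1 (one_mem _) 1 (one_mem _)
    rw [mul_one] at this
    exact idem this
  let B : Subgroup (RC P.l (c * w.p)) :=
    { carrier := {y | ∃ i ∈ w.I, ar P.l (c * w.p) i = y}
      one_mem' := ⟨1, one_mem _, a1⟩
      mul_mem' := by
        rintro _ _ ⟨i, hi, rfl⟩ ⟨j, hj, rfl⟩
        exact ⟨i * j, mul_mem hi hj, hA.mul i (hI hi) j (hI hj)⟩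
      inv_mem' := by
        rintro _ ⟨i, hi, rfl⟩
        refine ⟨i⁻¹, inv_mem hi, eq_inv_of_mul_eq_one_left ?_⟩
        rw [← hA.mul _ (hI (inv_mem hi)) _ (hI hi), inv_mul_cancel, a1] }
  have := finite_RC (l := P.l) hc'.1
  suffices hs : ∀ (n : ℕ) (χ : RC P.l (c * w.p) → ZMod (2 ^ n)),
      (∀ a b, χ (a * b) = χ a + χ b) → (∀ b ∈ B, χ b = 0) → χ x = 0 by
    obtain ⟨_, ⟨i, hi, rfl⟩, ho⟩ := hSEP2 _ B x hs
    exact ⟨i, hi, mem_Od.2 ho⟩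
  intro n χ hχ h0
  obtain ⟨r, hr, hxr⟩ := mem_Od'.1 hx
  rw [← map_pow, mem_ker_pr _ hc'.1] at hxr
  obtain ⟨β, ⟨γ, hγ⟩, hβ, e⟩ := hxr
  obtain ⟨k1, k2, -⟩ := lgc hLGC hc' hA hχ
  have hK : IsOpen (P.GK : Set GQ) := isOpen_stab _
  have hv : w.v (eO P.l β) = 1 := (v_eq_one rfl).2 fun ⟨J, hJ⟩ => by
    rw [hJ] at hβ
    exact ad_pw.1 hβ.of_mul.1 (Nat.dvd_mul_left _ _)
  have hf : Fix (w.D ⊓ P.GK) (eO P.l β) := (fix_eO β).mono inf_le_right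
  have e1 := k2 w β _ hβ hf hv (by simp) fun w' _ ho => by
    by_cases hp : w'.p = w.p
    · obtain ⟨u, hu, rfl⟩ := (pw_inert hB.toCA hl hD).2 w' hp
      exact (ho u⁻¹ (inv_mem hu) (by simp)).elim
    · have v1 : w'.v (w.p : Om) = 1 := by
        have := (Pl.v_int_eq_one (w := w') (n := w.p)).2 fun e =>
          hp ((Nat.prime_dvd_prime_iff_eq w'.prime hq).1 (Int.natCast_dvd_natCast.1 e))
        simpa using this
      rw [← map_one (eO P.l), ← map_sub, hγ, map_mul, map_natCast, map_mul, Nat.cast_mul, map_mul,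
        v1]
      exact mul_le_mul_right (v_eO_le γ) _
  obtain ⟨f, φ, -, p1, p2, -, p3, -⟩ := hB.frob w _ (w.loc_inf hK)
  obtain ⟨π, -, p4, -⟩ := hB.unif w _ hK
  have e2 := hB.locv w _ n f _ φ π (eO P.l β) 0 h2 (w.loc_inf hK) (k1.mono inf_le_right)
    (fun g hg => h0 _ ⟨g, hg.1, rfl⟩) p1 p2 p3 p4 hf (fun z => by simp [z] at hv) (by simp [hv])
  rw [e1] at e2
  have e3 := zero_of_ec hB.ec.1 (e2.trans ((hB.ec.1.eq_one _).2 (by simp)))
  rw [← e, pow hχ, nsmul_eq_mul] at e3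
  exact ((ZMod.isUnit_iff_coprime r _).2
    (Nat.Coprime.pow_right n (Nat.coprime_two_right.2 hr))).mul_right_eq_zero.1 e3

end Pool.Agent.P.MP_8b7eba_nt.R2
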