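import Pool.Agent.P.MP_8b7eba_nt.R2.AllB
import Pool.Agent.P.MP_8b7eba_nt.R2.TANT
import Pool.Agent.P.MP_8b7eba_nt.R2.TARX
import Pool.Agent.P.MP_8b7eba_nt.R2.THE1
import Pool.Agent.P.MP_8b7eba_nt.R2.TJD
import Pool.Agent.P.MP_8b7eba_nt.R2.TJF
import Pool.Agent.P.MP_8b7eba_nt.R2.TJG1
import Pool.Agent.P.MP_8b7eba_nt.R2.TJLF
import Pool.Agent.P.MP_8b7eba_nt.R2.TJW
import Pool.Agent.P.MP_8b7eba_nt.R2.TKAP
import Pool.Agent.P.MP_8b7eba_nt.R2.TLGC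
import Pool.Agent.P.MP_8b7eba_nt.R2.TSEP2
import Pool.Agent.P.MP_8b7eba_nt.R2.TTRI

/-! The Heegner system exists. -/

namespace Pool.Agent.P.MP_8b7eba_nt.R2

theorem a_JF : JF := t_JF

theorem a_JINJ : JINJ := t_JINJ a_JF

theorem a_CE : CE :=
  ⟨a_CF, a_JF, a_JINJ⟩

theorem a_FRB : FRB := t_FRB a_CE

theorem a_ARX : ARX := t_ARX a_CE a_FRB

theorem a_LGC : LGC := t_LGC a_CB

theorem a_KAP : KAP := t_KAP a_CB

theorem a_ANT : ANT := t_ANT a_CB a_ARX a_LGC a_KAP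

theorem a_SEP2 : SEP2 := t_SEP2

theorem a_ARL : ARL := t_ARL a_CB a_ARX a_LGC a_SEP2

theorem a_GEN : GEN := t_GEN a_CB a_ARX

theorem a_TRI : TRI := t_TRI a_CE

theorem a_TRS : TRS := t_TRS a_CE

theorem a_HE1 : HE1 := t_HE1 a_CE a_ARX

theorem a_HEX : HEX := t_HEX a_CE a_ARX a_ARL a_GEN a_TRI a_TRS a_HE1

theorem a_JLF : JLF := t_JLF a_CA

theorem a_JLW : JLW := t_JLW a_CA a_JLF

theorem a_JKQ : JKQ := t_JKQ

theorem a_JG1 : JG1 := t_JG1 a_CE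

theorem a_JC : JC := t_JC a_CE a_JG1

theorem a_JR : JR := t_JR

theorem a_JD : JD := t_JD a_CE a_ARX a_JG1 a_JC a_JR a_JLF

theorem a_JS : JS := t_JS a_CE a_ARX a_ARL a_JLF a_JD

theorem a_JW : JW := t_JW a_CE a_ARX a_JC

theorem a_JPX : JPX := t_JPX a_CE a_ARX a_JLF a_JLW a_JKQ a_JS a_JW

theorem a_HEEG : HEEG := t_HEEG a_ANT a_HEX a_JPX

end Pool.Agent.P.MP_8b7eba_nt.R2
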