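import Pool.Agent.P.MP_8b7eba_nt.R2.DefsG
import Pool.Agent.P.MP_8b7eba_nt.R1.Ari

/-! Proof of ARI. -/

namespace Pool.Agent.P.MP_8b7eba_nt.R2

open BSD15 (Adm lam Xp XJ Rn cfid_I)
open R1
open Finset

namespace TARI

/-- the divisor sum with local weights -/
theorem key {n M : ℕ} (hn : Squarefree n) (hM : M ≠ 0) (x : ℕ → ℤ) :
    ∑ e ∈ M.divisors, XJ n n.primeFactors e *
      ∏ p ∈ n.primeFactors.filter (· ∣ M), (cfid_I p e + x p * cfid_I p (M / e)) =
      Rn n M * ∏ p ∈ n.primeFactors.filter (· ∣ M), (1 + x p) := by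
  simp only [BSD15.cfid_prod_add, mul_sum]
  rw [sum_comm]
  refine sum_congr rfl fun S _ => ?_
  rw [← BSD15.cfid_key hn hM (filter_subset (· ∣ M) _) (fun q h1 h2 => mem_filter.2 ⟨h1, h2⟩)
    (· ∈ S), sum_mul]
  refine sum_congr rfl fun e _ => ?_
  rw [mul_assoc, ← prod_mul_distrib]
  congr 1
  refine prod_congr rfl fun p _ => ?_
  split_ifs <;> ring

theorem jac_one {l : ℕ} : ∀ d : ℕ, d ≠ 0 → (∀ r : ℕ, r.Prime → r ∣ d → jacobiSym r l = 1) →
    jacobiSym d l = 1 := by
  intro d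
  induction d using induction_on_primes with
  | zero => exact fun h => absurd rfl h
  | one => simp
  | prime_mul p a hp ih =>
    intro h0 h
    rw [Nat.cast_mul, jacobiSym.mul_left, h p hp (dvd_mul_right _ _),
      ih (fun h1 => h0 (by rw [h1, mul_zero])) fun r hr h1 => h r hr (h1.mul_left _), one_mul]

theorem loc_m {n p e f : ℕ} (hn : Squarefree n) (hp : p ∈ n.primeFactors) (h15 : ¬p ∣ 15)
    (he : e ≠ 0) (hf : f ≠ 0) :
    (if p ∣ e then jacobiSym (f : ℕ) p else jacobiSym (15 * e : ℕ) p) = jacobiSym 15 p *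
      (Xp n p e * if p ∣ e * f then cfid_I p e + Xp n p (15 * (e * f)) * cfid_I p f else 1) := by
  have hp' := Nat.prime_of_mem_primeFactors hp
  have h1 : jacobiSym 15 p = Xp n p 15 := by
    rw [BSD15.cfid_Xp_of_not_dvd n h15]; rfl
  have h2 := BSD15.cfid_Xp_sq hn hp he
  have h3 := BSD15.cfid_Xp_sq hn hp (A := 15) (by norm_num)
  have hc := (BSD15.cfid_Xp_CM n p).2
  by_cases h : p ∣ e
  · rw [if_pos h, if_pos (h.mul_right f), BSD15.cfid_jac_eq n hp', h1,
      hc _ _ (by norm_num) (mul_ne_zero he hf), hc _ _ he hf, show cfid_I p e = 0 from if_pos h]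
    linear_combination (-(cfid_I p f * Xp n p f)) * h2 -
      (cfid_I p f * Xp n p f * Xp n p e * Xp n p e) * h3
  · rw [if_neg h, Nat.cast_mul, jacobiSym.mul_left, BSD15.cfid_Xp_of_not_dvd n h]
    split_ifs with h4
    · rw [BSD15.cfid_I_of h, show cfid_I p f = 0 from if_pos ((hp'.dvd_mul.1 h4).resolve_left h)]
      simp
    · simp

theorem loc_l {n l e f : ℕ} (hn : Squarefree n) (hp : l ∈ n.primeFactors)
    (he : e ≠ 0) (hf : f ≠ 0) (h1 : ∀ d : ℕ, d ∣ 15 * (e * f) → ¬l ∣ d → jacobiSym d l = 1)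
    (h15 : ¬l ∣ 15) (h2 : ¬l * l ∣ e * f) :
    (Xp n l e * if l ∣ e * f then cfid_I l e + Xp n l (15 * (e * f)) * cfid_I l f else 1) = 1 := by
  have hp' := Nat.prime_of_mem_primeFactors hp
  by_cases h : l ∣ e
  · have h3 : ¬l ∣ f := fun h3 => h2 (Nat.mul_dvd_mul h h3)
    have h4 : ¬l ∣ 15 * f := fun h4 => (hp'.dvd_mul.1 h4).elim h15 h3
    rw [if_pos (h.mul_right f), show cfid_I l e = 0 from if_pos h, BSD15.cfid_I_of h3,
      show 15 * (e * f) = e * (15 * f) by ring,
      (BSD15.cfid_Xp_CM n l).2 _ _ he (mul_ne_zero (by norm_num) hf),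
      BSD15.cfid_Xp_of_not_dvd n h4, h1 _ ⟨e, by ring⟩ h4]
    linear_combination BSD15.cfid_Xp_sq hn hp he
  · rw [BSD15.cfid_Xp_of_not_dvd n h, h1 _ ⟨15 * f, by ring⟩ h]
    split_ifs with h4
    · rw [BSD15.cfid_I_of h, show cfid_I l f = 0 from if_pos ((hp'.dvd_mul.1 h4).resolve_left h)]
      simp
    · simp

end TARI

theorem t_ARI : ARI := by
  intro l m b M B hS hb hab hj hM hB
  have hl := hS.lp
  have hl8 := hS.l8
  have hl' := Nat.prime_iff_prime_int.1 hl
  have hb' := Nat.prime_iff_prime_int.1 hb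
  have hm0 : m ≠ 0 := hS.adm.1.ne_zero
  have hz : jacobiSym (-l) l = 0 := BSD15.cfid_jac_zero hl (dvd_neg.2 dvd_rfl)
  have hlm : ¬l ∣ 15 * m := fun h => by
    have := hS.spl l hl h
    rw [hz] at this
    exact absurd this (by norm_num)
  have hbm : ¬b ∣ 15 * m := fun h => by
    have := hS.spl b hb h
    rw [hj] at this
    exact absurd this (by norm_num)
  have hlb : l ≠ b := fun h => by
    rw [← h, hz] at hj
    exact absurd hj (by norm_num)
  have hlm' : ¬l ∣ m := fun h => hlm (h.mul_left _)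
  have hbm' : ¬b ∣ m := fun h => hbm (h.mul_left _)
  have hlb' : ¬l ∣ b := fun h => hlb ((Nat.prime_dvd_prime_iff_eq hl hb).1 h)
  have hn : Squarefree (l * m * b) := by
    rw [Nat.squarefree_mul (Nat.Coprime.mul_left ((Nat.coprime_primes hl hb).2 hlb)
      ((Nat.Prime.coprime_iff_not_dvd hb).2 hbm').symm),
      Nat.squarefree_mul ((Nat.Prime.coprime_iff_not_dvd hl).2 hlm')]
    exact ⟨⟨hl.prime.squarefree, hS.adm.1⟩, hab.1⟩
  have hM0 : M ≠ 0 := by
    rintro rfl
    have h1 : (0 : ℤ) < l * m ^ 2 * b ^ 2 := by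
      have := hl.pos
      have := hb.pos
      have := Nat.pos_of_ne_zero hm0
      positivity
    have h2 := sq_nonneg B
    push_cast at hM
    omega
  have hdB : ∀ p : ℕ, p.Prime → p ∣ l * m * b → p ∣ M → (p : ℤ) ∣ B := fun p hp h1 h2 => by
    refine (Nat.prime_iff_prime_int.1 hp).dvd_of_dvd_pow (n := 2) ?_
    have h3 : (p : ℤ) ∣ 60 * M := (Int.natCast_dvd_natCast.2 h2).mul_left _
    have h4 : (p : ℤ) ∣ l * m * b := by exact_mod_cast h1
    rw [hM, show (l : ℤ) * m ^ 2 * b ^ 2 = l * m * b * (m * b) by ring] at h3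
    exact (dvd_add_left (h4.mul_right _)).1 h3
  have hbM : ¬b ∣ M := fun h =>
    hb'.not_isUnit (hB.isUnit_of_dvd' (hdB b hb (dvd_mul_left _ _) h) dvd_rfl)
  have hr : ∀ r : ℕ, r.Prime → r ∣ 15 * M → r ≠ l → jacobiSym r l = 1 := fun r hr h1 h2 => by
    have hr' := Nat.prime_iff_prime_int.1 hr
    have hlo : Odd l := Nat.odd_iff.2 (by omega)
    rcases hr.eq_two_or_odd' with rfl | ho
    · rw [Nat.cast_ofNat, jacobiSym.at_two hlo, ZMod.χ₈_nat_eq_if_mod_eight, if_neg (by omega),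
        if_pos (Or.inr hl8)]
    · rw [← jac_st hlo ho, st, if_neg (by omega)]
      by_cases h3 : r ∣ 15 * m
      · exact hS.spl r hr h3
      · have h4 : r ∣ M := (hr.dvd_mul.1 h1).resolve_left fun h => h3 (h.mul_right _)
        have h5 : ¬(r : ℤ) ∣ m * b := fun h => by
          rcases hr'.dvd_or_dvd h with h | h
          · exact h3 ((Int.natCast_dvd_natCast.1 h).mul_left _)
          · exact hbM ((Nat.prime_dvd_prime_iff_eq hr hb).1 (Int.natCast_dvd_natCast.1 h) ▸ h4)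
        obtain ⟨c, hc⟩ := Int.natCast_dvd_natCast.2 h4
        have h6 : ¬(r : ℤ) ∣ B := fun h => by
          have h7 : (r : ℤ) ∣ l * (m * b) ^ 2 := by
            have h8 : (l : ℤ) * (m * b) ^ 2 = r * (60 * c) - B ^ 2 := by
              rw [hc] at hM
              linear_combination -hM
            rw [h8]
            exact dvd_sub (dvd_mul_right _ _) (dvd_pow h two_ne_zero)
          rcases hr'.dvd_or_dvd h7 with h | h
          · exact h2 ((Nat.prime_dvd_prime_iff_eq hr hl).1 (Int.natCast_dvd_natCast.1 h))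
          · exact h5 (hr'.dvd_of_dvd_pow h)
        rw [← jacobiSym.sq_one' (BSD15.cfid_gcd hr h6), ← mul_one (jacobiSym (-l) r),
          ← jacobiSym.sq_one' (BSD15.cfid_gcd hr h5), ← jacobiSym.mul_left]
        refine jacobiSym.mod_left' (Int.modEq_iff_dvd.2 ⟨60 * c, ?_⟩)
        rw [hc] at hM
        linear_combination -hM
  have hd : ∀ d : ℕ, d ∣ 15 * M → ¬l ∣ d → jacobiSym d l = 1 := fun d h1 h2 =>
    TARI.jac_one d (fun h => h2 (by rw [h]; exact dvd_zero _)) fun r h3 h4 =>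
      hr r h3 (h4.trans h1) fun h => h2 (h ▸ h4)
  have hll : ¬l * l ∣ M := fun h => by
    obtain ⟨C, hC⟩ := hdB l hl ((dvd_mul_right _ _).mul_right _) ((dvd_mul_right _ _).trans h)
    obtain ⟨c, hc⟩ := Int.natCast_dvd_natCast.2 h
    have h1 : ((m : ℤ) * b) ^ 2 = l * (60 * c - C ^ 2) := by
      refine mul_left_cancel₀ hl'.ne_zero ?_
      rw [hc, hC] at hM
      push_cast at hM
      linear_combination -hM
    rcases hl'.dvd_or_dvd (hl'.dvd_of_dvd_pow (n := 2) ⟨_, h1⟩) with h | h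
    · exact hlm' (Int.natCast_dvd_natCast.1 h)
    · exact hlb' (Int.natCast_dvd_natCast.1 h)
  have hG : (Int.gcd B (l * m * b : ℕ)).primeFactors =
      (l * m * b).primeFactors.filter (· ∣ M) := by
    ext p
    simp only [Nat.mem_primeFactors, mem_filter]
    constructor
    · rintro ⟨hp, h, -⟩
      have hp' := Nat.prime_iff_prime_int.1 hp
      have h' := Int.natCast_dvd_natCast.2 h
      have hpB : (p : ℤ) ∣ B := h'.trans (Int.gcd_dvd_left _ _)
      have h2 : p ∣ l * m * b := Int.natCast_dvd_natCast.1 (h'.trans (Int.gcd_dvd_right _ _))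
      have hpa : p ∣ l * m := (hp.dvd_mul.1 h2).resolve_right fun h3 =>
        hp'.not_isUnit (hB.isUnit_of_dvd' hpB (Int.natCast_dvd_natCast.2 h3))
      refine ⟨⟨hp, h2, hn.ne_zero⟩, ?_⟩
      have h4 : (p : ℤ) ∣ 60 * M := by
        have h5 : (p : ℤ) ∣ l * m := by exact_mod_cast hpa
        rw [hM, show (l : ℤ) * m ^ 2 * b ^ 2 = l * m * (m * b ^ 2) by ring]
        exact dvd_add (dvd_pow hpB two_ne_zero) (h5.mul_right _)
      have h5 : p ∣ 60 * M := by exact_mod_cast h4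
      refine (hp.dvd_mul.1 h5).resolve_left fun h6 => ?_
      have h7 : p ∣ 30 := hp.dvd_of_dvd_pow (n := 2) (h6.trans (by norm_num))
      rcases hp.dvd_mul.1 hpa with h8 | h8
      · rw [(Nat.prime_dvd_prime_iff_eq hp hl).1 h8] at h7
        have h9 : l ∣ 2 * 15 := h7
        rcases hl.dvd_mul.1 h9 with h | h
        · have := Nat.le_of_dvd two_pos h
          omega
        · exact hlm (h.mul_right _)
      · exact hp.one_lt.ne' (Nat.eq_one_of_dvd_coprimes hS.adm.2 h8 h7)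
    · rintro ⟨⟨hp, h, -⟩, hpa⟩
      refine ⟨hp, Int.natCast_dvd_natCast.1 (Int.dvd_coe_gcd (hdB p hp h hpa)
        (Int.natCast_dvd_natCast.2 h)), fun h0 => ?_⟩
      have := (Int.gcd_eq_zero_iff.1 h0).2
      exact hn.ne_zero (by exact_mod_cast this)
  have hpf : (l * m * b).primeFactors = insert l (insert b m.primeFactors) := by
    rw [Nat.primeFactors_mul (mul_ne_zero hl.ne_zero hm0) hb.ne_zero,
      Nat.primeFactors_mul hl.ne_zero hm0, hl.primeFactors, hb.primeFactors]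
    ext p
    simp only [mem_union, mem_singleton, mem_insert]
    tauto
  rw [cnt, hG, ← TARI.key hn hM0, mul_sum]
  refine sum_congr rfl fun e he => ?_
  obtain ⟨f, rfl⟩ := Nat.dvd_of_mem_divisors he
  have he0 : e ≠ 0 := fun h => hM0 (by rw [h, zero_mul])
  have hf0 : f ≠ 0 := fun h => hM0 (by rw [h, mul_zero])
  have hlp : l ∈ (l * m * b).primeFactors := hpf ▸ mem_insert_self _ _
  rw [XJ, prod_filter, ← prod_mul_distrib, UM, Nat.mul_div_cancel_left _ (Nat.pos_of_ne_zero he0)]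
  conv_rhs => rw [hpf]
  rw [prod_insert (by
      rw [mem_insert, not_or]
      exact ⟨hlb, fun h => hlm' (Nat.dvd_of_mem_primeFactors h)⟩),
    prod_insert fun h => hbm' (Nat.dvd_of_mem_primeFactors h),
    TARI.loc_l hn hlp he0 hf0 hd (fun h => hlm (h.mul_right _)) hll, if_neg hbM,
    BSD15.cfid_Xp_of_not_dvd _ fun h => hbM (h.mul_right _), BSD15.cfid_jac_sqf 15 hS.adm.1,
    one_mul, mul_one, mul_left_comm, ← prod_mul_distrib]
  congr 1
  refine prod_congr rfl fun p hp => TARI.loc_m hn ?_ (fun h => ?_) he0 hf0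
  · rw [hpf]
    exact mem_insert_of_mem (mem_insert_of_mem hp)
  · exact (Nat.prime_of_mem_primeFactors hp).one_lt.ne' (Nat.eq_one_of_dvd_coprimes hS.adm.2
      (Nat.dvd_of_mem_primeFactors hp) (h.trans (by norm_num)))

end Pool.Agent.P.MP_8b7eba_nt.R2
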