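import Pool.Agent.P.MP_8b7eba_nt.R2.DefsH
import Pool.Agent.P.MP_8b7eba_nt.R2.TKAP
import Pool.Agent.P.MP_8b7eba_nt.R2.TTRI

/-! Proof of CHI, TR2. -/

namespace Pool.Agent.P.MP_8b7eba_nt.R2

open scoped NNReal Matrix
open MP_9c97e9_nt (Pt pm Is ap)
open BSD15 (OO nm cj Adm)
open _root_.Pool.Agent.P.MP_8b7eba_nt.Mod (M2 G0 al)
open R1 (QF Hg emb Pz uu Rq)
open Filter Topology Polynomial Module

namespace TCHI

variable {l : ℕ} [Hl l] {m c : ℕ}

theorem chi_cl (hm : m ∣ c) {I : Ideal (OO l)} (h : Ad c I) :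
    chi m (cl c I) = jacobiSym (nm I) m := by
  obtain ⟨h1, h2⟩ := rp_spec (cl c I)
  obtain ⟨α, β, h3, h4, e⟩ := (cl_eq_iff h1 h).1 h2
  have e' := congrArg (fun K => jacobiSym (nm K) m) e
  simp only [BSD15.nm_mul, Nat.cast_mul, jacobiSym.mul_left, TKAP.jac_oc (h3.mono hm),
    TKAP.jac_oc (h4.mono hm), one_mul] at e'
  rw [chi, e']

theorem chi_mul (hm : m ∣ c) (a b : RC l c) : chi m (a * b) = chi m a * chi m b := by
  obtain ⟨h1, h2⟩ := rp_spec a
  obtain ⟨h3, h4⟩ := rp_spec b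
  rw [← h2, ← h4, ← cl_mul h1 h3, chi_cl hm h1, chi_cl hm h3, chi_cl hm (h1.mul h3),
    BSD15.nm_mul, Nat.cast_mul, jacobiSym.mul_left]

theorem chi_sq (hm : m ∣ c) (a : RC l c) : chi m a * chi m a = 1 := by
  have h1 := ((rp_spec a).1.mono hm).2
  rcases jacobiSym.eq_one_or_neg_one (a := nm (rp a)) (b := m) (by exact_mod_cast h1) with e | e <;>
    rw [chi, e] <;> norm_num

theorem chi_one (hm : m ∣ c) : chi m (1 : RC l c) = 1 := by
  have h := chi_mul hm (1 : RC l c) 1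
  rw [chi_sq hm] at h
  exact (congrArg (chi m) (mul_one 1)).symm.trans h

theorem chi_inv (hm : m ∣ c) (a : RC l c) : chi m a⁻¹ = chi m a := by
  have h := chi_mul hm a⁻¹ a
  rw [inv_mul_cancel, chi_one hm] at h
  have h2 := chi_sq hm a
  calc chi m a⁻¹ = chi m a⁻¹ * (chi m a * chi m a) := by rw [h2, mul_one]
    _ = chi m a := by rw [← mul_assoc, ← h, one_mul]

theorem chi_od (hm : m ∣ c) {a : RC l c} (h : a ∈ Od l c) : chi m a = 1 := by
  obtain ⟨r, ⟨k, rfl⟩, h1⟩ := mem_Od'.1 h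
  have h2 := chi_one (l := l) hm
  rwa [← h1, pow_succ, two_mul, pow_add, chi_mul hm, chi_mul hm, chi_sq hm, one_mul] at h2

theorem chi_pr (hm : m ∣ c) {c' : ℕ} (h : c ∣ c') (b : RC l c') : chi m (pr h b) = chi m b := by
  obtain ⟨h1, h2⟩ := rp_spec b
  rw [← h2, pr_cl h h1, chi_cl hm (h1.mono h), chi_cl (hm.trans h) h1]

theorem ZC_fib (hm : m ∣ c) {q : ℕ} (hc : c * q ≠ 0) :
    ZC l m (c * q) = ∑ᶠ a : RC l c,
      chi m a • ∑ᶠ b ∈ {b | pr (Nat.dvd_mul_right c q) b = a}, HP b := by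
  classical
  have := finite_RC (l := l) hc
  have := finite_RC (l := l) (left_ne_zero_of_mul hc)
  have := Fintype.ofFinite (RC l c)
  have := Fintype.ofFinite (RC l (c * q))
  rw [ZC, finsum_eq_sum_of_fintype, finsum_eq_sum_of_fintype,
    ← Finset.sum_fiberwise Finset.univ (pr (l := l) (Nat.dvd_mul_right c q))]
  refine Finset.sum_congr rfl fun a _ => ?_
  rw [← Finset.coe_filter_univ, finsum_mem_coe_finset, Finset.smul_sum]
  refine Finset.sum_congr rfl fun b hb => ?_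
  rw [← (Finset.mem_filter.1 hb).2, chi_pr hm]

theorem ZC_shift (hm : m ∣ c) (x : RC l c) :
    ∑ᶠ a : RC l c, chi m a • HP (x * a) = ∑ᶠ a : RC l c, chi m x • chi m a • HP a := by
  rw [← finsum_comp_equiv (Equiv.mulLeft x) (f := fun a : RC l c => chi m x • chi m a • HP a)]
  refine finsum_congr fun a => ?_
  rw [Equiv.coe_mulLeft, chi_mul hm, smul_smul, ← mul_assoc, chi_sq hm, one_mul]

theorem ZC_pr (hm : m ∣ c) {q : ℕ} (hc : c * q ≠ 0) :
    ∑ᶠ b : RC l (c * q), chi m b • HP (pr (Nat.dvd_mul_right c q) b) =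
      Nat.card (pr (l := l) (Nat.dvd_mul_right c q)).ker • ZC l m c := by
  classical
  have := finite_RC (l := l) hc
  have := finite_RC (l := l) (left_ne_zero_of_mul hc)
  have := Fintype.ofFinite (RC l c)
  have := Fintype.ofFinite (RC l (c * q))
  rw [ZC, finsum_eq_sum_of_fintype, finsum_eq_sum_of_fintype,
    ← Finset.sum_fiberwise Finset.univ (pr (l := l) (Nat.dvd_mul_right c q)), Finset.smul_sum]
  refine Finset.sum_congr rfl fun a _ => ?_
  rw [← TTRI.card_fibre hc a, Nat.card_eq_fintype_card, Fintype.card_subtype, ← Finset.sum_const]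
  refine Finset.sum_congr rfl fun b hb => ?_
  rw [← (Finset.mem_filter.1 hb).2, chi_pr hm]

theorem stepA (hH : H2A) (hc : Cd m) (ho : Odd m) : ∃ t : ℤ, ZC l m (m * 2) = t • ZC l m m := by
  obtain ⟨x, hx⟩ := hH l m hc ho
  have := finite_RC (l := l) hc.1
  refine ⟨Mod.an 2 - chi m x - chi m x⁻¹, ?_⟩
  rw [ZC_fib dvd_rfl (mul_ne_zero hc.1 two_ne_zero)]
  simp only [hx, smul_sub]
  rw [finsum_sub_distrib (Set.toFinite _) (Set.toFinite _),
    finsum_sub_distrib (Set.toFinite _) (Set.toFinite _), ZC_shift dvd_rfl, ZC_shift dvd_rfl,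
    sub_smul, sub_smul, ZC, smul_finsum' _ (Set.toFinite _), smul_finsum' _ (Set.toFinite _),
    smul_finsum' _ (Set.toFinite _)]
  simp only [smul_comm (Mod.an 2)]

theorem stepB (hH : H2B) (hm : m ∣ c) (hc : Cd c) : ∃ (t : ℤ) (n : ℕ),
    ZC l m (c * 2 * 2) = t • ZC l m (c * 2) - n • ZC l m c := by
  have h2 : c * 2 ≠ 0 := mul_ne_zero hc.1 two_ne_zero
  have := finite_RC (l := l) h2
  refine ⟨Mod.an 2, Nat.card (pr (l := l) (Nat.dvd_mul_right c 2)).ker, ?_⟩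
  rw [ZC_fib (hm.mul_right 2) (mul_ne_zero h2 two_ne_zero)]
  simp only [hH l c hc, smul_sub]
  rw [finsum_sub_distrib (Set.toFinite _) (Set.toFinite _), ZC_pr hm h2, ZC.eq_1 l m (c * 2),
    smul_finsum' _ (Set.toFinite _)]
  simp only [smul_comm (Mod.an 2)]

end TCHI

open TCHI in
theorem t_CHI : CHI := fun _ _ _ _ hm =>
  ⟨fun _ h => chi_cl hm h, chi_mul hm, fun a => ⟨chi_sq hm a, chi_inv hm a, chi_od hm⟩,
    fun _ h b => chi_pr hm h b⟩

open TCHI in
theorem t_TR2 (hCHI : CHI) (hH2A : H2A) (hH2B : H2B) : TR2 := by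
  intro l _ m hc ho h0
  have key : ∀ k : ℕ, IsOfFinAddOrder (ZC l m (2 ^ k * m)) ∧
      IsOfFinAddOrder (ZC l m (2 ^ k * m * 2)) := by
    intro k
    induction k with
    | zero =>
      obtain ⟨t, ht⟩ := stepA (l := l) hH2A hc ho
      rw [pow_zero, one_mul, ht]
      exact ⟨h0, h0.zsmul⟩
    | succ k ih =>
      have e : 2 ^ (k + 1) * m = 2 ^ k * m * 2 := by ring
      have hcd : Cd (2 ^ k * m) := ⟨mul_ne_zero (by positivity) hc.1,
        Nat.Coprime.mul_left (Nat.Coprime.pow_left k (by norm_num)) hc.2⟩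
      obtain ⟨t, n, ht⟩ := stepB (l := l) hH2B (dvd_mul_left m (2 ^ k)) hcd
      rw [e, ht, sub_eq_add_neg]
      exact ⟨ih.2, ih.2.zsmul.add ih.1.nsmul.neg⟩
  rintro k c rfl
  exact (key k).1

end Pool.Agent.P.MP_8b7eba_nt.R2
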