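import Pool.Agent.P.MP_8b7eba_nt.R2.DefsG
import Pool.Agent.P.MP_8b7eba_nt.R1.Oth

/-! Proof of CONJ. -/

namespace Pool.Agent.P.MP_8b7eba_nt.R2

open scoped ComplexConjugate Real
open _root_.Pool.Agent.P.MP_8b7eba_nt.Mod (M2 G0 FI L0 om lv mT)
open BSD15 (Adm lam Xp Rn)
open R1
open Filter Topology

namespace TCONJ

/-- the flipped form -/
def fl (P : QF) : QF := ⟨15 * P.C, P.B, P.A / 15⟩

theorem fl_mk (e B C : ℤ) : fl ⟨15 * e, B, C⟩ = ⟨15 * C, B, e⟩ := by simp [fl]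

theorem chip_fl {p : ℕ} (hp : p.Prime) (h30 : p.Coprime 30) {e B C : ℤ}
    (hD : (p : ℤ) ∣ QF.disc ⟨15 * C, B, e⟩) :
    QF.chip p ⟨15 * C, B, e⟩ = jacobiSym 15 p * QF.chip p ⟨15 * e, B, C⟩ := by
  have hp' : Prime (p : ℤ) := Nat.prime_iff_prime_int.1 hp
  have h2 : p ≠ 2 := by
    rintro rfl
    norm_num at h30
  have h15 : ¬ (p : ℤ) ∣ 15 := fun h =>
    hp.ne_one (Nat.eq_one_of_dvd_coprimes h30 dvd_rfl
      ((Int.natCast_dvd_natCast.1 (show (p : ℤ) ∣ ((15 : ℕ) : ℤ) from h)).trans (by norm_num)))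
  have hz : ∀ a : ℤ, (p : ℤ) ∣ a → jacobiSym a p = 0 := fun a ha => by
    rw [jacobiSym.mod_left, Int.emod_eq_zero_of_dvd ha, jacobiSym.zero_left hp.one_lt]
  by_cases he : (p : ℤ) ∣ e
  · simp only [QF.chip]
    rw [if_pos (he.mul_left 15)]
    split_ifs with h
    · rw [hz _ he, hz _ ((hp'.dvd_or_dvd h).resolve_left h15), mul_zero]
    · rw [jacobiSym.mul_left]
  · have e1 : QF.ev ⟨15 * C, B, e⟩ 0 1 = e := by simp [QF.ev]
    rw [← QF.chip_eq hp h2 hD (x := 0) (y := 1) (by rwa [e1]), e1, QF.chip,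
      if_neg fun h => he ((hp'.dvd_or_dvd h).resolve_left h15), jacobiSym.mul_left, ← mul_assoc,
      ← sq, jacobiSym.sq_one (BSD15.cfid_gcd hp h15), one_mul]

variable {N : ℕ} {ρ : ℤ} {m : ℕ} {P P' : QF}

theorem shape (hN : 0 < N) (h : Hg N ρ P) : ∃ e B C : ℤ, P = ⟨15 * e, B, C⟩ ∧ 0 < e ∧ 0 < C ∧
    B ^ 2 - 60 * e * C = -N := by
  obtain ⟨A, B, C⟩ := P
  obtain ⟨⟨h1, ⟨e, rfl⟩, -⟩, h4⟩ := h
  simp only [QF.disc] at h1 h4
  have he : 0 < e := by omega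
  have hN' : (0 : ℤ) < N := by exact_mod_cast hN
  refine ⟨e, B, C, rfl, he, ?_, by linarith⟩
  by_contra h
  nlinarith [mul_nonneg he.le (neg_nonneg.2 (not_lt.1 h)), sq_nonneg B]

theorem hg_fl (hN : 0 < N) (h : Hg N ρ P) : Hg N ρ (fl P) := by
  obtain ⟨e, B, C, rfl, -, hC, hD⟩ := shape hN h
  rw [fl_mk]
  exact ⟨⟨by simp only [QF.disc]; linarith, dvd_mul_right _ _, h.1.2.2⟩, by simp only; omega⟩

theorem uw_fl (hN : 0 < N) (hm : Adm m) (hmN : m ∣ N) (h : Hg N ρ P) :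
    uw N ρ m (fl P) = jacobiSym 15 m * uw N ρ m P := by
  have h' := hg_fl hN h
  obtain ⟨e, B, C, rfl, -, -, -⟩ := shape hN h
  rw [fl_mk] at h' ⊢
  rw [uw, wf, wf, if_pos h.1, if_pos h'.1, BSD15.cfid_jac_sqf _ hm.1, ← Finset.prod_mul_distrib]
  refine Finset.prod_congr rfl fun p hp => chip_fl (Nat.prime_of_mem_primeFactors hp)
    (hm.2.coprime_dvd_left (Nat.dvd_of_mem_primeFactors hp)) ?_
  rw [h'.1.1, dvd_neg]
  exact Int.natCast_dvd_natCast.2 ((Nat.dvd_of_mem_primeFactors hp).trans hmN)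

theorem cmp_of_fl (hN : 0 < N) (h : Hg N ρ P) (h' : Hg N ρ P') {g : M2} (hg : G0 g)
    (e : (fl P).cmp g = fl P') : ∃ g', G0 g' ∧ P.cmp g' = P' := by
  obtain ⟨e1, B, C, rfl, -, -, -⟩ := shape hN h
  obtain ⟨e2, B', C', rfl, -, -, -⟩ := shape hN h'
  obtain ⟨a, b, c, d⟩ := g
  obtain ⟨h1, c', rfl⟩ := hg
  rw [fl_mk, fl_mk] at e
  simp only [QF.cmp, QF.ev, QF.mk.injEq, M2.det] at e h1
  obtain ⟨k1, k2, k3⟩ := e
  refine ⟨⟨d, c', 15 * b, a⟩, ⟨by simp only [M2.det]; linarith, dvd_mul_right _ _⟩, ?_⟩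
  simp only [QF.cmp, QF.ev, QF.mk.injEq]
  exact ⟨by linarith, by linarith, by linarith⟩

theorem conj_fl (hN : 0 < N) (h : Hg N ρ P) {g : M2} (hg : G0 g) :
    conj (FI P.tau) + FI ((fl P).cmp g).tau = L0 - lv g.a g.c := by
  have h' := hg_fl hN h
  have hN' : (0 : ℤ) < N := by exact_mod_cast hN
  have d1 : P.disc < 0 := by rw [h.1.1]; omega
  have d2 : (fl P).disc < 0 := by rw [h'.1.1]; omega
  have d3 : ((fl P).cmp g).disc < 0 := by rw [(h'.1.cmp hg).1]; omega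
  have h6 := oth_FI_W (QF.tau_im_pos h'.2 d2)
  have h7 := oth_FI_G0 hg (QF.tau_im_pos (QF.cmp_A_pos h'.2 d2 hg.det_pos.ne') d3)
  rw [QF.act_tau h'.2 d2 hg.det_pos] at h7
  have hτ := QF.tau_im_pos h.2 d1
  obtain ⟨e, B, C, rfl, he, hC, hD⟩ := shape hN h
  rw [fl_mk] at h6 h7 ⊢
  rw [oth_tau he hC (by linarith), Mod.FI_conj hτ] at h6
  linear_combination h6 - h7

end TCONJ

open TCONJ in
theorem t_CONJ : CONJ := by
  classical
  intro N ρ m S hN hm hmN hS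
  have hodd : Odd m := Nat.coprime_two_right.1 (hm.2.coprime_dvd_right (by norm_num))
  have hε : jacobiSym 15 m ≠ 0 := fun h0 => by
    have := jacobiSym.sq_one (a := 15) (b := m) (by
      have := (hm.2.coprime_dvd_right (by norm_num : 15 ∣ 30)).symm
      simpa [Int.gcd] using this)
    rw [h0] at this
    norm_num at this
  have hex : ∀ P : QF, ∃ g, P ∈ S → uw N ρ m P ≠ 0 → G0 g ∧ (fl P).cmp g ∈ S := by
    intro P
    by_cases hP : P ∈ S ∧ uw N ρ m P ≠ 0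
    · obtain ⟨g, hg⟩ := hS.all _ (hg_fl hN (hS.hg P hP.1)) (by
        rw [uw_fl hN hm hmN (hS.hg P hP.1)]
        exact mul_ne_zero hε hP.2)
      exact ⟨g, fun _ _ => hg⟩
    · exact ⟨1, fun a b => absurd ⟨a, b⟩ hP⟩
  choose g hg using hex
  set T := S.filter fun P => uw N ρ m P ≠ 0 with hT
  have hu : ∀ P ∈ T, uw N ρ m ((fl P).cmp (g P)) = jacobiSym 15 m * uw N ρ m P := by
    intro P hP
    obtain ⟨h1, h2⟩ := Finset.mem_filter.1 hP
    rw [← uw_fl hN hm hmN (hS.hg P h1)]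
    exact wf_cmp hodd (dvd_neg.2 (Int.natCast_dvd_natCast.2 hmN)) _ (hg P h1 h2).1
  have hinj : Set.InjOn (fun P => (fl P).cmp (g P)) T := by
    intro P hP P' hP' e
    obtain ⟨h1, h2⟩ := Finset.mem_filter.1 hP
    obtain ⟨h3, h4⟩ := Finset.mem_filter.1 hP'
    have e' : (fl P).cmp (g P) = (fl P').cmp (g P') := e
    obtain ⟨k, k1, k2⟩ := cmp_of_fl hN (hS.hg P h1) (hS.hg P' h3)
      ((hg P h1 h2).1.mul (hg P' h3 h4).1.adj)
      (by rw [QF.cmp_mul, e', QF.cmp_adj (hg P' h3 h4).1.1])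
    rcases hS.inj P h1 k k1 (k2 ▸ h3) with rfl | rfl
    · simpa using k2
    · simpa using k2
  have him : T.image (fun P => (fl P).cmp (g P)) = T := by
    refine Finset.eq_of_subset_of_card_le (fun Q hQ => ?_) (Finset.card_image_of_injOn hinj).ge
    obtain ⟨P, hP, rfl⟩ := Finset.mem_image.1 hQ
    obtain ⟨h1, h2⟩ := Finset.mem_filter.1 hP
    exact Finset.mem_filter.2 ⟨(hg P h1 h2).2, by
      rw [hu P hP]
      exact mul_ne_zero hε h2⟩
  constructor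
  · have z1 : ZS N ρ m S = ∑ P ∈ T, uw N ρ m P * FI P.tau := by
      rw [hT, ZS]
      refine (Finset.sum_filter_of_ne fun P _ h => ?_).symm
      intro h0
      exact h (by rw [h0, Int.cast_zero, zero_mul])
    refine ⟨jacobiSym 15 m * ∑ P ∈ T, uw N ρ m P * (1 - Mod.nP (g P).a (g P).c),
      -(jacobiSym 15 m * ∑ P ∈ T, uw N ρ m P * Mod.nM (g P).a (g P).c), ?_⟩
    rw [z1, map_sum]
    nth_rw 1 [← him]
    rw [Finset.sum_image hinj]
    push_cast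
    simp only [Finset.mul_sum, Finset.sum_mul, ← Finset.sum_add_distrib, ← Finset.sum_neg_distrib]
    refine Finset.sum_congr rfl fun P hP => ?_
    obtain ⟨h1, h2⟩ := Finset.mem_filter.1 hP
    have h3 := conj_fl hN (hS.hg P h1) (hg P h1 h2).1
    rw [Mod.lv_eq] at h3
    rw [hu P hP, map_mul, map_intCast]
    push_cast
    linear_combination (jacobiSym 15 m : ℂ) * uw N ρ m P * h3
  · intro h
    have z1 : ∑ P ∈ S, uw N ρ m P = ∑ P ∈ T, uw N ρ m P :=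
      (Finset.sum_filter_of_ne fun P _ h => h).symm
    have z2 : ∑ P ∈ T, uw N ρ m P = -∑ P ∈ T, uw N ρ m P := by
      nth_rw 1 [← him]
      rw [Finset.sum_image hinj, Finset.sum_congr rfl hu, ← Finset.mul_sum, h, neg_one_mul]
    omega

end Pool.Agent.P.MP_8b7eba_nt.R2
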