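import Pool.Agent.P.MP_8b7eba_nt.R2.DefsG
import Pool.Agent.P.MP_8b7eba_nt.R1.NSq

/-! Proof of EVS. -/

namespace Pool.Agent.P.MP_8b7eba_nt.R2

open scoped ComplexConjugate Real
open _root_.Pool.Agent.P.MP_8b7eba_nt.Mod (M2 G0 FI L0 om lv mT)
open BSD15 (Adm lam Xp Rn)
open R1
open Filter Topology

namespace TEVS

theorem uw_eq {N m M e : ℕ} {ρ κ B B₁ : ℤ} (hm : m.Coprime 30) (hN : m ∣ N) (hκ : IsCoprime κ m)
    (he : e ≠ 0) (heM : e ∣ M) (hM : B ^ 2 + N * κ ^ 2 = 60 * M) (h1 : (60 * e : ℤ) ∣ B₁ ^ 2 + N)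
    (h2 : 30 ∣ B₁ - ρ) (h3 : (30 * e : ℤ) ∣ B₁ * κ - B) :
    uw N ρ m (unfP N e B₁) = UM m M e := by
  obtain ⟨C, hC⟩ := h1
  obtain ⟨C', hC'⟩ := h3
  obtain ⟨M', rfl⟩ := heM
  have h0 : (60 * e : ℤ) ≠ 0 := by positivity
  rw [uw, unfP, hC, Int.mul_ediv_cancel_left _ h0, wf,
    if_pos ⟨by simp only [QF.disc]; linear_combination hC, dvd_mul_right _ _, h2⟩, UM,
    Nat.mul_div_cancel_left _ (Nat.pos_of_ne_zero he)]
  refine Finset.prod_congr rfl fun p hp => ?_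
  have hp' := Nat.prime_of_mem_primeFactors hp
  have hpm := Nat.dvd_of_mem_primeFactors hp
  have h4 : (p : ℤ) ∣ 15 * e ↔ p ∣ e := by
    norm_cast
    exact ((hm.coprime_dvd_left hpm).coprime_dvd_right (by norm_num)).dvd_mul_left
  simp only [QF.chip, h4]
  split_ifs with h
  · obtain ⟨e, rfl⟩ := h
    obtain ⟨n, rfl⟩ := hpm.trans hN
    push_cast at hC hC' hM h0
    obtain ⟨t, rfl⟩ := (Nat.prime_iff_prime_int.1 hp').dvd_of_dvd_pow
      (show (p : ℤ) ∣ B₁ ^ 2 from ⟨60 * e * C - n, by linear_combination hC⟩)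
    have h5 : jacobiSym κ p ^ 2 = 1 := jacobiSym.sq_one (Int.isCoprime_iff_gcd_eq_one.1
      (hκ.of_isCoprime_of_dvd_right (Int.natCast_dvd_natCast.2 hpm)))
    rw [← one_mul (jacobiSym C p), ← h5, ← jacobiSym.pow_left, ← jacobiSym.mul_left]
    refine jacobiSym.mod_left' (Int.modEq_iff_dvd.2 ⟨15 * e * C' ^ 2 - t * κ * C',
      mul_left_cancel₀ h0 ?_⟩)
    linear_combination κ ^ 2 * hC - hM - (p * t * κ + B - 30 * (p * e) * C') * hC'
  · rw [Nat.cast_mul, Nat.cast_ofNat]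

end TEVS

theorem t_EVS (hUNF : UNF) : EVS := by
  intro l m b ρ S B M hS hp hb hj hρ hR hM
  have c30 : IsCoprime (b : ℤ) 30 := by exact_mod_cast Nat.isCoprime_iff_coprime.2 hb.2
  have cm : IsCoprime (b : ℤ) m := Nat.isCoprime_iff_coprime.2 (hp.coprime_iff_not_dvd.2 fun h => by
    have := hS.spl b hp (h.mul_left 15)
    omega)
  have odd : ∀ {n : ℕ}, Adm n → Odd n := fun h =>
    (Nat.Coprime.coprime_dvd_right (by norm_num) h.2).odd_of_right
  have hN : m ∣ l * m ^ 2 := (dvd_pow_self _ two_ne_zero).mul_left _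
  rw [hUNF (l * m ^ 2) ρ m S (st b) _
    (Nat.mul_pos hS.lp.pos (pow_pos (Nat.pos_of_ne_zero hS.adm.1.ne_zero) 2)) (odd hS.adm) hN hR
    (NSq_cop_st (IsCoprime.of_mul_right_right (y := 2) (z := 15) (by simpa using c30)))
    (fun Q h => by
      rw [st_sq]
      by_contra h'
      exact h (if_neg h'))
    (fun Q g hg => wf_cmp (odd hb) (dvd_pow_self _ two_ne_zero) Q hg) B]
  simp only [NSq_wf hb.1]
  split_ifs with h
  · obtain ⟨h1, h2⟩ := h
    have h60 : B ^ 2 + (l * m ^ 2 : ℕ) * st b ^ 2 = 60 * M := by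
      obtain ⟨t, ht⟩ := h1
      obtain ⟨r, hr⟩ := hρ
      rw [hM, Int.toNat_of_nonneg (by positivity), ← st_sq b, Int.mul_ediv_cancel'
        ⟨15 * t ^ 2 + t * ρ * st b + r * st b ^ 2, by
          linear_combination st b ^ 2 * hr + (B + ρ * st b + 30 * t) * ht⟩]
      push_cast
      rfl
    rw [h60, Int.mul_ediv_cancel_left _ (by norm_num), Int.toNat_natCast, Finset.mul_sum]
    refine Finset.sum_congr rfl fun e he => ?_
    have he0 := Nat.pos_of_mem_divisors he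
    have heM := Nat.dvd_of_mem_divisors he
    have ce : IsCoprime (b : ℤ) (e : ℤ) := by
      obtain ⟨N, rfl⟩ := heM
      have c1 := (h2.symm.pow_right (n := 2)).add_mul_left_right ((l * m ^ 2 : ℕ) * b)
      rw [show B ^ 2 + b * ((l * m ^ 2 : ℕ) * b) = e * (60 * N) by
        rw [st_sq, Nat.cast_mul e] at h60
        linear_combination h60] at c1
      exact c1.of_mul_right_left
    rw [← mul_assoc, ← NSq_inner (NSq_dvd_st b) (Int.natCast_pos.2 he0)
      (NSq_cop_st (c30.mul_right ce)) (c30.mul_right ce) h1 h60 (Int.natCast_dvd_natCast.2 heM),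
      Finset.sum_mul]
    refine Finset.sum_congr rfl fun B₁ _ => ?_
    split_ifs with h3
    · rw [TEVS.uw_eq hS.adm.2 hN (NSq_cop_st cm) he0.ne' heM h60 h3.1 h3.2.1 h3.2.2, mul_comm]
    · rw [zero_mul]
  · refine Finset.sum_eq_zero fun e he => Finset.sum_eq_zero fun B₁ _ => ?_
    split_ifs with h'
    · obtain ⟨h1, ⟨t, ht⟩, ⟨C, hC⟩⟩ := h'
      have hp' := Nat.prime_iff_prime_int.1 hp
      have h4 : (b : ℤ) ∣ B := by_contra fun h4 => h ⟨⟨t * st b - e * C, by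
        linear_combination st b * ht - hC⟩, (hp'.coprime_iff_not_dvd.2 h4).symm⟩
      have h5 : (b : ℤ) ∣ 30 * e * C := hC ▸ dvd_sub ((NSq_dvd_st b).mul_left _) h4
      have h0 : (30 * e : ℤ) ≠ 0 := by
        have := Nat.pos_of_mem_divisors he
        positivity
      rcases hp'.dvd_or_dvd h5 with h6 | h6
      · rcases hp'.dvd_or_dvd h6 with h7 | h7
        · exact absurd (c30.isUnit_of_dvd' dvd_rfl h7) hp'.not_isUnit
        · refine absurd ?_ (NSq_jac_ne hp ((h7.mul_left 60).trans h1))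
          rw [Nat.cast_mul, ← neg_mul, jacobiSym.mul_left, hj, Nat.cast_pow, jacobiSym.pow_left,
            jacobiSym.sq_one (Int.isCoprime_iff_gcd_eq_one.1 cm.symm), mul_one]
      · rw [hC, Int.mul_ediv_cancel_left _ h0, BSD15.cfid_jac_zero hp h6, mul_zero]
    · rfl

end Pool.Agent.P.MP_8b7eba_nt.R2
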