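import Pool.Agent.P.MP_8b7eba_nt.R2.DefsG
import Pool.Agent.P.MP_8b7eba_nt.R1.Rel
import Pool.Agent.P.MP_8b7eba_nt.R1.Val4
import Pool.Agent.P.MP_8b7eba_nt.BSD15.Main

/-! Proof of GKF. -/

namespace Pool.Agent.P.MP_8b7eba_nt.R2

open BSD15 (Adm lam Good)
open R1

namespace TGKF

theorem aux {l m l₁ m₁ r : ℕ} (hl : l.Prime) (hl₁ : l₁.Prime) (h : Adm (l * m * (l₁ * m₁)))
    (h1 : 1 < m₁) (hr : r.Coprime 120) :
    ∃ b : ℕ, b.Prime ∧ l * m * (l₁ * m₁) < b ∧ b % 120 = r % 120 ∧ jacobiSym b l = -1 ∧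
      jacobiSym b l₁ = -1 ∧ jacobiSym b m₁ * jacobiSym b m = 1 ∧
      ∀ p ∈ m.primeFactors, jacobiSym (-((l₁ * m₁ : ℕ) * b)) p = -1 := by
  obtain ⟨q, hq⟩ := Nat.nonempty_primeFactors.2 h1
  have hc : (l * m).Coprime (l₁ * m₁) := Nat.coprime_of_squarefree_mul h.1
  have hc1 : l.Coprime m := Nat.coprime_of_squarefree_mul h.left.1
  have hc2 : l₁.Coprime m₁ := Nat.coprime_of_squarefree_mul h.right.1
  have hn0 : l * m * (l₁ * m₁) ≠ 0 := h.1.ne_zero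
  have nd : ∀ {x y p : ℕ}, x.Coprime y → p.Prime → p ∣ x → p ∣ y → False := fun hxy hp hx hy =>
    hp.ne_one (Nat.eq_one_of_dvd_coprimes hxy hx hy)
  have hpm : ∀ p ∈ m.primeFactors, -jacobiSym (-(l₁ * m₁ : ℕ)) p = 1 ∨
      -jacobiSym (-(l₁ * m₁ : ℕ)) p = -1 := fun p hp => by
    rcases AuxP_pm (hc.symm.coprime_dvd_right
      ((Nat.dvd_of_mem_primeFactors hp).mul_left l)) with e | e <;> rw [e] <;> simp
  obtain ⟨s, hs⟩ : ∃ s, s = ∏ p ∈ m.primeFactors, -jacobiSym (-(l₁ * m₁ : ℕ)) p := ⟨_, rfl⟩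
  have hs1 : s = 1 ∨ s = -1 := by
    rw [hs]
    refine Finset.prod_induction _ (fun x : ℤ => x = 1 ∨ x = -1) ?_ (Or.inl rfl) hpm
    rintro x y (rfl | rfl) (rfl | rfl) <;> simp
  obtain ⟨b, b1, b2, b3, b4⟩ := AuxP_gen h hr
    (fun p => if p ∈ m.primeFactors then -jacobiSym (-(l₁ * m₁ : ℕ)) p else
      if p ∈ m₁.primeFactors then (if p = q then s else 1) else -1) (fun p _ => by
      split_ifs with h1 h2 h3
      exacts [hpm p h1, hs1, Or.inl rfl, Or.inr rfl])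
  have e1 : ∀ p ∈ m.primeFactors, jacobiSym b p = -jacobiSym (-(l₁ * m₁ : ℕ)) p := fun p hp => by
    rw [b4 p (Nat.mem_primeFactors.2 ⟨Nat.prime_of_mem_primeFactors hp,
      ((Nat.dvd_of_mem_primeFactors hp).mul_left l).mul_right _, hn0⟩), if_pos hp]
  have e2 : ∀ p ∈ m₁.primeFactors, jacobiSym b p = if p = q then s else 1 := fun p hp => by
    have hd := (Nat.dvd_of_mem_primeFactors hp).mul_left l₁
    have hp' := Nat.prime_of_mem_primeFactors hp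
    rw [b4 p (Nat.mem_primeFactors.2 ⟨hp', hd.mul_left _, hn0⟩), if_neg fun h' =>
      nd hc hp' ((Nat.dvd_of_mem_primeFactors h').mul_left l) hd, if_pos hp]
  refine ⟨b, b1, b2, b3, ?_, ?_, ?_, fun p hp => ?_⟩
  · rw [b4 l (Nat.mem_primeFactors.2 ⟨hl, (dvd_mul_right l m).mul_right _, hn0⟩),
      if_neg fun h' => nd hc1 hl dvd_rfl (Nat.dvd_of_mem_primeFactors h'),
      if_neg fun h' => nd hc hl (dvd_mul_right l m) ((Nat.dvd_of_mem_primeFactors h').mul_left _)]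
  · rw [b4 l₁ (Nat.mem_primeFactors.2 ⟨hl₁, (dvd_mul_right l₁ m₁).mul_left _, hn0⟩),
      if_neg fun h' => nd hc hl₁ ((Nat.dvd_of_mem_primeFactors h').mul_left _) (dvd_mul_right _ _),
      if_neg fun h' => nd hc2 hl₁ dvd_rfl (Nat.dvd_of_mem_primeFactors h')]
  · rw [BSD15.cfid_jac_sqf _ h.right.right.1, BSD15.cfid_jac_sqf _ h.left.right.1,
      Finset.prod_congr rfl e1, Finset.prod_congr rfl e2, Finset.prod_ite_eq', if_pos hq, ← hs]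
    rcases hs1 with e | e <;> simp [e]
  · rw [← neg_mul, jacobiSym.mul_left, e1 p hp]
    rcases hpm p hp with e | e
    · rw [e, neg_eq_iff_eq_neg.1 e, mul_one]
    · rw [e, neg_injective e, one_mul]

theorem adm {l m : ℕ} (h : Sp l m) : Adm (l * m) := by
  have h1 : ¬ l ∣ 15 * m := fun hd => by
    have := h.spl l h.lp hd
    rw [jacobiSym.mod_left, Int.emod_eq_zero_of_dvd (dvd_neg.2 dvd_rfl),
      jacobiSym.zero_left h.lp.one_lt] at this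
    exact zero_ne_one this
  have h2 := (Nat.Prime.coprime_iff_not_dvd h.lp).2 h1
  have h3 : l.Coprime 2 := (Nat.coprime_two_right).2 (Nat.odd_iff.2 (by have := h.l8; omega))
  exact ⟨(Nat.squarefree_mul (h2.coprime_dvd_right (dvd_mul_left _ _))).2
    ⟨h.lp.prime.squarefree, h.adm.1⟩, Nat.Coprime.mul_left
      (Nat.Coprime.mul_right h3 (h2.coprime_dvd_right (dvd_mul_right 15 m))) h.adm.2⟩

theorem pow4 {m : ℕ} (h : Adm m) : (60 : ℤ) ∣ (m : ℤ) ^ 4 - 1 :=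
  Rel_pow4 (Nat.isCoprime_iff_coprime.2 h.2)

theorem st4 {m : ℕ} (h : Adm m) : (60 : ℤ) ∣ st m ^ 4 - 1 := by
  rw [show st m ^ 4 = (st m ^ 2) ^ 2 by ring, st_sq, ← pow_mul]
  exact pow4 h

theorem key (hGKI : GKI) {l m b : ℕ} (h : Ir l m) (hm : Ec m) (hb : b.Prime)
    (ha : Adm (l * m * b)) (h4 : b % 4 = m % 4) (h3 : b % 3 = 2) (h5 : b % 5 = 2 ∨ b % 5 = 3)
    (hj : jacobiSym (-15) b = 1) (hlb : jacobiSym b l = -1) (hlam : lam b ≠ 0) :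
    ∃ (ρ' ρ₂ : ℤ) (α β : ℚ), HF (l * m) b ρ' ∧ 60 ∣ ρ₂ ^ 2 - b * m ∧
      Dual (wf (b * m) ρ₂ m) α β ∧
      ¬ Rq ((if l * m % 4 = 3 then β else α : ℚ) * tY (l * m) b ρ') := by
  obtain ⟨sp, ρ, S, hρ, hS, hirr⟩ := h
  have l8 := sp.l8
  have om := (BSD15.ind_mod sp.adm).1
  have hbm : Adm (b * m) := BSD15.ind_adm_dvd ha ⟨l, by ring⟩
  have r4 : b * m % 4 = 1 := by
    rw [Nat.mul_mod, h4]
    rcases (show m % 4 = 1 ∨ m % 4 = 3 by omega) with e | e <;> rw [e]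
  have r3 : b * m % 3 = 1 := by rw [Nat.mul_mod, h3, hm.1]
  have r5 : b * m % 5 = 1 ∨ b * m % 5 = 4 := by
    rw [Nat.mul_mod]
    rcases h5 with e | e <;> rcases hm.2 with e' | e' <;> simp [e, e']
  obtain ⟨ρ₂, p2, p4⟩ : ∃ ρ₂ : ℤ, 60 ∣ ρ₂ ^ 2 - b * m ∧ 60 ∣ ρ₂ ^ 4 - 1 := by
    rw [← Nat.cast_mul]
    rcases r5 with e | e
    · exact ⟨1, by omega, by norm_num⟩
    · exact ⟨7, by omega, by norm_num⟩
  have hg : Good (l * m * b) := ⟨ha.1, by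
    rw [mul_assoc, mul_comm m b, Nat.mul_mod, r4, show l % 4 = 3 by omega], by
    have : 7 * 1 * 1 ≤ l * m * b :=
      Nat.mul_le_mul (Nat.mul_le_mul (by omega) (by omega)) hb.one_lt.le
    omega⟩
  have hd : HD (l * m * b) (ρ * st b * ρ₂ ^ 3) := by
    refine ⟨ha.2.coprime_dvd_right (by norm_num), ?_⟩
    have e : (ρ * st b * ρ₂ ^ 3) ^ 2 + ((l * m * b : ℕ) : ℤ) =
        (ρ ^ 2 + l * m ^ 2) * (b ^ 2 * ρ₂ ^ 6) -
        (ρ₂ ^ 4 - 1) * (l * m ^ 2 * b ^ 2 * ρ₂ ^ 2 + l * m * b) +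
        (ρ₂ ^ 2 - b * m) * (l * m * b * ρ₂ ^ 2) := by
      rw [mul_pow, mul_pow, st_sq]
      push_cast
      ring
    rw [e]
    exact ((hρ.mul_right _).sub (p4.mul_right _)).add (p2.mul_right _)
  have hf : HF (l * m) b (ρ * st b * ρ₂ ^ 3) := ⟨hg, hd, by
    have e := hd.jac
    rwa [jacobiSym.mul_right' _ ha.left.1.ne_zero hb.ne_zero, hj, mul_one] at e⟩
  obtain ⟨α, β, hdu⟩ := Rel_dual hbm (hb.one_lt.trans_le (Nat.le_mul_of_pos_right b (by omega)))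
    (dvd_mul_left m b) ρ₂
  rw [Nat.cast_mul] at hdu
  have hlb' : jacobiSym (-l) b = -1 := by
    rw [← hlb, ← jac_st (Rel_odd ha.left.left) (Rel_odd ha.right), st, if_neg (by omega)]
  obtain ⟨ε, hε, hq⟩ := hGKI l m b ρ _ ρ₂ α β S sp hb hlb' hf hρ hS (by
    rw [show ρ * st b * ρ₂ ^ 3 * ρ₂ - ρ * st b = (ρ₂ ^ 4 - 1) * (ρ * st b) by ring]
    exact ((by norm_num : (30 : ℤ) ∣ 60).trans p4).mul_right _) hdu
  refine ⟨_, ρ₂, α, β, hf, p2, hdu, fun hr => hlam ?_⟩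
  have h0 := hq.add hr
  rw [sub_add_cancel] at h0
  have h1 : ((ε : ℤ) : ℚ) = 0 := Rel_zero hirr (by exact_mod_cast h0)
  rw [← abs_eq_zero, ← hε, abs_eq_zero]
  exact_mod_cast h1

theorem res {b m : ℕ} (hb : b.Prime) (om : m % 2 = 1)
    (h120 : b % 120 = (if m % 4 = 1 then 17 else 23) % 120) :
    b % 4 = m % 4 ∧ b % 3 = 2 ∧ (b % 5 = 2 ∨ b % 5 = 3) ∧ Adm b ∧ jacobiSym (-15) b = 1 ∧
      lam b ≠ 0 := by
  have b4 : b % 4 = m % 4 := by split_ifs at h120 <;> omega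
  have b3 : b % 3 = 2 := by split_ifs at h120 <;> omega
  have b5 : b % 5 = 2 ∨ b % 5 = 3 := by split_ifs at h120 <;> omega
  have ab : Adm b := ⟨hb.prime.squarefree, (AuxP_cop (by omega) (by omega)
    (by omega)).coprime_dvd_right (by norm_num)⟩
  refine ⟨b4, b3, b5, ab, ?_, ?_⟩
  · rw [jacobiSym.mod_right (-15) (Rel_odd ab), show 4 * (-15 : ℤ).natAbs = 60 from rfl]
    rcases (show b % 60 = 17 ∨ b % 60 = 23 by split_ifs at h120 <;> omega) with e | e <;>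
      rw [e] <;> norm_num
  · split_ifs at h120 with e
    · have := lam_mod hb (by omega) b3 b5
      omega
    · exact BSD15.lam_ne_zero ⟨ab.1, by omega, b3, b5⟩ (BSD15.no4_prime hb)

end TGKF

theorem t_GKF (hGKI : GKI) : GKF := by
  intro l m l₁ m₁ h h₁ hm hm₁ h4 hc hlam
  have a0 := TGKF.adm h.1
  have a1 := TGKF.adm h₁.1
  have an : Adm (l * m * (l₁ * m₁)) :=
    ⟨(Nat.squarefree_mul hc).2 ⟨a0.1, a1.1⟩, Nat.Coprime.mul_left a0.2 a1.2⟩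
  have om := (BSD15.ind_mod h.1.adm).1
  have l8 := h.1.l8
  have l8' := h₁.1.l8
  have m3 := hm.1
  have m3' := hm₁.1
  obtain ⟨b, hb, hlt, h120, j0, j1, j2, j3⟩ := TGKF.aux (r := if m % 4 = 1 then 17 else 23)
    h.1.lp h₁.1.lp an (by omega) (by split_ifs <;> norm_num)
  obtain ⟨b4, b3, b5, ab, hj, hl⟩ := TGKF.res hb om h120
  clear h120
  have anb : Adm (l * m * (l₁ * m₁) * b) := ⟨(Nat.squarefree_mul
    (Nat.coprime_of_lt_prime an.1.ne_zero hlt hb).symm).2 ⟨an.1, ab.1⟩,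
    Nat.Coprime.mul_left an.2 ab.2⟩
  obtain ⟨ρ₀, ρ₂, α, β, -, p2, hd, k0⟩ := TGKF.key hGKI h hm hb
    (BSD15.ind_adm_dvd anb ⟨l₁ * m₁, by ring⟩) b4 b3 b5 hj j0 hl
  obtain ⟨ρ₁, _, _, _, f₁, -, -, k1⟩ := TGKF.key hGKI h₁ hm₁ hb
    (BSD15.ind_adm_dvd anb ⟨l * m, by ring⟩) (b4.trans h4) b3 b5 hj j1 hl
  have t1 : ¬ Rq (tY (l₁ * m₁) b ρ₁) := fun hq => k1 ((rq_rat _).mul hq)
  have e4 : l * m % 4 = l₁ * m₁ % 4 := by
    rw [Nat.mul_mod, Nat.mul_mod l₁, h4, show l % 4 = 3 by omega, show l₁ % 4 = 3 by omega]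
  rw [e4] at k0
  have hκ : (if l₁ * m₁ % 4 = 3 then β else α : ℚ) ≠ 0 := fun e => k0 (by
    rw [e, Rat.cast_zero, zero_mul]
    exact ⟨0, by simp⟩)
  have abm : Adm (b * m) := BSD15.ind_adm_dvd anb ⟨l * (l₁ * m₁), by ring⟩
  have aam : Adm (l₁ * m₁ * m) := BSD15.ind_adm_dvd an ⟨l, by ring⟩
  have r4 : b * m % 4 = 1 := by
    rw [Nat.mul_mod, b4]
    rcases (show m % 4 = 1 ∨ m % 4 = 3 by omega) with e | e <;> rw [e]
  have g4 : l₁ * m₁ * m % 4 = 3 := by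
    have := f₁.good.h4
    rwa [Nat.mul_mod, b4, ← Nat.mul_mod] at this
  have s4 := TGKF.st4 ab
  have sb : st b * st m = b * m := by
    rw [← st_mul (Rel_odd ab) (Rel_odd h.1.adm), st, if_pos r4, Nat.cast_mul]
  have d30 : ∀ x : ℤ, 60 ∣ x → 30 ∣ x := fun x h => (by norm_num : (30 : ℤ) ∣ 60).trans h
  have f₃ : HF (l₁ * m₁) m (ρ₁ * ρ₂ * st b ^ 3) := by
    refine ⟨⟨aam.1, g4, ?_⟩, ⟨aam.2.coprime_dvd_right (by norm_num), ?_⟩, f₁.sign⟩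
    · have : 7 * 1 * 1 ≤ l₁ * m₁ * m :=
        Nat.mul_le_mul (Nat.mul_le_mul (by omega) (by omega)) (by omega)
      omega
    · have e : (ρ₁ * ρ₂ * st b ^ 3) ^ 2 + ((l₁ * m₁ * m : ℕ) : ℤ) =
          (ρ₁ ^ 2 + ((l₁ * m₁ * b : ℕ) : ℤ)) * (ρ₂ ^ 2 * b ^ 6) -
          (ρ₂ ^ 2 - b * m) * (l₁ * m₁ * b ^ 7) -
          ((b : ℤ) ^ 4 - 1) * ((b ^ 4 + 1) * (l₁ * m₁ * m)) := by
        rw [mul_pow, ← pow_mul, mul_comm 3 2, pow_mul, st_sq]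
        push_cast
        ring
      rw [e]
      exact ((f₁.hd.rt.mul_right _).sub (p2.mul_right _)).sub ((TGKF.pow4 ab).mul_right _)
  have hcop : b.Coprime m := Nat.coprime_of_squarefree_mul abm.1
  obtain ⟨e₁, -, q₁⟩ := gkz_half f₁ f₃ hb.one_lt hcop (fun p hp => by
    rw [hb.primeFactors, Finset.mem_singleton] at hp
    have e := jac_st (Rel_odd aam) (Rel_odd ab)
    rw [st, if_neg (by omega), jacobiSym.mul_right' _ a1.1.ne_zero (by omega),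
      jacobiSym.mul_right' _ h₁.1.lp.ne_zero (by omega), j1, mul_assoc (-1), j2,
      Nat.cast_mul] at e
    rw [hp, e, mul_one]) (by
    rw [show ρ₁ * ρ₂ - ρ₁ * ρ₂ * st b ^ 3 * st b = (st b ^ 4 - 1) * -(ρ₁ * ρ₂) by ring]
    exact d30 _ (s4.mul_right _)) hd
  obtain ⟨e₃, he₃, q₃⟩ := gkz_half (ρ₂ := ρ₂) (α := α) (β := β) f₃ f₁ (by omega) hcop.symm j3 (by
    rw [show ρ₁ * ρ₂ * st b ^ 3 * ρ₂ - ρ₁ * st m = (ρ₂ ^ 2 - st b * st m) * (ρ₁ * st b ^ 3) +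
      (st b ^ 4 - 1) * (ρ₁ * st m) by ring, sb]
    exact d30 _ ((p2.mul_right _).add (s4.mul_right _))) (by
    rw [mul_comm, wf_swap abm r4]
    exact hd)
  rw [hlam, abs_zero, abs_eq_zero] at he₃
  rw [he₃, Int.cast_zero, zero_mul, zero_sub] at q₃
  by_cases ht : Rq (tY (l₁ * m₁) m (ρ₁ * ρ₂ * st b ^ 3))
  · have h0 := ((rq_int e₁).mul ht).sub q₁
    rw [sub_sub_cancel] at h0
    exact hκ (Rel_zero t1 h0)
  · have h0 := q₃.neg
    rw [neg_neg] at h0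
    exact hκ (Rel_zero ht h0)

end Pool.Agent.P.MP_8b7eba_nt.R2
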