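import Pool.Agent.P.MP_8b7eba_nt.R2.DefsG
import Pool.Agent.P.MP_8b7eba_nt.R1.Gkz

/-! Proof of GKI. -/

namespace Pool.Agent.P.MP_8b7eba_nt.R2

open scoped ComplexConjugate Real
open _root_.Pool.Agent.P.MP_8b7eba_nt.Mod (M2 G0 FI L0 om lv mT)
open BSD15 (Adm lam Xp Rn)
open R1
open Filter Topology

namespace TGKI

theorem jac_l {l m : ℕ} (h : Sp l m) : jacobiSym 15 l = 1 := by
  have h1 := jacobiSym.quadratic_reciprocity_three_mod_four (a := 15) (b := l) (by norm_num)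
    (by have := h.l8; omega)
  have h3 := h.spl 3 Nat.prime_three (Dvd.dvd.mul_right (by norm_num) m)
  have h5 := h.spl 5 Nat.prime_five (Dvd.dvd.mul_right (by norm_num) m)
  have h2 : jacobiSym (-l) (3 * 5) = 1 := by rw [jacobiSym.mul_right, h3, h5, one_mul]
  rw [← neg_one_mul, jacobiSym.mul_left, show jacobiSym (-1) (3 * 5) = -1 by norm_num] at h2
  rw [Nat.cast_ofNat] at h1
  rw [h1, ← h2, neg_one_mul]

theorem lim (hCONJ : CONJ) {N m a : ℕ} {ρ D : ℤ} {S : Finset QF} {w : QF → ℤ} {α β : ℚ}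
    (hN : 0 < N) (hm : Adm m) (hmN : m ∣ N) (hS : Rs N ρ m S) (hw : Wt D w) (hv : VB D w)
    (hd : Dual w α β) (h3 : a % 4 = 3 → ∀ Q, w Q.mir = w Q) (h1 : ¬ a % 4 = 3 → jacobiSym 15 m = -1) :
    ∃ q : ℚ, Tendsto (fun s => ∑ P ∈ S, (uw N ρ m P : ℝ) * VV w s P.tau) (𝓝[>] 1)
      (𝓝 (π * (q - (if a % 4 = 3 then β else α : ℚ) * tZ a (ZS N ρ m S)))) := by
  have hi : ∀ P ∈ S, 0 < P.tau.im := fun P hP =>
    QF.tau_im_pos (hS.hg P hP).2 (by rw [(hS.hg P hP).1.1]; omega)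
  by_cases h : a % 4 = 3
  · choose! q hq using fun P hP => odd_lim hw hv hd (h3 h) (hi P hP)
    refine ⟨∑ P ∈ S, uw N ρ m P * q P, ?_⟩
    have := tendsto_finsetSum S fun P hP => (hq P hP).const_mul (uw N ρ m P : ℝ)
    refine this.trans_eq (congrArg 𝓝 ?_)
    rw [if_pos h, tZ, if_pos h, ZS, Complex.im_sum]
    push_cast
    rw [Finset.sum_div, Finset.mul_sum, ← Finset.sum_sub_distrib, Finset.mul_sum]
    refine Finset.sum_congr rfl fun c _ => ?_
    simp only [Complex.mul_im, Complex.intCast_re, Complex.intCast_im, zero_mul, add_zero]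
    ring
  · obtain ⟨⟨u, v, e⟩, h0⟩ := hCONJ N ρ m S hN hm hmN hS
    obtain ⟨q, hq⟩ := sum_lim hw hv hd S (uw N ρ m) QF.tau hi (h0 (h1 h))
    refine ⟨q - β * (v / 4), hq.trans_eq (congrArg 𝓝 ?_)⟩
    rw [h1 h] at e
    have e1 := congrArg Complex.im e
    simp at e1
    have o0 := Mod.om_ne
    have e2 : (ZS N ρ m S).im = v / 4 * (2 * om) := by linarith
    rw [← ZS, if_neg h, tZ, if_neg h, lf, e2]
    push_cast
    field_simp
    ring

end TGKI

theorem t_GKI (hEVS : EVS) (hARI : ARI) (hHSUM : HSUM) (hCONJ : CONJ) : GKI := by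
  intro l m b ρ ρ' ρ₂ α β S hS bp hin0 h₁ r3 hR hρ hd
  have G1 : BSD15.Good (l * m * b) := h₁.good
  obtain ⟨-, h15, -, hA, hB1, hab⟩ := h₁.jac
  have hB3 := hS.adm
  have hb := bp.one_lt
  have hc : b.Coprime m := (Nat.Coprime.coprime_mul_left hab).symm
  have hB : Adm (b * m) :=
    ⟨(Nat.squarefree_mul hc).2 ⟨hB1.1, hB3.1⟩, Nat.Coprime.mul_left hB1.2 hB3.2⟩
  have hl0 := hS.lp.pos
  have hb3 : 0 < m := Nat.pos_of_ne_zero hB3.1.ne_zero
  rw [jacobiSym.mul_right' _ hl0.ne' hb3.ne', TGKI.jac_l hS, one_mul] at h15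
  have hj : jacobiSym 15 b * jacobiSym 15 m = 1 := by
    rw [← h15, ← sq]
    exact jacobiSym.sq_one (by
      exact_mod_cast (hB3.2.coprime_dvd_right (by norm_num : 15 ∣ 30)).symm)
  have m1 := gkz_mod G1.h4
  have m3 : (l * m % 4 = 3 → m % 4 = 1) ∧ (l * m % 4 = 1 → m % 4 = 3) := by
    have h8 := hS.l8
    rw [Nat.mul_mod, show l % 4 = 3 by omega]
    omega
  have h4 : b * m % 4 = 1 := by
    rw [Nat.mul_mod]
    rcases m1 with m1 | m1
    · rw [m1.2, m3.1 m1.1]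
    · rw [m1.2, m3.2 m1.1]
  have hbb : 1 < b * m := lt_of_lt_of_le hb (Nat.le_mul_of_pos_right _ hb3)
  have r1 := h₁.hd.rt
  push_cast at r1
  have h2 : 60 ∣ ρ₂ ^ 2 - b * m := by
    have k := gkz_sq hρ
    rw [mul_pow, mul_pow, st_sq] at k
    refine (gkz_cop h₁.hd.adm).dvd_of_dvd_mul_left ?_
    have e : ((l * m * b : ℕ) : ℤ) * (ρ₂ ^ 2 - b * m) =
        (ρ' ^ 2 + l * m * b) * ρ₂ ^ 2 - (ρ' ^ 2 * ρ₂ ^ 2 - ρ ^ 2 * (b : ℤ) ^ 2) -
          (ρ ^ 2 + l * m ^ 2) * (b : ℤ) ^ 2 := by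
      push_cast
      ring
    rw [e]
    exact dvd_sub (dvd_sub (r1.mul_right _) k) (r3.mul_right _)
  have hin : ∀ p ∈ b.primeFactors, jacobiSym (-((l * m : ℕ) * m)) p = -1 := fun p hp => by
    rw [bp.primeFactors, Finset.mem_singleton] at hp
    rw [hp, show -(((l * m : ℕ) : ℤ) * m) = -l * m ^ 2 by push_cast; ring, jacobiSym.mul_left, hin0,
      jacobiSym.sq_one' (by exact_mod_cast hc.symm), mul_one]
  obtain ⟨o1, n31, n51⟩ := gkz_ndvd hB1
  obtain ⟨o3, -, -⟩ := gkz_ndvd hB3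
  obtain ⟨-, n3, n5⟩ := gkz_ndvd hB
  have nsq := gkz_nonsq hB.1 hbb
  push_cast at n3 n5 nsq
  have hb' : (0 : ℤ) < b := by exact_mod_cast zero_lt_one.trans hb
  have hb3' : (0 : ℤ) < m := by exact_mod_cast hb3
  have hw : Wt (b ^ 2) (wf (b ^ 2) (st b) b) :=
    wt_wf (by positivity) o1 (dvd_pow_self _ two_ne_zero)
      (fun h => n31 (Int.prime_three.dvd_of_dvd_pow h))
      (fun h => n51 ((Int.prime_iff_natAbs_prime.2 (by norm_num)).dvd_of_dvd_pow h))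
      (.inr (st_sq b).symm)
  have hw' : Wt (b * m) (wf (b * m) ρ₂ m) :=
    wt_wf (by positivity) o3 (dvd_mul_left _ _) n3 n5 (.inl nsq)
  obtain ⟨α', β', hd', hl⟩ := dual_sq hB1 hb
  obtain ⟨q3, t3⟩ := TGKI.lim hCONJ (a := l * m) (by positivity) hB3
    ((dvd_pow_self m two_ne_zero).mul_left l) hR hw (vb_sq hB1 hb _) hd'
    (fun h => wf_mir hB1.1 (by omega) _ _) fun h => by
      have h5 := h₁.sign
      rw [show (-15 : ℤ) = -1 * 15 by norm_num, jacobiSym.mul_left,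
        jacobiSym.at_neg_one (Nat.odd_iff.2 (by omega)), ZMod.χ₄_nat_one_mod_four (by omega),
        jacobiSym.mul_right' _ hl0.ne' hb3.ne', TGKI.jac_l hS, one_mul, one_mul] at h5
      exact h5
  obtain ⟨q1, t1⟩ := heeg_lim rfl h₁ hw' (vb_nonsq nsq _) hd fun h =>
    wf_mir hB3.1 (m3.1 h) _ _
  have hN : ∀ B, NS (l * m ^ 2) ρ m S (wf (b ^ 2) (st b) b) B =
      NN (l * m * b) ρ' (l * m).primeFactors (wf (b * m) ρ₂ m) B := by
    intro B
    rw [hEVS l m b ρ S B _ hS bp hB1 hin0 r3 hR rfl, NN_pr rfl h₁.hd hB h4 h2 hin B]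
    have e1 : 30 ∣ B - ρ * st b ↔ 30 ∣ B - ρ' * ρ₂ := by omega
    simp only [e1]
    split_ifs with hh
    · have k := gkz_sq (e1.2 hh.1)
      rw [mul_pow, st_sq] at k
      have e2 : B ^ 2 + ((l * m * b : ℕ) : ℤ) * (b * m) = B ^ 2 + l * m ^ 2 * b ^ 2 := by
        push_cast
        ring
      have d : 60 ∣ B ^ 2 + l * m ^ 2 * b ^ 2 := by
        have e : B ^ 2 + l * m ^ 2 * b ^ 2 =
            (B ^ 2 - ρ ^ 2 * (b : ℤ) ^ 2) + (ρ ^ 2 + l * m ^ 2) * (b : ℤ) ^ 2 := by ring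
        rw [e]
        exact dvd_add k (r3.mul_right _)
      have hp : 0 ≤ (B ^ 2 + l * m ^ 2 * b ^ 2) / 60 := by positivity
      rw [e2, hARI l m b _ B hS bp hB1 hin0
        (by rw [Int.toNat_of_nonneg hp, Int.mul_ediv_cancel' d]) hh.2, mul_assoc,
        ← mul_assoc (jacobiSym 15 b), hj, one_mul]
    · rfl
  have ev : (fun s => ∑ P ∈ S, (uw (l * m ^ 2) ρ m P : ℝ) * VV (wf (b ^ 2) (st b) b) s P.tau)
      =ᶠ[𝓝[>] 1] fun s => ∑ c, (BSD15.gJ (l * m).primeFactors c : ℝ) *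
        VV (wf (b * m) ρ₂ m) s (ht (l * m * b) ρ' c) := by
    filter_upwards [Ioc_mem_nhdsGT (show (1 : ℝ) < 2 by norm_num)] with s hs
    have a1 := hHSUM (l * m ^ 2) ρ m S _ _ s (by positivity) hR.hg hw.pos hw.disc
      (fun Q => (hw.le Q).trans (by norm_num)) hs.1 hs.2
    have a2 := hasSum_NN h₁.hd hw'.pos hw'.disc (fun Q => (hw'.le Q).trans (by norm_num))
      (l * m).primeFactors hs.1 hs.2
    have e : ((l * m ^ 2 : ℕ) : ℝ) * ((b : ℤ) ^ 2 : ℤ) =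
        ((l * m * b : ℕ) : ℝ) * ((b : ℤ) * m : ℤ) := by
      push_cast
      ring
    simp only [hN, e] at a1
    exact a1.unique a2
  have key := mul_left_cancel₀ Real.pi_ne_zero (tendsto_nhds_unique_of_eventuallyEq t3 t1 ev)
  have e3 : (if l * m % 4 = 3 then β' else α') = if b % 4 = 1 then β' else α' := by
    rcases m1 with m1 | m1
    · rw [if_pos m1.1, if_pos m1.2]
    · rw [if_neg (by omega), if_neg (by omega)]
  rw [e3] at key
  rw [Int.cast_abs] at hl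
  rcases abs_eq_abs.1 hl with hl | hl
  · refine ⟨lam b, rfl, q3 - q1, ?_⟩
    rw [hl] at key
    push_cast at key ⊢
    linear_combination -key
  · refine ⟨-lam b, abs_neg _, q3 - q1, ?_⟩
    rw [hl] at key
    push_cast at key ⊢
    linear_combination -key

end Pool.Agent.P.MP_8b7eba_nt.R2
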