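import Pool.Agent.P.MP_8b7eba_nt.R2.DefsH
import Pool.Agent.P.MP_8b7eba_nt.R2.TSPLIT
import Pool.Agent.P.MP_8b7eba_nt.R2.TKPZ

/-! Proof of KZ. -/

namespace Pool.Agent.P.MP_8b7eba_nt.R2

open scoped NNReal Matrix
open MP_9c97e9_nt (Pt pm Is ap)
open BSD15 (OO nm cj Adm)
open _root_.Pool.Agent.P.MP_8b7eba_nt.Mod (M2 G0 al)
open R1 (QF Hg emb Pz uu Rq)
open Filter Topology Polynomial Module

namespace TKZ

open TSPLIT

theorem level (hI : INVP) {D : Dat} {H : Heeg D.toPre D.a} {v : KA} (hv : D.KD H [] v) (k : ℕ) :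
    ∃ Q : EO, 2 ^ k • Q = ∑ j, D.PP H [] k j ∧ ∀ g ∈ D.GK,
      D.T.pt ((2 ^ k : ℚ_[2])⁻¹ • ∑ j ∈ Finset.range (2 ^ k), v k g j) = tac D.dl g Q - Q := by
  obtain ⟨-, -, Q, R, h⟩ := hv k
  have h4 := (hI D H [] k List.Pairwise.nil).2.2.2.1 rfl
  refine ⟨∑ j, Q j, ?_, fun g hg => ?_⟩
  · rw [Finset.smul_sum, Finset.sum_congr rfl fun j _ => (h j).1]
  · rw [sum_val, Finset.smul_sum, map_sum, Finset.sum_congr rfl fun j _ => ((h j).2 g hg).2.2,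
      Finset.sum_sub_distrib, Finset.sum_sub_distrib, ← map_sum,
      Finset.sum_eq_zero fun j _ => ((h j).2 g hg).2.1 (h4 g hg j), sub_zero]
    exact congrArg (fun P => tac D.dl g P - ∑ j, Q j)
      (Equiv.sum_comp (Equiv.subRight (D.ak k g)) Q)

theorem level2 (hI : INVP) {D : Dat} {H : Heeg D.toPre D.a} {v : KA} (hv : D.KD H [] v) {e : ℕ}
    (he : ∀ (c i : ℕ) (P : EO), (∀ s ∈ H.N c, ac s P = P) → 2 ^ i • P = 0 → 2 ^ e • P = 0)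
    (k : ℕ) (ht : IsOfFinAddOrder (∑ j, D.PP H [] k j)) : ∃ u : V2, ‖u‖ ≤ 1 ∧ ∀ g ∈ D.GK,
      ‖(2 ^ e : ℚ_[2]) • ∑ j ∈ Finset.range (2 ^ k), v k g j - (D.r p1 g u - u)‖ ≤ (2 ^ k)⁻¹ := by
  obtain ⟨Q, hQ, hQ'⟩ := level hI hv k
  obtain ⟨m, hm, hm'⟩ := isOfFinAddOrder_iff_nsmul_eq_zero.1 ht
  obtain ⟨a, n, hn, rfl⟩ := Nat.exists_eq_two_pow_mul_odd hm.ne'
  have h1 := he (D.ck [] k) a (n • ∑ j, D.PP H [] k j) (fun s hs => by
    rw [map_nsmul, map_sum,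
      Finset.sum_congr rfl fun j _ => (hI D H [] k List.Pairwise.nil).2.1 j s hs])
    (by rw [← mul_nsmul', hm'])
  have h2 : 2 ^ (e + k) • n • Q = 0 := by
    rw [pow_add, mul_nsmul', smul_comm (2 ^ k), hQ, h1]
  obtain ⟨u, hu⟩ := D.T.surj _ _ h2
  have hu1 : ‖u‖ ≤ 2 ^ (e + k) := D.T.pt_pow.1 (by rw [hu, h2])
  have n2 : ‖(2 ^ (e + k) : ℚ_[2])‖ = (2 ^ (e + k))⁻¹ := by
    rw [norm_pow, Csum.norm_two, inv_pow]
  have n1 : ‖(n : ℚ_[2])‖ = 1 :=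
    Padic.norm_natCast_eq_one_iff.2 (Nat.coprime_two_left.2 hn)
  have n0 : (n : ℚ_[2]) ≠ 0 := norm_ne_zero_iff.1 (by rw [n1]; exact one_ne_zero)
  have n3 : ‖(2 ^ (e + k) : ℚ_[2]) * (n : ℚ_[2])⁻¹‖ = (2 ^ (e + k))⁻¹ := by
    rw [norm_mul, norm_inv, n1, n2, inv_one, mul_one]
  refine ⟨((2 ^ (e + k) : ℚ_[2]) * (n : ℚ_[2])⁻¹) • u, ?_, fun g hg => ?_⟩
  · rw [norm_smul, n3, inv_mul_le_iff₀ (by positivity), mul_one]
    exact hu1
  · have h3 : D.T.pt ((n : ℚ_[2]) • (2 ^ k : ℚ_[2])⁻¹ • ∑ j ∈ Finset.range (2 ^ k), v k g j) =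
        D.T.pt (D.r p1 g u - u) := by
      rw [Nat.cast_smul_eq_nsmul, map_nsmul, map_sub, D.r_one, Tate.rq_apply, ← Tate.tgal, hu,
        hQ' g hg, map_nsmul, smul_sub]
    have h4 := D.T.pt_eq.1 h3
    have h5 : (2 ^ e : ℚ_[2]) = (2 ^ (e + k) : ℚ_[2]) * (n : ℚ_[2])⁻¹ * (n * (2 ^ k)⁻¹) := by
      rw [pow_add]
      field_simp
    rw [map_smul, ← smul_sub, h5, mul_smul, mul_smul (n : ℚ_[2]), ← smul_sub, norm_smul, n3]
    refine (mul_le_of_le_one_right (by positivity) h4).trans ?_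
    exact inv_anti₀ (by positivity) (pow_le_pow_right₀ one_le_two (Nat.le_add_left _ _))

theorem fin (D : Dat) {R : GQ → V2 →ₗ[ℚ_[2]] V2} (hr : R D.z = D.r p1 D.z) {x y xp yp : GS → V2}
    (hx : D.Sel p1 [] x) (hy : D.Sel p1 [] y) (e1 : ∀ g ∈ S1 D.GK, xp g = x g + x g)
    (e2 : ∀ g ∈ S1 D.GK, yp g = y g + y g) {a b : ℚ_[2]} (hc : Cob ⊤ R (a • xp + b • yp)) :
    a • x + b • y = 0 := by
  have zK : cs D.z ∈ S1 D.GK := cs_mem.2 D.zK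
  have := cob_zero hr hc (by simp [e1 _ zK, e2 _ zK, hx.1.nz, hy.1.nz])
  funext g
  by_cases hg : g ∈ S1 D.GK
  · refine (smul_eq_zero.1 ((two_smul ℚ_[2] _).trans ?_)).resolve_left two_ne_zero
    have a3 := this g
    simp only [Pi.add_apply (f := a • xp), Pi.add_apply (f := a • x), Pi.smul_apply (a := a),
      Pi.smul_apply (a := b), e1 g hg, e2 g hg, smul_add] at a3 ⊢
    rw [← a3]
    abel
  · simp [hx.1.off g hg, hy.1.off g hg]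

end TKZ

open TSPLIT TKZ in
theorem t_KZ (hCP : CP) (hINVP : INVP) : KZ := by
  intro D H v hv ht
  have hR := rep D
  obtain ⟨e, he⟩ := TKPZ.tors D H
  choose u hu h using fun k => TKZ.level2 hINVP hv he k (ht k)
  have l1 : ∀ g : GS, Tendsto (fun k => ∑ j ∈ Finset.range (2 ^ k), v k (g k) j) UF
      (𝓝 (raw p1 v g)) := fun g =>
    (tendsto_raw isPsi_one (fun k => (hv k).2.1) g).congr fun k => by
      ext i
      simp
  have l2 := tendsto_ul (Eventually.of_forall hu)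
  have h1 : Cob (S1 D.GK) (D.r p1) ((2 ^ e : ℚ_[2]) • raw p1 v) := by
    refine ⟨ul u, fun g hg => ?_⟩
    have a1 := (((l1 g).const_smul (2 ^ e : ℚ_[2])).sub ((hR.tendsto g l2).sub l2)).norm
    have a2 : Tendsto (fun k : ℕ => ((2 : ℝ) ^ k)⁻¹) UF (𝓝 0) :=
      (tendsto_inv_atTop_zero.comp (tendsto_pow_atTop_atTop_of_one_lt one_lt_two)).mono_left UF_le
    have a3 := le_of_tendsto_of_tendsto a1 a2 (Eventually.mono hg fun k hk => h k _ hk)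
    rw [Pi.smul_apply]
    exact sub_eq_zero.1 (norm_le_zero_iff.1 a3)
  have h2 := h1.smul hR (2 ^ e : ℚ_[2])⁻¹
  rw [inv_smul_smul₀ (pow_ne_zero _ two_ne_zero)] at h2
  have c4 : D.nz p1 (raw p1 v) = D.nz p1 0 := Dat.nz_congr isPsi_one (by rwa [sub_zero])
  rw [Dat.kap, c4, Dat.nz_self (x := 0) rfl fun _ _ => rfl]

open TSPLIT TKZ in
theorem t_PAR1 (hCP : CP) (hSPLIT : SPLIT) : PAR1 := by
  intro D h1 h2 ε hε x y hx hy ex ey
  obtain ⟨xp, xm, a1, a2, e1⟩ := hSPLIT D x hx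
  obtain ⟨yp, ym, b1, b2, e2⟩ := hSPLIT D y hy
  rw [Dat.nz_smul isPsi_one, ex, smul_smul] at e1
  rw [Dat.nz_smul isPsi_one, ey, smul_smul] at e2
  have hs : (sd D.dl tau : ℚ_[2]) * ε = 1 ∨ (sd D.dl tau : ℚ_[2]) * ε = -1 := by
    rcases sd_cases D.dl tau with b | b <;> rcases hε with a | a <;> simp [a, b]
  rcases hs with s | s
  · rw [s, one_smul] at e1 e2
    obtain ⟨a, b, hab, hc⟩ := h1 xp yp a1 b1
    exact ⟨a, b, hab, TKZ.fin D (by rw [D.r_one]) hx hy (fun g hg => (e1 g hg).1)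
      (fun g hg => (e2 g hg).1) hc⟩
  · rw [s, neg_one_smul] at e1 e2
    obtain ⟨a, b, hab, hc⟩ := h2 xm ym a2 b2
    exact ⟨a, b, hab, TKZ.fin D (rq_sk D D.zK) hx hy
      (fun g hg => by rw [(e1 g hg).2, Pi.neg_apply, sub_neg_eq_add])
      (fun g hg => by rw [(e2 g hg).2, Pi.neg_apply, sub_neg_eq_add]) hc⟩

end Pool.Agent.P.MP_8b7eba_nt.R2
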