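import Pool.Agent.P.MP_8b7eba_nt.R2.DefsH
import Pool.Agent.P.MP_8b7eba_nt.R2.CMA
import Pool.Agent.P.MP_8b7eba_nt.BSD15.CFid

/-! Proof of REP1. -/

namespace Pool.Agent.P.MP_8b7eba_nt.R2

open BSD15 (OO nm cj Adm)
open R1 (QF Hg emb)

namespace TREP1

variable {l : ℕ} [Hl l] {m : ℕ} {I : Ideal (OO l)} {x y γ : OO l}

theorem root (l : ℕ) [Hl l] : ∃ r : ℤ, 15 ∣ r ^ 2 - r + ((l + 1) / 4 : ℕ) := by
  have h3 := Hl.j3 (l := l)
  have h5 := Hl.j5 (l := l)
  have h8 := Hl.l8 (l := l)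
  rw [jacobiSym.mod_left] at h3 h5
  have a3 : -(l : ℤ) % (3 : ℕ) = 1 := by
    by_contra h
    have : -(l : ℤ) % (3 : ℕ) = 0 ∨ -(l : ℤ) % (3 : ℕ) = 2 := by omega
    rcases this with e | e <;> rw [e] at h3 <;> norm_num at h3
  have a5 : -(l : ℤ) % (5 : ℕ) = 1 ∨ -(l : ℤ) % (5 : ℕ) = 4 := by
    by_contra h
    have : -(l : ℤ) % (5 : ℕ) = 0 ∨ -(l : ℤ) % (5 : ℕ) = 2 ∨ -(l : ℤ) % (5 : ℕ) = 3 := by omega
    rcases this with e | e | e <;> rw [e] at h5 <;> norm_num at h5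
  rcases a5 with e | e
  · exact ⟨0, by omega⟩
  · exact ⟨4, by omega⟩

omit [Hl l] in
theorem im_star (u v : OO l) : (u * star v).im = u.im * v.re - u.re * v.im := by
  simp only [QuadraticAlgebra.im_mul, QuadraticAlgebra.re_star, QuadraticAlgebra.im_star]
  ring

omit [Hl l] in
theorem re_nat (n : ℕ) (u : OO l) : ((n : OO l) * u).re = n * u.re := by
  simp [QuadraticAlgebra.re_natCast, QuadraticAlgebra.im_natCast]

omit [Hl l] in
theorem res15 {r : ℤ} (hr : 15 ∣ r ^ 2 - r + ((l + 1) / 4 : ℕ)) {z : OO l}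
    (hz : z ∈ Ideal.span {((15 : ℕ) : OO l), (⟨-r, 1⟩ : OO l)}) : 15 ∣ z.re + r * z.im := by
  obtain ⟨a, b, rfl⟩ := Ideal.mem_span_pair.1 hz
  obtain ⟨t, ht⟩ := hr
  refine ⟨a.re + r * a.im - b.im * t, ?_⟩
  simp only [QuadraticAlgebra.re_add, QuadraticAlgebra.im_add, QuadraticAlgebra.re_mul,
    QuadraticAlgebra.im_mul, QuadraticAlgebra.re_natCast, QuadraticAlgebra.im_natCast]
  push_cast at ht ⊢
  linear_combination (-b.im) * ht

theorem basis (h : Ob (Lc m I) (emb l x) (emb l y)) {u : OO l} (hu : u ∈ I)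
    (hm : (m : ℤ) ∣ u.im) :
    ∃ s t : ℤ, u.re = s * x.re + t * y.re ∧ u.im = s * x.im + t * y.im := by
  obtain ⟨s, t, e⟩ := (h.2 _).1 (mem_Lc.2 ⟨u, hu, hm, rfl⟩)
  have h1 : u = (s : OO l) * x + (t : OO l) * y := R1.emb_injective l (by
    have h2 := map_add (R1.embH l) ((s : OO l) * x) ((t : OO l) * y)
    rw [map_mul, map_mul, map_intCast, map_intCast] at h2
    exact e.trans h2.symm)
  refine ⟨s, t, ?_, ?_⟩ <;> rw [h1] <;>
    simp [QuadraticAlgebra.re_intCast, QuadraticAlgebra.im_intCast]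

theorem det_dvd (h : Ob (Lc m I) (emb l x) (emb l y)) {u v : OO l} (hu : u ∈ I)
    (hm : (m : ℤ) ∣ u.im) (hv : v ∈ I) (hm' : (m : ℤ) ∣ v.im) :
    (x * star y).im ∣ (u * star v).im := by
  obtain ⟨s, t, e1, e2⟩ := basis h hu hm
  obtain ⟨s', t', e3, e4⟩ := basis h hv hm'
  refine ⟨s * t' - t * s', ?_⟩
  rw [im_star, im_star, e1, e2, e3, e4]
  ring

theorem gam_im (hI : Ad m I) (h : Ob (Lc m I) (emb l x) (emb l y)) (hx : (m : ℤ) ∣ x.im)
    (hy : (m : ℤ) ∣ y.im) (e : x * star y = (nm I : OO l) * γ) (h0 : 0 < γ.im) : γ.im = m := by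
  have hN : (nm I : ℤ) ≠ 0 := by exact_mod_cast fun h1 => hI.1 (BSD15.nm_eq_zero.1 h1)
  have hc : IsCoprime (nm I : ℤ) m := Nat.isCoprime_iff_coprime.2 hI.2
  have hD : (x * star y).im = nm I * γ.im := by rw [e, CMA.im_nat]
  have h1 : (m : ℤ) ∣ γ.im := by
    refine hc.symm.dvd_of_dvd_mul_left ?_
    rw [← hD, im_star]
    exact dvd_sub (hx.mul_right _) (hy.mul_left _)
  have hmem : ∀ u ∈ I, (m : OO l) * u ∈ I ∧ (m : ℤ) ∣ ((m : OO l) * u).im := fun u hu =>
    ⟨I.mul_mem_left _ hu, by rw [CMA.im_nat]; exact dvd_mul_right _ _⟩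
  have hω : (nm I : OO l) * (⟨0, 1⟩ : OO l) ∈ I := I.mul_mem_right _ (CMA.nm_mem I)
  have h2 : γ.im ∣ m * nm I := by
    have h3 := det_dvd h (hmem _ hω).1 (hmem _ hω).2 (CMA.nm_mem I)
      (by rw [QuadraticAlgebra.im_natCast]; exact dvd_zero _)
    rw [hD, im_star, CMA.im_nat, CMA.im_nat, QuadraticAlgebra.re_natCast,
      QuadraticAlgebra.im_natCast] at h3
    refine Int.dvd_of_mul_dvd_mul_left hN (h3.trans (dvd_of_eq ?_))
    ring
  have h4 : ∀ z ∈ I * cj I, (x * star y).im ∣ m * m * z.im := fun z hz => by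
    refine Submodule.mul_induction_on hz (fun u hu v hv => ?_) fun u v hu hv => ?_
    · have hv' := BSD15.mem_cj.1 hv
      have h5 := det_dvd h (hmem _ hu).1 (hmem _ hu).2 (hmem _ hv').1 (hmem _ hv').2
      rw [star_mul, star_star, star_natCast] at h5
      refine h5.trans (dvd_of_eq ?_)
      rw [show (m : OO l) * u * (v * (m : OO l)) = (m : OO l) * ((m : OO l) * (u * v)) by ring,
        CMA.im_nat, CMA.im_nat, mul_assoc]
    · rw [QuadraticAlgebra.im_add, mul_add]; exact dvd_add hu hv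
  have h6 : γ.im ∣ m * m := by
    have h7 := h4 ((nm I : OO l) * (⟨0, 1⟩ : OO l)) (by
      rw [BSD15.mul_cj]; exact Ideal.mem_span_singleton.2 (dvd_mul_right _ _))
    rw [hD, CMA.im_nat] at h7
    refine Int.dvd_of_mul_dvd_mul_left hN (h7.trans (dvd_of_eq ?_))
    ring
  obtain ⟨a, b, hab⟩ := hc
  refine Int.dvd_antisymm h0.le (Int.natCast_nonneg m) ?_ h1
  have h8 : (m : ℤ) = a * (m * nm I) + b * (m * m) := by linear_combination (-m : ℤ) * hab
  rw [h8]
  exact dvd_add (h2.mul_left _) (h6.mul_left _)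

omit [Hl l] in
theorem emb_im (z : OO l) : (emb l z).im = z.im * (√l / 2) := by
  simp [emb]

theorem emb_quad (z : OO l) :
    emb l z ^ 2 - (2 * z.re + z.im : ℤ) * emb l z + (z.norm : ℤ) = 0 := by
  have h1 := CMA.emb_mul z (star z)
  rw [BSD15.qbasic_mul_star] at h1
  have h2 : emb l ((z.norm : ℤ) : OO l) = (z.norm : ℤ) := map_intCast (R1.embH l) _
  have h3 : emb l z + emb l (star z) = (2 * z.re + z.im : ℤ) := by
    simp only [emb, QuadraticAlgebra.re_star, QuadraticAlgebra.im_star]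
    push_cast
    ring
  rw [← h2, h1, ← h3]
  ring

end TREP1

open TREP1 in
theorem t_REP1 : REP1 := by
  intro l _ m hS
  have hr := Classical.epsilon_spec (root l)
  have h4 := BSD15.qring_four (n := l)
  have hn15 := (nI_spec (l := l)).2.2.1
  have hres := fun z => res15 hr (z := z)
  rw [rH]
  unfold nI at hn15
  have hat := fun I : Ideal (OO l) => at_hz (l := l) (c := m) (I := I)
    ⟨hS.adm.1.ne_zero, hS.adm.2.coprime_dvd_right (by norm_num)⟩
  unfold nI at hat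
  generalize (Classical.epsilon _ : ℤ) = r at hr hn15 hres hat ⊢
  generalize Ideal.span {((15 : ℕ) : OO l), (⟨-r, 1⟩ : OO l)} = n15 at hn15 hres hat
  refine ⟨?_, fun I hI => ?_⟩
  · obtain ⟨t, ht⟩ := hr
    exact ⟨m ^ 2 * t, by linear_combination 4 * (m : ℤ) ^ 2 * ht - (m : ℤ) ^ 2 * h4⟩
  obtain ⟨a, b, h1, h2, h3⟩ := hat I hI
  obtain ⟨x, hx, mx, rfl⟩ := mem_Lc.1 h1.left.1
  obtain ⟨y, hy, my, rfl⟩ := mem_Lc.1 h2.left.2
  have hN0 : nm I ≠ 0 := fun h => hI.1 (BSD15.nm_eq_zero.1 h)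
  have hN : (0 : ℤ) < nm I := by exact_mod_cast Nat.pos_of_ne_zero hN0
  obtain ⟨C, hC⟩ := BSD15.nm_dvd_norm hx
  obtain ⟨A', hA'⟩ := BSD15.nm_dvd_norm hy
  rw [BSD15.nm_mul, hn15] at hA'
  obtain ⟨A, hA15, hA⟩ : ∃ A : ℤ, 15 ∣ A ∧ y.norm = nm I * A :=
    ⟨15 * A', dvd_mul_right _ _, by rw [hA']; push_cast; ring⟩
  have hy0 : y ≠ 0 := fun h => h1.ne.1 (by rw [h]; exact map_zero (R1.embH l))
  have hA0 : 0 < A := by
    have h5 := (BSD15.norm_nonneg' y).lt_of_ne' fun h => hy0 (BSD15.norm_eq_zero'.1 h)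
    rw [hA] at h5
    exact (mul_pos_iff_of_pos_left hN).1 h5
  obtain ⟨γ, hγ, e⟩ : ∃ γ ∈ cj n15, (nm I : OO l) * γ = x * star y := by
    rw [← Ideal.mem_span_singleton_mul, ← BSD15.mul_cj, mul_assoc, ← BSD15.cj_mul]
    exact Ideal.mul_mem_mul hx (BSD15.mem_cj.2 (by rwa [star_star]))
  have hAc : (A : ℂ) ≠ 0 := by exact_mod_cast hA0.ne'
  have hτ : emb l x / emb l y = emb l γ / A := by
    have h5 : emb l (x * star y * y) = emb l ((nm I : OO l) * γ * y) := by rw [e]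
    rw [mul_assoc, mul_comm (star y), BSD15.qbasic_mul_star, hA, CMA.emb_mul, CMA.emb_mul,
      CMA.emb_mul, CMA.emb_nat,
      show emb l ((nm I * A : ℤ) : OO l) = (nm I * A : ℤ) from map_intCast (R1.embH l) _] at h5
    rw [div_eq_div_iff h1.ne.1 hAc]
    refine mul_left_cancel₀ (show (nm I : ℂ) ≠ 0 by exact_mod_cast hN0) ?_
    push_cast at h5
    linear_combination h5
  have him : 0 < γ.im := by
    have h5 := h1.1
    rw [hτ, Complex.div_intCast_im, emb_im] at h5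
    have h6 : (0 : ℝ) < A := by exact_mod_cast hA0
    have h7 := (div_pos_iff_of_pos_right h6).1 h5
    have h8 : (0 : ℝ) < √l / 2 := by
      have := hS.lp.pos
      positivity
    exact_mod_cast (mul_pos_iff_of_pos_right h8).1 h7
  have hγm := gam_im hI h1 mx my e.symm him
  have hno : γ.norm = A * C := by
    have h5 := congrArg QuadraticAlgebra.norm e
    rw [map_mul, map_mul, QuadraticAlgebra.norm_star, QuadraticAlgebra.norm_natCast, hC, hA] at h5
    refine mul_left_cancel₀ (pow_ne_zero 2 hN.ne') ?_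
    linear_combination h5
  have hD : QF.disc ⟨A, -(2 * γ.re + γ.im), C⟩ = -((l * m ^ 2 : ℕ) : ℤ) := by
    have h5 := BSD15.four_mul_norm γ
    rw [hno] at h5
    simp only [QF.disc]
    push_cast
    rw [← hγm]
    linear_combination -h5
  have hlm : (0 : ℤ) < ((l * m ^ 2 : ℕ) : ℤ) := by
    have h5 := hS.lp.pos
    have h6 := Nat.pos_of_ne_zero hS.adm.1.ne_zero
    positivity
  have hLv : R1.Lv (-((l * m ^ 2 : ℕ) : ℤ)) (m * (1 - 2 * r)) ⟨A, -(2 * γ.re + γ.im), C⟩ := by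
    refine ⟨hD, hA15, ?_⟩
    obtain ⟨t, ht⟩ := hres _ (BSD15.mem_cj.1 hγ)
    rw [QuadraticAlgebra.re_star, QuadraticAlgebra.im_star] at ht
    refine ⟨-t, ?_⟩
    rw [← hγm]
    linear_combination -2 * ht
  refine ⟨⟨A, -(2 * γ.re + γ.im), C⟩, ⟨hLv, hA0⟩, ?_, ?_⟩
  · rw [h3]
    refine (QF.eq_tau hA0 (by rw [hD]; linarith) h1.1 ?_).symm
    have h5 := emb_quad γ
    rw [hno] at h5
    rw [hτ]
    push_cast at h5 ⊢
    field_simp
    linear_combination h5
  · obtain ⟨s, t, e1, e2⟩ := basis h1 (CMA.nm_mem I)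
      (by rw [QuadraticAlgebra.im_natCast]; exact dvd_zero _)
    rw [QuadraticAlgebra.re_natCast] at e1
    rw [QuadraticAlgebra.im_natCast] at e2
    have hev : QF.ev ⟨A, -(2 * γ.re + γ.im), C⟩ t (-s) = nm I := by
      have h5 := congrArg QuadraticAlgebra.re e
      have h6 := congrArg QuadraticAlgebra.im e
      rw [re_nat] at h5
      rw [CMA.im_nat, im_star] at h6
      rw [QuadraticAlgebra.norm_def] at hC hA
      simp only [QuadraticAlgebra.re_mul, QuadraticAlgebra.re_star, QuadraticAlgebra.im_star] at h5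
      refine mul_left_cancel₀ hN.ne' ?_
      simp only [QF.ev]
      have h7 : (nm I : ℤ) * nm I = (s * x.re + t * y.re) ^ 2 +
          (s * x.re + t * y.re) * (s * x.im + t * y.im) +
          (((l + 1) / 4 : ℕ) : ℤ) * (s * x.im + t * y.im) ^ 2 := by
        rw [← e1, ← e2]; ring
      linear_combination -h7 - t ^ 2 * hA - s ^ 2 * hC + s * t * (2 * h5 + h6)
    rw [uw, R1.wf, if_pos hLv, BSD15.cfid_jac_sqf _ hS.adm.1]
    refine Finset.prod_congr rfl fun p hp => ?_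
    have hp1 := Nat.prime_of_mem_primeFactors hp
    have hp2 := Nat.dvd_of_mem_primeFactors hp
    rw [← hev]
    refine (QF.chip_eq hp1 ?_ ?_ ?_).symm
    · rintro rfl
      exact absurd ((hS.adm.2.coprime_dvd_left hp2).coprime_dvd_right (by norm_num : 2 ∣ 30))
        (by norm_num)
    · rw [hD, dvd_neg, Int.natCast_dvd_natCast]
      exact (hp2.trans (dvd_pow_self m two_ne_zero)).mul_left _
    · rw [hev, Int.natCast_dvd_natCast]
      exact fun h => hp1.ne_one (Nat.eq_one_of_dvd_coprimes hI.2 h hp2)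

end Pool.Agent.P.MP_8b7eba_nt.R2
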