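import Pool.Agent.P.MP_8b7eba_nt.R2.DefsH
import Pool.Agent.P.MP_8b7eba_nt.R2.CMA
import Pool.Agent.P.MP_8b7eba_nt.R1.Oth

/-! Proof of REPS. -/

namespace Pool.Agent.P.MP_8b7eba_nt.R2

open scoped NNReal Matrix
open MP_9c97e9_nt (Pt pm Is ap)
open BSD15 (OO nm cj Adm)
open _root_.Pool.Agent.P.MP_8b7eba_nt.Mod (M2 G0 al)
open R1 (QF Hg emb Pz uu Rq)
open Filter Topology Polynomial Module

namespace TREPS

theorem j15 {m : ℕ} (hm : Odd m) (h : Ec m) :
    jacobiSym 15 m = if m % 4 = 1 then 1 else -1 := by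
  have h5 : jacobiSym (5 : ℕ) m = -1 := by
    rw [jacobiSym.quadratic_reciprocity_one_mod_four (by norm_num) hm, jacobiSym.mod_left]
    rcases h.2 with e | e
    · rw [show (m : ℤ) % (5 : ℕ) = 2 by omega]
      norm_num
    · rw [show (m : ℤ) % (5 : ℕ) = 3 by omega]
      norm_num
  have h3 : jacobiSym m 3 = -1 := by
    have := h.1
    rw [jacobiSym.mod_left, show (m : ℤ) % (3 : ℕ) = 2 by omega]
    norm_num
  rw [show (15 : ℤ) = (3 : ℕ) * (5 : ℕ) by norm_num, jacobiSym.mul_left, h5]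
  have h2 := Nat.odd_iff.1 hm
  split_ifs with h4
  · rw [jacobiSym.quadratic_reciprocity_one_mod_four' (by decide) h4, h3]
    norm_num
  · rw [jacobiSym.quadratic_reciprocity_three_mod_four (by norm_num) (by omega), h3]
    norm_num

end TREPS

theorem t_REPS (hCE : CE) (hREP1 : REP1) (hREP2 : REP2) (hREP3 : REP3) : REPS := by
  intro l _ m hs
  classical
  have hc : Cd m := ⟨hs.adm.1.ne_zero, hs.adm.2.coprime_dvd_right (by norm_num)⟩
  have hN : 0 < l * m ^ 2 := Nat.mul_pos hs.lp.pos (pow_pos (Nat.pos_of_ne_zero hc.1) 2)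
  have := finite_RC (l := l) hc.1
  have := Fintype.ofFinite (RC l m)
  obtain ⟨h60, h1⟩ := hREP1 l m hs
  choose F f1 f2 f3 using fun a : RC l m => h1 (rp a) (rp_spec a).1
  have im : ∀ a : RC l m, 0 < (hz m (rp a)).im := fun a => (at_hz hc (rp_spec a).1).im
  have key : ∀ a a' g, G0 g → (F a).cmp g = F a' → a = a' := fun a a' g hg e => by
    have e1 := (hREP3.1 _ _ _ _ g hN (f1 a') (f1 a) hg).2 e
    have e2 : ∀ b : RC l m, io (JO b) = jf (hz m (rp b)) := fun b => by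
      have := JO_cl hCE.tau hCE.jf hc (rp_spec b).1
      rw [(rp_spec b).2] at this
      exact this.1.trans this.2
    rw [f2, f2] at e1
    refine JO_inj hCE.tau hCE.jf hCE.jinj hc (io.injective ?_)
    rw [e2, e2, ← e1, hCE.jf.1 g _ hg.1 (im a')]
  have hinj : Function.Injective F := fun a a' e =>
    key a a' 1 ⟨by decide, by decide⟩ ((R1.QF.cmp_one _).trans e)
  refine ⟨rH l m, Finset.univ.image F, h60, ⟨?_, fun Q hQ hw => ?_, ?_⟩, ?_⟩
  · intro P hP
    obtain ⟨a, -, rfl⟩ := Finset.mem_image.1 hP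
    exact f1 a
  · obtain ⟨g, hg, hA⟩ := (hREP3.2 l m _ Q hs hQ hw).2
    have hD : Q.disc < 0 := by
      rw [hQ.1.1]
      exact neg_neg_of_pos (Nat.cast_pos.2 hN)
    have hQ' : Hg (l * m ^ 2) (rH l m) (Q.cmp g) :=
      ⟨hQ.1.cmp hg, R1.QF.cmp_A_pos hQ.2 hD hg.det_pos.ne'⟩
    obtain ⟨I, hI, g', hg', e⟩ := hREP2 l m hs _ hQ' hA
    obtain ⟨γ, hγ, e'⟩ := hz_cl hc (rp_spec (cl m I)).1 hI (rp_spec _).2
    refine ⟨g * (g' * γ), hg.mul (hg'.mul hγ), Finset.mem_image.2 ⟨cl m I, Finset.mem_univ _, ?_⟩⟩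
    rw [R1.QF.cmp_mul]
    refine ((hREP3.1 _ _ _ _ _ hN (f1 _) hQ' (hg'.mul hγ)).1 ?_).symm
    rw [f2, M2.act_mul hg'.det_pos.ne' hγ.det_pos (im _), ← e', e]
  · intro P hP g hg hP'
    obtain ⟨a, -, rfl⟩ := Finset.mem_image.1 hP
    obtain ⟨a', -, e⟩ := Finset.mem_image.1 hP'
    obtain rfl := key a a' g hg e.symm
    refine (hREP3.2 l m _ _ hs (f1 a) ?_).1 g hg.1 e.symm
    rw [f3]
    exact jacobiSym.ne_zero (rp_spec a).1.2
  · rw [ZC, finsum_eq_sum_of_fintype, map_sum, ZS, Finset.sum_image hinj.injOn, map_sum]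
    refine Finset.sum_congr rfl fun a _ => ?_
    have e := HP_cl hCE.tau hc (rp_spec a).1
    rw [(rp_spec a).2] at e
    rw [map_zsmul, e, ← zsmul_eq_mul, map_zsmul, f3, f2, R1.uu_FI (im a), chi]
    rfl

theorem t_IRX (hREPS : REPS) (hCONJ : CONJ) : IRX := by
  intro l _ m hs hE hn
  obtain ⟨ρ, S, h60, hS, e⟩ := hREPS l m hs
  refine ⟨hs, ρ, S, h60, hS, fun ⟨q, hq⟩ => hn ?_⟩
  have hm : Odd m := Nat.coprime_two_right.1 (hs.adm.2.coprime_dvd_right (by norm_num))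
  have hN : 0 < l * m ^ 2 := Nat.mul_pos hs.lp.pos (pow_pos hm.pos 2)
  obtain ⟨u, v, h⟩ := (hCONJ _ ρ m S hN hs.adm (Dvd.intro_left (l * m) (by ring)) hS).1
  rw [← (MP_9c97e9_nt.pm_injective (W := W15) io).isOfFinAddOrder_iff, e]
  have l0 := Mod.L0_ne
  have o0 := Mod.om_ne
  have h2 := Nat.odd_iff.1 hm
  have h8 : l % 4 = 3 := by
    have := hs.l8
    omega
  rw [TREPS.j15 hm hE] at h
  rw [tZ, Nat.mul_mod, h8] at hq
  by_cases h4 : m % 4 = 1
  · rw [if_pos h4] at h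
    rw [h4, if_pos rfl] at hq
    have e1 := congrArg Complex.re h
    simp at e1
    refine R1.tors_of_rq ⟨u / 2, ?_⟩ ⟨2 * q, ?_⟩
    · push_cast
      field_simp
      linarith
    · push_cast
      rw [← hq]
      field_simp
  · rw [if_neg h4] at h
    rw [show m % 4 = 3 by omega, if_neg (by norm_num)] at hq
    have e1 := congrArg Complex.im h
    simp at e1
    refine R1.tors_of_rq ⟨4 * q, ?_⟩ ⟨v / 2, ?_⟩
    · push_cast
      rw [← hq]
      field_simp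
    · push_cast
      field_simp
      linarith

end Pool.Agent.P.MP_8b7eba_nt.R2
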