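import Pool.Agent.P.MP_8b7eba_nt.R2.DefsH
import Pool.Agent.P.MP_8b7eba_nt.R2.TKAP
import Pool.Agent.P.MP_8b7eba_nt.R2.THE1

/-! Proof of TOR. -/

namespace Pool.Agent.P.MP_8b7eba_nt.R2

namespace TTOR

open TKAP

theorem cd_d (P : Pre) : Cd P.d.natAbs :=
  ⟨Int.natAbs_ne_zero.2 P.sq.ne_zero, Int.isCoprime_iff_gcd_eq_one.1 P.cop.of_mul_right_left⟩

theorem gc_eq (hB : CB) (hARX : ARX) (P : Pre) {g : GQ} (hg : g ∈ P.GK) :
    gc (ar P.l P.d.natAbs g) = qz P.d g := by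
  have hc := cd_d P
  have hR := hARX P _ hc
  obtain ⟨B, hF⟩ := hR.fr
  refine Multiplicative.ofAdd.injective (ext_frob (P := P) hB.toCA (G := Multiplicative (ZMod 2))
    (f := fun g => .ofAdd (gc (ar P.l P.d.natAbs g))) (f' := fun g => .ofAdd (qz P.d g))
    (hR.sm.comp fun a => Multiplicative.ofAdd (gc a))
    ((isCh_qz P.d).1.comp fun a => Multiplicative.ofAdd a)
    (fun g hg g' hg' => ⟨by rw [hR.mul g hg g' hg', gc_mul, ofAdd_add],
      by rw [(isCh_qz (H := ⊤) P.d).2 g trivial g' trivial, ofAdd_add]⟩)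
    (B + 2 * P.d.natAbs + P.l) (fun w φ hw hφ hf => ?_) g hg)
  have h1 : ¬ w.p ∣ 2 * P.d.natAbs := fun e => by
    have := Nat.le_of_dvd (by have := hc.1; omega) e
    omega
  have h2 : ¬ (w.p : ℤ) ∣ 2 * P.d := fun e => h1 (by
    have := Int.natAbs_dvd_natAbs.2 e
    simpa [Int.natAbs_mul] using this)
  have h3 := (pw_split hB.toCA ((D_le_GK hB.toCA (by omega) hf).2 hφ)).1
  rw [hF w φ (by omega) hφ hf, gc_cl (ad_pw.2 fun e => h1 (e.mul_left 2)), h3,
    jac (by have := P.d8; omega)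
      (w.prime.odd_of_ne_two fun e => h1 (by rw [e]; exact dvd_mul_right 2 _))]
  congr 1
  refine LA.ext ?_
  rw [(qz_frob hB.toCA h2 hf).1]
  simp

end TTOR

open TTOR in
theorem t_GEN2 (hCB : CB) (hARX : ARX) (hCHI : CHI) : GEN2 := by
  intro P c hc hd g hg
  obtain ⟨-, -, h3, h4⟩ := hCHI P.l P.d.natAbs P.d.natAbs dvd_rfl
  rw [← h4 c hd, (hARX P c hc).pr _ hd g hg]
  have key : (if chi P.d.natAbs (ar P.l P.d.natAbs g) = 1 then 0 else 1) = qz P.d g :=
    gc_eq hCB hARX P hg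
  rw [sd]
  split_ifs with h
  · rw [(qz_eq_zero P.hdl).2 h] at key
    by_contra e
    rw [if_neg (Ne.symm e)] at key
    exact one_ne_zero key
  · refine ((Int.eq_one_or_neg_one_of_mul_eq_one (h3 _).1).resolve_left fun e => h ?_).symm
    rw [if_pos e] at key
    exact (qz_eq_zero P.hdl).1 key.symm

open THE1 in
theorem t_TOR (hARX : ARX) (hCHI : CHI) (hGEN2 : GEN2) : TOR := by
  intro D H k hN hy
  have h0 := TTOR.cd_d D.toPre
  have hd : D.d.natAbs ∣ D.ck [] k := (Dvd.intro_left _ rfl).mul_right _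
  have hc : Cd (D.ck [] k) := by
    simp only [Dat.ck, List.map_nil, List.prod_nil, mul_one]
    exact ⟨mul_ne_zero (pow_ne_zero _ two_ne_zero) h0.1,
      Nat.Coprime.mul_left (Nat.Coprime.pow_left _ (by norm_num)) h0.2⟩
  simp only [Dat.PP]
  rw [← csum_sum (relIndex_ne_zero (H.on _).2 _), hN, hy]
  simp only [List.map_nil, List.prod_nil, one_smul, Finset.sum_ite_eq, Finset.mem_univ, if_true]
  generalize D.ck [] k = c at hc hd
  have h := hARX D.toPre c hc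
  have := finite_RC (l := D.l) hc.1
  obtain ⟨-, h2, h3, -⟩ := hCHI D.l D.d.natAbs c hd
  have m : ∀ i, Nrm.ro D.GK (NH D.toPre c) i ∈ D.GK := fun i => Nrm.ro_mem i
  refine ((finsum_congr fun i => ?_).trans (cosets (G := RC D.l c) (O := Od D.l c) (A := ⊤) le_top
    (fun i => ar D.l c (Nrm.ro D.GK (NH D.toPre c) i)) (fun _ => trivial)
    (fun i j e => Nrm.ro_inj ?_) (fun x _ => ?_) fun a => chi D.d.natAbs a • HP a)).trans ?_
  · refine (congrArg₂ (· • ·) (hGEN2 D.toPre c hc hd _ (m i)) (ac_yH hc h (m i))).trans ?_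
    rw [smul_finsum' _ (Set.toFinite _)]
    exact finsum_congr fun b => by rw [h2, (h3 _).2.1, (h3 b.1).2.2 b.2, mul_one]
  · exact (mem_NH hc h).2 ⟨D.GK.mul_mem (D.GK.inv_mem (m i)) (m j), by rwa [ar_div h (m i) (m j)]⟩
  · obtain ⟨g, h1, rfl⟩ := h.surj x
    obtain ⟨i, hi⟩ := Nrm.ro_surj (H' := NH D.toPre c) h1
    exact ⟨i, by rw [← ar_div h (m i) h1]; exact ((mem_NH hc h).1 hi).2⟩
  · exact finsum_eq_of_bijective Subtype.val
      ⟨Subtype.val_injective, fun a => ⟨⟨a, trivial⟩, rfl⟩⟩ fun _ => rfl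

end Pool.Agent.P.MP_8b7eba_nt.R2
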