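import Pool.Agent.P.MP_8b7eba_nt.R2.DefsG
import Pool.Agent.P.MP_8b7eba_nt.R1.Vf

/-! Proof of UNF, HSUM. -/

namespace Pool.Agent.P.MP_8b7eba_nt.R2

open scoped ComplexConjugate Real
open _root_.Pool.Agent.P.MP_8b7eba_nt.Mod (M2 G0 FI L0 om lv mT)
open BSD15 (Adm lam Xp Rn)
open R1
open Filter Topology

namespace TUNF

theorem dneg {N : ℕ} {ρ : ℤ} {P : QF} (hN : 0 < N) (h : Hg N ρ P) : P.disc < 0 := by
  rw [h.1.1]; omega

theorem hcmp {N : ℕ} {ρ : ℤ} {P : QF} {g : M2} (hN : 0 < N) (h : Hg N ρ P) (hg : G0 g) :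
    Hg N ρ (P.cmp g) :=
  ⟨h.1.cmp hg, QF.cmp_A_pos h.2 (dneg hN h) (by rw [hg.1]; exact one_ne_zero)⟩

/-- a matrix moving a form into the set of representatives -/
noncomputable def H (S : Finset QF) (P : QF) : M2 :=
  Classical.epsilon fun g => G0 g ∧ P.cmp g ∈ S

theorem H_spec {N m : ℕ} {ρ : ℤ} {S : Finset QF} (hS : Rs N ρ m S) {P : QF} (hP : Hg N ρ P)
    (h0 : uw N ρ m P ≠ 0) : G0 (H S P) ∧ P.cmp (H S P) ∈ S :=
  Classical.epsilon_spec (p := fun g => G0 g ∧ P.cmp g ∈ S) (hS.all P hP h0)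

end TUNF

open TUNF

theorem t_UNF : UNF := by
  intro n ρ m R κ w hn0 hm hmn hR hκ h1 h2 B
  classical
  have hκ0 : κ ≠ 0 := by
    rintro rfl
    have := Int.isUnit_iff.1 (isCoprime_zero_left.1 hκ)
    omega
  have hn : 0 < (n : ℤ) := by omega
  have hu : ∀ P g, G0 g → uw n ρ m (P.cmp g) = uw n ρ m P := fun P g hg =>
    wf_cmp hm (dvd_neg.2 (Int.natCast_dvd_natCast.2 hmn)) P hg
  have fin : ∀ P : QF, {Q : QF | Hg n ρ P ∧ Q.disc = κ ^ 2 ∧ P.pair Q = B}.Finite := fun P => by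
    by_cases h : Hg n ρ P
    · exact (pair_finite h.2 (dneg hn0 h) _ _).subset fun Q hQ => hQ.2
    · simp [h]
  set S : QF → Finset QF := fun P => (fin P).toFinset with hS
  have mS : ∀ P Q, Q ∈ S P ↔ Hg n ρ P ∧ Q.disc = κ ^ 2 ∧ P.pair Q = B := fun c Q => by
    simp [hS]
  have e1 : ∀ P ∈ R, uw n ρ m P * (∑ᶠ Q : QF, if P.pair Q = B then w Q else 0) =
      ∑ Q ∈ S P, uw n ρ m P * w Q := by
    intro c hc
    rw [finsum_eq_sum_of_support_subset (s := S c), Finset.mul_sum]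
    · exact Finset.sum_congr rfl fun Q hQ => by rw [if_pos ((mS c Q).1 hQ).2.2]
    · intro Q hQ
      simp only [Function.mem_support, ne_eq, ite_eq_right_iff, Classical.not_imp] at hQ
      exact (mS c Q).2 ⟨hR.hg c hc, (h1 Q hQ.2).1, hQ.1⟩
  set T : ℕ → Finset ℤ := fun e => (Finset.Ico (0 : ℤ) (30 * e)).filter fun B₁ =>
    (60 * e : ℤ) ∣ B₁ ^ 2 + n ∧ 30 ∣ B₁ - ρ ∧ (30 * e : ℤ) ∣ B₁ * κ - B with hT
  have e2 : ∀ e : ℕ, (∑ B₁ ∈ Finset.Ico (0 : ℤ) (30 * e),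
      if (60 * e : ℤ) ∣ B₁ ^ 2 + n ∧ 30 ∣ B₁ - ρ ∧ (30 * e : ℤ) ∣ B₁ * κ - B then
        uw n ρ m (unfP n e B₁) * w ⟨0, κ, (B₁ * κ - B) / (30 * e)⟩ else 0) =
      ∑ B₁ ∈ T e, uw n ρ m (unfP n e B₁) * w ⟨0, κ, (B₁ * κ - B) / (30 * e)⟩ :=
    fun e => (Finset.sum_filter _ _).symm
  rw [NS, Finset.sum_congr rfl e1]
  simp only [e2]
  rw [Finset.sum_sigma', Finset.sum_sigma']
  symm
  have mT' : ∀ {e : ℕ} {B₁ : ℤ}, B₁ ∈ T e → 0 < e ∧ Hg n ρ (unfP n e B₁) ∧ 0 ≤ B₁ ∧ B₁ < 30 * e ∧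
      30 * e * ((B₁ * κ - B) / (30 * e)) = B₁ * κ - B := by
    intro e B₁ h
    simp only [hT, Finset.mem_filter, Finset.mem_Ico] at h
    have he : 0 < e := by omega
    exact ⟨he, unf_P he h.2.1 h.2.2.1, h.1.1, h.1.2, Int.mul_ediv_cancel' h.2.2.2⟩
  refine Finset.sum_bij_ne_zero (fun y _ _ => ⟨(unfP n y.1 y.2).cmp (H R (unfP n y.1 y.2)),
    QF.cmp ⟨0, κ, (y.2 * κ - B) / (30 * y.1)⟩ (H R (unfP n y.1 y.2))⟩) ?_ ?_ ?_ ?_
  · rintro ⟨e, B₁⟩ hy h0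
    obtain ⟨-, hP, -, -, h5⟩ := mT' (Finset.mem_sigma.1 hy).2
    obtain ⟨g1, g2⟩ := H_spec hR hP (left_ne_zero_of_mul h0)
    refine Finset.mem_sigma.2 ⟨g2, (mS _ _).2 ⟨hR.hg _ g2, ?_, ?_⟩⟩
    · simp only [QF.disc_cmp, g1.1]
      simp [QF.disc]
    · dsimp only at h5 ⊢
      rw [QF.pair_cmp, g1.1]
      simp only [QF.pair, unfP]
      linear_combination -h5
  · rintro ⟨e, B₁⟩ hy h0 ⟨e', B₁'⟩ hy' h0' h
    obtain ⟨-, hP, h3, h4, -⟩ := mT' (Finset.mem_sigma.1 hy).2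
    obtain ⟨-, hP', h3', h4', -⟩ := mT' (Finset.mem_sigma.1 hy').2
    obtain ⟨g1, -⟩ := H_spec hR hP (left_ne_zero_of_mul h0)
    obtain ⟨g1', -⟩ := H_spec hR hP' (left_ne_zero_of_mul h0')
    simp only [Sigma.mk.injEq, heq_eq_eq] at h h3 h4 h3' h4' g1 g1' ⊢
    obtain ⟨hc, hQ⟩ := h
    obtain ⟨k, hk, -⟩ := vert_stab hκ0 (g1.mul g1'.adj).1
      (by rw [QF.cmp_mul, hQ, QF.cmp_adj g1'.1])
    have e3 : (unfP n e B₁).cmp (mT k) = unfP n e' B₁' := by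
      have : (unfP n e B₁).cmp (H R (unfP n e B₁) * (H R (unfP n e' B₁')).adj) =
          unfP n e' B₁' := by rw [QF.cmp_mul, hc, QF.cmp_adj g1'.1]
      rcases hk with hk | hk <;> rw [hk] at this
      · exact this
      · rwa [QF.cmp_neg] at this
    rw [unf_mT] at e3
    have eA := congrArg QF.A e3
    have eB := congrArg QF.B e3
    simp only [unfP] at eA eB
    obtain rfl : e = e' := by omega
    refine ⟨rfl, ?_⟩
    rcases lt_trichotomy k 0 with h | rfl | h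
    · nlinarith
    · simpa using eB
    · nlinarith
  · rintro ⟨c, Q⟩ hx h0
    obtain ⟨q1, -, hB⟩ := (mS _ _).1 (Finset.mem_sigma.1 hx).2
    have hcR : c ∈ R := (Finset.mem_sigma.1 hx).1
    dsimp only at hB h0 q1
    obtain ⟨g, hg, C, hC⟩ := exists_vert hκ (h1 Q (right_ne_zero_of_mul h0))
    have hA := (hcmp hn0 q1 hg).2
    set k : ℤ := -((c.cmp g).B / (2 * (c.cmp g).A)) with hk
    have hg' : G0 (g * mT k) := hg.mul (Mod.G0_mT k)
    have hP := hcmp hn0 q1 hg'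
    have hV : Q.cmp (g * mT k) = ⟨0, κ, κ * k + C⟩ := by
      rw [QF.cmp_mul, hC, unf_mT]; simp
    have hr : 0 ≤ (c.cmp (g * mT k)).B ∧ (c.cmp (g * mT k)).B < 2 * (c.cmp (g * mT k)).A := by
      have a1 := Int.emod_nonneg (c.cmp g).B (by omega : 2 * (c.cmp g).A ≠ 0)
      have a2 := Int.emod_lt_of_pos (c.cmp g).B (by omega : 0 < 2 * (c.cmp g).A)
      have a3 := Int.emod_add_mul_ediv (c.cmp g).B (2 * (c.cmp g).A)
      rw [QF.cmp_mul, unf_mT, hk]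
      constructor <;> dsimp only <;> linarith
    have hp : (c.cmp (g * mT k)).pair ⟨0, κ, κ * k + C⟩ = B := by
      rw [← hV, QF.pair_cmp, hg'.1, hB]; ring
    have hc : uw n ρ m (c.cmp (g * mT k)) = uw n ρ m c := hu _ _ hg'
    have hs : ∀ h, G0 h → (c.cmp (g * mT k)).cmp h ∈ R →
        (c.cmp (g * mT k)).cmp h = c ∧ QF.cmp ⟨0, κ, κ * k + C⟩ h = Q := by
      intro h hh e
      rw [← QF.cmp_mul] at e
      rw [← hV, ← QF.cmp_mul, ← QF.cmp_mul]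
      rcases hR.inj c hcR _ (hg'.mul hh) e with e | e <;> rw [e] <;> simp
    generalize c.cmp (g * mT k) = P at hP hr hp hc hs
    generalize κ * k + C = C' at hp hs
    obtain ⟨A, B₁, C₁⟩ := P
    obtain ⟨⟨p1, ⟨e, p2⟩, p3⟩, p4⟩ := id hP
    simp only [QF.disc, QF.pair] at p1 p2 p3 p4 hr hp
    lift e to ℕ using by omega
    subst p2
    have he : (0 : ℤ) < e := by omega
    have d1 : B₁ ^ 2 + n = 60 * e * C₁ := by linear_combination p1
    have d2 : B₁ * κ - B = 30 * e * C' := by linear_combination hp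
    have d3 : B ^ 2 + n * κ ^ 2 = 60 * (e * (κ ^ 2 * C₁ - C' * B₁ * κ + 15 * e * C' ^ 2)) := by
      have : B = B₁ * κ - 30 * e * C' := by linear_combination -d2
      rw [this]; linear_combination κ ^ 2 * d1
    have d4 : 0 < B ^ 2 + n * κ ^ 2 := by positivity
    have eP : unfP n e B₁ = ⟨15 * e, B₁, C₁⟩ := by
      rw [unfP, d1, Int.mul_ediv_cancel_left _ (by omega)]
    have eC : (B₁ * κ - B) / (30 * e) = C' := by rw [d2, Int.mul_ediv_cancel_left _ (by omega)]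
    have mem : B₁ ∈ T e := by
      simp only [hT, Finset.mem_filter, Finset.mem_Ico]
      exact ⟨⟨hr.1, by omega⟩, ⟨_, d1⟩, p3, ⟨_, d2⟩⟩
    obtain ⟨g1, g2⟩ := H_spec hR hP (hc ▸ left_ne_zero_of_mul h0)
    obtain ⟨g3, g4⟩ := hs _ g1 g2
    refine ⟨⟨e, B₁⟩, Finset.mem_sigma.2 ⟨Nat.mem_divisors.2 ⟨?_, ?_⟩, mem⟩, ?_, ?_⟩
    · rw [← Int.natCast_dvd_natCast, Int.toNat_of_nonneg (by omega), d3,
        Int.mul_ediv_cancel_left _ (by norm_num)]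
      exact dvd_mul_right _ _
    · omega
    · dsimp only
      rw [eC, eP, hc, ← h2 _ _ g1, g4]
      exact h0
    · dsimp only
      rw [eC, eP, g3, g4]
  · rintro ⟨e, B₁⟩ hy h0
    obtain ⟨-, hP, -⟩ := mT' (Finset.mem_sigma.1 hy).2
    obtain ⟨g1, -⟩ := H_spec hR hP (left_ne_zero_of_mul h0)
    dsimp only at g1 ⊢
    rw [hu _ _ g1, h2 _ _ g1]

theorem t_HSUM : HSUM := by
  intro n ρ m R D w s hn hR hD h1 h2 hs hs'
  have key : ∀ P ∈ R, HasSum (fun B : ℤ =>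
      ((∑ᶠ Q : QF, if P.pair Q = B then w Q else 0 : ℤ) : ℝ) * gg s (-B / √(n * D)))
      (VV w s P.tau) := by
    intro P hP
    have hg := hR P hP
    have h3 := (summable_VV hD h1 h2 hs hs'
      (QF.tau_im_pos hg.2 (dneg hn hg))).hasSum.tsum_fiberwise P.pair
    have e : (fun B : ℤ => ∑' Q : P.pair ⁻¹' {B},
        (w Q : ℝ) * gg s ((Q : QF).tt P.tau)) = fun B : ℤ =>
        ((∑ᶠ Q : QF, if P.pair Q = B then w Q else 0 : ℤ) : ℝ) *
          gg s (-B / √(n * D)) := by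
      funext B
      rw [Vf_fibre hg.2 (dneg hn hg) h1, hg.1.1]
      simp only [Int.cast_neg, Int.cast_natCast, neg_neg]
    rw [e] at h3
    exact h3
  have h4 := hasSum_sum (s := R) fun P hP => (key P hP).mul_left (uw n ρ m P : ℝ)
  have e : (fun B : ℤ => (NS n ρ m R w B : ℝ) * gg s (-B / √(n * D))) = fun B : ℤ =>
      ∑ P ∈ R, (uw n ρ m P : ℝ) *
        (((∑ᶠ Q : QF, if P.pair Q = B then w Q else 0 : ℤ) : ℝ) *
          gg s (-B / √(n * D))) := by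
    funext B
    rw [NS, Int.cast_sum, Finset.sum_mul]
    refine Finset.sum_congr rfl fun c _ => ?_
    rw [Int.cast_mul, mul_assoc]
  rw [e]
  exact h4

end Pool.Agent.P.MP_8b7eba_nt.R2
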