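import Pool.Agent.P.MP_8b7eba_nt.R2.AllE
import Pool.Agent.P.MP_8b7eba_nt.R2.AllL
import Pool.Agent.P.MP_8b7eba_nt.R2.TARI
import Pool.Agent.P.MP_8b7eba_nt.R2.TCHI
import Pool.Agent.P.MP_8b7eba_nt.R2.TCONJ
import Pool.Agent.P.MP_8b7eba_nt.R2.TEVS
import Pool.Agent.P.MP_8b7eba_nt.R2.TGKF
import Pool.Agent.P.MP_8b7eba_nt.R2.TGKI
import Pool.Agent.P.MP_8b7eba_nt.R2.TH2
import Pool.Agent.P.MP_8b7eba_nt.R2.TKZ
import Pool.Agent.P.MP_8b7eba_nt.R2.TPAR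
import Pool.Agent.P.MP_8b7eba_nt.R2.TREP1
import Pool.Agent.P.MP_8b7eba_nt.R2.TREP2
import Pool.Agent.P.MP_8b7eba_nt.R2.TREP3
import Pool.Agent.P.MP_8b7eba_nt.R2.TREPS
import Pool.Agent.P.MP_8b7eba_nt.R2.TTOR
import Pool.Agent.P.MP_8b7eba_nt.R2.TUNF
import Pool.Agent.P.MP_8b7eba_nt.R2.TUNL

/-! The statements on the twisted Heegner point hold. -/

namespace Pool.Agent.P.MP_8b7eba_nt.R2

theorem a_UNF : UNF := t_UNF

theorem a_EVS : EVS := t_EVS a_UNF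

theorem a_ARI : ARI := t_ARI

theorem a_HSUM : HSUM := t_HSUM

theorem a_CONJ : CONJ := t_CONJ

theorem a_GKI : GKI := t_GKI a_EVS a_ARI a_HSUM a_CONJ

theorem a_GKF : GKF := t_GKF a_GKI

theorem a_REP1 : REP1 := t_REP1

theorem a_REP2 : REP2 := t_REP2

theorem a_REP3 : REP3 := t_REP3

theorem a_REPS : REPS := t_REPS a_CE a_REP1 a_REP2 a_REP3

theorem a_IRX : IRX := t_IRX a_REPS a_CONJ

theorem a_CHI : CHI := t_CHI

theorem a_H2A : H2A := t_H2A a_CE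

theorem a_H2B : H2B := t_H2B a_CE

theorem a_TR2 : TR2 := t_TR2 a_CHI a_H2A a_H2B

theorem a_GEN2 : GEN2 := t_GEN2 a_CB a_ARX a_CHI

theorem a_TOR : TOR := t_TOR a_ARX a_CHI a_GEN2

theorem a_KZ : KZ := t_KZ a_CP a_INVP

theorem a_PAR1 : PAR1 := t_PAR1 a_CP a_SPLIT

theorem a_UNL : UNL := t_UNL a_CP a_KTRIV

theorem a_PAR : PAR := t_PAR a_CP a_KTRIV a_DUAL a_CH2 a_UNL

end Pool.Agent.P.MP_8b7eba_nt.R2
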