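import Pool.Agent.P.MP_8b7eba_nt.R2.Basic

/-! Basic facts on cochains. -/

namespace Pool.Agent.P.MP_8b7eba_nt.R2

open scoped NNReal

variable {H H' U N N' : Subgroup GQ} {A B C : Type} {x y : Om} {w : Pl}

/-! ### Locally constant cochains -/

theorem BasicS.rep (hN : ON N) (H : Subgroup GQ) :
    ∃ T : Set GQ, T.Finite ∧ ∀ g ∈ H, ∃ n ∈ H, n ∈ N ∧ g * n ∈ T := by
  have : (N.subgroupOf H).FiniteIndex := ⟨relIndex_ne_zero hN.2 H⟩
  refine ⟨_, Set.finite_range fun q : H ⧸ N.subgroupOf H => (q.out : GQ), fun g hg => ?_⟩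
  obtain ⟨n, e⟩ := QuotientGroup.mk_out_eq_mul (N.subgroupOf H) ⟨g, hg⟩
  exact ⟨n, n.1.2, n.2, _, congrArg Subtype.val e⟩

theorem BasicS.left {c : GQ → A} (hN : ON N) (h : ∀ g ∈ H, ∀ n ∈ H, n ∈ N → c (g * n) = c g)
    {g n : GQ} (hg : g ∈ H) (hn : n ∈ H) (m : n ∈ N) : c (n * g) = c g := by
  rw [show n * g = g * (g⁻¹ * n * g) by group]
  exact h g hg _ (mul_mem (mul_mem (inv_mem hg) hn) hg) (hN.1.conj_mem' n m g)

theorem BasicS.cont [TopologicalSpace A] {c : GQ → A} (h : Sm H c) : ContinuousOn c H := by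
  obtain ⟨N, a, b⟩ := h
  refine fun g hg => (continuousWithinAt_const (b := c g)).congr_of_eventuallyEq ?_ rfl
  filter_upwards [self_mem_nhdsWithin, mem_nhdsWithin_of_mem_nhds
    ((a.2.preimage (continuous_const_mul g⁻¹)).mem_nhds (by simp : g ∈ _))] with x h1 h2
  simpa using b g hg _ (mul_mem (inv_mem hg) h1) h2

theorem BasicS.of_cont [TopologicalSpace A] [DiscreteTopology A] {c : GQ → A}
    (hH : IsClosed (H : Set GQ)) (h : ContinuousOn c H) : Sm H c := by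
  have k : ∀ g : H, ∃ N, ON N ∧ ∀ x ∈ H, (g : GQ)⁻¹ * x ∈ N → c x = c g := fun g => by
    have h1 := eventually_nhdsWithin_iff.1 ((h g g.2).eventually
      ((isOpen_discrete {c g}).mem_nhds rfl))
    obtain ⟨E, _, hE⟩ := (krullTopology_mem_nhds_one_iff ℚ Om _).1
      ((continuous_const_mul (g : GQ)).continuousAt.eventually
        (show ∀ᶠ y in nhds ((g : GQ) * 1), y ∈ (H : Set GQ) → c y ∈ ({c g} : Set A) by
          rw [mul_one]; exact h1))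
    obtain ⟨N, a, b⟩ := exists_ON_le E.fixingSubgroup_isOpen
    exact ⟨N, a, fun x hx m => by simpa [hx] using hE (b m)⟩
  choose M a b using k
  obtain ⟨t, ht⟩ := hH.isCompact.elim_finite_subcover (fun g : H => {x | (g : GQ)⁻¹ * x ∈ M g})
    (fun g => (a g).2.preimage (continuous_const_mul _))
    fun g hg => Set.mem_iUnion.2 ⟨⟨g, hg⟩, by simp⟩
  obtain ⟨N, hN, e⟩ := exists_ON_forall fun g : t => a g
  refine ⟨N, hN, fun x hx n hn m => ?_⟩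
  obtain ⟨g, hg, h1⟩ := Set.mem_iUnion₂.1 (ht hx)
  rw [b g x hx h1, b g _ (mul_mem hx hn) (mul_assoc _ x n ▸ mul_mem h1 (e ⟨g, hg⟩ m))]

theorem BasicS.strong2 {f : GQ → GQ → Om} (h : Sm2 H f) : ∃ N, ON N ∧ ∀ g ∈ H, ∀ k ∈ H,
    Fix N (f g k) ∧ ∀ n ∈ H, n ∈ N → f (g * n) k = f g k ∧ f g (k * n) = f g k ∧
      f (n * g) k = f g k ∧ f g (n * k) = f g k := by
  obtain ⟨N, a, b⟩ := h
  obtain ⟨T, h1, h2⟩ := BasicS.rep a H
  obtain ⟨N', a', e⟩ := exists_ON_fix (h1.image2 f h1).toFinset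
  refine ⟨_, a.inf a', fun g hg k hk => ⟨(e _ ?_).mono inf_le_right, fun n hn m =>
    ⟨(b g hg k hk n hn m.1).1, (b g hg k hk n hn m.1).2,
      BasicS.left (c := (f · k)) a (fun g hg n hn m => (b g hg k hk n hn m).1) hg hn m.1,
      BasicS.left a (fun k hk n hn m => (b g hg k hk n hn m).2) hk hn m.1⟩⟩⟩
  obtain ⟨n, hn, m, e⟩ := h2 g hg
  obtain ⟨n', hn', m', e'⟩ := h2 k hk
  exact (Set.Finite.mem_toFinset _).2 ⟨_, e, _, e',
    (b g hg _ (mul_mem hk hn') n hn m).1.trans (b g hg k hk n' hn' m').2⟩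

theorem Sm.const (a : A) : Sm H fun _ => a := ⟨⊤, ON.top, fun _ _ _ _ _ => rfl⟩

theorem Sm.mono {c : GQ → A} (h : Sm H c) (h' : H' ≤ H) : Sm H' c :=
  let ⟨N, a, b⟩ := h; ⟨N, a, fun g hg n hn => b g (h' hg) n (h' hn)⟩

theorem Sm.congr {c d : GQ → A} (h : Sm H c) (e : ∀ g ∈ H, d g = c g) : Sm H d :=
  let ⟨N, a, b⟩ := h
  ⟨N, a, fun g hg n hn m => by rw [e _ (mul_mem hg hn), e _ hg, b g hg n hn m]⟩

theorem Sm.comp {c : GQ → A} (h : Sm H c) (F : A → B) : Sm H fun g => F (c g) :=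
  let ⟨N, a, b⟩ := h; ⟨N, a, fun g hg n hn m => congrArg F (b g hg n hn m)⟩

theorem Sm.comp₂ {c : GQ → A} {d : GQ → B} (h : Sm H c) (h' : Sm H d) (F : A → B → C) :
    Sm H fun g => F (c g) (d g) :=
  let ⟨_, a, b⟩ := h; let ⟨_, a', b'⟩ := h'
  ⟨_, a.inf a', fun g hg n hn m => congrArg₂ F (b g hg n hn m.1) (b' g hg n hn m.2)⟩

theorem Sm.pi {ι : Type} [Finite ι] {c : GQ → ι → A} (h : ∀ i, Sm H fun g => c g i) : Sm H c := by
  choose M a b using h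
  obtain ⟨N, hN, e⟩ := exists_ON_forall a
  exact ⟨N, hN, fun g hg n hn m => funext fun i => b i g hg n hn (e i m)⟩

theorem Sm.finite {c : GQ → A} (h : Sm H c) : (c '' H).Finite := by
  obtain ⟨N, a, b⟩ := h
  obtain ⟨T, h1, h2⟩ := BasicS.rep a H
  refine (h1.image c).subset ?_
  rintro _ ⟨g, hg, rfl⟩
  obtain ⟨n, hn, m, e⟩ := h2 g hg
  exact ⟨_, e, b g hg n hn m⟩

theorem Sm.gal {b : GQ → Om} (h : Sm H b) : Sm H fun g => g (b g) := by
  obtain ⟨N, a, e⟩ := h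
  obtain ⟨N', a', e'⟩ := exists_ON_fix (Sm.finite ⟨N, a, e⟩).toFinset
  refine ⟨_, a.inf a', fun g hg n hn m => ?_⟩
  beta_reduce
  rw [e g hg n hn m.1, AlgEquiv.mul_apply, e' _ (by simpa using ⟨g, hg, rfl⟩) n m.2]

theorem sm_apply (x : Om) : Sm H fun g => g x := (Sm.const x).gal

theorem Sm.inv {c : GQ → A} (h : Sm H c) : Sm H fun g => c g⁻¹ :=
  let ⟨N, a, b⟩ := h
  ⟨N, a, fun g hg n hn m => by
    beta_reduce; rw [mul_inv_rev]; exact BasicS.left a b (inv_mem hg) (inv_mem hn) (inv_mem m)⟩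

theorem Sm.conj {c : GQ → A} (h : Sm H c) (u : GQ) (e : ∀ g ∈ H', u⁻¹ * g * u ∈ H) :
    Sm H' fun g => c (u⁻¹ * g * u) :=
  let ⟨N, a, b⟩ := h
  ⟨N, a, fun g hg n hn m => by
    beta_reduce
    rw [show u⁻¹ * (g * n) * u = u⁻¹ * g * u * (u⁻¹ * n * u) by group]
    exact b _ (e g hg) _ (e n hn) (a.1.conj_mem' n m u)⟩

/-- a strong form: two-sided invariance, and the values are fixed -/
theorem Sm.strong {b : GQ → Om} (h : Sm H b) : ∃ N, ON N ∧ ∀ g ∈ H, Fix N (b g) ∧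
    ∀ n ∈ H, n ∈ N → b (g * n) = b g ∧ b (n * g) = b g := by
  obtain ⟨N, a, e⟩ := h
  obtain ⟨N', a', e'⟩ := exists_ON_fix (Sm.finite ⟨N, a, e⟩).toFinset
  exact ⟨_, a.inf a', fun g hg => ⟨(e' _ (by simpa using ⟨g, hg, rfl⟩)).mono inf_le_right,
    fun n hn m => ⟨e g hg n hn m.1, BasicS.left a e hg hn m.1⟩⟩⟩

theorem Sm.left {c : GQ → A} (h : Sm H c) : ∃ N, ON N ∧ ∀ g ∈ H,
    ∀ n ∈ H, n ∈ N → c (g * n) = c g ∧ c (n * g) = c g :=
  let ⟨N, a, b⟩ := h; ⟨N, a, fun g hg n hn m => ⟨b g hg n hn m, BasicS.left a b hg hn m⟩⟩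

theorem sm_top_iff {c : GQ → A} : Sm ⊤ c ↔ IsLocallyConstant c := by
  let _ : TopologicalSpace A := ⊥
  have : DiscreteTopology A := ⟨rfl⟩
  rw [IsLocallyConstant.iff_continuous, ← continuousOn_univ]
  exact ⟨fun h => BasicS.cont h, fun h => BasicS.of_cont (H := ⊤) isClosed_univ h⟩

theorem Sm.continuousOn [TopologicalSpace A] {c : GQ → A} (h : Sm H c) : ContinuousOn c H :=
  BasicS.cont h

theorem sm_of_continuousOn [TopologicalSpace A] [DiscreteTopology A] {c : GQ → A}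
    (hH : IsClosed (H : Set GQ)) (h : ContinuousOn c H) : Sm H c := BasicS.of_cont hH h

theorem Sm2.mono {f : GQ → GQ → A} (h : Sm2 H f) (h' : H' ≤ H) : Sm2 H' f :=
  let ⟨N, a, b⟩ := h; ⟨N, a, fun g hg k hk n hn => b g (h' hg) k (h' hk) n (h' hn)⟩

theorem Sm2.congr {f f' : GQ → GQ → A} (h : Sm2 H f) (e : ∀ g ∈ H, ∀ k ∈ H, f' g k = f g k) :
    Sm2 H f' :=
  let ⟨N, a, b⟩ := h
  ⟨N, a, fun g hg k hk n hn m => by
    rw [e _ (mul_mem hg hn) _ hk, e _ hg _ (mul_mem hk hn), e _ hg _ hk]; exact b g hg k hk n hn m⟩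

theorem Sm2.comp {f : GQ → GQ → A} (h : Sm2 H f) (F : A → B) : Sm2 H fun g k => F (f g k) :=
  let ⟨N, a, b⟩ := h
  ⟨N, a, fun g hg k hk n hn m => (b g hg k hk n hn m).imp (congrArg F) (congrArg F)⟩

theorem Sm2.comp₂ {f : GQ → GQ → A} {f' : GQ → GQ → B} (h : Sm2 H f) (h' : Sm2 H f')
    (F : A → B → C) : Sm2 H fun g k => F (f g k) (f' g k) :=
  let ⟨_, a, b⟩ := h; let ⟨_, a', b'⟩ := h'
  ⟨_, a.inf a', fun g hg k hk n hn m =>
    ⟨congrArg₂ F (b g hg k hk n hn m.1).1 (b' g hg k hk n hn m.2).1,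
      congrArg₂ F (b g hg k hk n hn m.1).2 (b' g hg k hk n hn m.2).2⟩⟩

theorem Sm.fst {c : GQ → A} (h : Sm H c) : Sm2 H fun g _ => c g :=
  let ⟨N, a, b⟩ := h; ⟨N, a, fun g hg _ _ n hn m => ⟨b g hg n hn m, rfl⟩⟩

theorem Sm.snd {c : GQ → A} (h : Sm H c) : Sm2 H fun _ k => c k :=
  let ⟨N, a, b⟩ := h; ⟨N, a, fun _ _ k hk n hn m => ⟨rfl, b k hk n hn m⟩⟩

theorem Sm.mul2 {c : GQ → A} (h : Sm H c) : Sm2 H fun g k => c (g * k) :=
  let ⟨N, a, b⟩ := h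
  ⟨N, a, fun g hg k hk n hn m => ⟨by
    beta_reduce
    rw [show g * n * k = g * k * (k⁻¹ * n * k) by group]
    exact b _ (mul_mem hg hk) _ (mul_mem (mul_mem (inv_mem hk) hn) hk) (a.1.conj_mem' n m k), by
      beta_reduce; rw [← mul_assoc]; exact b _ (mul_mem hg hk) n hn m⟩⟩

theorem Sm2.gal {f : GQ → GQ → Om} (h : Sm2 H f) : Sm2 H fun g k => g (f g k) := by
  obtain ⟨N, a, b⟩ := BasicS.strong2 h
  refine ⟨N, a, fun g hg k hk n hn m => ?_⟩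
  obtain ⟨h1, h2⟩ := b g hg k hk
  simp only [(h2 n hn m).1, (h2 n hn m).2.1, AlgEquiv.mul_apply, h1 n m, and_self]

theorem Sm2.left {f : GQ → GQ → A} (h : Sm2 H f) {k : GQ} (hk : k ∈ H) : Sm H fun g => f g k :=
  let ⟨N, a, b⟩ := h; ⟨N, a, fun g hg n hn m => (b g hg k hk n hn m).1⟩

theorem Sm2.right {f : GQ → GQ → A} (h : Sm2 H f) {g : GQ} (hg : g ∈ H) : Sm H (f g) :=
  let ⟨N, a, b⟩ := h; ⟨N, a, fun k hk n hn m => (b g hg k hk n hn m).2⟩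

theorem Sm2.diag {f : GQ → GQ → A} (h : Sm2 H f) {a b : GQ → GQ} (ha : ∀ g ∈ H, a g ∈ H)
    (hb : ∀ g ∈ H, b g ∈ H) (hs : ∀ N, ON N → ∃ N', ON N' ∧ ∀ g ∈ H, ∀ n ∈ H, n ∈ N' →
      (a g)⁻¹ * a (g * n) ∈ N ∧ (b g)⁻¹ * b (g * n) ∈ N) : Sm H fun g => f (a g) (b g) := by
  obtain ⟨N, h1, h2⟩ := h
  obtain ⟨N', h3, h4⟩ := hs N h1
  refine ⟨N', h3, fun g hg n hn m => ?_⟩
  have e := mul_mem hg hn
  have e1 := (h2 _ (ha g hg) _ (hb _ e) _ (mul_mem (inv_mem (ha g hg)) (ha _ e))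
    (h4 g hg n hn m).1).1
  have e2 := (h2 _ (ha g hg) _ (hb g hg) _ (mul_mem (inv_mem (hb g hg)) (hb _ e))
    (h4 g hg n hn m).2).2
  rw [mul_inv_cancel_left] at e1 e2
  exact e1.trans e2

theorem Sm2.strong {f : GQ → GQ → Om} (h : Sm2 H f) : ∃ N, ON N ∧ ∀ g ∈ H, ∀ k ∈ H,
    Fix N (f g k) ∧ ∀ n ∈ H, n ∈ N → f (g * n) k = f g k ∧ f g (k * n) = f g k ∧
      f (n * g) k = f g k ∧ f g (n * k) = f g k := BasicS.strong2 h

theorem IsCh.mono [Add A] {χ : GQ → A} (h : IsCh H χ) (h' : H' ≤ H) : IsCh H' χ :=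
  ⟨h.1.mono h', fun g hg k hk => h.2 g (h' hg) k (h' hk)⟩

theorem IsCh.one [AddGroup A] {χ : GQ → A} (h : IsCh H χ) : χ 1 = 0 := by
  simpa using h.2 1 H.one_mem 1 H.one_mem

theorem IsCh.inv [AddGroup A] {χ : GQ → A} (h : IsCh H χ) {g : GQ} (hg : g ∈ H) :
    χ g⁻¹ = -χ g := by
  rw [eq_neg_iff_add_eq_zero, ← h.2 _ (inv_mem hg) _ hg, inv_mul_cancel, h.one]

theorem IsCh.pow [AddGroup A] {χ : GQ → A} (h : IsCh H χ) {g : GQ} (hg : g ∈ H) (n : ℕ) :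
    χ (g ^ n) = n • χ g := by
  induction n with
  | zero => simpa using h.one
  | succ n ih => rw [pow_succ, h.2 _ (pow_mem hg n) _ hg, ih, succ_nsmul]

theorem IsCh.exists_ker [AddGroup A] {χ : GQ → A} (h : IsCh H χ) :
    ∃ U : Subgroup GQ, IsOpen (U : Set GQ) ∧ IsKer H (H ⊓ U) χ := by
  obtain ⟨N, a, b⟩ := h.1
  let K : Subgroup GQ :=
    { carrier := {g | g ∈ H ∧ χ g = 0}
      one_mem' := ⟨H.one_mem, h.one⟩
      mul_mem' := fun {g k} hg hk => ⟨mul_mem hg.1 hk.1, by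
        rw [h.2 _ hg.1 _ hk.1, hg.2, hk.2, add_zero]⟩
      inv_mem' := fun {g} hg => ⟨inv_mem hg.1, by rw [h.inv hg.1, hg.2, neg_zero]⟩ }
  refine ⟨K ⊔ N, open_of_le a.2 le_sup_right, fun g => ?_⟩
  rw [← eq_inf_sup a.1 (H' := K) (fun n hn => ⟨hn.2, by
    simpa [h.one] using b 1 H.one_mem n hn.2 hn.1⟩) fun _ hg => hg.1]
  rfl

theorem IsKer.eq_inf [AddGroup A] {χ : GQ → A} (h : IsCh H χ) (hk : IsKer H H' χ) :
    ∃ U : Subgroup GQ, IsOpen (U : Set GQ) ∧ H' = H ⊓ U :=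
  let ⟨U, a, b⟩ := h.exists_ker; ⟨U, a, Subgroup.ext fun g => (hk g).trans (b g).symm⟩

theorem IsKer.relIndex [AddGroup A] {χ : GQ → A} (h : IsCh H χ) (hk : IsKer H H' χ) :
    H'.relIndex H = (χ '' H).ncard := by
  let φ : H →* Multiplicative A := MonoidHom.mk' (fun g => Multiplicative.ofAdd (χ g))
    fun g k => h.2 _ g.2 _ k.2
  have e : H'.subgroupOf H = φ.ker := Subgroup.ext fun g => (hk g).trans (and_iff_right g.2)
  rw [Subgroup.relIndex, e, Subgroup.index_ker, Set.image_eq_range]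
  rfl

theorem isKer_qc (H : Subgroup GQ) (β : Om) : IsKer H (H ⊓ MulAction.stabilizer GQ β) (qc β) :=
  fun g => by simp [qc, AlgEquiv.smul_def]

/-! ### Cocycles -/

variable {f f' : GQ → GQ → Om}

theorem Co2.mono (h : Co2 H f) (h' : H' ≤ H) : Co2 H' f :=
  ⟨fun g hg k hk => h.ne g (h' hg) k (h' hk), h.sm.mono h',
    fun g hg k hk l hl => h.co g (h' hg) k (h' hk) l (h' hl)⟩

theorem Co2.congr (h : Co2 H f) (e : ∀ g ∈ H, ∀ k ∈ H, f' g k = f g k) : Co2 H f' :=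
  ⟨fun g hg k hk => e g hg k hk ▸ h.ne g hg k hk, h.sm.congr e, fun g hg k hk l hl => by
    rw [e _ hk _ hl, e _ hg _ (mul_mem hk hl), e _ (mul_mem hg hk) _ hl, e _ hg _ hk]
    exact h.co g hg k hk l hl⟩

theorem Co2.one : Co2 H 1 :=
  ⟨fun _ _ _ _ => one_ne_zero, (Sm.const 1).fst, fun _ _ _ _ _ _ => by simp⟩

theorem Co2.mul (h : Co2 H f) (h' : Co2 H f') : Co2 H (f * f') :=
  ⟨fun g hg k hk => mul_ne_zero (h.ne g hg k hk) (h'.ne g hg k hk), h.sm.comp₂ h'.sm (· * ·),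
    fun g hg k hk l hl => by
      simp only [Pi.mul_apply, map_mul]
      rw [mul_mul_mul_comm, h.co g hg k hk l hl, h'.co g hg k hk l hl, mul_mul_mul_comm]⟩

theorem Co2.inv (h : Co2 H f) : Co2 H f⁻¹ :=
  ⟨fun g hg k hk => inv_ne_zero (h.ne g hg k hk), h.sm.comp (·⁻¹), fun g hg k hk l hl => by
    simp only [Pi.inv_apply, map_inv₀, ← mul_inv, h.co g hg k hk l hl]⟩

theorem Co2.div (h : Co2 H f) (h' : Co2 H f') : Co2 H (f / f') :=
  div_eq_mul_inv f f' ▸ h.mul h'.inv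

theorem Co2.pow (h : Co2 H f) (n : ℕ) : Co2 H (f ^ n) := by
  induction n with
  | zero => exact pow_zero f ▸ Co2.one
  | succ n ih => exact pow_succ f n ▸ ih.mul h

theorem Triv.mono (h : Triv H f) (h' : H' ≤ H) : Triv H' f :=
  let ⟨b, h1, h2, h3⟩ := h
  ⟨b, h1.mono h', fun g hg => h2 g (h' hg), fun g hg k hk => h3 g (h' hg) k (h' hk)⟩

theorem Triv.congr (h : Triv H f) (e : ∀ g ∈ H, ∀ k ∈ H, f' g k = f g k) : Triv H f' :=
  let ⟨b, h1, h2, h3⟩ := h; ⟨b, h1, h2, fun g hg k hk => e g hg k hk ▸ h3 g hg k hk⟩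

theorem Triv.one : Triv H 1 := ⟨fun _ => 1, Sm.const 1, fun _ _ => one_ne_zero, by simp⟩

theorem Triv.co2 (h : Triv H f) : Co2 H f := by
  obtain ⟨b, h1, h2, h3⟩ := h
  have n : ∀ g : GQ, ∀ k ∈ H, g (b k) ≠ 0 := fun g k hk => (map_ne_zero g).2 (h2 k hk)
  refine Co2.congr (f := fun g k => b g * g (b k) / b (g * k)) ⟨fun g hg k hk =>
    div_ne_zero (mul_ne_zero (h2 g hg) (n g k hk)) (h2 _ (mul_mem hg hk)),
    (h1.fst.comp₂ h1.snd.gal (· * ·)).comp₂ h1.mul2 (· / ·), fun g hg k hk l hl => ?_⟩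
    fun g hg k hk => eq_div_of_mul_eq (h2 _ (mul_mem hg hk)) (h3 g hg k hk)
  have := n g _ (mul_mem hk hl)
  have := h2 _ (mul_mem hg hk)
  simp only [map_div₀, map_mul, AlgEquiv.mul_apply, mul_assoc g]
  field_simp

theorem Triv.mul (h : Triv H f) (h' : Triv H f') : Triv H (f * f') :=
  let ⟨b, h1, h2, h3⟩ := h; let ⟨b', h1', h2', h3'⟩ := h'
  ⟨fun g => b g * b' g, h1.comp₂ h1' (· * ·), fun g hg => mul_ne_zero (h2 g hg) (h2' g hg),
    fun g hg k hk => by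
      simp only [Pi.mul_apply, map_mul]
      rw [mul_mul_mul_comm, h3 g hg k hk, h3' g hg k hk, mul_mul_mul_comm]⟩

theorem Triv.inv (h : Triv H f) : Triv H f⁻¹ :=
  let ⟨b, h1, h2, h3⟩ := h
  ⟨fun g => (b g)⁻¹, h1.comp (·⁻¹), fun g hg => inv_ne_zero (h2 g hg), fun g hg k hk => by
    simp only [Pi.inv_apply, map_inv₀, ← mul_inv, h3 g hg k hk]⟩

theorem Triv.div (h : Triv H f) (h' : Triv H f') : Triv H (f / f') :=
  div_eq_mul_inv f f' ▸ h.mul h'.inv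

theorem Triv.pow (h : Triv H f) (n : ℕ) : Triv H (f ^ n) := by
  induction n with
  | zero => exact pow_zero f ▸ Triv.one
  | succ n ih => exact pow_succ f n ▸ ih.mul h

theorem Triv.iff (h : Triv H (f / f')) : Triv H f ↔ Triv H f' :=
  ⟨fun h' => (h'.div h).congr fun g hg k hk => (div_div_cancel₀ (h'.co2.ne g hg k hk)).symm,
    fun h' => (h.mul h').congr fun g hg k hk => (div_mul_cancel₀ _ (h'.co2.ne g hg k hk)).symm⟩

theorem Triv.symm (h : Triv H (f / f')) : Triv H (f' / f) :=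
  h.inv.congr fun _ _ _ _ => (inv_div _ _).symm

theorem Triv.trans {f'' : GQ → GQ → Om} (h : Triv H (f / f')) (h' : Triv H (f' / f'')) :
    Triv H (f / f'') :=
  (h.mul h').congr fun g hg k hk =>
    (div_mul_div_cancel₀ (div_ne_zero_iff.1 (h.co2.ne g hg k hk)).2).symm

theorem Triv.of_coprime (hf : Co2 H f) {a b : ℕ} (hab : a.Coprime b) (ha : Triv H (f ^ a))
    (hb : Triv H (f ^ b)) : Triv H f := by
  rcases lt_trichotomy b 1 with h | rfl | h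
  · obtain rfl : b = 0 := by omega
    rwa [(Nat.coprime_zero_right a).1 hab, pow_one] at ha
  · rwa [pow_one] at hb
  obtain ⟨m, -, e⟩ := Nat.exists_mul_mod_eq_one_of_coprime hab h
  refine ((ha.pow m).div (hb.pow (a * m / b))).congr fun g hg k hk => ?_
  simp only [Pi.div_apply, Pi.pow_apply, ← pow_mul]
  rw [eq_div_iff (pow_ne_zero _ (hf.ne g hg k hk)), ← pow_succ']
  congr 1
  rw [← e, Nat.div_add_mod]

/-- a cocycle is trivial on a small open subgroup -/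
theorem Co2.exists_triv (h : Co2 H f) : ∃ N, ON N ∧ Triv (N ⊓ H) f := by
  obtain ⟨N, a, b⟩ := h.sm.strong
  have o := H.one_mem
  refine ⟨N, a, fun _ => f 1 1, Sm.const _, fun _ _ => h.ne 1 o 1 o, fun g hg k hk => ?_⟩
  beta_reduce
  rw [(b 1 o 1 o).1 g hg.1, ← ((b 1 o 1 o).2 k hk.2 hk.1).2.1, one_mul,
    ← ((b 1 o k hk.2).2 g hg.2 hg.1).1, one_mul]

/-- conjugation acts trivially on cohomology -/
theorem Co2.triv_conj (h : Co2 U f) {u : GQ} (hu : u ∈ U) :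
    Triv U (f / fun g k => u (f (u⁻¹ * g * u) (u⁻¹ * k * u))) := by
  have m : ∀ g ∈ U, u⁻¹ * g * u ∈ U := fun g hg => mul_mem (mul_mem (inv_mem hu) hg) hu
  refine ⟨fun g => f g u / f u (u⁻¹ * g * u), (h.sm.left hu).comp₂ ((h.sm.right hu).conj u m)
    (· / ·), fun g hg => div_ne_zero (h.ne g hg u hu) (h.ne u hu _ (m g hg)), fun g hg k hk => ?_⟩
  have e1 := h.co g hg k hk u hu
  have e2 := h.co g hg u hu _ (m k hk)
  have e3 := h.co u hu _ (m g hg) _ (m k hk)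
  rw [show u * (u⁻¹ * k * u) = k * u by group] at e2
  rw [show u * (u⁻¹ * g * u) = g * u by group,
    show u⁻¹ * g * u * (u⁻¹ * k * u) = u⁻¹ * (g * k) * u by group] at e3
  have := h.ne u hu _ (m g hg)
  have := h.ne u hu _ (m _ (mul_mem hg hk))
  have := (map_ne_zero g).2 (h.ne u hu _ (m k hk))
  have := (map_ne_zero u).2 (h.ne _ (m g hg) _ (m k hk))
  simp only [Pi.div_apply, map_div₀]
  field_simp
  linear_combination (-f u (u⁻¹ * g * u) * g (f u (u⁻¹ * k * u))) * e1 +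
    (f u (u⁻¹ * g * u) * g (f k u)) * e2 - (f g u * g (f k u)) * e3

theorem Triv.conj (h : Triv H f) (u : GQ) (e : ∀ g ∈ H', u⁻¹ * g * u ∈ H) :
    Triv H' fun g k => u (f (u⁻¹ * g * u) (u⁻¹ * k * u)) := by
  obtain ⟨b, h1, h2, h3⟩ := h
  refine ⟨fun g => u (b (u⁻¹ * g * u)), (h1.conj u e).comp u,
    fun g hg => (map_ne_zero u).2 (h2 _ (e g hg)), fun g hg k hk => ?_⟩
  have := congrArg u (h3 _ (e g hg) _ (e k hk))
  beta_reduce
  rwa [map_mul, map_mul, ← AlgEquiv.mul_apply u (u⁻¹ * g * u),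
    show u * (u⁻¹ * g * u) = g * u by group,
    show u⁻¹ * g * u * (u⁻¹ * k * u) = u⁻¹ * (g * k) * u by group] at this

theorem Co2T.mono (h : Co2T H f) (h' : H' ≤ H) : Co2T H' f :=
  ⟨h.1.mono h', h.2.imp fun _ e => e.mono h'⟩

theorem Co2T.mul (h : Co2T H f) (h' : Co2T H f') : Co2T H (f * f') := by
  obtain ⟨h1, k, e⟩ := h
  obtain ⟨h2, k', e'⟩ := h'
  refine ⟨h1.mul h2, k + k', ?_⟩
  have := (e.pow (2 ^ k')).mul (e'.pow (2 ^ k))
  rwa [← pow_mul, ← pow_mul, mul_comm (2 ^ k'), ← pow_add, ← mul_pow] at this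

theorem Co2T.inv (h : Co2T H f) : Co2T H f⁻¹ :=
  ⟨h.1.inv, h.2.imp fun k e => inv_pow f (2 ^ k) ▸ e.inv⟩

theorem Co2T.pow (h : Co2T H f) (n : ℕ) : Co2T H (f ^ n) :=
  ⟨h.1.pow n, h.2.imp fun k e => pow_right_comm f (2 ^ k) n ▸ e.pow n⟩

theorem Co2T.of_pow (h : Co2 H f) {k : ℕ} (e : ∀ g ∈ H, ∀ g' ∈ H, f g g' ^ 2 ^ k = 1) :
    Co2T H f := ⟨h, k, Triv.one.congr e⟩

theorem Triv.co2T (h : Triv H f) : Co2T H f := ⟨h.co2, 0, h.pow _⟩

end Pool.Agent.P.MP_8b7eba_nt.R2
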