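import Pool.Agent.P.MP_9c97e9_nt.Sha

/-! Shared definitions for the project R2: places, cochains, local invariants. -/

namespace Pool.Agent.P.MP_8b7eba_nt.R2

open scoped NNReal ComplexConjugate
open MP_9c97e9_nt (Qb Gal)

noncomputable section

/-- the algebraic numbers -/
abbrev Om : Type := Qb

/-- the absolute Galois group of the rationals -/
abbrev GQ : Type := Gal ℚ

scoped instance (priority := high) algQ : Algebra ℚ Om := AlgebraicClosure.instAlgebra ℚ

/-! ### Places -/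

/-- a finite place of the algebraic numbers -/
@[ext] structure Pl where
  p : ℕ
  prime : p.Prime
  v : Valuation Om ℝ≥0
  vp : v p = (p : ℝ≥0)⁻¹

instance : MulAction GQ Pl where
  smul σ w := ⟨w.p, w.prime, w.v.comap ((σ⁻¹ : GQ) : Om →+* Om), by
    rw [Valuation.comap_apply, map_natCast, w.vp]⟩
  one_smul w := Pl.ext rfl (Valuation.ext fun _ => rfl)
  mul_smul σ τ w := Pl.ext rfl (Valuation.ext fun _ => rfl)

@[simp] theorem Pl.smul_p (σ : GQ) (w : Pl) : (σ • w).p = w.p := rfl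

theorem Pl.smul_v (σ : GQ) (w : Pl) (x : Om) : (σ • w).v x = w.v (σ⁻¹ x) := rfl

/-- the decomposition group -/
def Pl.D (w : Pl) : Subgroup GQ := MulAction.stabilizer GQ w

theorem Pl.mem_D {w : Pl} {σ : GQ} : σ ∈ w.D ↔ ∀ x, w.v (σ x) = w.v x := by
  rw [← inv_mem_iff, Pl.D, MulAction.mem_stabilizer_iff]
  exact ⟨fun h x => by simpa [Pl.smul_v] using congrArg (fun u : Pl => u.v x) h,
    fun h => Pl.ext rfl (Valuation.ext fun x => by simpa [Pl.smul_v] using h x)⟩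

/-- the inertia group -/
def Pl.I (w : Pl) : Subgroup GQ where
  carrier := {σ | σ ∈ w.D ∧ ∀ x, w.v x ≤ 1 → w.v (σ x - x) < 1}
  one_mem' := ⟨w.D.one_mem, fun x _ => by simp⟩
  mul_mem' := fun {σ τ} hσ hτ => ⟨w.D.mul_mem hσ.1 hτ.1, fun x hx => by
    rw [show (σ * τ) x - x = (σ (τ x) - τ x) + (τ x - x) from (sub_add_sub_cancel _ _ _).symm]
    exact w.v.map_add_lt (hσ.2 _ ((Pl.mem_D.1 hτ.1 x).trans_le hx)) (hτ.2 x hx)⟩
  inv_mem' := fun {σ} hσ => ⟨w.D.inv_mem hσ.1, fun x hx => by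
    rw [← Pl.mem_D.1 hσ.1, map_sub, show σ (σ⁻¹ x) = x from σ.apply_symm_apply x,
      Valuation.map_sub_swap]
    exact hσ.2 x hx⟩

/-- `φ` induces the `p ^ f`-th power map on the residue field -/
def Pl.IsFrob (w : Pl) (f : ℕ) (φ : GQ) : Prop :=
  φ ∈ w.D ∧ ∀ x, w.v x ≤ 1 → w.v (φ x - x ^ w.p ^ f) < 1

/-- an open subgroup of the decomposition group -/
def Pl.Loc (w : Pl) (H : Subgroup GQ) : Prop := ∃ U : Subgroup GQ, IsOpen (U : Set GQ) ∧ H = w.D ⊓ U

/-- `x` lies in the fixed field of `H` -/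
def Fix (H : Subgroup GQ) (x : Om) : Prop := ∀ σ ∈ H, σ x = x

/-- `π` is a uniformiser of the fixed field of `H` -/
def Pl.Unif (w : Pl) (H : Subgroup GQ) (π : Om) : Prop :=
  Fix H π ∧ π ≠ 0 ∧ w.v π < 1 ∧ ∀ x, Fix H x → x ≠ 0 → ∃ k : ℤ, w.v x = w.v π ^ k

/-- `x` has even order in the fixed field of `H` -/
def Pl.Ev (w : Pl) (H : Subgroup GQ) (x : Om) : Prop := ∃ y, Fix H y ∧ w.v x = w.v y ^ 2

/-- squares in the fixed field of `H` -/
def Sq (H : Subgroup GQ) (a : Om) : Prop := ∃ x, Fix H x ∧ a = x ^ 2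

/-- `a` is a norm from the fixed field of `H` with a square root of `b` adjoined -/
def Nm (H : Subgroup GQ) (b a : Om) : Prop := ∃ x y, Fix H x ∧ Fix H y ∧ a = x ^ 2 - b * y ^ 2

/-- the norm from the fixed field of `H'` to the fixed field of `H` -/
def nrm (H H' : Subgroup GQ) (x : Om) : Om :=
  ∏ᶠ q : H ⧸ H'.subgroupOf H, ((q.out : H) : GQ) x

/-- the multiplicative group of the fixed field -/
def FU (H : Subgroup GQ) : Subgroup Omˣ where
  carrier := {x | Fix H x}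
  one_mem' := fun σ _ => by simp
  mul_mem' := fun {x y} hx hy σ h => by rw [Units.val_mul, map_mul, hx σ h, hy σ h]
  inv_mem' := fun {x} hx σ h => by rw [Units.val_inv_eq_inv_val, map_inv₀, hx σ h]

/-- the number of classes modulo squares -/
def sqI (A : Subgroup Omˣ) : ℕ := (A.map (powMonoidHom 2)).relIndex A

/-- `w` is not conjugate under `U` to a place of `R` -/
def Out (U : Subgroup GQ) (R : Set Pl) (w : Pl) : Prop := ∀ u ∈ U, u • w ∉ R

/-- the `S`-units of the fixed field of `U`, where `S` consists of the places below `R` -/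
def SU (U : Subgroup GQ) (R : Set Pl) : Subgroup Omˣ where
  carrier := {x | Fix U x ∧ ∀ w, Out U R w → w.v x = 1}
  one_mem' := ⟨(FU U).one_mem, fun w _ => by simp⟩
  mul_mem' := fun {x y} hx hy => ⟨(FU U).mul_mem hx.1 hy.1, fun w h => by
    rw [Units.val_mul, map_mul, hx.2 w h, hy.2 w h, one_mul]⟩
  inv_mem' := fun {x} hx => ⟨(FU U).inv_mem hx.1, fun w h => by
    rw [Units.val_inv_eq_inv_val, map_inv₀, hx.2 w h, inv_one]⟩

/-- the number of places of the fixed field of `U` below `R` -/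
def nOrb (U : Subgroup GQ) (R : Set Pl) : ℕ := ((fun w => MulAction.orbit U w) '' R).ncard

/-- the elements of `R` are pairwise not conjugate under `U` -/
def Sep (U : Subgroup GQ) (R : Set Pl) : Prop := ∀ w ∈ R, ∀ u ∈ U, u • w ∈ R → u • w = w

/-- the `S`-class group is trivial -/
def Kill (U : Subgroup GQ) (R : Set Pl) : Prop :=
  ∀ w π, Out U R w → w.Unif (w.D ⊓ U) π → ∃ x, Fix U x ∧ w.v x = w.v π ∧
    ∀ w', Out U (insert w R) w' → w'.v x = 1

/-- the norms from a quadratic extension -/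
def NmS (U : Subgroup GQ) (b : Om) : Subgroup Omˣ := Subgroup.closure {u | Nm U b u}

/-! ### The complex place -/

/-- a fixed embedding in the complex numbers -/
def io : Om →+* ℂ := (IsAlgClosed.lift : Om →ₐ[ℚ] ℂ)

/-- complex conjugation -/
def tau : GQ := Classical.epsilon fun σ => ∀ x, io (σ x) = conj (io x)

/-- the fixed field of `U` is totally complex -/
def TC (U : Subgroup GQ) : Prop := ∀ g, g * tau * g⁻¹ ∉ U

/-! ### Cochains -/

/-- open normal subgroups -/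
def ON (N : Subgroup GQ) : Prop := N.Normal ∧ IsOpen (N : Set GQ)

/-- the restriction of `c` to `H` is locally constant -/
def Sm {A : Type} (H : Subgroup GQ) (c : GQ → A) : Prop :=
  ∃ N, ON N ∧ ∀ g ∈ H, ∀ n ∈ H, n ∈ N → c (g * n) = c g

/-- the restriction of `f` to `H × H` is locally constant -/
def Sm2 {A : Type} (H : Subgroup GQ) (f : GQ → GQ → A) : Prop :=
  ∃ N, ON N ∧ ∀ g ∈ H, ∀ h ∈ H, ∀ n ∈ H, n ∈ N → f (g * n) h = f g h ∧ f g (h * n) = f g h

/-- multiplicative 2-cocycles on `H` -/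
structure Co2 (H : Subgroup GQ) (f : GQ → GQ → Om) : Prop where
  ne : ∀ g ∈ H, ∀ h ∈ H, f g h ≠ 0
  sm : Sm2 H f
  co : ∀ g ∈ H, ∀ h ∈ H, ∀ k ∈ H, g (f h k) * f g (h * k) = f (g * h) k * f g h

/-- multiplicative 2-coboundaries on `H` -/
def Triv (H : Subgroup GQ) (f : GQ → GQ → Om) : Prop :=
  ∃ b : GQ → Om, Sm H b ∧ (∀ g ∈ H, b g ≠ 0) ∧ ∀ g ∈ H, ∀ h ∈ H, f g h * b (g * h) = b g * g (b h)

/-- 2-cocycles whose class is killed by a power of two -/
def Co2T (H : Subgroup GQ) (f : GQ → GQ → Om) : Prop := Co2 H f ∧ ∃ k : ℕ, Triv H (f ^ 2 ^ k)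

/-- locally constant characters of `H` -/
def IsCh {A : Type} [Add A] (H : Subgroup GQ) (χ : GQ → A) : Prop :=
  Sm H χ ∧ ∀ g ∈ H, ∀ h ∈ H, χ (g * h) = χ g + χ h

/-- `H'` is the kernel of `χ` on `H` -/
def IsKer {A : Type} [Zero A] (H H' : Subgroup GQ) (χ : GQ → A) : Prop :=
  ∀ g, g ∈ H' ↔ g ∈ H ∧ χ g = 0

/-- the cocycle of a cyclic algebra -/
def cup {m : ℕ} (χ : GQ → ZMod m) (a : Om) (g h : GQ) : Om :=
  if m ≤ (χ g).val + (χ h).val then a else 1

open Classical in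
/-- the quadratic character attached to a square root -/
def qc (β : Om) (g : GQ) : ZMod 2 := if g β = β then 0 else 1

/-- a chain of subgroups, each of index two in the previous one -/
inductive Ch2 : Subgroup GQ → Subgroup GQ → Prop
  | refl (P : Subgroup GQ) : Ch2 P P
  | step {P P' Q : Subgroup GQ} : P' ≤ P → P'.relIndex P = 2 → Ch2 P' Q → Ch2 P Q

/-! ### Cyclotomic characters -/

/-- the 2-adic cyclotomic character -/
def cyc (σ : GQ) : ℤ_[2]ˣ := cyclotomicCharacter Om 2 σ.toRingEquiv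

/-- the properties of the additive character of the 2-adic numbers -/
structure IsEc (e : ℚ_[2] → Om) : Prop where
  add : ∀ x y, e (x + y) = e x * e y
  eq_one : ∀ x, e x = 1 ↔ ‖x‖ ≤ 1
  gal : ∀ (σ : GQ) x, σ (e x) = e (((cyc σ : ℤ_[2]) : ℚ_[2]) * x)
  surj : ∀ (k : ℕ) (z : Om), z ^ 2 ^ k = 1 → ∃ m : ℤ, z = e (m / 2 ^ k)

/-- the additive character of the 2-adic numbers -/
def ec : ℚ_[2] → Om := Classical.epsilon IsEc

/-- the properties of the logarithm to the base five -/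
structure IsLg (l : ℤ_[2]ˣ → ℤ_[2]) : Prop where
  mul : ∀ u v, l (u * v) = l u + l v
  dvd : ∀ (n : ℕ) (u : ℤ_[2]ˣ), 2 ^ n ∣ l u ↔ 2 ^ (n + 2) ∣ (u : ℤ_[2]) - 1 ∨ 2 ^ (n + 2) ∣ (u : ℤ_[2]) + 1
  five : ∀ u : ℤ_[2]ˣ, (u : ℤ_[2]) = 5 → l u = 1

/-- the logarithm to the base five -/
def lg : ℤ_[2]ˣ → ℤ_[2] := Classical.epsilon IsLg

open Classical in
/-- the character of conductor four, with values zero and one -/
def ep (u : ℤ_[2]ˣ) : ℤ_[2] := if 4 ∣ (u : ℤ_[2]) - 1 then 0 else 1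

/-- the characters of the cyclotomic tower -/
def Ps (n : ℕ) (σ : GQ) : ZMod (2 ^ n) := PadicInt.toZModPow n (lg (cyc σ))

/-- the characters of the totally complex cyclic extensions -/
def Ps' (n : ℕ) (σ : GQ) : ZMod (2 ^ (n + 1)) :=
  PadicInt.toZModPow (n + 1) (lg (cyc σ) + 2 ^ n * ep (cyc σ))

/-- the layers of the cyclotomic tower -/
def KP (n : ℕ) : Subgroup GQ := Subgroup.closure {σ | Ps n σ = 0}

/-- the properties of the local Artin map -/
structure IsArt (w : Pl) (A : Om → ℤ_[2]ˣ) : Prop where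
  mul : ∀ x y, Fix w.D x → Fix w.D y → x ≠ 0 → y ≠ 0 → A (x * y) = A x * A y
  odd : w.p ≠ 2 → (A w.p : ℤ_[2]) = w.p ∧ ∀ x, Fix w.D x → w.v x = 1 → A x = 1
  two : w.p = 2 → A 2 = 1 ∧ ∀ x, Fix w.D x → ∀ (m : ℤ) (n : ℕ), Odd m → w.v (x - m) ≤ (2 ^ n)⁻¹ →
    0 < n → 2 ^ n ∣ m * (A x : ℤ_[2]) - 1

/-- the local Artin map, composed with the cyclotomic character -/
def art (w : Pl) : Om → ℤ_[2]ˣ := Classical.epsilon (IsArt w)

/-- the value of the invariant of a cyclotomic cyclic algebra -/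
def sv (w : Pl) (H : Subgroup GQ) (n : ℕ) (a : Om) : Om :=
  ec ((lg (art w (nrm w.D H a)) : ℚ_[2]) / 2 ^ n)

/-- the properties of the local invariant -/
structure IsNv (w : Pl) (H : Subgroup GQ) (ν : (GQ → GQ → Om) → Om) : Prop where
  mul : ∀ f f', Co2T H f → Co2T H f' → ν (f * f') = ν f * ν f'
  triv : ∀ f, Co2 H f → Triv H f → ν f = 1
  cup : ∀ n a, Fix H a → a ≠ 0 → ν (cup (Ps n) a) = sv w H n a
  inj : H = w.D → ∀ f, Co2T H f → ν f = 1 → Triv H f

/-- the local invariant, written multiplicatively -/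
def nv (w : Pl) (H : Subgroup GQ) : (GQ → GQ → Om) → Om := Classical.epsilon (IsNv w H)

open Classical in
/-- the invariant at the real place -/
def nvR (f : GQ → GQ → Om) : Om := if Triv (Subgroup.zpowers tau) f then 1 else -1

/-! ### Finite modules -/

/-- `ρ` is a locally constant action of `H` on `M` through a group of 2-power order -/
structure Uni {M : Type} [AddCommGroup M] (H : Subgroup GQ) (ρ : GQ → M →+ M) : Prop where
  fin : Finite M
  tor : ∃ k : ℕ, ∀ m : M, 2 ^ k • m = 0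
  one : ∀ m, ρ 1 m = m
  mul : ∀ g ∈ H, ∀ h ∈ H, ∀ m, ρ (g * h) m = ρ g (ρ h m)
  sm : Sm H ρ
  pow : ∀ g ∈ H, ∃ k : ℕ, ∀ m, ρ (g ^ 2 ^ k) m = m

/-- additive 1-cocycles on `H` -/
def Co1 {M : Type} [AddCommGroup M] (H : Subgroup GQ) (ρ : GQ → M →+ M) (c : GQ → M) : Prop :=
  Sm H c ∧ ∀ g ∈ H, ∀ h ∈ H, c (g * h) = c g + ρ g (c h)

/-- 1-cocycles with values in the dual module -/
def CoD {M : Type} [AddCommGroup M] (H : Subgroup GQ) (ρ : GQ → M →+ M) (y : GQ → AddChar M Om) :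
    Prop :=
  Sm H y ∧ ∀ g ∈ H, ∀ h ∈ H, ∀ m, y (g * h) m = y g m * g (y h (ρ g⁻¹ m))

/-- the cup product -/
def prD {M : Type} [AddCommGroup M] (ρ : GQ → M →+ M) (x : GQ → M) (y : GQ → AddChar M Om)
    (g h : GQ) : Om :=
  g (y h (ρ g⁻¹ (x g)))

end

end Pool.Agent.P.MP_8b7eba_nt.R2
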