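import Pool.Agent.P.MP_8b7eba_nt.R2.IfL
import Pool.Agent.P.MP_8b7eba_nt.R1.Defs
import Pool.Agent.P.MP_8b7eba_nt.ModHecke

/-! Lattices, ring class groups and Heegner points. -/

namespace Pool.Agent.P.MP_8b7eba_nt.R2

open scoped NNReal nonZeroDivisors
open MP_9c97e9_nt (pm Is)
open BSD15 (OO Good nm)
open _root_.Pool.Agent.P.MP_8b7eba_nt.Mod (xx al)
open R1 (emb Dl psi Pz)

noncomputable section

/-! ### Lattices in the complex plane -/

abbrev Lt : Type := AddSubgroup ℂ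

/-- oriented bases -/
def Ob (L : Lt) (a b : ℂ) : Prop := 0 < (a / b).im ∧ ∀ x, x ∈ L ↔ ∃ m n : ℤ, x = m * a + n * b

/-- lattices -/
def IsL (L : Lt) : Prop := ∃ a b, Ob L a b

/-- the point of the upper half plane attached to a lattice with level structure -/
def At (L L' : Lt) (z : ℂ) : Prop := ∃ a b, Ob L a b ∧ Ob L' (15 * a) b ∧ z = a / b

/-- homotheties -/
def sc (μ : ℂ) (L : Lt) : Lt := L.map (AddMonoidHom.mulLeft μ)

/-- a chosen basis -/
def ob (L : Lt) : ℂ × ℂ := Classical.epsilon fun p => Ob L p.1 p.2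

/-- the modular invariant -/
def jf (z : ℂ) : ℂ := 768 - (psi 2 (al 2 0) z * psi 2 (al 2 1) z +
  psi 2 (al 2 0) z * psi 2 (al 2 2) z + psi 2 (al 2 1) z * psi 2 (al 2 2) z)

/-- the discriminant of a lattice -/
def DL (L : Lt) : ℂ := Dl ((ob L).1 / (ob L).2) / (ob L).2 ^ 12

/-- the invariant of a lattice -/
def JL (L : Lt) : ℂ := jf ((ob L).1 / (ob L).2)

/-- the algebraic number with a given image -/
def ii (z : ℂ) : Om := Classical.epsilon fun x => io x = z

/-! ### Ring class groups -/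

/-- primes such that 2, 3 and 5 split in `Q(√-l)` -/
class Hl (l : ℕ) : Prop extends Good l where
  lp : l.Prime
  l8 : l % 8 = 7
  j3 : jacobiSym (-l) 3 = 1
  j5 : jacobiSym (-l) 5 = 1

instance (P : Pre) : Hl P.l where
  sq := P.lp.squarefree
  h4 := by have := P.l16; omega
  gt := by have := P.l16; omega
  lp := P.lp
  l8 := by have := P.l16; omega
  j3 := P.spl 3 Nat.prime_three ⟨5 * P.d, by push_cast; ring⟩
  j5 := P.spl 5 Nat.prime_five ⟨3 * P.d, by push_cast; ring⟩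

variable (l : ℕ) [Hl l]

/-- admissible conductors -/
def Cd (c : ℕ) : Prop := c ≠ 0 ∧ c.Coprime 15

variable {l} in
/-- ideals prime to `c` -/
def Ad (c : ℕ) (I : Ideal (OO l)) : Prop := I ≠ ⊥ ∧ (nm I).Coprime c

variable {l} in
/-- elements of the order of conductor `c` which are prime to `c` -/
def Oc (c : ℕ) (β : OO l) : Prop := β ≠ 0 ∧ (c : ℤ) ∣ β.im ∧ IsCoprime β.norm c

/-- the group of fractional ideals -/
abbrev FG : Type := (FractionalIdeal (OO l)⁰ (FractionRing (OO l)))ˣ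

open Classical in
variable {l} in
/-- ideals as fractional ideals -/
def fi (I : Ideal (OO l)) : FG l :=
  if h : I ∈ (Ideal (OO l))⁰ then FractionalIdeal.mk0 (FractionRing (OO l)) ⟨I, h⟩ else 1

def JG (c : ℕ) : Subgroup (FG l) := Subgroup.closure {a | ∃ I, Ad c I ∧ a = fi I}

def PG (c : ℕ) : Subgroup (FG l) := Subgroup.closure {a | ∃ β, Oc c β ∧ a = fi (Ideal.span {β})}

/-- the ring class group of conductor `c` -/
abbrev RC (c : ℕ) : Type := JG l c ⧸ (PG l c).subgroupOf (JG l c)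

variable {l}

open Classical in
/-- the class of an ideal -/
def cl (c : ℕ) (I : Ideal (OO l)) : RC l c :=
  if h : Ad c I then ((⟨fi I, Subgroup.subset_closure ⟨I, h, rfl⟩⟩ : JG l c) : RC l c) else 1

theorem JG_le {c c' : ℕ} (h : c ∣ c') : JG l c' ≤ JG l c :=
  Subgroup.closure_mono fun _ ⟨I, h1, h2⟩ => ⟨I, ⟨h1.1, h1.2.coprime_dvd_right h⟩, h2⟩

theorem PG_le {c c' : ℕ} (h : c ∣ c') : PG l c' ≤ PG l c :=
  Subgroup.closure_mono fun _ ⟨β, h1, h2⟩ => ⟨β, ⟨h1.1, (Int.natCast_dvd_natCast.2 h).trans h1.2.1,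
    h1.2.2.of_isCoprime_of_dvd_right (Int.natCast_dvd_natCast.2 h)⟩, h2⟩

/-- change of conductor -/
def pr {c c' : ℕ} (h : c ∣ c') : RC l c' →* RC l c :=
  QuotientGroup.map _ _ (Subgroup.inclusion (JG_le h)) fun _ ha => PG_le h ha

/-- a representative of a class -/
def rp {c : ℕ} (a : RC l c) : Ideal (OO l) := Classical.epsilon fun I => Ad c I ∧ cl c I = a

variable (l) in
/-- the elements of odd order -/
def Od (c : ℕ) : Subgroup (RC l c) := Subgroup.closure {a | Odd (orderOf a)}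

/-! ### Heegner points -/

/-- the lattice attached to an ideal -/
def Lc (c : ℕ) (I : Ideal (OO l)) : Lt :=
  AddSubgroup.closure {z | ∃ x ∈ I, (c : ℤ) ∣ x.im ∧ z = emb l x}

variable (l) in
/-- ideals of norm 3, 5 and 15 -/
def nI (e : ℕ) : Ideal (OO l) := Ideal.span {(e : OO l),
  ⟨-Classical.epsilon fun r : ℤ => 15 ∣ r ^ 2 - r + ((l + 1) / 4 : ℕ), 1⟩}

/-- the Heegner point in the upper half plane -/
def hz (c : ℕ) (I : Ideal (OO l)) : ℂ := Classical.epsilon (At (Lc c I) (Lc c (I * nI l 15)))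

/-- the Heegner point on the curve -/
def HP {c : ℕ} (a : RC l c) : EO := Classical.epsilon fun R => pm W15 io R = Pz (hz c (rp a))

/-- its first coordinate -/
def XO {c : ℕ} (a : RC l c) : Om := ii (xx (hz c (rp a)))

/-- the singular modulus -/
def JO {c : ℕ} (a : RC l c) : Om := ii (JL (Lc c (rp a)))

variable (l) in
/-- the square root of `-l` in the upper half plane -/
def sO : Om := Classical.epsilon fun s => s ^ 2 = -l ∧ 0 ≤ (io s).im

omit [Hl l] in
theorem sO_spec : sO l ^ 2 = -l ∧ 0 ≤ (io (sO l)).im := by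
  refine Classical.epsilon_spec (p := fun s : Om => s ^ 2 = -l ∧ 0 ≤ (io s).im) ?_
  obtain ⟨s, hs⟩ := IsAlgClosed.exists_pow_nat_eq (-l : Om) two_pos
  rcases le_total 0 (io s).im with h | h
  · exact ⟨s, hs, h⟩
  · exact ⟨-s, by rw [neg_sq, hs], by simpa using h⟩

variable (l) in
/-- the embedding of the quadratic ring -/
def eO : OO l →+* Om where
  toFun z := z.re + z.im * ((1 + sO l) / 2)
  map_one' := by simp [QuadraticAlgebra.re_one, QuadraticAlgebra.im_one]
  map_zero' := by simp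
  map_add' z w := by simp; ring
  map_mul' z w := by
    have h1 := (sO_spec (l := l)).1
    have h3 : 4 * ((((l + 1) / 4 : ℕ) : ℤ) : Om) = l + 1 := by
      exact_mod_cast BSD15.qring_four (n := l)
    simp only [QuadraticAlgebra.re_mul, QuadraticAlgebra.im_mul]
    simp only [Int.cast_add, Int.cast_mul, Int.cast_neg, Int.cast_one]
    linear_combination (-(z.im : Om) * w.im / 4) * h1 - (z.im : Om) * w.im / 4 * h3

variable (l) in
/-- the prime ideal below a place -/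
def pw (w : Pl) : Ideal (OO l) := Ideal.span {x | w.v (eO l x) < 1}

variable (l) in
/-- the Artin map -/
def ar (c : ℕ) (g : GQ) : RC l c :=
  Classical.epsilon fun α => ∀ a, ac g (HP (α * a)) = HP a ∧ g (JO (α * a)) = JO a

open Classical in
/-- the Galois group of the 2-part of the ring class field -/
def NH (P : Pre) (c : ℕ) : Subgroup GQ :=
  if Cd c then Subgroup.closure {g | g ∈ P.GK ∧ ar P.l c g ∈ Od P.l c} else P.GK

open Classical in
variable (l) in
/-- the trace of the Heegner point -/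
def yH (c : ℕ) : EO := if Cd c then ∑ᶠ a : Od l c, HP a.1 else 0

/-- the properties of the Artin map -/
structure IsAr (P : Pre) (c : ℕ) : Prop where
  mul : ∀ g ∈ P.GK, ∀ h ∈ P.GK, ar P.l c (g * h) = ar P.l c g * ar P.l c h
  sm : Sm P.GK (ar P.l c)
  act : ∀ g ∈ P.GK, ∀ a : RC P.l c,
    ac g (HP (ar P.l c g * a)) = HP a ∧ g (JO (ar P.l c g * a)) = JO a ∧
      g (XO (ar P.l c g * a)) = XO a
  fr : ∃ B : ℕ, ∀ (w : Pl) (φ : GQ), B < w.p → φ ∈ P.GK → w.IsFrob 1 φ →
    ar P.l c φ = cl c (pw P.l w)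
  surj : ∀ a, ∃ g ∈ P.GK, ar P.l c g = a
  dih : ∀ s, s ∉ P.GK → ar P.l c (s * s) = 1 ∧
    ∀ g ∈ P.GK, ar P.l c (s * g * s⁻¹) = (ar P.l c g)⁻¹
  pr : ∀ (c₀ : ℕ) (h : c₀ ∣ c), ∀ g ∈ P.GK, pr h (ar P.l c g) = ar P.l c₀ g

/-- the description of the fields of 2-power conductor -/
def Pw (P : Pre) (a : GQ → ℤ_[2]) : Prop :=
  ∀ (M : ℕ), ∀ g ∈ P.GK, ar P.l (2 ^ (M + 2)) g ∈ Od P.l (2 ^ (M + 2)) ↔
    2 ^ M ∣ a g ∧ 4 ∣ (cyc g : ℤ_[2]) - 1

/-! ### Discriminant quotients -/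

/-- the quotient along the prime above two -/
def gO (P : Pre) (I : Ideal (OO P.l)) : Om :=
  ii (2 ^ 12 * DL (Lc 1 (pw P.l P.w2 * I)) / DL (Lc 1 I))

/-- the quotient in the tower of orders -/
def cO (n : ℕ) (I : Ideal (OO l)) : Om := ii (2 ^ 12 * DL (Lc (2 ^ (n + 1)) I) / DL (Lc (2 ^ n) I))

/-- the quotient of two conjugate lattices -/
def rO (n : ℕ) (I : Ideal (OO l)) : Om :=
  ii (emb l ⟨1, 2 ^ n⟩ ^ 12 * DL (Lc (2 ^ (n + 1)) (Ideal.span {⟨1, 2 ^ n⟩} * I)) /
    DL (Lc (2 ^ (n + 1)) I))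

/-- traces of inverses of singular moduli -/
def DD {c : ℕ} (i x : RC l c) : Om :=
  ∑ᶠ b : Od l c, ((JO (x * b.1))⁻¹ + (JO (x * i⁻¹ * b.1))⁻¹)

/-- norms of first coordinates -/
def UX {c : ℕ} (i : RC l c) : Om := ∏ᶠ b : Od l c, XO b.1 * XO (i⁻¹ * b.1)

/-- the uniformiser attached to a root of unity -/
def vp (ζ : Om) : Om := 2 - ζ - ζ⁻¹

end

end Pool.Agent.P.MP_8b7eba_nt.R2
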