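import Pool.Agent.P.MP_8b7eba_nt.R1.Unf
import Pool.Agent.P.MP_8b7eba_nt.R1.Unif

/-! Heegner forms of non-fundamental discriminant. -/

namespace Pool.Agent.P.MP_8b7eba_nt.R2

open scoped ComplexConjugate
open _root_.Pool.Agent.P.MP_8b7eba_nt.Mod (M2 G0 FI L0 om)
open BSD15 (Adm lam)
open R1 (QF Hg wf Dual HF tY st Rq unfP cnt gg VV Lv)

noncomputable section

/-- the genus character of conductor `m` on forms of discriminant `-N` -/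
def uw (N : ℕ) (ρ : ℤ) (m : ℕ) : QF → ℤ := wf (-N) ρ m

/-- representatives of the classes of Heegner forms -/
structure Rs (N : ℕ) (ρ : ℤ) (m : ℕ) (S : Finset QF) : Prop where
  hg : ∀ P ∈ S, Hg N ρ P
  all : ∀ Q, Hg N ρ Q → uw N ρ m Q ≠ 0 → ∃ g, G0 g ∧ Q.cmp g ∈ S
  inj : ∀ P ∈ S, ∀ g, G0 g → P.cmp g ∈ S → g = 1 ∨ g = -1

/-- weighted number of pairs of forms with given mixed discriminant -/
def NS (N : ℕ) (ρ : ℤ) (m : ℕ) (S : Finset QF) (w : QF → ℤ) (B : ℤ) : ℤ :=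
  ∑ P ∈ S, uw N ρ m P * ∑ᶠ Q : QF, if P.pair Q = B then w Q else 0

/-- the twisted Heegner point -/
def ZS (N : ℕ) (ρ : ℤ) (m : ℕ) (S : Finset QF) : ℂ := ∑ P ∈ S, uw N ρ m P * FI P.tau

/-- the interesting coordinate -/
def tZ (a : ℕ) (z : ℂ) : ℝ := if a % 4 = 3 then z.im / (2 * om) else z.re / (4 * L0)

/-- all primes of `30 m` split in `Q(√-l)` -/
structure Sp (l m : ℕ) : Prop where
  lp : l.Prime
  l8 : l % 8 = 7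
  adm : Adm m
  spl : ∀ p : ℕ, p.Prime → p ∣ 15 * m → jacobiSym (-l) p = 1

/-- the value of the genus character after unfolding -/
def UM (m M e : ℕ) : ℤ :=
  ∏ p ∈ m.primeFactors, if p ∣ e then jacobiSym (M / e : ℕ) p else jacobiSym (15 * e : ℕ) p

/-- the twisted Heegner point of conductor `m` has infinite order -/
def Ir (l m : ℕ) : Prop :=
  Sp l m ∧ ∃ (ρ : ℤ) (S : Finset QF), 60 ∣ ρ ^ 2 + l * m ^ 2 ∧ Rs (l * m ^ 2) ρ m S ∧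
    ¬ Rq (tZ (l * m) (ZS (l * m ^ 2) ρ m S))

/-- the residue classes -/
def Ec (m : ℕ) : Prop := m % 3 = 2 ∧ (m % 5 = 2 ∨ m % 5 = 3)

end

/-- unfolding -/
def UNF : Prop :=
  ∀ (N : ℕ) (ρ : ℤ) (m : ℕ) (S : Finset QF) (κ : ℤ) (w : QF → ℤ), 0 < N → Odd m → m ∣ N →
    Rs N ρ m S → IsCoprime κ 15 → (∀ Q, w Q ≠ 0 → Lv (κ ^ 2) κ Q) →
    (∀ Q g, G0 g → w (Q.cmp g) = w Q) → ∀ B : ℤ,
    NS N ρ m S w B = ∑ e ∈ ((B ^ 2 + N * κ ^ 2) / 60).toNat.divisors,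
      ∑ B₁ ∈ Finset.Ico (0 : ℤ) (30 * (e : ℕ)),
        if (60 * e : ℤ) ∣ B₁ ^ 2 + N ∧ 30 ∣ B₁ - ρ ∧ (30 * e : ℤ) ∣ B₁ * κ - B then
          uw N ρ m (unfP N e B₁) * w ⟨0, κ, (B₁ * κ - B) / (30 * e)⟩ else 0

/-- evaluation of the unfolded sum -/
def EVS : Prop :=
  ∀ (l m b : ℕ) (ρ : ℤ) (S : Finset QF) (B : ℤ) (M : ℕ), Sp l m → b.Prime → Adm b →
    jacobiSym (-l) b = -1 → 60 ∣ ρ ^ 2 + l * m ^ 2 → Rs (l * m ^ 2) ρ m S →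
    M = ((B ^ 2 + l * m ^ 2 * b ^ 2) / 60).toNat →
    NS (l * m ^ 2) ρ m S (wf (b ^ 2) (st b) b) B =
      if 30 ∣ B - ρ * st b ∧ IsCoprime B b then jacobiSym (-2 * B) b * jacobiSym 15 b *
        ∑ e ∈ M.divisors, jacobiSym (e : ℕ) b * UM m M e else 0

/-- the arithmetic identity -/
def ARI : Prop :=
  ∀ (l m b M : ℕ) (B : ℤ), Sp l m → b.Prime → Adm b → jacobiSym (-l) b = -1 →
    60 * M = B ^ 2 + l * m ^ 2 * b ^ 2 → IsCoprime B b →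
    ∑ e ∈ M.divisors, jacobiSym (e : ℕ) b * UM m M e = jacobiSym 15 m * cnt (l * m * b) B M

/-- the Green function at the Heegner points -/
def HSUM : Prop :=
  ∀ (N : ℕ) (ρ : ℤ) (m : ℕ) (S : Finset QF) (D : ℤ) (w : QF → ℤ) (s : ℝ), 0 < N →
    (∀ P ∈ S, Hg N ρ P) → 0 < D → (∀ Q, w Q ≠ 0 → Q.disc = D) → (∀ Q, |w Q| ≤ 4) → 1 < s → s ≤ 2 →
    HasSum (fun B : ℤ => (NS N ρ m S w B : ℝ) * gg s (-B / √(N * D)))
      (∑ P ∈ S, (uw N ρ m P : ℝ) * VV w s P.tau)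

/-- complex conjugation -/
def CONJ : Prop :=
  ∀ (N : ℕ) (ρ : ℤ) (m : ℕ) (S : Finset QF), 0 < N → Adm m → m ∣ N → Rs N ρ m S →
    (∃ u v : ℤ, ZS N ρ m S + jacobiSym 15 m * conj (ZS N ρ m S) = u * L0 + v * om * Complex.I) ∧
    (jacobiSym 15 m = -1 → ∑ P ∈ S, uw N ρ m P = 0)

/-- the relation between Heegner points -/
def GKI : Prop :=
  ∀ (l m b : ℕ) (ρ ρ' ρ₂ : ℤ) (α β : ℚ) (S : Finset QF), Sp l m → b.Prime →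
    jacobiSym (-l) b = -1 → HF (l * m) b ρ' → 60 ∣ ρ ^ 2 + l * m ^ 2 → Rs (l * m ^ 2) ρ m S →
    30 ∣ ρ' * ρ₂ - ρ * st b → Dual (wf (b * m) ρ₂ m) α β →
    ∃ ε : ℤ, |ε| = |lam b| ∧ Rq (ε * tZ (l * m) (ZS (l * m ^ 2) ρ m S) -
      (if l * m % 4 = 3 then β else α : ℚ) * tY (l * m) b ρ')

/-- the central value does not vanish -/
def GKF : Prop :=
  ∀ l m l₁ m₁ : ℕ, Ir l m → Ir l₁ m₁ → Ec m → Ec m₁ → m % 4 = m₁ % 4 →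
    (l * m).Coprime (l₁ * m₁) → lam m ≠ 0

/-- forms and their roots -/
def REP3 : Prop :=
  (∀ (N : ℕ) (ρ : ℤ) (P Q : QF) (g : M2), 0 < N → Hg N ρ P → Hg N ρ Q → G0 g →
    (g.act P.tau = Q.tau ↔ Q.cmp g = P)) ∧
  ∀ (l m : ℕ) (ρ : ℤ) (Q : QF), Sp l m → Hg (l * m ^ 2) ρ Q → uw (l * m ^ 2) ρ m Q ≠ 0 →
    (∀ g : M2, g.det = 1 → Q.cmp g = Q → g = 1 ∨ g = -1) ∧
    ∃ g, G0 g ∧ IsCoprime (Q.cmp g).A m

end Pool.Agent.P.MP_8b7eba_nt.R2
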