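import Pool.Agent.P.MP_8b7eba_nt.R2.IfE
import Pool.Agent.P.MP_8b7eba_nt.R2.DefsG

/-! The twisted Heegner point of conductor `m` and the converse theorem in rank zero. -/

namespace Pool.Agent.P.MP_8b7eba_nt.R2

open MP_9c97e9_nt (pm)
open BSD15 (OO nm)
open _root_.Pool.Agent.P.MP_8b7eba_nt.Mod (M2 G0)
open R1 (QF Hg uu)

noncomputable section

/-- the residue of the middle coefficient -/
def rH (l m : ℕ) : ℤ :=
  m * (1 - 2 * Classical.epsilon fun r : ℤ => 15 ∣ r ^ 2 - r + ((l + 1) / 4 : ℕ))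

/-- the genus character -/
def chi {l : ℕ} [Hl l] (m : ℕ) {c : ℕ} (a : RC l c) : ℤ := jacobiSym (nm (rp a)) m

/-- the twisted Heegner point -/
def ZC (l : ℕ) [Hl l] (m c : ℕ) : EO := ∑ᶠ a : RC l c, chi m a • HP a

end

/-- the form attached to an ideal -/
def REP1 : Prop :=
  ∀ (l : ℕ) [Hl l] (m : ℕ), Sp l m → 60 ∣ rH l m ^ 2 + l * m ^ 2 ∧
    ∀ I : Ideal (OO l), Ad m I → ∃ Q, Hg (l * m ^ 2) (rH l m) Q ∧ Q.tau = hz m I ∧
      uw (l * m ^ 2) (rH l m) m Q = jacobiSym (nm I) m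

/-- the ideal attached to a form -/
def REP2 : Prop :=
  ∀ (l : ℕ) [Hl l] (m : ℕ), Sp l m → ∀ Q, Hg (l * m ^ 2) (rH l m) Q → IsCoprime Q.A m →
    ∃ I : Ideal (OO l), Ad m I ∧ ∃ g, G0 g ∧ g.act (hz m I) = Q.tau

/-- the Heegner point in terms of forms -/
def REPS : Prop :=
  ∀ (l : ℕ) [Hl l] (m : ℕ), Sp l m → ∃ (ρ : ℤ) (S : Finset QF), 60 ∣ ρ ^ 2 + l * m ^ 2 ∧
    Rs (l * m ^ 2) ρ m S ∧ pm W15 io (ZC l m m) = uu (ZS (l * m ^ 2) ρ m S)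

/-- points of infinite order -/
def IRX : Prop :=
  ∀ (l : ℕ) [Hl l] (m : ℕ), Sp l m → Ec m → ¬ IsOfFinAddOrder (ZC l m m) → Ir l m

/-- the genus character -/
def CHI : Prop :=
  ∀ (l : ℕ) [Hl l] (m c : ℕ), m ∣ c →
    (∀ I : Ideal (OO l), Ad c I → chi m (cl c I) = jacobiSym (nm I) m) ∧
    (∀ a b : RC l c, chi m (a * b) = chi m a * chi m b) ∧
    (∀ a : RC l c, chi m a * chi m a = 1 ∧ chi m a⁻¹ = chi m a ∧ (a ∈ Od l c → chi m a = 1)) ∧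
    ∀ (c' : ℕ) (h : c ∣ c') (b : RC l c'), chi m (pr h b) = chi m b

/-- genus theory -/
def GEN2 : Prop :=
  ∀ (P : Pre) (c : ℕ), Cd c → P.d.natAbs ∣ c → ∀ g ∈ P.GK,
    sd P.dl g = chi P.d.natAbs (ar P.l c g)

/-- the Hecke relation at two, first step -/
def H2A : Prop :=
  ∀ (l : ℕ) [Hl l] (c : ℕ), Cd c → Odd c → ∃ x : RC l c, ∀ a : RC l c,
    ∑ᶠ b ∈ {b | pr (Nat.dvd_mul_right c 2) b = a}, HP b =
      Mod.an 2 • HP a - HP (x * a) - HP (x⁻¹ * a)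

/-- the Hecke relation at two, further steps -/
def H2B : Prop :=
  ∀ (l : ℕ) [Hl l] (c : ℕ), Cd c → ∀ a : RC l (c * 2),
    ∑ᶠ b ∈ {b | pr (Nat.dvd_mul_right (c * 2) 2) b = a}, HP b =
      Mod.an 2 • HP a - HP (pr (Nat.dvd_mul_right c 2) a)

/-- torsion goes up -/
def TR2 : Prop :=
  ∀ (l : ℕ) [Hl l] (m : ℕ), Cd m → Odd m → IsOfFinAddOrder (ZC l m m) →
    ∀ k c : ℕ, c = 2 ^ k * m → IsOfFinAddOrder (ZC l m c)

/-- the trace of the Heegner point -/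
def TOR : Prop :=
  ∀ (D : Dat) (H : Heeg D.toPre D.a) (k : ℕ), H.N = NH D.toPre → H.y = yH D.l →
    ∑ j, D.PP H [] k j = ZC D.l D.d.natAbs (D.ck [] k)

/-- the class of a torsion point vanishes -/
def KZ : Prop :=
  ∀ (D : Dat) (H : Heeg D.toPre D.a) (v : KA), D.KD H [] v →
    (∀ k, IsOfFinAddOrder (∑ j, D.PP H [] k j)) → D.kap (fun _ => (1 : ℚ_[2])) v = 0

/-- the two eigenspaces of the Selmer group -/
def Eig (D : Dat) : Prop :=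
  ∀ ε : ℚ_[2], (ε = 1 ∨ ε = -1) → ∀ x y, D.Sel (fun _ => (1 : ℚ_[2])) [] x →
    D.Sel (fun _ => (1 : ℚ_[2])) [] y → D.nz (fun _ => (1 : ℚ_[2])) (D.xt x) = ε • x →
    D.nz (fun _ => (1 : ℚ_[2])) (D.xt y) = ε • y → ∃ a b : ℚ_[2], (a ≠ 0 ∨ b ≠ 0) ∧ a • x + b • y = 0

/-- both eigenspaces have rank at most one -/
def PAR1 : Prop :=
  ∀ D : Dat, Rk1 D.T D.dl D.d → Rk1 D.T (D.dl * D.sk) (-D.l * D.d) → Eig D

/-- a class which is not ramified at a Kolyvagin prime -/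
def UNL : Prop :=
  ∀ (D : Dat) (l : Kp D) (y : GS → V2), D.Sel (fun _ => (1 : ℚ_[2])) [l] y → y l.t = 0 →
    D.Sel (fun _ => (1 : ℚ_[2])) [] y

/-- parity -/
def PAR : Prop :=
  ∀ (D : Dat) (v : List (Kp D) → KA), D.Kol v → NVd D (v []) → Eig D → RkK D

end Pool.Agent.P.MP_8b7eba_nt.R2
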