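import Mathlib

/-! The minimal model of the twist by a discriminant of either sign. -/

namespace Pool.Agent.P.MP_8b7eba_nt.R2

/-- A global minimal model of the twist of `X₀(15)` by a squarefree `d ≡ 1 mod 4`. -/
def twd (d : ℤ) : WeierstrassCurve ℤ := ⟨1, (-7 * d - 1) / 4, 0, -9 * d ^ 2, 0⟩

end Pool.Agent.P.MP_8b7eba_nt.R2
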