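import Pool.Agent.P.MP_8b7eba_nt.R2.DefsE

/-! Statements on complex multiplication and Heegner points. -/

namespace Pool.Agent.P.MP_8b7eba_nt.R2

open scoped NNReal
open MP_9c97e9_nt (pm Is ap)
open BSD15 (OO Good nm cj)
open _root_.Pool.Agent.P.MP_8b7eba_nt.Mod (M2 G0 xx al)
open R1 (emb Dl psi Pz KF U8 IntPt)

/-! ### The modular invariant -/

/-- properties of the modular invariant -/
def JF : Prop :=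
  (∀ (g : M2) (z : ℂ), g.det = 1 → 0 < z.im → jf (g.act z) = jf z) ∧
  (∀ z : ℂ, 0 < z.im → psi 2 (al 2 0) z + psi 2 (al 2 1) z + psi 2 (al 2 2) z = -48 ∧
    psi 2 (al 2 0) z * psi 2 (al 2 1) z * psi 2 (al 2 2) z = -4096 ∧ U8 z ≠ 0) ∧
  KF 0 U8 ∧ KF 0 fun z => U8 z ^ 2 * jf z

/-- the invariant separates the orbits -/
def JINJ : Prop :=
  ∀ z z' : ℂ, 0 < z.im → 0 < z'.im → jf z = jf z' → ∃ g : M2, g.det = 1 ∧ z' = g.act z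

/-- the statements used in this block -/
structure CE : Prop extends CF where
  jf : JF
  jinj : JINJ

/-! ### The Artin map -/

/-- the action of Frobenius elements -/
def FRB : Prop :=
  ∀ (P : Pre) (c : ℕ), Cd c → ∃ B : ℕ, ∀ (w : Pl) (φ : GQ), B < w.p → φ ∈ P.GK → w.IsFrob 1 φ →
    ∀ a : RC P.l c, ac φ (HP (cl c (pw P.l w) * a)) = HP a ∧ φ (JO (cl c (pw P.l w) * a)) = JO a

/-- the main theorem of complex multiplication -/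
def ARX : Prop := ∀ (P : Pre) (c : ℕ), Cd c → IsAr P c

/-- local-global compatibility -/
def LGC : Prop :=
  ∀ (P : Pre) (n m : ℕ) (χ : GQ → ZMod (2 ^ n)) (lam : Ideal (OO P.l) → ZMod (2 ^ n)), m ≠ 0 →
    IsCh P.GK χ → (∀ s, s ∉ P.GK → χ (s * s) = 0) →
    (∀ I J, Ad m I → Ad m J → lam (I * J) = lam I + lam J) →
    (∀ β, Oc m β → lam (Ideal.span {β}) = 0) →
    (∃ B : ℕ, ∀ (w : Pl) (φ : GQ), B < w.p → φ ∈ P.GK → w.IsFrob 1 φ → χ φ = lam (pw P.l w)) →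
    (∀ (w : Pl) (β : OO P.l) (u : Om), Ad m (Ideal.span {β}) → Fix (w.D ⊓ P.GK) u → w.v u = 1 →
      w.v (u - eO P.l β) ≤ w.v m →
      (∀ w' : Pl, w'.p ∣ m → Out P.GK {w} w' → w'.v (eO P.l β - 1) ≤ w'.v m) →
      nv w (w.D ⊓ P.GK) (cup χ u) = ec (-((lam (Ideal.span {β})).val : ℚ_[2]) / 2 ^ n)) ∧
    (∀ w : Pl, ¬ w.p ∣ m → ∀ g ∈ w.I ⊓ P.GK, χ g = 0) ∧
    ∀ (w : Pl) (φ : GQ), ¬ w.p ∣ 2 * m * P.l → φ ∈ P.GK → w.IsFrob 1 φ → χ φ = lam (pw P.l w)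

/-- characters of 2-power order separate -/
def SEP2 : Prop :=
  ∀ (G : Type) [CommGroup G] [Finite G] (B : Subgroup G) (x : G),
    (∀ (n : ℕ) (χ : G → ZMod (2 ^ n)), (∀ a b, χ (a * b) = χ a + χ b) → (∀ b ∈ B, χ b = 0) →
      χ x = 0) → ∃ b ∈ B, Odd (orderOf (b⁻¹ * x))

/-- the local behaviour of the Artin map -/
def ARL : Prop :=
  ∀ (P : Pre) (c : ℕ) (w : Pl), Cd c →
    (¬ w.p ∣ c → ∀ g ∈ w.I ⊓ P.GK, ar P.l c g ∈ Od P.l c) ∧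
    (¬ w.p ∣ 2 * c * P.l → ∀ φ ∈ P.GK, w.IsFrob 1 φ →
      (ar P.l c φ)⁻¹ * cl c (pw P.l w) ∈ Od P.l c) ∧
    (¬ w.p ∣ 30 * P.l * c → ¬ w.D ≤ P.GK → ∀ x : RC P.l (c * w.p),
      pr (Nat.dvd_mul_right c w.p) x ∈ Od P.l c →
      ∃ i ∈ w.I, (ar P.l (c * w.p) i)⁻¹ * x ∈ Od P.l (c * w.p))

/-- the 2-adic character of the ideals -/
def KAP : Prop :=
  ∀ P : Pre, ∃ (κ : Ideal (OO P.l) → ℤ_[2]ˣ) (h : ℕ), Odd h ∧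
    (∀ I J, Ad 2 I → Ad 2 J → κ (I * J) = κ I * κ J) ∧
    (∀ β, Ad 2 (Ideal.span {β}) →
      κ (Ideal.span {β}) = art P.w2 (eO P.l β / eO P.l (star β)) ^ h) ∧
    (∀ I (n : ℕ), Ad 2 I → (cl (2 ^ n) I ∈ Od P.l (2 ^ n) ↔ 2 ^ n ∣ (κ I : ℤ_[2]) - 1)) ∧
    (∀ I, Ad 2 I → 8 ∣ (κ I : ℤ_[2]) - nm I) ∧
    ∀ I, Ad 2 I → lg (κ I) = 0 → I ^ h = cj I ^ h

/-- the anticyclotomic logarithm -/
def ANT : Prop := ∀ P : Pre, ∃ a, Anti P a ∧ Pw P a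

/-- genus theory -/
def GEN : Prop :=
  ∀ P : Pre, ∀ g ∈ P.GK, ar P.l P.d.natAbs g ∈ Od P.l P.d.natAbs → g P.dl = P.dl

/-- the Hecke relation at an inert prime -/
def TRI : Prop :=
  ∀ (P : Pre) (c : ℕ) (w : Pl) (a : RC P.l c), Cd c → ¬ w.p ∣ 30 * P.l * c → ¬ w.D ≤ P.GK →
    ∑ᶠ b ∈ {b | pr (Nat.dvd_mul_right c w.p) b = a}, HP b = ap W15 w.p • HP a ∧
    ∀ F, w.IsFrob 1 F → ac F (ac F (HP a)) = HP a →
      ∀ b, pr (Nat.dvd_mul_right c w.p) b = a → E1 w (ac F (HP b) - HP a)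

/-- the Hecke relation at a split prime -/
def TRS : Prop :=
  ∀ (P : Pre) (c : ℕ) (w : Pl) (a : RC P.l c), Cd c → ¬ w.p ∣ 30 * P.l * c → w.D ≤ P.GK →
    ∑ᶠ b ∈ {b | pr (Nat.dvd_mul_right c w.p) b = a}, HP b =
      ap W15 w.p • HP a - HP (cl c (pw P.l w) * a) - HP ((cl c (pw P.l w))⁻¹ * a)

/-- the groups and the traces -/
def HE1 : Prop :=
  ∀ (P : Pre) (c : ℕ), Cd c → (∀ g, g ∈ NH P c ↔ g ∈ P.GK ∧ ar P.l c g ∈ Od P.l c) ∧ ON (NH P c) ∧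
    (∀ g ∈ P.GK, ac g (yH P.l c) = ∑ᶠ a : Od P.l c, HP ((ar P.l c g)⁻¹ * a.1)) ∧
    ∀ (q : ℕ), Cd (c * q) → NH P (c * q) ≤ NH P c ∧
      (NH P (c * q)).relIndex (NH P c) =
        2 ^ padicValNat 2 (Nat.card (pr (l := P.l) (Nat.dvd_mul_right c q)).ker) ∧
      csum (NH P c) (NH P (c * q)) (fun s => ac s (yH P.l (c * q))) =
        ∑ᶠ a : Od P.l c, ∑ᶠ b ∈ {b | pr (Nat.dvd_mul_right c q) b = a.1}, HP b ∧
      ∀ (M : Type) [AddCommGroup M] (f : RC P.l c → M) (x : RC P.l (c * q)),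
        ∑ᶠ b : Od P.l (c * q), f (pr (Nat.dvd_mul_right c q) (x * b.1)) =
        (Nat.card (pr (l := P.l) (Nat.dvd_mul_right c q)).ker /
          2 ^ padicValNat 2 (Nat.card (pr (l := P.l) (Nat.dvd_mul_right c q)).ker)) •
          ∑ᶠ a : Od P.l c, f (pr (Nat.dvd_mul_right c q) x * a.1)

/-- the Heegner system -/
def HEX : Prop :=
  ∀ (P : Pre) (a : GQ → ℤ_[2]), Pw P a → ∃ H : Heeg P a, H.N = NH P ∧ H.y = yH P.l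

/-! ### The points of 2-power conductor -/

/-- the discriminant quotients of level one -/
def JG1 : Prop :=
  ∀ P : Pre, (∀ I, I ≠ ⊥ → P.w2.v (gO P I) = 1 ∧
      gO P (pw P.l P.w2 * I) ^ 2 + (48 + 4096 / gO P I) * gO P (pw P.l P.w2 * I) = gO P I ∧
      P.w2.v (gO P I - JO (cl 1 (pw P.l P.w2 * I))) ≤ P.w2.v 256) ∧
    P.w2.v (∑ᶠ a : RC P.l 1, (JO a)⁻¹ - 1) ≤ P.w2.v 2

/-- the discriminant quotients in the tower -/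
def JC : Prop :=
  ∀ (P : Pre) (I : Ideal (OO P.l)) (n : ℕ), Ad 2 I → P.w2.v (cO n I) = 1 ∧
    P.w2.v (cO n I - JO (cl (2 ^ (n + 1)) I)) ≤ P.w2.v 256 ∧
    P.w2.v ((cO n I / gO P (pw P.l P.w2 ^ n * I)) ^ 2 ^ n + 1) ≤ P.w2.v 16 ∧
    (0 < n → P.w2.v (rO n I + 1 + 48 / cO n I) ≤ P.w2.v 4096)

/-- approximation by roots of unity -/
def JR : Prop :=
  ∀ (w : Pl) (ρ : Om) (n : ℕ), w.p = 2 → 0 < n → w.v (ρ ^ 2 ^ n + 1) ≤ w.v 16 →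
    ∃ ζ : Om, IsPrimitiveRoot ζ (2 ^ (n + 1)) ∧ w.v (ρ - ζ) < w.v (vp ζ)

/-- the local cyclotomic tower -/
def JLF : Prop :=
  ∀ (w : Pl) (M : ℕ) (ζ : Om), w.p = 2 → IsPrimitiveRoot ζ (2 ^ (M + 2)) →
    Fix (w.I ⊓ KP M) (vp ζ) ∧ w.v (vp ζ) ^ 2 ^ M = w.v 2 ∧ w.Unif (w.I ⊓ KP M) (vp ζ) ∧
    (∀ ζ' : Om, IsPrimitiveRoot ζ' (2 ^ (M + 2)) → w.v (vp ζ' - vp ζ) < w.v (vp ζ)) ∧
    (2 ≤ M → ∀ γ ∈ w.I, IsUnit (lg (cyc γ)) → ∀ (x : Om) (n : ℕ), Fix (w.I ⊓ KP M) x → Odd n →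
      w.v x = w.v (vp ζ) ^ n → w.v (γ x - x) = w.v (vp ζ) ^ (n + 2))

/-- the final local computation -/
def JLW : Prop :=
  ∀ (w : Pl) (M : ℕ) (ζ u : Om) (γ : GQ), w.p = 2 → 3 ≤ M → IsPrimitiveRoot ζ (2 ^ (M + 2)) →
    γ ∈ w.I → IsUnit (lg (cyc γ)) → Fix (w.I ⊓ KP M) u → u ≠ 0 →
    w.v (((γ ^ 2 ^ (M - 1)) u / u) ^ 24 - 1) = w.v 16 * w.v (vp ζ) ^ 5 →
    ¬ Sq (w.I ⊓ KP M) ((fun x => γ x / x)^[2 ^ M - 3] u)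

/-- the Kummer map commutes with the group ring -/
def JKQ : Prop :=
  ∀ (S : Subgroup GQ) (γ : GQ) (ι : Type) [Fintype ι] (R : ι → EO) (x η : ι → Om) (k : ℕ),
    (∀ g ∈ S, γ⁻¹ * g * γ ∈ S) → (∀ i, Is (R i) (4 * x i) (η i)) → (∀ i, x i ≠ 0) →
    (∀ g ∈ S, ∃ e : ι ≃ ι, ∀ i, ac g (R i) = R (e i)) →
    Kq S ((fun Q => ac γ Q - Q)^[k] (∑ i, R i)) → Sq S ((fun y => γ y / y)^[k] (∏ i, x i))

/-- the trace of the inverse of the singular modulus is a uniformiser -/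
def JD : Prop :=
  ∀ (P : Pre) (a : GQ → ℤ_[2]) (M : ℕ) (ζ : Om) (ι : GQ), Anti P a → Pw P a → 2 ≤ M →
    IsPrimitiveRoot ζ (2 ^ (M + 2)) → ι ∈ P.w2.I → cyc ι = -1 →
    P.w2.v (DD (ar P.l (2 ^ (M + 2)) ι) 1) = P.w2.v (vp ζ)

/-- the conjugates of the trace -/
def JS : Prop :=
  ∀ (P : Pre) (a : GQ → ℤ_[2]) (M : ℕ) (ζ : Om) (ι : GQ), Anti P a → Pw P a → 3 ≤ M →
    IsPrimitiveRoot ζ (2 ^ (M + 2)) → ι ∈ P.w2.I → cyc ι = -1 → ∀ i, i = ar P.l (2 ^ (M + 2)) ι →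
    P.w2.v (DD i 1 + DD i (cl _ (nI P.l 3)) + DD i (cl _ (nI P.l 5)) + DD i (cl _ (nI P.l 15))) =
      P.w2.v (vp ζ) ^ 5

/-- the 24-th power of the quotient of two conjugate norms -/
def JW : Prop :=
  ∀ (P : Pre) (n : ℕ) (i : RC P.l (2 ^ (n + 1))) (σ : GQ), 0 < n → σ ∈ P.GK →
    ar P.l (2 ^ (n + 1)) σ ∉ Od P.l (2 ^ (n + 1)) → ar P.l (2 ^ n) σ ∈ Od P.l (2 ^ n) →
    P.w2.v ((σ (UX i) / UX i) ^ 24 - 1 - 16 * (DD i 1 + DD i (cl _ (nI P.l 3)) +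
      DD i (cl _ (nI P.l 5)) + DD i (cl _ (nI P.l 15)))) ≤ P.w2.v 32

/-- the non-vanishing -/
def JPX : Prop :=
  ∀ (P : Pre) (a : GQ → ℤ_[2]) (H : Heeg P a), Anti P a → Pw P a → H.y = yH P.l → JP H

end Pool.Agent.P.MP_8b7eba_nt.R2
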