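import Pool.Agent.P.MP_8b7eba_nt.R2.IfB

/-! Definitions and statements for the choice of the auxiliary prime (Cassels-Tate pairing). -/

namespace Pool.Agent.P.MP_8b7eba_nt.R2

open scoped NNReal Matrix

noncomputable section

/-- a square root of an integer -/
def rt (m : ℤ) : Om := Classical.epsilon fun β : Om => β ^ 2 = m

/-- the quadratic character of an integer -/
def qz (m : ℤ) : GQ → ZMod 2 := qc (rt m)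

/-- cochains with values `1` and `-1` -/
def sgn (κ : GQ → GQ → ZMod 2) (g h : GQ) : Om := (-1) ^ (κ g h).val

/-- `θ` is a locally constant cochain on `H` with coboundary `κ` -/
def Bd (H : Subgroup GQ) (κ : GQ → GQ → ZMod 2) (θ : GQ → ZMod 2) : Prop :=
  Sm H θ ∧ ∀ g ∈ H, ∀ h ∈ H, θ (g * h) = θ g + θ h + κ g h

/-- pairs of characters -/
abbrev X2 : Type := GQ → Fin 2 → ZMod 2

/-- the determinant -/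
def dt (u v : V2) : ℚ_[2] := u 0 * v 1 - u 1 * v 0

/-- the cup product modulo two -/
def d2 (x y : X2) (g h : GQ) : ZMod 2 := x g 0 * y h 1 + x g 1 * y h 0

/-- the coboundary of a vector -/
def Tate.bd {w : Pl} (T : Tate w) (δ : Om) (u : V2) (g : GQ) : V2 := T.rd δ g *ᵥ u - u

/-- the cup product modulo four -/
def Tate.wp {w : Pl} (T : Tate w) (δ : Om) (c c' : GQ → V2) (g h : GQ) : Om :=
  ec (dt (c g) (T.rd δ g *ᵥ c' h) / 4)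

/-- cocycles modulo `2 ^ i` -/
structure Tate.Zc {w : Pl} (T : Tate w) (δ : Om) (H : Subgroup GQ) (i : ℕ) (c : GQ → V2) : Prop where
  sm : ∃ N, ON N ∧ ∀ g ∈ H, ∀ n ∈ H, n ∈ N → ‖c (g * n) - c g‖ ≤ (2 ^ i)⁻¹
  int : ∀ g ∈ H, ‖c g‖ ≤ 1
  co : ∀ g ∈ H, ∀ h ∈ H, ‖c (g * h) - c g - T.rd δ g *ᵥ c h‖ ≤ (2 ^ i)⁻¹

/-- `c` reduces to `x` modulo two -/
def Lf (H : Subgroup GQ) (x : X2) (c : GQ → V2) : Prop :=
  ∀ g ∈ H, ∀ i, ‖c g i - (x g i).val‖ ≤ 2⁻¹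

/-- admissible local cocycles modulo four -/
def Tate.Adm {w : Pl} (T : Tate w) (δ : Om) (w' : Pl) (b : GQ → V2) : Prop :=
  (w' ≠ w → ∃ u, ∀ g ∈ w'.D, ‖T.bd δ u g‖ ≤ 1 ∧ ‖b g - T.bd δ u g‖ ≤ 4⁻¹) ∧
  (w' = w → ∃ u c, ‖u‖ ≤ 2 ∧ T.Zc δ w.D 3 c ∧
    ∀ g ∈ w.D, ‖b g - c g‖ ≤ 4⁻¹ ∧ ‖(c g - T.bd δ u g) 1‖ ≤ 8⁻¹)

/-- the data -/
structure LS where
  d : ℤ
  w : Pl
  T : Tate w
  R : Finset Pl
  sq : Squarefree d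
  d8 : d % 8 = 5
  cop : IsCoprime d 15
  j5 : jacobiSym d 5 = -1
  w2 : w.p = 2
  wR : w ∈ R
  sep : Sep ⊤ R
  out : ∀ w' : Pl, Out ⊤ R w' ↔ ¬ (w'.p : ℤ) ∣ 30 * d

/-- auxiliary primes -/
structure LS.Gl (S : LS) (l : ℕ) (δ : Om) : Prop where
  lp : l.Prime
  l16 : l % 16 = 7
  cop : IsCoprime S.d (15 * l)
  spl : ∀ p : ℕ, p.Prime → (p : ℤ) ∣ 15 * S.d → jacobiSym (-l) p = 1
  hd : δ ^ 2 = ((-l * S.d : ℤ) : Om)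

/-- the first half of the Selmer group -/
def LS.GA (S : LS) (α : GQ → ZMod 2) : Prop :=
  ∃ a : ℕ, (a : ℤ) ∣ S.d ∧ α = qz a ∧
    (jacobiSym S.d 3 = -1 → ∀ w : Pl, w.p = 3 → ∀ g ∈ w.D, α g = 0) ∧
    ∀ w : Pl, (w.p : ℤ) ∣ S.d → (∀ g ∈ w.D, α g = 0) ∨ ∀ g ∈ w.D, α g = qz (-S.d) g

/-- the second half of the Selmer group -/
def LS.GB (S : LS) (β : GQ → ZMod 2) : Prop :=
  ∃ b : ℕ, (b : ℤ) ∣ 3 * S.d ∧ (jacobiSym S.d 3 = 1 → (b : ℤ) ∣ S.d) ∧ b % 4 = 1 ∧ β = qz b ∧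
    ∀ w : Pl, (w.p : ℤ) ∣ S.d → (∀ g ∈ w.D, β g = 0) ∨ ∀ g ∈ w.D, β g = qz S.d g

/-- the Selmer group modulo the torsion points -/
def LS.GX (S : LS) (x : X2) : Prop := S.GA (fun g => x g 0) ∧ S.GB fun g => x g 1

/-- global and local lifts -/
structure LS.Ld (S : LS) (l : ℕ) (δ : Om) (x : X2) (c : GQ → V2) (b : Pl → GQ → V2) : Prop where
  zc : S.T.Zc δ ⊤ 2 c
  lf : Lf ⊤ x c
  unr : ∀ w : Pl, ¬ (w.p : ℤ) ∣ 30 * S.d * l → ∀ g ∈ w.I, ‖c g‖ ≤ 4⁻¹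
  adm : ∀ w ∈ S.R, S.T.Adm δ w (b w) ∧ Lf w.D x (b w)

/-- the Cassels-Tate pairing -/
def LS.pr (S : LS) (c : GQ → V2) (b : Pl → GQ → V2) (y : X2) : Om :=
  ∏ w ∈ S.R, nv w w.D fun g h => ec (dt (c g - b w g) (fun i => ((y h i).val : ℚ_[2])) / 4)

end

/-- the Hasse principle over the rationals -/
def ABHNQ : Prop :=
  ∀ f, Co2T ⊤ f → Triv (Subgroup.zpowers tau) f →
    (∀ p : ℕ, p.Prime → ∃ w : Pl, w.p = p ∧ Triv w.D f) → Triv ⊤ f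

/-- solution of central embedding problems with controlled ramification -/
def GTH : Prop :=
  ∀ (n : ℤ) (κ : GQ → GQ → ZMod 2), n ≠ 0 → 2 ∣ n → Co2 ⊤ (sgn κ) →
    (∀ w : Pl, ¬ (w.p : ℤ) ∣ n → ∀ i ∈ w.I, ∀ g, κ g i = 0 ∧ κ i g = 0) →
    (∀ p : ℕ, p.Prime → (p : ℤ) ∣ n → ∃ w : Pl, w.p = p ∧ Triv w.D (sgn κ)) →
    (∀ g ∈ Subgroup.zpowers tau, ∀ h ∈ Subgroup.zpowers tau, κ g h = 0) →
    ∃ θ, Bd ⊤ κ θ ∧ ∀ w : Pl, ¬ (w.p : ℤ) ∣ n → ∀ i ∈ w.I, θ i = 0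

/-- norms from the unramified quadratic extension at two -/
def NU2 : Prop :=
  ∀ (w : Pl) (m a : ℤ), w.p = 2 → m % 8 = 5 → Odd a → Nm w.D m a ∧ ¬ Nm w.D m (2 * a)

/-- units lift to cocycles modulo eight -/
def LOC8 : Prop :=
  ∀ (w : Pl) (T : Tate w) (δ : Om) (m a : ℤ), w.p = 2 → δ ^ 2 = m → m % 8 = 5 → Odd a →
    ∃ c, T.Zc δ w.D 3 c ∧ ∀ g ∈ w.D, c g 1 = 0 ∧ ‖c g 0 - (qz a g).val‖ ≤ 2⁻¹

/-- admissible cocycles are orthogonal to each other -/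
def ISO : Prop :=
  ∀ (w w' : Pl) (T : Tate w) (δ : Om) (b b' : GQ → V2), Fix ⊤ (δ ^ 2) → T.Adm δ w' b →
    T.Adm δ w' b' → T.Zc δ w'.D 2 b ∧ Triv w'.D (T.wp δ b b')

/-- existence of admissible lifts at three -/
def SUF3 : Prop :=
  ∀ (S : LS) (l : ℕ) (δ : Om), S.Gl l δ → ∀ x, S.GX x → ∀ w : Pl, w.p = 3 →
    ∃ b, S.T.Adm δ w b ∧ Lf w.D x b

/-- existence of admissible lifts -/
def SUF : Prop :=
  ∀ (S : LS) (l : ℕ) (δ : Om), S.Gl l δ → ∀ x, S.GX x → ∀ w ∈ S.R, ∃ b, S.T.Adm δ w b ∧ Lf w.D x b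

/-- the local condition at three -/
def NEC3 : Prop :=
  ∀ (S : LS) (l : ℕ) (δ : Om), S.Gl l δ → ∀ (w : Pl) (b : GQ → V2), w.p = 3 → S.T.Adm δ w b →
    (jacobiSym S.d 3 = 1 → ∀ g ∈ w.I, ‖b g‖ ≤ 2⁻¹) ∧
    (jacobiSym S.d 3 = -1 → ∀ g ∈ w.D, ‖b g 0‖ ≤ 2⁻¹)

/-- the reduction of an admissible cocycle -/
def NEC : Prop :=
  ∀ (S : LS) (l : ℕ) (δ : Om), S.Gl l δ → ∀ c, S.T.Zc δ ⊤ 2 c →
    (∀ w : Pl, ¬ (w.p : ℤ) ∣ 30 * S.d * l → ∀ g ∈ w.I, ‖c g‖ ≤ 2⁻¹) →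
    (∀ w : Pl, w.p = l → ∀ g ∈ w.D, ‖c g‖ ≤ 2⁻¹) → (∀ w ∈ S.R, S.T.Adm δ w c) →
    ∃ x, S.GX x ∧ Lf ⊤ x c

/-- a nonzero Selmer class gives a primitive admissible cocycle -/
def RED : Prop :=
  ∀ (S : LS) (l : ℕ) (δ : Om), S.Gl l δ → ¬ Rk0 S.T δ (-l * S.d) → ∃ c, S.T.Zc δ ⊤ 3 c ∧
    (∃ g, ‖c g‖ = 1) ∧ (∀ w : Pl, ¬ (w.p : ℤ) ∣ 30 * S.d * l → ∀ g ∈ w.I, ‖c g‖ ≤ 4⁻¹) ∧
    (∀ w : Pl, w.p = l → ∀ g ∈ w.D, ‖c g‖ ≤ 2⁻¹) ∧ ∀ w ∈ S.R, S.T.Adm δ w c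

/-- two independent Selmer classes give two independent admissible cocycles -/
def RED2 : Prop :=
  ∀ (S : LS) (l : ℕ) (δ : Om), S.Gl l δ → ¬ Rk1 S.T δ (-l * S.d) → ∃ c : Bool → GQ → V2,
    (∃ g, ‖c true g - c false g‖ = 1) ∧ ∀ t, S.T.Zc δ ⊤ 3 (c t) ∧
    (∃ g, ‖c t g‖ = 1) ∧ (∀ w : Pl, ¬ (w.p : ℤ) ∣ 30 * S.d * l → ∀ g ∈ w.I, ‖c t g‖ ≤ 4⁻¹) ∧
    (∀ w : Pl, w.p = l → ∀ g ∈ w.D, ‖c t g‖ ≤ 2⁻¹) ∧ ∀ w ∈ S.R, S.T.Adm δ w (c t)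

/-- global lifts -/
def GLIFT : Prop :=
  ∀ (S : LS) (l : ℕ) (δ : Om), S.Gl l δ → ∀ (x : X2) (b : Pl → GQ → V2), S.GX x →
    (∀ w ∈ S.R, S.T.Adm δ w (b w) ∧ Lf w.D x (b w)) → ∃ c, S.Ld l δ x c b

/-- the governing cochain -/
def THX : Prop :=
  ∀ (S : LS) (l : ℕ) (δ : Om), S.Gl l δ → ∀ x y, S.GX x → S.GX y →
    ∃ θ, Bd ⊤ (d2 x y) θ ∧ ∀ w : Pl, ¬ (w.p : ℤ) ∣ 30 * S.d → ∀ i ∈ w.I, θ i = 0

/-- the pairing is symmetric -/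
def SYMM : Prop :=
  ∀ (S : LS) (l : ℕ) (δ : Om), S.Gl l δ → ∀ x y c c' b b', S.GX x → S.GX y → S.Ld l δ x c b →
    S.Ld l δ y c' b' → S.pr c b y = S.pr c' b' x

/-- the pairing as a bilinear form -/
def CTP : Prop :=
  ∀ (S : LS) (l : ℕ) (δ : Om), S.Gl l δ → ∃ C : X2 → X2 → ZMod 2, ∀ x y, S.GX x → S.GX y →
    C x y = C y x ∧ (∀ y', S.GX y' → S.GX (y + y') → C x (y + y') = C x y + C x y') ∧
    ∀ c b, S.Ld l δ x c b → S.pr c b y = (-1) ^ (C x y).val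

/-- the variation of the pairing -/
def VAR : Prop :=
  ∀ (S : LS) (l l' : ℕ) (δ δ' : Om), S.Gl l δ → S.Gl l' δ' → l ≠ l' →
    (∀ w ∈ S.R, ∀ b, S.T.Adm δ w b → S.T.Adm δ' w b) ∧
    ∀ x y c c' b θ, S.GX x → S.GX y → S.Ld l δ x c b → S.Ld l' δ' x c' b → Bd ⊤ (d2 x y) θ →
      (∀ w : Pl, ¬ (w.p : ℤ) ∣ 30 * S.d → ∀ i ∈ w.I, θ i = 0) → ∀ (w w' : Pl) (φ φ' : GQ),
      w.p = l → w'.p = l' → w.IsFrob 1 φ → w'.IsFrob 1 φ' →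
      S.pr c b y = S.pr c' b y * (-1) ^ (θ φ + θ φ').val

/-- the elementary count -/
def CNT0 : Prop :=
  ∀ (P : Type) [Fintype P] [DecidableEq P] (M : P → P → ZMod 2) (e t : P → ZMod 2),
    (∀ p q, p ≠ q → M p q + M q p = e p * e q) →
    (∑ p, e p = 0 → (∀ p, ∑ q, M q p = e p) →
      Nat.card {x : P → ZMod 2 // ∀ p, ∑ q, x q * M q p = 0} =
      Nat.card {y : P → ZMod 2 // ∑ q, y q * e q = 0 ∧ ∀ p, ∑ q, y q * M q p + y p * e p = 0}) ∧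
    (∑ p, e p = 1 → (∀ p, ∑ q, M q p = 0) →
      Nat.card {x : P → ZMod 2 // ∑ q, x q * (t q + e q) = 0 ∧ ∀ p, ∑ q, x q * M q p = 0} =
      Nat.card {y : (P → ZMod 2) × ZMod 2 // ∑ q, y.1 q * e q + y.2 = 0 ∧
        ∀ p, ∑ q, y.1 q * M q p + y.1 p * e p + y.2 * t p = 0})

/-- the elementary inequalities -/
def CNT1 : Prop :=
  ∀ (P : Type) [Fintype P] [DecidableEq P] (M : P → P → ZMod 2) (e t : P → ZMod 2),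
    (∀ p q, p ≠ q → M p q + M q p = e p * e q) → ∀ a b a' b' : ℕ,
    a = Nat.card {x : P → ZMod 2 // ∀ p, ∑ q, x q * M q p = 0} →
    b = Nat.card {y : P → ZMod 2 // ∑ q, y q * e q = 0 ∧ ∀ p, ∑ q, y q * M q p + y p * e p = 0} →
    a' = Nat.card {x : P → ZMod 2 // ∑ q, x q * (t q + e q) = 0 ∧ ∀ p, ∑ q, x q * M q p = 0} →
    b' = Nat.card {y : (P → ZMod 2) × ZMod 2 // ∑ q, y.1 q * e q + y.2 = 0 ∧
        ∀ p, ∑ q, y.1 q * M q p + y.1 p * e p + y.2 * t p = 0} →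
    b ≤ a ∧ a ≤ 2 * b ∧ a' ≤ b' ∧ b' ≤ 2 * a'

/-- the two halves have almost the same dimension -/
def CNT : Prop :=
  ∀ S : LS, ∃ A B : Submodule (ZMod 2) (GQ → ZMod 2), (∀ α, α ∈ A ↔ S.GA α) ∧
    (∀ β, β ∈ B ↔ S.GB β) ∧ Finite A ∧ Finite B ∧
    (S.d.sign * jacobiSym S.d 3 = 1 → Nat.card A = Nat.card B) ∧
    Nat.card A ≤ 2 * Nat.card B ∧ Nat.card B ≤ 2 * Nat.card A

/-- a symmetric form becomes nondegenerate after adding suitable squares -/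
def LIN : Prop :=
  ∀ (G : Type) [Group G] (P : G → Prop) (A B : Submodule (ZMod 2) (G → ZMod 2))
    (C : (G → Fin 2 → ZMod 2) → (G → Fin 2 → ZMod 2) → ZMod 2)
    (X : (G → Fin 2 → ZMod 2) → Prop), (∀ g h, P g → P h → P (g * h)) → Finite A → Finite B →
    Nat.card A = Nat.card B → (∀ α, α ∈ A ∨ α ∈ B → (∀ g h, α (g * h) = α g + α h) ∧
      (α ≠ 0 → ∃ g, P g ∧ α g ≠ 0)) →
    (∀ x, X x ↔ (fun g => x g 0) ∈ A ∧ (fun g => x g 1) ∈ B) →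
    (∀ x y, X x → X y → C x y = C y x ∧ ∀ y', X y' → C x (y + y') = C x y + C x y') →
    ∃ s : List G, (∀ g ∈ s, P g) ∧ ∀ x, X x →
      (∀ y, X y → C x y + (s.map fun g => x g 0 * y g 1 + x g 1 * y g 0).sum = 0) → x = 0

/-- the radical has at most two elements after adding suitable squares -/
def LIN2 : Prop :=
  ∀ (G : Type) [Group G] (P : G → Prop) (A B : Submodule (ZMod 2) (G → ZMod 2))
    (C : (G → Fin 2 → ZMod 2) → (G → Fin 2 → ZMod 2) → ZMod 2)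
    (X : (G → Fin 2 → ZMod 2) → Prop), (∀ g h, P g → P h → P (g * h)) → Finite A → Finite B →
    Nat.card A ≤ 2 * Nat.card B → Nat.card B ≤ 2 * Nat.card A →
    (∀ α, α ∈ A ∨ α ∈ B → (∀ g h, α (g * h) = α g + α h) ∧ (α ≠ 0 → ∃ g, P g ∧ α g ≠ 0)) →
    (∀ x, X x ↔ (fun g => x g 0) ∈ A ∧ (fun g => x g 1) ∈ B) →
    (∀ x y, X x → X y → C x y = C y x ∧ ∀ y', X y' → C x (y + y') = C x y + C x y') →
    ∃ s : List G, (∀ g ∈ s, P g) ∧ ∀ x x', X x → X x' →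
      (∀ y, X y → C x y + (s.map fun g => x g 0 * y g 1 + x g 1 * y g 0).sum = 0) →
      (∀ y, X y → C x' y + (s.map fun g => x' g 0 * y g 1 + x' g 1 * y g 0).sum = 0) →
      ((Nat.card A = Nat.card B → x = 0) ∧ (x = 0 ∨ x' = 0 ∨ x = x'))

/-- the choice of the prime -/
def CHL : Prop :=
  ∀ S : LS, (∃ l, S.Gl l (rt (-l * S.d))) ∧ ∀ (ι : Type) [Finite ι] (x y : ι → X2)
    (θ : ι → GQ → ZMod 2) (l : ℕ) (δ : Om) (w : Pl) (φ : GQ) (s : List GQ), S.Gl l δ →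
    (∀ i, S.GX (x i) ∧ S.GX (y i) ∧ Bd ⊤ (d2 (x i) (y i)) (θ i)) → w.p = l → w.IsFrob 1 φ →
    (∀ g ∈ s, cyc g = 1) → ∀ B : ℕ, ∃ (l' : ℕ) (w' : Pl) (φ' : GQ), S.Gl l' (rt (-l' * S.d)) ∧
      l' ≠ l ∧ B < l' ∧ w'.p = l' ∧ w'.IsFrob 1 φ' ∧ ∀ i, θ i φ' = θ i φ + (s.map fun g => d2 (x i) (y i) g g).sum

/-- existence of large auxiliary primes -/
def AUX2 : Prop :=
  ∀ (d : ℤ) (w : Pl) (T : Tate w) (B : ℕ), Squarefree d → d % 8 = 5 → IsCoprime d 15 →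
    jacobiSym d 5 = -1 → w.p = 2 →
    ∃ l : ℕ, l.Prime ∧ B < l ∧ l % 16 = 7 ∧ IsCoprime d (15 * l) ∧
      (∀ p : ℕ, p.Prime → (p : ℤ) ∣ 15 * d → jacobiSym (-l) p = 1) ∧
      ∀ δ : Om, δ ^ 2 = ((-l * d : ℤ) : Om) → Rk1 T δ (-l * d) ∧
        (d.sign * jacobiSym d 3 = 1 → Rk0 T δ (-l * d))

end Pool.Agent.P.MP_8b7eba_nt.R2
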