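import Pool.Agent.P.MP_8b7eba_nt.R2.IfE
import Pool.Agent.P.MP_8b7eba_nt.R1.Kro

/-! Lattices in the complex plane. -/

namespace Pool.Agent.P.MP_8b7eba_nt.R2

open scoped NNReal
open MP_9c97e9_nt (pm Is ap)
open BSD15 (OO Good nm cj)
open _root_.Pool.Agent.P.MP_8b7eba_nt.Mod (M2 G0 xx al)
open R1 (emb Dl psi Pz KF U8 IntPt y1)

variable {L L' M M' : Lt} {a b a' b' z z' μ : ℂ}

theorem Ob.ne (h : Ob L a b) : b ≠ 0 ∧ a ≠ 0 := by
  constructor <;> rintro rfl <;> simpa using h.1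

theorem Ob.left (h : Ob L a b) : a ∈ L ∧ b ∈ L :=
  ⟨(h.2 _).2 ⟨1, 0, by simp⟩, (h.2 _).2 ⟨0, 1, by simp⟩⟩

theorem Ob.inj (h : Ob L a b) {m n m' n' : ℤ} (e : m * a + n * b = m' * a + n' * b) : m = m' ∧ n = n' := by
  have hb := h.ne.1
  have e1 : (m - m' : ℤ) * (a / b) + (n - n' : ℤ) = 0 := by
    push_cast
    field_simp
    linear_combination e
  have e2 := congrArg Complex.im e1
  simp only [Complex.add_im, Complex.mul_im, Complex.intCast_re, Complex.intCast_im, zero_mul,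
    add_zero, Complex.zero_im, mul_eq_zero, h.1.ne', or_false, Int.cast_eq_zero] at e2
  rw [e2, Int.cast_zero, zero_mul, zero_add, Int.cast_eq_zero] at e1
  omega

theorem Ob.eq (h : Ob L a b) (h' : Ob M a b) : L = M :=
  AddSubgroup.ext fun x => (h.2 x).trans (h'.2 x).symm

theorem exists_ob (h : 0 < (a / b).im) : ∃ L, Ob L a b :=
  ⟨AddSubgroup.closure {a, b}, h, fun x => by simp [AddSubgroup.mem_closure_pair, eq_comm]⟩

theorem IsL.ob (h : IsL L) : Ob L (ob L).1 (ob L).2 := by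
  obtain ⟨a, b, h⟩ := h
  exact Classical.epsilon_spec (p := fun p : ℂ × ℂ => Ob L p.1 p.2) ⟨(a, b), h⟩

namespace LtA

theorem act (A : M2) (a : ℂ) (hb : b ≠ 0) :
    (A.a * a + A.b * b) / (A.c * a + A.d * b) = A.act (a / b) ∧
      A.c * a + A.d * b = A.j (a / b) * b := by
  have e : A.c * a + A.d * b = A.j (a / b) * b := by
    rw [M2.j]
    field_simp
  refine ⟨?_, e⟩
  rw [e, M2.act_eq, ← mul_div_mul_right (A.a * (a / b) + A.b) _ hb]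
  congr 1
  field_simp

theorem bas (h : Ob L a b) : ∃ β : Module.Basis (Fin 2) ℤ L.toIntSubmodule,
    (β 0 : ℂ) = a ∧ (β 1 : ℂ) = b := by
  refine ⟨.mk (v := ![⟨a, h.left.1⟩, ⟨b, h.left.2⟩]) (LinearIndependent.pair_iff.2 fun s t e =>
    h.inj (m' := 0) (n' := 0) (by simpa using congrArg Subtype.val e)) fun x _ => ?_,
    by simp, by simp⟩
  obtain ⟨m, n, e⟩ := (h.2 x).1 x.2
  rw [Matrix.range_cons_cons_empty, Submodule.mem_span_pair]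
  exact ⟨m, n, Subtype.ext (by simp [e])⟩

theorem idx {A : M2} (h : Ob L a b) (hle : M ≤ L) (β : Module.Basis (Fin 2) ℤ M.toIntSubmodule)
    (h0 : (β 0 : ℂ) = A.a * a + A.b * b) (h1 : (β 1 : ℂ) = A.c * a + A.d * b) :
    (M.relIndex L : ℤ) = |A.det| := by
  obtain ⟨γ, ha, hb⟩ := bas h
  have e0 : (⟨β 0, hle (β 0).2⟩ : L.toIntSubmodule) = A.a • γ 0 + A.b • γ 1 :=
    Subtype.ext (by simp [h0, ha, hb])
  have e1 : (⟨β 1, hle (β 1).2⟩ : L.toIntSubmodule) = A.c • γ 0 + A.d • γ 1 :=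
    Subtype.ext (by simp [h1, ha, hb])
  rw [AddSubgroup.relIndex_eq_natAbs_det M L hle β γ, Int.natCast_natAbs, Module.Basis.det_apply,
    Matrix.det_fin_two]
  simp only [Module.Basis.toMatrix_apply, e0, e1]
  simp [M2.det, mul_comm]

end LtA

/-- the matrix of an inclusion -/
theorem Ob.mat (h : Ob L a b) (h' : Ob M a' b') (hle : M ≤ L) : ∃ A : M2, a' = A.a * a + A.b * b ∧
    b' = A.c * a + A.d * b ∧ A.det = M.relIndex L ∧ 0 < A.det ∧ a' / b' = A.act (a / b) ∧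
    b' = A.j (a / b) * b := by
  obtain ⟨p, q, e1⟩ := (h.2 _).1 (hle h'.left.1)
  obtain ⟨r, s, e2⟩ := (h.2 _).1 (hle h'.left.2)
  obtain ⟨e3, e4⟩ := LtA.act (M2.mk p q r s) a h.ne.1
  rw [← e1, ← e2] at e3
  have h1 := h'.1
  rw [e3, M2.im_act] at h1
  have h2 : 0 < (M2.mk p q r s).det := by
    exact_mod_cast pos_of_mul_pos_left ((div_pos_iff_of_pos_right (lt_of_le_of_ne
      (Complex.normSq_nonneg _) fun e => by simp [← e] at h1)).1 h1) h.1.le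
  obtain ⟨β, h3, h4⟩ := LtA.bas h'
  refine ⟨⟨p, q, r, s⟩, e1, e2, ?_, h2, e3, e2.trans e4⟩
  rw [LtA.idx (A := ⟨p, q, r, s⟩) h hle β (h3.trans e1) (h4.trans e2), abs_of_pos h2]

theorem Ob.sub (h : Ob L a b) {A : M2} (hA : 0 < A.det) :
    ∃ M ≤ L, Ob M (A.a * a + A.b * b) (A.c * a + A.d * b) ∧ (M.relIndex L : ℤ) = A.det := by
  obtain ⟨M, hM⟩ := exists_ob (a := A.a * a + A.b * b) (b := A.c * a + A.d * b)
    (by rw [(LtA.act A a h.ne.1).1]; exact M2.im_act_pos hA h.1)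
  have hle : M ≤ L := fun x hx => by
    obtain ⟨m, n, rfl⟩ := (hM.2 x).1 hx
    exact (h.2 _).2 ⟨m * A.a + n * A.c, m * A.b + n * A.d, by push_cast; ring⟩
  obtain ⟨β, h3, h4⟩ := LtA.bas hM
  exact ⟨M, hle, hM, by rw [LtA.idx h hle β h3 h4, abs_of_pos hA]⟩

theorem IsL.of_le (h : IsL L) (hle : M ≤ L) (hi : M.relIndex L ≠ 0) : IsL M := by
  obtain ⟨a, b, h⟩ := h
  obtain ⟨γ, -, -⟩ := LtA.bas h
  have : Module.Finite ℤ L := Module.Finite.of_basis γ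
  have : M.IsFiniteRelIndex L := ⟨hi⟩
  have : Module.Finite ℤ M.toIntSubmodule :=
    .of_injective (AddSubgroup.inclusion hle).toIntLinearMap (AddSubgroup.inclusion_injective hle)
  have β := Module.finBasisOfFinrankEq ℤ M.toIntSubmodule (n := 2)
    ((AddSubgroup.finrank_eq_of_isFiniteRelIndex hle).trans
      ((Module.finrank_eq_card_basis γ).trans (by simp)))
  obtain ⟨p, q, e1⟩ := (h.2 _).1 (hle (β 0).2)
  obtain ⟨r, s, e2⟩ := (h.2 _).1 (hle (β 1).2)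
  have h1 : ∀ x, x ∈ M ↔ ∃ m n : ℤ, x = m * β 0 + n * β 1 := fun x =>
    ⟨fun hx => ⟨β.repr ⟨x, hx⟩ 0, β.repr ⟨x, hx⟩ 1, by
      simpa [-Module.Basis.sum_repr] using (congrArg Subtype.val (β.sum_repr ⟨x, hx⟩)).symm⟩, by
      rintro ⟨m, n, rfl⟩
      simpa using M.add_mem (M.zsmul_mem (β 0).2 m) (M.zsmul_mem (β 1).2 n)⟩
  have h2 := LtA.idx (A := ⟨p, q, r, s⟩) h hle β e1 e2
  rcases lt_trichotomy 0 (M2.mk p q r s).det with e | e | e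
  · refine ⟨_, _, ?_, h1⟩
    rw [e1, e2, (LtA.act ⟨p, q, r, s⟩ a h.ne.1).1]
    exact M2.im_act_pos e h.1
  · rw [← e] at h2
    exact absurd (by exact_mod_cast h2) hi
  · refine ⟨β 1, β 0, ?_, fun x => (h1 x).trans (exists_comm.trans (by simp only [add_comm]))⟩
    rw [e1, e2, (LtA.act ⟨r, s, p, q⟩ a h.ne.1).1]
    exact M2.im_act_pos (by simp only [M2.det] at e ⊢; linarith) h.1

theorem IsL.relIndex_ne (h : IsL L) (h' : IsL M) (hle : M ≤ L) : M.relIndex L ≠ 0 := by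
  obtain ⟨A, -, -, h1, h2, -⟩ := h.ob.mat h'.ob hle
  omega

theorem mem_sc {x : ℂ} : x ∈ sc μ L ↔ ∃ y ∈ L, x = μ * y := by
  simp [sc, eq_comm]

theorem sc_sc (μ ν : ℂ) (L : Lt) : sc μ (sc ν L) = sc (μ * ν) L := by
  rw [sc, sc, sc, AddSubgroup.map_map]
  congr 1
  ext
  simp [mul_assoc]

theorem sc_one (L : Lt) : sc 1 L = L := by
  ext
  simp [mem_sc]

theorem sc_mono (h : M ≤ L) : sc μ M ≤ sc μ L :=
  AddSubgroup.map_mono h

theorem sc_relIndex (hμ : μ ≠ 0) (M L : Lt) : (sc μ M).relIndex (sc μ L) = M.relIndex L :=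
  AddSubgroup.relIndex_map_map_of_injective _ _ (mul_right_injective₀ hμ)

theorem Ob.sc (h : Ob L a b) (hμ : μ ≠ 0) : Ob (sc μ L) (μ * a) (μ * b) := by
  refine ⟨by rw [mul_div_mul_left _ _ hμ]; exact h.1, fun x => mem_sc.trans ⟨?_, ?_⟩⟩
  · rintro ⟨y, hy, rfl⟩
    obtain ⟨m, n, rfl⟩ := (h.2 y).1 hy
    exact ⟨m, n, by ring⟩
  · rintro ⟨m, n, rfl⟩
    exact ⟨_, (h.2 _).2 ⟨m, n, rfl⟩, by ring⟩

theorem IsL.sc (h : IsL L) (hμ : μ ≠ 0) : IsL (sc μ L) :=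
  ⟨_, _, h.ob.sc hμ⟩

theorem IsL.sc_nat (h : IsL L) {n : ℕ} (hn : n ≠ 0) : R2.sc n L ≤ L ∧ (R2.sc n L).relIndex L = n ^ 2 := by
  obtain ⟨a, b, h⟩ := h
  obtain ⟨M, h1, h2, h3⟩ := h.sub (A := ⟨n, 0, 0, n⟩) (by simp [M2.det, hn])
  obtain rfl := (h.sc (μ := n) (by simpa)).eq (M := M) (by simpa using h2)
  exact ⟨h1, by rw [sq]; exact_mod_cast h3.trans (sub_zero (n * n : ℤ))⟩

theorem Ob.DL (h : Ob L a b) : DL L = Dl (a / b) / b ^ 12 := by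
  obtain ⟨A, -, -, h1, h2, h3, h4⟩ := h.mat (IsL.ob ⟨a, b, h⟩) le_rfl
  rw [R2.DL, h3, h4, R1.Dl_act (by simpa using h1) h.1, mul_pow,
    mul_div_mul_left _ _ (pow_ne_zero _ (M2.j_ne h2.ne' h.1))]

theorem IsL.DL_ne (h : IsL L) : DL L ≠ 0 :=
  div_ne_zero (R1.Dl_ne h.ob.1) (pow_ne_zero _ h.ob.ne.1)

theorem IsL.DL_sc (h : IsL L) (hμ : μ ≠ 0) : DL (R2.sc μ L) = DL L / μ ^ 12 := by
  rw [(h.ob.sc hμ).DL, mul_div_mul_left _ _ hμ, mul_pow, mul_comm, ← div_div, DL]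

theorem Ob.JL (hJ : JF) (h : Ob L a b) : JL L = jf (a / b) := by
  obtain ⟨A, -, -, h1, -, h3, -⟩ := h.mat (IsL.ob ⟨a, b, h⟩) le_rfl
  rw [R2.JL, h3, hJ.1 A _ (by simpa using h1) h.1]

theorem IsL.JL_sc (hJ : JF) (h : IsL L) (hμ : μ ≠ 0) : JL (R2.sc μ L) = JL L := by
  rw [(h.ob.sc hμ).JL hJ, mul_div_mul_left _ _ hμ, JL]

namespace LtA

theorem uni (h : Ob L a b) {g : M2} (hg : g.det = 1) :
    Ob L (g.a * a + g.b * b) (g.c * a + g.d * b) := by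
  obtain ⟨M, h1, h2, h3⟩ := h.sub (A := g) (by omega)
  rwa [h1.antisymm (AddSubgroup.relIndex_eq_one.1 (by omega))] at h2

theorem cancel {g A : M2} (hg : g.det = 1)
    (h : Ob M ((g * A).a * a + (g * A).b * b) ((g * A).c * a + (g * A).d * b)) :
    Ob M (A.a * a + A.b * b) (A.c * a + A.d * b) := by
  have e : (g.a : ℂ) * g.d - g.b * g.c = 1 := by exact_mod_cast hg
  refine (congrArg₂ (Ob M) ?_ ?_).mp (uni h (g := g.adj) (by simpa)) <;>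
    simp only [M2.adj_a, M2.adj_b, M2.adj_c, M2.adj_d, M2.mul_a, M2.mul_b, M2.mul_c,
      M2.mul_d] <;> push_cast
  · linear_combination (A.a * a + A.b * b) * e
  · linear_combination (A.c * a + A.d * b) * e

theorem upper (h : Ob L a b) (hle : M ≤ L) (hi : M.relIndex L ≠ 0) : ∃ A B C : ℤ, 0 < A ∧ 0 < C ∧
    A * C = M.relIndex L ∧ Ob M (A * a + B * b) ((0 : ℤ) * a + C * b) := by
  have h' := (IsL.of_le ⟨a, b, h⟩ hle hi).ob
  obtain ⟨A, e1, e2, h1, h2, -⟩ := h.mat h' hle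
  obtain ⟨g, A, B, C, hg, hA, hC, -, e3, rfl⟩ := Mod.exists_upper h2
  rw [e1, e2] at h'
  exact ⟨A, B, C, hA, hC, e3.trans h1, cancel (A := ⟨A, B, 0, C⟩) hg h'⟩

theorem dia (h : Ob L a b) {n : ℕ} (hn : n ≠ 0) : ∃ M ≤ L, Ob M (n * a) b ∧ M.relIndex L = n := by
  obtain ⟨M, h1, h2, h3⟩ := h.sub (A := ⟨n, 0, 0, 1⟩) (by simpa [M2.det] using hn.pos)
  exact ⟨M, h1, by simpa using h2, by simpa [M2.det] using h3⟩

theorem diag (h : Ob L a b) (hle : M ≤ L) (hb : b ∈ M) {n : ℕ} (hn : n ≠ 0)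
    (hi : M.relIndex L = n) : Ob M (n * a) b := by
  obtain ⟨N, -, h2, h3⟩ := dia h hn
  have h4 : N ≤ M := fun x hx => by
    obtain ⟨k, m, rfl⟩ := (h2.2 x).1 hx
    have := M.nsmul_relIndex_mem h.left.1
    rw [hi, nsmul_eq_mul] at this
    simpa using M.add_mem (M.zsmul_mem this k) (M.zsmul_mem hb m)
  have h5 := AddSubgroup.relIndex_mul_relIndex N M L h4 hle
  rw [hi, h3, mul_eq_right₀ hn] at h5
  rwa [← h4.antisymm (AddSubgroup.relIndex_eq_one.1 h5)]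

theorem psi_eq (h : Ob L a b) {A : M2} (h' : Ob M (A.a * a + A.b * b) (A.c * a + A.d * b))
    (p : ℕ) : psi p A (a / b) = p ^ 12 * DL M / DL L := by
  have := h.ne.1
  rw [h.DL, h'.DL, (act A a this).1, (act A a this).2, psi]
  field_simp

theorem sub (h : Ob L a b) (h0 : Ob L' (15 * a) b) (h' : At M M' z') (h1 : M ≤ L) (h2 : M' ≤ L') :
    ∃ A : M2, A.det = M.relIndex L ∧ 0 < A.det ∧ 15 ∣ A.c ∧ z' = A.act (a / b) ∧
      Ob M (A.a * a + A.b * b) (A.c * a + A.d * b) := by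
  obtain ⟨a', b', h3, h4, rfl⟩ := h'
  obtain ⟨A, e1, e2, e3, e4, e5, -⟩ := h.mat h3 h1
  obtain ⟨m, n, e6⟩ := (h0.2 _).1 (h2 h4.left.2)
  exact ⟨A, e3, e4, ⟨m, (h.inj (n := A.d) (n' := n) (by rw [← e2, e6]; push_cast; ring)).1⟩, e5,
    e1 ▸ e2 ▸ h3⟩

theorem two (h : Ob L a b) (h1 : M ≤ L) (h2 : M.relIndex L = 2) : ∃ i < 3,
    Ob M ((al 2 i).a * a + (al 2 i).b * b) ((al 2 i).c * a + (al 2 i).d * b) := by
  obtain ⟨A, B, C, hA, hC, e, h3⟩ := upper h h1 (by omega)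
  rw [h2] at e
  obtain ⟨g, hg, i, hi, e⟩ : ∃ g : M2, g.det = 1 ∧ ∃ i < 3, M2.mk A B 0 C = g * al 2 i := by
    have : A ≤ 2 := by push_cast at e; nlinarith
    interval_cases A
    · obtain ⟨k, rfl | rfl⟩ := Int.even_or_odd' B
      · exact ⟨Mod.mT k, by simp, 0, by omega, by ext <;> simp [al, Mod.mT] <;> omega⟩
      · exact ⟨Mod.mT k, by simp, 1, by omega, by ext <;> simp [al, Mod.mT] <;> omega⟩
    · exact ⟨Mod.mT B, by simp, 2, by omega, by ext <;> simp [al, Mod.mT]; omega⟩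
  exact ⟨i, hi, cancel hg (e ▸ h3)⟩

theorem cubic (hJ : JF) (h : IsL L) (h1 : M ≤ L) (h2 : M.relIndex L = 2) :
    (2 ^ 12 * DL M / DL L + 16) ^ 3 = JL L * (2 ^ 12 * DL M / DL L) := by
  obtain ⟨a, b, h⟩ := h
  obtain ⟨i, hi, h3⟩ := two h h1 h2
  obtain ⟨hs, hp, -⟩ := hJ.2.1 _ h.1
  rw [h.JL hJ, jf, ← Nat.cast_ofNat (R := ℂ) (n := 2), ← psi_eq h h3]
  interval_cases i <;> linear_combination _ ^ 2 * hs + hp

end LtA

theorem IsL.exists_sc (hJ : JF) (hI : JINJ) (h : IsL L) (h' : IsL M) (e : JL L = JL M) :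
    ∃ μ : ℂ, μ ≠ 0 ∧ M = R2.sc μ L := by
  obtain ⟨a, b, h⟩ := h
  obtain ⟨a', b', h'⟩ := h'
  rw [h.JL hJ, h'.JL hJ] at e
  obtain ⟨g, hg, e⟩ := hI _ _ h.1 h'.1 e
  have h1 := LtA.uni h hg
  rw [← (LtA.act g a h.ne.1).1] at e
  have h2 := div_ne_zero h'.ne.1 h1.ne.1
  have h3 := h1.sc h2
  rw [div_mul_cancel₀ _ h1.ne.1, div_mul_eq_mul_div, mul_div_assoc, ← e,
    mul_div_cancel₀ _ h'.ne.1] at h3
  exact ⟨_, h2, h'.eq h3⟩

theorem At.im (h : At L L' z) : 0 < z.im := by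
  obtain ⟨a, b, h, -, rfl⟩ := h
  exact h.1

theorem At.isL (h : At L L' z) : IsL L ∧ IsL L' ∧ L' ≤ L ∧ L'.relIndex L = 15 := by
  obtain ⟨a, b, h, h', -⟩ := h
  obtain ⟨M, h1, h2, h3⟩ := LtA.dia h (n := 15) (by omega)
  obtain rfl := h'.eq (M := M) (by simpa using h2)
  exact ⟨⟨_, _, h⟩, ⟨_, _, h'⟩, h1, h3⟩

theorem At.sc (h : At L L' z) (hμ : μ ≠ 0) : At (sc μ L) (sc μ L') z := by
  obtain ⟨a, b, h, h', rfl⟩ := h
  exact ⟨_, _, h.sc hμ, mul_left_comm μ 15 a ▸ h'.sc hμ, (mul_div_mul_left _ _ hμ).symm⟩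

theorem At.JL (hJ : JF) (h : At L L' z) : JL L = jf z := by
  obtain ⟨a, b, h, -, rfl⟩ := h
  exact h.JL hJ

theorem IsL.exists_at (h : IsL L) (hle : L' ≤ L) (hi : L'.relIndex L = 15) : ∃ z, At L L' z := by
  obtain ⟨a, b, h⟩ := h
  obtain ⟨A, B, C, hA, hC, e, h3⟩ := LtA.upper h hle (by omega)
  rw [hi] at e
  obtain ⟨x, y, e⟩ : IsCoprime A C := (squarefree_mul_iff.1
    (e ▸ Int.squarefree_natCast.2 (by decide +kernel))).1.isCoprime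
  have h1 := LtA.uni h (g := ⟨1, -((1 - B) * x), A, B + y * (1 - B) * C⟩)
    (by rw [M2.det]; linear_combination (1 - B) * e)
  refine ⟨_, _, _, h1, ?_, rfl⟩
  exact_mod_cast LtA.diag h1 hle ((h3.2 _).2 ⟨1, y * (1 - B), by push_cast; ring⟩) (by omega) hi

theorem At.unique (h : At L L' z) (h' : At L L' z') : ∃ γ, G0 γ ∧ z' = γ.act z := by
  obtain ⟨a, b, h, h0, rfl⟩ := h
  obtain ⟨A, h1, -, h2, h3, -⟩ := LtA.sub h h0 h' le_rfl le_rfl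
  exact ⟨A, ⟨by simpa using h1, h2⟩, h3⟩

theorem At.sub (h : At L L' z) (h' : At M M' z') (h1 : M ≤ L) (h2 : M' ≤ L') : ∃ A : M2,
    A.det = M.relIndex L ∧ 0 < A.det ∧ 15 ∣ A.c ∧ z' = A.act z ∧
    ∀ p : ℕ, psi p A z = p ^ 12 * DL M / DL L := by
  obtain ⟨a, b, h, h0, rfl⟩ := h
  obtain ⟨A, h3, h4, h5, h6, h7⟩ := LtA.sub h h0 h' h1 h2
  exact ⟨A, h3, h4, h5, h6, LtA.psi_eq h h7⟩

/-- the first coordinate as a quotient of discriminants -/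
theorem At.xx24 (h : At L L' z) (h1 : L' ≤ M) (h2 : M ≤ L) (h3 : M.relIndex L = 3) (h4 : L' ≤ M')
    (h5 : M' ≤ L) (h6 : M'.relIndex L = 5) :
    xx z ^ 24 = DL M * DL M' ^ 5 / (DL L * DL L' ^ 5) ∧ xx z ≠ 0 := by
  obtain ⟨a, b, h, h0, rfl⟩ := h
  have e3 := LtA.diag h h2 (h1 h0.left.2) (by omega) h3
  have e5 := LtA.diag h h5 (h4 h0.left.2) (by omega) h6
  have := h.ne.1
  have n1 := Mod.eta_ne h.1
  have n3 := Mod.eta_ne e3.1
  have n5 := Mod.eta_ne e5.1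
  have n15 := Mod.eta_ne h0.1
  rw [h.DL, h0.DL, e3.DL, e5.DL]
  simp only [mul_div_assoc, Nat.cast_ofNat, Dl, xx] at n3 n5 n15 ⊢
  exact ⟨by field_simp, by simp [n1, n3, n5, n15]⟩

/-- the Hecke correspondence -/
theorem At.hecke (h : At L L' z) {q : ℕ} (hq : q.Prime) (h15 : ¬ q ∣ 15) {ι : Type} [Finite ι]
    (hc : Nat.card ι = q + 1) {N N' : ι → Lt} {y : ι → ℂ} (hN : Function.Injective N)
    (h1 : ∀ i, At (N i) (N' i) (y i) ∧ N i ≤ L ∧ N' i ≤ L' ∧ (N i).relIndex L = q) :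
    ∃ e : ι ≃ Fin (q + 1), ∀ i, Pz (y i) = Pz ((al q (e i)).act z) := by
  obtain ⟨a, b, h, h0, rfl⟩ := h
  have key : ∀ i, ∃ k : Fin (q + 1), Pz (y i) = Pz ((al q k).act (a / b)) ∧
      Ob (N i) ((al q k).a * a + (al q k).b * b) ((al q k).c * a + (al q k).d * b) := fun i => by
    obtain ⟨A, h3, -, h5, h6, h7⟩ := LtA.sub h h0 (h1 i).1 (h1 i).2.1 (h1 i).2.2.1
    obtain ⟨k, hk, γ, hγ, rfl⟩ := Mod.exists_al hq (h3.trans (by rw [(h1 i).2.2.2])) h5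
      fun e => absurd e h15
    have hd : 0 < (al q k).det := by rw [Mod.det_al]; exact_mod_cast hq.pos
    refine ⟨⟨k, by simpa [Mod.hI, h15] using hk⟩, ?_, LtA.cancel hγ.1 h7⟩
    rw [h6, M2.act_mul hγ.det_pos.ne' hd h.1, R1.Pz_act hγ (M2.im_act_pos hd h.1)]
  choose k h2 h3 using key
  exact ⟨.ofBijective k ((Nat.bijective_iff_injective_and_card k).2
    ⟨fun i j e => hN ((h3 i).eq (e ▸ h3 j)), by simp [hc]⟩), h2⟩

/-- the modular equation of level two -/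
theorem IsL.two (hJ : JF) (h : IsL L) {M₁ M₂ M₃ : Lt} (h1 : M₁ ≤ L ∧ M₁.relIndex L = 2)
    (h2 : M₂ ≤ L ∧ M₂.relIndex L = 2) (h3 : M₃ ≤ L ∧ M₃.relIndex L = 2) (h12 : M₁ ≠ M₂)
    (h13 : M₁ ≠ M₃) (h23 : M₂ ≠ M₃) :
    2 ^ 12 * DL M₁ / DL L + 2 ^ 12 * DL M₂ / DL L + 2 ^ 12 * DL M₃ / DL L = -48 ∧
    2 ^ 12 * DL M₁ / DL L * (2 ^ 12 * DL M₂ / DL L) * (2 ^ 12 * DL M₃ / DL L) = -4096 := by
  obtain ⟨a, b, h⟩ := h
  obtain ⟨i, hi, e1⟩ := LtA.two h h1.1 h1.2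
  obtain ⟨j, hj, e2⟩ := LtA.two h h2.1 h2.2
  obtain ⟨k, hk, e3⟩ := LtA.two h h3.1 h3.2
  have n1 : i ≠ j := fun e => h12 (e1.eq (e ▸ e2))
  have n2 : i ≠ k := fun e => h13 (e1.eq (e ▸ e3))
  have n3 : j ≠ k := fun e => h23 (e2.eq (e ▸ e3))
  obtain ⟨hs, hp, -⟩ := hJ.2.1 _ h.1
  rw [← Nat.cast_ofNat (R := ℂ) (n := 2), ← LtA.psi_eq h e1, ← LtA.psi_eq h e2,
    ← LtA.psi_eq h e3]
  interval_cases i <;> interval_cases j <;> interval_cases k <;>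
    first | omega | exact ⟨by linear_combination hs, by linear_combination hp⟩

theorem IsL.cubic (hJ : JF) (h : IsL L) (h1 : M ≤ L) (h2 : M.relIndex L = 2) {t : ℂ}
    (ht : t = 2 ^ 12 * DL M / DL L) :
    t ≠ 0 ∧ (t + 16) ^ 3 = JL L * t ∧ (t + 256) ^ 3 = JL M * t ^ 2 := by
  have hM := h.of_le h1 (by omega)
  have n1 := h.DL_ne
  have n2 := hM.DL_ne
  have h3 : R2.sc (2 : ℕ) L ≤ M := fun x hx => by
    obtain ⟨y, hy, rfl⟩ := mem_sc.1 hx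
    simpa [h2] using M.nsmul_relIndex_mem hy
  have h4 := AddSubgroup.relIndex_mul_relIndex _ M L h3 h1
  rw [h2, (h.sc_nat two_ne_zero).2] at h4
  have h5 := LtA.cubic hJ hM h3 (by omega)
  rw [h.DL_sc (by simp)] at h5
  subst ht
  refine ⟨by simp [n1, n2], LtA.cubic hJ h h1 h2, ?_⟩
  push_cast at h5
  field_simp at h5 ⊢
  linear_combination 2 ^ 24 * h5

theorem io_ii (hT : TAU) (h : IsAlgebraic ℚ z) : io (ii z) = z :=
  Classical.epsilon_spec (p := fun x => io x = z) (hT.2.2.2.1 z h)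

theorem ii_io (x : Om) : ii (io x) = x :=
  io.injective (Classical.epsilon_spec (p := fun y => io y = io x) ⟨x, rfl⟩)

end Pool.Agent.P.MP_8b7eba_nt.R2
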