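import Pool.Agent.P.MP_8b7eba_nt.R2.AllE
import Pool.Agent.P.MP_8b7eba_nt.R2.AllL
import Pool.Agent.P.MP_8b7eba_nt.BSD15.Euler

/-! The converse theorem in rank one. -/

namespace Pool.Agent.P.MP_8b7eba_nt.R2

open BSD15 (Adm)

theorem core (P : Pre) (T : Tate P.w2) (r0 : Rk0 T (P.dl * P.sk) (-P.l * P.d))
    (r1 : Rk1 T P.dl P.d) : (RatP P.dl).Infinite := fun hf => by
  obtain ⟨a, ha, H, hJ⟩ := a_HEEG P
  obtain ⟨D, rfl, rfl, e⟩ := a_DATX P T a ha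
  obtain rfl := eq_of_heq e
  obtain ⟨v, h1, h2⟩ := a_KOLY D H
  exact a_TOP D v h2 ((a_RKT D r0).1 r1)
    ((a_RKT D r0).2 H _ hf h1 (h2.2 _ _ isPsi_one [] List.Pairwise.nil).1) (a_LB D)
    (a_NV D H _ hJ h1)

theorem a_MAINB : MAINB := by
  intro d h1 h2 h3 h4 h5 h6
  by_contra hf
  obtain ⟨w, hw⟩ := a_CA.pl.1 2 Nat.prime_two
  obtain ⟨T⟩ := a_TATE w hw
  obtain ⟨l, l1, -, l2, l3, l4, l5⟩ := a_AUX2 d w T 0 h1 h2 h3 h4 hw
  obtain ⟨sk, hsk⟩ := exists_root (-l : Om) two_ne_zero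
  obtain ⟨dl, hdl⟩ := exists_root (d : Om) two_ne_zero
  have hS := a_SHA d dl h1.ne_zero hdl
  have hfin : (RatP dl).Finite := Set.not_infinite.1 fun h => hf (hS.1 h)
  exact core ⟨l, d, sk, dl, w, l1, l2, h1, h2, l3, l4, hsk, hdl, hw⟩ T
    ((l5 (dl * sk) (by rw [mul_pow, hsk, hdl]; push_cast; ring)).2 h5)
    ((a_CLAS w T dl d hw hdl h2).2 (hS.2 hfin h6)) hfin

theorem sign_fifteen {d : ℤ} (h2 : d % 4 = 1) (h4 : jacobiSym d 5 = -1)
    (h5 : d.sign * jacobiSym d 3 = 1) : jacobiSym (-15) d.natAbs = -1 := by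
  have ho : Odd d.natAbs := Int.natAbs_odd.2 (Int.odd_iff.2 (by omega))
  have e5 : jacobiSym 5 d.natAbs = jacobiSym d.natAbs 5 :=
    jacobiSym.quadratic_reciprocity_one_mod_four (a := 5) rfl ho
  have m5 : jacobiSym (-1) 5 = 1 := by norm_num
  have m3 : jacobiSym (-1) 3 = -1 := by norm_num
  rw [show (-15 : ℤ) = -1 * 3 * 5 by norm_num, jacobiSym.mul_left, jacobiSym.mul_left, e5,
    jacobiSym.at_neg_one ho]
  obtain ⟨n, rfl | rfl⟩ := Int.eq_nat_or_neg d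
  · rw [Int.natAbs_natCast] at *
    have e3 : jacobiSym 3 n = jacobiSym n 3 :=
      jacobiSym.quadratic_reciprocity_one_mod_four' (a := 3) (by decide) (by omega)
    rw [Int.sign_natCast_of_ne_zero (by omega), one_mul] at h5
    rw [e3, h4, h5, ZMod.χ₄_nat_one_mod_four (by omega)]
    rfl
  · rw [Int.natAbs_neg, Int.natAbs_natCast] at *
    have e3 : jacobiSym 3 n = -jacobiSym n 3 :=
      jacobiSym.quadratic_reciprocity_three_mod_four (a := 3) rfl (by omega)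
    rw [Int.sign_neg, Int.sign_natCast_of_ne_zero (by omega), neg_eq_neg_one_mul (n : ℤ),
      jacobiSym.mul_left, m3] at h5
    rw [neg_eq_neg_one_mul, jacobiSym.mul_left, m5, one_mul] at h4
    rw [e3, h4, ZMod.χ₄_nat_three_mod_four (by omega)]
    linear_combination -h5

theorem main (d : ℤ) (h1 : Squarefree d) (h2 : d % 8 = 5) (h5 : d % 5 = 2 ∨ d % 5 = 3)
    (h3 : 0 < d ∧ d % 3 = 1 ∨ d < 0 ∧ d % 3 = 2) :
    4 * (-12987 * d ^ 2) ^ 3 + 27 * (-263466 * d ^ 3) ^ 2 ≠ 0 ∧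
    (∃ f : ℂ → ℂ, BSD15.IsL (-12987 * d ^ 2) (-263466 * d ^ 3) f) ∧
    (∀ f : ℂ → ℂ, BSD15.IsL (-12987 * d ^ 2) (-263466 * d ^ 3) f → f 1 = 0) ∧
    ((∃ k : ℕ, ∀ f : ZMod (2 ^ k) × ZMod (2 ^ k) →+ MP_9c97e9_nt.Sha (Wd d),
      ¬ Function.Injective f) →
      {q : ℚ × ℚ | q.2 ^ 2 = q.1 ^ 3 + ((-12987 * d ^ 2 : ℤ) : ℚ) * q.1 +
        ((-263466 * d ^ 3 : ℤ) : ℚ)}.Infinite) := by
  have c3 : IsCoprime d 3 := ((Int.prime_three.coprime_iff_not_dvd).2 (by omega)).symm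
  have c5 : IsCoprime d 5 :=
    (((Nat.prime_iff_prime_int.1 Nat.prime_five).coprime_iff_not_dvd).2 (by omega)).symm
  have c2 : IsCoprime d 2 := ((Int.prime_two.coprime_iff_not_dvd).2 (by omega)).symm
  have j5 : jacobiSym d 5 = -1 := by
    rw [jacobiSym.mod_left]
    rcases h5 with h | h <;> rw [show d % (5 : ℕ) = _ from h] <;> norm_num
  have j3 : d.sign * jacobiSym d 3 = 1 := by
    rw [jacobiSym.mod_left]
    rcases h3 with ⟨s, h⟩ | ⟨s, h⟩ <;> rw [show d % (3 : ℕ) = _ from h]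
    · rw [Int.sign_eq_one_of_pos s]
      norm_num
    · rw [Int.sign_eq_neg_one_of_neg s]
      norm_num
  have ha : Adm d.natAbs := ⟨Int.squarefree_natAbs.2 h1,
    Int.isCoprime_iff_gcd_eq_one.1 ((c2.mul_right c3).mul_right c5)⟩
  refine ⟨?_, Mod.exists_isL_twist ha (by omega), fun f hf => ?_,
    a_MAINB d h1 h2 (c3.mul_right c5) j5 j3⟩
  · rw [show 4 * (-12987 * d ^ 2) ^ 3 + 27 * (-263466 * d ^ 3) ^ 2 = -6887475360000 * d ^ 6 by ring]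
    exact mul_ne_zero (by norm_num) (pow_ne_zero _ h1.ne_zero)
  · obtain ⟨τ, hτ, L, e2, e3, e5⟩ := Mod.exists_L_chi ha
    rw [BSD15.euler_sum (by omega) ha, BSD15.lam_vanish (by omega) ha
      (sign_fifteen (by omega) j5 j3), Int.cast_zero, zero_mul] at e5
    rw [Mod.isL_unique hf (Mod.isL_twist (D := d) (by omega) e2 e3)]
    exact mul_eq_zero_of_left ((mul_eq_zero.1 e5).resolve_left hτ) _

end Pool.Agent.P.MP_8b7eba_nt.R2
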