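import Pool.Agent.P.MP_8b7eba_nt.R2.AllG
import Pool.Agent.P.MP_8b7eba_nt.R2.Main
import Pool.Agent.P.MP_8b7eba_nt.R1.AuxP

/-! The converse theorem in ranks zero and one. -/

namespace Pool.Agent.P.MP_8b7eba_nt.R2

open BSD15 (Adm lam)

theorem core2 (P : Pre) (T : Tate P.w2) (r1 : Rk1 T P.dl P.d)
    (r2 : Rk1 T (P.dl * P.sk) (-P.l * P.d)) :
    ¬ IsOfFinAddOrder (ZC P.l P.d.natAbs P.d.natAbs) := fun hf => by
  obtain ⟨a, ha, hp⟩ := a_ANT P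
  obtain ⟨H, hN, hy⟩ := a_HEX P a hp
  have hJ := a_JPX P a H ha hp hy
  obtain ⟨D, rfl, rfl, e⟩ := a_DATX P T a ha
  obtain rfl := eq_of_heq e
  obtain ⟨v, h1, h2⟩ := a_KOLY D H
  have hc : Cd D.d.natAbs := ⟨Int.natAbs_ne_zero.2 D.sq.ne_zero,
    Int.isCoprime_iff_gcd_eq_one.1 D.cop.of_mul_right_left⟩
  have ho : Odd D.d.natAbs := Int.natAbs_odd.2 (Int.odd_iff.2 (by have := D.d8; omega))
  refine a_TOP D v h2 (a_PAR D v h2 (a_NV D H _ hJ h1) (a_PAR1 D r1 r2))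
    (a_KZ D H _ h1 fun k => ?_) (a_LB D) (a_NV D H _ hJ h1)
  rw [a_TOR D H k hN hy]
  exact a_TR2 D.l _ hc ho hf (k + 2) _ (by simp [Dat.ck])

theorem adm_of {d : ℤ} (h1 : Squarefree d) (h2 : d % 8 = 5) (h3 : IsCoprime d 15) :
    Adm d.natAbs := by
  have c2 : IsCoprime d 2 := ((Int.prime_two.coprime_iff_not_dvd).2 (by omega)).symm
  exact ⟨Int.squarefree_natAbs.2 h1, Int.isCoprime_iff_gcd_eq_one.1 (c2.mul_right h3)⟩

theorem j5_of {d : ℤ} (h5 : d % 5 = 2 ∨ d % 5 = 3) : jacobiSym d 5 = -1 := by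
  rw [jacobiSym.mod_left]
  rcases h5 with h | h <;> rw [show d % (5 : ℕ) = _ from h] <;> norm_num

theorem cop_of {d : ℤ} (h5 : d % 5 = 2 ∨ d % 5 = 3) (h3 : ¬ 3 ∣ d) : IsCoprime d 15 := by
  have c3 : IsCoprime d 3 := ((Int.prime_three.coprime_iff_not_dvd).2 h3).symm
  have c5 : IsCoprime d 5 :=
    (((Nat.prime_iff_prime_int.1 Nat.prime_five).coprime_iff_not_dvd).2 (by omega)).symm
  exact c3.mul_right c5

theorem ec_of {d : ℤ} (h5 : d % 5 = 2 ∨ d % 5 = 3) (h3 : d.natAbs % 3 = 2) : Ec d.natAbs :=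
  ⟨h3, by clear h3; omega⟩

theorem mod4_of {d : ℤ} (h2 : d % 8 = 5) : d.natAbs % 4 = 1 ∨ d.natAbs % 4 = 3 := by omega

/-- an auxiliary prime for which the twisted Heegner point has infinite order -/
theorem exists_ir {w : Pl} (hw : w.p = 2) (T : Tate w) {d : ℤ} (h1 : Squarefree d) (h2 : d % 8 = 5)
    (h5 : d % 5 = 2 ∨ d % 5 = 3) (h3 : d.natAbs % 3 = 2) {dl : Om} (hdl : dl ^ 2 = d)
    (r : Rk1 T dl d) (B : ℕ) : ∃ l, B < l ∧ Ir l d.natAbs := by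
  have c := cop_of h5 (by omega)
  obtain ⟨l, l1, l0, l2, l3, l4, l5⟩ := a_AUX2 d w T B h1 h2 c (j5_of h5) hw
  obtain ⟨sk, hsk⟩ := exists_root (-l : Om) two_ne_zero
  let P : Pre := ⟨l, d, sk, dl, w, l1, l2, h1, h2, l3, l4, hsk, hdl, hw⟩
  have : Hl l := instHlL P
  refine ⟨l, l0, a_IRX l _ ⟨l1, by omega, adm_of h1 h2 c, fun p hp h => l4 p hp ?_⟩ (ec_of h5 h3)
    (core2 P T r (l5 (dl * sk) (by rw [mul_pow, hsk, hdl]; push_cast; ring)).1)⟩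
  have := Int.natCast_dvd_natCast.2 h
  rwa [Nat.cast_mul, Int.natCast_natAbs, Nat.cast_ofNat, ← abs_of_pos (show (0 : ℤ) < 15 by norm_num),
    ← abs_mul, dvd_abs] at this

theorem mod_of_jac {l : ℕ} (h3 : jacobiSym (-l) 3 = 1) (h5 : jacobiSym (-l) 5 = 1) :
    l % 3 = 2 ∧ (l % 5 = 1 ∨ l % 5 = 4) := by
  rw [jacobiSym.mod_left] at h3 h5
  constructor
  · have : l % 3 = 0 ∨ l % 3 = 1 ∨ l % 3 = 2 := by omega
    rcases this with h | h | h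
    · rw [show (-l : ℤ) % (3 : ℕ) = 0 by omega] at h3
      norm_num at h3
    · rw [show (-l : ℤ) % (3 : ℕ) = 2 by omega] at h3
      norm_num at h3
    · exact h
  · have : l % 5 = 0 ∨ l % 5 = 1 ∨ l % 5 = 2 ∨ l % 5 = 3 ∨ l % 5 = 4 := by omega
    rcases this with h | h | h | h | h
    · rw [show (-l : ℤ) % (5 : ℕ) = 0 by omega] at h5
      norm_num at h5
    · exact .inl h
    · rw [show (-l : ℤ) % (5 : ℕ) = 3 by omega] at h5
      norm_num at h5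
    · rw [show (-l : ℤ) % (5 : ℕ) = 2 by omega] at h5
      norm_num at h5
    · exact .inr h

/-- a twist with small Selmer group in the given residue class -/
theorem exists_ref {w : Pl} (hw : w.p = 2) (T : Tate w) (t : ℕ) (ht : t = 1 ∨ t = 3) (B : ℕ) :
    ∃ (p l : ℕ) (d : ℤ) (dl : Om), p.Prime ∧ l.Prime ∧ B < p ∧ B < l ∧ d.natAbs = l * p ∧
      Squarefree d ∧ d % 8 = 5 ∧ (d % 5 = 2 ∨ d % 5 = 3) ∧ d.natAbs % 3 = 2 ∧ d.natAbs % 4 = t ∧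
      dl ^ 2 = d ∧ Rk1 T dl d := by
  obtain ⟨p, hB, hp, hm⟩ := Nat.forall_exists_prime_gt_and_modEq (q := 120) B
    (a := if t = 1 then 43 else 13) (by norm_num) (by split_ifs <;> norm_num)
  obtain ⟨e, he, h8, h5, h3⟩ : ∃ e : ℤ, e.natAbs = p ∧ e % 8 = 5 ∧ (e % 5 = 2 ∨ e % 5 = 3) ∧
      ¬ 3 ∣ e := by
    rcases ht with rfl | rfl
    · have : p % 120 = 43 := hm
      exact ⟨-p, by simp, by omega, by omega, by omega⟩
    · have : p % 120 = 13 := hm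
      exact ⟨p, by simp, by omega, by omega, by omega⟩
  have hs : Squarefree e := Int.squarefree_natAbs.1 (he ▸ hp.squarefree)
  obtain ⟨l, l1, l0, l2, l3, l4, l5⟩ := a_AUX2 e w T B hs h8 (cop_of h5 h3) (j5_of h5) hw
  obtain ⟨dl, hdl⟩ := exists_root ((-l * e : ℤ) : Om) two_ne_zero
  obtain ⟨m3, m5⟩ := mod_of_jac (l4 3 Nat.prime_three ⟨5 * e, by push_cast; ring⟩)
    (l4 5 Nat.prime_five ⟨3 * e, by push_cast; ring⟩)
  have hl : Prime (l : ℤ) := Nat.prime_iff_prime_int.1 l1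
  have e1 : (-l * e : ℤ).natAbs = l * p := by rw [Int.natAbs_mul, he]; simp
  have p3 : p % 3 = 1 ∧ p % 4 = (t + 2) % 4 := by
    rcases ht with rfl | rfl
    · have : p % 120 = 43 := hm
      omega
    · have : p % 120 = 13 := hm
      omega
  refine ⟨p, l, -l * e, dl, hp, l1, hB, l0, e1,
    squarefree_mul_iff.2 ⟨(l3.of_mul_right_right.symm.neg_left).isRelPrime, hl.neg.squarefree, hs⟩,
    ?_, ?_, ?_, ?_, hdl, (l5 dl hdl).1⟩
  · rw [Int.mul_emod, h8, show (-l : ℤ) % 8 = 1 by omega]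
    norm_num
  · rw [Int.mul_emod]
    rcases m5 with m | m
    · rw [show (-l : ℤ) % 5 = 4 by omega]
      rcases h5 with h | h <;> rw [h] <;> norm_num
    · rw [show (-l : ℤ) % 5 = 1 by omega]
      rcases h5 with h | h <;> rw [h] <;> norm_num
  · rw [e1, Nat.mul_mod, m3, p3.1]
  · rw [e1, Nat.mul_mod, p3.2, show l % 4 = 3 by omega]
    rcases ht with rfl | rfl <;> norm_num

theorem lam_ne {w : Pl} (hw : w.p = 2) (T : Tate w) {d : ℤ} (h1 : Squarefree d) (h2 : d % 8 = 5)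
    (h5 : d % 5 = 2 ∨ d % 5 = 3) (h3 : d.natAbs % 3 = 2) {dl : Om} (hdl : dl ^ 2 = d)
    (r : Rk1 T dl d) : lam d.natAbs ≠ 0 := by
  obtain ⟨l, -, hl⟩ := exists_ir hw T h1 h2 h5 h3 hdl r 0
  obtain ⟨p, l₀, d₁, dl₁, a1, a2, a3, a4, a5, a6, a7, a8, a9, a10, a11, a12⟩ :=
    exists_ref hw T (d.natAbs % 4) (mod4_of h2) (l * d.natAbs)
  obtain ⟨l₁, b1, b2⟩ := exists_ir hw T a6 a7 a8 a9 a11 a12 (l * d.natAbs)
  have h0 : l * d.natAbs ≠ 0 := mul_ne_zero hl.1.lp.ne_zero (Int.natAbs_ne_zero.2 h1.ne_zero)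
  have e1 := ec_of h5 h3
  have e2 := ec_of a8 a9
  have c1 := (Nat.coprime_of_lt_prime h0 b1 b2.1.lp).symm
  have c2 := (Nat.coprime_of_lt_prime h0 a4 a2).symm
  have c3 := (Nat.coprime_of_lt_prime h0 a3 a1).symm
  refine a_GKF l _ l₁ _ hl b2 e1 e2 a10.symm ?_
  rw [a5]
  exact Nat.Coprime.mul_right c1 (Nat.Coprime.mul_right c2 c3)

theorem main2 (d : ℤ) (h1 : Squarefree d) (h2 : d % 8 = 5) (h5 : d % 5 = 2 ∨ d % 5 = 3)
    (h3 : ¬ 3 ∣ d)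
    (h6 : ∃ k : ℕ, ∀ f : ZMod (2 ^ k) × ZMod (2 ^ k) →+ MP_9c97e9_nt.Sha (Wd d),
      ¬ Function.Injective f) {f : ℂ → ℂ}
    (hf : BSD15.IsL (-12987 * d ^ 2) (-263466 * d ^ 3) f) (h0 : f 1 = 0) :
    {q : ℚ × ℚ | q.2 ^ 2 = q.1 ^ 3 + ((-12987 * d ^ 2 : ℤ) : ℚ) * q.1 +
      ((-263466 * d ^ 3 : ℤ) : ℚ)}.Infinite := by
  by_cases h : d.natAbs % 3 = 2
  · by_contra hi
    obtain ⟨w, hw⟩ := a_CA.pl.1 2 Nat.prime_two
    obtain ⟨T⟩ := a_TATE w hw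
    obtain ⟨dl, hdl⟩ := exists_root (d : Om) two_ne_zero
    have hS := a_SHA d dl h1.ne_zero hdl
    have hfin : (RatP dl).Finite := Set.not_infinite.1 fun h => hi (hS.1 h)
    have ha := adm_of h1 h2 (cop_of h5 h3)
    refine Mod.isL_twist_ne_zero ha (by omega) ?_ hf h0
    rw [BSD15.euler_sum (by omega) ha]
    exact mul_ne_zero (Int.cast_ne_zero.2 (lam_ne hw T h1 h2 h5 h hdl
      ((a_CLAS w T dl d hw hdl h2).2 (hS.2 hfin h6)))) (BSD15.euler_unit_ne _)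
  · exact (main d h1 h2 h5 (by omega)).2.2.2 h6

end Pool.Agent.P.MP_8b7eba_nt.R2
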