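import Pool.Agent.P.MP_8b7eba_nt.R2.DefsB
import Pool.Agent.P.MP_8b7eba_nt.R2.Nrm

/-! Basic properties of patched cochains. -/

namespace Pool.Agent.P.MP_8b7eba_nt.R2

open scoped NNReal Matrix
open Filter Topology

/-! ### The ultrafilter -/

theorem UF_le : (UF : Filter ℕ) ≤ atTop := by
  exact Nat.hyperfilter_le_atTop

theorem ev_ge (n : ℕ) : ∀ᶠ k in UF, n ≤ k := by
  exact UF_le (eventually_ge_atTop n)

theorem ev_or {p q : ℕ → Prop} (h : ∀ᶠ k in UF, p k ∨ q k) :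
    (∀ᶠ k in UF, p k) ∨ ∀ᶠ k in UF, q k := by
  exact Ultrafilter.eventually_or.1 h

theorem ev_not {p : ℕ → Prop} : (¬ ∀ᶠ k in UF, p k) ↔ ∀ᶠ k in UF, ¬ p k := by
  exact Ultrafilter.eventually_not.symm

theorem ev_const {α : Type} {s : Set α} (hs : s.Finite) {f : ℕ → α} (h : ∀ᶠ k in UF, f k ∈ s) :
    ∃ a ∈ s, ∀ᶠ k in UF, f k = a := by
  refine (Ultrafilter.finite_biUnion_mem_iff (s := fun a => {k | f k = a}) hs).1 ?_
  exact mem_of_superset h fun k hk => Set.mem_biUnion hk rfl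

theorem ev_choice {α : Type} [Nonempty α] {p : ℕ → α → Prop}
    (h : ∀ f : ℕ → α, ∀ᶠ k in UF, p k (f k)) : ∀ᶠ k in UF, ∀ a, p k a := by
  classical
  refine (h fun k => Classical.epsilon fun a => ¬ p k a).mono fun k hk a => ?_
  by_contra e
  exact Classical.epsilon_spec (p := fun a => ¬ p k a) ⟨a, e⟩ hk

theorem ev_diag {p : ℕ → ℕ → Prop} (h : ∀ i, ∀ᶠ k in UF, p i k) :
    ∃ i : ℕ → ℕ, Tendsto i UF atTop ∧ ∀ᶠ k in UF, ∀ j ≤ i k, p j k := by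
  classical
  have h1 : ∀ n, ∀ᶠ k in UF, ∀ j ≤ n, p j k := fun n => by
    simpa using (eventually_all_finset (Finset.Iic n)).2 fun j _ => h j
  refine ⟨fun k => Nat.findGreatest (fun i => ∀ j ≤ i, p j k) k, tendsto_atTop.2 fun n => ?_, ?_⟩
  · filter_upwards [h1 n, ev_ge n] with k a b using Nat.le_findGreatest b a
  · filter_upwards [h1 0] with k a
    exact Nat.findGreatest_spec (P := fun i => ∀ j ≤ i, p j k) (Nat.zero_le k) a

variable {H H' : ℕ → Subgroup GQ} {G G' : Subgroup GQ}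

theorem mem_St {g : GS} : g ∈ St H ↔ ∀ᶠ k in UF, g k ∈ H k := Iff.rfl

theorem cs_mem {g : GQ} : cs g ∈ S1 G ↔ g ∈ G := by
  exact eventually_const (f := (UF : Filter ℕ)) (p := g ∈ G)

theorem cs_mul (g h : GQ) : cs (g * h) = cs g * cs h := rfl

theorem cs_inv (g : GQ) : cs g⁻¹ = (cs g)⁻¹ := rfl

theorem cs_one : cs 1 = 1 := rfl

theorem St_mono (h : ∀ᶠ k in UF, H' k ≤ H k) : St H' ≤ St H := by
  exact fun _ hg => (h.and hg).mono fun _ a => a.1 a.2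

theorem S1_mono (h : G' ≤ G) : S1 G' ≤ S1 G := by
  exact St_mono (.of_forall fun _ => h)

theorem S1_top : S1 ⊤ = ⊤ := by
  exact eq_top_iff.2 fun _ _ => Eventually.of_forall fun _ => trivial

theorem St_exists {g : GS} (hg : g ∈ St H) : ∃ g' : GS, (∀ k, g' k ∈ H k) ∧ ∀ᶠ k in UF, g' k = g k := by
  classical
  refine ⟨fun k => if g k ∈ H k then g k else 1, fun k => ?_, hg.mono fun k a => if_pos a⟩
  by_cases a : g k ∈ H k
  · simpa only [if_pos a] using a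
  · simpa only [if_neg a] using (H k).one_mem

theorem ev_forall₃ {H'' : ℕ → Subgroup GQ} {p : ℕ → GQ → GQ → GQ → Prop}
    (h : ∀ g ∈ St H, ∀ g' ∈ St H', ∀ g'' ∈ St H'', ∀ᶠ k in UF, p k (g k) (g' k) (g'' k)) :
    ∀ᶠ k in UF, ∀ g ∈ H k, ∀ g' ∈ H' k, ∀ g'' ∈ H'' k, p k g g' g'' := by
  classical
  let t : (ℕ → Subgroup GQ) → GS → GS := fun K g k => if g k ∈ K k then g k else 1
  have ht : ∀ K g, t K g ∈ St K := fun K g => Eventually.of_forall fun k => by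
    by_cases a : g k ∈ K k
    · simpa only [t, if_pos a] using a
    · simpa only [t, if_neg a] using (K k).one_mem
  refine (ev_choice (p := fun k (a : GQ × GQ × GQ) => a.1 ∈ H k → a.2.1 ∈ H' k → a.2.2 ∈ H'' k →
    p k a.1 a.2.1 a.2.2) fun f => ?_).mono fun k a g hg g' hg' g'' hg'' => a (g, g', g'') hg hg' hg''
  refine (h _ (ht H fun k => (f k).1) _ (ht H' fun k => (f k).2.1) _
    (ht H'' fun k => (f k).2.2)).mono fun k a h1 h2 h3 => ?_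
  simpa only [t, if_pos h1, if_pos h2, if_pos h3] using a

theorem ev_forall {p : ℕ → GQ → Prop} (h : ∀ g ∈ St H, ∀ᶠ k in UF, p k (g k)) :
    ∀ᶠ k in UF, ∀ g ∈ H k, p k g := by
  refine (ev_forall₃ (H' := H) (H'' := H) (p := fun k g _ _ => p k g)
    fun g hg _ _ _ _ => h g hg).mono fun k a g hg => a g hg g hg g hg

theorem ev_forall₂ {p : ℕ → GQ → GQ → Prop}
    (h : ∀ g ∈ St H, ∀ g' ∈ St H', ∀ᶠ k in UF, p k (g k) (g' k)) :
    ∀ᶠ k in UF, ∀ g ∈ H k, ∀ g' ∈ H' k, p k g g' := by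
  refine (ev_forall₃ (H'' := H) (p := fun k g g' _ => p k g g')
    fun g hg g' hg' _ _ => h g hg g' hg').mono fun k a g hg g' hg' => a g hg g' hg' g hg

theorem ul_eq {W : Type} [TopologicalSpace W] [Nonempty W] [T2Space W] {f : ℕ → W} {a : W}
    (h : Tendsto f UF (𝓝 a)) : ul f = a := by
  exact h.limUnder_eq

theorem ul_congr {W : Type} [TopologicalSpace W] [Nonempty W] {f f' : ℕ → W}
    (h : ∀ᶠ k in UF, f k = f' k) : ul f = ul f' := by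
  exact congrArg lim (map_congr h)

theorem tendsto_ul_int (f : ℕ → ℤ_[2]) : Tendsto f UF (𝓝 (ul f)) := by
  obtain ⟨a, -, h⟩ := isCompact_univ.ultrafilter_le_nhds (UF.map f) (by simp)
  exact tendsto_nhds_limUnder ⟨a, h⟩

variable {W W' : Type} [NormedAddCommGroup W] [NormedSpace ℚ_[2] W] [NormedAddCommGroup W']
  [NormedSpace ℚ_[2] W'] {r : GQ → W →ₗ[ℚ_[2]] W} {r' : GQ → W' →ₗ[ℚ_[2]] W'}
  {c c' : ℕ → GQ → W} {x y : GS → W}

theorem PatA.add_le {a b a' b' : W} {ε : ℝ} (h : ‖a - a'‖ ≤ ε / 2) (h' : ‖b - b'‖ ≤ ε / 2) :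
    ‖a + b - (a' + b')‖ ≤ ε := by
  rw [add_sub_add_comm, ← add_halves ε]
  exact norm_add_le_of_le h h'

theorem PatA.bound [FiniteDimensional ℚ_[2] W] (L : W →ₗ[ℚ_[2]] W') :
    ∃ C : ℝ, 0 < C ∧ ∀ v, ‖L v‖ ≤ C * ‖v‖ :=
  (LinearMap.toContinuousLinearMap L).bound

theorem PatA.near {f f' : ℕ → W} {a : W} (h : Tendsto f UF (𝓝 a)) (h' : Tendsto f' UF (𝓝 a))
    {ε : ℝ} (hε : 0 < ε) : ∀ᶠ k in UF, ‖f k - f' k‖ ≤ ε :=
  (h.sub h').norm.eventually_le_const (by simpa using hε)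

theorem tendsto_ul [FiniteDimensional ℚ_[2] W] {f : ℕ → W} {B : ℝ} (h : ∀ᶠ k in UF, ‖f k‖ ≤ B) :
    Tendsto f UF (𝓝 (ul f)) := by
  have := FiniteDimensional.proper ℚ_[2] W
  obtain ⟨a, -, h⟩ := (isCompact_closedBall (0 : W) B).ultrafilter_le_nhds (UF.map f)
    (le_principal_iff.2 (h.mono fun k a => mem_closedBall_zero_iff.2 a))
  exact tendsto_nhds_limUnder ⟨a, h⟩

/-! ### Uniform continuity -/

theorem Sm.uc {a : GQ → W} (h : Sm G a) : Uc G a := by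
  obtain ⟨N, h1, h2⟩ := h
  exact fun ε hε => ⟨N, h1, fun g hg n hn m => by
    rw [h2 g hg n hn m, sub_self, norm_zero]; exact hε.le⟩

theorem Uc.mono {a : GQ → W} (h : Uc G a) (h' : G' ≤ G) : Uc G' a := by
  intro ε hε
  obtain ⟨N, h1, h2⟩ := h ε hε
  exact ⟨N, h1, fun g hg n hn => h2 g (h' hg) n (h' hn)⟩

theorem Uc.congr {a b : GQ → W} (h : Uc G a) (e : ∀ g ∈ G, b g = a g) : Uc G b := by
  intro ε hε
  obtain ⟨N, h1, h2⟩ := h ε hε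
  exact ⟨N, h1, fun g hg n hn m => by
    rw [e g hg, e _ (G.mul_mem hg hn)]; exact h2 g hg n hn m⟩

theorem Uc.add {a b : GQ → W} (h : Uc G a) (h' : Uc G b) : Uc G (a + b) := by
  intro ε hε
  obtain ⟨N, h1, h2⟩ := h _ (half_pos hε)
  obtain ⟨N', h3, h4⟩ := h' _ (half_pos hε)
  exact ⟨_, h1.inf h3, fun g hg n hn m => PatA.add_le (h2 g hg n hn m.1) (h4 g hg n hn m.2)⟩

theorem Uc.map [FiniteDimensional ℚ_[2] W] {a : GQ → W} (h : Uc G a) (L : W →ₗ[ℚ_[2]] W') :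
    Uc G fun g => L (a g) := by
  obtain ⟨C, hC, hL⟩ := PatA.bound L
  intro ε hε
  obtain ⟨N, h1, h2⟩ := h _ (div_pos hε hC)
  refine ⟨N, h1, fun g hg n hn m => ?_⟩
  rw [← map_sub]
  exact (hL _).trans ((le_div_iff₀' hC).1 (h2 g hg n hn m))

theorem Uc.bdd {a : GQ → W} (h : Uc G a) : ∃ B : ℝ, ∀ g ∈ G, ‖a g‖ ≤ B := by
  obtain ⟨N, h1, h2⟩ := h 1 one_pos
  obtain ⟨T, h3, h4⟩ := BasicS.rep h1 G
  obtain ⟨B, hB⟩ := (h3.image fun g => ‖a g‖).bddAbove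
  refine ⟨B + 1, fun g hg => ?_⟩
  obtain ⟨n, hn, m, e⟩ := h4 g hg
  have := norm_sub_norm_le (a g) (a (g * n))
  rw [norm_sub_rev] at this
  linarith [h2 g hg n hn m, hB ⟨_, e, rfl⟩]

theorem Uc.left {a : GQ → W} (h : Uc G a) {ε : ℝ} (hε : 0 < ε) : ∃ N, ON N ∧ ∀ g ∈ G, ∀ n ∈ G,
    n ∈ N → ‖a (g * n) - a g‖ ≤ ε ∧ ‖a (n * g) - a g‖ ≤ ε := by
  obtain ⟨N, h1, h2⟩ := h ε hε
  refine ⟨N, h1, fun g hg n hn m => ⟨h2 g hg n hn m, ?_⟩⟩
  rw [show n * g = g * (g⁻¹ * n * g) by group]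
  exact h2 g hg _ (mul_mem (mul_mem (inv_mem hg) hn) hg) (h1.1.conj_mem' n m g)

theorem Uc.conj {a : GQ → W} (h : Uc G a) (u u' : GQ) (hu : u * u' = 1)
    (e : ∀ g ∈ G', u * g * u' ∈ G) : Uc G' fun g => a (u * g * u') := by
  intro ε hε
  obtain ⟨N, h1, h2⟩ := h ε hε
  obtain rfl := eq_inv_of_mul_eq_one_right hu
  refine ⟨N, h1, fun g hg n hn m => ?_⟩
  have := h2 _ (e g hg) _ (e n hn) (h1.1.conj_mem n m u)
  rwa [show u * g * u⁻¹ * (u * n * u⁻¹) = u * (g * n) * u⁻¹ by group] at this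

theorem Uc.sm {A : Type} {a : GQ → W} (h : Uc G a) (F : W → A) {ε : ℝ} (hε : 0 < ε)
    (hF : ∀ v v', ‖v - v'‖ ≤ ε → F v = F v') : Sm G fun g => F (a g) := by
  obtain ⟨N, h1, h2⟩ := h ε hε
  exact ⟨N, h1, fun g hg n hn m => hF _ _ (h2 g hg n hn m)⟩

theorem Uc2.sm2 {A : Type} {b : GQ → GQ → W} (h : Uc2 G b) (F : W → A) {ε : ℝ} (hε : 0 < ε)
    (hF : ∀ v v', ‖v - v'‖ ≤ ε → F v = F v') : Sm2 G fun g h => F (b g h) := by
  obtain ⟨N, h1, h2⟩ := h ε hε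
  exact ⟨N, h1, fun g hg k hk n hn m =>
    ⟨hF _ _ (h2 g hg k hk n hn m).1, hF _ _ (h2 g hg k hk n hn m).2⟩⟩

theorem Rep.mono (h : Rep G r) (h' : G' ≤ G) : Rep G' r := by
  refine ⟨h.one, fun g hg k hk => h.mul g (h' hg) k (h' hk), h.le, fun ε hε => ?_,
    fun g hg => h.pow g (h' hg)⟩
  obtain ⟨N, h1, h2⟩ := h.sm ε hε
  exact ⟨N, h1, fun n hn => h2 n (h' hn)⟩

theorem rep_id : Rep G fun _ => (LinearMap.id : W →ₗ[ℚ_[2]] W) := by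
  refine ⟨fun _ => rfl, fun _ _ _ _ _ => rfl, fun _ _ => le_rfl,
    fun ε hε => ⟨⊤, ON.top, fun _ _ _ v => ?_⟩, fun _ _ ε hε => ⟨0, fun v => ?_⟩⟩ <;>
  · rw [LinearMap.id_apply, sub_self, norm_zero]
    positivity

theorem Rep.norm (h : Rep G r) {g : GQ} (hg : g ∈ G) (v : W) : ‖r g v‖ = ‖v‖ := by
  refine (h.le g v).antisymm ?_
  have := h.le g⁻¹ (r g v)
  rwa [← h.mul _ (inv_mem hg) _ hg, inv_mul_cancel, h.one] at this

theorem Rep.uc (h : Rep G r) {a : GQ → W} (ha : Uc G a) : Uc G fun g => r g (a g) := by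
  intro ε hε
  obtain ⟨B, hB⟩ := ha.bdd
  have hB0 : 0 < B + 1 := by linarith [hB 1 G.one_mem, norm_nonneg (a 1)]
  obtain ⟨N, h1, h2⟩ := ha _ (half_pos hε)
  obtain ⟨N', h3, h4⟩ := h.sm _ (div_pos (half_pos hε) hB0)
  refine ⟨_, h1.inf h3, fun g hg n hn m => ?_⟩
  beta_reduce
  rw [h.mul g hg n hn, ← map_sub, h.norm hg, ← sub_add_sub_cancel _ (a (g * n)), ← add_halves ε]
  refine (norm_add_le _ _).trans (add_le_add ((h4 n hn m.2 _).trans ?_) (h2 g hg n hn m.1))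
  rw [div_mul_eq_mul_div, div_le_iff₀ hB0]
  exact mul_le_mul_of_nonneg_left ((hB _ (G.mul_mem hg hn)).trans (by linarith)) (half_pos hε).le

/-- a cocycle which vanishes near the identity is uniformly continuous -/
theorem uc_of_cocycle (h : Rep G r) {a : GQ → W} (hc : ∀ g ∈ G, ∀ g' ∈ G, a (g * g') = a g + r g (a g'))
    (h1 : ∀ ε : ℝ, 0 < ε → ∃ N, ON N ∧ ∀ n ∈ G, n ∈ N → ‖a n‖ ≤ ε) : Uc G a := by
  intro ε hε
  obtain ⟨N, h2, h3⟩ := h1 ε hε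
  exact ⟨N, h2, fun g hg n hn m => by
    rw [hc g hg n hn, add_sub_cancel_left, h.norm hg]; exact h3 n hn m⟩

/-! ### Approximations -/

theorem Ap.germ (h : Ap H c x) {g g' : GS} (hg : g ∈ St H) (e : ∀ᶠ k in UF, g' k = g k) :
    x g' = x g := by
  have hg' : g' ∈ St H := (e.and hg).mono fun k a => a.1 ▸ a.2
  exact tendsto_nhds_unique (h.lim g' hg')
    ((h.lim g hg).congr' (e.mono fun k a => by simp only [a]))

theorem Ap.near (h : Ap H c x) (h' : Ap H c' y) (e : ∀ g ∈ St H, x g = y g) {ε : ℝ} (hε : 0 < ε) :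
    ∀ᶠ k in UF, ∀ g ∈ H k, ‖c k g - c' k g‖ ≤ ε := by
  exact ev_forall fun g hg => PatA.near (h.lim g hg) (e g hg ▸ h'.lim g hg) hε

theorem Ap.small (h : Ap H c x) (h' : ∀ᶠ k in UF, H' k ≤ H k) (e : ∀ g ∈ St H', x g = 0) {ε : ℝ}
    (hε : 0 < ε) : ∀ᶠ k in UF, ∀ g ∈ H' k, ‖c k g‖ ≤ ε := by
  refine ev_forall fun g hg => ?_
  simpa [e g hg] using PatA.near (h.lim g (St_mono h' hg)) tendsto_const_nhds hε

theorem Ap.mono (h : Ap H c x) (h' : ∀ k, H' k ≤ H k) : Ap H' c x := by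
  exact ⟨h.bd, fun k => (h.uc k).mono (h' k),
    fun g hg => h.lim g (St_mono (.of_forall h') hg)⟩

theorem Ap.congr (h : Ap H c x) (e : ∀ g ∈ St H, y g = x g) : Ap H c y := by
  exact ⟨h.bd, h.uc, fun g hg => e g hg ▸ h.lim g hg⟩

theorem Ap.add (h : Ap H c x) (h' : Ap H c' y) : Ap H (c + c') (x + y) := by
  obtain ⟨B, hB⟩ := h.bd
  obtain ⟨B', hB'⟩ := h'.bd
  exact ⟨⟨B + B', fun k g => norm_add_le_of_le (hB k g) (hB' k g)⟩, fun k => (h.uc k).add (h'.uc k),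
    fun g hg => (h.lim g hg).add (h'.lim g hg)⟩

theorem Ap.map [FiniteDimensional ℚ_[2] W] (h : Ap H c x) (L : W →ₗ[ℚ_[2]] W') :
    Ap H (fun k g => L (c k g)) fun g => L (x g) := by
  obtain ⟨B, hB⟩ := h.bd
  obtain ⟨C, hC, hL⟩ := PatA.bound L
  exact ⟨⟨C * B, fun k g => (hL _).trans (mul_le_mul_of_nonneg_left (hB k g) hC.le)⟩,
    fun k => (h.uc k).map L,
    fun g hg => (L.continuous_of_finiteDimensional.tendsto _).comp (h.lim g hg)⟩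

theorem Ap.bdd (h : Ap H c x) : ∃ B : ℝ, ∀ g ∈ St H, ‖x g‖ ≤ B := by
  obtain ⟨B, hB⟩ := h.bd
  exact ⟨B, fun g hg => le_of_tendsto' (h.lim g hg).norm fun k => hB k _⟩

theorem ap_ul [FiniteDimensional ℚ_[2] W] {B : ℝ} (hb : ∀ k g, ‖c k g‖ ≤ B)
    (hu : ∀ k, Uc (H k) (c k)) : Ap H c fun g => ul fun k => c k (g k) := by
  exact ⟨⟨B, hb⟩, hu, fun g _ => tendsto_ul (.of_forall fun k => hb k _)⟩

theorem Ap2.near {b b' : ℕ → GQ → GQ → W} {B B' : GS → GS → W} (h : Ap2 H b B) (h' : Ap2 H b' B')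
    (e : ∀ g ∈ St H, ∀ g' ∈ St H, B g g' = B' g g') {ε : ℝ} (hε : 0 < ε) :
    ∀ᶠ k in UF, ∀ g ∈ H k, ∀ g' ∈ H k, ‖b k g g' - b' k g g'‖ ≤ ε := by
  exact ev_forall₂ fun g hg g' hg' =>
    PatA.near (h.lim g hg g' hg') (e g hg g' hg' ▸ h'.lim g hg g' hg') hε

theorem Ap2.mono {b : ℕ → GQ → GQ → W} {B : GS → GS → W} (h : Ap2 H b B) (h' : ∀ k, H' k ≤ H k) :
    Ap2 H' b B := by
  refine ⟨h.bd, fun k ε hε => ?_, fun g hg g' hg' =>
    h.lim g (St_mono (.of_forall h') hg) g' (St_mono (.of_forall h') hg')⟩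
  obtain ⟨N, h1, h2⟩ := h.uc k ε hε
  exact ⟨N, h1, fun g hg l hl n hn => h2 g (h' k hg) l (h' k hl) n (h' k hn)⟩

theorem Ap2.congr {b : ℕ → GQ → GQ → W} {B B' : GS → GS → W} (h : Ap2 H b B)
    (e : ∀ g ∈ St H, ∀ g' ∈ St H, B' g g' = B g g') : Ap2 H b B' := by
  exact ⟨h.bd, h.uc, fun g hg g' hg' => e g hg g' hg' ▸ h.lim g hg g' hg'⟩

theorem tendsto_cS (g : GS) : Tendsto (fun k => cq (g k)) UF (𝓝 (cS g)) := by
  exact tendsto_ul (B := 1) (.of_forall fun k => (cyc (g k) : ℤ_[2]).2)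

theorem PZ2.mono {B : GS → GS → ℚ_[2]} (h : PZ2 H B) (h' : ∀ k, H' k ≤ H k) : PZ2 H' B := by
  obtain ⟨⟨b, hb⟩, h2⟩ := h
  have e := St_mono (.of_forall h')
  exact ⟨⟨b, hb.mono h'⟩, fun g hg k hk l hl => h2 g (e hg) k (e hk) l (e hl)⟩

theorem PZ2.congr {B B' : GS → GS → ℚ_[2]} (h : PZ2 H B)
    (e : ∀ g ∈ St H, ∀ g' ∈ St H, B' g g' = B g g') : PZ2 H B' := by
  obtain ⟨⟨b, hb⟩, h2⟩ := h
  refine ⟨⟨b, hb.congr e⟩, fun g hg k hk l hl => ?_⟩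
  rw [e _ hk _ hl, e _ hg _ (mul_mem hk hl), e _ (mul_mem hg hk) _ hl, e _ hg _ hk]
  exact h2 g hg k hk l hl

theorem PZ2.add {B B' : GS → GS → ℚ_[2]} (h : PZ2 H B) (h' : PZ2 H B') : PZ2 H (B + B') := by
  obtain ⟨⟨b, hb⟩, h2⟩ := h
  obtain ⟨⟨b', hb'⟩, h2'⟩ := h'
  refine ⟨⟨b + b', ?_, fun k ε hε => ?_,
    fun g hg l hl => (hb.lim g hg l hl).add (hb'.lim g hg l hl)⟩, fun g hg k hk l hl => ?_⟩
  · obtain ⟨C, hC⟩ := hb.bd
    obtain ⟨C', hC'⟩ := hb'.bd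
    exact ⟨C + C', fun k g l => norm_add_le_of_le (hC k g l) (hC' k g l)⟩
  · obtain ⟨N, h1, h3⟩ := hb.uc k _ (half_pos hε)
    obtain ⟨N', h4, h5⟩ := hb'.uc k _ (half_pos hε)
    exact ⟨_, h1.inf h4, fun g hg l hl n hn m =>
      ⟨PatA.add_le (h3 g hg l hl n hn m.1).1 (h5 g hg l hl n hn m.2).1,
        PatA.add_le (h3 g hg l hl n hn m.1).2 (h5 g hg l hl n hn m.2).2⟩⟩
  · simp only [Pi.add_apply]
    linear_combination h2 g hg k hk l hl + h2' g hg k hk l hl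

theorem PZ2.smul {B : GS → GS → ℚ_[2]} (h : PZ2 H B) (a : ℚ_[2]) : PZ2 H (a • B) := by
  obtain ⟨⟨b, hb⟩, h2⟩ := h
  refine ⟨⟨a • b, ?_, fun k ε hε => ?_,
    fun g hg l hl => (hb.lim g hg l hl).const_smul a⟩, fun g hg k hk l hl => ?_⟩
  · obtain ⟨C, hC⟩ := hb.bd
    exact ⟨‖a‖ * C, fun k g l => (norm_mul_le _ _).trans
      (mul_le_mul_of_nonneg_left (hC k g l) (norm_nonneg a))⟩
  · have ha : 0 < ‖a‖ + 1 := by positivity
    obtain ⟨N, h1, h3⟩ := hb.uc k _ (div_pos hε ha)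
    have key : ∀ u v : ℚ_[2], ‖u - v‖ ≤ ε / (‖a‖ + 1) → ‖a * u - a * v‖ ≤ ε := fun u v e => by
      rw [← mul_sub, norm_mul]
      exact (mul_le_mul_of_nonneg_right (by linarith) (norm_nonneg _)).trans
        ((le_div_iff₀' ha).1 e)
    exact ⟨N, h1, fun g hg l hl n hn m =>
      ⟨key _ _ (h3 g hg l hl n hn m).1, key _ _ (h3 g hg l hl n hn m).2⟩⟩
  · simp only [Pi.smul_apply, smul_eq_mul]
    linear_combination a * h2 g hg k hk l hl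

theorem PZ2.ac {B : GS → GS → ℚ_[2]} {b : ℕ → GQ → GQ → ℚ_[2]} (h : PZ2 H B) (hb : Ap2 H b B)
    {ε : ℝ} (hε : 0 < ε) : ∀ᶠ k in UF, ∀ g ∈ H k, ∀ g' ∈ H k, ∀ g'' ∈ H k,
      ‖cq g * b k g' g'' + b k g (g' * g'') - b k (g * g') g'' - b k g g'‖ ≤ ε := by
  refine ev_forall₃ fun g hg g' hg' g'' hg'' => ?_
  have := PatA.near (((tendsto_cS g).mul (hb.lim _ hg' _ hg'')).add
    (hb.lim _ hg _ (mul_mem hg' hg''))) (h.2 g hg g' hg' g'' hg'' ▸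
      (hb.lim _ (mul_mem hg hg') _ hg'').add (hb.lim _ hg _ hg')) hε
  simpa only [← sub_sub, Pi.mul_apply] using this

theorem Cob2.congr {B B' : GS → GS → ℚ_[2]} (h : Cob2 H B)
    (e : ∀ g ∈ St H, ∀ g' ∈ St H, B' g g' = B g g') : Cob2 H B' := by
  obtain ⟨s, hs, h2⟩ := h
  exact ⟨s, hs, fun g hg k hk => (e g hg k hk).trans (h2 g hg k hk)⟩

theorem cob2_zero : Cob2 H 0 := by
  exact ⟨0, ⟨0, ⟨0, fun _ _ => norm_zero.le⟩, fun k => (Sm.const 0).uc,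
    fun _ _ => tendsto_const_nhds⟩, fun _ _ _ _ => by simp⟩

theorem Cob2.add {B B' : GS → GS → ℚ_[2]} (h : Cob2 H B) (h' : Cob2 H B') : Cob2 H (B + B') := by
  obtain ⟨s, ⟨c, hc⟩, h2⟩ := h
  obtain ⟨s', ⟨c', hc'⟩, h2'⟩ := h'
  refine ⟨s + s', ⟨_, hc.add hc'⟩, fun g hg k hk => ?_⟩
  simp only [Pi.add_apply]
  linear_combination h2 g hg k hk + h2' g hg k hk

theorem Cob2.smul {B : GS → GS → ℚ_[2]} (h : Cob2 H B) (a : ℚ_[2]) : Cob2 H (a • B) := by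
  obtain ⟨s, ⟨c, hc⟩, h2⟩ := h
  refine ⟨_, ⟨_, hc.map (a • LinearMap.id)⟩, fun g hg k hk => ?_⟩
  simp only [Pi.smul_apply, smul_eq_mul, LinearMap.smul_apply, LinearMap.id_apply]
  linear_combination a * h2 g hg k hk

end Pool.Agent.P.MP_8b7eba_nt.R2
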