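import Pool.Agent.P.MP_8b7eba_nt.R1.Kro
import Pool.Agent.P.MP_8b7eba_nt.R1.Int
import Pool.Agent.P.MP_8b7eba_nt.R1.Unif
import Pool.Agent.P.MP_8b7eba_nt.ModTwist

/-! Hecke correspondences on the modular curve: integrality and the Kronecker congruence. -/

namespace Pool.Agent.P.MP_8b7eba_nt.R2.TFR

open Complex Filter Topology Finset Asymptotics PowerSeries
open _root_.Pool.Agent.P.MP_8b7eba_nt.Mod (M2 G0 FI xx yy qq atI mT al hI)
open _root_.Pool.Agent.P.MP_8b7eba_nt.R1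
open MP_9c97e9_nt (ap)

variable {p : ℕ} {z : ℂ}

theorem ap_an (hp : p.Prime) (h30 : ¬ p ∣ 30) : ap W15 p = Mod.an p := by
  have := Fact.mk hp
  have h5 : 5 < p := by
    by_contra h
    have := hp.two_le
    interval_cases p <;> simp_all (config := {decide := true})
  have h4 : (4 : ZMod p) ≠ 0 := by simpa using Mod.cast_ne h5 (a := 2) (b := 0) (c := 0)
  have e : ∀ q : ZMod p × ZMod p, (W15.baseChange (ZMod p)).toAffine.Equation q.1 q.2 ↔
      q.2 ^ 2 = q.1 ^ 3 - 7 * q.1 ^ 2 - 144 * q.1 := fun q => by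
    rw [WeierstrassCurve.Affine.equation_iff]
    simp [W15, WeierstrassCurve.baseChange, sub_eq_add_neg]
  rw [ap, Mod.an_eq_neg_Sp h5, Mod.Sp]
  simp only [e]
  rw [Mod.card_affine (by omega) fun x => x ^ 3 - 7 * x ^ 2 - 144 * x, sub_add_cancel_left, neg_inj,
    ← Equiv.sum_comp (Equiv.mulLeft₀ 4 h4)]
  refine sum_congr rfl fun t _ => ?_
  rw [← one_mul (quadraticChar (ZMod p) (4 * t ^ 3 - _ - _)), ← quadraticChar_sq_one' h4, ← map_mul]
  congr 1
  simp
  ring

theorem al_pos (hp : p.Prime) (i : ℕ) : 0 < (al p i).det := by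
  rw [Mod.det_al]; exact_mod_cast hp.pos

theorem hecke (hp : p.Prime) (h15 : ¬ p ∣ 15) (hz : 0 < z.im) :
    ∑ i ∈ range (p + 1), Pz ((al p i).act z) = Mod.an p • Pz z := by
  have h := Mod.hecke_FI hp hz
  rw [if_neg h15] at h
  rw [← uu_FI hz, ← map_zsmul, zsmul_eq_mul, ← h, map_add, map_sum, sum_range_succ,
    ← uu_FI (M2.im_act_pos (al_pos hp p) hz)]
  congr 1
  · refine sum_congr rfl fun i hi => ?_
    rw [← uu_FI (M2.im_act_pos (al_pos hp i) hz)]
    simp [al, mem_range.1 hi, M2.act, Mod.mob]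
  · simp [al, M2.act, Mod.mob]

theorem perm {ι : Type} (s : Finset ι) (M : ι → M2) {g : M2} (hg : G0 g)
    (hex : ∀ i ∈ s, ∃ k ∈ s, ∃ γ, G0 γ ∧ M i * g = γ * M k)
    (hinj : ∀ i ∈ s, ∀ k ∈ s, ∀ γ : M2, γ.det = 1 → M i = γ * M k → i = k) :
    ∃ e : ι → ι, Set.BijOn e s s ∧ ∀ i ∈ s, ∃ γ, G0 γ ∧ M i * g = γ * M (e i) := by
  choose! σ hσ u hu e using hex
  refine ⟨σ, (s.finite_toSet.injOn_iff_bijOn_of_mapsTo hσ).1 fun i hi k hk h => ?_,
    fun i hi => ⟨_, hu i hi, e i hi⟩⟩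
  refine hinj i hi k hk (u i * (u k).adj) ((hu i hi).mul (hu k hk).adj).1 ?_
  have := e k hk
  rw [← h] at this
  calc M i = M i * g * g.adj := by rw [mul_assoc, M2.mul_adj hg.1, mul_one]
    _ = u i * ((u k).adj * (u k * M (σ i))) * g.adj := by
      rw [e i hi, ← mul_assoc (u k).adj, M2.adj_mul_self (hu k hk).1, one_mul]
    _ = _ := by
      rw [← this, mul_assoc, mul_assoc, mul_assoc, M2.mul_adj hg.1, mul_one, mul_assoc]

theorem int {m : ℕ} (hm : 0 < m) (h15 : m.Coprime 15) {M : M2} (hM : M.det = m) (hc : 15 ∣ M.c)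
    (hz : 0 < z.im) (hx : IntPt z) : IntPt (M.act z) := by
  have hd : ∀ t ∈ IntR m, 0 < (IntM t).det := fun t ht => by rw [Int_det hm ht]; omega
  obtain ⟨t, ht, γ, hγ, rfl⟩ := Int_exists hm h15 hM hc
  have key : ∀ f, KF 0 f → IsIntegral ℤ (f ((γ * IntM t).act z)) := fun f hf => by
    have hi : ∀ g, G0 g → ∀ z : ℂ, 0 < z.im → f (g.act z) = f z := fun g hg z hz => by
      simpa using hf.inv g hg z hz
    rw [M2.act_mul hγ.det_pos.ne' (hd t ht) hz, hi γ hγ _ (M2.im_act_pos (hd t ht) hz)]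
    refine InP.top.1 (sym_principle hm (IntR m) (fun t z => f ((IntM t).act z)) (P := ⊤)
      (fun _ _ => trivial) (fun t ht => hf.hb.comp (hd t ht) ?_ (by simp [IntM])) (fun t ht => ?_)
      (fun g hg => ?_) hz hx t ht)
    · rw [Int_det hm ht]
      exact Nat.isCoprime_iff_coprime.2 h15
    · obtain ⟨N, A, hA⟩ := hf.exp
      obtain ⟨a, b, d⟩ := t
      obtain ⟨h2, h3⟩ := (Int_mem hm).1 ht
      simp only at h2 h3
      have a0 : 0 < a := Nat.pos_of_ne_zero (by rintro rfl; omega)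
      exact ⟨_, _, (hA.subst (w := m) (e := a * a) (b : ℤ) a0 (show 0 < d by omega) hm
        (by positivity) (by rw [← h2]; ring)).congr fun z _ => by simp [IntM, M2.act, Mod.mob],
        fun _ => trivial⟩
    · obtain ⟨e, he, h⟩ := perm (IntR m) IntM hg (fun t ht => Int_exists hm h15
        (by rw [M2.det_mul, Int_det hm ht, hg.1, mul_one]) (by simpa [IntM] using hg.2.mul_left _))
        fun i hi k hk γ => Int_inj hm hi hk
      refine ⟨e, he, fun i hi' z hz => ?_⟩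
      obtain ⟨u, hu, h⟩ := h i hi'
      rw [← M2.act_mul (hd i hi').ne' hg.det_pos hz, h,
        M2.act_mul hu.det_pos.ne' (hd _ (he.1 hi')) hz, hi u hu _ (M2.im_act_pos (hd _ (he.1 hi')) hz)]
  exact ⟨key _ kf_xx, key _ kf_y1⟩

theorem int_al (hp : p.Prime) (h15 : ¬ p ∣ 15) (hz : 0 < z.im) (hx : IntPt z) (i : ℕ) :
    IntPt ((al p i).act z) :=
  int hp.pos (hp.coprime_iff_not_dvd.2 h15) (Mod.det_al p i) (by rw [kro_al_c]; exact dvd_zero _) hz hx

theorem prod_mem (hp : p.Prime) (h15 : ¬ p ∣ 15) {P : Ideal Zb} (hP : P.IsPrime)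
    (hpP : (p : Zb) ∈ P) (hz : 0 < z.im) (hx : IntPt z) (T l : Zb) :
    InP P (∏ i ∈ range (p + 1), (T - (xx ((al p i).act z) + l * y1 ((al p i).act z))) -
      ((T ^ p : Zb) - (xx z + (l ^ p : Zb) * y1 z)) * (T - (xx z ^ p + l * y1 z ^ p))) := by
  obtain ⟨x, -, hx'⟩ := exists_xx
  obtain ⟨y, -, hy'⟩ := exists_y1
  have hc0 : ∀ i, 15 ∣ (al p i).c := fun i => by rw [kro_al_c]; exact dvd_zero _
  have eI : hI p = range (p + 1) := by rw [hI, if_neg h15]
  have hb : ∀ a b : ℂ, HB fun z => a - (xx z + b * y1 z) := fun a b =>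
    (HB.const a).sub (hb_xx.add ((HB.const b).mul hb_y1))
  refine sym_principle hp.pos (univ : Finset Unit) (fun _ z => ∏ i ∈ range (p + 1),
    (T - (xx ((al p i).act z) + l * y1 ((al p i).act z))) -
      ((T ^ p : Zb) - (xx z + (l ^ p : Zb) * y1 z)) * (T - (xx z ^ p + l * y1 z ^ p))) hP.isRadical
    (fun _ _ => (HB.prod _ fun i _ => (hb T l).comp (al_pos hp i) ?_ (hc0 i)).sub ((hb _ _).mul
      ((HB.const _).sub ((hb_xx.pow p).add ((HB.const _).mul (hb_y1.pow p))))))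
    (fun _ _ => ?_) (fun g hg => ⟨id, Set.bijOn_id _, fun _ _ z hz => ?_⟩) hz hx () (mem_univ _)
  · rw [Mod.det_al]
    exact Nat.isCoprime_iff_coprime.2 (hp.coprime_iff_not_dvd.2 h15)
  · have hA : ∀ a b : Zb, QE 1 3 (X ^ 3 * C a - (X ^ 1 * zs x + C b * zs y))
        fun z => a - (xx z + b * y1 z) := fun a b =>
      ((QE.const 1 a).shift 3).sub ((hx'.shift 1).add (hy'.smul b))
    have h2 : QE 1 (p * 3) (X ^ (p * 3) * C T - ((X ^ 1 * zs x) ^ p + C l * zs y ^ p))
        fun z => T - (xx z ^ p + l * y1 z ^ p) :=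
      (by simpa using (QE.const 1 T).shift (p * 3) : QE 1 (p * 3) _ fun _ => (T : ℂ)).sub
        (((hx'.shift 1).pow one_pos p).add ((hy'.pow one_pos p).smul l))
    have h3 := QE.prod hp.pos (range p) fun i hi => kro_lo hp.pos (hA T l) (mem_range.1 hi)
    rw [sum_const, card_range, smul_eq_mul] at h3
    have h4 := ((hA T l).subst (a := p) (d := 1) (e := p) (w := 1) 0 hp.pos one_pos one_pos
      hp.ne_zero rfl).expand_one hp.ne_zero
    refine ⟨_, _, ((h3.mul hp.pos h4).sub (((hA (T ^ p) (l ^ p)).expand_one hp.ne_zero).mul hp.pos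
      (h2.expand_one hp.ne_zero))).congr fun z _ => ?_, sym_mem_iff.2 ?_⟩
    · rw [prod_range_succ]
      simp [al, M2.act, Mod.mob]
    · have h1 : ∀ a, Ideal.Quotient.mk P (ze p a) = 1 := fun a =>
        (Ideal.Quotient.eq.2 (ze_sub_one_mem hp hP hpP a)).trans (map_one _)
      have : CharP (Zb ⧸ P) p := ringChar.of_eq (CharP.ringChar_of_prime_eq_zero hp
        (by rw [← map_natCast (Ideal.Quotient.mk P)]; exact Ideal.Quotient.eq_zero_iff_mem.2 hpP))
      have : ExpChar (Zb ⧸ P) p := ExpChar.prime hp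
      have h5 : ∀ a b A, PowerSeries.map (Ideal.Quotient.mk P) (C (ze p a) * rescale (ze p b) A) =
          PowerSeries.map (Ideal.Quotient.mk P) A := fun a b A => by
        ext k; simp [coeff_rescale, h1]
      have h6 : ∀ B : (Zb ⧸ P)⟦X⟧, B ^ p =
          expand p hp.ne_zero (PowerSeries.map (frobenius (Zb ⧸ P) p) B) := fun B => by
        rw [← map_expand]; exact (MvPowerSeries.map_frobenius_expand p hp.ne_zero).symm
      have h7 : ∀ u, PowerSeries.map (frobenius (Zb ⧸ P) p)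
          (PowerSeries.map (Ideal.Quotient.mk P) (zs u)) =
          PowerSeries.map (Ideal.Quotient.mk P) (zs u) := fun u => by ext k; simp
      have h8 : ∀ a, ze 1 a = 1 := fun a => by simpa using ze_pow_self one_ne_zero a
      rw [RingHom.mem_ker, map_sub, map_mul, map_mul _ (expand _ _ _) (expand _ _ _), map_prod,
        sub_eq_zero]
      simp only [h5, h8, prod_const, card_range, map_expand, rescale_one, map_one, one_mul,
        RingHom.id_apply]
      refine congrArg₂ _ ((h6 _).trans (congrArg _ ?_)) (congrArg _ ?_)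
      · simp [h7, frobenius_def]
      · simp only [map_sub, map_add, map_mul, map_pow, mul_pow, h6 (PowerSeries.map _ (zs _)), h7]
        simp [← pow_mul, expand_C]
  · obtain ⟨e, he, h⟩ := perm (range (p + 1)) (al p) hg (fun i _ => eI ▸ Mod.exists_al hp
      (by rw [M2.det_mul, Mod.det_al, hg.1, mul_one])
      (dvd_add ((hc0 i).mul_right _) (hg.2.mul_left _)) fun h => absurd h h15)
      fun i hi k hk γ _ => Mod.al_inj hp (eI ▸ hi) (eI ▸ hk)
    simp only [Mod.xx_inv g hg z hz, y1_act hg hz]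
    congr 1
    refine prod_nbij e (fun i hi => he.1 hi) he.2.1 he.2.2 fun i hi => ?_
    obtain ⟨u, hu, h⟩ := h i hi
    have := M2.im_act_pos (al_pos hp (e i)) hz
    rw [← M2.act_mul (al_pos hp i).ne' hg.det_pos hz, h,
      M2.act_mul hu.det_pos.ne' (al_pos hp _) hz, Mod.xx_inv u hu _ this, y1_act hu this]

theorem alg {k ι : Type} [CommRing k] [IsDomain k] [Infinite k] [ExpChar k p] (s : Finset ι)
    (a b : ι → k) (x y : k) (h : ∀ T l : k, ∏ i ∈ s, (T - (a i + l * b i)) =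
      (T ^ p - (x + l ^ p * y)) * (T - (x ^ p + l * y ^ p))) (hp : p ≠ 0) :
    ∃ i₀ ∈ s, (a i₀ = x ^ p ∧ b i₀ = y ^ p) ∧ ∀ i ∈ s, i ≠ i₀ → a i ^ p = x ∧ b i ^ p = y := by
  classical
  let F : ℕ → k → k → Polynomial k := fun n u v =>
    Polynomial.C u + Polynomial.X ^ n * Polynomial.C v
  have hF : ∀ n u v u' v', n ≠ 0 → F n u v = F n u' v' → u = u' ∧ v = v' :=
    fun n u v u' v' hn e => by
      have e0 : u = u' := by simpa [F, hn] using congrArg (Polynomial.eval 0) e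
      exact ⟨e0, by simpa [F, e0] using congrArg (Polynomial.eval 1) e⟩
  have h1 : ∏ i ∈ s, (Polynomial.X - Polynomial.C (F 1 (a i) (b i))) =
      (Polynomial.X ^ p - Polynomial.C (F p x y)) *
        (Polynomial.X - Polynomial.C (F 1 (x ^ p) (y ^ p))) :=
    Polynomial.funext fun t => Polynomial.funext fun l => by
      simpa [F, Polynomial.eval_prod, mul_comm (b _), mul_comm y, mul_comm (y ^ p)] using
        h (t.eval l) l
  have h2 := congrArg (Polynomial.eval (F 1 (x ^ p) (y ^ p))) h1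
  simp only [Polynomial.eval_prod, Polynomial.eval_mul, Polynomial.eval_sub, Polynomial.eval_X,
    Polynomial.eval_C, sub_self, mul_zero, prod_eq_zero_iff, sub_eq_zero] at h2
  obtain ⟨j, hj, e⟩ := h2
  refine ⟨j, hj, hF 1 _ _ _ _ one_ne_zero e.symm, fun i hi hij => hF p _ _ _ _ hp ?_⟩
  rw [← prod_erase_mul s _ hj, e] at h1
  have h3 := congrArg (Polynomial.eval (F 1 (a i) (b i)))
    (mul_right_cancel₀ (Polynomial.X_sub_C_ne_zero _) h1)
  rw [Polynomial.eval_prod, prod_eq_zero (mem_erase.2 ⟨hij, hi⟩) (by simp), Polynomial.eval_sub,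
    Polynomial.eval_C, eq_comm, sub_eq_zero] at h3
  rw [← h3]
  simp [F, add_pow_expChar, mul_pow]

theorem infinite_quot {P : Ideal Zb} (hP : P.IsPrime) : Infinite (Zb ⧸ P) := by
  refine not_finite_iff_infinite.1 fun _ => ?_
  have := Fintype.ofFinite (Zb ⧸ P)
  have h1 := Fintype.one_lt_card (α := Zb ⧸ P)
  have hm : (Polynomial.X ^ Fintype.card (Zb ⧸ P) - (Polynomial.X + 1) : Polynomial ℤ).Monic :=
    Polynomial.monic_X_pow_sub (lt_of_le_of_lt (by compute_degree) (Nat.one_lt_cast.2 h1))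
  obtain ⟨α, hα⟩ := IsAlgClosed.exists_aeval_eq_zero ℂ _ (hm.degree_pos.2 fun h => by
    simpa [(by omega : Fintype.card (Zb ⧸ P) ≠ 0)] using congrArg (Polynomial.eval 0) h).ne'
  let a : Zb := ⟨α, _, hm, hα⟩
  have h2 : a ^ Fintype.card (Zb ⧸ P) = a + 1 := Subtype.ext (by simpa [sub_eq_zero] using hα)
  have h3 := congrArg (Ideal.Quotient.mk P) h2
  let := (Finite.isField_of_domain (Zb ⧸ P)).toField
  rw [map_pow, FiniteField.pow_card] at h3
  simp at h3

theorem kron (hp : p.Prime) (h15 : ¬ p ∣ 15) {P : Ideal Zb} (hP : P.IsPrime) (hpP : (p : Zb) ∈ P)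
    (hz : 0 < z.im) (hx : IntPt z) : ∃ i₀ ∈ range (p + 1),
      (InP P (xx ((al p i₀).act z) - xx z ^ p) ∧ InP P (y1 ((al p i₀).act z) - y1 z ^ p)) ∧
      ∀ i ∈ range (p + 1), i ≠ i₀ →
        InP P (xx ((al p i).act z) ^ p - xx z) ∧ InP P (y1 ((al p i).act z) ^ p - y1 z) := by
  have := infinite_quot hP
  have : CharP (Zb ⧸ P) p := ringChar.of_eq (CharP.ringChar_of_prime_eq_zero hp
    (by rw [← map_natCast (Ideal.Quotient.mk P)]; exact Ideal.Quotient.eq_zero_iff_mem.2 hpP))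
  have : ExpChar (Zb ⧸ P) p := ExpChar.prime hp
  have hi := int_al hp h15 hz hx
  have e : ∀ u v : Zb, Ideal.Quotient.mk P u = Ideal.Quotient.mk P v ↔ InP P (u - v) :=
    fun u v => Ideal.Quotient.eq.trans InP.coe.symm
  obtain ⟨j, hj, h1, h2⟩ := alg (p := p) (range (p + 1))
    (fun i => Ideal.Quotient.mk P ⟨_, (hi i).1⟩) (fun i => Ideal.Quotient.mk P ⟨_, (hi i).2⟩)
    (Ideal.Quotient.mk P ⟨_, hx.1⟩) (Ideal.Quotient.mk P ⟨_, hx.2⟩) (fun T l => by
      obtain ⟨T, rfl⟩ := Ideal.Quotient.mk_surjective T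
      obtain ⟨l, rfl⟩ := Ideal.Quotient.mk_surjective l
      simp only [← map_pow, ← map_mul, ← map_add, ← map_sub, ← map_prod, e]
      simpa using prod_mem hp h15 hP hpP hz hx T l) hp.ne_zero
  simp only [← map_pow, e] at h1 h2
  exact ⟨j, hj, h1, h2⟩

theorem surj : ∃ S : Finset ℂ, ∀ c ∉ S, ∃ z : ℂ, 0 < z.im ∧ xx z = c := by
  classical
  refine ⟨(range 24).image fun i => limUnder atI fun z => xx ((Mod.reps.getD i 1).act z),
    fun c hc => ?_⟩
  by_contra! h
  have h0 : Tendsto (fun z => (xx z - c)⁻¹) atI (𝓝 0) := by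
    have h1 := Mod.tendsto_qq.pow 2
    have h2 := h1.div (Mod.xx_qq.sub (h1.const_mul c)) (by simp)
    rw [zero_pow two_ne_zero, zero_div] at h2
    refine h2.congr fun z => ?_
    have := Mod.qq_ne z
    rw [Pi.div_apply, ← sub_mul]
    field_simp
  have hi : ∀ γ, G0 γ → ∀ z, 0 < z.im → (xx (γ.act z) - c)⁻¹ = (xx z - c)⁻¹ := fun γ hγ z hz => by
    rw [Mod.xx_inv γ hγ z hz]
  obtain ⟨k, hk⟩ := Mod.const_of_weight_zero (h := fun z => (xx z - c)⁻¹)
    ((Mod.diff_xx.sub_const c).inv fun z hz => sub_ne_zero.2 (h z hz)) hi fun g hg => by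
      by_cases h15 : (15 : ℤ) ∣ g.c
      · refine (h0.isBigO_one ℝ).congr' ?_ .rfl
        filter_upwards [Mod.ev_im 0] with z hz using (hi g ⟨hg, h15⟩ z hz).symm
      · have hw : (0 : ℝ) < Mod.wd g := by exact_mod_cast Mod.wd_pos g
        obtain ⟨L, hL⟩ := Mod.decay hw (G := fun z => xx (g.act z)) (fun z hz => by
          rw [ofReal_intCast, Mod.act_add_wd hg hz,
            Mod.xx_inv _ (Mod.G0_conj hg) _ (M2.im_act_pos (by omega) hz)])
          (Mod.diff_act (by omega) Mod.diff_xx) (Mod.xx_bdd hg h15)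
        have h1 := tendsto_sub_nhds_zero_iff.1 (hL.trans_tendsto (Mod.tendsto_ex (by positivity)))
        have h2 := Mod.rep_spec (Mod.prim_of_det hg)
        have h3 := Mod.G0_mul_adj_rep hg
        have h4 : Tendsto (fun z => xx ((Mod.rep g.c g.d).act z)) atI (𝓝 L) := by
          refine h1.congr' ?_
          filter_upwards [Mod.ev_im 0] with z hz
          rw [← Mod.xx_inv _ h3 _ (M2.im_act_pos (g := Mod.rep g.c g.d) (by omega) hz),
            ← M2.act_mul h3.det_pos.ne' (by omega) hz, mul_assoc, M2.adj_mul_self h2.1, mul_one]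
        exact ((h1.sub_const c).inv₀ fun e => hc (mem_image.2
          ⟨_, mem_range.2 h2.2.1, h4.limUnder_eq.trans (sub_eq_zero.1 e)⟩)).isBigO_one ℝ
  have h1 : k = 0 := tendsto_nhds_unique (tendsto_const_nhds.congr' (by
    filter_upwards [Mod.ev_im 0] with z hz using (hk z hz).symm)) h0
  exact inv_ne_zero (sub_ne_zero.2 (h I (by simp))) ((hk I (by simp)).trans h1)

end Pool.Agent.P.MP_8b7eba_nt.R2.TFR
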