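import Pool.Agent.P.MP_8b7eba_nt.R2.THALFA

/-! Proof of HALF. -/

namespace Pool.Agent.P.MP_8b7eba_nt.R2

open scoped NNReal Matrix
open MP_9c97e9_nt (Pt pm Is ap Sha Split)
open Filter Topology Polynomial Module

namespace THALF

variable {w w₂ : Pl} {a b c : Om} {H : EO} {t g : GQ}

/-- the standard alternating form -/
noncomputable def om (u v : V2) : ℚ_[2] := u 0 * v 1 - u 1 * v 0

theorem mv0 (R : Mt) (v : V2) : (R *ᵥ v) 0 = R 0 0 * v 0 + R 0 1 * v 1 := by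
  simp [Matrix.mulVec, dotProduct, Fin.sum_univ_two]

theorem mv1 (R : Mt) (v : V2) : (R *ᵥ v) 1 = R 1 0 * v 0 + R 1 1 * v 1 := by
  simp [Matrix.mulVec, dotProduct, Fin.sum_univ_two]

theorem ext2 {u v : V2} (h0 : u 0 = v 0) (h1 : u 1 = v 1) : u = v := by
  funext i
  fin_cases i <;> assumption

theorem om_mv (R : Mt) (u v : V2) : om (R *ᵥ u) (R *ᵥ v) = R.det * om u v := by
  simp only [om, mv0, mv1, Matrix.det_fin_two]
  ring

theorem lin {R : Mt} {e : V2} (he : e 1 ≠ 0) (h : R *ᵥ e = e) (hd : R.det = 1) :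
    ∃ s : ℚ_[2], ∀ v, R *ᵥ v = v + (s * om e v) • e := by
  have h0 := congrFun h 0
  have h1 := congrFun h 1
  rw [mv0] at h0
  rw [mv1] at h1
  rw [Matrix.det_fin_two] at hd
  have h2 : R 0 0 + R 1 1 = 2 := mul_left_cancel₀ he (by
    linear_combination e 1 * hd - R 0 0 * h1 + R 1 0 * h0 + h1)
  obtain ⟨s, hs⟩ : ∃ s, R 1 0 = -s * e 1 ^ 2 := ⟨-R 1 0 / e 1 ^ 2, by field_simp⟩
  have h3 : R 1 1 = 1 + s * e 0 * e 1 := mul_left_cancel₀ he (by linear_combination h1 - e 0 * hs)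
  have h4 : R 0 1 = s * e 0 ^ 2 := mul_left_cancel₀ he (by
    linear_combination h0 - e 0 * h2 + e 0 * h3)
  refine ⟨s, fun v => ext2 ?_ ?_⟩ <;>
    simp only [mv0, mv1, om, Pi.add_apply, Pi.smul_apply, smul_eq_mul]
  · linear_combination v 0 * h2 - v 0 * h3 + v 1 * h4
  · linear_combination v 0 * hs + v 1 * h3

theorem lin_pow {R : Mt} {e : V2} {s : ℚ_[2]} (h : ∀ v, R *ᵥ v = v + (s * om e v) • e) (r : ℕ)
    (v : V2) : (R ^ r) *ᵥ v = v + (r * s * om e v) • e := by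
  induction r with
  | zero => simp
  | succ r ih =>
    rw [pow_succ', ← Matrix.mulVec_mulVec, ih, h]
    refine ext2 ?_ ?_ <;> simp only [om, Pi.add_apply, Pi.smul_apply, smul_eq_mul] <;> push_cast <;>
      ring

theorem nle {v : V2} {r : ℝ} (h0 : ‖v 0‖ ≤ r) (h1 : ‖v 1‖ ≤ r) : ‖v‖ ≤ r :=
  (pi_norm_le_iff_of_nonneg ((norm_nonneg _).trans h0)).2 fun i => by fin_cases i <;> assumption

theorem mul_le {x y : ℚ_[2]} {r s : ℝ} (hx : ‖x‖ ≤ r) (hy : ‖y‖ ≤ s) : ‖x * y‖ ≤ r * s := by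
  rw [norm_mul]
  exact mul_le_mul hx hy (norm_nonneg _) ((norm_nonneg _).trans hx)

theorem mv_le {A : Mt} {r s : ℝ} (h : ∀ i j, ‖A i j‖ ≤ r) {v : V2} (hv : ‖v‖ ≤ s) :
    ‖A *ᵥ v‖ ≤ r * s := by
  have k : ∀ i j l, ‖A i j * v l‖ ≤ r * s := fun i j l =>
    mul_le (h i j) ((norm_le_pi_norm v l).trans hv)
  exact nle (mv0 A v ▸ Csum.add_le (k _ _ _) (k _ _ _)) (mv1 A v ▸ Csum.add_le (k _ _ _) (k _ _ _))

theorem det_le {A : Mt} (h : ∀ i j, ‖A i j‖ ≤ 1) {v : V2} (hv : ‖A *ᵥ v‖ ≤ 1) :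
    ‖A.det‖ * ‖v‖ ≤ 1 := by
  have h1 : ∀ i j, ‖A.adjugate i j‖ ≤ 1 := fun i j => by
    rw [Matrix.adjugate_fin_two]
    fin_cases i <;> fin_cases j <;> simp [h]
  have := mv_le h1 hv
  rwa [Matrix.mulVec_mulVec, Matrix.adjugate_mul, Matrix.smul_mulVec, Matrix.one_mulVec, norm_smul,
    one_mul] at this

theorem dpt (T : Tate w₂) (g : GQ) (v : V2) :
    ac g (T.pt v) - T.pt v = T.pt ((T.rho g - 1) *ᵥ v) := by
  rw [T.gal, Matrix.sub_mulVec, Matrix.one_mulVec, map_sub]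

theorem det1 (hA : CA) (T : Tate w₂) (p2 : w.p ≠ 2) (hg : g ∈ w.I) :
    cq g = 1 ∧ (T.rho g).det = 1 := by
  have : cq g = 1 := by
    rw [cq, hA.ec.2.2.2.2.2.2.1 w p2 g hg]
    rfl
  exact ⟨this, (T.det g).trans this⟩

theorem det0 (hA : CA) (S : Su w a b c H) (T : Tate w₂) (ht : t ∈ w.I) :
    (T.rho t - 1).det = 0 := by
  by_contra h
  obtain ⟨k, hk⟩ := pow_unbounded_of_one_lt ‖(T.rho t - 1).det‖⁻¹ (one_lt_two (α := ℝ))
  obtain ⟨P, hP⟩ := S.sp.exists_is (x := a) (η := 0) (by simp)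
  have h2 : 2 • P = 0 := by rw [two_nsmul]; exact tor S.sp hP
  obtain ⟨P', n, h1, e⟩ := strong hA S (fun g _ => ac_two g h2) k
  have h3 : 2 ^ (k + 2) • P' = 0 := by
    have h4 := congrArg (fun X => 4 • X) e
    simp only [nsmul_add, four S, add_zero] at h4
    rw [pow_add, mul_nsmul, show 2 ^ 2 = 4 from rfl, ← h4, show 4 = 2 * 2 from rfl, mul_nsmul, h2,
      nsmul_zero]
  obtain ⟨v, rfl⟩ := T.surj P' _ h3
  have h5 := dpt T t v
  rw [h1 t ht, sub_self, eq_comm, T.ker] at h5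
  have h6 := det_le (fun i j => (T.two t i j).trans (by norm_num)) h5
  have h7 : ‖v‖ ≤ 2 ^ k := by
    rw [← le_inv_mul_iff₀ (norm_pos_iff.2 h), mul_one] at h6
    exact h6.trans hk.le
  rw [T.pt_pow.2 h7, zero_add] at e
  exact ne_mul S hP n e

theorem nil {N : Mt} (h0 : N.det = 0) (h1 : (N + 1).det = 1) (v : V2) : N *ᵥ (N *ᵥ v) = 0 := by
  rw [Matrix.det_fin_two] at h0 h1
  simp only [Matrix.add_apply, Matrix.one_apply_eq, Matrix.one_apply_ne, ne_eq, zero_ne_one,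
    one_ne_zero, not_false_eq_true, add_zero] at h1
  refine ext2 ?_ ?_ <;> simp only [mv0, mv1, Pi.zero_apply]
  · linear_combination (N 0 0 * v 0 + N 0 1 * v 1) * (h1 - h0) - v 0 * h0
  · linear_combination (N 1 0 * v 0 + N 1 1 * v 1) * (h1 - h0) - v 1 * h0

theorem fix_e (hA : CA) (T : Tate w₂) (p2 : w.p ≠ 2) (ht : t ∈ w.I)
    (hβ : ∀ β : Om, β ^ 2 = w.p → t β = -β) {e : V2} (h1 : ‖e‖ ≤ 1) (h : T.rho t *ᵥ e = e)
    (hg : g ∈ w.I) : T.rho g *ᵥ e = e := by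
  have k : ∀ k : ℕ, ∀ g ∈ w.I, ac g (T.pt ((2⁻¹ : ℚ_[2]) ^ k • e)) =
      T.pt ((2⁻¹ : ℚ_[2]) ^ k • e) := fun k => by
    induction k with
    | zero => exact fun g _ => by rw [pow_zero, one_smul, (T.ker e).2 h1, map_zero]
    | succ k ih =>
      refine gen_fix hA p2 ht hβ ?_ (by rw [T.gal, Matrix.mulVec_smul, h])
      rwa [← map_add, ← add_smul, pow_succ, ← mul_add, show (2⁻¹ : ℚ_[2]) + 2⁻¹ = 1 by norm_num,
        mul_one]
  by_contra h0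
  have h2 := norm_pos_iff.2 (sub_ne_zero.2 h0)
  obtain ⟨n, hn⟩ := pow_unbounded_of_one_lt ‖T.rho g *ᵥ e - e‖⁻¹ (one_lt_two (α := ℝ))
  have h3 := k n g hg
  rw [T.gal, T.pt_eq, Matrix.mulVec_smul, ← smul_sub, norm_smul, norm_pow, norm_inv, Csum.norm_two,
    inv_inv, ← le_mul_inv_iff₀ h2, one_mul] at h3
  exact h3.not_gt hn

theorem half_pt (hA : CA) (S : Su w a b c H) (T : Tate w₂) (ht : t ∈ w.I)
    (hβ : ∀ β : Om, β ^ 2 = w.p → t β = -β) :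
    ∃ q, ‖q‖ ≤ 8 ∧ Is (T.pt ((T.rho t - 1) *ᵥ q)) a 0 := by
  obtain ⟨Q, h1, h2⟩ := half_H hA S ht hβ
  have h3 : 2 ^ 3 • Q = 0 := by
    rw [show 2 ^ 3 = 2 * 4 from rfl, mul_nsmul, two_nsmul, h1, ← one_nsmul H, four S]
  obtain ⟨q, rfl⟩ := T.surj Q 3 h3
  exact ⟨q, (T.pt_pow.1 h3).trans (by norm_num), dpt T t q ▸ h2⟩

theorem main (hA : CA) (S : Su w a b c H) (T : Tate w₂) {f : V2} (f0 : ‖f 0‖ ≤ 1) (f1 : f 1 = 1)
    (hf : Is (T.pt ((2⁻¹ : ℚ_[2]) • f)) a 0) : ∃ e : V2, ‖e‖ = 1 ∧ ‖e - f‖ < 1 ∧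
    (∀ g ∈ w.I, T.rho g *ᵥ e = e ∧ ∀ v, ∃ s : ℚ_[2], T.rho g *ᵥ v - v = s • e) ∧
    (∀ t ∈ w.I, (∀ β : Om, β ^ 2 = w.p → t β = -β) → (∃ i j, ‖(T.rho t - 1) i j‖ = 4⁻¹) ∧
      ∀ v, T.rho t *ᵥ v = v → ∃ s : ℚ_[2], v = s • e) ∧
    ∀ φ, w.IsFrob 1 φ → T.rho φ *ᵥ e = (w.p : ℚ_[2]) • e ∨ T.rho φ *ᵥ e = -(w.p : ℚ_[2]) • e := by
  obtain ⟨t, ht, hβ⟩ := Pl.exists_gen hA.tame hA.res S.p2
  obtain ⟨q, -, hq⟩ := half_pt hA S T ht hβ
  have hN := nil (det0 hA S T ht) (by rw [sub_add_cancel, (det1 hA T S.p2 ht).2]) q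
  obtain ⟨e, he⟩ : ∃ e : V2, (T.rho t - 1) *ᵥ q = (2⁻¹ : ℚ_[2]) • e :=
    ⟨(2 : ℚ_[2]) • _, (inv_smul_smul₀ two_ne_zero _).symm⟩
  rw [he] at hq hN
  have h1 : ‖e - f‖ ≤ 2⁻¹ := by
    have := T.pt_eq.1 (hq.unique S.sp hf)
    rw [← smul_sub, norm_smul, norm_inv, Csum.norm_two, inv_inv] at this
    linarith
  have h2 : ∀ i, ‖f i‖ ≤ 1 → ‖e i‖ ≤ 1 := fun i hi => by
    rw [← sub_add_cancel (e i) (f i)]
    exact Csum.add_le (((norm_le_pi_norm (e - f) i).trans h1).trans (by norm_num)) hi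
  have h3 : ‖e‖ ≤ 1 := nle (h2 0 f0) (h2 1 (by rw [f1, norm_one]))
  have h4 : 1 ≤ ‖e 1‖ := not_lt.1 (Csum.not_lt (f1 ▸ (norm_le_pi_norm (e - f) 1).trans h1))
  have e1 : e 1 ≠ 0 := norm_pos_iff.1 (one_pos.trans_le h4)
  have h5 : T.rho t *ᵥ e = e := by
    rwa [Matrix.mulVec_smul, smul_eq_zero_iff_right (inv_ne_zero two_ne_zero), Matrix.sub_mulVec,
      Matrix.one_mulVec, sub_eq_zero] at hN
  have h6 : ∀ g ∈ w.I, T.rho g *ᵥ e = e := fun g hg => fix_e hA T S.p2 ht hβ h3 h5 hg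
  have h7 : ∀ g ∈ w.I, ∃ s : ℚ_[2], ∀ v, T.rho g *ᵥ v = v + (s * om e v) • e := fun g hg =>
    lin e1 (h6 g hg) (det1 hA T S.p2 hg).2
  have h8 : ∀ t ∈ w.I, (∀ β : Om, β ^ 2 = w.p → t β = -β) → ∀ s : ℚ_[2],
      (∀ v, T.rho t *ᵥ v = v + (s * om e v) • e) → s ≠ 0 := fun t ht hβ s hs h0 => by
    obtain ⟨q, -, hq⟩ := half_pt hA S T ht hβ
    rw [Matrix.sub_mulVec, Matrix.one_mulVec, hs, h0, zero_mul, zero_smul, add_zero, sub_self,
      map_zero] at hq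
    exact hq.ne_zero rfl
  refine ⟨e, h3.antisymm (h4.trans (norm_le_pi_norm e 1)), h1.trans_lt (by norm_num),
    fun g hg => ⟨h6 g hg, fun v => ?_⟩, fun t ht hβ => ⟨?_, fun v hv => ?_⟩, fun φ hφ => ?_⟩
  · obtain ⟨s, hs⟩ := h7 g hg
    exact ⟨_, by rw [hs, add_sub_cancel_left]⟩
  · by_contra h
    push Not at h
    obtain ⟨q, q8, hq⟩ := half_pt hA S T ht hβ
    have k : ∀ i j, ‖(T.rho t - 1) i j‖ ≤ 8⁻¹ := fun i j => by
      have k1 := T.four t i j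
      rw [(det1 hA T S.p2 ht).1, ← Matrix.one_fin_two] at k1
      have k2 := (Padic.norm_le_pow_iff_norm_lt_pow_add_one ((T.rho t - 1) i j) (-3)).2
        ((k1.lt_of_ne (h i j)).trans_eq (by norm_num))
      exact k2.trans_eq (by norm_num)
    exact hq.ne_zero ((T.ker _).2 ((mv_le k q8).trans_eq (by norm_num)))
  · obtain ⟨s, hs⟩ := h7 t ht
    have k := congrFun ((hs v).symm.trans hv) 1
    simp only [Pi.add_apply, Pi.smul_apply, smul_eq_mul, add_eq_left, mul_eq_zero, e1,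
      h8 t ht hβ s hs, or_false, false_or, om] at k
    refine ⟨v 1 / e 1, ext2 ?_ ?_⟩ <;> simp only [Pi.smul_apply, smul_eq_mul] <;> field_simp
    linear_combination -k
  · obtain ⟨s, hs⟩ := h7 t ht
    have s0 := h8 t ht hβ s hs
    have hg : φ * t * φ⁻¹ * (t ^ w.p ^ 1)⁻¹ ∈ w.I :=
      w.I.mul_mem (Pl.conj_mem_I hφ.1 ht) (w.I.inv_mem (w.I.pow_mem ht _))
    obtain ⟨u, hu⟩ := h7 _ hg
    have u0 : u = 0 := by
      refine norm_le_zero_iff.1 (le_of_forall_pos_le_add fun ε hε => ?_)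
      obtain ⟨N, hN, hn⟩ := T.sm ε hε
      obtain ⟨r, hr, hm⟩ := (hA.tame2 w w.D w.p t S.p2 w.loc_D (unif hA w) ⟨ht, ht.1⟩ hβ N hN).2 1 φ
        hφ (map_natCast φ _) fun g hg => w.D.mul_mem (w.D.mul_mem hφ.1 hg) (w.D.inv_mem hφ.1)
      have k1 := hn _ hm 1 0
      have k2 := congrFun (lin_pow hu r ![1, 0]) 1
      have k3 : ‖(r : ℚ_[2])‖ = 1 := Padic.norm_natCast_eq_one_iff.2 (Nat.coprime_two_left.2 hr)
      have k4 : ‖e 1‖ = 1 := ((norm_le_pi_norm e 1).trans h3).antisymm h4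
      rw [mv1, ← map_pow] at k2
      simp only [om, Pi.add_apply, Pi.smul_apply, smul_eq_mul, Matrix.cons_val_zero,
        Matrix.cons_val_one, mul_one, mul_zero, add_zero, zero_add, zero_sub] at k2
      rw [Matrix.sub_apply, k2, Matrix.one_apply_ne one_ne_zero, sub_zero] at k1
      simpa [k3, k4] using k1
    have k1 : ∀ v, T.rho φ *ᵥ (T.rho t *ᵥ v) = (T.rho t ^ w.p) *ᵥ (T.rho φ *ᵥ v) := fun v => by
      have := hu ((T.rho t ^ w.p) *ᵥ (T.rho φ *ᵥ v))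
      rw [u0, zero_mul, zero_smul, add_zero] at this
      rw [← this]
      simp only [Matrix.mulVec_mulVec, ← map_pow, ← map_mul]
      refine congrArg (fun x => T.rho x *ᵥ v) ?_
      group
    have k2 := k1 ![1, 0]
    have k3 := om_mv (T.rho φ) e ![1, 0]
    have k4 : (T.rho φ).det = w.p := by
      rw [T.det, cq, hA.ec.2.2.2.2.2.1 w 1 φ S.p2 hφ, pow_one]
      rfl
    have k5 : om e ![1, 0] = -e 1 := by simp [om]
    rw [hs, lin_pow hs, Matrix.mulVec_add, add_right_inj, Matrix.mulVec_smul, k5] at k2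
    obtain ⟨l, hl⟩ : ∃ l : ℚ_[2], T.rho φ *ᵥ e = l • e :=
      ⟨_, by rw [← smul_smul, ← k2, inv_smul_smul₀ (mul_ne_zero s0 (neg_ne_zero.2 e1))]⟩
    have k6 := congrFun k2 1
    rw [k4, k5, hl] at k3
    rw [hl] at k6
    simp only [om, Pi.smul_apply, smul_eq_mul] at k3 k6
    have k7 : l ^ 2 = (w.p : ℚ_[2]) ^ 2 := mul_left_cancel₀ (mul_ne_zero s0 (pow_ne_zero 2 e1)) (by
      linear_combination -l * k6 - s * w.p * e 1 * k3)
    rw [hl]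
    exact (sq_eq_sq_iff_eq_or_eq_neg.1 k7).imp (fun h => by rw [h]) fun h => by rw [h]

end THALF

theorem t_HALF (hA : CA) : HALF := by
  intro w hw P hP k
  have key : ∀ {a b c : Om} {H : EO}, THALF.Su w a b c H → ∃ P' S : EO,
      (∀ g ∈ w.I, ac g P' = P') ∧ 4 • S = 0 ∧ P = 2 ^ k • P' + S := fun S =>
    let ⟨P', n, h1, h2⟩ := THALF.strong hA S hP k
    ⟨P', _, h1, THALF.four S n, h2⟩
  rcases THALF.cases hw with h | h
  · exact (THALF.su3 hA h).elim fun _ S => key S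
  · exact (THALF.su5 h).elim fun _ S => key S

theorem t_UNIP (hA : CA) (hHALF : HALF) : UNIP := by
  intro w₂ T w hw
  rcases THALF.cases hw with h | h
  · obtain ⟨H, S⟩ := THALF.su3 hA h
    obtain ⟨e, h1, h2, h3⟩ := THALF.main hA S T (f := ![0, 1]) (by simp) rfl (by simpa using T.t1)
    exact ⟨e, h1, fun _ => h2, fun h' => by omega, h3⟩
  · obtain ⟨H, S⟩ := THALF.su5 h
    have k := (T.kq (v := ![1, 1]) (THALF.nle (by simp) (by simp))).2 (by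
      rw [show (![1, 1] : V2) 0 + ![1, 1] 1 = 2 by simp [one_add_one_eq_two], Csum.norm_two]
      norm_num)
    obtain ⟨e, h1, h2, h3⟩ := THALF.main hA S T (f := ![1, 1]) (by simp) rfl (k.resolve_left fun e => by
      have := (norm_le_pi_norm _ 0).trans ((T.ker _).1 e)
      simp [Csum.norm_two] at this)
    exact ⟨e, h1, fun h' => by omega, fun _ => h2, h3⟩

end Pool.Agent.P.MP_8b7eba_nt.R2
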