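import Pool.Agent.P.MP_8b7eba_nt.R2.GrpA

/-! Halves of points fixed by inertia at the bad primes. -/

namespace Pool.Agent.P.MP_8b7eba_nt.R2

open scoped NNReal Matrix
open MP_9c97e9_nt (Pt pm Is ap Sha Split UU sg)

namespace THALF

variable {w : Pl} {a b c : Om} {H P Q : EO} {t g : GQ}

/-- the data at a bad prime -/
structure Su (w : Pl) (a b c : Om) (H : EO) : Prop where
  p2 : w.p ≠ 2
  sp : Split W15 a b c
  ab : w.v (a - b) = 1
  ca : w.v (a - c) = 1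
  fix : ∀ g ∈ w.I, ac g H = H
  dbl : Is (H + H) b 0
  mv : ∃ (x η : Om) (m : ℤ), Is H x η ∧ x - c = w.p * m ∧ ¬ (w.p : ℤ) ∣ m

theorem tor (sp : Split W15 a b c) {e : Om} (h : Is P e 0) : P + P = 0 :=
  h.add_eq_zero sp (neg_zero (G := Om) ▸ h)

theorem fixe (sp : Split W15 a b c) (g : GQ) : g a = a := by
  obtain ⟨T, hT⟩ := sp.exists_is (x := a) (η := 0) (by simp)
  have h := is_ac g hT
  rw [ac_two g (by rw [two_nsmul]; exact tor sp hT)] at h
  exact (h.inj hT).1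

theorem uu_ac (sp : Split W15 a b c) (g : GQ) (Q : EO) : UU a b c (ac g Q) = g (UU a b c Q) := by
  have h := MP_9c97e9_nt.UU_map (W := W15) (e₁ := a) (e₂ := b) (e₃ := c) (g : Om →+* Om) Q
  have h1 : (g : Om →+* Om) a = a := fixe sp g
  have h2 : (g : Om →+* Om) b = b := fixe sp.swap g
  have h3 : (g : Om →+* Om) c = c := fixe sp.swap'.swap g
  rw [h1, h2, h3] at h
  exact h

theorem dif (h : ac g (Q + Q) = Q + Q) : ac g Q - Q + (ac g Q - Q) = 0 := by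
  rw [map_add] at h
  rw [sub_add_sub_comm, h, sub_self]

theorem mkSu (p2 : w.p ≠ 2) (sp : Split W15 a b c) (ab : w.v (a - b) = 1) (ca : w.v (a - c) = 1)
    {x η : Om} {m : ℤ} (hx : Fix w.I x) (hη : Fix w.I η) (h0 : η ≠ 0)
    (he : η ^ 2 = 4 * ((x - a) * (x - b) * (x - c))) (hb : (x - b) ^ 2 = (b - a) * (b - c))
    (hc : x - c = w.p * m) (hm : ¬ (w.p : ℤ) ∣ m) : ∃ H, Su w a b c H := by
  obtain ⟨H, hH⟩ := sp.exists_is he
  refine ⟨H, p2, sp, ab, ca, fun g hg => ?_, ?_, x, η, m, hH, hc, hm⟩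
  · have h := is_ac g hH
    rw [hx g hg, hη g hg] at h
    exact h.unique sp hH
  · obtain ⟨x', η', h⟩ := (MP_9c97e9_nt.zero_or_is (H + H)).resolve_left ((hH.two_ne sp).2 h0)
    have h1 := MP_9c97e9_nt.UU_sq sp.swap h
    rw [hH.UU_eq, hb, sub_self, zero_div, zero_pow two_ne_zero, sub_eq_zero] at h1
    subst h1
    have h2 := h.eq sp
    rw [sub_self, mul_zero, zero_mul, mul_zero, pow_eq_zero_iff two_ne_zero] at h2
    rwa [h2] at h

theorem su3 (hA : CA) (h : w.p = 3) : ∃ H, Su w 16 (-9) 0 H := by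
  have p2 : w.p ≠ 2 := by omega
  obtain ⟨i, hi⟩ := exists_root (-1 : Om) two_ne_zero
  have h1 : Fix w.I i := fun g hg =>
    Pl.I_fix hA.tame hA.res p2 (m := -1) (by rw [hi]; norm_num) (by rw [h]; norm_num) hg
  have h0 : i ≠ 0 := fun e => by
    rw [e] at hi
    norm_num at hi
  refine mkSu p2 split15.swap'.swap.swap' ?_ ?_ (x := 6) (η := 60 * i) (m := 2) (fix_ofNat 6)
    ((fix_ofNat 60).mul h1) (mul_ne_zero (by norm_num) h0) (by rw [mul_pow, hi]; norm_num)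
    (by norm_num) (by rw [h]; norm_num) (by rw [h]; norm_num)
  · rw [show (16 : Om) - -9 = (25 : ℤ) by norm_num, Pl.v_int_eq_one, h]
    norm_num
  · rw [show (16 : Om) - 0 = (16 : ℤ) by norm_num, Pl.v_int_eq_one, h]
    norm_num

theorem su5 (h : w.p = 5) : ∃ H, Su w 0 16 (-9) H := by
  have p2 : w.p ≠ 2 := by omega
  refine mkSu p2 split15.swap' ?_ ?_ (x := 36) (η := 360) (m := 9) (fix_ofNat 36)
    (fix_ofNat 360) (by norm_num) (by norm_num)
    (by norm_num) (by rw [h]; norm_num) (by rw [h]; norm_num)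
  · rw [show (0 : Om) - 16 = (-16 : ℤ) by norm_num, Pl.v_int_eq_one, h]
    norm_num
  · rw [show (0 : Om) - -9 = (9 : ℤ) by norm_num, Pl.v_int_eq_one, h]
    norm_num

theorem unif (hA : CA) (w : Pl) : w.Unif (w.I ⊓ w.D) w.p := by
  rw [inf_eq_left.2 w.I_le_D]
  exact (hA.res w w.D w.loc_D).2.2.2.2.1

theorem ac_pow (h : ac t Q = Q) (m : ℕ) : ac (t ^ m) Q = Q := by
  induction m with
  | zero => rw [pow_zero, ac_one]
  | succ m ih => rw [pow_succ, ac_mul, h, ih]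

/-- a half which is fixed by a generator is fixed by inertia -/
theorem gen_fix (hA : CA) (p2 : w.p ≠ 2) (ht : t ∈ w.I) (hβ : ∀ β : Om, β ^ 2 = w.p → t β = -β)
    (h2 : ∀ g ∈ w.I, ac g (Q + Q) = Q + Q) (h : ac t Q = Q) : ∀ g ∈ w.I, ac g Q = Q := by
  intro g hg
  obtain ⟨N, hN, e⟩ := exists_ON_ac {Q}
  obtain ⟨m, r, ⟨j, rfl⟩, hr⟩ := (hA.tame2 w w.D w.p t p2 w.loc_D (unif hA w) ⟨ht, ht.1⟩ hβ N hN).1
    g ⟨hg, hg.1⟩
  have hk : g * (t ^ m)⁻¹ ∈ w.I := w.I.mul_mem hg (w.I.inv_mem (w.I.pow_mem ht m))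
  rw [← inv_mul_cancel_right g (t ^ m), ac_mul, ac_pow h]
  generalize g * (t ^ m)⁻¹ = k at hr hk
  have h3 := dif (h2 k hk)
  have h4 : ac (k ^ 2) Q = Q := by
    have h5 := ac_two k (P := ac k Q - Q) (by rw [two_nsmul]; exact h3)
    rw [map_sub] at h5
    rw [pow_two, ac_mul, ← sub_eq_zero, ← h3, ← h5]
    nth_rewrite 2 [h5]
    abel
  have h6 := e Q (Finset.mem_singleton_self Q) _ hr
  rwa [pow_succ', pow_mul, ac_mul, ac_pow h4] at h6

/-- the Kummer class of `P` at `g` lies in the group generated by the point with abscissa `a` -/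
def Gd (g : GQ) (a : Om) (P : EO) : Prop := ∃ Q, Q + Q = P ∧ sg a (ac g Q - Q) = 1

theorem ev (S : Su w a b c H) {x η : Om} (hx : Fix w.I x) (hη : Fix w.I η)
    (e : η ^ 2 = 4 * ((x - a) * (x - b) * (x - c))) : w.Ev w.I (x - a) := by
  by_cases h1 : w.v (x - a) = 1
  · exact ⟨1, fix_one, by rw [h1, map_one, one_pow]⟩
  have k : ∀ d : Om, w.v (a - d) = 1 → w.v (x - d) = max (w.v (x - a)) 1 := fun d hd => by
    rw [← hd, ← Valuation.map_add_of_distinct_val _ (by rwa [hd]), sub_add_sub_cancel]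
  have h2 : w.v (x - b) ≠ 0 := by
    rw [k b S.ab]
    exact (lt_of_lt_of_le one_pos (le_max_right _ _)).ne'
  refine ⟨η / (x - b), hη.div (hx.sub fun g _ => fixe S.sp.swap g), ?_⟩
  have h3 := congrArg w.v e
  rw [show (4 : Om) = 2 * 2 by norm_num] at h3
  simp only [map_mul, map_pow, Pl.v_two S.p2, one_mul] at h3
  rw [map_div₀, div_pow, h3, k c S.ca, ← k b S.ab, eq_div_iff (pow_ne_zero 2 h2), pow_two, mul_assoc]

theorem gd_ne (hA : CA) (S : Su w a b c H) (hg : g ∈ w.I) (hP : ∀ g ∈ w.I, ac g P = P)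
    (h : ¬ Is P a 0) : Gd g a P := by
  rcases MP_9c97e9_nt.zero_or_is P with rfl | ⟨x, η, h1⟩
  · exact ⟨0, add_zero _, by rw [map_zero, sub_zero, MP_9c97e9_nt.sg_zero]⟩
  have h2 : ∀ g ∈ w.I, g x = x ∧ g η = η := fun g hg => (hP g hg ▸ is_ac g h1).inj h1
  have hx : Fix w.I x := fun g hg => (h2 g hg).1
  obtain ⟨Q, rfl⟩ := MP_9c97e9_nt.exists_half S.sp P
  have h3 := MP_9c97e9_nt.UU_sq S.sp h1
  have h4 : Fix w.I (x - a) := hx.sub fun g _ => fixe S.sp g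
  have h5 := (hA.sq2 w).2.1 w.I le_rfl S.p2 _ h4 (ev S hx (fun g hg => (h2 g hg).2) (h1.eq S.sp))
  rw [h3] at h4 h5
  have h6 := (sq_iff h4).1 h5 g hg
  have h7 : UU a b c Q ≠ 0 := fun e => h (by
    rw [e, zero_pow two_ne_zero, sub_eq_zero] at h3
    subst h3
    have h8 := h1.eq S.sp
    rw [sub_self, zero_mul, zero_mul, mul_zero, pow_eq_zero_iff two_ne_zero] at h8
    rwa [h8] at h1)
  have h8 := MP_9c97e9_nt.UU_add S.sp (dif (hP g hg)) h1.ne_zero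
  rw [add_sub_cancel, uu_ac S.sp, h6, eq_comm, mul_eq_right₀ h7, Int.cast_eq_one] at h8
  exact ⟨Q, rfl, h8⟩

theorem gd (hA : CA) (S : Su w a b c H) (hg : g ∈ w.I) (hP : ∀ g ∈ w.I, ac g P = P) :
    Gd g a P := by
  by_cases h : Is P a 0
  swap
  · exact gd_ne hA S hg hP h
  have f : ∀ g ∈ w.I, ac g (P - H) = P - H := fun g hg => by rw [map_sub, hP g hg, S.fix g hg]
  obtain ⟨Q, h1, h2⟩ := gd_ne hA S hg S.fix fun e => S.dbl.ne_zero (tor S.sp e)
  obtain ⟨R, h3, h4⟩ := gd_ne hA S hg f fun e => S.dbl.ne_zero (by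
    rw [sub_eq_self.1 (e.unique S.sp h), add_zero])
  refine ⟨Q + R, by rw [add_add_add_comm, h1, h3, add_sub_cancel], ?_⟩
  rw [map_add, add_sub_add_comm, MP_9c97e9_nt.sg_add S.sp (dif (h1 ▸ S.fix g hg))
    (dif (h3 ▸ f g hg)), h2, h4, one_mul]

theorem sg_iff {T : EO} : sg a T = 1 ↔ T = 0 ∨ Is T a 0 := by
  unfold sg
  split_ifs with h <;> simp [h]

/-- a generator moves the halves of `H` -/
theorem move (hA : CA) (S : Su w a b c H) (ht : t ∈ w.I) (hβ : ∀ β : Om, β ^ 2 = w.p → t β = -β)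
    (h : Q + Q = H) : ac t Q ≠ Q := fun e => by
  obtain ⟨x, η, m, h1, h2, h3⟩ := S.mv
  have sp := S.sp.swap'.swap
  have h4 := (MP_9c97e9_nt.UU_sq sp (h ▸ h1)).symm.trans h2
  have h5 := Pl.gen_move hA.tame hA.res S.p2 ht hβ h4 h3
  rw [← uu_ac sp, e, self_eq_neg] at h5
  rw [h5, zero_pow two_ne_zero, eq_comm, mul_eq_zero, Nat.cast_eq_zero, Int.cast_eq_zero] at h4
  exact h4.elim w.prime.ne_zero fun e => h3 (e ▸ dvd_zero _)

theorem half_H (hA : CA) (S : Su w a b c H) (ht : t ∈ w.I)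
    (hβ : ∀ β : Om, β ^ 2 = w.p → t β = -β) : ∃ Q, Q + Q = H ∧ Is (ac t Q - Q) a 0 := by
  obtain ⟨Q, h1, h2⟩ := gd hA S ht S.fix
  exact ⟨Q, h1, (sg_iff.1 h2).resolve_left (sub_ne_zero.2 (move hA S ht hβ h1))⟩

theorem step (hA : CA) (S : Su w a b c H) (hP : ∀ g ∈ w.I, ac g P = P) :
    ∃ (P' : EO) (n : ℕ), (∀ g ∈ w.I, ac g P' = P') ∧ P = 2 • P' + n • H := by
  obtain ⟨t, ht, hβ⟩ := Pl.exists_gen hA.tame hA.res S.p2
  obtain ⟨Q, rfl, h2⟩ := gd hA S ht hP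
  rcases sg_iff.1 h2 with h3 | h3
  · exact ⟨Q, 0, gen_fix hA S.p2 ht hβ hP (sub_eq_zero.1 h3), by
      rw [zero_nsmul, add_zero, two_nsmul]⟩
  obtain ⟨R, h4, h5⟩ := half_H hA S ht hβ
  have e : Q - R + (Q - R) = Q + Q - H := by rw [sub_add_sub_comm, h4]
  refine ⟨Q - R, 1, gen_fix hA S.p2 ht hβ (fun g hg => ?_) ?_, ?_⟩
  · rw [e, map_sub, hP g hg, S.fix g hg]
  · rw [map_sub, sub_eq_sub_iff_sub_eq_sub, h3.unique S.sp h5]
  · rw [two_nsmul, e, one_nsmul, sub_add_cancel]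

theorem strong (hA : CA) (S : Su w a b c H) (hP : ∀ g ∈ w.I, ac g P = P) (k : ℕ) :
    ∃ (P' : EO) (n : ℕ), (∀ g ∈ w.I, ac g P' = P') ∧ P = 2 ^ k • P' + n • H := by
  induction k with
  | zero => exact ⟨P, 0, hP, by simp⟩
  | succ k ih =>
    obtain ⟨P', n, h1, rfl⟩ := ih
    obtain ⟨P'', m, h2, rfl⟩ := step hA S h1
    refine ⟨P'', 2 ^ k * m + n, h2, ?_⟩
    rw [nsmul_add, ← mul_nsmul', ← mul_nsmul', add_nsmul, pow_succ, add_assoc]

theorem four (S : Su w a b c H) (n : ℕ) : 4 • n • H = 0 := by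
  rw [smul_comm, show 4 = 2 * 2 from rfl, mul_nsmul', two_nsmul, two_nsmul, tor S.sp S.dbl,
    nsmul_zero]

theorem ne_mul (S : Su w a b c H) (h : Is P a 0) (n : ℕ) : P ≠ n • H := by
  have k : ∀ j : ℕ, j • (H + H) = 0 ∨ j • (H + H) = H + H := fun j => by
    rcases Nat.even_or_odd' j with ⟨i, rfl | rfl⟩
    · exact .inl (by rw [mul_nsmul, two_nsmul, tor S.sp S.dbl, nsmul_zero])
    · exact .inr (by rw [succ_nsmul, mul_nsmul, two_nsmul, tor S.sp S.dbl, nsmul_zero, zero_add])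
  rintro rfl
  rcases Nat.even_or_odd' n with ⟨i, rfl | rfl⟩
  · rw [mul_nsmul, two_nsmul] at h
    rcases k i with e | e <;> rw [e] at h
    · exact h.ne_zero rfl
    · exact S.sp.n12 (sub_eq_zero.2 (h.inj S.dbl).1)
  · have h1 := tor S.sp h
    rw [← nsmul_add, succ_nsmul, mul_nsmul, two_nsmul, tor S.sp S.dbl, nsmul_zero, zero_add] at h1
    exact S.dbl.ne_zero h1

theorem cases (h : w.p ∣ 15) : w.p = 3 ∨ w.p = 5 := by
  rcases (Nat.Prime.dvd_mul w.prime (m := 3) (n := 5)).1 h with h | h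
  · exact .inl ((Nat.prime_dvd_prime_iff_eq w.prime Nat.prime_three).1 h)
  · exact .inr ((Nat.prime_dvd_prime_iff_eq w.prime Nat.prime_five).1 h)

end THALF

end Pool.Agent.P.MP_8b7eba_nt.R2
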