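import Pool.Agent.P.MP_8b7eba_nt.R2.IfE
import Pool.Agent.P.MP_8b7eba_nt.R1.Kro

/-! The modular equation of level two and the expansion of the modular invariant. -/

namespace Pool.Agent.P.MP_8b7eba_nt.R2.TJF

open Complex Filter Topology Asymptotics PowerSeries
open _root_.Pool.Agent.P.MP_8b7eba_nt.Mod (M2 G0 xx al mS mT UH atI qq Pf PP)
open R1 (Dl psi KF U8 QE zs)

variable {z : ℂ}

theorem inv_ST {F : ℂ → ℂ} (hS : ∀ z : ℂ, 0 < z.im → F (mS.act z) = F z)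
    (hT : ∀ z : ℂ, 0 < z.im → F ((mT 1).act z) = F z) :
    ∀ g : M2, g.det = 1 → ∀ z : ℂ, 0 < z.im → F (g.act z) = F z := by
  have h1 : (0 : ℤ) < mS.det := one_pos
  have h2 : (0 : ℤ) < (mT 1).det := one_pos
  refine Mod.sl2_ind (fun z _ => by rw [M2.act_one]) (fun g hg ih z hz => ?_)
    fun g hg => ⟨fun ih z hz => ?_, fun ih z hz => ?_⟩
  · rw [M2.act_mul (by omega) h1 hz, ih _ (M2.im_act_pos h1 hz), hS z hz]
  · rw [M2.act_mul (by omega) h2 hz, ih _ (M2.im_act_pos h2 hz), hT z hz]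
  · have hz' : 0 < (z - 1).im := by simpa using hz
    have h3 := ih _ hz'
    rw [M2.act_mul (by omega) h2 hz', ← hT _ hz', Mod.act_mT, Int.cast_one, sub_add_cancel] at h3
    exact h3

theorem psi_mv {i k : ℕ} {g γ : M2} (hg : g.det = 1) (hγ : γ.det = 1) (e : al 2 i * g = γ * al 2 k)
    (hz : 0 < z.im) : psi 2 (al 2 i) (g.act z) = psi 2 (al 2 k) z := by
  have h : ∀ i, 0 < (al 2 i).det := fun i => by rw [Mod.det_al]; norm_num
  rw [R1.kro_psi_right hg (h i) hz, e, R1.kro_psi_left hγ (h k) hz]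

theorem sym_inv (Φ : ℂ → ℂ → ℂ → ℂ) (h1 : ∀ a b c, Φ c b a = Φ a b c) (h2 : ∀ a b c, Φ b a c = Φ a b c)
    (g : M2) (hg : g.det = 1) (z : ℂ) (hz : 0 < z.im) :
    Φ (psi 2 (al 2 0) (g.act z)) (psi 2 (al 2 1) (g.act z)) (psi 2 (al 2 2) (g.act z)) =
      Φ (psi 2 (al 2 0) z) (psi 2 (al 2 1) z) (psi 2 (al 2 2) z) := by
  refine inv_ST (F := fun z => Φ (psi 2 (al 2 0) z) (psi 2 (al 2 1) z) (psi 2 (al 2 2) z))
    (fun z hz => ?_) (fun z hz => ?_) g hg z hz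
  · rw [psi_mv (k := 2) (γ := mS) rfl rfl (by decide) hz,
      psi_mv (k := 1) (γ := ⟨1, -1, 2, -1⟩) rfl rfl (by decide) hz,
      psi_mv (i := 2) (k := 0) (γ := mS) rfl rfl (by decide) hz, h1]
  · rw [psi_mv (k := 1) (γ := 1) rfl rfl (by decide) hz,
      psi_mv (i := 1) (k := 0) (γ := mT 1) rfl rfl (by decide) hz,
      psi_mv (i := 2) (k := 2) (γ := mT 2) rfl rfl (by decide) hz, h2]

theorem jf_act (g : M2) (z : ℂ) (hg : g.det = 1) (hz : 0 < z.im) : jf (g.act z) = jf z :=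
  sym_inv (fun a b c => 768 - (a * b + a * c + b * c)) (fun a b c => by ring) (fun a b c => by ring)
    g hg z hz

theorem diff_psi (i : ℕ) : DifferentiableOn ℂ (psi 2 (al 2 i)) UH := by
  have h : 0 < (al 2 i).det := by rw [Mod.det_al]; norm_num
  exact ((Mod.diff_act h R1.diff_Dl).const_mul _).div
    (((M2.differentiable_j _).differentiableOn.pow 12).mul R1.diff_Dl) fun z hz =>
      mul_ne_zero (pow_ne_zero _ (M2.j_ne h.ne' hz)) (R1.Dl_ne hz)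

theorem eq_of_lim {F : ℂ → ℂ} {c : ℂ} (hol : DifferentiableOn ℂ F UH)
    (inv : ∀ g : M2, g.det = 1 → ∀ z : ℂ, 0 < z.im → F (g.act z) = F z)
    (bd : Tendsto F atI (𝓝 c)) (hz : 0 < z.im) : F z = c := by
  obtain ⟨d, hd⟩ := Mod.const_of_weight_zero hol (fun g hg => inv g hg.1) fun g hg =>
    (bd.isBigO_one ℝ).congr' (by
      filter_upwards [Mod.ev_im 0] with z hz using (inv g hg z hz).symm) .rfl
  rw [hd z hz]
  exact tendsto_nhds_unique (tendsto_const_nhds.congr' (by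
    filter_upwards [Mod.ev_im 0] with z hz using (hd z hz).symm)) bd

theorem Dl_eq (z : ℂ) : Dl z = qq z * Pf 1 (qq z) ^ 24 := by
  rw [Dl, (Mod.four_q z).1, mul_pow, Mod.exp24]

theorem psi_eq (z : ℂ) : psi 2 (al 2 0) z = Dl (z / 2) / Dl z ∧
    psi 2 (al 2 1) z = Dl ((z + 1) / 2) / Dl z ∧ psi 2 (al 2 2) z = 4096 * (Dl (2 * z) / Dl z) := by
  rw [R1.kro_psi_lo two_pos two_pos, R1.kro_psi_lo two_pos one_lt_two,
    R1.kro_psi_hi (lt_irrefl 2)]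
  refine ⟨?_, ?_, ?_⟩ <;> simp [al, M2.act, Mod.mob, div_eq_mul_inv]
  norm_num

theorem psi_q (z : ℂ) : ∃ r : ℂ, r = qq (z / 2) ∧
    psi 2 (al 2 0) z = r * Pf 1 r ^ 24 / (r ^ 2 * Pf 1 (r ^ 2) ^ 24) ∧
    psi 2 (al 2 1) z = -r * Pf 1 (-r) ^ 24 / (r ^ 2 * Pf 1 (r ^ 2) ^ 24) ∧
    psi 2 (al 2 2) z = 4096 * (r ^ 4 * Pf 1 (r ^ 4) ^ 24 / (r ^ 2 * Pf 1 (r ^ 2) ^ 24)) := by
  have e1 : qq z = qq (z / 2) ^ 2 := by
    rw [← Mod.qq_nat_mul]; congr 1; push_cast; ring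
  have e2 : qq (2 * z) = qq (z / 2) ^ 4 := by
    rw [← Mod.qq_nat_mul]; congr 1; push_cast; ring
  have e3 : qq ((z + 1) / 2) = -qq (z / 2) := by
    rw [add_div, Mod.qq_add, show qq (1 / 2) = cexp (Real.pi * I) by unfold qq; congr 1; ring,
      exp_pi_mul_I, mul_neg_one]
  obtain ⟨h0, h1, h2⟩ := psi_eq z
  refine ⟨_, rfl, ?_, ?_, ?_⟩
  · rw [h0, Dl_eq, Dl_eq z, e1]
  · rw [h1, Dl_eq, Dl_eq z, e1, e3]
  · rw [h2, Dl_eq, Dl_eq z, e1, e2]

theorem tend_r : Tendsto (fun z : ℂ => qq (z / 2)) atI (𝓝[≠] 0) := by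
  refine tendsto_nhdsWithin_iff.2 ⟨Mod.tendsto_qq.comp (tendsto_comap_iff.2 ?_),
    .of_forall fun z => Mod.qq_ne _⟩
  exact (Mod.tendsto_im.atTop_div_const two_pos).congr fun z => by simp

theorem P_zero : Pf 1 0 = 1 := by simpa [R1.Exp_const] using (Mod.rep_Pf one_pos).apply_zero

theorem P_der : HasDerivAt (fun r => Pf 1 r ^ 24) (-24) 0 := by
  have h := Mod.rep_Pf one_pos
  have h1 := h.2 1
  have h2 := X_pow_dvd_iff.1 Mod.PP_one 1 (by norm_num)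
  rw [map_sub, sub_eq_zero] at h2
  rw [iteratedDeriv_one, h2] at h1
  have h3 := (h.analyticAt.differentiableAt.hasDerivAt.fun_pow 24)
  rw [h1, P_zero] at h3
  refine h3.congr_deriv ?_
  simp [coeff_X, coeff_one, coeff_X_pow]

theorem P_pow (k : ℕ) (hk : k ≠ 0) : Tendsto (fun r : ℂ => Pf 1 (r ^ k) ^ 24) (𝓝[≠] 0) (𝓝 1) := by
  have h : Tendsto (fun r : ℂ => r ^ k) (𝓝 0) (𝓝 0) := by
    simpa [hk] using (continuous_pow k).tendsto (0 : ℂ)
  simpa [P_zero, Function.comp_def] using (P_der.continuousAt.tendsto.comp h).mono_left nhdsWithin_le_nhds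

theorem sum_eq (hz : 0 < z.im) :
    psi 2 (al 2 0) z + psi 2 (al 2 1) z + psi 2 (al 2 2) z = -48 := by
  refine eq_of_lim (F := fun z => psi 2 (al 2 0) z + psi 2 (al 2 1) z + psi 2 (al 2 2) z)
    (((diff_psi 0).add (diff_psi 1)).add (diff_psi 2))
    (sym_inv (fun a b c => a + b + c) (fun a b c => by ring) fun a b c => by ring) ?_ hz
  have d : HasDerivAt (fun r => Pf 1 (-r) ^ 24) 24 0 := by
    have := HasDerivAt.comp (h₂ := fun r => Pf 1 r ^ 24) (h := fun r : ℂ => -r) 0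
      (by simpa using P_der) (hasDerivAt_neg' 0)
    exact this.congr_deriv (by norm_num)
  have h0 : Tendsto (fun r : ℂ => r) (𝓝[≠] 0) (𝓝 0) := nhdsWithin_le_nhds
  have h1 := (((P_der.sub d).tendsto_slope_zero.add
    (((h0.pow 2).mul (P_pow 4 (by norm_num))).const_mul 4096)).div (P_pow 2 (by norm_num))
      one_ne_zero).comp tend_r
  have e : (-24 - 24 + 4096 * (0 ^ 2 * 1)) / 1 = (-48 : ℂ) := by norm_num
  rw [e] at h1
  refine h1.congr fun z => ?_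
  obtain ⟨r, hr, a0, a1, a2⟩ := psi_q z
  have := hr ▸ Mod.qq_ne (z / 2)
  simp only [Function.comp, Pi.div_apply, Pi.sub_apply, ← hr, a0, a1, a2, zero_add, neg_zero,
    sub_self, sub_zero, smul_eq_mul]
  field_simp
  ring

theorem prod_eq (hz : 0 < z.im) :
    psi 2 (al 2 0) z * psi 2 (al 2 1) z * psi 2 (al 2 2) z = -4096 := by
  refine eq_of_lim (F := fun z => psi 2 (al 2 0) z * psi 2 (al 2 1) z * psi 2 (al 2 2) z)
    (((diff_psi 0).mul (diff_psi 1)).mul (diff_psi 2))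
    (sym_inv (fun a b c => a * b * c) (fun a b c => by ring) fun a b c => by ring) ?_ hz
  have d : Tendsto (fun r : ℂ => Pf 1 (-r) ^ 24) (𝓝[≠] 0) (𝓝 1) := by
    have h : Tendsto (fun r : ℂ => -r) (𝓝 0) (𝓝 0) := by simpa using continuous_neg.tendsto (0 : ℂ)
    simpa [P_zero, Function.comp_def] using (P_der.continuousAt.tendsto.comp h).mono_left nhdsWithin_le_nhds
  have h1 := ((((((P_pow 1 (by norm_num)).mul d).mul (P_pow 4 (by norm_num))).const_mul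
    (-4096))).div ((P_pow 2 (by norm_num)).pow 3) (by norm_num)).comp tend_r
  have e : (-4096 * (1 * 1 * 1)) / 1 ^ 3 = (-4096 : ℂ) := by norm_num
  rw [e] at h1
  refine h1.congr fun z => ?_
  obtain ⟨r, hr, a0, a1, a2⟩ := psi_q z
  have := hr ▸ Mod.qq_ne (z / 2)
  simp only [Function.comp, Pi.div_apply, ← hr, a0, a1, a2, pow_one]
  field_simp

theorem rep_jf : ∃ (A : ℤ⟦X⟧) (Φ : ℂ → ℂ), constantCoeff A = 1 ∧ Mod.Rep Φ A ∧
    ∀ z : ℂ, 0 < z.im → Φ (qq z) = jf z * qq z ^ 1 := by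
  obtain ⟨V, -, cV, rV⟩ := R1.Exp_exists (Mod.rep_Pf one_pos) (R1.Exp_const 1)
    fun z hz => Mod.Pf_ne one_pos hz
  obtain ⟨W, -, cW, rW⟩ := R1.Exp_exists (Mod.rep_Pf two_pos) (R1.Exp_const 2)
    fun z hz => Mod.Pf_ne two_pos hz
  have r1 := Mod.Rep.id'.mul (((Mod.rep_Pf two_pos).mul rV).pow 24)
  refine ⟨_, _, ?_, (((Mod.rep_Pf one_pos).mul rW).pow 24).add (Mod.Rep.id'.mul
    (((Mod.Rep.nat 768).add ((Mod.Rep.nat 196608).mul r1)).add
      ((Mod.Rep.nat 16777216).mul (r1.pow 2)))), fun z hz => ?_⟩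
  · simp [R1.Exp_const, cW]
  · have h1 := sum_eq hz
    have h2 := prod_eq hz
    have h3 := (psi_eq z).2.2
    have e : Dl (2 * z) = qq z ^ 2 * Pf 2 (qq z) ^ 24 := by
      rw [Dl, show ModularForm.eta (2 * z) = _ from Mod.eta_eq 2 z, mul_pow, pow_right_comm, Mod.exp24]
    rw [e, Dl_eq z] at h3
    have n1 := Mod.Pf_ne one_pos hz
    have n2 := Mod.Pf_ne two_pos hz
    have n3 := Mod.qq_ne z
    have h4 : (Pf 1 (qq z) * (Pf 2 (qq z))⁻¹) ^ 24 * psi 2 (al 2 2) z = 4096 * qq z := by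
      rw [h3]; field_simp
    have h5 : 4096 * (qq z * (Pf 2 (qq z) * (Pf 1 (qq z))⁻¹) ^ 24) = psi 2 (al 2 2) z := by
      rw [h3]; field_simp
    have n4 : psi 2 (al 2 2) z ≠ 0 := fun h => by simp [h] at h2
    apply mul_right_cancel₀ n4
    simp only [jf]
    generalize (Pf 1 (qq z) * (Pf 2 (qq z))⁻¹) ^ 24 = u at h4 ⊢
    generalize qq z * (Pf 2 (qq z) * (Pf 1 (qq z))⁻¹) ^ 24 = v at h5 ⊢
    generalize psi 2 (al 2 2) z = c at *
    push_cast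
    linear_combination h4 + qq z * h2 + qq z * c ^ 2 * h1 + qq z * c * (48 + c + 4096 * v) * h5

theorem kf_U8 : KF 0 U8 := by
  obtain ⟨A, hA⟩ := R1.exists_U8
  exact ⟨((R1.hb_v1.pow 2).mul R1.hb_xx).pow 8,
    fun g hg z hz => by rw [R1.U8_act hg hz, pow_zero, one_mul], _, _, hA⟩

theorem kf_jf : KF 0 fun z => U8 z ^ 2 * jf z := by
  obtain ⟨A, hA⟩ := R1.exists_U8
  obtain ⟨B, Φ, -, h1, h2⟩ := rep_jf
  have h : ∀ i, R1.HB fun z => U8 z * psi 2 (al 2 i) z := fun i =>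
    R1.kro_hb (by rw [Mod.det_al]; norm_num)
  refine ⟨(((R1.HB.const 768).mul (kf_U8.hb.pow 2)).sub ((((h 0).mul (h 1)).add
    ((h 0).mul (h 2))).add ((h 1).mul (h 2)))).congr fun z _ => by rw [jf]; ring,
    fun g hg z hz => by rw [R1.U8_act hg hz, jf_act g z hg.1 hz, pow_zero, one_mul],
    2 * 48 + 1, A ^ 2 * B, ?_⟩
  rw [zs, map_mul, map_pow]
  exact (hA.pow one_pos 2).mul one_pos (R1.Exp_qe h1 h2)

end Pool.Agent.P.MP_8b7eba_nt.R2.TJF
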