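import Pool.Agent.P.MP_8b7eba_nt.R2.CMA
import Pool.Agent.P.MP_8b7eba_nt.R2.PWA
import Pool.Agent.P.MP_8b7eba_nt.R2.Csum

/-! Auxiliary results for JW. -/

namespace Pool.Agent.P.MP_8b7eba_nt.R2

open scoped NNReal
open MP_9c97e9_nt (pm Is ap)
open BSD15 (OO Good nm cj)
open _root_.Pool.Agent.P.MP_8b7eba_nt.Mod (M2 G0 xx al)
open R1 (emb Dl psi Pz KF U8 IntPt y1)

namespace TJW

/-- `u` is congruent to `1 + 16 e` modulo 32 -/
def Cg (w : Pl) (u e : Om) : Prop :=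
  e ∈ w.v.integer ∧ ∃ t ∈ w.v.integer, u = 1 + 16 * e + 32 * t

variable {w : Pl} {u u' e e' : Om}

theorem nat_mem (w : Pl) (n : ℕ) [n.AtLeastTwo] : (ofNat(n) : Om) ∈ w.v.integer :=
  natCast_mem w.v.integer n

theorem Cg.mul (h : Cg w u e) (h' : Cg w u' e') : Cg w (u * u') (e + e') := by
  obtain ⟨h1, t, h2, rfl⟩ := h
  obtain ⟨h3, t', h4, rfl⟩ := h'
  refine ⟨add_mem h1 h3, t + t' + 8 * (e * e') + 16 * (e * t') + 16 * (e' * t) + 32 * (t * t'),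
    ?_, by ring⟩
  exact add_mem (add_mem (add_mem (add_mem (add_mem h2 h4) (mul_mem (nat_mem w 8) (mul_mem h1 h3)))
    (mul_mem (nat_mem w 16) (mul_mem h1 h4))) (mul_mem (nat_mem w 16) (mul_mem h3 h2)))
    (mul_mem (nat_mem w 32) (mul_mem h2 h4))

theorem Cg.one : Cg w 1 0 := ⟨zero_mem _, 0, zero_mem _, by simp⟩

theorem Cg.prod {ι : Type} (s : Finset ι) {f g : ι → Om} (h : ∀ i, Cg w (f i) (g i)) :
    Cg w (∏ i ∈ s, f i) (∑ i ∈ s, g i) := by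
  induction s using Finset.cons_induction with
  | empty => exact Cg.one
  | cons a s ha ih => rw [Finset.sum_cons, Finset.prod_cons]; exact (h a).mul ih

theorem Cg.five (h : Cg w u e) : Cg w (u ^ 5) e := by
  obtain ⟨-, t, h2, h3⟩ := (((h.mul h).mul h).mul h).mul h
  exact ⟨h.1, t + 2 * e, add_mem h2 (mul_mem (nat_mem w 2) h.1), by linear_combination h3⟩

theorem Cg.v (hw : w.p = 2) (h : Cg w u e) : w.v u = 1 := by
  obtain ⟨h1, t, h2, rfl⟩ := h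
  have h3 : w.v (8 * e + 16 * t) ≤ 1 :=
    add_mem (mul_mem (nat_mem w 8) h1) (mul_mem (nat_mem w 16) h2)
  rw [show 1 + 16 * e + 32 * t = 1 + 2 * (8 * e + 16 * t) by ring]
  refine w.v.map_one_add_of_lt ?_
  rw [map_mul, Pl.v_two' hw]
  exact mul_lt_one_of_nonneg_of_lt_one_left zero_le (by norm_num) h3

theorem Cg.inv (hw : w.p = 2) (h : Cg w u e) : Cg w u⁻¹ e := by
  have h0 : u ≠ 0 := fun z => by simpa [z] using h.v hw
  have h5 : u⁻¹ ∈ w.v.integer := by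
    rw [Valuation.mem_integer_iff, map_inv₀, h.v hw, inv_one]
  obtain ⟨h1, t, h2, h3⟩ := h
  refine ⟨h1, u⁻¹ * -(e + 8 * (e * e) + t * (1 + 16 * e)), mul_mem h5 (neg_mem (add_mem (add_mem h1
    (mul_mem (nat_mem w 8) (mul_mem h1 h1))) (mul_mem h2 (add_mem (one_mem _)
      (mul_mem (nat_mem w 16) h1))))), ?_⟩
  have h4 := mul_inv_cancel₀ h0
  linear_combination (1 + 16 * e) * h4 - u⁻¹ * (1 + 16 * e) * h3

theorem Cg.le (h : Cg w u e) : w.v (u - 1 - 16 * e) ≤ w.v 32 := by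
  obtain ⟨-, t, h2, rfl⟩ := h
  rw [show 1 + 16 * e + 32 * t - 1 - 16 * e = 32 * t by ring, map_mul]
  exact mul_le_of_le_one_right zero_le h2

theorem exists_of_le {x m : Om} (hm : m ≠ 0) (h : w.v x ≤ w.v m) :
    ∃ t ∈ w.v.integer, x = m * t := by
  refine ⟨x / m, ?_, by field_simp⟩
  rw [Valuation.mem_integer_iff, map_div₀]
  exact div_le_one_of_le₀ h zero_le

theorem cg_rO (hJC : JC) (P : Pre) {n : ℕ} (hn : 0 < n) {I : Ideal (OO P.l)} (hI : Ad 2 I) :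
    Cg P.w2 (-rO n I) (JO (cl (2 ^ (n + 1)) I))⁻¹ := by
  obtain ⟨h1, h2, -, h3⟩ := hJC P I n hI
  obtain ⟨s, h4, h5⟩ := exists_of_le (by norm_num) h2
  obtain ⟨t, h6, h7⟩ := exists_of_le (by norm_num) (h3 hn)
  generalize cO n I = c at *
  generalize JO (cl (2 ^ (n + 1)) I) = j at *
  have h8 : P.w2.v j = 1 := by
    rw [show j = c - 256 * s by linear_combination -h5, P.w2.v.map_sub_eq_of_lt_left, h1]
    rw [h1, map_mul, show (256 : Om) = 2 ^ 8 by norm_num, map_pow, Pl.v_two' P.hw2]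
    exact mul_lt_one_of_nonneg_of_lt_one_left zero_le (by norm_num) h4
  have c0 : c ≠ 0 := fun z => by simp [z] at h1
  have j0 : j ≠ 0 := fun z => by simp [z] at h8
  have ci : c⁻¹ ∈ P.w2.v.integer := by rw [Valuation.mem_integer_iff, map_inv₀, h1, inv_one]
  have ji : j⁻¹ ∈ P.w2.v.integer := by rw [Valuation.mem_integer_iff, map_inv₀, h8, inv_one]
  refine ⟨ji, c⁻¹ - 128 * (t + s * (c⁻¹ * j⁻¹)), sub_mem ci (mul_mem (nat_mem _ 128)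
    (add_mem h6 (mul_mem h4 (mul_mem ci ji)))), ?_⟩
  have c1 := mul_inv_cancel₀ c0
  have j1 := mul_inv_cancel₀ j0
  rw [div_eq_mul_inv] at h7
  linear_combination -h7 - 16 * c⁻¹ * j⁻¹ * h5 + 16 * j⁻¹ * c1 - 16 * c⁻¹ * j1

theorem alg_io (x : Om) : IsAlgebraic ℚ (io x) :=
  (Algebra.IsAlgebraic.isAlgebraic (R := ℚ) x).algHom (IsAlgClosed.lift : Om →ₐ[ℚ] ℂ)

theorem alg_cubic {t : ℂ} {j : Om} (h : (t + 16) ^ 3 = io j * t) : IsAlgebraic ℚ t := by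
  obtain ⟨a, ha⟩ : ∃ a : Om, a ^ 3 + (48 * a ^ 2 + (768 - j) * a + 4096) = 0 := by
    obtain ⟨a, ha⟩ := IsAlgClosed.exists_root (Polynomial.C 1 * Polynomial.X ^ 3 +
      Polynomial.C 48 * Polynomial.X ^ 2 + Polynomial.C (768 - j) * Polynomial.X +
      Polynomial.C 4096) (by rw [Polynomial.degree_cubic one_ne_zero]; norm_num)
    refine ⟨a, ?_⟩
    simp only [Polynomial.IsRoot, Polynomial.eval_add, Polynomial.eval_mul, Polynomial.eval_pow,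
      Polynomial.eval_X, Polynomial.eval_C] at ha
    linear_combination ha
  obtain ⟨d, hd⟩ := IsAlgClosed.exists_pow_nat_eq ((a + 48) ^ 2 - 4 * (a * (a + 48) + 768 - j))
    two_pos
  have h1 := congrArg io ha
  have h2 := congrArg io hd
  simp only [map_add, map_sub, map_mul, map_pow, map_ofNat, map_zero] at h1 h2
  have h3 : (t - io a) * ((t - io ((d - (a + 48)) / 2)) * (t - io ((-d - (a + 48)) / 2))) = 0 := by
    simp only [map_add, map_sub, map_div₀, map_neg, map_ofNat]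
    linear_combination h - h1 - (t - io a) / 4 * h2
  simp only [mul_eq_zero, sub_eq_zero] at h3
  rcases h3 with h3 | h3 | h3 <;> exact h3 ▸ alg_io _

theorem frac {a b c d : ℂ} (ha : a ≠ 0) (hb : b ≠ 0) (hc : c ≠ 0) :
    2 ^ 12 * d / (b / a ^ 12) * (2 ^ 12 * c / b)⁻¹ = a ^ 12 * d / c := by
  field_simp

variable {l : ℕ} [Hl l] {n : ℕ} {I : Ideal (OO l)}

theorem alg_c (hE : CE) (h : Ad 2 I) :
    2 ^ 12 * DL (Lc (2 ^ (n + 1)) I) / DL (Lc (2 ^ n) I) ≠ 0 ∧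
    IsAlgebraic ℚ (2 ^ 12 * DL (Lc (2 ^ (n + 1)) I) / DL (Lc (2 ^ n) I)) := by
  have h1 := (isL_Lc (c := 2 ^ n) (by positivity) h.1).cubic hE.jf
    (Lc_mono le_rfl (pow_dvd_pow 2 n.le_succ))
    (Lc_relIndex' (c := 2 ^ n) (c' := 2) (by positivity) (ad_two_pow (n := n + 1) h)) rfl
  rw [← (JO_cl hE.tau hE.jf (cd_two_pow n) (ad_two_pow h)).1] at h1
  exact ⟨h1.1, alg_cubic h1.2.1⟩

theorem ad_al (hn : 0 < n) : Ad 2 (Ideal.span {(⟨1, 2 ^ n⟩ : OO l)}) :=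
  (ker_two hn).1.ad.mono (dvd_pow_self 2 hn.ne')

theorem emb_ne (hn : 0 < n) : emb l ⟨1, 2 ^ n⟩ ≠ 0 := fun z =>
  (ker_two (l := l) hn).1.1 (R1.emb_injective l (z.trans (map_zero (R1.embH l)).symm))

theorem io_rO (hE : CE) (hn : 0 < n) (h : Ad 2 I) : io (rO n I) =
    emb l ⟨1, 2 ^ n⟩ ^ 12 * DL (Lc (2 ^ (n + 1)) (Ideal.span {⟨1, 2 ^ n⟩} * I)) /
      DL (Lc (2 ^ (n + 1)) I) := by
  refine io_ii hE.tau ?_
  obtain ⟨-, h1⟩ := alg_c (n := n) hE ((ad_al hn).mul h)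
  obtain ⟨-, h2⟩ := alg_c (n := n) hE h
  have h3 := isL_Lc (c := 2 ^ n) (by positivity) h.1
  have h4 := (isL_Lc (c := 2 ^ (n + 1)) (by positivity) h.1).DL_ne
  have h5 := h3.DL_ne
  have h6 := emb_ne (l := l) hn
  rw [Lc_span (ker_two hn).1, h3.DL_sc h6] at h1
  have h7 := h1.mul h2.inv
  rwa [frac h6 h5 h4] at h7

theorem quot (hE : CE) (hn : 0 < n) (h : Ad 2 I) :
    (XO (cl (2 ^ (n + 1)) (Ideal.span {⟨1, 2 ^ n⟩} * I)) / XO (cl (2 ^ (n + 1)) I)) ^ 24 =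
      -rO n (I * nI l 3) * (-rO n (I * nI l 5)) ^ 5 *
        ((-rO n I)⁻¹ * ((-rO n (I * nI l 15)) ^ 5)⁻¹) := by
  have hc := cd_two_pow (n + 1)
  obtain ⟨a3, a5, a15⟩ := (cd_two_pow 1).ad (l := l)
  rw [pow_one] at a3 a5 a15
  have h' := (ad_al hn).mul h
  have d : ∀ J : Ideal (OO l), Ad 2 J → DL (Lc (2 ^ (n + 1)) J) ≠ 0 := fun J hJ =>
    (isL_Lc (by positivity) hJ.1).DL_ne
  apply io.injective
  simp only [map_pow, map_div₀, map_mul, map_inv₀, map_neg]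
  rw [div_pow, XO_cl hE.tau hc (ad_two_pow h), XO_cl hE.tau hc (ad_two_pow h'),
    xx_hz hc (ad_two_pow h), xx_hz hc (ad_two_pow h'), io_rO hE hn h, io_rO hE hn (h.mul a3),
    io_rO hE hn (h.mul a5), io_rO hE hn (h.mul a15), mul_assoc (Ideal.span _),
    mul_assoc (Ideal.span _), mul_assoc (Ideal.span _)]
  have d1 := d _ h
  have d2 := d _ (h.mul a3)
  have d3 := d _ (h.mul a5)
  have d4 := d _ (h.mul a15)
  have d5 := d _ h'
  have d6 := d _ ((ad_al hn).mul (h.mul a15))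
  have h6 := emb_ne (l := l) hn
  field_simp

theorem cg_XO (hE : CE) (hJC : JC) (P : Pre) (hn : 0 < n) (y : RC P.l (2 ^ (n + 1))) :
    Cg P.w2 ((XO (cl _ (Ideal.span {(⟨1, 2 ^ n⟩ : OO P.l)}) * y) / XO y) ^ 24)
      ((JO (y * cl _ (nI P.l 3)))⁻¹ + (JO (y * cl _ (nI P.l 5)))⁻¹ +
        ((JO y)⁻¹ + (JO (y * cl _ (nI P.l 15)))⁻¹)) := by
  obtain ⟨h1, h2⟩ := rp_spec y
  generalize rp y = I at h1 h2
  subst h2
  have h := h1.mono (dvd_pow_self 2 n.succ_ne_zero)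
  obtain ⟨a3, a5, a15⟩ := (cd_two_pow 1).ad (l := P.l)
  rw [pow_one] at a3 a5 a15
  rw [← cl_mul (ad_two_pow (ad_al hn)) h1, ← cl_mul h1 (ad_two_pow a3),
    ← cl_mul h1 (ad_two_pow a5), ← cl_mul h1 (ad_two_pow a15), quot hE hn h]
  exact ((cg_rO hJC P hn (h.mul a3)).mul (cg_rO hJC P hn (h.mul a5)).five).mul
    (((cg_rO hJC P hn h).inv P.hw2).mul ((cg_rO hJC P hn (h.mul a15)).five.inv P.hw2))

theorem act {P : Pre} {c : ℕ} (h : IsAr P c) {g : GQ} (hg : g ∈ P.GK) (a : RC P.l c) :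
    ac g (HP a) = HP ((ar P.l c g)⁻¹ * a) ∧ g (XO a) = XO ((ar P.l c g)⁻¹ * a) := by
  have := h.act g hg ((ar P.l c g)⁻¹ * a)
  rw [mul_inv_cancel_left] at this
  exact ⟨this.1, this.2.2⟩

/-- the invariant of the Kummer map -/
def Ph (S : Subgroup GQ) (Q : EO) (β : Om) : Prop :=
  β ≠ 0 ∧ ∀ g ∈ S, (ac g Q - Q) + (ac g Q - Q) = 0 ∧ g β = MP_9c97e9_nt.sg 0 (ac g Q - Q) * β

theorem Ph.step {S : Subgroup GQ} {Q : EO} {β : Om} {γ : GQ} (hγ : ∀ g ∈ S, γ⁻¹ * g * γ ∈ S)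
    (h : Ph S Q β) : Ph S (ac γ Q - Q) (γ β / β) := by
  refine ⟨div_ne_zero ((map_ne_zero γ).2 h.1) h.1, fun g hg => ?_⟩
  obtain ⟨h1, h2⟩ := h.2 g hg
  obtain ⟨h3, h4⟩ := h.2 _ (hγ g hg)
  have e : γ * (γ⁻¹ * g * γ) = g * γ := by group
  have h5 : ac g (ac γ Q - Q) - (ac γ Q - Q) = (ac (γ⁻¹ * g * γ) Q - Q) + (ac g Q - Q) := by
    have h6 := ac_two γ ((two_nsmul _).trans h3)
    rw [map_sub, ← ac_mul, e, ac_mul] at h6
    rw [map_sub, sub_sub_sub_comm, h6, sub_eq_add_neg, neg_eq_of_add_eq_zero_left h1]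
  rw [h5]
  refine ⟨by rw [add_add_add_comm, h1, h3, add_zero], ?_⟩
  have h7 : g (γ β) = γ ((γ⁻¹ * g * γ) β) := by
    rw [← AlgEquiv.mul_apply, ← AlgEquiv.mul_apply, e]
  have h8 : ((MP_9c97e9_nt.sg 0 (ac g Q - Q) : ℤ) : Om) * MP_9c97e9_nt.sg 0 (ac g Q - Q) = 1 := by
    exact_mod_cast MP_9c97e9_nt.sg_sq (0 : Om) (ac g Q - Q)
  rw [MP_9c97e9_nt.sg_add split15 h3 h1, map_div₀, h7, h4, h2, map_mul, map_intCast, Int.cast_mul,
    div_eq_iff (mul_ne_zero (right_ne_zero_of_mul_eq_one h8) h.1)]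
  have h9 := mul_inv_cancel₀ h.1
  rw [div_eq_mul_inv]
  generalize ((MP_9c97e9_nt.sg 0 (ac g Q - Q) : ℤ) : Om) = a at h8
  generalize ((MP_9c97e9_nt.sg 0 (ac (γ⁻¹ * g * γ) Q - Q) : ℤ) : Om) = b
  linear_combination -(b * γ β * (β * β⁻¹)) * h8 - b * γ β * h9

theorem gen_w {G H : Type} [CommGroup G] [Group H] [Finite G] (O : Subgroup G)
    (hO : ∀ a, a ∈ O ↔ ∃ r, Odd r ∧ a ^ r = 1) (π : G →* H) {k x : G} (i n3 n5 n15 : G)
    (k1 : k ≠ 1) (k2 : ∀ x, π x = 1 → x = 1 ∨ x = k) (h1 : x ∉ O) (h2 : ∃ r, Odd r ∧ π x ^ r = 1)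
    (X J : G → Om) (σ : GQ) (hσ : ∀ a, σ (X a) = X (x⁻¹ * a))
    (key : ∀ y, Cg w ((X (k * y) / X y) ^ 24)
      ((J (y * n3))⁻¹ + (J (y * n5))⁻¹ + ((J y)⁻¹ + (J (y * n15))⁻¹)))
    (U : Om) (hU : U = ∏ᶠ b : O, X b.1 * X (i⁻¹ * b.1)) (D : G → Om)
    (hD : ∀ x, D x = ∑ᶠ b : O, ((J (x * b.1))⁻¹ + (J (x * i⁻¹ * b.1))⁻¹)) :
    w.v ((σ U / U) ^ 24 - 1 - 16 * (D 1 + D n3 + D n5 + D n15)) ≤ w.v 32 := by
  have := Fintype.ofFinite O
  obtain ⟨r, hr, h3⟩ := h2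
  rw [← map_pow] at h3
  have h4 := (k2 _ h3).resolve_left fun z => h1 ((hO _).2 ⟨r, hr, z⟩)
  have h5 : k * k = 1 := (k2 _ (by rw [map_mul, ← h4, h3, one_mul])).resolve_right fun z =>
    k1 (mul_eq_left.1 z)
  have h6 : x⁻¹ * k ∈ O := by
    refine (hO _).2 ⟨r, hr, ?_⟩
    obtain ⟨m, rfl⟩ := hr
    rw [mul_pow, inv_pow, h4, pow_succ, pow_mul, sq, h5, one_pow, one_mul, inv_mul_cancel]
  have h7 : ∀ y, k * (x⁻¹ * k * y) = x⁻¹ * y :=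
    fun y => by rw [mul_assoc, mul_left_comm, ← mul_assoc k, h5, one_mul]
  have h8 : σ U = ∏ b : O, X (k * b.1) * X (k * (i⁻¹ * b.1)) := by
    rw [hU, finprod_eq_prod_of_fintype, map_prod,
      ← Equiv.prod_comp (Equiv.mulLeft (⟨_, h6⟩ : O)) fun b => X (k * b.1) * X (k * (i⁻¹ * b.1))]
    refine Finset.prod_congr rfl fun b _ => ?_
    rw [map_mul, hσ, hσ, ← h7, ← h7 (i⁻¹ * b.1), mul_left_comm _ i⁻¹]
    rfl
  have h9 := Cg.prod Finset.univ fun b : O => (key b.1).mul (key (i⁻¹ * b.1))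
  have e1 : (σ U / U) ^ 24 = ∏ b : O,
      (X (k * b.1) / X b.1) ^ 24 * (X (k * (i⁻¹ * b.1)) / X (i⁻¹ * b.1)) ^ 24 := by
    rw [h8, hU, finprod_eq_prod_of_fintype, ← Finset.prod_div_distrib, ← Finset.prod_pow]
    exact Finset.prod_congr rfl fun b _ => by rw [← mul_pow, div_mul_div_comm]
  have e2 : ∀ x, D x = ∑ b : O, ((J (b.1 * x))⁻¹ + (J (i⁻¹ * b.1 * x))⁻¹) := fun x => by
    rw [hD, finsum_eq_sum_of_fintype]
    exact Finset.sum_congr rfl fun b _ => by rw [mul_assoc x, mul_comm x, mul_comm x]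
  rw [e1, e2, e2, e2, e2, ← Finset.sum_add_distrib, ← Finset.sum_add_distrib,
    ← Finset.sum_add_distrib]
  refine le_of_eq_of_le (congrArg (fun z => w.v (_ - 1 - 16 * z))
    (Finset.sum_congr rfl fun b _ => ?_)) h9.le
  rw [mul_one, mul_one]
  ring

/-- the classes which occur in the trace -/
def cf {G : Type} [Group G] (O : Subgroup G) (i : G) : O ⊕ O → G :=
  Sum.elim (fun b => b.1) fun b => i⁻¹ * b.1

theorem perm {G : Type} [CommGroup G] (O : Subgroup G) {i x : G} (hi : i * i ∈ O)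
    (hx : x ∈ O ∨ i * x ∈ O) : ∃ e : O ⊕ O ≃ O ⊕ O, ∀ j, x⁻¹ * cf O i j = cf O i (e j) := by
  rcases hx with hx | hx
  · refine ⟨Equiv.sumCongr (Equiv.mulLeft ⟨x, hx⟩⁻¹) (Equiv.mulLeft ⟨x, hx⟩⁻¹), ?_⟩
    rintro (b | b)
    · rfl
    · exact mul_left_comm _ _ _
  · refine ⟨(Equiv.sumCongr (Equiv.mulLeft (⟨_, hi⟩ * ⟨_, hx⟩⁻¹))
      (Equiv.mulLeft ⟨_, hx⟩⁻¹)).trans (Equiv.sumComm _ _), ?_⟩
    rintro (b | b)
    · show x⁻¹ * b.1 = i⁻¹ * (i * i * (i * x)⁻¹ * b.1)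
      rw [mul_inv, mul_assoc i i, mul_inv_cancel_left, mul_assoc, inv_mul_cancel_left]
    · show x⁻¹ * (i⁻¹ * b.1) = (i * x)⁻¹ * b.1
      rw [mul_inv, mul_left_comm, mul_assoc]

theorem fin {A D : Om} {t : ℝ≥0} {M : ℕ} (hw : w.p = 2) (hM : 3 ≤ M)
    (h1 : w.v (A - 1 - 16 * D) ≤ w.v 32) (h2 : w.v D = t ^ 5) (h3 : t ^ 2 ^ M = w.v 2) :
    w.v (A - 1) = w.v 16 * t ^ 5 := by
  have v2 := Pl.v_two' hw
  have t0 : 0 < t := pos_of_ne_zero fun z => by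
    rw [z, zero_pow (by positivity), v2] at h3
    norm_num at h3
  have t1 : t < 1 := lt_of_pow_lt_pow_left₀ (2 ^ M) zero_le (by rw [h3, v2, one_pow]; norm_num)
  have h4 : w.v 32 < w.v (16 * D) := by
    rw [show (32 : Om) = 16 * 2 by norm_num, map_mul, map_mul, h2, ← h3]
    refine mul_lt_mul_of_pos_left (pow_lt_pow_right_of_lt_one₀ t0 t1 ?_)
      (pos_of_ne_zero ((map_ne_zero _).2 (by norm_num)))
    exact lt_of_lt_of_le (by norm_num) (pow_le_pow_right₀ one_le_two hM)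
  rw [← sub_add_cancel (A - 1) (16 * D), w.v.map_add_eq_of_lt_right (h1.trans_lt h4), map_mul, h2]

end TJW

end Pool.Agent.P.MP_8b7eba_nt.R2
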