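import Pool.Agent.P.MP_8b7eba_nt.R2.PWA

/-! Proof of LGC. -/

namespace Pool.Agent.P.MP_8b7eba_nt.R2

open scoped NNReal Pointwise
open MP_9c97e9_nt (pm Is ap)
open BSD15 (OO Good nm cj)
open _root_.Pool.Agent.P.MP_8b7eba_nt.Mod (M2 G0 xx al)
open R1 (emb Dl psi Pz KF U8 IntPt y1)

namespace TLGC

variable {P : Pre} {n m : ℕ} {χ : GQ → ZMod (2 ^ n)} {lam : Ideal (OO P.l) → ZMod (2 ^ n)}

/-- the standard character -/
noncomputable def e (a : ZMod (2 ^ n)) : Om := ec ((a.val : ℚ_[2]) / 2 ^ n)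

theorem one_iff (h : IsEc ec) (k : ℤ) : ec (k / 2 ^ n) = 1 ↔ (k : ZMod (2 ^ n)) = 0 := by
  have h2 : ‖(2 : ℚ_[2])‖ = 2⁻¹ := by simpa using Padic.norm_p (p := 2)
  have h3 := Padic.norm_int_le_pow_iff_dvd (p := 2) k n
  rw [h.eq_one, ZMod.intCast_zmod_eq_zero_iff_dvd, norm_div, norm_pow, h2,
    div_le_one (by positivity)]
  simpa using h3

theorem e_int (h : IsEc ec) (k : ℤ) : ec (k / 2 ^ n) = e (k : ZMod (2 ^ n)) := by
  have h1 := (one_iff (n := n) h (k - ((k : ZMod (2 ^ n)).val : ℤ))).2 (by simp)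
  rw [e, ← one_mul (ec ((((k : ZMod (2 ^ n)).val : ℕ) : ℚ_[2]) / 2 ^ n)), ← h1, ← h.add]
  congr 1
  simp only [Int.cast_sub, Int.cast_natCast]
  ring

theorem e_add (h : IsEc ec) (a b : ZMod (2 ^ n)) : e (a + b) = e a * e b := by
  have h1 := e_int (n := n) h ((a.val : ℤ) + (b.val : ℤ))
  simp only [Int.cast_add, Int.cast_natCast, ZMod.natCast_zmod_val] at h1
  rw [← h1, add_div, h.add]
  rfl

theorem e_one (h : IsEc ec) {a : ZMod (2 ^ n)} : e a = 1 ↔ a = 0 := by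
  simpa [e] using one_iff (n := n) h (a.val : ℤ)

theorem e_neg (h : IsEc ec) {a : ZMod (2 ^ n)} {x : Om} (hx : x * e a = 1) :
    x = ec (-(a.val : ℚ_[2]) / 2 ^ n) := by
  have h1 : ec (-(a.val : ℚ_[2]) / 2 ^ n) * e a = 1 := by
    rw [e, ← h.add, neg_div, neg_add_cancel, h.eq_one]
    simp
  exact mul_right_cancel₀ (right_ne_zero_of_mul_eq_one hx) (hx.trans h1.symm)

theorem co2T (hA : CA) {H : Subgroup GQ} (hχ : IsCh H χ) {a : Om} (ha : Fix H a) (h0 : a ≠ 0) :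
    Co2T H (cup χ a) :=
  let h := hA.cup H a ha h0 _ χ (by positivity) hχ
  ⟨h.1, n, h.2.1⟩

theorem locv (hCB : CB) (hχ : IsCh P.GK χ) {w : Pl} (h2 : w.p ≠ 2) (hI : w.I ≤ P.GK)
    (hu : ∀ g ∈ w.I ⊓ P.GK, χ g = 0) {f : ℕ} {φ : GQ} (hφ : φ ∈ P.GK) (hF : w.IsFrob f φ)
    (hf : f = P.GK.relIndex w.D) {π a : Om} (hπ : w.Unif (w.D ⊓ P.GK) π)
    (ha : Fix (w.D ⊓ P.GK) a) (h0 : a ≠ 0) {k : ℕ} (hk : w.v a = w.v π ^ k) :
    nv w (w.D ⊓ P.GK) (cup χ a) = e (k • χ φ) := by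
  rw [hCB.locv w _ n f χ φ π a k h2 (w.loc_inf P.on.2) (hχ.mono inf_le_right)
    (fun g hg => hu g ⟨hg.1, hg.2.2⟩) ⟨hF.1, hφ⟩ hF ?_ hπ ha h0 (by rw [hk, zpow_natCast]),
    e_int hCB.ec.1]
  · congr 1
    simp [mul_comm]
  · rw [Subgroup.relIndex_eq_one.2 (le_inf w.I_le_D hI), mul_one, hf, inf_comm,
      Subgroup.inf_relIndex_right]

/-- the hypotheses -/
structure Hy (P : Pre) (n m : ℕ) (χ : GQ → ZMod (2 ^ n)) (lam : Ideal (OO P.l) → ZMod (2 ^ n))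
    (B : ℕ) : Prop where
  m0 : m ≠ 0
  ch : IsCh P.GK χ
  sq : ∀ s, s ∉ P.GK → χ (s * s) = 0
  mul : ∀ I J, Ad m I → Ad m J → lam (I * J) = lam I + lam J
  oc : ∀ β, Oc m β → lam (Ideal.span {β}) = 0
  fr : ∀ (w : Pl) (φ : GQ), B < w.p → φ ∈ P.GK → w.IsFrob 1 φ → χ φ = lam (pw P.l w)
  un : ∀ w : Pl, B < w.p → ∀ g ∈ w.I ⊓ P.GK, χ g = 0
  le : 2 ≤ B ∧ P.l ≤ B ∧ m ≤ B

variable {B : ℕ}

theorem Hy.nd (H : Hy P n m χ lam B) {w : Pl} (h : B < w.p) : ¬ w.p ∣ m := fun e =>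
  absurd (Nat.le_of_dvd (Nat.pos_of_ne_zero H.m0) e) (by have := H.le; omega)

theorem Hy.top (H : Hy P n m χ lam B) : lam ⊤ = 0 := by
  simpa using H.mul ⊤ ⊤ ad_top ad_top

theorem Hy.pow (H : Hy P n m χ lam B) {I : Ideal (OO P.l)} (h : Ad m I) (k : ℕ) :
    lam (I ^ k) = k • lam I := by
  induction k with
  | zero => simpa using H.top
  | succ k ih => rw [pow_succ, H.mul _ _ (h.pow k) h, ih, succ_nsmul]

theorem Hy.congr (H : Hy P n m χ lam B) {β β' : OO P.l} (h : Ad m (Ideal.span {β}))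
    (h' : Ad m (Ideal.span {β'})) (hd : (m : OO P.l) ∣ β' - β) :
    lam (Ideal.span {β'}) = lam (Ideal.span {β}) := by
  obtain ⟨h1, h2⟩ := ad_span.1 h
  have hs : star β ≠ 0 := by simpa using h1
  have h3 : Ad m (Ideal.span {star β}) :=
    ad_span.2 ⟨hs, by rwa [QuadraticAlgebra.norm_star]⟩
  have key : ∀ γ : OO P.l, Ad m (Ideal.span {γ}) → (m : OO P.l) ∣ γ - β →
      lam (Ideal.span {γ}) + lam (Ideal.span {star β}) = 0 := fun γ hγ ⟨δ, hδ⟩ => by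
    obtain ⟨h4, h5⟩ := ad_span.1 hγ
    rw [← H.mul _ _ hγ h3, Ideal.span_singleton_mul_span_singleton]
    refine H.oc _ ⟨mul_ne_zero h4 hs, ⟨(δ * star β).im, ?_⟩, ?_⟩
    · rw [eq_add_of_sub_eq hδ, add_mul, BSD15.qbasic_mul_star, mul_assoc,
        QuadraticAlgebra.im_add, QuadraticAlgebra.im_intCast, add_zero]
      simp [QuadraticAlgebra.im_mul]
    · rw [map_mul, QuadraticAlgebra.norm_star]
      exact h5.mul_left h2
  exact add_right_cancel ((key _ h' hd).trans (key _ h (by simp)).symm)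

theorem Hy.one (H : Hy P n m χ lam B) : lam (Ideal.span {(1 : OO P.l)}) = 0 := by
  rw [Ideal.span_singleton_one, H.top]

/-- the local invariant at a large place -/
theorem Hy.loc (hCB : CB) (H : Hy P n m χ lam B) {w : Pl} (h : B < w.p) {π a : Om}
    (hπ : w.Unif (w.D ⊓ P.GK) π) (ha : Fix (w.D ⊓ P.GK) a) (h0 : a ≠ 0) {k : ℕ}
    (hk : w.v a = w.v π ^ k) : nv w (w.D ⊓ P.GK) (cup χ a) = e (lam (pw P.l w ^ k)) := by
  have hB := H.le
  have hl : w.p ≠ P.l := by omega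
  have hI := I_le_GK hCB.toCA hl
  obtain ⟨f, F, -, -, hF, h1, -⟩ := hCB.frob w _ w.loc_D
  rw [h1 rfl] at hF
  rw [H.pow (ad_pw.2 (H.nd h))]
  by_cases hD : w.D ≤ P.GK
  · rw [locv hCB H.ch (by omega) hI (H.un w h) (hD hF.1) hF (Subgroup.relIndex_eq_one.2 hD).symm
      hπ ha h0 hk, H.fr w F h (hD hF.1) hF]
  · have hF' : F ∉ P.GK := fun e => hD ((D_le_GK hCB.toCA hl hF).2 e)
    have := P.on.1
    have h2 := Subgroup.relIndex_dvd_index_of_normal P.GK w.D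
    rw [(hCB.karith P).2.2.1, Nat.dvd_prime Nat.prime_two, Subgroup.relIndex_eq_one] at h2
    rw [locv hCB H.ch (by omega) hI (H.un w h) (P.mul_mem hF' hF') (hF.mul hF)
      (h2.resolve_left hD).symm hπ ha h0 hk, H.sq F hF', (pw_inert hCB.toCA hl hD).1]
    have h3 := H.oc _ (oc_int (l := P.l) (n := w.p) (by exact_mod_cast w.prime.ne_zero)
      (Nat.isCoprime_iff_coprime.2 ((Nat.Prime.coprime_iff_not_dvd w.prime).2 (H.nd h))))
    rw [Int.cast_natCast] at h3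
    rw [h3]

theorem Hy.prod (hCB : CB) (H : Hy P n m χ lam B) (R : Finset Pl) (k : Pl → ℕ)
    (h : ∀ w ∈ R, B < w.p) : Ad m (∏ w ∈ R, pw P.l w ^ k w) ∧
      e (lam (∏ w ∈ R, pw P.l w ^ k w)) = ∏ w ∈ R, e (lam (pw P.l w ^ k w)) := by
  classical
  induction R using Finset.induction_on with
  | empty => simpa [ad_top, H.top] using (e_one hCB.ec.1).2 rfl
  | insert w R hw ih =>
    obtain ⟨h1, h2⟩ := ih fun w hw => h w (Finset.mem_insert_of_mem hw)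
    have h3 := (ad_pw.2 (H.nd (h w (Finset.mem_insert_self _ _))) : Ad m (pw P.l w)).pow (k w)
    rw [Finset.prod_insert hw, Finset.prod_insert hw, H.mul _ _ h3 h1, e_add hCB.ec.1, h2]
    exact ⟨h3.mul h1, rfl⟩

theorem unif (hCB : CB) (P : Pre) (w : Pl) : ∃ π, w.Unif (w.D ⊓ P.GK) π :=
  let ⟨π, _, h, _⟩ := hCB.unif w _ P.on.2
  ⟨π, h⟩

theorem not_out {R : Finset Pl} {w : Pl} (h : w ∈ R) : ¬ Out P.GK R w := fun e =>
  e 1 (one_mem _) (by simpa using h)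

/-- the reciprocity law -/
theorem Hy.core (hCB : CB) (H : Hy P n m χ lam B) {R : Finset Pl} (hS : Sep P.GK R)
    (hO : ∀ w, Out P.GK R w ↔ B < w.p) {β : OO P.l} (h0 : β ≠ 0) :
    ∃ (k : Pl → ℕ) (I : Ideal (OO P.l)), Ad m I ∧ Ideal.span {β} = (∏ w ∈ R, pw P.l w ^ k w) * I ∧
      (∀ w ∈ R, ∀ π, w.Unif (w.D ⊓ P.GK) π → w.v (eO P.l β) = w.v π ^ k w) ∧
      (∏ w ∈ R, nv w (w.D ⊓ P.GK) (cup χ (eO P.l β))) * e (lam I) = 1 := by
  classical
  have hb : eO P.l β ≠ 0 := (map_ne_zero_iff _ eO_inj).2 h0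
  have hf : ∀ w : Pl, Fix (w.D ⊓ P.GK) (eO P.l β) := fun w => (fix_eO β).mono inf_le_right
  obtain ⟨B', hB'⟩ := hCB.pl.2.2.2.2.2.1 _ hb
  obtain ⟨R', hS', hO'⟩ := (hCB.orb _ P.on.2).2.1 (Finset.Ioc B B')
  have h1 : ∀ w ∈ R, ¬ B < w.p := fun w hw e => not_out hw ((hO w).2 e)
  have h2 : ∀ w ∈ R', B < w.p := fun w hw => by
    have := mt (hO' w).2 (not_out hw)
    rw [not_not, Finset.mem_Ioc] at this
    exact this.1
  have hd : Disjoint R R' := Finset.disjoint_left.2 fun w a b => h1 w a (h2 w b)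
  have hS2 : Sep P.GK (R ∪ R' : Finset Pl) := fun w hw u hu hw' => by
    rw [Finset.mem_coe, Finset.mem_union] at hw hw'
    rcases hw with a | a <;> rcases hw' with b | b
    exacts [hS w a u hu b, absurd (h2 (u • w) b) (h1 w a), absurd (h2 w a) (h1 (u • w) b), hS' w a u hu b]
  have hO2 : ∀ w, Out P.GK (R ∪ R' : Finset Pl) w → B < w.p ∧ w.v (eO P.l β) = 1 := fun w hw => by
    have a := (hO w).1 (hw.mono (by simp))
    have b := (hO' w).1 (hw.mono (by simp))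
    rw [Finset.mem_Ioc] at b
    exact ⟨a, hB' w (by omega)⟩
  obtain ⟨k, hk, hv⟩ := pw_fac hCB.toCA h0 _ hS2 fun w hw => (hO2 w hw).2
  obtain ⟨h3, h4⟩ := H.prod hCB R' k h2
  have hc := co2T hCB.toCA H.ch (fix_eO β) hb
  refine ⟨k, _, h3, by rw [hk, Finset.prod_union hd],
    fun w hw => hv w (Finset.mem_union_left _ hw), ?_⟩
  rw [← hCB.rcp _ _ _ P.on.2 (hCB.karith P).1 hc hS2 fun w hw => ?_, Finset.prod_union hd, h4]
  · congr 1
    refine Finset.prod_congr rfl fun w hw => ?_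
    obtain ⟨π, hπ⟩ := unif hCB P w
    exact (H.loc hCB (h2 w hw) hπ (hf w) hb (hv w (Finset.mem_union_right _ hw) π hπ)).symm
  · obtain ⟨π, hπ⟩ := unif hCB P w
    obtain ⟨a, b⟩ := hO2 w hw
    refine hCB.inj w _ _ (by have := H.le; omega) (w.loc_inf P.on.2) (hc.mono inf_le_right) ?_
    rw [H.loc hCB a hπ (hf w) hb (k := 0) (by rw [b, pow_zero]), pow_zero, Ideal.one_eq_top, H.top,
      e_one hCB.ec.1]

theorem exists_R (hCB : CB) (P : Pre) {w₀ : Pl} (h : w₀.p ≤ B) : ∃ R : Finset Pl, w₀ ∈ R ∧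
    Sep P.GK R ∧ ∀ w, Out P.GK R w ↔ B < w.p := by
  classical
  obtain ⟨R, hS, hO⟩ := (hCB.orb _ P.on.2).2.1 (Finset.range (B + 1))
  have h1 := mt (hO w₀).1 (by simpa using Nat.lt_succ_of_le h)
  simp only [Out, not_forall, not_not] at h1
  obtain ⟨u, hu, h1⟩ := h1
  refine ⟨u⁻¹ • R, Finset.mem_inv_smul_finset_iff.2 h1, fun w hw v hv hw' => ?_, fun w => ?_⟩
  · rw [Finset.mem_coe, Finset.mem_inv_smul_finset_iff] at hw hw'
    have := hS _ hw (u * v * u⁻¹) (mul_mem (mul_mem hu hv) (inv_mem hu))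
      (by simpa [mul_smul] using hw')
    simpa [mul_smul] using this
  · rw [show B < w.p ↔ w.p ∉ Finset.range (B + 1) by simp [Nat.succ_le_iff], ← hO]
    simp only [Out, Finset.mem_coe, Finset.mem_inv_smul_finset_iff]
    refine ⟨fun a v hv => ?_, fun a v hv => ?_⟩
    · simpa [mul_smul] using a (u⁻¹ * v) (mul_mem (inv_mem hu) hv)
    · simpa [mul_smul] using a (u * v) (mul_mem hu hv)

theorem v_smul {u : GQ} (hu : u ∈ P.GK) (w : Pl) {x : Om} (hx : Fix P.GK x) :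
    (u • w).v x = w.v x := by
  rw [← w.smul_v_apply u x, hx u hu]

theorem v_one {w : Pl} {x : Om} (h : w.v (x - 1) < 1) : w.v x = 1 := by
  simpa using w.v.map_one_add_of_lt h

/-- approximation of a local element -/
theorem Hy.app (hCB : CB) (H : Hy P n m χ lam B) {w₀ : Pl} (h : w₀.p ≤ B) {y : Om}
    (hy : Fix (w₀.D ⊓ P.GK) y) (h0 : y ≠ 0) (h1 : w₀.v y ≤ 1) :
    ∃ (β : OO P.l) (k : ℕ) (I : Ideal (OO P.l)), Ad m I ∧ Ideal.span {β} = pw P.l w₀ ^ k * I ∧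
      (∀ π, w₀.Unif (w₀.D ⊓ P.GK) π → w₀.v y = w₀.v π ^ k) ∧ w₀.v (y - eO P.l β) ≤ w₀.v m ∧
      (∀ w : Pl, w.p ≤ B → Out P.GK {w₀} w → w.v (eO P.l β - 1) ≤ w.v m) ∧
      nv w₀ (w₀.D ⊓ P.GK) (cup χ y) * e (lam I) = 1 := by
  classical
  obtain ⟨R, hR, hS, hO⟩ := exists_R hCB P h
  choose ε hε ht using fun w => triv_near hCB.toCA w n
  have hm : ∀ w : Pl, 0 < w.v m := fun w => w.v.pos_iff.2 (by exact_mod_cast H.m0)
  have hy0 : 0 < w₀.v y := w₀.v.pos_iff.2 h0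
  obtain ⟨w₁, -, h2⟩ := R.exists_min_image (fun w => min (ε w) (w.v m)) ⟨w₀, hR⟩
  set δ := min (ε w₁) (w₁.v m) with hδ
  have hδ0 : 0 < δ := lt_min (hε _) (hm _)
  obtain ⟨β, hβ⟩ := exists_near hCB.toCA R hS (fun w => if w = w₀ then y else 1)
    (fun w _ => by
      split_ifs with e
      exacts [e ▸ ⟨hy, h1⟩, ⟨fix_one, by simp⟩]) (mul_pos hδ0 hy0)
  have hδ1 : δ * w₀.v y ≤ δ := mul_le_of_le_one_right zero_le h1
  have h3 : ∀ w ∈ R, w ≠ w₀ → w.v (eO P.l β - 1) < δ := fun w hw e => by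
    have := hβ w hw
    rw [if_neg e, Valuation.map_sub_swap] at this
    exact this.trans_le hδ1
  have h4 := hβ w₀ hR
  rw [if_pos rfl] at h4
  have h5 : w₀.v (eO P.l β / y - 1) < δ := by
    rw [div_sub_one h0, map_div₀, div_lt_iff₀ hy0, Valuation.map_sub_swap]
    exact h4
  have hl : ∀ w ∈ R, δ ≤ ε w ∧ δ ≤ w.v m ∧ δ ≤ 1 := fun w hw =>
    ⟨(h2 w hw).trans (min_le_left _ _), (h2 w hw).trans (min_le_right _ _),
      ((h2 w hw).trans (min_le_right _ _)).trans (w.v_nat_le m)⟩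
  have h6 := v_one (h5.trans_le (hl _ hR).2.2)
  have hb : eO P.l β / y ≠ 0 := fun e => by simp [e] at h6
  have hb' : β ≠ 0 := fun e => hb (by simp [e])
  have hf : ∀ w : Pl, Fix (w.D ⊓ P.GK) (eO P.l β) := fun w => (fix_eO β).mono inf_le_right
  have hc : ∀ w : Pl, IsCh (w.D ⊓ P.GK) χ := fun w => H.ch.mono inf_le_right
  obtain ⟨k, I, a, b, c, d⟩ := H.core hCB hS hO hb'
  refine ⟨β, k w₀, I, a, ?_, fun π hπ => ?_, (h4.le.trans hδ1).trans (hl _ hR).2.1,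
    fun w hw ho => ?_, ?_⟩
  · rw [b, Finset.prod_eq_single_of_mem w₀ hR fun w hw e => ?_]
    obtain ⟨π, hπ⟩ := unif hCB P w
    have := c w hw π hπ
    rw [v_one ((h3 w hw e).trans_le (hl w hw).2.2), ← zpow_natCast,
      ← zpow_zero (w.v π)] at this
    rw [show k w = 0 by exact_mod_cast (hπ.zpow_inj this).symm, pow_zero]
  · rw [map_div₀, div_eq_one_iff_eq hy0.ne'] at h6
    rw [← h6, c w₀ hR π hπ]
  · have := mt (hO w).1 (by omega)
    simp only [Out, not_forall, not_not] at this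
    obtain ⟨u, hu, hw'⟩ := this
    rw [← v_smul hu w ((fix_eO β).sub fix_one), ← v_smul hu w (fix_nat m)]
    exact (h3 _ hw' (ho u hu)).le.trans (hl _ hw').2.1
  · have hN := fun w : Pl => hCB.inv w _ (w.loc_inf P.on.2)
    have t := ht w₀ _ χ _ inf_le_left (hc _) ((hf _).div hy) (h5.trans_le (hl _ hR).1)
    rw [← d, Finset.prod_eq_single_of_mem w₀ hR fun w hw e => ?_,
      ← mul_div_cancel₀ (eO P.l β) h0,
      (hCB.cup _ y hy h0 _ χ (by positivity) (hc _)).2.2.1,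
      (hN _).mul _ _ (co2T hCB.toCA (hc _) hy h0) t.co2T, (hN _).triv _ t.co2 t, mul_one]
    have t' := ht w _ χ _ inf_le_left (hc _) (hf _) ((h3 w hw e).trans_le (hl w hw).1)
    exact (hN _).triv _ t'.co2 t'

theorem Hy.mono (H : Hy P n m χ lam B) {B' : ℕ} (h : B ≤ B') : Hy P n m χ lam B' :=
  ⟨H.m0, H.ch, H.sq, H.mul, H.oc, fun w φ a => H.fr w φ (by omega), fun w a => H.un w (by omega),
    by have := H.le; omega⟩

theorem Hy.first (hCB : CB) (H : Hy P n m χ lam B) (w : Pl) (β : OO P.l) (u : Om)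
    (h1 : Ad m (Ideal.span {β})) (h2 : Fix (w.D ⊓ P.GK) u) (h3 : w.v u = 1)
    (h4 : w.v (u - eO P.l β) ≤ w.v m)
    (h5 : ∀ w' : Pl, w'.p ∣ m → Out P.GK {w} w' → w'.v (eO P.l β - 1) ≤ w'.v m) :
    nv w (w.D ⊓ P.GK) (cup χ u) = ec (-((lam (Ideal.span {β})).val : ℚ_[2]) / 2 ^ n) := by
  obtain ⟨β', k, I, a, b, c, d, f, g⟩ := (H.mono (le_max_left B w.p)).app hCB (le_max_right _ _) h2
    (fun e => by simp [e] at h3) h3.le
  obtain ⟨π, hπ⟩ := unif hCB P w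
  have := c π hπ
  rw [h3, ← zpow_natCast, ← zpow_zero (w.v π)] at this
  rw [show k = 0 by exact_mod_cast (hπ.zpow_inj this).symm, pow_zero, one_mul] at b
  rw [← b] at a g
  rw [← H.congr h1 a (dvd_of_v hCB.toCA H.m0 fun w' hw' => ?_)]
  · exact e_neg hCB.ec.1 g
  by_cases ho : Out P.GK {w} w'
  · rw [map_sub, ← sub_sub_sub_cancel_right _ _ 1]
    refine w'.v.map_sub_le (f w' ?_ ho) (h5 w' hw' ho)
    exact (Nat.le_of_dvd (Nat.pos_of_ne_zero H.m0) hw').trans (H.le.2.2.trans (le_max_left _ _))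
  · simp only [Out, not_forall, not_not] at ho
    obtain ⟨v, hv, rfl⟩ := ho
    rw [← v_smul hv w' (fix_eO _), ← v_smul hv w' (fix_nat m), map_sub,
      ← sub_sub_sub_cancel_left _ _ u]
    exact Valuation.map_sub_le _ h4 d

theorem Hy.second (hCB : CB) (H : Hy P n m χ lam B) (w : Pl) (h : ¬ w.p ∣ m) :
    ∀ g ∈ w.I ⊓ P.GK, χ g = 0 := fun g hg => by
  have hL := w.loc_inf P.on.2
  have hc : IsCh (w.D ⊓ P.GK) χ := H.ch.mono inf_le_right
  refine hCB.uperp w _ n χ hL hc (fun u h1 h2 => ?_) g ⟨hg.1, w.I_le_D hg.1, hg.2⟩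
  have hm : w.v m = 1 := by
    simpa using (Pl.v_int_eq_one (w := w) (n := m)).2 (by exact_mod_cast h)
  have h3 := H.first hCB w 1 u (by rw [Ideal.span_singleton_one]; exact ad_top) h1 h2
    (by rw [hm, map_one]; exact w.v.map_sub_le h2.le (by simp)) (fun w' _ _ => by simp)
  rw [H.one, (hCB.ec.1.eq_one _).2 (by simp)] at h3
  have h4 := co2T hCB.toCA hc h1 (fun e => by simp [e] at h2)
  by_cases h5 : w.p = 2
  · refine (hCB.inv w _ hL).inj (inf_eq_left.2 ((hCB.karith P).2.2.2.1 w ?_)) _ h4 h3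
    rw [h5]
    exact Dvd.dvd.mul_right (by norm_num) _
  · exact hCB.inj w _ _ h5 hL h4 h3

theorem Hy.third (hCB : CB) (H : Hy P n m χ lam B) (w : Pl) (φ : GQ) (h : ¬ w.p ∣ 2 * m * P.l)
    (hφ : φ ∈ P.GK) (hF : w.IsFrob 1 φ) : χ φ = lam (pw P.l w) := by
  have h2 : w.p ≠ 2 := fun e => h (by rw [e]; exact (dvd_mul_right 2 m).mul_right _)
  have hm : ¬ w.p ∣ m := fun e => h ((e.mul_left 2).mul_right _)
  have hl : w.p ≠ P.l := fun e => h (by rw [e]; exact dvd_mul_left _ _)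
  have hD := (D_le_GK hCB.toCA hl hF).2 hφ
  have hπ : w.Unif (w.D ⊓ P.GK) w.p := by
    rw [inf_eq_left.2 hD]
    exact (hCB.res w _ w.loc_D).2.2.2.1
  obtain ⟨β, k, I, a, b, c, -, f, g⟩ := (H.mono (le_max_left B w.p)).app hCB (le_max_right _ _)
    hπ.1 hπ.2.1 hπ.2.2.1.le
  have := c _ hπ
  rw [← zpow_natCast, ← zpow_one (w.v w.p)] at this
  rw [← zpow_mul, one_mul] at this
  rw [show k = 1 by exact_mod_cast (hπ.zpow_inj this).symm, pow_one] at b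
  have hp : Ad m (pw P.l w) := ad_pw.2 hm
  rw [locv hCB H.ch h2 (w.I_le_D.trans hD) (H.second hCB w hm) hφ hF
    (Subgroup.relIndex_eq_one.2 hD).symm hπ hπ.1 hπ.2.1 (pow_one _).symm, ← e_add hCB.ec.1,
    e_one hCB.ec.1, one_nsmul] at g
  have h3 := H.congr (β := 1) (β' := β) (by rw [Ideal.span_singleton_one]; exact ad_top)
    (b ▸ hp.mul a) (dvd_of_v hCB.toCA H.m0 fun w' hw' => by
      rw [map_sub, map_one]
      refine f w' ?_ fun u _ e => hm ?_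
      · exact (Nat.le_of_dvd (Nat.pos_of_ne_zero H.m0) hw').trans
          (H.le.2.2.trans (le_max_left _ _))
      · rw [← Set.mem_singleton_iff.1 e]
        exact hw')
  rw [H.one, b, H.mul _ _ hp a] at h3
  exact add_right_cancel (g.trans h3.symm)

end TLGC

theorem t_LGC (hCB : CB) : LGC := by
  rintro P n m χ lam h0 h1 h2 h3 h4 ⟨B, h5⟩
  obtain ⟨N, hN, h6⟩ := h1.1
  obtain ⟨B', h7⟩ := hCB.genp.2.1 N hN
  have H : TLGC.Hy P n m χ lam (B + B' + 2 + P.l + m) :=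
    ⟨h0, h1, h2, h3, h4, fun w φ a => h5 w φ (by omega), fun w a g hg => by
      rw [← one_mul g, h6 1 (one_mem _) g hg.2 (h7 w (by omega) hg.1), h1.one], by omega⟩
  exact ⟨H.first hCB, H.second hCB, H.third hCB⟩

end Pool.Agent.P.MP_8b7eba_nt.R2
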