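import Pool.Agent.P.MP_8b7eba_nt.R2.SelA

/-! The Kummer cocycle of a local point of the twist. -/

namespace Pool.Agent.P.MP_8b7eba_nt.R2.TLOC2

open scoped NNReal Matrix
open MP_9c97e9_nt (Pt pm Is Split UU sg)
open Filter Topology

theorem n2 : ‖(2 : ℚ_[2])‖ = 2⁻¹ := by simpa using Padic.norm_p (p := 2)

theorem npow (i : ℕ) : ‖((2 : ℚ_[2]) ^ i)⁻¹‖ = 2 ^ i := by
  rw [norm_inv, norm_pow, n2, inv_pow, inv_inv]

theorem small {V : Type} [NormedAddCommGroup V] [NormedSpace ℚ_[2] V] {v : V}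
    (h : ∀ i : ℕ, ‖((2 : ℚ_[2]) ^ i)⁻¹ • v‖ ≤ 1) : v = 0 := by
  by_contra h0
  obtain ⟨i, hi⟩ := pow_unbounded_of_one_lt ‖v‖⁻¹ (one_lt_two (α := ℝ))
  have := h i
  rw [norm_smul, npow] at this
  rw [inv_lt_iff_one_lt_mul₀ (norm_pos_iff.2 h0)] at hi
  linarith

variable {w : Pl} (T : Tate w) {δ : Om} {m : ℤ}

theorem pt_nat (n : ℕ) (v : V2) : T.pt ((n : ℚ_[2]) • v) = n • T.pt v := by
  rw [Nat.cast_smul_eq_nsmul, map_nsmul]

theorem pt_int (n : ℤ) (v : V2) : T.pt ((n : ℚ_[2]) • v) = n • T.pt v := by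
  rw [Int.cast_smul_eq_zsmul, map_zsmul]

theorem lim (R : ℕ → EO) (h0 : R 0 = 0) (h : ∀ i, 2 • R (i + 1) = R i) :
    ∃ k : V2, ‖k‖ ≤ 1 ∧ ∀ i : ℕ, T.pt (((2 : ℚ_[2]) ^ i)⁻¹ • k) = R i := by
  have h1 : ∀ i j, 2 ^ j • R (i + j) = R i := fun i j => by
    induction j with
    | zero => simp
    | succ j ih => rw [pow_succ, mul_smul, ← add_assoc, h, ih]
  have h2 : ∀ i, 2 ^ i • R i = 0 := fun i => by simpa [h0] using h1 0 i
  choose u hu using fun i => T.surj (R i) i (h2 i)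
  have h3 : ∀ᶠ j in UF, ‖(2 : ℚ_[2]) ^ j • u j‖ ≤ 1 := .of_forall fun j => by
    rw [← T.ker, ← h2 j, ← hu, ← pt_nat]; simp
  have ht := tendsto_ul h3
  refine ⟨_, le_of_tendsto ht.norm h3, fun i => ?_⟩
  rw [← hu i, T.pt_eq]
  refine le_of_tendsto ((ht.const_smul _).sub_const _).norm ((ev_ge i).mono fun j hj => ?_)
  obtain ⟨j, rfl⟩ := Nat.exists_eq_add_of_le hj
  rw [← T.pt_eq, smul_smul, pow_add, inv_mul_cancel_left₀ (by simp), hu, ← h1 i j, ← hu, ← pt_nat]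
  simp

theorem fix_sq (hδ : δ ^ 2 = m) : Fix ⊤ (δ ^ 2) := hδ ▸ fix_int m

theorem e1_tac (hE : E1G) {g : GQ} (hg : g ∈ w.D) {P : EO} (h : E1 w P) :
    E1 w (tac δ g P - P) := by
  obtain ⟨-, h1, h2, h3, -⟩ := hE w
  have h4 := (h3 g P).2 h
  rw [show g • w = w from hg] at h4
  rw [sub_eq_add_neg, tac_apply]
  refine h2 _ _ ?_ (h1 _ h)
  rcases sd_cases δ g with e | e <;> rw [e]
  · simpa using h4
  · simpa using h1 _ h4

theorem uu_tac (g : GQ) (Q : EO) :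
    UU 16 0 (-9) (tac δ g Q) = sd δ g * g (UU (16 : Om) 0 (-9) Q) := by
  have h1 : UU 16 0 (-9) (ac g Q) = g (UU (16 : Om) 0 (-9) Q) := by
    simpa [map_ofNat, ac] using MP_9c97e9_nt.UU_map (e₁ := (16 : Om)) (e₂ := 0) (e₃ := -9)
      (g : Om →+* Om) Q
  rw [tac_apply, ← h1]
  rcases sd_cases δ g with e | e <;> rw [e]
  · simp
  rcases MP_9c97e9_nt.zero_or_is (ac g Q) with h | ⟨x, η, h⟩
  · rw [h]; simp; rfl
  · rw [neg_one_zsmul, h.neg.UU_eq, h.UU_eq]; simp [div_neg]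

/-- a point of the twist which lies in the kernel of the reduction -/
theorem point (hP : CP) (h2 : w.p = 2) (hδ : δ ^ 2 = m) (hm : m % 8 = 5) : ∃ (P : EO) (η : Om),
    Is P ((4 - 9 * m) / m) η ∧ E1 w P ∧ ∀ g ∈ w.D, tac δ g P = P := by
  have m0 : (m : Om) ≠ 0 := Int.cast_ne_zero.2 (by omega)
  have d0 : δ ≠ 0 := fun e => m0 (by rw [← hδ, e]; ring)
  have h8 : (4 - 9 * m) * (4 - 25 * m) % 8 = 1 := by
    rw [Int.mul_emod, show (4 - 9 * m) % 8 = 7 by omega, show (4 - 25 * m) % 8 = 7 by omega]; rfl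
  obtain ⟨y, hy, e⟩ := ((hP.sq2 w).2.2.2.2.1 h2 _ (Int.odd_iff.2 (by omega))).1.2 h8
  push_cast at e
  obtain ⟨P, h⟩ := split15.exists_is (x := (4 - 9 * m : Om) / m) (η := 4 * y / (m * δ)) (by
    rw [div_pow, mul_pow, mul_pow, hδ, ← e]; field_simp; ring)
  refine ⟨P, _, h, fun x η h' => ?_, fun g hg => ?_⟩
  · have a : w.v m = 1 := Pl.v_int_eq_one.2 (by rw [h2]; omega)
    have b : w.v ((4 - 9 * m : ℤ) : Om) = 1 := Pl.v_int_eq_one.2 (by rw [h2]; omega)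
    push_cast at b
    rw [(h'.inj h).1, map_div₀, a, b, show (4 : Om) = 2 ^ 2 by norm_num, map_pow, Pl.v_two' h2]
    norm_num
  · have h1 := is_ac g h
    simp only [map_div₀, map_mul, map_sub, map_ofNat, map_intCast, hy g hg,
      sd_apply (fix_sq hδ) g] at h1
    rw [tac_apply]
    rcases sd_cases δ g with e | e <;> rw [e] at h1 ⊢
    · exact Is.unique split15 (by simpa using h1) h
    · exact Is.unique split15 (by simpa [div_neg] using h1.neg) h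

theorem near (g : GQ) (s : ℤ) (hs : 4 ∣ sd δ g * (cyc g : ℤ_[2]) - s) :
    ‖T.rd δ g 0 0 - s‖ ≤ 4⁻¹ := by
  have h1 : ‖T.rho g 0 0 - cq g‖ ≤ 4⁻¹ := by simpa using T.four g 0 0
  obtain ⟨c, hc⟩ := hs
  have h2 : T.rd δ g 0 0 - s = sd δ g * (T.rho g 0 0 - cq g) + 2 ^ 2 * (c : ℚ_[2]) := by
    have := congrArg ((↑) : ℤ_[2] → ℚ_[2]) hc
    have h4 : ((4 : ℤ_[2]) : ℚ_[2]) = 4 := rfl
    push_cast at this
    simp only [Tate.rd, Matrix.smul_apply, smul_eq_mul, cq]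
    linear_combination this + (c : ℚ_[2]) * h4
  rw [h2]
  refine (IsUltrametricDist.norm_add_le_max _ _).trans (max_le ?_ ?_)
  · rcases sd_cases δ g with e | e <;> simpa [e, norm_sub_rev] using h1
  · rw [norm_mul, norm_pow, n2]
    have := c.2
    nlinarith [norm_nonneg (c : ℚ_[2])]

/-- the Kummer cocycle -/
theorem kum (hP : CP) (h2 : w.p = 2) (hδ : δ ^ 2 = m) (hm : m % 8 = 5) :
    ∃ (Q : ℕ → EO) (κ : GQ → V2), (∀ g, ‖κ g‖ ≤ 1) ∧
      (∀ g ∈ w.D, ∀ i, T.pt (((2 : ℚ_[2]) ^ i)⁻¹ • κ g) = tac δ g (Q i) - Q i) ∧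
      (∀ g ∈ w.D, κ g 1 = 0) ∧ ∀ t, ¬ ∀ g ∈ w.D, κ g 0 = T.rd δ g 0 0 * t - t := by
  obtain ⟨P, η, h, h1, h3⟩ := point hP h2 hδ hm
  choose! f f1 f2 using (hP.e1g w).2.2.2.2.1
  have q1 : ∀ i, E1 w (f^[i] P) := fun i => by
    induction i with
    | zero => exact h1
    | succ i ih => rw [Function.iterate_succ_apply']; exact f1 _ ih
  have q2 : ∀ i, 2 • f^[i + 1] P = f^[i] P := fun i => by
    rw [Function.iterate_succ_apply', f2 _ (q1 i)]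
  have k : ∀ g, ∃ k : V2, ‖k‖ ≤ 1 ∧ (g ∈ w.D → ∀ i : ℕ,
      T.pt (((2 : ℚ_[2]) ^ i)⁻¹ • k) = tac δ g (f^[i] P) - f^[i] P) := fun g => by
    by_cases hg : g ∈ w.D
    · obtain ⟨k, a, b⟩ := lim T (fun i => tac δ g (f^[i] P) - f^[i] P) (sub_eq_zero.2 (h3 g hg))
        fun i => by rw [smul_sub, ← map_nsmul, q2]
      exact ⟨k, a, fun _ => b⟩
    · exact ⟨0, by simp, fun e => absurd e hg⟩
  choose κ k1 k2 using k
  have k3 : ∀ g ∈ w.D, κ g 1 = 0 := fun g hg => small fun i =>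
    (T.e1 (((2 : ℚ_[2]) ^ i)⁻¹ • κ g)).1 (k2 g hg i ▸ e1_tac hP.e1g hg (q1 i))
  refine ⟨fun i => f^[i] P, κ, k1, k2, k3, fun t ht => ?_⟩
  obtain ⟨φ, hφ, p1, p2⟩ := Pl.exists_f2 hP.toCA h2 hδ hm
  obtain ⟨ι, hι, i1⟩ := hP.ec2 w h2 (-1)
  have i2 := sd_eq_one.2 (Pl.I_fix_two h2 hδ (by omega) hι)
  have a1 := near T φ (-1) (by rw [sd_eq_neg.2 p1]; simpa [neg_add_eq_sub] using p2.neg_right)
  have a2 := near T ι (-1) (by rw [i2, i1]; simp)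
  have b1 : ‖t‖ ≤ 2 := by
    have e : (2 : ℚ_[2]) * t = (T.rd δ ι 0 0 - (-1 : ℤ)) * t + -κ ι 0 := by
      rw [ht ι hι.1]; push_cast; ring
    have := IsUltrametricDist.norm_add_le_max ((T.rd δ ι 0 0 - (-1 : ℤ)) * t) (-κ ι 0)
    rw [← e, norm_mul, norm_mul, n2, norm_neg] at this
    have h5 := (norm_le_pi_norm (κ ι) 0).trans (k1 ι)
    rcases le_max_iff.1 this with h6 | h6 <;> nlinarith [norm_nonneg t]
  have b2 : tac δ φ (f P) - f P = tac δ ι (f P) - f P := by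
    refine (k2 φ hφ 1).symm.trans (T.pt_eq.2 ?_ |>.trans (k2 ι hι.1 1))
    rw [← smul_sub, norm_smul, npow]
    have : ‖κ φ - κ ι‖ ≤ 2⁻¹ := by
      refine (pi_norm_le_iff_of_nonneg (by norm_num)).2 (Fin.forall_fin_two.2 ⟨?_, ?_⟩)
      · have e : (κ φ - κ ι) 0 =
            ((T.rd δ φ 0 0 - (-1 : ℤ)) - (T.rd δ ι 0 0 - (-1 : ℤ))) * t := by
          rw [Pi.sub_apply, ht φ hφ, ht ι hι.1]; ring
        have := (IsUltrametricDist.norm_add_le_max _ _).trans (max_le a1 ((norm_neg _).trans_le a2))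
        rw [e, norm_mul, sub_eq_add_neg (_ - _)]
        nlinarith [norm_nonneg t]
      · simp [k3 φ hφ, k3 ι hι.1]
    linarith
  obtain ⟨z, hz, e⟩ := ((hP.sq2 w).2.2.2.2.1 h2 (25 * m - 4) (Int.odd_iff.2 (by omega))).1.2
    (by omega)
  have z0 : z ≠ 0 := fun e0 => Int.cast_ne_zero.2 (show 25 * m - 4 ≠ 0 by omega)
    (e.trans (by rw [e0]; ring))
  have m0 : (m : Om) ≠ 0 := Int.cast_ne_zero.2 (by omega)
  push_cast at e
  have u := MP_9c97e9_nt.UU_sq (P := f P) split15.swap'.swap (by rw [← two_nsmul, f2 _ h1]; exact h)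
  have c := congrArg (UU 16 0 (-9)) (sub_left_injective b2)
  rw [uu_tac, uu_tac] at c
  generalize UU (16 : Om) 0 (-9) (f P) = U at u c
  have j2 : (U * δ / z) ^ 2 = -1 := by
    rw [div_pow, mul_pow, ← u, hδ, ← e, div_eq_iff (e ▸ pow_ne_zero 2 z0)]; field_simp; ring
  have j4 : (U * δ / z) ^ 2 ^ 2 = 1 := by rw [pow_succ, pow_mul, pow_one, j2]; ring
  have g1 := hP.ec.2.2.1 φ 2 1 _ j4 (by simpa [show (2 : ℤ_[2]) ^ 2 = 4 by norm_num] using p2)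
  have g2 := hP.ec.2.2.1 ι 2 3 _ j4 ⟨-1, by rw [i1]; norm_num⟩
  have g3 : φ (U * δ / z) = ι (U * δ / z) := by
    simp only [map_div₀, map_mul, sd_apply (fix_sq hδ), hz φ hφ, hz ι hι.1]
    linear_combination δ / z * c
  rw [g1, g2] at g3
  generalize U * δ / z = j at j2 g3
  exact two_ne_zero (α := Om) (by linear_combination -j * g3 + (1 - j ^ 2) * j2 + j2)

end Pool.Agent.P.MP_8b7eba_nt.R2.TLOC2
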