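import Pool.Agent.P.MP_8b7eba_nt.R2.LC

/-! Proof of NU2, LOC8. -/

namespace Pool.Agent.P.MP_8b7eba_nt.R2

open scoped NNReal Matrix

namespace TLOC8

variable {w : Pl}

theorem nm_of (hA : CA) (h2 : w.p = 2) {m a n : ℤ} (hn : Nm w.D m n) (h : (a * n) % 8 = 1) :
    Nm w.D m a := by
  have h0 : (n : Om) ≠ 0 := by
    rw [Int.cast_ne_zero]
    rintro rfl
    simp at h
  have h1 : Sq w.D ((a * n : ℤ) : Om) :=
    ((hA.sq2 w).2.2.2.2.1 h2 _ (Int.odd_iff.2 (by omega))).1.2 h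
  have := (Nm.of_sq (b := (m : Om)) h1).mul (fix_int m) (hn.inv (fix_int m))
  rwa [Int.cast_mul, mul_inv_cancel_right₀ h0] at this

theorem nm_unit (hA : CA) (h2 : w.p = 2) {m a : ℤ} (hm : m % 8 = 5) (ha : Odd a) :
    Nm w.D m a := by
  have k : ∀ x y : ℤ, Nm w.D m ((x ^ 2 - m * y ^ 2 : ℤ) : Om) := fun x y =>
    ⟨x, y, fix_int x, fix_int y, by push_cast; ring⟩
  have ha' := Int.odd_iff.1 ha
  obtain ⟨q, rfl⟩ : ∃ q, m = 8 * q + 5 := ⟨m / 8, by omega⟩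
  obtain ⟨b, rfl | rfl | rfl | rfl⟩ : ∃ b, a = 8 * b + 1 ∨ a = 8 * b + 3 ∨ a = 8 * b + 5 ∨
      a = 8 * b + 7 := ⟨a / 8, by omega⟩
  · exact nm_of hA h2 (k 1 0) (by omega)
  · refine nm_of hA h2 (k 0 1) ?_
    rw [show (8 * b + 3) * (0 ^ 2 - (8 * q + 5) * 1 ^ 2) =
      1 + 8 * (-8 * b * q - 5 * b - 3 * q - 2) by ring, Int.add_mul_emod_self_left]
    rfl
  · refine nm_of hA h2 (k 3 2) ?_
    rw [show (8 * b + 5) * (3 ^ 2 - (8 * q + 5) * 2 ^ 2) =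
      1 + 8 * (-32 * b * q - 11 * b - 20 * q - 7) by ring, Int.add_mul_emod_self_left]
    rfl
  · refine nm_of hA h2 (k 2 1) ?_
    rw [show (8 * b + 7) * (2 ^ 2 - (8 * q + 5) * 1 ^ 2) =
      1 + 8 * (-8 * b * q - b - 7 * q - 1) by ring, Int.add_mul_emod_self_left]
    rfl

theorem v_odd (h2 : w.p = 2) {a : ℤ} (ha : a % 2 = 1) : w.v a = 1 :=
  Pl.v_int_eq_one.2 (by rw [h2]; omega)

/-- the values of the norm form have even order -/
theorem ev (hA : CA) (h2 : w.p = 2) {m : ℤ} (hm : m % 8 = 5) {z : Om} (hz : Fix w.D z) :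
    w.Ev w.D (z ^ 2 - m) := by
  rcases le_or_gt (w.v z) 1 with h | h
  · obtain ⟨k, hk⟩ := (hA.res w w.D w.loc_D).2.2.2.2.2 z hz h 3
    have h1 : w.v (z ^ 2 - (k : Om) ^ 2) ≤ 8⁻¹ := by
      refine (Pl.v_pow_sub h (w.v_nat_le k) 2).trans (hk.trans_eq ?_)
      rw [h2]
      norm_num
    have e : z ^ 2 - m = ((k ^ 2 - m : ℤ) : Om) + (z ^ 2 - (k : Om) ^ 2) := by push_cast; ring
    obtain ⟨q, hq | hq⟩ := Int.even_or_odd' (k : ℤ)
    · have h3 : w.v ((k ^ 2 - m : ℤ) : Om) = 1 := v_odd h2 (by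
        rw [hq, show (2 * q) ^ 2 = 4 * (q * q) by ring]
        omega)
      refine ⟨1, fix_one, ?_⟩
      rw [e, w.v.map_add_eq_of_lt_left, h3, map_one, one_pow]
      exact h3 ▸ h1.trans_lt (by norm_num [inv_lt_one₀])
    · obtain ⟨u, hu, h3⟩ : ∃ u : ℤ, u % 2 = 1 ∧ (k : ℤ) ^ 2 - m = 2 ^ 2 * u := by
        obtain ⟨t, ht⟩ := Int.even_mul_succ_self q
        refine ⟨q * (q + 1) - (m - 1) / 4, by omega, ?_⟩
        rw [hq, show (2 * q + 1) ^ 2 = 4 * (q * (q + 1)) + 1 by ring]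
        omega
      have h4 : w.v ((k ^ 2 - m : ℤ) : Om) = w.v 2 ^ 2 := by
        rw [h3, Int.cast_mul, Int.cast_pow, Int.cast_ofNat, map_mul, map_pow, v_odd h2 hu, mul_one]
      refine ⟨2, fix_ofNat 2, ?_⟩
      rw [e, w.v.map_add_eq_of_lt_left, h4]
      rw [h4, Pl.v_two' h2]
      refine h1.trans_lt ?_
      rw [← NNReal.coe_lt_coe]
      norm_num
  · refine ⟨z, hz, ?_⟩
    rw [w.v.map_sub_eq_of_lt_left, map_pow]
    rw [map_pow]
    exact (w.v_int_le m).trans_lt (one_lt_pow₀ h two_ne_zero)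

end TLOC8

theorem t_NU2 (hA : CA) : NU2 := by
  intro w m a h2 hm ha
  refine ⟨TLOC8.nm_unit hA h2 hm ha, fun ⟨x, y, hx, hy, e⟩ => ?_⟩
  by_cases h0 : y = 0
  · exact ((hA.sq2 w).2.2.2.2.1 h2 a ha).2 ⟨x, hx, by rw [e, h0]; ring⟩
  obtain ⟨t, ht, h1⟩ := TLOC8.ev hA h2 hm (hx.div hy)
  refine (hA.res w w.D w.loc_D).2.2.2.1.not_ev ⟨y * t, hy.mul ht, ?_⟩
  have h3 : (2 * a : Om) = y ^ 2 * ((x / y) ^ 2 - m) := by
    rw [e]
    field_simp
  have h4 := congrArg w.v h3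
  rw [map_mul, map_mul, TLOC8.v_odd h2 (Int.odd_iff.1 ha), mul_one, h1] at h4
  rw [h2, Nat.cast_ofNat, h4, map_mul, map_pow, mul_pow]

namespace TLOC8

/-- the reduction modulo two -/
noncomputable def rr : ℚ_[2] → ZMod 2 := Classical.choose exists_red

theorem rr_le {a : ℚ_[2]} (h : ‖a‖ ≤ 1) : ‖a - (rr a).val‖ ≤ 2⁻¹ :=
  (Classical.choose_spec exists_red).1 a h

theorem rr_eq {a : ℚ_[2]} {s : ZMod 2} (h : ‖a - s.val‖ ≤ 2⁻¹) : rr a = s :=
  (Classical.choose_spec exists_red).2.1 a s h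

theorem rr_add {a b : ℚ_[2]} (ha : ‖a‖ ≤ 1) (hb : ‖b‖ ≤ 1) : rr (a + b) = rr a + rr b :=
  ((Classical.choose_spec exists_red).2.2 a b ha hb).1

theorem rr_mul {a b : ℚ_[2]} (ha : ‖a‖ ≤ 1) (hb : ‖b‖ ≤ 1) : rr (a * b) = rr a * rr b :=
  ((Classical.choose_spec exists_red).2.2 a b ha hb).2.1

theorem rr_neg {a : ℚ_[2]} (ha : ‖a‖ ≤ 1) : rr (-a) = rr a :=
  ((Classical.choose_spec exists_red).2.2 a a ha ha).2.2

theorem rr_val (s : ZMod 2) : rr s.val = s := rr_eq (by simp)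

theorem rr_congr {a b : ℚ_[2]} (ha : ‖a‖ ≤ 1) (h : ‖b - a‖ ≤ 2⁻¹) : rr b = rr a :=
  rr_eq (by simpa using SelA.add h (rr_le ha))

theorem nat_le (n : ℕ) : ‖(n : ℚ_[2])‖ ≤ 1 := IsUltrametricDist.norm_natCast_le_one _ n

theorem mul_le {a b : ℚ_[2]} {ε : ℝ} (ha : ‖a‖ ≤ 1) (hb : ‖b‖ ≤ ε) : ‖a * b‖ ≤ ε := by
  rw [norm_mul]
  exact (mul_le_of_le_one_left (norm_nonneg _) ha).trans hb

theorem div_two {a : ℚ_[2]} : ‖a / 2‖ ≤ 1 ↔ ‖a‖ ≤ 2⁻¹ := by
  rw [norm_div, SelA.two, div_le_one (by norm_num)]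

/-- the coboundary -/
noncomputable def db (κ s : GQ → ℚ_[2]) (g h : GQ) : ℚ_[2] := s g + κ g * s h - s (g * h)

/-- the multiplier -/
structure Mu (D : Subgroup GQ) (κ : GQ → ℚ_[2]) (μ : GQ → ZMod 2) : Prop where
  mul : ∀ g ∈ D, ∀ h ∈ D, κ (g * h) = κ g * κ h
  four : ∀ g, ‖κ g - (-1) ^ (μ g).val‖ ≤ 4⁻¹
  sm : ∃ N, ON N ∧ ∀ n ∈ N, ‖κ n - 1‖ ≤ 8⁻¹

/-- lifts of `α` which are cocycles modulo `t` -/
structure Good (D : Subgroup GQ) (κ : GQ → ℚ_[2]) (α : GQ → ZMod 2) (t : ℚ_[2])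
    (s : GQ → ℚ_[2]) : Prop where
  sm : Sm D s
  lf : ∀ g, ‖s g - (α g).val‖ ≤ 2⁻¹
  co : ∀ g ∈ D, ∀ h ∈ D, ‖db κ s g h / t‖ ≤ 1

variable {D : Subgroup GQ} {κ s : GQ → ℚ_[2]} {μ α β θ : GQ → ZMod 2} {t : ℚ_[2]}

theorem z2 (a : ZMod 2) : a = 0 ∨ a = 1 := by decide +revert

theorem Mu.half (h : Mu D κ μ) (g : GQ) : ‖(κ g - 1) / 2 - (μ g).val‖ ≤ 2⁻¹ := by
  have h1 := h.four g
  have h2 : ‖(κ g - (-1) ^ (μ g).val) / 2‖ ≤ 2⁻¹ := by
    rw [norm_div, SelA.two, div_le_iff₀ (by norm_num)]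
    exact h1.trans_eq (by norm_num)
  have h3 : ‖(-(2 * (μ g).val) : ℚ_[2])‖ ≤ 2⁻¹ := by
    rw [norm_neg, mul_comm]
    exact mul_le (nat_le _) SelA.two.le
  refine Eq.trans_le ?_ (SelA.add h2 h3)
  congr 1
  rcases z2 (μ g) with e | e <;> rw [e]
  · simp
  · rw [ZMod.val_one]
    ring

theorem Mu.half_le (h : Mu D κ μ) (g : GQ) : ‖(κ g - 1) / 2‖ ≤ 1 := by
  simpa using SelA.add ((h.half g).trans (by norm_num)) (nat_le (μ g).val)

theorem Mu.le (h : Mu D κ μ) (g : GQ) : ‖κ g‖ ≤ 1 := by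
  simpa using SelA.add ((div_two.1 (h.half_le g)).trans (by norm_num)) (norm_one (α := ℚ_[2])).le

theorem Mu.rr (h : Mu D κ μ) (g : GQ) : rr (κ g) = 1 :=
  rr_eq (by simpa [ZMod.val_one] using div_two.1 (h.half_le g))

theorem Good.le (h : Good D κ α t s) (g : GQ) : ‖s g‖ ≤ 1 := by
  simpa using SelA.add ((h.lf g).trans (by norm_num)) (nat_le (α g).val)

/-- the first obstruction -/
theorem first (hκ : Mu D κ μ) (hβ : IsCh D β) {g h : GQ} (hg : g ∈ D) (hh : h ∈ D) :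
    ‖db κ (fun x => (β x).val) g h / 2 - ((β g + μ g) * β h).val‖ ≤ 2⁻¹ := by
  have h1 := hκ.half g
  have h2 : ‖(κ g - 1) / 2 + 1 - (1 + μ g).val‖ ≤ 2⁻¹ := by
    have := rr_le (SelA.add (hκ.half_le g) (norm_one (α := ℚ_[2])).le)
    rwa [rr_add (hκ.half_le g) norm_one.le, rr_eq h1, add_comm (μ g),
      show rr 1 = 1 by simpa [ZMod.val_one] using rr_val 1] at this
  simp only [db, hβ.2 g hg h hh]
  rcases z2 (β h) with e | e <;> rw [e]
  · simp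
  rcases z2 (β g) with e | e <;> rw [e]
  · simpa only [zero_add, mul_one, ZMod.val_one, ZMod.val_zero, Nat.cast_zero, Nat.cast_one]
      using h1
  · refine Eq.trans_le ?_ h2
    rw [show (1 + 1 : ZMod 2) = 0 from rfl, mul_one, ZMod.val_one, ZMod.val_zero]
    congr 1
    ring

theorem first_le (hκ : Mu D κ μ) (hβ : IsCh D β) {g h : GQ} (hg : g ∈ D) (hh : h ∈ D) :
    ‖db κ (fun x => (β x).val) g h / 2‖ ≤ 1 := by
  simpa using SelA.add ((first hκ hβ hg hh).trans (by norm_num))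
    (nat_le ((β g + μ g) * β h).val)

/-- one step of the lifting -/
theorem Good.lift (hκ : Mu D κ μ) (h : Good D κ α t s) (h0 : t ≠ 0) (ht : ‖t‖ ≤ 2⁻¹)
    (hθ : Bd D (fun g h => rr (db κ s g h / t)) θ) :
    Good D κ α (t * 2) fun g => s g + t * (θ g).val := by
  refine ⟨h.sm.comp₂ hθ.1 fun a b => a + t * b.val, fun g => ?_, fun g hg k hk => ?_⟩
  · have := SelA.add (h.lf g) (mul_le (nat_le (θ g).val) ht)
    rwa [show s g - (α g).val + (θ g).val * t = s g + t * (θ g).val - (α g).val by ring] at this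
  · have h1 := SelA.add (nat_le (θ g).val) (mul_le (hκ.le g) (nat_le (θ k).val))
    have h2 : ‖(-((θ (g * k)).val : ℚ_[2]))‖ ≤ 1 := (norm_neg _).trans_le (nat_le _)
    have h3 := rr_le (SelA.add (h.co g hg k hk) (SelA.add h1 h2))
    have h4 : ∀ a b c d : ZMod 2, d = a + b + c → c + (a + 1 * b + d) = 0 := by decide
    rw [rr_add (h.co g hg k hk) (SelA.add h1 h2), rr_add h1 h2, rr_neg (nat_le _),
      rr_add (nat_le _) (mul_le (hκ.le g) (nat_le _)), rr_mul (hκ.le g) (nat_le _), hκ.rr, rr_val,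
      rr_val, rr_val, h4 _ _ _ _ (hθ.2 g hg k hk), ZMod.val_zero, Nat.cast_zero, sub_zero,
      ← div_two] at h3
    refine Eq.trans_le ?_ h3
    congr 1
    simp only [db]
    field_simp
    ring

/-- the second obstruction is a cocycle -/
theorem Good.co2 (hκ : Mu D κ μ) (h : Good D κ α 4 s) :
    Co2 D (sgn fun g h => rr (db κ s g h / 4)) := by
  refine co2_sgn.2 ⟨?_, fun g hg k hk l hl => ?_⟩
  · obtain ⟨N1, h1, e1⟩ := h.sm
    obtain ⟨N2, h2, e2⟩ := hκ.sm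
    refine ⟨N1 ⊓ N2, h1.inf h2, fun g hg k hk n hn hN => ⟨?_, ?_⟩⟩
    · refine rr_congr (h.co g hg k hk) ?_
      have e3 : s (g * n * k) = s (g * k) := by
        have := e1 (g * k) (D.mul_mem hg hk) (k⁻¹ * n * k)
          (D.mul_mem (D.mul_mem (D.inv_mem hk) hn) hk) (by simpa using h1.1.conj_mem n hN.1 k⁻¹)
        simpa [mul_assoc] using this
      have e4 : db κ s (g * n) k / 4 - db κ s g k / 4 = κ g * (s k * ((κ n - 1) / 4)) := by
        simp only [db, e3, e1 g hg n hn hN.1, hκ.mul g hg n hn]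
        ring
      rw [e4]
      refine mul_le (hκ.le g) (mul_le (h.le k) ?_)
      rw [norm_div, show (4 : ℚ_[2]) = 2 * 2 by norm_num, norm_mul, SelA.two,
        div_le_iff₀ (by norm_num)]
      exact (e2 n hN.2).trans_eq (by norm_num)
    · simp only [db, e1 k hk n hn hN.1, ← mul_assoc, e1 _ (D.mul_mem hg hk) n hn hN.1]
  · have a1 := h.co k hk l hl
    have a2 := h.co g hg _ (D.mul_mem hk hl)
    have a3 := h.co _ (D.mul_mem hg hk) l hl
    have a4 := h.co g hg k hk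
    rw [← rr_add a3 a4, ← one_mul (rr (db κ s k l / 4)), ← hκ.rr g, ← rr_mul (hκ.le g) a1,
      ← rr_add (mul_le (hκ.le g) a1) a2]
    congr 1
    simp only [db, hκ.mul g hg k hk, mul_assoc g]
    ring

/-- changing the lift by a character -/
theorem Good.twist (hκ : Mu D κ μ) (h : Good D κ α 4 s) (hβ : IsCh D β) :
    Good D κ α 4 (fun g => s g + 2 * (β g).val) ∧ ∀ g ∈ D, ∀ k ∈ D,
      rr (db κ (fun g => s g + 2 * (β g).val) g k / 4) =
        rr (db κ s g k / 4) + (β g + μ g) * β k := by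
  have e : ∀ g k, db κ (fun g => s g + 2 * (β g).val) g k / 4 =
      db κ s g k / 4 + db κ (fun x => (β x).val) g k / 2 := fun g k => by
    simp only [db]
    ring
  refine ⟨⟨h.sm.comp₂ hβ.1 fun a b => a + 2 * b.val, fun g => ?_, fun g hg k hk => ?_⟩,
    fun g hg k hk => ?_⟩
  · have := SelA.add (h.lf g) (mul_le (nat_le (β g).val) SelA.two.le)
    rwa [show s g - (α g).val + (β g).val * 2 = s g + 2 * (β g).val - (α g).val by ring] at this
  · exact e g k ▸ SelA.add (h.co g hg k hk) (first_le hκ hβ hg hk)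
  · rw [e, rr_add (h.co g hg k hk) (first_le hκ hβ hg hk), rr_eq (first hκ hβ hg hk)]

theorem exists_good (hA : CA) (hN : NU2) {w : Pl} {m a : ℤ} (h2 : w.p = 2) (hm : m % 8 = 5)
    (ha : Odd a) (hκ : Mu w.D κ (qz (-m))) : ∃ s, Good w.D κ (qz a) 8 s := by
  have m0 : m ≠ 0 := by omega
  have a0 : a ≠ 0 := by
    rintro rfl
    simp at ha
  have n4 : ‖(4 : ℚ_[2])‖ ≤ 2⁻¹ := by
    rw [show (4 : ℚ_[2]) = 2 * 2 by norm_num]
    exact mul_le (SelA.two.trans_le (by norm_num)) SelA.two.le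
  have k : ∀ b : ℤ, b ≠ 0 → (Triv w.D (sgn fun g h => (qz b g + qz (-m) g) * qz b h) ↔
      Nm w.D b ((b * -m : ℤ) : Om)) := fun b hb => by
    rw [← triv_qz_iff hA w.closed_D (mul_ne_zero hb (neg_ne_zero.2 m0)) hb,
      qz_mul hb (neg_ne_zero.2 m0)]
    rfl
  have g1 : Good w.D κ (qz a) 2 fun g => (qz a g).val :=
    ⟨(isCh_qz a).1.comp fun b => (b.val : ℚ_[2]), by simp,
      fun g hg h hh => first_le hκ (isCh_qz a) hg hh⟩
  have t1 := (k a a0).2 (by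
    have := (nm_neg_self (H := w.D) (a : Om)).mul (fix_int a)
      ((hN w m a h2 hm ha).1.symm (Int.cast_ne_zero.2 a0) (fix_int m))
    rwa [show (-(a : Om)) * m = ((a * -m : ℤ) : Om) by push_cast; ring] at this)
  obtain ⟨θ, hθ⟩ := exists_bd hA.gal w.closed_D (κ := fun g h =>
    rr (db κ (fun g => (qz a g).val) g h / 2)) (t1.congr fun g hg h hh =>
      sgn_inj.2 (rr_eq (first hκ (isCh_qz a) hg hh)))
  have g2 := g1.lift hκ two_ne_zero SelA.two.le hθ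
  rw [show (2 * 2 : ℚ_[2]) = 4 by norm_num] at g2
  suffices ∃ s, Good w.D κ (qz a) 4 s ∧ Triv w.D (sgn fun g h => rr (db κ s g h / 4)) by
    obtain ⟨s, g3, t3⟩ := this
    obtain ⟨θ', hθ'⟩ := exists_bd hA.gal w.closed_D t3
    have g4 := g3.lift hκ (by norm_num) n4 hθ'
    rw [show (4 * 2 : ℚ_[2]) = 8 by norm_num] at g4
    exact ⟨_, g4⟩
  by_contra hc
  obtain ⟨g3, e3⟩ := g2.twist hκ (isCh_qz (H := w.D) 2)
  have c2 : Co2 w.D (sgn fun g h => (qz 2 g + qz (-m) g) * qz 2 h) := by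
    have := co2_cup (H := w.D) (isCh_qz (2 * -m)) (isCh_qz 2)
    rwa [qz_mul two_ne_zero (neg_ne_zero.2 m0)] at this
  have t2 := (hA.die w w.D _ w.loc_D (g2.co2 hκ) (by rw [sgn_sq]; exact Triv.one)).2 _ c2
    (by rw [sgn_sq]; exact Triv.one) (fun h => hc ⟨_, g2, h⟩) fun h => by
      have h3 := (((k 2 two_ne_zero).1 h).mul (fix_int 2)
        ((nm_neg_self (H := w.D) ((2 : ℤ) : Om)).inv (fix_int 2)))
      rw [show ((2 * -m : ℤ) : Om) * (-((2 : ℤ) : Om))⁻¹ = m by push_cast; field_simp] at h3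
      refine (hN w m 1 h2 hm odd_one).2 ?_
      simpa using h3.symm (Int.cast_ne_zero.2 m0) (fix_int 2)
  rw [← sgn_add] at t2
  exact hc ⟨_, g3, t2.congr fun g hg h hh => sgn_inj.2 (e3 g hg h hh)⟩

end TLOC8

theorem t_LOC8 (hA : CA) (hNU2 : NU2) : LOC8 := by
  intro w T δ m a h2 hδ hm ha
  have hf : Fix ⊤ (δ ^ 2) := hδ ▸ fix_int m
  have hκ : TLOC8.Mu w.D (fun g => T.rd δ g 0 0) (qz (-m)) := by
    refine ⟨fun g hg h hh => ?_, fun g => ?_, ?_⟩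
    · simp [T.rd_mul hf, Matrix.mul_apply, SelA.rd_up T δ hh]
    · have := (norm_le_pi_norm _ 0).trans (T.rd_four hA.ec hδ (by omega) g (Pi.single 0 1))
      simpa [Pi.norm_single] using this
    · obtain ⟨N, hN, e⟩ := SelA.rd_sm T δ (ε := 8⁻¹) (by norm_num)
      exact ⟨N, hN, fun n hn => by simpa using e n hn 0 0⟩
  obtain ⟨s, hs⟩ := TLOC8.exists_good hA hNU2 h2 hm ha hκ
  have nv : ∀ x : ℚ_[2], ‖(![x, 0] : V2)‖ = ‖x‖ := fun x => by
    rw [show (![x, 0] : V2) = Pi.single 0 x by ext i; fin_cases i <;> simp, Pi.norm_single]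
  refine ⟨fun g => ![s g, 0], ⟨?_, fun g _ => (nv _).trans_le (hs.le g), fun g hg h hh => ?_⟩,
    fun g _ => ⟨rfl, hs.lf g⟩⟩
  · obtain ⟨N, hN, e⟩ := hs.sm
    exact ⟨N, hN, fun g hg n hn h => by simp [e g hg n hn h]⟩
  · have e : ![s (g * h), 0] - ![s g, 0] - T.rd δ g *ᵥ ![s h, 0] =
        ![-TLOC8.db (fun g => T.rd δ g 0 0) s g h, 0] := by
      ext i
      fin_cases i
      · simp [TLOC8.db]
        ring
      · simp [SelA.rd_up T δ hg]
    have h3 := hs.co g hg h hh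
    rw [norm_div, show (8 : ℚ_[2]) = 2 ^ 3 by norm_num, norm_pow, SelA.two,
      div_le_one (by norm_num), inv_pow] at h3
    rw [e, nv, norm_neg]
    exact h3

end Pool.Agent.P.MP_8b7eba_nt.R2
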