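import Pool.Agent.P.MP_8b7eba_nt.R2.DefsT
import Pool.Agent.P.MP_9c97e9_nt.All.L

/-! Minimality and the Euler product of the model `twd d`. -/

namespace Pool.Agent.P.MP_8b7eba_nt.R2

open MP_9c97e9_nt

namespace TMIN

open Complex WeierstrassCurve Finset

lemma four {d : ℤ} (h4 : d % 4 = 1) : 4 * ((-7 * d - 1) / 4) = -7 * d - 1 := by omega

theorem disc {d : ℤ} (h4 : d % 4 = 1) : (twd d).Δ = 15 ^ 4 * (d.natAbs : ℤ) ^ 6 := by
  have h := four h4
  have h6 : (d.natAbs : ℤ) ^ 6 = d ^ 6 := by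
    rw [Int.natCast_natAbs]
    exact Even.pow_abs (by decide) d
  rw [h6]
  simp only [twd, Δ, b₂, b₄, b₆, b₈]
  generalize (-7 * d - 1) / 4 = a at h
  have h' : (1 : ℤ) ^ 2 + 4 * a = -7 * d := by linarith
  rw [h']
  ring

lemma eqn (d : ℤ) (p : ℕ) (x y : ZMod p) : ((twd d)⁄(ZMod p)).toAffine.Equation x y ↔
    y ^ 2 + x * y = x ^ 3 + (((-7 * d - 1) / 4 : ℤ) : ZMod p) * x ^ 2 - 9 * d ^ 2 * x := by
  rw [Affine.equation_iff]
  simp [twd, baseChange, sub_eq_add_neg]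

lemma odd {d : ℤ} (h4 : d % 4 = 1) {p : ℕ} [Fact p.Prime] (hp : p ≠ 2) :
    ap (twd d) p = -∑ x : ZMod p,
      quadraticChar (ZMod p) (4 * x ^ 3 + 7 * (-d) * x ^ 2 - 36 * (-d) ^ 2 * x) := by
  have h2 : (2 : ZMod p) ≠ 0 := by
    intro h
    have : ((2 : ℕ) : ZMod p) = 0 := by exact_mod_cast h
    rw [ZMod.natCast_eq_zero_iff] at this
    exact hp ((Nat.prime_dvd_prime_iff_eq Fact.out Nat.prime_two).1 this)
  have ha : 4 * (((-7 * d - 1) / 4 : ℤ) : ZMod p) = -7 * d - 1 := by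
    have := congrArg (Int.cast : ℤ → ZMod p) (four h4)
    push_cast at this
    exact this
  let e : ZMod p × ZMod p ≃ ZMod p × ZMod p :=
    (Equiv.refl _).prodShear fun x => (Equiv.mulLeft₀ 2 h2).trans (Equiv.addRight x)
  have h := Mod.card_affine hp fun x : ZMod p =>
    4 * x ^ 3 + 7 * (-d) * x ^ 2 - 36 * (-d) ^ 2 * x
  rw [ap, Nat.card_congr (e.subtypeEquiv (q := fun q : ZMod p × ZMod p =>
    q.2 ^ 2 = 4 * q.1 ^ 3 + 7 * (-d) * q.1 ^ 2 - 36 * (-d) ^ 2 * q.1) ?_), h]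
  · ring
  · rintro ⟨x, y⟩
    rw [eqn]
    change _ ↔ (2 * y + x) ^ 2 = 4 * x ^ 3 + 7 * (-d) * x ^ 2 - 36 * (-d) ^ 2 * x
    rw [← mul_right_inj' (mul_ne_zero h2 h2)]
    constructor
    · intro h1
      linear_combination h1 + x ^ 2 * ha
    · intro h1
      linear_combination h1 - x ^ 2 * ha

theorem ap_eq {d : ℤ} (h4 : d % 4 = 1) {p : ℕ} (hp : p.Prime) :
    ap (twd d) p = jacobiSym p d.natAbs * Mod.an p := by
  have := Fact.mk hp
  by_cases h2 : p = 2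
  · subst h2
    have hn : (d : ZMod 2) = 1 := (ZMod.intCast_eq_one_iff_odd).2 (Int.odd_iff.2 (by omega))
    rw [ap, Mod.an_small.2.2.1, Nat.cast_ofNat, jacobiSym.at_two (Nat.odd_iff.2 (by omega)),
      ZMod.χ₈_nat_eq_if_mod_eight]
    simp only [eqn, hn]
    have : d % 8 = 5 ∨ d % 8 = 1 := by omega
    rcases this with h8 | h8
    · have ha : (((-7 * d - 1) / 4 : ℤ) : ZMod 2) = 1 :=
        (ZMod.intCast_eq_one_iff_odd).2 (Int.odd_iff.2 (by omega))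
      rw [if_neg (by omega), if_neg (by omega)]
      simp only [ha, ap_two.1]
      decide
    · have ha : (((-7 * d - 1) / 4 : ℤ) : ZMod 2) = 0 :=
        (ZMod.intCast_eq_zero_iff_even).2 (Int.even_iff.2 (by omega))
      rw [if_neg (by omega), if_pos (by omega)]
      simp only [ha, ap_two.2]
      decide
  · have h := Mod.jac_recip h4 (hp.odd_of_ne_two h2)
    rw [odd h4 h2, ap_sum h2, ap_an h2, ← h, ← jacobiSym.legendreSym.to_jacobiSym, legendreSym,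
      neg_neg]
    ring

end TMIN

open TMIN WeierstrassCurve

theorem twd_minimal {d : ℤ} (h1 : Squarefree d) (h4 : d % 4 = 1) (p : ℕ) [Fact p.Prime] :
    ((twd d).baseChange ℚ_[p]).IsMinimal ℤ_[p] := by
  have hn : Squarefree d.natAbs := Int.squarefree_natAbs.2 h1
  have hW : ((twd d).baseChange ℚ_[p]).IsIntegral ℤ_[p] :=
    ⟨(twd d).baseChange ℤ_[p], by ext <;> simp [baseChange]⟩
  have hΔ : ((twd d).baseChange ℚ_[p]).Δ = ((15 ^ 4 * (d.natAbs : ℤ) ^ 6 : ℤ) : ℚ_[p]) := by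
    rw [baseChange, map_Δ, disc h4]
    simp
  generalize d.natAbs = n at hn hΔ
  refine ⟨⟨by simpa using hW, fun C hC _ => ?_⟩⟩
  have hC' : (C • (twd d).baseChange ℚ_[p]).IsIntegral ℤ_[p] := hC
  simp only [one_smul]
  rw [← Subtype.coe_le_coe, valuation_Δ_aux_eq_of_isIntegral, valuation_Δ_aux_eq_of_isIntegral,
    variableChange_Δ, map_mul, map_pow]
  refine mul_le_of_le_one_left' (pow_le_one' ?_ _)
  by_cases hu : ‖((C.u⁻¹ : ℚ_[p]ˣ) : ℚ_[p])‖ ≤ 1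
  · exact IsDedekindDomain.HeightOneSpectrum.valuation_le_one (K := ℚ_[p])
      (IsDiscreteValuationRing.maximalIdeal ℤ_[p]) (⟨_, hu⟩ : ℤ_[p])
  · exfalso
    have h1 : ‖(C.u : ℚ_[p])‖ < 1 := by
      rw [not_le, Units.val_inv_eq_inv_val, norm_inv] at hu
      exact (one_lt_inv₀ (norm_pos_iff.2 C.u.ne_zero)).1 hu
    obtain ⟨r, hr⟩ := Δ_integral_of_isIntegral ℤ_[p] (C • (twd d).baseChange ℚ_[p])
    let u : ℤ_[p] := ⟨C.u, h1.le⟩
    have h2 : (p : ℤ_[p]) ∣ u := (PadicInt.norm_lt_one_iff_dvd u).1 h1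
    have h6 : ((15 ^ 4 * n ^ 6 : ℤ) : ℤ_[p]) = u ^ 12 * r := by
      apply Subtype.ext
      rw [variableChange_Δ, hΔ] at hr
      change _ = (C.u : ℚ_[p]) ^ 12 * algebraMap ℤ_[p] ℚ_[p] r
      rw [hr, ← mul_assoc, ← mul_pow, Units.mul_inv, one_pow, one_mul]
      exact PadicInt.coe_intCast _
    have h7 : (p : ℤ_[p]) ^ 12 ∣ ((15 ^ 4 * n ^ 6 : ℤ) : ℤ_[p]) :=
      h6 ▸ (pow_dvd_pow_of_dvd h2 12).mul_right r
    rw [PadicInt.pow_p_dvd_int_iff] at h7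
    exact All.l_not_dvd hn Fact.out (by exact_mod_cast h7)

theorem twd_isL {d : ℤ} (h4 : d % 4 = 1) {L : ℂ → ℂ} (hL : Differentiable ℂ L)
    (hL' : ∀ s : ℂ, 3 / 2 < s.re →
      L s = LSeries (fun k => Mod.chi d.natAbs k * Mod.an k) s) : IsL (twd d) L := by
  refine ⟨hL, fun s hs => ?_⟩
  rw [hL' s hs]
  refine (Mod.euler_chi d.natAbs hs).2.congr_fun fun ⟨p, hp⟩ => ?_
  have hp' := Nat.prime_iff_prime_int.1 hp
  have hd : (p : ℤ) ∣ (twd d).Δ ↔ p ∣ 15 ∨ p ∣ d.natAbs := by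
    rw [disc h4, hp'.dvd_mul, hp'.dvd_pow_iff_dvd (by norm_num),
      hp'.dvd_pow_iff_dvd (by norm_num), Int.natCast_dvd_natCast,
      ← Int.natCast_dvd_natCast (n := 15)]
    rfl
  have h0 : d.natAbs ≠ 0 := by omega
  simp only [Mod.eul, ap_eq h4 hp, hd, Mod.chi]
  generalize d.natAbs = n at h0
  push_cast
  congr 2
  by_cases h15 : p ∣ 15
  · simp [h15]
  · by_cases hn : p ∣ n
    · have h9 : jacobiSym p n = 0 := by
        refine jacobiSym.eq_zero_iff.2 ⟨h0, ?_⟩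
        rw [Int.gcd_natCast_natCast, Nat.gcd_eq_left hn]
        exact hp.ne_one
      simp [h15, hn, h9]
    · have h8 : jacobiSym p n ^ 2 = 1 := jacobiSym.sq_one (by
        rw [Int.gcd_natCast_natCast]
        exact hp.coprime_iff_not_dvd.2 hn)
      have h9 : (jacobiSym p n : ℂ) ^ 2 = 1 := by exact_mod_cast h8
      simp [h15, hn, h9]

theorem isL_uniq {W : WeierstrassCurve ℤ} {L L' : ℂ → ℂ} (h : IsL W L) (h' : IsL W L') :
    L = L' := by
  refine AnalyticOnNhd.eq_of_eventuallyEq (h.1.differentiableOn.analyticOnNhd isOpen_univ)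
    (h'.1.differentiableOn.analyticOnNhd isOpen_univ) (z₀ := 2) ?_
  filter_upwards [(isOpen_lt continuous_const Complex.continuous_re).mem_nhds
    (show (3 : ℝ) / 2 < (2 : ℂ).re by norm_num)] with s hs using (h.2 s hs).unique (h'.2 s hs)

end Pool.Agent.P.MP_8b7eba_nt.R2
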