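import Pool.Agent.P.MP_8b7eba_nt.R2.DefsT
import Pool.Agent.P.MP_8b7eba_nt.R2.TSHA
import Pool.Agent.P.MP_9c97e9_nt.All.G3

/-! Points and the Tate-Shafarevich group of the models `twd d` and `Wd d`. -/

namespace Pool.Agent.P.MP_8b7eba_nt.R2

open MP_9c97e9_nt

namespace TMIS

theorem split_twd {d : ℤ} (h4 : d % 4 = 1) (F : Type) [Field F] [CharZero F] :
    Split (twd d) (0 : F) (-9 * d / 4) (4 * d) := by
  have h0 : (d : F) ≠ 0 := by exact_mod_cast (show d ≠ 0 by omega)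
  have h := congrArg (Int.cast : ℤ → F) (show 4 * ((-7 * d - 1) / 4) = -7 * d - 1 by omega)
  refine ⟨two_ne_zero, by simpa using h0, by simpa using h0,
    fun e => h0 (by linear_combination -4 / 25 * e), ?_, ?_, ?_⟩ <;> simp only [twd]
  · generalize (-7 * d - 1) / 4 = a at h
    push_cast at h ⊢
    linear_combination h
  · push_cast
    ring
  · simp

open Classical in
theorem iso {d : ℤ} (h4 : d % 4 = 1) (F : Type) [Field F] [CharZero F] :
    ∃ ι : Pt (Wd d) F →+ Pt (twd d) F, Function.Bijective ι ∧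
      ∀ P x η, Is P x η → Is (ι P) ((1 / 6) ^ 2 * x + 7 * d / 12) ((1 / 6) ^ 3 * η) := by
  have h0 : (d : F) ≠ 0 := by exact_mod_cast (show d ≠ 0 by omega)
  have hs : Split (Wd d) (-21 * d : F) (-102 * d) (123 * d) := by
    refine ⟨two_ne_zero, fun e => h0 ?_, fun e => h0 ?_, fun e => h0 ?_, ?_, ?_, ?_⟩
    · linear_combination e / 81
    · linear_combination -e / 144
    · linear_combination -e / 225
    all_goals simp only [Wd]; push_cast; ring
  refine TSHA.exists_iso hs ?_ (by norm_num)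
  rw [show (1 / 6) ^ 2 * (-21 * d : F) + 7 * d / 12 = 0 by ring,
    show (1 / 6) ^ 2 * (-102 * d : F) + 7 * d / 12 = -9 * d / 4 by ring,
    show (1 / 6) ^ 2 * (123 * d : F) + 7 * d / 12 = 4 * d by ring]
  exact split_twd h4 F

theorem nsq {d : ℤ} (h8 : d % 8 = 5 ∨ d % 8 = 3) : ¬ IsSquare (d : ℚ) := fun h => by
  obtain ⟨s, rfl⟩ := Rat.isSquare_intCast_iff.1 h
  have h1 := Int.emod_lt_of_pos s (show (0 : ℤ) < 8 by norm_num)
  have h2 := Int.emod_nonneg s (show (8 : ℤ) ≠ 0 by norm_num)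
  rw [Int.mul_emod] at h8
  interval_cases s % 8 <;> omega

section

attribute [local instance 10000] All.g3_dec

theorem fin_tors {d : ℤ} (h8 : d % 8 = 5) : Finite (AddCommGroup.torsion (Pt (twd d) ℚ)) := by
  have h := split_twd (show d % 4 = 1 by omega) ℚ
  refine All.g3_fin_tors h fun P hP => ?_
  rcases two_torsion h hP with e | e | e | e
  · exact e
  · exact (nsq (.inl h8) ⟨2 / 3 * UU _ _ _ P, by linear_combination 4 / 9 * UU_sq h.swap e⟩).elim
  · exact (nsq (d := -d) (.inr (by omega)) ⟨2 / 3 * UU _ _ _ P, by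
      push_cast
      linear_combination 4 / 9 * UU_sq h e⟩).elim
  · exact (nsq (.inl h8) ⟨1 / 2 * UU _ _ _ P, by linear_combination 1 / 4 * UU_sq h e⟩).elim

end

end TMIS

open TMIS

open Classical in
theorem twd_sha {d : ℤ} (h4 : d % 4 = 1) :
    ∃ φ : Sha (Wd d) →+ Sha (twd d), Function.Injective φ := by
  choose ι hb hι using iso h4
  have nat : ∀ {F K : Type} [Field F] [CharZero F] [Field K] [CharZero K] (f : F →+* K)
      (P : Pt (Wd d) F), pm (twd d) f (ι F P) = ι K (pm (Wd d) f P) := fun {F K} _ _ _ _ f P => by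
    rcases zero_or_is P with rfl | ⟨x, η, hP⟩
    · simp
    refine ((hι F _ _ _ hP).map f).unique (split_twd h4 K) ?_
    simpa [map_ofNat] using hι K _ _ _ (hP.map f)
  have loc : ∀ {K : Type} [Field K] [CharZero K] {c : Gal ℚ → Pt (Wd d) Qb}, LocTriv (Wd d) K c →
      LocTriv (twd d) K fun g => ι Qb (c g) := fun {K} _ _ c ⟨P, hP⟩ =>
    ⟨ι _ P, fun σ τ h => by rw [nat, hP σ τ h, map_sub, nat]⟩
  let Φ : shaCocycles (Wd d) →+ shaCocycles (twd d) :=
    (((ι Qb).compLeft (Gal ℚ)).comp (shaCocycles (Wd d)).subtype).codRestrict _ fun c =>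
      ⟨c.2.1.comp (ι Qb), fun σ τ => by
        change ι Qb (c.1 (σ * τ)) = ι Qb (c.1 σ) + pm _ _ (ι Qb (c.1 τ))
        rw [c.2.2.1, map_add, nat], loc c.2.2.2.1, fun p _ => loc (c.2.2.2.2 p)⟩
  have key : (coboundaries (Wd d)).addSubgroupOf (shaCocycles (Wd d)) =
      ((coboundaries (twd d)).addSubgroupOf (shaCocycles (twd d))).comap Φ := by
    ext c
    refine ⟨fun ⟨P, hP⟩ => ⟨ι Qb P, funext fun g => ?_⟩, fun ⟨R, hR⟩ => ?_⟩
    · change pm _ _ (ι Qb P) - ι Qb P = ι Qb (c.1 g)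
      rw [nat, ← map_sub]
      exact congrArg _ (congrFun hP g)
    · obtain ⟨P, rfl⟩ := (hb Qb).2 R
      refine ⟨P, funext fun g => (hb Qb).1 ?_⟩
      change ι Qb (pm _ _ P - P) = ι Qb (c.1 g)
      rw [map_sub, ← nat]
      exact congrFun hR g
  refine ⟨QuotientAddGroup.map _ _ Φ key.le, (injective_iff_map_eq_zero _).2 fun x hx => ?_⟩
  obtain ⟨c, rfl⟩ := QuotientAddGroup.mk_surjective x
  exact (QuotientAddGroup.eq_zero_iff c).2 (key.ge ((QuotientAddGroup.eq_zero_iff (Φ c)).1 hx))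

open Classical in
theorem twd_rank {d : ℤ} (h8 : d % 8 = 5)
    (h : {q : ℚ × ℚ | q.2 ^ 2 = q.1 ^ 3 + ((-12987 * d ^ 2 : ℤ) : ℚ) * q.1 +
      ((-263466 * d ^ 3 : ℤ) : ℚ)}.Infinite) : Module.rank ℤ (Pt (twd d) ℚ) ≠ 0 := by
  intro h0
  have hs := split_twd (show d % 4 = 1 by omega) ℚ
  have h1 : Finite (AddCommGroup.torsion (Pt (twd d) ℚ)) := by
    have e : instDecidableEqRat = fun a b => propDecidable (a = b) := Subsingleton.elim _ _
    rw [e]
    exact fin_tors h8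
  have h2 : Finite (Pt (twd d) ℚ) := Finite.of_surjective
    (fun x : AddCommGroup.torsion (Pt (twd d) ℚ) => x.1) fun P => by
      obtain ⟨a, ha, e⟩ := rank_eq_zero_iff.1 h0 P
      exact ⟨⟨P, isOfFinAddOrder_iff_zsmul_eq_zero.2 ⟨a, ha, e⟩⟩, rfl⟩
  refine h (Set.finite_coe_iff.1 ?_)
  have h3 := fun q : {q : ℚ × ℚ | q.2 ^ 2 = q.1 ^ 3 + ((-12987 * d ^ 2 : ℤ) : ℚ) * q.1 +
      ((-263466 * d ^ 3 : ℤ) : ℚ)} => hs.exists_is (x := (q.1.1 + 21 * d) / 36)
      (η := q.1.2 / 108) (by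
        have := q.2
        simp only [Set.mem_ofPred_eq] at this
        push_cast at this
        linear_combination this / 11664)
  choose f hf using h3
  refine Finite.of_injective f fun p q e => ?_
  obtain ⟨e1, e2⟩ := (hf p).inj (e ▸ hf q)
  exact Subtype.ext (Prod.ext (by linear_combination 36 * e1) (by linear_combination 108 * e2))

end Pool.Agent.P.MP_8b7eba_nt.R2
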