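import Pool.Agent.P.MP_8b7eba_nt.R2.IfA
import Pool.Agent.P.MP_8b7eba_nt.R2.Nrm

/-! The group theory used in the proof of NI. -/

namespace Pool.Agent.P.MP_8b7eba_nt.R2.TNI

theorem hqa (hHQ : HQ) (A : Type) [AddCommGroup A] (σ : A →+ A) (B : AddSubgroup A) (π : A)
    (hA : ∀ z, σ (σ z) = z) (hB : ∀ z ∈ B, σ z ∈ B) (hfi : B.index ≠ 0) (hπ : π ∈ B)
    (hπ' : σ π = π)
    (h1 : ∀ z ∈ B, σ z = z → ∃ u ∈ B, z = u + σ u ∨ z = π + (u + σ u))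
    (h2 : ∀ u ∈ B, π ≠ u + σ u) (h3 : ∀ z ∈ B, z + σ z = 0 → ∃ u ∈ B, z = u - σ u)
    (h4 : ∀ z, z + σ z = 0 → ∃ u, z = u - σ u) :
    (∃ a, σ a = a ∧ ∀ u, a ≠ u + σ u) ∧ ∀ a a', σ a = a → σ a' = a' → (∀ u, a ≠ u + σ u) →
      (∀ u, a' ≠ u + σ u) → ∃ u, a + a' = u + σ u := by
  have k0 : ∀ z, z ∈ (AddMonoidHom.id A - σ).ker ↔ σ z = z := fun z => by
    rw [AddMonoidHom.mem_ker, AddMonoidHom.sub_apply, AddMonoidHom.id_apply, sub_eq_zero, eq_comm]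
  have k1 : ∀ z, z ∈ (AddMonoidHom.id A + σ).ker ↔ z + σ z = 0 := fun z => Iff.rfl
  have b0 : (B.map (AddMonoidHom.id A + σ)).relIndex (B ⊓ (AddMonoidHom.id A - σ).ker) = 2 := by
    refine AddSubgroup.relIndex_eq_two_iff_exists_notMem_and.2 ⟨π, ⟨hπ, (k0 _).2 hπ'⟩, ?_, ?_⟩
    · rintro ⟨u, hu, e⟩
      exact h2 u hu e.symm
    · rintro z ⟨hz, hz'⟩
      obtain ⟨u, hu, e | e⟩ := h1 z hz ((k0 _).1 hz')
      · exact Or.inr ⟨u, hu, e.symm⟩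
      · refine Or.inl ⟨π + u, B.add_mem hπ hu, ?_⟩
        change π + u + σ (π + u) = z + π
        rw [e, map_add, hπ']; abel
  have b1 : (B.map (AddMonoidHom.id A - σ)).relIndex (B ⊓ (AddMonoidHom.id A + σ).ker) = 1 := by
    refine AddSubgroup.relIndex_eq_one.2 ?_
    rintro z ⟨hz, hz'⟩
    obtain ⟨u, hu, e⟩ := h3 z hz hz'
    exact ⟨u, hu, e.symm⟩
  have a1 : (AddMonoidHom.id A - σ).range.relIndex (AddMonoidHom.id A + σ).ker = 1 := by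
    refine AddSubgroup.relIndex_eq_one.2 fun z hz => ?_
    obtain ⟨u, e⟩ := h4 z hz
    exact ⟨u, e.symm⟩
  obtain ⟨-, -, h⟩ := hHQ A σ B hA hB ⟨hfi⟩ 2 1 two_ne_zero one_ne_zero b0 b1
  rw [a1, mul_one, one_mul] at h
  constructor
  · obtain ⟨a, ha, hn, -⟩ := AddSubgroup.relIndex_eq_two_iff_exists_notMem_and.1 h
    exact ⟨a, (k0 _).1 ha, fun u e => hn ⟨u, e.symm⟩⟩
  · intro a a' ha ha' hn hn'
    have := (AddSubgroup.add_mem_iff_of_index_two h (a := ⟨a, (k0 _).2 ha⟩)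
      (b := ⟨a', (k0 _).2 ha'⟩)).2 (iff_of_false (fun ⟨u, e⟩ => hn u e.symm)
        fun ⟨u, e⟩ => hn' u e.symm)
    obtain ⟨u, e⟩ := this
    exact ⟨u, e.symm⟩

theorem hqm (hHQ : HQ) {G : Type} [CommGroup G] (σ : G →* G) (A B : Subgroup G) (π : G)
    (hBA : B ≤ A) (hA : ∀ z ∈ A, σ z ∈ A ∧ σ (σ z) = z) (hB : ∀ z ∈ B, σ z ∈ B)
    (hfi : B.relIndex A ≠ 0) (hπ : π ∈ B) (hπ' : σ π = π)
    (h1 : ∀ z ∈ B, σ z = z → ∃ u ∈ B, z = u * σ u ∨ z = π * (u * σ u))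
    (h2 : ∀ u ∈ B, π ≠ u * σ u) (h3 : ∀ z ∈ B, z * σ z = 1 → ∃ u ∈ B, z = u / σ u)
    (h4 : ∀ z ∈ A, z * σ z = 1 → ∃ u ∈ A, z = u / σ u) :
    (∃ a ∈ A, σ a = a ∧ ∀ u ∈ A, a ≠ u * σ u) ∧ ∀ a ∈ A, ∀ a' ∈ A, σ a = a → σ a' = a' →
      (∀ u ∈ A, a ≠ u * σ u) → (∀ u ∈ A, a' ≠ u * σ u) → ∃ u ∈ A, a * a' = u * σ u := by
  let τ : A →* A := (σ.comp A.subtype).codRestrict A fun z => (hA z z.2).1
  obtain ⟨⟨a, e1, e2⟩, e3⟩ := hqa hHQ (Additive A) (MonoidHom.toAdditive τ)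
    (Subgroup.toAddSubgroup (B.subgroupOf A)) (Additive.ofMul ⟨π, hBA hπ⟩)
    (fun z => Subtype.ext (hA _ (Additive.toMul z).2).2) (fun z hz => hB _ hz)
    (by rw [Subgroup.index_toAddSubgroup]; exact hfi) hπ (Subtype.ext hπ')
    (fun z hz e => by
      obtain ⟨u, hu, e'⟩ := h1 _ hz (congrArg Subtype.val e)
      exact ⟨Additive.ofMul ⟨u, hBA hu⟩, hu, e'.imp Subtype.ext Subtype.ext⟩)
    (fun u hu e => h2 _ hu (congrArg Subtype.val e))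
    (fun z hz e => by
      obtain ⟨u, hu, e'⟩ := h3 _ hz (congrArg Subtype.val e)
      exact ⟨Additive.ofMul ⟨u, hBA hu⟩, hu, Subtype.ext e'⟩)
    (fun z e => by
      obtain ⟨u, hu, e'⟩ := h4 _ (Additive.toMul z).2 (congrArg Subtype.val e)
      exact ⟨Additive.ofMul ⟨u, hu⟩, Subtype.ext e'⟩)
  refine ⟨⟨_, (Additive.toMul a).2, congrArg Subtype.val e1, fun u hu e =>
    e2 (Additive.ofMul ⟨u, hu⟩) (Subtype.ext e)⟩, fun a ha a' ha' f f' g g' => ?_⟩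
  obtain ⟨u, e⟩ := e3 (Additive.ofMul ⟨a, ha⟩) (Additive.ofMul ⟨a', ha'⟩) (Subtype.ext f)
    (Subtype.ext f') (fun u e => g _ (Additive.toMul u).2 (congrArg Subtype.val e))
    fun u e => g' _ (Additive.toMul u).2 (congrArg Subtype.val e)
  exact ⟨_, (Additive.toMul u).2, congrArg Subtype.val e⟩

theorem zp {G : Type} [CommGroup G] (B : Subgroup G) (g : G) {m : ℤ} (hm : m ≠ 0)
    (h : g ^ m ∈ B) : B.relIndex (Subgroup.zpowers g) ≠ 0 := by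
  rw [← Subgroup.range_zpowersHom, ← Subgroup.index_comap]
  have : AddSubgroup.toSubgroup (AddSubgroup.zmultiples m) ≤ B.comap (zpowersHom G g) := by
    rintro _ ⟨k, rfl⟩
    change g ^ (k * m) ∈ B
    rw [mul_comm, zpow_mul]
    exact B.zpow_mem h k
  have h2 := Subgroup.index_dvd_of_le this
  rw [AddSubgroup.index_toSubgroup, Int.index_zmultiples] at h2
  exact ne_zero_of_dvd_ne_zero (Int.natAbs_ne_zero.2 hm) h2

end Pool.Agent.P.MP_8b7eba_nt.R2.TNI
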