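import Pool.Agent.P.MP_8b7eba_nt.R2.SelB

/-! Algebraic lemmas for NV2. -/

namespace Pool.Agent.P.MP_8b7eba_nt.R2.TNV2

open Polynomial

/-- reduction modulo two -/
noncomputable abbrev red : ℤ_[2][X] →+* (ZMod 2)[X] := mapRingHom PadicInt.toZMod

theorem tz_iff (z : ℤ_[2]) : PadicInt.toZMod z = 0 ↔ 2 ∣ z := by
  rw [← RingHom.mem_ker, PadicInt.ker_toZMod, PadicInt.maximalIdeal_eq_span_p,
    Ideal.mem_span_singleton]
  rfl

theorem tz_norm (z : ℤ_[2]) : PadicInt.toZMod z = 0 ↔ ‖z‖ < 1 := by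
  rw [tz_iff, PadicInt.norm_lt_one_iff_dvd]
  rfl

theorem red_two : red 2 = 0 := by
  rw [map_ofNat]
  exact CharTwo.two_eq_zero

theorem red_four : red 4 = 0 := by
  rw [show (4 : ℤ_[2][X]) = 2 * 2 by norm_num, map_mul, red_two, zero_mul]

theorem red_X : red X = X := map_X _

theorem red_C (z : ℤ_[2]) : red (C z) = C (PadicInt.toZMod z) := map_C _

theorem red_eq_zero {p : ℤ_[2][X]} (h : red p = 0) : ∃ q, p = 2 * q := by
  have : C (2 : ℤ_[2]) ∣ p := (C_dvd_iff_dvd_coeff _ _).2 fun i => (tz_iff _).1 (by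
    simpa using congrArg (coeff · i) h)
  rwa [map_ofNat] at this

theorem div2 {F p a b : ℤ_[2][X]} {r : ℕ} (hF : red F = X ^ r) (h : 2 * p = 4 * a + F * b) :
    X ^ r ∣ red p := by
  have h1 := congrArg red h
  simp only [map_mul, map_add, red_two, red_four, zero_mul, zero_add, hF] at h1
  obtain ⟨b', rfl⟩ := red_eq_zero ((mul_eq_zero.1 h1.symm).resolve_left (pow_ne_zero _ X_ne_zero))
  have h2 : p = 2 * a + F * b' := mul_left_cancel₀ (two_ne_zero) (by linear_combination h)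
  rw [h2, map_add, map_mul, map_mul, red_two, hF, zero_mul, zero_add]
  exact dvd_mul_right _ _

theorem alg {ι : Type} {s : ℕ} {F h M : ℤ_[2][X]} (hF : F = X ^ (s + 1) + 2 * X * h) (S : Set ι)
    (P : ι → ℤ_[2][X]) (x : ι → ℤ_[2]) (m : ι → ℕ)
    (H : ∀ g ∈ S, ∃ a b, 2 * P g = ((1 - 2 * C (x g)) * (1 + X) ^ m g - 1) * M + 4 * a + F * b)
    {g₀ : ι} (h0 : g₀ ∈ S) (h1 : m g₀ = 1) : ∃ (n : (ZMod 2)[X]) (μ : ZMod 2), ∀ g ∈ S,
      X ^ (s + 1) ∣ red (P g) - ((1 + X) ^ m g - 1) * n - C (μ * PadicInt.toZMod (x g)) * X ^ s := by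
  have hr : red F = X ^ (s + 1) := by
    simp only [hF, map_add, map_mul, map_pow, red_two, red_X, zero_mul, add_zero]
  obtain ⟨a, b, e⟩ := H g₀ h0
  have e1 := congrArg red e
  simp only [h1, map_mul, map_add, map_sub, map_pow, map_one, red_two, red_four, red_X, hr, zero_mul,
    sub_zero, add_zero] at e1
  obtain ⟨M', e2⟩ := red_eq_zero (p := M + X ^ s * b) (mul_left_cancel₀ X_ne_zero (by
    simp only [map_add, map_mul, map_pow, red_X]
    linear_combination -e1))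
  have e3 := X_mul_divX_add b
  set q := divX b
  set μ := b.coeff 0
  refine ⟨red (C μ * h + M' + X * h * q), PadicInt.toZMod μ, fun g hg => ?_⟩
  obtain ⟨a', b', e4⟩ := H g hg
  obtain ⟨T, hT⟩ : (X : ℤ_[2][X]) ∣ (1 + X) ^ m g - 1 := by
    have := sub_dvd_pow_sub_pow (1 + X : ℤ_[2][X]) 1 (m g)
    rwa [add_sub_cancel_left, one_pow] at this
  have hM : M = -(C μ * X ^ s) - F * q + 2 * (M' + X * h * q) := by
    rw [hF]; linear_combination e2 + X ^ s * e3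
  have hU : (1 + X : ℤ_[2][X]) ^ m g = 1 + X * T := by linear_combination hT
  have := div2 (p := P g - ((1 + X) ^ m g - 1) * (C μ * h + M' + X * h * q) - C μ * C (x g) * X ^ s)
    (a := a' - C (x g) * (1 + X * T) * (M' + X * h * q) - C (x g) * C μ * T * X * h)
    (b := b' - C μ * T + 2 * C (x g) * C μ * T - (X * T - 2 * C (x g) * (1 + X * T)) * q) hr (by
      rw [hM, hU] at e4
      rw [hU]
      have e5 : X ^ (s + 1) = F - 2 * X * h := by rw [hF]; ring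
      linear_combination e4 + (2 * C (x g) * C μ * T - C μ * T) * e5)
  simpa only [map_sub, map_mul, map_pow, map_add, map_one, red_X, red_C] using this

theorem upow {N m m' : ℕ} (h : (2 : ℤ_[2]) ^ N ∣ (m : ℤ_[2]) - m') :
    (X : (ZMod 2)[X]) ^ 2 ^ N ∣ (1 + X) ^ m - (1 + X) ^ m' := by
  have h1 : ((2 : ℕ) ^ N : ℤ) ∣ (m : ℤ) - m' := by
    rw [← PadicInt.pow_p_dvd_int_iff]
    simpa using h
  have key : ∀ a t : ℕ, (X : (ZMod 2)[X]) ^ 2 ^ N ∣ (1 + X) ^ (a + 2 ^ N * t) - (1 + X) ^ a := by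
    intro a t
    rw [pow_add, pow_mul, add_pow_char_pow, one_pow, ← mul_sub_one]
    refine Dvd.dvd.mul_left ?_ _
    have := sub_dvd_pow_sub_pow (1 + (X : (ZMod 2)[X]) ^ 2 ^ N) 1 t
    rwa [add_sub_cancel_left, one_pow] at this
  rcases le_total m' m with hm | hm
  · obtain ⟨t, rfl⟩ := Nat.exists_eq_add_of_le hm
    obtain ⟨t, rfl⟩ : 2 ^ N ∣ t := by
      rw [← Int.natCast_dvd_natCast, Nat.cast_pow]
      rwa [Nat.cast_add, add_sub_cancel_left] at h1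
    exact key _ _
  · obtain ⟨t, rfl⟩ := Nat.exists_eq_add_of_le hm
    obtain ⟨t, rfl⟩ : 2 ^ N ∣ t := by
      rw [← Int.natCast_dvd_natCast, Nat.cast_pow]
      rwa [dvd_sub_comm, Nat.cast_add, add_sub_cancel_left] at h1
    exact dvd_sub_comm.1 (key _ _)

theorem coc {s a b c : ℕ} {p q p' n : (ZMod 2)[X]} {t : ZMod 2}
    (h1 : X ^ (s + 1) ∣ q - ((1 + X) ^ b - 1) * n - C t * X ^ s)
    (h2 : X ^ (s + 2) ∣ p' - p - (1 + X) ^ a * q)
    (h3 : (X : (ZMod 2)[X]) ^ (s + 2) ∣ (1 + X) ^ c - (1 + X) ^ (a + b)) :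
    (p' - ((1 + X) ^ c - 1) * n).coeff (s + 1) = (p - ((1 + X) ^ a - 1) * n).coeff (s + 1) +
      (q - ((1 + X) ^ b - 1) * n).coeff (s + 1) + a * t := by
  obtain ⟨z, hz⟩ := h1
  have e : q - ((1 + X) ^ b - 1) * n = X ^ s * (C t + X * z) := by linear_combination hz
  have h4 : X ^ (s + 2) ∣ p' - ((1 + X) ^ c - 1) * n - (p - ((1 + X) ^ a - 1) * n) -
      X ^ s * ((1 + X) ^ a * (C t + X * z)) := by
    have := h2.sub (h3.mul_right n)
    convert this using 1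
    rw [pow_add]
    linear_combination (1 + X) ^ a * e
  have h5 := X_pow_dvd_iff.1 h4 (s + 1) (by omega)
  rw [coeff_sub, coeff_sub, add_comm s 1, coeff_X_pow_mul, mul_coeff_one] at h5
  rw [e, add_comm s 1, coeff_X_pow_mul]
  simp only [coeff_one_add_X_pow, Nat.choose_zero_right, Nat.choose_one_right, Nat.cast_one,
    coeff_add (C t), coeff_C_zero, coeff_X_mul_zero, add_zero] at h5 ⊢
  linear_combination h5

/-- integral lift of a distinguished polynomial without constant term -/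
theorem lift {f : ℚ_[2][X]} (hf : Dist f) (hX : X ∣ f) : ∃ (s : ℕ) (F h : ℤ_[2][X]),
    f.natDegree = s + 1 ∧ F.Monic ∧ F.map PadicInt.Coe.ringHom = f ∧ F = X ^ (s + 1) + 2 * X * h := by
  have hl : f ∈ lifts PadicInt.Coe.ringHom := by
    rw [lifts_iff_coeff_lifts]
    intro i
    refine ⟨⟨f.coeff i, ?_⟩, rfl⟩
    rcases lt_trichotomy i f.natDegree with h | rfl | h
    · exact (hf.2 i h).le
    · rw [hf.1.coeff_natDegree, norm_one]
    · rw [coeff_eq_zero_of_natDegree_lt h, norm_zero]; exact zero_le_one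
  obtain ⟨F, h1, h2, h3⟩ := lifts_and_natDegree_eq_and_monic hl hf.1
  have hc : ∀ i, (F.coeff i : ℚ_[2]) = f.coeff i := fun i => by rw [← h1, coeff_map]; rfl
  obtain ⟨s, hs⟩ : ∃ s, f.natDegree = s + 1 :=
    ⟨f.natDegree - 1, by have := natDegree_le_of_dvd hX hf.1.ne_zero; simp at this; omega⟩
  obtain ⟨H, hH⟩ := red_eq_zero (p := F - X ^ (s + 1)) (by
    ext i
    rw [map_sub, map_pow, red_X, coeff_sub, coeff_X_pow, coe_mapRingHom, coeff_map, coeff_zero]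
    rcases lt_trichotomy i (s + 1) with h | rfl | h
    · rw [if_neg h.ne, sub_zero, tz_norm, PadicInt.norm_def, hc]
      exact hf.2 i (hs ▸ h)
    · rw [if_pos rfl, ← hs, ← h2, h3.coeff_natDegree, map_one, sub_self]
    · rw [if_neg h.ne', coeff_eq_zero_of_natDegree_lt (by omega), map_zero, sub_zero])
  obtain ⟨h, rfl⟩ : X ∣ H := by
    rw [X_dvd_iff] at hX ⊢
    have e := congrArg (coeff · 0) hH
    have e' : F.coeff 0 = 0 := Subtype.ext ((hc 0).trans hX)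
    simpa [e'] using e
  exact ⟨s, F, h, hs, h3, h1, by linear_combination hH⟩

variable {A : Type} [NormedCommRing A] [NormedAlgebra ℚ_[2] A] {ψ : ℤ_[2] → A}

/-- evaluation of integral polynomials -/
noncomputable def ev (ψ : ℤ_[2] → A) : ℤ_[2][X] →+* A :=
  (aeval (ψ 1 - 1) : ℚ_[2][X] →ₐ[ℚ_[2]] A).toRingHom.comp (mapRingHom PadicInt.Coe.ringHom)

theorem ev_apply (p : ℤ_[2][X]) : ev ψ p = aeval (ψ 1 - 1) (p.map PadicInt.Coe.ringHom) := rfl

theorem ev_C (z : ℤ_[2]) (y : A) : ev ψ (C z) * y = (z : ℚ_[2]) • y := by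
  rw [ev_apply, map_C, aeval_C, Algebra.smul_def]
  rfl

theorem ev_X : ev ψ X = ψ 1 - 1 := by rw [ev_apply, map_X, aeval_X]

theorem ev_U (h : IsPsi ψ) (m : ℕ) : ev ψ ((1 + X) ^ m) = ψ m := by
  rw [map_pow, map_add, map_one, ev_X, h.nat, add_sub_cancel]

theorem ev_ker {G : ℤ_[2][X]} (hG : G.Monic) (h : IsAF ψ (G.map PadicInt.Coe.ringHom))
    {p : ℤ_[2][X]} (e : ev ψ p = 0) : G ∣ p :=
  (map_dvd_map _ Subtype.val_injective hG).1 ((h.2.2 _).1 e)

theorem lat [FiniteDimensional ℚ_[2] A] {G : ℚ_[2][X]} (hG : G.Monic) (h : IsAF ψ G) :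
    ∃ ε : ℝ, 0 < ε ∧ ∀ y : A, ‖y‖ ≤ ε → ∃ p, y = ev ψ (4 * p) := by
  let Φ : (Fin (G.natDegree + 1) → ℚ_[2]) →ₗ[ℚ_[2]] A :=
    Fintype.linearCombination ℚ_[2] fun i => (ψ 1 - 1) ^ (i : ℕ)
  have hs : LinearMap.range Φ = ⊤ := by
    refine eq_top_iff.2 fun y _ => ?_
    obtain ⟨q, rfl⟩ := h.2.1 y
    refine ⟨fun i => (q %ₘ G).coeff i, ?_⟩
    rw [← aeval_modByMonic_eq_self_of_root (p := q) ((h.2.2 G).2 dvd_rfl),
      aeval_eq_sum_range' (Nat.lt_succ_of_le (natDegree_modByMonic_le q hG)), Finset.sum_range]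
    rfl
  obtain ⟨L, hL⟩ := Φ.exists_rightInverse_of_surjective hs
  obtain ⟨K, hK, hb⟩ := (LinearMap.toContinuousLinearMap L).bound
  refine ⟨(4 * K)⁻¹, by positivity, fun y hy => ?_⟩
  have h4 : ‖(4 : ℚ_[2])⁻¹‖ = 4 := by
    rw [norm_inv, show (4 : ℚ_[2]) = ((2 : ℕ) : ℚ_[2]) ^ 2 by norm_num, norm_pow, Padic.norm_p]
    norm_num
  have hn : ∀ i, ‖4⁻¹ * L y i‖ ≤ 1 := fun i => by
    have h1 : ‖L y i‖ ≤ K * (4 * K)⁻¹ :=
      (norm_le_pi_norm _ i).trans ((hb y).trans (by gcongr))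
    rw [norm_mul, h4]
    refine (mul_le_mul_of_nonneg_left h1 (by norm_num)).trans (le_of_eq ?_)
    field_simp
  obtain ⟨z, hz⟩ : ∃ z : Fin (G.natDegree + 1) → ℤ_[2], ∀ i, (z i : ℚ_[2]) = 4⁻¹ * L y i :=
    ⟨fun i => ⟨_, hn i⟩, fun _ => rfl⟩
  refine ⟨∑ i, C (z i) * X ^ (i : ℕ), (LinearMap.congr_fun hL y).symm.trans ?_⟩
  rw [map_mul, map_sum, Finset.mul_sum, LinearMap.comp_apply, Fintype.linearCombination_apply]
  refine Finset.sum_congr rfl fun i _ => ?_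
  rw [map_mul, ev_C, map_pow, ev_X, map_ofNat, mul_smul_comm, hz,
    show ∀ a : A, 4 * a = (4 : ℚ_[2]) • a from fun a => by rw [Algebra.smul_def, map_ofNat],
    smul_smul]
  congr 1
  field_simp

end Pool.Agent.P.MP_8b7eba_nt.R2.TNV2
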