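import Pool.Agent.P.MP_8b7eba_nt.R2.TNV2A
import Pool.Agent.P.MP_8b7eba_nt.R2.BasicP

/-! A local symbol at two which does not vanish. -/

namespace Pool.Agent.P.MP_8b7eba_nt.R2.TNV2

open scoped NNReal

theorem pm {β : Om} {g : GQ} (h : g (β ^ 2) = β ^ 2) : g β = β ∨ g β = -β :=
  sq_eq_sq_iff_eq_or_eq_neg.1 (by rw [← map_pow, h])

theorem sd_act {β : Om} {g : GQ} (h : g (β ^ 2) = β ^ 2) : g β = sd β g * β := by
  unfold sd
  split_ifs with e
  · simp [e]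
  · simp [(pm h).resolve_left e]

theorem sd_cases (β : Om) (g : GQ) : sd β g = 1 ∨ sd β g = -1 := by
  unfold sd
  split_ifs <;> simp

theorem not_nm (hR : RES) {w : Pl} (hw : w.p = 2) {d : ℤ} (hd : d % 8 = 5) :
    ¬ Nm w.D 2 (-d) := by
  rintro ⟨x, y, hx, hy, e⟩
  obtain ⟨-, -, -, hu, -, hap⟩ := hR w _ w.loc_D
  rw [hw] at hu hap
  have hv2 := Pl.v_two' hw
  have hd1 : w.v (-d) ≤ 1 := by simpa using w.v_int_le d
  have h2 : w.v 2 ≤ 1 := by simpa using w.v_nat_le 2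
  have hy1 : w.v y ≤ 1 := by
    by_contra h
    have h0 : 0 < w.v y := zero_lt_one.trans (not_le.1 h)
    have h3 := hu.le hy.inv (by rw [map_inv₀]; exact inv_lt_one_of_one_lt₀ (not_le.1 h))
    rw [map_inv₀, Nat.cast_ofNat, hv2, inv_le_inv₀ h0 two_pos] at h3
    have h4 : w.v (-d) < w.v (2 * y ^ 2) := by
      rw [map_mul, map_pow, hv2]
      refine hd1.trans_lt ?_
      calc (1 : ℝ≥0) < 2⁻¹ * 2 ^ 2 := by norm_num
        _ ≤ _ := by gcongr
    have h5 : w.v (x ^ 2) = w.v (2 * y ^ 2) := by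
      rw [show x ^ 2 = 2 * y ^ 2 + -d by rw [e]; ring, w.v.map_add_eq_of_lt_left h4]
    refine hu.not_ev ⟨x / y, hx.div hy, ?_⟩
    rw [map_div₀, div_pow, ← map_pow, h5, map_mul, map_pow, mul_div_cancel_right₀ _ (by positivity),
      Nat.cast_ofNat]
  have hx1 : w.v x ≤ 1 := by
    rw [← pow_le_one_iff_of_nonneg zero_le two_ne_zero, ← map_pow,
      show x ^ 2 = 2 * y ^ 2 + -d by rw [e]; ring]
    refine w.v.map_add_le ?_ hd1
    rw [map_mul, map_pow]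
    exact mul_le_one' h2 (pow_le_one₀ zero_le hy1)
  obtain ⟨a, ha⟩ := hap x hx hx1 3
  obtain ⟨b, hb⟩ := hap y hy hy1 3
  have h6 := (Pl.v_int_le_iff (w := w) (n := a ^ 2 - 2 * b ^ 2 + d) (k := 3)).1 (by
    rw [hw, show ((a ^ 2 - 2 * b ^ 2 + d : ℤ) : Om) = 2 * (y + b) * (y - b) - (x + a) * (x - a) by
      push_cast; linear_combination -e]
    refine w.v.map_sub_le ?_ ?_
    · rw [map_mul, map_mul]
      exact (mul_le_of_le_one_left zero_le
        (mul_le_one' h2 (w.v.map_add_le hy1 (w.v_nat_le b)))).trans hb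
    · rw [map_mul]
      exact (mul_le_of_le_one_left zero_le (w.v.map_add_le hx1 (w.v_nat_le a))).trans ha)
  rw [hw] at h6
  have h7 := (ZMod.intCast_zmod_eq_zero_iff_dvd _ 8).2 h6
  have h8 : (d : ZMod 8) = 5 := by
    rw [← ZMod.intCast_mod d 8]
    exact congrArg _ hd
  push_cast at h7
  rw [h8] at h7
  generalize (a : ZMod 8) = a' at h7
  generalize (b : ZMod 8) = b' at h7
  revert a' b'
  decide

theorem sqrt_two (hE : EC) (hL : LG) : ∃ s : Om, s ^ 2 = 2 ∧ ∀ g : GQ, g s = s ↔ 2 ∣ lg (cyc g) := by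
  obtain ⟨z, hz⟩ := exists_root (-1 : Om) four_ne_zero
  have h2 : (z - z ^ 3) ^ 2 = 2 := by linear_combination (z ^ 2 - 2) * hz
  refine ⟨z - z ^ 3, h2, fun g => ?_⟩
  have h0 : z - z ^ 3 ≠ -(z - z ^ 3) := fun e => by
    have : z - z ^ 3 = 0 := by linear_combination 2⁻¹ * e
    rw [this] at h2
    norm_num at h2
  have h8 : z ^ 2 ^ 3 = 1 := by linear_combination (z ^ 4 - 1) * hz
  have key : ∀ m : ℤ, (2 : ℤ_[2]) ^ 3 ∣ (cyc g : ℤ_[2]) - m ↔
      PadicInt.toZModPow 3 (cyc g : ℤ_[2]) = m := fun m => by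
    rw [← map_intCast (PadicInt.toZModPow 3), ← sub_eq_zero, ← map_sub, ← RingHom.mem_ker,
      PadicInt.ker_toZModPow, Ideal.mem_span_singleton]
    rfl
  have act : ∀ m : ℕ, PadicInt.toZModPow 3 (cyc g : ℤ_[2]) = (m : ℤ) →
      g (z - z ^ 3) = z ^ m - (z ^ m) ^ 3 := fun m e => by
    rw [map_sub, map_pow, hE.2.2.1 g 3 m z h8 (by simpa using (key m).2 e)]
  have hl := hL.1.dvd 1 (cyc g)
  have k1 := key 1
  have k2 := key (-1)
  rw [Int.cast_one] at k1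
  rw [Int.cast_neg, Int.cast_one, sub_neg_eq_add] at k2
  rw [pow_one, k1, k2] at hl
  rw [hl]
  have hu := (cyc g).isUnit.map (PadicInt.toZModPow 3)
  generalize PadicInt.toZModPow 3 (cyc g : ℤ_[2]) = t at act hu
  have : t = ((1 : ℕ) : ℤ) ∨ t = ((3 : ℕ) : ℤ) ∨ t = ((5 : ℕ) : ℤ) ∨ t = ((7 : ℕ) : ℤ) := by
    obtain ⟨t', e⟩ := hu.exists_right_inv
    clear act hu
    revert t t'
    decide
  rcases this with e | e | e | e <;> rw [act _ e, e]
  · exact iff_of_true (by ring) (by decide)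
  · refine iff_of_false (fun e' => h0 ?_) (by decide)
    linear_combination -e' - (z ^ 5 - z) * hz
  · refine iff_of_false (fun e' => h0 ?_) (by decide)
    linear_combination -e' + (z - z ^ 11 + z ^ 7 - z ^ 3) * hz
  · refine iff_of_true ?_ (by decide)
    linear_combination (z ^ 3 - z ^ 17 + z ^ 13 - z ^ 9 + z ^ 5 - z) * hz

theorem z2 : ∀ a : ZMod 2, a = 0 ∨ a = 1 := by decide

/-- the sign attached to a class modulo two -/
noncomputable def sg (a : ZMod 2) : Om := (-1) ^ a.val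

theorem sg_add (a b : ZMod 2) : sg (a + b) = sg a * sg b := by
  rcases z2 a with rfl | rfl <;> rcases z2 b with rfl | rfl <;>
    simp [sg, show (1 + 1 : ZMod 2) = 0 from rfl, ZMod.val_one]

theorem sg_mul (a b : ZMod 2) : sg (a * b) = sg b ^ a.val := by
  rcases z2 a with rfl | rfl <;> rcases z2 b with rfl | rfl <;> simp [sg, ZMod.val_one]

theorem sg_gal (g : GQ) (a : ZMod 2) : g (sg a) = sg a := by simp [sg]

theorem sg_sq (a : ZMod 2) : sg a * sg a = 1 := by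
  rw [← sg_add, CharTwo.add_self_eq_zero]; rfl

theorem no_lam (hA : CA) (D : Dat) (x : GQ → ℤ_[2])
    (hx : ∀ g, 1 - 2 * x g = sd D.dl g * (cyc g : ℤ_[2])) (l : GQ → ZMod 2) (hs : Sm D.w2.D l)
    (h : ∀ g ∈ D.w2.D, ∀ g' ∈ D.w2.D, l (g * g') = l g + l g' +
      PadicInt.toZMod (D.a g) * PadicInt.toZMod (x g')) : False := by
  have hfd : ∀ g : GQ, g (D.dl ^ 2) = D.dl ^ 2 := fun g => D.fix_dl g trivial
  have hd0 : (D.d : Om) ≠ 0 := Int.cast_ne_zero.2 D.dl_ne.2.2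
  obtain ⟨i, hi⟩ := exists_root (-1 : Om) two_ne_zero
  have hb : (i * D.dl) ^ 2 = -D.d := by rw [mul_pow, hi, D.hdl, neg_one_mul]
  have hb0 : i * D.dl ≠ 0 := fun e => hd0 (by rw [e] at hb; simpa using hb)
  have hact : ∀ g : GQ, g (i * D.dl) / (i * D.dl) = sg (PadicInt.toZMod (x g)) := fun g => by
    rw [div_eq_iff hb0, map_mul, sd_act (hfd g)]
    have h4 : i ^ 2 ^ 2 = 1 := by linear_combination (i ^ 2 - 1) * hi
    have e := hA.ec.2.2.1 g 2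
    have e0 := hx g
    rcases z2 (PadicInt.toZMod (x g)) with t | t
    · obtain ⟨y, hy⟩ := (tz_iff _).1 t
      rw [t]
      rcases sd_cases D.dl g with u | u <;> rw [u] at e0 ⊢
      · rw [e 1 i h4 ⟨-y, by push_cast at e0 ⊢; linear_combination -e0 - 2 * hy⟩]; simp [sg]
      · rw [e 3 i h4 ⟨y - 1, by push_cast at e0 ⊢; linear_combination e0 + 2 * hy⟩, pow_succ, hi]
        simp [sg]
    · obtain ⟨y, hy⟩ := (tz_iff (x g - 1)).1 (by rw [map_sub, t, map_one, sub_self])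
      rw [t]
      rcases sd_cases D.dl g with u | u <;> rw [u] at e0 ⊢
      · rw [e 3 i h4 ⟨-y - 1, by push_cast at e0 ⊢; linear_combination -e0 - 2 * hy⟩, pow_succ, hi]
        simp [sg, ZMod.val_one]
      · rw [e 1 i h4 ⟨y, by push_cast at e0 ⊢; linear_combination e0 + 2 * hy⟩]
        simp [sg, ZMod.val_one]
  obtain ⟨χ, hχ⟩ : ∃ χ : GQ → ZMod 2, ∀ g, χ g = PadicInt.toZMod (D.a g) := ⟨_, fun _ => rfl⟩
  have hadd : ∀ g ∈ D.w2.D, ∀ g' ∈ D.w2.D, χ (g * g') = χ g + χ g' := fun g hg g' hg' => by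
    rw [hχ, hχ, hχ, D.an.add g (D.D_le hg) g' (D.D_le hg'), map_add]
  have hc : IsCh D.w2.D χ := by
    obtain ⟨N, hN, e⟩ := D.an.sm 1
    refine ⟨⟨N, hN, fun g hg n hn hn' => ?_⟩, hadd⟩
    rw [hadd g hg n hn, hχ n, (tz_iff _).2 (by simpa using e n (D.D_le hn) hn'), add_zero]
  have hf : Fix D.w2.D (-D.d : Om) := (fix_int _).neg
  have t1 : Triv D.w2.D (cup χ (-D.d)) := by
    refine ((hA.cup _ _ hf (neg_ne_zero.2 hd0) 2 χ two_ne_zero hc).2.2.2.2.2.2 _ hb).2.iff.2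
      ⟨fun g => sg (l g), hs.comp sg, fun g _ => by simp [sg], fun g hg g' hg' => ?_⟩
    beta_reduce
    rw [hact, sg_gal, sg_gal, ← sg_mul, h g hg g' hg', hχ, sg_add, sg_add, mul_comm, mul_assoc,
      sg_sq, mul_one]
  obtain ⟨s, hs2, hs⟩ := sqrt_two hA.ec hA.lg
  have hs0 : s ≠ 0 := fun e => by rw [e] at hs2; norm_num at hs2
  obtain ⟨f, φ, -, hφ, -, -, -, hdec⟩ := hA.frob D.w2 _ D.w2.loc_D
  have uz : ∀ ξ ξ' : GQ → ZMod 2, IsCh D.w2.D ξ → IsCh D.w2.D ξ' → (∀ g ∈ D.w2.I, ξ g = ξ' g) →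
      ξ φ = ξ' φ → ∀ g ∈ D.w2.D, ξ g = ξ' g := fun ξ ξ' c c' e e' g hg => by
    obtain ⟨N, hN, u⟩ := c.1.comp₂ c'.1 Prod.mk
    obtain ⟨m, j, hj, n, hn, rfl⟩ := hdec N hN g hg
    obtain ⟨u1, u2⟩ := Prod.mk.inj (u _ (mul_mem (pow_mem hφ m) hj.2) n hn.2 hn.1)
    rw [u1, u2, c.2 _ (pow_mem hφ m) _ hj.2, c'.2 _ (pow_mem hφ m) _ hj.2, c.pow hφ, c'.pow hφ, e',
      e j hj.1]
  have hI : ∀ g ∈ D.w2.I, g D.dl = D.dl := fun g hg =>
    Pl.I_fix_two D.hw2 D.hdl (by have := D.d8; omega) hg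
  have sym := fun (β : Om) (h0 : β ≠ 0) (h1 : Fix D.w2.D (β ^ 2)) =>
    hA.sym D.w2.D _ β D.w2.closed_D h0 h1 (isKer_qc _ β)
  have hφd : φ D.dl = -D.dl := (pm (hfd φ)).resolve_left fun e => D.fd (by
    have := uz (qc D.dl) 0 (sym _ D.dl_ne.1 fun g _ => hfd g).1 ⟨Sm.const _, fun _ _ _ _ => rfl⟩
      (fun g hg => by simp [qc, hI g hg]) (by simp [qc, e]) _ D.fD
    simpa [qc] using this)
  have hIs : ∀ g ∈ D.w2.I, χ g = qc s g := fun g hg => by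
    obtain ⟨u, hu⟩ := D.an.two
    have e := (hs g).trans ((tz_iff _).symm)
    rw [hχ, hu g hg, map_mul, qc, show PadicInt.toZMod (u : ℤ_[2]) = 1 from
      (show ∀ a : ZMod 2, IsUnit a → a = 1 by decide) _ (u.isUnit.map _), one_mul]
    split_ifs with e'
    · exact e.1 e'
    · exact (show ∀ a : ZMod 2, a ≠ 0 → a = 1 by decide) _ fun e'' => e' (e.2 e'')
  have fin : ∀ β : Om, β ≠ 0 → Fix D.w2.D (β ^ 2) → (∀ g ∈ D.w2.I, qc s g = qc β g) →
      χ φ = qc β φ → Nm D.w2.D (β ^ 2) (-D.d) := fun β h0 h1 e e' => by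
    have := uz χ (qc β) hc (sym β h0 h1).1 (fun g hg => (hIs g hg).trans (e g hg)) e'
    refine ((sym β h0 h1).2.2.1 _ hf (neg_ne_zero.2 hd0)).1 (t1.congr fun g hg g' hg' => ?_)
    rw [cup, cup, this g hg, this g' hg']
  refine not_nm hA.res D.hw2 D.d8 ?_
  by_cases e : χ φ = qc s φ
  · exact hs2 ▸ fin s hs0 (hs2 ▸ fix_ofNat 2) (fun _ _ => rfl) e
  have h2d : (s * D.dl) ^ 2 = 2 * D.d := by rw [mul_pow, hs2, D.hdl]
  have hf2 : Fix D.w2.D (2 * D.d : Om) := (fix_ofNat 2).mul (fix_int _)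
  have n1 := fin (s * D.dl) (mul_ne_zero hs0 D.dl_ne.1) (h2d ▸ hf2) (fun g hg => by
    simp only [qc, map_mul, hI g hg, mul_left_inj' D.dl_ne.1]) (by
    have e1 : ∀ a b : ZMod 2, a ≠ b → a = b + 1 := by decide
    have e2 : ∀ y : Om, y ≠ 0 → -y ≠ y := fun y hy e => hy (by linear_combination -2⁻¹ * e)
    rw [e1 _ _ e, qc, qc, map_mul, hφd]
    rcases pm (g := φ) (β := s) (by rw [hs2, map_ofNat]) with u | u <;> rw [u]
    · rw [if_pos rfl, mul_neg, if_neg (e2 _ (mul_ne_zero hs0 D.dl_ne.1)), zero_add]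
    · rw [if_neg (e2 _ hs0), neg_mul_neg, if_pos rfl]; rfl)
  rw [h2d] at n1
  have n2 := (n1.symm (neg_ne_zero.2 hd0) hf2).mul hf ((nm_neg_self (H := D.w2.D) (-D.d : Om)).inv hf)
  rw [neg_neg, mul_inv_cancel_right₀ hd0] at n2
  exact n2.symm two_ne_zero hf

end Pool.Agent.P.MP_8b7eba_nt.R2.TNV2
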