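import Pool.Agent.P.MP_8b7eba_nt.R2.DefsH
import Pool.Agent.P.MP_8b7eba_nt.R2.THB

/-! Proof of PAR. -/

namespace Pool.Agent.P.MP_8b7eba_nt.R2

open scoped NNReal Matrix
open Filter Topology Polynomial Module

namespace TPAR

theorem split {V : Type} [AddCommGroup V] [Module ℚ_[2] V] (S : Submodule ℚ_[2] V)
    (c : V →ₗ[ℚ_[2]] V) (hc : ∀ x ∈ S, c x ∈ S ∧ c (c x) = x)
    (hE : ∀ ε : ℚ_[2], (ε = 1 ∨ ε = -1) → ∀ x ∈ S, ∀ y ∈ S, c x = ε • x → c y = ε • y →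
      ∃ a b : ℚ_[2], (a ≠ 0 ∨ b ≠ 0) ∧ a • x + b • y = 0) :
    (∀ x ∈ S, ∀ y ∈ S, ∃ a b : ℚ_[2], (a ≠ 0 ∨ b ≠ 0) ∧ a • x + b • y = 0) ∨
      ∃ p ∈ S, ∃ m ∈ S, p ≠ 0 ∧ m ≠ 0 ∧ c p = (1 : ℚ_[2]) • p ∧ c m = (-1 : ℚ_[2]) • m ∧
        ∀ z ∈ S, ∃ a b : ℚ_[2], z = a • p + b • m := by
  have h1 : ∀ z ∈ S, z + c z ∈ S ∧ c (z + c z) = (1 : ℚ_[2]) • (z + c z) := fun z hz =>
    ⟨S.add_mem hz (hc z hz).1, by rw [map_add, (hc z hz).2, one_smul, add_comm]⟩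
  have h2 : ∀ z ∈ S, z - c z ∈ S ∧ c (z - c z) = (-1 : ℚ_[2]) • (z - c z) := fun z hz =>
    ⟨S.sub_mem hz (hc z hz).1, by rw [map_sub, (hc z hz).2, neg_one_smul, neg_sub]⟩
  have h3 : ∀ ε : ℚ_[2], (ε = 1 ∨ ε = -1) → ∀ x ∈ S, ∀ y ∈ S, c x = ε • x → c y = ε • y → x ≠ 0 →
      ∃ a : ℚ_[2], y = a • x := fun ε hε x hx y hy cx cy x0 => by
    obtain ⟨a, b, k1, k2⟩ := hE ε hε x hx y hy cx cy
    have hb : b ≠ 0 := by
      rintro rfl
      rw [zero_smul, add_zero, smul_eq_zero] at k2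
      tauto
    refine ⟨-(b⁻¹ * a), ?_⟩
    rw [neg_smul, mul_smul, eq_neg_of_add_eq_zero_left k2, smul_neg, neg_neg, inv_smul_smul₀ hb]
  by_cases hp : ∀ z ∈ S, z + c z = 0
  · exact Or.inl fun x hx y hy => hE (-1) (Or.inr rfl) x hx y hy
      (by rw [neg_one_smul]; exact eq_neg_of_add_eq_zero_right (hp x hx))
      (by rw [neg_one_smul]; exact eq_neg_of_add_eq_zero_right (hp y hy))
  by_cases hm : ∀ z ∈ S, z - c z = 0
  · exact Or.inl fun x hx y hy => hE 1 (Or.inl rfl) x hx y hy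
      (by rw [one_smul]; exact (sub_eq_zero.1 (hm x hx)).symm)
      (by rw [one_smul]; exact (sub_eq_zero.1 (hm y hy)).symm)
  push Not at hp hm
  obtain ⟨p, hp, p0⟩ := hp
  obtain ⟨m, hm, m0⟩ := hm
  refine Or.inr ⟨_, (h1 p hp).1, _, (h2 m hm).1, p0, m0, (h1 p hp).2, (h2 m hm).2, fun z hz => ?_⟩
  obtain ⟨a, ha⟩ := h3 1 (Or.inl rfl) _ (h1 p hp).1 _ (h1 z hz).1 (h1 p hp).2 (h1 z hz).2 p0
  obtain ⟨b, hb⟩ := h3 (-1) (Or.inr rfl) _ (h2 m hm).1 _ (h2 z hz).1 (h2 m hm).2 (h2 z hz).2 m0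
  refine ⟨2⁻¹ * a, 2⁻¹ * b, ?_⟩
  rw [mul_smul, mul_smul, ← ha, ← hb, ← smul_add, add_add_sub_cancel, ← two_smul ℚ_[2] z,
    inv_smul_smul₀ two_ne_zero]

theorem indep {τ : V2 →ₗ[ℚ_[2]] V2} {u w : V2} (hu : u ≠ 0) (hw : w ≠ 0) (h1 : τ u = u)
    (h2 : τ w = -w) (a b : ℚ_[2]) (h : a • u + b • w = 0) : a = 0 ∧ b = 0 := by
  have h3 := congrArg τ h
  rw [map_add, map_smul, map_smul, h1, h2, map_zero] at h3
  have h4 : (2 * a) • u = 0 := by linear_combination (norm := module) h + h3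
  have h5 : a = 0 := by
    simpa [hu] using h4
  rw [h5, zero_smul, zero_add, smul_eq_zero] at h
  exact ⟨h5, h.resolve_right hw⟩

theorem perp {u w Y : V2} (hw : w ≠ 0) (h : ∀ a b : ℚ_[2], a • u + b • w = 0 → a = 0 ∧ b = 0)
    (h1 : u 0 * Y 1 = u 1 * Y 0) (h2 : w 0 * Y 1 = w 1 * Y 0) : Y = 0 := by
  have hd : u 0 * w 1 - u 1 * w 0 ≠ 0 := fun hd => by
    have e1 := (h (w 1) (-u 1) (funext fun i => by
      fin_cases i
      · simp only [Fin.zero_eta, Pi.add_apply, Pi.smul_apply, smul_eq_mul, Pi.zero_apply]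
        linear_combination hd
      · simp only [Fin.mk_one, Pi.add_apply, Pi.smul_apply, smul_eq_mul, Pi.zero_apply]
        ring)).1
    have e0 := (h (w 0) (-u 0) (funext fun i => by
      fin_cases i
      · simp only [Fin.zero_eta, Pi.add_apply, Pi.smul_apply, smul_eq_mul, Pi.zero_apply]
        ring
      · simp only [Fin.mk_one, Pi.add_apply, Pi.smul_apply, smul_eq_mul, Pi.zero_apply]
        linear_combination -hd)).1
    exact hw (funext fun i => by fin_cases i <;> assumption)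
  funext i
  fin_cases i
  · exact (mul_eq_zero.1 (show (u 0 * w 1 - u 1 * w 0) * Y 0 = 0 by
      linear_combination w 0 * h1 - u 0 * h2)).resolve_left hd
  · exact (mul_eq_zero.1 (show (u 0 * w 1 - u 1 * w 0) * Y 1 = 0 by
      linear_combination w 1 * h1 - u 1 * h2)).resolve_left hd

theorem low (hP : CP) {D : Dat} {A : Type} [NormedCommRing A] [NormedAlgebra ℚ_[2] A]
    [IsUltrametricDist A] [FiniteDimensional ℚ_[2] A] {ψ : ℤ_[2] → A} {j : ℕ}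
    (h : IsAF ψ (X ^ (j + 1))) {n : List (Kp D)} {k : GS → Fin 2 → A} (hk : D.Sel ψ n k)
    (h0 : k ≠ 0) : ∃ y, D.Sel (fun _ => (1 : ℚ_[2])) n y ∧ y ≠ 0 ∧ ∀ g, k g = 0 → y g = 0 := by
  have c := ((hP.afx.2.2.2.2.2.2 A ψ _ h).1 X (j + 1) irreducible_X rfl).1
  obtain ⟨ν, n1, -, n3⟩ := THB.nu_ex hP.afx (m := j) (by rwa [← pow_succ]) hP.afx.2.2.2.2.2.1
    X_ne_zero
  obtain ⟨α, e1, e2, e3⟩ := THB.ex_min c.nil k j (by simpa using h0)
  obtain ⟨S, hS⟩ := Dat.exists_sel (D := D) h.1 n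
  have hV : ∀ g i, (aeval (ψ 1 - 1) (X : ℚ_[2][X]) ^ (j + 1 - α - 1) • k) g i ∈
      Ideal.span {aeval (ψ 1 - 1) (X : ℚ_[2][X]) ^ j} := fun g i =>
    Ideal.mem_span_singleton.2 ((c.ann (i := 1) (by omega)).1 (by
      have := congrFun (congrFun e2 g) i
      rw [show j + 1 - α = 1 + (j + 1 - α - 1) by omega, pow_add, mul_smul] at this
      exact this))
  refine ⟨_, Dat.Sel.map h.1 isPsi_one ν _ n1 hV hP.toCA
    ((hS _).1 (S.smul_mem _ ((hS _).2 hk))), fun e => e3 ?_, fun g hg => ?_⟩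
  · funext g i
    exact n3 _ (hV g i) (congrFun (congrFun e g) i)
  · funext i
    rw [Pi.smul_apply, hg, smul_zero, Pi.zero_apply, map_zero, Pi.zero_apply]

end TPAR

open TPAR

theorem t_PAR (hCP : CP) (hKTRIV : KTRIV) (hDUAL : DUAL) (hCH2 : CH2) (hUNL : UNL) : PAR := by
  intro D v hv hN hE
  obtain ⟨S, hS⟩ := Dat.exists_sel (D := D) isPsi_one []
  rcases split S (THB.cc D isPsi_one) (fun x hx => by
      have := THB.cc_sel hCP.toCF isPsi_one (π := 0) (fun _ _ _ => rfl) ((hS x).1 hx)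
        (zero_smul _ x)
      exact ⟨(hS _).2 this.1, this.2⟩)
    (fun ε hε x hx y hy cx cy => hE ε hε x y ((hS x).1 hx) ((hS y).1 hy) cx cy) with
    h | ⟨p, hp, m, hm, p0, m0, cp, cm, hsp⟩
  · exact fun x y hx hy => h x ((hS x).2 hx) y ((hS y).2 hy)
  exfalso
  have hp' := (hS p).1 hp
  have hm' := (hS m).1 hm
  obtain ⟨l, -, l1, l2⟩ := (hCH2 D [] ℚ_[2] _ p m isPsi_one hp'.1 hm'.1).2 1 (-1) (Or.inl rfl)
    (Or.inr rfl) p0 m0 cp cm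
  have hK := hKTRIV D l ℚ_[2] _ isPsi_one
  have hD : ∀ x, D.Sel (fun _ => (1 : ℚ_[2])) [] x →
      THB.cc D isPsi_one x l.ph = mv (D.T.rho tau) (x l.ph) := fun x hx =>
    (Dat.nz_of_triv (St_mono (.of_forall fun k => inf_le_right) hK.2.1) (hK.1 _ hK.2.1)).trans
      (hK.2.2.2 x hx.1.pz).1
  have hi := indep (τ := mv (D.T.rho tau)) l1 l2
    (by rw [← hD p hp', cp, one_smul]) (by rw [← hD m hm', cm, neg_one_smul, Pi.neg_apply])
  have inj : ∀ z, D.Sel (fun _ => (1 : ℚ_[2])) [] z → z l.ph = 0 → z = 0 := fun z hz h0 => by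
    obtain ⟨a, b, rfl⟩ := hsp z ((hS z).2 hz)
    obtain ⟨rfl, rfl⟩ := hi a b h0
    rw [zero_smul, zero_smul, add_zero]
  have hd : ∀ i : ℕ, Dist (X ^ i) := fun i => by
    induction i with
    | zero => rw [pow_zero]; exact hCP.afx.2.2.2.2.1
    | succ i ih => rw [pow_succ]; exact hCP.afx.2.1 _ _ ih hCP.afx.2.2.2.1
  obtain ⟨A, _, _, _, _, ψ, h⟩ := hCP.afx.1 _ (hd (2 + 2 * D.sg + 1))
  obtain ⟨t1, -, -⟩ := Tate.tau hCP.tau hCP.ec D.T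
  have hl : Ok [l] := List.pairwise_singleton _ _
  obtain ⟨k1, k2⟩ := hv.2 A ψ h.1 [] List.Pairwise.nil
  have h1 : D.kap ψ (v []) ≠ 0 := fun e =>
    hN A ψ _ h (hd _) (dvd_pow_self _ (Nat.succ_ne_zero _)) (by rw [natDegree_X_pow]; omega)
      fun g _ => by rw [e, SelB.ln_zero, Pi.zero_apply]
  obtain ⟨z, z1, z2, z3⟩ := low hCP h k1 h1
  have h2 : D.kap ψ (v [l]) ≠ 0 := fun e => z2 (inj z z1 (z3 _ (by
    have e1 := congrArg (mv (D.T.rho tau)) (k2 l hl)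
    rwa [e, Pi.zero_apply, map_zero, ← mv_mul, t1, mv_one, eq_comm] at e1)))
  obtain ⟨y, y1, y2, -⟩ := low hCP h (hv.2 A ψ h.1 [l] hl).1 h2
  have h3 := perp l2 hi ((hDUAL D ℚ_[2] _ isPsi_one).1 l [] p y hl hp' y1)
    ((hDUAL D ℚ_[2] _ isPsi_one).1 l [] m y hl hm' y1)
  have h4 : y l.t = 0 := by
    have e1 := congrArg (mv (D.T.rho tau)) h3
    rwa [map_zero, ← mv_mul, t1, mv_one] at e1
  exact y2 (inj y (hUNL D l y y1 h4) (y1.1.tr l (List.mem_singleton_self l)))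

end Pool.Agent.P.MP_8b7eba_nt.R2
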